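import Pool.Agent.Helper82.GC.Def

set_option autoImplicit false

open MeasureTheory Set

namespace Pool.Agent.Helper82.GC



theorem aux_hasDerivAt_gauss (x : ℝ) :
    HasDerivAt (fun x : ℝ => Real.exp (-x ^ 2 / 2)) (-x * Real.exp (-x ^ 2 / 2)) x := by
  have h1 : HasDerivAt (fun x : ℝ => -x ^ 2 / 2) (-x) x := by
    have h2 := ((hasDerivAt_pow 2 x).neg).div_const 2
    refine h2.congr_deriv ?_
    norm_num
    ring
  have h3 := h1.exp
  refine h3.congr_deriv ?_
  ring

theorem Zr_pos {r : ℝ} (hr : 0 < r) : 0 < Zr r := by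
  unfold Zr
  refine intervalIntegral.intervalIntegral_pos_of_pos ?_ (fun x => Real.exp_pos _) (by linarith)
  exact (by fun_prop : Continuous (fun x : ℝ => Real.exp (-x ^ 2 / 2))).intervalIntegrable _ _

theorem phi_zero {r : ℝ} (hr : 0 < r) : phi r 0 = 1 := by
  unfold phi G
  simp only [zero_mul, Real.cos_zero, one_mul]
  exact div_self (Zr_pos hr).ne'

theorem phi_neg (r t : ℝ) : phi r (-t) = phi r t := by
  unfold phi G
  simp only [neg_mul, Real.cos_neg]

theorem abs_phi_le_one {r : ℝ} (hr : 0 < r) (t : ℝ) : |phi r t| ≤ 1 := by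
  unfold phi
  rw [abs_div, abs_of_pos (Zr_pos hr), div_le_one (Zr_pos hr)]
  unfold G Zr
  refine le_trans (intervalIntegral.abs_integral_le_integral_abs (by linarith)) ?_
  refine intervalIntegral.integral_mono_on (by linarith) ?_ ?_ ?_
  · exact (by fun_prop : Continuous (fun x : ℝ => |Real.cos (t * x) * Real.exp (-x ^ 2 / 2)|)).intervalIntegrable _ _
  · exact (by fun_prop : Continuous (fun x : ℝ => Real.exp (-x ^ 2 / 2))).intervalIntegrable _ _
  · intro x _
    rw [abs_mul, abs_of_pos (Real.exp_pos _)]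
    have := Real.abs_cos_le_one (t * x)
    have h2 := Real.exp_pos (-x ^ 2 / 2)
    nlinarith

/-- integration by parts -/
theorem aux_parts (r t : ℝ) : (∫ x in (-r)..r, Real.sin (t * x) * (-x * Real.exp (-x ^ 2 / 2)))
    = 2 * Real.exp (-r ^ 2 / 2) * Real.sin (r * t) - t * G r t := by
  have h1 : ∀ x ∈ uIcc (-r) r, HasDerivAt (fun x : ℝ => Real.sin (t * x)) (t * Real.cos (t * x)) x := by
    intro x _
    have h2 : HasDerivAt (fun x : ℝ => t * x) t x := by
      simpa using (hasDerivAt_id x).const_mul t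
    have h3 := h2.sin
    refine h3.congr_deriv ?_
    ring
  have h4 := intervalIntegral.integral_mul_deriv_eq_deriv_mul (a := -r) (b := r) h1
    (fun x _ => aux_hasDerivAt_gauss x)
    ((by fun_prop : Continuous (fun x : ℝ => t * Real.cos (t * x))).intervalIntegrable _ _)
    ((by fun_prop : Continuous (fun x : ℝ => -x * Real.exp (-x ^ 2 / 2))).intervalIntegrable _ _)
  rw [h4]
  have h5 : (∫ x in (-r)..r, t * Real.cos (t * x) * Real.exp (-x ^ 2 / 2)) = t * G r t := by
    unfold G
    rw [← intervalIntegral.integral_const_mul]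
    congr 1
    ext x
    ring
  rw [h5]
  have h6 : t * -r = -(r * t) := by ring
  have h7 : t * r = r * t := by ring
  have h8 : (-r) ^ 2 = r ^ 2 := by ring
  rw [h6, h7, Real.sin_neg, h8]
  ring

theorem aux_G_hasDerivAt (r t : ℝ) :
    HasDerivAt (G r) (2 * Real.exp (-r ^ 2 / 2) * Real.sin (r * t) - t * G r t) t := by
  rw [← aux_parts]
  have h := intervalIntegral.hasDerivAt_integral_of_dominated_loc_of_deriv_le
    (μ := volume) (a := -r) (b := r) (F := fun t x : ℝ => Real.cos (t * x) * Real.exp (-x ^ 2 / 2))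
    (F' := fun t x : ℝ => Real.sin (t * x) * (-x * Real.exp (-x ^ 2 / 2)))
    (x₀ := t) (s := univ) (bound := fun x => |x|) Filter.univ_mem
    (Filter.Eventually.of_forall fun s =>
      (by fun_prop : Continuous (fun x : ℝ => Real.cos (s * x) * Real.exp (-x ^ 2 / 2))).aestronglyMeasurable)
    ((by fun_prop : Continuous (fun x : ℝ => Real.cos (t * x) * Real.exp (-x ^ 2 / 2))).intervalIntegrable _ _)
    ((by fun_prop : Continuous (fun x : ℝ => Real.sin (t * x) * (-x * Real.exp (-x ^ 2 / 2)))).aestronglyMeasurable)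
    (Filter.Eventually.of_forall fun x _ s _ => by
      rw [Real.norm_eq_abs, abs_mul, abs_mul, abs_neg, abs_of_pos (Real.exp_pos _)]
      have h1 := Real.abs_sin_le_one (s * x)
      have h2 : Real.exp (-x ^ 2 / 2) ≤ 1 := Real.exp_le_one_iff.mpr (by nlinarith [sq_nonneg x])
      have h3 := Real.exp_pos (-x ^ 2 / 2)
      have h4 := abs_nonneg x
      have h5 : |x| * Real.exp (-x ^ 2 / 2) ≤ |x| := by nlinarith
      have h6 : 0 ≤ |x| * Real.exp (-x ^ 2 / 2) := by positivity
      nlinarith)
    ((by fun_prop : Continuous (fun x : ℝ => |x|)).intervalIntegrable _ _)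
    (Filter.Eventually.of_forall fun x _ s _ => by
      have h2 : HasDerivAt (fun s : ℝ => s * x) x s := by
        simpa using (hasDerivAt_id s).mul_const x
      have h3 := (h2.cos).mul_const (Real.exp (-x ^ 2 / 2))
      refine h3.congr_deriv ?_
      ring)
  exact h.2

theorem phi_hasDerivAt {r : ℝ} (hr : 0 < r) (t : ℝ) :
    HasDerivAt (phi r) (-(t * phi r t) + Kr r / r * Real.sin (r * t)) t := by
  have h := (aux_G_hasDerivAt r t).div_const (Zr r)
  refine h.congr_deriv ?_
  have hz := (Zr_pos hr).ne'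
  unfold phi Kr
  field_simp
  ring

theorem phi_decay {r : ℝ} (hr : 0 < r) {t : ℝ} (ht : t ≠ 0) :
    |phi r t| ≤ 2 / (Zr r * |t|) := by
  have hz := Zr_pos hr
  have htp : 0 < |t| := abs_pos.mpr ht
  have h1 : |t * G r t| ≤ 2 := by
    have h2 : t * G r t = 2 * Real.exp (-r ^ 2 / 2) * Real.sin (r * t)
        - ∫ x in (-r)..r, Real.sin (t * x) * (-x * Real.exp (-x ^ 2 / 2)) := by
      rw [aux_parts]; ring
    have hint : (∫ x in (0:ℝ)..r, x * Real.exp (-x ^ 2 / 2)) = 1 - Real.exp (-r ^ 2 / 2) := by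
      have h3 : ∀ x ∈ uIcc 0 r, HasDerivAt (fun x : ℝ => -Real.exp (-x ^ 2 / 2))
          (x * Real.exp (-x ^ 2 / 2)) x := by
        intro x _
        refine (aux_hasDerivAt_gauss x).neg.congr_deriv ?_
        ring
      rw [intervalIntegral.integral_eq_sub_of_hasDerivAt h3
        ((by fun_prop : Continuous (fun x : ℝ => x * Real.exp (-x ^ 2 / 2))).intervalIntegrable _ _)]
      norm_num
      ring
    have hb : (∫ x in (-r)..r, |x| * Real.exp (-x ^ 2 / 2)) = 2 * (1 - Real.exp (-r ^ 2 / 2)) := by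
      have hc : ∀ a b : ℝ, IntervalIntegrable (fun x : ℝ => |x| * Real.exp (-x ^ 2 / 2)) volume a b :=
        fun a b => (by fun_prop : Continuous (fun x : ℝ => |x| * Real.exp (-x ^ 2 / 2))).intervalIntegrable _ _
      rw [← intervalIntegral.integral_add_adjacent_intervals (hc (-r) 0) (hc 0 r)]
      have h5 : (∫ x in (0:ℝ)..r, |x| * Real.exp (-x ^ 2 / 2)) = 1 - Real.exp (-r ^ 2 / 2) := by
        rw [← hint]
        refine intervalIntegral.integral_congr fun x hx => ?_
        rw [uIcc_of_le hr.le] at hx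
        show |x| * Real.exp (-x ^ 2 / 2) = x * Real.exp (-x ^ 2 / 2)
        rw [abs_of_nonneg hx.1]
      have h6 : (∫ x in (-r)..(0:ℝ), |x| * Real.exp (-x ^ 2 / 2)) = 1 - Real.exp (-r ^ 2 / 2) := by
        rw [← h5]
        have := intervalIntegral.integral_comp_neg (a := 0) (b := r)
          (fun x : ℝ => |x| * Real.exp (-x ^ 2 / 2))
        simp only [neg_zero, abs_neg, neg_sq] at this
        rw [← this]
      rw [h5, h6]; ring
    have h7 : |∫ x in (-r)..r, Real.sin (t * x) * (-x * Real.exp (-x ^ 2 / 2))|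
        ≤ 2 * (1 - Real.exp (-r ^ 2 / 2)) := by
      rw [← hb]
      refine le_trans (intervalIntegral.abs_integral_le_integral_abs (by linarith)) ?_
      refine intervalIntegral.integral_mono_on (by linarith) ?_ ?_ ?_
      · exact (by fun_prop : Continuous (fun x : ℝ => |Real.sin (t * x) * (-x * Real.exp (-x ^ 2 / 2))|)).intervalIntegrable _ _
      · exact (by fun_prop : Continuous (fun x : ℝ => |x| * Real.exp (-x ^ 2 / 2))).intervalIntegrable _ _
      · intro x _
        rw [abs_mul, abs_mul, abs_neg, abs_of_pos (Real.exp_pos _)]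
        have h1 := Real.abs_sin_le_one (t * x)
        have h6 : 0 ≤ |x| * Real.exp (-x ^ 2 / 2) := by positivity
        nlinarith
    have h8 : |2 * Real.exp (-r ^ 2 / 2) * Real.sin (r * t)| ≤ 2 * Real.exp (-r ^ 2 / 2) := by
      rw [abs_mul, abs_of_pos (by positivity)]
      have h1 := Real.abs_sin_le_one (r * t)
      have h6 : 0 < 2 * Real.exp (-r ^ 2 / 2) := by positivity
      nlinarith
    rw [h2]
    refine le_trans (abs_sub _ _) ?_
    linarith
  unfold phi
  rw [abs_div, abs_of_pos hz, div_le_div_iff₀ hz (by positivity)]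
  rw [abs_mul] at h1
  nlinarith

end Pool.Agent.Helper82.GC
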