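import Pool.Agent.Helper82.GC.A1

set_option autoImplicit false

open MeasureTheory Set

namespace Pool.Agent.Helper82.GC



theorem wcont : Continuous (fun x : ℝ => Real.exp (-x ^ 2 / 2)) := by fun_prop

theorem w_hasDeriv (x : ℝ) :
    HasDerivAt (fun x : ℝ => Real.exp (-x ^ 2 / 2)) (-x * Real.exp (-x ^ 2 / 2)) x := by
  have h1 : HasDerivAt (fun x : ℝ => -x ^ 2 / 2) (-x) x := by
    have h : HasDerivAt (fun x : ℝ => -x ^ 2 / 2) (-(((2 : ℕ) : ℝ) * x ^ (2 - 1)) / 2) x :=
      ((hasDerivAt_pow 2 x).neg).div_const 2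
    refine h.congr_deriv ?_
    norm_num
    ring
  have h2 := h1.exp
  convert h2 using 1
  ring

theorem KZ {r : ℝ} (hr : 0 < r) : Kr r * Zr r = 2 * r * Real.exp (-r ^ 2 / 2) := by
  unfold Kr
  exact div_mul_cancel₀ _ (Zr_pos hr).ne'

theorem moment_two {r : ℝ} (hr : 0 < r) :
    ∫ x in (-r)..r, x ^ 2 * Real.exp (-x ^ 2 / 2) = vr r * Zr r := by
  have h1 : ∫ x in (-r)..r, (x ^ 2 * Real.exp (-x ^ 2 / 2) - Real.exp (-x ^ 2 / 2))
      = (-r * Real.exp (-r ^ 2 / 2)) - (-(-r) * Real.exp (-(-r) ^ 2 / 2)) := by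
    apply intervalIntegral.integral_eq_sub_of_hasDerivAt
      (f := fun x => -x * Real.exp (-x ^ 2 / 2))
    · intro x _
      have h : HasDerivAt (fun x : ℝ => -x * Real.exp (-x ^ 2 / 2))
          (-1 * Real.exp (-x ^ 2 / 2) + (-x) * (-x * Real.exp (-x ^ 2 / 2))) x :=
        ((hasDerivAt_id x).neg).mul (w_hasDeriv x)
      refine h.congr_deriv ?_
      ring
    · apply Continuous.intervalIntegrable
      fun_prop
  rw [intervalIntegral.integral_sub (Continuous.intervalIntegrable (by fun_prop) _ _)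
    (Continuous.intervalIntegrable (by fun_prop) _ _)] at h1
  have h2 : ∫ x in (-r)..r, Real.exp (-x ^ 2 / 2) = Zr r := rfl
  rw [h2] at h1
  have h3 := KZ hr
  unfold vr
  rw [neg_sq] at h1
  linarith

theorem moment_four {r : ℝ} (hr : 0 < r) :
    ∫ x in (-r)..r, x ^ 4 * Real.exp (-x ^ 2 / 2) = (3 * vr r - r ^ 2 * Kr r) * Zr r := by
  have h1 : ∫ x in (-r)..r, (x ^ 4 * Real.exp (-x ^ 2 / 2) - 3 * (x ^ 2 * Real.exp (-x ^ 2 / 2)))
      = (-r ^ 3 * Real.exp (-r ^ 2 / 2)) - (-(-r) ^ 3 * Real.exp (-(-r) ^ 2 / 2)) := by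
    apply intervalIntegral.integral_eq_sub_of_hasDerivAt
      (f := fun x => -x ^ 3 * Real.exp (-x ^ 2 / 2))
    · intro x _
      have h : HasDerivAt (fun x : ℝ => -x ^ 3 * Real.exp (-x ^ 2 / 2))
          (-(((3 : ℕ) : ℝ) * x ^ (3 - 1)) * Real.exp (-x ^ 2 / 2)
            + (-x ^ 3) * (-x * Real.exp (-x ^ 2 / 2))) x :=
        ((hasDerivAt_pow 3 x).neg).mul (w_hasDeriv x)
      refine h.congr_deriv ?_
      norm_num
      ring
    · apply Continuous.intervalIntegrable
      fun_prop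
  rw [intervalIntegral.integral_sub (Continuous.intervalIntegrable (by fun_prop) _ _)
    (Continuous.intervalIntegrable (by fun_prop) _ _), intervalIntegral.integral_const_mul,
    moment_two hr] at h1
  have h3 := KZ hr
  rw [neg_sq] at h1
  have h4 : r ^ 2 * Kr r * Zr r = r ^ 2 * (2 * r * Real.exp (-r ^ 2 / 2)) := by
    rw [mul_assoc, h3]
  have h5 : (-r) ^ 3 = - r ^ 3 := by ring
  rw [h5] at h1
  nlinarith [h1, h4]

theorem vr_pos {r : ℝ} (hr : 0 < r) : 0 < vr r := by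
  have h1 : 0 < ∫ x in (-r)..r, x ^ 2 * Real.exp (-x ^ 2 / 2) := by
    apply intervalIntegral.integral_pos (by linarith)
    · apply Continuous.continuousOn; fun_prop
    · intro x _; positivity
    · exact ⟨r, ⟨by linarith, le_refl _⟩, by positivity⟩
  rw [moment_two hr] at h1
  exact (pos_iff_pos_of_mul_pos h1).mpr (Zr_pos hr)

theorem vr_lt_one {r : ℝ} (hr : 0 < r) : vr r < 1 := by
  have h1 : 0 < Kr r := by
    unfold Kr
    have := Zr_pos hr
    positivity
  unfold vr; linarith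

theorem vr_lt {r : ℝ} (hr : 0 < r) : vr r < r ^ 2 / 3 := by
  have h1 : 0 < ∫ x in (-r)..r, (r ^ 2 * (x ^ 2 * Real.exp (-x ^ 2 / 2))
      - x ^ 4 * Real.exp (-x ^ 2 / 2)) := by
    apply intervalIntegral.integral_pos (by linarith)
    · apply Continuous.continuousOn; fun_prop
    · intro x hx
      have h2 : x ^ 2 ≤ r ^ 2 := by
        apply sq_le_sq'
        · linarith [hx.1]
        · exact hx.2
      have h3 : r ^ 2 * (x ^ 2 * Real.exp (-x ^ 2 / 2)) - x ^ 4 * Real.exp (-x ^ 2 / 2)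
        = x ^ 2 * (r ^ 2 - x ^ 2) * Real.exp (-x ^ 2 / 2) := by ring
      rw [h3]
      have h4 : 0 ≤ r ^ 2 - x ^ 2 := by linarith
      positivity
    · refine ⟨r / 2, ⟨by linarith, by linarith⟩, ?_⟩
      have h3 : r ^ 2 * ((r / 2) ^ 2 * Real.exp (-(r / 2) ^ 2 / 2))
        - (r / 2) ^ 4 * Real.exp (-(r / 2) ^ 2 / 2)
        = (3 / 16) * r ^ 4 * Real.exp (-(r / 2) ^ 2 / 2) := by ring
      rw [h3]
      positivity
  rw [intervalIntegral.integral_sub (Continuous.intervalIntegrable (by fun_prop) _ _)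
    (Continuous.intervalIntegrable (by fun_prop) _ _), intervalIntegral.integral_const_mul,
    moment_two hr, moment_four hr] at h1
  have hK : Kr r = 1 - vr r := by unfold vr; ring
  rw [hK] at h1
  have h5 : 0 < (r ^ 2 * vr r - (3 * vr r - r ^ 2 * (1 - vr r))) * Zr r := by
    calc 0 < _ := h1
      _ = _ := by ring
  have h6 := (pos_iff_pos_of_mul_pos h5).mpr (Zr_pos hr)
  linarith

theorem phi_lower {r : ℝ} (hr : 0 < r) (t : ℝ) : 1 - vr r * t ^ 2 / 2 ≤ phi r t := by
  unfold phi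
  rw [le_div_iff₀ (Zr_pos hr)]
  have h1 : ∫ x in (-r)..r, (Real.exp (-x ^ 2 / 2)
      - t ^ 2 / 2 * (x ^ 2 * Real.exp (-x ^ 2 / 2))) ≤ G r t := by
    unfold G
    apply intervalIntegral.integral_mono_on (by linarith)
      (Continuous.intervalIntegrable (by fun_prop) _ _)
      (Continuous.intervalIntegrable (by fun_prop) _ _)
    intro x _
    have h2 := Real.one_sub_sq_div_two_le_cos (x := t * x)
    have h3 : 0 < Real.exp (-x ^ 2 / 2) := Real.exp_pos _
    have h4 := mul_le_mul_of_nonneg_right h2 h3.le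
    calc _ = (1 - (t * x) ^ 2 / 2) * Real.exp (-x ^ 2 / 2) := by ring
      _ ≤ _ := h4
  rw [intervalIntegral.integral_sub (Continuous.intervalIntegrable (by fun_prop) _ _)
    (Continuous.intervalIntegrable (by fun_prop) _ _), intervalIntegral.integral_const_mul,
    moment_two hr] at h1
  have h2 : ∫ x in (-r)..r, Real.exp (-x ^ 2 / 2) = Zr r := rfl
  rw [h2] at h1
  calc _ = Zr r - t ^ 2 / 2 * (vr r * Zr r) := by ring
    _ ≤ _ := h1

end Pool.Agent.Helper82.GC
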