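import Pool.Agent.Helper82.GC.A1

set_option autoImplicit false

open MeasureTheory Set

namespace Pool.Agent.Helper82.GC



theorem phi_sq_integrable {r : ℝ} (hr : 0 < r) : Integrable (fun t => phi r t ^ 2) := by
  have hc : Continuous (phi r) :=
    continuous_iff_continuousAt.2 fun t => (phi_hasDerivAt hr t).continuousAt
  set C : ℝ := 2 / Zr r with hC
  have hCpos : 0 < C := div_pos two_pos (Zr_pos hr)
  have hint : Integrable (fun t : ℝ => (1 + C ^ 2) * (1 + t ^ 2)⁻¹) :=
    integrable_inv_one_add_sq.const_mul _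
  refine hint.mono' (hc.pow 2).aestronglyMeasurable (Filter.Eventually.of_forall fun t => ?_)
  rw [Real.norm_eq_abs, abs_of_nonneg (sq_nonneg _)]
  rw [← div_eq_mul_inv, le_div_iff₀ (by positivity)]
  have h1 : phi r t ^ 2 ≤ 1 := by
    have := abs_phi_le_one hr t
    rw [← sq_abs]
    nlinarith [abs_nonneg (phi r t)]
  have h2 : phi r t ^ 2 * t ^ 2 ≤ C ^ 2 := by
    rcases eq_or_ne t 0 with rfl | ht
    · simp only [ne_eq, OfNat.ofNat_ne_zero, not_false_eq_true, zero_pow, mul_zero]
      positivity
    · have h3 := phi_decay hr ht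
      have h4 : |phi r t| * |t| ≤ C := by
        have ht' : 0 < |t| := abs_pos.2 ht
        calc |phi r t| * |t| ≤ 2 / (Zr r * |t|) * |t| := by gcongr
          _ = C := by
            rw [hC]
            field_simp
      have h5 : phi r t ^ 2 * t ^ 2 = (|phi r t| * |t|) ^ 2 := by
        rw [mul_pow, sq_abs, sq_abs]
      rw [h5]
      have h6 : 0 ≤ |phi r t| * |t| := by positivity
      nlinarith
  nlinarith

/-- the weight as a complex function -/
noncomputable def wC (r : ℝ) : ℝ → ℂ :=
  (Icc (-r) r).indicator (fun x => ((Real.exp (-x ^ 2 / 2) : ℝ) : ℂ))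

theorem wC_integrable (r : ℝ) : Integrable (wC r) := by
  unfold wC
  rw [integrable_indicator_iff measurableSet_Icc]
  apply ContinuousOn.integrableOn_Icc
  apply Continuous.continuousOn
  fun_prop

theorem norm_wC_le_one (r x : ℝ) : ‖wC r x‖ ≤ 1 := by
  unfold wC
  by_cases hx : x ∈ Icc (-r) r
  · rw [indicator_of_mem hx, Complex.norm_real, Real.norm_eq_abs, Real.abs_exp]
    rw [Real.exp_le_one_iff]
    nlinarith [sq_nonneg x]
  · rw [indicator_of_notMem hx]
    simp

theorem fourier_wC {r : ℝ} (hr : 0 < r) (ξ : ℝ) :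
    FourierTransform.fourier (wC r) ξ = ((G r (2 * Real.pi * ξ) : ℝ) : ℂ) := by
  have hle : -r ≤ r := by linarith
  rw [Real.fourier_eq']
  have e1 : ∀ v : ℝ, Complex.exp (((-2 * Real.pi * (inner ℝ v ξ) : ℝ) : ℂ) * Complex.I) • wC r v =
      (Icc (-r) r).indicator (fun v : ℝ =>
        ((Real.cos (2 * Real.pi * ξ * v) * Real.exp (-v ^ 2 / 2) : ℝ) : ℂ) -
        ((Real.sin (2 * Real.pi * ξ * v) * Real.exp (-v ^ 2 / 2) : ℝ) : ℂ) * Complex.I) v := by
    intro v
    unfold wC
    by_cases hv : v ∈ Icc (-r) r
    · rw [indicator_of_mem hv, indicator_of_mem hv]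
      have h0 : (inner ℝ v ξ : ℝ) = ξ * v := by simp
      rw [h0, smul_eq_mul]
      have h1 : (((-2 * Real.pi * (ξ * v) : ℝ) : ℂ) * Complex.I) =
          ((-(2 * Real.pi * ξ * v) : ℝ) : ℂ) * Complex.I := by
        push_cast; ring
      rw [h1, Complex.exp_mul_I, ← Complex.ofReal_cos, ← Complex.ofReal_sin, Real.cos_neg,
        Real.sin_neg]
      push_cast
      ring
    · rw [indicator_of_notMem hv, indicator_of_notMem hv, smul_zero]
  simp_rw [e1]
  rw [integral_indicator measurableSet_Icc, integral_Icc_eq_integral_Ioc,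
    ← intervalIntegral.integral_of_le hle]
  rw [intervalIntegral.integral_sub, intervalIntegral.integral_ofReal,
    intervalIntegral.integral_mul_const, intervalIntegral.integral_ofReal]
  · have hodd : (∫ x in (-r)..r, Real.sin (2 * Real.pi * ξ * x) * Real.exp (-x ^ 2 / 2)) = 0 := by
      have h := intervalIntegral.integral_comp_neg
        (f := fun x => Real.sin (2 * Real.pi * ξ * x) * Real.exp (-x ^ 2 / 2)) (a := -r) (b := r)
      simp only [neg_neg, mul_neg, Real.sin_neg, even_two.neg_pow, neg_mul,
        intervalIntegral.integral_neg] at h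
      linarith
    rw [hodd]
    simp [G]
  · apply Continuous.intervalIntegrable
    fun_prop
  · apply Continuous.intervalIntegrable
    fun_prop

theorem phi_sq_integral {r : ℝ} (hr : 0 < r) :
    ∫ t, phi r t ^ 2 = 2 * Real.pi * (∫ x in (-r)..r, Real.exp (-x ^ 2)) / Zr r ^ 2 := by
  have hle : -r ≤ r := by linarith
  have hZ := Zr_pos hr
  have hG : ∀ t, G r t = Zr r * phi r t := by
    intro t
    unfold phi
    field_simp
  have hG2 : ∀ t, G r t ^ 2 = Zr r ^ 2 * phi r t ^ 2 := by
    intro t; rw [hG]; ring
  have hGint : Integrable (fun t => G r t ^ 2) := by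
    simp_rw [hG2]
    exact (phi_sq_integrable hr).const_mul _
  have hw := wC_integrable r
  set h : ℝ → ℂ := MeasureTheory.convolution (wC r) (wC r) (ContinuousLinearMap.mul ℂ ℂ) volume
    with hh
  have hhint : Integrable h := hw.integrable_convolution _ hw
  have hF : ∀ ξ, FourierTransform.fourier h ξ = ((G r (2 * Real.pi * ξ) ^ 2 : ℝ) : ℂ) := by
    intro ξ
    rw [hh, Real.fourier_mul_convolution_eq hw hw, fourier_wC hr]
    push_cast
    ring
  have hpi : (2 * Real.pi) ≠ 0 := by positivity
  have hFint : Integrable (FourierTransform.fourier h) := by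
    have : FourierTransform.fourier h = fun ξ => ((G r (2 * Real.pi * ξ) ^ 2 : ℝ) : ℂ) :=
      funext hF
    rw [this]
    exact (hGint.comp_mul_left' hpi).ofReal
  have hcont : ContinuousAt h 0 := by
    rw [hh]
    unfold MeasureTheory.convolution
    refine MeasureTheory.continuousAt_of_dominated (bound := fun t => ‖wC r t‖) ?_ ?_ hw.norm ?_
    · refine Filter.Eventually.of_forall fun s => ?_
      simp only [ContinuousLinearMap.mul_apply']
      exact hw.aestronglyMeasurable.mul
        ((hw.comp_sub_left s).aestronglyMeasurable)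
    · refine Filter.Eventually.of_forall fun s => Filter.Eventually.of_forall fun t => ?_
      simp only [ContinuousLinearMap.mul_apply', norm_mul]
      calc ‖wC r t‖ * ‖wC r (s - t)‖ ≤ ‖wC r t‖ * 1 := by
            gcongr
            exact norm_wC_le_one _ _
        _ = ‖wC r t‖ := mul_one _
    · have hae : ∀ᵐ t : ℝ, t ≠ r ∧ t ≠ -r := by
        have h1 : ∀ᵐ t : ℝ, t ≠ r := MeasureTheory.Measure.ae_ne volume r
        have h2 : ∀ᵐ t : ℝ, t ≠ -r := MeasureTheory.Measure.ae_ne volume (-r)
        filter_upwards [h1, h2] with t ha hb using ⟨ha, hb⟩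
      filter_upwards [hae] with t ht
      simp only [ContinuousLinearMap.mul_apply']
      refine ContinuousAt.mul continuousAt_const ?_
      have hwc : ContinuousAt (wC r) (0 - t) := by
        have hfr : (0 - t) ∉ frontier (Icc (-r) r) := by
          rw [frontier_Icc (by linarith)]
          simp only [mem_insert_iff, mem_singleton_iff, not_or]
          exact ⟨fun h => ht.1 (by linarith), fun h => ht.2 (by linarith)⟩
        unfold wC
        have hcc : Continuous (fun x : ℝ => ((Real.exp (-x ^ 2 / 2) : ℝ) : ℂ)) := by fun_prop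
        by_cases hm : (0 - t) ∈ interior (Icc (-r) r)
        · refine hcc.continuousAt.congr ?_
          filter_upwards [isOpen_interior.mem_nhds hm] with x hx
          rw [indicator_of_mem (interior_subset hx)]
        · have hm2 : (0 - t) ∈ (Icc (-r) r)ᶜ := by
            intro hx
            exact hfr ⟨subset_closure hx, hm⟩
          refine (continuousAt_const (y := (0 : ℂ))).congr ?_
          filter_upwards [isClosed_Icc.isOpen_compl.mem_nhds hm2] with x hx
          rw [indicator_of_notMem hx]
      exact ContinuousAt.comp (f := fun s : ℝ => s - t) hwc (by fun_prop)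
  have hinv := hhint.fourierInv_fourier_eq hFint hcont
  have hL : FourierTransformInv.fourierInv (FourierTransform.fourier h) (0 : ℝ) =
      (((2 * Real.pi)⁻¹ * ∫ t, G r t ^ 2 : ℝ) : ℂ) := by
    rw [Real.fourierInv_eq']
    simp only [inner_zero_right, mul_zero, Complex.ofReal_zero, zero_mul, Complex.exp_zero,
      one_smul]
    simp_rw [hF]
    have hof : (∫ v : ℝ, ((G r (2 * Real.pi * v) ^ 2 : ℝ) : ℂ)) =
        ((∫ v : ℝ, G r (2 * Real.pi * v) ^ 2 : ℝ) : ℂ) := integral_complex_ofReal
    rw [hof]
    congr 1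
    have := MeasureTheory.Measure.integral_comp_mul_left (fun t => G r t ^ 2) (2 * Real.pi)
    rw [this, abs_of_pos (by positivity), smul_eq_mul]
  have hR : h 0 = ((∫ x in (-r)..r, Real.exp (-x ^ 2) : ℝ) : ℂ) := by
    rw [hh, MeasureTheory.convolution_def]
    simp only [ContinuousLinearMap.mul_apply', zero_sub]
    have e1 : ∀ t : ℝ, wC r t * wC r (-t) =
        (Icc (-r) r).indicator (fun t : ℝ => ((Real.exp (-t ^ 2) : ℝ) : ℂ)) t := by
      intro t
      unfold wC
      by_cases ht : t ∈ Icc (-r) r
      · have ht' : -t ∈ Icc (-r) r := ⟨by linarith [ht.2], by linarith [ht.1]⟩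
        rw [indicator_of_mem ht, indicator_of_mem ht', indicator_of_mem ht, ← Complex.ofReal_mul,
          ← Real.exp_add]
        congr 2
        ring
      · rw [indicator_of_notMem ht, indicator_of_notMem ht, zero_mul]
    simp_rw [e1]
    rw [integral_indicator measurableSet_Icc, integral_Icc_eq_integral_Ioc,
      ← intervalIntegral.integral_of_le hle, intervalIntegral.integral_ofReal]
  rw [hL, hR] at hinv
  have hinv' := Complex.ofReal_injective hinv
  have hGφ : ∫ t, G r t ^ 2 = Zr r ^ 2 * ∫ t, phi r t ^ 2 := by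
    simp_rw [hG2]
    rw [integral_const_mul]
  rw [hGφ] at hinv'
  rw [← hinv']
  field_simp

end Pool.Agent.Helper82.GC
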