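import Pool.Agent.Helper82.GC.A2

set_option autoImplicit false

open MeasureTheory Set

namespace Pool.Agent.Helper82.GC



theorem phi_cont {r : ℝ} (hr : 0 < r) : Continuous (phi r) :=
  continuous_iff_continuousAt.mpr fun t => (phi_hasDerivAt hr t).continuousAt

theorem phi_sq_lt {r : ℝ} (hr : 0 < r) {t : ℝ} (ht : 0 < t) : phi r t ^ 2 < 1 := by
  have hZ := Zr_pos hr
  have hpi := Real.pi_pos
  have hrr : -r < r := by linarith
  have hc1 : Continuous (fun x : ℝ => (1 - Real.cos (t * x)) * Real.exp (-x ^ 2 / 2)) := by fun_prop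
  have hc2 : Continuous (fun x : ℝ => (1 + Real.cos (t * x)) * Real.exp (-x ^ 2 / 2)) := by fun_prop
  have hcG : Continuous (fun x : ℝ => Real.cos (t * x) * Real.exp (-x ^ 2 / 2)) := by fun_prop
  have hcZ : Continuous (fun x : ℝ => Real.exp (-x ^ 2 / 2)) := by fun_prop
  have h1 : 0 < ∫ x in (-r)..r, (1 - Real.cos (t * x)) * Real.exp (-x ^ 2 / 2) := by
    apply intervalIntegral.integral_pos hrr hc1.continuousOn
    · intro x _
      exact mul_nonneg (by linarith [Real.cos_le_one (t * x)]) (Real.exp_pos _).le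
    · refine ⟨min r (1 / t), ⟨?_, min_le_left _ _⟩, ?_⟩
      · have : 0 < min r (1 / t) := lt_min hr (by positivity)
        linarith
      · apply mul_pos _ (Real.exp_pos _)
        have hm : 0 < min r (1 / t) := lt_min hr (by positivity)
        have hu : 0 < t * min r (1 / t) := mul_pos ht hm
        have hu1 : t * min r (1 / t) ≤ 1 := by
          calc t * min r (1 / t) ≤ t * (1 / t) := mul_le_mul_of_nonneg_left (min_le_right _ _) ht.le
            _ = 1 := by field_simp
        have h2 := Real.cos_le_one_sub_mul_cos_sq (x := t * min r (1 / t)) (by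
          rw [abs_of_pos hu]
          linarith [Real.pi_gt_three])
        have h3 : 0 < 2 / Real.pi ^ 2 * (t * min r (1 / t)) ^ 2 := by positivity
        linarith
  have h2 : 0 < ∫ x in (-r)..r, (1 + Real.cos (t * x)) * Real.exp (-x ^ 2 / 2) := by
    apply intervalIntegral.integral_pos hrr hc2.continuousOn
    · intro x _
      exact mul_nonneg (by linarith [Real.neg_one_le_cos (t * x)]) (Real.exp_pos _).le
    · refine ⟨0, ⟨by linarith, hr.le⟩, ?_⟩
      rw [mul_zero, Real.cos_zero]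
      have := Real.exp_pos (-(0 : ℝ) ^ 2 / 2)
      linarith
  have e1 : ∫ x in (-r)..r, (1 - Real.cos (t * x)) * Real.exp (-x ^ 2 / 2) = Zr r - G r t := by
    unfold Zr G
    rw [← intervalIntegral.integral_sub (hcZ.intervalIntegrable _ _) (hcG.intervalIntegrable _ _)]
    congr 1
    funext x
    ring
  have e2 : ∫ x in (-r)..r, (1 + Real.cos (t * x)) * Real.exp (-x ^ 2 / 2) = Zr r + G r t := by
    unfold Zr G
    rw [← intervalIntegral.integral_add (hcZ.intervalIntegrable _ _) (hcG.intervalIntegrable _ _)]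
    congr 1
    funext x
    ring
  rw [e1] at h1
  rw [e2] at h2
  have h3 : |phi r t| < 1 := by
    unfold phi
    rw [abs_lt]
    constructor
    · rw [lt_div_iff₀ hZ]
      linarith
    · rw [div_lt_iff₀ hZ]
      linarith
  have h4 : phi r t ^ 2 = |phi r t| ^ 2 := (sq_abs _).symm
  rw [h4]
  nlinarith [abs_nonneg (phi r t)]

theorem phi_small {r : ℝ} (hr : 0 < r) {t : ℝ} (ht : 0 ≤ t) (htr : t * r ≤ 1) :
    0 ≤ phi r t ∧ phi r t ≤ 1 - 2 / Real.pi ^ 2 * vr r * t ^ 2 := by
  have hZ := Zr_pos hr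
  have hpi := Real.pi_pos
  have hrr : -r ≤ r := by linarith
  have hcG : Continuous (fun x : ℝ => Real.cos (t * x) * Real.exp (-x ^ 2 / 2)) := by fun_prop
  have hcZ : Continuous (fun x : ℝ => Real.exp (-x ^ 2 / 2)) := by fun_prop
  have hcM : Continuous (fun x : ℝ => x ^ 2 * Real.exp (-x ^ 2 / 2)) := by fun_prop
  have hcM2 : Continuous (fun x : ℝ => 2 / Real.pi ^ 2 * t ^ 2 * (x ^ 2 * Real.exp (-x ^ 2 / 2))) := by fun_prop
  have hcD : Continuous (fun x : ℝ => Real.exp (-x ^ 2 / 2) - 2 / Real.pi ^ 2 * t ^ 2 * (x ^ 2 * Real.exp (-x ^ 2 / 2))) := by fun_prop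
  have hbd : ∀ x ∈ Set.Icc (-r) r, |t * x| ≤ 1 := by
    intro x hx
    rw [abs_mul, abs_of_nonneg ht]
    have : |x| ≤ r := abs_le.mpr ⟨hx.1, hx.2⟩
    exact (mul_le_mul_of_nonneg_left this ht).trans htr
  constructor
  · unfold phi
    apply div_nonneg _ hZ.le
    unfold G
    apply intervalIntegral.integral_nonneg hrr
    intro x hx
    apply mul_nonneg _ (Real.exp_pos _).le
    apply Real.cos_nonneg_of_mem_Icc
    have h1 := abs_le.mp (hbd x hx)
    have h2 := Real.pi_gt_three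
    constructor <;> linarith [h1.1, h1.2]
  · unfold phi
    rw [div_le_iff₀ hZ]
    have h1 : G r t ≤ ∫ x in (-r)..r, (Real.exp (-x ^ 2 / 2) - 2 / Real.pi ^ 2 * t ^ 2 * (x ^ 2 * Real.exp (-x ^ 2 / 2))) := by
      unfold G
      apply intervalIntegral.integral_mono_on hrr (hcG.intervalIntegrable _ _)
        (hcD.intervalIntegrable _ _)
      intro x hx
      have h2 := Real.cos_le_one_sub_mul_cos_sq (x := t * x) ((hbd x hx).trans (by linarith [Real.pi_gt_three]))
      have h3 := mul_le_mul_of_nonneg_right h2 (Real.exp_pos (-x ^ 2 / 2)).le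
      refine h3.trans (le_of_eq ?_)
      ring
    have h4 : ∫ x in (-r)..r, (Real.exp (-x ^ 2 / 2) - 2 / Real.pi ^ 2 * t ^ 2 * (x ^ 2 * Real.exp (-x ^ 2 / 2))) =
        Zr r - 2 / Real.pi ^ 2 * t ^ 2 * (vr r * Zr r) := by
      rw [intervalIntegral.integral_sub (hcZ.intervalIntegrable _ _)
        (hcM2.intervalIntegrable _ _), intervalIntegral.integral_const_mul, moment_two hr]
      rfl
    rw [h4] at h1
    refine h1.trans (le_of_eq ?_)
    ring

theorem phi_env_pos {r : ℝ} (hr : 0 < r) :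
    ∃ β : ℝ, 0 < β ∧ ∀ t : ℝ, 0 < t → phi r t ^ 2 * (1 + β * t ^ 2) ≤ 1 := by
  have hZ := Zr_pos hr
  have hv := vr_pos hr
  have hpi := Real.pi_pos
  set a := 2 / Real.pi ^ 2 * vr r with ha
  have ha0 : 0 < a := by positivity
  set T := 4 / Zr r with hT
  have hT0 : 0 < T := by positivity
  have hq : ∃ q < 1, ∀ t ∈ Set.Icc (1 / r) T, phi r t ^ 2 ≤ q := by
    by_cases hne : (Set.Icc (1 / r) T).Nonempty
    · obtain ⟨m, hm, hmax⟩ := isCompact_Icc.exists_isMaxOn hne ((phi_cont hr).pow 2).continuousOn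
      have hm0 : 0 < m := lt_of_lt_of_le (by positivity) hm.1
      exact ⟨phi r m ^ 2, phi_sq_lt hr hm0, fun t ht => hmax ht⟩
    · exact ⟨0, one_pos, fun t ht => absurd ⟨t, ht⟩ hne⟩
  obtain ⟨q, hq1, hq⟩ := hq
  refine ⟨min a (min (Zr r ^ 2 / 8) ((1 - q) / T ^ 2)), ?_, ?_⟩
  · refine lt_min ha0 (lt_min (by positivity) (div_pos (by linarith) (by positivity)))
  intro t ht
  set β := min a (min (Zr r ^ 2 / 8) ((1 - q) / T ^ 2)) with hβ
  have hβ0 : 0 < β := lt_min ha0 (lt_min (by positivity) (div_pos (by linarith) (by positivity)))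
  have hβa : β ≤ a := min_le_left _ _
  have hβZ : β ≤ Zr r ^ 2 / 8 := (min_le_right _ _).trans (min_le_left _ _)
  have hβT : β ≤ (1 - q) / T ^ 2 := (min_le_right _ _).trans (min_le_right _ _)
  have ht2 : 0 < t ^ 2 := by positivity
  have hphi1 : phi r t ^ 2 ≤ 1 := (phi_sq_lt hr ht).le
  have hphi0 : 0 ≤ phi r t ^ 2 := sq_nonneg _
  by_cases h1 : t * r ≤ 1
  · obtain ⟨hp0, hp1⟩ := phi_small hr ht.le h1
    rw [← ha] at hp1
    have h2 : phi r t ^ 2 ≤ phi r t := by
      have : phi r t ≤ 1 := by nlinarith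
      nlinarith
    have h3 : 0 ≤ 1 + β * t ^ 2 := by positivity
    calc phi r t ^ 2 * (1 + β * t ^ 2) ≤ phi r t * (1 + β * t ^ 2) := mul_le_mul_of_nonneg_right h2 h3
      _ ≤ (1 - a * t ^ 2) * (1 + β * t ^ 2) := mul_le_mul_of_nonneg_right hp1 h3
      _ ≤ (1 - a * t ^ 2) * (1 + a * t ^ 2) := by
          apply mul_le_mul_of_nonneg_left _ (hp0.trans hp1)
          have := mul_le_mul_of_nonneg_right hβa ht2.le
          linarith
      _ ≤ 1 := by nlinarith [sq_nonneg (a * t ^ 2)]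
  · push Not at h1
    have h1r : 1 / r ≤ t := by
      rw [div_le_iff₀ hr]
      exact h1.le
    by_cases h2 : t ≤ T
    · have h3 := hq t ⟨h1r, h2⟩
      have h4 : β * t ^ 2 ≤ 1 - q := by
        have h5 : t ^ 2 ≤ T ^ 2 := pow_le_pow_left₀ ht.le h2 2
        calc β * t ^ 2 ≤ (1 - q) / T ^ 2 * T ^ 2 := mul_le_mul hβT h5 ht2.le (div_nonneg (by linarith) (by positivity))
          _ = 1 - q := by field_simp
      have h6 : phi r t ^ 2 * (β * t ^ 2) ≤ β * t ^ 2 := mul_le_of_le_one_left (by positivity) hphi1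
      nlinarith
    · push Not at h2
      have h3 := phi_decay hr ht.ne'
      rw [abs_of_pos ht] at h3
      have h4 : phi r t ^ 2 ≤ (2 / (Zr r * t)) ^ 2 := by
        rw [← sq_abs]
        exact pow_le_pow_left₀ (abs_nonneg _) h3 2
      have h5 : (2 / (Zr r * t)) ^ 2 * t ^ 2 = 4 / Zr r ^ 2 := by
        field_simp
        norm_num
      have h6 : phi r t ^ 2 * t ^ 2 ≤ 4 / Zr r ^ 2 := by
        rw [← h5]
        exact mul_le_mul_of_nonneg_right h4 ht2.le
      have h7 : β * (phi r t ^ 2 * t ^ 2) ≤ 1 / 2 := by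
        calc β * (phi r t ^ 2 * t ^ 2) ≤ Zr r ^ 2 / 8 * (4 / Zr r ^ 2) :=
              mul_le_mul hβZ h6 (by positivity) (by positivity)
          _ = 1 / 2 := by
              field_simp
              norm_num
      have h8 : phi r t ^ 2 ≤ 1 / 4 := by
        have h9 : T ^ 2 ≤ t ^ 2 := pow_le_pow_left₀ hT0.le h2.le 2
        have h10 : T ^ 2 = 16 / Zr r ^ 2 := by
          rw [hT]
          field_simp
          norm_num
        have h11 : phi r t ^ 2 * (16 / Zr r ^ 2) ≤ 4 / Zr r ^ 2 := by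
          rw [← h10]
          exact (mul_le_mul_of_nonneg_left h9 hphi0).trans h6
        have h12 : 0 < 4 / Zr r ^ 2 := by positivity
        have h13 : 16 / Zr r ^ 2 = 4 * (4 / Zr r ^ 2) := by ring
        rw [h13] at h11
        nlinarith
      nlinarith

theorem phi_envelope {r : ℝ} (hr : 0 < r) :
    ∃ β : ℝ, 0 < β ∧ ∀ t : ℝ, phi r t ^ 2 * (1 + β * t ^ 2) ≤ 1 := by
  obtain ⟨β, hβ, h⟩ := phi_env_pos hr
  refine ⟨β, hβ, fun t => ?_⟩
  rcases lt_trichotomy t 0 with ht | ht | ht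
  · have := h (-t) (by linarith)
    rw [phi_neg, neg_sq] at this
    exact this
  · rw [ht, phi_zero hr]
    norm_num
  · exact h t ht

end Pool.Agent.Helper82.GC
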