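import Pool.Agent.Helper82.GC.Def

set_option autoImplicit false

open MeasureTheory Set

namespace Pool.Agent.Helper82.GC













theorem exp_poly (w : ℝ) (h0 : 0 ≤ w) (h1 : w ≤ 1) :
    |Real.exp (-w) - (1 - w + w ^ 2 / 2 - w ^ 3 / 6 + w ^ 4 / 24 - w ^ 5 / 120 + w ^ 6 / 720 -
      w ^ 7 / 5040 + w ^ 8 / 40320)| ≤ w ^ 9 * (10 / 3265920) := by
  have h := Real.exp_bound (x := -w) (by rw [abs_neg, abs_of_nonneg h0]; exact h1) (n := 9) (by norm_num)
  rw [abs_neg, abs_of_nonneg h0] at h
  simp only [Finset.sum_range_succ, Finset.sum_range_zero, Nat.factorial] at h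
  norm_num at h
  have e : (1 - w + w ^ 2 / 2 - w ^ 3 / 6 + w ^ 4 / 24 - w ^ 5 / 120 + w ^ 6 / 720 -
      w ^ 7 / 5040 + w ^ 8 / 40320) = (1 + -w + (-w) ^ 2 / 2 + (-w) ^ 3 / 6 + (-w) ^ 4 / 24 + (-w) ^ 5 / 120
      + (-w) ^ 6 / 720 + (-w) ^ 7 / 5040 + (-w) ^ 8 / 40320) := by ring
  rw [e]
  have e2 : w ^ 9 * (10 / 3265920) = w ^ 9 * (1 / 326592) := by norm_num
  rw [e2]
  convert h using 3
  ring

theorem Zr_one_bounds : 1.711248 < Zr 1 ∧ Zr 1 < 1.711250 := by
  have hint : ∀ x ∈ Set.Icc (-1:ℝ) 1, |Real.exp (-x ^ 2 / 2) - (1 - (x^2/2) + (x^2/2) ^ 2 / 2 - (x^2/2) ^ 3 / 6 + (x^2/2) ^ 4 / 24 - (x^2/2) ^ 5 / 120 + (x^2/2) ^ 6 / 720 -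
      (x^2/2) ^ 7 / 5040 + (x^2/2) ^ 8 / 40320)| ≤ (x^2/2) ^ 9 * (10 / 3265920) := by
    intro x hx
    have h2 : x ^ 2 ≤ 1 := by nlinarith [hx.1, hx.2]
    have := exp_poly (x ^ 2 / 2) (by positivity) (by linarith)
    rw [neg_div]
    exact this
  have c1 : IntervalIntegrable (fun x : ℝ => Real.exp (-x ^ 2 / 2)) volume (-1) 1 :=
    (by fun_prop : Continuous (fun x : ℝ => Real.exp (-x ^ 2 / 2))).intervalIntegrable _ _
  have c2 : IntervalIntegrable (fun x : ℝ => (1 - (x^2/2) + (x^2/2) ^ 2 / 2 - (x^2/2) ^ 3 / 6 + (x^2/2) ^ 4 / 24 - (x^2/2) ^ 5 / 120 + (x^2/2) ^ 6 / 720 -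
      (x^2/2) ^ 7 / 5040 + (x^2/2) ^ 8 / 40320) + (x^2/2) ^ 9 * (10 / 3265920)) volume (-1) 1 :=
    (by fun_prop : Continuous _).intervalIntegrable _ _
  have c3 : IntervalIntegrable (fun x : ℝ => (1 - (x^2/2) + (x^2/2) ^ 2 / 2 - (x^2/2) ^ 3 / 6 + (x^2/2) ^ 4 / 24 - (x^2/2) ^ 5 / 120 + (x^2/2) ^ 6 / 720 -
      (x^2/2) ^ 7 / 5040 + (x^2/2) ^ 8 / 40320) - (x^2/2) ^ 9 * (10 / 3265920)) volume (-1) 1 :=
    (by fun_prop : Continuous _).intervalIntegrable _ _
  have u := intervalIntegral.integral_mono_on (by norm_num) c1 c2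
    (fun x hx => by have := (abs_le.mp (hint x hx)).2; linarith)
  have l := intervalIntegral.integral_mono_on (by norm_num) c3 c1
    (fun x hx => by have := (abs_le.mp (hint x hx)).1; linarith)
  have e2 : (∫ x in (-1:ℝ)..1, ((1 - (x^2/2) + (x^2/2) ^ 2 / 2 - (x^2/2) ^ 3 / 6 + (x^2/2) ^ 4 / 24 - (x^2/2) ^ 5 / 120 + (x^2/2) ^ 6 / 720 -
      (x^2/2) ^ 7 / 5040 + (x^2/2) ^ 8 / 40320) + (x^2/2) ^ 9 * (10 / 3265920))) < 1.711250 := by
    have : (fun x : ℝ => (1 - (x^2/2) + (x^2/2) ^ 2 / 2 - (x^2/2) ^ 3 / 6 + (x^2/2) ^ 4 / 24 - (x^2/2) ^ 5 / 120 + (x^2/2) ^ 6 / 720 -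
      (x^2/2) ^ 7 / 5040 + (x^2/2) ^ 8 / 40320) + (x^2/2) ^ 9 * (10 / 3265920)) =
      fun x => 1 - (1/2) * x^2 + (1/8) * x^4 - (1/48) * x^6 + (1/384) * x^8 - (1/3840) * x^10 + (1/46080) * x^12
        - (1/645120) * x^14 + (1/10321920) * x^16 + (10/1672151040) * x^18 := by
      funext x; ring
    rw [this]
    rw [intervalIntegral.integral_add (by exact (by fun_prop : Continuous _).intervalIntegrable _ _) (by exact (by fun_prop : Continuous _).intervalIntegrable _ _),
      intervalIntegral.integral_add (by exact (by fun_prop : Continuous _).intervalIntegrable _ _) (by exact (by fun_prop : Continuous _).intervalIntegrable _ _),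
      intervalIntegral.integral_sub (by exact (by fun_prop : Continuous _).intervalIntegrable _ _) (by exact (by fun_prop : Continuous _).intervalIntegrable _ _),
      intervalIntegral.integral_add (by exact (by fun_prop : Continuous _).intervalIntegrable _ _) (by exact (by fun_prop : Continuous _).intervalIntegrable _ _),
      intervalIntegral.integral_sub (by exact (by fun_prop : Continuous _).intervalIntegrable _ _) (by exact (by fun_prop : Continuous _).intervalIntegrable _ _),
      intervalIntegral.integral_add (by exact (by fun_prop : Continuous _).intervalIntegrable _ _) (by exact (by fun_prop : Continuous _).intervalIntegrable _ _),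
      intervalIntegral.integral_sub (by exact (by fun_prop : Continuous _).intervalIntegrable _ _) (by exact (by fun_prop : Continuous _).intervalIntegrable _ _),
      intervalIntegral.integral_add (by exact (by fun_prop : Continuous _).intervalIntegrable _ _) (by exact (by fun_prop : Continuous _).intervalIntegrable _ _),
      intervalIntegral.integral_sub (by exact (by fun_prop : Continuous _).intervalIntegrable _ _) (by exact (by fun_prop : Continuous _).intervalIntegrable _ _)]
    simp only [intervalIntegral.integral_const_mul, integral_pow, intervalIntegral.integral_const]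
    norm_num
  have e3 : 1.711248 < (∫ x in (-1:ℝ)..1, ((1 - (x^2/2) + (x^2/2) ^ 2 / 2 - (x^2/2) ^ 3 / 6 + (x^2/2) ^ 4 / 24 - (x^2/2) ^ 5 / 120 + (x^2/2) ^ 6 / 720 -
      (x^2/2) ^ 7 / 5040 + (x^2/2) ^ 8 / 40320) - (x^2/2) ^ 9 * (10 / 3265920))) := by
    have : (fun x : ℝ => (1 - (x^2/2) + (x^2/2) ^ 2 / 2 - (x^2/2) ^ 3 / 6 + (x^2/2) ^ 4 / 24 - (x^2/2) ^ 5 / 120 + (x^2/2) ^ 6 / 720 -
      (x^2/2) ^ 7 / 5040 + (x^2/2) ^ 8 / 40320) - (x^2/2) ^ 9 * (10 / 3265920)) =
      fun x => 1 - (1/2) * x^2 + (1/8) * x^4 - (1/48) * x^6 + (1/384) * x^8 - (1/3840) * x^10 + (1/46080) * x^12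
        - (1/645120) * x^14 + (1/10321920) * x^16 - (10/1672151040) * x^18 := by
      funext x; ring
    rw [this]
    rw [intervalIntegral.integral_sub (by exact (by fun_prop : Continuous _).intervalIntegrable _ _) (by exact (by fun_prop : Continuous _).intervalIntegrable _ _),
      intervalIntegral.integral_add (by exact (by fun_prop : Continuous _).intervalIntegrable _ _) (by exact (by fun_prop : Continuous _).intervalIntegrable _ _),
      intervalIntegral.integral_sub (by exact (by fun_prop : Continuous _).intervalIntegrable _ _) (by exact (by fun_prop : Continuous _).intervalIntegrable _ _),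
      intervalIntegral.integral_add (by exact (by fun_prop : Continuous _).intervalIntegrable _ _) (by exact (by fun_prop : Continuous _).intervalIntegrable _ _),
      intervalIntegral.integral_sub (by exact (by fun_prop : Continuous _).intervalIntegrable _ _) (by exact (by fun_prop : Continuous _).intervalIntegrable _ _),
      intervalIntegral.integral_add (by exact (by fun_prop : Continuous _).intervalIntegrable _ _) (by exact (by fun_prop : Continuous _).intervalIntegrable _ _),
      intervalIntegral.integral_sub (by exact (by fun_prop : Continuous _).intervalIntegrable _ _) (by exact (by fun_prop : Continuous _).intervalIntegrable _ _),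
      intervalIntegral.integral_add (by exact (by fun_prop : Continuous _).intervalIntegrable _ _) (by exact (by fun_prop : Continuous _).intervalIntegrable _ _),
      intervalIntegral.integral_sub (by exact (by fun_prop : Continuous _).intervalIntegrable _ _) (by exact (by fun_prop : Continuous _).intervalIntegrable _ _)]
    simp only [intervalIntegral.integral_const_mul, integral_pow, intervalIntegral.integral_const]
    norm_num
  unfold Zr
  exact ⟨lt_of_lt_of_le e3 l, lt_of_le_of_lt u e2⟩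

theorem exp_half : 0.6065305 < Real.exp (-(1/2)) ∧ Real.exp (-(1/2)) < 0.6065308 := by
  have h := exp_poly (1/2) (by norm_num) (by norm_num)
  obtain ⟨h1, h2⟩ := abs_le.mp h
  norm_num at h1 h2 ⊢
  constructor <;> linarith

theorem Kr_one_bounds : 0.70887 < Kr 1 ∧ Kr 1 < 0.70888 := by
  obtain ⟨h1, h2⟩ := Zr_one_bounds
  obtain ⟨h3, h4⟩ := exp_half
  unfold Kr
  have e : (-(1:ℝ) ^ 2 / 2) = -(1/2) := by norm_num
  rw [e]
  have hZ : 0 < Zr 1 := by linarith
  constructor
  · rw [lt_div_iff₀ hZ]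
    nlinarith
  · rw [div_lt_iff₀ hZ]
    nlinarith

theorem vr_one_bounds : 0.29112 < vr 1 ∧ vr 1 < 0.29113 := by
  obtain ⟨h1, h2⟩ := Kr_one_bounds
  unfold vr
  constructor <;> linarith

end Pool.Agent.Helper82.GC
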