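import Pool.Agent.Helper82.GC.A3
import Pool.Agent.Helper82.GC.E1

set_option autoImplicit false

open MeasureTheory Set

namespace Pool.Agent.Helper82.GC












theorem exp_sq_le (x : ℝ) (hx : |x| ≤ 1) :
    Real.exp (-x ^ 2) ≤ 1 - x ^ 2 + x ^ 4 / 2 - x ^ 6 / 6 + x ^ 8 / 24 - x ^ 10 / 120
      + x ^ 12 / 720 + x ^ 14 / 4410 := by
  have hx2 : x ^ 2 ≤ 1 := by
    rw [← sq_abs]; exact pow_le_one₀ (abs_nonneg x) hx
  have h0 : 0 ≤ x ^ 2 := sq_nonneg x
  have h1 : |-x ^ 2| ≤ 1 := by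
    rw [abs_neg, abs_of_nonneg h0]; exact hx2
  have h2 := Real.exp_bound h1 (n := 7) (by norm_num)
  have h3 := (abs_le.1 h2).2
  rw [abs_neg, abs_of_nonneg h0] at h3
  simp only [Finset.sum_range_succ, Finset.sum_range_zero, Nat.factorial, Nat.succ_eq_add_one]
    at h3
  norm_num at h3
  nlinarith [h3]

theorem int_exp_sq_le : (∫ x in (-1 : ℝ)..1, Real.exp (-x ^ 2)) ≤ 1.49371 := by
  have h1 : (∫ x in (-1 : ℝ)..1, Real.exp (-x ^ 2)) ≤
      ∫ x in (-1 : ℝ)..1, (1 - x ^ 2 + x ^ 4 / 2 - x ^ 6 / 6 + x ^ 8 / 24 - x ^ 10 / 120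
      + x ^ 12 / 720 + x ^ 14 / 4410) := by
    apply intervalIntegral.integral_mono_on (by norm_num)
    · exact (by fun_prop : Continuous fun x : ℝ => Real.exp (-x ^ 2)).intervalIntegrable _ _
    · exact (by fun_prop : Continuous fun x : ℝ => (1 - x ^ 2 + x ^ 4 / 2 - x ^ 6 / 6
        + x ^ 8 / 24 - x ^ 10 / 120 + x ^ 12 / 720 + x ^ 14 / 4410)).intervalIntegrable _ _
    · intro x hx
      exact exp_sq_le x (abs_le.2 ⟨hx.1, hx.2⟩)
  refine h1.trans ?_
  have h2 : ∀ x : ℝ, HasDerivAt (fun x : ℝ => x - x ^ 3 / 3 + x ^ 5 / 10 - x ^ 7 / 42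
      + x ^ 9 / 216 - x ^ 11 / 1320 + x ^ 13 / 9360 + x ^ 15 / 66150)
      (1 - x ^ 2 + x ^ 4 / 2 - x ^ 6 / 6 + x ^ 8 / 24 - x ^ 10 / 120
      + x ^ 12 / 720 + x ^ 14 / 4410) x := by
    intro x
    have e := ((((((((hasDerivAt_id x).sub ((hasDerivAt_pow 3 x).div_const 3)).add
      ((hasDerivAt_pow 5 x).div_const 10)).sub ((hasDerivAt_pow 7 x).div_const 42)).add
      ((hasDerivAt_pow 9 x).div_const 216)).sub ((hasDerivAt_pow 11 x).div_const 1320)).add
      ((hasDerivAt_pow 13 x).div_const 9360)).add ((hasDerivAt_pow 15 x).div_const 66150))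
    refine e.congr_deriv ?_
    norm_num
    ring
  rw [intervalIntegral.integral_eq_sub_of_hasDerivAt (fun x _ => h2 x)
    ((by fun_prop : Continuous fun x : ℝ => (1 - x ^ 2 + x ^ 4 / 2 - x ^ 6 / 6
        + x ^ 8 / 24 - x ^ 10 / 120 + x ^ 12 / 720 + x ^ 14 / 4410)).intervalIntegrable _ _)]
  norm_num

theorem tail_le {v T : ℝ} (hv : 0 < v) (hT : 0 < T) :
    ∫ t in Ioi T, Real.exp (-v * t ^ 2) ≤ Real.exp (-v * T ^ 2) / (2 * v * T) := by
  have hint : Integrable (fun t : ℝ => t * Real.exp (-v * t ^ 2)) :=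
    integrable_mul_exp_neg_mul_sq hv
  have h1 : ∫ t in Ioi T, t * Real.exp (-v * t ^ 2) = Real.exp (-v * T ^ 2) / (2 * v) := by
    have hd : ∀ t ∈ Ioi T, HasDerivAt (fun t : ℝ => -(Real.exp (-v * t ^ 2) / (2 * v)))
        (t * Real.exp (-v * t ^ 2)) t := by
      intro t _
      have e1 : HasDerivAt (fun t : ℝ => -v * t ^ 2) (-v * (2 * t)) t := by
        have := (hasDerivAt_pow 2 t).const_mul (-v)
        exact this.congr_deriv (by norm_num)
      have e2 := (e1.exp.div_const (2 * v)).neg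
      refine e2.congr_deriv ?_
      field_simp
    have hlim : Filter.Tendsto (fun t : ℝ => -(Real.exp (-v * t ^ 2) / (2 * v))) Filter.atTop
        (nhds 0) := by
      have e1 : Filter.Tendsto (fun t : ℝ => v * t ^ 2) Filter.atTop Filter.atTop :=
        (Filter.tendsto_pow_atTop two_ne_zero).const_mul_atTop hv
      have e2 := Real.tendsto_exp_neg_atTop_nhds_zero.comp e1
      have e3 := (e2.div_const (2 * v)).neg
      simp only [zero_div, neg_zero] at e3
      refine e3.congr fun t => ?_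
      simp only [Function.comp]
      rw [neg_mul]
    have hc : ContinuousWithinAt (fun t : ℝ => -(Real.exp (-v * t ^ 2) / (2 * v))) (Ici T) T := by
      have : Continuous (fun t : ℝ => -(Real.exp (-v * t ^ 2) / (2 * v))) := by fun_prop
      exact this.continuousWithinAt
    rw [integral_Ioi_of_hasDerivAt_of_tendsto hc hd hint.integrableOn hlim]
    ring
  have h2 : ∫ t in Ioi T, Real.exp (-v * t ^ 2) ≤
      ∫ t in Ioi T, (t * Real.exp (-v * t ^ 2)) / T := by
    apply setIntegral_mono_on (integrable_exp_neg_mul_sq hv).integrableOn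
      (hint.div_const T).integrableOn measurableSet_Ioi
    intro t ht
    have ht' : T < t := ht
    rw [le_div_iff₀ hT]
    have := Real.exp_pos (-v * t ^ 2)
    nlinarith
  rw [integral_div, h1] at h2
  refine h2.trans (le_of_eq ?_)
  field_simp

theorem threshold_gain_one :
    ∫ t, phi 1 t ^ 2 < ∫ t in {t : ℝ | 1 / 4 < Real.exp (-(vr 1) * t ^ 2 / 2)},
      (Real.exp (-(vr 1) * t ^ 2 / 2)) ^ 2 := by
  obtain ⟨hZ1, hZ2⟩ := Zr_one_bounds
  obtain ⟨hv1, hv2⟩ := vr_one_bounds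
  rw [phi_sq_integral one_pos]
  have hI := int_exp_sq_le
  have hI0 : 0 ≤ ∫ x in (-1 : ℝ)..1, Real.exp (-x ^ 2) :=
    intervalIntegral.integral_nonneg (by norm_num) (fun x _ => (Real.exp_pos _).le)
  generalize (∫ x in (-1 : ℝ)..1, Real.exp (-x ^ 2)) = I at hI hI0 ⊢
  generalize Zr 1 = Z at hZ1 hZ2 ⊢
  generalize vr 1 = v at hv1 hv2 ⊢
  have hv : 0 < v := by linarith
  have hl2 := Real.log_two_gt_d9
  have hl2' := Real.log_two_lt_d9
  have hl0 : 0 < Real.log 2 := by linarith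
  set T : ℝ := Real.sqrt (4 * Real.log 2 / v) with hTdef
  have hT0 : 0 < T := Real.sqrt_pos.2 (by positivity)
  have hT2 : T ^ 2 = 4 * Real.log 2 / v := Real.sq_sqrt (by positivity)
  have hvT2 : v * T ^ 2 = 4 * Real.log 2 := by
    rw [hT2]; field_simp
  have hT308 : 3.08 ≤ T := by
    rw [hTdef]
    apply Real.le_sqrt_of_sq_le
    rw [le_div_iff₀ hv]
    nlinarith
  -- the set is an interval
  have hset : {t : ℝ | 1 / 4 < Real.exp (-v * t ^ 2 / 2)} = (Iic (-T) ∪ Ici T)ᶜ := by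
    ext t
    have e1 : (1 / 4 : ℝ) = Real.exp (-(2 * Real.log 2)) := by
      rw [Real.exp_neg, mul_comm, Real.exp_mul, Real.exp_log (by norm_num)]
      norm_num
    rw [mem_compl_iff, mem_union, mem_Iic, mem_Ici, not_or, not_le, not_le]
    show 1 / 4 < Real.exp (-v * t ^ 2 / 2) ↔ _
    rw [e1, Real.exp_lt_exp]
    have e2 : -(2 * Real.log 2) < -v * t ^ 2 / 2 ↔ t ^ 2 < T ^ 2 := by
      rw [hT2, lt_div_iff₀ hv]
      constructor
      · intro h; linarith
      · intro h; linarith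
    rw [e2, sq_lt_sq, abs_of_pos hT0, abs_lt]
  have hf : ∀ t : ℝ, (Real.exp (-v * t ^ 2 / 2)) ^ 2 = Real.exp (-v * t ^ 2) := by
    intro t
    rw [sq, ← Real.exp_add]
    congr 1
    ring
  simp only [hf]
  rw [hset]
  have hint : Integrable (fun t : ℝ => Real.exp (-v * t ^ 2)) := integrable_exp_neg_mul_sq hv
  have hms : MeasurableSet (Iic (-T) ∪ Ici T : Set ℝ) := measurableSet_Iic.union measurableSet_Ici
  have hadd := integral_add_compl hms hint
  have hgauss : ∫ t : ℝ, Real.exp (-v * t ^ 2) = Real.sqrt (Real.pi / v) := integral_gaussian v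
  have hun : ∫ t in Iic (-T) ∪ Ici T, Real.exp (-v * t ^ 2)
      = 2 * ∫ t in Ioi T, Real.exp (-v * t ^ 2) := by
    rw [setIntegral_union _ measurableSet_Ici hint.integrableOn hint.integrableOn,
      integral_Ici_eq_integral_Ioi]
    · have h := integral_comp_neg_Iic (-T) (fun t : ℝ => Real.exp (-v * t ^ 2))
      simp only [neg_neg] at h
      have h' : ∫ t in Iic (-T), Real.exp (-v * (-t) ^ 2) = ∫ t in Iic (-T), Real.exp (-v * t ^ 2) := by
        congr 1
        ext t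
        rw [neg_sq]
      rw [← h', h]
      ring
    · rw [Set.disjoint_left]
      intro t h1 h2
      have h1' : t ≤ -T := h1
      have h2' : T ≤ t := h2
      linarith
  have htail := tail_le hv hT0
  have hexp : Real.exp (-v * T ^ 2) = 1 / 16 := by
    rw [neg_mul, hvT2, Real.exp_neg, mul_comm, Real.exp_mul, Real.exp_log (by norm_num)]
    norm_num
  rw [hexp] at htail
  have hvT : 0.896 ≤ v * T := by nlinarith
  have htail2 : (1 / 16 : ℝ) / (2 * v * T) ≤ 0.0349 := by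
    rw [div_le_iff₀ (by positivity)]
    nlinarith
  have hpi1 := Real.pi_gt_d6
  have hpi2 := Real.pi_lt_d6
  have hsq : 3.2849 ≤ Real.sqrt (Real.pi / v) := by
    apply Real.le_sqrt_of_sq_le
    rw [le_div_iff₀ hv]
    nlinarith
  have hR : 3.2150 ≤ ∫ t in (Iic (-T) ∪ Ici T)ᶜ, Real.exp (-v * t ^ 2) := by
    linarith
  have hL : 2 * Real.pi * I / Z ^ 2 ≤ 3.21 := by
    have hZ0 : 0 < Z := by linarith
    rw [div_le_iff₀ (by positivity)]
    have h1 : 2 * Real.pi * I ≤ 2 * 3.141593 * 1.49371 := by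
      apply mul_le_mul (by linarith) hI hI0 (by norm_num)
    have h2 : (1.711248 : ℝ) ^ 2 ≤ Z ^ 2 := pow_le_pow_left₀ (by norm_num) hZ1.le 2
    nlinarith
  linarith

end Pool.Agent.Helper82.GC
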