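import Pool.Agent.Helper82.GC.Def

set_option autoImplicit false

open MeasureTheory Set

namespace Pool.Agent.Helper82.GC



theorem th_split {a p : ℝ} (ha : 0 ≤ a) (hp : 2 ≤ p) : a ^ p = a ^ 2 * a ^ (p - 2) := by
  rcases ha.eq_or_lt with h | h
  · rw [← h, Real.zero_rpow (by linarith)]
    ring
  · rw [← Real.rpow_natCast, ← Real.rpow_add h]
    congr 1
    push_cast
    ring

theorem th_pt {f g x1 p : ℝ} (hg0 : 0 ≤ g) (hx1 : 0 < x1) (hfg : |f| ≤ max g x1) (hp : 2 ≤ p) :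
    |f| ^ p ≤ g ^ p - x1 ^ (p - 2) * (if x1 < g then g ^ 2 else 0) + x1 ^ (p - 2) * f ^ 2 := by
  have hp2 : 0 ≤ p - 2 := by linarith
  have hx : 0 < x1 ^ (p - 2) := Real.rpow_pos_of_pos hx1 _
  rw [th_split (abs_nonneg f) hp, ← sq_abs f]
  set a := |f| with ha
  have ha0 : 0 ≤ a := abs_nonneg f
  rcases le_or_gt a x1 with h | h
  · have h1 : a ^ (p - 2) ≤ x1 ^ (p - 2) := Real.rpow_le_rpow ha0 h hp2
    have h2 : a ^ 2 * a ^ (p - 2) ≤ x1 ^ (p - 2) * a ^ 2 := by
      have := mul_le_mul_of_nonneg_left h1 (sq_nonneg a)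
      linarith
    have h3 : 0 ≤ g ^ p - x1 ^ (p - 2) * (if x1 < g then g ^ 2 else 0) := by
      split_ifs with hgx
      · have h4 : x1 ^ (p - 2) ≤ g ^ (p - 2) := Real.rpow_le_rpow hx1.le hgx.le hp2
        rw [th_split hg0 hp]
        have := mul_le_mul_of_nonneg_left h4 (sq_nonneg g)
        linarith
      · rw [mul_zero, sub_zero]
        exact Real.rpow_nonneg hg0 _
    linarith
  · have hag : a ≤ g := by
      rcases le_max_iff.1 hfg with h1 | h1
      · exact h1
      · linarith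
    rw [if_pos (by linarith), th_split hg0 hp]
    have h1 : a ^ (p - 2) ≤ g ^ (p - 2) := Real.rpow_le_rpow ha0 hag hp2
    have h2 : x1 ^ (p - 2) ≤ a ^ (p - 2) := Real.rpow_le_rpow hx1.le h.le hp2
    have h3 : a ^ 2 ≤ g ^ 2 := pow_le_pow_left₀ ha0 hag 2
    have h4 : a ^ 2 * (a ^ (p - 2) - x1 ^ (p - 2)) ≤ g ^ 2 * (g ^ (p - 2) - x1 ^ (p - 2)) :=
      mul_le_mul h3 (by linarith) (by linarith) (sq_nonneg g)
    linarith

theorem threshold {f g : ℝ → ℝ} (hf : Measurable f) (hg : Measurable g) (hg0 : ∀ t, 0 ≤ g t)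
    {x1 : ℝ} (hx1 : 0 < x1) (hfg : ∀ t, |f t| ≤ max (g t) x1)
    (hf2 : Integrable (fun t => f t ^ 2)) (hg2 : Integrable (fun t => g t ^ 2))
    {p : ℝ} (hp : 2 ≤ p) (hgp : Integrable (fun t => g t ^ p)) :
    Integrable (fun t => |f t| ^ p) ∧
    ∫ t, |f t| ^ p ≤ (∫ t, g t ^ p) -
      x1 ^ (p - 2) * ((∫ t in {t | x1 < g t}, g t ^ 2) - ∫ t, f t ^ 2) := by
  have hS : MeasurableSet {t | x1 < g t} := measurableSet_lt measurable_const hg
  have hind : Integrable (fun t => if x1 < g t then g t ^ 2 else 0) := by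
    have h1 := hg2.indicator hS
    refine h1.congr (Filter.Eventually.of_forall fun t => ?_)
    by_cases h : x1 < g t
    · rw [indicator_of_mem (show t ∈ {t | x1 < g t} from h)]
      simp only [if_pos h]
    · rw [indicator_of_notMem (show t ∉ {t | x1 < g t} from h)]
      simp only [if_neg h]
  have hint : Integrable (fun t => g t ^ p - x1 ^ (p - 2) * (if x1 < g t then g t ^ 2 else 0)
      + x1 ^ (p - 2) * f t ^ 2) :=
    (hgp.sub (hind.const_mul _)).add (hf2.const_mul _)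
  have hpt : ∀ t, |f t| ^ p ≤ g t ^ p - x1 ^ (p - 2) * (if x1 < g t then g t ^ 2 else 0)
      + x1 ^ (p - 2) * f t ^ 2 := fun t => th_pt (hg0 t) hx1 (hfg t) hp
  have hI : Integrable (fun t => |f t| ^ p) := by
    refine hint.mono' ?_ (Filter.Eventually.of_forall fun t => ?_)
    · exact ((hf.norm).pow_const p).aestronglyMeasurable
    · rw [Real.norm_of_nonneg (Real.rpow_nonneg (abs_nonneg _) _)]
      exact hpt t
  refine ⟨hI, (integral_mono hI hint hpt).trans (le_of_eq ?_)⟩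
  have e1 : ∫ t, (g t ^ p - x1 ^ (p - 2) * (if x1 < g t then g t ^ 2 else 0)
      + x1 ^ (p - 2) * f t ^ 2) = (∫ t, (g t ^ p - x1 ^ (p - 2) *
        (if x1 < g t then g t ^ 2 else 0))) + ∫ t, x1 ^ (p - 2) * f t ^ 2 :=
    integral_add (hgp.sub (hind.const_mul _)) (hf2.const_mul _)
  have e2 : (∫ t, (g t ^ p - x1 ^ (p - 2) * (if x1 < g t then g t ^ 2 else 0))) =
      (∫ t, g t ^ p) - ∫ t, x1 ^ (p - 2) * (if x1 < g t then g t ^ 2 else 0) :=
    integral_sub hgp (hind.const_mul _)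
  rw [e1, e2, integral_const_mul, integral_const_mul]
  have e : ∫ t, (if x1 < g t then g t ^ 2 else 0) = ∫ t in {t | x1 < g t}, g t ^ 2 := by
    rw [← integral_indicator hS]
    refine integral_congr_ae (Filter.Eventually.of_forall fun t => ?_)
    by_cases h : x1 < g t
    · rw [indicator_of_mem (show t ∈ {t | x1 < g t} from h)]
      simp only [if_pos h]
    · rw [indicator_of_notMem (show t ∉ {t | x1 < g t} from h)]
      simp only [if_neg h]
  rw [e]
  ring

end Pool.Agent.Helper82.GC
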