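import Pool.Agent.Helper82.GC.E2
import Pool.Agent.Helper82.GC.E3
import Pool.Agent.Helper82.GC.T

set_option autoImplicit false

open MeasureTheory Set

namespace Pool.Agent.Helper82.GC












theorem g_pow (v t p : ℝ) : (Real.exp (-v * t ^ 2 / 2)) ^ p = Real.exp (-(p * v / 2) * t ^ 2) := by
  rw [← Real.exp_mul]
  congr 1
  ring

theorem g_sq (v t : ℝ) : (Real.exp (-v * t ^ 2 / 2)) ^ 2 = Real.exp (-v * t ^ 2) := by
  rw [← Real.exp_nat_mul]
  congr 1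
  push_cast
  ring

theorem ball_ineq : ∃ η : ℝ, 0 < η ∧ ∀ p : ℝ, 2 ≤ p → Integrable (fun t => |phi 1 t| ^ p) ∧
    Real.sqrt p * ∫ t, |phi 1 t| ^ p ≤
      Real.sqrt (2 * Real.pi / vr 1) - (1 / 4 : ℝ) ^ (p - 2) * η := by
  have hv : 0 < vr 1 := vr_pos one_pos
  refine ⟨(∫ t in {t : ℝ | 1 / 4 < Real.exp (-(vr 1) * t ^ 2 / 2)},
      (Real.exp (-(vr 1) * t ^ 2 / 2)) ^ 2) - ∫ t, phi 1 t ^ 2, by
        have := threshold_gain_one
        linarith, ?_⟩
  intro p hp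
  set η : ℝ := (∫ t in {t : ℝ | 1 / 4 < Real.exp (-(vr 1) * t ^ 2 / 2)},
      (Real.exp (-(vr 1) * t ^ 2 / 2)) ^ 2) - ∫ t, phi 1 t ^ 2 with hη
  have hη0 : 0 < η := by
    have := threshold_gain_one
    rw [hη]
    linarith
  have hp0 : 0 < p := by linarith
  have hfm : Measurable (phi 1) := by
    have hc : Continuous (phi 1) :=
      continuous_iff_continuousAt.2 (fun t => (phi_hasDerivAt one_pos t).continuousAt)
    exact hc.measurable
  have hgm : Measurable (fun t : ℝ => Real.exp (-(vr 1) * t ^ 2 / 2)) := by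
    apply Continuous.measurable
    fun_prop
  have hb : 0 < p * vr 1 / 2 := by positivity
  have hg2 : Integrable (fun t : ℝ => (Real.exp (-(vr 1) * t ^ 2 / 2)) ^ 2) := by
    simp only [g_sq]
    exact integrable_exp_neg_mul_sq hv
  have hgp : Integrable (fun t : ℝ => (Real.exp (-(vr 1) * t ^ 2 / 2)) ^ p) := by
    simp only [g_pow]
    exact integrable_exp_neg_mul_sq hb
  obtain ⟨h1, h2⟩ := threshold hfm hgm (fun t => (Real.exp_pos _).le) (by norm_num : (0:ℝ) < 1 / 4)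
    phi_one_le (phi_sq_integrable one_pos) hg2 hp hgp
  refine ⟨h1, ?_⟩
  have h3 : ∫ t : ℝ, (Real.exp (-(vr 1) * t ^ 2 / 2)) ^ p = Real.sqrt (Real.pi / (p * vr 1 / 2)) := by
    simp only [g_pow]
    exact integral_gaussian _
  rw [h3, ← hη] at h2
  have h4 : Real.sqrt p * Real.sqrt (Real.pi / (p * vr 1 / 2)) = Real.sqrt (2 * Real.pi / vr 1) := by
    rw [← Real.sqrt_mul hp0.le]
    congr 1
    field_simp
  have h5 : 1 ≤ Real.sqrt p := by
    rw [Real.one_le_sqrt]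
    linarith
  have h6 : 0 ≤ (1 / 4 : ℝ) ^ (p - 2) * η := by positivity
  calc Real.sqrt p * ∫ t, |phi 1 t| ^ p
      ≤ Real.sqrt p * (Real.sqrt (Real.pi / (p * vr 1 / 2)) - (1 / 4 : ℝ) ^ (p - 2) * η) :=
        mul_le_mul_of_nonneg_left h2 (Real.sqrt_nonneg _)
    _ = Real.sqrt (2 * Real.pi / vr 1) - Real.sqrt p * ((1 / 4 : ℝ) ^ (p - 2) * η) := by
        rw [mul_sub, h4]
    _ ≤ Real.sqrt (2 * Real.pi / vr 1) - (1 / 4 : ℝ) ^ (p - 2) * η := by
        have : 1 * ((1 / 4 : ℝ) ^ (p - 2) * η) ≤ Real.sqrt p * ((1 / 4 : ℝ) ^ (p - 2) * η) :=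
          mul_le_mul_of_nonneg_right h5 h6
        linarith


end Pool.Agent.Helper82.GC
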