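import Pool.Agent.Helper82.GC.Def

set_option autoImplicit false

open MeasureTheory Set

namespace Pool.Agent.Helper82.GC



theorem holder_scaled {n : ℕ} (f : ℝ → ℝ) (hf : Measurable f) (h0 : |f 0| = 1)
    (hb : ∀ t, |f t| ≤ 1)
    (s : Fin n → ℝ) (hs : ∀ i, 0 ≤ s i) (hsum : ∑ i, s i = 1)
    (hint : ∀ i, 0 < s i → Integrable (fun t => |f t| ^ (1 / s i))) :
    Integrable (fun t => ∏ i, f (Real.sqrt (s i) * t)) ∧
    ∫ t, ∏ i, |f (Real.sqrt (s i) * t)| ≤
      ∏ i, (if 0 < s i then (Real.sqrt (1 / s i) * ∫ t, |f t| ^ (1 / s i)) ^ s i else 1) := by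
  classical
  set F : Fin n → ℝ → ENNReal := fun i t =>
    if 0 < s i then ENNReal.ofReal (|f (Real.sqrt (s i) * t)| ^ (1 / s i)) else 1 with hF
  have hmeas : ∀ i, Measurable (fun t => f (Real.sqrt (s i) * t)) := fun i =>
    hf.comp (measurable_const.mul measurable_id)
  have hFm : ∀ i ∈ (Finset.univ : Finset (Fin n)), AEMeasurable (F i) volume := by
    intro i _
    by_cases h : 0 < s i
    · simp only [hF, h, if_true]
      exact (((hmeas i).abs).pow_const _).ennreal_ofReal.aemeasurable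
    · simp only [hF, h, if_false]
      exact aemeasurable_const
  have hH := ENNReal.lintegral_prod_norm_pow_le (μ := volume) Finset.univ hFm hsum (fun i _ => hs i)
  have hpow : ∀ i t, F i t ^ s i = ENNReal.ofReal |f (Real.sqrt (s i) * t)| := by
    intro i t
    by_cases h : 0 < s i
    · simp only [hF, h, if_true]
      rw [ENNReal.ofReal_rpow_of_nonneg (by positivity) h.le, ← Real.rpow_mul (abs_nonneg _),
        one_div_mul_cancel h.ne', Real.rpow_one]
    · have h' : s i = 0 := le_antisymm (not_lt.mp h) (hs i)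
      simp only [hF, h, if_false]
      rw [h', ENNReal.rpow_zero, Real.sqrt_zero, zero_mul, h0, ENNReal.ofReal_one]
  have hint' : ∀ i, 0 < s i → Integrable (fun t => |f (Real.sqrt (s i) * t)| ^ (1 / s i)) := by
    intro i h
    exact (hint i h).comp_mul_left' (Real.sqrt_pos.mpr h).ne'
  have hval : ∀ i, 0 < s i → ∫ t, |f (Real.sqrt (s i) * t)| ^ (1 / s i) =
      Real.sqrt (1 / s i) * ∫ t, |f t| ^ (1 / s i) := by
    intro i h
    have h1 := MeasureTheory.Measure.integral_comp_mul_left (fun t => |f t| ^ (1 / s i)) (Real.sqrt (s i))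
    rw [h1, smul_eq_mul, abs_of_pos (inv_pos.mpr (Real.sqrt_pos.mpr h)), ← Real.sqrt_inv, one_div]
  set R : Fin n → ℝ := fun i => if 0 < s i then (Real.sqrt (1 / s i) * ∫ t, |f t| ^ (1 / s i)) ^ s i else 1 with hR
  have hR0 : ∀ i, 0 ≤ R i := by
    intro i
    by_cases h : 0 < s i
    · simp only [hR, h, if_true]
      apply Real.rpow_nonneg
      apply mul_nonneg (Real.sqrt_nonneg _)
      exact integral_nonneg (fun t => Real.rpow_nonneg (abs_nonneg _) _)
    · simp only [hR, h, if_false]
      exact zero_le_one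
  have hfac : ∀ i, (∫⁻ a, F i a) ^ s i = ENNReal.ofReal (R i) := by
    intro i
    by_cases h : 0 < s i
    · simp only [hF, hR, h, if_true]
      rw [← ofReal_integral_eq_lintegral_ofReal (hint' i h)
        (Filter.Eventually.of_forall fun t => Real.rpow_nonneg (abs_nonneg _) _), hval i h]
      rw [ENNReal.ofReal_rpow_of_nonneg _ h.le]
      apply mul_nonneg (Real.sqrt_nonneg _)
      exact integral_nonneg (fun t => Real.rpow_nonneg (abs_nonneg _) _)
    · have h' : s i = 0 := le_antisymm (not_lt.mp h) (hs i)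
      simp only [hR, h, if_false]
      rw [h', ENNReal.rpow_zero, ENNReal.ofReal_one]
  have hprodR : ∏ i, ENNReal.ofReal (R i) = ENNReal.ofReal (∏ i, R i) :=
    (ENNReal.ofReal_prod_of_nonneg (fun i _ => hR0 i)).symm
  have hmain : ∫⁻ t, ENNReal.ofReal (∏ i, |f (Real.sqrt (s i) * t)|) ≤ ENNReal.ofReal (∏ i, R i) := by
    have e1 : ∀ t, ENNReal.ofReal (∏ i, |f (Real.sqrt (s i) * t)|) = ∏ i, F i t ^ s i := by
      intro t
      rw [ENNReal.ofReal_prod_of_nonneg (fun i _ => abs_nonneg _)]
      exact Finset.prod_congr rfl (fun i _ => (hpow i t).symm)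
    simp only [e1]
    refine hH.trans ?_
    rw [← hprodR]
    exact (Finset.prod_congr rfl (fun i _ => hfac i)).le
  have hpm : Measurable (fun t => ∏ i, f (Real.sqrt (s i) * t)) :=
    Finset.measurable_fun_prod _ (fun i _ => hmeas i)
  have habs : ∀ t, |∏ i, f (Real.sqrt (s i) * t)| = ∏ i, |f (Real.sqrt (s i) * t)| := fun t => Finset.abs_prod _ _
  have hI : Integrable (fun t => ∏ i, f (Real.sqrt (s i) * t)) := by
    refine ⟨hpm.aestronglyMeasurable, ?_⟩
    rw [hasFiniteIntegral_iff_norm]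
    simp only [Real.norm_eq_abs, habs]
    exact hmain.trans_lt ENNReal.ofReal_lt_top
  refine ⟨hI, ?_⟩
  have hpm' : Measurable (fun t => ∏ i, |f (Real.sqrt (s i) * t)|) :=
    Finset.measurable_fun_prod _ (fun i _ => (hmeas i).abs)
  rw [integral_eq_lintegral_of_nonneg_ae
    (Filter.Eventually.of_forall fun t => Finset.prod_nonneg (fun i _ => abs_nonneg _)) hpm'.aestronglyMeasurable]
  exact ENNReal.toReal_le_of_le_ofReal (Finset.prod_nonneg (fun i _ => hR0 i)) hmain

end Pool.Agent.Helper82.GC
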