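import Pool.Agent.Helper82.GC.B1
import Pool.Agent.Helper82.GC.H

set_option autoImplicit false

open MeasureTheory Set

namespace Pool.Agent.Helper82.GC












theorem mid_region (ε : ℝ) (hε : 0 < ε) : ∃ δ : ℝ, 0 < δ ∧ ∀ (n : ℕ) (s : Fin n → ℝ),
    (∀ i, 0 ≤ s i) → (∀ i, s i ≤ 1 / 2) → ∑ i, s i = 1 →
      Integrable (fun t => ∏ i, phi 1 (Real.sqrt (s i) * t)) ∧
      J 1 s ≤ Real.sqrt (2 * Real.pi / vr 1) ∧
      ((∃ i, ε ≤ s i) → J 1 s ≤ Real.sqrt (2 * Real.pi / vr 1) - δ) := by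
  obtain ⟨η, hη, hball⟩ := ball_ineq
  have h1 : (0:ℝ) < 1 := one_pos
  have hv := vr_pos h1
  have hPdef : ∃ P, P = Real.sqrt (2 * Real.pi / vr 1) := ⟨_, rfl⟩
  obtain ⟨P, hP⟩ := hPdef
  rw [← hP] at hball ⊢
  have hPpos : 0 < P := by
    rw [hP]
    exact Real.sqrt_pos.2 (by positivity)
  obtain ⟨κ, hκ⟩ : ∃ κ : ℝ, κ = (1/4 : ℝ) ^ (1/ε - 2) := ⟨_, rfl⟩
  have hκpos : 0 < κ := by
    rw [hκ]
    exact Real.rpow_pos_of_pos (by norm_num) _
  obtain ⟨q, hq⟩ : ∃ q : ℝ, q = max 0 ((P - κ * η) / P) := ⟨_, rfl⟩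
  have hq0 : 0 ≤ q := by rw [hq]; exact le_max_left _ _
  have hq1 : q < 1 := by
    rw [hq, max_lt_iff]
    refine ⟨one_pos, ?_⟩
    rw [div_lt_one hPpos]
    have := mul_pos hκpos hη
    linarith
  have hqε : q ^ ε < 1 := Real.rpow_lt_one hq0 hq1 hε
  refine ⟨P * (1 - q ^ ε), mul_pos hPpos (by linarith), ?_⟩
  intro n s hs hs2 hsum
  have hcont : Continuous (phi 1) :=
    continuous_iff_continuousAt.2 fun t => (phi_hasDerivAt h1 t).continuousAt
  have hpl : ∀ i, 0 < s i → 2 ≤ 1 / s i := by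
    intro i hi
    rw [le_div_iff₀ hi]
    have := hs2 i
    linarith
  obtain ⟨hI, hH⟩ := holder_scaled (phi 1) hcont.measurable
    (by rw [phi_zero h1, abs_one]) (abs_phi_le_one h1) s hs hsum
    (fun i hi => (hball _ (hpl i hi)).1)
  have hJ : J 1 s ≤ ∫ t, ∏ i, |phi 1 (Real.sqrt (s i) * t)| := by
    unfold J
    have h2 : (fun t => ∏ i, |phi 1 (Real.sqrt (s i) * t)|) =
        fun t => |∏ i, phi 1 (Real.sqrt (s i) * t)| := by
      funext t
      rw [Finset.abs_prod]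
    rw [h2]
    exact integral_mono hI hI.abs (fun t => le_abs_self _)
  obtain ⟨g, hg⟩ : ∃ g : Fin n → ℝ, g = fun i =>
    (if 0 < s i then (Real.sqrt (1 / s i) * ∫ t, |phi 1 t| ^ (1 / s i)) ^ s i else 1) := ⟨_, rfl⟩
  have hH' : ∫ t, ∏ i, |phi 1 (Real.sqrt (s i) * t)| ≤ ∏ i, g i := by
    rw [hg]
    exact hH
  have hbase0 : ∀ i, 0 ≤ Real.sqrt (1 / s i) * ∫ t, |phi 1 t| ^ (1 / s i) := fun i =>
    mul_nonneg (Real.sqrt_nonneg _)
      (integral_nonneg fun t => Real.rpow_nonneg (abs_nonneg _) _)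
  have hg0 : ∀ i, 0 ≤ g i := by
    intro i
    rw [hg]
    beta_reduce
    split_ifs with hi
    · exact Real.rpow_nonneg (hbase0 i) _
    · exact zero_le_one
  have hfac : ∀ i, g i ≤ P ^ s i := by
    intro i
    rw [hg]
    beta_reduce
    split_ifs with hi
    · refine Real.rpow_le_rpow (hbase0 i) ?_ hi.le
      refine (hball _ (hpl i hi)).2.trans ?_
      have := mul_pos (Real.rpow_pos_of_pos (by norm_num : (0:ℝ) < 1/4) (1 / s i - 2)) hη
      linarith
    · have : s i = 0 := le_antisymm (not_lt.1 hi) (hs i)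
      rw [this, Real.rpow_zero]
  have hprod : ∏ i, P ^ s i = P := by
    rw [← Real.rpow_sum_of_pos hPpos, hsum, Real.rpow_one]
  refine ⟨hI, ?_, ?_⟩
  · refine hJ.trans (hH'.trans ?_)
    calc ∏ i, g i ≤ ∏ i, P ^ s i := Finset.prod_le_prod (fun i _ => hg0 i) (fun i _ => hfac i)
      _ = P := hprod
  · rintro ⟨i, hi⟩
    have hsi : 0 < s i := lt_of_lt_of_le hε hi
    have hgi : g i ≤ P ^ s i * q ^ ε := by
      rw [hg]
      beta_reduce
      rw [if_pos hsi]
      have hb : Real.sqrt (1 / s i) * ∫ t, |phi 1 t| ^ (1 / s i) ≤ P - κ * η := by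
        refine (hball _ (hpl i hsi)).2.trans ?_
        have h3 : κ ≤ (1 / 4 : ℝ) ^ (1 / s i - 2) := by
          rw [hκ]
          refine Real.rpow_le_rpow_of_exponent_ge (by norm_num) (by norm_num) ?_
          have : 1 / s i ≤ 1 / ε := one_div_le_one_div_of_le hε hi
          linarith
        have := mul_le_mul_of_nonneg_right h3 hη.le
        linarith
      have hb2 : P - κ * η ≤ P * q := by
        have h4 : (P - κ * η) / P ≤ q := by rw [hq]; exact le_max_right _ _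
        have h5 := mul_le_mul_of_nonneg_left h4 hPpos.le
        rwa [mul_div_cancel₀ _ hPpos.ne'] at h5
      calc (Real.sqrt (1 / s i) * ∫ t, |phi 1 t| ^ (1 / s i)) ^ s i
          ≤ (P * q) ^ s i := Real.rpow_le_rpow (hbase0 i) (hb.trans hb2) hsi.le
        _ = P ^ s i * q ^ s i := Real.mul_rpow hPpos.le hq0
        _ ≤ P ^ s i * q ^ ε := by
            refine mul_le_mul_of_nonneg_left ?_ (Real.rpow_nonneg hPpos.le _)
            exact Real.rpow_le_rpow_of_exponent_ge' hq0 hq1.le hε.le hi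
    refine hJ.trans (hH'.trans ?_)
    rw [← Finset.mul_prod_erase Finset.univ g (Finset.mem_univ i)]
    have h6 : ∏ x ∈ Finset.univ.erase i, g x ≤ ∏ x ∈ Finset.univ.erase i, P ^ s x :=
      Finset.prod_le_prod (fun i _ => hg0 i) (fun i _ => hfac i)
    have h7 : P ^ s i * ∏ x ∈ Finset.univ.erase i, P ^ s x = P := by
      rw [Finset.mul_prod_erase Finset.univ (fun x => P ^ s x) (Finset.mem_univ i)]
      exact hprod
    calc g i * ∏ x ∈ Finset.univ.erase i, g x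
        ≤ (P ^ s i * q ^ ε) * ∏ x ∈ Finset.univ.erase i, P ^ s x :=
          mul_le_mul hgi h6 (Finset.prod_nonneg fun i _ => hg0 i)
            (mul_nonneg (Real.rpow_nonneg hPpos.le _) (Real.rpow_nonneg hq0 _))
      _ = (P ^ s i * ∏ x ∈ Finset.univ.erase i, P ^ s x) * q ^ ε := by ring
      _ = P - P * (1 - q ^ ε) := by rw [h7]; ring

end Pool.Agent.Helper82.GC
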