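import Pool.Agent.Helper82.GC.Def

set_option autoImplicit false

open MeasureTheory Set

namespace Pool.Agent.Helper82.GC





theorem gauss_integrable_aux {V : Type*} [NormedAddCommGroup V] [InnerProductSpace ℝ V]
    [FiniteDimensional ℝ V] [MeasurableSpace V] [BorelSpace V] :
    Integrable (fun v : V => Real.exp (-‖v‖ ^ 2 / 2)) := by
  have h := GaussianFourier.integrable_cexp_neg_mul_sq_norm_add (V := V) (b := (1/2 : ℂ))
    (by norm_num) 0 0
  have h2 := h.re
  convert h2 using 1
  ext v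
  have : (-(1 / 2 : ℂ) * (‖v‖ : ℂ) ^ 2 + 0 * ((inner ℝ (0 : V) v : ℝ) : ℂ)) =
      ((-‖v‖ ^ 2 / 2 : ℝ) : ℂ) := by
    push_cast; ring
  rw [this, ← Complex.ofReal_exp]
  exact (Complex.ofReal_re _).symm

theorem level_null_aux {V : Type*} [NormedAddCommGroup V] [NormedSpace ℝ V]
    [FiniteDimensional ℝ V] [MeasurableSpace V] [BorelSpace V] (μ : Measure V)
    [μ.IsAddHaarMeasure] (L : V →ₗ[ℝ] ℝ) {c : ℝ} (hc : c ≠ 0) :
    μ {x | L x = c} = 0 := by
  rcases Set.eq_empty_or_nonempty {x | L x = c} with h | ⟨x0, hx0⟩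
  · rw [h]; simp
  · have hx0' : L x0 = c := hx0
    have hset : {x | L x = c} = (AffineSubspace.mk' x0 (LinearMap.ker L) : Set V) := by
      ext x
      simp only [mem_ofPred_eq, SetLike.mem_coe, AffineSubspace.mem_mk', vsub_eq_sub,
        LinearMap.mem_ker, map_sub, hx0', sub_eq_zero]
    rw [hset]
    apply Measure.addHaar_affineSubspace
    intro htop
    have : (0 : V) ∈ AffineSubspace.mk' x0 (LinearMap.ker L) := by rw [htop]; trivial
    rw [← SetLike.mem_coe, ← hset] at this
    simp at this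
    exact hc this.symm

theorem measurable_F {n : ℕ} (r : ℝ) :
    Measurable (F r : EuclideanSpace ℝ (Fin n) → ℝ) := by
  unfold F
  apply Measurable.ite
  · have : {a : EuclideanSpace ℝ (Fin n) | ∀ i, |a i| ≤ r} = ⋂ i, {a | |a i| ≤ r} := by
      ext; simp
    rw [this]
    refine MeasurableSet.iInter fun i => ?_
    apply IsClosed.measurableSet
    exact isClosed_le (by fun_prop) continuous_const
  · fun_prop
  · exact measurable_const

theorem F_le_aux {n : ℕ} (r : ℝ) (y : EuclideanSpace ℝ (Fin n)) :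
    ‖F r y‖ ≤ Real.exp (-‖y‖ ^ 2 / 2) := by
  unfold F
  split_ifs
  · rw [Real.norm_of_nonneg (Real.exp_nonneg _)]
  · simp [Real.exp_nonneg]

theorem integrable_F {n : ℕ} (r : ℝ) :
    Integrable (F r : EuclideanSpace ℝ (Fin n) → ℝ) := by
  refine Integrable.mono' (gauss_integrable_aux (V := EuclideanSpace ℝ (Fin n)))
    (measurable_F r).aestronglyMeasurable ?_
  exact Filter.Eventually.of_forall fun y => F_le_aux r y

theorem F_contAt_aux {n : ℕ} {r : ℝ} (y : EuclideanSpace ℝ (Fin n))
    (hy : ∀ i, |y i| ≠ r) : ContinuousAt (F r) y := by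
  by_cases h : ∀ i, |y i| < r
  · have hopen : ∀ᶠ z in nhds y, ∀ i, |z i| < r := by
      rw [Filter.eventually_all]
      intro i
      have hc : ContinuousAt (fun z : EuclideanSpace ℝ (Fin n) => |z i|) y := by fun_prop
      exact hc.eventually_lt continuousAt_const (h i)
    have hcong : F r =ᶠ[nhds y] fun z => Real.exp (-‖z‖ ^ 2 / 2) := by
      filter_upwards [hopen] with z hz
      unfold F
      rw [if_pos fun i => (hz i).le]
    refine ContinuousAt.congr ?_ hcong.symm
    fun_prop
  · push Not at h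
    obtain ⟨i, hi⟩ := h
    have hi' : r < |y i| := lt_of_le_of_ne hi (hy i).symm
    have hopen : ∀ᶠ z in nhds y, r < |z i| := by
      have hc : ContinuousAt (fun z : EuclideanSpace ℝ (Fin n) => |z i|) y := by fun_prop
      exact continuousAt_const.eventually_lt hc hi'
    have hcong : F r =ᶠ[nhds y] fun z => (0 : ℝ) := by
      filter_upwards [hopen] with z hz
      unfold F
      rw [if_neg]
      push Not
      exact ⟨i, hz⟩
    exact ContinuousAt.congr continuousAt_const hcong.symm

theorem continuousAt_slice {n : ℕ} {r : ℝ} (hr : 0 < r) (θ : EuclideanSpace ℝ (Fin n))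
    (hθ : ‖θ‖ = 1) :
    ContinuousAt (fun s : ℝ => ∫ x : ((ℝ ∙ θ)ᗮ : Submodule ℝ (EuclideanSpace ℝ (Fin n))),
      F r ((x : EuclideanSpace ℝ (Fin n)) + s • θ)) 0 := by
  apply continuousAt_of_dominated
    (bound := fun x : ((ℝ ∙ θ)ᗮ : Submodule ℝ (EuclideanSpace ℝ (Fin n))) =>
      Real.exp (-‖x‖ ^ 2 / 2))
  · refine Filter.Eventually.of_forall fun s => ?_
    apply Measurable.aestronglyMeasurable
    exact (measurable_F r).comp (by fun_prop)
  · refine Filter.Eventually.of_forall fun s => Filter.Eventually.of_forall fun x => ?_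
    refine (F_le_aux r _).trans ?_
    apply Real.exp_le_exp.2
    have hx : inner ℝ (x : EuclideanSpace ℝ (Fin n)) (s • θ) = 0 := by
      rw [inner_smul_right]
      have := (Submodule.mem_orthogonal_singleton_iff_inner_left (u := θ)).1 x.2
      rw [this]; simp
    have h2 := norm_add_sq_eq_norm_sq_add_norm_sq_of_inner_eq_zero _ _ hx
    have h3 : ‖(x : EuclideanSpace ℝ (Fin n))‖ = ‖x‖ := rfl
    rw [h3] at h2
    nlinarith [sq_nonneg ‖s • θ‖]
  · exact gauss_integrable_aux
  · have hnull : ∀ i : Fin n, ∀ᵐ x : ((ℝ ∙ θ)ᗮ : Submodule ℝ (EuclideanSpace ℝ (Fin n))),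
        |(x : EuclideanSpace ℝ (Fin n)) i| ≠ r := by
      intro i
      let L : ((ℝ ∙ θ)ᗮ : Submodule ℝ (EuclideanSpace ℝ (Fin n))) →ₗ[ℝ] ℝ :=
        { toFun := fun x => (x : EuclideanSpace ℝ (Fin n)) i
          map_add' := fun x y => by simp
          map_smul' := fun c x => by simp }
      have h1 := level_null_aux volume L (c := r) hr.ne'
      have h2 := level_null_aux volume L (c := -r) (by linarith [neg_lt_zero.2 hr] |> ne_of_lt)
      have h1' : ∀ᵐ x : ((ℝ ∙ θ)ᗮ : Submodule ℝ (EuclideanSpace ℝ (Fin n))), ¬ (L x = r) := by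
        rw [ae_iff]; simpa using h1
      have h2' : ∀ᵐ x : ((ℝ ∙ θ)ᗮ : Submodule ℝ (EuclideanSpace ℝ (Fin n))), ¬ (L x = -r) := by
        rw [ae_iff]; simpa using h2
      filter_upwards [h1', h2'] with x hx1 hx2 habs
      rcases (abs_eq hr.le).1 habs with h | h
      · exact hx1 h
      · exact hx2 h
    rw [← ae_all_iff] at hnull
    filter_upwards [hnull] with x hx
    have hcomp : ContinuousAt (fun s : ℝ => (x : EuclideanSpace ℝ (Fin n)) + s • θ) 0 := by
      fun_prop
    have hF : ContinuousAt (F r) ((fun s : ℝ => (x : EuclideanSpace ℝ (Fin n)) + s • θ) 0) := by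
      apply F_contAt_aux
      simpa using hx
    exact ContinuousAt.comp (g := F r) (f := fun s : ℝ => (x : EuclideanSpace ℝ (Fin n)) + s • θ)
      hF hcomp

end Pool.Agent.Helper82.GC
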