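import Pool.Agent.Helper82.GC.A2

set_option autoImplicit false

open MeasureTheory Set

namespace Pool.Agent.Helper82.GC





theorem integrable_pi {r : ℝ} (hr : 0 < r) {k : ℕ} (f : (Fin k → ℝ) → ℝ) (hf : Continuous f) :
    Integrable (fun x : Fin k → ℝ => f x * ∏ i, wr r (x i)) := by
  classical
  have h1 : (fun x : Fin k → ℝ => f x * ∏ i, wr r (x i)) =
      (Set.univ.pi fun _ : Fin k => Icc (-r) r).indicator
        (fun x => f x * ∏ i, Real.exp (-(x i) ^ 2 / 2)) := by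
    funext x
    by_cases hx : x ∈ Set.univ.pi fun _ : Fin k => Icc (-r) r
    · rw [indicator_of_mem hx]
      congr 1
      refine Finset.prod_congr rfl fun i _ => ?_
      have h2 : |x i| ≤ r := abs_le.2 (hx i (mem_univ i))
      simp [wr, h2]
    · rw [indicator_of_notMem hx]
      rw [Set.mem_univ_pi] at hx
      push Not at hx
      obtain ⟨i, hi⟩ := hx
      have h2 : ¬ |x i| ≤ r := fun h => hi (abs_le.1 h)
      rw [Finset.prod_eq_zero (Finset.mem_univ i) (by simp [wr, h2]), mul_zero]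
  rw [h1, integrable_indicator_iff (MeasurableSet.univ_pi fun _ => measurableSet_Icc)]
  exact (Continuous.continuousOn (by fun_prop)).integrableOn_compact
    (isCompact_univ_pi fun _ => isCompact_Icc)

lemma M_eq {r : ℝ} (hr : 0 < r) (j : ℕ) :
    ∫ x, x ^ j * wr r x = ∫ x in (-r)..r, x ^ j * Real.exp (-x ^ 2 / 2) := by
  classical
  rw [intervalIntegral.integral_of_le (by linarith), ← integral_Icc_eq_integral_Ioc,
    ← integral_indicator measurableSet_Icc]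
  congr 1
  funext x
  by_cases hx : x ∈ Icc (-r) r
  · rw [indicator_of_mem hx]
    have h2 : |x| ≤ r := abs_le.2 hx
    simp [wr, h2]
  · rw [indicator_of_notMem hx]
    have h2 : ¬ |x| ≤ r := fun h => hx (abs_le.1 h)
    simp [wr, h2]

lemma M_zero {r : ℝ} (hr : 0 < r) : ∫ x, x ^ 0 * wr r x = Zr r := by
  rw [M_eq hr, Zr]
  simp

lemma M_two {r : ℝ} (hr : 0 < r) : ∫ x, x ^ 2 * wr r x = vr r * Zr r := by
  rw [M_eq hr, moment_two hr]

lemma M_four {r : ℝ} (hr : 0 < r) :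
    ∫ x, x ^ 4 * wr r x = (3 * vr r - r ^ 2 * Kr r) * Zr r := by
  rw [M_eq hr, moment_four hr]

lemma wr_neg (r x : ℝ) : wr r (-x) = wr r x := by simp [wr]

lemma M_odd (r : ℝ) (j : ℕ) (hj : Odd j) : ∫ x, x ^ j * wr r x = 0 := by
  have h1 : ∫ x, x ^ j * wr r x = - ∫ x, x ^ j * wr r x := by
    conv_lhs => rw [← integral_neg_eq_self]
    rw [← integral_neg]
    congr 1
    funext x
    rw [wr_neg, hj.neg_pow]
    ring
  exact self_eq_neg.1 h1

theorem integral_pi_one {r : ℝ} (hr : 0 < r) (k : ℕ) :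
    ∫ x : Fin k → ℝ, ∏ i, wr r (x i) = Zr r ^ k := by
  rw [integral_fintype_prod_volume_eq_pow (fun x => wr r x), Fintype.card_fin]
  congr 1
  have := M_zero hr
  simpa using this

lemma M_succ (r : ℝ) {k : ℕ} (f : ℝ → ℝ) (g : (Fin k → ℝ) → ℝ) :
    ∫ x : Fin (k + 1) → ℝ, (f (x 0) * g (fun i => x i.succ)) * ∏ i, wr r (x i) =
      (∫ x, f x * wr r x) * ∫ x : Fin k → ℝ, g x * ∏ i, wr r (x i) := by
  have h1 := (volume_preserving_piFinSuccAbove (fun _ : Fin (k + 1) => ℝ) 0).integral_comp'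
    (fun p : ℝ × (Fin k → ℝ) => (f p.1 * wr r p.1) * (g p.2 * ∏ i, wr r (p.2 i)))
  have h2 := integral_prod_mul (μ := (volume : Measure ℝ)) (ν := (volume : Measure (Fin k → ℝ)))
    (fun x => f x * wr r x) (fun x : Fin k → ℝ => g x * ∏ i, wr r (x i))
  rw [← h2, ← Measure.volume_eq_prod, ← h1]
  congr 1
  funext x
  rw [Fin.prod_univ_succ]
  simp only [MeasurableEquiv.piFinSuccAbove_apply, Fin.insertNthEquiv_zero]
  have h3 : (Fin.consEquiv fun _ => ℝ).symm x = (x 0, fun i => x i.succ) := rfl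
  simp only [h3]
  ring

lemma M_add {r : ℝ} (hr : 0 < r) {k : ℕ} {F G : (Fin k → ℝ) → ℝ} (hF : Continuous F)
    (hG : Continuous G) : ∫ x : Fin k → ℝ, (F x + G x) * ∏ i, wr r (x i) =
      (∫ x : Fin k → ℝ, F x * ∏ i, wr r (x i)) + ∫ x : Fin k → ℝ, G x * ∏ i, wr r (x i) := by
  rw [← integral_add (integrable_pi hr F hF) (integrable_pi hr G hG)]
  congr 1
  funext x
  ring

lemma M_mono {r : ℝ} {k : ℕ} (c : ℝ) (j : ℕ) (g : (Fin k → ℝ) → ℝ) :
    ∫ x : Fin (k + 1) → ℝ, (c * (x 0) ^ j * g (fun i => x i.succ)) * ∏ i, wr r (x i) =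
      c * (∫ x, x ^ j * wr r x) * ∫ x : Fin k → ℝ, g x * ∏ i, wr r (x i) := by
  rw [M_succ r (fun y => c * y ^ j) g]
  congr 1
  rw [← integral_const_mul]
  congr 1
  funext x
  ring

theorem integral_pi_sq {r : ℝ} (hr : 0 < r) {k : ℕ} (a : Fin k → ℝ) :
    ∫ x : Fin k → ℝ, (∑ i, a i * x i) ^ 2 * ∏ i, wr r (x i)
      = vr r * Zr r ^ k * ∑ i, a i ^ 2 := by
  induction k with
  | zero => simp
  | succ k ih =>
    have h1 : ∀ x : Fin (k + 1) → ℝ, (∑ i, a i * x i) ^ 2 * ∏ i, wr r (x i) =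
        ((a 0 ^ 2 * (x 0) ^ 2 * 1 + 2 * a 0 * (x 0) ^ 1 * (∑ i : Fin k, a i.succ * x i.succ)) +
          1 * (x 0) ^ 0 * (∑ i : Fin k, a i.succ * x i.succ) ^ 2) * ∏ i, wr r (x i) := by
      intro x
      rw [Fin.sum_univ_succ]
      ring
    simp only [h1]
    rw [M_add hr (by fun_prop) (by fun_prop), M_add hr (by fun_prop) (by fun_prop),
      M_mono (a 0 ^ 2) 2 (fun _ => 1),
      M_mono (2 * a 0) 1 (fun y : Fin k → ℝ => ∑ i : Fin k, a i.succ * y i),
      M_mono 1 0 (fun y : Fin k → ℝ => (∑ i : Fin k, a i.succ * y i) ^ 2),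
      M_odd r 1 (by decide), M_two hr, M_zero hr, ih (fun i => a i.succ), Fin.sum_univ_succ]
    simp only [one_mul]
    rw [integral_pi_one hr]
    ring

theorem integral_pi_four {r : ℝ} (hr : 0 < r) {k : ℕ} (a : Fin k → ℝ) :
    ∫ x : Fin k → ℝ, (∑ i, a i * x i) ^ 4 * ∏ i, wr r (x i)
      ≤ 3 * vr r ^ 2 * Zr r ^ k * (∑ i, a i ^ 2) ^ 2 := by
  induction k with
  | zero => simp
  | succ k ih =>
    have h1 : ∀ x : Fin (k + 1) → ℝ, (∑ i, a i * x i) ^ 4 * ∏ i, wr r (x i) =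
        ((((a 0 ^ 4 * (x 0) ^ 4 * 1 +
          4 * a 0 ^ 3 * (x 0) ^ 3 * (∑ i : Fin k, a i.succ * x i.succ)) +
          6 * a 0 ^ 2 * (x 0) ^ 2 * (∑ i : Fin k, a i.succ * x i.succ) ^ 2) +
          4 * a 0 * (x 0) ^ 1 * (∑ i : Fin k, a i.succ * x i.succ) ^ 3) +
          1 * (x 0) ^ 0 * (∑ i : Fin k, a i.succ * x i.succ) ^ 4) * ∏ i, wr r (x i) := by
      intro x
      rw [Fin.sum_univ_succ]
      ring
    simp only [h1]
    rw [M_add hr (by fun_prop) (by fun_prop), M_add hr (by fun_prop) (by fun_prop),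
      M_add hr (by fun_prop) (by fun_prop), M_add hr (by fun_prop) (by fun_prop),
      M_mono (a 0 ^ 4) 4 (fun _ => 1),
      M_mono (4 * a 0 ^ 3) 3 (fun y : Fin k → ℝ => ∑ i : Fin k, a i.succ * y i),
      M_mono (6 * a 0 ^ 2) 2 (fun y : Fin k → ℝ => (∑ i : Fin k, a i.succ * y i) ^ 2),
      M_mono (4 * a 0) 1 (fun y : Fin k → ℝ => (∑ i : Fin k, a i.succ * y i) ^ 3),
      M_mono 1 0 (fun y : Fin k → ℝ => (∑ i : Fin k, a i.succ * y i) ^ 4),
      M_odd r 1 (by decide), M_odd r 3 (by decide), M_two hr, M_four hr, M_zero hr,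
      integral_pi_sq hr (fun i => a i.succ), Fin.sum_univ_succ]
    simp only [one_mul]
    rw [integral_pi_one hr]
    have h2 := ih (fun i => a i.succ)
    set s := ∑ i : Fin k, a i.succ ^ 2 with hs
    set Z := Zr r with hZ
    set v := vr r with hv
    have hZ0 : 0 < Z := Zr_pos hr
    have hZk : 0 < Z ^ k := pow_pos hZ0 k
    have hv0 : 0 < v := vr_pos hr
    have hv1 : v < 1 := vr_lt_one hr
    have hv2 : v < r ^ 2 / 3 := vr_lt hr
    have hK : Kr r = 1 - v := by rw [hv, vr]; ring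
    have h3 : 3 * v - r ^ 2 * Kr r ≤ 3 * v ^ 2 := by
      rw [hK]
      nlinarith
    have h4 : a 0 ^ 4 * ((3 * v - r ^ 2 * Kr r) * Z) * Z ^ k ≤ a 0 ^ 4 * (3 * v ^ 2 * Z) * Z ^ k := by
      have h5 : (3 * v - r ^ 2 * Kr r) * Z ≤ 3 * v ^ 2 * Z := mul_le_mul_of_nonneg_right h3 hZ0.le
      exact mul_le_mul_of_nonneg_right (mul_le_mul_of_nonneg_left h5 (by positivity)) hZk.le
    have h6 := mul_le_mul_of_nonneg_left h2 hZ0.le
    have h7 : 3 * v ^ 2 * Z ^ (k + 1) * (a 0 ^ 2 + s) ^ 2 =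
        a 0 ^ 4 * (3 * v ^ 2 * Z) * Z ^ k + 6 * a 0 ^ 2 * (v * Z) * (v * Z ^ k * s) +
          Z * (3 * v ^ 2 * Z ^ k * s ^ 2) := by
      rw [pow_succ]
      ring
    rw [h7]
    linarith

end Pool.Agent.Helper82.GC
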