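import Pool.Agent.Helper82.GC.Def

set_option autoImplicit false

open MeasureTheory Set

namespace Pool.Agent.Helper82.GC












theorem wr_nonneg_aux (r x : ℝ) : 0 ≤ wr r x := by
  unfold wr
  split_ifs
  · exact (Real.exp_pos _).le
  · exact le_rfl

theorem wr_le_aux (r x : ℝ) : wr r x ≤ Real.exp (-x ^ 2 / 2) := by
  unfold wr
  split_ifs
  · exact le_rfl
  · exact (Real.exp_pos _).le

theorem wr_measurable_aux (r : ℝ) : Measurable (wr r) := by
  unfold wr
  refine Measurable.ite ?_ (by fun_prop) measurable_const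
  exact measurableSet_le (by fun_prop) measurable_const

theorem gauss_int_aux : Integrable (fun x : ℝ => Real.exp (-x ^ 2 / 2)) := by
  have h := integrable_exp_neg_mul_sq (b := 1 / 2) (by norm_num)
  refine h.congr (Filter.Eventually.of_forall fun x => ?_)
  simp only
  congr 1
  ring

theorem wr_integrable_aux (r : ℝ) : Integrable (wr r) := by
  refine gauss_int_aux.mono' (wr_measurable_aux r).aestronglyMeasurable
    (Filter.Eventually.of_forall fun x => ?_)
  rw [Real.norm_of_nonneg (wr_nonneg_aux r x)]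
  exact wr_le_aux r x

theorem gauss_conv_aux (a Y : ℝ) {σ : ℝ} (hσ : 0 < σ) :
    ∫ u : ℝ, (1 / Real.sqrt (2 * Real.pi * σ)) * Real.exp (-(a * u + Y) ^ 2 / (2 * σ)) *
        Real.exp (-u ^ 2 / 2)
      = (1 / Real.sqrt (a ^ 2 + σ)) * Real.exp (-Y ^ 2 / (2 * (a ^ 2 + σ))) := by
  have hS : 0 < a ^ 2 + σ := by positivity
  set S := a ^ 2 + σ with hSdef
  have e1 : ∀ u : ℝ, (1 / Real.sqrt (2 * Real.pi * σ)) *
      Real.exp (-(a * u + Y) ^ 2 / (2 * σ)) * Real.exp (-u ^ 2 / 2)
      = (1 / Real.sqrt (2 * Real.pi * σ)) * Real.exp (-Y ^ 2 / (2 * S)) *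
        Real.exp (-(S / (2 * σ)) * (u + a * Y / S) ^ 2) := by
    intro u
    rw [mul_assoc (1 / Real.sqrt (2 * Real.pi * σ)), mul_assoc (1 / Real.sqrt (2 * Real.pi * σ)),
      ← Real.exp_add, ← Real.exp_add]
    congr 2
    have hS' : S ≠ 0 := hS.ne'
    have hσ' : σ ≠ 0 := hσ.ne'
    field_simp
    rw [hSdef]
    ring
  simp_rw [e1]
  rw [integral_const_mul]
  rw [integral_add_right_eq_self (fun u : ℝ => Real.exp (-(S / (2 * σ)) * u ^ 2)),
    integral_gaussian]
  have h2 : Real.pi / (S / (2 * σ)) = (2 * Real.pi * σ) / S := by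
    field_simp
  rw [h2, Real.sqrt_div' _ hS.le]
  have h3 : 0 < Real.sqrt (2 * Real.pi * σ) := Real.sqrt_pos.2 (by positivity)
  field_simp

/-- mollified section -/
theorem smooth_slice_le {k : ℕ} {r : ℝ} (hr : 0 < r) (θ : EuclideanSpace ℝ (Fin (k + 1)))
    (j : Fin (k + 1)) {σ : ℝ} (hσ : 0 < σ) :
    ∫ y : EuclideanSpace ℝ (Fin (k + 1)),
        (1 / Real.sqrt (2 * Real.pi * σ)) * Real.exp (-(inner ℝ θ y) ^ 2 / (2 * σ)) * F r y
      ≤ (1 / Real.sqrt (θ j ^ 2 + σ)) * ∫ x : Fin k → ℝ,
        Real.exp (-(∑ i, θ (j.succAbove i) * x i) ^ 2 / (2 * (θ j ^ 2 + σ))) *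
          ∏ i, wr r (x i) := by
  set f' : (Fin (k + 1) → ℝ) → ℝ := fun y =>
    (1 / Real.sqrt (2 * Real.pi * σ)) * Real.exp (-(inner ℝ θ (WithLp.toLp 2 y)) ^ 2 / (2 * σ)) *
      F r (WithLp.toLp 2 y) with hf'
  set g : ℝ × (Fin k → ℝ) → ℝ := fun p =>
    (1 / Real.sqrt (2 * Real.pi * σ)) *
      Real.exp (-(θ j * p.1 + ∑ i, θ (j.succAbove i) * p.2 i) ^ 2 / (2 * σ)) *
      Real.exp (-p.1 ^ 2 / 2) * ∏ i, wr r (p.2 i) with hg
  have hc : 0 ≤ 1 / Real.sqrt (2 * Real.pi * σ) := by positivity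
  -- step 1
  have s1 : ∫ y : EuclideanSpace ℝ (Fin (k + 1)),
        (1 / Real.sqrt (2 * Real.pi * σ)) * Real.exp (-(inner ℝ θ y) ^ 2 / (2 * σ)) * F r y
      = ∫ y : Fin (k + 1) → ℝ, f' y := by
    have := (PiLp.volume_preserving_ofLp (Fin (k + 1))).integral_comp
      (MeasurableEquiv.toLp 2 (Fin (k + 1) → ℝ)).symm.measurableEmbedding f'
    rw [← this]
  have s2 : ∫ y : Fin (k + 1) → ℝ, f' y
      = ∫ p : ℝ × (Fin k → ℝ), f' ((MeasurableEquiv.piFinSuccAbove (fun _ => ℝ) j).symm p) := by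
    have := ((volume_preserving_piFinSuccAbove (fun _ : Fin (k + 1) => ℝ) j).symm _).integral_comp
      (MeasurableEquiv.piFinSuccAbove (fun _ => ℝ) j).symm.measurableEmbedding f'
    exact this.symm
  have hFn : ∀ y : EuclideanSpace ℝ (Fin (k + 1)), 0 ≤ F r y := by
    intro y
    unfold F
    split_ifs
    · exact (Real.exp_pos _).le
    · exact le_rfl
  have hWi : Integrable (fun x : Fin k → ℝ => ∏ i, wr r (x i)) := by
    exact Integrable.fintype_prod (fun i => wr_integrable_aux r)
  have hgi : Integrable g := by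
    have h0 : Integrable (fun p : ℝ × (Fin k → ℝ) =>
        Real.exp (-p.1 ^ 2 / 2) * ∏ i, wr r (p.2 i)) := by
      exact Integrable.mul_prod gauss_int_aux hWi
    have h1 := h0.bdd_mul (c := 1 / Real.sqrt (2 * Real.pi * σ))
      (f := fun p : ℝ × (Fin k → ℝ) => (1 / Real.sqrt (2 * Real.pi * σ)) *
        Real.exp (-(θ j * p.1 + ∑ i, θ (j.succAbove i) * p.2 i) ^ 2 / (2 * σ)))
      (by
        apply Continuous.aestronglyMeasurable
        fun_prop)
      (Filter.Eventually.of_forall fun p => by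
        rw [Real.norm_of_nonneg (by positivity)]
        refine mul_le_of_le_one_right hc ?_
        rw [Real.exp_le_one_iff]
        have : 0 ≤ (θ j * p.1 + ∑ i, θ (j.succAbove i) * p.2 i) ^ 2 / (2 * σ) := by positivity
        rw [neg_div]
        linarith)
    refine h1.congr (Filter.Eventually.of_forall fun p => ?_)
    simp only [hg]
    ring
  have s3 : ∫ p : ℝ × (Fin k → ℝ), f' ((MeasurableEquiv.piFinSuccAbove (fun _ => ℝ) j).symm p)
      ≤ ∫ p, g p := by
    refine integral_mono_of_nonneg (Filter.Eventually.of_forall fun p => ?_) hgi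
      (Filter.Eventually.of_forall fun p => ?_)
    · simp only [hf', Pi.zero_apply]
      exact mul_nonneg (mul_nonneg hc (Real.exp_pos _).le) (hFn _)
    · obtain ⟨u, x⟩ := p
      have hins : (MeasurableEquiv.piFinSuccAbove (fun _ : Fin (k + 1) => ℝ) j).symm (u, x)
          = j.insertNth u x := rfl
      simp only [hf', hg, hins]
      have hin : inner ℝ θ (WithLp.toLp 2 (j.insertNth u x : Fin (k + 1) → ℝ))
          = θ j * u + ∑ i, θ (j.succAbove i) * x i := by
        simp only [PiLp.inner_apply, RCLike.inner_apply, conj_trivial]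
        rw [Fin.sum_univ_succAbove _ j]
        simp [mul_comm]
      rw [hin, mul_assoc _ (Real.exp (-u ^ 2 / 2))]
      refine mul_le_mul_of_nonneg_left ?_ (mul_nonneg hc (Real.exp_pos _).le)
      unfold F
      split_ifs with hif
      · have hw : ∀ i, wr r (x i) = Real.exp (-(x i) ^ 2 / 2) := by
          intro i
          have := hif (j.succAbove i)
          simp only [Fin.insertNth_apply_succAbove] at this
          unfold wr
          rw [if_pos this]
        rw [Finset.prod_congr rfl (fun i _ => hw i), ← Real.exp_sum, ← Real.exp_add]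
        apply le_of_eq
        congr 1
        rw [EuclideanSpace.real_norm_sq_eq, Fin.sum_univ_succAbove _ j]
        simp only [Fin.insertNth_apply_same, Fin.insertNth_apply_succAbove]
        rw [← Finset.sum_div, Finset.sum_neg_distrib]
        ring
      · exact mul_nonneg (Real.exp_pos _).le (Finset.prod_nonneg fun i _ => wr_nonneg_aux _ _)
  have s4 : ∫ p, g p = (1 / Real.sqrt (θ j ^ 2 + σ)) * ∫ x : Fin k → ℝ,
        Real.exp (-(∑ i, θ (j.succAbove i) * x i) ^ 2 / (2 * (θ j ^ 2 + σ))) *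
          ∏ i, wr r (x i) := by
    rw [← integral_const_mul]
    have := integral_prod_symm g hgi
    rw [show (∫ p, g p) = ∫ p, g p ∂((volume : Measure ℝ).prod (volume : Measure (Fin k → ℝ)))
      from rfl, this]
    refine integral_congr_ae (Filter.Eventually.of_forall fun x => ?_)
    simp only [hg]
    rw [integral_mul_const, gauss_conv_aux _ _ hσ]
    ring
  rw [s1, s2]
  exact s3.trans s4.le

end Pool.Agent.Helper82.GC
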