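import Pool.Agent.Helper82.GC.G1
import Pool.Agent.Helper82.GC.G2
import Pool.Agent.Helper82.GC.M
import Pool.Agent.Helper82.GC.P1

set_option autoImplicit false

open MeasureTheory Set

namespace Pool.Agent.Helper82.GC












theorem aux_exp_neg_le {w : ℝ} (hw : 0 ≤ w) : Real.exp (-w) ≤ 1 - w + w ^ 2 / 2 := by
  have h1 : 1 + w + w ^ 2 / 2 ≤ Real.exp w := Real.quadratic_le_exp_of_nonneg hw
  have h2 : 0 < 1 + w + w ^ 2 / 2 := by positivity
  rw [Real.exp_neg]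
  have h3 : (Real.exp w)⁻¹ ≤ (1 + w + w ^ 2 / 2)⁻¹ := inv_anti₀ h2 h1
  refine h3.trans ?_
  rw [inv_le_iff_one_le_mul₀ h2]
  nlinarith [sq_nonneg (w ^ 2)]

theorem aux_inner {n : ℕ} (θ : EuclideanSpace ℝ (Fin n)) (hθ : ‖θ‖ = 1)
    (x : ((ℝ ∙ θ)ᗮ : Submodule ℝ (EuclideanSpace ℝ (Fin n)))) (s : ℝ) :
    inner ℝ θ ((x : EuclideanSpace ℝ (Fin n)) + s • θ) = s := by
  have hx : inner ℝ θ (x : EuclideanSpace ℝ (Fin n)) = 0 :=
    Submodule.mem_orthogonal_singleton_iff_inner_right.mp x.2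
  rw [inner_add_right, hx, inner_smul_right, real_inner_self_eq_norm_sq, hθ]
  ring

theorem aux_norm {n : ℕ} (θ : EuclideanSpace ℝ (Fin n)) (hθ : ‖θ‖ = 1)
    (x : ((ℝ ∙ θ)ᗮ : Submodule ℝ (EuclideanSpace ℝ (Fin n)))) (s : ℝ) :
    ‖x‖ ^ 2 ≤ ‖(x : EuclideanSpace ℝ (Fin n)) + s • θ‖ ^ 2 := by
  have hx : inner ℝ (x : EuclideanSpace ℝ (Fin n)) θ = 0 :=
    Submodule.mem_orthogonal_singleton_iff_inner_left.mp x.2
  rw [norm_add_sq_real, inner_smul_right, hx, norm_smul, hθ]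
  have : ‖x‖ = ‖(x : EuclideanSpace ℝ (Fin n))‖ := rfl
  rw [this]
  nlinarith [sq_nonneg (‖s‖ * 1)]

theorem aux_F_nonneg {n : ℕ} (r : ℝ) (y : EuclideanSpace ℝ (Fin n)) : 0 ≤ F r y := by
  unfold F
  split_ifs
  · positivity
  · exact le_rfl

theorem aux_F_le {n : ℕ} (r : ℝ) (y : EuclideanSpace ℝ (Fin n)) :
    F r y ≤ Real.exp (-‖y‖ ^ 2 / 2) := by
  unfold F
  split_ifs
  · exact le_rfl
  · positivity

theorem aux_gauss_int (V : Type*) [NormedAddCommGroup V] [InnerProductSpace ℝ V]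
    [FiniteDimensional ℝ V] [MeasurableSpace V] [BorelSpace V] :
    Integrable (fun x : V => Real.exp (-‖x‖ ^ 2 / 2)) := by
  have h := GaussianFourier.integrable_cexp_neg_mul_sq_norm_add (V := V) (b := (1 / 2 : ℂ))
    (by norm_num) 0 (0 : V)
  have h2 := h.norm
  refine h2.congr (Filter.Eventually.of_forall fun x => ?_)
  simp only [inner_zero_left, Complex.ofReal_zero, mul_zero, add_zero, Complex.norm_exp]
  congr 1
  have : (-(1 / 2 : ℂ) * (‖x‖ : ℂ) ^ 2) = ((-‖x‖ ^ 2 / 2 : ℝ) : ℂ) := by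
    push_cast; ring
  rw [this, Complex.ofReal_re]

/-- the slice function -/
noncomputable def Asl {n : ℕ} (r : ℝ) (θ : EuclideanSpace ℝ (Fin n)) (s : ℝ) : ℝ :=
  ∫ x : ((ℝ ∙ θ)ᗮ : Submodule ℝ (EuclideanSpace ℝ (Fin n))),
      F r ((x : EuclideanSpace ℝ (Fin n)) + s • θ)

theorem aux_A_meas {n : ℕ} (r : ℝ) (θ : EuclideanSpace ℝ (Fin n)) :
    StronglyMeasurable (Asl r θ) := by
  unfold Asl
  have hm : Measurable (fun p : ℝ × ((ℝ ∙ θ)ᗮ : Submodule ℝ (EuclideanSpace ℝ (Fin n))) =>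
      F r ((p.2 : EuclideanSpace ℝ (Fin n)) + p.1 • θ)) := by
    refine (measurable_F r).comp ?_
    refine Continuous.measurable ?_
    fun_prop
  exact hm.stronglyMeasurable.integral_prod_right

theorem aux_A_nonneg {n : ℕ} (r : ℝ) (θ : EuclideanSpace ℝ (Fin n)) (s : ℝ) :
    0 ≤ Asl r θ s := integral_nonneg fun _ => aux_F_nonneg r _

theorem aux_A_le {n : ℕ} (r : ℝ) (θ : EuclideanSpace ℝ (Fin n)) (hθ : ‖θ‖ = 1) (s : ℝ) :
    Asl r θ s ≤ ∫ x : ((ℝ ∙ θ)ᗮ : Submodule ℝ (EuclideanSpace ℝ (Fin n))),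
      Real.exp (-‖x‖ ^ 2 / 2) := by
  unfold Asl
  refine integral_mono_of_nonneg (Filter.Eventually.of_forall fun x => aux_F_nonneg r _)
    (aux_gauss_int _) (Filter.Eventually.of_forall fun x => ?_)
  refine (aux_F_le r _).trans ?_
  apply Real.exp_le_exp.mpr
  have := aux_norm θ hθ x s
  linarith

theorem aux_fubini {n : ℕ} (r : ℝ) (θ : EuclideanSpace ℝ (Fin n)) (hθ : ‖θ‖ = 1)
    {τ : ℝ} (hτ : 0 < τ) :
    ∫ y : EuclideanSpace ℝ (Fin n),
        (1 / Real.sqrt (2 * Real.pi * τ ^ 2)) * Real.exp (-(inner ℝ θ y) ^ 2 / (2 * τ ^ 2)) * F r y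
      = ∫ u : ℝ, (1 / Real.sqrt (2 * Real.pi)) * Real.exp (-u ^ 2 / 2) * Asl r θ (τ * u) := by
  obtain ⟨e, he, hq⟩ := fubini_equiv θ hθ
  set H : EuclideanSpace ℝ (Fin n) → ℝ := fun y =>
    (1 / Real.sqrt (2 * Real.pi * τ ^ 2)) * Real.exp (-(inner ℝ θ y) ^ 2 / (2 * τ ^ 2)) * F r y
    with hH
  have hHint : Integrable H := by
    refine (integrable_F r).bdd_mul (c := 1 / Real.sqrt (2 * Real.pi * τ ^ 2)) ?_ ?_
    · refine Continuous.aestronglyMeasurable ?_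
      fun_prop
    · refine Filter.Eventually.of_forall fun y => ?_
      rw [Real.norm_eq_abs, abs_of_nonneg (by positivity)]
      refine mul_le_of_le_one_right (by positivity) ?_
      apply Real.exp_le_one_iff.mpr
      apply div_nonpos_of_nonpos_of_nonneg
      · nlinarith [sq_nonneg (inner ℝ θ y)]
      · positivity
  have h1 : ∫ y, H y = ∫ q, H (e q) ∂(volume.prod volume) :=
    (he.integral_comp e.measurableEmbedding H).symm
  have hint2 : Integrable (fun q => H (e q)) (volume.prod volume) :=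
    (he.integrable_comp_emb e.measurableEmbedding).mpr hHint
  have h2 : ∫ q, H (e q) ∂(volume.prod volume) = ∫ s : ℝ,
      (1 / Real.sqrt (2 * Real.pi * τ ^ 2)) * Real.exp (-s ^ 2 / (2 * τ ^ 2)) * Asl r θ s := by
    rw [integral_prod_symm _ hint2]
    refine integral_congr_ae (Filter.Eventually.of_forall fun s => ?_)
    simp only
    rw [Asl, ← integral_const_mul]
    refine integral_congr_ae (Filter.Eventually.of_forall fun x => ?_)
    simp only [hH, hq, aux_inner θ hθ x s]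
  rw [h1, h2]
  set k : ℝ → ℝ := fun s =>
      (1 / Real.sqrt (2 * Real.pi * τ ^ 2)) * Real.exp (-s ^ 2 / (2 * τ ^ 2)) * Asl r θ s with hk
  have h3 := Measure.integral_comp_mul_left k τ
  have h4 : ∫ s, k s = τ * ∫ u, k (τ * u) := by
    rw [h3, smul_eq_mul, abs_of_pos (inv_pos.mpr hτ), ← mul_assoc, mul_inv_cancel₀ hτ.ne', one_mul]
  rw [h4, ← integral_const_mul]
  refine integral_congr_ae (Filter.Eventually.of_forall fun u => ?_)
  simp only [hk]
  have h5 : Real.sqrt (2 * Real.pi * τ ^ 2) = Real.sqrt (2 * Real.pi) * τ := by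
    rw [Real.sqrt_mul (by positivity), Real.sqrt_sq hτ.le]
  have h6 : -(τ * u) ^ 2 / (2 * τ ^ 2) = -u ^ 2 / 2 := by
    field_simp
  rw [h5, h6]
  have h7 : Real.sqrt (2 * Real.pi) ≠ 0 := by positivity
  field_simp

theorem aux_gauss_one : ∫ u : ℝ, (1 / Real.sqrt (2 * Real.pi)) * Real.exp (-u ^ 2 / 2) = 1 := by
  rw [integral_const_mul]
  have h := integral_gaussian (1 / 2 : ℝ)
  have h2 : (fun u : ℝ => Real.exp (-u ^ 2 / 2)) = fun u : ℝ => Real.exp (-(1 / 2) * u ^ 2) := by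
    funext u
    congr 1
    ring
  rw [h2, h]
  have h3 : Real.pi / (1 / 2) = 2 * Real.pi := by ring
  rw [h3]
  have h7 : Real.sqrt (2 * Real.pi) ≠ 0 := by positivity
  field_simp

theorem aux_tend_left {n : ℕ} {r : ℝ} (hr : 0 < r) (θ : EuclideanSpace ℝ (Fin n)) (hθ : ‖θ‖ = 1) :
    Filter.Tendsto (fun τ : ℝ =>
      ∫ u : ℝ, (1 / Real.sqrt (2 * Real.pi)) * Real.exp (-u ^ 2 / 2) * Asl r θ (τ * u))
      (nhdsWithin 0 (Ioi 0)) (nhds (Asl r θ 0)) := by
  have hlim : Asl r θ 0 = ∫ u : ℝ, (1 / Real.sqrt (2 * Real.pi)) * Real.exp (-u ^ 2 / 2) *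
      Asl r θ 0 := by
    rw [integral_mul_const, aux_gauss_one, one_mul]
  rw [hlim]
  set M := ∫ x : ((ℝ ∙ θ)ᗮ : Submodule ℝ (EuclideanSpace ℝ (Fin n))),
      Real.exp (-‖x‖ ^ 2 / 2) with hM
  have hg : Integrable (fun u : ℝ => (1 / Real.sqrt (2 * Real.pi)) * Real.exp (-u ^ 2 / 2)) := by
    refine Integrable.const_mul ?_ _
    have := aux_gauss_int ℝ
    simpa using this
  refine tendsto_integral_filter_of_dominated_convergence
    (fun u : ℝ => (1 / Real.sqrt (2 * Real.pi)) * Real.exp (-u ^ 2 / 2) * M) ?_ ?_ ?_ ?_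
  · refine Filter.Eventually.of_forall fun τ => ?_
    refine AEStronglyMeasurable.mul hg.aestronglyMeasurable ?_
    exact ((aux_A_meas r θ).comp_measurable (measurable_const_mul τ)).aestronglyMeasurable
  · refine Filter.Eventually.of_forall fun τ => Filter.Eventually.of_forall fun u => ?_
    rw [Real.norm_eq_abs, abs_of_nonneg (mul_nonneg (by positivity) (aux_A_nonneg r θ _))]
    exact mul_le_mul_of_nonneg_left (aux_A_le r θ hθ _) (by positivity)
  · exact hg.mul_const M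
  · refine Filter.Eventually.of_forall fun u => ?_
    refine Filter.Tendsto.const_mul _ ?_
    have hc : ContinuousAt (Asl r θ) 0 := continuousAt_slice hr θ hθ
    have ht : Filter.Tendsto (fun τ : ℝ => τ * u) (nhdsWithin 0 (Ioi 0)) (nhds 0) := by
      have : Filter.Tendsto (fun τ : ℝ => τ * u) (nhds 0) (nhds (0 * u)) :=
        (continuous_id.mul continuous_const).tendsto 0
      rw [zero_mul] at this
      exact this.mono_left nhdsWithin_le_nhds
    exact hc.tendsto.comp ht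

theorem aux_prod_nonneg {k : ℕ} (r : ℝ) (x : Fin k → ℝ) : 0 ≤ ∏ i, wr r (x i) := by
  refine Finset.prod_nonneg fun i _ => ?_
  unfold wr
  split_ifs
  · positivity
  · exact le_rfl

theorem aux_int_prod {k : ℕ} {r : ℝ} (hr : 0 < r) :
    Integrable (fun x : Fin k → ℝ => ∏ i, wr r (x i)) := by
  have := integrable_pi (k := k) hr (fun _ => (1 : ℝ)) continuous_const
  simpa using this

theorem aux_tend_right {k : ℕ} {r : ℝ} (hr : 0 < r) (a : Fin k → ℝ) {t : ℝ} (ht : t ≠ 0) :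
    Filter.Tendsto (fun τ : ℝ => (1 / Real.sqrt (t ^ 2 + τ ^ 2)) * ∫ x : Fin k → ℝ,
        Real.exp (-(∑ i, a i * x i) ^ 2 / (2 * (t ^ 2 + τ ^ 2))) *
          ∏ i, wr r (x i))
      (nhdsWithin 0 (Ioi 0)) (nhds ((1 / |t|) * ∫ x : Fin k → ℝ,
        Real.exp (-(∑ i, a i * x i) ^ 2 / (2 * t ^ 2)) *
          ∏ i, wr r (x i))) := by
  have ht2 : 0 < t ^ 2 := by positivity
  have hbase : Filter.Tendsto (fun τ : ℝ => t ^ 2 + τ ^ 2) (nhdsWithin 0 (Ioi 0)) (nhds (t ^ 2)) := by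
    have : Filter.Tendsto (fun τ : ℝ => t ^ 2 + τ ^ 2) (nhds 0) (nhds (t ^ 2 + 0 ^ 2)) :=
      (continuous_const.add (continuous_id.pow 2)).tendsto 0
    simp only [ne_eq, OfNat.ofNat_ne_zero, not_false_eq_true, zero_pow, add_zero] at this
    exact this.mono_left nhdsWithin_le_nhds
  refine Filter.Tendsto.mul ?_ ?_
  · have h1 : Filter.Tendsto (fun τ : ℝ => Real.sqrt (t ^ 2 + τ ^ 2)) (nhdsWithin 0 (Ioi 0))
        (nhds (Real.sqrt (t ^ 2))) := (Real.continuous_sqrt.tendsto _).comp hbase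
    rw [Real.sqrt_sq_eq_abs] at h1
    exact tendsto_const_nhds.div h1 (by positivity)
  · refine tendsto_integral_filter_of_dominated_convergence
      (fun x : Fin k → ℝ => ∏ i, wr r (x i)) ?_ ?_ (aux_int_prod hr) ?_
    · refine Filter.Eventually.of_forall fun τ => ?_
      refine AEStronglyMeasurable.mul ?_ (aux_int_prod hr).aestronglyMeasurable
      refine Continuous.aestronglyMeasurable ?_
      fun_prop
    · refine Filter.Eventually.of_forall fun τ => Filter.Eventually.of_forall fun x => ?_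
      rw [Real.norm_eq_abs, abs_of_nonneg (mul_nonneg (by positivity) (aux_prod_nonneg r x))]
      refine mul_le_of_le_one_left (aux_prod_nonneg r x) ?_
      apply Real.exp_le_one_iff.mpr
      apply div_nonpos_of_nonpos_of_nonneg
      · nlinarith [sq_nonneg (∑ i, a i * x i)]
      · positivity
    · refine Filter.Eventually.of_forall fun x => ?_
      refine Filter.Tendsto.mul_const _ ?_
      refine (Real.continuous_exp.tendsto _).comp ?_
      refine Filter.Tendsto.div tendsto_const_nhds (hbase.const_mul 2) ?_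
      positivity

theorem slice_le_integral {k : ℕ} {r : ℝ} (hr : 0 < r) (θ : EuclideanSpace ℝ (Fin (k + 1)))
    (hθ : ‖θ‖ = 1) (j : Fin (k + 1)) (hj : θ j ≠ 0) :
    ∫ x : ((ℝ ∙ θ)ᗮ : Submodule ℝ (EuclideanSpace ℝ (Fin (k + 1)))),
      F r (x : EuclideanSpace ℝ (Fin (k + 1))) ≤ (1 / |θ j|) * ∫ x : Fin k → ℝ,
        Real.exp (-(∑ i, θ (j.succAbove i) * x i) ^ 2 / (2 * θ j ^ 2)) *
          ∏ i, wr r (x i) := by
  have h0 : ∫ x : ((ℝ ∙ θ)ᗮ : Submodule ℝ (EuclideanSpace ℝ (Fin (k + 1)))),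
      F r (x : EuclideanSpace ℝ (Fin (k + 1))) = Asl r θ 0 := by
    unfold Asl
    simp only [zero_smul, add_zero]
  rw [h0]
  refine le_of_tendsto_of_tendsto (aux_tend_left hr θ hθ)
    (aux_tend_right hr (fun i => θ (j.succAbove i)) hj) ?_
  filter_upwards [self_mem_nhdsWithin] with τ hτ
  have hτ' : 0 < τ := hτ
  rw [← aux_fubini r θ hθ hτ']
  exact smooth_slice_le hr θ j (by positivity)

theorem slice_le_moment {k : ℕ} {r : ℝ} (hr : 0 < r) (θ : EuclideanSpace ℝ (Fin (k + 1)))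
    (hθ : ‖θ‖ = 1) (j : Fin (k + 1)) (hj : θ j ≠ 0) :
    ∫ x : ((ℝ ∙ θ)ᗮ : Submodule ℝ (EuclideanSpace ℝ (Fin (k + 1)))),
      F r (x : EuclideanSpace ℝ (Fin (k + 1))) ≤ Zr r ^ k * ((1 / |θ j|) *
        (1 - vr r * ((1 - θ j ^ 2) / θ j ^ 2) / 2 +
          3 * vr r ^ 2 * ((1 - θ j ^ 2) / θ j ^ 2) ^ 2 / 8)) := by
  refine (slice_le_integral hr θ hθ j hj).trans ?_
  have hj2 : 0 < θ j ^ 2 := by positivity
  have hS : ∑ i, θ (j.succAbove i) ^ 2 = 1 - θ j ^ 2 := by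
    have h1 : ∑ i, θ i ^ 2 = 1 := by
      have := EuclideanSpace.norm_sq_eq θ
      rw [hθ] at this
      simp only [Real.norm_eq_abs, sq_abs] at this
      linarith
    rw [Fin.sum_univ_succAbove _ j] at h1
    linarith
  set a : Fin k → ℝ := fun i => θ (j.succAbove i) with ha
  have hI : ∫ x : Fin k → ℝ, Real.exp (-(∑ i, θ (j.succAbove i) * x i) ^ 2 / (2 * θ j ^ 2)) *
          ∏ i, wr r (x i) ≤ ∫ x : Fin k → ℝ, (∏ i, wr r (x i)
            - (1 / (2 * θ j ^ 2)) * ((∑ i, a i * x i) ^ 2 * ∏ i, wr r (x i))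
            + (1 / (8 * (θ j ^ 2) ^ 2)) * ((∑ i, a i * x i) ^ 4 * ∏ i, wr r (x i))) := by
    refine integral_mono_of_nonneg (Filter.Eventually.of_forall fun x =>
      mul_nonneg (by positivity) (aux_prod_nonneg r x)) ?_
      (Filter.Eventually.of_forall fun x => ?_)
    · refine ((aux_int_prod hr).sub (Integrable.const_mul ?_ _)).add (Integrable.const_mul ?_ _)
      · exact integrable_pi hr (fun x => (∑ i, a i * x i) ^ 2) (by fun_prop)
      · exact integrable_pi hr (fun x => (∑ i, a i * x i) ^ 4) (by fun_prop)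
    · simp only
      set Y := ∑ i, θ (j.succAbove i) * x i with hY
      have hP := aux_prod_nonneg r x
      have hw : 0 ≤ Y ^ 2 / (2 * θ j ^ 2) := by positivity
      have h1 := aux_exp_neg_le hw
      have h2 : -Y ^ 2 / (2 * θ j ^ 2) = -(Y ^ 2 / (2 * θ j ^ 2)) := by ring
      rw [h2]
      refine (mul_le_mul_of_nonneg_right h1 hP).trans (le_of_eq ?_)
      field_simp
      ring
  have hI2 : ∫ x : Fin k → ℝ, (∏ i, wr r (x i)
            - (1 / (2 * θ j ^ 2)) * ((∑ i, a i * x i) ^ 2 * ∏ i, wr r (x i))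
            + (1 / (8 * (θ j ^ 2) ^ 2)) * ((∑ i, a i * x i) ^ 4 * ∏ i, wr r (x i)))
      = Zr r ^ k - (1 / (2 * θ j ^ 2)) * (vr r * Zr r ^ k * ∑ i, a i ^ 2)
        + (1 / (8 * (θ j ^ 2) ^ 2)) * ∫ x : Fin k → ℝ, (∑ i, a i * x i) ^ 4 * ∏ i, wr r (x i) := by
    have i1 : Integrable (fun x : Fin k → ℝ => ∏ i, wr r (x i)) := aux_int_prod hr
    have i2 : Integrable (fun x : Fin k → ℝ =>
        (1 / (2 * θ j ^ 2)) * ((∑ i, a i * x i) ^ 2 * ∏ i, wr r (x i))) :=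
      Integrable.const_mul (integrable_pi hr (fun x => (∑ i, a i * x i) ^ 2) (by fun_prop)) _
    have i3 : Integrable (fun x : Fin k → ℝ =>
        (1 / (8 * (θ j ^ 2) ^ 2)) * ((∑ i, a i * x i) ^ 4 * ∏ i, wr r (x i))) :=
      Integrable.const_mul (integrable_pi hr (fun x => (∑ i, a i * x i) ^ 4) (by fun_prop)) _
    have e1 := integral_add (i1.sub i2) i3
    have e2 := integral_sub i1 i2
    simp only [Pi.sub_apply] at e1
    rw [e1, e2, integral_const_mul, integral_const_mul,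
      integral_pi_one hr, integral_pi_sq hr]
  have hI3 := integral_pi_four hr a
  have hSa : ∑ i, a i ^ 2 = 1 - θ j ^ 2 := hS
  rw [hSa] at hI2 hI3
  have hfin : ∫ x : Fin k → ℝ, Real.exp (-(∑ i, θ (j.succAbove i) * x i) ^ 2 / (2 * θ j ^ 2)) *
          ∏ i, wr r (x i) ≤ Zr r ^ k * (1 - vr r * ((1 - θ j ^ 2) / θ j ^ 2) / 2 +
          3 * vr r ^ 2 * ((1 - θ j ^ 2) / θ j ^ 2) ^ 2 / 8) := by
    refine hI.trans ?_
    rw [hI2]
    have h8 : (1 / (8 * (θ j ^ 2) ^ 2)) * ∫ x : Fin k → ℝ, (∑ i, a i * x i) ^ 4 * ∏ i, wr r (x i)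
        ≤ (1 / (8 * (θ j ^ 2) ^ 2)) * (3 * vr r ^ 2 * Zr r ^ k * (1 - θ j ^ 2) ^ 2) :=
      mul_le_mul_of_nonneg_left hI3 (by positivity)
    refine (add_le_add le_rfl h8).trans (le_of_eq ?_)
    field_simp
  calc (1 / |θ j|) * ∫ x : Fin k → ℝ,
        Real.exp (-(∑ i, θ (j.succAbove i) * x i) ^ 2 / (2 * θ j ^ 2)) *
          ∏ i, wr r (x i) ≤ (1 / |θ j|) * (Zr r ^ k * (1 - vr r * ((1 - θ j ^ 2) / θ j ^ 2) / 2 +
          3 * vr r ^ 2 * ((1 - θ j ^ 2) / θ j ^ 2) ^ 2 / 8)) :=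
        mul_le_mul_of_nonneg_left hfin (by positivity)
    _ = _ := by ring

end Pool.Agent.Helper82.GC
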