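import Pool.Agent.Helper82.GC.E1
import Pool.Agent.Helper82.GC.P2

set_option autoImplicit false

open MeasureTheory Set

namespace Pool.Agent.Helper82.GC












theorem poly_7316 {ρ v : ℝ} (h0 : 0 ≤ ρ) (h1 : ρ ≤ 1) (hv1 : 0.29112 < v) (hv2 : v < 0.29113) :
    0 ≤ 1 - v * ρ / 2 + 3 * v ^ 2 * ρ ^ 2 / 8 ∧
      Real.sqrt (1 + ρ) * (1 - v * ρ / 2 + 3 * v ^ 2 * ρ ^ 2 / 8) ≤ 1.26 := by
  have a1 : v * ρ ≤ 0.29113 := by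
    calc v * ρ ≤ v * 1 := mul_le_mul_of_nonneg_left h1 (by linarith)
      _ ≤ 0.29113 := by linarith
  have a2 : 0.29112 * ρ ≤ v * ρ := mul_le_mul_of_nonneg_right hv1.le h0
  have hρ2 : ρ ^ 2 ≤ ρ := by
    rw [sq]; exact mul_le_of_le_one_right h0 h1
  have hv3 : v ^ 2 ≤ 0.0848 := by
    calc v ^ 2 ≤ 0.29113 ^ 2 := pow_le_pow_left₀ (by linarith) hv2.le 2
      _ ≤ 0.0848 := by norm_num
  have a3 : v ^ 2 * ρ ^ 2 ≤ 0.0848 * ρ := by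
    apply mul_le_mul hv3 hρ2 (by positivity) (by norm_num)
  have a4 : 0 ≤ v ^ 2 * ρ ^ 2 := by positivity
  have p0 : 0 ≤ 1 - v * ρ / 2 + 3 * v ^ 2 * ρ ^ 2 / 8 := by nlinarith
  have p1 : 1 - v * ρ / 2 + 3 * v ^ 2 * ρ ^ 2 / 8 ≤ 1 - 0.11 * ρ := by nlinarith
  refine ⟨p0, ?_⟩
  have hcub : (1 + ρ) * (1 - 0.11 * ρ) ^ 2 ≤ 1.26 ^ 2 := by
    have b1 : 0 ≤ (1 - ρ) * ρ := mul_nonneg (by linarith) h0
    have b2 : 0 ≤ (1 - ρ) * ρ * ρ := mul_nonneg b1 h0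
    have b3 : 0 ≤ (1 - ρ) * ρ * (1 - ρ) := mul_nonneg b1 (by linarith)
    nlinarith
  have hq : Real.sqrt (1 + ρ) * (1 - 0.11 * ρ) ≤ 1.26 := by
    have c1 : 0 ≤ 1 - 0.11 * ρ := by linarith
    have c2 : Real.sqrt (1 + ρ) * (1 - 0.11 * ρ) = Real.sqrt ((1 + ρ) * (1 - 0.11 * ρ) ^ 2) := by
      rw [Real.sqrt_mul (by linarith), Real.sqrt_sq c1]
    rw [c2, show (1.26 : ℝ) = Real.sqrt (1.26 ^ 2) by rw [Real.sqrt_sq (by norm_num)]]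
    exact Real.sqrt_le_sqrt hcub
  exact (mul_le_mul_of_nonneg_left p1 (Real.sqrt_nonneg _)).trans hq

theorem const_7316 : (1.26 : ℝ) ≤ Zr 1 / (2 * Real.pi) *
    (Real.sqrt (2 * Real.pi / vr 1) - 0.01) := by
  obtain ⟨z1, z2⟩ := Zr_one_bounds
  obtain ⟨v1, v2⟩ := vr_one_bounds
  have p1 := Real.pi_gt_d6
  have p2 := Real.pi_lt_d6
  have hs : (4.645 : ℝ) ≤ Real.sqrt (2 * Real.pi / vr 1) := by
    apply Real.le_sqrt_of_sq_le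
    rw [le_div_iff₀ (by linarith)]
    nlinarith
  have hpi : 0 < 2 * Real.pi := by linarith
  rw [div_mul_eq_mul_div, le_div_iff₀ hpi]
  have h1 : (1.711248 : ℝ) * 4.635 ≤ Zr 1 * (Real.sqrt (2 * Real.pi / vr 1) - 0.01) := by
    apply mul_le_mul z1.le (by linarith) (by norm_num) (by linarith)
  refine le_trans ?_ h1
  norm_num at p2 ⊢
  linarith

theorem large_region : ∃ δ : ℝ, 0 < δ ∧ ∀ (k : ℕ) (θ : EuclideanSpace ℝ (Fin (k + 1))),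
    ‖θ‖ = 1 → (∃ j, 1 / 2 ≤ θ j ^ 2) →
    ∫ x : ((ℝ ∙ θ)ᗮ : Submodule ℝ (EuclideanSpace ℝ (Fin (k + 1)))),
      F 1 (x : EuclideanSpace ℝ (Fin (k + 1))) ≤
      Zr 1 ^ (k + 1) / (2 * Real.pi) * (Real.sqrt (2 * Real.pi / vr 1) - δ) := by
  refine ⟨0.01, by norm_num, ?_⟩
  rintro k θ hθ ⟨j, hj⟩
  have hj2 : 0 < θ j ^ 2 := by linarith
  have hj0 : θ j ≠ 0 := by
    intro h
    rw [h] at hj2
    norm_num at hj2
  have hle : θ j ^ 2 ≤ 1 := by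
    have h1 : ‖θ j‖ ≤ ‖θ‖ := PiLp.norm_apply_le θ j
    rw [hθ, Real.norm_eq_abs] at h1
    rw [← sq_abs]
    exact pow_le_one₀ (abs_nonneg _) h1
  obtain ⟨ρ, hρ⟩ : ∃ ρ, ρ = (1 - θ j ^ 2) / θ j ^ 2 := ⟨_, rfl⟩
  have hρ0 : 0 ≤ ρ := by rw [hρ]; exact div_nonneg (by linarith) hj2.le
  have hρ1 : ρ ≤ 1 := by rw [hρ, div_le_one hj2]; linarith
  have hρ2 : 1 / |θ j| = Real.sqrt (1 + ρ) := by
    have h1 : 1 + ρ = (1 / |θ j|) ^ 2 := by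
      rw [hρ, div_pow, sq_abs]
      field_simp
      ring
    rw [h1, Real.sqrt_sq (by positivity)]
  have h1 := slice_le_moment one_pos θ hθ j hj0
  rw [← hρ, hρ2] at h1
  have h2 := (poly_7316 hρ0 hρ1 vr_one_bounds.1 vr_one_bounds.2).2
  have hZ : 0 < Zr 1 := Zr_pos one_pos
  refine h1.trans ?_
  have h3 := mul_le_mul_of_nonneg_left (h2.trans const_7316) (pow_nonneg hZ.le k)
  refine h3.trans (le_of_eq ?_)
  rw [pow_succ]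
  ring

end Pool.Agent.Helper82.GC
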