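import Pool.Agent.Helper82.GC.Def

set_option autoImplicit false

open MeasureTheory Set

namespace Pool.Agent.Helper82.GC






theorem g3_odd (r s : ℝ) :
    ∫ x in (-r)..r, Real.sin (s * x) * Real.exp (-x ^ 2 / 2) = 0 := by
  have h := intervalIntegral.integral_comp_neg (a := -r) (b := r)
    (fun x : ℝ => Real.sin (s * x) * Real.exp (-x ^ 2 / 2))
  simp only [neg_neg, mul_neg, Real.sin_neg, neg_mul, even_two, Even.neg_pow] at h
  rw [intervalIntegral.integral_neg] at h
  linarith

theorem g3_one (r s : ℝ) (hr : 0 < r) :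
    ∫ x : ℝ, Complex.exp (-((s * x : ℝ) : ℂ) * Complex.I) *
      (((if |x| ≤ r then Real.exp (-x ^ 2 / 2) else 0 : ℝ)) : ℂ) = ((G r s : ℝ) : ℂ) := by
  have e : (fun x : ℝ => Complex.exp (-((s * x : ℝ) : ℂ) * Complex.I) *
      (((if |x| ≤ r then Real.exp (-x ^ 2 / 2) else 0 : ℝ)) : ℂ)) =
      (Icc (-r) r).indicator (fun x : ℝ => ((Real.cos (s * x) * Real.exp (-x ^ 2 / 2) : ℝ) : ℂ)
        - ((Real.sin (s * x) * Real.exp (-x ^ 2 / 2) : ℝ) : ℂ) * Complex.I) := by
    funext x
    by_cases hx : |x| ≤ r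
    · rw [if_pos hx, indicator_of_mem (show x ∈ Icc (-r) r from abs_le.1 hx)]
      rw [← Complex.ofReal_neg, Complex.exp_mul_I]
      push_cast
      rw [Complex.cos_neg, Complex.sin_neg]
      ring
    · rw [if_neg hx, indicator_of_notMem (show x ∉ Icc (-r) r from fun h => hx (abs_le.2 h))]
      simp
  rw [e, integral_indicator measurableSet_Icc, integral_Icc_eq_integral_Ioc,
    ← intervalIntegral.integral_of_le (by linarith : -r ≤ r)]
  rw [intervalIntegral.integral_sub, intervalIntegral.integral_mul_const,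
    intervalIntegral.integral_ofReal, intervalIntegral.integral_ofReal, g3_odd]
  · simp [G]
  · apply Continuous.intervalIntegrable
    fun_prop
  · apply Continuous.intervalIntegrable
    fun_prop

theorem fourier_F {n : ℕ} {r : ℝ} (hr : 0 < r) (θ : EuclideanSpace ℝ (Fin n)) (t : ℝ) :
    ∫ y : EuclideanSpace ℝ (Fin n), Complex.exp (-(t * inner ℝ θ y : ℝ) * Complex.I) * (F r y : ℂ)
      = ((∏ i, G r (θ i * t) : ℝ) : ℂ) := by
  classical
  have e1 := (EuclideanSpace.volume_preserving_symm_measurableEquiv_toLp (Fin n)).integral_comp'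
    (fun x : Fin n → ℝ => ∏ i, (Complex.exp (-((θ i * t * x i : ℝ) : ℂ) * Complex.I) *
      (((if |x i| ≤ r then Real.exp (-x i ^ 2 / 2) else 0 : ℝ)) : ℂ)))
  have e2 := integral_fintype_prod_volume_eq_prod (𝕜 := ℂ) (ι := Fin n) (E := fun _ => ℝ)
    (fun i x => (Complex.exp (-((θ i * t * x : ℝ) : ℂ) * Complex.I) *
      (((if |x| ≤ r then Real.exp (-x ^ 2 / 2) else 0 : ℝ)) : ℂ)))
  rw [e2] at e1
  simp only [g3_one r _ hr] at e1
  rw [Complex.ofReal_prod, ← e1]
  apply integral_congr_ae
  apply Filter.Eventually.of_forall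
  intro y
  simp only []
  have hy : ∀ i, (MeasurableEquiv.toLp 2 (Fin n → ℝ)).symm y i = y i := fun i => rfl
  simp only [hy]
  rw [Finset.prod_mul_distrib, ← Complex.exp_sum]
  congr 1
  · congr 1
    rw [← Finset.sum_mul]
    congr 1
    rw [PiLp.inner_apply, Finset.mul_sum]
    push_cast
    rw [← Finset.sum_neg_distrib]
    apply Finset.sum_congr rfl
    intro i _
    simp
    ring
  · rw [← Complex.ofReal_prod]
    congr 1
    unfold F
    by_cases hall : ∀ i, |y i| ≤ r
    · rw [if_pos hall]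
      have : ∀ i, (if |y i| ≤ r then Real.exp (-y i ^ 2 / 2) else 0) =
          Real.exp (-y i ^ 2 / 2) := fun i => if_pos (hall i)
      simp only [this]
      rw [← Real.exp_sum]
      congr 1
      rw [EuclideanSpace.norm_sq_eq, neg_div, Finset.sum_div, ← Finset.sum_neg_distrib]
      apply Finset.sum_congr rfl
      intro i _
      rw [Real.norm_eq_abs, sq_abs]
      ring
    · rw [if_neg hall]
      push Not at hall
      obtain ⟨i, hi⟩ := hall
      symm
      apply Finset.prod_eq_zero (Finset.mem_univ i)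
      rw [if_neg (not_le.2 hi)]

end Pool.Agent.Helper82.GC
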