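import Pool.Agent.Helper82.GC.G1
import Pool.Agent.Helper82.GC.G2
import Pool.Agent.Helper82.GC.G3

set_option autoImplicit false

open MeasureTheory Set

namespace Pool.Agent.Helper82.GC












theorem slice_fourier {n : ℕ} {r : ℝ} (hr : 0 < r) (θ : EuclideanSpace ℝ (Fin n)) (hθ : ‖θ‖ = 1)
    (ξ : ℝ) :
    FourierTransform.fourier (fun s : ℝ => ((∫ x : ((ℝ ∙ θ)ᗮ : Submodule ℝ (EuclideanSpace ℝ (Fin n))),
      F r ((x : EuclideanSpace ℝ (Fin n)) + s • θ) : ℝ) : ℂ)) ξ
      = ((∏ i, G r (θ i * (2 * Real.pi * ξ)) : ℝ) : ℂ) := by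
  obtain ⟨e, he, heq⟩ := fubini_equiv θ hθ
  have hFi : Integrable (fun y : EuclideanSpace ℝ (Fin n) =>
      Complex.exp (-((2 * Real.pi * ξ) * inner ℝ θ y : ℝ) * Complex.I) * (F r y : ℂ)) := by
    refine (integrable_F r).ofReal.bdd_mul (c := 1) ?_ ?_
    · apply Continuous.aestronglyMeasurable
      fun_prop
    · filter_upwards with y
      have : (-((2 * Real.pi * ξ) * inner ℝ θ y : ℝ) * Complex.I : ℂ)
          = ((-((2 * Real.pi * ξ) * inner ℝ θ y) : ℝ) : ℂ) * Complex.I := by push_cast; ring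
      rw [this, Complex.norm_exp_ofReal_mul_I]
  have h1 := he.integral_comp e.measurableEmbedding (fun y : EuclideanSpace ℝ (Fin n) =>
      Complex.exp (-((2 * Real.pi * ξ) * inner ℝ θ y : ℝ) * Complex.I) * (F r y : ℂ))
  have hFi2 := (he.integrable_comp_emb e.measurableEmbedding).2 hFi
  have hsy := integral_prod_symm _ hFi2
  simp only [Function.comp] at hsy
  rw [hsy, fourier_F hr θ (2 * Real.pi * ξ)] at h1
  rw [← h1, Real.fourier_real_eq_integral_exp_smul]
  apply integral_congr_ae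
  filter_upwards with s
  rw [← integral_complex_ofReal, smul_eq_mul, ← integral_const_mul]
  apply integral_congr_ae
  filter_upwards with x
  have hx : inner ℝ θ (x : EuclideanSpace ℝ (Fin n)) = 0 :=
    (Submodule.mem_orthogonal_singleton_iff_inner_right).1 x.2
  rw [heq]
  have h2 : inner ℝ θ ((x : EuclideanSpace ℝ (Fin n)) + s • θ) = s := by
    rw [inner_add_right, hx, inner_smul_right, real_inner_self_eq_norm_sq, hθ]
    ring
  simp only [h2]
  congr 2
  push_cast
  ring

theorem slice_formula {n : ℕ} {r : ℝ} (hr : 0 < r) (θ : EuclideanSpace ℝ (Fin n)) (hθ : ‖θ‖ = 1)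
    (hint : Integrable (fun t : ℝ => ∏ i, G r (θ i * t))) :
    ∫ x : ((ℝ ∙ θ)ᗮ : Submodule ℝ (EuclideanSpace ℝ (Fin n))),
      F r (x : EuclideanSpace ℝ (Fin n)) = (1 / (2 * Real.pi)) * ∫ t, ∏ i, G r (θ i * t) := by
  obtain ⟨e, he, heq⟩ := fubini_equiv θ hθ
  set A : ℝ → ℂ := fun s : ℝ => ((∫ x : ((ℝ ∙ θ)ᗮ : Submodule ℝ (EuclideanSpace ℝ (Fin n))),
      F r ((x : EuclideanSpace ℝ (Fin n)) + s • θ) : ℝ) : ℂ) with hA
  have hFou : FourierTransform.fourier A = fun ξ => ((∏ i, G r (θ i * (2 * Real.pi * ξ)) : ℝ) : ℂ) := by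
    funext ξ
    exact slice_fourier hr θ hθ ξ
  have hAi : Integrable A := by
    have h1 := (he.integrable_comp_emb e.measurableEmbedding).2 (integrable_F (n := n) r)
    have h2 := h1.integral_prod_right
    have h3 : (fun y => ∫ x, ((F r) ∘ e) (x, y)) = fun s : ℝ => (∫ x : ((ℝ ∙ θ)ᗮ : Submodule ℝ (EuclideanSpace ℝ (Fin n))),
      F r ((x : EuclideanSpace ℝ (Fin n)) + s • θ) : ℝ) := by
      funext s
      apply integral_congr_ae
      filter_upwards with x
      simp only [Function.comp, heq]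
    rw [h3] at h2
    exact h2.ofReal
  have hFi : Integrable (FourierTransform.fourier A) := by
    rw [hFou]
    apply Integrable.ofReal
    have := hint.comp_mul_left' (R := 2 * Real.pi) (by positivity)
    exact this
  have hc : ContinuousAt A 0 := Complex.continuous_ofReal.continuousAt.comp (continuousAt_slice hr θ hθ)
  have hinv := hAi.fourierInv_fourier_eq hFi hc
  rw [Real.fourierInv_eq', hFou] at hinv
  simp only [inner_zero_right, mul_zero, Complex.ofReal_zero, zero_mul, Complex.exp_zero, one_smul] at hinv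
  rw [integral_complex_ofReal, hA] at hinv
  simp only [zero_smul, add_zero] at hinv
  have hinv2 := Complex.ofReal_injective hinv
  rw [← hinv2, Measure.integral_comp_mul_left (fun t => ∏ i, G r (θ i * t)), smul_eq_mul, abs_of_pos (by positivity)]
  rw [one_div]

end Pool.Agent.Helper82.GC
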