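import Pool.Agent.Helper82.GC.A1
import Pool.Agent.Helper82.GC.G4

set_option autoImplicit false

open MeasureTheory Set

namespace Pool.Agent.Helper82.GC












theorem G_eq_phi {n : ℕ} {r : ℝ} (hr : 0 < r) (θ : EuclideanSpace ℝ (Fin n)) (t : ℝ) :
    ∏ i, G r (θ i * t) = Zr r ^ n * ∏ i, phi r (Real.sqrt (θ i ^ 2) * t) := by
  have hZ := (Zr_pos hr).ne'
  have h1 : ∀ i, G r (θ i * t) = Zr r * phi r (Real.sqrt (θ i ^ 2) * t) := by
    intro i
    have h2 : phi r (Real.sqrt (θ i ^ 2) * t) = phi r (θ i * t) := by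
      rw [Real.sqrt_sq_eq_abs]
      rcases abs_choice (θ i) with h | h
      · rw [h]
      · rw [h, neg_mul, phi_neg]
    rw [h2]
    unfold phi
    field_simp
  rw [Finset.prod_congr rfl (fun i _ => h1 i), Finset.prod_mul_distrib]
  simp

theorem slice_eq_J {n : ℕ} {r : ℝ} (hr : 0 < r) (θ : EuclideanSpace ℝ (Fin n)) (hθ : ‖θ‖ = 1)
    (hint : Integrable (fun t : ℝ => ∏ i, phi r (Real.sqrt (θ i ^ 2) * t))) :
    ∫ x : ((ℝ ∙ θ)ᗮ : Submodule ℝ (EuclideanSpace ℝ (Fin n))),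
      F r (x : EuclideanSpace ℝ (Fin n)) = Zr r ^ n / (2 * Real.pi) * J r (fun i => θ i ^ 2) := by
  have e : (fun t : ℝ => ∏ i, G r (θ i * t)) =
      fun t => Zr r ^ n * ∏ i, phi r (Real.sqrt (θ i ^ 2) * t) := by
    funext t
    exact G_eq_phi hr θ t
  have hint' : Integrable (fun t : ℝ => ∏ i, G r (θ i * t)) := by
    rw [e]
    exact hint.const_mul _
  rw [slice_formula hr θ hθ hint', e, integral_const_mul]
  unfold J
  ring

end Pool.Agent.Helper82.GC
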