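import Pool.Agent.Helper82.GC.Def

set_option autoImplicit false

open MeasureTheory Set

namespace Pool.Agent.Helper82.GC











/-- standard Gaussian measure of a set of a Euclidean space -/
noncomputable def gam {E : Type*} [NormedAddCommGroup E] [InnerProductSpace ℝ E]
    [FiniteDimensional ℝ E] [MeasurableSpace E] [BorelSpace E] (A : Set E) : ℝ :=
  ∫ x in A, (2 * Real.pi) ^ (-(Module.finrank ℝ E : ℝ) / 2) * Real.exp (-‖x‖ ^ 2 / 2)
/-- Gaussian measure of the section of the cube `[-r, r]^n` by the hyperplane orthogonal to `θ` -/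
noncomputable def sec (n : ℕ) (r : ℝ) (θ : EuclideanSpace ℝ (Fin n)) : ℝ :=
  gam {x : ((ℝ ∙ θ)ᗮ : Submodule ℝ (EuclideanSpace ℝ (Fin n))) |
    ∀ i, |(x : EuclideanSpace ℝ (Fin n)) i| ≤ r}
theorem b6_set_integral {E : Type*} [MeasurableSpace E] {μ : Measure E} (A : Set E)
    (hA : MeasurableSet A) (c : ℝ) (f g : E → ℝ) (h1 : ∀ x ∈ A, g x = f x)
    (h2 : ∀ x, x ∉ A → g x = 0) : ∫ x in A, c * f x ∂μ = c * ∫ x, g x ∂μ := by
  rw [integral_const_mul, ← integral_indicator hA]
  congr 1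
  apply integral_congr_ae
  refine Filter.Eventually.of_forall fun x => ?_
  show A.indicator f x = g x
  by_cases hx : x ∈ A
  · rw [indicator_of_mem hx, h1 x hx]
  · rw [indicator_of_notMem hx, h2 x hx]

theorem sec_eq {k : ℕ} (r : ℝ) (θ : EuclideanSpace ℝ (Fin (k + 1))) (hθ : ‖θ‖ = 1) :
    sec (k + 1) r θ = (2 * Real.pi) ^ (-(k : ℝ) / 2) *
      ∫ x : ((ℝ ∙ θ)ᗮ : Submodule ℝ (EuclideanSpace ℝ (Fin (k + 1)))),
        F r (x : EuclideanSpace ℝ (Fin (k + 1))) := by
  have hθ0 : θ ≠ 0 := by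
    rintro rfl
    rw [norm_zero] at hθ
    exact zero_ne_one hθ
  have : Fact (Module.finrank ℝ (EuclideanSpace ℝ (Fin (k + 1))) = k + 1) :=
    ⟨finrank_euclideanSpace_fin⟩
  have hf : Module.finrank ℝ ((ℝ ∙ θ)ᗮ : Submodule ℝ (EuclideanSpace ℝ (Fin (k + 1)))) = k :=
    Submodule.finrank_orthogonal_span_singleton hθ0
  unfold sec gam
  rw [hf]
  apply b6_set_integral
  · apply IsClosed.measurableSet
    have e : {x : ((ℝ ∙ θ)ᗮ : Submodule ℝ (EuclideanSpace ℝ (Fin (k + 1)))) |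
        ∀ i, |(x : EuclideanSpace ℝ (Fin (k + 1))) i| ≤ r} =
        ⋂ i, {x : ((ℝ ∙ θ)ᗮ : Submodule ℝ (EuclideanSpace ℝ (Fin (k + 1)))) |
          |(x : EuclideanSpace ℝ (Fin (k + 1))) i| ≤ r} := by
      ext x; simp
    rw [e]
    apply isClosed_iInter
    intro i
    apply isClosed_le _ continuous_const
    apply Continuous.abs
    have h1 : Continuous fun y : EuclideanSpace ℝ (Fin (k + 1)) => y i := by fun_prop
    exact h1.comp continuous_subtype_val
  · intro x hx
    have hx' : ∀ i, |(x : EuclideanSpace ℝ (Fin (k + 1))) i| ≤ r := hx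
    unfold F
    rw [if_pos hx']
    rfl
  · intro x hx
    have hx' : ¬ ∀ i, |(x : EuclideanSpace ℝ (Fin (k + 1))) i| ≤ r := hx
    unfold F
    rw [if_neg hx']

theorem b6_wr {r : ℝ} (hr : 0 < r) : ∫ x, wr r x = Zr r := by
  unfold Zr
  rw [intervalIntegral.integral_of_le (by linarith), ← integral_Icc_eq_integral_Ioc,
    ← integral_indicator measurableSet_Icc]
  apply integral_congr_ae
  refine Filter.Eventually.of_forall fun x => ?_
  show wr r x = (Icc (-r) r).indicator (fun x => Real.exp (-x ^ 2 / 2)) x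
  unfold wr
  by_cases hx : |x| ≤ r
  · rw [if_pos hx, indicator_of_mem (show x ∈ Icc (-r) r from abs_le.1 hx)]
  · rw [if_neg hx, indicator_of_notMem]
    intro h
    exact hx (abs_le.2 h)

theorem b6_prod (k : ℕ) (r : ℝ) (x : EuclideanSpace ℝ (Fin k)) : F r x = ∏ i, wr r (x i) := by
  unfold F wr
  by_cases h : ∀ i, |x i| ≤ r
  · rw [if_pos h]
    have : ∀ i, (if |x i| ≤ r then Real.exp (-x i ^ 2 / 2) else 0) = Real.exp (-x i ^ 2 / 2) :=
      fun i => if_pos (h i)
    simp only [this]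
    rw [← Real.exp_sum, EuclideanSpace.norm_sq_eq]
    congr 1
    rw [← Finset.sum_div, Finset.sum_neg_distrib]
    simp only [Real.norm_eq_abs, sq_abs]
  · rw [if_neg h]
    push Not at h
    obtain ⟨i, hi⟩ := h
    symm
    apply Finset.prod_eq_zero (Finset.mem_univ i)
    rw [if_neg (not_le.2 hi)]

theorem gam_cube (k : ℕ) {r : ℝ} (hr : 0 < r) :
    gam {x : EuclideanSpace ℝ (Fin k) | ∀ i, |x i| ≤ r} =
      (Zr r / Real.sqrt (2 * Real.pi)) ^ k := by
  unfold gam
  rw [finrank_euclideanSpace_fin]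
  have hA : MeasurableSet {x : EuclideanSpace ℝ (Fin k) | ∀ i, |x i| ≤ r} := by
    apply IsClosed.measurableSet
    have e : {x : EuclideanSpace ℝ (Fin k) | ∀ i, |x i| ≤ r} =
        ⋂ i, {x : EuclideanSpace ℝ (Fin k) | |x i| ≤ r} := by
      ext x; simp
    rw [e]
    apply isClosed_iInter
    intro i
    apply isClosed_le _ continuous_const
    fun_prop
  rw [b6_set_integral _ hA _ _ (F r) (by
    intro x hx
    have hx' : ∀ i, |x i| ≤ r := hx
    unfold F
    rw [if_pos hx']) (by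
    intro x hx
    have hx' : ¬ ∀ i, |x i| ≤ r := hx
    unfold F
    rw [if_neg hx'])]
  have h1 : ∫ x : EuclideanSpace ℝ (Fin k), F r x = (Zr r) ^ k := by
    have h2 := (EuclideanSpace.volume_preserving_symm_measurableEquiv_toLp (Fin k)).integral_comp'
      (fun y : Fin k → ℝ => ∏ i, wr r (y i))
    have h3 : ∫ x : EuclideanSpace ℝ (Fin k), F r x =
        ∫ x : EuclideanSpace ℝ (Fin k), ∏ i, wr r (x i) := by
      apply integral_congr_ae
      exact Filter.Eventually.of_forall fun x => b6_prod k r x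
    rw [h3]
    refine h2.trans ?_
    rw [integral_fintype_prod_volume_eq_pow, b6_wr hr, Fintype.card_fin]
  rw [h1, div_pow]
  have hpi : (0 : ℝ) < 2 * Real.pi := by positivity
  have h4 : (2 * Real.pi) ^ (-(k : ℝ) / 2) = (Real.sqrt (2 * Real.pi) ^ k)⁻¹ := by
    rw [neg_div, Real.rpow_neg hpi.le, Real.sqrt_eq_rpow, ← Real.rpow_natCast,
      ← Real.rpow_mul hpi.le]
    congr 2
    ring
  rw [h4]
  field_simp

end Pool.Agent.Helper82.GC
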