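import Mathlib

/-!
# Gaussian measure of central sections of the cube: definitions
-/

set_option autoImplicit false

open MeasureTheory Set

namespace Pool.Agent.Helper82.GC

/-- total mass of the Gaussian weight on `[-r, r]` -/
noncomputable def Zr (r : ℝ) : ℝ := ∫ x in (-r)..r, Real.exp (-x ^ 2 / 2)

/-- cosine transform of the Gaussian weight on `[-r, r]` -/
noncomputable def G (r t : ℝ) : ℝ := ∫ x in (-r)..r, Real.cos (t * x) * Real.exp (-x ^ 2 / 2)

/-- characteristic function of the truncated Gaussian law on `[-r, r]` -/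
noncomputable def phi (r t : ℝ) : ℝ := G r t / Zr r

/-- one minus the variance of the truncated Gaussian law -/
noncomputable def Kr (r : ℝ) : ℝ := 2 * r * Real.exp (-r ^ 2 / 2) / Zr r

/-- variance of the truncated Gaussian law -/
noncomputable def vr (r : ℝ) : ℝ := 1 - Kr r

/-- the Gaussian weight restricted to the cube `[-r, r]^n` -/
noncomputable def F {n : ℕ} (r : ℝ) (y : EuclideanSpace ℝ (Fin n)) : ℝ :=
  open Classical in if ∀ i, |y i| ≤ r then Real.exp (-‖y‖ ^ 2 / 2) else 0

/-- the one dimensional weight -/
noncomputable def wr (r x : ℝ) : ℝ :=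
  open Classical in if |x| ≤ r then Real.exp (-x ^ 2 / 2) else 0

/-- `-phi' z / z` -/
noncomputable def psi (r z : ℝ) : ℝ := phi r z - Kr r * Real.sinc (r * z)

/-- the integral of the product of characteristic functions, in terms of squares of coordinates -/
noncomputable def J {n : ℕ} (r : ℝ) (s : Fin n → ℝ) : ℝ :=
  ∫ t, ∏ i, phi r (Real.sqrt (s i) * t)

end Pool.Agent.Helper82.GC
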