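import Pool.Agent.Helper82.GC.Def

/-!
# Gaussian measure of central sections of the cube: further definitions
-/

set_option autoImplicit false

open MeasureTheory Set

namespace Pool.Agent.Helper82.GC

/-- normalised even moments of the truncated Gaussian law on `[-1, 1]` -/
noncomputable def mom (k : ℕ) : ℝ :=
  (∫ x in (-1 : ℝ)..1, x ^ (2 * k) * Real.exp (-x ^ 2 / 2)) / Zr 1

/-- `-psi' z / z` -/
noncomputable def chi (z : ℝ) : ℝ :=
  psi 1 z - Kr 1 * (if z = 0 then 1 / 3 else (Real.sin z - z * Real.cos z) / z ^ 3)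

/-- first positive zero of `phi 1` -/
noncomputable def z0 : ℝ := sInf {z : ℝ | 0 < z ∧ phi 1 z ≤ 0}

/-- envelope beyond the first zero -/
noncomputable def env (τ : ℝ) : ℝ :=
  if τ ≤ 5 then max 0.1496 (Real.exp (-(vr 1) * τ ^ 2 / 2)) else 0.73 / τ

/-- `L^p` integral of `phi 1` -/
noncomputable def Ip (p : ℝ) : ℝ := ∫ t, |phi 1 t| ^ p

/-- the Gaussian constant -/
noncomputable def P1 : ℝ := Real.sqrt (2 * Real.pi / vr 1)

/-- tail of the `L^p` integral -/
noncomputable def Tl (p : ℝ) : ℝ := 2 * ∫ t in Set.Ioi z0, |phi 1 t| ^ p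

/-- logarithmic deficit in Hoelder's inequality -/
noncomputable def ee (s : ℝ) : ℝ :=
  if s = 0 then 0 else -s * Real.log (Real.sqrt (1 / s) * Ip (1 / s) / P1)

/-- main part of the bound when one coordinate is large -/
noncomputable def MG (s : ℝ) : ℝ :=
  2 / Real.sqrt s * ∫ z in (0 : ℝ)..z0, phi 1 z * Real.exp (-(vr 1) * ((1 - s) / s) * z ^ 2 / 2)

end Pool.Agent.Helper82.GC
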