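import Pool.Agent.Helper82.GC.A2
import Pool.Agent.Helper82.GC.E1

set_option autoImplicit false

open MeasureTheory Set

namespace Pool.Agent.Helper82.GC












theorem mono7096 (f f' : ℝ → ℝ) (hf : ∀ x, HasDerivAt f (f' x) x) (h0 : f 0 = 0)
    (hpos : ∀ x, 0 ≤ x → 0 ≤ f' x) : ∀ x, 0 ≤ x → 0 ≤ f x := by
  have hm : MonotoneOn f (Set.Ici 0) := by
    apply monotoneOn_of_deriv_nonneg (convex_Ici 0)
    · exact fun x _ => (hf x).continuousAt.continuousWithinAt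
    · exact fun x _ => (hf x).differentiableAt.differentiableWithinAt
    · intro x hx
      rw [interior_Ici] at hx
      rw [(hf x).deriv]
      exact hpos x (le_of_lt hx)
  intro x hx
  have := hm (Set.mem_Ici.2 le_rfl) (Set.mem_Ici.2 hx) hx
  rwa [h0] at this

theorem cosb7096 (x : ℝ) (hx : 0 ≤ x) :
    0 ≤ Real.cos x - (1 - x ^ 2 / 2 + x ^ 4 / 24 - x ^ 6 / 720) ∧
    0 ≤ (1 - x ^ 2 / 2 + x ^ 4 / 24 - x ^ 6 / 720 + x ^ 8 / 40320) - Real.cos x := by
  have d2 : ∀ x : ℝ, HasDerivAt (fun x : ℝ => x ^ 2) (2 * x) x := fun x => by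
    simpa using hasDerivAt_pow 2 x
  have d3 : ∀ x : ℝ, HasDerivAt (fun x : ℝ => x ^ 3) (3 * x ^ 2) x := fun x => by
    simpa using hasDerivAt_pow 3 x
  have d4 : ∀ x : ℝ, HasDerivAt (fun x : ℝ => x ^ 4) (4 * x ^ 3) x := fun x => by
    simpa using hasDerivAt_pow 4 x
  have d5 : ∀ x : ℝ, HasDerivAt (fun x : ℝ => x ^ 5) (5 * x ^ 4) x := fun x => by
    simpa using hasDerivAt_pow 5 x
  have d6 : ∀ x : ℝ, HasDerivAt (fun x : ℝ => x ^ 6) (6 * x ^ 5) x := fun x => by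
    simpa using hasDerivAt_pow 6 x
  have d7 : ∀ x : ℝ, HasDerivAt (fun x : ℝ => x ^ 7) (7 * x ^ 6) x := fun x => by
    simpa using hasDerivAt_pow 7 x
  have d8 : ∀ x : ℝ, HasDerivAt (fun x : ℝ => x ^ 8) (8 * x ^ 7) x := fun x => by
    simpa using hasDerivAt_pow 8 x
  have ds := Real.hasDerivAt_sin
  have dc := Real.hasDerivAt_cos
  have s1 : ∀ x : ℝ, 0 ≤ x → 0 ≤ x - Real.sin x := by
    apply mono7096 _ (fun x => 1 - Real.cos x)
    · intro x
      exact (hasDerivAt_id x).sub (ds x)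
    · simp
    · intro x _
      linarith [Real.cos_le_one x]
  have c2 : ∀ x : ℝ, 0 ≤ x → 0 ≤ Real.cos x - (1 - x ^ 2 / 2) := by
    apply mono7096 _ (fun x => x - Real.sin x)
    · intro x
      exact ((dc x).sub (((d2 x).div_const 2).const_sub 1)).congr_deriv (by ring)
    · simp
    · exact s1
  have s3 : ∀ x : ℝ, 0 ≤ x → 0 ≤ Real.sin x - (x - x ^ 3 / 6) := by
    apply mono7096 _ (fun x => Real.cos x - (1 - x ^ 2 / 2))
    · intro x
      exact ((ds x).sub ((hasDerivAt_id x).sub ((d3 x).div_const 6))).congr_deriv (by ring)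
    · simp
    · exact c2
  have c4 : ∀ x : ℝ, 0 ≤ x → 0 ≤ (1 - x ^ 2 / 2 + x ^ 4 / 24) - Real.cos x := by
    apply mono7096 _ (fun x => Real.sin x - (x - x ^ 3 / 6))
    · intro x
      exact (((((d2 x).div_const 2).const_sub 1).add ((d4 x).div_const 24)).sub (dc x)).congr_deriv
        (by ring)
    · simp
    · exact s3
  have s5 : ∀ x : ℝ, 0 ≤ x → 0 ≤ (x - x ^ 3 / 6 + x ^ 5 / 120) - Real.sin x := by
    apply mono7096 _ (fun x => (1 - x ^ 2 / 2 + x ^ 4 / 24) - Real.cos x)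
    · intro x
      exact ((((hasDerivAt_id x).sub ((d3 x).div_const 6)).add ((d5 x).div_const 120)).sub
        (ds x)).congr_deriv (by ring)
    · simp
    · exact c4
  have c6 : ∀ x : ℝ, 0 ≤ x → 0 ≤ Real.cos x - (1 - x ^ 2 / 2 + x ^ 4 / 24 - x ^ 6 / 720) := by
    apply mono7096 _ (fun x => (x - x ^ 3 / 6 + x ^ 5 / 120) - Real.sin x)
    · intro x
      exact ((dc x).sub (((((d2 x).div_const 2).const_sub 1).add ((d4 x).div_const 24)).sub
        ((d6 x).div_const 720))).congr_deriv (by ring)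
    · simp
    · exact s5
  have s7 : ∀ x : ℝ, 0 ≤ x → 0 ≤ Real.sin x - (x - x ^ 3 / 6 + x ^ 5 / 120 - x ^ 7 / 5040) := by
    apply mono7096 _ (fun x => Real.cos x - (1 - x ^ 2 / 2 + x ^ 4 / 24 - x ^ 6 / 720))
    · intro x
      exact ((ds x).sub ((((hasDerivAt_id x).sub ((d3 x).div_const 6)).add
        ((d5 x).div_const 120)).sub ((d7 x).div_const 5040))).congr_deriv (by ring)
    · simp
    · exact c6
  have c8 : ∀ x : ℝ, 0 ≤ x → 0 ≤ (1 - x ^ 2 / 2 + x ^ 4 / 24 - x ^ 6 / 720 + x ^ 8 / 40320) -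
      Real.cos x := by
    apply mono7096 _ (fun x => Real.sin x - (x - x ^ 3 / 6 + x ^ 5 / 120 - x ^ 7 / 5040))
    · intro x
      exact ((((((((d2 x).div_const 2).const_sub 1).add ((d4 x).div_const 24)).sub
        ((d6 x).div_const 720)).add ((d8 x).div_const 40320)).sub (dc x))).congr_deriv (by ring)
    · simp
    · exact s7
  exact ⟨c6 x hx, c8 x hx⟩

theorem cosb'7096 (x : ℝ) :
    1 - x ^ 2 / 2 + x ^ 4 / 24 - x ^ 6 / 720 ≤ Real.cos x ∧
    Real.cos x ≤ 1 - x ^ 2 / 2 + x ^ 4 / 24 - x ^ 6 / 720 + x ^ 8 / 40320 := by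
  obtain ⟨h1, h2⟩ := cosb7096 |x| (abs_nonneg x)
  have e2 : |x| ^ 2 = x ^ 2 := sq_abs x
  have e4 : |x| ^ 4 = x ^ 4 := by
    calc |x| ^ 4 = (|x| ^ 2) ^ 2 := by ring
      _ = x ^ 4 := by rw [e2]; ring
  have e6 : |x| ^ 6 = x ^ 6 := by
    calc |x| ^ 6 = (|x| ^ 2) ^ 3 := by ring
      _ = x ^ 6 := by rw [e2]; ring
  have e8 : |x| ^ 8 = x ^ 8 := by
    calc |x| ^ 8 = (|x| ^ 2) ^ 4 := by ring
      _ = x ^ 8 := by rw [e2]; ring
  rw [Real.cos_abs, e2, e4, e6] at h1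
  rw [Real.cos_abs, e2, e4, e6, e8] at h2
  constructor <;> linarith

theorem expb7096 (y : ℝ) (hy : 0 ≤ y) :
    1 - y + y ^ 2 / 2 - y ^ 3 / 6 + y ^ 4 / 24 - y ^ 5 / 120 ≤ Real.exp (-y) := by
  have d2 : ∀ x : ℝ, HasDerivAt (fun x : ℝ => x ^ 2) (2 * x) x := fun x => by
    simpa using hasDerivAt_pow 2 x
  have d3 : ∀ x : ℝ, HasDerivAt (fun x : ℝ => x ^ 3) (3 * x ^ 2) x := fun x => by
    simpa using hasDerivAt_pow 3 x
  have d4 : ∀ x : ℝ, HasDerivAt (fun x : ℝ => x ^ 4) (4 * x ^ 3) x := fun x => by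
    simpa using hasDerivAt_pow 4 x
  have d5 : ∀ x : ℝ, HasDerivAt (fun x : ℝ => x ^ 5) (5 * x ^ 4) x := fun x => by
    simpa using hasDerivAt_pow 5 x
  have de : ∀ x : ℝ, HasDerivAt (fun x : ℝ => Real.exp (-x)) (-Real.exp (-x)) x := fun x => by
    simpa using (hasDerivAt_id x).neg.exp
  have g1 : ∀ x : ℝ, 0 ≤ x → 0 ≤ 1 - Real.exp (-x) := by
    apply mono7096 _ (fun x => Real.exp (-x))
    · intro x
      exact ((de x).const_sub 1).congr_deriv (by ring)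
    · simp
    · intro x _; positivity
  have g2 : ∀ x : ℝ, 0 ≤ x → 0 ≤ Real.exp (-x) - (1 - x) := by
    apply mono7096 _ (fun x => 1 - Real.exp (-x))
    · intro x
      exact ((de x).sub ((hasDerivAt_id x).const_sub 1)).congr_deriv (by ring)
    · simp
    · exact g1
  have g3 : ∀ x : ℝ, 0 ≤ x → 0 ≤ (1 - x + x ^ 2 / 2) - Real.exp (-x) := by
    apply mono7096 _ (fun x => Real.exp (-x) - (1 - x))
    · intro x
      exact ((((hasDerivAt_id x).const_sub 1).add ((d2 x).div_const 2)).sub (de x)).congr_deriv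
        (by ring)
    · simp
    · exact g2
  have g4 : ∀ x : ℝ, 0 ≤ x → 0 ≤ Real.exp (-x) - (1 - x + x ^ 2 / 2 - x ^ 3 / 6) := by
    apply mono7096 _ (fun x => (1 - x + x ^ 2 / 2) - Real.exp (-x))
    · intro x
      exact ((de x).sub ((((hasDerivAt_id x).const_sub 1).add ((d2 x).div_const 2)).sub
        ((d3 x).div_const 6))).congr_deriv (by ring)
    · simp
    · exact g3
  have g5 : ∀ x : ℝ, 0 ≤ x → 0 ≤ (1 - x + x ^ 2 / 2 - x ^ 3 / 6 + x ^ 4 / 24) - Real.exp (-x) := by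
    apply mono7096 _ (fun x => Real.exp (-x) - (1 - x + x ^ 2 / 2 - x ^ 3 / 6))
    · intro x
      exact ((((((hasDerivAt_id x).const_sub 1).add ((d2 x).div_const 2)).sub
        ((d3 x).div_const 6)).add ((d4 x).div_const 24)).sub (de x)).congr_deriv (by ring)
    · simp
    · exact g4
  have g6 : ∀ x : ℝ, 0 ≤ x → 0 ≤ Real.exp (-x) -
      (1 - x + x ^ 2 / 2 - x ^ 3 / 6 + x ^ 4 / 24 - x ^ 5 / 120) := by
    apply mono7096 _ (fun x => (1 - x + x ^ 2 / 2 - x ^ 3 / 6 + x ^ 4 / 24) - Real.exp (-x))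
    · intro x
      exact ((de x).sub ((((((hasDerivAt_id x).const_sub 1).add ((d2 x).div_const 2)).sub
        ((d3 x).div_const 6)).add ((d4 x).div_const 24)).sub ((d5 x).div_const 120))).congr_deriv
        (by ring)
    · simp
    · exact g5
  linarith [g6 y hy]

theorem wderiv7096 (x : ℝ) :
    HasDerivAt (fun x : ℝ => Real.exp (-x ^ 2 / 2)) (-x * Real.exp (-x ^ 2 / 2)) x := by
  have h1 : HasDerivAt (fun x : ℝ => -x ^ 2 / 2) (-x) x := by
    have := ((hasDerivAt_pow 2 x).neg).div_const 2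
    refine this.congr_deriv ?_
    simp
    ring
  exact (h1.exp).congr_deriv (by ring)

theorem KZ7096 : Kr 1 * Zr 1 = 2 * Real.exp (-1 / 2) := by
  have hZ := Zr_pos (one_pos)
  unfold Kr
  rw [div_mul_cancel₀ _ hZ.ne']
  norm_num

theorem moment_six7096 : ∫ x in (-1 : ℝ)..1, x ^ 6 * Real.exp (-x ^ 2 / 2) =
    (21 * vr 1 - 6) * Zr 1 := by
  have h4 := moment_four (one_pos)
  have hd : ∀ x ∈ Set.uIcc (-1 : ℝ) 1, HasDerivAt (fun x : ℝ => x ^ 5 * Real.exp (-x ^ 2 / 2))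
      (5 * (x ^ 4 * Real.exp (-x ^ 2 / 2)) - x ^ 6 * Real.exp (-x ^ 2 / 2)) x := by
    intro x _
    have h5 : HasDerivAt (fun x : ℝ => x ^ 5) (5 * x ^ 4) x := by simpa using hasDerivAt_pow 5 x
    exact (h5.mul (wderiv7096 x)).congr_deriv (by ring)
  have hi : IntervalIntegrable (fun x : ℝ => 5 * (x ^ 4 * Real.exp (-x ^ 2 / 2)) -
      x ^ 6 * Real.exp (-x ^ 2 / 2)) volume (-1) 1 := by
    apply Continuous.intervalIntegrable; fun_prop
  have h := intervalIntegral.integral_eq_sub_of_hasDerivAt hd hi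
  rw [intervalIntegral.integral_sub (by apply Continuous.intervalIntegrable; fun_prop)
    (by apply Continuous.intervalIntegrable; fun_prop), intervalIntegral.integral_const_mul, h4] at h
  have hK := KZ7096
  have e : (1 : ℝ) ^ 5 * Real.exp (-1 ^ 2 / 2) - (-1) ^ 5 * Real.exp (-(-1) ^ 2 / 2) =
      2 * Real.exp (-1 / 2) := by norm_num; ring
  rw [e, ← hK] at h
  have hv : Kr 1 = 1 - vr 1 := by unfold vr; ring
  rw [hv] at h
  linear_combination -h

theorem moment_eight7096 : ∫ x in (-1 : ℝ)..1, x ^ 8 * Real.exp (-x ^ 2 / 2) =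
    (148 * vr 1 - 43) * Zr 1 := by
  have h4 := moment_six7096
  have hd : ∀ x ∈ Set.uIcc (-1 : ℝ) 1, HasDerivAt (fun x : ℝ => x ^ 7 * Real.exp (-x ^ 2 / 2))
      (7 * (x ^ 6 * Real.exp (-x ^ 2 / 2)) - x ^ 8 * Real.exp (-x ^ 2 / 2)) x := by
    intro x _
    have h5 : HasDerivAt (fun x : ℝ => x ^ 7) (7 * x ^ 6) x := by simpa using hasDerivAt_pow 7 x
    exact (h5.mul (wderiv7096 x)).congr_deriv (by ring)
  have hi : IntervalIntegrable (fun x : ℝ => 7 * (x ^ 6 * Real.exp (-x ^ 2 / 2)) -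
      x ^ 8 * Real.exp (-x ^ 2 / 2)) volume (-1) 1 := by
    apply Continuous.intervalIntegrable; fun_prop
  have h := intervalIntegral.integral_eq_sub_of_hasDerivAt hd hi
  rw [intervalIntegral.integral_sub (by apply Continuous.intervalIntegrable; fun_prop)
    (by apply Continuous.intervalIntegrable; fun_prop), intervalIntegral.integral_const_mul, h4] at h
  have hK := KZ7096
  have e : (1 : ℝ) ^ 7 * Real.exp (-1 ^ 2 / 2) - (-1) ^ 7 * Real.exp (-(-1) ^ 2 / 2) =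
      2 * Real.exp (-1 / 2) := by norm_num; ring
  rw [e, ← hK] at h
  have hv : Kr 1 = 1 - vr 1 := by unfold vr; ring
  rw [hv] at h
  linear_combination -h

theorem polyint7096 (c0 c1 c2 c3 c4 : ℝ) :
    ∫ x in (-1 : ℝ)..1, (c0 * Real.exp (-x ^ 2 / 2) + c1 * (x ^ 2 * Real.exp (-x ^ 2 / 2)) +
      c2 * (x ^ 4 * Real.exp (-x ^ 2 / 2)) + c3 * (x ^ 6 * Real.exp (-x ^ 2 / 2)) +
      c4 * (x ^ 8 * Real.exp (-x ^ 2 / 2))) =
    (c0 + c1 * vr 1 + c2 * (4 * vr 1 - 1) + c3 * (21 * vr 1 - 6) + c4 * (148 * vr 1 - 43)) * Zr 1 := by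
  have i0 : IntervalIntegrable (fun x : ℝ => c0 * Real.exp (-x ^ 2 / 2)) volume (-1) 1 := by
    apply Continuous.intervalIntegrable; fun_prop
  have i1 : IntervalIntegrable (fun x : ℝ => c1 * (x ^ 2 * Real.exp (-x ^ 2 / 2))) volume (-1) 1 := by
    apply Continuous.intervalIntegrable; fun_prop
  have i2 : IntervalIntegrable (fun x : ℝ => c2 * (x ^ 4 * Real.exp (-x ^ 2 / 2))) volume (-1) 1 := by
    apply Continuous.intervalIntegrable; fun_prop
  have i3 : IntervalIntegrable (fun x : ℝ => c3 * (x ^ 6 * Real.exp (-x ^ 2 / 2))) volume (-1) 1 := by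
    apply Continuous.intervalIntegrable; fun_prop
  have i4 : IntervalIntegrable (fun x : ℝ => c4 * (x ^ 8 * Real.exp (-x ^ 2 / 2))) volume (-1) 1 := by
    apply Continuous.intervalIntegrable; fun_prop
  rw [intervalIntegral.integral_add (((i0.add i1).add i2).add i3) i4,
    intervalIntegral.integral_add ((i0.add i1).add i2) i3,
    intervalIntegral.integral_add (i0.add i1) i2,
    intervalIntegral.integral_add i0 i1]
  simp only [intervalIntegral.integral_const_mul]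
  have h2 := moment_two (one_pos)
  have h4 := moment_four (one_pos)
  rw [h2, h4, moment_six7096, moment_eight7096]
  have h0 : ∫ x in (-1 : ℝ)..1, Real.exp (-x ^ 2 / 2) = Zr 1 := rfl
  rw [h0]
  have hv : Kr 1 = 1 - vr 1 := by unfold vr; ring
  rw [hv]
  ring

theorem phi_poly7096 (t : ℝ) :
    1 - vr 1 * t ^ 2 / 2 + (4 * vr 1 - 1) * (t ^ 2) ^ 2 / 24 - (21 * vr 1 - 6) * (t ^ 2) ^ 3 / 720 ≤
      phi 1 t ∧
    phi 1 t ≤ 1 - vr 1 * t ^ 2 / 2 + (4 * vr 1 - 1) * (t ^ 2) ^ 2 / 24 -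
      (21 * vr 1 - 6) * (t ^ 2) ^ 3 / 720 + (148 * vr 1 - 43) * (t ^ 2) ^ 4 / 40320 := by
  have hZ := Zr_pos (one_pos)
  have i0 : IntervalIntegrable (fun x : ℝ => Real.cos (t * x) * Real.exp (-x ^ 2 / 2)) volume (-1) 1 := by
    apply Continuous.intervalIntegrable; fun_prop
  unfold phi G
  constructor
  · rw [le_div_iff₀ hZ]
    have h := polyint7096 1 (-(t ^ 2) / 2) (t ^ 4 / 24) (-(t ^ 6) / 720) 0
    have h2 : (1 - vr 1 * t ^ 2 / 2 + (4 * vr 1 - 1) * (t ^ 2) ^ 2 / 24 -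
        (21 * vr 1 - 6) * (t ^ 2) ^ 3 / 720) * Zr 1 =
        (1 + -(t ^ 2) / 2 * vr 1 + t ^ 4 / 24 * (4 * vr 1 - 1) + -(t ^ 6) / 720 * (21 * vr 1 - 6) +
        0 * (148 * vr 1 - 43)) * Zr 1 := by ring
    rw [h2, ← h]
    apply intervalIntegral.integral_mono_on (by norm_num)
      (by apply Continuous.intervalIntegrable; fun_prop) i0
    intro x _
    obtain ⟨h3, -⟩ := cosb'7096 (t * x)
    have hw : 0 ≤ Real.exp (-x ^ 2 / 2) := by positivity
    have h4 := mul_le_mul_of_nonneg_right h3 hw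
    refine le_trans (le_of_eq ?_) h4
    ring
  · rw [div_le_iff₀ hZ]
    have h := polyint7096 1 (-(t ^ 2) / 2) (t ^ 4 / 24) (-(t ^ 6) / 720) (t ^ 8 / 40320)
    have h2 : (1 - vr 1 * t ^ 2 / 2 + (4 * vr 1 - 1) * (t ^ 2) ^ 2 / 24 -
        (21 * vr 1 - 6) * (t ^ 2) ^ 3 / 720 + (148 * vr 1 - 43) * (t ^ 2) ^ 4 / 40320) * Zr 1 =
        (1 + -(t ^ 2) / 2 * vr 1 + t ^ 4 / 24 * (4 * vr 1 - 1) + -(t ^ 6) / 720 * (21 * vr 1 - 6) +
        (t ^ 8 / 40320) * (148 * vr 1 - 43)) * Zr 1 := by ring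
    rw [h2, ← h]
    apply intervalIntegral.integral_mono_on (by norm_num) i0
      (by apply Continuous.intervalIntegrable; fun_prop)
    intro x _
    obtain ⟨-, h3⟩ := cosb'7096 (t * x)
    have hw : 0 ≤ Real.exp (-x ^ 2 / 2) := by positivity
    have h4 := mul_le_mul_of_nonneg_right h3 hw
    refine le_trans h4 (le_of_eq ?_)
    ring

theorem phi_far7096 (t : ℝ) (ht : 13.8 ≤ t ^ 2) : |phi 1 t| ≤ 1 / 4 := by
  have hZ := Zr_pos (one_pos)
  have ht0 : t ≠ 0 := by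
    intro h; rw [h] at ht; norm_num at ht
  have hd : ∀ x ∈ Set.uIcc (-1 : ℝ) 1, HasDerivAt (fun x : ℝ =>
      (Real.sin (t * x) * Real.exp (-x ^ 2 / 2)) / t +
        (Real.cos (t * x) * (-x * Real.exp (-x ^ 2 / 2))) / t ^ 2)
      (Real.cos (t * x) * Real.exp (-x ^ 2 / 2) -
        (1 / t ^ 2) * (Real.cos (t * x) * ((1 - x ^ 2) * Real.exp (-x ^ 2 / 2)))) x := by
    intro x _
    have hl : HasDerivAt (fun x : ℝ => t * x) t x := by
      simpa using (hasDerivAt_id x).const_mul t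
    have h1 := hl.sin
    have h2 := hl.cos
    have hw := wderiv7096 x
    have h3 : HasDerivAt (fun x : ℝ => -x * Real.exp (-x ^ 2 / 2))
        (-1 * Real.exp (-x ^ 2 / 2) + -x * (-x * Real.exp (-x ^ 2 / 2))) x :=
      ((hasDerivAt_id x).neg).mul hw
    refine (((h1.mul hw).div_const t).add ((h2.mul h3).div_const (t ^ 2))).congr_deriv ?_
    field_simp
    ring
  have hi : IntervalIntegrable (fun x : ℝ => Real.cos (t * x) * Real.exp (-x ^ 2 / 2) -
        (1 / t ^ 2) * (Real.cos (t * x) * ((1 - x ^ 2) * Real.exp (-x ^ 2 / 2)))) volume (-1) 1 := by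
    apply Continuous.intervalIntegrable; fun_prop
  have h := intervalIntegral.integral_eq_sub_of_hasDerivAt hd hi
  rw [intervalIntegral.integral_sub (by apply Continuous.intervalIntegrable; fun_prop)
    (by apply Continuous.intervalIntegrable; fun_prop), intervalIntegral.integral_const_mul] at h
  obtain ⟨R, hR⟩ : ∃ R : ℝ, R = ∫ x in (-1 : ℝ)..1,
    Real.cos (t * x) * ((1 - x ^ 2) * Real.exp (-x ^ 2 / 2)) := ⟨_, rfl⟩
  rw [← hR] at h
  have hRb : |R| ≤ Kr 1 * Zr 1 := by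
    have h1 : ∫ x in (-1 : ℝ)..1, ((1 - x ^ 2) * Real.exp (-x ^ 2 / 2)) = Kr 1 * Zr 1 := by
      have h2 := polyint7096 1 (-1) 0 0 0
      have hv : Kr 1 = 1 - vr 1 := by unfold vr; ring
      rw [hv]
      have h3 : (1 - vr 1) * Zr 1 = (1 + -1 * vr 1 + 0 * (4 * vr 1 - 1) + 0 * (21 * vr 1 - 6) +
        0 * (148 * vr 1 - 43)) * Zr 1 := by ring
      rw [h3, ← h2]
      apply intervalIntegral.integral_congr
      intro x _
      ring
    rw [hR, ← h1, abs_le]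
    have i1 : IntervalIntegrable (fun x : ℝ =>
        Real.cos (t * x) * ((1 - x ^ 2) * Real.exp (-x ^ 2 / 2))) volume (-1) 1 := by
      apply Continuous.intervalIntegrable; fun_prop
    have i2 : IntervalIntegrable (fun x : ℝ => (1 - x ^ 2) * Real.exp (-x ^ 2 / 2)) volume (-1) 1 := by
      apply Continuous.intervalIntegrable; fun_prop
    have hpt : ∀ x ∈ Set.Icc (-1 : ℝ) 1, 0 ≤ (1 - x ^ 2) * Real.exp (-x ^ 2 / 2) := by
      intro x hx
      apply mul_nonneg _ (by positivity)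
      nlinarith [hx.1, hx.2]
    constructor
    · rw [← intervalIntegral.integral_neg]
      apply intervalIntegral.integral_mono_on (by norm_num) i2.neg i1
      intro x hx
      have := mul_le_mul_of_nonneg_right (Real.neg_one_le_cos (t * x)) (hpt x hx)
      show -((1 - x ^ 2) * Real.exp (-x ^ 2 / 2)) ≤ _
      linarith
    · apply intervalIntegral.integral_mono_on (by norm_num) i1 i2
      intro x hx
      have := mul_le_mul_of_nonneg_right (Real.cos_le_one (t * x)) (hpt x hx)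
      linarith
  have hK := KZ7096
  have hKb := Kr_one_bounds
  have e : Real.sin (t * 1) * Real.exp (-1 ^ 2 / 2) / t +
      Real.cos (t * 1) * (-1 * Real.exp (-1 ^ 2 / 2)) / t ^ 2 -
      (Real.sin (t * -1) * Real.exp (-(-1) ^ 2 / 2) / t +
      Real.cos (t * -1) * (- -1 * Real.exp (-(-1) ^ 2 / 2)) / t ^ 2) =
      (2 * Real.exp (-1 / 2)) * (Real.sin t * (1 / t) - Real.cos t * (1 / t ^ 2)) := by
    have e1 : t * -1 = -t := by ring
    rw [e1, Real.sin_neg, Real.cos_neg, mul_one]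
    have e2 : (-1 ^ 2 / 2 : ℝ) = -1 / 2 := by norm_num
    have e3 : (-(-1) ^ 2 / 2 : ℝ) = -1 / 2 := by norm_num
    rw [e2, e3]
    ring
  rw [e, ← hK] at h
  obtain ⟨b, hb⟩ : ∃ b : ℝ, b = 1 / t ^ 2 := ⟨_, rfl⟩
  obtain ⟨a, ha⟩ : ∃ a : ℝ, a = 1 / t := ⟨_, rfl⟩
  rw [← hb, ← ha] at h
  have hab : a ^ 2 = b := by rw [ha, hb]; ring
  have hb0 : 0 ≤ b := by rw [hb]; positivity
  have hb1 : b ≤ 1 / 13.8 := by
    rw [hb]; exact one_div_le_one_div_of_le (by norm_num) ht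
  have hcs : |Real.sin t * a - Real.cos t * b| ≤ 0.28 := by
    apply abs_le_of_sq_le_sq _ (by norm_num)
    have h1 := Real.sin_sq_add_cos_sq t
    have h2 : (Real.sin t * a - Real.cos t * b) ^ 2 ≤ a ^ 2 + b ^ 2 := by
      have h3 : a ^ 2 + b ^ 2 - (Real.sin t * a - Real.cos t * b) ^ 2 =
        (Real.cos t * a + Real.sin t * b) ^ 2 := by
        linear_combination (-(a ^ 2 + b ^ 2)) * h1
      nlinarith [sq_nonneg (Real.cos t * a + Real.sin t * b)]
    rw [hab] at h2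
    have h3 : b ^ 2 ≤ (1 / 13.8) * b := by rw [sq]; exact mul_le_mul_of_nonneg_right hb1 hb0
    refine h2.trans ?_
    norm_num at hb1 h3 ⊢
    linarith
  have hphi : phi 1 t = Kr 1 * (Real.sin t * a - Real.cos t * b) + b * (R / Zr 1) := by
    unfold phi G
    rw [div_eq_iff hZ.ne', add_mul]
    have e5 : b * (R / Zr 1) * Zr 1 = b * R := by field_simp
    rw [e5]
    linarith
  have hRb2 : |R / Zr 1| ≤ Kr 1 := by
    rw [abs_div, abs_of_pos hZ, div_le_iff₀ hZ]; exact hRb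
  rw [hphi]
  refine (abs_add_le _ _).trans ?_
  rw [abs_mul, abs_mul, abs_of_nonneg hb0, abs_of_pos (by linarith [hKb.1] : 0 < Kr 1)]
  have h1 : Kr 1 * |Real.sin t * a - Real.cos t * b| ≤ 0.70888 * 0.28 :=
    mul_le_mul hKb.2.le hcs (abs_nonneg _) (by norm_num)
  have h2 : b * |R / Zr 1| ≤ (1 / 13.8) * 0.70888 :=
    mul_le_mul hb1 (hRb2.trans hKb.2.le) (abs_nonneg _) (by norm_num)
  norm_num at h1 h2 ⊢
  linarith

theorem polyA7096 (v u : ℝ) (h1 : 0.29112 < v) (h2 : v < 0.29113) (hu : 0 ≤ u) (hu2 : u ≤ 9.5) :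
    1 - v * u / 2 + (4 * v - 1) * u ^ 2 / 24 - (21 * v - 6) * u ^ 3 / 720 +
      (148 * v - 43) * u ^ 4 / 40320 ≤
    1 - (v * u / 2) + (v * u / 2) ^ 2 / 2 - (v * u / 2) ^ 3 / 6 + (v * u / 2) ^ 4 / 24 -
      (v * u / 2) ^ 5 / 120 := by
  have hv0 : 0 < v := by linarith
  have v2l : (0.29112 : ℝ) ^ 2 ≤ v ^ 2 := pow_le_pow_left₀ (by norm_num) h1.le 2
  have v4l : (0.29112 : ℝ) ^ 4 ≤ v ^ 4 := pow_le_pow_left₀ (by norm_num) h1.le 4
  have v3u : v ^ 3 ≤ (0.29113 : ℝ) ^ 3 := pow_le_pow_left₀ hv0.le h2.le 3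
  have v5u : v ^ 5 ≤ (0.29113 : ℝ) ^ 5 := pow_le_pow_left₀ hv0.le h2.le 5
  have c2 : 0.00373 ≤ v ^ 2 / 8 - (4 * v - 1) / 24 := by norm_num at v2l h2 ⊢; linarith
  have c3 : -0.000357 ≤ -v ^ 3 / 48 + (21 * v - 6) / 720 := by norm_num at v3u h1 ⊢; linarith
  have c4 : 0.0000165 ≤ v ^ 4 / 384 - (148 * v - 43) / 40320 := by norm_num at v4l h2 ⊢; linarith
  have c5 : -0.000000546 ≤ -v ^ 5 / 3840 := by norm_num at v5u ⊢; linarith
  have m1 := mul_le_mul_of_nonneg_right c3 hu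
  have m2 := mul_le_mul_of_nonneg_right c4 (show 0 ≤ u ^ 2 by positivity)
  have m3 := mul_le_mul_of_nonneg_right c5 (show 0 ≤ u ^ 3 by positivity)
  have m4 : u ^ 3 ≤ 9.5 * u ^ 2 := by
    calc u ^ 3 = u * u ^ 2 := by ring
      _ ≤ 9.5 * u ^ 2 := mul_le_mul_of_nonneg_right hu2 (by positivity)
  have key : 0 ≤ (v ^ 2 / 8 - (4 * v - 1) / 24) + (-v ^ 3 / 48 + (21 * v - 6) / 720) * u +
      (v ^ 4 / 384 - (148 * v - 43) / 40320) * u ^ 2 + (-v ^ 5 / 3840) * u ^ 3 := by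
    have m5 := sq_nonneg (u - 15.8)
    norm_num at c2 m1 m2 m3 m4 m5 ⊢
    nlinarith
  have key2 := mul_nonneg (show 0 ≤ u ^ 2 by positivity) key
  linarith

theorem polyB7096 (v u : ℝ) (h1 : 0.29112 < v) (h2 : v < 0.29113) (hu : 9.5 ≤ u) (hu2 : u ≤ 13.8) :
    1 - v * u / 2 + (4 * v - 1) * u ^ 2 / 24 - (21 * v - 6) * u ^ 3 / 720 +
      (148 * v - 43) * u ^ 4 / 40320 ≤ 1 / 4 := by
  have hu0 : 0 < u := by linarith
  have c1 : -v / 2 ≤ -0.14556 := by norm_num at h1 ⊢; linarith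
  have c2 : (4 * v - 1) / 24 ≤ 0.006855 := by norm_num at h2 ⊢; linarith
  have c3 : -(21 * v - 6) / 720 ≤ -0.0001576 := by norm_num at h1 ⊢; linarith
  have c4 : (148 * v - 43) / 40320 ≤ 0.00000217 := by norm_num at h2 ⊢; linarith
  have m1 := mul_le_mul_of_nonneg_right c1 hu0.le
  have m2 := mul_le_mul_of_nonneg_right c2 (show 0 ≤ u ^ 2 by positivity)
  have m3 := mul_le_mul_of_nonneg_right c3 (show 0 ≤ u ^ 3 by positivity)
  have m4 := mul_le_mul_of_nonneg_right c4 (show 0 ≤ u ^ 4 by positivity)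
  have m5 : u ^ 4 ≤ 13.8 * u ^ 3 := by
    calc u ^ 4 = u * u ^ 3 := by ring
      _ ≤ 13.8 * u ^ 3 := mul_le_mul_of_nonneg_right hu2 (by positivity)
  have m6 : 9.5 * u ^ 2 ≤ u ^ 3 := by
    calc 9.5 * u ^ 2 ≤ u * u ^ 2 := mul_le_mul_of_nonneg_right hu (by positivity)
      _ = u ^ 3 := by ring
  have m7 : 0 ≤ (u - 9.5) * (13.8 - u) := mul_nonneg (by linarith) (by linarith)
  norm_num at hu hu2 m1 m2 m3 m4 m5 m6 m7 ⊢
  nlinarith

theorem polyC7096 (v u : ℝ) (h1 : 0.29112 < v) (h2 : v < 0.29113) (hu : 0 ≤ u) (hu2 : u ≤ 13.8) :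
    -(1 / 4) ≤ 1 - v * u / 2 + (4 * v - 1) * u ^ 2 / 24 - (21 * v - 6) * u ^ 3 / 720 := by
  have c1 : -0.14557 ≤ -v / 2 := by norm_num at h2 ⊢; linarith
  have c2 : 0.00685 ≤ (4 * v - 1) / 24 := by norm_num at h1 ⊢; linarith
  have c3 : -0.000158 ≤ -(21 * v - 6) / 720 := by norm_num at h2 ⊢; linarith
  have m1 := mul_le_mul_of_nonneg_right c1 hu
  have m2 := mul_le_mul_of_nonneg_right c2 (show 0 ≤ u ^ 2 by positivity)
  have m3 := mul_le_mul_of_nonneg_right c3 (show 0 ≤ u ^ 3 by positivity)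
  have m5 : u ^ 3 ≤ 13.8 * u ^ 2 := by
    calc u ^ 3 = u * u ^ 2 := by ring
      _ ≤ 13.8 * u ^ 2 := mul_le_mul_of_nonneg_right hu2 (by positivity)
  have m6 := sq_nonneg (u - 15.6)
  norm_num at hu hu2 m1 m2 m3 m5 m6 ⊢
  nlinarith

theorem phi_one_le (t : ℝ) : |phi 1 t| ≤ max (Real.exp (-(vr 1) * t ^ 2 / 2)) (1 / 4) := by
  obtain ⟨hv1, hv2⟩ := vr_one_bounds
  obtain ⟨hL, hU⟩ := phi_poly7096 t
  have hu0 : 0 ≤ t ^ 2 := sq_nonneg t
  by_cases h1 : t ^ 2 ≤ 9.5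
  · have hA := polyA7096 (vr 1) (t ^ 2) hv1 hv2 hu0 h1
    have hC := polyC7096 (vr 1) (t ^ 2) hv1 hv2 hu0 (h1.trans (by norm_num))
    have hE := expb7096 (vr 1 * t ^ 2 / 2) (by
      have : 0 < vr 1 := by linarith
      positivity)
    have e : -(vr 1) * t ^ 2 / 2 = -(vr 1 * t ^ 2 / 2) := by ring
    rw [e, abs_le]
    have m1 := le_max_left (Real.exp (-(vr 1 * t ^ 2 / 2))) (1 / 4)
    have m2 := le_max_right (Real.exp (-(vr 1 * t ^ 2 / 2))) (1 / 4)
    constructor <;> linarith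
  · push Not at h1
    refine le_trans ?_ (le_max_right _ _)
    by_cases h2 : t ^ 2 ≤ 13.8
    · have hB := polyB7096 (vr 1) (t ^ 2) hv1 hv2 h1.le h2
      have hC := polyC7096 (vr 1) (t ^ 2) hv1 hv2 hu0 h2
      rw [abs_le]
      constructor <;> linarith
    · push Not at h2
      exact phi_far7096 t h2.le

end Pool.Agent.Helper82.GC
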