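import Pool.Agent.Helper82.GC.E1

set_option autoImplicit false

open MeasureTheory Set

namespace Pool.Agent.Helper82.GC












theorem aux_half (r : ℝ) (hr : 1 ≤ r) :
    Real.exp (-1 / 2) * (3 / 2 * (r - 1) - (r ^ 3 - 1) / 6) ≤
      ∫ x in (1 : ℝ)..r, Real.exp (-x ^ 2 / 2) := by
  have h1 : ∫ x in (1 : ℝ)..r, Real.exp (-1 / 2) * (3 / 2 - x ^ 2 / 2) =
      Real.exp (-1 / 2) * (3 / 2 * (r - 1) - (r ^ 3 - 1) / 6) := by
    rw [intervalIntegral.integral_const_mul]
    congr 1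
    rw [intervalIntegral.integral_sub]
    · rw [intervalIntegral.integral_const, intervalIntegral.integral_div, integral_pow]
      simp only [smul_eq_mul]
      norm_num
      ring
    · exact intervalIntegrable_const
    · exact (by fun_prop : Continuous fun x : ℝ => x ^ 2 / 2).intervalIntegrable _ _
  rw [← h1]
  refine intervalIntegral.integral_mono_on hr ?_ ?_ ?_
  · exact (by fun_prop : Continuous fun x : ℝ => Real.exp (-1 / 2) * (3 / 2 - x ^ 2 / 2)).intervalIntegrable _ _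
  · exact (by fun_prop : Continuous fun x : ℝ => Real.exp (-x ^ 2 / 2)).intervalIntegrable _ _
  · intro x _
    have h2 : Real.exp (-x ^ 2 / 2) = Real.exp (-1 / 2) * Real.exp ((1 - x ^ 2) / 2) := by
      rw [← Real.exp_add]
      congr 1
      ring
    rw [h2]
    refine mul_le_mul_of_nonneg_left ?_ (Real.exp_pos _).le
    have := Real.add_one_le_exp ((1 - x ^ 2) / 2)
    linarith

theorem aux_Zr (r : ℝ) (hr : 1 ≤ r) :
    Zr 1 + 2 * (Real.exp (-1 / 2) * (3 / 2 * (r - 1) - (r ^ 3 - 1) / 6)) ≤ Zr r := by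
  have hc : Continuous fun x : ℝ => Real.exp (-x ^ 2 / 2) := by fun_prop
  have hi : ∀ a b : ℝ, IntervalIntegrable (fun x : ℝ => Real.exp (-x ^ 2 / 2)) volume a b :=
    fun a b => hc.intervalIntegrable a b
  have h1 : Zr r = (∫ x in (-r)..(-1), Real.exp (-x ^ 2 / 2)) + Zr 1 +
      ∫ x in (1 : ℝ)..r, Real.exp (-x ^ 2 / 2) := by
    unfold Zr
    rw [intervalIntegral.integral_add_adjacent_intervals (hi _ _) (hi _ _),
      intervalIntegral.integral_add_adjacent_intervals (hi _ _) (hi _ _)]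
  have h2 : (∫ x in (-r)..(-1), Real.exp (-x ^ 2 / 2)) = ∫ x in (1 : ℝ)..r, Real.exp (-x ^ 2 / 2) := by
    have := intervalIntegral.integral_comp_neg (a := (1 : ℝ)) (b := r)
      (fun x : ℝ => Real.exp (-x ^ 2 / 2))
    rw [← this]
    refine intervalIntegral.integral_congr (fun x _ => ?_)
    simp
  have h3 := aux_half r hr
  rw [h1, h2]
  linarith

theorem known_bound_gt (k : ℕ) (hk : 2 ≤ k) :
    (Zr 1 / Real.sqrt (2 * Real.pi)) ^ (k + 1) / Real.sqrt (vr 1) <
      (Zr (Real.sqrt (((k : ℝ) + 1) / k)) / Real.sqrt (2 * Real.pi)) ^ k := by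
  have hkR : (2 : ℝ) ≤ k := by exact_mod_cast hk
  have hk0 : (0 : ℝ) < k := by linarith
  set u : ℝ := 1 / k with hu
  have hu0 : 0 < u := by positivity
  have hu1 : u ≤ 1 / 2 := by
    rw [hu]
    exact one_div_le_one_div_of_le (by norm_num) hkR
  have hku : (k : ℝ) * u = 1 := by
    rw [hu]
    field_simp
  have hfrac : ((k : ℝ) + 1) / k = 1 + u := by
    rw [hu]
    field_simp
  rw [hfrac]
  set r : ℝ := Real.sqrt (1 + u) with hr
  have hr2 : r ^ 2 = 1 + u := Real.sq_sqrt (by linarith)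
  have hr0 : 0 ≤ r := Real.sqrt_nonneg _
  have hr1 : 1 ≤ r := by
    by_contra h
    push Not at h
    nlinarith
  have hr3 : r ≤ 1.2248 := by
    by_contra h
    push Not at h
    nlinarith
  obtain ⟨hZ1, hZ2⟩ := Zr_one_bounds
  obtain ⟨hv1, hv2⟩ := vr_one_bounds
  have hZ0 : 0 < Zr 1 := by linarith
  have he : (0.6065 : ℝ) ≤ Real.exp (-1 / 2) := by
    have h1 : Real.exp (-1 / 2) ^ 2 = Real.exp (-1) := by
      rw [← Real.exp_nat_mul]
      norm_num
    have h2 : Real.exp (-1) = (Real.exp 1)⁻¹ := Real.exp_neg 1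
    have h3 := Real.exp_one_lt_d9
    have h4 : (0.6065 : ℝ) ^ 2 ≤ Real.exp (-1) := by
      rw [h2]
      rw [le_inv_comm₀ (by norm_num) (Real.exp_pos 1)]
      refine h3.le.trans ?_
      norm_num
    rw [← h1] at h4
    exact (pow_le_pow_iff_left₀ (by norm_num) (Real.exp_pos _).le (by norm_num)).mp h4
  have hbase : 0.3951 * u ≤ 3 / 2 * (r - 1) - (r ^ 3 - 1) / 6 := by
    -- (r - 1) * (7 - u - r) / 6
    have e1 : 3 / 2 * (r - 1) - (r ^ 3 - 1) / 6 = (r - 1) * (7 - u - r) / 6 := by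
      have : r ^ 3 = r * (1 + u) := by
        rw [pow_succ, hr2]
        ring
      rw [this]
      have hu' : u = r ^ 2 - 1 := by linarith
      rw [hu']
      ring
    rw [e1]
    have e2 : u = (r - 1) * (r + 1) := by nlinarith
    have e3 : 0.3951 * (r + 1) * 6 ≤ 7 - u - r := by linarith
    have e4 : 0 ≤ r - 1 := by linarith
    have e5 := mul_le_mul_of_nonneg_left e3 e4
    have e6 : 0.3951 * u = (r - 1) * (0.3951 * (r + 1) * 6) / 6 := by
      conv_lhs => rw [e2]
      ring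
    rw [e6]
    linarith
  have hZr := aux_Zr r hr1
  have hlow : 0.4792 * u ≤ Zr r - Zr 1 := by
    have h1 : 0.6065 * (0.3951 * u) ≤ Real.exp (-1 / 2) * (3 / 2 * (r - 1) - (r ^ 3 - 1) / 6) :=
      mul_le_mul he hbase (by positivity) (Real.exp_pos _).le
    have h2 : (0.4792 : ℝ) * u ≤ 2 * (0.6065 * (0.3951 * u)) := by
      have : (0.4792 : ℝ) ≤ 2 * (0.6065 * 0.3951) := by norm_num
      nlinarith
    linarith
  -- Bernoulli
  have hrat : (1.28 : ℝ) ≤ (Zr r / Zr 1) ^ k := by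
    have h1 := one_add_mul_le_pow (a := Zr r / Zr 1 - 1) (by
      have : 0 ≤ Zr r / Zr 1 := by
        apply div_nonneg _ hZ0.le
        have : 0 ≤ 0.4792 * u := by positivity
        linarith
      linarith) k
    have h2 : 1 + (Zr r / Zr 1 - 1) = Zr r / Zr 1 := by ring
    rw [h2] at h1
    refine le_trans ?_ h1
    have h3 : 0.28 * u ≤ Zr r / Zr 1 - 1 := by
      rw [le_sub_iff_add_le, le_div_iff₀ hZ0]
      nlinarith
    have h4 := mul_le_mul_of_nonneg_left h3 hk0.le
    nlinarith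
  set S : ℝ := Real.sqrt (2 * Real.pi) with hS
  have hS0 : 0 < S := Real.sqrt_pos.mpr (by positivity)
  have hS2 : S ^ 2 = 2 * Real.pi := Real.sq_sqrt (by positivity)
  have hv0 : 0 < Real.sqrt (vr 1) := Real.sqrt_pos.mpr (by linarith)
  have hv2' : Real.sqrt (vr 1) ^ 2 = vr 1 := Real.sq_sqrt (by linarith)
  have hleft : Zr 1 / S / Real.sqrt (vr 1) < 1.28 := by
    rw [div_div, div_lt_iff₀ (by positivity)]
    have h1 : (Zr 1) ^ 2 < (1.28 * (S * Real.sqrt (vr 1))) ^ 2 := by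
      have e1 : (1.28 * (S * Real.sqrt (vr 1))) ^ 2 = 1.28 ^ 2 * (S ^ 2 * Real.sqrt (vr 1) ^ 2) := by ring
      rw [e1, hS2, hv2']
      have hpi := Real.pi_gt_d2
      have e2 : (6.28 : ℝ) * 0.29112 ≤ 2 * Real.pi * vr 1 :=
        mul_le_mul (by linarith) hv1.le (by norm_num) (by positivity)
      have e3 : (Zr 1) ^ 2 < 1.711250 ^ 2 := by
        apply pow_lt_pow_left₀ hZ2 hZ0.le (by norm_num)
      refine e3.trans_le ?_
      refine le_trans ?_ (mul_le_mul_of_nonneg_left e2 (by norm_num))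
      norm_num
    exact lt_of_pow_lt_pow_left₀ 2 (by positivity) h1
  have hfin : (Zr r / S) ^ k = (Zr r / Zr 1) ^ k * (Zr 1 / S) ^ k := by
    rw [← mul_pow]
    congr 1
    field_simp
  rw [hfin, pow_succ, mul_div_assoc]
  have hpk : 0 < (Zr 1 / S) ^ k := by positivity
  rw [mul_comm]
  exact mul_lt_mul_of_pos_right (hleft.trans_le hrat) hpk

end Pool.Agent.Helper82.GC
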