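import Pool.Agent.Helper82.GC.A4

set_option autoImplicit false

open MeasureTheory Set

namespace Pool.Agent.Helper82.GC



theorem Kr_pos' {r : ℝ} (hr : 0 < r) : 0 < Kr r := by
  unfold Kr
  have := Zr_pos hr
  positivity

theorem phi_contL {r : ℝ} (hr : 0 < r) : Continuous (phi r) :=
  continuous_iff_continuousAt.mpr fun t => (phi_hasDerivAt hr t).continuousAt

theorem phi_upper' {r : ℝ} (hr : 0 < r) (t : ℝ) :
    phi r t ≤ 1 - vr r * t ^ 2 / 2 + vr r * t ^ 4 / 8 := by
  have key : ∀ t : ℝ, 0 ≤ t → phi r t ≤ 1 - vr r * t ^ 2 / 2 + vr r * t ^ 4 / 8 := by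
    intro t ht
    let f : ℝ → ℝ := fun z => 1 - vr r * z ^ 2 / 2 + vr r * z ^ 4 / 8 - phi r z
    have hd : ∀ z : ℝ, HasDerivAt f (-(vr r * z) + vr r * z ^ 3 / 2 -
        (-(z * phi r z) + Kr r / r * Real.sin (r * z))) z := by
      intro z
      have h1 : HasDerivAt (fun z : ℝ => 1 - vr r * z ^ 2 / 2 + vr r * z ^ 4 / 8)
          (-(vr r * z) + vr r * z ^ 3 / 2) z := by
        have h2 : HasDerivAt (fun z : ℝ => z ^ 2) (2 * z) z := by simpa using hasDerivAt_pow 2 z
        have h4 : HasDerivAt (fun z : ℝ => z ^ 4) (4 * z ^ 3) z := by simpa using hasDerivAt_pow 4 z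
        have h5 := (((h2.const_mul (vr r)).div_const 2).const_sub 1).add ((h4.const_mul (vr r)).div_const 8)
        refine h5.congr_deriv ?_
        ring
      exact h1.sub (phi_hasDerivAt hr z)
    have hmono : MonotoneOn f (Ici 0) := by
      apply monotoneOn_of_deriv_nonneg (convex_Ici 0)
      · exact (continuous_iff_continuousAt.mpr fun z => (hd z).continuousAt).continuousOn
      · exact fun z _ => (hd z).differentiableAt.differentiableWithinAt
      · intro z hz
        rw [interior_Ici] at hz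
        have hz0 : 0 < z := hz
        rw [(hd z).deriv]
        have hlow := phi_lower hr z
        have hK := Kr_pos' hr
        have hsin : Real.sin (r * z) ≤ r * z := Real.sin_le (by positivity)
        have hs : Kr r / r * Real.sin (r * z) ≤ Kr r * z := by
          calc Kr r / r * Real.sin (r * z) ≤ Kr r / r * (r * z) :=
                mul_le_mul_of_nonneg_left hsin (by positivity)
            _ = Kr r * z := by field_simp
        have hv : vr r = 1 - Kr r := rfl
        have h6 : z * (1 - vr r * z ^ 2 / 2) ≤ z * phi r z := mul_le_mul_of_nonneg_left hlow hz0.le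
        nlinarith [h6, hs, hv]
    have h0 : f 0 = 0 := by simp [f, phi_zero hr]
    have h1 := hmono (mem_Ici.mpr le_rfl) (mem_Ici.mpr ht) ht
    rw [h0] at h1
    simp only [f] at h1
    linarith
  rcases le_total 0 t with h | h
  · exact key t h
  · have h1 := key (-t) (by linarith)
    rw [phi_neg] at h1
    have e2 : (-t) ^ 2 = t ^ 2 := by ring
    have e4 : (-t) ^ 4 = t ^ 4 := by ring
    rw [e2, e4] at h1
    exact h1

theorem diag_limit {r : ℝ} (hr : 0 < r) :
    Filter.Tendsto (fun n : ℕ => ∫ t, phi r (Real.sqrt (1 / (n : ℝ)) * t) ^ n) Filter.atTop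
      (nhds (Real.sqrt (2 * Real.pi / vr r))) := by
  obtain ⟨β, hβ, henv⟩ := phi_envelope hr
  have hv := vr_pos hr
  have hgauss : ∫ t : ℝ, Real.exp (-(vr r * t ^ 2 / 2)) = Real.sqrt (2 * Real.pi / vr r) := by
    have h1 := integral_gaussian (vr r / 2)
    have e : (fun t : ℝ => Real.exp (-(vr r * t ^ 2 / 2))) = fun t : ℝ => Real.exp (-(vr r / 2) * t ^ 2) := by
      funext t; congr 1; ring
    rw [e, h1]
    congr 1
    field_simp
  rw [← hgauss]
  have hsq : ∀ (n : ℕ) (t : ℝ), (Real.sqrt (1 / (n : ℝ)) * t) ^ 2 = t ^ 2 / n := by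
    intro n t
    rw [mul_pow, Real.sq_sqrt (by positivity)]
    ring
  apply tendsto_integral_filter_of_dominated_convergence (fun t : ℝ => (1 + (Real.sqrt (β / 3) * t) ^ 2)⁻¹)
  · refine Filter.Eventually.of_forall fun n => ?_
    apply Continuous.aestronglyMeasurable
    exact ((phi_contL hr).comp (continuous_const.mul continuous_id)).pow n
  · filter_upwards [Filter.eventually_ge_atTop 2] with n hn
    refine Filter.Eventually.of_forall fun t => ?_
    set z := Real.sqrt (1 / (n : ℝ)) * t with hz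
    have hz2 : z ^ 2 = t ^ 2 / n := hsq n t
    have habs := abs_phi_le_one hr z
    obtain ⟨m, hm1, hm2⟩ : ∃ m : ℕ, 2 * m ≤ n ∧ n ≤ 3 * m := ⟨n / 2, by omega, by omega⟩
    rw [Real.norm_eq_abs, abs_pow]
    have h1 : |phi r z| ^ n ≤ |phi r z| ^ (2 * m) := pow_le_pow_of_le_one (abs_nonneg _) habs hm1
    have h2 : |phi r z| ^ (2 * m) = (phi r z ^ 2) ^ m := by rw [pow_mul, sq_abs]
    have hpos : 0 < 1 + β * z ^ 2 := by positivity
    have h3 : phi r z ^ 2 ≤ (1 + β * z ^ 2)⁻¹ := by
      rw [← one_div, le_div_iff₀ hpos]; exact henv z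
    have h4 : (phi r z ^ 2) ^ m ≤ ((1 + β * z ^ 2)⁻¹) ^ m := pow_le_pow_left₀ (sq_nonneg _) h3 m
    have h5 : 1 + (m : ℝ) * (β * z ^ 2) ≤ (1 + β * z ^ 2) ^ m :=
      one_add_mul_le_pow (by nlinarith [mul_nonneg hβ.le (sq_nonneg z)]) m
    have h6 : (Real.sqrt (β / 3) * t) ^ 2 = β / 3 * t ^ 2 := by
      rw [mul_pow, Real.sq_sqrt (by positivity)]
    have hn0 : (0 : ℝ) < n := by
      have : 0 < n := by omega
      exact_mod_cast this
    have h7 : β / 3 * t ^ 2 ≤ (m : ℝ) * (β * z ^ 2) := by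
      rw [hz2]
      have h8 : (n : ℝ) ≤ 3 * m := by exact_mod_cast hm2
      have h9 : (m : ℝ) * (β * (t ^ 2 / n)) = β / 3 * t ^ 2 * ((3 * m) / n) := by field_simp
      rw [h9]
      have h10 : 1 ≤ (3 * (m : ℝ)) / n := by rw [le_div_iff₀ hn0]; linarith
      have h11 : 0 ≤ β / 3 * t ^ 2 := by positivity
      nlinarith
    calc |phi r z| ^ n ≤ (phi r z ^ 2) ^ m := by rw [← h2]; exact h1
      _ ≤ ((1 + β * z ^ 2)⁻¹) ^ m := h4
      _ = ((1 + β * z ^ 2) ^ m)⁻¹ := inv_pow _ _
      _ ≤ (1 + (m : ℝ) * (β * z ^ 2))⁻¹ := by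
          apply inv_anti₀ _ h5
          positivity
      _ ≤ (1 + (Real.sqrt (β / 3) * t) ^ 2)⁻¹ := by
          apply inv_anti₀
          · positivity
          · rw [h6]; linarith
  · have h := integrable_inv_one_add_sq.comp_mul_left' (Real.sqrt_ne_zero'.mpr (by positivity : 0 < β / 3))
    exact h
  · refine Filter.Eventually.of_forall fun t => ?_
    have hg : Filter.Tendsto (fun n : ℕ => (n : ℝ) * (phi r (Real.sqrt (1 / (n : ℝ)) * t) - 1)) Filter.atTop
        (nhds (-(vr r * t ^ 2 / 2))) := by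
      have hlow : Filter.Tendsto (fun n : ℕ => (-(vr r * t ^ 2 / 2))) Filter.atTop
          (nhds (-(vr r * t ^ 2 / 2))) := tendsto_const_nhds
      have hup : Filter.Tendsto (fun n : ℕ => (-(vr r * t ^ 2 / 2)) + (vr r * t ^ 4 / 8) / (n : ℝ)) Filter.atTop
          (nhds (-(vr r * t ^ 2 / 2))) := by
        have h1 := (tendsto_const_div_atTop_nhds_zero_nat (vr r * t ^ 4 / 8)).const_add (-(vr r * t ^ 2 / 2))
        rw [add_zero] at h1
        exact h1
      refine tendsto_of_tendsto_of_tendsto_of_le_of_le' hlow hup ?_ ?_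
      · filter_upwards [Filter.eventually_ge_atTop 1] with n hn
        have hn0 : (0 : ℝ) < n := by exact_mod_cast hn
        have h1 := phi_lower hr (Real.sqrt (1 / (n : ℝ)) * t)
        rw [hsq] at h1
        have h2 : (n : ℝ) * (-(vr r * (t ^ 2 / n) / 2)) ≤ (n : ℝ) * (phi r (Real.sqrt (1 / (n : ℝ)) * t) - 1) :=
          mul_le_mul_of_nonneg_left (by linarith) hn0.le
        have h3 : (n : ℝ) * (-(vr r * (t ^ 2 / n) / 2)) = -(vr r * t ^ 2 / 2) := by field_simp
        linarith
      · filter_upwards [Filter.eventually_ge_atTop 1] with n hn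
        have hn0 : (0 : ℝ) < n := by exact_mod_cast hn
        have h1 := phi_upper' hr (Real.sqrt (1 / (n : ℝ)) * t)
        have e4 : (Real.sqrt (1 / (n : ℝ)) * t) ^ 4 = (t ^ 2 / n) ^ 2 := by
          rw [← hsq]; ring
        rw [e4, hsq] at h1
        have h2 : (n : ℝ) * (phi r (Real.sqrt (1 / (n : ℝ)) * t) - 1) ≤
            (n : ℝ) * (-(vr r * (t ^ 2 / n) / 2) + vr r * (t ^ 2 / n) ^ 2 / 8) :=
          mul_le_mul_of_nonneg_left (by linarith) hn0.le
        have h3 : (n : ℝ) * (-(vr r * (t ^ 2 / n) / 2) + vr r * (t ^ 2 / n) ^ 2 / 8) =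
            -(vr r * t ^ 2 / 2) + (vr r * t ^ 4 / 8) / (n : ℝ) := by field_simp
        linarith
    have h := Real.tendsto_one_add_pow_exp_of_tendsto hg
    refine h.congr fun n => ?_
    congr 1
    ring

end Pool.Agent.Helper82.GC
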