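import Pool.Agent.Helper82.GC.Def

set_option autoImplicit false

open MeasureTheory Set

namespace Pool.Agent.Helper82.GC



theorem prod_envelope {r β : ℝ} (hβ : 0 < β) (hphi : ∀ t : ℝ, phi r t ^ 2 * (1 + β * t ^ 2) ≤ 1)
    {ι : Type*} (T : Finset ι) (s : ι → ℝ) {ε : ℝ} (hε : 0 < ε) (hε' : ε ≤ 1 / 16)
    (hs : ∀ i ∈ T, 0 ≤ s i) (hs' : ∀ i ∈ T, s i ≤ ε) (hsum : 1 / 2 ≤ ∑ i ∈ T, s i) (t : ℝ) :
    ∏ i ∈ T, |phi r (Real.sqrt (s i) * t)| ≤ 1 / (1 + β * t ^ 2 / 16) ^ 4 := by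
  obtain ⟨X, hX⟩ : ∃ X : ℝ, X = 1 + β * ε * t ^ 2 := ⟨_, rfl⟩
  have hXe : 0 ≤ β * ε * t ^ 2 := by positivity
  have hX1 : 1 ≤ X := by rw [hX]; linarith
  have hX0 : 0 < X := by linarith
  have key : ∀ i ∈ T, |phi r (Real.sqrt (s i) * t)| ≤ X ^ (-(s i / (2 * ε))) := by
    intro i hi
    have hsi := hs i hi
    have hsi' := hs' i hi
    apply abs_le_of_sq_le_sq _ (Real.rpow_nonneg hX0.le _)
    have h1 := hphi (Real.sqrt (s i) * t)
    rw [mul_pow, Real.sq_sqrt hsi] at h1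
    have h2 : X ^ (s i / ε) ≤ 1 + (s i / ε) * (β * ε * t ^ 2) := by
      rw [hX]
      exact rpow_one_add_le_one_add_mul_self (by linarith) (by positivity)
        ((div_le_one hε).mpr hsi')
    have h3 : (s i / ε) * (β * ε * t ^ 2) = β * (s i * t ^ 2) := by
      field_simp
    rw [h3] at h2
    have h4 : (X ^ (-(s i / (2 * ε)))) ^ 2 = (X ^ (s i / ε))⁻¹ := by
      rw [← Real.rpow_natCast, ← Real.rpow_mul hX0.le, ← Real.rpow_neg hX0.le]
      congr 1
      field_simp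
      push_cast
      ring
    rw [h4]
    have h5 : 0 < X ^ (s i / ε) := Real.rpow_pos_of_pos hX0 _
    rw [← one_div, le_div_iff₀ h5]
    refine le_trans ?_ h1
    exact mul_le_mul_of_nonneg_left h2 (sq_nonneg _)
  have hprod : ∏ i ∈ T, |phi r (Real.sqrt (s i) * t)| ≤ X ^ (-(1 / (4 * ε))) := by
    refine (Finset.prod_le_prod (fun i _ => abs_nonneg _) key).trans ?_
    rw [← Real.rpow_sum_of_pos hX0]
    apply Real.rpow_le_rpow_of_exponent_le hX1
    rw [Finset.sum_neg_distrib, ← Finset.sum_div]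
    apply neg_le_neg
    rw [div_le_div_iff₀ (by positivity) (by positivity)]
    nlinarith
  refine hprod.trans ?_
  have hm : 1 ≤ 1 / (16 * ε) := by
    rw [le_div_iff₀ (by positivity)]; linarith
  have h6 : 1 + β * t ^ 2 / 16 ≤ X ^ (1 / (16 * ε)) := by
    have := one_add_mul_self_le_rpow_one_add (s := β * ε * t ^ 2) (by linarith) hm
    rw [hX]
    refine le_trans (le_of_eq ?_) this
    field_simp
  have h7 : X ^ (-(1 / (4 * ε))) = 1 / (X ^ (1 / (16 * ε))) ^ 4 := by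
    rw [one_div (_ ^ 4), ← Real.rpow_natCast, ← Real.rpow_mul hX0.le, ← Real.rpow_neg hX0.le]
    congr 1
    field_simp
    push_cast
    norm_num
  rw [h7]
  apply one_div_le_one_div_of_le (by positivity)
  exact pow_le_pow_left₀ (by positivity) h6 4

end Pool.Agent.Helper82.GC

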