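import Pool.Agent.Helper82.GC.A4
import Pool.Agent.Helper82.GC.Sc

set_option autoImplicit false

open MeasureTheory Set

namespace Pool.Agent.Helper82.GC





theorem phi_cont' {r : ℝ} (hr : 0 < r) : Continuous (phi r) :=
  continuous_iff_continuousAt.2 fun t => (phi_hasDerivAt hr t).continuousAt

theorem envelope_integrable {β : ℝ} (hβ : 0 < β) :
    Integrable (fun t : ℝ => 1 / (1 + β * t ^ 2 / 16) ^ 4) := by
  have hc : 0 < Real.sqrt (β / 16) := Real.sqrt_pos.2 (by positivity)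
  have h1 : Integrable (fun t : ℝ => (1 + (Real.sqrt (β / 16) * t) ^ 2)⁻¹) :=
    integrable_inv_one_add_sq.comp_mul_left' hc.ne'
  have hm : Continuous (fun t : ℝ => 1 / (1 + β * t ^ 2 / 16) ^ 4) := by
    apply Continuous.div continuous_const (by fun_prop)
    intro t
    have : 0 ≤ β * t ^ 2 / 16 := by positivity
    positivity
  refine h1.mono' hm.aestronglyMeasurable (Filter.Eventually.of_forall fun t => ?_)
  have h2 : 0 ≤ β * t ^ 2 / 16 := by positivity
  have h3 : (Real.sqrt (β / 16) * t) ^ 2 = β * t ^ 2 / 16 := by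
    rw [mul_pow, Real.sq_sqrt (by positivity)]
    ring
  rw [h3, Real.norm_of_nonneg (by positivity), one_div]
  apply inv_anti₀ (by positivity)
  exact le_self_pow₀ (by linarith) (by norm_num)

theorem J_bound {r β ε : ℝ} (hβ : 0 < β)
    (hphi : ∀ t : ℝ, phi r t ^ 2 * (1 + β * t ^ 2) ≤ 1) (hε : 0 < ε)
    (hε' : ε ≤ 1 / 16) {n : ℕ} (s : Fin n → ℝ) (hs : ∀ i, 0 ≤ s i) (hs' : ∀ i, s i ≤ ε)
    (hsum : ∑ i, s i = 1) (t : ℝ) :
    ‖∏ i, phi r (Real.sqrt (s i) * t)‖ ≤ 1 / (1 + β * t ^ 2 / 16) ^ 4 := by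
  rw [Real.norm_eq_abs, Finset.abs_prod]
  exact prod_envelope hβ hphi Finset.univ s hε hε' (fun i _ => hs i) (fun i _ => hs' i)
    (by rw [hsum]; norm_num) t

theorem J_continuousOn {r : ℝ} (hr : 0 < r) {ε : ℝ} (hε : 0 < ε) (hε' : ε ≤ 1 / 16) (n : ℕ) :
    ContinuousOn (fun s : Fin n → ℝ => J r s)
      {s | (∀ i, 0 ≤ s i) ∧ (∀ i, s i ≤ ε) ∧ ∑ i, s i = 1} := by
  obtain ⟨β, hβ, hphi⟩ := phi_envelope hr
  have hc := phi_cont' hr
  unfold J
  refine continuousOn_of_dominated (bound := fun t => 1 / (1 + β * t ^ 2 / 16) ^ 4) ?_ ?_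
    (envelope_integrable hβ) ?_
  · intro s _
    apply Continuous.aestronglyMeasurable
    apply continuous_finsetProd
    intro i _
    exact hc.comp (by fun_prop)
  · rintro s ⟨h1, h2, h3⟩
    exact Filter.Eventually.of_forall fun t => J_bound hβ hphi hε hε' s h1 h2 h3 t
  · refine Filter.Eventually.of_forall fun t => Continuous.continuousOn ?_
    apply continuous_finsetProd
    intro i _
    exact hc.comp (by fun_prop)
theorem J_integrable {r : ℝ} (hr : 0 < r) {ε : ℝ} (hε : 0 < ε) (hε' : ε ≤ 1 / 16) {n : ℕ}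
    (s : Fin n → ℝ) (hs : ∀ i, 0 ≤ s i) (hs' : ∀ i, s i ≤ ε) (hsum : ∑ i, s i = 1) :
    Integrable (fun t => ∏ i, phi r (Real.sqrt (s i) * t)) := by
  obtain ⟨β, hβ, hphi⟩ := phi_envelope hr
  have hc := phi_cont' hr
  refine (envelope_integrable hβ).mono' ?_
    (Filter.Eventually.of_forall fun t => J_bound hβ hphi hε hε' s hs hs' hsum t)
  apply Continuous.aestronglyMeasurable
  apply continuous_finsetProd
  intro i _
  exact hc.comp (by fun_prop)

end Pool.Agent.Helper82.GC
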