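import Pool.Agent.Helper82.GC.Sd
import Pool.Agent.Helper82.GC.Se

set_option autoImplicit false

open MeasureTheory Set

namespace Pool.Agent.Helper82.GC












theorem small_max {r : ℝ} (hr : 0 < r) :
    ∃ ε : ℝ, 0 < ε ∧ ε ≤ 1 / 16 ∧ ∀ (n : ℕ) (s : Fin n → ℝ), (∀ i, 0 ≤ s i) → (∀ i, s i ≤ ε) →
      ∑ i, s i = 1 → J r s ≤ J r (fun _ : Fin n => 1 / (n : ℝ)) ∧
        (J r s = J r (fun _ : Fin n => 1 / (n : ℝ)) → ∀ i, s i = 1 / (n : ℝ)) := by
  classical
  obtain ⟨ε, hε, hε', hav⟩ := average_lt hr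
  refine ⟨ε, hε, hε', ?_⟩
  intro n s hs0 hsε hs1
  obtain ⟨K, hK⟩ : ∃ K : Set (Fin n → ℝ), K = {s | (∀ i, 0 ≤ s i) ∧ (∀ i, s i ≤ ε) ∧ ∑ i, s i = 1} :=
    ⟨_, rfl⟩
  have hmem : ∀ u, u ∈ K ↔ (∀ i, 0 ≤ u i) ∧ (∀ i, u i ≤ ε) ∧ ∑ i, u i = 1 := by
    intro u; rw [hK]; rfl
  have hJc : ContinuousOn (fun s : Fin n → ℝ => J r s) K := by
    rw [hK]; exact J_continuousOn hr hε hε' n
  have hKc : IsCompact K := by
    have h1 : K = Set.Icc (0 : Fin n → ℝ) (fun _ => ε) ∩ {u | ∑ i, u i = 1} := by
      ext u
      rw [hmem]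
      constructor
      · rintro ⟨h1, h2, h3⟩
        exact ⟨⟨fun i => h1 i, fun i => h2 i⟩, h3⟩
      · rintro ⟨⟨h1, h2⟩, h3⟩
        exact ⟨fun i => h1 i, fun i => h2 i, h3⟩
    rw [h1]
    refine isCompact_Icc.inter_right (isClosed_eq ?_ continuous_const)
    fun_prop
  have hn0 : (n : ℝ) ≠ 0 := by
    intro h
    have h2 : n = 0 := by exact_mod_cast h
    subst h2
    simp at hs1
  have hconst : ∀ s0 ∈ K, (∀ u ∈ K, J r u ≤ J r s0) → ∀ i, s0 i = 1 / (n : ℝ) := by
    intro s0 hs0K hmax
    obtain ⟨h1, h2, h3⟩ := (hmem s0).mp hs0K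
    have heq : ∀ i j, s0 i = s0 j := by
      intro i j
      by_contra hne
      have hij : i ≠ j := fun h => hne (by rw [h])
      have h4 := hav n s0 h1 h2 h3 i j hij hne
      obtain ⟨m, hm⟩ : ∃ m, m = (s0 i + s0 j) / 2 := ⟨_, rfl⟩
      rw [← hm] at h4
      have hu : ∀ k, Function.update (Function.update s0 i m) j m k
          = s0 k + (if k = i then m - s0 i else 0) + (if k = j then m - s0 j else 0) := by
        intro k
        by_cases hkj : k = j
        · subst hkj
          have : k ≠ i := fun h => hij h.symm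
          simp [this]
        · by_cases hki : k = i
          · subst hki
            simp [hkj]
          · simp [hkj, hki]
      refine absurd (hmax _ ?_) (not_le.mpr h4)
      rw [hmem]
      refine ⟨fun k => ?_, fun k => ?_, ?_⟩
      · by_cases hkj : k = j
        · subst hkj
          rw [Function.update_self, hm]
          linarith [h1 i, h1 k]
        · rw [Function.update_of_ne hkj]
          by_cases hki : k = i
          · subst hki
            rw [Function.update_self, hm]
            linarith [h1 j, h1 k]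
          · rw [Function.update_of_ne hki]
            exact h1 k
      · by_cases hkj : k = j
        · subst hkj
          rw [Function.update_self, hm]
          linarith [h2 i, h2 k]
        · rw [Function.update_of_ne hkj]
          by_cases hki : k = i
          · subst hki
            rw [Function.update_self, hm]
            linarith [h2 j, h2 k]
          · rw [Function.update_of_ne hki]
            exact h2 k
      · simp_rw [hu]
        rw [Finset.sum_add_distrib, Finset.sum_add_distrib, Finset.sum_ite_eq' Finset.univ i,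
          Finset.sum_ite_eq' Finset.univ j, if_pos (Finset.mem_univ i),
          if_pos (Finset.mem_univ j), h3, hm]
        ring
    intro i
    have h5 : ∑ k, s0 k = n * s0 i := by
      rw [Finset.sum_congr rfl fun k _ => heq k i]
      simp
    rw [h3] at h5
    field_simp
    linarith
  have hsK : s ∈ K := (hmem s).mpr ⟨hs0, hsε, hs1⟩
  obtain ⟨s0, hs0K, hmax⟩ := hKc.exists_isMaxOn ⟨s, hsK⟩ hJc
  have hs0c : s0 = fun _ : Fin n => 1 / (n : ℝ) := funext (hconst s0 hs0K fun u hu => hmax hu)
  rw [hs0c] at hmax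
  refine ⟨hmax hsK, fun heq => ?_⟩
  exact hconst s hsK fun u hu => by rw [heq]; exact hmax hu

end Pool.Agent.Helper82.GC
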