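import Pool.Agent.Helper82.GC.B2
import Pool.Agent.Helper82.GC.B3
import Pool.Agent.Helper82.GC.B4
import Pool.Agent.Helper82.GC.B6
import Pool.Agent.Helper82.GC.E4
import Pool.Agent.Helper82.GC.L
import Pool.Agent.Helper82.GC.Sf

set_option autoImplicit false

open MeasureTheory Set

namespace Pool.Agent.Helper82.GC

/-- the main diagonal direction -/
noncomputable def diagonal (n : ℕ) : EuclideanSpace ℝ (Fin n) :=
  WithLp.toLp 2 (fun _ => 1 / Real.sqrt n)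

theorem diagonal_norm {n : ℕ} (hn : 1 ≤ n) : ‖diagonal n‖ = 1 := by
  have h : (0 : ℝ) < n := by exact_mod_cast hn
  rw [EuclideanSpace.norm_eq]
  have : ∀ i : Fin n, ‖(diagonal n) i‖ ^ 2 = 1 / n := by
    intro i
    show ‖(1 : ℝ) / Real.sqrt n‖ ^ 2 = 1 / n
    rw [Real.norm_eq_abs, sq_abs, div_pow, Real.sq_sqrt h.le]
    norm_num
  rw [Finset.sum_congr rfl (fun i _ => this i)]
  simp only [Finset.sum_const, Finset.card_univ, Fintype.card_fin, nsmul_eq_mul]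
  rw [mul_one_div_cancel h.ne', Real.sqrt_one]

theorem sum_sq {n : ℕ} (θ : EuclideanSpace ℝ (Fin n)) (hθ : ‖θ‖ = 1) : ∑ i, θ i ^ 2 = 1 := by
  have h := EuclideanSpace.norm_sq_eq θ
  rw [hθ] at h
  simp only [Real.norm_eq_abs, sq_abs] at h
  linarith

/-- the value of a section, in the Hoelder region -/
theorem sec_mid {k : ℕ} (θ : EuclideanSpace ℝ (Fin (k + 1))) (hθ : ‖θ‖ = 1)
    (hs : ∀ i, θ i ^ 2 ≤ 1 / 2) :
    sec (k + 1) 1 θ = (2 * Real.pi) ^ (-(k : ℝ) / 2) *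
      (Zr 1 ^ (k + 1) / (2 * Real.pi) * J 1 (fun i => θ i ^ 2)) := by
  obtain ⟨δ, -, h⟩ := mid_region 1 one_pos
  rw [sec_eq 1 θ hθ, slice_eq_J one_pos θ hθ
    (h (k + 1) (fun i => θ i ^ 2) (fun i => sq_nonneg _) hs (sum_sq θ hθ)).1]

theorem const_id {k : ℕ} : (2 * Real.pi) ^ (-(k : ℝ) / 2) *
      (Zr 1 ^ (k + 1) / (2 * Real.pi) * Real.sqrt (2 * Real.pi / vr 1)) =
      (Zr 1 / Real.sqrt (2 * Real.pi)) ^ (k + 1) / Real.sqrt (vr 1) := by
  have hpi : (0 : ℝ) < 2 * Real.pi := by positivity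
  have h4 : (2 * Real.pi) ^ (-(k : ℝ) / 2) = (Real.sqrt (2 * Real.pi) ^ k)⁻¹ := by
    rw [neg_div, Real.rpow_neg hpi.le, Real.sqrt_eq_rpow, ← Real.rpow_natCast,
      ← Real.rpow_mul hpi.le]
    congr 2
    ring
  have hq : 0 < Real.sqrt (2 * Real.pi) := Real.sqrt_pos.2 hpi
  have hv : 0 < Real.sqrt (vr 1) := Real.sqrt_pos.2 (vr_pos one_pos)
  rw [h4, Real.sqrt_div hpi.le, div_pow]
  have e : (2 * Real.pi) = Real.sqrt (2 * Real.pi) * Real.sqrt (2 * Real.pi) :=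
    (Real.mul_self_sqrt hpi.le).symm
  obtain ⟨q, hq'⟩ : ∃ q, q = Real.sqrt (2 * Real.pi) := ⟨_, rfl⟩
  rw [← hq'] at e hq ⊢
  rw [e]
  field_simp
  ring

theorem sec_le (k : ℕ) (θ : EuclideanSpace ℝ (Fin (k + 1))) (hθ : ‖θ‖ = 1) :
    sec (k + 1) 1 θ ≤ (Zr 1 / Real.sqrt (2 * Real.pi)) ^ (k + 1) / Real.sqrt (vr 1) := by
  have hpi : (0 : ℝ) < 2 * Real.pi := by positivity
  rw [← const_id]
  by_cases hs : ∀ i, θ i ^ 2 ≤ 1 / 2
  · obtain ⟨δ, -, h⟩ := mid_region 1 one_pos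
    have h2 := (h (k + 1) (fun i => θ i ^ 2) (fun i => sq_nonneg _) hs (sum_sq θ hθ)).2.1
    rw [sec_mid θ hθ hs]
    have hz := Zr_pos (r := 1) one_pos
    gcongr
  · push Not at hs
    obtain ⟨j, hj⟩ := hs
    obtain ⟨δ, hδ, h⟩ := large_region
    have h2 := h k θ hθ ⟨j, hj.le⟩
    rw [sec_eq 1 θ hθ]
    have hz := Zr_pos (r := 1) one_pos
    apply mul_le_mul_of_nonneg_left _ (by positivity)
    refine h2.trans ?_
    apply mul_le_mul_of_nonneg_left _ (by positivity)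
    linarith

theorem main_large : ∃ N : ℕ, ∀ n ≥ N, ∀ θ : EuclideanSpace ℝ (Fin n), ‖θ‖ = 1 →
    sec n 1 θ ≤ sec n 1 (diagonal n) ∧
      (sec n 1 θ = sec n 1 (diagonal n) ↔ ∀ i, |θ i| = 1 / Real.sqrt n) := by
  obtain ⟨ε, hε, hε16, hsm⟩ := small_max (r := 1) one_pos
  obtain ⟨δ1, hδ1, hmid⟩ := mid_region ε hε
  obtain ⟨δ2, hδ2, hlar⟩ := large_region
  have hlim := diag_limit (r := 1) one_pos
  have hev : ∀ᶠ n : ℕ in Filter.atTop,
      Real.sqrt (2 * Real.pi / vr 1) - min δ1 δ2 <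
        ∫ t, phi 1 (Real.sqrt (1 / (n : ℝ)) * t) ^ n :=
    hlim.eventually_const_lt (by
      have : 0 < min δ1 δ2 := lt_min hδ1 hδ2
      linarith)
  obtain ⟨N, hN⟩ := Filter.eventually_atTop.1 (hev.and (Filter.eventually_ge_atTop 2))
  refine ⟨N, ?_⟩
  intro n hn θ hθ
  obtain ⟨hJ, hn2⟩ := hN n hn
  obtain ⟨k, rfl⟩ : ∃ k, n = k + 1 := ⟨n - 1, by omega⟩
  have hz := Zr_pos (r := 1) one_pos
  have hpi : (0 : ℝ) < 2 * Real.pi := by positivity
  have hn0 : (0 : ℝ) < ((k + 1 : ℕ) : ℝ) := by positivity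
  have hdn := diagonal_norm (n := k + 1) (by omega)
  have hdsq : ∀ i, (diagonal (k + 1)) i ^ 2 = 1 / ((k + 1 : ℕ) : ℝ) := by
    intro i
    show ((1 : ℝ) / Real.sqrt ((k + 1 : ℕ) : ℝ)) ^ 2 = 1 / ((k + 1 : ℕ) : ℝ)
    rw [div_pow, Real.sq_sqrt hn0.le]
    norm_num
  have hdle : ∀ i, (diagonal (k + 1)) i ^ 2 ≤ 1 / 2 := by
    intro i
    rw [hdsq i]
    have h2 : (2 : ℝ) ≤ ((k + 1 : ℕ) : ℝ) := by exact_mod_cast hn2
    exact one_div_le_one_div_of_le (by norm_num) h2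
  have hdJ : J 1 (fun i => (diagonal (k + 1)) i ^ 2) =
      ∫ t, phi 1 (Real.sqrt (1 / ((k + 1 : ℕ) : ℝ)) * t) ^ (k + 1) := by
    unfold J
    congr 1
    funext t
    simp only [hdsq]
    simp
  have hc1 : 0 < (2 * Real.pi) ^ (-(k : ℝ) / 2) := by positivity
  have hc2 : 0 < Zr 1 ^ (k + 1) / (2 * Real.pi) := by positivity
  rw [sec_mid (diagonal (k + 1)) hdn hdle]
  have habs : ∀ i, (θ i ^ 2 = 1 / ((k + 1 : ℕ) : ℝ) ↔ |θ i| = 1 / Real.sqrt ((k + 1 : ℕ) : ℝ)) := by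
    intro i
    have h1 : (1 : ℝ) / ((k + 1 : ℕ) : ℝ) = (1 / Real.sqrt ((k + 1 : ℕ) : ℝ)) ^ 2 := by
      rw [div_pow, Real.sq_sqrt hn0.le]
      norm_num
    rw [h1, ← sq_abs (θ i)]
    constructor
    · intro h
      exact (pow_left_inj₀ (abs_nonneg _) (by positivity) (by norm_num)).1 h
    · intro h
      rw [h]
  by_cases hs : ∀ i, θ i ^ 2 ≤ 1 / 2
  · rw [sec_mid θ hθ hs]
    by_cases hsε : ∀ i, θ i ^ 2 ≤ ε
    · obtain ⟨h1, h2⟩ := hsm (k + 1) (fun i => θ i ^ 2) (fun i => sq_nonneg _) hsε (sum_sq θ hθ)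
      have e : J 1 (fun i => (diagonal (k + 1)) i ^ 2) =
          J 1 (fun _ : Fin (k + 1) => 1 / ((k + 1 : ℕ) : ℝ)) := by
        congr 1
        funext i
        exact hdsq i
      rw [e]
      refine ⟨mul_le_mul_of_nonneg_left (mul_le_mul_of_nonneg_left h1 hc2.le) hc1.le, ?_⟩
      constructor
      · intro h i
        have h3 := mul_left_cancel₀ hc2.ne' (mul_left_cancel₀ hc1.ne' h)
        exact (habs i).1 (h2 h3 i)
      · intro h
        congr 2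
        congr 1
        funext i
        exact (habs i).2 (h i)
    · push Not at hsε
      obtain ⟨j, hj⟩ := hsε
      have h1 := (hmid (k + 1) (fun i => θ i ^ 2) (fun i => sq_nonneg _) hs (sum_sq θ hθ)).2.2
        ⟨j, hj.le⟩
      have h2 : J 1 (fun i => θ i ^ 2) < J 1 (fun i => (diagonal (k + 1)) i ^ 2) := by
        rw [hdJ]
        have := min_le_left δ1 δ2
        linarith
      have h3 := mul_lt_mul_of_pos_left (mul_lt_mul_of_pos_left h2 hc2) hc1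
      refine ⟨h3.le, ?_⟩
      constructor
      · intro h
        exact absurd h h3.ne
      · intro h
        exfalso
        have : (fun i => θ i ^ 2) = (fun i => (diagonal (k + 1)) i ^ 2) := by
          funext i
          rw [hdsq i]
          exact (habs i).2 (h i)
        rw [this] at h2
        exact lt_irrefl _ h2
  · push Not at hs
    obtain ⟨j, hj⟩ := hs
    have h1 := hlar k θ hθ ⟨j, hj.le⟩
    have h2 : Zr 1 ^ (k + 1) / (2 * Real.pi) * (Real.sqrt (2 * Real.pi / vr 1) - δ2) <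
        Zr 1 ^ (k + 1) / (2 * Real.pi) * J 1 (fun i => (diagonal (k + 1)) i ^ 2) := by
      apply mul_lt_mul_of_pos_left _ hc2
      rw [hdJ]
      have := min_le_right δ1 δ2
      linarith
    rw [sec_eq 1 θ hθ]
    have h3 := mul_lt_mul_of_pos_left (h1.trans_lt h2) hc1
    refine ⟨h3.le, ?_⟩
    constructor
    · intro h
      exact absurd h h3.ne
    · intro h
      exfalso
      have h5 := (habs j).2 (h j)
      have h6 := hdle j
      rw [hdsq j] at h6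
      rw [h5] at hj
      linarith

end Pool.Agent.Helper82.GC
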