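import Pool.Agent.Helper82.GC.Def2
import Pool.Agent.Helper82.GC.P2

set_option autoImplicit false

open MeasureTheory Set

namespace Pool.Agent.Helper82.GC


theorem slice_le_pair_wr_j10559 (x : ℝ) : wr 1 x = (Icc (-1 : ℝ) 1).indicator
    (fun x => Real.exp (-x ^ 2 / 2)) x := by
  unfold wr
  by_cases h : |x| ≤ 1
  · rw [if_pos h, Set.indicator_of_mem (by rw [mem_Icc]; exact abs_le.1 h)]
  · rw [if_neg h, Set.indicator_of_notMem (by rw [mem_Icc]; exact fun h' => h (abs_le.2 h'))]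

theorem slice_le_pair_wr_nonneg_j10559 (x : ℝ) : 0 ≤ wr 1 x := by
  rw [slice_le_pair_wr_j10559]
  exact Set.indicator_nonneg (fun _ _ => (Real.exp_pos _).le) _

theorem slice_le_pair_wr_int_j10559 : Integrable (wr 1) := by
  have : wr 1 = (Icc (-1 : ℝ) 1).indicator (fun x => Real.exp (-x ^ 2 / 2)) :=
    funext slice_le_pair_wr_j10559
  rw [this, integrable_indicator_iff measurableSet_Icc]
  exact (Continuous.continuousOn (by fun_prop)).integrableOn_Icc

theorem slice_le_pair_int_j10559 (f : ℝ → ℝ) :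
    ∫ x, f x * wr 1 x = ∫ x in (-1 : ℝ)..1, f x * Real.exp (-x ^ 2 / 2) := by
  have h : (fun x => f x * wr 1 x) =
      (Icc (-1 : ℝ) 1).indicator (fun x => f x * Real.exp (-x ^ 2 / 2)) := by
    funext x
    rw [slice_le_pair_wr_j10559, Set.indicator_apply, Set.indicator_apply]
    split_ifs
    · rfl
    · rw [mul_zero]
  rw [h, integral_indicator measurableSet_Icc, integral_Icc_eq_integral_Ioc,
    intervalIntegral.integral_of_le (by norm_num)]

theorem slice_le_pair_Zr_j10559 : ∫ x, wr 1 x = Zr 1 := by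
  have := slice_le_pair_int_j10559 (fun _ => 1)
  simpa [Zr] using this

theorem slice_le_pair_centre0_j10559 (g : ℝ → ℝ) (hg : Continuous g)
    (hanti : ∀ x y, |x| ≤ |y| → g y ≤ g x) (d : ℝ) (hd : 0 ≤ d) :
    ∫ x in (-1 : ℝ)..1, g (x + d) ≤ ∫ x in (-1 : ℝ)..1, g x := by
  have hi : ∀ a b, IntervalIntegrable g volume a b := fun a b => hg.intervalIntegrable a b
  rw [intervalIntegral.integral_comp_add_right]
  have h1 : (∫ x in (-1 : ℝ)..(-1 + d), g x) + ∫ x in (-1 + d)..(1 + d), g x =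
      ∫ x in (-1 : ℝ)..(1 + d), g x := intervalIntegral.integral_add_adjacent_intervals (hi _ _) (hi _ _)
  have h2 : (∫ x in (-1 : ℝ)..1, g x) + ∫ x in (1 : ℝ)..(1 + d), g x =
      ∫ x in (-1 : ℝ)..(1 + d), g x := intervalIntegral.integral_add_adjacent_intervals (hi _ _) (hi _ _)
  have h3 : ∫ x in (1 : ℝ)..(1 + d), g x = ∫ x in (0 : ℝ)..d, g (x + 1) := by
    rw [intervalIntegral.integral_comp_add_right]
    congr 1 <;> ring
  have h4 : ∫ x in (-1 : ℝ)..(-1 + d), g x = ∫ x in (0 : ℝ)..d, g (x + (-1)) := by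
    rw [intervalIntegral.integral_comp_add_right]
    congr 1 <;> ring
  have h5 : ∫ x in (0 : ℝ)..d, g (x + 1) ≤ ∫ x in (0 : ℝ)..d, g (x + (-1)) := by
    apply intervalIntegral.integral_mono_on hd
    · exact (hg.comp (continuous_id.add continuous_const)).intervalIntegrable _ _
    · exact (hg.comp (continuous_id.add continuous_const)).intervalIntegrable _ _
    · intro x hx
      apply hanti
      rw [abs_of_nonneg (show 0 ≤ x + 1 by linarith [hx.1])]
      rw [abs_le]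
      constructor <;> linarith [hx.1]
  linarith

theorem slice_le_pair_centre_j10559 (g : ℝ → ℝ) (hg : Continuous g)
    (hanti : ∀ x y, |x| ≤ |y| → g y ≤ g x) (d : ℝ) :
    ∫ x in (-1 : ℝ)..1, g (x + d) ≤ ∫ x in (-1 : ℝ)..1, g x := by
  rcases le_total 0 d with hd | hd
  · exact slice_le_pair_centre0_j10559 g hg hanti d hd
  · have heven : ∀ x, g (-x) = g x := fun x =>
      le_antisymm (hanti _ _ (by rw [abs_neg])) (hanti _ _ (by rw [abs_neg]))
    have h1 : ∫ x in (-1 : ℝ)..1, g (x + d) = ∫ x in (-1 : ℝ)..1, g (x + (-d)) := by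
      have h2 := intervalIntegral.integral_comp_neg (a := (-1 : ℝ)) (b := 1) (fun x => g (x + d))
      rw [neg_neg] at h2
      rw [← h2]
      refine intervalIntegral.integral_congr fun x _ => ?_
      show g (-x + d) = g (x + -d)
      rw [← heven (-x + d)]
      congr 1; ring
    rw [h1]
    exact slice_le_pair_centre0_j10559 g hg hanti (-d) (by linarith)

theorem slice_le_pair_one_j10559 (a b c : ℝ) (hb : b ≠ 0) :
    ∫ x, Real.exp (-(a * x + c) ^ 2 / (2 * b ^ 2)) * wr 1 x ≤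
      ∫ x in (-1 : ℝ)..1, Real.exp (-(a ^ 2 / b ^ 2) * x ^ 2 / 2) * Real.exp (-x ^ 2 / 2) := by
  rw [slice_le_pair_int_j10559]
  obtain ⟨β, hβ⟩ : ∃ β, β = a / b := ⟨_, rfl⟩
  obtain ⟨w, hw⟩ : ∃ w, w = c / b := ⟨_, rfl⟩
  have hA : 0 < 1 + β ^ 2 := by positivity
  have h1 : ∫ x in (-1 : ℝ)..1, Real.exp (-(a * x + c) ^ 2 / (2 * b ^ 2)) * Real.exp (-x ^ 2 / 2) ≤
      ∫ x in (-1 : ℝ)..1, Real.exp (-(1 + β ^ 2) * (x + β * w / (1 + β ^ 2)) ^ 2 / 2) := by
    apply intervalIntegral.integral_mono_on (by norm_num)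
    · exact Continuous.intervalIntegrable (by fun_prop) _ _
    · exact Continuous.intervalIntegrable (by fun_prop) _ _
    · intro x _
      rw [← Real.exp_add]
      apply Real.exp_le_exp.2
      have h2 : -(a * x + c) ^ 2 / (2 * b ^ 2) + -x ^ 2 / 2 =
          -(1 + β ^ 2) * (x + β * w / (1 + β ^ 2)) ^ 2 / 2 - w ^ 2 / (1 + β ^ 2) / 2 := by
        have h3 : -(a * x + c) ^ 2 / (2 * b ^ 2) = -(β * x + w) ^ 2 / 2 := by
          rw [hβ, hw]; field_simp
        rw [h3]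
        field_simp
        ring
      rw [h2]
      have h4 : 0 ≤ w ^ 2 / (1 + β ^ 2) / 2 := by positivity
      linarith
  refine h1.trans ?_
  refine (slice_le_pair_centre_j10559 (fun y => Real.exp (-(1 + β ^ 2) * y ^ 2 / 2)) (by fun_prop) ?_ _).trans ?_
  · intro x y hxy
    apply Real.exp_le_exp.2
    have : x ^ 2 ≤ y ^ 2 := sq_le_sq.2 hxy
    nlinarith
  · apply le_of_eq
    refine intervalIntegral.integral_congr fun x _ => ?_
    show Real.exp (-(1 + β ^ 2) * x ^ 2 / 2) = _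
    rw [← Real.exp_add, hβ]
    congr 1
    rw [div_pow]; ring

theorem slice_le_pair_main_j10559 {m : ℕ} (a : Fin (m + 1) → ℝ) (b : ℝ) (hb : b ≠ 0) (l0 : Fin (m + 1)) :
    ∫ x : Fin (m + 1) → ℝ, Real.exp (-(∑ i, a i * x i) ^ 2 / (2 * b ^ 2)) * ∏ i, wr 1 (x i) ≤
      Zr 1 ^ m * ∫ x in (-1 : ℝ)..1,
        Real.exp (-(a l0 ^ 2 / b ^ 2) * x ^ 2 / 2) * Real.exp (-x ^ 2 / 2) := by
  obtain ⟨K, hK⟩ : ∃ K, K = ∫ x in (-1 : ℝ)..1,
        Real.exp (-(a l0 ^ 2 / b ^ 2) * x ^ 2 / 2) * Real.exp (-x ^ 2 / 2) := ⟨_, rfl⟩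
  rw [← hK]
  have hprodint : ∀ k, Integrable (fun x : Fin k → ℝ => ∏ i, wr 1 (x i)) := fun k =>
    Integrable.fintype_prod (μ := fun _ : Fin k => (volume : Measure ℝ)) (fun _ => slice_le_pair_wr_int_j10559)
  have hΦ : Integrable (fun x : Fin (m + 1) → ℝ =>
      Real.exp (-(∑ i, a i * x i) ^ 2 / (2 * b ^ 2)) * ∏ i, wr 1 (x i)) := by
    refine (hprodint (m + 1)).bdd_mul (c := 1) ?_ ?_
    · exact (Continuous.aestronglyMeasurable (by fun_prop))
    · refine Filter.Eventually.of_forall fun x => ?_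
      rw [Real.norm_eq_abs, abs_of_pos (Real.exp_pos _)]
      apply Real.exp_le_one_iff.2
      rw [neg_div]
      have : 0 ≤ (∑ i, a i * x i) ^ 2 / (2 * b ^ 2) := by positivity
      linarith
  have hmp := (volume_preserving_piFinSuccAbove (fun _ : Fin (m + 1) => ℝ) l0).symm
  have h1 := hmp.integral_comp' (g := fun x : Fin (m + 1) → ℝ =>
      Real.exp (-(∑ i, a i * x i) ^ 2 / (2 * b ^ 2)) * ∏ i, wr 1 (x i))
  rw [← h1]
  have hΦ2 : Integrable (fun y : ℝ × (Fin m → ℝ) =>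
      (fun x : Fin (m + 1) → ℝ =>
      Real.exp (-(∑ i, a i * x i) ^ 2 / (2 * b ^ 2)) * ∏ i, wr 1 (x i))
      ((MeasurableEquiv.piFinSuccAbove (fun _ : Fin (m + 1) => ℝ) l0).symm y)) :=
    (hmp.integrable_comp_emb (MeasurableEquiv.measurableEmbedding _)).2 hΦ
  have h2 : ∀ y : ℝ × (Fin m → ℝ), (fun x : Fin (m + 1) → ℝ =>
      Real.exp (-(∑ i, a i * x i) ^ 2 / (2 * b ^ 2)) * ∏ i, wr 1 (x i))
      ((MeasurableEquiv.piFinSuccAbove (fun _ : Fin (m + 1) => ℝ) l0).symm y) =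
      (Real.exp (-(a l0 * y.1 + ∑ i, a (l0.succAbove i) * y.2 i) ^ 2 / (2 * b ^ 2)) * wr 1 y.1) *
        ∏ i, wr 1 (y.2 i) := by
    intro y
    simp only [MeasurableEquiv.piFinSuccAbove_symm_apply, Fin.insertNthEquiv, Equiv.coe_fn_mk]
    rw [Fin.sum_univ_succAbove _ l0, Fin.prod_univ_succAbove _ l0]
    simp only [Fin.insertNth_apply_same, Fin.insertNth_apply_succAbove]
    ring
  simp only [h2] at hΦ2 ⊢
  rw [Measure.volume_eq_prod] at hΦ2 ⊢
  rw [integral_prod_symm _ hΦ2]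
  have h3 : ∫ z : Fin m → ℝ, ∏ i, wr 1 (z i) = Zr 1 ^ m := by
    rw [integral_fintype_prod_volume_eq_pow (wr 1), Fintype.card_fin, slice_le_pair_Zr_j10559]
  rw [← h3, mul_comm _ K, ← integral_const_mul]
  refine integral_mono hΦ2.integral_prod_right ((hprodint m).const_mul K) fun z => ?_
  show ∫ x : ℝ, (Real.exp (-(a l0 * x + ∑ i, a (l0.succAbove i) * z i) ^ 2 / (2 * b ^ 2)) * wr 1 x) *
        ∏ i, wr 1 (z i) ≤ K * ∏ i, wr 1 (z i)
  rw [integral_mul_const]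
  refine mul_le_mul_of_nonneg_right ?_ (Finset.prod_nonneg fun i _ => slice_le_pair_wr_nonneg_j10559 _)
  rw [hK]
  exact slice_le_pair_one_j10559 (a l0) b _ hb

theorem slice_le_pair {m : ℕ} (θ : EuclideanSpace ℝ (Fin (m + 2))) (hθ : ‖θ‖ = 1)
    (j : Fin (m + 2)) (hj : θ j ≠ 0) (l : Fin (m + 2)) (hl : l ≠ j) :
    ∫ x : ((ℝ ∙ θ)ᗮ : Submodule ℝ (EuclideanSpace ℝ (Fin (m + 2)))),
      F 1 (x : EuclideanSpace ℝ (Fin (m + 2))) ≤ Zr 1 ^ m * ((1 / |θ j|) *
        ∫ x in (-1 : ℝ)..1, Real.exp (-(θ l ^ 2 / θ j ^ 2) * x ^ 2 / 2) * Real.exp (-x ^ 2 / 2)) := by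
  obtain ⟨l0, rfl⟩ := Fin.exists_succAbove_eq hl
  refine (slice_le_integral (k := m + 1) one_pos θ hθ j hj).trans ?_
  have h1 := slice_le_pair_main_j10559 (fun i => θ (j.succAbove i)) (θ j) hj l0
  have h2 : 0 ≤ 1 / |θ j| := by positivity
  calc (1 / |θ j|) * ∫ x : Fin (m + 1) → ℝ,
        Real.exp (-(∑ i, θ (j.succAbove i) * x i) ^ 2 / (2 * θ j ^ 2)) *
          ∏ i, wr 1 (x i) ≤ (1 / |θ j|) * (Zr 1 ^ m * ∫ x in (-1 : ℝ)..1,
        Real.exp (-(θ (j.succAbove l0) ^ 2 / θ j ^ 2) * x ^ 2 / 2) * Real.exp (-x ^ 2 / 2)) :=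
        mul_le_mul_of_nonneg_left h1 h2
    _ = _ := by ring



end Pool.Agent.Helper82.GC
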