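import Pool.Agent.Helper82.GC.Def2
import Pool.Agent.Helper82.GC.E1

set_option autoImplicit false

open MeasureTheory Set

namespace Pool.Agent.Helper82.GC


/-- polynomial approximation of `exp (-x^2)` -/
noncomputable def PP_j10561 (c x : ℝ) : ℝ :=
  1 - x ^ 2 + x ^ 4 / 2 - x ^ 6 / 6 + x ^ 8 / 24 - x ^ 10 / 120 + x ^ 12 / 720 - x ^ 14 / 5040 + c * x ^ 16

/-- its primitive -/
noncomputable def PA_j10561 (c x : ℝ) : ℝ :=
  1 * x ^ 1 + (-1/3) * x ^ 3 + (1/10) * x ^ 5 + (-1/42) * x ^ 7 + (1/216) * x ^ 9 + (-1/1320) * x ^ 11 +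
    (1/9360) * x ^ 13 + (-1/75600) * x ^ 15 + (c/17) * x ^ 17

theorem PA_deriv_j10561 (c x : ℝ) : HasDerivAt (PA_j10561 c) (PP_j10561 c x) x := by
  have h : ∀ (n : ℕ) (a : ℝ), HasDerivAt (fun x : ℝ => a * x ^ n) (a * (n * x ^ (n - 1))) x :=
    fun n a => (hasDerivAt_pow n x).const_mul a
  have h1 := ((((((((h 1 1).add (h 3 (-1/3))).add (h 5 (1/10))).add (h 7 (-1/42))).add (h 9 (1/216))).add
    (h 11 (-1/1320))).add (h 13 (1/9360))).add (h 15 (-1/75600))).add (h 17 (c/17))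
  have h2 : HasDerivAt (PA_j10561 c) _ x := h1
  refine h2.congr_deriv ?_
  unfold PP_j10561
  norm_num
  ring

theorem PP_int_j10561 (c : ℝ) : ∫ x in (-1:ℝ)..1, PP_j10561 c x =
    2 * (1 - 1/3 + 1/10 - 1/42 + 1/216 - 1/1320 + 1/9360 - 1/75600 + c/17) := by
  have hc : Continuous (PP_j10561 c) := by unfold PP_j10561; fun_prop
  rw [intervalIntegral.integral_eq_sub_of_hasDerivAt (fun x _ => PA_deriv_j10561 c x) (hc.intervalIntegrable _ _)]
  unfold PA_j10561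
  norm_num
  ring

theorem exp_PP_j10561 {x : ℝ} (hx : x ∈ Icc (-1:ℝ) 1) :
    PP_j10561 (-(1/35840)) x ≤ Real.exp (-x ^ 2) ∧ Real.exp (-x ^ 2) ≤ PP_j10561 (1/35840) x := by
  have hx2 : x ^ 2 ≤ 1 := by nlinarith [hx.1, hx.2]
  have hx0 : 0 ≤ x ^ 2 := sq_nonneg x
  have habs : |-x ^ 2| = x ^ 2 := by rw [abs_neg, abs_of_nonneg hx0]
  have h := Real.exp_bound (x := -x ^ 2) (by rw [habs]; exact hx2) (n := 8) (by norm_num)
  rw [habs] at h
  simp only [Finset.sum_range_succ, Finset.sum_range_zero, Nat.factorial] at h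
  norm_num at h
  rw [abs_le] at h
  unfold PP_j10561
  constructor
  · nlinarith [h.1]
  · nlinarith [h.2]

theorem F1_bounds_j10561 : 1.4936 < (∫ x in (-1 : ℝ)..1, Real.exp (-x ^ 2)) ∧
    (∫ x in (-1 : ℝ)..1, Real.exp (-x ^ 2)) < 1.4937 := by
  have hc : ∀ c, Continuous (PP_j10561 c) := fun c => by unfold PP_j10561; fun_prop
  have he : Continuous (fun x : ℝ => Real.exp (-x ^ 2)) := by fun_prop
  have h1 : ∫ x in (-1 : ℝ)..1, PP_j10561 (-(1/35840)) x ≤ ∫ x in (-1 : ℝ)..1, Real.exp (-x ^ 2) :=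
    intervalIntegral.integral_mono_on (by norm_num) ((hc _).intervalIntegrable _ _)
      (he.intervalIntegrable _ _) (fun x hx => (exp_PP_j10561 hx).1)
  have h2 : ∫ x in (-1 : ℝ)..1, Real.exp (-x ^ 2) ≤ ∫ x in (-1 : ℝ)..1, PP_j10561 (1/35840) x :=
    intervalIntegral.integral_mono_on (by norm_num) (he.intervalIntegrable _ _)
      ((hc _).intervalIntegrable _ _) (fun x hx => (exp_PP_j10561 hx).2)
  rw [PP_int_j10561] at h1 h2
  constructor
  · refine lt_of_lt_of_le ?_ h1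
    norm_num
  · refine lt_of_le_of_lt h2 ?_
    norm_num

theorem M2_eq_j10561 : ∫ x in (-1 : ℝ)..1, x ^ 2 * Real.exp (-x ^ 2) =
    (∫ x in (-1 : ℝ)..1, Real.exp (-x ^ 2)) / 2 - Real.exp (-1) := by
  have he : Continuous (fun x : ℝ => Real.exp (-x ^ 2)) := by fun_prop
  have he2 : Continuous (fun x : ℝ => x ^ 2 * Real.exp (-x ^ 2)) := by fun_prop
  have hd : ∀ x : ℝ, HasDerivAt (fun x : ℝ => -(x / 2) * Real.exp (-x ^ 2))
      (x ^ 2 * Real.exp (-x ^ 2) - (1/2) * Real.exp (-x ^ 2)) x := by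
    intro x
    have h1 : HasDerivAt (fun x : ℝ => -(x / 2)) (-(1 / 2)) x := ((hasDerivAt_id x).div_const 2).neg
    have h2 : HasDerivAt (fun x : ℝ => Real.exp (-x ^ 2)) (Real.exp (-x ^ 2) * (-(2 * x))) x := by
      have h3 : HasDerivAt (fun x : ℝ => -x ^ 2) (-(2 * x)) x := by
        have h30 : HasDerivAt (fun x : ℝ => -x ^ 2) _ x := (hasDerivAt_pow 2 x).neg
        exact h30.congr_deriv (by norm_num)
      exact h3.exp
    have h4 : HasDerivAt (fun x : ℝ => -(x / 2) * Real.exp (-x ^ 2))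
      (-(1 / 2) * Real.exp (-x ^ 2) + -(x / 2) * (Real.exp (-x ^ 2) * (-(2 * x)))) x := h1.mul h2
    refine h4.congr_deriv ?_
    ring
  have hc3 : Continuous (fun x : ℝ => (1/2) * Real.exp (-x ^ 2)) := by fun_prop
  have h5 := intervalIntegral.integral_eq_sub_of_hasDerivAt (a := -1) (b := 1) (fun x _ => hd x)
    ((he2.sub hc3).intervalIntegrable _ _)
  rw [intervalIntegral.integral_sub (he2.intervalIntegrable _ _)
    (hc3.intervalIntegrable _ _), intervalIntegral.integral_const_mul] at h5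
  norm_num at h5
  linarith

theorem pair_num (s1 s2 : ℝ) (h0 : 1 / 2 < s1) (h1 : s1 ≤ 0.527)
    (h2 : 1 / 2 - 2.6 * (s1 - 1 / 2) ≤ s2) :
    1 / Real.sqrt s1 * (∫ x in (-1 : ℝ)..1, Real.exp (-(s2 / s1) * x ^ 2 / 2) *
      Real.exp (-x ^ 2 / 2)) < Real.sqrt 2 * ∫ x in (-1 : ℝ)..1, Real.exp (-x ^ 2) := by
  have hs : 0 < s1 := by linarith
  set t : ℝ := (s1 - 1 / 2) / s1 with ht
  have ht0 : 0 < t := div_pos (by linarith) hs
  have ht1 : t ≤ 0.0513 := by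
    rw [ht, div_le_iff₀ hs]
    norm_num at h1 ⊢
    linarith
  have hts : t * s1 = s1 - 1 / 2 := by rw [ht]; field_simp
  obtain ⟨hF1, hF2⟩ := F1_bounds_j10561
  set F1 := ∫ x in (-1 : ℝ)..1, Real.exp (-x ^ 2) with hF1d
  have he : Continuous (fun x : ℝ => Real.exp (-x ^ 2)) := by fun_prop
  have he2 : Continuous (fun x : ℝ => x ^ 2 * Real.exp (-x ^ 2)) := by fun_prop
  have hE := Real.exp_neg_one_gt_d9
  set κ : ℝ := 1.8 * t * (1 + 1.8 * t) with hκ
  have hκ0 : 0 < κ := by positivity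
  have he3 : Continuous (fun x : ℝ => κ * (x ^ 2 * Real.exp (-x ^ 2))) := by fun_prop
  have hA : (∫ x in (-1 : ℝ)..1, Real.exp (-(s2 / s1) * x ^ 2 / 2) * Real.exp (-x ^ 2 / 2)) ≤
      F1 + κ * (F1 / 2 - Real.exp (-1)) := by
    rw [← M2_eq_j10561, ← intervalIntegral.integral_const_mul, hF1d,
      ← intervalIntegral.integral_add (he.intervalIntegrable _ _)
        (he3.intervalIntegrable _ _)]
    apply intervalIntegral.integral_mono_on (by norm_num)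
    · apply Continuous.intervalIntegrable
      fun_prop
    · apply Continuous.intervalIntegrable
      fun_prop
    · intro x hx
      have hx2 : x ^ 2 ≤ 1 := by nlinarith [hx.1, hx.2]
      have hx0 : 0 ≤ x ^ 2 := sq_nonneg x
      have hδ : (1 - s2 / s1) / 2 ≤ 1.8 * t := by
        have : 1 - s2 / s1 ≤ 3.6 * t := by
          rw [ht, ← mul_div_assoc, le_div_iff₀ hs, sub_mul, div_mul_cancel₀ _ hs.ne']
          norm_num at h2 ⊢
          linarith
        norm_num at this ⊢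
        linarith
      have hu0 : 0 ≤ 1.8 * t * x ^ 2 := by positivity
      have hu1 : 1.8 * t * x ^ 2 ≤ 1 := by
        have : 1.8 * t * x ^ 2 ≤ 1.8 * t * 1 := by gcongr
        norm_num at this ht1 ⊢
        linarith
      have hexp : Real.exp (1.8 * t * x ^ 2) ≤ 1 + 1.8 * t * x ^ 2 + (1.8 * t * x ^ 2) ^ 2 := by
        have := Real.abs_exp_sub_one_sub_id_le (x := 1.8 * t * x ^ 2) (by rw [abs_of_nonneg hu0]; exact hu1)
        have := (abs_le.1 this).2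
        linarith
      have hle : 1 + 1.8 * t * x ^ 2 + (1.8 * t * x ^ 2) ^ 2 ≤ 1 + κ * x ^ 2 := by
        have h5 : (1.8 * t * x ^ 2) ^ 2 ≤ (1.8 * t) ^ 2 * x ^ 2 := by
          rw [mul_pow]
          apply mul_le_mul_of_nonneg_left _ (by positivity)
          nlinarith
        rw [hκ]
        nlinarith
      calc Real.exp (-(s2 / s1) * x ^ 2 / 2) * Real.exp (-x ^ 2 / 2) =
          Real.exp (-x ^ 2) * Real.exp ((1 - s2 / s1) / 2 * x ^ 2) := by
            rw [← Real.exp_add, ← Real.exp_add]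
            congr 1
            ring
        _ ≤ Real.exp (-x ^ 2) * Real.exp (1.8 * t * x ^ 2) := by
            gcongr
        _ ≤ Real.exp (-x ^ 2) * (1 + κ * x ^ 2) := by
            gcongr
            exact hexp.trans hle
        _ = _ := by ring
  set A := ∫ x in (-1 : ℝ)..1, Real.exp (-(s2 / s1) * x ^ 2 / 2) * Real.exp (-x ^ 2 / 2) with hAd
  have hM : F1 / 2 - Real.exp (-1) ≤ 0.2538 * F1 := by
    norm_num at hF2 hE ⊢
    linarith
  have hA2 : A ≤ F1 * (1 + 0.4991 * t) := by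
    have h6 : κ * (F1 / 2 - Real.exp (-1)) ≤ κ * (0.2538 * F1) := by gcongr
    have h7 : κ * 0.2538 ≤ 0.4991 * t := by
      rw [hκ]
      norm_num at ht1 ⊢
      nlinarith
    have hF0 : 0 < F1 := by norm_num at hF1; linarith
    calc A ≤ F1 + κ * (F1 / 2 - Real.exp (-1)) := hA
      _ ≤ F1 + κ * (0.2538 * F1) := by linarith
      _ = F1 * (1 + κ * 0.2538) := by ring
      _ ≤ F1 * (1 + 0.4991 * t) := by gcongr
  have hF0 : 0 < F1 := by norm_num at hF1; linarith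
  have h2s : 2 * s1 * (1 - t) = 1 := by linarith
  have h1t : 0 < 1 - t := by norm_num at ht1; linarith
  have hsq : (1 + 0.4991 * t) ^ 2 < 2 * s1 := by
    have h8 : (1 + 0.4991 * t) ^ 2 * (1 - t) < 1 := by
      norm_num
      nlinarith [mul_pos ht0 ht0, mul_pos (mul_pos ht0 ht0) ht0]
    have h9 : (1 + 0.4991 * t) ^ 2 * (1 - t) < 2 * s1 * (1 - t) := by rw [h2s]; exact h8
    exact lt_of_mul_lt_mul_right h9 h1t.le
  have hsqrt : 1 + 0.4991 * t < Real.sqrt (2 * s1) := (Real.lt_sqrt (by positivity)).2 hsq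
  have hss : Real.sqrt (2 * s1) = Real.sqrt 2 * Real.sqrt s1 := Real.sqrt_mul (by norm_num) _
  have hs1 : 0 < Real.sqrt s1 := Real.sqrt_pos.2 hs
  rw [one_div, inv_mul_lt_iff₀ hs1]
  calc A ≤ F1 * (1 + 0.4991 * t) := hA2
    _ < F1 * Real.sqrt (2 * s1) := by gcongr
    _ = Real.sqrt s1 * (Real.sqrt 2 * F1) := by rw [hss]; ring

theorem moment_num (s1 : ℝ) (h0 : 0.527 ≤ s1) (h1 : s1 ≤ 1) :
    1 / Real.sqrt s1 * (1 - vr 1 * ((1 - s1) / s1) / 2 + 3 * vr 1 ^ 2 * ((1 - s1) / s1) ^ 2 / 8) <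
      Real.sqrt 2 * (∫ x in (-1 : ℝ)..1, Real.exp (-x ^ 2)) / Zr 1 := by
  obtain ⟨hF1, hF2⟩ := F1_bounds_j10561
  set F1 := ∫ x in (-1 : ℝ)..1, Real.exp (-x ^ 2) with hF1d
  obtain ⟨hv1, hv2⟩ := vr_one_bounds
  obtain ⟨hZ1, hZ2⟩ := Zr_one_bounds
  set v := vr 1 with hv
  set Z := Zr 1 with hZ
  have hs : 0 < s1 := by norm_num at h0; linarith
  set ρ : ℝ := (1 - s1) / s1 with hρ
  have hρ0 : 0 ≤ ρ := div_nonneg (by linarith) hs.le
  have hρ1 : ρ ≤ 0.898 := by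
    rw [hρ, div_le_iff₀ hs]
    norm_num at h0 ⊢
    linarith
  have h1ρ : (1 + ρ) * s1 = 1 := by rw [hρ]; field_simp; ring
  have hZ0 : 0 < Z := by norm_num at hZ1; linarith
  have hF0 : 0 < F1 := by norm_num at hF1; linarith
  have hs1 : 0 < Real.sqrt s1 := Real.sqrt_pos.2 hs
  set h : ℝ := 1 - v * ρ / 2 + 3 * v ^ 2 * ρ ^ 2 / 8 with hh
  have hvρ0 : 0 ≤ v * ρ := mul_nonneg (by norm_num at hv1; linarith) hρ0
  have hvρl : 0.29112 * ρ ≤ v * ρ := by gcongr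
  have hvρu : v * ρ ≤ 0.2615 := by
    calc v * ρ ≤ 0.29113 * 0.898 := by gcongr
      _ ≤ 0.2615 := by norm_num
  have hhu : h ≤ 1 - 0.117 * ρ := by
    have e1 : h = 1 - (v * ρ) / 2 + 3 / 8 * (v * ρ) ^ 2 := by rw [hh]; ring
    have e2 : h ≤ 1 - (0.29112 * ρ) / 2 + 3 / 8 * (0.29112 * ρ) ^ 2 := by
      rw [e1]
      norm_num at hvρl hvρu hρ1 ⊢
      nlinarith [mul_nonneg (sub_nonneg.2 hvρl) (sub_nonneg.2 hvρu)]
    refine e2.trans ?_
    norm_num at hρ1 ⊢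
    nlinarith [mul_nonneg hρ0 (sub_nonneg.2 hρ1)]
  have hh0 : 0 ≤ h := by
    have e1 : h = 1 - (v * ρ) / 2 + 3 / 8 * (v * ρ) ^ 2 := by rw [hh]; ring
    rw [e1]
    norm_num at hvρu ⊢
    nlinarith [sq_nonneg (v * ρ)]
  have hsq : (1 + ρ) * h ^ 2 ≤ 1.521 := by
    have e3 : (1 + ρ) * h ^ 2 ≤ (1 + ρ) * (1 - 0.117 * ρ) ^ 2 := by gcongr
    refine e3.trans ?_
    norm_num at hρ1 ⊢
    nlinarith [mul_nonneg hρ0 (sub_nonneg.2 hρ1), mul_nonneg (mul_nonneg hρ0 hρ0) (sub_nonneg.2 hρ1)]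
  have hlhs : 1 / Real.sqrt s1 * h = Real.sqrt ((1 + ρ) * h ^ 2) := by
    have e4 : 1 + ρ = 1 / s1 := by field_simp; linarith
    rw [e4, Real.sqrt_mul (by positivity), Real.sqrt_sq hh0, Real.sqrt_div (by norm_num), Real.sqrt_one]
  have hrhs : Real.sqrt 2 * F1 / Z = Real.sqrt (2 * (F1 / Z) ^ 2) := by
    rw [Real.sqrt_mul (by norm_num), Real.sqrt_sq (by positivity)]
    ring
  rw [hlhs, hrhs]
  apply Real.sqrt_lt_sqrt (by positivity)
  refine lt_of_le_of_lt hsq ?_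
  have hq : 1.4936 / 1.711250 < F1 / Z := by
    rw [div_lt_div_iff₀ (by norm_num) hZ0]
    norm_num at hF1 hZ2 ⊢
    nlinarith
  calc (1.521 : ℝ) < 2 * (1.4936 / 1.711250) ^ 2 := by norm_num
    _ < 2 * (F1 / Z) ^ 2 := by gcongr



end Pool.Agent.Helper82.GC
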