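import Pool.Agent.Helper82.GC.J9261

set_option autoImplicit false

open MeasureTheory Set

namespace Pool.Agent.Helper82.GC


theorem phi_bounds (z : ℝ) (h0 : 0 ≤ z) (h1 : z ≤ 2.9) : 0.17 < phi 1 z ∧ phi 1 z ≤ 1 := by
  constructor
  · have h2 : phi 1 2.9 ≤ phi 1 z := phi_antitone
      (Set.mem_Icc.2 ⟨h0, h1.trans (by norm_num)⟩)
      (Set.mem_Icc.2 ⟨by norm_num, by norm_num⟩) h1
    refine lt_of_lt_of_le ?_ h2
    have h3 := (abs_le.1 (phi_taylor 5 2.9)).1
    obtain ⟨a1, b1⟩ := mom_1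
    obtain ⟨a2, b2⟩ := mom_2
    obtain ⟨a3, b3⟩ := mom_3
    obtain ⟨a4, b4⟩ := mom_4
    obtain ⟨a5, b5⟩ := mom_5
    simp only [Finset.sum_range_succ, Finset.sum_range_zero, Nat.factorial, mom_zero] at h3
    norm_num at h3 a1 b1 a2 b2 a3 b3 a4 b4 a5 b5 ⊢
    linarith
  · exact (abs_le.1 (abs_phi_le_one one_pos z)).2
theorem phi_contN : Continuous (phi 1) := by
  rw [continuous_iff_continuousAt]
  exact fun z => (phi_deriv z).continuousAt
theorem psi_continuous : Continuous (psi 1) := by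
  rw [continuous_iff_continuousAt]
  exact fun z => (psi_deriv z).continuousAt



end Pool.Agent.Helper82.GC
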