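import Pool.Agent.Helper82.GC.J9285
import Pool.Agent.Helper82.GC.J9429

set_option autoImplicit false

open MeasureTheory Set

namespace Pool.Agent.Helper82.GC


/-- lower bounds for the moments in units of `10⁻¹¹` -/
def mL_j10088 : ℕ → ℕ
  | 0 => 100000000000
  | 1 => 29112509477
  | 2 => 16450037909
  | 3 => 11362699022
  | 4 => 8651402637
  | 5 => 6975133213
  | 6 => 5838974823
  | 7 => 5019182188
  | 8 => 4400242309
  | 9 => 3916628740
  | 10 => 3528455553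
  | 11 => 3210076105
  | 12 => 2944259914
  | 13 => 2719007327
  | 14 => 2525707318
  | 15 => 2358021713
  | 16 => 2211182587
  | _ => 0

theorem mom_bd_aux_j10088 (m : ℝ) (a : ℕ) (h1 : (a : ℝ) / 10 ^ 11 ≤ m) (h2 : m ≤ ((a : ℝ) + 1) / 10 ^ 11) :
    (a : ℝ) ≤ m * 10 ^ 11 ∧ m * 10 ^ 11 ≤ a + 1 :=
  ⟨(div_le_iff₀ (by norm_num)).1 h1, (le_div_iff₀ (by norm_num)).1 h2⟩

theorem mom_bd_j10088 (k : ℕ) (hk : k ≤ 16) :
    (mL_j10088 k : ℝ) ≤ mom k * 10 ^ 11 ∧ mom k * 10 ^ 11 ≤ mL_j10088 k + 1 := by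
  match k, hk with
  | 0, _ => exact mom_bd_aux_j10088 _ _ (by rw [mom_zero]; norm_num [mL_j10088]) (by rw [mom_zero]; norm_num [mL_j10088])
  | 1, _ => exact mom_bd_aux_j10088 _ _ (le_trans (by norm_num [mL_j10088]) mom_1.1.le) (le_trans mom_1.2.le (by norm_num [mL_j10088]))
  | 2, _ => exact mom_bd_aux_j10088 _ _ (le_trans (by norm_num [mL_j10088]) mom_2.1.le) (le_trans mom_2.2.le (by norm_num [mL_j10088]))
  | 3, _ => exact mom_bd_aux_j10088 _ _ (le_trans (by norm_num [mL_j10088]) mom_3.1.le) (le_trans mom_3.2.le (by norm_num [mL_j10088]))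
  | 4, _ => exact mom_bd_aux_j10088 _ _ (le_trans (by norm_num [mL_j10088]) mom_4.1.le) (le_trans mom_4.2.le (by norm_num [mL_j10088]))
  | 5, _ => exact mom_bd_aux_j10088 _ _ (le_trans (by norm_num [mL_j10088]) mom_5.1.le) (le_trans mom_5.2.le (by norm_num [mL_j10088]))
  | 6, _ => exact mom_bd_aux_j10088 _ _ (le_trans (by norm_num [mL_j10088]) mom_6.1.le) (le_trans mom_6.2.le (by norm_num [mL_j10088]))
  | 7, _ => exact mom_bd_aux_j10088 _ _ (le_trans (by norm_num [mL_j10088]) mom_7.1.le) (le_trans mom_7.2.le (by norm_num [mL_j10088]))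
  | 8, _ => exact mom_bd_aux_j10088 _ _ (le_trans (by norm_num [mL_j10088]) mom_8.1.le) (le_trans mom_8.2.le (by norm_num [mL_j10088]))
  | 9, _ => exact mom_bd_aux_j10088 _ _ (le_trans (by norm_num [mL_j10088]) mom_9.1.le) (le_trans mom_9.2.le (by norm_num [mL_j10088]))
  | 10, _ => exact mom_bd_aux_j10088 _ _ (le_trans (by norm_num [mL_j10088]) mom_10.1.le) (le_trans mom_10.2.le (by norm_num [mL_j10088]))
  | 11, _ => exact mom_bd_aux_j10088 _ _ (le_trans (by norm_num [mL_j10088]) mom_11.1.le) (le_trans mom_11.2.le (by norm_num [mL_j10088]))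
  | 12, _ => exact mom_bd_aux_j10088 _ _ (le_trans (by norm_num [mL_j10088]) mom_12.1.le) (le_trans mom_12.2.le (by norm_num [mL_j10088]))
  | 13, _ => exact mom_bd_aux_j10088 _ _ (le_trans (by norm_num [mL_j10088]) mom_13.1.le) (le_trans mom_13.2.le (by norm_num [mL_j10088]))
  | 14, _ => exact mom_bd_aux_j10088 _ _ (le_trans (by norm_num [mL_j10088]) mom_14.1.le) (le_trans mom_14.2.le (by norm_num [mL_j10088]))
  | 15, _ => exact mom_bd_aux_j10088 _ _ (le_trans (by norm_num [mL_j10088]) mom_15.1.le) (le_trans mom_15.2.le (by norm_num [mL_j10088]))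
  | 16, _ => exact mom_bd_aux_j10088 _ _ (le_trans (by norm_num [mL_j10088]) mom_16.1.le) (le_trans mom_16.2.le (by norm_num [mL_j10088]))
  | k + 17, hk => exact absurd hk (by omega)

/-- even part -/
def evp_j10088 (N : ℕ) (l w : ℕ → ℕ) : ℕ := ∑ k ∈ Finset.range N, if k % 2 = 0 then l k * w k else 0
/-- odd part -/
def odp_j10088 (N : ℕ) (l w : ℕ → ℕ) : ℕ := ∑ k ∈ Finset.range N, if k % 2 = 0 then 0 else l k * w k

theorem alt_lo_j10088 (N : ℕ) (c : ℕ → ℝ) (l w : ℕ → ℕ) (D : ℕ) (hD : 0 < D)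
    (h : ∀ k ≤ N, (l k : ℝ) ≤ c k * 10 ^ 11 ∧ c k * 10 ^ 11 ≤ l k + 1) (x : ℝ)
    (hx : |x - ∑ k ∈ Finset.range N, (-1) ^ k * c k * ((w k : ℝ) / D)| ≤ c N * ((w N : ℝ) / D)) :
    (evp_j10088 N l w : ℝ) ≤ x * (10 ^ 11 * D) + odp_j10088 N (fun k => l k + 1) w + (((l N + 1) * w N : ℕ) : ℝ) ∧
      x * (10 ^ 11 * D) + odp_j10088 N l w ≤ evp_j10088 N (fun k => l k + 1) w + (((l N + 1) * w N : ℕ) : ℝ) := by
  have hD' : (0 : ℝ) < D := by exact_mod_cast hD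
  have hS : (0 : ℝ) < 10 ^ 11 * D := by positivity
  obtain ⟨hx1, hx2⟩ := abs_le.1 hx
  -- remainder
  have hR : c N * ((w N : ℝ) / D) * (10 ^ 11 * D) ≤ (((l N + 1) * w N : ℕ) : ℝ) := by
    have e : c N * ((w N : ℝ) / D) * (10 ^ 11 * D) = (c N * 10 ^ 11) * w N := by
      field_simp
    rw [e]
    push_cast
    exact mul_le_mul_of_nonneg_right (h N le_rfl).2 (Nat.cast_nonneg _)
  have hs : ∀ k, (-1 : ℝ) ^ k * c k * ((w k : ℝ) / D) * (10 ^ 11 * D) =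
      (-1) ^ k * ((c k * 10 ^ 11) * w k) := by
    intro k
    field_simp
  have hsum : (∑ k ∈ Finset.range N, (-1 : ℝ) ^ k * c k * ((w k : ℝ) / D)) * (10 ^ 11 * D) =
      ∑ k ∈ Finset.range N, (-1 : ℝ) ^ k * ((c k * 10 ^ 11) * w k) := by
    rw [Finset.sum_mul]
    exact Finset.sum_congr rfl fun k _ => hs k
  have hpar : ∀ k : ℕ, (k % 2 = 0 ∧ (-1 : ℝ) ^ k = 1) ∨ (¬ k % 2 = 0 ∧ (-1 : ℝ) ^ k = -1) := by
    intro k
    rcases Nat.even_or_odd k with hk | hk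
    · exact Or.inl ⟨Nat.even_iff.1 hk, hk.neg_one_pow⟩
    · exact Or.inr ⟨by rw [Nat.odd_iff.1 hk]; decide, hk.neg_one_pow⟩
  have hlo : (evp_j10088 N l w : ℝ) ≤ (∑ k ∈ Finset.range N, (-1 : ℝ) ^ k * ((c k * 10 ^ 11) * w k)) +
      odp_j10088 N (fun k => l k + 1) w := by
    unfold evp_j10088 odp_j10088
    push_cast
    rw [← Finset.sum_add_distrib]
    refine Finset.sum_le_sum fun k hk => ?_
    have hk' : k ≤ N := (Finset.mem_range.1 hk).le
    have hw : (0 : ℝ) ≤ w k := Nat.cast_nonneg _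
    rcases hpar k with ⟨h1, h2⟩ | ⟨h1, h2⟩
    · rw [if_pos h1, if_pos h1, h2, one_mul, add_zero]
      exact mul_le_mul_of_nonneg_right (h k hk').1 hw
    · rw [if_neg h1, if_neg h1, h2]
      have := mul_le_mul_of_nonneg_right (h k hk').2 hw
      linarith only [this]
  have hhi : (∑ k ∈ Finset.range N, (-1 : ℝ) ^ k * ((c k * 10 ^ 11) * w k)) +
      ((odp_j10088 N l w : ℕ) : ℝ) ≤ ((evp_j10088 N (fun k => l k + 1) w : ℕ) : ℝ) := by
    unfold evp_j10088 odp_j10088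
    push_cast
    rw [← Finset.sum_add_distrib]
    refine Finset.sum_le_sum fun k hk => ?_
    have hk' : k ≤ N := (Finset.mem_range.1 hk).le
    have hw : (0 : ℝ) ≤ w k := Nat.cast_nonneg _
    rcases hpar k with ⟨h1, h2⟩ | ⟨h1, h2⟩
    · rw [if_pos h1, if_pos h1, h2, one_mul, add_zero]
      exact mul_le_mul_of_nonneg_right (h k hk').2 hw
    · rw [if_neg h1, if_neg h1, h2]
      have := mul_le_mul_of_nonneg_right (h k hk').1 hw
      linarith only [this]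
  have h1 := mul_le_mul_of_nonneg_right hx1 hS.le
  have h2 := mul_le_mul_of_nonneg_right hx2 hS.le
  rw [sub_mul, hsum] at h1 h2
  rw [neg_mul] at h1
  have aux1 : ∀ (e s o xs r R : ℝ), e ≤ s + o → -r ≤ xs - s → r ≤ R → e ≤ xs + o + R := by
    intro e s o xs r R h1 h2 h3
    linarith only [h1, h2, h3]
  have aux2 : ∀ (e s o xs r R : ℝ), s + o ≤ e → xs - s ≤ r → r ≤ R → xs + o ≤ e + R := by
    intro e s o xs r R h1 h2 h3
    linarith only [h1, h2, h3]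
  exact ⟨aux1 _ _ _ _ _ _ hlo h1 hR, aux2 _ _ _ _ _ _ hhi h2 hR⟩

/-- weights for `phi` -/
def wphi_j10088 (p k : ℕ) : ℕ := p ^ (2 * k) * 8 ^ (32 - 2 * k) * (Nat.factorial 32 / Nat.factorial (2 * k))
/-- weights for `psi` -/
def wpsi_j10088 (p k : ℕ) : ℕ :=
  p ^ (2 * k) * 8 ^ (30 - 2 * k) * (Nat.factorial 31 / Nat.factorial (2 * k + 1))

theorem w_aux_j10088 (p k M K F : ℕ) (hk : 2 * k ≤ M) (hF : F ≤ K) :
    ((p ^ (2 * k) * 8 ^ (M - 2 * k) * (Nat.factorial K / Nat.factorial F) : ℕ) : ℝ) /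
      ((8 ^ M * Nat.factorial K : ℕ) : ℝ) = ((p : ℝ) / 8) ^ (2 * k) / (Nat.factorial F) := by
  have h1 : ((Nat.factorial K / Nat.factorial F : ℕ) : ℝ) = Nat.factorial K / Nat.factorial F :=
    Nat.cast_div (Nat.factorial_dvd_factorial hF) (by exact_mod_cast Nat.factorial_ne_zero F)
  have h2 : (8 : ℝ) ^ (M - 2 * k) = 8 ^ M / 8 ^ (2 * k) := by
    rw [eq_div_iff (by positivity), ← pow_add, Nat.sub_add_cancel hk]
  have h3 : (Nat.factorial K : ℝ) ≠ 0 := by exact_mod_cast Nat.factorial_ne_zero K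
  have h4 : (Nat.factorial F : ℝ) ≠ 0 := by exact_mod_cast Nat.factorial_ne_zero F
  rw [Nat.cast_mul, Nat.cast_mul, Nat.cast_mul, h1, Nat.cast_pow, Nat.cast_pow, Nat.cast_pow,
    Nat.cast_ofNat, h2, div_pow]
  field_simp

theorem phi_key_j10088 (p : ℕ) :
    (evp_j10088 16 mL_j10088 (wphi_j10088 p) : ℝ) ≤ phi 1 ((p : ℝ) / 8) * (10 ^ 11 * (8 ^ 32 * Nat.factorial 32 : ℕ)) +
        odp_j10088 16 (fun k => mL_j10088 k + 1) (wphi_j10088 p) + (((mL_j10088 16 + 1) * wphi_j10088 p 16 : ℕ) : ℝ) ∧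
      phi 1 ((p : ℝ) / 8) * (10 ^ 11 * (8 ^ 32 * Nat.factorial 32 : ℕ)) + odp_j10088 16 mL_j10088 (wphi_j10088 p) ≤
        evp_j10088 16 (fun k => mL_j10088 k + 1) (wphi_j10088 p) + (((mL_j10088 16 + 1) * wphi_j10088 p 16 : ℕ) : ℝ) := by
  refine alt_lo_j10088 16 mom mL_j10088 (wphi_j10088 p) _ (by positivity) mom_bd_j10088 _ ?_
  have h := phi_taylor 16 ((p : ℝ) / 8)
  have hw : ∀ k ≤ 16, ((wphi_j10088 p k : ℕ) : ℝ) / ((8 ^ 32 * Nat.factorial 32 : ℕ) : ℝ) =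
      ((p : ℝ) / 8) ^ (2 * k) / (Nat.factorial (2 * k)) := fun k hk =>
    w_aux_j10088 p k 32 32 (2 * k) (by omega) (by omega)
  rw [hw 16 le_rfl]
  have e : ∑ k ∈ Finset.range 16, (-1 : ℝ) ^ k * mom k *
      (((wphi_j10088 p k : ℕ) : ℝ) / ((8 ^ 32 * Nat.factorial 32 : ℕ) : ℝ)) =
      ∑ k ∈ Finset.range 16, (-1) ^ k * mom k * ((p : ℝ) / 8) ^ (2 * k) / (Nat.factorial (2 * k)) :=
    Finset.sum_congr rfl fun k hk => by
      rw [hw k (Finset.mem_range.1 hk).le, mul_div_assoc]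
  rw [e, ← mul_div_assoc]
  exact h

theorem psi_key_j10088 (p : ℕ) :
    (evp_j10088 15 (fun k => mL_j10088 (k + 1)) (wpsi_j10088 p) : ℝ) ≤
        psi 1 ((p : ℝ) / 8) * (10 ^ 11 * (8 ^ 30 * Nat.factorial 31 : ℕ)) +
        odp_j10088 15 (fun k => mL_j10088 (k + 1) + 1) (wpsi_j10088 p) + (((mL_j10088 16 + 1) * wpsi_j10088 p 15 : ℕ) : ℝ) ∧
      psi 1 ((p : ℝ) / 8) * (10 ^ 11 * (8 ^ 30 * Nat.factorial 31 : ℕ)) +
          odp_j10088 15 (fun k => mL_j10088 (k + 1)) (wpsi_j10088 p) ≤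
        evp_j10088 15 (fun k => mL_j10088 (k + 1) + 1) (wpsi_j10088 p) + (((mL_j10088 16 + 1) * wpsi_j10088 p 15 : ℕ) : ℝ) := by
  refine alt_lo_j10088 15 (fun k => mom (k + 1)) (fun k => mL_j10088 (k + 1)) (wpsi_j10088 p) _ (by positivity)
    (fun k hk => mom_bd_j10088 (k + 1) (by omega)) _ ?_
  have h := psi_taylor 15 ((p : ℝ) / 8)
  have hw : ∀ k ≤ 15, ((wpsi_j10088 p k : ℕ) : ℝ) / ((8 ^ 30 * Nat.factorial 31 : ℕ) : ℝ) =
      ((p : ℝ) / 8) ^ (2 * k) / (Nat.factorial (2 * k + 1)) := fun k hk =>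
    w_aux_j10088 p k 30 31 (2 * k + 1) (by omega) (by omega)
  rw [hw 15 le_rfl]
  have e : ∑ k ∈ Finset.range 15, (-1 : ℝ) ^ k * mom (k + 1) *
      (((wpsi_j10088 p k : ℕ) : ℝ) / ((8 ^ 30 * Nat.factorial 31 : ℕ) : ℝ)) =
      ∑ k ∈ Finset.range 15, (-1) ^ k * mom (k + 1) * ((p : ℝ) / 8) ^ (2 * k) /
        (Nat.factorial (2 * k + 1)) :=
    Finset.sum_congr rfl fun k hk => by
      rw [hw k (Finset.mem_range.1 hk).le, mul_div_assoc]
  rw [e, ← mul_div_assoc]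
  exact h

theorem lo_aux_j10088 {x S : ℝ} {P Q R a' a : ℕ} {T : ℕ} (hT : S = 10 ^ 11 * (T : ℝ)) (hT0 : 0 < T)
    (h : (P : ℝ) ≤ x * S + Q + R)
    (hd : 10 ^ 5 * (Q + R) + a' * (10 ^ 11 * T) < 10 ^ 5 * P + a * (10 ^ 11 * T)) :
    ((a' : ℝ) - a) / 10 ^ 5 < x := by
  have hd' : (10 : ℝ) ^ 5 * (Q + R) + a' * (10 ^ 11 * T) < 10 ^ 5 * P + a * (10 ^ 11 * T) := by
    exact_mod_cast hd
  have hS : (0 : ℝ) < 10 ^ 11 * (T : ℝ) := by positivity
  rw [div_lt_iff₀ (by norm_num)]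
  subst hT
  refine lt_of_mul_lt_mul_right ?_ hS.le
  linarith only [hd', h]

theorem hi_aux_j10088 {x S : ℝ} {P Q R a' a : ℕ} {T : ℕ} (hT : S = 10 ^ 11 * (T : ℝ)) (hT0 : 0 < T)
    (h : x * S + Q ≤ P + R)
    (hd : 10 ^ 5 * (P + R) + a' * (10 ^ 11 * T) < 10 ^ 5 * Q + a * (10 ^ 11 * T)) :
    x < ((a : ℝ) - a') / 10 ^ 5 := by
  have hd' : (10 : ℝ) ^ 5 * (P + R) + a' * (10 ^ 11 * T) < 10 ^ 5 * Q + a * (10 ^ 11 * T) := by
    exact_mod_cast hd
  have hS : (0 : ℝ) < 10 ^ 11 * (T : ℝ) := by positivity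
  rw [lt_div_iff₀ (by norm_num)]
  subst hT
  refine lt_of_mul_lt_mul_right ?_ hS.le
  linarith only [hd', h]

theorem phi_lo_j10088 (p a' a : ℕ)
    (hd : 10 ^ 5 * (odp_j10088 16 (fun k => mL_j10088 k + 1) (wphi_j10088 p) + (mL_j10088 16 + 1) * wphi_j10088 p 16) +
      a' * (10 ^ 11 * (8 ^ 32 * Nat.factorial 32)) <
      10 ^ 5 * evp_j10088 16 mL_j10088 (wphi_j10088 p) + a * (10 ^ 11 * (8 ^ 32 * Nat.factorial 32))) :
    ((a' : ℝ) - a) / 10 ^ 5 < phi 1 ((p : ℝ) / 8) :=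
  lo_aux_j10088 rfl (by positivity) (phi_key_j10088 p).1 hd

theorem phi_hi_j10088 (p a' a : ℕ)
    (hd : 10 ^ 5 * (evp_j10088 16 (fun k => mL_j10088 k + 1) (wphi_j10088 p) + (mL_j10088 16 + 1) * wphi_j10088 p 16) +
      a' * (10 ^ 11 * (8 ^ 32 * Nat.factorial 32)) <
      10 ^ 5 * odp_j10088 16 mL_j10088 (wphi_j10088 p) + a * (10 ^ 11 * (8 ^ 32 * Nat.factorial 32))) :
    phi 1 ((p : ℝ) / 8) < ((a : ℝ) - a') / 10 ^ 5 :=
  hi_aux_j10088 rfl (by positivity) (phi_key_j10088 p).2 hd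

theorem psi_lo_j10088 (p a' a : ℕ)
    (hd : 10 ^ 5 * (odp_j10088 15 (fun k => mL_j10088 (k + 1) + 1) (wpsi_j10088 p) + (mL_j10088 16 + 1) * wpsi_j10088 p 15) +
      a' * (10 ^ 11 * (8 ^ 30 * Nat.factorial 31)) <
      10 ^ 5 * evp_j10088 15 (fun k => mL_j10088 (k + 1)) (wpsi_j10088 p) + a * (10 ^ 11 * (8 ^ 30 * Nat.factorial 31))) :
    ((a' : ℝ) - a) / 10 ^ 5 < psi 1 ((p : ℝ) / 8) :=
  lo_aux_j10088 rfl (by positivity) (psi_key_j10088 p).1 hd

theorem psi_hi_j10088 (p a' a : ℕ)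
    (hd : 10 ^ 5 * (evp_j10088 15 (fun k => mL_j10088 (k + 1) + 1) (wpsi_j10088 p) + (mL_j10088 16 + 1) * wpsi_j10088 p 15) +
      a' * (10 ^ 11 * (8 ^ 30 * Nat.factorial 31)) <
      10 ^ 5 * odp_j10088 15 (fun k => mL_j10088 (k + 1)) (wpsi_j10088 p) + a * (10 ^ 11 * (8 ^ 30 * Nat.factorial 31))) :
    psi 1 ((p : ℝ) / 8) < ((a : ℝ) - a') / 10 ^ 5 :=
  hi_aux_j10088 rfl (by positivity) (psi_key_j10088 p).2 hd

theorem p3875_j10088 : -0.0789 < phi 1 3.875 := by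
  have e : (3.875 : ℝ) = ((31 : ℕ) : ℝ) / 8 := by norm_num
  rw [e]
  exact lt_of_le_of_lt (by norm_num) (phi_lo_j10088 31 0 7890 (by decide +kernel))

theorem p4125_j10088 : -0.11464 < phi 1 4.125 := by
  have e : (4.125 : ℝ) = ((33 : ℕ) : ℝ) / 8 := by norm_num
  rw [e]
  exact lt_of_le_of_lt (by norm_num) (phi_lo_j10088 33 0 11464 (by decide +kernel))

theorem p4375_j10088 : -0.1376 < phi 1 4.375 := by
  have e : (4.375 : ℝ) = ((35 : ℕ) : ℝ) / 8 := by norm_num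
  rw [e]
  exact lt_of_le_of_lt (by norm_num) (phi_lo_j10088 35 0 13760 (by decide +kernel))

theorem p5125_j10088 : -0.13793 < phi 1 5.125 := by
  have e : (5.125 : ℝ) = ((41 : ℕ) : ℝ) / 8 := by norm_num
  rw [e]
  exact lt_of_le_of_lt (by norm_num) (phi_lo_j10088 41 0 13793 (by decide +kernel))

theorem p5375_j10088 : -0.11989 < phi 1 5.375 := by
  have e : (5.375 : ℝ) = ((43 : ℕ) : ℝ) / 8 := by norm_num
  rw [e]
  exact lt_of_le_of_lt (by norm_num) (phi_lo_j10088 43 0 11989 (by decide +kernel))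

theorem p5625_j10088 : -0.09584 < phi 1 5.625 := by
  have e : (5.625 : ℝ) = ((45 : ℕ) : ℝ) / 8 := by norm_num
  rw [e]
  exact lt_of_le_of_lt (by norm_num) (phi_lo_j10088 45 0 9584 (by decide +kernel))

theorem p575_j10088 : -0.08221 < phi 1 5.75 := by
  have e : (5.75 : ℝ) = ((46 : ℕ) : ℝ) / 8 := by norm_num
  rw [e]
  exact lt_of_le_of_lt (by norm_num) (phi_lo_j10088 46 0 8221 (by decide +kernel))

theorem p6_j10088 : -0.053 < phi 1 6 := by
  have e : (6 : ℝ) = ((48 : ℕ) : ℝ) / 8 := by norm_num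
  rw [e]
  exact lt_of_le_of_lt (by norm_num) (phi_lo_j10088 48 0 5300 (by decide +kernel))

theorem p65_j10088 : 0 < phi 1 6.5 ∧ phi 1 6.5 < 0.053 := by
  have e : (6.5 : ℝ) = ((52 : ℕ) : ℝ) / 8 := by norm_num
  rw [e]
  exact ⟨lt_of_le_of_lt (by norm_num) (phi_lo_j10088 52 0 0 (by decide +kernel)),
    lt_of_lt_of_le (phi_hi_j10088 52 0 5300 (by decide +kernel)) (by norm_num)⟩

theorem p675_j10088 : phi 1 6.75 < 0.03267 := by
  have e : (6.75 : ℝ) = ((54 : ℕ) : ℝ) / 8 := by norm_num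
  rw [e]
  exact lt_of_lt_of_le (phi_hi_j10088 54 0 3267 (by decide +kernel)) (by norm_num)

theorem p7_j10088 : phi 1 7 < 0.05509 := by
  have e : (7 : ℝ) = ((56 : ℕ) : ℝ) / 8 := by norm_num
  rw [e]
  exact lt_of_lt_of_le (phi_hi_j10088 56 0 5509 (by decide +kernel)) (by norm_num)

theorem p725_j10088 : phi 1 7.25 < 0.07245 := by
  have e : (7.25 : ℝ) = ((58 : ℕ) : ℝ) / 8 := by norm_num
  rw [e]
  exact lt_of_lt_of_le (phi_hi_j10088 58 0 7245 (by decide +kernel)) (by norm_num)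

theorem p75_j10088 : phi 1 7.5 < 0.08406 := by
  have e : (7.5 : ℝ) = ((60 : ℕ) : ℝ) / 8 := by norm_num
  rw [e]
  exact lt_of_lt_of_le (phi_hi_j10088 60 0 8406 (by decide +kernel)) (by norm_num)

theorem p85_j10088 : phi 1 8.5 < 0.07265 := by
  have e : (8.5 : ℝ) = ((68 : ℕ) : ℝ) / 8 := by norm_num
  rw [e]
  exact lt_of_lt_of_le (phi_hi_j10088 68 0 7265 (by decide +kernel)) (by norm_num)

theorem p875_j10088 : phi 1 8.75 < 0.05802 := by
  have e : (8.75 : ℝ) = ((70 : ℕ) : ℝ) / 8 := by norm_num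
  rw [e]
  exact lt_of_lt_of_le (phi_hi_j10088 70 0 5802 (by decide +kernel)) (by norm_num)

theorem p9_j10088 : phi 1 9 < 0.04063 := by
  have e : (9 : ℝ) = ((72 : ℕ) : ℝ) / 8 := by norm_num
  rw [e]
  exact lt_of_lt_of_le (phi_hi_j10088 72 0 4063 (by decide +kernel)) (by norm_num)

theorem p95_j10088 : 0 < phi 1 9.5 := by
  have e : (9.5 : ℝ) = ((76 : ℕ) : ℝ) / 8 := by norm_num
  rw [e]
  exact lt_of_le_of_lt (by norm_num) (phi_lo_j10088 76 0 0 (by decide +kernel))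

theorem q475_j10088 : psi 1 4.75 < 0 := by
  have e : (4.75 : ℝ) = ((38 : ℕ) : ℝ) / 8 := by norm_num
  rw [e]
  exact lt_of_lt_of_le (psi_hi_j10088 38 0 0 (by decide +kernel)) (by norm_num)

theorem q625_j10088 : psi 1 6.25 < -0.019 := by
  have e : (6.25 : ℝ) = ((50 : ℕ) : ℝ) / 8 := by norm_num
  rw [e]
  exact lt_of_lt_of_le (psi_hi_j10088 50 1900 0 (by decide +kernel)) (by norm_num)

theorem q7_j10088 : psi 1 7 < -0.0114 := by
  have e : (7 : ℝ) = ((56 : ℕ) : ℝ) / 8 := by norm_num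
  rw [e]
  exact lt_of_lt_of_le (psi_hi_j10088 56 1140 0 (by decide +kernel)) (by norm_num)

theorem q75_j10088 : psi 1 7.5 < -0.0045 := by
  have e : (7.5 : ℝ) = ((60 : ℕ) : ℝ) / 8 := by norm_num
  rw [e]
  exact lt_of_lt_of_le (psi_hi_j10088 60 450 0 (by decide +kernel)) (by norm_num)

theorem q9_j10088 : 0.0081 < psi 1 9 := by
  have e : (9 : ℝ) = ((72 : ℕ) : ℝ) / 8 := by norm_num
  rw [e]
  exact lt_of_le_of_lt (by norm_num) (psi_lo_j10088 72 810 0 (by decide +kernel))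

theorem psi_lip_j10088 {A M c z : ℝ} (hA : 2 ≤ A) (hM : 0.975 / A ^ 2 ≤ M) (hc : A ≤ c) (hz : A ≤ z) :
    |psi 1 z - psi 1 c| ≤ M * |z - c| := by
  have h := Convex.norm_image_sub_le_of_norm_hasDerivWithin_le (f := psi 1)
    (f' := fun z => -(z * chi z)) (C := M) (s := Set.Ici A) (x := c) (y := z)
    (fun x _ => (psi_deriv x).hasDerivWithinAt) ?_ (convex_Ici A) hc hz
  · simpa [Real.norm_eq_abs] using h
  · intro x hx
    have hx' : A ≤ x := hx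
    have hx0 : 0 < x := by linarith
    have h1 := chi_decay x (by linarith)
    rw [Real.norm_eq_abs, abs_neg, abs_mul, abs_of_pos hx0]
    calc x * |chi x| ≤ x * (0.975 / x ^ 3) := mul_le_mul_of_nonneg_left h1 hx0.le
      _ = 0.975 / x ^ 2 := by field_simp
      _ ≤ 0.975 / A ^ 2 := by
        refine div_le_div_of_nonneg_left (by norm_num) (by positivity) ?_
        exact pow_le_pow_left₀ (by linarith) hx' 2
      _ ≤ M := hM

theorem psi_neg_late_j10088 (z : ℝ) (h0 : 4.75 ≤ z) (h1 : z ≤ 7.5) : psi 1 z ≤ 0 := by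
  rcases le_total z 5.9 with h | h
  · have := psi_antitone (a := 4.75) (b := z) ⟨by norm_num, by norm_num⟩ ⟨by linarith, h⟩ h0
    have h2 := q475_j10088
    linarith
  rcases le_total z 6.6 with h' | h'
  · have h3 := psi_lip_j10088 (A := 5.9) (M := 0.0281) (c := 6.25) (z := z) (by norm_num) (by norm_num)
      (by norm_num) h
    have h4 : |z - 6.25| ≤ 0.35 := abs_le.2 ⟨by linarith, by linarith⟩
    have h5 := (abs_le.1 h3).2
    have h6 := q625_j10088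
    nlinarith
  rcases le_total z 7.3 with h'' | h''
  · have h3 := psi_lip_j10088 (A := 6.6) (M := 0.0224) (c := 7) (z := z) (by norm_num) (by norm_num)
      (by norm_num) h'
    have h4 : |z - 7| ≤ 0.4 := abs_le.2 ⟨by linarith, by linarith⟩
    have h5 := (abs_le.1 h3).2
    have h6 := q7_j10088
    nlinarith
  · have h3 := psi_lip_j10088 (A := 7.3) (M := 0.0184) (c := 7.5) (z := z) (by norm_num) (by norm_num)
      (by norm_num) h''
    have h4 : |z - 7.5| ≤ 0.2 := abs_le.2 ⟨by linarith, by linarith⟩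
    have h5 := (abs_le.1 h3).2
    have h6 := q75_j10088
    nlinarith

theorem psi_pos_late_j10088 (z : ℝ) (h0 : 8.5 ≤ z) (h1 : z ≤ 9.5) : 0 ≤ psi 1 z := by
  have h3 := psi_lip_j10088 (A := 8.5) (M := 0.0136) (c := 9) (z := z) (by norm_num) (by norm_num)
    (by norm_num) h0
  have h4 : |z - 9| ≤ 0.5 := abs_le.2 ⟨by linarith, by linarith⟩
  have h5 := (abs_le.1 h3).1
  have h6 := q9_j10088
  nlinarith

theorem phi_mono_late_j10088 : MonotoneOn (phi 1) (Set.Icc 4.75 7.5) := by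
  refine monotoneOn_of_deriv_nonneg (convex_Icc _ _) phi_contN.continuousOn
    (fun x _ => (phi_deriv x).differentiableAt.differentiableWithinAt) ?_
  intro x hx
  rw [interior_Icc] at hx
  rw [(phi_deriv x).deriv]
  have h1 := psi_neg_late_j10088 x hx.1.le hx.2.le
  have h2 : (0 : ℝ) ≤ x := by linarith [hx.1]
  nlinarith [mul_nonneg h2 (neg_nonneg.2 h1)]

theorem phi_anti_late_j10088 : AntitoneOn (phi 1) (Set.Icc 8.5 9.5) := by
  refine antitoneOn_of_deriv_nonpos (convex_Icc _ _) phi_contN.continuousOn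
    (fun x _ => (phi_deriv x).differentiableAt.differentiableWithinAt) ?_
  intro x hx
  rw [interior_Icc] at hx
  rw [(phi_deriv x).deriv]
  have h1 := psi_pos_late_j10088 x hx.1.le hx.2.le
  have h2 : (0 : ℝ) ≤ x := by linarith [hx.1]
  nlinarith [mul_nonneg h2 h1]

theorem cell_bound_j10088 {a b c : ℝ} (hab : a ≤ b) (h : ∀ t ∈ Set.Icc a b, |phi 1 t| ≤ c) :
    ∫ t in a..b, |phi 1 t| ^ 4 ≤ (b - a) * c ^ 4 := by
  have hc : Continuous fun t => |phi 1 t| ^ 4 := (phi_contN.abs).pow 4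
  have h1 : ∫ t in a..b, |phi 1 t| ^ 4 ≤ ∫ _ in a..b, c ^ 4 := by
    refine intervalIntegral.integral_mono_on hab (hc.intervalIntegrable _ _)
      (continuous_const.intervalIntegrable _ _) ?_
    intro t ht
    exact pow_le_pow_left₀ (abs_nonneg _) (h t ht) 4
  rw [intervalIntegral.integral_const, smul_eq_mul] at h1
  exact h1

/-- cells left of 4.7 -/
theorem cell_left_j10088 {a b c : ℝ} (ha : z0 ≤ a) (hab : a ≤ b) (hb : b ≤ 4.7) (h : -c ≤ phi 1 b) :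
    ∫ t in a..b, |phi 1 t| ^ 4 ≤ (b - a) * c ^ 4 := by
  refine cell_bound_j10088 hab ?_
  intro t ht
  have hz := z0_bounds
  have h1 : phi 1 t ≤ 0 := phi_nonpos t (ha.trans ht.1) (by linarith [ht.2])
  have h2 : phi 1 b ≤ phi 1 t :=
    phi_antitone ⟨by linarith [ht.1], by linarith [ht.2]⟩ ⟨by linarith, hb⟩ ht.2
  rw [abs_of_nonpos h1]
  linarith

/-- cells in `[4.75, 7.5]` -/
theorem cell_mid_j10088 {a b c : ℝ} (ha : 4.75 ≤ a) (hab : a ≤ b) (hb : b ≤ 7.5) (h1 : -c ≤ phi 1 a)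
    (h2 : phi 1 b ≤ c) : ∫ t in a..b, |phi 1 t| ^ 4 ≤ (b - a) * c ^ 4 := by
  refine cell_bound_j10088 hab ?_
  intro t ht
  have h3 : phi 1 a ≤ phi 1 t :=
    phi_mono_late_j10088 ⟨ha, by linarith⟩ ⟨by linarith [ht.1], by linarith [ht.2]⟩ ht.1
  have h4 : phi 1 t ≤ phi 1 b :=
    phi_mono_late_j10088 ⟨by linarith [ht.1], by linarith [ht.2]⟩ ⟨by linarith, hb⟩ ht.2
  exact abs_le.2 ⟨by linarith, by linarith⟩

/-- cells in `[8.5, 9.5]` -/
theorem cell_right_j10088 {a b c : ℝ} (ha : 8.5 ≤ a) (hab : a ≤ b) (hb : b ≤ 9.5) (h1 : phi 1 a ≤ c) :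
    ∫ t in a..b, |phi 1 t| ^ 4 ≤ (b - a) * c ^ 4 := by
  refine cell_bound_j10088 hab ?_
  intro t ht
  have h3 : phi 1 t ≤ phi 1 a :=
    phi_anti_late_j10088 ⟨ha, by linarith⟩ ⟨by linarith [ht.1], by linarith [ht.2]⟩ ht.1
  have h4 : phi 1 9.5 ≤ phi 1 t :=
    phi_anti_late_j10088 ⟨by linarith [ht.1], by linarith [ht.2]⟩ ⟨by norm_num, by norm_num⟩
      (by linarith [ht.2])
  have h5 := p95_j10088
  exact abs_le.2 ⟨by linarith, by linarith⟩

theorem tail_bound_j10088 : ∫ t in Set.Ioi (9.5 : ℝ), |phi 1 t| ^ 4 ≤ 0.00011041 := by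
  have hint : IntegrableOn (fun t : ℝ => (0.73 : ℝ) ^ 4 * t ^ (-4 : ℝ)) (Set.Ioi 9.5) :=
    (integrableOn_Ioi_rpow_of_lt (by norm_num) (by norm_num)).const_mul _
  have hle : ∀ t ∈ Set.Ioi (9.5 : ℝ), |phi 1 t| ^ 4 ≤ (0.73 : ℝ) ^ 4 * t ^ (-4 : ℝ) := by
    intro t ht
    have ht' : (9.5 : ℝ) < t := ht
    have ht0 : 0 < t := by linarith
    have h1 := phi_decN t (by linarith)
    have h2 := pow_le_pow_left₀ (abs_nonneg _) h1 4
    have h3 : t ^ (-4 : ℝ) = (t ^ 4)⁻¹ := by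
      rw [Real.rpow_neg ht0.le]
      congr 1
      exact_mod_cast Real.rpow_natCast t 4
    rw [h3, ← div_eq_mul_inv, ← div_pow]
    exact h2
  have hint2 : IntegrableOn (fun t : ℝ => |phi 1 t| ^ 4) (Set.Ioi 9.5) := by
    refine Integrable.mono' hint ((phi_contN.abs.pow 4).aestronglyMeasurable) ?_
    filter_upwards [ae_restrict_mem measurableSet_Ioi] with t ht
    rw [Real.norm_of_nonneg (by positivity)]
    exact hle t ht
  have h4 : ∫ t in Set.Ioi (9.5 : ℝ), |phi 1 t| ^ 4 ≤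
      ∫ t in Set.Ioi (9.5 : ℝ), (0.73 : ℝ) ^ 4 * t ^ (-4 : ℝ) :=
    setIntegral_mono_on hint2 hint measurableSet_Ioi hle
  rw [integral_const_mul, integral_Ioi_rpow_of_lt (by norm_num) (by norm_num)] at h4
  refine h4.trans ?_
  have h5 : (9.5 : ℝ) ^ ((-4 : ℝ) + 1) = (9.5 ^ 3)⁻¹ := by
    rw [show (-4 : ℝ) + 1 = -(3 : ℝ) by norm_num, Real.rpow_neg (by norm_num)]
    congr 1
    exact_mod_cast Real.rpow_natCast (9.5 : ℝ) 3
  rw [h5]
  norm_num

theorem tail_integrable_j10088 : IntegrableOn (fun t : ℝ => |phi 1 t| ^ 4) (Set.Ioi 9.5) := by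
  have hint : IntegrableOn (fun t : ℝ => (0.73 : ℝ) ^ 4 * t ^ (-4 : ℝ)) (Set.Ioi 9.5) :=
    (integrableOn_Ioi_rpow_of_lt (by norm_num) (by norm_num)).const_mul _
  have hle : ∀ t ∈ Set.Ioi (9.5 : ℝ), |phi 1 t| ^ 4 ≤ (0.73 : ℝ) ^ 4 * t ^ (-4 : ℝ) := by
    intro t ht
    have ht' : (9.5 : ℝ) < t := ht
    have ht0 : 0 < t := by linarith
    have h1 := phi_decN t (by linarith)
    have h2 := pow_le_pow_left₀ (abs_nonneg _) h1 4
    have h3 : t ^ (-4 : ℝ) = (t ^ 4)⁻¹ := by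
      rw [Real.rpow_neg ht0.le]
      congr 1
      exact_mod_cast Real.rpow_natCast t 4
    rw [h3, ← div_eq_mul_inv, ← div_pow]
    exact h2
  refine Integrable.mono' hint ((phi_contN.abs.pow 4).aestronglyMeasurable) ?_
  filter_upwards [ae_restrict_mem measurableSet_Ioi] with t ht
  rw [Real.norm_of_nonneg (by positivity)]
  exact hle t ht


theorem cont4_j10088 : Continuous fun t => |phi 1 t| ^ 4 := (phi_contN.abs).pow 4

theorem chain4_j10088 {a b c x y : ℝ} (h1 : ∫ t in a..b, |phi 1 t| ^ 4 ≤ x)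
    (h2 : ∫ t in b..c, |phi 1 t| ^ 4 ≤ y) : ∫ t in a..c, |phi 1 t| ^ 4 ≤ x + y := by
  rw [← intervalIntegral.integral_add_adjacent_intervals (cont4_j10088.intervalIntegrable a b)
    (cont4_j10088.intervalIntegrable b c)]
  exact add_le_add h1 h2

theorem phi_le_65_j10088 {b : ℝ} (h0 : 4.75 ≤ b) (h1 : b ≤ 6.5) {c : ℝ} (hc : 0.053 ≤ c) : phi 1 b ≤ c :=
  (phi_mono_late_j10088 ⟨h0, h1.trans (by norm_num)⟩ ⟨by norm_num, by norm_num⟩ h1).trans
    (p65_j10088.2.le.trans hc)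

theorem phi_ge_65_j10088 {a : ℝ} (h0 : 6.5 ≤ a) (h1 : a ≤ 7.5) {c : ℝ} (hc : 0 ≤ c) : -c ≤ phi 1 a :=
  (neg_nonpos.2 hc).trans (p65_j10088.1.le.trans
    (phi_mono_late_j10088 ⟨by norm_num, by norm_num⟩ ⟨le_trans (by norm_num) h0, h1⟩ h0))

theorem cell0_j10088 : ∫ t in z0..3.75, |phi 1 t| ^ 4 ≤ (3.75 - 3.4947) * 0.056181 ^ 4 := by
  have hz := z0_bounds
  have c0 : ∫ t in z0..3.75, |phi 1 t| ^ 4 ≤ (3.75 - z0) * 0.056181 ^ 4 :=
    cell_left_j10088 (le_rfl) (by linarith only [hz.2]) (by norm_num) (by linarith only [phi_tab_15.1])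
  have h1 : (3.75 - z0) ≤ (3.75 - 3.4947) := by linarith only [hz.1]
  exact c0.trans (mul_le_mul_of_nonneg_right h1 (by norm_num))

theorem cell1_j10088 : ∫ t in (3.75 : ℝ)..3.875, |phi 1 t| ^ 4 ≤ (3.875 - 3.75) * 0.0789 ^ 4 :=
  cell_left_j10088 (z0_bounds.2.le.trans (by norm_num)) (by norm_num) (by norm_num) (le_trans (by norm_num) p3875_j10088.le)

theorem cell2_j10088 : ∫ t in (3.875 : ℝ)..4, |phi 1 t| ^ 4 ≤ (4 - 3.875) * 0.098379 ^ 4 :=
  cell_left_j10088 (z0_bounds.2.le.trans (by norm_num)) (by norm_num) (by norm_num) (le_trans (by norm_num) phi_tab_16.1.le)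

theorem cell3_j10088 : ∫ t in (4 : ℝ)..4.125, |phi 1 t| ^ 4 ≤ (4.125 - 4) * 0.11464 ^ 4 :=
  cell_left_j10088 (z0_bounds.2.le.trans (by norm_num)) (by norm_num) (by norm_num) (le_trans (by norm_num) p4125_j10088.le)

theorem cell4_j10088 : ∫ t in (4.125 : ℝ)..4.25, |phi 1 t| ^ 4 ≤ (4.25 - 4.125) * 0.12769 ^ 4 :=
  cell_left_j10088 (z0_bounds.2.le.trans (by norm_num)) (by norm_num) (by norm_num) (le_trans (by norm_num) phi_tab_17.1.le)

theorem cell5_j10088 : ∫ t in (4.25 : ℝ)..4.375, |phi 1 t| ^ 4 ≤ (4.375 - 4.25) * 0.1376 ^ 4 :=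
  cell_left_j10088 (z0_bounds.2.le.trans (by norm_num)) (by norm_num) (by norm_num) (le_trans (by norm_num) p4375_j10088.le)

theorem cell6_j10088 : ∫ t in (4.375 : ℝ)..4.5, |phi 1 t| ^ 4 ≤ (4.5 - 4.375) * 0.144454 ^ 4 :=
  cell_left_j10088 (z0_bounds.2.le.trans (by norm_num)) (by norm_num) (by norm_num) (le_trans (by norm_num) phi_tab_18.1.le)

theorem cell7_j10088 : ∫ t in (4.5 : ℝ)..5, |phi 1 t| ^ 4 ≤ (5 - 4.5) * 0.1496 ^ 4 :=
  cell_bound_j10088 (by norm_num) (fun t ht => phi_lobe t ((z0_bounds.2.le.trans (by norm_num)).trans ht.1))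

theorem cell8_j10088 : ∫ t in (5 : ℝ)..5.125, |phi 1 t| ^ 4 ≤ (5.125 - 5) * 0.144071 ^ 4 :=
  cell_mid_j10088 (by norm_num) (by norm_num) (by norm_num) (le_trans (by norm_num) phi_tab_20.1.le)
    (phi_le_65_j10088 (by norm_num) (by norm_num) (by norm_num))

theorem cell9_j10088 : ∫ t in (5.125 : ℝ)..5.25, |phi 1 t| ^ 4 ≤ (5.25 - 5.125) * 0.13793 ^ 4 :=
  cell_mid_j10088 (by norm_num) (by norm_num) (by norm_num) (le_trans (by norm_num) p5125_j10088.le)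
    (phi_le_65_j10088 (by norm_num) (by norm_num) (by norm_num))

theorem cell10_j10088 : ∫ t in (5.25 : ℝ)..5.375, |phi 1 t| ^ 4 ≤ (5.375 - 5.25) * 0.1299 ^ 4 :=
  cell_bound_j10088 (by norm_num) (fun t ht => phi_lobe525 t ht.1)

theorem cell11_j10088 : ∫ t in (5.375 : ℝ)..5.5, |phi 1 t| ^ 4 ≤ (5.5 - 5.375) * 0.11989 ^ 4 :=
  cell_mid_j10088 (by norm_num) (by norm_num) (by norm_num) (le_trans (by norm_num) p5375_j10088.le)
    (phi_le_65_j10088 (by norm_num) (by norm_num) (by norm_num))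

theorem cell12_j10088 : ∫ t in (5.5 : ℝ)..5.625, |phi 1 t| ^ 4 ≤ (5.625 - 5.5) * 0.1086 ^ 4 :=
  cell_bound_j10088 (by norm_num) (fun t ht => phi_lobe55 t ht.1)

theorem cell13_j10088 : ∫ t in (5.625 : ℝ)..5.75, |phi 1 t| ^ 4 ≤ (5.75 - 5.625) * 0.09584 ^ 4 :=
  cell_mid_j10088 (by norm_num) (by norm_num) (by norm_num) (le_trans (by norm_num) p5625_j10088.le)
    (phi_le_65_j10088 (by norm_num) (by norm_num) (by norm_num))

theorem cell14_j10088 : ∫ t in (5.75 : ℝ)..6, |phi 1 t| ^ 4 ≤ (6 - 5.75) * 0.08221 ^ 4 :=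
  cell_mid_j10088 (by norm_num) (by norm_num) (by norm_num) (le_trans (by norm_num) p575_j10088.le)
    (phi_le_65_j10088 (by norm_num) (by norm_num) (by norm_num))

theorem cell15_j10088 : ∫ t in (6 : ℝ)..6.5, |phi 1 t| ^ 4 ≤ (6.5 - 6) * 0.053 ^ 4 :=
  cell_mid_j10088 (by norm_num) (by norm_num) (by norm_num) (le_trans (by norm_num) p6_j10088.le)
    (phi_le_65_j10088 (by norm_num) (by norm_num) (by norm_num))

theorem cell16_j10088 : ∫ t in (6.5 : ℝ)..6.75, |phi 1 t| ^ 4 ≤ (6.75 - 6.5) * 0.03267 ^ 4 :=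
  cell_mid_j10088 (by norm_num) (by norm_num) (by norm_num)
    (phi_ge_65_j10088 (by norm_num) (by norm_num) (by norm_num)) (p675_j10088.le)

theorem cell17_j10088 : ∫ t in (6.75 : ℝ)..7, |phi 1 t| ^ 4 ≤ (7 - 6.75) * 0.05509 ^ 4 :=
  cell_mid_j10088 (by norm_num) (by norm_num) (by norm_num)
    (phi_ge_65_j10088 (by norm_num) (by norm_num) (by norm_num)) (p7_j10088.le)

theorem cell18_j10088 : ∫ t in (7 : ℝ)..7.25, |phi 1 t| ^ 4 ≤ (7.25 - 7) * 0.07245 ^ 4 :=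
  cell_mid_j10088 (by norm_num) (by norm_num) (by norm_num)
    (phi_ge_65_j10088 (by norm_num) (by norm_num) (by norm_num)) (p725_j10088.le)

theorem cell19_j10088 : ∫ t in (7.25 : ℝ)..7.5, |phi 1 t| ^ 4 ≤ (7.5 - 7.25) * 0.08406 ^ 4 :=
  cell_mid_j10088 (by norm_num) (by norm_num) (by norm_num)
    (phi_ge_65_j10088 (by norm_num) (by norm_num) (by norm_num)) (p75_j10088.le)

theorem cell20_j10088 : ∫ t in (7.5 : ℝ)..8.5, |phi 1 t| ^ 4 ≤ (8.5 - 7.5) * 0.0903 ^ 4 :=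
  cell_bound_j10088 (by norm_num) (fun t ht => phi_lobe575 t (le_trans (by norm_num) ht.1))

theorem cell21_j10088 : ∫ t in (8.5 : ℝ)..8.75, |phi 1 t| ^ 4 ≤ (8.75 - 8.5) * 0.07265 ^ 4 :=
  cell_right_j10088 (by norm_num) (by norm_num) (by norm_num) (p85_j10088.le)

theorem cell22_j10088 : ∫ t in (8.75 : ℝ)..9, |phi 1 t| ^ 4 ≤ (9 - 8.75) * 0.05802 ^ 4 :=
  cell_right_j10088 (by norm_num) (by norm_num) (by norm_num) (p875_j10088.le)

theorem cell23_j10088 : ∫ t in (9 : ℝ)..9.5, |phi 1 t| ^ 4 ≤ (9.5 - 9) * 0.04063 ^ 4 :=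
  cell_right_j10088 (by norm_num) (by norm_num) (by norm_num) (p9_j10088.le)

theorem Tl_four : Tl 4 ≤ 0.0017 := by
  have hz := z0_bounds
  have e0 : Tl 4 = 2 * ∫ t in Set.Ioi z0, |phi 1 t| ^ 4 := by
    unfold Tl
    congr 1
    refine integral_congr_ae (Filter.Eventually.of_forall fun t => ?_)
    exact_mod_cast Real.rpow_natCast (|phi 1 t|) 4
  have e1 : ∫ t in Set.Ioi z0, |phi 1 t| ^ 4 =
      (∫ t in z0..9.5, |phi 1 t| ^ 4) + ∫ t in Set.Ioi (9.5 : ℝ), |phi 1 t| ^ 4 := by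
    rw [intervalIntegral.integral_of_le (by linarith only [hz.2]), ← setIntegral_union
      (Set.Ioc_disjoint_Ioi le_rfl) measurableSet_Ioi (cont4_j10088.integrableOn_Ioc) tail_integrable_j10088,
      Set.Ioc_union_Ioi_eq_Ioi (by linarith only [hz.2])]
  have h := chain4_j10088 cell0_j10088 (chain4_j10088 cell1_j10088 (chain4_j10088 cell2_j10088 (chain4_j10088 cell3_j10088 (chain4_j10088 cell4_j10088 (chain4_j10088 cell5_j10088 (chain4_j10088 cell6_j10088 (chain4_j10088 cell7_j10088 (chain4_j10088 cell8_j10088 (chain4_j10088 cell9_j10088 (chain4_j10088 cell10_j10088 (chain4_j10088 cell11_j10088 (chain4_j10088 cell12_j10088 (chain4_j10088 cell13_j10088 (chain4_j10088 cell14_j10088 (chain4_j10088 cell15_j10088 (chain4_j10088 cell16_j10088 (chain4_j10088 cell17_j10088 (chain4_j10088 cell18_j10088 (chain4_j10088 cell19_j10088 (chain4_j10088 cell20_j10088 (chain4_j10088 cell21_j10088 (chain4_j10088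 cell22_j10088 cell23_j10088))))))))))))))))))))))
  rw [e0, e1]
  refine (mul_le_mul_of_nonneg_left (add_le_add h tail_bound_j10088) (by norm_num)).trans ?_
  norm_num



end Pool.Agent.Helper82.GC
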