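import Pool.Agent.Helper82.GC.J10087
import Pool.Agent.Helper82.GC.J10088

set_option autoImplicit false

open MeasureTheory Set

namespace Pool.Agent.Helper82.GC


theorem Tl_aux_int_j10089 (p : ℝ) (h2 : 2 ≤ p) : Integrable (fun t => |phi 1 t| ^ p) := by
  have h1 := phi_sq_integrable (r := 1) one_pos
  refine h1.mono' ?_ ?_
  · exact ((Real.continuous_rpow_const (by linarith)).comp
      phi_contN.abs).aestronglyMeasurable
  · refine Filter.Eventually.of_forall (fun t => ?_)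
    have h3 : 0 ≤ |phi 1 t| := abs_nonneg _
    rw [Real.norm_of_nonneg (Real.rpow_nonneg h3 _)]
    calc |phi 1 t| ^ p ≤ |phi 1 t| ^ (2:ℝ) :=
          Real.rpow_le_rpow_of_exponent_ge' h3 (abs_phi_le_one one_pos t) (by norm_num) h2
      _ = phi 1 t ^ 2 := by rw [Real.rpow_two, sq_abs]

theorem Tl_mid (p : ℝ) (h2 : 2 ≤ p) (h4 : p ≤ 4) :
    Tl p ≤ 0.1438 ^ ((4 - p) / 2) * 0.0017 ^ ((p - 2) / 2) := by
  set θ : ℝ := (4 - p) / 2 with hθ
  set η : ℝ := (p - 2) / 2 with hη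
  have hθ0 : 0 ≤ θ := by rw [hθ]; linarith
  have hη0 : 0 ≤ η := by rw [hη]; linarith
  have hsum : θ + η = 1 := by rw [hθ, hη]; ring
  have hp : p = 2 * θ + 4 * η := by rw [hθ, hη]; ring
  set A : ℝ := 0.1438 with hA
  set B : ℝ := 0.0017 with hB
  have hA0 : 0 < A := by rw [hA]; norm_num
  have hB0 : 0 < B := by rw [hB]; norm_num
  set C : ℝ := A ^ θ * B ^ η with hC
  have hC0 : 0 < C := by rw [hC]; positivity
  have hpt : ∀ t, |phi 1 t| ^ p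
      ≤ C * (θ / A) * |phi 1 t| ^ (2:ℝ) + C * (η / B) * |phi 1 t| ^ (4:ℝ) := by
    intro t
    have h0 : 0 ≤ |phi 1 t| := abs_nonneg _
    have h5 := Real.geom_mean_le_arith_mean2_weighted hθ0 hη0
      (div_nonneg (Real.rpow_nonneg h0 2) hA0.le) (div_nonneg (Real.rpow_nonneg h0 4) hB0.le) hsum
    rw [Real.div_rpow (Real.rpow_nonneg h0 2) hA0.le, Real.div_rpow (Real.rpow_nonneg h0 4) hB0.le,
      ← Real.rpow_mul h0, ← Real.rpow_mul h0] at h5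
    have h6 : |phi 1 t| ^ p = |phi 1 t| ^ (2 * θ) * |phi 1 t| ^ (4 * η) := by
      rw [← Real.rpow_add_of_nonneg h0 (by positivity) (by positivity), ← hp]
    have h7 : |phi 1 t| ^ p = C * (|phi 1 t| ^ (2 * θ) / A ^ θ * (|phi 1 t| ^ (4 * η) / B ^ η)) := by
      rw [h6, hC]
      have hAθ : A ^ θ ≠ 0 := (Real.rpow_pos_of_pos hA0 θ).ne'
      have hBη : B ^ η ≠ 0 := (Real.rpow_pos_of_pos hB0 η).ne'
      field_simp
    rw [h7]
    calc C * (|phi 1 t| ^ (2 * θ) / A ^ θ * (|phi 1 t| ^ (4 * η) / B ^ η))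
        ≤ C * (θ * (|phi 1 t| ^ (2:ℝ) / A) + η * (|phi 1 t| ^ (4:ℝ) / B)) :=
          mul_le_mul_of_nonneg_left h5 hC0.le
      _ = _ := by ring
  have i2 : IntegrableOn (fun t => |phi 1 t| ^ (2:ℝ)) (Ioi z0) :=
    (Tl_aux_int_j10089 2 le_rfl).integrableOn
  have i4 : IntegrableOn (fun t => |phi 1 t| ^ (4:ℝ)) (Ioi z0) :=
    (Tl_aux_int_j10089 4 (by norm_num)).integrableOn
  have ip : IntegrableOn (fun t => |phi 1 t| ^ p) (Ioi z0) := (Tl_aux_int_j10089 p h2).integrableOn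
  have hint : ∫ t in Ioi z0, |phi 1 t| ^ p ≤ C * (θ / A) * (∫ t in Ioi z0, |phi 1 t| ^ (2:ℝ))
      + C * (η / B) * (∫ t in Ioi z0, |phi 1 t| ^ (4:ℝ)) := by
    rw [← integral_const_mul, ← integral_const_mul,
      ← integral_add (i2.const_mul _) (i4.const_mul _)]
    exact integral_mono ip ((i2.const_mul _).add (i4.const_mul _)) hpt
  have hT2 : Tl 2 ≤ A := Tl_two
  have hT4 : Tl 4 ≤ B := Tl_four
  have e2 : Tl 2 = 2 * ∫ t in Ioi z0, |phi 1 t| ^ (2:ℝ) := rfl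
  have e4 : Tl 4 = 2 * ∫ t in Ioi z0, |phi 1 t| ^ (4:ℝ) := rfl
  have ep : Tl p = 2 * ∫ t in Ioi z0, |phi 1 t| ^ p := rfl
  calc Tl p ≤ C * (θ / A) * Tl 2 + C * (η / B) * Tl 4 := by
        rw [ep, e2, e4]; linarith
    _ ≤ C * (θ / A) * A + C * (η / B) * B := by gcongr
    _ = C * (θ + η) := by field_simp
    _ = C := by rw [hsum, mul_one]

theorem Tl_big (p : ℝ) (h4 : 4 ≤ p) : Tl p ≤ 0.1496 ^ (p - 4) * 0.0017 := by
  have i4 : IntegrableOn (fun t => |phi 1 t| ^ (4:ℝ)) (Ioi z0) :=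
    (Tl_aux_int_j10089 4 (by norm_num)).integrableOn
  have ip : IntegrableOn (fun t => |phi 1 t| ^ p) (Ioi z0) :=
    (Tl_aux_int_j10089 p (by linarith)).integrableOn
  have hpt : ∀ t ∈ Ioi z0, |phi 1 t| ^ p ≤ 0.1496 ^ (p - 4) * |phi 1 t| ^ (4:ℝ) := by
    intro t ht
    have h0 : 0 ≤ |phi 1 t| := abs_nonneg _
    have h1 : |phi 1 t| ≤ 0.1496 := phi_lobe t (le_of_lt ht)
    have h2 : |phi 1 t| ^ p = |phi 1 t| ^ (p - 4) * |phi 1 t| ^ (4:ℝ) := by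
      rw [← Real.rpow_add_of_nonneg h0 (by linarith) (by norm_num)]
      congr 1; ring
    rw [h2]
    exact mul_le_mul_of_nonneg_right (Real.rpow_le_rpow h0 h1 (by linarith))
      (Real.rpow_nonneg h0 _)
  have hint : ∫ t in Ioi z0, |phi 1 t| ^ p
      ≤ 0.1496 ^ (p - 4) * (∫ t in Ioi z0, |phi 1 t| ^ (4:ℝ)) := by
    rw [← integral_const_mul]
    exact setIntegral_mono_on ip (i4.const_mul _) measurableSet_Ioi hpt
  have hT4 : Tl 4 ≤ 0.0017 := Tl_four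
  have e4 : Tl 4 = 2 * ∫ t in Ioi z0, |phi 1 t| ^ (4:ℝ) := rfl
  have ep : Tl p = 2 * ∫ t in Ioi z0, |phi 1 t| ^ p := rfl
  have hc : (0:ℝ) ≤ 0.1496 ^ (p - 4) := Real.rpow_nonneg (by norm_num) _
  calc Tl p ≤ 0.1496 ^ (p - 4) * Tl 4 := by rw [ep, e4]; linarith
    _ ≤ 0.1496 ^ (p - 4) * 0.0017 := mul_le_mul_of_nonneg_left hT4 hc



end Pool.Agent.Helper82.GC
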