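import Pool.Agent.Helper82.GC.J10073
import Pool.Agent.Helper82.GC.J10089

set_option autoImplicit false

open MeasureTheory Set

namespace Pool.Agent.Helper82.GC


theorem Ip_node_aux_main_j10119 (q c r m : ℝ) (hc : 0 < c) (h : c ^ 2 ≤ q) (hr : 0 ≤ r)
    (hm : 4.64570 * r ≤ m * c) : P1 / Real.sqrt q * r ≤ m := by
  have h1 : c ≤ Real.sqrt q := Real.le_sqrt_of_sq_le h
  have h2 : 0 < Real.sqrt q := lt_of_lt_of_le hc h1
  have h3 := P1_bounds.2
  have hm0 : 0 ≤ m := by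
    by_contra hneg
    push Not at hneg
    have : m * c < 0 := mul_neg_of_neg_of_pos hneg hc
    nlinarith
  rw [div_mul_eq_mul_div, div_le_iff₀ h2]
  calc P1 * r ≤ 4.64570 * r := mul_le_mul_of_nonneg_right h3.le hr
    _ ≤ m * c := hm
    _ ≤ m * Real.sqrt q := mul_le_mul_of_nonneg_left h1 hm0

theorem Ip_node2 : Ip (5 / 2) ≤ 2.8350 := by
  have h1 := main_closed (5 / 2) (by norm_num)
  have h2 := (Ip_split (5 / 2) (by norm_num)).2
  have h3 := Tl_mid (5 / 2) (by norm_num) (by norm_num)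
  have h4 : (0.1438 : ℝ) ^ ((4 - 5 / 2) / 2 : ℝ) * 0.0017 ^ ((5 / 2 - 2) / 2 : ℝ) ≤ 0.04743 := by
    rw [← pow_le_pow_iff_left₀ (by positivity) (by norm_num) (four_ne_zero), mul_pow,
      ← Real.rpow_natCast, ← Real.rpow_natCast, ← Real.rpow_mul (by norm_num), ← Real.rpow_mul (by norm_num)]
    norm_num
  have h5 := Ip_node_aux_main_j10119 (5 / 2 + 9 / 34) 1.66274 (1 - 179.2 * (5 / 2) / ((17 * (5 / 2) + 9) * (17 * (5 / 2) + 15) * (17 * (5 / 2) + 21)) +
        741900 * (5 / 2) ^ 2 / ((17 * (5 / 2) + 9) * (17 * (5 / 2) + 15) * (17 * (5 / 2) + 21) * (17 * (5 / 2) + 27) *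
          (17 * (5 / 2) + 33) * (17 * (5 / 2) + 39))) 2.78755 (by norm_num) (by norm_num) (by norm_num) (by norm_num)
  rw [h2]
  linarith [h1.trans h5, h3.trans h4]

theorem Ip_node3 : Ip 3 ≤ 2.5834 := by
  have h1 := main_closed 3 (by norm_num)
  have h2 := (Ip_split 3 (by norm_num)).2
  have h3 := Tl_mid 3 (by norm_num) (by norm_num)
  have h4 : (0.1438 : ℝ) ^ ((4 - 3) / 2 : ℝ) * 0.0017 ^ ((3 - 2) / 2 : ℝ) ≤ 0.0157 := by
    rw [← pow_le_pow_iff_left₀ (by positivity) (by norm_num) (two_ne_zero), mul_pow,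
      ← Real.rpow_natCast, ← Real.rpow_natCast, ← Real.rpow_mul (by norm_num), ← Real.rpow_mul (by norm_num)]
    norm_num
  have h5 := Ip_node_aux_main_j10119 (3 + 9 / 34) 1.8068 (1 - 179.2 * 3 / ((17 * 3 + 9) * (17 * 3 + 15) * (17 * 3 + 21)) +
        741900 * 3 ^ 2 / ((17 * 3 + 9) * (17 * 3 + 15) * (17 * 3 + 21) * (17 * 3 + 27) *
          (17 * 3 + 33) * (17 * 3 + 39))) 2.5666 (by norm_num) (by norm_num) (by norm_num) (by norm_num)
  rw [h2]
  linarith [h1.trans h5, h3.trans h4]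

theorem Ip_node4 : Ip (10 / 3) ≤ 2.4545 := by
  have h1 := main_closed (10 / 3) (by norm_num)
  have h2 := (Ip_split (10 / 3) (by norm_num)).2
  have h3 := Tl_mid (10 / 3) (by norm_num) (by norm_num)
  have h4 : (0.1438 : ℝ) ^ ((4 - 10 / 3) / 2 : ℝ) * 0.0017 ^ ((10 / 3 - 2) / 2 : ℝ) ≤ 0.0076 := by
    rw [← pow_le_pow_iff_left₀ (by positivity) (by norm_num) (three_ne_zero), mul_pow,
      ← Real.rpow_natCast, ← Real.rpow_natCast, ← Real.rpow_mul (by norm_num), ← Real.rpow_mul (by norm_num)]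
    norm_num
  have h5 := Ip_node_aux_main_j10119 (10 / 3 + 9 / 34) 1.89671 (1 - 179.2 * (10 / 3) / ((17 * (10 / 3) + 9) * (17 * (10 / 3) + 15) * (17 * (10 / 3) + 21)) +
        741900 * (10 / 3) ^ 2 / ((17 * (10 / 3) + 9) * (17 * (10 / 3) + 15) * (17 * (10 / 3) + 21) * (17 * (10 / 3) + 27) *
          (17 * (10 / 3) + 33) * (17 * (10 / 3) + 39))) 2.4455 (by norm_num) (by norm_num) (by norm_num) (by norm_num)
  rw [h2]
  linarith [h1.trans h5, h3.trans h4]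



end Pool.Agent.Helper82.GC
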