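import Pool.Agent.Helper82.GC.J9285

set_option autoImplicit false

open MeasureTheory Set

namespace Pool.Agent.Helper82.GC

theorem phi_nonneg (z : ℝ) (h0 : 0 ≤ z) (h1 : z ≤ z0) : 0 ≤ phi 1 z := by
  rcases h1.lt_or_eq with h | h
  · exact (phi_pos z h0 h).le
  · rw [h, phi_z0]

theorem psi_bound (z : ℝ) : |psi 1 z| ≤ 0.3 := by
  have key : ∀ z : ℝ, 0 ≤ z → |psi 1 z| ≤ 0.3 := by
    intro z hz
    rcases le_total z 4.7 with h | h
    · have h1 := psi_pos z hz h
      have h2 : psi 1 z ≤ psi 1 0 := psi_antitone ⟨le_rfl, by norm_num⟩ ⟨hz, by linarith⟩ hz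
      have h3 : psi 1 0 = vr 1 := by
        unfold psi vr
        rw [phi_zero one_pos]
        simp
      rw [abs_of_pos h1]
      have := vr_one_bounds.2
      linarith
    · have := psi_late z (by linarith)
      linarith
  rcases le_total 0 z with h | h
  · exact key z h
  · rw [← psi_neg]
    exact key (-z) (by linarith)

end Pool.Agent.Helper82.GC
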