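import Pool.Agent.Helper82.GC.A3
import Pool.Agent.Helper82.GC.J9429
import Pool.Agent.Helper82.GC.Sx

set_option autoImplicit false

open MeasureTheory Set

namespace Pool.Agent.Helper82.GC


theorem Ip_split (p : ℝ) (hp : 2 ≤ p) : Integrable (fun t => |phi 1 t| ^ p) ∧
    Ip p = 2 * (∫ z in (0 : ℝ)..z0, phi 1 z ^ p) + Tl p := by
  have hc : Continuous (fun t => |phi 1 t| ^ p) :=
    (phi_contN.abs).rpow_const fun t => Or.inr (by linarith)
  have hI : Integrable (fun t => |phi 1 t| ^ p) := by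
    refine (phi_sq_integrable one_pos).mono' hc.aestronglyMeasurable
      (Filter.Eventually.of_forall fun t => ?_)
    have h0 := abs_nonneg (phi 1 t)
    rw [Real.norm_eq_abs, abs_of_nonneg (Real.rpow_nonneg h0 p), ← sq_abs, ← Real.rpow_two]
    exact Real.rpow_le_rpow_of_exponent_ge' h0 (abs_phi_le_one one_pos t) (by norm_num) hp
  refine ⟨hI, ?_⟩
  have hz0 : 0 < z0 := lt_trans (by norm_num) z0_bounds.1
  have h1 : Ip p = 2 * ∫ t in Set.Ioi (0 : ℝ), |phi 1 t| ^ p := by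
    unfold Ip
    rw [← integral_comp_abs (f := fun t => |phi 1 t| ^ p)]
    refine integral_congr_ae (Filter.Eventually.of_forall fun t => ?_)
    change |phi 1 t| ^ p = |phi 1 (|t|)| ^ p
    rcases abs_cases t with ⟨h, _⟩ | ⟨h, _⟩
    · rw [h]
    · rw [h, phi_neg]
  have h2 : ∫ t in Set.Ioi (0 : ℝ), |phi 1 t| ^ p =
      (∫ t in Set.Ioc (0 : ℝ) z0, |phi 1 t| ^ p) + ∫ t in Set.Ioi z0, |phi 1 t| ^ p := by
    rw [← setIntegral_union (Set.Ioc_disjoint_Ioi le_rfl) measurableSet_Ioi hI.integrableOn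
      hI.integrableOn, Set.Ioc_union_Ioi_eq_Ioi hz0.le]
  have h3 : ∫ t in Set.Ioc (0 : ℝ) z0, |phi 1 t| ^ p = ∫ z in (0 : ℝ)..z0, phi 1 z ^ p := by
    rw [intervalIntegral.integral_of_le hz0.le]
    refine setIntegral_congr_fun measurableSet_Ioc fun t ht => ?_
    change |phi 1 t| ^ p = phi 1 t ^ p
    rw [abs_of_nonneg (phi_nonneg t ht.1.le ht.2)]
  rw [h1, h2, h3]
  unfold Tl
  ring



end Pool.Agent.Helper82.GC
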