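import Pool.Agent.Helper82.GC.J10082
import Pool.Agent.Helper82.GC.J10085

set_option autoImplicit false

open MeasureTheory Set

namespace Pool.Agent.Helper82.GC


theorem j10125_P1_j10125 : 0 < P1 := by
  have := P1_bounds.1
  linarith

theorem j10125_Ip_pos_j10125 (p : ℝ) (hp : 2 ≤ p) : 0 < Ip p := by
  have hint := (Ip_split p hp).1
  unfold Ip
  rw [integral_pos_iff_support_of_nonneg (fun t => Real.rpow_nonneg (abs_nonneg _) _) hint]
  have hc : Continuous (fun t : ℝ => |phi 1 t| ^ p) :=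
    (continuous_abs.comp phi_contN).rpow_const (fun _ => Or.inr (by linarith))
  have ho : IsOpen (Function.support (fun t : ℝ => |phi 1 t| ^ p)) := hc.isOpen_support
  refine ho.measure_pos volume ⟨0, ?_⟩
  rw [Function.mem_support, phi_zero one_pos, abs_one, Real.one_rpow]
  exact one_ne_zero

theorem j10125_memLp_j10125 (p P : ℝ) (q : ℝ) (hp0 : 0 ≤ p) (hP : 0 < P) (hq : 2 ≤ q) (hpq : p * P = q) :
    MemLp (fun t : ℝ => |phi 1 t| ^ p) (ENNReal.ofReal P) volume := by
  have hc : Continuous (fun t : ℝ => |phi 1 t| ^ p) :=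
    (continuous_abs.comp phi_contN).rpow_const (fun _ => Or.inr hp0)
  rw [← integrable_norm_rpow_iff hc.aestronglyMeasurable (by simpa using hP) ENNReal.ofReal_ne_top,
    ENNReal.toReal_ofReal hP.le]
  have e : (fun x : ℝ => ‖|phi 1 x| ^ p‖ ^ P) = fun t => |phi 1 t| ^ q := by
    funext t
    rw [Real.norm_eq_abs, abs_of_nonneg (Real.rpow_nonneg (abs_nonneg _) _),
      ← Real.rpow_mul (abs_nonneg _), hpq]
  rw [e]
  exact (Ip_split q hq).1

theorem j10125_holder_j10125 (a b s θ : ℝ) (ha : 0 < a) (hab : a < b) (hb : b ≤ 1 / 2) (hθ0 : 0 < θ)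
    (hθ1 : θ < 1) (hs : s = θ * a + (1 - θ) * b) :
    s * Real.log (Ip (1 / s)) ≤ θ * (a * Real.log (Ip (1 / a))) + (1 - θ) * (b * Real.log (Ip (1 / b))) := by
  have hb0 : 0 < b := ha.trans hab
  have hθ1' : 0 < 1 - θ := by linarith
  have hs0 : 0 < s := by rw [hs]; positivity
  have hsa : a ≤ s := by rw [hs]; nlinarith
  have hsb : s ≤ b := by rw [hs]; nlinarith
  have h2a : 2 ≤ 1 / a := by
    rw [le_div_iff₀ ha]; linarith
  have h2b : 2 ≤ 1 / b := by
    rw [le_div_iff₀ hb0]; linarith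
  have h2s : 2 ≤ 1 / s := by
    rw [le_div_iff₀ hs0]; linarith
  have hIa := j10125_Ip_pos_j10125 _ h2a
  have hIb := j10125_Ip_pos_j10125 _ h2b
  have hIs := j10125_Ip_pos_j10125 _ h2s
  set P : ℝ := s / (θ * a) with hP
  set Q : ℝ := s / ((1 - θ) * b) with hQ
  have hP0 : 0 < P := by rw [hP]; positivity
  have hQ0 : 0 < Q := by rw [hQ]; positivity
  have hPi : P⁻¹ = θ * a / s := by rw [hP, inv_div]
  have hQi : Q⁻¹ = (1 - θ) * b / s := by rw [hQ, inv_div]
  have hconj : P.HolderConjugate Q := by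
    rw [Real.holderConjugate_iff]
    refine ⟨?_, ?_⟩
    · rw [hP, one_lt_div (by positivity), hs]
      have : 0 < (1 - θ) * b := by positivity
      linarith
    · rw [hPi, hQi, ← add_div, ← hs, div_self hs0.ne']
  have e1 : θ / s * P = 1 / a := by
    rw [hP]; field_simp
  have e2 : (1 - θ) / s * Q = 1 / b := by
    rw [hQ]; field_simp
  have hH := integral_mul_le_Lp_mul_Lq_of_nonneg (μ := (volume : Measure ℝ)) hconj
    (f := fun t => |phi 1 t| ^ (θ / s)) (g := fun t => |phi 1 t| ^ ((1 - θ) / s))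
    (Filter.Eventually.of_forall fun t => Real.rpow_nonneg (abs_nonneg _) _)
    (Filter.Eventually.of_forall fun t => Real.rpow_nonneg (abs_nonneg _) _)
    (j10125_memLp_j10125 _ _ _ (by positivity) hP0 h2a e1) (j10125_memLp_j10125 _ _ _ (by positivity) hQ0 h2b e2)
  have e3 : (∫ t, |phi 1 t| ^ (θ / s) * |phi 1 t| ^ ((1 - θ) / s)) = Ip (1 / s) := by
    unfold Ip
    congr 1
    funext t
    rw [← Real.rpow_add_of_nonneg (abs_nonneg _) (by positivity) (by positivity), ← add_div]
    congr 2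
    ring
  have e4 : (∫ t, (|phi 1 t| ^ (θ / s)) ^ P) = Ip (1 / a) := by
    unfold Ip
    congr 1
    funext t
    rw [← Real.rpow_mul (abs_nonneg _), e1]
  have e5 : (∫ t, (|phi 1 t| ^ ((1 - θ) / s)) ^ Q) = Ip (1 / b) := by
    unfold Ip
    congr 1
    funext t
    rw [← Real.rpow_mul (abs_nonneg _), e2]
  rw [e3, e4, e5, one_div P, one_div Q, hPi, hQi] at hH
  have hlog := Real.log_le_log hIs hH
  rw [Real.log_mul (Real.rpow_pos_of_pos hIa _).ne' (Real.rpow_pos_of_pos hIb _).ne',
    Real.log_rpow hIa, Real.log_rpow hIb] at hlog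
  have h9 := mul_le_mul_of_nonneg_left hlog hs0.le
  refine h9.trans (le_of_eq ?_)
  field_simp

theorem ee_pos_form (s : ℝ) (h0 : 0 < s) (h1 : s ≤ 1 / 2) :
    0 < Ip (1 / s) ∧ ee s = s * Real.log P1 + s / 2 * Real.log s - s * Real.log (Ip (1 / s)) := by
  have h2s : 2 ≤ 1 / s := by
    rw [le_div_iff₀ h0]; linarith
  have hI := j10125_Ip_pos_j10125 _ h2s
  refine ⟨hI, ?_⟩
  have hP := j10125_P1_j10125
  unfold ee
  rw [if_neg h0.ne', Real.log_div (by positivity) hP.ne', Real.log_mul (by positivity) hI.ne',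
    Real.log_sqrt (by positivity), one_div, Real.log_inv]
  ring
theorem ee_chord (a b s : ℝ) (ha : 0 < a) (hab : a < b) (hb : b ≤ 1 / 2) (h0 : a ≤ s) (h1 : s ≤ b) :
    s * Real.log P1 + s / 2 * Real.log s -
      ((b - s) / (b - a) * (a * Real.log (Ip (1 / a))) +
        (s - a) / (b - a) * (b * Real.log (Ip (1 / b)))) ≤ ee s := by
  have hb0 : 0 < b := ha.trans hab
  have hs0 : 0 < s := lt_of_lt_of_le ha h0
  have hba : 0 < b - a := by linarith
  rw [(ee_pos_form s hs0 (h1.trans hb)).2]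
  have key : s * Real.log (Ip (1 / s)) ≤ (b - s) / (b - a) * (a * Real.log (Ip (1 / a))) +
        (s - a) / (b - a) * (b * Real.log (Ip (1 / b))) := by
    rcases eq_or_lt_of_le h0 with h | h
    · subst h
      rw [div_self hba.ne', sub_self, zero_div, zero_mul, add_zero, one_mul]
    rcases eq_or_lt_of_le h1 with h' | h'
    · subst h'
      rw [div_self hba.ne', sub_self, zero_div, zero_mul, zero_add, one_mul]
    have hθ : 1 - (b - s) / (b - a) = (s - a) / (b - a) := by
      field_simp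
      ring
    have := j10125_holder_j10125 a b s ((b - s) / (b - a)) ha hab hb (div_pos (by linarith) hba)
      (by rw [div_lt_one hba]; linarith) (by rw [hθ]; field_simp; ring)
    rwa [hθ] at this
  linarith



end Pool.Agent.Helper82.GC
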