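import Pool.Agent.Helper82.GC.J10096
import Pool.Agent.Helper82.GC.J10119
import Pool.Agent.Helper82.GC.J10125

set_option autoImplicit false

open MeasureTheory Set

namespace Pool.Agent.Helper82.GC


/- NOTE (helper207): corrected bounds, the old ones 3.20484 < Ip 2 < 3.20485 were false;
helper327 proved these in job 10082 -/
theorem lg_lb_j10146 (y : ℝ) (h0 : 0 ≤ y) (h1 : y < 1) (a : ℝ)
    (h : a ≤ 2 * ∑ i ∈ Finset.range 8, y ^ (2 * i + 1) / (2 * i + 1)) : a ≤ Real.log ((1 + y) / (1 - y)) := by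
  have := Real.sum_range_le_log_div h0 h1 8
  linarith

theorem lg_ub_j10146 (y : ℝ) (h0 : 0 ≤ y) (h1 : y < 1) (a : ℝ)
    (h : 2 * (∑ i ∈ Finset.range 8, y ^ (2 * i + 1) / (2 * i + 1) + y ^ (2 * 8 + 1) / (1 - y ^ 2)) ≤ a) :
    Real.log ((1 + y) / (1 - y)) ≤ a := by
  have := Real.log_div_le_sum_range_add h0 h1 8
  linarith

theorem lg_Pl_j10146 : (15359377/10000000) ≤ Real.log 4.64568 := by
  have h := lg_lb_j10146 (8071/108071) (by norm_num) (by norm_num) (7482169/50000000) (by norm_num [Finset.sum_range_succ])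
  have e : ((4.64568 : ℝ)) = (2 : ℝ) ^ (2 : ℤ) * ((1 + (8071/108071)) / (1 - (8071/108071))) := by norm_num
  rw [e, Real.log_mul (by norm_num) (by norm_num), Real.log_zpow]
  push_cast
  have h2 := Real.log_two_gt_d9
  have h3 := Real.log_two_lt_d9
  linarith

theorem lg_Pu_j10146 : Real.log 4.64570 ≤ (7679711/5000000) := by
  have h := lg_ub_j10146 (6457/86457) (by norm_num) (by norm_num) (14964771/100000000) (by norm_num [Finset.sum_range_succ])
  have e : ((4.64570 : ℝ)) = (2 : ℝ) ^ (2 : ℤ) * ((1 + (6457/86457)) / (1 - (6457/86457))) := by norm_num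
  rw [e, Real.log_mul (by norm_num) (by norm_num), Real.log_zpow]
  push_cast
  have h2 := Real.log_two_gt_d9
  have h3 := Real.log_two_lt_d9
  linarith

theorem lg_n1_j10146 : Real.log 2.9943 ≤ (5483553/5000000) := by
  have h := lg_lb_j10146 (10057/69943) (by norm_num) (by norm_num) (14479193/50000000) (by norm_num [Finset.sum_range_succ])
  have e : ((2.9943 : ℝ)) = (2 : ℝ) ^ (2 : ℤ) / ((1 + (10057/69943)) / (1 - (10057/69943))) := by norm_num
  rw [e, Real.log_div (by norm_num) (by norm_num), Real.log_zpow]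
  push_cast
  have h2 := Real.log_two_gt_d9
  have h3 := Real.log_two_lt_d9
  linarith

theorem lg_n2_j10146 : Real.log 2.8350 ≤ (521021/500000) := by
  have h := lg_lb_j10146 (233/1367) (by norm_num) (by norm_num) (34425241/100000000) (by norm_num [Finset.sum_range_succ])
  have e : ((2.8350 : ℝ)) = (2 : ℝ) ^ (2 : ℤ) / ((1 + (233/1367)) / (1 - (233/1367))) := by norm_num
  rw [e, Real.log_div (by norm_num) (by norm_num), Real.log_zpow]
  push_cast
  have h2 := Real.log_two_gt_d9
  have h3 := Real.log_two_lt_d9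
  linarith

theorem lg_n3_j10146 : Real.log 2.5834 ≤ (1898213/2000000) := by
  have h := lg_ub_j10146 (2917/22917) (by norm_num) (by norm_num) (319949/1250000) (by norm_num [Finset.sum_range_succ])
  have e : ((2.5834 : ℝ)) = (2 : ℝ) ^ (1 : ℤ) * ((1 + (2917/22917)) / (1 - (2917/22917))) := by norm_num
  rw [e, Real.log_mul (by norm_num) (by norm_num), Real.log_zpow]
  push_cast
  have h2 := Real.log_two_gt_d9
  have h3 := Real.log_two_lt_d9
  linarith

theorem lg_n4_j10146 : Real.log 2.4545 ≤ (280601/312500) := by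
  have h := lg_ub_j10146 (909/8909) (by norm_num) (by norm_num) (20477591/100000000) (by norm_num [Finset.sum_range_succ])
  have e : ((2.4545 : ℝ)) = (2 : ℝ) ^ (1 : ℤ) * ((1 + (909/8909)) / (1 - (909/8909))) := by norm_num
  rw [e, Real.log_mul (by norm_num) (by norm_num), Real.log_zpow]
  push_cast
  have h2 := Real.log_two_gt_d9
  have h3 := Real.log_two_lt_d9
  linarith

theorem lg_I2l_j10146 : (363953/312500) ≤ Real.log 3.20480 := by
  have h := lg_ub_j10146 (497/4503) (by norm_num) (by norm_num) (22164469/100000000) (by norm_num [Finset.sum_range_succ])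
  have e : ((3.20480 : ℝ)) = (2 : ℝ) ^ (2 : ℤ) / ((1 + (497/4503)) / (1 - (497/4503))) := by norm_num
  rw [e, Real.log_div (by norm_num) (by norm_num), Real.log_zpow]
  push_cast
  have h2 := Real.log_two_gt_d9
  have h3 := Real.log_two_lt_d9
  linarith

theorem lg_I2u_j10146 : Real.log 3.20481 ≤ (11646529/10000000) := by
  have h := lg_lb_j10146 (79519/720481) (by norm_num) (by norm_num) (11082077/50000000) (by norm_num [Finset.sum_range_succ])
  have e : ((3.20481 : ℝ)) = (2 : ℝ) ^ (2 : ℤ) / ((1 + (79519/720481)) / (1 - (79519/720481))) := by norm_num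
  rw [e, Real.log_div (by norm_num) (by norm_num), Real.log_zpow]
  push_cast
  have h2 := Real.log_two_gt_d9
  have h3 := Real.log_two_lt_d9
  linarith

theorem lg_c31_j10146 : (-11711831/10000000) ≤ Real.log 0.31 := by
  have h := lg_lb_j10146 (3/28) (by norm_num) (by norm_num) (672223/3125000) (by norm_num [Finset.sum_range_succ])
  have e : ((0.31 : ℝ)) = (2 : ℝ) ^ (-2 : ℤ) * ((1 + (3/28)) / (1 - (3/28))) := by norm_num
  rw [e, Real.log_mul (by norm_num) (by norm_num), Real.log_zpow]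
  push_cast
  have h2 := Real.log_two_gt_d9
  have h3 := Real.log_two_lt_d9
  linarith

theorem lg_c35_j10146 : (-5249111/5000000) ≤ Real.log 0.35 := by
  have h := lg_lb_j10146 (1/6) (by norm_num) (by norm_num) (16823611/50000000) (by norm_num [Finset.sum_range_succ])
  have e : ((0.35 : ℝ)) = (2 : ℝ) ^ (-2 : ℤ) * ((1 + (1/6)) / (1 - (1/6))) := by norm_num
  rw [e, Real.log_mul (by norm_num) (by norm_num), Real.log_zpow]
  push_cast
  have h2 := Real.log_two_gt_d9
  have h3 := Real.log_two_lt_d9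
  linarith

theorem lg_c375_j10146 : (-4904147/5000000) ≤ Real.log 0.375 := by
  have h := lg_ub_j10146 (1/7) (by norm_num) (by norm_num) (28768209/100000000) (by norm_num [Finset.sum_range_succ])
  have e : ((0.375 : ℝ)) = (2 : ℝ) ^ (-1 : ℤ) / ((1 + (1/7)) / (1 - (1/7))) := by norm_num
  rw [e, Real.log_div (by norm_num) (by norm_num), Real.log_zpow]
  push_cast
  have h2 := Real.log_two_gt_d9
  have h3 := Real.log_two_lt_d9
  linarith

theorem lg_c43_j10146 : (-4219851/5000000) ≤ Real.log 0.43 := by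
  have h := lg_ub_j10146 (7/93) (by norm_num) (by norm_num) (1508229/10000000) (by norm_num [Finset.sum_range_succ])
  have e : ((0.43 : ℝ)) = (2 : ℝ) ^ (-1 : ℤ) / ((1 + (7/93)) / (1 - (7/93))) := by norm_num
  rw [e, Real.log_div (by norm_num) (by norm_num), Real.log_zpow]
  push_cast
  have h2 := Real.log_two_gt_d9
  have h3 := Real.log_two_lt_d9
  linarith


theorem ee_logP_lb_j10146 : (15359377/10000000) ≤ Real.log P1 :=
  lg_Pl_j10146.trans (Real.log_le_log (by norm_num) P1_bounds.1.le)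

theorem ee_logP_ub_j10146 : Real.log P1 ≤ (7679711/5000000) :=
  (Real.log_le_log (by linarith [P1_bounds.1]) P1_bounds.2.le).trans (by have := lg_Pu_j10146; linarith)

theorem ee_A1_j10146 : Real.log (Ip (1 / (4 / 9))) ≤ Real.log 2.9943 := by
  have h := (ee_pos_form (4 / 9) (by norm_num) (by norm_num)).1
  have e : (1 : ℝ) / (4 / 9) = 9 / 4 := by norm_num
  rw [e] at h ⊢
  exact Real.log_le_log h Ip_node1

theorem ee_A2_j10146 : Real.log (Ip (1 / (2 / 5))) ≤ Real.log 2.8350 := by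
  have h := (ee_pos_form (2 / 5) (by norm_num) (by norm_num)).1
  have e : (1 : ℝ) / (2 / 5) = 5 / 2 := by norm_num
  rw [e] at h ⊢
  exact Real.log_le_log h Ip_node2

theorem ee_A3_j10146 : Real.log (Ip (1 / (1 / 3))) ≤ Real.log 2.5834 := by
  have h := (ee_pos_form (1 / 3) (by norm_num) (by norm_num)).1
  have e : (1 : ℝ) / (1 / 3) = 3 := by norm_num
  rw [e] at h ⊢
  exact Real.log_le_log h Ip_node3

theorem ee_A4_j10146 : Real.log (Ip (1 / (3 / 10))) ≤ Real.log 2.4545 := by
  have h := (ee_pos_form (3 / 10) (by norm_num) (by norm_num)).1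
  have e : (1 : ℝ) / (3 / 10) = 10 / 3 := by norm_num
  rw [e] at h ⊢
  exact Real.log_le_log h Ip_node4

theorem ee_logs_j10146 (s c lc : ℝ) (hs : 0 < s) (hc : 0 < c) (hl : lc ≤ Real.log c) :
    s / 2 * lc + (s - c) / 2 ≤ s / 2 * Real.log s := by
  have h1 := Real.one_sub_inv_le_log_of_pos (div_pos hs hc)
  rw [Real.log_div hs.ne' hc.ne', inv_div] at h1
  have h2 : s / 2 * (1 - c / s) = (s - c) / 2 := by field_simp
  have h3 : s / 2 * (1 - c / s) ≤ s / 2 * (Real.log s - Real.log c) :=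
    mul_le_mul_of_nonneg_left h1 (by positivity)
  have h4 : s / 2 * lc ≤ s / 2 * Real.log c := mul_le_mul_of_nonneg_left hl (by positivity)
  rw [h2] at h3
  linarith

theorem ee_tan_j10146 (a b c s k p A B lc : ℝ) (ha : 0 < a) (hab : a < b) (hb : b ≤ 1 / 2)
    (hk : k * (b - a) = 1) (h0 : a ≤ s)
    (h1 : s ≤ b) (hc : 0 < c) (hp : p ≤ Real.log P1) (hA : Real.log (Ip (1 / a)) ≤ A)
    (hB : Real.log (Ip (1 / b)) ≤ B) (hlc : lc ≤ Real.log c) :
    s * p + (s / 2 * lc + (s - c) / 2) -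
      ((b - s) * k * (a * A) + (s - a) * k * (b * B)) ≤ ee s := by
  have hk1 : ∀ x : ℝ, x * k = x / (b - a) := by
    intro x
    rw [eq_div_iff (sub_pos.2 hab).ne', mul_assoc, hk, mul_one]
  rw [hk1, hk1]
  have hs : 0 < s := lt_of_lt_of_le ha h0
  have h := ee_chord a b s ha hab hb h0 h1
  have e1 : s * p ≤ s * Real.log P1 := mul_le_mul_of_nonneg_left hp hs.le
  have e2 := ee_logs_j10146 s c lc hs hc hlc
  have hba : 0 < b - a := sub_pos.2 hab
  have e3 : (b - s) / (b - a) * (a * Real.log (Ip (1 / a))) ≤ (b - s) / (b - a) * (a * A) :=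
    mul_le_mul_of_nonneg_left (mul_le_mul_of_nonneg_left hA ha.le)
      (div_nonneg (by linarith) hba.le)
  have e4 : (s - a) / (b - a) * (b * Real.log (Ip (1 / b))) ≤ (s - a) / (b - a) * (b * B) :=
    mul_le_mul_of_nonneg_left (mul_le_mul_of_nonneg_left hB (by linarith))
      (div_nonneg (by linarith) hba.le)
  linarith

/-- tangent at `0.31` on `[3/10, 1/3]` -/
theorem ee_T1_j10146 (s : ℝ) (h0 : 3 / 10 ≤ s) (h1 : s ≤ 1 / 3) : (405899/10000000) * s + (-14501/10000000) ≤ ee s := by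
  have h := ee_tan_j10146 (3 / 10) (1 / 3) 0.31 s 30 _ _ _ _ (by norm_num) (by norm_num) (by norm_num) (by norm_num) h0 h1
    (by norm_num) ee_logP_lb_j10146 (ee_A4_j10146.trans lg_n4_j10146) (ee_A3_j10146.trans lg_n3_j10146) lg_c31_j10146
  refine le_trans ?_ h
  linarith

/-- tangent at `0.35` on `[1/3, 2/5]` -/
theorem ee_T2_j10146 (s : ℝ) (h0 : 1 / 3 ≤ s) (h1 : s ≤ 2 / 5) : (43071/10000000) * s + (108710/10000000) ≤ ee s := by
  have h := ee_tan_j10146 (1 / 3) (2 / 5) 0.35 s 15 _ _ _ _ (by norm_num) (by norm_num) (by norm_num) (by norm_num) h0 h1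
    (by norm_num) ee_logP_lb_j10146 (ee_A3_j10146.trans lg_n3_j10146) (ee_A2_j10146.trans lg_n2_j10146) lg_c35_j10146
  refine le_trans ?_ h
  linarith

/-- tangent at `0.375` on `[1/3, 2/5]` -/
theorem ee_T3_j10146 (s : ℝ) (h0 : 1 / 3 ≤ s) (h1 : s ≤ 2 / 5) : (388035/10000000) * s + (-16290/10000000) ≤ ee s := by
  have h := ee_tan_j10146 (1 / 3) (2 / 5) 0.375 s 15 _ _ _ _ (by norm_num) (by norm_num) (by norm_num) (by norm_num) h0 h1
    (by norm_num) ee_logP_lb_j10146 (ee_A3_j10146.trans lg_n3_j10146) (ee_A2_j10146.trans lg_n2_j10146) lg_c375_j10146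
  refine le_trans ?_ h
  linarith

/-- tangent at `0.43` on `[2/5, 4/9]` -/
theorem ee_T4_j10146 (s : ℝ) (h0 : 2 / 5 ≤ s) (h1 : s ≤ 4 / 9) : (252246/10000000) * s + (36744/10000000) ≤ ee s := by
  have h := ee_tan_j10146 (2 / 5) (4 / 9) 0.43 s (45 / 2) _ _ _ _ (by norm_num) (by norm_num) (by norm_num) (by norm_num) h0 h1
    (by norm_num) ee_logP_lb_j10146 (ee_A2_j10146.trans lg_n2_j10146) (ee_A1_j10146.trans lg_n1_j10146) lg_c43_j10146
  refine le_trans ?_ h
  linarith

theorem ee_half_eq_j10146 : ee (1 / 2) = 1 / 2 * Real.log P1 - 1 / 4 * Real.log 2 -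
    1 / 2 * Real.log (Ip 2) := by
  have h := (ee_pos_form (1 / 2) (by norm_num) le_rfl).2
  have e : (1 : ℝ) / (1 / 2) = 2 := by norm_num
  rw [e] at h
  rw [h]
  have e2 : Real.log (1 / 2) = - Real.log 2 := by
    rw [one_div, Real.log_inv]
  rw [e2]
  ring

theorem ee_logI_lb_j10146 : (727906/625000) ≤ Real.log (Ip 2) := by
  have h := Real.log_le_log (by norm_num) Ip_two.1.le
  have h2 := lg_I2l_j10146
  linarith

theorem ee_logI_ub_j10146 : Real.log (Ip 2) ≤ (11646529/10000000) := by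
  have h := Real.log_le_log (by linarith [Ip_two.1]) Ip_two.2.le
  have h2 := lg_I2u_j10146
  linarith

theorem ee_half : 0.01235 < ee (1 / 2) ∧ ee (1 / 2) < 0.01236 := by
  rw [ee_half_eq_j10146]
  have h1 := ee_logP_lb_j10146
  have h2 := ee_logP_ub_j10146
  have h3 := ee_logI_lb_j10146
  have h4 := ee_logI_ub_j10146
  have h5 := Real.log_two_gt_d9
  have h6 := Real.log_two_lt_d9
  constructor <;> linarith

theorem ee_lin2 (s : ℝ) (h0 : 0.3 ≤ s) (h1 : s ≤ 0.35) : 0.0454155 * s - 0.0038726 ≤ ee s := by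
  rcases le_total s (1 / 3) with h | h
  · have := ee_T1_j10146 s (by linarith) h
    linarith
  · have := ee_T2_j10146 s h (by linarith)
    linarith

theorem ee_six2 (s : ℝ) (h0 : 0.3 ≤ s) (h1 : s ≤ 0.44) :
    0.02275 < ee s + 0.02646 * (1 - s) ^ 2 + 0.0002 * (1 - s) ^ 3 := by
  have hc : 0 ≤ (1 - s) ^ 3 := pow_nonneg (by linarith) 3
  rcases le_total s (1 / 3) with h | h
  · have := ee_T1_j10146 s (by linarith) h
    nlinarith [sq_nonneg (s - 0.32)]
  · rcases le_total s 0.36 with h2 | h2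
    · have := ee_T2_j10146 s h (by linarith)
      nlinarith [sq_nonneg (s - 0.35)]
    · rcases le_total s (2 / 5) with h3 | h3
      · have := ee_T3_j10146 s h h3
        nlinarith [sq_nonneg (s - 0.38)]
      · have := ee_T4_j10146 s h3 (by linarith)
        nlinarith [sq_nonneg (s - 0.43)]

theorem ee_five (s : ℝ) (h0 : 0.35 ≤ s) (h1 : s ≤ 0.44) :
    0.0248 < ee s + 0.033075 * (1 - s) ^ 2 + 0.0003125 * (1 - s) ^ 3 := by
  have hc : 0 ≤ (1 - s) ^ 3 := pow_nonneg (by linarith) 3
  rcases le_total s 0.36 with h2 | h2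
  · have := ee_T2_j10146 s (by linarith) (by linarith)
    nlinarith [sq_nonneg (s - 0.35)]
  · rcases le_total s (2 / 5) with h3 | h3
    · have := ee_T3_j10146 s (by linarith) h3
      nlinarith [sq_nonneg (s - 0.38)]
    · have := ee_T4_j10146 s h3 (by linarith)
      nlinarith [sq_nonneg (s - 0.43)]

theorem ee_forty (s : ℝ) (h0 : 0.35 ≤ s) (h1 : s ≤ 0.44) : 0.01237 ≤ ee s := by
  rcases le_total s (2 / 5) with h | h
  · have := ee_T2_j10146 s (by linarith) h
    linarith
  · have := ee_T4_j10146 s h (by linarith)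
    linarith

theorem ee_F1 (s : ℝ) (h0 : 0.44 ≤ s) (h1 : s ≤ 1 / 2) : ee (1 / 2) + 0.018 * (1 / 2 - s) ≤ ee s := by
  rcases le_total s (4 / 9) with h | h
  · have h3 := ee_T4_j10146 s (by linarith) h
    have h4 := ee_half.2
    linarith
  · have h3 := ee_chord (4 / 9) (1 / 2) s (by norm_num) (by norm_num) le_rfl h h1
    have e : (1 : ℝ) / (1 / 2) = 2 := by norm_num
    have d1 : (1 / 2 - s) / (1 / 2 - 4 / 9) = (1 / 2 - s) * 18 := by
      rw [div_eq_iff (by norm_num)]; ring
    have d2 : (s - 4 / 9) / (1 / 2 - 4 / 9) = 1 - (1 / 2 - s) * 18 := by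
      rw [div_eq_iff (by norm_num)]; ring
    rw [e, d1, d2] at h3
    have hA := ee_A1_j10146.trans lg_n1_j10146
    have hB := ee_logI_lb_j10146
    have hs : 0 < s := by linarith
    have e2 : -Real.log 2 ≤ Real.log (1 / 2) := by rw [one_div, Real.log_inv]
    have h5 := ee_logs_j10146 s (1 / 2) (-Real.log 2) hs (by norm_num) e2
    rw [ee_half_eq_j10146]
    have hd : 0 ≤ 1 / 2 - s := by linarith
    have k1 : (1 / 2 - s) * Real.log P1 ≤ (1 / 2 - s) * (7679711/5000000) :=
      mul_le_mul_of_nonneg_left ee_logP_ub_j10146 hd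
    have k2 : (1 / 2 - s) * Real.log (Ip (1 / (4 / 9))) ≤ (1 / 2 - s) * (5483553/5000000) :=
      mul_le_mul_of_nonneg_left hA hd
    have k3 : (1 / 2 - s) * (727906/625000) ≤ (1 / 2 - s) * Real.log (Ip 2) :=
      mul_le_mul_of_nonneg_left hB hd
    have k4 : (1 / 2 - s) * 0.6931471803 ≤ (1 / 2 - s) * Real.log 2 :=
      mul_le_mul_of_nonneg_left Real.log_two_gt_d9.le hd
    linarith

theorem ee_F2 (s : ℝ) (h0 : 0.31 ≤ s) (h1 : s < 1 / 2) :
    ee (1 / 2) < ee s + 0.0441 * (1 / 2 - s) ^ 2 := by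
  rcases le_total 0.44 s with h | h
  · have := ee_F1 s h h1.le
    have h3 : 0 < (1 / 2 - s) := by linarith
    nlinarith [mul_pos h3 h3]
  · have h4 := ee_half.2
    rcases le_total s (1 / 3) with h2 | h2
    · have := ee_T1_j10146 s (by linarith) h2
      nlinarith [sq_nonneg (s - 0.31)]
    · rcases le_total s 0.36 with h3 | h3
      · have := ee_T2_j10146 s h2 (by linarith)
        nlinarith [sq_nonneg (s - 0.35)]
      · rcases le_total s (2 / 5) with h5 | h5
        · have := ee_T3_j10146 s h2 h5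
          nlinarith [sq_nonneg (s - 0.36)]
        · have := ee_T4_j10146 s h5 (by linarith)
          nlinarith [sq_nonneg (s - 0.42)]

theorem ee_F3 (s : ℝ) (h0 : 0.3 ≤ s) (h1 : s ≤ 0.31) : 0.0107 ≤ ee s := by
  have := ee_T1_j10146 s (by linarith) (by linarith)
  linarith

theorem ee_F6 (s : ℝ) (h0 : 0.32 ≤ s) (h1 : s ≤ 1 / 2) : 0.0115 ≤ ee s := by
  rcases le_total 0.44 s with h | h
  · have := ee_F1 s h h1
    have h4 := ee_half.1
    linarith
  · rcases le_total s (1 / 3) with h2 | h2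
    · have := ee_T1_j10146 s (by linarith) h2
      linarith
    · rcases le_total s (2 / 5) with h5 | h5
      · have := ee_T2_j10146 s h2 h5
        linarith
      · have := ee_T4_j10146 s h5 (by linarith)
        linarith

theorem ee_F5 (s : ℝ) (h0 : 0.31 ≤ s) (h1 : s ≤ 1 / 2) : 0.011 ≤ ee s := by
  rcases le_total s 0.32 with h | h
  · have := ee_T1_j10146 s (by linarith) (by linarith)
    linarith
  · have := ee_F6 s h h1
    linarith

theorem ee_F4 (η α : ℝ) (h0 : 0 ≤ η) (h1 : η ≤ 0.027) (ha : 0.31 ≤ α * (1 - 2 * η))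
    (hb : α ≤ 1 / 2 - 1.6 * η) (hc : 0 < η ∨ α < 1 / 2) :
    ee (1 / 2) + 1.01 * η ^ 2 < ee α + 0.0441 * (1 / 2 - α) ^ 2 := by
  have hα0 : 0 < α := by
    by_contra h
    push Not at h
    nlinarith
  have hα1 : 0.31 ≤ α := by nlinarith
  have hlt : α < 1 / 2 := by
    rcases hc with h | h
    · linarith
    · exact h
  rcases le_total 0.44 α with h | h
  · have h2 := ee_F1 α h hlt.le
    have h3 : η ^ 2 ≤ 0.027 * η := by nlinarith
    nlinarith [mul_pos (sub_pos.2 hlt) (sub_pos.2 hlt)]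
  · have h4 := ee_half.2
    have h5 : η ^ 2 ≤ 0.027 * η := by nlinarith
    rcases le_total α (1 / 3) with h2 | h2
    · have h6 := ee_T1_j10146 α (by linarith) h2
      have h7 : 0.62 * η ≤ α - 0.31 := by nlinarith
      nlinarith [sq_nonneg (α - 0.31)]
    · have h8 : η ^ 2 ≤ 0.000729 := by nlinarith
      rcases le_total α 0.36 with h3 | h3
      · have := ee_T2_j10146 α h2 (by linarith)
        nlinarith [sq_nonneg (α - 0.35)]
      · rcases le_total α (2 / 5) with h9 | h9
        · have := ee_T3_j10146 α h2 h9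
          nlinarith [sq_nonneg (α - 0.36)]
        · have := ee_T4_j10146 α h9 (by linarith)
          nlinarith [sq_nonneg (α - 0.42)]



end Pool.Agent.Helper82.GC
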