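import Pool.Agent.Helper82.GC.J10126
import Pool.Agent.Helper82.GC.J10146

set_option autoImplicit false

open MeasureTheory Set

namespace Pool.Agent.Helper82.GC


theorem ee_line_right_j10301 (x : ℝ) (h0 : 0.17 ≤ x) (hx1 : x ≤ 0.35) :
    0.0454155 * x - 0.0038726 ≤ ee x := by
  rcases le_total x 0.3 with h | h
  · exact ee_lin1 x h0 h
  · exact ee_lin2 x h hx1

theorem cubic_tangent_j10301 (x0 x : ℝ) (h0 : 0 ≤ x0) (hx : 0 ≤ x) :
    0.1323 * x0 ^ 2 + 0.005 * x0 ^ 3 + (0.2646 * x0 + 0.015 * x0 ^ 2) * (x - x0) ≤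
      0.1323 * x ^ 2 + 0.005 * x ^ 3 := by
  have h1 : 0 ≤ (x - x0) ^ 2 * (0.1323 + 0.005 * (x + 2 * x0)) := by positivity
  have h2 : 0.1323 * x ^ 2 + 0.005 * x ^ 3 - (0.1323 * x0 ^ 2 + 0.005 * x0 ^ 3 +
      (0.2646 * x0 + 0.015 * x0 ^ 2) * (x - x0)) =
      (x - x0) ^ 2 * (0.1323 + 0.005 * (x + 2 * x0)) := by ring
  linarith

theorem ee_support (x0 x : ℝ) (h0 : 0 ≤ x0) (h1 : x0 ≤ 0.17) (hx0 : 0 ≤ x) (hx1 : x ≤ 0.35) :
    0.1323 * x0 ^ 2 + 0.005 * x0 ^ 3 + (0.2646 * x0 + 0.015 * x0 ^ 2) * (x - x0) ≤ ee x := by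
  rcases le_total x 0.17 with h | h
  · exact (cubic_tangent_j10301 x0 x h0 hx0).trans (ee_small x hx0 h)
  · refine le_trans ?_ (ee_line_right_j10301 x h hx1)
    have h2 := cubic_tangent_j10301 x0 0.17 h0 (by norm_num)
    have h3 : (0.2646 * x0 + 0.015 * x0 ^ 2) * (x - 0.17) ≤ 0.0454155 * (x - 0.17) := by
      apply mul_le_mul_of_nonneg_right _ (by linarith)
      nlinarith
    norm_num at h2 h3 ⊢
    linarith

theorem ee_line (x : ℝ) (hx0 : 0 ≤ x) (hx1 : x ≤ 0.35) : 0.0454155 * x - 0.0038726 ≤ ee x := by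
  rcases le_total x 0.17 with h | h
  · refine le_trans ?_ (ee_small x hx0 h)
    have h2 := cubic_tangent_j10301 0.17 x (by norm_num) hx0
    norm_num at h2 ⊢
    linarith
  · exact ee_line_right_j10301 x h hx1



end Pool.Agent.Helper82.GC
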