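import Pool.Agent.Helper82.GC.J9412
import Pool.Agent.Helper82.GC.J9429
import Pool.Agent.Helper82.GC.Sx

set_option autoImplicit false

open MeasureTheory Set

namespace Pool.Agent.Helper82.GC


private theorem H_anti_j10319 (x y : ℝ) (hx : 0 ≤ x) (hxy : x ≤ y) (hy : y ≤ z0) :
    phi 1 y * Real.exp (vr 1 * y ^ 2 / 2) ≤ phi 1 x * Real.exp (vr 1 * x ^ 2 / 2) := by
  have hd : ∀ z, HasDerivAt (fun z => phi 1 z * Real.exp (vr 1 * z ^ 2 / 2))
      (-(z * psi 1 z) * Real.exp (vr 1 * z ^ 2 / 2) +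
        phi 1 z * (Real.exp (vr 1 * z ^ 2 / 2) * (vr 1 * z))) z := by
    intro z
    have h1 : HasDerivAt (fun z : ℝ => vr 1 * z ^ 2 / 2) (vr 1 * z) z := by
      have h0 := ((hasDerivAt_pow 2 z).const_mul (vr 1)).div_const 2
      have e : vr 1 * (((2 : ℕ) : ℝ) * z ^ (2 - 1)) / 2 = vr 1 * z := by
        norm_num
        ring
      rw [e] at h0
      exact h0
    exact (phi_deriv z).mul h1.exp
  have hanti : AntitoneOn (fun z => phi 1 z * Real.exp (vr 1 * z ^ 2 / 2)) (Set.Icc 0 z0) := by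
    refine antitoneOn_of_deriv_nonpos (convex_Icc _ _) ?_ ?_ ?_
    · exact fun z _ => (hd z).continuousAt.continuousWithinAt
    · exact fun z _ => (hd z).differentiableAt.differentiableWithinAt
    · intro z hz
      rw [interior_Icc] at hz
      rw [(hd z).deriv]
      have h2 := vphi_le_psi z hz.1.le hz.2.le
      have h3 := Real.exp_pos (vr 1 * z ^ 2 / 2)
      have h4 : -(z * psi 1 z) * Real.exp (vr 1 * z ^ 2 / 2) +
        phi 1 z * (Real.exp (vr 1 * z ^ 2 / 2) * (vr 1 * z)) =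
        -(z * Real.exp (vr 1 * z ^ 2 / 2) * (psi 1 z - vr 1 * phi 1 z)) := by ring
      rw [h4]
      have h5 : 0 ≤ z * Real.exp (vr 1 * z ^ 2 / 2) * (psi 1 z - vr 1 * phi 1 z) :=
        mul_nonneg (mul_nonneg hz.1.le h3.le) (by linarith)
      linarith
  exact hanti ⟨hx, hxy.trans hy⟩ ⟨hx.trans hxy, hy⟩ hxy

private theorem MG_eq_j10319 (s : ℝ) (hs : 0 < s) :
    MG s = 2 * ∫ t in (0 : ℝ)..(z0 / Real.sqrt s),
      phi 1 (Real.sqrt s * t) * Real.exp (-(vr 1) * (1 - s) * t ^ 2 / 2) := by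
  have hr : 0 < Real.sqrt s := Real.sqrt_pos.2 hs
  have h1 := intervalIntegral.integral_comp_mul_left (a := 0) (b := z0 / Real.sqrt s)
    (fun z => phi 1 z * Real.exp (-(vr 1) * ((1 - s) / s) * z ^ 2 / 2)) hr.ne'
  rw [mul_zero, mul_div_cancel₀ _ hr.ne', smul_eq_mul] at h1
  have h2 : (fun t => phi 1 (Real.sqrt s * t) *
      Real.exp (-(vr 1) * ((1 - s) / s) * (Real.sqrt s * t) ^ 2 / 2)) =
      fun t => phi 1 (Real.sqrt s * t) * Real.exp (-(vr 1) * (1 - s) * t ^ 2 / 2) := by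
    funext t
    congr 2
    rw [mul_pow, Real.sq_sqrt hs.le]
    field_simp
  rw [h2] at h1
  unfold MG
  rw [h1]
  ring

theorem MG_anti (a b : ℝ) (ha : 0.3 ≤ a) (hab : a ≤ b) (hb : b < 1) : MG b ≤ MG a := by
  have ha0 : 0 < a := by norm_num at ha ⊢; linarith
  have hb0 : 0 < b := by linarith
  have hz0 : 0 < z0 := by linarith [z0_bounds.1]
  have hra : 0 < Real.sqrt a := Real.sqrt_pos.2 ha0
  have hrb : 0 < Real.sqrt b := Real.sqrt_pos.2 hb0
  have hrab : Real.sqrt a ≤ Real.sqrt b := Real.sqrt_le_sqrt hab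
  have hdiv : z0 / Real.sqrt b ≤ z0 / Real.sqrt a := by
    apply div_le_div_of_nonneg_left hz0.le hra hrab
  have hcont : ∀ s : ℝ, Continuous (fun t => phi 1 (Real.sqrt s * t) *
      Real.exp (-(vr 1) * (1 - s) * t ^ 2 / 2)) := by
    intro s
    have h1 : Continuous (fun t => phi 1 (Real.sqrt s * t)) :=
      phi_contN.comp (continuous_const.mul continuous_id)
    exact h1.mul (by fun_prop)
  rw [MG_eq_j10319 b hb0, MG_eq_j10319 a ha0]
  apply mul_le_mul_of_nonneg_left _ (by norm_num : (0 : ℝ) ≤ 2)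
  have hle1 : ∫ t in (0 : ℝ)..(z0 / Real.sqrt b),
      phi 1 (Real.sqrt b * t) * Real.exp (-(vr 1) * (1 - b) * t ^ 2 / 2) ≤
      ∫ t in (0 : ℝ)..(z0 / Real.sqrt b),
      phi 1 (Real.sqrt a * t) * Real.exp (-(vr 1) * (1 - a) * t ^ 2 / 2) := by
    refine intervalIntegral.integral_mono_on (by positivity)
      ((hcont b).intervalIntegrable _ _) ((hcont a).intervalIntegrable _ _) ?_
    intro t ht
    have h1 : Real.sqrt b * t ≤ z0 := by
      have := ht.2
      rw [le_div_iff₀ hrb] at this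
      linarith
    have h2 := H_anti_j10319 (Real.sqrt a * t) (Real.sqrt b * t) (mul_nonneg hra.le ht.1)
      (mul_le_mul_of_nonneg_right hrab ht.1) h1
    have h3 := Real.exp_pos (-(vr 1) * t ^ 2 / 2)
    have h4 := mul_le_mul_of_nonneg_right h2 h3.le
    rw [mul_assoc, mul_assoc, ← Real.exp_add, ← Real.exp_add, mul_pow, mul_pow,
      Real.sq_sqrt hb0.le, Real.sq_sqrt ha0.le] at h4
    have e1 : vr 1 * (b * t ^ 2) / 2 + -(vr 1) * t ^ 2 / 2 = -(vr 1) * (1 - b) * t ^ 2 / 2 := by ring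
    have e2 : vr 1 * (a * t ^ 2) / 2 + -(vr 1) * t ^ 2 / 2 = -(vr 1) * (1 - a) * t ^ 2 / 2 := by ring
    rw [e1, e2] at h4
    exact h4
  refine hle1.trans ?_
  refine intervalIntegral.integral_mono_interval le_rfl (by positivity) hdiv ?_
    ((hcont a).intervalIntegrable _ _)
  filter_upwards [ae_restrict_mem measurableSet_Ioc] with t ht
  have h1 : Real.sqrt a * t ≤ z0 := by
    have := ht.2
    rw [le_div_iff₀ hra] at this
    linarith
  exact mul_nonneg (phi_nonneg _ (mul_nonneg hra.le ht.1.le) h1) (Real.exp_pos _).le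



end Pool.Agent.Helper82.GC
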