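import Pool.Agent.Helper82.GC.J9429
import Pool.Agent.Helper82.GC.Sx

set_option autoImplicit false

open MeasureTheory Set

namespace Pool.Agent.Helper82.GC


open Finset in
theorem ex_deriv_j10321 (n : ℕ) (t : ℝ) :
    HasDerivAt (fun t : ℝ => ∑ j ∈ range (n + 1), (-t) ^ j / (Nat.factorial j : ℝ))
      (-∑ j ∈ range n, (-t) ^ j / (Nat.factorial j : ℝ)) t := by
  induction n with
  | zero => simpa using hasDerivAt_const t (1 : ℝ)
  | succ n ih =>
    have h1 : HasDerivAt (fun t : ℝ => (-t) ^ (n + 1) / (Nat.factorial (n + 1) : ℝ))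
        (-((-t) ^ n / (Nat.factorial n : ℝ))) t := by
      have h2 := ((hasDerivAt_id t).neg.pow (n + 1)).div_const (Nat.factorial (n + 1) : ℝ)
      refine h2.congr_deriv ?_
      rw [Nat.factorial_succ]
      have h3 : (Nat.factorial n : ℝ) ≠ 0 := by positivity
      have h4 : (n : ℝ) + 1 ≠ 0 := by positivity
      push_cast
      simp only [Pi.neg_apply, id]
      field_simp
    have h5 := ih.add h1
    rw [← neg_add, ← sum_range_succ (fun j => (-t) ^ j / (Nat.factorial j : ℝ))] at h5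
    refine h5.congr_of_eventuallyEq (Filter.Eventually.of_forall fun x => ?_)
    exact sum_range_succ (fun j => (-x) ^ j / (Nat.factorial j : ℝ)) (n + 1)

open Finset in
theorem ex_nonneg_j10321 (n : ℕ) : ∀ t : ℝ, 0 ≤ t →
    0 ≤ (-1) ^ n * (∑ j ∈ range (n + 1), (-t) ^ j / (Nat.factorial j : ℝ) - Real.exp (-t)) := by
  induction n with
  | zero =>
    intro t ht
    simp
    exact ht
  | succ n ih =>
    intro t ht
    have hd : ∀ t : ℝ, HasDerivAt (fun t : ℝ => (-1) ^ (n + 1) *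
        (∑ j ∈ range (n + 2), (-t) ^ j / (Nat.factorial j : ℝ) - Real.exp (-t)))
        ((-1) ^ n * (∑ j ∈ range (n + 1), (-t) ^ j / (Nat.factorial j : ℝ) - Real.exp (-t))) t := by
      intro t
      have h1 := ex_deriv_j10321 (n + 1) t
      have h2 : HasDerivAt (fun t : ℝ => Real.exp (-t)) (-Real.exp (-t)) t := by
        simpa using (hasDerivAt_id t).neg.exp
      have h3 := (h1.sub h2).const_mul ((-1 : ℝ) ^ (n + 1))
      refine h3.congr_deriv ?_
      ring
    have hmono : MonotoneOn (fun t : ℝ => (-1) ^ (n + 1) *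
        (∑ j ∈ range (n + 2), (-t) ^ j / (Nat.factorial j : ℝ) - Real.exp (-t))) (Set.Ici 0) := by
      refine monotoneOn_of_deriv_nonneg (convex_Ici 0) ?_ ?_ ?_
      · exact fun x _ => (hd x).continuousAt.continuousWithinAt
      · exact fun x _ => (hd x).differentiableAt.differentiableWithinAt
      · intro x hx
        rw [interior_Ici] at hx
        rw [(hd x).deriv]
        exact ih x (le_of_lt hx)
    have h4 := hmono (Set.mem_Ici.2 le_rfl) (Set.mem_Ici.2 ht) ht
    refine le_trans (le_of_eq ?_) h4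
    show (0 : ℝ) = (-1) ^ (n + 1) *
        (∑ j ∈ range (n + 2), (-(0 : ℝ)) ^ j / (Nat.factorial j : ℝ) - Real.exp (-0))
    rw [sum_range_succ']
    simp

theorem exp_le_T_j10321 (t : ℝ) (ht : 0 ≤ t) :
    Real.exp (-t) ≤ ∑ j ∈ Finset.range 9, (-t) ^ j / (Nat.factorial j : ℝ) := by
  have := ex_nonneg_j10321 8 t ht
  norm_num at this
  norm_num
  linarith

/-- rounded coefficients -/
noncomputable def wq_j10321 : ℕ → ℝ
  | 0 => 1
  | 1 => -0.291125
  | 2 => 0.1645004
  | 3 => -0.1136269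
  | 4 => 0.0865141
  | 5 => -0.0697513
  | 6 => 0.0583898
  | _ => 0

theorem phi_le_U_j10321 (z : ℝ) :
    phi 1 z ≤ ∑ k ∈ Finset.range 7, wq_j10321 k / (Nat.factorial (2 * k)) * z ^ (2 * k) := by
  have h := (abs_le.1 (phi_taylor 6 z)).2
  have h1 : 0.291125 * z ^ 2 ≤ mom 1 * z ^ 2 :=
    mul_le_mul_of_nonneg_right (by have := mom_1.1; norm_num at this ⊢; linarith) (by positivity)
  have h2 : mom 2 * z ^ 4 ≤ 0.1645004 * z ^ 4 :=
    mul_le_mul_of_nonneg_right (by have := mom_2.2; norm_num at this ⊢; linarith) (by positivity)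
  have h3 : 0.1136269 * z ^ 6 ≤ mom 3 * z ^ 6 :=
    mul_le_mul_of_nonneg_right (by have := mom_3.1; norm_num at this ⊢; linarith) (by positivity)
  have h4 : mom 4 * z ^ 8 ≤ 0.0865141 * z ^ 8 :=
    mul_le_mul_of_nonneg_right (by have := mom_4.2; norm_num at this ⊢; linarith) (by positivity)
  have h5 : 0.0697513 * z ^ 10 ≤ mom 5 * z ^ 10 :=
    mul_le_mul_of_nonneg_right (by have := mom_5.1; norm_num at this ⊢; linarith) (by positivity)
  have h6 : mom 6 * z ^ 12 ≤ 0.0583898 * z ^ 12 :=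
    mul_le_mul_of_nonneg_right (by have := mom_6.2; norm_num at this ⊢; linarith) (by positivity)
  simp only [Finset.sum_range_succ, Finset.sum_range_zero] at h ⊢
  rw [mom_zero] at h
  norm_num [Nat.factorial, wq_j10321] at h h1 h2 h3 h4 h5 h6 ⊢
  linarith

open Finset in
theorem int_prod_j10321 (a b : ℕ → ℝ) (m n : ℕ) (A : ℝ) :
    ∫ z in (0 : ℝ)..A, (∑ k ∈ range m, a k * z ^ (2 * k)) * (∑ j ∈ range n, b j * z ^ (2 * j)) =
      ∑ k ∈ range m, ∑ j ∈ range n, a k * b j * (A ^ (2 * (k + j) + 1) / (2 * (k + j : ℕ) + 1)) := by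
  have h1 : ∀ z : ℝ, (∑ k ∈ range m, a k * z ^ (2 * k)) * (∑ j ∈ range n, b j * z ^ (2 * j)) =
      ∑ k ∈ range m, ∑ j ∈ range n, a k * b j * z ^ (2 * (k + j)) := by
    intro z
    rw [sum_mul_sum]
    refine sum_congr rfl fun k _ => sum_congr rfl fun j _ => ?_
    rw [mul_add, pow_add]
    ring
  simp only [h1]
  rw [intervalIntegral.integral_finsetSum
    (fun k _ => Continuous.intervalIntegrable (by fun_prop) _ _)]
  refine sum_congr rfl fun k _ => ?_
  rw [intervalIntegral.integral_finsetSum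
    (fun j _ => Continuous.intervalIntegrable (by fun_prop) _ _)]
  refine sum_congr rfl fun j _ => ?_
  rw [intervalIntegral.integral_const_mul, integral_pow]
  push_cast
  simp

theorem MG_le_j10321 (s C D t : ℝ) (hs0 : 0 < s) (hs1 : s < 1) (hC : 0 ≤ C)
    (hC2 : C * (2 * s) ≤ 0.291125 * (1 - s)) (hD : 0 < D) (hD2 : 4 ≤ D ^ 2 * s)
    (hfin : D * ((∑ k ∈ Finset.range 7, ∑ j ∈ Finset.range 9,
      (wq_j10321 k / (Nat.factorial (2 * k))) * ((-C) ^ j / (Nat.factorial j)) *
        ((3.4947 : ℝ) ^ (2 * (k + j) + 1) / (2 * (k + j : ℕ) + 1))) + 0.0001) ≤ t) :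
    MG s ≤ t := by
  have hz := z0_bounds
  have hv : 0.291125 < vr 1 := by
    have := mom_1.1
    rw [← vr_eq_mom] at this
    norm_num at this ⊢
    linarith
  have hvs : C ≤ vr 1 * ((1 - s) / s) / 2 := by
    have h1 : C * (2 * s) ≤ vr 1 * (1 - s) :=
      hC2.trans (mul_le_mul_of_nonneg_right hv.le (by linarith))
    have h2 : vr 1 * ((1 - s) / s) / 2 = (vr 1 * (1 - s)) / (2 * s) := by
      field_simp
    rw [h2, le_div_iff₀ (by positivity)]
    exact h1
  set f : ℝ → ℝ := fun z => phi 1 z * Real.exp (-(vr 1) * ((1 - s) / s) * z ^ 2 / 2) with hf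
  have hfc : Continuous f := phi_contN.mul (by fun_prop)
  have hex : ∀ z : ℝ, -(vr 1) * ((1 - s) / s) * z ^ 2 / 2 ≤ -(C * z ^ 2) := by
    intro z
    have := mul_le_mul_of_nonneg_right hvs (sq_nonneg z)
    linarith
  have hexT : ∀ z : ℝ, Real.exp (-(vr 1) * ((1 - s) / s) * z ^ 2 / 2) ≤
      ∑ j ∈ Finset.range 9, ((-C) ^ j / (Nat.factorial j)) * z ^ (2 * j) := by
    intro z
    refine (Real.exp_le_exp.2 (hex z)).trans ((exp_le_T_j10321 _ (by positivity)).trans (le_of_eq ?_))
    refine Finset.sum_congr rfl fun j _ => ?_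
    rw [show -(C * z ^ 2) = (-C) * z ^ 2 by ring, mul_pow, ← pow_mul]
    ring
  have hfU : ∀ z ∈ Set.Icc (0 : ℝ) 3.4947, f z ≤
      (∑ k ∈ Finset.range 7, wq_j10321 k / (Nat.factorial (2 * k)) * z ^ (2 * k)) *
      (∑ j ∈ Finset.range 9, ((-C) ^ j / (Nat.factorial j)) * z ^ (2 * j)) := by
    intro z hz'
    have h1 : 0 ≤ phi 1 z := phi_nonneg z hz'.1 (hz'.2.trans hz.1.le)
    exact mul_le_mul (phi_le_U_j10321 z) (hexT z) (Real.exp_pos _).le (h1.trans (phi_le_U_j10321 z))
  have hI1 : ∫ z in (0 : ℝ)..3.4947, f z ≤ ∑ k ∈ Finset.range 7, ∑ j ∈ Finset.range 9,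
      (wq_j10321 k / (Nat.factorial (2 * k))) * ((-C) ^ j / (Nat.factorial j)) *
        ((3.4947 : ℝ) ^ (2 * (k + j) + 1) / (2 * (k + j : ℕ) + 1)) := by
    rw [← int_prod_j10321]
    exact intervalIntegral.integral_mono_on (by norm_num) (hfc.intervalIntegrable _ _)
      (Continuous.intervalIntegrable (by fun_prop) _ _) hfU
  have hI2 : ∫ z in (3.4947 : ℝ)..z0, f z ≤ 0.0001 := by
    have h1 : ∫ z in (3.4947 : ℝ)..z0, f z ≤ ∫ z in (3.4947 : ℝ)..z0, (1 : ℝ) := by
      refine intervalIntegral.integral_mono_on hz.1.le (hfc.intervalIntegrable _ _)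
        (continuous_const.intervalIntegrable _ _) fun z hz' => ?_
      have h2 : 0 ≤ phi 1 z := phi_nonneg z (le_trans (by norm_num) hz'.1) hz'.2
      have h3 := abs_phi_le_one one_pos z
      rw [abs_of_nonneg h2] at h3
      have h4 : Real.exp (-(vr 1) * ((1 - s) / s) * z ^ 2 / 2) ≤ 1 := by
        rw [Real.exp_le_one_iff]
        refine (hex z).trans ?_
        have : 0 ≤ C * z ^ 2 := by positivity
        linarith
      exact mul_le_one₀ h3 (Real.exp_pos _).le h4
    rw [intervalIntegral.integral_const, smul_eq_mul, mul_one] at h1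
    have := hz.2
    norm_num at this h1 ⊢
    linarith
  have hI0 : 0 ≤ ∫ z in (0 : ℝ)..z0, f z := by
    have hz0 : 0 ≤ z0 := le_trans (by norm_num) hz.1.le
    refine intervalIntegral.integral_nonneg hz0 fun z hz' => ?_
    exact mul_nonneg (phi_nonneg z hz'.1 hz'.2) (Real.exp_pos _).le
  have hI : ∫ z in (0 : ℝ)..z0, f z = (∫ z in (0 : ℝ)..3.4947, f z) + ∫ z in (3.4947 : ℝ)..z0, f z :=
    (intervalIntegral.integral_add_adjacent_intervals (hfc.intervalIntegrable _ _)
      (hfc.intervalIntegrable _ _)).symm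
  have hD3 : 2 / Real.sqrt s ≤ D := by
    rw [div_le_iff₀ (Real.sqrt_pos.2 hs0)]
    refine le_of_sq_le_sq ?_ (by positivity)
    rw [mul_pow, Real.sq_sqrt hs0.le]
    linarith
  refine le_trans ?_ hfin
  show 2 / Real.sqrt s * ∫ z in (0 : ℝ)..z0, f z ≤ _
  refine mul_le_mul hD3 ?_ hI0 hD.le
  rw [hI]
  exact add_le_add hI1 hI2

theorem MG_44 : MG 0.44 ≤ 4.4890 := by
  refine MG_le_j10321 _ 0.18526 3.0152 _ (by norm_num) (by norm_num) (by norm_num) (by norm_num) (by norm_num)
    (by norm_num) ?_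
  simp only [Finset.sum_range_succ, Finset.sum_range_zero, wq_j10321, Nat.factorial]
  norm_num
theorem MG_45 : MG 0.45 ≤ 4.4820 := by
  refine MG_le_j10321 _ 0.177909 2.9815 _ (by norm_num) (by norm_num) (by norm_num) (by norm_num) (by norm_num)
    (by norm_num) ?_
  simp only [Finset.sum_range_succ, Finset.sum_range_zero, wq_j10321, Nat.factorial]
  norm_num
theorem MG_47 : MG 0.47 ≤ 4.4672 := by
  refine MG_le_j10321 _ 0.164144 2.9174 _ (by norm_num) (by norm_num) (by norm_num) (by norm_num) (by norm_num)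
    (by norm_num) ?_
  simp only [Finset.sum_range_succ, Finset.sum_range_zero, wq_j10321, Nat.factorial]
  norm_num
theorem MG_485 : MG 0.485 ≤ 4.4560 := by
  refine MG_le_j10321 _ 0.154566 2.8719 _ (by norm_num) (by norm_num) (by norm_num) (by norm_num) (by norm_num)
    (by norm_num) ?_
  simp only [Finset.sum_range_succ, Finset.sum_range_zero, wq_j10321, Nat.factorial]
  norm_num
theorem MG_50 : MG 0.5 ≤ 4.4444 := by
  refine MG_le_j10321 _ 0.14556 2.8285 _ (by norm_num) (by norm_num) (by norm_num) (by norm_num) (by norm_num)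
    (by norm_num) ?_
  simp only [Finset.sum_range_succ, Finset.sum_range_zero, wq_j10321, Nat.factorial]
  norm_num



end Pool.Agent.Helper82.GC
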