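import Pool.Agent.Helper82.GC.J9286

set_option autoImplicit false

open MeasureTheory Set

namespace Pool.Agent.Helper82.GC


theorem aux_kr_psi_zero_j9412 : psi 1 0 = vr 1 := by
  unfold psi vr
  rw [phi_zero one_pos]
  simp [Real.sinc_zero]

theorem aux_phi_cont_j9412 : Continuous (phi 1) :=
  continuous_iff_continuousAt.mpr fun z => (phi_deriv z).continuousAt

theorem aux_psi_cont_j9412 : Continuous (psi 1) :=
  continuous_iff_continuousAt.mpr fun z => (psi_deriv z).continuousAt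

theorem aux_z0_pos_j9412 : 0 < z0 := by
  have := z0_bounds.1
  linarith

/-- the quotient minus its polynomial lower bound is monotone -/
theorem aux_mono_j9412 : MonotoneOn (fun z => psi 1 z / phi 1 z -
    (0.0148 * z ^ 2 + 0.001 * z ^ 4 + 0.00015 * z ^ 6)) (Set.Ico 0 z0) := by
  have hderiv : ∀ z ∈ Set.Ico (0:ℝ) z0, HasDerivAt (fun z => psi 1 z / phi 1 z -
    (0.0148 * z ^ 2 + 0.001 * z ^ 4 + 0.00015 * z ^ 6))
    (z * ((psi 1 z ^ 2 - chi z * phi 1 z) / phi 1 z ^ 2) -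
      z * (0.0296 + 0.004 * z ^ 2 + 0.0009 * z ^ 4)) z := by
    intro z hz
    have hpos := phi_pos z hz.1 hz.2
    have h1 := (psi_deriv z).div (phi_deriv z) hpos.ne'
    have h2 : HasDerivAt (fun z : ℝ => 0.0148 * z ^ 2 + 0.001 * z ^ 4 + 0.00015 * z ^ 6)
        (z * (0.0296 + 0.004 * z ^ 2 + 0.0009 * z ^ 4)) z := by
      have a := ((hasDerivAt_pow 2 z).const_mul (0.0148:ℝ))
      have b := ((hasDerivAt_pow 4 z).const_mul (0.001:ℝ))
      have c := ((hasDerivAt_pow 6 z).const_mul (0.00015:ℝ))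
      refine ((a.add b).add c).congr_deriv ?_
      norm_num
      ring
    have h3 := h1.sub h2
    refine h3.congr_deriv ?_
    field_simp
    ring
  apply monotoneOn_of_deriv_nonneg (convex_Ico 0 z0)
  · intro z hz
    exact (hderiv z hz).continuousAt.continuousWithinAt
  · intro z hz
    rw [interior_Ico] at hz
    exact (hderiv z ⟨hz.1.le, hz.2⟩).differentiableAt.differentiableWithinAt
  · intro z hz
    rw [interior_Ico] at hz
    rw [(hderiv z ⟨hz.1.le, hz.2⟩).deriv]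
    have hpos := phi_pos z hz.1.le hz.2
    have hb := bracket_one z hz.1.le hz.2.le
    have : (0.0296 + 0.004 * z ^ 2 + 0.0009 * z ^ 4) ≤
        (psi 1 z ^ 2 - chi z * phi 1 z) / phi 1 z ^ 2 := by
      rw [le_div_iff₀ (by positivity)]
      exact hb
    have h0 : 0 < z := hz.1
    nlinarith

theorem aux_quot_mono_j9412 {a b : ℝ} (ha : 0 ≤ a) (hab : a ≤ b) (hb : b < z0) :
    0.0148 * (b ^ 2 - a ^ 2) + 0.001 * (b ^ 4 - a ^ 4) + 0.00015 * (b ^ 6 - a ^ 6) ≤
      psi 1 b / phi 1 b - psi 1 a / phi 1 a := by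
  have := aux_mono_j9412 (a := a) (b := b) ⟨ha, lt_of_le_of_lt hab hb⟩ ⟨ha.trans hab, hb⟩ hab
  simp only at this
  linarith

theorem aux_quot_mono'_j9412 {a b : ℝ} (ha : 0 ≤ a) (hab : a ≤ b) (hb : b < z0) :
    psi 1 a / phi 1 a ≤ psi 1 b / phi 1 b := by
  have h := aux_quot_mono_j9412 ha hab hb
  have h2 : a ^ 2 ≤ b ^ 2 := pow_le_pow_left₀ ha hab 2
  have h4 : a ^ 4 ≤ b ^ 4 := pow_le_pow_left₀ ha hab 4
  have h6 : a ^ 6 ≤ b ^ 6 := pow_le_pow_left₀ ha hab 6
  nlinarith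

theorem aux_closure_j9412 {f g : ℝ → ℝ} (hf : Continuous f) (hg : Continuous g)
    (h : ∀ z, 0 ≤ z → z < z0 → f z ≤ g z) (z : ℝ) (h0 : 0 ≤ z) (h1 : z ≤ z0) : f z ≤ g z := by
  have hcl : IsClosed {z | f z ≤ g z} := isClosed_le hf hg
  have hsub : Set.Ico 0 z0 ⊆ {z | f z ≤ g z} := fun z hz => h z hz.1 hz.2
  have := closure_minimal hsub hcl
  rw [closure_Ico aux_z0_pos_j9412.ne] at this
  exact this ⟨h0, h1⟩

theorem pair_main (β τ : ℝ) (hb0 : 0 ≤ β) (hb1 : β ≤ 1) (h0 : 0 ≤ τ) (h1 : τ ≤ z0) :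
    (1 - β) * τ ^ 2 * (phi 1 τ * phi 1 (Real.sqrt β * τ)) *
      (0.0148 + 0.001 * (1 + β) * τ ^ 2 + 0.00015 * (1 + β + β ^ 2) * τ ^ 4) ≤
    psi 1 τ * phi 1 (Real.sqrt β * τ) - psi 1 (Real.sqrt β * τ) * phi 1 τ := by
  have hc := aux_phi_cont_j9412
  have hc' := aux_psi_cont_j9412
  refine aux_closure_j9412 (f := fun τ => (1 - β) * τ ^ 2 * (phi 1 τ * phi 1 (Real.sqrt β * τ)) *
      (0.0148 + 0.001 * (1 + β) * τ ^ 2 + 0.00015 * (1 + β + β ^ 2) * τ ^ 4))
      (g := fun τ => psi 1 τ * phi 1 (Real.sqrt β * τ) - psi 1 (Real.sqrt β * τ) * phi 1 τ)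
      (by fun_prop) (by fun_prop) ?_ τ h0 h1
  intro τ h0 h1
  have hs0 : 0 ≤ Real.sqrt β := Real.sqrt_nonneg β
  have hs1 : Real.sqrt β ≤ 1 := by
    exact Real.sqrt_le_one.mpr (by assumption)
  have hsq : Real.sqrt β ^ 2 = β := Real.sq_sqrt hb0
  set s := Real.sqrt β with hs
  have ha : 0 ≤ s * τ := mul_nonneg hs0 h0
  have hab : s * τ ≤ τ := by nlinarith
  have hq := aux_quot_mono_j9412 ha hab h1
  have hp1 := phi_pos τ h0 h1
  have hp2 := phi_pos (s * τ) ha (lt_of_le_of_lt hab h1)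
  have e : psi 1 τ * phi 1 (s * τ) - psi 1 (s * τ) * phi 1 τ =
      (psi 1 τ / phi 1 τ - psi 1 (s * τ) / phi 1 (s * τ)) * (phi 1 τ * phi 1 (s * τ)) := by
    field_simp
  rw [e]
  have e2 : (1 - β) * τ ^ 2 * (phi 1 τ * phi 1 (s * τ)) *
      (0.0148 + 0.001 * (1 + β) * τ ^ 2 + 0.00015 * (1 + β + β ^ 2) * τ ^ 4) =
      (0.0148 * (τ ^ 2 - (s * τ) ^ 2) + 0.001 * (τ ^ 4 - (s * τ) ^ 4) +
        0.00015 * (τ ^ 6 - (s * τ) ^ 6)) * (phi 1 τ * phi 1 (s * τ)) := by
    have a2 : (s * τ) ^ 2 = β * τ ^ 2 := by rw [mul_pow, hsq]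
    have a4 : (s * τ) ^ 4 = β ^ 2 * τ ^ 4 := by
      rw [show (s * τ) ^ 4 = ((s * τ) ^ 2) ^ 2 by ring, a2]; ring
    have a6 : (s * τ) ^ 6 = β ^ 3 * τ ^ 6 := by
      rw [show (s * τ) ^ 6 = ((s * τ) ^ 2) ^ 3 by ring, a2]; ring
    rw [a2, a4, a6]
    ring
  rw [e2]
  exact mul_le_mul_of_nonneg_right hq (mul_pos hp1 hp2).le

theorem vphi_le_psi (z : ℝ) (h0 : 0 ≤ z) (h1 : z ≤ z0) : vr 1 * phi 1 z ≤ psi 1 z := by
  refine aux_closure_j9412 (f := fun z => vr 1 * phi 1 z) (g := fun z => psi 1 z)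
    (aux_phi_cont_j9412.const_mul _) aux_psi_cont_j9412 ?_ z h0 h1
  intro z h0 h1
  have h := aux_quot_mono'_j9412 le_rfl h0 h1
  rw [phi_zero one_pos, div_one, aux_kr_psi_zero_j9412] at h
  have hp := phi_pos z h0 h1
  rwa [le_div_iff₀ hp] at h

theorem phi_rpow_le (u τ : ℝ) (hu0 : 0 ≤ u) (hu1 : u ≤ 1) (h0 : 0 ≤ τ) (h1 : τ ≤ z0) :
    phi 1 τ ^ u ≤ phi 1 (Real.sqrt u * τ) := by
  have hs0 : 0 ≤ Real.sqrt u := Real.sqrt_nonneg u
  have hs1 : Real.sqrt u ≤ 1 := by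
    exact Real.sqrt_le_one.mpr (by assumption)
  have hsq : Real.sqrt u * Real.sqrt u = u := Real.mul_self_sqrt hu0
  rcases eq_or_lt_of_le h1 with h1 | h1
  · subst h1
    rw [phi_z0]
    rcases eq_or_lt_of_le hu0 with hu | hu
    · rw [← hu]
      simp [phi_zero one_pos]
    · rw [Real.zero_rpow hu.ne']
      rcases eq_or_lt_of_le hs1 with hs | hs
      · rw [hs, one_mul, phi_z0]
      · exact (phi_pos _ (mul_nonneg hs0 h0) (by nlinarith [aux_z0_pos_j9412])).le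
  · set s := Real.sqrt u with hs
    have hmono : MonotoneOn (fun τ => Real.log (phi 1 (s * τ)) - u * Real.log (phi 1 τ))
        (Set.Ico 0 z0) := by
      have hderiv : ∀ z ∈ Set.Ico (0:ℝ) z0, HasDerivAt
          (fun τ => Real.log (phi 1 (s * τ)) - u * Real.log (phi 1 τ))
          (u * z * (psi 1 z / phi 1 z - psi 1 (s * z) / phi 1 (s * z))) z := by
        intro z hz
        have ha : 0 ≤ s * z := mul_nonneg hs0 hz.1
        have hab : s * z ≤ z := by nlinarith [hz.1]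
        have hp1 := phi_pos z hz.1 hz.2
        have hp2 := phi_pos (s * z) ha (lt_of_le_of_lt hab hz.2)
        have d1 : HasDerivAt (fun τ => phi 1 (s * τ)) (-((s * z) * psi 1 (s * z)) * s) z := by
          have hm : HasDerivAt (fun τ : ℝ => s * τ) s z := by
            simpa using (hasDerivAt_id z).const_mul s
          exact (phi_deriv (s * z)).comp z hm
        have d2 := d1.log hp2.ne'
        have d3 := ((phi_deriv z).log hp1.ne').const_mul u
        have d4 := d2.sub d3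
        refine d4.congr_deriv ?_
        rw [← hsq]
        field_simp
        ring
      apply monotoneOn_of_deriv_nonneg (convex_Ico 0 z0)
      · intro z hz
        exact (hderiv z hz).continuousAt.continuousWithinAt
      · intro z hz
        rw [interior_Ico] at hz
        exact (hderiv z ⟨hz.1.le, hz.2⟩).differentiableAt.differentiableWithinAt
      · intro z hz
        rw [interior_Ico] at hz
        rw [(hderiv z ⟨hz.1.le, hz.2⟩).deriv]
        have ha : 0 ≤ s * z := mul_nonneg hs0 hz.1.le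
        have hab : s * z ≤ z := by nlinarith [hz.1]
        have := aux_quot_mono'_j9412 ha hab hz.2
        exact mul_nonneg (mul_nonneg hu0 hz.1.le) (sub_nonneg.mpr this)
    have hm := hmono (a := 0) (b := τ) ⟨le_rfl, aux_z0_pos_j9412⟩ ⟨h0, h1⟩ h0
    simp only [mul_zero, phi_zero one_pos, Real.log_one, sub_zero] at hm
    have ha : 0 ≤ s * τ := mul_nonneg hs0 h0
    have hab : s * τ ≤ τ := by nlinarith
    have hp1 := phi_pos τ h0 h1
    have hp2 := phi_pos (s * τ) ha (lt_of_le_of_lt hab h1)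
    rw [Real.rpow_def_of_pos hp1, ← Real.exp_log hp2, Real.exp_le_exp]
    linarith [mul_comm u (Real.log (phi 1 τ))]

theorem phi_le_gauss (z : ℝ) (h0 : 0 ≤ z) (h1 : z ≤ z0) :
    phi 1 z ≤ Real.exp (-(vr 1) * z ^ 2 / 2) := by
  have hanti : AntitoneOn (fun z => phi 1 z * Real.exp (vr 1 * z ^ 2 / 2)) (Set.Icc 0 z0) := by
    have hderiv : ∀ z : ℝ, HasDerivAt (fun z => phi 1 z * Real.exp (vr 1 * z ^ 2 / 2))
        (z * (vr 1 * phi 1 z - psi 1 z) * Real.exp (vr 1 * z ^ 2 / 2)) z := by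
      intro z
      have d1 : HasDerivAt (fun z : ℝ => vr 1 * z ^ 2 / 2) (vr 1 * z) z := by
        have := (((hasDerivAt_pow 2 z).const_mul (vr 1)).div_const 2)
        refine this.congr_deriv ?_
        norm_num
        ring
      have d2 := (phi_deriv z).mul d1.exp
      refine d2.congr_deriv ?_
      ring
    apply antitoneOn_of_deriv_nonpos (convex_Icc 0 z0)
    · intro z hz
      exact (hderiv z).continuousAt.continuousWithinAt
    · intro z hz
      exact (hderiv z).differentiableAt.differentiableWithinAt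
    · intro z hz
      rw [interior_Icc] at hz
      rw [(hderiv z).deriv]
      have := vphi_le_psi z hz.1.le hz.2.le
      have h2 : z * (vr 1 * phi 1 z - psi 1 z) ≤ 0 :=
        mul_nonpos_of_nonneg_of_nonpos hz.1.le (by linarith)
      exact mul_nonpos_of_nonpos_of_nonneg h2 (Real.exp_pos _).le
  have hm := hanti (a := 0) (b := z) ⟨le_rfl, aux_z0_pos_j9412.le⟩ ⟨h0, h1⟩ h0
  simp only [phi_zero one_pos] at hm
  have e : Real.exp (-(vr 1) * z ^ 2 / 2) = (Real.exp (vr 1 * z ^ 2 / 2))⁻¹ := by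
    rw [← Real.exp_neg]
    congr 1
    ring
  rw [e]
  have hE := Real.exp_pos (vr 1 * z ^ 2 / 2)
  rw [inv_eq_one_div, le_div_iff₀ hE]
  have e3 : (1 : ℝ) * Real.exp (vr 1 * 0 ^ 2 / 2) = 1 := by norm_num
  linarith



end Pool.Agent.Helper82.GC
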