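import Pool.Agent.Helper82.GC.A3
import Pool.Agent.Helper82.GC.J9412
import Pool.Agent.Helper82.GC.J9429
import Pool.Agent.Helper82.GC.Sx

set_option autoImplicit false

open MeasureTheory Set

namespace Pool.Agent.Helper82.GC


theorem R3s_cont_j10322 {n : ℕ} (s : Fin n → ℝ) :
    Continuous (fun t => ∏ i, phi 1 (Real.sqrt (s i) * t)) := by
  refine continuous_finsetProd _ (fun i _ => ?_)
  exact phi_contN.comp (continuous_const.mul continuous_id)

theorem R3s_even_j10322 {n : ℕ} (s : Fin n → ℝ) (t : ℝ) :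
    ∏ i, phi 1 (Real.sqrt (s i) * (-t)) = ∏ i, phi 1 (Real.sqrt (s i) * t) := by
  refine Finset.prod_congr rfl (fun i _ => ?_)
  rw [mul_neg, phi_neg]

theorem R3s_sq_int_j10322 (c : ℝ) (hc : 0 < c) : Integrable (fun t => phi 1 (Real.sqrt c * t) ^ 2) := by
  have h := phi_sq_integrable (r := 1) one_pos
  have hc' : Real.sqrt c ≠ 0 := (Real.sqrt_pos.mpr hc).ne'
  exact (integrable_comp_mul_left_iff (fun t => phi 1 t ^ 2) hc').mpr h

theorem R3s_int_j10322 {n : ℕ} (s : Fin n → ℝ) (j k : Fin n) (hjk : k ≠ j) (hj : 0 < s j) (hk : 0 < s k) :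
    Integrable (fun t => ∏ i, phi 1 (Real.sqrt (s i) * t)) := by
  have h1 := R3s_sq_int_j10322 (s j) hj
  have h2 := R3s_sq_int_j10322 (s k) hk
  refine Integrable.mono' (h1.add h2) (R3s_cont_j10322 s).aestronglyMeasurable (Filter.Eventually.of_forall ?_)
  intro t
  simp only [Pi.add_apply, Real.norm_eq_abs]
  rw [Finset.abs_prod]
  have hsub : ({j, k} : Finset (Fin n)) ⊆ Finset.univ := Finset.subset_univ _
  have hle : ∏ i, |phi 1 (Real.sqrt (s i) * t)| ≤ ∏ i ∈ ({j, k} : Finset (Fin n)), |phi 1 (Real.sqrt (s i) * t)| := by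
    rw [← Finset.prod_sdiff hsub]
    have h3 : ∏ i ∈ Finset.univ \ ({j, k} : Finset (Fin n)), |phi 1 (Real.sqrt (s i) * t)| ≤ 1 := by
      refine Finset.prod_le_one (fun i _ => abs_nonneg _) (fun i _ => abs_phi_le_one one_pos _)
    have h4 : 0 ≤ ∏ i ∈ ({j, k} : Finset (Fin n)), |phi 1 (Real.sqrt (s i) * t)| :=
      Finset.prod_nonneg (fun i _ => abs_nonneg _)
    calc _ ≤ 1 * ∏ i ∈ ({j, k} : Finset (Fin n)), |phi 1 (Real.sqrt (s i) * t)| :=
          mul_le_mul_of_nonneg_right h3 h4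
      _ = _ := one_mul _
  rw [Finset.prod_pair hjk.symm] at hle
  refine hle.trans ?_
  have h5 := sq_nonneg (|phi 1 (Real.sqrt (s j) * t)| - |phi 1 (Real.sqrt (s k) * t)|)
  have h6 := sq_abs (phi 1 (Real.sqrt (s j) * t))
  have h7 := sq_abs (phi 1 (Real.sqrt (s k) * t))
  have h8 := sq_nonneg (phi 1 (Real.sqrt (s j) * t))
  have h9 := sq_nonneg (phi 1 (Real.sqrt (s k) * t))
  nlinarith

theorem R3_split {n : ℕ} (s : Fin n → ℝ) (hs : ∀ i, 0 ≤ s i) (hsum : ∑ i, s i = 1) (j : Fin n)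
    (a : ℝ) (ha0 : 0.29 ≤ a) (ha1 : a ≤ 0.32) (hk : ∀ k, k ≠ j → s k ≤ a)
    (h1 : 0.44 ≤ s j) (h2 : s j ≤ 0.53) :
    Integrable (fun t => ∏ i, phi 1 (Real.sqrt (s i) * t)) ∧
    J 1 s ≤ MG (s j) + 2 * ∫ t in Set.Ioi (z0 / Real.sqrt a), ∏ i, |phi 1 (Real.sqrt (s i) * t)| := by
  have hz := z0_bounds
  have hj0 : 0 < s j := by linarith
  have ha : 0 < a := by linarith
  have hsj : 0 < Real.sqrt (s j) := Real.sqrt_pos.mpr hj0
  have hsa : 0 < Real.sqrt a := Real.sqrt_pos.mpr ha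
  have hsjsq : Real.sqrt (s j) ^ 2 = s j := Real.sq_sqrt hj0.le
  have hsasq : Real.sqrt a ^ 2 = a := Real.sq_sqrt ha.le
  -- a second nonzero coordinate
  have hsum2 : s j + ∑ i ∈ Finset.univ.erase j, s i = 1 := by
    rw [Finset.add_sum_erase _ _ (Finset.mem_univ j)]; exact hsum
  have hex : ∃ k, k ≠ j ∧ 0 < s k := by
    by_contra hcon
    push Not at hcon
    have : ∑ i ∈ Finset.univ.erase j, s i ≤ 0 := by
      refine Finset.sum_nonpos (fun i hi => hcon i (Finset.ne_of_mem_erase hi))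
    linarith
  obtain ⟨k, hkj, hk0⟩ := hex
  have hint := R3s_int_j10322 s j k hkj hj0 hk0
  refine ⟨hint, ?_⟩
  set F : ℝ → ℝ := fun t => ∏ i, phi 1 (Real.sqrt (s i) * t) with hF
  set T := z0 / Real.sqrt a with hT
  set T1 := z0 / Real.sqrt (s j) with hT1
  have hz0 : 0 < z0 := by linarith [hz.1]
  have hT1pos : 0 < T1 := div_pos hz0 hsj
  have hTpos : 0 < T := div_pos hz0 hsa
  have hsqle : Real.sqrt a ≤ Real.sqrt (s j) := Real.sqrt_le_sqrt (by linarith)
  have hTT : T1 ≤ T := div_le_div_of_nonneg_left hz0.le hsa hsqle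
  have hFc : Continuous F := R3s_cont_j10322 s
  -- half-line
  have hJ : J 1 s = 2 * ∫ t in Ioi (0:ℝ), F t := by
    have h3 : J 1 s = ∫ t, F |t| := by
      unfold J
      refine integral_congr_ae (Filter.Eventually.of_forall ?_)
      intro t
      simp only [hF]
      rcases abs_choice t with h | h
      · rw [h]
      · rw [h]; exact (R3s_even_j10322 s t).symm
    rw [h3, integral_comp_abs]
  have hsplit : ∫ t in Ioi (0:ℝ), F t = (∫ t in (0:ℝ)..T1, F t) + (∫ t in T1..T, F t) + ∫ t in Ioi T, F t := by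
    have e1 : (∫ t in (0:ℝ)..T1, F t) + (∫ t in T1..T, F t) = ∫ t in (0:ℝ)..T, F t :=
      intervalIntegral.integral_add_adjacent_intervals (hFc.intervalIntegrable _ _) (hFc.intervalIntegrable _ _)
    rw [e1, intervalIntegral.integral_of_le hTpos.le, ← Ioc_union_Ioi_eq_Ioi hTpos.le]
    exact setIntegral_union (by
      rw [Set.disjoint_left]
      intro x hx hx2
      exact absurd hx.2 (not_le.mpr hx2)) measurableSet_Ioi hint.integrableOn hint.integrableOn
  -- tail
  have htail : ∫ t in Ioi T, F t ≤ ∫ t in Ioi T, ∏ i, |phi 1 (Real.sqrt (s i) * t)| := by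
    refine setIntegral_mono hint.integrableOn ?_ (fun t => ?_)
    · have := hint.abs.integrableOn (s := Ioi T)
      refine this.congr (Filter.Eventually.of_forall (fun t => ?_))
      simp only [hF, Finset.abs_prod]
    · simp only [hF]
      rw [← Finset.abs_prod]
      exact le_abs_self _
  -- the decomposition
  have hdec : ∀ t, F t = phi 1 (Real.sqrt (s j) * t) * ∏ i ∈ Finset.univ.erase j, phi 1 (Real.sqrt (s i) * t) := by
    intro t
    simp only [hF]
    rw [Finset.mul_prod_erase _ (fun i => phi 1 (Real.sqrt (s i) * t)) (Finset.mem_univ j)]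
  have hrange : ∀ t, 0 ≤ t → t ≤ T → ∀ i ∈ Finset.univ.erase j, 0 ≤ Real.sqrt (s i) * t ∧ Real.sqrt (s i) * t ≤ z0 := by
    intro t ht0 htT i hi
    have hij := Finset.ne_of_mem_erase hi
    have h4 : Real.sqrt (s i) ≤ Real.sqrt a := Real.sqrt_le_sqrt (hk i hij)
    refine ⟨mul_nonneg (Real.sqrt_nonneg _) ht0, ?_⟩
    calc Real.sqrt (s i) * t ≤ Real.sqrt a * T := mul_le_mul h4 htT ht0 hsa.le
      _ = z0 := by rw [hT]; field_simp
  have hprod0 : ∀ t, 0 ≤ t → t ≤ T → 0 ≤ ∏ i ∈ Finset.univ.erase j, phi 1 (Real.sqrt (s i) * t) := by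
    intro t ht0 htT
    refine Finset.prod_nonneg (fun i hi => ?_)
    have := hrange t ht0 htT i hi
    exact phi_nonneg _ this.1 this.2
  have hprod1 : ∀ t, 0 ≤ t → t ≤ T → ∏ i ∈ Finset.univ.erase j, phi 1 (Real.sqrt (s i) * t)
      ≤ Real.exp (-(vr 1) * (1 - s j) * t ^ 2 / 2) := by
    intro t ht0 htT
    have h5 : ∏ i ∈ Finset.univ.erase j, phi 1 (Real.sqrt (s i) * t) ≤
        ∏ i ∈ Finset.univ.erase j, Real.exp (-(vr 1) * (Real.sqrt (s i) * t) ^ 2 / 2) := by
      refine Finset.prod_le_prod (fun i hi => ?_) (fun i hi => ?_)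
      · have := hrange t ht0 htT i hi
        exact phi_nonneg _ this.1 this.2
      · have := hrange t ht0 htT i hi
        exact phi_le_gauss _ this.1 this.2
    refine h5.trans (le_of_eq ?_)
    rw [← Real.exp_sum]
    congr 1
    have h6 : ∀ i ∈ Finset.univ.erase j, -(vr 1) * (Real.sqrt (s i) * t) ^ 2 / 2 = s i * (-(vr 1) * t ^ 2 / 2) := by
      intro i _
      rw [mul_pow, Real.sq_sqrt (hs i)]; ring
    rw [Finset.sum_congr rfl h6, ← Finset.sum_mul]
    have h7 : ∑ i ∈ Finset.univ.erase j, s i = 1 - s j := by linarith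
    rw [h7]; ring
  -- the middle part
  have hmid : ∫ t in T1..T, F t ≤ 0 := by
    have h8 : ∫ t in T1..T, F t ≤ ∫ t in T1..T, (0:ℝ) := by
      refine intervalIntegral.integral_mono_on hTT (hFc.intervalIntegrable _ _) (continuous_const.intervalIntegrable _ _) ?_
      intro t ht
      rw [hdec t]
      have ht0 : 0 ≤ t := hT1pos.le.trans ht.1
      refine mul_nonpos_of_nonpos_of_nonneg ?_ (hprod0 t ht0 ht.2)
      refine phi_nonpos _ ?_ ?_
      · calc z0 = Real.sqrt (s j) * T1 := by rw [hT1]; field_simp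
          _ ≤ Real.sqrt (s j) * t := mul_le_mul_of_nonneg_left ht.1 hsj.le
      · have h9 : Real.sqrt (s j) * t ≤ Real.sqrt (s j) * T := mul_le_mul_of_nonneg_left ht.2 hsj.le
        refine h9.trans ?_
        rw [hT, ← mul_div_assoc, div_le_iff₀ hsa]
        have h10 : (Real.sqrt (s j) * z0) ^ 2 ≤ (6.4 * Real.sqrt a) ^ 2 := by
          rw [mul_pow, mul_pow, hsjsq, hsasq]
          have : z0 ^ 2 ≤ 3.4948 ^ 2 := by
            apply pow_le_pow_left₀ hz0.le hz.2.le
          nlinarith [sq_nonneg z0]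
        exact (sq_le_sq₀ (by positivity) (by positivity)).mp h10
    simpa using h8
  -- the main part
  have hmain : ∫ t in (0:ℝ)..T1, F t ≤ (Real.sqrt (s j))⁻¹ * ∫ z in (0 : ℝ)..z0, phi 1 z * Real.exp (-(vr 1) * ((1 - s j) / s j) * z ^ 2 / 2) := by
    have h11 : ∫ t in (0:ℝ)..T1, F t ≤ ∫ t in (0:ℝ)..T1,
        (fun z => phi 1 z * Real.exp (-(vr 1) * ((1 - s j) / s j) * z ^ 2 / 2)) (Real.sqrt (s j) * t) := by
      refine intervalIntegral.integral_mono_on hT1pos.le (hFc.intervalIntegrable _ _) ?_ ?_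
      · refine Continuous.intervalIntegrable ?_ _ _
        have := phi_contN
        fun_prop
      · intro t ht
        rw [hdec t]
        have h12 : 0 ≤ phi 1 (Real.sqrt (s j) * t) := by
          refine phi_nonneg _ (mul_nonneg hsj.le ht.1) ?_
          calc Real.sqrt (s j) * t ≤ Real.sqrt (s j) * T1 := mul_le_mul_of_nonneg_left ht.2 hsj.le
            _ = z0 := by rw [hT1]; field_simp
        have h13 := hprod1 t ht.1 (ht.2.trans hTT)
        have h14 : -(vr 1) * ((1 - s j) / s j) * (Real.sqrt (s j) * t) ^ 2 / 2 = -(vr 1) * (1 - s j) * t ^ 2 / 2 := by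
          rw [mul_pow, hsjsq]
          field_simp
        show _ ≤ phi 1 (Real.sqrt (s j) * t) * Real.exp (-(vr 1) * ((1 - s j) / s j) * (Real.sqrt (s j) * t) ^ 2 / 2)
        rw [h14]
        exact mul_le_mul_of_nonneg_left h13 h12
    refine h11.trans (le_of_eq ?_)
    have h15 : Real.sqrt (s j) * T1 = z0 := by rw [hT1]; field_simp
    have h17 := intervalIntegral.integral_comp_mul_left (a := 0) (b := T1)
      (fun z => phi 1 z * Real.exp (-(vr 1) * ((1 - s j) / s j) * z ^ 2 / 2)) hsj.ne'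
    rw [smul_eq_mul, mul_zero, h15] at h17
    exact h17
  rw [hJ, hsplit]
  unfold MG
  have h16 : 2 / Real.sqrt (s j) * ∫ z in (0 : ℝ)..z0, phi 1 z * Real.exp (-(vr 1) * ((1 - s j) / s j) * z ^ 2 / 2)
      = 2 * ((Real.sqrt (s j))⁻¹ * ∫ z in (0 : ℝ)..z0, phi 1 z * Real.exp (-(vr 1) * ((1 - s j) / s j) * z ^ 2 / 2)) := by
    rw [div_eq_mul_inv]; ring
  rw [h16]
  linarith



end Pool.Agent.Helper82.GC
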