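import Pool.Agent.Helper82.GC.J10326

set_option autoImplicit false

open MeasureTheory Set

namespace Pool.Agent.Helper82.GC


theorem R3_int_j10332 (p : ℝ) (hp : 2 ≤ p) : Integrable (fun t => |phi 1 t| ^ p) := by
  have hm : Continuous (fun t => |phi 1 t| ^ p) :=
    phi_contN.abs.rpow_const (fun _ => Or.inr (by linarith))
  refine (phi_sq_integrable one_pos).mono' hm.aestronglyMeasurable (Filter.Eventually.of_forall fun t => ?_)
  have h0 : 0 ≤ |phi 1 t| := abs_nonneg _
  rw [Real.norm_eq_abs, abs_of_nonneg (Real.rpow_nonneg h0 _), ← sq_abs, ← Real.rpow_two]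
  exact Real.rpow_le_rpow_of_exponent_ge' h0 (abs_phi_le_one one_pos t) (by norm_num) hp

theorem R3_int'_j10332 (p c : ℝ) (hp : 2 ≤ p) (hc : 0 < c) (S : Set ℝ) :
    IntegrableOn (fun t => |phi 1 (c * t)| ^ p) S :=
  ((R3_int_j10332 p hp).comp_mul_left' hc.ne').integrableOn

theorem R3_tail {n : ℕ} (s : Fin n → ℝ) (hs : ∀ i, 0 ≤ s i) (hsum : ∑ i, s i = 1) (j : Fin n)
    (a : ℝ) (ha0 : 0.29 ≤ a) (ha1 : a ≤ 0.32) (hk : ∀ k, k ≠ j → s k ≤ a)
    (h1 : 0.44 ≤ s j) (h2 : s j ≤ 0.53) :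
    2 * ∫ t in Set.Ioi (z0 / Real.sqrt a), ∏ i, |phi 1 (Real.sqrt (s i) * t)| ≤
      2 * Real.sqrt (1 / (2 * Real.sqrt (s j)) * Tl 2) *
        Real.sqrt (Real.exp (-(vr 1) * (1 - s j) * z0 ^ 2 / a) * Real.sqrt a /
          (2 * vr 1 * (1 - s j) * z0) + 1 / (2 * Real.sqrt a) * Tl (2 * (1 - s j) / a)) := by
  classical
  have ha : 0 < a := by linarith
  have hsa : 0 < Real.sqrt a := Real.sqrt_pos.2 ha
  have hz0 : 0 < z0 := by linarith [z0_bounds.1]
  have hvr : 0 < vr 1 := by linarith [vr_one_bounds.1]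
  have hsj : 0 < s j := by linarith
  have hssj : 0 < Real.sqrt (s j) := Real.sqrt_pos.2 hsj
  obtain ⟨w, hw⟩ : ∃ w, w = 1 - s j := ⟨_, rfl⟩
  have hw0 : 0.47 ≤ w := by linarith
  have hw1 : w ≤ 0.56 := by linarith
  rw [← hw]
  obtain ⟨T, hT⟩ : ∃ T, T = z0 / Real.sqrt a := ⟨_, rfl⟩
  rw [← hT]
  have hTlnn : ∀ p : ℝ, 0 ≤ Tl p := by
    intro p
    unfold Tl
    have : 0 ≤ ∫ t in Set.Ioi z0, |phi 1 t| ^ p :=
      integral_nonneg fun t => Real.rpow_nonneg (abs_nonneg _) _
    linarith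
  obtain ⟨Gv, hGv⟩ : ∃ Gv, Gv = Real.exp (-(vr 1) * w * z0 ^ 2 / a) * Real.sqrt a /
          (2 * vr 1 * w * z0) + 1 / (2 * Real.sqrt a) * Tl (2 * w / a) := ⟨_, rfl⟩
  rw [← hGv]
  obtain ⟨Av, hAv⟩ : ∃ Av, Av = 1 / (2 * Real.sqrt (s j)) * Tl 2 := ⟨_, rfl⟩
  rw [← hAv]
  have hGpos : 0 < Gv := by
    rw [hGv]
    have e1 : 0 < Real.exp (-(vr 1) * w * z0 ^ 2 / a) * Real.sqrt a / (2 * vr 1 * w * z0) := by
      have : 0 < w := by linarith
      positivity
    have e2 : 0 ≤ 1 / (2 * Real.sqrt a) * Tl (2 * w / a) := mul_nonneg (by positivity) (hTlnn _)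
    linarith
  have hAnn : 0 ≤ Av := by
    rw [hAv]
    exact mul_nonneg (by positivity) (hTlnn _)
  let p : Fin n → ℝ := fun k => if k = j then 1 / 2 else s k / (2 * w)
  let q : Fin n → ℝ := fun k => if k = j then 2 else 2 * w / s k
  let f : Fin n → ℝ → ENNReal := fun k t => ENNReal.ofReal (|phi 1 (Real.sqrt (s k) * t)| ^ q k)
  have hpnn : ∀ k, 0 ≤ p k := by
    intro k
    by_cases hkj : k = j
    · simp [p, hkj]
    · simp only [p, hkj, if_false]
      exact div_nonneg (hs k) (by linarith)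
  have hpsum' : ∑ k ∈ Finset.univ.erase j, p k = 1 / 2 := by
    have e1 : ∑ k ∈ Finset.univ.erase j, p k = ∑ k ∈ Finset.univ.erase j, s k / (2 * w) := by
      apply Finset.sum_congr rfl
      intro k hk'
      have hkj : k ≠ j := Finset.ne_of_mem_erase hk'
      simp [p, hkj]
    rw [e1, ← Finset.sum_div]
    have e2 : ∑ k ∈ Finset.univ.erase j, s k = w := by
      have := Finset.add_sum_erase Finset.univ s (Finset.mem_univ j)
      linarith
    rw [e2]
    have : w ≠ 0 := by linarith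
    field_simp
  have hpj : p j = 1 / 2 := by simp [p]
  have hqj : q j = 2 := by simp [q]
  have hpsum : ∑ k, p k = 1 := by
    rw [← Finset.add_sum_erase Finset.univ p (Finset.mem_univ j), hpsum', hpj]
    norm_num
  have hfp : ∀ k t, f k t ^ p k = ENNReal.ofReal |phi 1 (Real.sqrt (s k) * t)| := by
    intro k t
    have h0 : 0 ≤ |phi 1 (Real.sqrt (s k) * t)| := abs_nonneg _
    show ENNReal.ofReal (|phi 1 (Real.sqrt (s k) * t)| ^ q k) ^ p k = _
    rw [ENNReal.ofReal_rpow_of_nonneg (Real.rpow_nonneg h0 _) (hpnn k), ← Real.rpow_mul h0]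
    congr 1
    by_cases hkj : k = j
    · subst hkj
      rw [hpj, hqj]
      norm_num
    · by_cases hsk : s k = 0
      · rw [hsk, Real.sqrt_zero, zero_mul, phi_zero one_pos, abs_one, Real.one_rpow]
      · have : q k * p k = 1 := by
          simp only [p, q, hkj, if_false]
          have : w ≠ 0 := by linarith
          field_simp
        rw [this, Real.rpow_one]
  have hfm : ∀ k ∈ (Finset.univ : Finset (Fin n)), AEMeasurable (f k) (volume.restrict (Set.Ioi T)) := by
    intro k _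
    have hq0 : 0 ≤ q k := by
      by_cases hkj : k = j
      · simp [q, hkj]
      · simp only [q, hkj, if_false]
        exact div_nonneg (by linarith) (hs k)
    have hc : Continuous (fun t : ℝ => |phi 1 (Real.sqrt (s k) * t)| ^ q k) :=
      ((phi_contN.comp (continuous_const.mul continuous_id)).abs).rpow_const
        (fun _ => Or.inr hq0)
    exact (ENNReal.measurable_ofReal.comp hc.measurable).aemeasurable
  have hH := ENNReal.lintegral_prod_norm_pow_le (μ := volume.restrict (Set.Ioi T))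
    (Finset.univ : Finset (Fin n)) hfm hpsum (fun k _ => hpnn k)
  -- bound for the index j
  have hAj : ∫⁻ t in Set.Ioi T, f j t ≤ ENNReal.ofReal Av := by
    have hint : IntegrableOn (fun t => |phi 1 (Real.sqrt (s j) * t)| ^ (2 : ℝ)) (Set.Ioi T) :=
      R3_int'_j10332 2 _ le_rfl hssj _
    have e1 : ∫⁻ t in Set.Ioi T, f j t =
        ENNReal.ofReal (∫ t in Set.Ioi T, |phi 1 (Real.sqrt (s j) * t)| ^ (2 : ℝ)) := by
      rw [ofReal_integral_eq_lintegral_ofReal hint
        (Filter.Eventually.of_forall fun t => Real.rpow_nonneg (abs_nonneg _) _)]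
      simp only [f, hqj]
    rw [e1]
    apply ENNReal.ofReal_le_ofReal
    have e2 := integral_comp_mul_left_Ioi (fun u => |phi 1 u| ^ (2 : ℝ)) T hssj
    rw [e2, hAv, Tl, smul_eq_mul]
    have e3 : ∫ u in Set.Ioi (Real.sqrt (s j) * T), |phi 1 u| ^ (2 : ℝ) ≤
        ∫ u in Set.Ioi z0, |phi 1 u| ^ (2 : ℝ) := by
      apply setIntegral_mono_set (R3_int_j10332 2 le_rfl).integrableOn
        (Filter.Eventually.of_forall fun t => Real.rpow_nonneg (abs_nonneg _) _)
      apply HasSubset.Subset.eventuallyLE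
      apply Set.Ioi_subset_Ioi
      rw [hT, ← mul_div_assoc, le_div_iff₀ hsa, mul_comm]
      apply mul_le_mul_of_nonneg_right _ hz0.le
      exact Real.sqrt_le_sqrt (by linarith)
    have e4 : (Real.sqrt (s j))⁻¹ * ∫ u in Set.Ioi (Real.sqrt (s j) * T), |phi 1 u| ^ (2 : ℝ) ≤
        (Real.sqrt (s j))⁻¹ * ∫ u in Set.Ioi z0, |phi 1 u| ^ (2 : ℝ) :=
      mul_le_mul_of_nonneg_left e3 (by positivity)
    refine e4.trans (le_of_eq ?_)
    field_simp
  have hAj' : (∫⁻ t in Set.Ioi T, f j t) ^ p j ≤ ENNReal.ofReal (Real.sqrt Av) := by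
    rw [hpj, Real.sqrt_eq_rpow, ← ENNReal.ofReal_rpow_of_nonneg hAnn (by norm_num)]
    exact ENNReal.rpow_le_rpow hAj (by norm_num)
  -- bound for the other indices
  have hGk : ∀ k ∈ Finset.univ.erase j, (∫⁻ t in Set.Ioi T, f k t) ^ p k ≤
      ENNReal.ofReal (Gv ^ p k) := by
    intro k hk'
    have hkj : k ≠ j := Finset.ne_of_mem_erase hk'
    by_cases hsk : s k = 0
    · have : p k = 0 := by simp [p, hkj, hsk]
      rw [this, ENNReal.rpow_zero, Real.rpow_zero, ENNReal.ofReal_one]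
    · have hskp : 0 < s k := lt_of_le_of_ne (hs k) (Ne.symm hsk)
      have hska := hk k hkj
      have hqk : q k = 2 * w / s k := by simp [q, hkj]
      have hq2 : 2 ≤ q k := by
        rw [hqk, le_div_iff₀ hskp]
        nlinarith
      have hint : IntegrableOn (fun t => |phi 1 (Real.sqrt (s k) * t)| ^ q k) (Set.Ioi T) :=
        R3_int'_j10332 _ _ hq2 (Real.sqrt_pos.2 hskp) _
      have e1 : ∫⁻ t in Set.Ioi T, f k t =
          ENNReal.ofReal (∫ t in Set.Ioi T, |phi 1 (Real.sqrt (s k) * t)| ^ q k) := by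
        rw [ofReal_integral_eq_lintegral_ofReal hint
          (Filter.Eventually.of_forall fun t => Real.rpow_nonneg (abs_nonneg _) _)]
      have e2 := G_bound a w (s k) ha0 ha1 (by linarith) (by linarith) hskp hska
      rw [← hGv, ← hT, ← hqk] at e2
      rw [← ENNReal.ofReal_rpow_of_nonneg hGpos.le (hpnn k)]
      apply ENNReal.rpow_le_rpow _ (hpnn k)
      rw [e1]
      exact ENNReal.ofReal_le_ofReal e2
  have hprod : ∏ k, (∫⁻ t in Set.Ioi T, f k t) ^ p k ≤ ENNReal.ofReal (Real.sqrt Av * Real.sqrt Gv) := by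
    rw [← Finset.mul_prod_erase Finset.univ _ (Finset.mem_univ j), ENNReal.ofReal_mul (Real.sqrt_nonneg _)]
    apply mul_le_mul' hAj'
    refine (Finset.prod_le_prod' hGk).trans (le_of_eq ?_)
    rw [← ENNReal.ofReal_prod_of_nonneg (fun k _ => Real.rpow_nonneg hGpos.le _),
      ← Real.rpow_sum_of_pos hGpos, hpsum', ← Real.sqrt_eq_rpow]
  have hfinal : ∫ t in Set.Ioi T, ∏ i, |phi 1 (Real.sqrt (s i) * t)| ≤ Real.sqrt Av * Real.sqrt Gv := by
    have hnn : ∀ t : ℝ, 0 ≤ ∏ i, |phi 1 (Real.sqrt (s i) * t)| := fun t =>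
      Finset.prod_nonneg fun i _ => abs_nonneg _
    have hc : Continuous (fun t : ℝ => ∏ i, |phi 1 (Real.sqrt (s i) * t)|) :=
      continuous_finset_prod _ fun i _ =>
        (phi_contN.comp (continuous_const.mul continuous_id)).abs
    rw [integral_eq_lintegral_of_nonneg_ae (Filter.Eventually.of_forall hnn)
      hc.aestronglyMeasurable]
    have e1 : ∫⁻ t in Set.Ioi T, ENNReal.ofReal (∏ i, |phi 1 (Real.sqrt (s i) * t)|) =
        ∫⁻ t in Set.Ioi T, ∏ k, f k t ^ p k := by
      apply lintegral_congr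
      intro t
      rw [ENNReal.ofReal_prod_of_nonneg (fun k _ => abs_nonneg _)]
      apply Finset.prod_congr rfl
      intro k _
      exact (hfp k t).symm
    rw [e1]
    have e2 := hH.trans hprod
    have e3 := ENNReal.toReal_mono ENNReal.ofReal_ne_top e2
    rwa [ENNReal.toReal_ofReal (by positivity)] at e3
  rw [mul_assoc]
  exact mul_le_mul_of_nonneg_left hfinal (by norm_num)



end Pool.Agent.Helper82.GC
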