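import Pool.Agent.Helper82.GC.J10089
import Pool.Agent.Helper82.GC.J10319
import Pool.Agent.Helper82.GC.J10321
import Pool.Agent.Helper82.GC.J10322
import Pool.Agent.Helper82.GC.J10332

set_option autoImplicit false

open MeasureTheory Set

namespace Pool.Agent.Helper82.GC


theorem cus_exp_j10333 (X : ℝ) (k : ℕ) (e : ℝ) (he : 0 < e) (hX : (k : ℝ) / 4 ≤ X)
    (h : 1 ≤ e ^ 4 * (2.7182818283 : ℝ) ^ k) : Real.exp (-X) ≤ e := by
  have h1 : Real.exp (-X) ≤ Real.exp (-((k : ℝ) / 4)) := Real.exp_le_exp.mpr (by linarith)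
  refine h1.trans ?_
  have h2 : Real.exp (-((k : ℝ) / 4)) ^ 4 * Real.exp 1 ^ k = 1 := by
    rw [← Real.exp_nat_mul, ← Real.exp_nat_mul, ← Real.exp_add]
    rw [Real.exp_eq_one_iff]
    push_cast
    ring
  have h3 : (2.7182818283 : ℝ) ^ k ≤ Real.exp 1 ^ k :=
    pow_le_pow_left₀ (by norm_num) Real.exp_one_gt_d9.le k
  have h4 : Real.exp (-((k : ℝ) / 4)) ^ 4 ≤ e ^ 4 := by
    have h5 : 0 < Real.exp 1 ^ k := by positivity
    by_contra h6
    push Not at h6
    have h7 : e ^ 4 * (2.7182818283 : ℝ) ^ k ≤ e ^ 4 * Real.exp 1 ^ k :=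
      mul_le_mul_of_nonneg_left h3 (by positivity)
    have h8 : e ^ 4 * Real.exp 1 ^ k < Real.exp (-((k : ℝ) / 4)) ^ 4 * Real.exp 1 ^ k :=
      mul_lt_mul_of_pos_right h6 h5
    linarith
  exact le_of_pow_le_pow_left₀ (by norm_num) he.le h4

theorem cus_rp_j10333 (p : ℝ) (h2 : 2 ≤ p) (h4 : p ≤ 4) (u w : ℕ) (hw : 0 < w)
    (hα : (4 - p) / 2 ≤ (u : ℝ) / w) (c : ℝ) (hc : 0 ≤ c)
    (h : ((0.1438 : ℝ) / 0.0017) ^ u ≤ c ^ w) : Tl p ≤ 0.0017 * c := by
  have h1 := Tl_mid p h2 h4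
  refine h1.trans ?_
  have e1 : (p - 2) / 2 = 1 - (4 - p) / 2 := by ring
  rw [e1, Real.rpow_sub (by norm_num), Real.rpow_one]
  have e2 : (0.1438 : ℝ) ^ ((4 - p) / 2) * (0.0017 / (0.0017 : ℝ) ^ ((4 - p) / 2))
      = 0.0017 * ((0.1438 : ℝ) / 0.0017) ^ ((4 - p) / 2) := by
    rw [Real.div_rpow (by norm_num) (by norm_num)]
    ring
  rw [e2]
  apply mul_le_mul_of_nonneg_left _ (by norm_num)
  have e3 : ((0.1438 : ℝ) / 0.0017) ^ ((4 - p) / 2) ≤ ((0.1438 : ℝ) / 0.0017) ^ ((u : ℝ) / w) :=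
    Real.rpow_le_rpow_of_exponent_le (by norm_num) hα
  refine e3.trans ?_
  have e4 : (((0.1438 : ℝ) / 0.0017) ^ ((u : ℝ) / w)) ^ w = ((0.1438 : ℝ) / 0.0017) ^ u := by
    rw [← Real.rpow_natCast, ← Real.rpow_mul (by norm_num)]
    rw [div_mul_cancel₀ _ (by exact_mod_cast hw.ne'), Real.rpow_natCast]
  apply le_of_pow_le_pow_left₀ hw.ne' hc
  rw [e4]
  exact h

theorem cus_core_j10333 {s a v z T2 Tp rs ral rau e q0 τ bud : ℝ} (hs : 0 < s) (hs1 : s < 1) (ha : 0 < a)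
    (hrs0 : 0 < rs) (hrs : rs ^ 2 ≤ s) (hral0 : 0 < ral) (hral : ral ^ 2 ≤ a)
    (hrau0 : 0 < rau) (hrau : a ≤ rau ^ 2)
    (hq0 : 0 < q0) (hq : q0 ≤ v * (1 - s)) (hz : 3.4947 ≤ z)
    (he : Real.exp (-(v * (1 - s) * z ^ 2 / a)) ≤ e) (he0 : 0 < e)
    (hT2 : T2 ≤ 0.1438) (hTp : Tp ≤ τ) (hτ : 0 ≤ τ) (hbud : 0 ≤ bud)
    (hfin : 0.1438 / (2 * rs) * (e * rau / (2 * q0 * 3.4947) + τ / (2 * ral)) ≤ (bud / 2) ^ 2) :
    2 * Real.sqrt (1 / (2 * Real.sqrt s) * T2) *
        Real.sqrt (Real.exp (-v * (1 - s) * z ^ 2 / a) * Real.sqrt a /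
          (2 * v * (1 - s) * z) + 1 / (2 * Real.sqrt a) * Tp) ≤ bud := by
  have r1 : rs ≤ Real.sqrt s := Real.le_sqrt_of_sq_le hrs
  have r2 : ral ≤ Real.sqrt a := Real.le_sqrt_of_sq_le hral
  have r3 : Real.sqrt a ≤ rau := by
    rw [Real.sqrt_le_left hrau0.le]; exact hrau
  have hA : 1 / (2 * Real.sqrt s) * T2 ≤ 0.1438 / (2 * rs) := by
    have h1 : 1 / (2 * Real.sqrt s) * T2 ≤ 1 / (2 * Real.sqrt s) * 0.1438 :=
      mul_le_mul_of_nonneg_left hT2 (by positivity)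
    have h2 : 1 / (2 * Real.sqrt s) * 0.1438 ≤ 1 / (2 * rs) * 0.1438 := by
      apply mul_le_mul_of_nonneg_right _ (by norm_num)
      apply one_div_le_one_div_of_le (by positivity)
      linarith
    refine (h1.trans h2).trans (le_of_eq ?_)
    ring
  have hB1 : Real.exp (-v * (1 - s) * z ^ 2 / a) * Real.sqrt a / (2 * v * (1 - s) * z)
      ≤ e * rau / (2 * q0 * 3.4947) := by
    have e1 : -v * (1 - s) * z ^ 2 / a = -(v * (1 - s) * z ^ 2 / a) := by ring
    rw [e1]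
    have hd : 2 * q0 * 3.4947 ≤ 2 * v * (1 - s) * z := by
      have h1 : q0 * 3.4947 ≤ (v * (1 - s)) * z := mul_le_mul hq hz (by norm_num) (by linarith)
      nlinarith
    apply div_le_div₀ (by positivity) _ (by positivity) hd
    exact mul_le_mul he r3 (Real.sqrt_nonneg _) he0.le
  have hB2 : 1 / (2 * Real.sqrt a) * Tp ≤ τ / (2 * ral) := by
    have h1 : 1 / (2 * Real.sqrt a) * Tp ≤ 1 / (2 * Real.sqrt a) * τ :=
      mul_le_mul_of_nonneg_left hTp (by positivity)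
    have h2 : 1 / (2 * Real.sqrt a) * τ ≤ 1 / (2 * ral) * τ := by
      apply mul_le_mul_of_nonneg_right _ hτ
      apply one_div_le_one_div_of_le (by positivity)
      linarith
    refine (h1.trans h2).trans (le_of_eq ?_)
    ring
  have hA' : Real.sqrt (1 / (2 * Real.sqrt s) * T2) ≤ Real.sqrt (0.1438 / (2 * rs)) :=
    Real.sqrt_le_sqrt hA
  have hB' : Real.sqrt (Real.exp (-v * (1 - s) * z ^ 2 / a) * Real.sqrt a /
          (2 * v * (1 - s) * z) + 1 / (2 * Real.sqrt a) * Tp)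
      ≤ Real.sqrt (e * rau / (2 * q0 * 3.4947) + τ / (2 * ral)) :=
    Real.sqrt_le_sqrt (add_le_add hB1 hB2)
  have hC : Real.sqrt (0.1438 / (2 * rs)) * Real.sqrt (e * rau / (2 * q0 * 3.4947) + τ / (2 * ral))
      ≤ bud / 2 := by
    rw [← Real.sqrt_mul (by positivity), Real.sqrt_le_left (by linarith)]
    exact hfin
  have hD : Real.sqrt (1 / (2 * Real.sqrt s) * T2) * Real.sqrt (Real.exp (-v * (1 - s) * z ^ 2 / a)
        * Real.sqrt a / (2 * v * (1 - s) * z) + 1 / (2 * Real.sqrt a) * Tp)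
      ≤ Real.sqrt (0.1438 / (2 * rs)) *
        Real.sqrt (e * rau / (2 * q0 * 3.4947) + τ / (2 * ral)) :=
    mul_le_mul hA' hB' (Real.sqrt_nonneg _) (Real.sqrt_nonneg _)
  linarith

theorem cus_case_j10333 {n : ℕ} (s : Fin n → ℝ) (hs : ∀ i, 0 ≤ s i) (hsum : ∑ i, s i = 1) (j : Fin n)
    (a s0 s1 m rs ral rau e q0 c bud : ℝ) (u w k : ℕ) (ha0 : 0.29 ≤ a) (ha1 : a ≤ 0.32)
    (hk : ∀ k, k ≠ j → s k ≤ a) (hs0 : 0.44 ≤ s0) (h1 : s0 ≤ s j) (h2 : s j ≤ s1) (hs1 : s1 ≤ 0.53)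
    (hm : MG s0 ≤ m)
    (hrs0 : 0 < rs) (hrs : rs ^ 2 ≤ s0) (hral0 : 0 < ral) (hral : ral ^ 2 ≤ a)
    (hrau0 : 0 < rau) (hrau : a ≤ rau ^ 2)
    (hq0 : 0 < q0) (hq : q0 ≤ 0.29112 * (1 - s1))
    (he0 : 0 < e) (hek : (k : ℝ) / 4 ≤ q0 * 3.4947 ^ 2 / a) (hee : 1 ≤ e ^ 4 * (2.7182818283 : ℝ) ^ k)
    (hp4 : 2 * (1 - s0) / a ≤ 4) (hp2 : 2 ≤ 2 * (1 - s1) / a)
    (hw : 0 < w) (hα : (4 - 2 * (1 - s1) / a) / 2 ≤ (u : ℝ) / w) (hc : 0 ≤ c)
    (hcu : ((0.1438 : ℝ) / 0.0017) ^ u ≤ c ^ w) (hbud : 0 ≤ bud)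
    (hfin : 0.1438 / (2 * rs) * (e * rau / (2 * q0 * 3.4947) + 0.0017 * c / (2 * ral)) ≤ (bud / 2) ^ 2)
    (htot : m + bud < 4.5322) :
    Integrable (fun t => ∏ i, phi 1 (Real.sqrt (s i) * t)) ∧ J 1 s < 4.5322 := by
  have hj1 : 0.44 ≤ s j := hs0.trans h1
  have hj2 : s j ≤ 0.53 := h2.trans hs1
  obtain ⟨hint, hJ⟩ := R3_split s hs hsum j a ha0 ha1 hk hj1 hj2
  refine ⟨hint, ?_⟩
  have ht := R3_tail s hs hsum j a ha0 ha1 hk hj1 hj2
  have hM : MG (s j) ≤ MG s0 := MG_anti s0 (s j) (by linarith) h1 (by linarith)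
  have ha : 0 < a := by linarith
  have hv := vr_one_bounds
  have hz := z0_bounds
  have hzpos : 0 < z0 := by linarith [hz.1]
  have hq1 : q0 ≤ vr 1 * (1 - s j) := by
    have e1 : 0.29112 * (1 - s1) ≤ vr 1 * (1 - s j) :=
      mul_le_mul hv.1.le (by linarith) (by linarith) (by linarith [hv.1])
    exact hq.trans e1
  have hexp : Real.exp (-(vr 1 * (1 - s j) * z0 ^ 2 / a)) ≤ e := by
    apply cus_exp_j10333 _ k e he0 _ hee
    refine hek.trans ?_
    apply div_le_div_of_nonneg_right _ ha.le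
    apply mul_le_mul hq1 _ (by norm_num) (by linarith)
    exact pow_le_pow_left₀ (by norm_num) hz.1.le 2
  have hpa : 2 * (1 - s1) / a ≤ 2 * (1 - s j) / a :=
    div_le_div_of_nonneg_right (by linarith) ha.le
  have hpb : 2 * (1 - s j) / a ≤ 2 * (1 - s0) / a :=
    div_le_div_of_nonneg_right (by linarith) ha.le
  have hTp : Tl (2 * (1 - s j) / a) ≤ 0.0017 * c :=
    cus_rp_j10333 _ (hp2.trans hpa) (hpb.trans hp4) u w hw (by linarith) c hc hcu
  have hcore := cus_core_j10333 (s := s j) (a := a) (v := vr 1) (z := z0) (T2 := Tl 2)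
    (Tp := Tl (2 * (1 - s j) / a)) (rs := rs) (ral := ral) (rau := rau) (e := e) (q0 := q0)
    (τ := 0.0017 * c) (bud := bud) (by linarith) (by linarith) ha hrs0 (hrs.trans h1) hral0 hral
    hrau0 hrau hq0 hq1 hz.1.le hexp he0 Tl_two hTp (by positivity) hbud hfin
  linarith

theorem R3_bound {n : ℕ} (s : Fin n → ℝ) (hs : ∀ i, 0 ≤ s i) (hsum : ∑ i, s i = 1) (j : Fin n)
    (h1 : 0.44 ≤ s j) (h2 : s j ≤ 0.527)
    (h3 : (∀ k, k ≠ j → s k ≤ 0.3) ∨ (0.47 ≤ s j ∧ ∀ k, k ≠ j → s k ≤ 0.31)) :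
    Integrable (fun t => ∏ i, phi 1 (Real.sqrt (s i) * t)) ∧ J 1 s < 4.5322 := by
  rcases lt_or_ge (s j) 0.47 with hlt | hge
  · have hk : ∀ k, k ≠ j → s k ≤ 0.3 := by
      rcases h3 with h | h
      · exact h
      · exact absurd h.1 (not_le.mpr hlt)
    rcases le_total (s j) 0.45 with h | h
    · exact cus_case_j10333 s hs hsum j 0.3 0.44 0.45 4.4890 0.6633 0.5477 0.5478 0.001505
        (0.29112 * (1 - 0.45)) 2.096 (4.5322 - 4.4890 - 0.0001) 1 6 26 (by norm_num) (by norm_num) hk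
        (by norm_num) h1 h (by norm_num) MG_44 (by norm_num) (by norm_num) (by norm_num)
        (by norm_num) (by norm_num) (by norm_num) (by norm_num) (by norm_num) (by norm_num)
        (by norm_num) (by norm_num) (by norm_num) (by norm_num) (by norm_num) (by norm_num)
        (by norm_num) (by norm_num) (by norm_num) (by norm_num) (by norm_num)
    · exact cus_case_j10333 s hs hsum j 0.3 0.45 0.47 4.4820 0.6708 0.5477 0.5478 0.001932
        (0.29112 * (1 - 0.47)) 2.842 (4.5322 - 4.4820 - 0.0001) 4 17 25 (by norm_num) (by norm_num) hk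
        (by norm_num) h hlt.le (by norm_num) MG_45 (by norm_num) (by norm_num) (by norm_num)
        (by norm_num) (by norm_num) (by norm_num) (by norm_num) (by norm_num) (by norm_num)
        (by norm_num) (by norm_num) (by norm_num) (by norm_num) (by norm_num) (by norm_num)
        (by norm_num) (by norm_num) (by norm_num) (by norm_num) (by norm_num)
  · have hk : ∀ k, k ≠ j → s k ≤ 0.31 := by
      rcases h3 with h | h
      · intro k hk
        exact (h k hk).trans (by norm_num)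
      · exact h.2
    rcases le_total (s j) 0.485 with h | h
    · exact cus_case_j10333 s hs hsum j 0.31 0.47 0.485 4.4672 0.6855 0.5567 0.5568 0.003184
        (0.29112 * (1 - 0.485)) 4.728 (4.5322 - 4.4672 - 0.0001) 7 20 23 (by norm_num) (by norm_num) hk
        (by norm_num) hge h (by norm_num) MG_47 (by norm_num) (by norm_num) (by norm_num)
        (by norm_num) (by norm_num) (by norm_num) (by norm_num) (by norm_num) (by norm_num)
        (by norm_num) (by norm_num) (by norm_num) (by norm_num) (by norm_num) (by norm_num)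
        (by norm_num) (by norm_num) (by norm_num) (by norm_num) (by norm_num)
    · rcases le_total (s j) 0.5 with h' | h'
      · exact cus_case_j10333 s hs hsum j 0.31 0.485 0.5 4.4560 0.6964 0.5567 0.5568 0.004088
          (0.29112 * (1 - 0.5)) 5.902 (4.5322 - 4.4560 - 0.0001) 2 5 22 (by norm_num) (by norm_num) hk
          (by norm_num) h h' (by norm_num) MG_485 (by norm_num) (by norm_num) (by norm_num)
          (by norm_num) (by norm_num) (by norm_num) (by norm_num) (by norm_num) (by norm_num)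
          (by norm_num) (by norm_num) (by norm_num) (by norm_num) (by norm_num) (by norm_num)
          (by norm_num) (by norm_num) (by norm_num) (by norm_num) (by norm_num)
      · exact cus_case_j10333 s hs hsum j 0.31 0.5 0.527 4.4444 0.7071 0.5567 0.5568 0.005249
          (0.29112 * (1 - 0.527)) 9.198 (4.5322 - 4.4444 - 0.0001) 1 2 21 (by norm_num) (by norm_num) hk
          (by norm_num) h' h2 (by norm_num) MG_50 (by norm_num) (by norm_num) (by norm_num)
          (by norm_num) (by norm_num) (by norm_num) (by norm_num) (by norm_num) (by norm_num)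
          (by norm_num) (by norm_num) (by norm_num) (by norm_num) (by norm_num) (by norm_num)
          (by norm_num) (by norm_num) (by norm_num) (by norm_num) (by norm_num)



end Pool.Agent.Helper82.GC
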