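import Pool.Agent.Helper82.GC.J10082

set_option autoImplicit false

open MeasureTheory Set

namespace Pool.Agent.Helper82.GC


theorem j10563_Ip_j10563 : Ip 2 = ∫ t, phi 1 t ^ 2 := by
  unfold Ip
  congr 1
  funext t
  rw [Real.rpow_two, sq_abs]

theorem J_two {n : ℕ} (s : Fin n → ℝ) (i j : Fin n) (hij : i ≠ j) (hi : s i = 1 / 2)
    (hj : s j = 1 / 2) (hk : ∀ k, k ≠ i → k ≠ j → s k = 0) :
    Integrable (fun t => ∏ k, phi 1 (Real.sqrt (s k) * t)) ∧ J 1 s = Real.sqrt 2 * Ip 2 := by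
  have hp : (fun t => ∏ k, phi 1 (Real.sqrt (s k) * t)) =
      fun t => (phi 1 (Real.sqrt (1 / 2) * t)) ^ 2 := by
    funext t
    rw [Fintype.prod_eq_mul i j hij (fun k hk' => by
      rw [hk k hk'.1 hk'.2, Real.sqrt_zero, zero_mul, phi_zero one_pos]), hi, hj, sq]
  have hc : 0 < Real.sqrt (1 / 2) := Real.sqrt_pos.2 (by norm_num)
  constructor
  · rw [hp]
    exact (phi_sq_integrable one_pos).comp_mul_left' hc.ne'
  · unfold J
    rw [hp, j10563_Ip_j10563]
    have h := MeasureTheory.Measure.integral_comp_mul_left (fun t => phi 1 t ^ 2) (Real.sqrt (1 / 2))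
    rw [h, smul_eq_mul, abs_of_pos (inv_pos.2 hc)]
    congr 1
    rw [one_div, Real.sqrt_inv, inv_inv]

theorem two_eq : Real.sqrt 2 * Ip 2 = P1 * Real.exp (-(2 * ee (1 / 2))) := by
  have hI : 0 < Ip 2 := by linarith [Ip_two.1]
  have hP : 0 < P1 := by linarith [P1_bounds.1]
  have h2 : 0 < Real.sqrt 2 := Real.sqrt_pos.2 (by norm_num)
  have he : ee (1 / 2) = -(1 / 2) * Real.log (Real.sqrt 2 * Ip 2 / P1) := by
    unfold ee
    rw [if_neg (by norm_num)]
    norm_num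
  have h3 : -(2 * ee (1 / 2)) = Real.log (Real.sqrt 2 * Ip 2 / P1) := by
    rw [he]
    ring
  rw [h3, Real.exp_log (by positivity)]
  field_simp

theorem Ip_two_eq : Ip 2 = 2 * Real.pi * (∫ x in (-1 : ℝ)..1, Real.exp (-x ^ 2)) / Zr 1 ^ 2 := by
  rw [j10563_Ip_j10563, phi_sq_integral one_pos]



end Pool.Agent.Helper82.GC
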