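import Pool.Agent.Helper82.GC.J10298
import Pool.Agent.Helper82.GC.J10301
import Pool.Agent.Helper82.GC.J10333
import Pool.Agent.Helper82.GC.J10563

set_option autoImplicit false

open MeasureTheory Set

namespace Pool.Agent.Helper82.GC


theorem J2_low_10575_j10575 : 4.5322 < Real.sqrt 2 * Ip 2 := by
  have h1 := Ip_two.1
  have h2 : (1.41421 : ℝ) < Real.sqrt 2 := by
    rw [Real.lt_sqrt (by norm_num)]
    norm_num
  nlinarith

theorem support_sum_10575_j10575 {ι : Type*} (I : Finset ι) (f : ι → ℝ) (N : ℕ)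
    (hcard : I.card ≤ N) (hf0 : ∀ k ∈ I, 0 ≤ f k) (hf1 : ∀ k ∈ I, f k ≤ 0.35) (x0 : ℝ)
    (hx0 : ∑ k ∈ I, f k = N * x0) (h0 : 0 ≤ x0) (h1 : x0 ≤ 0.17) :
    N * (0.1323 * x0 ^ 2 + 0.005 * x0 ^ 3) ≤ ∑ k ∈ I, ee (f k) := by
  have h2 : ∑ k ∈ I, (0.1323 * x0 ^ 2 + 0.005 * x0 ^ 3 + (0.2646 * x0 + 0.015 * x0 ^ 2) *
      (f k - x0)) ≤ ∑ k ∈ I, ee (f k) :=
    Finset.sum_le_sum fun k hk => ee_support x0 (f k) h0 h1 (hf0 k hk) (hf1 k hk)
  have h3 : ∑ k ∈ I, (0.1323 * x0 ^ 2 + 0.005 * x0 ^ 3 + (0.2646 * x0 + 0.015 * x0 ^ 2) *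
      (f k - x0)) = (I.card : ℝ) * (0.1323 * x0 ^ 2 + 0.005 * x0 ^ 3) +
        (0.2646 * x0 + 0.015 * x0 ^ 2) * (N * x0 - I.card * x0) := by
    rw [Finset.sum_add_distrib, Finset.sum_const, nsmul_eq_mul, ← Finset.mul_sum,
      Finset.sum_sub_distrib, hx0, Finset.sum_const, nsmul_eq_mul]
  rw [h3] at h2
  have h4 : (I.card : ℝ) ≤ N := by exact_mod_cast hcard
  have h5 : 0 ≤ ((N : ℝ) - I.card) * (0.1323 * x0 ^ 2 + 0.01 * x0 ^ 3) := by
    apply mul_nonneg (by linarith)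
    positivity
  nlinarith

theorem three_sum_10575_j10575 {ι : Type*} (I : Finset ι) (f : ι → ℝ) (hcard : I.card ≤ 3)
    (hf0 : ∀ k ∈ I, 0 ≤ f k) (ρ : ℝ) (hρ : ∑ k ∈ I, f k = ρ) (hρ1 : ρ ≤ 0.35) :
    0.0441 * ρ ^ 2 ≤ ∑ k ∈ I, ee (f k) := by
  have hρ0 : 0 ≤ ρ := by rw [← hρ]; exact Finset.sum_nonneg hf0
  have hf1 : ∀ k ∈ I, f k ≤ 0.35 := by
    intro k hk
    have := Finset.single_le_sum (f := f) hf0 hk
    linarith
  have h := support_sum_10575_j10575 I f 3 hcard hf0 hf1 (ρ / 3) (by rw [hρ]; push_cast; ring)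
    (by positivity) (by linarith)
  push_cast at h
  have h2 : 0 ≤ ρ ^ 3 := by positivity
  nlinarith

theorem strict_10575_j10575 {n : ℕ} (s : Fin n → ℝ) (hs : ∀ k, 0 ≤ s k)
    (hs2 : ∀ k, s k ≤ 1 / 2) (hsum : ∑ k, s k = 1) (h : 2 * ee (1 / 2) < ∑ k, ee (s k)) :
    J 1 s < Real.sqrt 2 * Ip 2 := by
  obtain ⟨-, h1⟩ := J_le_exp s hs hs2 hsum
  rw [two_eq]
  refine lt_of_le_of_lt h1 ?_
  have hP := P1_bounds.1
  apply mul_lt_mul_of_pos_left _ (by linarith)
  rw [Real.exp_lt_exp]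
  linarith

theorem sum_two_10575_j10575 {n : ℕ} (g : Fin n → ℝ) (j l : Fin n) (hl : l ≠ j) :
    ∑ k, g k = g j + (g l + ∑ k ∈ (Finset.univ.erase j).erase l, g k) := by
  rw [← Finset.add_sum_erase Finset.univ g (Finset.mem_univ j),
    ← Finset.add_sum_erase (Finset.univ.erase j) g
      (Finset.mem_erase.2 ⟨hl, Finset.mem_univ l⟩)]

theorem card_two_10575_j10575 {n : ℕ} (hn : n ≤ 5) (j l : Fin n) (hl : l ≠ j) :
    ((Finset.univ.erase j).erase l).card ≤ 3 := by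
  rw [Finset.card_erase_of_mem (Finset.mem_erase.2 ⟨hl, Finset.mem_univ l⟩),
    Finset.card_erase_of_mem (Finset.mem_univ j), Finset.card_univ, Fintype.card_fin]
  omega

theorem rest_10575_j10575 {n : ℕ} (hn : n ≤ 5) (s : Fin n → ℝ) (hs : ∀ k, 0 ≤ s k)
    (hsum : ∑ k, s k = 1) (j l : Fin n) (hl : l ≠ j) (h : 0.65 ≤ s j + s l) :
    ee (s j) + ee (s l) + 0.0441 * (1 - s j - s l) ^ 2 ≤ ∑ k, ee (s k) := by
  have h1 := sum_two_10575_j10575 (fun k => ee (s k)) j l hl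
  have h2 := sum_two_10575_j10575 s j l hl
  have h3 := three_sum_10575_j10575 ((Finset.univ.erase j).erase l) s (card_two_10575_j10575 hn j l hl)
    (fun k _ => hs k) (1 - s j - s l) (by linarith) (by linarith)
  linarith

theorem region_five {n : ℕ} (hn : n ≤ 5) (s : Fin n → ℝ) (hs : ∀ k, 0 ≤ s k)
    (hs2 : ∀ k, s k ≤ 1 / 2) (hsum : ∑ k, s k = 1) :
    Integrable (fun t => ∏ k, phi 1 (Real.sqrt (s k) * t)) ∧ J 1 s ≤ Real.sqrt 2 * Ip 2 ∧
      (J 1 s = Real.sqrt 2 * Ip 2 → ∃ i j, i ≠ j ∧ s i = 1 / 2 ∧ s j = 1 / 2) := by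
  have hint := (J_le_exp s hs hs2 hsum).1
  have hhalf1 := ee_half.1
  have hhalf2 := ee_half.2
  have hP := P1_bounds.1
  have hJ2 := J2_low_10575_j10575
  have fin1 : J 1 s < Real.sqrt 2 * Ip 2 → Integrable (fun t => ∏ k, phi 1 (Real.sqrt (s k) * t)) ∧
      J 1 s ≤ Real.sqrt 2 * Ip 2 ∧
      (J 1 s = Real.sqrt 2 * Ip 2 → ∃ i j, i ≠ j ∧ s i = 1 / 2 ∧ s j = 1 / 2) := fun h =>
    ⟨hint, h.le, fun h' => absurd h' h.ne⟩
  have fin2 : 2 * ee (1 / 2) < ∑ k, ee (s k) →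
      Integrable (fun t => ∏ k, phi 1 (Real.sqrt (s k) * t)) ∧
      J 1 s ≤ Real.sqrt 2 * Ip 2 ∧
      (J 1 s = Real.sqrt 2 * Ip 2 → ∃ i j, i ≠ j ∧ s i = 1 / 2 ∧ s j = 1 / 2) := fun h =>
    fin1 (strict_10575_j10575 s hs hs2 hsum h)
  have hee0 : ∀ k, 0 ≤ ee (s k) := fun k => ee_nonneg _ (hs k) (hs2 k)
  have hne : Nonempty (Fin n) := by
    by_contra hcon
    rw [not_nonempty_iff] at hcon
    rw [Finset.univ_eq_empty, Finset.sum_empty] at hsum
    norm_num at hsum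
  obtain ⟨j, -, hj⟩ := Finset.exists_max_image Finset.univ s Finset.univ_nonempty
  have hjmax : ∀ k, s k ≤ s j := fun k => hj k (Finset.mem_univ k)
  have hnr : (n : ℝ) ≤ 5 := by exact_mod_cast hn
  by_cases hA : s j ≤ 0.35
  · -- case 1
    apply fin2
    have h1 : ∑ k, (0.0454155 * s k - 0.0038726) ≤ ∑ k, ee (s k) :=
      Finset.sum_le_sum fun k _ => ee_line (s k) (hs k) ((hjmax k).trans hA)
    rw [Finset.sum_sub_distrib, ← Finset.mul_sum, hsum, Finset.sum_const, Finset.card_univ,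
      Fintype.card_fin, nsmul_eq_mul] at h1
    linarith
  push Not at hA
  by_cases hB : s j ≤ 0.44
  · -- case 2
    by_cases hC : ∀ k, k ≠ j → s k ≤ 0.35
    · apply fin2
      have h1 : ∑ k, ee (s k) = ee (s j) + ∑ k ∈ Finset.univ.erase j, ee (s k) :=
        (Finset.add_sum_erase Finset.univ (fun k => ee (s k)) (Finset.mem_univ j)).symm
      have h2 : ∑ k, s k = s j + ∑ k ∈ Finset.univ.erase j, s k :=
        (Finset.add_sum_erase Finset.univ s (Finset.mem_univ j)).symm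
      have h3 := support_sum_10575_j10575 (Finset.univ.erase j) s 4
        (by
          rw [Finset.card_erase_of_mem (Finset.mem_univ j), Finset.card_univ, Fintype.card_fin]
          omega) (fun k _ => hs k) (fun k hk => hC k (Finset.ne_of_mem_erase hk))
        ((1 - s j) / 4) (by push_cast; linarith) (by have := hs2 j; linarith) (by linarith)
      have h4 := ee_five (s j) hA.le hB
      have h5 : ((4 : ℕ) : ℝ) * (0.1323 * ((1 - s j) / 4) ^ 2 + 0.005 * ((1 - s j) / 4) ^ 3) =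
          0.033075 * (1 - s j) ^ 2 + 0.0003125 * (1 - s j) ^ 3 := by
        push_cast; ring
      rw [h5] at h3
      rw [h1]
      linarith
    · push Not at hC
      obtain ⟨l, hl, hl2⟩ := hC
      apply fin2
      have h1 := sum_two_10575_j10575 (fun k => ee (s k)) j l hl
      have h2 := ee_forty (s j) hA.le hB
      have h3 := ee_forty (s l) hl2.le ((hjmax l).trans hB)
      have h4 : 0 ≤ ∑ k ∈ (Finset.univ.erase j).erase l, ee (s k) :=
        Finset.sum_nonneg fun k _ => hee0 k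
      linarith
  push Not at hB
  have hj2 := hs2 j
  -- final analysis with a coordinate > 0.31
  have key : ∀ l, l ≠ j → 0.31 < s l → Integrable (fun t => ∏ k, phi 1 (Real.sqrt (s k) * t)) ∧
      J 1 s ≤ Real.sqrt 2 * Ip 2 ∧
      (J 1 s = Real.sqrt 2 * Ip 2 → ∃ i j, i ≠ j ∧ s i = 1 / 2 ∧ s j = 1 / 2) := by
    intro l hl hl2
    have h1 := rest_10575_j10575 hn s hs hsum j l hl (by linarith)
    rcases (hs2 l).lt_or_eq with h2 | h2
    · apply fin2
      have h3 := ee_F2 (s l) hl2.le h2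
      have h4 := ee_F1 (s j) hB.le hj2
      have h5 : (1 / 2 - s l) ^ 2 ≤ (1 - s j - s l) ^ 2 := by
        apply pow_le_pow_left₀ (by linarith) (by linarith)
      nlinarith
    · have h3 : s j = 1 / 2 := le_antisymm hj2 (by rw [← h2]; exact hjmax l)
      refine ⟨hint, ?_, fun _ => ⟨l, j, hl, h2, h3⟩⟩
      have h4 := (J_le_exp s hs hs2 hsum).2
      rw [two_eq]
      refine h4.trans ?_
      apply mul_le_mul_of_nonneg_left _ (by linarith)
      rw [Real.exp_le_exp]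
      rw [h2, h3] at h1
      nlinarith
  by_cases hD : 0.47 ≤ s j
  · by_cases hE : ∀ k, k ≠ j → s k ≤ 0.31
    · exact fin1 ((R3_bound s hs hsum j hB.le (by linarith) (Or.inr ⟨hD, hE⟩)).2.trans hJ2)
    · push Not at hE
      obtain ⟨l, hl, hl2⟩ := hE
      exact key l hl hl2
  · push Not at hD
    by_cases hE : ∀ k, k ≠ j → s k ≤ 0.3
    · exact fin1 ((R3_bound s hs hsum j hB.le (by linarith) (Or.inl hE)).2.trans hJ2)
    · push Not at hE
      obtain ⟨l, hl, hl2⟩ := hE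
      by_cases hF : 0.31 < s l
      · exact key l hl hF
      · push Not at hF
        apply fin2
        have h1 := rest_10575_j10575 hn s hs hsum j l hl (by linarith)
        have h3 := ee_F3 (s l) hl2.le hF
        have h4 := ee_F1 (s j) hB.le hj2
        have h5 : (0.22 : ℝ) ^ 2 ≤ (1 - s j - s l) ^ 2 := by
          apply pow_le_pow_left₀ (by norm_num) (by linarith)
        nlinarith

theorem rpow_bound_10575_j10575 (η : ℝ) (h0 : 0 ≤ η) (h1 : η ≤ 0.027) :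
    (1 - 4 * η ^ 2) ^ (-(1 / 4) : ℝ) ≤ Real.exp (1.01 * η ^ 2) := by
  have hu : η ^ 2 ≤ 0.000729 := by nlinarith
  have hu0 : 0 ≤ η ^ 2 := sq_nonneg η
  have hpos : 0 < 1 - 4 * η ^ 2 := by linarith
  rw [Real.rpow_def_of_pos hpos]
  rw [Real.exp_le_exp]
  have h2 := Real.one_sub_inv_le_log_of_pos hpos
  have h3 : (1 - 4 * η ^ 2)⁻¹ ≤ 1 + 4.04 * η ^ 2 := by
    rw [inv_le_comm₀ hpos (by positivity), inv_eq_one_div, div_le_iff₀ (by positivity)]
    nlinarith
  linarith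

theorem region_five_half {n : ℕ} (hn : n ≤ 5) (s : Fin n → ℝ) (hs : ∀ k, 0 ≤ s k)
    (hsum : ∑ k, s k = 1) (j : Fin n) (h1 : 1 / 2 < s j) (h2 : s j ≤ 0.527)
    (h3 : ∀ k, k ≠ j → s k < 1 / 2 - 2.6 * (s j - 1 / 2)) :
    Integrable (fun t => ∏ k, phi 1 (Real.sqrt (s k) * t)) ∧ J 1 s < Real.sqrt 2 * Ip 2 := by
  have hP := P1_bounds.1
  have hJ2 := J2_low_10575_j10575
  by_cases hE : ∀ k, k ≠ j → s k ≤ 0.31
  · have h := R3_bound s hs hsum j (by linarith) h2 (Or.inr ⟨by linarith, hE⟩)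
    exact ⟨h.1, h.2.trans hJ2⟩
  · push Not at hE
    obtain ⟨l, hl, hl2⟩ := hE
    obtain ⟨hint, hJ⟩ := J_le_half s hs hsum j h1.le (by linarith)
    refine ⟨hint, lt_of_le_of_lt hJ ?_⟩
    set η := s j - 1 / 2 with hη
    have hη0 : 0 < η := by linarith
    have hη1 : η ≤ 0.027 := by linarith
    have hsj : s j = 1 / 2 + η := by linarith
    have h3l := h3 l hl
    set d := 2 * (1 - s j) with hd
    have hdη : d = 1 - 2 * η := by rw [hd, hsj]; ring
    have hd0 : 0 < d := by rw [hdη]; linarith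
    have hd1 : d < 1 := by rw [hdη]; linarith
    set α := s l / d with hα
    have hαd : α * d = s l := div_mul_cancel₀ _ hd0.ne'
    have hα1 : s l ≤ α := by
      rw [hα, le_div_iff₀ hd0]
      nlinarith [hs l]
    have hα2 : α ≤ 1 / 2 - 1.6 * η := by
      rw [hα, div_le_iff₀ hd0, hdη]
      nlinarith
    have hF4 := ee_F4 η α hη0.le hη1 (by rw [← hdη, hαd]; exact hl2.le) hα2 (Or.inl hη0)
    have e1 : ∑ k ∈ (Finset.univ.erase j).erase l, s k = 1 - s j - s l := by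
      have := sum_two_10575_j10575 s j l hl
      linarith
    have e2 : ∑ k ∈ (Finset.univ.erase j).erase l, s k / d = 1 / 2 - α := by
      rw [← Finset.sum_div, e1, div_eq_iff hd0.ne', sub_mul, hαd, hdη, hsj]
      ring
    have e3 := three_sum_10575_j10575 ((Finset.univ.erase j).erase l) (fun k => s k / d)
      (card_two_10575_j10575 hn j l hl) (fun k _ => div_nonneg (hs k) hd0.le) (1 / 2 - α) e2
      (by linarith)
    have e4 : ∑ i ∈ Finset.univ.erase j, ee (s i / d) =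
        ee α + ∑ k ∈ (Finset.univ.erase j).erase l, ee (s k / d) :=
      (Finset.add_sum_erase (Finset.univ.erase j) (fun k => ee (s k / d))
        (Finset.mem_erase.2 ⟨hl, Finset.mem_univ l⟩)).symm
    have e5 : 4 * s j * (1 - s j) = 1 - 4 * η ^ 2 := by rw [hsj]; ring
    rw [e5, e4, two_eq, mul_assoc]
    apply mul_lt_mul_of_pos_left _ (by linarith)
    have e6 := rpow_bound_10575_j10575 η hη0.le hη1
    calc Real.exp (-(ee (1 / 2) + (ee α + ∑ k ∈ (Finset.univ.erase j).erase l, ee (s k / d)))) *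
          (1 - 4 * η ^ 2) ^ (-(1 / 4) : ℝ)
        ≤ Real.exp (-(ee (1 / 2) + (ee α + ∑ k ∈ (Finset.univ.erase j).erase l,
            ee (s k / d)))) * Real.exp (1.01 * η ^ 2) :=
          mul_le_mul_of_nonneg_left e6 (Real.exp_pos _).le
      _ = Real.exp (-(ee (1 / 2) + (ee α + ∑ k ∈ (Finset.univ.erase j).erase l,
            ee (s k / d))) + 1.01 * η ^ 2) := (Real.exp_add _ _).symm
      _ < Real.exp (-(2 * ee (1 / 2))) := by
          rw [Real.exp_lt_exp]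
          linarith



end Pool.Agent.Helper82.GC
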