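import Pool.Agent.Helper82.GC.Fin
import Pool.Agent.Helper82.GC.J10559
import Pool.Agent.Helper82.GC.J10561
import Pool.Agent.Helper82.GC.J10575

set_option autoImplicit false

open MeasureTheory Set

namespace Pool.Agent.Helper82.GC


theorem main_five {n : ℕ} (hn3 : 2 ≤ n) (hn : n ≤ 5) (θ : EuclideanSpace ℝ (Fin n))
    (hθ : ‖θ‖ = 1) :
    sec n 1 θ ≤ (2 * Real.pi) ^ (-((n : ℝ) + 1) / 2) * Zr 1 ^ n * (Real.sqrt 2 * Ip 2) ∧
      (sec n 1 θ = (2 * Real.pi) ^ (-((n : ℝ) + 1) / 2) * Zr 1 ^ n * (Real.sqrt 2 * Ip 2) ↔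
        ∃ i j, i ≠ j ∧ |θ i| = 1 / Real.sqrt 2 ∧ |θ j| = 1 / Real.sqrt 2) := by
  obtain ⟨m, rfl⟩ : ∃ m, n = m + 2 := ⟨n - 2, by omega⟩
  have hZ : 0 < Zr 1 := Zr_pos one_pos
  have hZ' : Zr 1 ≠ 0 := hZ.ne'
  have h2pi : 0 < 2 * Real.pi := by positivity
  obtain ⟨sl, hsl⟩ : ∃ sl, sl = ∫ x : ((ℝ ∙ θ)ᗮ : Submodule ℝ (EuclideanSpace ℝ (Fin (m + 2)))),
        F 1 (x : EuclideanSpace ℝ (Fin (m + 2))) := ⟨_, rfl⟩
  obtain ⟨T, hT⟩ : ∃ T, T = Zr 1 ^ (m + 2) / (2 * Real.pi) * (Real.sqrt 2 * Ip 2) := ⟨_, rfl⟩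
  have hsec : sec (m + 2) 1 θ = (2 * Real.pi) ^ (-((m + 1 : ℕ) : ℝ) / 2) * sl := by
    rw [hsl]
    exact sec_eq (k := m + 1) 1 θ hθ
  have hc : (2 * Real.pi) ^ (-(((m + 2 : ℕ) : ℝ) + 1) / 2) * Zr 1 ^ (m + 2) *
      (Real.sqrt 2 * Ip 2) = (2 * Real.pi) ^ (-((m + 1 : ℕ) : ℝ) / 2) * T := by
    have e1 : -(((m + 2 : ℕ) : ℝ) + 1) / 2 = -((m + 1 : ℕ) : ℝ) / 2 - 1 := by
      push_cast; ring
    rw [e1, Real.rpow_sub_one h2pi.ne', hT]
    ring
  have hcpos : 0 < (2 * Real.pi) ^ (-((m + 1 : ℕ) : ℝ) / 2) := Real.rpow_pos_of_pos h2pi _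
  have hcore : sl ≤ T ∧ (sl = T ↔
      ∃ i j, i ≠ j ∧ |θ i| = 1 / Real.sqrt 2 ∧ |θ j| = 1 / Real.sqrt 2) := by
    have habs : ∀ i, |θ i| = 1 / Real.sqrt 2 ↔ θ i ^ 2 = 1 / 2 := by
      intro i
      have e2 : (1 / Real.sqrt 2) ^ 2 = 1 / 2 := by
        rw [div_pow, Real.sq_sqrt (by norm_num)]
        norm_num
      constructor
      · intro h
        rw [← sq_abs, h, e2]
      · intro h
        have h3 : |θ i| ^ 2 = (1 / Real.sqrt 2) ^ 2 := by rw [sq_abs, h, e2]
        exact (pow_left_inj₀ (abs_nonneg _) (by positivity) (by norm_num)).1 h3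
    have hss := sum_sq θ hθ
    have hTpos : 0 < Zr 1 ^ (m + 2) / (2 * Real.pi) := by positivity
    by_cases hA : ∀ k, θ k ^ 2 ≤ 1 / 2
    · obtain ⟨hint, hle, heq⟩ := region_five hn (fun k => θ k ^ 2) (fun k => sq_nonneg _) hA hss
      have hJ := slice_eq_J one_pos θ hθ hint
      rw [← hsl] at hJ
      rw [hJ, hT]
      refine ⟨mul_le_mul_of_nonneg_left hle hTpos.le, ?_, ?_⟩
      · intro h
        have h1 := mul_left_cancel₀ hTpos.ne' h
        obtain ⟨i, j, hij, hi, hj⟩ := heq h1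
        exact ⟨i, j, hij, (habs i).2 hi, (habs j).2 hj⟩
      · rintro ⟨i, j, hij, hi, hj⟩
        rw [habs] at hi hj
        have hk : ∀ k, k ≠ i → k ≠ j → θ k ^ 2 = 0 := by
          intro k hki hkj
          have h4 : ∑ l ∈ ({i, j, k} : Finset (Fin (m + 2))), θ l ^ 2 ≤ ∑ l, θ l ^ 2 :=
            Finset.sum_le_sum_of_subset_of_nonneg (Finset.subset_univ _)
              (fun l _ _ => sq_nonneg _)
          rw [hss, Finset.sum_insert (by
            simp only [Finset.mem_insert, Finset.mem_singleton, not_or]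
            exact ⟨hij, fun h => hki h.symm⟩),
            Finset.sum_pair (fun h => hkj h.symm), hi, hj] at h4
          have := sq_nonneg (θ k)
          linarith
        have h5 := (J_two (fun k => θ k ^ 2) i j hij hi hj hk).2
        rw [h5]
    · push Not at hA
      obtain ⟨j, hj⟩ := hA
      have hj0 : θ j ≠ 0 := by
        intro h
        rw [h] at hj
        norm_num at hj
      have hjle : θ j ^ 2 ≤ 1 := by
        rw [← hss]
        exact Finset.single_le_sum (f := fun i => θ i ^ 2) (fun i _ => sq_nonneg _)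
          (Finset.mem_univ j)
      have hsqrt : Real.sqrt (θ j ^ 2) = |θ j| := Real.sqrt_sq_eq_abs _
      have hlt : sl < T := by
        have hT2 : T = Zr 1 ^ m * (Real.sqrt 2 * ∫ x in (-1 : ℝ)..1, Real.exp (-x ^ 2)) := by
          rw [hT, Ip_two_eq]
          field_simp
          ring
        by_cases hB1 : 0.527 ≤ θ j ^ 2
        · have h1 := slice_le_moment (k := m + 1) one_pos θ hθ j hj0
          rw [← hsl] at h1
          have h2 := moment_num (θ j ^ 2) hB1 hjle
          rw [hsqrt] at h2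
          refine lt_of_le_of_lt h1 ?_
          have h3 : Zr 1 ^ (m + 1) * (Real.sqrt 2 * (∫ x in (-1 : ℝ)..1, Real.exp (-x ^ 2)) / Zr 1)
              = T := by
            rw [hT2, pow_succ]
            field_simp
          rw [← h3]
          exact mul_lt_mul_of_pos_left h2 (by positivity)
        · push Not at hB1
          by_cases hB2 : ∃ l, l ≠ j ∧ 1 / 2 - 2.6 * (θ j ^ 2 - 1 / 2) ≤ θ l ^ 2
          · obtain ⟨l, hlj, hl⟩ := hB2
            have h1 := slice_le_pair θ hθ j hj0 l hlj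
            rw [← hsl] at h1
            have h2 := pair_num (θ j ^ 2) (θ l ^ 2) hj hB1.le hl
            rw [hsqrt] at h2
            refine lt_of_le_of_lt h1 ?_
            rw [hT2]
            exact mul_lt_mul_of_pos_left h2 (by positivity)
          · push Not at hB2
            obtain ⟨hint, hlt⟩ := region_five_half hn (fun k => θ k ^ 2)
              (fun k => sq_nonneg _) hss j hj hB1.le hB2
            have hJ := slice_eq_J one_pos θ hθ hint
            rw [← hsl] at hJ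
            rw [hJ, hT]
            exact mul_lt_mul_of_pos_left hlt hTpos
      refine ⟨hlt.le, fun h => absurd h hlt.ne, ?_⟩
      rintro ⟨i, l, hil, hi, hl⟩
      exfalso
      rw [habs] at hi hl
      have hij : j ≠ i := by
        intro h
        rw [h, hi] at hj
        exact lt_irrefl _ hj
      have hlj : j ≠ l := by
        intro h
        rw [h, hl] at hj
        exact lt_irrefl _ hj
      have h4 : ∑ a ∈ ({i, l, j} : Finset (Fin (m + 2))), θ a ^ 2 ≤ ∑ a, θ a ^ 2 :=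
        Finset.sum_le_sum_of_subset_of_nonneg (Finset.subset_univ _)
          (fun l _ _ => sq_nonneg _)
      rw [hss, Finset.sum_insert (by
        simp only [Finset.mem_insert, Finset.mem_singleton, not_or]
        exact ⟨hil, fun h => hij h.symm⟩),
        Finset.sum_pair (fun h => hlj h.symm), hi, hl] at h4
      linarith
  rw [hsec, hc]
  refine ⟨mul_le_mul_of_nonneg_left hcore.1 hcpos.le, ?_⟩
  rw [← hcore.2]
  exact ⟨fun h => mul_left_cancel₀ hcpos.ne' h, fun h => by rw [h]⟩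



end Pool.Agent.Helper82.GC
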