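import Pool.Agent.Helper82.GC.J10577
import Pool.Agent.Helper82.GC.J10579

set_option autoImplicit false

open MeasureTheory Set

namespace Pool.Agent.Helper82.GC

theorem Zr_sqrt_two : Zr (Real.sqrt 2) = Real.sqrt 2 * ∫ x in (-1 : ℝ)..1, Real.exp (-x ^ 2) := by
  unfold Zr
  have h2 : (0 : ℝ) < Real.sqrt 2 := Real.sqrt_pos.2 (by norm_num)
  have h := intervalIntegral.mul_integral_comp_mul_left (a := (-1 : ℝ)) (b := 1)
    (f := fun x : ℝ => Real.exp (-x ^ 2 / 2)) (c := Real.sqrt 2)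
  rw [mul_neg, mul_one] at h
  rw [← h]
  congr 1
  apply intervalIntegral.integral_congr
  intro x _
  show Real.exp (-(Real.sqrt 2 * x) ^ 2 / 2) = Real.exp (-x ^ 2)
  congr 1
  rw [mul_pow, Real.sq_sqrt (by norm_num)]
  ring

theorem pair_value {k : ℕ} : (2 * Real.pi) ^ (-(((k + 2 : ℕ) : ℝ) + 1) / 2) * Zr 1 ^ (k + 2) *
      (Real.sqrt 2 * Ip 2) =
      (Zr (Real.sqrt 2) / Real.sqrt (2 * Real.pi)) ^ 1 * (Zr 1 / Real.sqrt (2 * Real.pi)) ^ k := by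
  have hpi : (0 : ℝ) < 2 * Real.pi := by positivity
  have hz := Zr_pos (r := 1) one_pos
  have h4 : (2 * Real.pi) ^ (-(((k + 2 : ℕ) : ℝ) + 1) / 2) =
      (Real.sqrt (2 * Real.pi) ^ (k + 3))⁻¹ := by
    rw [neg_div, Real.rpow_neg hpi.le, Real.sqrt_eq_rpow, ← Real.rpow_natCast,
      ← Real.rpow_mul hpi.le]
    congr 2
    push_cast
    ring
  have hq : 0 < Real.sqrt (2 * Real.pi) := Real.sqrt_pos.2 hpi
  rw [h4, Zr_sqrt_two, Ip_two_eq, pow_one, div_pow]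
  have e : (2 * Real.pi) = Real.sqrt (2 * Real.pi) * Real.sqrt (2 * Real.pi) :=
    (Real.mul_self_sqrt hpi.le).symm
  obtain ⟨q, hq'⟩ : ∃ q, q = Real.sqrt (2 * Real.pi) := ⟨_, rfl⟩
  rw [← hq'] at e hq ⊢
  rw [e]
  have hz2 : Zr 1 ^ (k + 2) = Zr 1 ^ k * Zr 1 ^ 2 := pow_add _ _ _
  rw [hz2]
  field_simp
  ring

/-- the direction `(1, 1, 0, …, 0)/√2` -/
noncomputable def twoDir (k : ℕ) : EuclideanSpace ℝ (Fin (k + 2)) :=
  WithLp.toLp 2 (fun i => if i = 0 ∨ i = 1 then 1 / Real.sqrt 2 else 0)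

theorem twoDir_norm (k : ℕ) : ‖twoDir k‖ = 1 := by
  rw [EuclideanSpace.norm_eq]
  have h : ∀ i : Fin (k + 2), ‖(twoDir k) i‖ ^ 2 =
      (if i = 0 then (1 / 2 : ℝ) else 0) + (if i = 1 then (1 / 2 : ℝ) else 0) := by
    intro i
    show ‖(if i = 0 ∨ i = 1 then 1 / Real.sqrt 2 else 0 : ℝ)‖ ^ 2 = _
    have h2 : ((1 : ℝ) / Real.sqrt 2) ^ 2 = 1 / 2 := by
      rw [div_pow, Real.sq_sqrt (by norm_num)]
      norm_num
    have h01 : (0 : Fin (k + 2)) ≠ 1 := by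
      intro h
      have := congrArg Fin.val h
      simp at this
    by_cases h0 : i = 0
    · subst h0
      rw [if_pos (Or.inl rfl), if_pos rfl, if_neg h01, Real.norm_eq_abs, sq_abs, h2, add_zero]
    · by_cases h1 : i = 1
      · subst h1
        rw [if_pos (Or.inr rfl), if_neg h0, if_pos rfl, Real.norm_eq_abs, sq_abs, h2, zero_add]
      · rw [if_neg (by tauto), if_neg h0, if_neg h1]
        simp
  rw [Finset.sum_congr rfl (fun i _ => h i), Finset.sum_add_distrib]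
  simp only [Finset.sum_ite_eq', Finset.mem_univ, if_true]
  norm_num

theorem twoDir_spec (k : ℕ) : ∃ i j : Fin (k + 2), i ≠ j ∧ |(twoDir k) i| = 1 / Real.sqrt 2 ∧
    |(twoDir k) j| = 1 / Real.sqrt 2 := by
  refine ⟨0, 1, ?_, ?_, ?_⟩
  · intro h
    have := congrArg Fin.val h
    simp at this
  · show |(if (0 : Fin (k + 2)) = 0 ∨ (0 : Fin (k + 2)) = 1 then 1 / Real.sqrt 2 else 0 : ℝ)| = _
    rw [if_pos (Or.inl rfl), abs_of_nonneg (by positivity)]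
  · show |(if (1 : Fin (k + 2)) = 0 ∨ (1 : Fin (k + 2)) = 1 then 1 / Real.sqrt 2 else 0 : ℝ)| = _
    rw [if_pos (Or.inr rfl), abs_of_nonneg (by positivity)]

/-- the value of the diagonal section as an explicit integral -/
theorem diag_value {n : ℕ} (hn2 : 2 ≤ n) : sec n 1 (diagonal n) =
    (2 * Real.pi) ^ (-((n : ℝ) + 1) / 2) *
        ∫ t : ℝ, (∫ x in (-1 : ℝ)..1, Real.cos (t * x / Real.sqrt n) * Real.exp (-x ^ 2 / 2)) ^ n := by
  obtain ⟨k, rfl⟩ : ∃ k, n = k + 1 := ⟨n - 1, by omega⟩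
  have hn0 : (0 : ℝ) < ((k + 1 : ℕ) : ℝ) := by positivity
  have hz := Zr_pos (r := 1) one_pos
  have hdsq : ∀ i, (diagonal (k + 1)) i ^ 2 = 1 / ((k + 1 : ℕ) : ℝ) := by
    intro i
    show ((1 : ℝ) / Real.sqrt ((k + 1 : ℕ) : ℝ)) ^ 2 = 1 / ((k + 1 : ℕ) : ℝ)
    rw [div_pow, Real.sq_sqrt hn0.le]
    norm_num
  have hdle : ∀ i, (diagonal (k + 1)) i ^ 2 ≤ 1 / 2 := by
    intro i
    rw [hdsq i]
    have h2 : (2 : ℝ) ≤ ((k + 1 : ℕ) : ℝ) := by exact_mod_cast hn2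
    exact one_div_le_one_div_of_le (by norm_num) h2
  rw [sec_mid _ (diagonal_norm (by omega)) hdle]
  have hpi : (0 : ℝ) < 2 * Real.pi := by positivity
  have e1 : (2 * Real.pi) ^ (-(k : ℝ) / 2) * (Zr 1 ^ (k + 1) / (2 * Real.pi) *
      J 1 (fun i => (diagonal (k + 1)) i ^ 2)) =
      (2 * Real.pi) ^ (-(((k + 1 : ℕ) : ℝ) + 1) / 2) * (Zr 1 ^ (k + 1) *
      J 1 (fun i => (diagonal (k + 1)) i ^ 2)) := by
    have e2 : -(((k + 1 : ℕ) : ℝ) + 1) / 2 = -(k : ℝ) / 2 + (-1) := by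
      push_cast
      ring
    rw [e2, Real.rpow_add hpi, Real.rpow_neg_one]
    ring
  rw [e1]
  congr 1
  unfold J
  rw [← integral_const_mul]
  congr 1
  funext t
  simp only [hdsq]
  rw [Finset.prod_const, Finset.card_univ, Fintype.card_fin, ← mul_pow]
  congr 1
  unfold phi G
  rw [mul_div_cancel₀ _ hz.ne']
  congr 1
  funext x
  congr 2
  rw [Real.sqrt_div zero_le_one, Real.sqrt_one]
  ring

end Pool.Agent.Helper82.GC
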