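import Pool.Agent.Helper82.GC.Def

set_option autoImplicit false

open MeasureTheory Set

namespace Pool.Agent.Helper82.GC


open scoped InnerProductSpace

theorem fubini_equiv {n : ℕ} (θ : EuclideanSpace ℝ (Fin n)) (hθ : ‖θ‖ = 1) :
    ∃ e : ((ℝ ∙ θ)ᗮ : Submodule ℝ (EuclideanSpace ℝ (Fin n))) × ℝ ≃ᵐ EuclideanSpace ℝ (Fin n),
      MeasurePreserving e (volume.prod volume) volume ∧
      ∀ q, e q = (q.1 : EuclideanSpace ℝ (Fin n)) + q.2 • θ := by
  let K : Submodule ℝ (EuclideanSpace ℝ (Fin n)) := ℝ ∙ θ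
  let e0 : EuclideanSpace ℝ (Fin n) ≃ᵐ K × Kᗮ :=
    K.orthogonalDecomposition.toHomeomorph.toMeasurableEquiv.trans (MeasurableEquiv.toLp 2 _).symm
  have he0 : MeasurePreserving e0 volume volume :=
    K.orthogonalDecomposition.measurePreserving.trans (WithLp.volume_preserving_ofLp _ _)
  let f : ℝ ≃ᵐ K := (LinearIsometryEquiv.toSpanUnitSingleton θ hθ).toHomeomorph.toMeasurableEquiv
  have hf : MeasurePreserving f volume volume :=
    (LinearIsometryEquiv.toSpanUnitSingleton θ hθ).measurePreserving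
  let e1 : Kᗮ × ℝ ≃ᵐ K × Kᗮ :=
    ((MeasurableEquiv.refl Kᗮ).prodCongr f).trans MeasurableEquiv.prodComm
  have he1 : MeasurePreserving e1 (volume.prod volume) (volume.prod volume) :=
    ((MeasurePreserving.id (volume : Measure Kᗮ)).prod hf).trans Measure.measurePreserving_swap
  refine ⟨e1.trans e0.symm, he1.trans (he0.symm e0), ?_⟩
  intro q
  have h1 : (e1.trans e0.symm) q = K.orthogonalDecomposition.symm (WithLp.toLp 2 (f q.2, q.1)) := rfl
  have h2 : ((f q.2 : K) : EuclideanSpace ℝ (Fin n)) = q.2 • θ := rfl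
  rw [h1, Submodule.orthogonalDecomposition_symm_apply]
  change ((f q.2 : K) : EuclideanSpace ℝ (Fin n)) + (q.1 : EuclideanSpace ℝ (Fin n)) = _
  rw [h2, add_comm]

end Pool.Agent.Helper82.GC
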