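import Pool.Agent.Helper82.GC.Def2

set_option autoImplicit false

open MeasureTheory Set

namespace Pool.Agent.Helper82.GC


theorem beta_cont10072_j10072 (a : ℝ) (ha : 1 ≤ a) (k : ℕ) :
    Continuous fun u : ℝ => u ^ k * (1 - u ^ 2) ^ a := by
  refine (continuous_pow k).mul ?_
  exact (continuous_const.sub (continuous_pow 2)).rpow_const fun x => Or.inr (by linarith)

theorem beta_step10072_j10072 (a : ℝ) (ha : 1 ≤ a) (k : ℕ) :
    (2 * k + 2 * a + 3) * ∫ u in (-1 : ℝ)..1, u ^ (2 * k + 2) * (1 - u ^ 2) ^ a =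
      (2 * k + 1) * ∫ u in (-1 : ℝ)..1, u ^ (2 * k) * (1 - u ^ 2) ^ a := by
  have hd : ∀ u ∈ Set.uIcc (-1 : ℝ) 1, HasDerivAt (fun u : ℝ => u ^ (2 * k + 1) * (1 - u ^ 2) ^ (a + 1))
      ((2 * k + 1) * (u ^ (2 * k) * (1 - u ^ 2) ^ a) -
        (2 * k + 2 * a + 3) * (u ^ (2 * k + 2) * (1 - u ^ 2) ^ a)) u := by
    intro u hu
    rw [Set.uIcc_of_le (by norm_num)] at hu
    have hu2 : 0 ≤ 1 - u ^ 2 := by nlinarith [hu.1, hu.2]
    have h1 : HasDerivAt (fun u : ℝ => u ^ (2 * k + 1)) (((2 * k + 1 : ℕ) : ℝ) * u ^ (2 * k)) u := by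
      simpa using hasDerivAt_pow (2 * k + 1) u
    have h2 : HasDerivAt (fun u : ℝ => 1 - u ^ 2) (-(2 * u)) u := by
      have := (hasDerivAt_pow 2 u).const_sub 1
      simpa using this
    have h3 : HasDerivAt (fun u : ℝ => (1 - u ^ 2) ^ (a + 1))
        ((a + 1) * (1 - u ^ 2) ^ (a + 1 - 1) * (-(2 * u))) u :=
      HasDerivAt.comp u (Real.hasDerivAt_rpow_const (Or.inr (by linarith))) h2
    refine (h1.fun_mul h3).congr_deriv ?_
    rw [Real.rpow_add_one' hu2 (by linarith), add_sub_cancel_right]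
    push_cast
    ring
  have hc1 : Continuous fun u : ℝ => u ^ (2 * k) * (1 - u ^ 2) ^ a := beta_cont10072_j10072 a ha _
  have hc2 : Continuous fun u : ℝ => u ^ (2 * k + 2) * (1 - u ^ 2) ^ a := beta_cont10072_j10072 a ha _
  have h4 := intervalIntegral.integral_eq_sub_of_hasDerivAt hd
    (((hc1.const_mul _).sub (hc2.const_mul _)).intervalIntegrable _ _)
  rw [intervalIntegral.integral_sub ((hc1.const_mul _).intervalIntegrable _ _)
    ((hc2.const_mul _).intervalIntegrable _ _), intervalIntegral.integral_const_mul,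
    intervalIntegral.integral_const_mul] at h4
  have h5 : (1 - (1 : ℝ) ^ 2) ^ (a + 1) = 0 := by
    rw [one_pow, sub_self, Real.zero_rpow (by linarith)]
  have h6 : (1 - (-1 : ℝ) ^ 2) ^ (a + 1) = 0 := by
    rw [neg_one_sq, sub_self, Real.zero_rpow (by linarith)]
  rw [h5, h6, mul_zero, mul_zero, sub_zero] at h4
  linarith

theorem beta_zero10072_j10072 (a : ℝ) :
    ∫ u in (-1 : ℝ)..1, u ^ 0 * (1 - u ^ 2) ^ a = ∫ u in (-1 : ℝ)..1, (1 - u ^ 2) ^ a := by
  simp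

theorem beta_succ10072_j10072 (a : ℝ) (ha : 1 ≤ a) :
    (2 * a + 3) * ∫ u in (-1 : ℝ)..1, (1 - u ^ 2) ^ (a + 1) =
      (2 * a + 2) * ∫ u in (-1 : ℝ)..1, (1 - u ^ 2) ^ a := by
  have h1 := beta_step10072_j10072 a ha 0
  have h2 : ∫ u in (-1 : ℝ)..1, (1 - u ^ 2) ^ (a + 1) =
      (∫ u in (-1 : ℝ)..1, u ^ 0 * (1 - u ^ 2) ^ a) - ∫ u in (-1 : ℝ)..1, u ^ 2 * (1 - u ^ 2) ^ a := by
    rw [← intervalIntegral.integral_sub ((beta_cont10072_j10072 a ha 0).intervalIntegrable _ _)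
      ((beta_cont10072_j10072 a ha 2).intervalIntegrable _ _)]
    refine intervalIntegral.integral_congr fun u hu => ?_
    rw [Set.uIcc_of_le (by norm_num)] at hu
    have hu2 : 0 ≤ 1 - u ^ 2 := by nlinarith [hu.1, hu.2]
    rw [Real.rpow_add_one' hu2 (by linarith)]
    ring
  rw [beta_zero10072_j10072] at h2
  simp only [Nat.cast_zero, mul_zero, zero_add, one_mul] at h1
  rw [beta_zero10072_j10072] at h1
  rw [h2]
  linarith

theorem beta_le10072_j10072 (b : ℝ) (hb : 1 ≤ b) :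
    ∫ u in (-1 : ℝ)..1, (1 - u ^ 2) ^ b ≤ Real.sqrt (Real.pi / b) := by
  rw [← integral_gaussian b, intervalIntegral.integral_of_le (by norm_num)]
  have hi : Integrable fun x : ℝ => Real.exp (-b * x ^ 2) := integrable_exp_neg_mul_sq (by linarith)
  refine le_trans ?_ (setIntegral_le_integral (s := Set.Ioc (-1 : ℝ) 1) hi
    (Filter.Eventually.of_forall fun x => (Real.exp_pos _).le))
  refine setIntegral_mono_on ?_ hi.integrableOn measurableSet_Ioc ?_
  · have hc := beta_cont10072_j10072 b hb 0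
    simp only [pow_zero, one_mul] at hc
    exact (hc.integrableOn_Icc (a := -1) (b := 1)).mono_set Set.Ioc_subset_Icc_self
  · intro u hu
    have hu2 : 0 ≤ 1 - u ^ 2 := by nlinarith [hu.1, hu.2]
    have h1 : 1 - u ^ 2 ≤ Real.exp (-u ^ 2) := by
      have := Real.add_one_le_exp (-u ^ 2)
      linarith
    calc (1 - u ^ 2) ^ b ≤ (Real.exp (-u ^ 2)) ^ b := by
          exact Real.rpow_le_rpow hu2 h1 (by linarith)
      _ = Real.exp (-b * u ^ 2) := by
          rw [← Real.exp_mul]; congr 1; ring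

theorem beta_nonneg10072_j10072 (b : ℝ) : 0 ≤ ∫ u in (-1 : ℝ)..1, (1 - u ^ 2) ^ b := by
  refine intervalIntegral.integral_nonneg (by norm_num) fun u hu => ?_
  exact Real.rpow_nonneg (by nlinarith [hu.1, hu.2]) _

theorem beta_int (a : ℝ) (ha : 1 ≤ a) :
    ∫ u in (-1 : ℝ)..1, (1 - u ^ 2) ^ a ≤ Real.sqrt Real.pi / Real.sqrt (a + 3 / 4) := by
  have key : ∀ k : ℕ, (∫ u in (-1 : ℝ)..1, (1 - u ^ 2) ^ a) ^ 2 * (a + 3 / 4) ≤
      (∫ u in (-1 : ℝ)..1, (1 - u ^ 2) ^ (a + k)) ^ 2 * (a + k + 3 / 4) := by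
    intro k
    induction k with
    | zero => simp
    | succ k ih =>
      refine ih.trans ?_
      have hk : (0 : ℝ) ≤ k := Nat.cast_nonneg k
      have h1 := beta_succ10072_j10072 (a + k) (by linarith)
      have h2 : a + (k + 1 : ℕ) = a + k + 1 := by push_cast; ring
      rw [h2]
      generalize (∫ u in (-1 : ℝ)..1, (1 - u ^ 2) ^ (a + k + 1)) = q at *
      generalize (∫ u in (-1 : ℝ)..1, (1 - u ^ 2) ^ (a + k)) = r at *
      obtain ⟨x, hx⟩ : ∃ x : ℝ, x = a + k := ⟨_, rfl⟩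
      rw [← hx] at h1 ⊢
      have hx1 : 1 ≤ x := by rw [hx]; linarith
      have h3 : q = (2 * x + 2) / (2 * x + 3) * r := by
        field_simp
        linarith
      rw [h3, mul_pow, div_pow, mul_comm _ (r ^ 2), mul_assoc]
      refine mul_le_mul_of_nonneg_left ?_ (sq_nonneg r)
      rw [div_mul_eq_mul_div, le_div_iff₀ (by positivity)]
      nlinarith
  have hle : (∫ u in (-1 : ℝ)..1, (1 - u ^ 2) ^ a) ^ 2 * (a + 3 / 4) ≤ Real.pi := by
    refine le_of_forall_pos_le_add fun ε hε => ?_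
    obtain ⟨k, hk⟩ := exists_nat_gt (Real.pi * (3 / 4) / ε)
    refine (key k).trans ?_
    have hk0 : (0 : ℝ) ≤ k := Nat.cast_nonneg k
    have h1 := beta_le10072_j10072 (a + k) (by linarith)
    have h2 := beta_nonneg10072_j10072 (a + k)
    have h3 : (∫ u in (-1 : ℝ)..1, (1 - u ^ 2) ^ (a + k)) ^ 2 ≤ Real.pi / (a + k) := by
      have h4 := pow_le_pow_left₀ h2 h1 2
      rwa [Real.sq_sqrt (by positivity)] at h4
    calc (∫ u in (-1 : ℝ)..1, (1 - u ^ 2) ^ (a + k)) ^ 2 * (a + k + 3 / 4)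
        ≤ Real.pi / (a + k) * (a + k + 3 / 4) := by gcongr
      _ = Real.pi + Real.pi * (3 / 4) / (a + k) := by field_simp
      _ ≤ Real.pi + ε := by
          gcongr
          rw [div_lt_iff₀ hε] at hk
          rw [div_le_iff₀ (by linarith)]
          nlinarith
  rw [← Real.sqrt_div Real.pi_pos.le]
  refine Real.le_sqrt_of_sq_le ?_
  rw [le_div_iff₀ (by linarith)]
  exact hle

theorem beta_mom6 (a : ℝ) (ha : 1 ≤ a) :
    ∫ u in (-1 : ℝ)..1, u ^ 6 * (1 - u ^ 2) ^ a =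
      15 / ((2 * a + 3) * (2 * a + 5) * (2 * a + 7)) * ∫ u in (-1 : ℝ)..1, (1 - u ^ 2) ^ a := by
  have h0 := beta_step10072_j10072 a ha 0
  have h1 := beta_step10072_j10072 a ha 1
  have h2 := beta_step10072_j10072 a ha 2
  norm_num at h0 h1 h2
  have e1 : (2 * a + 3) ≠ 0 := by linarith
  have e2 : (2 * a + 5) ≠ 0 := by linarith
  have e3 : (2 * a + 7) ≠ 0 := by linarith
  rw [div_mul_eq_mul_div, eq_div_iff (by positivity)]
  linear_combination (2 * a + 3) * (2 * a + 5) * h2 + 5 * (2 * a + 3) * h1 + 15 * h0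

theorem beta_mom12 (a : ℝ) (ha : 1 ≤ a) :
    ∫ u in (-1 : ℝ)..1, u ^ 12 * (1 - u ^ 2) ^ a =
      10395 / ((2 * a + 3) * (2 * a + 5) * (2 * a + 7) * (2 * a + 9) * (2 * a + 11) * (2 * a + 13)) *
        ∫ u in (-1 : ℝ)..1, (1 - u ^ 2) ^ a := by
  have h0 := beta_mom6 a ha
  have h3 := beta_step10072_j10072 a ha 3
  have h4 := beta_step10072_j10072 a ha 4
  have h5 := beta_step10072_j10072 a ha 5
  norm_num at h3 h4 h5
  rw [div_mul_eq_mul_div, eq_div_iff (by positivity)] at h0 ⊢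
  linear_combination (2 * a + 3) * (2 * a + 5) * (2 * a + 7) * (2 * a + 9) * (2 * a + 11) * h5 +
    11 * (2 * a + 3) * (2 * a + 5) * (2 * a + 7) * (2 * a + 9) * h4 +
    99 * (2 * a + 3) * (2 * a + 5) * (2 * a + 7) * h3 + 693 * h0



end Pool.Agent.Helper82.GC
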