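import Pool.Agent.Helper82.GC.J9261

set_option autoImplicit false

open MeasureTheory Set

namespace Pool.Agent.Helper82.GC


lemma h399_prod_j9291 {a b a0 a1 b0 b1 : ℝ} (h0 : 0 < a0) (h1 : 0 < b0) (ha0 : a0 < a) (ha1 : a < a1)
    (hb0 : b0 < b) (hb1 : b < b1) : a0 * b0 ≤ a * b ∧ a * b ≤ a1 * b1 :=
  ⟨mul_le_mul ha0.le hb0.le h1.le (h0.trans ha0).le,
    mul_le_mul ha1.le hb1.le (h1.trans hb0).le ((h0.trans ha0).le.trans ha1.le)⟩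

lemma h399_coef_j9291 (v m2 m3 m4 m5 m6 : ℝ) (hv0 : (0.29112509477 : ℝ) < v) (hv1 : v < 0.29112509478)
    (h20 : (0.16450037909 : ℝ) < m2) (h21 : m2 < 0.16450037910)
    (h30 : (0.11362699022 : ℝ) < m3) (h31 : m3 < 0.11362699023)
    (h40 : (0.08651402637 : ℝ) < m4) (h41 : m4 < 0.08651402638)
    (h50 : (0.06975133213 : ℝ) < m5) (h51 : m5 < 0.06975133214)
    (h60 : (0.05838974823 : ℝ) < m6) (h61 : m6 < 0.05838974824) :
    (9/2500000 : ℝ) ≤ (-1/6)*(m2) + (11/34)*(v*v) ∧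
    (0/1 : ℝ) ≤ (-9/25000)*(1) + (-5/408)*(m2*v) + (1/120)*(m3) ∧
    (51/1000000 : ℝ) ≤ (-1/12240)*(m3*v) + (-1/5040)*(m4) + (207/850000)*(v) ∧
    (-4711/1000000000 : ℝ) ≤ (-1/200000)*(m2) + (1/97920)*(m4*v) + (1/362880)*(m5) + (-87/1700000)*(v*v) ∧
    (781/5000000000 : ℝ) ≤ (23/6800000)*(m2*v) + (-13/61689600)*(m5*v) + (-1/39916800)*(m6) ∧
    (-243/100000000000 : ℝ) ≤ (-1/12000000)*(m3*v) + (1/336000000)*(m4) + (1/226195200)*(m6*v) ∧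
    (0/1 : ℝ) ≤ (11/11424000000)*(m4*v) + (-1/15120000000)*(m5) ∧
    (-1/50000000000000 : ℝ) ≤ (-1/205632000000)*(m5*v) + (1/665280000000)*(m6) ∧
    (-1/100000000000000 : ℝ) ≤ (-1/3769920000000)*(m6*v) := by
  obtain ⟨a1, a2⟩ := h399_prod_j9291 (by norm_num) (by norm_num) hv0 hv1 hv0 hv1
  obtain ⟨b1, b2⟩ := h399_prod_j9291 (by norm_num) (by norm_num) h20 h21 hv0 hv1
  obtain ⟨c1, c2⟩ := h399_prod_j9291 (by norm_num) (by norm_num) h30 h31 hv0 hv1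
  obtain ⟨d1, d2⟩ := h399_prod_j9291 (by norm_num) (by norm_num) h40 h41 hv0 hv1
  obtain ⟨e1, e2⟩ := h399_prod_j9291 (by norm_num) (by norm_num) h50 h51 hv0 hv1
  obtain ⟨f1, f2⟩ := h399_prod_j9291 (by norm_num) (by norm_num) h60 h61 hv0 hv1
  norm_num at a1 a2 b1 b2 c1 c2 d1 d2 e1 e2 f1 f2 hv0 hv1 h20 h21 h30 h31 h40 h41 h50 h51 h60 h61
  refine ⟨?_, ?_, ?_, ?_, ?_, ?_, ?_, ?_, ?_⟩ <;> norm_num <;> linarith

lemma h399_Epos_j9291 (x : ℝ) (hx0 : 0 ≤ x) (hx1 : x ≤ 12.22) :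
    0 ≤ ((9/2500000 : ℝ)*x^0 + (0/1 : ℝ)*x^1 + (51/1000000 : ℝ)*x^2 + (-4711/1000000000 : ℝ)*x^3 + (781/5000000000 : ℝ)*x^4 + (-243/100000000000 : ℝ)*x^5 + (0/1 : ℝ)*x^6 + (-1/50000000000000 : ℝ)*x^7 + (-1/100000000000000 : ℝ)*x^8) - (51/10^12 : ℝ) * x ^ 5 := by
  norm_num at hx1 ⊢
  have h2 : 0 ≤ x ^ 2 := by positivity
  have h3 : 0 ≤ x ^ 3 := by positivity
  have k1 : x ^ 3 ≤ 611 / 50 * x ^ 2 := by
    have := mul_le_mul_of_nonneg_left hx1 h2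
    nlinarith
  have k2 : x ^ 5 ≤ (611 / 50) ^ 2 * x ^ 3 := by
    have e : x ^ 5 = x ^ 2 * x ^ 3 := by ring
    rw [e]
    refine mul_le_mul_of_nonneg_right ?_ h3
    exact pow_le_pow_left₀ hx0 hx1 2
  have k3 : x ^ 8 ≤ (611 / 50) ^ 3 * x ^ 5 := by
    have e : x ^ 8 = x ^ 3 * x ^ 5 := by ring
    rw [e]
    refine mul_le_mul_of_nonneg_right ?_ (by positivity)
    exact pow_le_pow_left₀ hx0 hx1 3
  have k4 : x ^ 7 ≤ (611 / 50) ^ 2 * x ^ 5 := by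
    have e : x ^ 7 = x ^ 2 * x ^ 5 := by ring
    rw [e]
    refine mul_le_mul_of_nonneg_right ?_ (by positivity)
    exact pow_le_pow_left₀ hx0 hx1 2
  have k5 : 0 ≤ x ^ 2 * ((x - 19) ^ 2) := by positivity
  norm_num at k2 k3 k4
  nlinarith

lemma h399_core_j9291 (x v m2 m3 m4 m5 m6 m7 Φ Ψ : ℝ) (hx0 : 0 ≤ x) (hx1 : x ≤ 12.22)
    (hv0 : (0.29112509477 : ℝ) < v) (hv1 : v < 0.29112509478)
    (h20 : (0.16450037909 : ℝ) < m2) (h21 : m2 < 0.16450037910)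
    (h30 : (0.11362699022 : ℝ) < m3) (h31 : m3 < 0.11362699023)
    (h40 : (0.08651402637 : ℝ) < m4) (h41 : m4 < 0.08651402638)
    (h50 : (0.06975133213 : ℝ) < m5) (h51 : m5 < 0.06975133214)
    (h60 : (0.05838974823 : ℝ) < m6) (h61 : m6 < 0.05838974824)
    (h71 : m7 < 0.05019182189) (h70 : 0 < m7)
    (hΦ : |Φ - (1 - v * x / 2 + m2 * x ^ 2 / 24 - m3 * x ^ 3 / 720 + m4 * x ^ 4 / 40320 -
      m5 * x ^ 5 / 3628800)| ≤ m6 * x ^ 6 / 479001600)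
    (hΨ : |Ψ - (v - m2 * x / 6 + m3 * x ^ 2 / 120 - m4 * x ^ 3 / 5040 + m5 * x ^ 4 / 362880 -
      m6 * x ^ 5 / 39916800)| ≤ m7 * x ^ 6 / 6227020800) :
    0 ≤ Ψ * ((1 - 3 * v * x / 17) * (1 - 3 / 50000 * x ^ 3)) -
      Φ * (v * (1 - 3 / 50000 * x ^ 3) + 9 / 25000 * x ^ 2 * (1 - 3 * v * x / 17)) := by
  obtain ⟨g0, g1, g2, g3, g4, g5, g6, g7, g8⟩ := h399_coef_j9291 v m2 m3 m4 m5 m6 hv0 hv1 h20 h21 h30
    h31 h40 h41 h50 h51 h60 h61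
  obtain ⟨r1, hr1⟩ : ∃ r1, r1 = Ψ - (v - m2 * x / 6 + m3 * x ^ 2 / 120 - m4 * x ^ 3 / 5040 +
      m5 * x ^ 4 / 362880 - m6 * x ^ 5 / 39916800) := ⟨_, rfl⟩
  obtain ⟨r2, hr2⟩ : ∃ r2, r2 = Φ - (1 - v * x / 2 + m2 * x ^ 2 / 24 - m3 * x ^ 3 / 720 +
      m4 * x ^ 4 / 40320 - m5 * x ^ 5 / 3628800) := ⟨_, rfl⟩
  rw [← hr1] at hΨ
  rw [← hr2] at hΦ
  obtain ⟨A, hA⟩ : ∃ A, A = (1 - 3 * v * x / 17) * (1 - 3 / 50000 * x ^ 3) := ⟨_, rfl⟩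
  obtain ⟨B, hB⟩ : ∃ B, B = v * (1 - 3 / 50000 * x ^ 3) +
    9 / 25000 * x ^ 2 * (1 - 3 * v * x / 17) := ⟨_, rfl⟩
  have key : Ψ * A - Φ * B = x * (((-1/6)*(m2) + (11/34)*(v*v))*x^0 + ((-9/25000)*(1) + (-5/408)*(m2*v) + (1/120)*(m3))*x^1 + ((-1/12240)*(m3*v) + (-1/5040)*(m4) + (207/850000)*(v))*x^2 + ((-1/200000)*(m2) + (1/97920)*(m4*v) + (1/362880)*(m5) + (-87/1700000)*(v*v))*x^3 + ((23/6800000)*(m2*v) + (-13/61689600)*(m5*v) + (-1/39916800)*(m6))*x^4 + ((-1/12000000)*(m3*v) + (1/336000000)*(m4) + (1/226195200)*(m6*v))*x^5 + ((11/11424000000)*(m4*v) + (-1/15120000000)*(m5))*x^6 + ((-1/205632000000)*(m5*v) + (1/665280000000)*(m6))*x^7 + ((-1/3769920000000)*(m6*v))*x^8) + r1 * A - r2 * B := by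
    rw [hr1, hr2, hA, hB]
    ring
  rw [← hA, ← hB, key]
  have hv : 0 < v := by norm_num at hv0; linarith
  have hx1' : x ≤ 611 / 50 := by norm_num at hx1; exact hx1
  have hx2 : x ^ 2 ≤ (611 / 50) ^ 2 := pow_le_pow_left₀ hx0 hx1' 2
  have hx3 : x ^ 3 ≤ (611 / 50) ^ 3 := pow_le_pow_left₀ hx0 hx1' 3
  have hvx : 0 ≤ v * x := by positivity
  have hvx1 : v * x ≤ 4 := by
    have := mul_le_mul hv1.le hx1' hx0 (by norm_num)
    norm_num at this ⊢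
    linarith
  have u0 : 0 ≤ 1 - 3 * v * x / 17 := by linarith
  have u1 : 1 - 3 * v * x / 17 ≤ 1 := by linarith
  have w0 : 0 ≤ 1 - 3 / 50000 * x ^ 3 := by norm_num at hx3 ⊢; linarith
  have w1 : 1 - 3 / 50000 * x ^ 3 ≤ 1 := by
    have : 0 ≤ x ^ 3 := by positivity
    linarith
  have hA0 : 0 ≤ A := by rw [hA]; exact mul_nonneg u0 w0
  have hA1 : A ≤ 1 := by rw [hA]; exact mul_le_one₀ u1 w0 w1
  have hx2n : 0 ≤ x ^ 2 := by positivity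
  have hB0 : 0 ≤ B := by rw [hB]; positivity
  have hB1 : B ≤ 35 / 100 := by
    rw [hB]
    have q1 : v * (1 - 3 / 50000 * x ^ 3) ≤ v * 1 := mul_le_mul_of_nonneg_left w1 hv.le
    have q2 : 9 / 25000 * x ^ 2 * (1 - 3 * v * x / 17) ≤ 9 / 25000 * x ^ 2 * 1 :=
      mul_le_mul_of_nonneg_left u1 (by positivity)
    norm_num at hx2 hv1 q1 q2 ⊢
    linarith
  have R1 : |r1 * A| ≤ m7 * x ^ 6 / 6227020800 := by
    rw [abs_mul, abs_of_nonneg hA0]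
    calc |r1| * A ≤ |r1| * 1 := mul_le_mul_of_nonneg_left hA1 (abs_nonneg _)
      _ ≤ _ := by rw [mul_one]; exact hΨ
  have R2 : |r2 * B| ≤ m6 * x ^ 6 / 479001600 * (35 / 100) := by
    rw [abs_mul, abs_of_nonneg hB0]
    exact mul_le_mul hΦ hB1 hB0 ((abs_nonneg _).trans hΦ)
  have hx6 : 0 ≤ x ^ 6 := by positivity
  have R3 : m7 * x ^ 6 / 6227020800 + m6 * x ^ 6 / 479001600 * (35 / 100) ≤
      x * ((51/10^12 : ℝ) * x ^ 5) := by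
    have q1 : m7 * x ^ 6 ≤ 0.05019182189 * x ^ 6 := mul_le_mul_of_nonneg_right h71.le hx6
    have q2 : m6 * x ^ 6 ≤ 0.05838974824 * x ^ 6 := mul_le_mul_of_nonneg_right h61.le hx6
    have e : x * ((51/10^12 : ℝ) * x ^ 5) = (51/10^12 : ℝ) * x ^ 6 := by ring
    rw [e]
    norm_num at q1 q2 ⊢
    linarith
  have hE : ((9/2500000 : ℝ)*x^0 + (0/1 : ℝ)*x^1 + (51/1000000 : ℝ)*x^2 + (-4711/1000000000 : ℝ)*x^3 + (781/5000000000 : ℝ)*x^4 + (-243/100000000000 : ℝ)*x^5 + (0/1 : ℝ)*x^6 + (-1/50000000000000 : ℝ)*x^7 + (-1/100000000000000 : ℝ)*x^8) ≤ (((-1/6)*(m2) + (11/34)*(v*v))*x^0 + ((-9/25000)*(1) + (-5/408)*(m2*v) + (1/120)*(m3))*x^1 + ((-1/12240)*(m3*v) + (-1/5040)*(m4) + (207/850000)*(v))*x^2 + ((-1/200000)*(m2) + (1/97920)*(m4*v) + (1/362880)*(m5) + (-87/1700000)*(v*v))*x^3 + ((23/6800000)*(m2*v) + (-13/61689600)*(m5*v) + (-1/39916800)*(m6))*x^4 +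 ((-1/12000000)*(m3*v) + (1/336000000)*(m4) + (1/226195200)*(m6*v))*x^5 + ((11/11424000000)*(m4*v) + (-1/15120000000)*(m5))*x^6 + ((-1/205632000000)*(m5*v) + (1/665280000000)*(m6))*x^7 + ((-1/3769920000000)*(m6*v))*x^8) := by
    have k0 := mul_le_mul_of_nonneg_right g0 (pow_nonneg hx0 0)
    have k1 := mul_le_mul_of_nonneg_right g1 (pow_nonneg hx0 1)
    have k2 := mul_le_mul_of_nonneg_right g2 (pow_nonneg hx0 2)
    have k3 := mul_le_mul_of_nonneg_right g3 (pow_nonneg hx0 3)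
    have k4 := mul_le_mul_of_nonneg_right g4 (pow_nonneg hx0 4)
    have k5 := mul_le_mul_of_nonneg_right g5 (pow_nonneg hx0 5)
    have k6 := mul_le_mul_of_nonneg_right g6 (pow_nonneg hx0 6)
    have k7 := mul_le_mul_of_nonneg_right g7 (pow_nonneg hx0 7)
    have k8 := mul_le_mul_of_nonneg_right g8 (pow_nonneg hx0 8)
    exact add_le_add (add_le_add (add_le_add (add_le_add (add_le_add (add_le_add (add_le_add
      (add_le_add k0 k1) k2) k3) k4) k5) k6) k7) k8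
  have hEx := mul_le_mul_of_nonneg_left hE hx0
  have hpos := mul_nonneg hx0 (h399_Epos_j9291 x hx0 hx1)
  rw [mul_sub] at hpos
  rw [abs_le] at R1 R2
  linarith [R1.1, R2.2]

lemma h399_D_nonneg_j9291 (z : ℝ) (hz : z ^ 2 ≤ 12.22) :
    0 ≤ psi 1 z * ((1 - 3 * mom 1 * z ^ 2 / 17) * (1 - 3 / 50000 * (z ^ 2) ^ 3)) -
      phi 1 z * (mom 1 * (1 - 3 / 50000 * (z ^ 2) ^ 3) +
        9 / 25000 * (z ^ 2) ^ 2 * (1 - 3 * mom 1 * z ^ 2 / 17)) := by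
  refine h399_core_j9291 (z ^ 2) (mom 1) (mom 2) (mom 3) (mom 4) (mom 5) (mom 6) (mom 7) (phi 1 z)
    (psi 1 z) (sq_nonneg z) hz mom_1.1 mom_1.2 mom_2.1 mom_2.2 mom_3.1 mom_3.2 mom_4.1 mom_4.2
    mom_5.1 mom_5.2 mom_6.1 mom_6.2 mom_7.2 (mom_pos 7) ?_ ?_
  · have h := phi_taylor 6 z
    have e : ∑ k ∈ Finset.range 6, (-1 : ℝ) ^ k * mom k * z ^ (2 * k) /
        (Nat.factorial (2 * k)) = 1 - mom 1 * z ^ 2 / 2 + mom 2 * (z ^ 2) ^ 2 / 24 -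
          mom 3 * (z ^ 2) ^ 3 / 720 + mom 4 * (z ^ 2) ^ 4 / 40320 -
          mom 5 * (z ^ 2) ^ 5 / 3628800 := by
      simp only [Finset.sum_range_succ, Finset.sum_range_zero, mom_zero]
      norm_num [Nat.factorial]
      ring
    rw [e] at h
    refine h.trans (le_of_eq ?_)
    have f1 : (((2 * 6).factorial : ℕ) : ℝ) = 479001600 := by norm_num [Nat.factorial]
    rw [f1]
    ring
  · have h := psi_taylor 6 z
    have e : ∑ k ∈ Finset.range 6, (-1 : ℝ) ^ k * mom (k + 1) * z ^ (2 * k) /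
        (Nat.factorial (2 * k + 1)) = mom 1 - mom 2 * z ^ 2 / 6 + mom 3 * (z ^ 2) ^ 2 / 120 -
          mom 4 * (z ^ 2) ^ 3 / 5040 + mom 5 * (z ^ 2) ^ 4 / 362880 -
          mom 6 * (z ^ 2) ^ 5 / 39916800 := by
      simp only [Finset.sum_range_succ, Finset.sum_range_zero]
      norm_num [Nat.factorial]
      ring
    rw [e] at h
    refine h.trans (le_of_eq ?_)
    have f1 : (((2 * 6 + 1).factorial : ℕ) : ℝ) = 6227020800 := by norm_num [Nat.factorial]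
    rw [f1]
    ring

/-- the quotient of the two sides -/
noncomputable def h399q_j9291 (t : ℝ) : ℝ :=
  phi 1 t / ((1 - 3 * mom 1 * t ^ 2 / 17) ^ (17 / 6 : ℝ) * (1 - 3 / 50000 * t ^ 6))

lemma h399_UW_j9291 {t : ℝ} (ht : t ^ 2 ≤ 12.22) :
    0 < 1 - 3 * mom 1 * t ^ 2 / 17 ∧ 0 < 1 - 3 / 50000 * t ^ 6 := by
  have h1 := mom_1.2
  have h0 := mom_1.1
  have h2 : 0 ≤ t ^ 2 := sq_nonneg t
  constructor
  · have : mom 1 * t ^ 2 ≤ 0.29112509478 * 12.22 :=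
      mul_le_mul h1.le ht h2 (by norm_num)
    norm_num at this ⊢
    linarith
  · have : (t ^ 2) ^ 3 ≤ (12.22) ^ 3 := pow_le_pow_left₀ h2 ht 3
    have e : t ^ 6 = (t ^ 2) ^ 3 := by ring
    rw [e]
    norm_num at this ⊢
    linarith

lemma h399_qderiv_j9291 (t : ℝ) (ht0 : 0 ≤ t) (ht : t ^ 2 ≤ 12.22) :
    ∃ q', HasDerivAt h399q_j9291 q' t ∧ q' ≤ 0 := by
  obtain ⟨hU0, hW0⟩ := h399_UW_j9291 ht
  have hU : HasDerivAt (fun y : ℝ => 1 - 3 * mom 1 * y ^ 2 / 17) (-(6 * mom 1 * t / 17)) t := by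
    have h1 := (((hasDerivAt_pow 2 t).const_mul (3 * mom 1)).div_const 17).const_sub 1
    refine h1.congr_deriv ?_
    norm_num
    ring
  have hW : HasDerivAt (fun y : ℝ => 1 - 3 / 50000 * y ^ 6) (-(9 / 25000 * t ^ 5)) t := by
    have h1 := ((hasDerivAt_pow 6 t).const_mul (3 / 50000 : ℝ)).const_sub 1
    refine h1.congr_deriv ?_
    norm_num
    ring
  have hUp := hU.rpow_const (p := (17 / 6 : ℝ)) (Or.inl hU0.ne')
  have hR := hUp.fun_mul hW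
  have hR0 : (1 - 3 * mom 1 * t ^ 2 / 17) ^ (17 / 6 : ℝ) * (1 - 3 / 50000 * t ^ 6) ≠ 0 :=
    (mul_pos (Real.rpow_pos_of_pos hU0 _) hW0).ne'
  have hq := (phi_deriv t).fun_div hR hR0
  refine ⟨_, hq, ?_⟩
  refine div_nonpos_of_nonpos_of_nonneg ?_ (sq_nonneg _)
  obtain ⟨V, hV⟩ : ∃ V, V = (1 - 3 * mom 1 * t ^ 2 / 17) ^ ((17 / 6 : ℝ) - 1) := ⟨_, rfl⟩
  have hV0 : 0 < V := by rw [hV]; exact Real.rpow_pos_of_pos hU0 _
  have hUp1 : (1 - 3 * mom 1 * t ^ 2 / 17) ^ (17 / 6 : ℝ) = V * (1 - 3 * mom 1 * t ^ 2 / 17) := by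
    rw [hV, ← Real.rpow_add_one hU0.ne']
    norm_num
  rw [← hV, hUp1]
  have hD := h399_D_nonneg_j9291 t ht
  have key : -(t * psi 1 t) * (V * (1 - 3 * mom 1 * t ^ 2 / 17) * (1 - 3 / 50000 * t ^ 6)) -
      phi 1 t * (-(6 * mom 1 * t / 17) * (17 / 6) * V * (1 - 3 / 50000 * t ^ 6) +
        V * (1 - 3 * mom 1 * t ^ 2 / 17) * -(9 / 25000 * t ^ 5)) =
      -((t * V) * (psi 1 t * ((1 - 3 * mom 1 * t ^ 2 / 17) * (1 - 3 / 50000 * (t ^ 2) ^ 3)) -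
      phi 1 t * (mom 1 * (1 - 3 / 50000 * (t ^ 2) ^ 3) +
        9 / 25000 * (t ^ 2) ^ 2 * (1 - 3 * mom 1 * t ^ 2 / 17)))) := by ring
  rw [key]
  exact neg_nonpos.2 (mul_nonneg (mul_nonneg ht0 hV0.le) hD)

theorem phi_majorant (z : ℝ) (h0 : 0 ≤ z) (h1 : z ≤ z0) :
    phi 1 z ≤ (1 - 3 * vr 1 * z ^ 2 / 17) ^ (17 / 6 : ℝ) * (1 - 0.00006 * z ^ 6) := by
  have hz0 := z0_bounds.2
  have hb : ∀ t, 0 ≤ t → t ≤ z0 → t ^ 2 ≤ 12.22 := by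
    intro t ht0 ht1
    have h2 : t ≤ 3.4948 := ht1.trans hz0.le
    have := pow_le_pow_left₀ ht0 h2 2
    norm_num at this ⊢
    linarith
  have hz00 : 0 ≤ z0 := h0.trans h1
  have hanti : AntitoneOn h399q_j9291 (Set.Icc 0 z0) := by
    have hd : ∀ t ∈ Set.Icc 0 z0, ∃ q', HasDerivAt h399q_j9291 q' t ∧ q' ≤ 0 := fun t ht =>
      h399_qderiv_j9291 t ht.1 (hb t ht.1 ht.2)
    refine antitoneOn_of_deriv_nonpos (convex_Icc 0 z0) ?_ ?_ ?_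
    · intro t ht
      obtain ⟨q', hq, _⟩ := hd t ht
      exact hq.continuousAt.continuousWithinAt
    · intro t ht
      obtain ⟨q', hq, _⟩ := hd t (interior_subset ht)
      exact hq.differentiableAt.differentiableWithinAt
    · intro t ht
      obtain ⟨q', hq, hq0⟩ := hd t (interior_subset ht)
      rw [hq.deriv]
      exact hq0
  have hle := hanti ⟨le_rfl, hz00⟩ ⟨h0, h1⟩ h0
  have hq0 : h399q_j9291 0 = 1 := by
    unfold h399q_j9291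
    rw [phi_zero one_pos]
    norm_num
  rw [hq0] at hle
  obtain ⟨hU, hW⟩ := h399_UW_j9291 (hb z h0 h1)
  unfold h399q_j9291 at hle
  rw [div_le_one (mul_pos (Real.rpow_pos_of_pos hU _) hW)] at hle
  rw [vr_eq_mom]
  norm_num at hle ⊢
  exact hle




end Pool.Agent.Helper82.GC
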