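import Pool.Agent.Helper82.GC.J10072
import Pool.Agent.Helper82.GC.J9291
import Pool.Agent.Helper82.GC.J9429
import Pool.Agent.Helper82.GC.Sx

set_option autoImplicit false

open MeasureTheory Set

namespace Pool.Agent.Helper82.GC


theorem exp_neg_le_quad_j10073 (w : ℝ) (hw : 0 ≤ w) : Real.exp (-w) ≤ 1 - w + w ^ 2 / 2 := by
  have h1 : 1 + w + w ^ 2 / 2 ≤ Real.exp w := Real.quadratic_le_exp_of_nonneg hw
  have h2 : 0 < 1 - w + w ^ 2 / 2 := by nlinarith [sq_nonneg (w - 1)]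
  rw [Real.exp_neg, inv_le_iff_one_le_mul₀ (Real.exp_pos w)]
  have h3 : (1 - w + w ^ 2 / 2) * (1 + w + w ^ 2 / 2) ≤ (1 - w + w ^ 2 / 2) * Real.exp w :=
    mul_le_mul_of_nonneg_left h1 h2.le
  nlinarith [sq_nonneg (w ^ 2)]

theorem quad_pos_j10073 (w : ℝ) : 0 < 1 - w + w ^ 2 / 2 := by nlinarith [sq_nonneg (w - 1)]

/-- the constant `17 / (3 v)` -/
noncomputable def XX_j10073 : ℝ := 17 / (3 * vr 1)

theorem v_bounds_j10073 : (0.29112509477 : ℝ) < vr 1 ∧ vr 1 < 0.29112509478 := by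
  rw [vr_eq_mom]; exact mom_1

theorem XX_bounds_j10073 : 19.4647 < XX_j10073 ∧ XX_j10073 < 19.4648 := by
  obtain ⟨h1, h2⟩ := v_bounds_j10073
  have hv : 0 < 3 * vr 1 := by linarith only [h1]
  unfold XX_j10073
  constructor
  · rw [lt_div_iff₀ hv]; linarith only [h2]
  · rw [div_lt_iff₀ hv]; linarith only [h1]

theorem majorant_pow_j10073 (p : ℝ) (hp : 2 ≤ p) (z : ℝ) (h0 : 0 ≤ z) (h1 : z ≤ z0) :
    phi 1 z ^ p ≤ (1 - z ^ 2 / XX_j10073) ^ (17 / 6 * p) *
      (1 - p * 0.00006 * z ^ 6 + (p * 0.00006 * z ^ 6) ^ 2 / 2) := by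
  obtain ⟨hX1, hX2⟩ := XX_bounds_j10073
  have hz0 := z0_bounds.2
  have hz : z ≤ 3.4948 := by linarith
  have hXp : 0 < XX_j10073 := by linarith
  have hv : 0 < vr 1 := by have := v_bounds_j10073.1; linarith
  have e1 : 3 * vr 1 * z ^ 2 / 17 = z ^ 2 / XX_j10073 := by
    unfold XX_j10073
    field_simp
  have hm := phi_majorant z h0 h1
  rw [e1] at hm
  have hphi := phi_nonneg z h0 h1
  have hz2 : z ^ 2 ≤ 3.4948 ^ 2 := pow_le_pow_left₀ h0 hz 2
  have hz6 : z ^ 6 ≤ 3.4948 ^ 6 := pow_le_pow_left₀ h0 hz 6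
  have hA : 0 ≤ 1 - z ^ 2 / XX_j10073 := by
    rw [sub_nonneg, div_le_one hXp]
    norm_num at hz2 ⊢
    linarith
  have hz6' : 0 ≤ z ^ 6 := by positivity
  have hB : 0 ≤ 1 - 0.00006 * z ^ 6 := by
    norm_num at hz6 ⊢
    linarith
  have hAp : 0 ≤ (1 - z ^ 2 / XX_j10073) ^ (17 / 6 : ℝ) := Real.rpow_nonneg hA _
  calc phi 1 z ^ p ≤ ((1 - z ^ 2 / XX_j10073) ^ (17 / 6 : ℝ) * (1 - 0.00006 * z ^ 6)) ^ p :=
        Real.rpow_le_rpow hphi hm (by linarith)
    _ = (1 - z ^ 2 / XX_j10073) ^ (17 / 6 * p) * (1 - 0.00006 * z ^ 6) ^ p := by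
        rw [Real.mul_rpow hAp hB, ← Real.rpow_mul hA]
    _ ≤ _ := by
        apply mul_le_mul_of_nonneg_left _ (Real.rpow_nonneg hA _)
        have h2 : 1 - 0.00006 * z ^ 6 ≤ Real.exp (-(0.00006 * z ^ 6)) := by
          have := Real.add_one_le_exp (-(0.00006 * z ^ 6))
          linarith
        have h3 : (1 - 0.00006 * z ^ 6) ^ p ≤ Real.exp (-(0.00006 * z ^ 6)) ^ p :=
          Real.rpow_le_rpow hB h2 (by linarith)
        rw [← Real.exp_mul] at h3
        have h4 : -(0.00006 * z ^ 6) * p = -(p * 0.00006 * z ^ 6) := by ring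
        rw [h4] at h3
        exact h3.trans (exp_neg_le_quad_j10073 _ (by positivity))

theorem hB1_aux_j10073 (p r : ℝ) (hp0 : 0 < p) (h3 : r ≤ 180 * p) :
    r ≤ (17 * p + 9) * (17 * p + 15) * (17 * p + 21) := by
  have e : (17 * p + 9) * (17 * p + 15) * (17 * p + 21) =
      4913 * p ^ 3 + 13005 * p ^ 2 + 10863 * p + 2835 := by ring
  rw [e]
  have h1 := pow_pos hp0 3
  have h2 := pow_pos hp0 2
  linarith only [h1, h2, h3, hp0]

set_option maxHeartbeats 4000000 in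
theorem main_closed (p : ℝ) (hp : 2 ≤ p) :
    2 * ∫ z in (0 : ℝ)..z0, phi 1 z ^ p ≤ P1 / Real.sqrt (p + 9 / 34) *
      (1 - 179.2 * p / ((17 * p + 9) * (17 * p + 15) * (17 * p + 21)) +
        741900 * p ^ 2 / ((17 * p + 9) * (17 * p + 15) * (17 * p + 21) * (17 * p + 27) *
          (17 * p + 33) * (17 * p + 39))) := by
  obtain ⟨hX1, hX2⟩ := XX_bounds_j10073
  have hXp : 0 < XX_j10073 := by linarith
  obtain ⟨hv1, hv2⟩ := v_bounds_j10073
  have hv : 0 < vr 1 := by linarith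
  set T : ℝ := Real.sqrt XX_j10073 with hT
  have hTT : T ^ 2 = XX_j10073 := Real.sq_sqrt hXp.le
  have hT0 : 0 < T := Real.sqrt_pos.2 hXp
  have hz0l := z0_bounds.1
  have hz0u := z0_bounds.2
  have hzT : z0 ≤ T := by
    have h1 : z0 ^ 2 ≤ T ^ 2 := by
      rw [hTT]
      have : z0 ^ 2 ≤ 3.4948 ^ 2 := pow_le_pow_left₀ (by linarith) hz0u.le 2
      norm_num at this
      linarith
    exact le_of_sq_le_sq h1 hT0.le
  set a : ℝ := 17 / 6 * p with ha
  have ha1 : 1 ≤ a := by rw [ha]; linarith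
  set g : ℝ → ℝ := fun z => (1 - z ^ 2 / XX_j10073) ^ a *
      (1 - p * 0.00006 * z ^ 6 + (p * 0.00006 * z ^ 6) ^ 2 / 2) with hg
  have hgc : Continuous g := by
    apply Continuous.mul
    · exact Continuous.rpow_const (by fun_prop) (fun x => Or.inr (by linarith))
    · fun_prop
  have hfc : Continuous (fun z => phi 1 z ^ p) :=
    Continuous.rpow_const phi_contN (fun x => Or.inr (by linarith))
  -- step 1
  have s1 : ∫ z in (0 : ℝ)..z0, phi 1 z ^ p ≤ ∫ z in (0 : ℝ)..z0, g z := by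
    apply intervalIntegral.integral_mono_on (by linarith) (hfc.intervalIntegrable _ _)
      (hgc.intervalIntegrable _ _)
    intro z hz
    exact majorant_pow_j10073 p hp z hz.1 hz.2
  have s2 : ∫ z in (0 : ℝ)..z0, g z ≤ ∫ z in (0 : ℝ)..T, g z := by
    rw [← intervalIntegral.integral_add_adjacent_intervals (hgc.intervalIntegrable 0 z0)
      (hgc.intervalIntegrable z0 T)]
    have : 0 ≤ ∫ z in z0..T, g z := by
      apply intervalIntegral.integral_nonneg hzT
      intro z hz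
      have hz0' : 0 ≤ z := by linarith [hz.1]
      have h1 : z ^ 2 ≤ XX_j10073 := by rw [← hTT]; exact pow_le_pow_left₀ hz0' hz.2 2
      have h2 : 0 ≤ 1 - z ^ 2 / XX_j10073 := by rw [sub_nonneg, div_le_one hXp]; exact h1
      exact mul_nonneg (Real.rpow_nonneg h2 _) (quad_pos_j10073 _).le
    linarith
  have hgeven : ∀ z, g (-z) = g z := by
    intro z
    rw [hg]; simp only
    have e1 : (-z) ^ 2 = z ^ 2 := by ring
    have e2 : (-z) ^ 6 = z ^ 6 := by ring
    rw [e1, e2]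
  have s3 : 2 * ∫ z in (0 : ℝ)..T, g z = ∫ z in (-T)..T, g z := by
    rw [← intervalIntegral.integral_add_adjacent_intervals (hgc.intervalIntegrable (-T) 0)
      (hgc.intervalIntegrable 0 T)]
    have h1 : ∫ z in (-T)..0, g z = ∫ z in (0:ℝ)..T, g z := by
      have h2 := intervalIntegral.integral_comp_neg (a := 0) (b := T) g
      rw [neg_zero] at h2
      rw [← h2]
      apply intervalIntegral.integral_congr
      intro z _
      exact hgeven z
    rw [h1]; ring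
  have s4 : ∫ z in (-T)..T, g z = T * ∫ u in (-1 : ℝ)..1, g (T * u) := by
    have h1 := intervalIntegral.integral_comp_mul_left (a := -1) (b := 1) g hT0.ne'
    rw [h1, smul_eq_mul, ← mul_assoc, mul_inv_cancel₀ hT0.ne', one_mul, mul_one, mul_neg, mul_one]
  set q : ℝ := 0.00006 * XX_j10073 ^ 3 with hq
  have hX3l : (19.4647 : ℝ) ^ 3 ≤ XX_j10073 ^ 3 := pow_le_pow_left₀ (by norm_num) hX1.le 3
  have hX3u : XX_j10073 ^ 3 ≤ (19.4648 : ℝ) ^ 3 := pow_le_pow_left₀ hXp.le hX2.le 3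
  have hql : 0.44248 ≤ q := by rw [hq]; norm_num at hX3l ⊢; linarith only [hX3l]
  have hqu : q ≤ 0.44249 := by rw [hq]; norm_num at hX3u ⊢; linarith only [hX3u]
  set A : ℝ := ∫ u in (-1 : ℝ)..1, (1 - u ^ 2) ^ a with hA
  set K : ℝ := p * q with hK
  have hcont : Continuous (fun u : ℝ => (1 - u ^ 2) ^ a) :=
    Continuous.rpow_const (by fun_prop) (fun x => Or.inr (by linarith))
  have s5 : ∫ u in (-1 : ℝ)..1, g (T * u) = A
      - K * (∫ u in (-1 : ℝ)..1, u ^ 6 * (1 - u ^ 2) ^ a)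
      + K ^ 2 / 2 * (∫ u in (-1 : ℝ)..1, u ^ 12 * (1 - u ^ 2) ^ a) := by
    have h1 : ∀ u : ℝ, g (T * u) = ((1 - u ^ 2) ^ a - K * (u ^ 6 * (1 - u ^ 2) ^ a))
        + K ^ 2 / 2 * (u ^ 12 * (1 - u ^ 2) ^ a) := by
      intro u
      rw [hg]; simp only
      have e1 : (T * u) ^ 2 / XX_j10073 = u ^ 2 := by
        rw [mul_pow, hTT]; field_simp
      have e2 : (T * u) ^ 6 = XX_j10073 ^ 3 * u ^ 6 := by
        rw [← hTT]; ring
      rw [e1, e2, hK, hq]; ring
    have c6 : Continuous (fun u : ℝ => K * (u ^ 6 * (1 - u ^ 2) ^ a)) :=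
      continuous_const.mul ((continuous_pow 6).mul hcont)
    have c12 : Continuous (fun u : ℝ => K ^ 2 / 2 * (u ^ 12 * (1 - u ^ 2) ^ a)) :=
      continuous_const.mul ((continuous_pow 12).mul hcont)
    have c06 : Continuous (fun u : ℝ => (1 - u ^ 2) ^ a - K * (u ^ 6 * (1 - u ^ 2) ^ a)) :=
      hcont.sub c6
    simp_rw [h1]
    rw [intervalIntegral.integral_add (c06.intervalIntegrable _ _) (c12.intervalIntegrable _ _),
      intervalIntegral.integral_sub (hcont.intervalIntegrable _ _) (c6.intervalIntegrable _ _),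
      intervalIntegral.integral_const_mul, intervalIntegral.integral_const_mul]
  rw [beta_mom6 a ha1, beta_mom12 a ha1, ← hA] at s5
  have hAb : A ≤ Real.sqrt Real.pi / Real.sqrt (a + 3 / 4) := beta_int a ha1
  have hA0 : 0 ≤ A := by
    rw [hA]
    apply intervalIntegral.integral_nonneg (by norm_num)
    intro u hu
    apply Real.rpow_nonneg
    have : u ^ 2 ≤ 1 := by
      have := abs_le.2 ⟨hu.1, hu.2⟩
      rw [← sq_abs]; exact pow_le_one₀ (abs_nonneg _) this
    linarith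
  -- algebra
  set D3 : ℝ := (17 * p + 9) * (17 * p + 15) * (17 * p + 21) with hD3
  set D6 : ℝ := (17 * p + 9) * (17 * p + 15) * (17 * p + 21) * (17 * p + 27) *
          (17 * p + 33) * (17 * p + 39) with hD6
  have hp0 : 0 < p := by linarith
  have hD3p : 0 < D3 := by rw [hD3]; positivity
  have hD6p : 0 < D6 := by rw [hD6]; positivity
  have hm6 : 15 / ((2 * a + 3) * (2 * a + 5) * (2 * a + 7)) = 405 / D3 := by
    have e1 : (2 * a + 3) * (2 * a + 5) * (2 * a + 7) = D3 / 27 := by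
      rw [ha, hD3]; ring
    rw [e1, div_div_eq_mul_div]; norm_num
  have hm12 : 10395 / ((2 * a + 3) * (2 * a + 5) * (2 * a + 7) * (2 * a + 9) * (2 * a + 11) *
      (2 * a + 13)) = 7577955 / D6 := by
    have e1 : (2 * a + 3) * (2 * a + 5) * (2 * a + 7) * (2 * a + 9) * (2 * a + 11) *
      (2 * a + 13) = D6 / 729 := by
      rw [ha, hD6]; ring
    rw [e1, div_div_eq_mul_div]; norm_num
  rw [hm6, hm12] at s5
  set B : ℝ := 1 - K * (405 / D3) + K ^ 2 / 2 * (7577955 / D6) with hB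
  have s6 : ∫ u in (-1 : ℝ)..1, g (T * u) = A * B := by rw [s5, hB]; ring
  have hKD : K * (405 / D3) = (405 * q) * p / D3 := by rw [hK]; ring
  have hKD2 : K ^ 2 / 2 * (7577955 / D6) = (q ^ 2 / 2 * 7577955) * p ^ 2 / D6 := by rw [hK]; ring
  have hB1 : 0 ≤ B := by
    have h1 : K * (405 / D3) ≤ 1 := by
      rw [hKD, div_le_one hD3p, hD3]
      have h2 : 405 * q ≤ 180 := by linarith only [hqu]
      have h3 : 405 * q * p ≤ 180 * p := mul_le_mul_of_nonneg_right h2 hp0.le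
      exact hB1_aux_j10073 p (405 * q * p) hp0 h3
    have h4 : 0 ≤ K ^ 2 / 2 * (7577955 / D6) := by positivity
    rw [hB]; linarith only [h1, h4]
  have hB2 : B ≤ 1 - 179.2 * p / D3 + 741900 * p ^ 2 / D6 := by
    have h1 : 179.2 * p / D3 ≤ K * (405 / D3) := by
      rw [hKD]
      apply div_le_div_of_nonneg_right _ hD3p.le
      apply mul_le_mul_of_nonneg_right _ hp0.le
      norm_num at hql ⊢
      linarith only [hql]
    have h2 : K ^ 2 / 2 * (7577955 / D6) ≤ 741900 * p ^ 2 / D6 := by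
      rw [hKD2]
      apply div_le_div_of_nonneg_right _ hD6p.le
      apply mul_le_mul_of_nonneg_right _ (sq_nonneg p)
      have h3 : q ^ 2 ≤ 0.44249 ^ 2 := pow_le_pow_left₀ (by linarith only [hql]) hqu 2
      norm_num at h3 ⊢
      linarith only [h3]
    rw [hB]; linarith only [h1, h2]
  have hTA : T * A ≤ P1 / Real.sqrt (p + 9 / 34) := by
    have h1 : T * A ≤ T * (Real.sqrt Real.pi / Real.sqrt (a + 3 / 4)) :=
      mul_le_mul_of_nonneg_left hAb hT0.le
    have h2 : T * (Real.sqrt Real.pi / Real.sqrt (a + 3 / 4)) = P1 / Real.sqrt (p + 9 / 34) := by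
      unfold P1
      rw [hT, ← Real.sqrt_div' _ (by linarith : (0:ℝ) ≤ a + 3 / 4), ← Real.sqrt_mul hXp.le,
        ← Real.sqrt_div' _ (by linarith : (0:ℝ) ≤ p + 9 / 34)]
      congr 1
      unfold XX_j10073
      rw [ha]
      have h3 : (17 / 6 * p + 3 / 4) = 17 / 6 * (p + 9 / 34) := by ring
      rw [h3]
      have h4 : p + 9 / 34 ≠ 0 := by linarith
      field_simp
      ring
    rw [← h2]; exact h1
  calc 2 * ∫ z in (0 : ℝ)..z0, phi 1 z ^ p ≤ 2 * ∫ z in (0 : ℝ)..T, g z := by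
        linarith only [s1, s2]
    _ = T * (A * B) := by rw [s3, s4, s6]
    _ = (T * A) * B := by ring
    _ ≤ P1 / Real.sqrt (p + 9 / 34) * B := mul_le_mul_of_nonneg_right hTA hB1
    _ ≤ P1 / Real.sqrt (p + 9 / 34) * (1 - 179.2 * p / D3 + 741900 * p ^ 2 / D6) := by
        apply mul_le_mul_of_nonneg_left hB2
        have : 0 ≤ T * A := mul_nonneg hT0.le hA0
        linarith



end Pool.Agent.Helper82.GC
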