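import Pool.Agent.Helper82.GC.A1
import Pool.Agent.Helper82.GC.Def2

set_option autoImplicit false

open MeasureTheory Set

namespace Pool.Agent.Helper82.GC


/-- numerator -/
noncomputable def momI_j8960 (k : ℕ) : ℝ := ∫ x in (-1 : ℝ)..1, x ^ (2 * k) * Real.exp (-x ^ 2 / 2)

noncomputable def momQ_j8960 (k : ℕ) : ℝ :=
  ∑ j ∈ Finset.range 14, ((-1 / 2) ^ j / (j.factorial : ℝ)) * (2 / (2 * k + 2 * j + 1))

theorem momI_cont_j8960 (k : ℕ) : Continuous fun x : ℝ => x ^ (2 * k) * Real.exp (-x ^ 2 / 2) := by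
  fun_prop

theorem mom_eq_j8960 (k : ℕ) : mom k = momI_j8960 k / Zr 1 := rfl

theorem momI_zero_j8960 : momI_j8960 0 = Zr 1 := by
  unfold momI_j8960 Zr
  simp

theorem int_pow_even_j8960 (m : ℕ) : ∫ x in (-1 : ℝ)..1, x ^ (2 * m) = 2 / (2 * m + 1) := by
  rw [integral_pow]
  have : ((-1 : ℝ)) ^ (2 * m + 1) = -1 := by
    rw [pow_succ, pow_mul]; simp
  rw [this]
  push_cast
  norm_num

theorem momI_bound_j8960 (k : ℕ) : |momI_j8960 k - momQ_j8960 k| ≤ 1 / 10 ^ 14 := by
  have hQ : momQ_j8960 k = ∫ x in (-1 : ℝ)..1, x ^ (2 * k) *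
      ∑ j ∈ Finset.range 14, (-x ^ 2 / 2) ^ j / (j.factorial : ℝ) := by
    have e1 : ∀ x : ℝ, x ^ (2 * k) * ∑ j ∈ Finset.range 14, (-x ^ 2 / 2) ^ j / (j.factorial : ℝ) =
        ∑ j ∈ Finset.range 14, ((-1 / 2) ^ j / (j.factorial : ℝ)) * x ^ (2 * (k + j)) := by
      intro x
      rw [Finset.mul_sum]
      apply Finset.sum_congr rfl
      intro j _
      rw [show -x ^ 2 / 2 = (-1 / 2) * x ^ 2 by ring, mul_pow, ← pow_mul,
        show 2 * (k + j) = 2 * k + 2 * j by ring, pow_add]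
      ring
    simp_rw [e1]
    rw [intervalIntegral.integral_finsetSum]
    · unfold momQ_j8960
      apply Finset.sum_congr rfl
      intro j _
      rw [intervalIntegral.integral_const_mul, int_pow_even_j8960]
      push_cast
      ring
    · intro j _
      apply Continuous.intervalIntegrable
      fun_prop
  rw [hQ, momI_j8960, ← intervalIntegral.integral_sub]
  · have h1 : ∀ x ∈ Set.uIoc (-1 : ℝ) 1, ‖x ^ (2 * k) * Real.exp (-x ^ 2 / 2) - x ^ (2 * k) *
        ∑ j ∈ Finset.range 14, (-x ^ 2 / 2) ^ j / (j.factorial : ℝ)‖ ≤ 1 / 10 ^ 14 / 2 := by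
      intro x hx
      rw [Set.uIoc_of_le (by norm_num)] at hx
      have hx1 : |x| ≤ 1 := by rw [abs_le]; exact ⟨hx.1.le, hx.2⟩
      have hx2 : x ^ 2 ≤ 1 := by
        rw [← sq_abs]; nlinarith [abs_nonneg x]
      have hx0 : 0 ≤ x ^ 2 := sq_nonneg x
      rw [← mul_sub, norm_mul, Real.norm_eq_abs, Real.norm_eq_abs]
      have h2 : |(-x ^ 2 / 2)| ≤ 1 / 2 := by
        rw [abs_le]; constructor <;> linarith
      have h3 := Real.exp_bound (x := -x ^ 2 / 2) (by linarith) (n := 14) (by norm_num)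
      have h4 : |x ^ (2 * k)| ≤ 1 := by
        rw [abs_pow]
        exact pow_le_one₀ (abs_nonneg _) hx1
      have h5 : |(-x ^ 2 / 2)| ^ 14 ≤ (1 / 2) ^ 14 := by
        gcongr
      have h6 : |(-x ^ 2 / 2)| ^ 14 * (((14 : ℕ).succ : ℝ) / (((14 : ℕ).factorial : ℝ) * (14 : ℕ)))
          ≤ 1 / 10 ^ 14 / 2 := by
        calc |(-x ^ 2 / 2)| ^ 14 * (((14 : ℕ).succ : ℝ) / (((14 : ℕ).factorial : ℝ) * (14 : ℕ)))
            ≤ (1 / 2) ^ 14 * (((14 : ℕ).succ : ℝ) / (((14 : ℕ).factorial : ℝ) * (14 : ℕ))) := by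
              gcongr
          _ ≤ 1 / 10 ^ 14 / 2 := by
              norm_num [Nat.factorial]
      calc |x ^ (2 * k)| * |Real.exp (-x ^ 2 / 2) -
            ∑ j ∈ Finset.range 14, (-x ^ 2 / 2) ^ j / (j.factorial : ℝ)|
          ≤ 1 * (1 / 10 ^ 14 / 2) := by
            apply mul_le_mul h4 (h3.trans h6) (abs_nonneg _) zero_le_one
        _ = _ := by ring
    have h2 := intervalIntegral.norm_integral_le_of_norm_le_const h1
    rw [Real.norm_eq_abs] at h2
    refine h2.trans ?_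
    norm_num
  · exact (momI_cont_j8960 k).intervalIntegrable _ _
  · apply Continuous.intervalIntegrable
    apply Continuous.mul (by fun_prop)
    apply continuous_finsetSum
    intro j _
    fun_prop

theorem mom_bd_j8960 (k : ℕ) (a b : ℝ) (ha : 0 ≤ a) (hb : 0 ≤ b)
    (h1 : a * (momQ_j8960 0 + 1 / 10 ^ 14) < momQ_j8960 k - 1 / 10 ^ 14)
    (h2 : momQ_j8960 k + 1 / 10 ^ 14 < b * (momQ_j8960 0 - 1 / 10 ^ 14)) : a < mom k ∧ mom k < b := by
  have hZ := Zr_pos (r := 1) one_pos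
  have e0 := momI_bound_j8960 0
  have ek := momI_bound_j8960 k
  rw [momI_zero_j8960] at e0
  rw [abs_le] at e0 ek
  rw [mom_eq_j8960, lt_div_iff₀ hZ, div_lt_iff₀ hZ]
  have h3 : a * Zr 1 ≤ a * (momQ_j8960 0 + 1 / 10 ^ 14) :=
    mul_le_mul_of_nonneg_left (by linarith) ha
  have h4 : b * (momQ_j8960 0 - 1 / 10 ^ 14) ≤ b * Zr 1 :=
    mul_le_mul_of_nonneg_left (by linarith) hb
  constructor <;> linarith

theorem mom_zero : mom 0 = 1 := by
  rw [mom_eq_j8960, momI_zero_j8960, div_self (Zr_pos one_pos).ne']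
theorem mom_pos (k : ℕ) : 0 < mom k := by
  rw [mom_eq_j8960]
  apply div_pos _ (Zr_pos one_pos)
  unfold momI_j8960
  apply intervalIntegral.integral_pos (by norm_num) (momI_cont_j8960 k).continuousOn
  · intro x _
    rw [pow_mul]
    positivity
  · refine ⟨1, by norm_num, ?_⟩
    positivity
theorem mom_succ_le (k : ℕ) : mom (k + 1) ≤ mom k := by
  rw [mom_eq_j8960, mom_eq_j8960]
  apply div_le_div_of_nonneg_right _ (Zr_pos one_pos).le
  unfold momI_j8960
  apply intervalIntegral.integral_mono_on (by norm_num) ((momI_cont_j8960 _).intervalIntegrable _ _)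
    ((momI_cont_j8960 _).intervalIntegrable _ _)
  intro x hx
  apply mul_le_mul_of_nonneg_right _ (Real.exp_pos _).le
  have hx2 : x ^ 2 ≤ 1 := by nlinarith [hx.1, hx.2]
  rw [show 2 * (k + 1) = 2 * k + 2 by ring, pow_add]
  have : 0 ≤ x ^ (2 * k) := by rw [pow_mul]; positivity
  nlinarith
theorem momI_one_j8960 : momI_j8960 1 = Zr 1 - 2 * Real.exp (-1 / 2) := by
  have hder : ∀ x ∈ Set.uIcc (-1 : ℝ) 1, HasDerivAt (fun x : ℝ => x * Real.exp (-x ^ 2 / 2))
      (Real.exp (-x ^ 2 / 2) - x ^ (2 * 1) * Real.exp (-x ^ 2 / 2)) x := by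
    intro x _
    have h1 : HasDerivAt (fun x : ℝ => -x ^ 2 / 2) (-x) x := by
      have := ((hasDerivAt_pow 2 x).neg).div_const 2
      convert! this using 1
      push_cast
      ring
    have h2 := (hasDerivAt_id x).mul h1.exp
    convert! h2 using 1
    simp
    ring
  have h := intervalIntegral.integral_eq_sub_of_hasDerivAt hder
    (Continuous.intervalIntegrable (by fun_prop) _ _)
  rw [intervalIntegral.integral_sub (Continuous.intervalIntegrable (by fun_prop) _ _)
    (Continuous.intervalIntegrable (by fun_prop) _ _)] at h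
  unfold momI_j8960 Zr
  norm_num at h ⊢
  linarith
theorem Kr_eq_mom_aux_j8960 : Kr 1 = 1 - mom 1 := by
  have hZ := Zr_pos (r := 1) one_pos
  rw [mom_eq_j8960, momI_one_j8960]
  unfold Kr
  field_simp
  norm_num
theorem vr_eq_mom : vr 1 = mom 1 := by
  unfold vr
  rw [Kr_eq_mom_aux_j8960]; ring
theorem Kr_eq_mom : Kr 1 = 1 - mom 1 := Kr_eq_mom_aux_j8960
theorem mom_1 : (0.29112509477 : ℝ) < mom 1 ∧ mom 1 < 0.29112509478 := by
  apply mom_bd_j8960 1 _ _ (by norm_num) (by norm_num) <;>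
    norm_num [momQ_j8960, Finset.sum_range_succ, Nat.factorial]
theorem mom_2 : (0.16450037909 : ℝ) < mom 2 ∧ mom 2 < 0.16450037910 := by
  apply mom_bd_j8960 2 _ _ (by norm_num) (by norm_num) <;>
    norm_num [momQ_j8960, Finset.sum_range_succ, Nat.factorial]
theorem mom_3 : (0.11362699022 : ℝ) < mom 3 ∧ mom 3 < 0.11362699023 := by
  apply mom_bd_j8960 3 _ _ (by norm_num) (by norm_num) <;>
    norm_num [momQ_j8960, Finset.sum_range_succ, Nat.factorial]
theorem mom_4 : (0.08651402637 : ℝ) < mom 4 ∧ mom 4 < 0.08651402638 := by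
  apply mom_bd_j8960 4 _ _ (by norm_num) (by norm_num) <;>
    norm_num [momQ_j8960, Finset.sum_range_succ, Nat.factorial]
theorem mom_5 : (0.06975133213 : ℝ) < mom 5 ∧ mom 5 < 0.06975133214 := by
  apply mom_bd_j8960 5 _ _ (by norm_num) (by norm_num) <;>
    norm_num [momQ_j8960, Finset.sum_range_succ, Nat.factorial]
theorem mom_6 : (0.05838974823 : ℝ) < mom 6 ∧ mom 6 < 0.05838974824 := by
  apply mom_bd_j8960 6 _ _ (by norm_num) (by norm_num) <;>
    norm_num [momQ_j8960, Finset.sum_range_succ, Nat.factorial]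
theorem mom_7 : (0.05019182188 : ℝ) < mom 7 ∧ mom 7 < 0.05019182189 := by
  apply mom_bd_j8960 7 _ _ (by norm_num) (by norm_num) <;>
    norm_num [momQ_j8960, Finset.sum_range_succ, Nat.factorial]
theorem mom_8 : (0.04400242309 : ℝ) < mom 8 ∧ mom 8 < 0.04400242310 := by
  apply mom_bd_j8960 8 _ _ (by norm_num) (by norm_num) <;>
    norm_num [momQ_j8960, Finset.sum_range_succ, Nat.factorial]
theorem mom_9 : (0.03916628740 : ℝ) < mom 9 ∧ mom 9 < 0.03916628741 := by
  apply mom_bd_j8960 9 _ _ (by norm_num) (by norm_num) <;>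
    norm_num [momQ_j8960, Finset.sum_range_succ, Nat.factorial]
theorem mom_10 : (0.03528455553 : ℝ) < mom 10 ∧ mom 10 < 0.03528455554 := by
  apply mom_bd_j8960 10 _ _ (by norm_num) (by norm_num) <;>
    norm_num [momQ_j8960, Finset.sum_range_succ, Nat.factorial]
theorem mom_11 : (0.03210076105 : ℝ) < mom 11 ∧ mom 11 < 0.03210076106 := by
  apply mom_bd_j8960 11 _ _ (by norm_num) (by norm_num) <;>
    norm_num [momQ_j8960, Finset.sum_range_succ, Nat.factorial]
theorem mom_12 : (0.02944259914 : ℝ) < mom 12 ∧ mom 12 < 0.02944259915 := by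
  apply mom_bd_j8960 12 _ _ (by norm_num) (by norm_num) <;>
    norm_num [momQ_j8960, Finset.sum_range_succ, Nat.factorial]
theorem mom_13 : (0.02719007327 : ℝ) < mom 13 ∧ mom 13 < 0.02719007328 := by
  apply mom_bd_j8960 13 _ _ (by norm_num) (by norm_num) <;>
    norm_num [momQ_j8960, Finset.sum_range_succ, Nat.factorial]
theorem mom_14 : (0.02525707318 : ℝ) < mom 14 ∧ mom 14 < 0.02525707319 := by
  apply mom_bd_j8960 14 _ _ (by norm_num) (by norm_num) <;>
    norm_num [momQ_j8960, Finset.sum_range_succ, Nat.factorial]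
theorem mom_15 : (0.02358021713 : ℝ) < mom 15 ∧ mom 15 < 0.02358021714 := by
  apply mom_bd_j8960 15 _ _ (by norm_num) (by norm_num) <;>
    norm_num [momQ_j8960, Finset.sum_range_succ, Nat.factorial]
theorem mom_16 : (0.02211182587 : ℝ) < mom 16 ∧ mom 16 < 0.02211182588 := by
  apply mom_bd_j8960 16 _ _ (by norm_num) (by norm_num) <;>
    norm_num [momQ_j8960, Finset.sum_range_succ, Nat.factorial]



end Pool.Agent.Helper82.GC
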