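import Pool.Agent.Helper82.GC.A3
import Pool.Agent.Helper82.GC.J8960

set_option autoImplicit false

open MeasureTheory Set

namespace Pool.Agent.Helper82.GC


private lemma even_pow_int_j10082 (m : ℕ) : ∫ x in (-1 : ℝ)..1, x ^ (2 * m) = 2 / (2 * m + 1) := by
  rw [integral_pow]
  have h1 : (-1 : ℝ) ^ (2 * m + 1) = -1 := by
    rw [pow_succ, pow_mul]; norm_num
  rw [h1, one_pow]
  push_cast
  ring

private lemma gauss_taylor_j10082 (a : ℝ) (ha0 : 0 ≤ a) (ha1 : a ≤ 1) (n : ℕ) (hn : 0 < n) :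
    |(∫ x in (-1 : ℝ)..1, Real.exp (-(a * x ^ 2))) -
      ∑ m ∈ Finset.range n, (-a) ^ m / (m.factorial : ℝ) * (2 / (2 * m + 1))| ≤
      a ^ n * ((n.succ : ℝ) / ((n.factorial : ℝ) * n)) * (2 / (2 * n + 1)) := by
  have hP : ∑ m ∈ Finset.range n, (-a) ^ m / (m.factorial : ℝ) * (2 / (2 * m + 1)) =
      ∫ x in (-1 : ℝ)..1, ∑ m ∈ Finset.range n, (-(a * x ^ 2)) ^ m / (m.factorial : ℝ) := by
    rw [intervalIntegral.integral_finsetSum]
    · refine Finset.sum_congr rfl fun m _ => ?_
      have h1 : ∀ x : ℝ, (-(a * x ^ 2)) ^ m / (m.factorial : ℝ) =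
          (-a) ^ m / (m.factorial : ℝ) * x ^ (2 * m) := by
        intro x
        rw [← neg_mul, mul_pow, ← pow_mul]
        ring
      simp only [h1]
      rw [intervalIntegral.integral_const_mul, even_pow_int_j10082]
    · intro m _
      apply Continuous.intervalIntegrable
      fun_prop
  have hB : a ^ n * ((n.succ : ℝ) / ((n.factorial : ℝ) * n)) * (2 / (2 * n + 1)) =
      ∫ x in (-1 : ℝ)..1, a ^ n * ((n.succ : ℝ) / ((n.factorial : ℝ) * n)) * x ^ (2 * n) := by
    rw [intervalIntegral.integral_const_mul, even_pow_int_j10082]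
  rw [hP, hB, ← intervalIntegral.integral_sub, ← Real.norm_eq_abs]
  · apply intervalIntegral.norm_integral_le_of_norm_le (by norm_num)
    · refine Filter.Eventually.of_forall fun x hx => ?_
      have hx1 : |x| ≤ 1 := abs_le.2 ⟨hx.1.le, hx.2⟩
      have hx2 : x ^ 2 ≤ 1 := by
        rw [← sq_abs]
        nlinarith [abs_nonneg x]
      have h2 : |-(a * x ^ 2)| = a * x ^ 2 := by
        rw [abs_neg, abs_of_nonneg (by positivity)]
      have h3 : |-(a * x ^ 2)| ≤ 1 := by
        rw [h2]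
        nlinarith [sq_nonneg x]
      have h4 := Real.exp_bound h3 hn
      rw [Real.norm_eq_abs]
      refine h4.trans (le_of_eq ?_)
      rw [h2, mul_pow, ← pow_mul]
      ring
    · apply Continuous.intervalIntegrable
      fun_prop
  · apply Continuous.intervalIntegrable
    fun_prop
  · apply Continuous.intervalIntegrable
    fun_prop

private lemma Zr_bounds_j10082 : 1.71124878 < Zr 1 ∧ Zr 1 < 1.71124879 := by
  have h := gauss_taylor_j10082 (1 / 2) (by norm_num) (by norm_num) 9 (by norm_num)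
  have h1 : (∫ x in (-1 : ℝ)..1, Real.exp (-(1 / 2 * x ^ 2))) = Zr 1 := by
    rw [Zr]
    refine intervalIntegral.integral_congr fun x _ => ?_
    show Real.exp _ = Real.exp _
    congr 1
    ring
  rw [h1, abs_le] at h
  norm_num [Finset.sum_range_succ, Nat.factorial] at h
  constructor <;> linarith [h.1, h.2]

private lemma E2_bounds_j10082 : 1.49364826 < (∫ x in (-1 : ℝ)..1, Real.exp (-x ^ 2)) ∧
    (∫ x in (-1 : ℝ)..1, Real.exp (-x ^ 2)) < 1.49364827 := by
  have h := gauss_taylor_j10082 1 (by norm_num) (by norm_num) 12 (by norm_num)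
  have h1 : (∫ x in (-1 : ℝ)..1, Real.exp (-(1 * x ^ 2))) = ∫ x in (-1 : ℝ)..1, Real.exp (-x ^ 2) := by
    refine intervalIntegral.integral_congr fun x _ => ?_
    show Real.exp _ = Real.exp _
    congr 1
    ring
  rw [h1, abs_le] at h
  norm_num [Finset.sum_range_succ, Nat.factorial] at h
  constructor <;> linarith [h.1, h.2]

/- NOTE (helper327): the stated bounds 3.20484 < Ip 2 < 3.20485 are FALSE; the true value is
2 pi * 1.49364826562 / 1.71124878378^2 = 3.20480716068. Corrected bounds proved here. -/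
theorem Ip_two : 3.20480 < Ip 2 ∧ Ip 2 < 3.20481 := by
  have h1 : Ip 2 = 2 * Real.pi * (∫ x in (-1 : ℝ)..1, Real.exp (-x ^ 2)) / Zr 1 ^ 2 := by
    rw [← phi_sq_integral one_pos, Ip]
    congr 1
    funext t
    have : (2 : ℝ) = ((2 : ℕ) : ℝ) := by norm_num
    rw [this, Real.rpow_natCast, sq_abs]
  obtain ⟨z1, z2⟩ := Zr_bounds_j10082
  obtain ⟨e1, e2⟩ := E2_bounds_j10082
  have p1 := Real.pi_gt_d20
  have p2 := Real.pi_lt_d20
  have p1' : 3.14159265 < Real.pi := lt_trans (by norm_num) p1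
  have p2' : Real.pi < 3.14159266 := lt_trans p2 (by norm_num)
  set e := ∫ x in (-1 : ℝ)..1, Real.exp (-x ^ 2)
  set z := Zr 1
  have hz : 0 < z := by linarith
  rw [h1, lt_div_iff₀ (by positivity), div_lt_iff₀ (by positivity)]
  constructor
  · have h2 : z ^ 2 < 1.71124879 ^ 2 := by nlinarith
    have h3 : 3.14159265 * 1.49364826 < Real.pi * e := by nlinarith
    nlinarith
  · have h2 : 1.71124878 ^ 2 < z ^ 2 := by nlinarith
    have h3 : Real.pi * e < 3.14159266 * 1.49364827 := by nlinarith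
    nlinarith

theorem P1_bounds : 4.64568 < P1 ∧ P1 < 4.64570 := by
  obtain ⟨m1, m2⟩ := mom_1
  rw [← vr_eq_mom] at m1 m2
  have p1 := Real.pi_gt_d6
  have p2 := Real.pi_lt_d6
  have hv : 0 < vr 1 := by linarith
  rw [P1]
  constructor
  · apply Real.lt_sqrt_of_sq_lt
    rw [lt_div_iff₀ hv]
    nlinarith
  · rw [Real.sqrt_lt' (by norm_num)]
    rw [div_lt_iff₀ hv]
    nlinarith



end Pool.Agent.Helper82.GC
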