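import Pool.Agent.Helper82.GC.J9429

set_option autoImplicit false

open MeasureTheory Set

namespace Pool.Agent.Helper82.GC


/-- rational Taylor coefficients -/
noncomputable def r_10086_j10086 : ℕ → ℝ
  | 0 => 1
  | 1 => -0.1455625474
  | 2 => 0.00685418246
  | 3 => -0.000157815264
  | 4 => 0.0000021456852
  | 5 => -0.0000000192216
  | 6 => 0.000000000121899
  | 7 => -0.0000000000005757
  | _ => 0

theorem term_10086_j10086 (d z e : ℝ) (k : ℕ) (hd : |d| ≤ e) (h0 : 0 ≤ z) (h1 : z ≤ 3.45) :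
    |d * z ^ (2 * k)| ≤ e * 3.45 ^ (2 * k) := by
  rw [abs_mul, abs_of_nonneg (pow_nonneg h0 _)]
  exact mul_le_mul hd (pow_le_pow_left₀ h0 h1 _) (pow_nonneg h0 _) ((abs_nonneg _).trans hd)

theorem approx_10086_j10086 (z : ℝ) (h0 : 0 ≤ z) (h1 : z ≤ 3.45) :
    |phi 1 z - ∑ k ∈ Finset.range 8, r_10086_j10086 k * z ^ (2 * k)| ≤ 1e-6 := by
  have ht := phi_taylor 8 z
  obtain ⟨a1, b1⟩ := mom_1
  obtain ⟨a2, b2⟩ := mom_2
  obtain ⟨a3, b3⟩ := mom_3
  obtain ⟨a4, b4⟩ := mom_4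
  obtain ⟨a5, b5⟩ := mom_5
  obtain ⟨a6, b6⟩ := mom_6
  obtain ⟨a7, b7⟩ := mom_7
  obtain ⟨a8, b8⟩ := mom_8
  have hrem : mom 8 * z ^ (2 * 8) / (Nat.factorial (2 * 8)) ≤ 0.0000009 := by
    have h2 : z ^ (2 * 8) ≤ 3.45 ^ (2 * 8) := pow_le_pow_left₀ h0 h1 _
    have h3 : mom 8 * z ^ (2 * 8) ≤ 0.04400242310 * 3.45 ^ (2 * 8) :=
      mul_le_mul b8.le h2 (pow_nonneg h0 _) (by norm_num)
    rw [div_le_iff₀ (by positivity)]
    refine h3.trans ?_
    norm_num [Nat.factorial]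
  have f0 : (Nat.factorial (2 * 0) : ℝ) = 1 := by norm_num [Nat.factorial]
  have f1 : (Nat.factorial (2 * 1) : ℝ) = 2 := by norm_num [Nat.factorial]
  have f2 : (Nat.factorial (2 * 2) : ℝ) = 24 := by norm_num [Nat.factorial]
  have f3 : (Nat.factorial (2 * 3) : ℝ) = 720 := by norm_num [Nat.factorial]
  have f4 : (Nat.factorial (2 * 4) : ℝ) = 40320 := by norm_num [Nat.factorial]
  have f5 : (Nat.factorial (2 * 5) : ℝ) = 3628800 := by norm_num [Nat.factorial]
  have f6 : (Nat.factorial (2 * 6) : ℝ) = 479001600 := by norm_num [Nat.factorial]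
  have f7 : (Nat.factorial (2 * 7) : ℝ) = 87178291200 := by norm_num [Nat.factorial]
  have d1 : |-mom 1 / 2 - (-0.1455625474)| ≤ 0.000000000016 := by
    rw [abs_le]
    constructor <;> linarith
  have d2 : |mom 2 / 24 - (0.00685418246)| ≤ 0.0000000000026 := by
    rw [abs_le]
    constructor <;> linarith
  have d3 : |-mom 3 / 720 - (-0.000157815264)| ≤ 0.00000000000021 := by
    rw [abs_le]
    constructor <;> linarith
  have d4 : |mom 4 / 40320 - (0.0000021456852)| ≤ 0.000000000000023 := by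
    rw [abs_le]
    constructor <;> linarith
  have d5 : |-mom 5 / 3628800 - (-0.0000000192216)| ≤ 0.000000000000003 := by
    rw [abs_le]
    constructor <;> linarith
  have d6 : |mom 6 / 479001600 - (0.000000000121899)| ≤ 0.00000000000000015 := by
    rw [abs_le]
    constructor <;> linarith
  have d7 : |-mom 7 / 87178291200 - (-0.0000000000005757)| ≤ 0.000000000000000038 := by
    rw [abs_le]
    constructor <;> linarith
  have t1 := abs_le.1 (term_10086_j10086 _ z _ 1 d1 h0 h1)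
  have t2 := abs_le.1 (term_10086_j10086 _ z _ 2 d2 h0 h1)
  have t3 := abs_le.1 (term_10086_j10086 _ z _ 3 d3 h0 h1)
  have t4 := abs_le.1 (term_10086_j10086 _ z _ 4 d4 h0 h1)
  have t5 := abs_le.1 (term_10086_j10086 _ z _ 5 d5 h0 h1)
  have t6 := abs_le.1 (term_10086_j10086 _ z _ 6 d6 h0 h1)
  have t7 := abs_le.1 (term_10086_j10086 _ z _ 7 d7 h0 h1)
  have hE : ∑ k ∈ Finset.range 8, (-1) ^ k * mom k * z ^ (2 * k) / (Nat.factorial (2 * k)) -
      ∑ k ∈ Finset.range 8, r_10086_j10086 k * z ^ (2 * k) =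
      (-mom 1 / 2 - (-0.1455625474)) * z ^ (2 * 1) +
      (mom 2 / 24 - (0.00685418246)) * z ^ (2 * 2) +
      (-mom 3 / 720 - (-0.000157815264)) * z ^ (2 * 3) +
      (mom 4 / 40320 - (0.0000021456852)) * z ^ (2 * 4) +
      (-mom 5 / 3628800 - (-0.0000000192216)) * z ^ (2 * 5) +
      (mom 6 / 479001600 - (0.000000000121899)) * z ^ (2 * 6) +
      (-mom 7 / 87178291200 - (-0.0000000000005757)) * z ^ (2 * 7) := by
    simp only [Finset.sum_range_succ, Finset.sum_range_zero, r_10086_j10086, f0, f1, f2, f3, f4, f5, f6,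
      f7, mom_zero]
    ring
  have hN : 0.000000000016 * 3.45 ^ (2 * 1) + 0.0000000000026 * 3.45 ^ (2 * 2) + 0.00000000000021 * 3.45 ^ (2 * 3) + 0.000000000000023 * 3.45 ^ (2 * 4) + 0.000000000000003 * 3.45 ^ (2 * 5) + 0.00000000000000015 * 3.45 ^ (2 * 6) + 0.000000000000000038 * 3.45 ^ (2 * 7) ≤ (0.0000001 : ℝ) := by
    norm_num
  set T := ∑ k ∈ Finset.range 8, (-1) ^ k * mom k * z ^ (2 * k) / (Nat.factorial (2 * k)) with hT
  set T' := ∑ k ∈ Finset.range 8, r_10086_j10086 k * z ^ (2 * k) with hT'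
  clear_value T T'
  rw [abs_le] at ht ⊢
  obtain ⟨ht1, ht2⟩ := ht
  have h1e : (1e-6 : ℝ) = 0.0000009 + 0.0000001 := by norm_num
  rw [h1e]
  constructor
  · linarith [t1.1, t2.1, t3.1, t4.1, t5.1, t6.1, t7.1]
  · linarith [t1.2, t2.2, t3.2, t4.2, t5.2, t6.2, t7.2]

theorem sq_low_10086_j10086 (a b : ℝ) (ha : |a| ≤ 1) (h : |a - b| ≤ 1e-6) :
    b ^ 2 - 0.0000021 ≤ a ^ 2 := by
  have h1 : |b ^ 2 - a ^ 2| ≤ 0.0000021 := by
    have e1 : b ^ 2 - a ^ 2 = (a - b) * ((a - b) - 2 * a) := by ring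
    rw [e1, abs_mul]
    have e2 : |(a - b) - 2 * a| ≤ 1e-6 + 2 := by
      calc |(a - b) - 2 * a| ≤ |a - b| + |2 * a| := abs_sub _ _
        _ ≤ 1e-6 + 2 := by
          rw [abs_mul, abs_of_pos (two_pos : (0 : ℝ) < 2)]
          linarith
    calc |a - b| * |(a - b) - 2 * a| ≤ 1e-6 * (1e-6 + 2) :=
          mul_le_mul h e2 (abs_nonneg _) (by norm_num)
      _ ≤ 0.0000021 := by norm_num
  linarith [(abs_le.1 h1).2]

theorem int_10086_j10086 : ∫ z in (0 : ℝ)..3.45, ((∑ k ∈ Finset.range 8, r_10086_j10086 k * z ^ (2 * k)) ^ 2 -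
    0.0000021) = (∑ i ∈ Finset.range 8, ∑ j ∈ Finset.range 8,
      r_10086_j10086 i * r_10086_j10086 j * (3.45 ^ (2 * i + 2 * j + 1) / ((2 * i + 2 * j + 1 : ℕ) : ℝ))) -
      3.45 * 0.0000021 := by
  have h1 : ∀ z : ℝ, (∑ k ∈ Finset.range 8, r_10086_j10086 k * z ^ (2 * k)) ^ 2 =
      ∑ i ∈ Finset.range 8, ∑ j ∈ Finset.range 8, r_10086_j10086 i * r_10086_j10086 j * z ^ (2 * i + 2 * j) := by
    intro z
    rw [sq, Finset.sum_mul_sum]
    refine Finset.sum_congr rfl (fun i _ => Finset.sum_congr rfl (fun j _ => ?_))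
    rw [pow_add]
    ring
  simp only [h1]
  rw [intervalIntegral.integral_sub]
  · rw [intervalIntegral.integral_finsetSum]
    · congr 1
      · refine Finset.sum_congr rfl (fun i _ => ?_)
        rw [intervalIntegral.integral_finsetSum]
        · refine Finset.sum_congr rfl (fun j _ => ?_)
          rw [intervalIntegral.integral_const_mul, integral_pow]
          congr 1
          push_cast
          simp
        · intro j _
          exact (by fun_prop : Continuous (fun z : ℝ =>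
            r_10086_j10086 i * r_10086_j10086 j * z ^ (2 * i + 2 * j))).intervalIntegrable _ _
      · rw [intervalIntegral.integral_const]
        simp
    · intro i _
      exact (by fun_prop : Continuous (fun z : ℝ => ∑ j ∈ Finset.range 8,
            r_10086_j10086 i * r_10086_j10086 j * z ^ (2 * i + 2 * j))).intervalIntegrable _ _
  · exact (by fun_prop : Continuous (fun z : ℝ => ∑ i ∈ Finset.range 8, ∑ j ∈ Finset.range 8,
            r_10086_j10086 i * r_10086_j10086 j * z ^ (2 * i + 2 * j))).intervalIntegrable _ _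
  · exact intervalIntegrable_const

theorem num_10086_j10086 : (3.06107 : ℝ) < 2 * ((∑ i ∈ Finset.range 8, ∑ j ∈ Finset.range 8,
      r_10086_j10086 i * r_10086_j10086 j * (3.45 ^ (2 * i + 2 * j + 1) / ((2 * i + 2 * j + 1 : ℕ) : ℝ))) -
      3.45 * 0.0000021) := by
  simp only [Finset.sum_range_succ, Finset.sum_range_zero, r_10086_j10086]
  norm_num

theorem main_two : 3.06107 < 2 * ∫ z in (0 : ℝ)..z0, phi 1 z ^ (2 : ℝ) := by
  have hz := z0_bounds.1
  simp only [Real.rpow_two]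
  have hc : Continuous (fun z => phi 1 z ^ 2) := phi_contN.pow 2
  have h1 : ∫ z in (0 : ℝ)..z0, phi 1 z ^ 2 =
      (∫ z in (0 : ℝ)..3.45, phi 1 z ^ 2) + ∫ z in (3.45 : ℝ)..z0, phi 1 z ^ 2 :=
    (intervalIntegral.integral_add_adjacent_intervals (hc.intervalIntegrable _ _)
      (hc.intervalIntegrable _ _)).symm
  have h2 : 0 ≤ ∫ z in (3.45 : ℝ)..z0, phi 1 z ^ 2 :=
    intervalIntegral.integral_nonneg (by norm_num at hz ⊢; linarith) (fun z _ => sq_nonneg _)
  have h3 : ∫ z in (0 : ℝ)..3.45, ((∑ k ∈ Finset.range 8, r_10086_j10086 k * z ^ (2 * k)) ^ 2 -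
      0.0000021) ≤ ∫ z in (0 : ℝ)..3.45, phi 1 z ^ 2 := by
    refine intervalIntegral.integral_mono_on (by norm_num) ?_ (hc.intervalIntegrable _ _)
      (fun z hz => ?_)
    · exact (by fun_prop : Continuous (fun z : ℝ =>
        ((∑ k ∈ Finset.range 8, r_10086_j10086 k * z ^ (2 * k)) ^ 2 - 0.0000021))).intervalIntegrable _ _
    · exact sq_low_10086_j10086 _ _ (abs_phi_le_one one_pos z) (approx_10086_j10086 z hz.1 hz.2)
  rw [int_10086_j10086] at h3
  have h4 := num_10086_j10086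
  rw [h1]
  linarith



end Pool.Agent.Helper82.GC
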