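import Pool.Agent.Helper82.GC.J10082
import Pool.Agent.Helper82.GC.J10085
import Pool.Agent.Helper82.GC.J10086

set_option autoImplicit false

open MeasureTheory Set

namespace Pool.Agent.Helper82.GC


theorem Tl_two : Tl 2 ≤ 0.1438 := by
  have h1 := (Ip_split 2 le_rfl).2
  have h2 := Ip_two.2
  have h3 := main_two
  linarith



end Pool.Agent.Helper82.GC
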