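import Pool.Agent.Helper82.GC.J10089

set_option autoImplicit false

open MeasureTheory Set

namespace Pool.Agent.Helper82.GC


theorem H4a_int_even_j10096 (n : ℕ) (c : ℕ → ℝ) (a b : ℝ) :
    ∫ z in a..b, ∑ k ∈ Finset.range n, c k * z ^ (2 * k) =
      ∑ k ∈ Finset.range n, c k * ((b ^ (2 * k + 1) - a ^ (2 * k + 1)) / (2 * k + 1)) := by
  rw [intervalIntegral.integral_finsetSum]
  · refine Finset.sum_congr rfl fun k _ => ?_
    rw [intervalIntegral.integral_const_mul, integral_pow]
    push_cast
    rfl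
  · intro k _
    exact (continuous_const.mul (continuous_pow _)).intervalIntegrable _ _

theorem H4a_pow94_j10096 (y α β A B C : ℝ) (hβ : 0 ≤ β) (hα : 0 ≤ α) (hy1 : β ^ 4 ≤ y) (hy2 : y ≤ α ^ 4)
    (hQ : ∀ t : ℝ, β ≤ t → t ≤ α → t ^ 9 ≤ A + B * t ^ 4 + C * t ^ 8) :
    y ^ (9 / 4 : ℝ) ≤ A + B * y + C * y ^ 2 := by
  have hy0 : 0 ≤ y := le_trans (by positivity) hy1
  set t : ℝ := y ^ (1 / 4 : ℝ) with ht
  have ht0 : 0 ≤ t := Real.rpow_nonneg hy0 _
  have h4 : t ^ 4 = y := by
    rw [ht, ← Real.rpow_natCast, ← Real.rpow_mul hy0]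
    norm_num
  have h9 : t ^ 9 = y ^ (9 / 4 : ℝ) := by
    rw [ht, ← Real.rpow_natCast, ← Real.rpow_mul hy0]
    norm_num
  have h1 : β ≤ t := by
    rw [← h4] at hy1
    exact le_of_pow_le_pow_left₀ (by norm_num) ht0 hy1
  have h2 : t ≤ α := by
    rw [← h4] at hy2
    exact le_of_pow_le_pow_left₀ (by norm_num) hα hy2
  have h3 := hQ t h1 h2
  rw [h9] at h3
  have h8 : t ^ 8 = y ^ 2 := by rw [← h4]; ring
  rw [h8, h4] at h3
  exact h3

theorem H4a_mono_j10096 (y P A B C b : ℝ) (hC : 0 ≤ C) (hy : b ≤ y) (hP : y ≤ P)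
    (hB : 0 ≤ B + 2 * C * b) : A + B * y + C * y ^ 2 ≤ A + B * P + C * P ^ 2 := by
  have h1 : 0 ≤ (P - y) * (B + C * (P + y)) := by
    refine mul_nonneg (by linarith) ?_
    nlinarith
  nlinarith

theorem H4a_cell_j10096 (a b c : ℝ) (hab : a ≤ b) (n : ℕ) (g : ℕ → ℝ)
    (h : ∀ z ∈ Set.Icc a b, phi 1 z ^ (9 / 4 : ℝ) ≤ ∑ k ∈ Finset.range n, g k * z ^ (2 * k))
    (hc : ∑ k ∈ Finset.range n, g k * ((b ^ (2 * k + 1) - a ^ (2 * k + 1)) / (2 * k + 1)) ≤ c) :
    ∫ z in a..b, phi 1 z ^ (9 / 4 : ℝ) ≤ c := by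
  refine le_trans ?_ hc
  rw [← H4a_int_even_j10096]
  refine intervalIntegral.integral_mono_on hab ?_ ?_ h
  · exact (phi_contN.rpow_const (fun _ => Or.inr (by norm_num))).intervalIntegrable _ _
  · refine Continuous.intervalIntegrable ?_ _ _
    exact continuous_finsetSum _ fun k _ => continuous_const.mul (continuous_pow _)

theorem H4a_Q1_j10096 (t : ℝ) (h1 : (471/500 : ℝ) ≤ t) (h2 : t ≤ (1 : ℝ)) :
    t ^ 9 ≤ (68051/625000 : ℝ) + (-(923981/2000000 : ℝ)) * t ^ 4 + (13531091/10000000 : ℝ) * t ^ 8 := by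
  have h0 : 0 ≤ t := le_trans (by norm_num) h1
  have h : (68051/625000 : ℝ) + (-(923981/2000000 : ℝ)) * t ^ 4 + (13531091/10000000 : ℝ) * t ^ 8 - t ^ 9 =
      (t - (471/500 : ℝ)) ^ 2 * ((1 : ℝ) - t) * ((12878110513911732001559631/104954198258613660500000000 : ℝ) * t ^ 0 + (40220171053002458119520631/104954198258613660500000000 : ℝ) * t ^ 1 + (83758484013338009262770631/104954198258613660500000000 : ℝ) * t ^ 2 + (145383838521951669762770631/104954198258613660500000000 : ℝ) * t ^ 3 + (172515889293164937761211/104954198258613660500000 : ℝ) * t ^ 4 + (642693725375796846573/419816793034454642000 : ℝ) * t ^ 5 + (1 : ℝ) * t ^ 6) +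
      ((2343762074745316209899329/26238549564653415125000000000000 : ℝ) + (1825687410143339177600671/26238549564653415125000000000000 : ℝ) * t ^ 4 + (86260834243362211/2099083965172273210000000 : ℝ) * t ^ 8) := by
    ring
  have hR : 0 ≤ (12878110513911732001559631/104954198258613660500000000 : ℝ) * t ^ 0 + (40220171053002458119520631/104954198258613660500000000 : ℝ) * t ^ 1 + (83758484013338009262770631/104954198258613660500000000 : ℝ) * t ^ 2 + (145383838521951669762770631/104954198258613660500000000 : ℝ) * t ^ 3 + (172515889293164937761211/104954198258613660500000 : ℝ) * t ^ 4 + (642693725375796846573/419816793034454642000 : ℝ) * t ^ 5 + (1 : ℝ) * t ^ 6 := by positivity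
  have hE : 0 ≤ (2343762074745316209899329/26238549564653415125000000000000 : ℝ) + (1825687410143339177600671/26238549564653415125000000000000 : ℝ) * t ^ 4 + (86260834243362211/2099083965172273210000000 : ℝ) * t ^ 8 := by positivity
  have hm : 0 ≤ (t - (471/500 : ℝ)) ^ 2 * ((1 : ℝ) - t) * ((12878110513911732001559631/104954198258613660500000000 : ℝ) * t ^ 0 + (40220171053002458119520631/104954198258613660500000000 : ℝ) * t ^ 1 + (83758484013338009262770631/104954198258613660500000000 : ℝ) * t ^ 2 + (145383838521951669762770631/104954198258613660500000000 : ℝ) * t ^ 3 + (172515889293164937761211/104954198258613660500000 : ℝ) * t ^ 4 + (642693725375796846573/419816793034454642000 : ℝ) * t ^ 5 + (1 : ℝ) * t ^ 6) :=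
    mul_nonneg (mul_nonneg (sq_nonneg _) (by linarith)) hR
  linarith

theorem H4a_P1_j10096 (z : ℝ) : phi 1 z ≤ (1 : ℝ) * z ^ 0 + (-(7278127/50000000 : ℝ)) * z ^ 2 + (685419/100000000 : ℝ) * z ^ 4 + (-(15781/100000000 : ℝ)) * z ^ 6 + (43/20000000 : ℝ) * z ^ 8 + (1/50000000 : ℝ) * z ^ 10 := by
  have h := (abs_le.mp (phi_taylor 5 z)).2
  have m1 := mom_1
  have m2 := mom_2
  have m3 := mom_3
  have m4 := mom_4
  have m5 := mom_5
  simp only [Finset.sum_range_succ, Finset.sum_range_zero, mom_zero] at h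
  norm_num [Nat.factorial] at h
  have q1 : 0 ≤ z ^ 2 := by positivity
  have q2 : 0 ≤ z ^ 4 := by positivity
  have q3 : 0 ≤ z ^ 6 := by positivity
  have q4 : 0 ≤ z ^ 8 := by positivity
  have q5 : 0 ≤ z ^ 10 := by positivity
  have e1 : (7278127/50000000 : ℝ) * z ^ 2 ≤ mom 1 * z ^ 2 / 2 := by
    have h5 : (7278127/50000000 : ℝ) * 2 ≤ mom 1 := by linarith [m1.1]
    have h6 : ((7278127/50000000 : ℝ) * 2) * z ^ 2 ≤ mom 1 * z ^ 2 := mul_le_mul_of_nonneg_right h5 q1
    rw [le_div_iff₀ (by norm_num)]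
    linarith
  have e2 : mom 2 * z ^ 4 / 24 ≤ (685419/100000000 : ℝ) * z ^ 4 := by
    have h5 : mom 2 ≤ (685419/100000000 : ℝ) * 24 := by linarith [m2.2]
    have h6 : mom 2 * z ^ 4 ≤ ((685419/100000000 : ℝ) * 24) * z ^ 4 := mul_le_mul_of_nonneg_right h5 q2
    rw [div_le_iff₀ (by norm_num)]
    linarith
  have e3 : (15781/100000000 : ℝ) * z ^ 6 ≤ mom 3 * z ^ 6 / 720 := by
    have h5 : (15781/100000000 : ℝ) * 720 ≤ mom 3 := by linarith [m3.1]
    have h6 : ((15781/100000000 : ℝ) * 720) * z ^ 6 ≤ mom 3 * z ^ 6 := mul_le_mul_of_nonneg_right h5 q3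
    rw [le_div_iff₀ (by norm_num)]
    linarith
  have e4 : mom 4 * z ^ 8 / 40320 ≤ (43/20000000 : ℝ) * z ^ 8 := by
    have h5 : mom 4 ≤ (43/20000000 : ℝ) * 40320 := by linarith [m4.2]
    have h6 : mom 4 * z ^ 8 ≤ ((43/20000000 : ℝ) * 40320) * z ^ 8 := mul_le_mul_of_nonneg_right h5 q4
    rw [div_le_iff₀ (by norm_num)]
    linarith
  have e5 : mom 5 * z ^ 10 / 3628800 ≤ (1/50000000 : ℝ) * z ^ 10 := by
    have h5 : mom 5 ≤ (1/50000000 : ℝ) * 3628800 := by linarith [m5.2]
    have h6 : mom 5 * z ^ 10 ≤ ((1/50000000 : ℝ) * 3628800) * z ^ 10 := mul_le_mul_of_nonneg_right h5 q5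
    rw [div_le_iff₀ (by norm_num)]
    linarith
  linarith

theorem H4a_G1_j10096 (z : ℝ) : ∑ k ∈ Finset.range 11, ([5000001/5000000, -163337742175179/500000000000000, 1101316292440857658739/25000000000000000000000, -76354787013291352383/25000000000000000000000, 13055919322551261119/100000000000000000000000, -186462963312277259/50000000000000000000000, 1313991027134093/20000000000000000000000, -27360907896007/50000000000000000000000, -228661906809/100000000000000000000000, 581836913/5000000000000000000000, 13531091/25000000000000000000000] : List ℝ).getD k 0 * z ^ (2 * k) =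
    (68051/625000 : ℝ) + (-(923981/2000000 : ℝ)) * ((1 : ℝ) * z ^ 0 + (-(7278127/50000000 : ℝ)) * z ^ 2 + (685419/100000000 : ℝ) * z ^ 4 + (-(15781/100000000 : ℝ)) * z ^ 6 + (43/20000000 : ℝ) * z ^ 8 + (1/50000000 : ℝ) * z ^ 10) + (13531091/10000000 : ℝ) * ((1 : ℝ) * z ^ 0 + (-(7278127/50000000 : ℝ)) * z ^ 2 + (685419/100000000 : ℝ) * z ^ 4 + (-(15781/100000000 : ℝ)) * z ^ 6 + (43/20000000 : ℝ) * z ^ 8 + (1/50000000 : ℝ) * z ^ 10) ^ 2 := by
  simp only [Finset.sum_range_succ, Finset.sum_range_zero, List.getD_cons_zero,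
    List.getD_cons_succ]
  ring

theorem H4a_c1_j10096 : ∫ z in (0 : ℝ)..1.25, phi 1 z ^ (9 / 4 : ℝ) ≤ (1062233/1000000 : ℝ) := by
  refine H4a_cell_j10096 _ _ _ (by norm_num) 11 (fun k => ([5000001/5000000, -163337742175179/500000000000000, 1101316292440857658739/25000000000000000000000, -76354787013291352383/25000000000000000000000, 13055919322551261119/100000000000000000000000, -186462963312277259/50000000000000000000000, 1313991027134093/20000000000000000000000, -27360907896007/50000000000000000000000, -228661906809/100000000000000000000000, 581836913/5000000000000000000000, 13531091/25000000000000000000000] : List ℝ).getD k 0) ?_ ?_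
  · rintro z ⟨hz1, hz2⟩
    have hlow : (471/500 : ℝ) ^ 4 ≤ phi 1 z := le_trans (le_trans (by norm_num) phi_tab_5.1.le)
      (phi_antitone ⟨by linarith, by linarith⟩ ⟨by norm_num, by norm_num⟩ hz2)
    have hup : phi 1 z ≤ (1 : ℝ) ^ 4 := (abs_le.mp (abs_phi_le_one one_pos z)).2.trans (by norm_num)
    rw [H4a_G1_j10096]
    refine (H4a_pow94_j10096 _ (1 : ℝ) (471/500 : ℝ) (68051/625000 : ℝ) (-(923981/2000000 : ℝ)) (13531091/10000000 : ℝ) (by norm_num) (by norm_num)
      hlow hup H4a_Q1_j10096).trans ?_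
    exact H4a_mono_j10096 _ _ _ _ _ _ (by norm_num) hlow (H4a_P1_j10096 z) (by norm_num)
  · simp only [Finset.sum_range_succ, Finset.sum_range_zero, List.getD_cons_zero,
      List.getD_cons_succ]
    norm_num

theorem H4a_Q2_j10096 (t : ℝ) (h1 : (106/125 : ℝ) ≤ t) (h2 : t ≤ (943/1000 : ℝ)) :
    t ^ 9 ≤ (241537/5000000 : ℝ) + (-(370579/1250000 : ℝ)) * t ^ 4 + (12406537/10000000 : ℝ) * t ^ 8 := by
  have h0 : 0 ≤ t := le_trans (by norm_num) h1
  have h : (241537/5000000 : ℝ) + (-(370579/1250000 : ℝ)) * t ^ 4 + (12406537/10000000 : ℝ) * t ^ 8 - t ^ 9 =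
      (t - (106/125 : ℝ)) ^ 2 * ((943/1000 : ℝ) - t) * ((450976841593988090263348105792/6330587156928870948028564453125 : ℝ) * t ^ 0 + (12334887501930445174773342016/50644697255430967584228515625 : ℝ) * t ^ 1 + (225054131475117300513860912/405157578043447740673828125 : ℝ) * t ^ 2 + (684771266822109702376864/648252124869516385078125 : ℝ) * t ^ 3 + (177854961501445475072684/129650424973903277015625 : ℝ) * t ^ 4 + (1450369550813314126292/1037203399791226216125 : ℝ) * t ^ 5 + (1 : ℝ) * t ^ 6) +
      ((1577098238979840284342835615997/791323394616108868503570556640625000000 : ℝ) + (396868286299442126582861/4051575780434477406738281250000 : ℝ) * t ^ 4 + (1149426573960848473/82976271983298097290000000 : ℝ) * t ^ 8) := by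
    ring
  have hR : 0 ≤ (450976841593988090263348105792/6330587156928870948028564453125 : ℝ) * t ^ 0 + (12334887501930445174773342016/50644697255430967584228515625 : ℝ) * t ^ 1 + (225054131475117300513860912/405157578043447740673828125 : ℝ) * t ^ 2 + (684771266822109702376864/648252124869516385078125 : ℝ) * t ^ 3 + (177854961501445475072684/129650424973903277015625 : ℝ) * t ^ 4 + (1450369550813314126292/1037203399791226216125 : ℝ) * t ^ 5 + (1 : ℝ) * t ^ 6 := by positivity
  have hE : 0 ≤ (1577098238979840284342835615997/791323394616108868503570556640625000000 : ℝ) + (396868286299442126582861/4051575780434477406738281250000 : ℝ) * t ^ 4 + (1149426573960848473/82976271983298097290000000 : ℝ) * t ^ 8 := by positivity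
  have hm : 0 ≤ (t - (106/125 : ℝ)) ^ 2 * ((943/1000 : ℝ) - t) * ((450976841593988090263348105792/6330587156928870948028564453125 : ℝ) * t ^ 0 + (12334887501930445174773342016/50644697255430967584228515625 : ℝ) * t ^ 1 + (225054131475117300513860912/405157578043447740673828125 : ℝ) * t ^ 2 + (684771266822109702376864/648252124869516385078125 : ℝ) * t ^ 3 + (177854961501445475072684/129650424973903277015625 : ℝ) * t ^ 4 + (1450369550813314126292/1037203399791226216125 : ℝ) * t ^ 5 + (1 : ℝ) * t ^ 6) :=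
    mul_nonneg (mul_nonneg (sq_nonneg _) (by linarith)) hR
  linarith

theorem H4a_P2_j10096 (z : ℝ) : phi 1 z ≤ (1 : ℝ) * z ^ 0 + (-(7278127/50000000 : ℝ)) * z ^ 2 + (6854183/1000000000 : ℝ) * z ^ 4 + (-(31563/200000000 : ℝ)) * z ^ 6 + (21457/10000000000 : ℝ) * z ^ 8 + (-(961/50000000000 : ℝ)) * z ^ 10 + (13/100000000000 : ℝ) * z ^ 12 := by
  have h := (abs_le.mp (phi_taylor 6 z)).2
  have m1 := mom_1
  have m2 := mom_2
  have m3 := mom_3
  have m4 := mom_4
  have m5 := mom_5
  have m6 := mom_6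
  simp only [Finset.sum_range_succ, Finset.sum_range_zero, mom_zero] at h
  norm_num [Nat.factorial] at h
  have q1 : 0 ≤ z ^ 2 := by positivity
  have q2 : 0 ≤ z ^ 4 := by positivity
  have q3 : 0 ≤ z ^ 6 := by positivity
  have q4 : 0 ≤ z ^ 8 := by positivity
  have q5 : 0 ≤ z ^ 10 := by positivity
  have q6 : 0 ≤ z ^ 12 := by positivity
  have e1 : (7278127/50000000 : ℝ) * z ^ 2 ≤ mom 1 * z ^ 2 / 2 := by
    have h5 : (7278127/50000000 : ℝ) * 2 ≤ mom 1 := by linarith [m1.1]
    have h6 : ((7278127/50000000 : ℝ) * 2) * z ^ 2 ≤ mom 1 * z ^ 2 := mul_le_mul_of_nonneg_right h5 q1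
    rw [le_div_iff₀ (by norm_num)]
    linarith
  have e2 : mom 2 * z ^ 4 / 24 ≤ (6854183/1000000000 : ℝ) * z ^ 4 := by
    have h5 : mom 2 ≤ (6854183/1000000000 : ℝ) * 24 := by linarith [m2.2]
    have h6 : mom 2 * z ^ 4 ≤ ((6854183/1000000000 : ℝ) * 24) * z ^ 4 := mul_le_mul_of_nonneg_right h5 q2
    rw [div_le_iff₀ (by norm_num)]
    linarith
  have e3 : (31563/200000000 : ℝ) * z ^ 6 ≤ mom 3 * z ^ 6 / 720 := by
    have h5 : (31563/200000000 : ℝ) * 720 ≤ mom 3 := by linarith [m3.1]
    have h6 : ((31563/200000000 : ℝ) * 720) * z ^ 6 ≤ mom 3 * z ^ 6 := mul_le_mul_of_nonneg_right h5 q3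
    rw [le_div_iff₀ (by norm_num)]
    linarith
  have e4 : mom 4 * z ^ 8 / 40320 ≤ (21457/10000000000 : ℝ) * z ^ 8 := by
    have h5 : mom 4 ≤ (21457/10000000000 : ℝ) * 40320 := by linarith [m4.2]
    have h6 : mom 4 * z ^ 8 ≤ ((21457/10000000000 : ℝ) * 40320) * z ^ 8 := mul_le_mul_of_nonneg_right h5 q4
    rw [div_le_iff₀ (by norm_num)]
    linarith
  have e5 : (961/50000000000 : ℝ) * z ^ 10 ≤ mom 5 * z ^ 10 / 3628800 := by
    have h5 : (961/50000000000 : ℝ) * 3628800 ≤ mom 5 := by linarith [m5.1]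
    have h6 : ((961/50000000000 : ℝ) * 3628800) * z ^ 10 ≤ mom 5 * z ^ 10 := mul_le_mul_of_nonneg_right h5 q5
    rw [le_div_iff₀ (by norm_num)]
    linarith
  have e6 : mom 6 * z ^ 12 / 479001600 ≤ (13/100000000000 : ℝ) * z ^ 12 := by
    have h5 : mom 6 ≤ (13/100000000000 : ℝ) * 479001600 := by linarith [m6.2]
    have h6 : mom 6 * z ^ 12 ≤ ((13/100000000000 : ℝ) * 479001600) * z ^ 12 := mul_le_mul_of_nonneg_right h5 q6
    rw [div_le_iff₀ (by norm_num)]
    linarith
  linarith

theorem H4a_G2_j10096 (z : ℝ) : ∑ k ∈ Finset.range 13, ([9924979/10000000, -79507867814067/250000000000000, 1031571366215004679273/25000000000000000000000, -705108017121778610417/250000000000000000000000, 1199741885227855192993/10000000000000000000000000, -17505004037972641751/5000000000000000000000000, 466361530007685741/6250000000000000000000000, -37939513720891497/31250000000000000000000000, 15449270806176779/1000000000000000000000000000, -47886366909953/312500000000000000000000000, 14380578321681/12500000000000000000000000000,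 -154994866741/25000000000000000000000000000, 2096704753/100000000000000000000000000000] : List ℝ).getD k 0 * z ^ (2 * k) =
    (241537/5000000 : ℝ) + (-(370579/1250000 : ℝ)) * ((1 : ℝ) * z ^ 0 + (-(7278127/50000000 : ℝ)) * z ^ 2 + (6854183/1000000000 : ℝ) * z ^ 4 + (-(31563/200000000 : ℝ)) * z ^ 6 + (21457/10000000000 : ℝ) * z ^ 8 + (-(961/50000000000 : ℝ)) * z ^ 10 + (13/100000000000 : ℝ) * z ^ 12) + (12406537/10000000 : ℝ) * ((1 : ℝ) * z ^ 0 + (-(7278127/50000000 : ℝ)) * z ^ 2 + (6854183/1000000000 : ℝ) * z ^ 4 + (-(31563/200000000 : ℝ)) * z ^ 6 + (21457/10000000000 : ℝ) * z ^ 8 + (-(961/50000000000 : ℝ)) * z ^ 10 + (13/100000000000 : ℝ) * z ^ 12) ^ 2 := by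
  simp only [Finset.sum_range_succ, Finset.sum_range_zero, List.getD_cons_zero,
    List.getD_cons_succ]
  ring

theorem H4a_c2_j10096 : ∫ z in (1.25 : ℝ)..2, phi 1 z ^ (9 / 4 : ℝ) ≤ (298709/1000000 : ℝ) := by
  refine H4a_cell_j10096 _ _ _ (by norm_num) 13 (fun k => ([9924979/10000000, -79507867814067/250000000000000, 1031571366215004679273/25000000000000000000000, -705108017121778610417/250000000000000000000000, 1199741885227855192993/10000000000000000000000000, -17505004037972641751/5000000000000000000000000, 466361530007685741/6250000000000000000000000, -37939513720891497/31250000000000000000000000, 15449270806176779/1000000000000000000000000000, -47886366909953/312500000000000000000000000, 14380578321681/12500000000000000000000000000, -154994866741/25000000000000000000000000000, 2096704753/100000000000000000000000000000] : List ℝ).getD k 0) ?_ ?_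
  · rintro z ⟨hz1, hz2⟩
    have hlow : (106/125 : ℝ) ^ 4 ≤ phi 1 z := le_trans (le_trans (by norm_num) phi_tab_8.1.le)
      (phi_antitone ⟨by linarith, by linarith⟩ ⟨by norm_num, by norm_num⟩ hz2)
    have hup : phi 1 z ≤ (943/1000 : ℝ) ^ 4 := (phi_antitone ⟨by norm_num, by norm_num⟩ ⟨by linarith, by linarith⟩ hz1).trans
      (le_trans phi_tab_5.2.le (by norm_num))
    rw [H4a_G2_j10096]
    refine (H4a_pow94_j10096 _ (943/1000 : ℝ) (106/125 : ℝ) (241537/5000000 : ℝ) (-(370579/1250000 : ℝ)) (12406537/10000000 : ℝ) (by norm_num) (by norm_num)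
      hlow hup H4a_Q2_j10096).trans ?_
    exact H4a_mono_j10096 _ _ _ _ _ _ (by norm_num) hlow (H4a_P2_j10096 z) (by norm_num)
  · simp only [Finset.sum_range_succ, Finset.sum_range_zero, List.getD_cons_zero,
      List.getD_cons_succ]
    norm_num

theorem H4a_Q3_j10096 (t : ℝ) (h1 : (753/1000 : ℝ) ≤ t) (h2 : t ≤ (849/1000 : ℝ)) :
    t ^ 9 ≤ (17241/1000000 : ℝ) + (-(419439/2500000 : ℝ)) * t ^ 4 + (11080521/10000000 : ℝ) * t ^ 8 := by
  have h0 : 0 ≤ t := le_trans (by norm_num) h1
  have h : (17241/1000000 : ℝ) + (-(419439/2500000 : ℝ)) * t ^ 4 + (11080521/10000000 : ℝ) * t ^ 8 - t ^ 9 =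
      (t - (753/1000 : ℝ)) ^ 2 * ((849/1000 : ℝ) - t) * ((46467797765152282972038592742277/1297443837600800000000000000000000 : ℝ) * t ^ 0 + (178152834007336567455293221791/1297443837600800000000000000000 : ℝ) * t ^ 1 + (227847949754291924950448559/648721918800400000000000000 : ℝ) * t ^ 2 + (486041431888385575970793/648721918800400000000000 : ℝ) * t ^ 3 + (283091722429948536293/259488767520160000000 : ℝ) * t ^ 4 + (4853534842238588489/3892331512802400000 : ℝ) * t ^ 5 + (1 : ℝ) * t ^ 6) +
      ((66252050367837476956763057327170443/1297443837600800000000000000000000000000000 : ℝ) + (46684054985690016143097/648721918800400000000000000000 : ℝ) * t ^ 4 + (5906145317351/97308287820060000000 : ℝ) * t ^ 8) := by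
    ring
  have hR : 0 ≤ (46467797765152282972038592742277/1297443837600800000000000000000000 : ℝ) * t ^ 0 + (178152834007336567455293221791/1297443837600800000000000000000 : ℝ) * t ^ 1 + (227847949754291924950448559/648721918800400000000000000 : ℝ) * t ^ 2 + (486041431888385575970793/648721918800400000000000 : ℝ) * t ^ 3 + (283091722429948536293/259488767520160000000 : ℝ) * t ^ 4 + (4853534842238588489/3892331512802400000 : ℝ) * t ^ 5 + (1 : ℝ) * t ^ 6 := by positivity
  have hE : 0 ≤ (66252050367837476956763057327170443/1297443837600800000000000000000000000000000 : ℝ) + (46684054985690016143097/648721918800400000000000000000 : ℝ) * t ^ 4 + (5906145317351/97308287820060000000 : ℝ) * t ^ 8 := by positivity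
  have hm : 0 ≤ (t - (753/1000 : ℝ)) ^ 2 * ((849/1000 : ℝ) - t) * ((46467797765152282972038592742277/1297443837600800000000000000000000 : ℝ) * t ^ 0 + (178152834007336567455293221791/1297443837600800000000000000000 : ℝ) * t ^ 1 + (227847949754291924950448559/648721918800400000000000000 : ℝ) * t ^ 2 + (486041431888385575970793/648721918800400000000000 : ℝ) * t ^ 3 + (283091722429948536293/259488767520160000000 : ℝ) * t ^ 4 + (4853534842238588489/3892331512802400000 : ℝ) * t ^ 5 + (1 : ℝ) * t ^ 6) :=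
    mul_nonneg (mul_nonneg (sq_nonneg _) (by linarith)) hR
  linarith

theorem H4a_P3_j10096 (z : ℝ) : phi 1 z ≤ (1 : ℝ) * z ^ 0 + (-(7278127/50000000 : ℝ)) * z ^ 2 + (6854183/1000000000 : ℝ) * z ^ 4 + (-(197269/1250000000 : ℝ)) * z ^ 6 + (214569/100000000000 : ℝ) * z ^ 8 + (-(961/50000000000 : ℝ)) * z ^ 10 + (61/500000000000 : ℝ) * z ^ 12 := by
  have h := (abs_le.mp (phi_taylor 6 z)).2
  have m1 := mom_1
  have m2 := mom_2
  have m3 := mom_3
  have m4 := mom_4
  have m5 := mom_5
  have m6 := mom_6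
  simp only [Finset.sum_range_succ, Finset.sum_range_zero, mom_zero] at h
  norm_num [Nat.factorial] at h
  have q1 : 0 ≤ z ^ 2 := by positivity
  have q2 : 0 ≤ z ^ 4 := by positivity
  have q3 : 0 ≤ z ^ 6 := by positivity
  have q4 : 0 ≤ z ^ 8 := by positivity
  have q5 : 0 ≤ z ^ 10 := by positivity
  have q6 : 0 ≤ z ^ 12 := by positivity
  have e1 : (7278127/50000000 : ℝ) * z ^ 2 ≤ mom 1 * z ^ 2 / 2 := by
    have h5 : (7278127/50000000 : ℝ) * 2 ≤ mom 1 := by linarith [m1.1]
    have h6 : ((7278127/50000000 : ℝ) * 2) * z ^ 2 ≤ mom 1 * z ^ 2 := mul_le_mul_of_nonneg_right h5 q1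
    rw [le_div_iff₀ (by norm_num)]
    linarith
  have e2 : mom 2 * z ^ 4 / 24 ≤ (6854183/1000000000 : ℝ) * z ^ 4 := by
    have h5 : mom 2 ≤ (6854183/1000000000 : ℝ) * 24 := by linarith [m2.2]
    have h6 : mom 2 * z ^ 4 ≤ ((6854183/1000000000 : ℝ) * 24) * z ^ 4 := mul_le_mul_of_nonneg_right h5 q2
    rw [div_le_iff₀ (by norm_num)]
    linarith
  have e3 : (197269/1250000000 : ℝ) * z ^ 6 ≤ mom 3 * z ^ 6 / 720 := by
    have h5 : (197269/1250000000 : ℝ) * 720 ≤ mom 3 := by linarith [m3.1]
    have h6 : ((197269/1250000000 : ℝ) * 720) * z ^ 6 ≤ mom 3 * z ^ 6 := mul_le_mul_of_nonneg_right h5 q3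
    rw [le_div_iff₀ (by norm_num)]
    linarith
  have e4 : mom 4 * z ^ 8 / 40320 ≤ (214569/100000000000 : ℝ) * z ^ 8 := by
    have h5 : mom 4 ≤ (214569/100000000000 : ℝ) * 40320 := by linarith [m4.2]
    have h6 : mom 4 * z ^ 8 ≤ ((214569/100000000000 : ℝ) * 40320) * z ^ 8 := mul_le_mul_of_nonneg_right h5 q4
    rw [div_le_iff₀ (by norm_num)]
    linarith
  have e5 : (961/50000000000 : ℝ) * z ^ 10 ≤ mom 5 * z ^ 10 / 3628800 := by
    have h5 : (961/50000000000 : ℝ) * 3628800 ≤ mom 5 := by linarith [m5.1]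
    have h6 : ((961/50000000000 : ℝ) * 3628800) * z ^ 10 ≤ mom 5 * z ^ 10 := mul_le_mul_of_nonneg_right h5 q5
    rw [le_div_iff₀ (by norm_num)]
    linarith
  have e6 : mom 6 * z ^ 12 / 479001600 ≤ (61/500000000000 : ℝ) * z ^ 12 := by
    have h5 : mom 6 ≤ (61/500000000000 : ℝ) * 479001600 := by linarith [m6.2]
    have h6 : mom 6 * z ^ 12 ≤ ((61/500000000000 : ℝ) * 479001600) * z ^ 12 := mul_le_mul_of_nonneg_right h5 q6
    rw [div_le_iff₀ (by norm_num)]
    linarith
  linarith

theorem H4a_G3_j10096 (z : ℝ) : ∑ k ∈ Finset.range 13, ([383007/400000, -74539978442661/250000000000000, 937938224193113575209/25000000000000000000000, -633572944379829360561/250000000000000000000000, 214718951753221305861/2000000000000000000000000, -78216912978789746091/25000000000000000000000000, 33319399567517992239/500000000000000000000000000, -1352151887887262547/1250000000000000000000000000, 1367649040889188881/100000000000000000000000000000, -3351503923350201/25000000000000000000000000000, 247360653281799/250000000000000000000000000000,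 -649551221541/125000000000000000000000000000, 41230618641/2500000000000000000000000000000] : List ℝ).getD k 0 * z ^ (2 * k) =
    (17241/1000000 : ℝ) + (-(419439/2500000 : ℝ)) * ((1 : ℝ) * z ^ 0 + (-(7278127/50000000 : ℝ)) * z ^ 2 + (6854183/1000000000 : ℝ) * z ^ 4 + (-(197269/1250000000 : ℝ)) * z ^ 6 + (214569/100000000000 : ℝ) * z ^ 8 + (-(961/50000000000 : ℝ)) * z ^ 10 + (61/500000000000 : ℝ) * z ^ 12) + (11080521/10000000 : ℝ) * ((1 : ℝ) * z ^ 0 + (-(7278127/50000000 : ℝ)) * z ^ 2 + (6854183/1000000000 : ℝ) * z ^ 4 + (-(197269/1250000000 : ℝ)) * z ^ 6 + (214569/100000000000 : ℝ) * z ^ 8 + (-(961/50000000000 : ℝ)) * z ^ 10 + (61/500000000000 : ℝ) * z ^ 12) ^ 2 := by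
  simp only [Finset.sum_range_succ, Finset.sum_range_zero, List.getD_cons_zero,
    List.getD_cons_succ]
  ring

theorem H4a_c3_j10096 : ∫ z in (2 : ℝ)..2.5, phi 1 z ^ (9 / 4 : ℝ) ≤ (72817/1000000 : ℝ) := by
  refine H4a_cell_j10096 _ _ _ (by norm_num) 13 (fun k => ([383007/400000, -74539978442661/250000000000000, 937938224193113575209/25000000000000000000000, -633572944379829360561/250000000000000000000000, 214718951753221305861/2000000000000000000000000, -78216912978789746091/25000000000000000000000000, 33319399567517992239/500000000000000000000000000, -1352151887887262547/1250000000000000000000000000, 1367649040889188881/100000000000000000000000000000, -3351503923350201/25000000000000000000000000000, 247360653281799/250000000000000000000000000000, -649551221541/125000000000000000000000000000, 41230618641/2500000000000000000000000000000] : List ℝ).getD k 0) ?_ ?_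
  · rintro z ⟨hz1, hz2⟩
    have hlow : (753/1000 : ℝ) ^ 4 ≤ phi 1 z := le_trans (le_trans (by norm_num) phi_tab_10.1.le)
      (phi_antitone ⟨by linarith, by linarith⟩ ⟨by norm_num, by norm_num⟩ hz2)
    have hup : phi 1 z ≤ (849/1000 : ℝ) ^ 4 := (phi_antitone ⟨by norm_num, by norm_num⟩ ⟨by linarith, by linarith⟩ hz1).trans
      (le_trans phi_tab_8.2.le (by norm_num))
    rw [H4a_G3_j10096]
    refine (H4a_pow94_j10096 _ (849/1000 : ℝ) (753/1000 : ℝ) (17241/1000000 : ℝ) (-(419439/2500000 : ℝ)) (11080521/10000000 : ℝ) (by norm_num) (by norm_num)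
      hlow hup H4a_Q3_j10096).trans ?_
    exact H4a_mono_j10096 _ _ _ _ _ _ (by norm_num) hlow (H4a_P3_j10096 z) (by norm_num)
  · simp only [Finset.sum_range_succ, Finset.sum_range_zero, List.getD_cons_zero,
      List.getD_cons_succ]
    norm_num

theorem H4a_Q4_j10096 (t : ℝ) (h1 : (123/200 : ℝ) ≤ t) (h2 : t ≤ (377/500 : ℝ)) :
    t ^ 9 ≤ (8777/2500000 : ℝ) + (-(710777/10000000 : ℝ)) * t ^ 4 + (2350761/2500000 : ℝ) * t ^ 8 := by
  have h0 : 0 ≤ t := le_trans (by norm_num) h1
  have h : (8777/2500000 : ℝ) + (-(710777/10000000 : ℝ)) * t ^ 4 + (2350761/2500000 : ℝ) * t ^ 8 - t ^ 9 =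
      (t - (123/200 : ℝ)) ^ 2 * ((377/500 : ℝ) - t) * ((661759753855897283394646216287/53755046905206017312000000000000 : ℝ) * t ^ 0 + (30297296962240838727800433831/537550469052060173120000000000 : ℝ) * t ^ 1 + (926714631736086027211400751/5375504690520601731200000000 : ℝ) * t ^ 2 + (23670454568440624737893667/53755046905206017312000000 : ℝ) * t ^ 3 + (51406431918159226334067/67193808631507521640000 : ℝ) * t ^ 4 + (1402597703516571213969/1343876172630150432800 : ℝ) * t ^ 5 + (1 : ℝ) * t ^ 6) +
      ((29603331572721399335817460329329/1075100938104120346240000000000000000000 : ℝ) + (20030196867835548863407/10751009381041203462400000000000 : ℝ) * t ^ 4 + (86246316843621163/2099806519734610051250000 : ℝ) * t ^ 8) := by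
    ring
  have hR : 0 ≤ (661759753855897283394646216287/53755046905206017312000000000000 : ℝ) * t ^ 0 + (30297296962240838727800433831/537550469052060173120000000000 : ℝ) * t ^ 1 + (926714631736086027211400751/5375504690520601731200000000 : ℝ) * t ^ 2 + (23670454568440624737893667/53755046905206017312000000 : ℝ) * t ^ 3 + (51406431918159226334067/67193808631507521640000 : ℝ) * t ^ 4 + (1402597703516571213969/1343876172630150432800 : ℝ) * t ^ 5 + (1 : ℝ) * t ^ 6 := by positivity
  have hE : 0 ≤ (29603331572721399335817460329329/1075100938104120346240000000000000000000 : ℝ) + (20030196867835548863407/10751009381041203462400000000000 : ℝ) * t ^ 4 + (86246316843621163/2099806519734610051250000 : ℝ) * t ^ 8 := by positivity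
  have hm : 0 ≤ (t - (123/200 : ℝ)) ^ 2 * ((377/500 : ℝ) - t) * ((661759753855897283394646216287/53755046905206017312000000000000 : ℝ) * t ^ 0 + (30297296962240838727800433831/537550469052060173120000000000 : ℝ) * t ^ 1 + (926714631736086027211400751/5375504690520601731200000000 : ℝ) * t ^ 2 + (23670454568440624737893667/53755046905206017312000000 : ℝ) * t ^ 3 + (51406431918159226334067/67193808631507521640000 : ℝ) * t ^ 4 + (1402597703516571213969/1343876172630150432800 : ℝ) * t ^ 5 + (1 : ℝ) * t ^ 6) :=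
    mul_nonneg (mul_nonneg (sq_nonneg _) (by linarith)) hR
  linarith

theorem H4a_P4_j10096 (z : ℝ) : phi 1 z ≤ (1 : ℝ) * z ^ 0 + (-(7278127/50000000 : ℝ)) * z ^ 2 + (6854183/1000000000 : ℝ) * z ^ 4 + (-(197269/1250000000 : ℝ)) * z ^ 6 + (214569/100000000000 : ℝ) * z ^ 8 + (-(19221/1000000000000 : ℝ)) * z ^ 10 + (1219/10000000000000 : ℝ) * z ^ 12 + (29/50000000000000 : ℝ) * z ^ 14 := by
  have h := (abs_le.mp (phi_taylor 7 z)).2
  have m1 := mom_1
  have m2 := mom_2
  have m3 := mom_3
  have m4 := mom_4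
  have m5 := mom_5
  have m6 := mom_6
  have m7 := mom_7
  simp only [Finset.sum_range_succ, Finset.sum_range_zero, mom_zero] at h
  norm_num [Nat.factorial] at h
  have q1 : 0 ≤ z ^ 2 := by positivity
  have q2 : 0 ≤ z ^ 4 := by positivity
  have q3 : 0 ≤ z ^ 6 := by positivity
  have q4 : 0 ≤ z ^ 8 := by positivity
  have q5 : 0 ≤ z ^ 10 := by positivity
  have q6 : 0 ≤ z ^ 12 := by positivity
  have q7 : 0 ≤ z ^ 14 := by positivity
  have e1 : (7278127/50000000 : ℝ) * z ^ 2 ≤ mom 1 * z ^ 2 / 2 := by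
    have h5 : (7278127/50000000 : ℝ) * 2 ≤ mom 1 := by linarith [m1.1]
    have h6 : ((7278127/50000000 : ℝ) * 2) * z ^ 2 ≤ mom 1 * z ^ 2 := mul_le_mul_of_nonneg_right h5 q1
    rw [le_div_iff₀ (by norm_num)]
    linarith
  have e2 : mom 2 * z ^ 4 / 24 ≤ (6854183/1000000000 : ℝ) * z ^ 4 := by
    have h5 : mom 2 ≤ (6854183/1000000000 : ℝ) * 24 := by linarith [m2.2]
    have h6 : mom 2 * z ^ 4 ≤ ((6854183/1000000000 : ℝ) * 24) * z ^ 4 := mul_le_mul_of_nonneg_right h5 q2
    rw [div_le_iff₀ (by norm_num)]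
    linarith
  have e3 : (197269/1250000000 : ℝ) * z ^ 6 ≤ mom 3 * z ^ 6 / 720 := by
    have h5 : (197269/1250000000 : ℝ) * 720 ≤ mom 3 := by linarith [m3.1]
    have h6 : ((197269/1250000000 : ℝ) * 720) * z ^ 6 ≤ mom 3 * z ^ 6 := mul_le_mul_of_nonneg_right h5 q3
    rw [le_div_iff₀ (by norm_num)]
    linarith
  have e4 : mom 4 * z ^ 8 / 40320 ≤ (214569/100000000000 : ℝ) * z ^ 8 := by
    have h5 : mom 4 ≤ (214569/100000000000 : ℝ) * 40320 := by linarith [m4.2]
    have h6 : mom 4 * z ^ 8 ≤ ((214569/100000000000 : ℝ) * 40320) * z ^ 8 := mul_le_mul_of_nonneg_right h5 q4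
    rw [div_le_iff₀ (by norm_num)]
    linarith
  have e5 : (19221/1000000000000 : ℝ) * z ^ 10 ≤ mom 5 * z ^ 10 / 3628800 := by
    have h5 : (19221/1000000000000 : ℝ) * 3628800 ≤ mom 5 := by linarith [m5.1]
    have h6 : ((19221/1000000000000 : ℝ) * 3628800) * z ^ 10 ≤ mom 5 * z ^ 10 := mul_le_mul_of_nonneg_right h5 q5
    rw [le_div_iff₀ (by norm_num)]
    linarith
  have e6 : mom 6 * z ^ 12 / 479001600 ≤ (1219/10000000000000 : ℝ) * z ^ 12 := by
    have h5 : mom 6 ≤ (1219/10000000000000 : ℝ) * 479001600 := by linarith [m6.2]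
    have h6 : mom 6 * z ^ 12 ≤ ((1219/10000000000000 : ℝ) * 479001600) * z ^ 12 := mul_le_mul_of_nonneg_right h5 q6
    rw [div_le_iff₀ (by norm_num)]
    linarith
  have e7 : mom 7 * z ^ 14 / 87178291200 ≤ (29/50000000000000 : ℝ) * z ^ 14 := by
    have h5 : mom 7 ≤ (29/50000000000000 : ℝ) * 87178291200 := by linarith [m7.2]
    have h6 : mom 7 * z ^ 14 ≤ ((29/50000000000000 : ℝ) * 87178291200) * z ^ 14 := mul_le_mul_of_nonneg_right h5 q7
    rw [div_le_iff₀ (by norm_num)]
    linarith
  linarith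

theorem H4a_G4_j10096 (z : ℝ) : ∑ k ∈ Finset.range 15, ([69819/80000, -131699971562497/500000000000000, 202040330855478781169/6250000000000000000000, -135117376215635688401/62500000000000000000000, 45629669435081365701/500000000000000000000000, -16602495085560712131/6250000000000000000000000, 7069895127501155693/125000000000000000000000000, -1146119972946654877/1250000000000000000000000000, 57231226564720047/5000000000000000000000000000, -13282870240626903/125000000000000000000000000000, 1667865942677991/2500000000000000000000000000000, -25824042837117/12500000000000000000000000000000, -69928087467/10000000000000000000000000000000, 83101752111/625000000000000000000000000000000, 1976990001/6250000000000000000000000000000000] : List ℝ).getD k 0 * z ^ (2 * k) =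
    (8777/2500000 : ℝ) + (-(710777/10000000 : ℝ)) * ((1 : ℝ) * z ^ 0 + (-(7278127/50000000 : ℝ)) * z ^ 2 + (6854183/1000000000 : ℝ) * z ^ 4 + (-(197269/1250000000 : ℝ)) * z ^ 6 + (214569/100000000000 : ℝ) * z ^ 8 + (-(19221/1000000000000 : ℝ)) * z ^ 10 + (1219/10000000000000 : ℝ) * z ^ 12 + (29/50000000000000 : ℝ) * z ^ 14) + (2350761/2500000 : ℝ) * ((1 : ℝ) * z ^ 0 + (-(7278127/50000000 : ℝ)) * z ^ 2 + (6854183/1000000000 : ℝ) * z ^ 4 + (-(197269/1250000000 : ℝ)) * z ^ 6 + (214569/100000000000 : ℝ) * z ^ 8 + (-(19221/1000000000000 : ℝ)) * z ^ 10 + (1219/10000000000000 : ℝ) * z ^ 12 + (29/50000000000000 : ℝ) * z ^ 14) ^ 2 := by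
  simp only [Finset.sum_range_succ, Finset.sum_range_zero, List.getD_cons_zero,
    List.getD_cons_succ]
  ring

theorem H4a_c4_j10096 : ∫ z in (2.5 : ℝ)..3, phi 1 z ^ (9 / 4 : ℝ) ≤ (19829/1000000 : ℝ) := by
  refine H4a_cell_j10096 _ _ _ (by norm_num) 15 (fun k => ([69819/80000, -131699971562497/500000000000000, 202040330855478781169/6250000000000000000000, -135117376215635688401/62500000000000000000000, 45629669435081365701/500000000000000000000000, -16602495085560712131/6250000000000000000000000, 7069895127501155693/125000000000000000000000000, -1146119972946654877/1250000000000000000000000000, 57231226564720047/5000000000000000000000000000, -13282870240626903/125000000000000000000000000000, 1667865942677991/2500000000000000000000000000000, -25824042837117/12500000000000000000000000000000, -69928087467/10000000000000000000000000000000, 83101752111/625000000000000000000000000000000, 1976990001/6250000000000000000000000000000000] : List ℝ).getD k 0) ?_ ?_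
  · rintro z ⟨hz1, hz2⟩
    have hlow : (123/200 : ℝ) ^ 4 ≤ phi 1 z := le_trans (le_trans (by norm_num) phi_tab_12.1.le)
      (phi_antitone ⟨by linarith, by linarith⟩ ⟨by norm_num, by norm_num⟩ hz2)
    have hup : phi 1 z ≤ (377/500 : ℝ) ^ 4 := (phi_antitone ⟨by norm_num, by norm_num⟩ ⟨by linarith, by linarith⟩ hz1).trans
      (le_trans phi_tab_10.2.le (by norm_num))
    rw [H4a_G4_j10096]
    refine (H4a_pow94_j10096 _ (377/500 : ℝ) (123/200 : ℝ) (8777/2500000 : ℝ) (-(710777/10000000 : ℝ)) (2350761/2500000 : ℝ) (by norm_num) (by norm_num)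
      hlow hup H4a_Q4_j10096).trans ?_
    exact H4a_mono_j10096 _ _ _ _ _ _ (by norm_num) hlow (H4a_P4_j10096 z) (by norm_num)
  · simp only [Finset.sum_range_succ, Finset.sum_range_zero, List.getD_cons_zero,
      List.getD_cons_succ]
    norm_num

theorem H4a_Q5_j10096 (t : ℝ) (h1 : (0 : ℝ) ≤ t) (h2 : t ≤ (77/125 : ℝ)) :
    t ^ 9 ≤ (0 : ℝ) + (0 : ℝ) * t ^ 4 + (77/125 : ℝ) * t ^ 8 := by
  have h0 : 0 ≤ t := le_trans (by norm_num) h1
  have h : (0 : ℝ) + (0 : ℝ) * t ^ 4 + (77/125 : ℝ) * t ^ 8 - t ^ 9 =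
      (t - (0 : ℝ)) ^ 2 * ((77/125 : ℝ) - t) * ((0 : ℝ) * t ^ 0 + (0 : ℝ) * t ^ 1 + (0 : ℝ) * t ^ 2 + (0 : ℝ) * t ^ 3 + (0 : ℝ) * t ^ 4 + (0 : ℝ) * t ^ 5 + (1 : ℝ) * t ^ 6) +
      ((0 : ℝ) + (0 : ℝ) * t ^ 4 + (0 : ℝ) * t ^ 8) := by
    ring
  have hR : 0 ≤ (0 : ℝ) * t ^ 0 + (0 : ℝ) * t ^ 1 + (0 : ℝ) * t ^ 2 + (0 : ℝ) * t ^ 3 + (0 : ℝ) * t ^ 4 + (0 : ℝ) * t ^ 5 + (1 : ℝ) * t ^ 6 := by positivity
  have hE : 0 ≤ (0 : ℝ) + (0 : ℝ) * t ^ 4 + (0 : ℝ) * t ^ 8 := by positivity
  have hm : 0 ≤ (t - (0 : ℝ)) ^ 2 * ((77/125 : ℝ) - t) * ((0 : ℝ) * t ^ 0 + (0 : ℝ) * t ^ 1 + (0 : ℝ) * t ^ 2 + (0 : ℝ) * t ^ 3 + (0 : ℝ) * t ^ 4 + (0 : ℝ) * t ^ 5 + (1 : ℝ) * t ^ 6) :=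
    mul_nonneg (mul_nonneg (sq_nonneg _) (by linarith)) hR
  linarith

theorem H4a_P5_j10096 (z : ℝ) : phi 1 z ≤ (1 : ℝ) * z ^ 0 + (-(145562547/1000000000 : ℝ)) * z ^ 2 + (2741673/400000000 : ℝ) * z ^ 4 + (-(7890763/50000000000 : ℝ)) * z ^ 6 + (1072843/500000000000 : ℝ) * z ^ 8 + (-(38443/2000000000000 : ℝ)) * z ^ 10 + (1219/10000000000000 : ℝ) * z ^ 12 + (-(23/40000000000000 : ℝ)) * z ^ 14 + (11/5000000000000000 : ℝ) * z ^ 16 := by
  have h := (abs_le.mp (phi_taylor 8 z)).2
  have m1 := mom_1
  have m2 := mom_2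
  have m3 := mom_3
  have m4 := mom_4
  have m5 := mom_5
  have m6 := mom_6
  have m7 := mom_7
  have m8 := mom_8
  simp only [Finset.sum_range_succ, Finset.sum_range_zero, mom_zero] at h
  norm_num [Nat.factorial] at h
  have q1 : 0 ≤ z ^ 2 := by positivity
  have q2 : 0 ≤ z ^ 4 := by positivity
  have q3 : 0 ≤ z ^ 6 := by positivity
  have q4 : 0 ≤ z ^ 8 := by positivity
  have q5 : 0 ≤ z ^ 10 := by positivity
  have q6 : 0 ≤ z ^ 12 := by positivity
  have q7 : 0 ≤ z ^ 14 := by positivity
  have q8 : 0 ≤ z ^ 16 := by positivity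
  have e1 : (145562547/1000000000 : ℝ) * z ^ 2 ≤ mom 1 * z ^ 2 / 2 := by
    have h5 : (145562547/1000000000 : ℝ) * 2 ≤ mom 1 := by linarith [m1.1]
    have h6 : ((145562547/1000000000 : ℝ) * 2) * z ^ 2 ≤ mom 1 * z ^ 2 := mul_le_mul_of_nonneg_right h5 q1
    rw [le_div_iff₀ (by norm_num)]
    linarith
  have e2 : mom 2 * z ^ 4 / 24 ≤ (2741673/400000000 : ℝ) * z ^ 4 := by
    have h5 : mom 2 ≤ (2741673/400000000 : ℝ) * 24 := by linarith [m2.2]
    have h6 : mom 2 * z ^ 4 ≤ ((2741673/400000000 : ℝ) * 24) * z ^ 4 := mul_le_mul_of_nonneg_right h5 q2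
    rw [div_le_iff₀ (by norm_num)]
    linarith
  have e3 : (7890763/50000000000 : ℝ) * z ^ 6 ≤ mom 3 * z ^ 6 / 720 := by
    have h5 : (7890763/50000000000 : ℝ) * 720 ≤ mom 3 := by linarith [m3.1]
    have h6 : ((7890763/50000000000 : ℝ) * 720) * z ^ 6 ≤ mom 3 * z ^ 6 := mul_le_mul_of_nonneg_right h5 q3
    rw [le_div_iff₀ (by norm_num)]
    linarith
  have e4 : mom 4 * z ^ 8 / 40320 ≤ (1072843/500000000000 : ℝ) * z ^ 8 := by
    have h5 : mom 4 ≤ (1072843/500000000000 : ℝ) * 40320 := by linarith [m4.2]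
    have h6 : mom 4 * z ^ 8 ≤ ((1072843/500000000000 : ℝ) * 40320) * z ^ 8 := mul_le_mul_of_nonneg_right h5 q4
    rw [div_le_iff₀ (by norm_num)]
    linarith
  have e5 : (38443/2000000000000 : ℝ) * z ^ 10 ≤ mom 5 * z ^ 10 / 3628800 := by
    have h5 : (38443/2000000000000 : ℝ) * 3628800 ≤ mom 5 := by linarith [m5.1]
    have h6 : ((38443/2000000000000 : ℝ) * 3628800) * z ^ 10 ≤ mom 5 * z ^ 10 := mul_le_mul_of_nonneg_right h5 q5
    rw [le_div_iff₀ (by norm_num)]
    linarith
  have e6 : mom 6 * z ^ 12 / 479001600 ≤ (1219/10000000000000 : ℝ) * z ^ 12 := by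
    have h5 : mom 6 ≤ (1219/10000000000000 : ℝ) * 479001600 := by linarith [m6.2]
    have h6 : mom 6 * z ^ 12 ≤ ((1219/10000000000000 : ℝ) * 479001600) * z ^ 12 := mul_le_mul_of_nonneg_right h5 q6
    rw [div_le_iff₀ (by norm_num)]
    linarith
  have e7 : (23/40000000000000 : ℝ) * z ^ 14 ≤ mom 7 * z ^ 14 / 87178291200 := by
    have h5 : (23/40000000000000 : ℝ) * 87178291200 ≤ mom 7 := by linarith [m7.1]
    have h6 : ((23/40000000000000 : ℝ) * 87178291200) * z ^ 14 ≤ mom 7 * z ^ 14 := mul_le_mul_of_nonneg_right h5 q7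
    rw [le_div_iff₀ (by norm_num)]
    linarith
  have e8 : mom 8 * z ^ 16 / 20922789888000 ≤ (11/5000000000000000 : ℝ) * z ^ 16 := by
    have h5 : mom 8 ≤ (11/5000000000000000 : ℝ) * 20922789888000 := by linarith [m8.2]
    have h6 : mom 8 * z ^ 16 ≤ ((11/5000000000000000 : ℝ) * 20922789888000) * z ^ 16 := mul_le_mul_of_nonneg_right h5 q8
    rw [div_le_iff₀ (by norm_num)]
    linarith
  linarith

theorem H4a_G5_j10096 (z : ℝ) : ∑ k ∈ Finset.range 17, ([77/125, -11208316119/62500000000, 2687055146862795093/125000000000000000000, -35590247686927087/25000000000000000000, 748556825519893313/12500000000000000000000, -13602508270766723/7812500000000000000000, 23161278196432761/625000000000000000000000, -3762903277759857/6250000000000000000000000, 481777722323051/62500000000000000000000000, -49851629661603/625000000000000000000000000, 1700514602017/2500000000000000000000000000, -2360569673/488281250000000000000000000, 17866061059/625000000000000000000000000000, -43266223/312500000000000000000000000000,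 13351569/25000000000000000000000000000000, -19481/12500000000000000000000000000000, 9317/3125000000000000000000000000000000] : List ℝ).getD k 0 * z ^ (2 * k) =
    (0 : ℝ) + (0 : ℝ) * ((1 : ℝ) * z ^ 0 + (-(145562547/1000000000 : ℝ)) * z ^ 2 + (2741673/400000000 : ℝ) * z ^ 4 + (-(7890763/50000000000 : ℝ)) * z ^ 6 + (1072843/500000000000 : ℝ) * z ^ 8 + (-(38443/2000000000000 : ℝ)) * z ^ 10 + (1219/10000000000000 : ℝ) * z ^ 12 + (-(23/40000000000000 : ℝ)) * z ^ 14 + (11/5000000000000000 : ℝ) * z ^ 16) + (77/125 : ℝ) * ((1 : ℝ) * z ^ 0 + (-(145562547/1000000000 : ℝ)) * z ^ 2 + (2741673/400000000 : ℝ) * z ^ 4 + (-(7890763/50000000000 : ℝ)) * z ^ 6 + (1072843/500000000000 : ℝ) * z ^ 8 + (-(38443/2000000000000 : ℝ)) * z ^ 10 + (1219/10000000000000 : ℝ) * z ^ 12 + (-(23/40000000000000 : ℝ)) * z ^ 14 + (11/5000000000000000 : ℝ) * z ^ 16) ^ 2 := by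
  simp only [Finset.sum_range_succ, Finset.sum_range_zero, List.getD_cons_zero,
    List.getD_cons_succ]
  ring

theorem H4a_c5_j10096 : ∫ z in (3 : ℝ)..z0, phi 1 z ^ (9 / 4 : ℝ) ≤ (387/200000 : ℝ) := by
  obtain ⟨hz0a, hz0b⟩ := z0_bounds
  have hpos : ∀ z : ℝ, 0 ≤ ∑ k ∈ Finset.range 17, ([77/125, -11208316119/62500000000, 2687055146862795093/125000000000000000000, -35590247686927087/25000000000000000000, 748556825519893313/12500000000000000000000, -13602508270766723/7812500000000000000000, 23161278196432761/625000000000000000000000, -3762903277759857/6250000000000000000000000, 481777722323051/62500000000000000000000000, -49851629661603/625000000000000000000000000, 1700514602017/2500000000000000000000000000, -2360569673/488281250000000000000000000, 17866061059/625000000000000000000000000000, -43266223/312500000000000000000000000000, 13351569/25000000000000000000000000000000, -19481/12500000000000000000000000000000, 9317/3125000000000000000000000000000000] : List ℝ).getD k 0 * z ^ (2 * k)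 := by
    intro z
    rw [H4a_G5_j10096]
    norm_num
    positivity
  have hcont : Continuous (fun z : ℝ => ∑ k ∈ Finset.range 17,
      ([77/125, -11208316119/62500000000, 2687055146862795093/125000000000000000000, -35590247686927087/25000000000000000000, 748556825519893313/12500000000000000000000, -13602508270766723/7812500000000000000000, 23161278196432761/625000000000000000000000, -3762903277759857/6250000000000000000000000, 481777722323051/62500000000000000000000000, -49851629661603/625000000000000000000000000, 1700514602017/2500000000000000000000000000, -2360569673/488281250000000000000000000, 17866061059/625000000000000000000000000000, -43266223/312500000000000000000000000000, 13351569/25000000000000000000000000000000, -19481/12500000000000000000000000000000, 9317/3125000000000000000000000000000000] : List ℝ).getD k 0 * z ^ (2 * k)) :=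
    continuous_finsetSum _ fun k _ => continuous_const.mul (continuous_pow _)
  have h1 : ∫ z in (3 : ℝ)..z0, phi 1 z ^ (9 / 4 : ℝ) ≤ ∫ z in (3 : ℝ)..z0,
      ∑ k ∈ Finset.range 17, ([77/125, -11208316119/62500000000, 2687055146862795093/125000000000000000000, -35590247686927087/25000000000000000000, 748556825519893313/12500000000000000000000, -13602508270766723/7812500000000000000000, 23161278196432761/625000000000000000000000, -3762903277759857/6250000000000000000000000, 481777722323051/62500000000000000000000000, -49851629661603/625000000000000000000000000, 1700514602017/2500000000000000000000000000, -2360569673/488281250000000000000000000, 17866061059/625000000000000000000000000000, -43266223/312500000000000000000000000000, 13351569/25000000000000000000000000000000, -19481/12500000000000000000000000000000, 9317/3125000000000000000000000000000000] : List ℝ).getD k 0 * z ^ (2 * k) := by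
    refine intervalIntegral.integral_mono_on (by linarith)
      ((phi_contN.rpow_const (fun _ => Or.inr (by norm_num))).intervalIntegrable _ _)
      (hcont.intervalIntegrable _ _) ?_
    rintro z ⟨hz1, hz2⟩
    have hlow : (0 : ℝ) ^ 4 ≤ phi 1 z := by
      have := phi_nonneg z (by linarith) hz2
      simpa using this
    have hup : phi 1 z ≤ (77/125 : ℝ) ^ 4 := (phi_antitone ⟨by norm_num, by norm_num⟩ ⟨by linarith, by linarith⟩ hz1).trans
      (le_trans phi_tab_12.2.le (by norm_num))
    rw [H4a_G5_j10096]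
    refine (H4a_pow94_j10096 _ (77/125 : ℝ) 0 (0 : ℝ) (0 : ℝ) (77/125 : ℝ) (by norm_num) (by norm_num)
      hlow hup (fun t h1 h2 => H4a_Q5_j10096 t h1 h2)).trans ?_
    exact H4a_mono_j10096 _ _ _ _ _ _ (by norm_num) hlow (H4a_P5_j10096 z) (by norm_num)
  have h2 : ∫ z in (3 : ℝ)..z0,
      ∑ k ∈ Finset.range 17, ([77/125, -11208316119/62500000000, 2687055146862795093/125000000000000000000, -35590247686927087/25000000000000000000, 748556825519893313/12500000000000000000000, -13602508270766723/7812500000000000000000, 23161278196432761/625000000000000000000000, -3762903277759857/6250000000000000000000000, 481777722323051/62500000000000000000000000, -49851629661603/625000000000000000000000000, 1700514602017/2500000000000000000000000000, -2360569673/488281250000000000000000000, 17866061059/625000000000000000000000000000, -43266223/312500000000000000000000000000, 13351569/25000000000000000000000000000000, -19481/12500000000000000000000000000000, 9317/3125000000000000000000000000000000] : List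 ℝ).getD k 0 * z ^ (2 * k) ≤ ∫ z in (3 : ℝ)..3.4948,
      ∑ k ∈ Finset.range 17, ([77/125, -11208316119/62500000000, 2687055146862795093/125000000000000000000, -35590247686927087/25000000000000000000, 748556825519893313/12500000000000000000000, -13602508270766723/7812500000000000000000, 23161278196432761/625000000000000000000000, -3762903277759857/6250000000000000000000000, 481777722323051/62500000000000000000000000, -49851629661603/625000000000000000000000000, 1700514602017/2500000000000000000000000000, -2360569673/488281250000000000000000000, 17866061059/625000000000000000000000000000, -43266223/312500000000000000000000000000, 13351569/25000000000000000000000000000000, -19481/12500000000000000000000000000000, 9317/3125000000000000000000000000000000] : List ℝ).getD k 0 * z ^ (2 * k) := by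
    refine intervalIntegral.integral_mono_interval le_rfl (by linarith) hz0b.le
      (Filter.Eventually.of_forall hpos) (hcont.intervalIntegrable _ _)
  refine h1.trans (h2.trans ?_)
  rw [H4a_int_even_j10096]
  simp only [Finset.sum_range_succ, Finset.sum_range_zero, List.getD_cons_zero,
      List.getD_cons_succ]
  norm_num

theorem H4a_tail_j10096 : Tl (9 / 4) ≤ 0.08258 := by
  refine (Tl_mid (9 / 4) (by norm_num) (by norm_num)).trans ?_
  have e1 : (0.1438 : ℝ) ^ ((4 - 9 / 4 : ℝ) / 2) = (0.1438 ^ 7 : ℝ) ^ (1 / 8 : ℝ) := by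
    rw [← Real.rpow_natCast, ← Real.rpow_mul (by norm_num)]
    norm_num
  have e2 : (0.0017 : ℝ) ^ ((9 / 4 - 2 : ℝ) / 2) = (0.0017 : ℝ) ^ (1 / 8 : ℝ) := by
    norm_num
  have e3 : (0.08258 : ℝ) = (0.08258 ^ 8 : ℝ) ^ (1 / 8 : ℝ) := by
    rw [← Real.rpow_natCast, ← Real.rpow_mul (by norm_num)]
    norm_num
  rw [e1, e2, ← Real.mul_rpow (by norm_num) (by norm_num), e3]
  exact Real.rpow_le_rpow (by norm_num) (by norm_num) (by norm_num)

theorem Ip_node1 : Ip (9 / 4) ≤ 2.9943 := by
  obtain ⟨-, h⟩ := Ip_split (9 / 4) (by norm_num)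
  have hc : Continuous (fun z => phi 1 z ^ (9 / 4 : ℝ)) :=
    phi_contN.rpow_const (fun _ => Or.inr (by norm_num))
  have hi : ∀ a b : ℝ, IntervalIntegrable (fun z => phi 1 z ^ (9 / 4 : ℝ)) volume a b :=
    fun a b => hc.intervalIntegrable _ _
  have hs : ∫ z in (0 : ℝ)..z0, phi 1 z ^ (9 / 4 : ℝ) =
      (∫ z in (0 : ℝ)..1.25, phi 1 z ^ (9 / 4 : ℝ)) + (∫ z in (1.25 : ℝ)..2, phi 1 z ^ (9 / 4 : ℝ)) +
      (∫ z in (2 : ℝ)..2.5, phi 1 z ^ (9 / 4 : ℝ)) + (∫ z in (2.5 : ℝ)..3, phi 1 z ^ (9 / 4 : ℝ)) +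
      (∫ z in (3 : ℝ)..z0, phi 1 z ^ (9 / 4 : ℝ)) := by
    rw [intervalIntegral.integral_add_adjacent_intervals (hi _ _) (hi _ _),
      intervalIntegral.integral_add_adjacent_intervals (hi _ _) (hi _ _),
      intervalIntegral.integral_add_adjacent_intervals (hi _ _) (hi _ _),
      intervalIntegral.integral_add_adjacent_intervals (hi _ _) (hi _ _)]
  rw [h, hs]
  have h1 := H4a_c1_j10096
  have h2 := H4a_c2_j10096
  have h3 := H4a_c3_j10096
  have h4 := H4a_c4_j10096
  have h5 := H4a_c5_j10096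
  have h6 := H4a_tail_j10096
  norm_num at h1 h2 h3 h4 h5 h6 ⊢
  linarith



end Pool.Agent.Helper82.GC
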