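import Pool.Agent.Helper82.GC.B1
import Pool.Agent.Helper82.GC.J10073
import Pool.Agent.Helper82.GC.J10089
import Pool.Agent.Helper82.GC.J10125

set_option autoImplicit false

open MeasureTheory Set

namespace Pool.Agent.Helper82.GC


theorem h5b_rpow_le_j10126 (m n : ℕ) (hn : 0 < n) {x κ : ℝ} (hx : 0 ≤ x) (hκ : 0 ≤ κ)
    (h : x ^ m ≤ κ ^ n) : x ^ ((m : ℝ) / n) ≤ κ := by
  have h1 : x ^ ((m : ℝ) / n) = (x ^ m) ^ ((n : ℝ)⁻¹) := by
    rw [← Real.rpow_natCast x m, ← Real.rpow_mul hx, div_eq_mul_inv]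
  rw [h1]
  calc (x ^ m) ^ ((n : ℝ)⁻¹) ≤ (κ ^ n) ^ ((n : ℝ)⁻¹) :=
        Real.rpow_le_rpow (pow_nonneg hx m) h (by positivity)
    _ = κ := Real.pow_rpow_inv_natCast hκ hn.ne'

theorem h5b_Tl_big_j10126 (b κ T s : ℝ) (m n : ℕ) (hn : 0 < n) (h0 : 0 < s) (hsb : s ≤ b)
    (hb : b ≤ 1 / 4) (hq : (m : ℝ) / n = 1 / b - 4) (hκ0 : 0 ≤ κ)
    (hκ : (0.1496 : ℝ) ^ m ≤ κ ^ n) (hT : κ * 0.0017 ≤ T) : Tl (1 / s) ≤ T := by
  have hp : 4 ≤ 1 / s := by
    rw [le_div_iff₀ h0]; linarith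
  have hbs : 1 / b ≤ 1 / s := one_div_le_one_div_of_le h0 hsb
  have h1 := Tl_big (1 / s) hp
  have h2 : (0.1496 : ℝ) ^ (1 / s - 4) ≤ (0.1496 : ℝ) ^ ((m : ℝ) / n) :=
    Real.rpow_le_rpow_of_exponent_ge (by norm_num) (by norm_num) (by rw [hq]; linarith)
  have h3 := h5b_rpow_le_j10126 m n hn (by norm_num : (0:ℝ) ≤ 0.1496) hκ0 hκ
  nlinarith

theorem h5b_Tl_mid_j10126 (b κ T s : ℝ) (m n : ℕ) (hn : 0 < n) (h0 : 0 < s) (hsb : s ≤ b)
    (hb2 : b ≤ 1 / 2) (hx : (m : ℝ) / n = (4 - 1 / b) / 2) (hκ0 : 1 ≤ κ)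
    (hκ : (84.6 : ℝ) ^ m ≤ κ ^ n) (hT : 0.0017 * κ ≤ T) : Tl (1 / s) ≤ T := by
  have hbs : 1 / b ≤ 1 / s := one_div_le_one_div_of_le h0 hsb
  rcases le_or_gt 4 (1 / s) with hp | hp
  · have h1 := Tl_big (1 / s) hp
    have h2 : (0.1496 : ℝ) ^ (1 / s - 4) ≤ 1 :=
      Real.rpow_le_one (by norm_num) (by norm_num) (by linarith)
    nlinarith
  · have hp2 : 2 ≤ 1 / s := by
      rw [le_div_iff₀ h0]; linarith
    have h1 := Tl_mid (1 / s) hp2 hp.le
    have e1 : (1 / s - 2) / 2 = 1 - (4 - 1 / s) / 2 := by ring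
    rw [e1, Real.rpow_sub (by norm_num), Real.rpow_one] at h1
    have e2 : (0.1438 : ℝ) ^ ((4 - 1 / s) / 2) * (0.0017 / 0.0017 ^ ((4 - 1 / s) / 2)) =
        0.0017 * (0.1438 / 0.0017) ^ ((4 - 1 / s) / 2) := by
      rw [Real.div_rpow (by norm_num) (by norm_num)]; ring
    rw [e2] at h1
    have ht0 : 0 ≤ (4 - 1 / s) / 2 := by linarith
    have h2 : (0.1438 / 0.0017 : ℝ) ^ ((4 - 1 / s) / 2) ≤ 84.6 ^ ((4 - 1 / s) / 2) :=
      Real.rpow_le_rpow (by norm_num) (by norm_num) ht0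
    have h3 : (84.6 : ℝ) ^ ((4 - 1 / s) / 2) ≤ 84.6 ^ ((m : ℝ) / n) :=
      Real.rpow_le_rpow_of_exponent_le (by norm_num) (by rw [hx]; linarith)
    have h4 := h5b_rpow_le_j10126 m n hn (by norm_num : (0:ℝ) ≤ 84.6) (by linarith) hκ
    nlinarith

theorem h5b_core_j10126 (s T : ℝ) (h0 : 0 < s) (h1 : s ≤ 0.3) (hT : Tl (1 / s) ≤ T) (hT0 : 0 ≤ T) :
    9 * s ^ 2 / (9 * s + 68) + 179.2 * s ^ 3 / ((17 + 9 * s) * (17 + 15 * s) * (17 + 21 * s)) -
      741900 * s ^ 5 / (((17 + 9 * s) * (17 + 15 * s) * (17 + 21 * s)) * ((17 + 27 * s) * (17 + 33 * s) * (17 + 39 * s))) - 1.045 * Real.sqrt s * T / P1 ≤ ee s := by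
  obtain ⟨hP1l, hP1u⟩ := P1_bounds
  have hP0 : 0 < P1 := by linarith
  obtain ⟨hIp, -⟩ := ee_pos_form s h0 (by linarith)
  have hp0 : 0 < 1 / s := by positivity
  have hp2 : 2 ≤ 1 / s := by rw [le_div_iff₀ h0]; linarith
  have hmain := main_closed (1 / s) hp2
  have hsplit := (Ip_split (1 / s) hp2).2
  -- the quantity w
  set w : ℝ := 179.2 * s ^ 2 / ((17 + 9 * s) * (17 + 15 * s) * (17 + 21 * s)) - 741900 * s ^ 4 / (((17 + 9 * s) * (17 + 15 * s) * (17 + 21 * s)) * ((17 + 27 * s) * (17 + 33 * s) * (17 + 39 * s))) with hw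
  have hwe : (1 - 179.2 * (1 / s) / ((17 * (1 / s) + 9) * (17 * (1 / s) + 15) * (17 * (1 / s) + 21)) +
        741900 * (1 / s) ^ 2 / ((17 * (1 / s) + 9) * (17 * (1 / s) + 15) * (17 * (1 / s) + 21) *
          (17 * (1 / s) + 27) * (17 * (1 / s) + 33) * (17 * (1 / s) + 39))) = 1 - w := by
    rw [hw]
    field_simp
    ring
  rw [hwe] at hmain
  have hQ2 : 0 ≤ 741900 * s ^ 4 / (((17 + 9 * s) * (17 + 15 * s) * (17 + 21 * s)) * ((17 + 27 * s) * (17 + 33 * s) * (17 + 39 * s))) := by positivity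
  have hwu : w ≤ 0.0033 := by
    have : 179.2 * s ^ 2 / ((17 + 9 * s) * (17 + 15 * s) * (17 + 21 * s)) ≤ 0.0033 := by
      rw [div_le_iff₀ (by positivity)]
      nlinarith [mul_nonneg h0.le h0.le, pow_pos h0 3]
    linarith
  set A : ℝ := Real.sqrt (1 / s) / Real.sqrt (1 / s + 9 / 34) with hA
  have hsp : 0 < Real.sqrt (1 / s) := Real.sqrt_pos.2 hp0
  have hsp' : 0 < Real.sqrt (1 / s + 9 / 34) := Real.sqrt_pos.2 (by positivity)
  have hA0 : 0 < A := div_pos hsp hsp'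
  set M : ℝ := A * (1 - w) with hM
  have h1w : 0 < 1 - w := by linarith
  have hM0 : 0 < M := mul_pos hA0 h1w
  set X : ℝ := Real.sqrt (1 / s) * Ip (1 / s) / P1 with hX
  have hX0 : 0 < X := by positivity
  have hXM : X ≤ M + Real.sqrt (1 / s) * T / P1 := by
    rw [hX, div_le_iff₀ hP0]
    have e : (M + Real.sqrt (1 / s) * T / P1) * P1 =
        Real.sqrt (1 / s) * (P1 / Real.sqrt (1 / s + 9 / 34) * (1 - w) + T) := by
      rw [hM, hA]; field_simp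
    rw [e]
    refine mul_le_mul_of_nonneg_left ?_ hsp.le
    rw [hsplit]
    linarith
  have hlog : Real.log X ≤ Real.log M + Real.sqrt (1 / s) * T / P1 / M := by
    have h2 := Real.log_le_sub_one_of_pos (div_pos hX0 hM0)
    rw [Real.log_div hX0.ne' hM0.ne'] at h2
    have h3 : X / M ≤ 1 + Real.sqrt (1 / s) * T / P1 / M := by
      rw [div_le_iff₀ hM0]
      have : (1 + Real.sqrt (1 / s) * T / P1 / M) * M = M + Real.sqrt (1 / s) * T / P1 := by
        field_simp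
      rw [this]; exact hXM
    linarith
  set y : ℝ := 9 * s / 34 with hy
  have hy0 : 0 < y := by positivity
  have hAinv : A⁻¹ = Real.sqrt (1 + y) := by
    rw [hA, inv_div, ← Real.sqrt_div (by positivity)]
    congr 1
    rw [hy]; field_simp
  have hlogA : Real.log A ≤ - (y / (y + 2)) := by
    have h2 : Real.log A = - Real.log (A⁻¹) := by rw [Real.log_inv, neg_neg]
    rw [h2, hAinv, Real.log_sqrt (by positivity)]
    have h3 := Real.le_log_one_add_of_nonneg hy0.le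
    have h4 : 2 * y / (y + 2) = 2 * (y / (y + 2)) := by ring
    rw [h4] at h3
    linarith
  have hlogw : Real.log (1 - w) ≤ - w := by
    have := Real.log_le_sub_one_of_pos h1w
    linarith
  have hlogM : Real.log M ≤ - (y / (y + 2)) - w := by
    rw [hM, Real.log_mul hA0.ne' h1w.ne']
    linarith
  have hMinv : 1 / M ≤ 1.045 := by
    have h2 : 1 / M = Real.sqrt (1 + y) / (1 - w) := by
      rw [hM, ← hAinv]; field_simp
    rw [h2, div_le_iff₀ h1w]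
    have h3 : Real.sqrt (1 + y) ≤ 1 + y / 2 := by
      rw [Real.sqrt_le_left (by positivity)]
      nlinarith [sq_nonneg y]
    have h4 : y ≤ 0.0795 := by rw [hy]; linarith
    nlinarith
  have hee : ee s = - s * Real.log X := by
    unfold ee
    rw [if_neg h0.ne']
  rw [hee]
  have hss : s * Real.sqrt (1 / s) = Real.sqrt s := by
    rw [one_div, Real.sqrt_inv, ← div_eq_mul_inv]
    exact Real.div_sqrt
  have hterm : s * (Real.sqrt (1 / s) * T / P1 / M) ≤ 1.045 * Real.sqrt s * T / P1 := by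
    have h2 : s * (Real.sqrt (1 / s) * T / P1 / M) = (1 / M) * (Real.sqrt s * T / P1) := by
      rw [← hss]; ring
    rw [h2]
    have h3 : 1.045 * Real.sqrt s * T / P1 = 1.045 * (Real.sqrt s * T / P1) := by ring
    rw [h3]
    exact mul_le_mul_of_nonneg_right hMinv (by positivity)
  have hyy : s * (y / (y + 2)) = 9 * s ^ 2 / (9 * s + 68) := by
    rw [hy]; field_simp
    ring
  have hsw : s * w = 179.2 * s ^ 3 / ((17 + 9 * s) * (17 + 15 * s) * (17 + 21 * s)) - 741900 * s ^ 5 / (((17 + 9 * s) * (17 + 15 * s) * (17 + 21 * s)) * ((17 + 27 * s) * (17 + 33 * s) * (17 + 39 * s))) := by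
    rw [hw]; ring
  have hfin : s * Real.log X ≤ s * (- (y / (y + 2)) - w + Real.sqrt (1 / s) * T / P1 / M) :=
    mul_le_mul_of_nonneg_left (by linarith) h0.le
  have e : s * (- (y / (y + 2)) - w + Real.sqrt (1 / s) * T / P1 / M) =
      - (s * (y / (y + 2))) - s * w + s * (Real.sqrt (1 / s) * T / P1 / M) := by ring
  rw [e, hyy, hsw] at hfin
  linarith

theorem h5b_case_j10126 (s b T ρ U : ℝ) (h0 : 0 < s) (hsb : s ≤ b) (hb : b ≤ 0.3)
    (hT : Tl (1 / s) ≤ T) (hT0 : 0 ≤ T) (hρ0 : 0 ≤ ρ) (hρ : b ≤ ρ ^ 2)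
    (hU : 1.045 * ρ * T ≤ U * 4.64568) :
    9 * s ^ 2 / (9 * s + 68) + 179.2 * s ^ 3 / ((17 + 9 * s) * (17 + 15 * s) * (17 + 21 * s)) -
      741900 * s ^ 5 / (((17 + 9 * s) * (17 + 15 * s) * (17 + 21 * s)) * ((17 + 27 * s) * (17 + 33 * s) * (17 + 39 * s))) - U ≤ ee s := by
  have h := h5b_core_j10126 s T h0 (hsb.trans hb) hT hT0
  obtain ⟨hP1l, hP1u⟩ := P1_bounds
  have hP0 : 0 < P1 := by linarith
  have hs : Real.sqrt s ≤ ρ := by
    rw [Real.sqrt_le_left hρ0]; linarith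
  have h2 : 1.045 * Real.sqrt s * T / P1 ≤ U := by
    rw [div_le_iff₀ hP0]
    have h3 : 1.045 * Real.sqrt s * T ≤ 1.045 * ρ * T := by gcongr
    have hU0 : 0 ≤ U := by
      have : 0 ≤ 1.045 * ρ * T := by positivity
      nlinarith
    nlinarith
  linarith

theorem h5b_fin_j10126 (s a c tu : ℝ) (ha : 0 ≤ a) (hs : a ≤ s)
    (hc : 741900 ≤ c * ((17 + 27 * a) * (17 + 33 * a) * (17 + 39 * a))) (hc0 : 0 ≤ c)
    (hN : 0 ≤ 9 * s ^ 2 * ((17 + 9 * s) * (17 + 15 * s) * (17 + 21 * s)) + (179.2 * s ^ 3 - c * s ^ 5) * (9 * s + 68) -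
      tu * (9 * s + 68) * ((17 + 9 * s) * (17 + 15 * s) * (17 + 21 * s))) :
    tu ≤ 9 * s ^ 2 / (9 * s + 68) + 179.2 * s ^ 3 / ((17 + 9 * s) * (17 + 15 * s) * (17 + 21 * s)) - 741900 * s ^ 5 / (((17 + 9 * s) * (17 + 15 * s) * (17 + 21 * s)) * ((17 + 27 * s) * (17 + 33 * s) * (17 + 39 * s))) := by
  have hs0 : 0 ≤ s := ha.trans hs
  have hD1 : 0 < ((17 + 9 * s) * (17 + 15 * s) * (17 + 21 * s)) := by positivity
  have hD2 : 741900 ≤ c * ((17 + 27 * s) * (17 + 33 * s) * (17 + 39 * s)) := hc.trans (by gcongr)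
  have hD2p : 0 < ((17 + 27 * s) * (17 + 33 * s) * (17 + 39 * s)) := by positivity
  have h1 : 741900 * s ^ 5 / (((17 + 9 * s) * (17 + 15 * s) * (17 + 21 * s)) * ((17 + 27 * s) * (17 + 33 * s) * (17 + 39 * s))) ≤ c * s ^ 5 / ((17 + 9 * s) * (17 + 15 * s) * (17 + 21 * s)) := by
    rw [div_le_div_iff₀ (mul_pos hD1 hD2p) hD1]
    have h5 : 0 ≤ s ^ 5 * ((17 + 9 * s) * (17 + 15 * s) * (17 + 21 * s)) := by positivity
    nlinarith [mul_le_mul_of_nonneg_left hD2 h5]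
  have h2 : tu ≤ 9 * s ^ 2 / (9 * s + 68) + (179.2 * s ^ 3 - c * s ^ 5) / ((17 + 9 * s) * (17 + 15 * s) * (17 + 21 * s)) := by
    have e : 9 * s ^ 2 / (9 * s + 68) + (179.2 * s ^ 3 - c * s ^ 5) / ((17 + 9 * s) * (17 + 15 * s) * (17 + 21 * s)) - tu =
        (9 * s ^ 2 * ((17 + 9 * s) * (17 + 15 * s) * (17 + 21 * s)) + (179.2 * s ^ 3 - c * s ^ 5) * (9 * s + 68) -
          tu * (9 * s + 68) * ((17 + 9 * s) * (17 + 15 * s) * (17 + 21 * s))) / ((9 * s + 68) * ((17 + 9 * s) * (17 + 15 * s) * (17 + 21 * s))) := by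
      field_simp
    have h3 : 0 ≤ 9 * s ^ 2 / (9 * s + 68) + (179.2 * s ^ 3 - c * s ^ 5) / ((17 + 9 * s) * (17 + 15 * s) * (17 + 21 * s)) - tu := by
      rw [e]; positivity
    linarith
  have h4 : (179.2 * s ^ 3 - c * s ^ 5) / ((17 + 9 * s) * (17 + 15 * s) * (17 + 21 * s)) = 179.2 * s ^ 3 / ((17 + 9 * s) * (17 + 15 * s) * (17 + 21 * s)) - c * s ^ 5 / ((17 + 9 * s) * (17 + 15 * s) * (17 + 21 * s)) := by
    rw [sub_div]
  rw [h4] at h2
  linarith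

theorem h5b_s2_j10126 (s : ℝ) (ha : 0.1 ≤ s) (hb : s ≤ 0.17) : (0.1323 * s ^ 2 + 0.005 * s ^ 3) ≤ ee s := by
  have h0 : 0 < s := by linarith
  have hT : Tl (1 / s) ≤ (2378997/50000000000 : ℝ) := h5b_Tl_big_j10126 0.17 (139941/5000000 : ℝ) (2378997/50000000000 : ℝ) s 32 17 (by norm_num) h0 hb (by norm_num) (by norm_num) (by norm_num) (by norm_num) (by norm_num)
  have h1 := h5b_case_j10126 s 0.17 (2378997/50000000000 : ℝ) (2577/6250 : ℝ) (883/200000000 : ℝ) h0 hb (by norm_num) hT (by norm_num) (by norm_num)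
    (by norm_num) (by norm_num)
  have hbern : ∀ u v : ℝ, 0 ≤ u → 0 ≤ v → 0 ≤ (351728306549/400000000000 : ℝ) * u ^ 0 * v ^ 7 + (1243167114623/125000000000 : ℝ) * u ^ 1 * v ^ 6 + (3326973210869/80000000000 : ℝ) * u ^ 2 * v ^ 5 + (17555407833397343/200000000000000 : ℝ) * u ^ 3 * v ^ 4 + (410496197631724491/4000000000000000 : ℝ) * u ^ 4 * v ^ 3 + (265289878097840141/4000000000000000 : ℝ) * u ^ 5 * v ^ 2 + (429224508095920523/20000000000000000 : ℝ) * u ^ 6 * v ^ 1 + (6267285139741041/2500000000000000 : ℝ) * u ^ 7 * v ^ 0 := by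
    intro u v hu hv
    positivity
  have hb1 := hbern (s - 0.1) (0.17 - s) (by linarith) (by linarith)
  have h2 := h5b_fin_j10126 s 0.1 (887641/10000 : ℝ) ((0.1323 * s ^ 2 + 0.005 * s ^ 3) + (883/200000000 : ℝ)) (by norm_num) ha (by norm_num) (by norm_num) (by
    have e : 9 * s ^ 2 * ((17 + 9 * s) * (17 + 15 * s) * (17 + 21 * s)) + (179.2 * s ^ 3 - (887641/10000 : ℝ) * s ^ 5) * (9 * s + 68) -
        ((0.1323 * s ^ 2 + 0.005 * s ^ 3) + (883/200000000 : ℝ)) * (9 * s + 68) * ((17 + 9 * s) * (17 + 15 * s) * (17 + 21 * s)) = ((351728306549/400000000000 : ℝ) * (s - 0.1) ^ 0 * (0.17 - s) ^ 7 + (1243167114623/125000000000 : ℝ) * (s - 0.1) ^ 1 * (0.17 - s) ^ 6 + (3326973210869/80000000000 : ℝ) * (s - 0.1) ^ 2 * (0.17 - s) ^ 5 + (17555407833397343/200000000000000 : ℝ) * (s - 0.1) ^ 3 * (0.17 - s) ^ 4 + (410496197631724491/4000000000000000 : ℝ) * (s - 0.1) ^ 4 * (0.17 - s) ^ 3 + (265289878097840141/4000000000000000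 : ℝ) * (s - 0.1) ^ 5 * (0.17 - s) ^ 2 + (429224508095920523/20000000000000000 : ℝ) * (s - 0.1) ^ 6 * (0.17 - s) ^ 1 + (6267285139741041/2500000000000000 : ℝ) * (s - 0.1) ^ 7 * (0.17 - s) ^ 0) * (100000000000000/823543 : ℝ) := by ring
    rw [e]
    exact mul_nonneg hb1 (by norm_num))
  linarith

theorem h5b_l1_j10126 (s : ℝ) (ha : 0.17 ≤ s) (hb : s ≤ 0.18) : (0.0454155 * s - 0.0038726) ≤ ee s := by
  have h0 : 0 < s := by linarith
  have hT : Tl (1 / s) ≤ (110653/1250000000 : ℝ) := h5b_Tl_big_j10126 0.18 (6509/125000 : ℝ) (110653/1250000000 : ℝ) s 14 9 (by norm_num) h0 hb (by norm_num) (by norm_num) (by norm_num) (by norm_num) (by norm_num)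
  have h1 := h5b_case_j10126 s 0.18 (110653/1250000000 : ℝ) (42427/100000 : ℝ) (2113/250000000 : ℝ) h0 hb (by norm_num) hT (by norm_num) (by norm_num)
    (by norm_num) (by norm_num)
  have hbern : ∀ u v : ℝ, 0 ≤ u → 0 ≤ v → 0 ≤ (13132298330734629/20000000000000000 : ℝ) * u ^ 0 * v ^ 6 + (68034826986999377/20000000000000000 : ℝ) * u ^ 1 * v ^ 5 + (139543467485098083/10000000000000000 : ℝ) * u ^ 2 * v ^ 4 + (87720380921058717/2500000000000000 : ℝ) * u ^ 3 * v ^ 3 + (223181623697571/4882812500000 : ℝ) * u ^ 4 * v ^ 2 + (36123884558730357/1250000000000000 : ℝ) * u ^ 5 * v ^ 1 + (4419026978668627/625000000000000 : ℝ) * u ^ 6 * v ^ 0 := by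
    intro u v hu hv
    positivity
  have hb1 := hbern (s - 0.17) (0.18 - s) (by linarith) (by linarith)
  have h2 := h5b_fin_j10126 s 0.17 (25727/400 : ℝ) ((0.0454155 * s - 0.0038726) + (2113/250000000 : ℝ)) (by norm_num) ha (by norm_num) (by norm_num) (by
    have e : 9 * s ^ 2 * ((17 + 9 * s) * (17 + 15 * s) * (17 + 21 * s)) + (179.2 * s ^ 3 - (25727/400 : ℝ) * s ^ 5) * (9 * s + 68) -
        ((0.0454155 * s - 0.0038726) + (2113/250000000 : ℝ)) * (9 * s + 68) * ((17 + 9 * s) * (17 + 15 * s) * (17 + 21 * s)) = ((13132298330734629/20000000000000000 : ℝ) * (s - 0.17) ^ 0 * (0.18 - s) ^ 6 + (68034826986999377/20000000000000000 : ℝ) * (s - 0.17) ^ 1 * (0.18 - s) ^ 5 + (139543467485098083/10000000000000000 : ℝ) * (s - 0.17) ^ 2 * (0.18 - s) ^ 4 + (87720380921058717/2500000000000000 : ℝ) * (s - 0.17) ^ 3 * (0.18 - s) ^ 3 + (223181623697571/4882812500000 : ℝ) * (s - 0.17) ^ 4 * (0.18 - s) ^ 2 + (36123884558730357/1250000000000000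 : ℝ) * (s - 0.17) ^ 5 * (0.18 - s) ^ 1 + (4419026978668627/625000000000000 : ℝ) * (s - 0.17) ^ 6 * (0.18 - s) ^ 0) * 1000000000000 := by ring
    rw [e]
    exact mul_nonneg hb1 (by norm_num))
  linarith

theorem h5b_l2_j10126 (s : ℝ) (ha : 0.18 ≤ s) (hb : s ≤ 0.19) : (0.0454155 * s - 0.0038726) ≤ ee s := by
  have h0 : 0 < s := by linarith
  have hT : Tl (1 / s) ≤ (15427687/100000000000 : ℝ) := h5b_Tl_big_j10126 0.19 (907511/10000000 : ℝ) (15427687/100000000000 : ℝ) s 24 19 (by norm_num) h0 hb (by norm_num) (by norm_num) (by norm_num) (by norm_num) (by norm_num)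
  have h1 := h5b_case_j10126 s 0.19 (15427687/100000000000 : ℝ) (43589/100000 : ℝ) (757/50000000 : ℝ) h0 hb (by norm_num) hT (by norm_num) (by norm_num)
    (by norm_num) (by norm_num)
  have hbern : ∀ u v : ℝ, 0 ≤ u → 0 ≤ v → 0 ≤ (2223224073593727/625000000000000 : ℝ) * u ^ 0 * v ^ 6 + (43489839680378187/1250000000000000 : ℝ) * u ^ 1 * v ^ 5 + (3995972667048819/31250000000000 : ℝ) * u ^ 2 * v ^ 4 + (23486903573123171/100000000000000 : ℝ) * u ^ 3 * v ^ 3 + (463885472886210099/2000000000000000 : ℝ) * u ^ 4 * v ^ 2 + (2362929228333478847/20000000000000000 : ℝ) * u ^ 5 * v ^ 1 + (488726971704732921/20000000000000000 : ℝ) * u ^ 6 * v ^ 0 := by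
    intro u v hu hv
    positivity
  have hb1 := hbern (s - 0.18) (0.19 - s) (by linarith) (by linarith)
  have h2 := h5b_fin_j10126 s 0.18 (76991/1250 : ℝ) ((0.0454155 * s - 0.0038726) + (757/50000000 : ℝ)) (by norm_num) ha (by norm_num) (by norm_num) (by
    have e : 9 * s ^ 2 * ((17 + 9 * s) * (17 + 15 * s) * (17 + 21 * s)) + (179.2 * s ^ 3 - (76991/1250 : ℝ) * s ^ 5) * (9 * s + 68) -
        ((0.0454155 * s - 0.0038726) + (757/50000000 : ℝ)) * (9 * s + 68) * ((17 + 9 * s) * (17 + 15 * s) * (17 + 21 * s)) = ((2223224073593727/625000000000000 : ℝ) * (s - 0.18) ^ 0 * (0.19 - s) ^ 6 + (43489839680378187/1250000000000000 : ℝ) * (s - 0.18) ^ 1 * (0.19 - s) ^ 5 + (3995972667048819/31250000000000 : ℝ) * (s - 0.18) ^ 2 * (0.19 - s) ^ 4 + (23486903573123171/100000000000000 : ℝ) * (s - 0.18) ^ 3 * (0.19 - s) ^ 3 + (463885472886210099/2000000000000000 : ℝ) * (s - 0.18) ^ 4 * (0.19 - s) ^ 2 + (2362929228333478847/20000000000000000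 : ℝ) * (s - 0.18) ^ 5 * (0.19 - s) ^ 1 + (488726971704732921/20000000000000000 : ℝ) * (s - 0.18) ^ 6 * (0.19 - s) ^ 0) * 1000000000000 := by ring
    rw [e]
    exact mul_nonneg hb1 (by norm_num))
  linarith

theorem h5b_l3_j10126 (s : ℝ) (ha : 0.19 ≤ s) (hb : s ≤ 0.21) : (0.0454155 * s - 0.0038726) ≤ ee s := by
  have h0 : 0 < s := by linarith
  have hT : Tl (1 / s) ≤ (19991201/50000000000 : ℝ) := h5b_Tl_big_j10126 0.21 (1175953/5000000 : ℝ) (19991201/50000000000 : ℝ) s 16 21 (by norm_num) h0 hb (by norm_num) (by norm_num) (by norm_num) (by norm_num) (by norm_num)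
  have h1 := h5b_case_j10126 s 0.21 (19991201/50000000000 : ℝ) (22913/50000 : ℝ) (1031/25000000 : ℝ) h0 hb (by norm_num) hT (by norm_num) (by norm_num)
    (by norm_num) (by norm_num)
  have hbern : ∀ u v : ℝ, 0 ≤ u → 0 ≤ v → 0 ≤ (205945788005891929/20000000000000000 : ℝ) * u ^ 0 * v ^ 6 + (590396212700536029/5000000000000000 : ℝ) * u ^ 1 * v ^ 5 + (1867815057450949281/4000000000000000 : ℝ) * u ^ 2 * v ^ 4 + (223570756650258203/250000000000000 : ℝ) * u ^ 3 * v ^ 3 + (3629905717080413751/4000000000000000 : ℝ) * u ^ 4 * v ^ 2 + (2356532115243288999/5000000000000000 : ℝ) * u ^ 5 * v ^ 1 + (1978824182453336559/20000000000000000 : ℝ) * u ^ 6 * v ^ 0 := by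
    intro u v hu hv
    positivity
  have hb1 := hbern (s - 0.19) (0.21 - s) (by linarith) (by linarith)
  have h2 := h5b_fin_j10126 s 0.19 (295101/5000 : ℝ) ((0.0454155 * s - 0.0038726) + (1031/25000000 : ℝ)) (by norm_num) ha (by norm_num) (by norm_num) (by
    have e : 9 * s ^ 2 * ((17 + 9 * s) * (17 + 15 * s) * (17 + 21 * s)) + (179.2 * s ^ 3 - (295101/5000 : ℝ) * s ^ 5) * (9 * s + 68) -
        ((0.0454155 * s - 0.0038726) + (1031/25000000 : ℝ)) * (9 * s + 68) * ((17 + 9 * s) * (17 + 15 * s) * (17 + 21 * s)) = ((205945788005891929/20000000000000000 : ℝ) * (s - 0.19) ^ 0 * (0.21 - s) ^ 6 + (590396212700536029/5000000000000000 : ℝ) * (s - 0.19) ^ 1 * (0.21 - s) ^ 5 + (1867815057450949281/4000000000000000 : ℝ) * (s - 0.19) ^ 2 * (0.21 - s) ^ 4 + (223570756650258203/250000000000000 : ℝ) * (s - 0.19) ^ 3 * (0.21 - s) ^ 3 + (3629905717080413751/4000000000000000 : ℝ) * (s - 0.19) ^ 4 * (0.21 - s)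 ^ 2 + (2356532115243288999/5000000000000000 : ℝ) * (s - 0.19) ^ 5 * (0.21 - s) ^ 1 + (1978824182453336559/20000000000000000 : ℝ) * (s - 0.19) ^ 6 * (0.21 - s) ^ 0) * 15625000000 := by ring
    rw [e]
    exact mul_nonneg hb1 (by norm_num))
  linarith

theorem h5b_l4_j10126 (s : ℝ) (ha : 0.21 ≤ s) (hb : s ≤ 0.24) : (0.0454155 * s - 0.0038726) ≤ ee s := by
  have h0 : 0 < s := by linarith
  have hT : Tl (1 / s) ≤ (387107/312500000 : ℝ) := h5b_Tl_big_j10126 0.24 (22771/31250 : ℝ) (387107/312500000 : ℝ) s 1 6 (by norm_num) h0 hb (by norm_num) (by norm_num) (by norm_num) (by norm_num) (by norm_num)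
  have h1 := h5b_case_j10126 s 0.24 (387107/312500000 : ℝ) (4899/10000 : ℝ) (683/5000000 : ℝ) h0 hb (by norm_num) hT (by norm_num) (by norm_num)
    (by norm_num) (by norm_num)
  have hbern : ∀ u v : ℝ, 0 ≤ u → 0 ≤ v → 0 ≤ (179052266968740349/4000000000000000 : ℝ) * u ^ 0 * v ^ 6 + (71742291879545187/160000000000000 : ℝ) * u ^ 1 * v ^ 5 + (329865865539973689/200000000000000 : ℝ) * u ^ 2 * v ^ 4 + (30133550605682969/10000000000000 : ℝ) * u ^ 3 * v ^ 3 + (36957795709951263/12500000000000 : ℝ) * u ^ 4 * v ^ 2 + (5848170738634059/3906250000000 : ℝ) * u ^ 5 * v ^ 1 + (60187508263949/195312500000 : ℝ) * u ^ 6 * v ^ 0 := by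
    intro u v hu hv
    positivity
  have hb1 := hbern (s - 0.21) (0.24 - s) (by linarith) (by linarith)
  have h2 := h5b_fin_j10126 s 0.21 (108581/2000 : ℝ) ((0.0454155 * s - 0.0038726) + (683/5000000 : ℝ)) (by norm_num) ha (by norm_num) (by norm_num) (by
    have e : 9 * s ^ 2 * ((17 + 9 * s) * (17 + 15 * s) * (17 + 21 * s)) + (179.2 * s ^ 3 - (108581/2000 : ℝ) * s ^ 5) * (9 * s + 68) -
        ((0.0454155 * s - 0.0038726) + (683/5000000 : ℝ)) * (9 * s + 68) * ((17 + 9 * s) * (17 + 15 * s) * (17 + 21 * s)) = ((179052266968740349/4000000000000000 : ℝ) * (s - 0.21) ^ 0 * (0.24 - s) ^ 6 + (71742291879545187/160000000000000 : ℝ) * (s - 0.21) ^ 1 * (0.24 - s) ^ 5 + (329865865539973689/200000000000000 : ℝ) * (s - 0.21) ^ 2 * (0.24 - s) ^ 4 + (30133550605682969/10000000000000 : ℝ) * (s - 0.21) ^ 3 * (0.24 - s) ^ 3 + (36957795709951263/12500000000000 : ℝ) * (s - 0.21) ^ 4 * (0.24 - s) ^ 2 + (5848170738634059/3906250000000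 : ℝ) * (s - 0.21) ^ 5 * (0.24 - s) ^ 1 + (60187508263949/195312500000 : ℝ) * (s - 0.21) ^ 6 * (0.24 - s) ^ 0) * (1000000000000/729 : ℝ) := by ring
    rw [e]
    exact mul_nonneg hb1 (by norm_num))
  linarith

theorem h5b_l5_j10126 (s : ℝ) (ha : 0.24 ≤ s) (hb : s ≤ 0.27) : (0.0454155 * s - 0.0038726) ≤ ee s := by
  have h0 : 0 < s := by linarith
  have hT : Tl (1 / s) ≤ (328117/100000000 : ℝ) := h5b_Tl_mid_j10126 0.27 (19301/10000 : ℝ) (328117/100000000 : ℝ) s 4 27 (by norm_num) h0 hb (by norm_num) (by norm_num) (by norm_num) (by norm_num) (by norm_num)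
  have h1 := h5b_case_j10126 s 0.27 (328117/100000000 : ℝ) (25981/50000 : ℝ) (3837/10000000 : ℝ) h0 hb (by norm_num) hT (by norm_num) (by norm_num)
    (by norm_num) (by norm_num)
  have hbern : ∀ u v : ℝ, 0 ≤ u → 0 ≤ v → 0 ≤ (1539976175433629/9765625000000 : ℝ) * u ^ 0 * v ^ 6 + (100616908234366311/78125000000000 : ℝ) * u ^ 1 * v ^ 5 + (130226891794673163/31250000000000 : ℝ) * u ^ 2 * v ^ 4 + (217155540138526997/31250000000000 : ℝ) * u ^ 3 * v ^ 3 + (1589254887691472781/250000000000000 : ℝ) * u ^ 4 * v ^ 2 + (60856582607278475361/20000000000000000 : ℝ) * u ^ 5 * v ^ 1 + (11954583826424983723/20000000000000000 : ℝ) * u ^ 6 * v ^ 0 := by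
    intro u v hu hv
    positivity
  have hb1 := hbern (s - 0.24) (0.27 - s) (by linarith) (by linarith)
  have h2 := h5b_fin_j10126 s 0.24 (481011/10000 : ℝ) ((0.0454155 * s - 0.0038726) + (3837/10000000 : ℝ)) (by norm_num) ha (by norm_num) (by norm_num) (by
    have e : 9 * s ^ 2 * ((17 + 9 * s) * (17 + 15 * s) * (17 + 21 * s)) + (179.2 * s ^ 3 - (481011/10000 : ℝ) * s ^ 5) * (9 * s + 68) -
        ((0.0454155 * s - 0.0038726) + (3837/10000000 : ℝ)) * (9 * s + 68) * ((17 + 9 * s) * (17 + 15 * s) * (17 + 21 * s)) = ((1539976175433629/9765625000000 : ℝ) * (s - 0.24) ^ 0 * (0.27 - s) ^ 6 + (100616908234366311/78125000000000 : ℝ) * (s - 0.24) ^ 1 * (0.27 - s) ^ 5 + (130226891794673163/31250000000000 : ℝ) * (s - 0.24) ^ 2 * (0.27 - s) ^ 4 + (217155540138526997/31250000000000 : ℝ) * (s - 0.24) ^ 3 * (0.27 - s) ^ 3 + (1589254887691472781/250000000000000 : ℝ) * (s - 0.24) ^ 4 * (0.27 - s) ^ 2 + (60856582607278475361/20000000000000000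 : ℝ) * (s - 0.24) ^ 5 * (0.27 - s) ^ 1 + (11954583826424983723/20000000000000000 : ℝ) * (s - 0.24) ^ 6 * (0.27 - s) ^ 0) * (1000000000000/729 : ℝ) := by ring
    rw [e]
    exact mul_nonneg hb1 (by norm_num))
  linarith

theorem h5b_l6_j10126 (s : ℝ) (ha : 0.27 ≤ s) (hb : s ≤ 0.3) : (0.0454155 * s - 0.0038726) ≤ ee s := by
  have h0 : 0 < s := by linarith
  have hT : Tl (1 / s) ≤ (7463629/1000000000 : ℝ) := h5b_Tl_mid_j10126 0.3 (439037/100000 : ℝ) (7463629/1000000000 : ℝ) s 1 3 (by norm_num) h0 hb (by norm_num) (by norm_num) (by norm_num) (by norm_num) (by norm_num)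
  have h1 := h5b_case_j10126 s 0.3 (7463629/1000000000 : ℝ) (54773/100000 : ℝ) (9199/10000000 : ℝ) h0 hb (by norm_num) hT (by norm_num) (by norm_num)
    (by norm_num) (by norm_num)
  have hbern : ∀ u v : ℝ, 0 ≤ u → 0 ≤ v → 0 ≤ (4962148657959800747/20000000000000000 : ℝ) * u ^ 0 * v ^ 6 + (1607251761262082667/800000000000000 : ℝ) * u ^ 1 * v ^ 5 + (2572823558117640633/400000000000000 : ℝ) * u ^ 2 * v ^ 4 + (212102672665122463/20000000000000 : ℝ) * u ^ 3 * v ^ 3 + (1199022003616647/125000000000 : ℝ) * u ^ 4 * v ^ 2 + (1816203333881643/400000000000 : ℝ) * u ^ 5 * v ^ 1 + (7058914497053/8000000000 : ℝ) * u ^ 6 * v ^ 0 := by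
    intro u v hu hv
    positivity
  have hb1 := hbern (s - 0.27) (0.3 - s) (by linarith) (by linarith)
  have h2 := h5b_fin_j10126 s 0.27 (428199/10000 : ℝ) ((0.0454155 * s - 0.0038726) + (9199/10000000 : ℝ)) (by norm_num) ha (by norm_num) (by norm_num) (by
    have e : 9 * s ^ 2 * ((17 + 9 * s) * (17 + 15 * s) * (17 + 21 * s)) + (179.2 * s ^ 3 - (428199/10000 : ℝ) * s ^ 5) * (9 * s + 68) -
        ((0.0454155 * s - 0.0038726) + (9199/10000000 : ℝ)) * (9 * s + 68) * ((17 + 9 * s) * (17 + 15 * s) * (17 + 21 * s)) = ((4962148657959800747/20000000000000000 : ℝ) * (s - 0.27) ^ 0 * (0.3 - s) ^ 6 + (1607251761262082667/800000000000000 : ℝ) * (s - 0.27) ^ 1 * (0.3 - s) ^ 5 + (2572823558117640633/400000000000000 : ℝ) * (s - 0.27) ^ 2 * (0.3 - s) ^ 4 + (212102672665122463/20000000000000 : ℝ) * (s - 0.27) ^ 3 * (0.3 - s) ^ 3 + (1199022003616647/125000000000 : ℝ) * (s - 0.27) ^ 4 * (0.3 - s) ^ 2 + (1816203333881643/400000000000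 : ℝ) * (s - 0.27) ^ 5 * (0.3 - s) ^ 1 + (7058914497053/8000000000 : ℝ) * (s - 0.27) ^ 6 * (0.3 - s) ^ 0) * (1000000000000/729 : ℝ) := by ring
    rw [e]
    exact mul_nonneg hb1 (by norm_num))
  linarith

theorem h5b_x1_j10126 (s : ℝ) (ha : 0.24 ≤ s) (hb : s ≤ 0.25) : (0.02275 - 0.02646 * (1 - s) ^ 2 - 0.0002 * (1 - s) ^ 3 + 0.000001) ≤ ee s := by
  have h0 : 0 < s := by linarith
  have hT : Tl (1 / s) ≤ (17/10000 : ℝ) := h5b_Tl_big_j10126 0.25 1 (17/10000 : ℝ) s 0 1 (by norm_num) h0 hb (by norm_num) (by norm_num) (by norm_num) (by norm_num) (by norm_num)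
  have h1 := h5b_case_j10126 s 0.25 (17/10000 : ℝ) (1/2 : ℝ) (1913/10000000 : ℝ) h0 hb (by norm_num) hT (by norm_num) (by norm_num)
    (by norm_num) (by norm_num)
  have hbern : ∀ u v : ℝ, 0 ≤ u → 0 ≤ v → 0 ≤ (2920100065705631/48828125000000 : ℝ) * u ^ 0 * v ^ 7 + (43742633472634937/78125000000000 : ℝ) * u ^ 1 * v ^ 6 + (132263203199270463/62500000000000 : ℝ) * u ^ 2 * v ^ 5 + (213791352906156259/50000000000000 : ℝ) * u ^ 3 * v ^ 4 + (201847343039545379/40000000000000 : ℝ) * u ^ 4 * v ^ 3 + (5604787045613211/1600000000000 : ℝ) * u ^ 5 * v ^ 2 + (1703032013927/1280000000 : ℝ) * u ^ 6 * v ^ 1 + (2191027889377/10240000000 : ℝ) * u ^ 7 * v ^ 0 := by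
    intro u v hu hv
    positivity
  have hb1 := hbern (s - 0.24) (0.25 - s) (by linarith) (by linarith)
  have h2 := h5b_fin_j10126 s 0.24 (481011/10000 : ℝ) ((0.02275 - 0.02646 * (1 - s) ^ 2 - 0.0002 * (1 - s) ^ 3 + 0.000001) + (1913/10000000 : ℝ)) (by norm_num) ha (by norm_num) (by norm_num) (by
    have e : 9 * s ^ 2 * ((17 + 9 * s) * (17 + 15 * s) * (17 + 21 * s)) + (179.2 * s ^ 3 - (481011/10000 : ℝ) * s ^ 5) * (9 * s + 68) -
        ((0.02275 - 0.02646 * (1 - s) ^ 2 - 0.0002 * (1 - s) ^ 3 + 0.000001) + (1913/10000000 : ℝ)) * (9 * s + 68) * ((17 + 9 * s) * (17 + 15 * s) * (17 + 21 * s)) = ((2920100065705631/48828125000000 : ℝ) * (s - 0.24) ^ 0 * (0.25 - s) ^ 7 + (43742633472634937/78125000000000 : ℝ) * (s - 0.24) ^ 1 * (0.25 - s) ^ 6 + (132263203199270463/62500000000000 : ℝ) * (s - 0.24) ^ 2 * (0.25 - s) ^ 5 + (213791352906156259/50000000000000 : ℝ) * (s - 0.24) ^ 3 * (0.25 - s) ^ 4 + (201847343039545379/40000000000000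 : ℝ) * (s - 0.24) ^ 4 * (0.25 - s) ^ 3 + (5604787045613211/1600000000000 : ℝ) * (s - 0.24) ^ 5 * (0.25 - s) ^ 2 + (1703032013927/1280000000 : ℝ) * (s - 0.24) ^ 6 * (0.25 - s) ^ 1 + (2191027889377/10240000000 : ℝ) * (s - 0.24) ^ 7 * (0.25 - s) ^ 0) * 100000000000000 := by ring
    rw [e]
    exact mul_nonneg hb1 (by norm_num))
  linarith

theorem h5b_x2_j10126 (s : ℝ) (ha : 0.25 ≤ s) (hb : s ≤ 0.27) : (0.02275 - 0.02646 * (1 - s) ^ 2 - 0.0002 * (1 - s) ^ 3 + 0.000001) ≤ ee s := by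
  have h0 : 0 < s := by linarith
  have hT : Tl (1 / s) ≤ (328117/100000000 : ℝ) := h5b_Tl_mid_j10126 0.27 (19301/10000 : ℝ) (328117/100000000 : ℝ) s 4 27 (by norm_num) h0 hb (by norm_num) (by norm_num) (by norm_num) (by norm_num) (by norm_num)
  have h1 := h5b_case_j10126 s 0.27 (328117/100000000 : ℝ) (25981/50000 : ℝ) (3837/10000000 : ℝ) h0 hb (by norm_num) hT (by norm_num) (by norm_num)
    (by norm_num) (by norm_num)
  have hbern : ∀ u v : ℝ, 0 ≤ u → 0 ≤ v → 0 ≤ (962258274653/10240000000 : ℝ) * u ^ 0 * v ^ 7 + (10106552840569/10240000000 : ℝ) * u ^ 1 * v ^ 6 + (25611167912613689/6400000000000 : ℝ) * u ^ 2 * v ^ 5 + (1359207702939557133/160000000000000 : ℝ) * u ^ 3 * v ^ 4 + (8330526310446077211/800000000000000 : ℝ) * u ^ 4 * v ^ 3 + (29821980900013867131/4000000000000000 : ℝ) * u ^ 5 * v ^ 2 + (11627995960756841043/4000000000000000 : ℝ) * u ^ 6 * v ^ 1 + (47836098001425590991/100000000000000000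 : ℝ) * u ^ 7 * v ^ 0 := by
    intro u v hu hv
    positivity
  have hb1 := hbern (s - 0.25) (0.27 - s) (by linarith) (by linarith)
  have h2 := h5b_fin_j10126 s 0.25 (92497/2000 : ℝ) ((0.02275 - 0.02646 * (1 - s) ^ 2 - 0.0002 * (1 - s) ^ 3 + 0.000001) + (3837/10000000 : ℝ)) (by norm_num) ha (by norm_num) (by norm_num) (by
    have e : 9 * s ^ 2 * ((17 + 9 * s) * (17 + 15 * s) * (17 + 21 * s)) + (179.2 * s ^ 3 - (92497/2000 : ℝ) * s ^ 5) * (9 * s + 68) -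
        ((0.02275 - 0.02646 * (1 - s) ^ 2 - 0.0002 * (1 - s) ^ 3 + 0.000001) + (3837/10000000 : ℝ)) * (9 * s + 68) * ((17 + 9 * s) * (17 + 15 * s) * (17 + 21 * s)) = ((962258274653/10240000000 : ℝ) * (s - 0.25) ^ 0 * (0.27 - s) ^ 7 + (10106552840569/10240000000 : ℝ) * (s - 0.25) ^ 1 * (0.27 - s) ^ 6 + (25611167912613689/6400000000000 : ℝ) * (s - 0.25) ^ 2 * (0.27 - s) ^ 5 + (1359207702939557133/160000000000000 : ℝ) * (s - 0.25) ^ 3 * (0.27 - s) ^ 4 + (8330526310446077211/800000000000000 : ℝ) * (s - 0.25) ^ 4 * (0.27 - s) ^ 3 + (29821980900013867131/4000000000000000 : ℝ) * (s - 0.25) ^ 5 * (0.27 - s) ^ 2 + (11627995960756841043/4000000000000000 : ℝ) * (s - 0.25) ^ 6 * (0.27 - s) ^ 1 + (47836098001425590991/100000000000000000 : ℝ) * (s - 0.25) ^ 7 * (0.27 - s) ^ 0) * 781250000000 := by ring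
    rw [e]
    exact mul_nonneg hb1 (by norm_num))
  linarith

theorem h5b_x3_j10126 (s : ℝ) (ha : 0.27 ≤ s) (hb : s ≤ 0.3) : (0.02275 - 0.02646 * (1 - s) ^ 2 - 0.0002 * (1 - s) ^ 3 + 0.000001) ≤ ee s := by
  have h0 : 0 < s := by linarith
  have hT : Tl (1 / s) ≤ (7463629/1000000000 : ℝ) := h5b_Tl_mid_j10126 0.3 (439037/100000 : ℝ) (7463629/1000000000 : ℝ) s 1 3 (by norm_num) h0 hb (by norm_num) (by norm_num) (by norm_num) (by norm_num) (by norm_num)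
  have h1 := h5b_case_j10126 s 0.3 (7463629/1000000000 : ℝ) (54773/100000 : ℝ) (9199/10000000 : ℝ) h0 hb (by norm_num) hT (by norm_num) (by norm_num)
    (by norm_num) (by norm_num)
  have hbern : ∀ u v : ℝ, 0 ≤ u → 0 ≤ v → 0 ≤ (12855199903547970851/100000000000000000 : ℝ) * u ^ 0 * v ^ 7 + (15389251544742806549/10000000000000000 : ℝ) * u ^ 1 * v ^ 6 + (833300592618883683/125000000000000 : ℝ) * u ^ 2 * v ^ 5 + (2950821520227366383/200000000000000 : ℝ) * u ^ 3 * v ^ 4 + (931584226877429/50000000000 : ℝ) * u ^ 4 * v ^ 3 + (2730034158093237/200000000000 : ℝ) * u ^ 5 * v ^ 2 + (542338160184893/100000000000 : ℝ) * u ^ 6 * v ^ 1 + (18136386666133/20000000000 : ℝ) * u ^ 7 * v ^ 0 := by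
    intro u v hu hv
    positivity
  have hb1 := hbern (s - 0.27) (0.3 - s) (by linarith) (by linarith)
  have h2 := h5b_fin_j10126 s 0.27 (428199/10000 : ℝ) ((0.02275 - 0.02646 * (1 - s) ^ 2 - 0.0002 * (1 - s) ^ 3 + 0.000001) + (9199/10000000 : ℝ)) (by norm_num) ha (by norm_num) (by norm_num) (by
    have e : 9 * s ^ 2 * ((17 + 9 * s) * (17 + 15 * s) * (17 + 21 * s)) + (179.2 * s ^ 3 - (428199/10000 : ℝ) * s ^ 5) * (9 * s + 68) -
        ((0.02275 - 0.02646 * (1 - s) ^ 2 - 0.0002 * (1 - s) ^ 3 + 0.000001) + (9199/10000000 : ℝ)) * (9 * s + 68) * ((17 + 9 * s) * (17 + 15 * s) * (17 + 21 * s)) = ((12855199903547970851/100000000000000000 : ℝ) * (s - 0.27) ^ 0 * (0.3 - s) ^ 7 + (15389251544742806549/10000000000000000 : ℝ) * (s - 0.27) ^ 1 * (0.3 - s) ^ 6 + (833300592618883683/125000000000000 : ℝ) * (s - 0.27) ^ 2 * (0.3 - s) ^ 5 + (2950821520227366383/200000000000000 : ℝ) * (s - 0.27) ^ 3 * (0.3 -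 s) ^ 4 + (931584226877429/50000000000 : ℝ) * (s - 0.27) ^ 4 * (0.3 - s) ^ 3 + (2730034158093237/200000000000 : ℝ) * (s - 0.27) ^ 5 * (0.3 - s) ^ 2 + (542338160184893/100000000000 : ℝ) * (s - 0.27) ^ 6 * (0.3 - s) ^ 1 + (18136386666133/20000000000 : ℝ) * (s - 0.27) ^ 7 * (0.3 - s) ^ 0) * (100000000000000/2187 : ℝ) := by ring
    rw [e]
    exact mul_nonneg hb1 (by norm_num))
  linarith

theorem h5b_tail0_j10126 (s : ℝ) (h0 : 0 < s) (h1 : s ≤ 0.1) :
    Tl (1 / s) ≤ 0.1496 ^ (6 : ℕ) * 100 * s ^ 2 * 0.0017 := by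
  have hp : 10 ≤ 1 / s := by rw [le_div_iff₀ h0]; linarith
  have h2 := Tl_big (1 / s) (by linarith)
  have h3 : (0.1496 : ℝ) ^ (1 / s - 4) = 0.1496 ^ (6 : ℕ) * 0.1496 ^ (1 / s - 10) := by
    rw [← Real.rpow_natCast, ← Real.rpow_add (by norm_num)]
    congr 1
    push_cast; ring
  set t : ℝ := 1 / s - 10 with ht
  have ht0 : 0 ≤ t := by linarith
  have h4 : (0.1496 : ℝ) ^ t ≤ 100 * s ^ 2 := by
    have a1 : (0.1496 : ℝ) ≤ Real.exp (-1) := by
      rw [Real.exp_neg, le_inv_comm₀ (by norm_num) (Real.exp_pos _)]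
      have := Real.exp_one_lt_d9
      norm_num
      linarith
    have a2 : (0.1496 : ℝ) ^ t ≤ (Real.exp (-1)) ^ t := Real.rpow_le_rpow (by norm_num) a1 ht0
    have a3 : (Real.exp (-1)) ^ t = (Real.exp t)⁻¹ := by
      rw [← Real.exp_mul, ← Real.exp_neg]; congr 1; ring
    have a4 := Real.quadratic_le_exp_of_nonneg ht0
    have hs : s = 1 / (t + 10) := by rw [ht]; field_simp; ring
    have a5 : (Real.exp t)⁻¹ ≤ 100 * s ^ 2 := by
      rw [hs, inv_le_comm₀ (Real.exp_pos _) (by positivity)]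
      have : (100 * (1 / (t + 10)) ^ 2)⁻¹ = (t + 10) ^ 2 / 100 := by
        field_simp
      rw [this]
      have : (t + 10) ^ 2 / 100 ≤ 1 + t + t ^ 2 / 2 := by nlinarith
      linarith
    rw [a3] at a2
    linarith
  rw [h3] at h2
  have h5 : (0 : ℝ) < 0.1496 ^ (6 : ℕ) := by positivity
  nlinarith [mul_le_mul_of_nonneg_left h4 h5.le]

theorem h5b_s1_j10126 (s : ℝ) (h0 : 0 < s) (hb : s ≤ 0.1) : (0.1323 * s ^ 2 + 0.005 * s ^ 3) ≤ ee s := by
  have h1 := h5b_core_j10126 s _ h0 (by linarith) (h5b_tail0_j10126 s h0 hb) (by positivity)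
  obtain ⟨hP1l, hP1u⟩ := P1_bounds
  have hP0 : 0 < P1 := by linarith
  have hs : Real.sqrt s ≤ 0.3163 := by
    rw [Real.sqrt_le_left (by norm_num)]; norm_num; linarith
  have ht : 1.045 * Real.sqrt s * (0.1496 ^ (6 : ℕ) * 100 * s ^ 2 * 0.0017) / P1 ≤
      0.0000002 * s ^ 2 := by
    rw [div_le_iff₀ hP0]
    have e1 : 1.045 * Real.sqrt s * (0.1496 ^ (6 : ℕ) * 100 * s ^ 2 * 0.0017) ≤
        1.045 * 0.3163 * (0.1496 ^ (6 : ℕ) * 100 * s ^ 2 * 0.0017) := by gcongr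
    have e2 : 1.045 * 0.3163 * (0.1496 ^ (6 : ℕ) * 100 * s ^ 2 * 0.0017) ≤
        0.0000002 * s ^ 2 * 4.64568 := by
      have : 0 ≤ s ^ 2 := sq_nonneg s
      nlinarith
    have e3 : 0.0000002 * s ^ 2 * 4.64568 ≤ 0.0000002 * s ^ 2 * P1 := by gcongr
    linarith
  have hbern : ∀ u v : ℝ, 0 ≤ u → 0 ≤ v → 0 ≤ (22024979/1250000 : ℝ) * u ^ 0 * v ^ 5 + (27964511743/50000000 : ℝ) * u ^ 1 * v ^ 4 + (938100039491/500000000 : ℝ) * u ^ 2 * v ^ 3 + (12107935324883/5000000000 : ℝ) * u ^ 3 * v ^ 2 + (13630161720569/10000000000 : ℝ) * u ^ 4 * v ^ 1 + (2759576586523/10000000000 : ℝ) * u ^ 5 * v ^ 0 := by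
    intro u v hu hv
    positivity
  have hb1 := hbern s (0.1 - s) h0.le (by linarith)
  have h2 := h5b_fin_j10126 s 0 (1510077/10000 : ℝ) ((0.1323 * s ^ 2 + 0.005 * s ^ 3) + 0.0000002 * s ^ 2) le_rfl h0.le (by norm_num) (by norm_num) (by
    have e : 9 * s ^ 2 * ((17 + 9 * s) * (17 + 15 * s) * (17 + 21 * s)) + (179.2 * s ^ 3 - (1510077/10000 : ℝ) * s ^ 5) * (9 * s + 68) -
        ((0.1323 * s ^ 2 + 0.005 * s ^ 3) + 0.0000002 * s ^ 2) * (9 * s + 68) * ((17 + 9 * s) * (17 + 15 * s) * (17 + 21 * s)) = s ^ 2 * (((22024979/1250000 : ℝ) * s ^ 0 * (0.1 - s) ^ 5 + (27964511743/50000000 : ℝ) * s ^ 1 * (0.1 - s) ^ 4 + (938100039491/500000000 : ℝ) * s ^ 2 * (0.1 - s) ^ 3 + (12107935324883/5000000000 : ℝ) * s ^ 3 * (0.1 - s) ^ 2 + (13630161720569/10000000000 : ℝ) * s ^ 4 * (0.1 - s) ^ 1 + (2759576586523/10000000000 : ℝ) * s ^ 5 * (0.1 - s) ^ 0) * 100000) := by ring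
    rw [e]
    exact mul_nonneg (sq_nonneg s) (mul_nonneg hb1 (by norm_num)))
  linarith
theorem ee_zero : ee 0 = 0 := by simp [ee]
theorem ee_nonneg (s : ℝ) (h0 : 0 ≤ s) (h1 : s ≤ 1 / 2) : 0 ≤ ee s := by
  rcases h0.eq_or_lt with h | h
  · rw [← h, ee_zero]
  · obtain ⟨hP1l, hP1u⟩ := P1_bounds
    have hP0 : 0 < P1 := by linarith
    obtain ⟨hIp, -⟩ := ee_pos_form s h h1
    have hp2 : 2 ≤ 1 / s := by rw [le_div_iff₀ h]; linarith
    obtain ⟨η, hη, hb⟩ := ball_ineq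
    have h2 := (hb (1 / s) hp2).2
    have h3 : 0 ≤ (1 / 4 : ℝ) ^ (1 / s - 2) * η := by positivity
    have h4 : Real.sqrt (1 / s) * Ip (1 / s) ≤ P1 := by
      have : Real.sqrt (1 / s) * Ip (1 / s) = Real.sqrt (1 / s) * ∫ t, |phi 1 t| ^ (1 / s) := rfl
      rw [this]
      unfold P1
      linarith
    unfold ee
    rw [if_neg h.ne']
    have h5 : Real.log (Real.sqrt (1 / s) * Ip (1 / s) / P1) ≤ 0 := by
      refine Real.log_nonpos (by positivity) ?_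
      rw [div_le_one hP0]; exact h4
    nlinarith
theorem ee_small (s : ℝ) (h0 : 0 ≤ s) (h1 : s ≤ 0.17) : 0.1323 * s ^ 2 + 0.005 * s ^ 3 ≤ ee s := by
  rcases h0.eq_or_lt with h | h
  · rw [← h, ee_zero]; norm_num
  · rcases le_or_gt s 0.1 with h2 | h2
    · exact h5b_s1_j10126 s h h2
    · exact h5b_s2_j10126 s h2.le h1
theorem ee_lin1 (s : ℝ) (h0 : 0.17 ≤ s) (h1 : s ≤ 0.3) : 0.0454155 * s - 0.0038726 ≤ ee s := by
  rcases le_or_gt s 0.18 with h2 | h2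
  · exact h5b_l1_j10126 s h0 h2
  rcases le_or_gt s 0.19 with h3 | h3
  · exact h5b_l2_j10126 s h2.le h3
  rcases le_or_gt s 0.21 with h4 | h4
  · exact h5b_l3_j10126 s h3.le h4
  rcases le_or_gt s 0.24 with h5 | h5
  · exact h5b_l4_j10126 s h4.le h5
  rcases le_or_gt s 0.27 with h6 | h6
  · exact h5b_l5_j10126 s h5.le h6
  · exact h5b_l6_j10126 s h6.le h1
theorem ee_six1 (s : ℝ) (h0 : 0.24 ≤ s) (h1 : s ≤ 0.3) :
    0.02275 < ee s + 0.02646 * (1 - s) ^ 2 + 0.0002 * (1 - s) ^ 3 := by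
  have key : 0.02275 - 0.02646 * (1 - s) ^ 2 - 0.0002 * (1 - s) ^ 3 + 0.000001 ≤ ee s := by
    rcases le_or_gt s 0.25 with h2 | h2
    · exact h5b_x1_j10126 s h0 h2
    rcases le_or_gt s 0.27 with h3 | h3
    · exact h5b_x2_j10126 s h2.le h3
    · exact h5b_x3_j10126 s h3.le h1
  linarith



end Pool.Agent.Helper82.GC
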