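import Pool.Agent.Helper82.GC.A3
import Pool.Agent.Helper82.GC.J10088

set_option autoImplicit false

open MeasureTheory Set

namespace Pool.Agent.Helper82.GC


theorem J_diag (n : ℕ) (hn : 1 ≤ n) :
    J 1 (fun _ : Fin n => 1 / (n : ℝ)) = Real.sqrt n * ∫ t, phi 1 t ^ n := by
  have hn0 : (0 : ℝ) < n := by exact_mod_cast hn
  have h1 : J 1 (fun _ : Fin n => 1 / (n : ℝ)) = ∫ t, phi 1 (Real.sqrt (1 / n) * t) ^ n := by
    unfold J
    congr 1
    funext t
    rw [Finset.prod_const, Finset.card_univ, Fintype.card_fin]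
  rw [h1, Measure.integral_comp_mul_left (fun t => phi 1 t ^ n)]
  rw [smul_eq_mul]
  congr 1
  rw [one_div, Real.sqrt_inv, inv_inv, abs_of_nonneg (Real.sqrt_nonneg _)]

theorem phi_pow_int_10266_j10266 (n : ℕ) (hn : 2 ≤ n) : Integrable (fun t => phi 1 t ^ n) := by
  refine (phi_sq_integrable one_pos).mono' (phi_contN.pow n).aestronglyMeasurable ?_
  refine Filter.Eventually.of_forall fun t => ?_
  rw [norm_pow, Real.norm_eq_abs, ← sq_abs (phi 1 t)]
  exact pow_le_pow_of_le_one (abs_nonneg _) (abs_phi_le_one one_pos t) hn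

theorem phi_pow_split (n : ℕ) (hn : 2 ≤ n) : Integrable (fun t => phi 1 t ^ n) ∧
    ∫ t, phi 1 t ^ n = 2 * (∫ z in (0 : ℝ)..z0, phi 1 z ^ n) + 2 * ∫ t in Set.Ioi z0, phi 1 t ^ n := by
  have hI := phi_pow_int_10266_j10266 n hn
  refine ⟨hI, ?_⟩
  have h1 : ∀ t, phi 1 |t| = phi 1 t := by
    intro t
    rcases abs_choice t with h | h
    · rw [h]
    · rw [h, phi_neg]
  have h2 : ∫ t, phi 1 t ^ n = 2 * ∫ t in Set.Ioi (0 : ℝ), phi 1 t ^ n := by
    rw [← integral_comp_abs (f := fun t => phi 1 t ^ n)]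
    simp_rw [h1]
  rw [h2, ← intervalIntegral.integral_interval_add_Ioi hI.integrableOn (b := z0) hI.integrableOn,
    mul_add]

theorem phi_pow_tail (n : ℕ) (hn : 4 ≤ n) :
    |2 * ∫ t in Set.Ioi z0, phi 1 t ^ n| ≤ 0.1496 ^ (n - 4 : ℕ) * 0.0017 := by
  have hI := phi_pow_int_10266_j10266 n (by omega)
  have hI4 := phi_pow_int_10266_j10266 4 (by omega)
  have h1 : |∫ t in Set.Ioi z0, phi 1 t ^ n| ≤ ∫ t in Set.Ioi z0, 0.1496 ^ (n - 4) * phi 1 t ^ 4 := by
    refine (abs_integral_le_integral_abs).trans ?_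
    apply setIntegral_mono_on hI.abs.integrableOn (hI4.const_mul _).integrableOn measurableSet_Ioi
    intro t ht
    have h2 := phi_lobe t (le_of_lt ht)
    have h3 : phi 1 t ^ 4 = |phi 1 t| ^ 4 := by
      rw [Even.pow_abs (by decide)]
    rw [abs_pow, h3]
    calc |phi 1 t| ^ n = |phi 1 t| ^ (n - 4) * |phi 1 t| ^ 4 := by
          rw [← pow_add]
          congr 1
          omega
      _ ≤ 0.1496 ^ (n - 4) * |phi 1 t| ^ 4 := by
          apply mul_le_mul_of_nonneg_right _ (by positivity)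
          exact pow_le_pow_left₀ (abs_nonneg _) h2 _
  have h4 : Tl 4 = 2 * ∫ t in Set.Ioi z0, phi 1 t ^ 4 := by
    unfold Tl
    congr 2
    funext t
    have : ((4 : ℝ)) = ((4 : ℕ) : ℝ) := by norm_num
    rw [this, Real.rpow_natCast, Even.pow_abs (by decide)]
  rw [integral_const_mul] at h1
  have h5 := Tl_four
  rw [h4] at h5
  rw [abs_mul, abs_two]
  calc 2 * |∫ t in Set.Ioi z0, phi 1 t ^ n|
      ≤ 2 * (0.1496 ^ (n - 4) * ∫ t in Set.Ioi z0, phi 1 t ^ 4) := by linarith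
    _ = 0.1496 ^ (n - 4) * (2 * ∫ t in Set.Ioi z0, phi 1 t ^ 4) := by ring
    _ ≤ _ := mul_le_mul_of_nonneg_left h5 (by positivity)



end Pool.Agent.Helper82.GC
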