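import Pool.Agent.Helper82.GC.J9429

set_option autoImplicit false

open MeasureTheory Set

namespace Pool.Agent.Helper82.GC


/-- evaluation of an integer polynomial -/
noncomputable def pev_j10267 : List ℤ → ℝ → ℝ
  | [], _ => 0
  | a :: l, x => a + x * pev_j10267 l x

/-- addition -/
def padd_j10267 : List ℤ → List ℤ → List ℤ
  | [], m => m
  | a :: l, [] => a :: l
  | a :: l, b :: m => (a + b) :: padd_j10267 l m

/-- scalar multiplication -/
def psmul_j10267 (c : ℤ) : List ℤ → List ℤ
  | [] => []
  | a :: l => (c * a) :: psmul_j10267 c l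

/-- multiplication -/
def pmul_j10267 : List ℤ → List ℤ → List ℤ
  | [], _ => []
  | a :: l, m => padd_j10267 (psmul_j10267 a m) (0 :: pmul_j10267 l m)

theorem pev_padd_j10267 (l : List ℤ) : ∀ (m : List ℤ) (x : ℝ), pev_j10267 (padd_j10267 l m) x = pev_j10267 l x + pev_j10267 m x := by
  induction l with
  | nil => intro m x; simp [padd_j10267, pev_j10267]
  | cons a l ih =>
    intro m x
    cases m with
    | nil => simp [padd_j10267, pev_j10267]
    | cons b m =>
      simp only [padd_j10267, pev_j10267, ih]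
      push_cast
      ring

theorem pev_psmul_j10267 (c : ℤ) (l : List ℤ) (x : ℝ) : pev_j10267 (psmul_j10267 c l) x = c * pev_j10267 l x := by
  induction l with
  | nil => simp [psmul_j10267, pev_j10267]
  | cons a l ih =>
    simp only [psmul_j10267, pev_j10267, ih]
    push_cast
    ring

theorem pev_pmul_j10267 (l m : List ℤ) (x : ℝ) : pev_j10267 (pmul_j10267 l m) x = pev_j10267 l x * pev_j10267 m x := by
  induction l with
  | nil => simp [pmul_j10267, pev_j10267]
  | cons a l ih =>
    simp only [pmul_j10267, pev_padd_j10267, pev_psmul_j10267, pev_j10267, ih]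
    push_cast
    ring

theorem pev_cont_j10267 (l : List ℤ) : Continuous (pev_j10267 l) := by
  induction l with
  | nil => exact continuous_const
  | cons a l ih =>
    show Continuous (fun x => (a : ℝ) + x * pev_j10267 l x)
    exact continuous_const.add (continuous_id.mul ih)

/-- lower bound for the integral over `[0, 2.9]`, times `10 ^ 100` -/
def jint_j10267 : ℕ → List ℤ → ℤ
  | _, [] => 0
  | j, a :: l => (a * ((29 ^ (2 * j + 1) : ℕ) : ℤ) * ((10 ^ (100 - (2 * j + 1)) : ℕ) : ℤ)) /
      ((2 * j + 1 : ℕ) : ℤ) + jint_j10267 (j + 1) l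

theorem jint_le_j10267 (l : List ℤ) : ∀ j : ℕ, 2 * (j + l.length) ≤ 100 →
    (jint_j10267 j l : ℝ) ≤ 10 ^ 100 * ∫ z in (0 : ℝ)..2.9, z ^ (2 * j) * pev_j10267 l (z ^ 2) := by
  induction l with
  | nil =>
    intro j _
    simp [jint_j10267, pev_j10267]
  | cons a l ih =>
    intro j hj
    rw [List.length_cons] at hj
    have h1 := ih (j + 1) (by omega)
    have hpc : Continuous (fun z : ℝ => pev_j10267 l (z ^ 2)) := (pev_cont_j10267 l).comp (continuous_pow 2)
    have e1 : ∫ z in (0 : ℝ)..2.9, z ^ (2 * j) * pev_j10267 (a :: l) (z ^ 2) =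
        a * (2.9 ^ (2 * j + 1) / ((2 * j + 1 : ℕ) : ℝ)) +
          ∫ z in (0 : ℝ)..2.9, z ^ (2 * (j + 1)) * pev_j10267 l (z ^ 2) := by
      have e2 : ∀ z : ℝ, z ^ (2 * j) * pev_j10267 (a :: l) (z ^ 2) =
          a * z ^ (2 * j) + z ^ (2 * (j + 1)) * pev_j10267 l (z ^ 2) := by
        intro z
        simp only [pev_j10267]
        ring
      simp only [e2]
      rw [intervalIntegral.integral_add, intervalIntegral.integral_const_mul, integral_pow]
      · congr 2
        rw [zero_pow (by omega), sub_zero]
        push_cast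
        ring
      · exact (Continuous.mul continuous_const (continuous_pow _)).intervalIntegrable _ _
      · exact ((continuous_pow _).mul hpc).intervalIntegrable _ _
    rw [e1, mul_add]
    simp only [jint_j10267]
    push_cast
    refine add_le_add ?_ (by simpa using h1)
    have hd : (0 : ℤ) < ((2 * j + 1 : ℕ) : ℤ) := by positivity
    have h2 := Int.ediv_mul_le (a * ((29 ^ (2 * j + 1) : ℕ) : ℤ) *
      ((10 ^ (100 - (2 * j + 1)) : ℕ) : ℤ)) hd.ne'
    have h3 : (((a * ((29 ^ (2 * j + 1) : ℕ) : ℤ) * ((10 ^ (100 - (2 * j + 1)) : ℕ) : ℤ)) /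
      ((2 * j + 1 : ℕ) : ℤ) : ℤ) : ℝ) * ((2 * j + 1 : ℕ) : ℝ) ≤
        (a : ℝ) * 29 ^ (2 * j + 1) * 10 ^ (100 - (2 * j + 1)) := by
      exact_mod_cast h2
    have hd' : (0 : ℝ) < ((2 * j + 1 : ℕ) : ℝ) := by exact_mod_cast hd
    have h4 : (10 : ℝ) ^ 100 = 10 ^ (100 - (2 * j + 1)) * 10 ^ (2 * j + 1) := by
      rw [← pow_add]
      congr 1
      omega
    have h5 : (10 : ℝ) ^ 100 * (a * (2.9 ^ (2 * j + 1) / ((2 * j + 1 : ℕ) : ℝ))) =
        ((a : ℝ) * 29 ^ (2 * j + 1) * 10 ^ (100 - (2 * j + 1))) / ((2 * j + 1 : ℕ) : ℝ) := by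
      have h6 : (29 : ℝ) ^ (2 * j + 1) = 10 ^ (2 * j + 1) * 2.9 ^ (2 * j + 1) := by
        rw [← mul_pow]
        norm_num
      rw [h4, h6]
      ring
    push_cast at h3 h5 hd'
    rw [h5, le_div_iff₀ hd']
    exact h3

def q1_j10267 : List ℤ := [100000000000000, (-14556254739000), 685418246208, (-15781526421), 214568517, (-1922160), 12189, (-58), (-1)]
def q2_j10267 : List ℤ := [10000000000000000000000000000, (-2911250947800000000000000000), 348968201268259958121000000, (-23110550473324537559424000), 972151713143520424617264, (-28264952308776974249136), 601591630622136416313, (-9773856890590255874), 124906537694140633, (-1259988099446706), 9385270945446, (-40185311610), (-57594753), 2430396, (-21014), 116, 1]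
def q4_j10267 : List ℤ := [100000000000000000000000000000000000000000000000000000000, (-58225018956000000000000000000000000000000000000000000000), 15454746106431597487260000000000000000000000000000000000, (-2494079022855056681461579114167600000000000000000000000), 275783063698566796709689743417215073850641000000000000, (-22355348696755269918966898643599185977764608000000000), 1389202183580524774914661100889581242518413664000000, (-68359307148404885702756271538820747616579503872000), 2730795296783244490670929515077472345597948173696, (-90335869937051107586438745260087838959640791808), 2515043431727649928895164273512061971477953760, (-59719419651328698425071192014954958511512608), 1222305083544221973880683967295235857427921, (-21731955243471481616507327531184458104068), 337091196032611189348019657059250127654, (-4561831720482031338201196440917681832), 53555763530325232220109282544962309, (-537544705053174746006545719345360), 4465455978226046235979300032870, (-28272180636947544921758496816), 97555873204527156982794942,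 491797042022977506331268, (-11904689032157038902594), 112634158929674592768, (-628963616596823125), 1066358822170764, 17774966593272, (-195877289004), 890250562, (-14456), (-28572), 232, 1]
def q6_j10267 : List ℤ := [1000000000000000000000000000000000000000000000000000000000000000000000000000000000000, (-873375284340000000000000000000000000000000000000000000000000000000000000000000000000), 358951922812469937181500000000000000000000000000000000000000000000000000000000000000, (-92563169660126027733942955708380000000000000000000000000000000000000000000000000000), 16854762916686896255191035865962101077596150000000000000000000000000000000000000000, (-2313379200075691965447670641832452764419438580662619400000000000000000000000000000), 249583355189520885319614202045583078963833406419054801669005561000000000000000000, (-21800169408056121554504757266325198618662654000475036316913972352000000000000000), 1576227874335111004938834977494369282398650795161656768906204297360000000000000, (-96000494635991466892615003855021047315286879334009372501853072082560000000000),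 4995601164263990053906200500850882343593641684866653075256118671458240000000, (-224750801292039623865954117016005214010345055294284594061238837250829312000), 8830350398858863693693892997199758976086363804940383274638811843437471744, (-305612030597330471596306171810517954567012412541046510458041020014675968), 9387008271397344819690202744410259752805081497829843366549924596413376, (-257548118126079197265548442964612573565159462986398193192485643150080), 6347019442804076450574120286950154115999746872373175922703291955472, (-141146811563947180413278944661528212533257734821365527357774304592), 2842902684442776045276252913487655622236710500409233549814829513, (-51999650916043908345684697860362590911555405474404562270706182), 865064348614568985419710118398131616030934252212446352776855, (-13091400133281539766461545380482548215845596477326128010074), 179956120792442775950141879697289502653249936378061213169, (-2238490370021146464193723854031507837044459167358910176), 25016539446067839392252267634334252942038335938770814, (-247920003402416425009676138141447890322263534327410),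 2125406496019901294688761919158130133800159750918, (-14931012478835265688076444327296290570954688026), 72983644099099188548065447829463136356412128, (-29476918368835995143686908901817845333920), (-4423325409573109256105787007218330230625), 61267189711384049604550339227386383770, (-522276480919747703773695598589131518), 2928505168641410278940782727503146, (-6118206051083187307377609452592), (-81989865850788896767728909270), 1174079460897158904205184661, (-8131690250601260357440896), 26955918502923790694469, 91041797012370229914, (-1841108026094843190), 11474483775969978, (-21981782110994), (-215293014246), 1995242793, (-5773660), (-22674), 348, 1]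

theorem q2_eq_j10267 : pmul_j10267 q1_j10267 q1_j10267 = q2_j10267 := by decide +kernel
theorem q4_eq_j10267 : pmul_j10267 q2_j10267 q2_j10267 = q4_j10267 := by decide +kernel
theorem q6_eq_j10267 : pmul_j10267 q4_j10267 q2_j10267 = q6_j10267 := by decide +kernel
theorem q6_int_j10267 : (92705 * 10 ^ 179 : ℤ) < jint_j10267 0 q6_j10267 := by decide +kernel
theorem q6_len_j10267 : q6_j10267.length = 49 := by decide +kernel

theorem q1_pev_j10267 (x : ℝ) : pev_j10267 q1_j10267 x = (100000000000000) * x ^ 0 + (-14556254739000) * x ^ 1 + (685418246208) * x ^ 2 + (-15781526421) * x ^ 3 + (214568517) * x ^ 4 + (-1922160) * x ^ 5 + (12189) * x ^ 6 + (-58) * x ^ 7 + (-1) * x ^ 8 := by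
  simp only [q1_j10267, pev_j10267]
  push_cast
  ring

theorem q1_bounds_j10267 (z : ℝ) (h0 : 0 ≤ z) (h1 : z ≤ 2.9) :
    |pev_j10267 q1_j10267 (z ^ 2) / 10 ^ 14| ≤ phi 1 z := by
  have hT := phi_taylor 8 z
  have hb := (phi_bounds z h0 h1).1
  obtain ⟨x, hx⟩ : ∃ x, x = z ^ 2 := ⟨_, rfl⟩
  have hx0 : 0 ≤ x := by rw [hx]; positivity
  have hx9 : x ≤ 9 := by rw [hx]; nlinarith
  have hS : ∑ k ∈ Finset.range 8, (-1 : ℝ) ^ k * mom k * z ^ (2 * k) / (Nat.factorial (2 * k)) =
      (-1 : ℝ) ^ 0 * mom 0 * x ^ 0 / 1 + (-1 : ℝ) ^ 1 * mom 1 * x ^ 1 / 2 + (-1 : ℝ) ^ 2 * mom 2 * x ^ 2 / 24 + (-1 : ℝ) ^ 3 * mom 3 * x ^ 3 / 720 + (-1 : ℝ) ^ 4 * mom 4 * x ^ 4 / 40320 + (-1 : ℝ) ^ 5 * mom 5 * x ^ 5 / 3628800 + (-1 : ℝ) ^ 6 * mom 6 * x ^ 6 / 479001600 + (-1 : ℝ) ^ 7 * mom 7 * x ^ 7 / 87178291200 := by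
    simp only [Finset.sum_range_succ, Finset.sum_range_zero, zero_add, hx, ← pow_mul]
    norm_num [Nat.factorial]
  have hR : mom 8 * z ^ (2 * 8) / (Nat.factorial (2 * 8)) = mom 8 * x ^ 8 / 20922789888000 := by
    rw [hx, ← pow_mul]
    norm_num [Nat.factorial]
  rw [hS, hR, abs_le] at hT
  obtain ⟨hT1, hT2⟩ := hT
  rw [← hx, q1_pev_j10267]
  have hm0 : mom 0 = 1 := mom_zero
  have p0 : 0 ≤ x ^ 0 := by positivity
  have q0 : x ^ 0 ≤ 9 ^ 0 := pow_le_pow_left₀ hx0 hx9 0
  have p1 : 0 ≤ x ^ 1 := by positivity
  have q1_j10267 : x ^ 1 ≤ 9 ^ 1 := pow_le_pow_left₀ hx0 hx9 1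
  have p2 : 0 ≤ x ^ 2 := by positivity
  have q2_j10267 : x ^ 2 ≤ 9 ^ 2 := pow_le_pow_left₀ hx0 hx9 2
  have p3 : 0 ≤ x ^ 3 := by positivity
  have q3 : x ^ 3 ≤ 9 ^ 3 := pow_le_pow_left₀ hx0 hx9 3
  have p4 : 0 ≤ x ^ 4 := by positivity
  have q4_j10267 : x ^ 4 ≤ 9 ^ 4 := pow_le_pow_left₀ hx0 hx9 4
  have p5 : 0 ≤ x ^ 5 := by positivity
  have q5 : x ^ 5 ≤ 9 ^ 5 := pow_le_pow_left₀ hx0 hx9 5
  have p6 : 0 ≤ x ^ 6 := by positivity
  have q6_j10267 : x ^ 6 ≤ 9 ^ 6 := pow_le_pow_left₀ hx0 hx9 6
  have p7 : 0 ≤ x ^ 7 := by positivity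
  have q7 : x ^ 7 ≤ 9 ^ 7 := pow_le_pow_left₀ hx0 hx9 7
  have p8 : 0 ≤ x ^ 8 := by positivity
  have q8 : x ^ 8 ≤ 9 ^ 8 := pow_le_pow_left₀ hx0 hx9 8
  have l1 : 0 ≤ (mom 1 - 0.29112509477) * x ^ 1 := mul_nonneg (by linarith [mom_1.1]) p1
  have u1 : 0 ≤ (0.29112509478 - mom 1) * x ^ 1 := mul_nonneg (by linarith [mom_1.2]) p1
  have l2 : 0 ≤ (mom 2 - 0.16450037909) * x ^ 2 := mul_nonneg (by linarith [mom_2.1]) p2
  have u2 : 0 ≤ (0.16450037910 - mom 2) * x ^ 2 := mul_nonneg (by linarith [mom_2.2]) p2
  have l3 : 0 ≤ (mom 3 - 0.11362699022) * x ^ 3 := mul_nonneg (by linarith [mom_3.1]) p3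
  have u3 : 0 ≤ (0.11362699023 - mom 3) * x ^ 3 := mul_nonneg (by linarith [mom_3.2]) p3
  have l4 : 0 ≤ (mom 4 - 0.08651402637) * x ^ 4 := mul_nonneg (by linarith [mom_4.1]) p4
  have u4 : 0 ≤ (0.08651402638 - mom 4) * x ^ 4 := mul_nonneg (by linarith [mom_4.2]) p4
  have l5 : 0 ≤ (mom 5 - 0.06975133213) * x ^ 5 := mul_nonneg (by linarith [mom_5.1]) p5
  have u5 : 0 ≤ (0.06975133214 - mom 5) * x ^ 5 := mul_nonneg (by linarith [mom_5.2]) p5
  have l6 : 0 ≤ (mom 6 - 0.05838974823) * x ^ 6 := mul_nonneg (by linarith [mom_6.1]) p6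
  have u6 : 0 ≤ (0.05838974824 - mom 6) * x ^ 6 := mul_nonneg (by linarith [mom_6.2]) p6
  have l7 : 0 ≤ (mom 7 - 0.05019182188) * x ^ 7 := mul_nonneg (by linarith [mom_7.1]) p7
  have u7 : 0 ≤ (0.05019182189 - mom 7) * x ^ 7 := mul_nonneg (by linarith [mom_7.2]) p7
  have l8 : 0 ≤ (mom 8 - 0.04400242309) * x ^ 8 := mul_nonneg (by linarith [mom_8.1]) p8
  have u8 : 0 ≤ (0.04400242310 - mom 8) * x ^ 8 := mul_nonneg (by linarith [mom_8.2]) p8

  rw [hm0] at hT1 hT2
  norm_num at p0 q0 p1 q1_j10267 p2 q2_j10267 p3 q3 p4 q4_j10267 p5 q5 p6 q6_j10267 p7 q7 p8 q8 l1 u1 l2 u2 l3 u3 l4 u4 l5 u5 l6 u6 l7 u7 l8 u8 hT1 hT2 hb ⊢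
  rw [abs_le]
  constructor
  · linarith
  · linarith

theorem main_int_j10267 : 0.92705 ≤ ∫ z in (0 : ℝ)..2.9, phi 1 z ^ 6 := by
  have h1 : ∫ z in (0 : ℝ)..2.9, (pev_j10267 q1_j10267 (z ^ 2) / 10 ^ 14) ^ 6 ≤
      ∫ z in (0 : ℝ)..2.9, phi 1 z ^ 6 := by
    apply intervalIntegral.integral_mono_on (by norm_num)
    · apply Continuous.intervalIntegrable
      exact (((pev_cont_j10267 q1_j10267).comp (continuous_pow 2)).div_const _).pow 6
    · apply Continuous.intervalIntegrable
      exact phi_contN.pow 6
    · intro z hz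
      have h2 := q1_bounds_j10267 z hz.1 hz.2
      have h3 : (pev_j10267 q1_j10267 (z ^ 2) / 10 ^ 14) ^ 6 = |pev_j10267 q1_j10267 (z ^ 2) / 10 ^ 14| ^ 6 := by
        rw [← abs_pow, abs_of_nonneg]
        positivity
      rw [h3]
      exact pow_le_pow_left₀ (abs_nonneg _) h2 6
  have h2 : ∀ z : ℝ, (pev_j10267 q1_j10267 (z ^ 2) / 10 ^ 14) ^ 6 =
      (1 / 10 ^ 84) * (z ^ (2 * 0) * pev_j10267 q6_j10267 (z ^ 2)) := by
    intro z
    rw [← q6_eq_j10267, pev_pmul_j10267, ← q4_eq_j10267, pev_pmul_j10267, ← q2_eq_j10267, pev_pmul_j10267]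
    ring
  simp only [h2] at h1
  rw [intervalIntegral.integral_const_mul] at h1
  have h3 := jint_le_j10267 q6_j10267 0 (by rw [q6_len_j10267]; norm_num)
  have h4 : ((92705 * 10 ^ 179 : ℤ) : ℝ) < (jint_j10267 0 q6_j10267 : ℝ) := by exact_mod_cast q6_int_j10267
  push_cast at h4
  have h5 := h4.le.trans h3
  have h6 : (0.92705 : ℝ) * 10 ^ 84 ≤ ∫ z in (0 : ℝ)..2.9, z ^ (2 * 0) * pev_j10267 q6_j10267 (z ^ 2) := by
    have h7 : (10 : ℝ) ^ 100 * (0.92705 * 10 ^ 84) ≤
        10 ^ 100 * ∫ z in (0 : ℝ)..2.9, z ^ (2 * 0) * pev_j10267 q6_j10267 (z ^ 2) := by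
      refine le_trans (le_of_eq ?_) h5
      norm_num
    exact le_of_mul_le_mul_left h7 (by positivity)
  refine le_trans ?_ h1
  rw [div_mul_eq_mul_div, one_mul, le_div_iff₀ (by positivity)]
  exact h6

theorem diag_six : 4.5413 < Real.sqrt 6 * (2 * ∫ z in (0 : ℝ)..z0, phi 1 z ^ 6) := by
  have hz0 := z0_bounds.1
  have hint : ∀ u v : ℝ, IntervalIntegrable (fun z => phi 1 z ^ 6) volume u v := fun u v =>
    (phi_contN.pow 6).intervalIntegrable u v
  have h1 : ∫ z in (0 : ℝ)..z0, phi 1 z ^ 6 = (∫ z in (0 : ℝ)..2.9, phi 1 z ^ 6) +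
      ∫ z in (2.9 : ℝ)..z0, phi 1 z ^ 6 :=
    (intervalIntegral.integral_add_adjacent_intervals (hint _ _) (hint _ _)).symm
  have h2 : 0 ≤ ∫ z in (2.9 : ℝ)..z0, phi 1 z ^ 6 := by
    apply intervalIntegral.integral_nonneg (by linarith)
    intro z _
    positivity
  have h3 := main_int_j10267
  have h4 : (2.449489 : ℝ) < Real.sqrt 6 := by
    apply Real.lt_sqrt_of_sq_lt
    norm_num
  have h5 : 0.92705 ≤ ∫ z in (0 : ℝ)..z0, phi 1 z ^ 6 := by linarith
  nlinarith



end Pool.Agent.Helper82.GC
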