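import Pool.Agent.Helper82.GC.J9429
import Pool.Agent.Helper82.GC.Sx

set_option autoImplicit false

open MeasureTheory Set

namespace Pool.Agent.Helper82.GC


/-- coefficients of the seventh power of the cubic minorant -/
noncomputable def cs7_j10277 : ℕ → ℝ
  | 0 => (1 : ℝ)
  | 1 => (-637 / 625 : ℝ)
  | 2 => (6164557 / 12500000 : ℝ)
  | 3 => (-944067621 / 6250000000 : ℝ)
  | 4 => (1029315855673 / 31250000000000 : ℝ)
  | 5 => (-1064657569356983 / 195312500000000000 : ℝ)
  | 6 => (1391353949805614291 / 1953125000000000000000 : ℝ)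
  | 7 => (-368576013495244854607 / 4882812500000000000000000 : ℝ)
  | 8 => (6449264287998516332257 / 976562500000000000000000000 : ℝ)
  | 9 => (-23585589054553812627817 / 48828125000000000000000000000 : ℝ)
  | 10 => (116324760404978894408871 / 3906250000000000000000000000000 : ℝ)
  | 11 => (-607320134754256086577491 / 390625000000000000000000000000000 : ℝ)
  | 12 => (26894375814163325452177599 / 390625000000000000000000000000000000 : ℝ)
  | 13 => (-50434840972488064972684161 / 19531250000000000000000000000000000000 : ℝ)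
  | 14 => (637755792808871078287958793 / 7812500000000000000000000000000000000000 : ℝ)
  | 15 => (-336884540492695882586420017 / 156250000000000000000000000000000000000000 : ℝ)
  | 16 => (146589020207104031689118777 / 3125000000000000000000000000000000000000000 : ℝ)
  | 17 => (-10280989700360048569954033 / 12500000000000000000000000000000000000000000 : ℝ)
  | 18 => (2806958814780274832843459 / 250000000000000000000000000000000000000000000 : ℝ)
  | 19 => (-2815700390276505764709271 / 25000000000000000000000000000000000000000000000 : ℝ)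
  | 20 => (371796181002100999742269 / 500000000000000000000000000000000000000000000000 : ℝ)
  | 21 => (-24472306882417669706659 / 10000000000000000000000000000000000000000000000000 : ℝ)
  | _ => 0

theorem int_even_poly_j10277 (n : ℕ) (c : ℕ → ℝ) (b : ℝ) :
    ∫ z in (0 : ℝ)..b, ∑ i ∈ Finset.range n, c i * z ^ (2 * i) =
      ∑ i ∈ Finset.range n, c i * (b ^ (2 * i + 1) / (2 * i + 1)) := by
  rw [intervalIntegral.integral_finsetSum]
  · apply Finset.sum_congr rfl
    intro i _
    rw [intervalIntegral.integral_const_mul, integral_pow]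
    congr 1
    push_cast
    rw [zero_pow (by omega)]
    ring
  · intro i _
    exact (Continuous.intervalIntegrable (by fun_prop) _ _)

theorem pow7_expand_j10277 (z : ℝ) :
    (1 - 0.1456 * z ^ 2 + 0.006854 * z ^ 4 - 0.0001579 * z ^ 6) ^ 7 =
      ∑ i ∈ Finset.range 22, cs7_j10277 i * z ^ (2 * i) := by
  simp only [Finset.sum_range_succ, Finset.sum_range_zero, cs7_j10277]
  ring

theorem phi_cubic_j10277 (z : ℝ) :
    1 - 0.1456 * z ^ 2 + 0.006854 * z ^ 4 - 0.0001579 * z ^ 6 ≤ phi 1 z := by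
  have h := (abs_le.1 (phi_taylor 3 z)).1
  simp only [Finset.sum_range_succ, Finset.sum_range_zero] at h
  rw [mom_zero] at h
  norm_num [Nat.factorial] at h
  have h1 := mom_1.2
  have h2 := mom_2.1
  have h3 := mom_3.2
  have hz2 : 0 ≤ z ^ 2 := by positivity
  have hz4 : 0 ≤ z ^ 4 := by positivity
  have hz6 : 0 ≤ z ^ 6 := by positivity
  have e1 : mom 1 * z ^ 2 ≤ 0.2912 * z ^ 2 := mul_le_mul_of_nonneg_right (by linarith) hz2
  have e2 : 0.1645 * z ^ 4 ≤ mom 2 * z ^ 4 := mul_le_mul_of_nonneg_right (by linarith) hz4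
  have e3 : mom 3 * z ^ 6 ≤ 0.11363 * z ^ 6 := mul_le_mul_of_nonneg_right (by linarith) hz6
  norm_num at e1 e2 e3 ⊢
  linarith

theorem cubic_nonneg_j10277 (z : ℝ) (h0 : 0 ≤ z) (h1 : z ≤ 3) :
    0 ≤ 1 - 0.1456 * z ^ 2 + 0.006854 * z ^ 4 - 0.0001579 * z ^ 6 := by
  have hx1 : z ^ 2 ≤ 9 := by nlinarith
  have hx0 : 0 ≤ z ^ 2 := by positivity
  have e4 : z ^ 4 = (z ^ 2) ^ 2 := by ring
  have e6 : z ^ 6 = (z ^ 2) ^ 3 := by ring
  rw [e4, e6]
  generalize z ^ 2 = x at hx0 hx1
  have h3 : x ^ 3 ≤ 9 * x ^ 2 := by nlinarith [sq_nonneg x]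
  norm_num
  nlinarith [sq_nonneg (x - 27 / 2)]

theorem diag_seven : 4.5550 < Real.sqrt 7 * (2 * ∫ z in (0 : ℝ)..z0, phi 1 z ^ 7) := by
  have hz0 := z0_bounds.1
  have hc : Continuous (fun z => phi 1 z ^ 7) := phi_contN.pow 7
  have s1 : ∫ z in (0 : ℝ)..3, phi 1 z ^ 7 ≤ ∫ z in (0 : ℝ)..z0, phi 1 z ^ 7 := by
    rw [← intervalIntegral.integral_add_adjacent_intervals (hc.intervalIntegrable 0 3)
      (hc.intervalIntegrable 3 z0)]
    have : 0 ≤ ∫ z in (3 : ℝ)..z0, phi 1 z ^ 7 := by
      apply intervalIntegral.integral_nonneg (by linarith)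
      intro z hz
      exact pow_nonneg (phi_nonneg z (by linarith [hz.1]) hz.2) 7
    linarith
  have s2 : ∫ z in (0 : ℝ)..3, ∑ i ∈ Finset.range 22, cs7_j10277 i * z ^ (2 * i)
      ≤ ∫ z in (0 : ℝ)..3, phi 1 z ^ 7 := by
    apply intervalIntegral.integral_mono_on (by norm_num) _ (hc.intervalIntegrable _ _)
    · intro z hz
      rw [← pow7_expand_j10277]
      exact pow_le_pow_left₀ (cubic_nonneg_j10277 z hz.1 hz.2) (phi_cubic_j10277 z) 7
    · exact Continuous.intervalIntegrable (by fun_prop) _ _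
  rw [int_even_poly_j10277] at s2
  have s3 : (0.86092 : ℝ) < ∑ i ∈ Finset.range 22, cs7_j10277 i * ((3:ℝ) ^ (2 * i + 1) / (2 * i + 1)) := by
    simp only [Finset.sum_range_succ, Finset.sum_range_zero, cs7_j10277]
    norm_num
  have s4 : (2.6457 : ℝ) < Real.sqrt 7 := by
    apply Real.lt_sqrt_of_sq_lt
    norm_num
  have s5 : (0.86092 : ℝ) < ∫ z in (0 : ℝ)..z0, phi 1 z ^ 7 := by linarith
  nlinarith



end Pool.Agent.Helper82.GC
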