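import Pool.Agent.Helper82.GC.J9429

set_option autoImplicit false

open MeasureTheory Set

namespace Pool.Agent.Helper82.GC


namespace Diag8

/-- evaluation of an integer polynomial given by its list of coefficients -/
noncomputable def ev_j10290 : List ℤ → ℝ → ℝ
  | [], _ => 0
  | a :: l, x => (a : ℝ) + x * ev_j10290 l x

def add_j10290 : List ℤ → List ℤ → List ℤ
  | [], m => m
  | a :: l, [] => a :: l
  | a :: l, b :: m => (a + b) :: add_j10290 l m

def smul_j10290 (c : ℤ) : List ℤ → List ℤ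
  | [] => []
  | a :: l => (c * a) :: smul_j10290 c l

def mul_j10290 : List ℤ → List ℤ → List ℤ
  | [], _ => []
  | a :: l, m => add_j10290 (smul_j10290 a m) (0 :: mul_j10290 l m)

def itg_j10290 : List ℤ → ℕ → ℚ
  | [], _ => 0
  | a :: l, k => (a : ℚ) * (29 / 10) ^ (2 * k + 1) / (2 * k + 1) + itg_j10290 l (k + 1)

theorem ev_add_j10290 (l m : List ℤ) (x : ℝ) : ev_j10290 (add_j10290 l m) x = ev_j10290 l x + ev_j10290 m x := by
  induction l generalizing m with
  | nil => simp [add_j10290, ev_j10290]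
  | cons a l ih =>
    cases m with
    | nil => simp [add_j10290, ev_j10290]
    | cons b m => simp only [add_j10290, ev_j10290, ih]; push_cast; ring

theorem ev_smul_j10290 (c : ℤ) (l : List ℤ) (x : ℝ) : ev_j10290 (smul_j10290 c l) x = c * ev_j10290 l x := by
  induction l with
  | nil => simp [smul_j10290, ev_j10290]
  | cons a l ih => simp only [smul_j10290, ev_j10290, ih]; push_cast; ring

theorem ev_mul_j10290 (l m : List ℤ) (x : ℝ) : ev_j10290 (mul_j10290 l m) x = ev_j10290 l x * ev_j10290 m x := by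
  induction l with
  | nil => simp [mul_j10290, ev_j10290]
  | cons a l ih => simp only [mul_j10290, ev_j10290, ev_add_j10290, ev_smul_j10290, ih]; push_cast; ring

theorem ev_continuous_j10290 (l : List ℤ) : Continuous (ev_j10290 l) := by
  induction l with
  | nil => exact continuous_const
  | cons a l ih => exact continuous_const.add (continuous_id.mul ih)

theorem itg_eq_j10290 (l : List ℤ) (k : ℕ) :
    ∫ z in (0 : ℝ)..(29 / 10), z ^ (2 * k) * ev_j10290 l (z ^ 2) = ((itg_j10290 l k : ℚ) : ℝ) := by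
  induction l generalizing k with
  | nil => simp [ev_j10290, itg_j10290]
  | cons a l ih =>
    have h1 : ∀ z : ℝ, z ^ (2 * k) * ev_j10290 (a :: l) (z ^ 2) =
        (a : ℝ) * z ^ (2 * k) + z ^ (2 * (k + 1)) * ev_j10290 l (z ^ 2) := by
      intro z
      simp only [ev_j10290]
      ring
    simp_rw [h1]
    rw [intervalIntegral.integral_add, ih (k + 1), intervalIntegral.integral_const_mul, integral_pow]
    · simp only [itg_j10290]
      push_cast
      have : (0 : ℝ) ^ (2 * k + 1) = 0 := by simp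
      rw [this]
      ring
    · exact (continuous_const.mul (continuous_pow _)).intervalIntegrable _ _
    · exact ((continuous_pow _).mul ((ev_continuous_j10290 l).comp (continuous_pow 2))).intervalIntegrable _ _

def P_j10290 : List ℤ := [10000000000000, -1455625473900, 68541824620, -1578152643, 21456851, -192216, 1218, -6, -1]

def P2_j10290 : List ℤ := mul_j10290 P_j10290 P_j10290
def P4_j10290 : List ℤ := mul_j10290 P2_j10290 P2_j10290
def P8_j10290 : List ℤ := mul_j10290 P4_j10290 P4_j10290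

theorem check_j10290 : (807200 / 1000000 : ℚ) * 10 ^ 104 < itg_j10290 P8_j10290 0 := by
  decide +kernel

theorem P_le_j10290 (z : ℝ) : ev_j10290 P_j10290 (z ^ 2) / 10 ^ 13 ≤ phi 1 z := by
  have h := (abs_le.1 (phi_taylor 8 z)).1
  simp only [Finset.sum_range_succ, Finset.sum_range_zero, mom_zero] at h
  norm_num [Nat.factorial] at h
  have hx : 0 ≤ z ^ 2 := sq_nonneg z
  have e1 := mul_le_mul_of_nonneg_right mom_1.2.le hx
  have e2 := mul_le_mul_of_nonneg_right mom_2.1.le (pow_nonneg hx 2)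
  have e3 := mul_le_mul_of_nonneg_right mom_3.2.le (pow_nonneg hx 3)
  have e4 := mul_le_mul_of_nonneg_right mom_4.1.le (pow_nonneg hx 4)
  have e5 := mul_le_mul_of_nonneg_right mom_5.2.le (pow_nonneg hx 5)
  have e6 := mul_le_mul_of_nonneg_right mom_6.1.le (pow_nonneg hx 6)
  have e7 := mul_le_mul_of_nonneg_right mom_7.2.le (pow_nonneg hx 7)
  have e8 := mul_le_mul_of_nonneg_right mom_8.2.le (pow_nonneg hx 8)
  have p2 := pow_nonneg hx 2
  have p3 := pow_nonneg hx 3
  have p4 := pow_nonneg hx 4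
  have p5 := pow_nonneg hx 5
  have p6 := pow_nonneg hx 6
  have p7 := pow_nonneg hx 7
  have p8 := pow_nonneg hx 8
  simp only [← pow_mul] at e1 e2 e3 e4 e5 e6 e7 e8 p2 p3 p4 p5 p6 p7 p8
  norm_num at e1 e2 e3 e4 e5 e6 e7 e8 p2 p3 p4 p5 p6 p7 p8
  have hP : ev_j10290 P_j10290 (z ^ 2) / 10 ^ 13 = (10000000000000 - 1455625473900 * z ^ 2 + 68541824620 * z ^ 4
      - 1578152643 * z ^ 6 + 21456851 * z ^ 8 - 192216 * z ^ 10 + 1218 * z ^ 12 - 6 * z ^ 14
      - z ^ 16) / 10 ^ 13 := by
    simp only [P_j10290, ev_j10290]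
    push_cast
    ring
  rw [hP]
  linarith

theorem P_nonneg_j10290 (z : ℝ) (h0 : 0 ≤ z) (h1 : z ≤ 29 / 10) : 0 ≤ ev_j10290 P_j10290 (z ^ 2) := by
  have h := (abs_le.1 (phi_taylor 8 z)).2
  have hb := (phi_bounds z h0 (by norm_num; linarith)).1
  simp only [Finset.sum_range_succ, Finset.sum_range_zero, mom_zero] at h
  norm_num [Nat.factorial] at h
  have hx : 0 ≤ z ^ 2 := sq_nonneg z
  have hx1 : z ^ 2 ≤ 841 / 100 := by nlinarith
  have e1 := mul_le_mul_of_nonneg_right mom_1.1.le hx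
  have e2 := mul_le_mul_of_nonneg_right mom_2.2.le (pow_nonneg hx 2)
  have e3 := mul_le_mul_of_nonneg_right mom_3.1.le (pow_nonneg hx 3)
  have e4 := mul_le_mul_of_nonneg_right mom_4.2.le (pow_nonneg hx 4)
  have e5 := mul_le_mul_of_nonneg_right mom_5.1.le (pow_nonneg hx 5)
  have e6 := mul_le_mul_of_nonneg_right mom_6.2.le (pow_nonneg hx 6)
  have e7 := mul_le_mul_of_nonneg_right mom_7.1.le (pow_nonneg hx 7)
  have e8 := mul_le_mul_of_nonneg_right mom_8.2.le (pow_nonneg hx 8)
  have p1 := hx1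
  have p2 := pow_le_pow_left₀ hx hx1 2
  have p3 := pow_le_pow_left₀ hx hx1 3
  have p4 := pow_le_pow_left₀ hx hx1 4
  have p5 := pow_le_pow_left₀ hx hx1 5
  have p6 := pow_le_pow_left₀ hx hx1 6
  have p7 := pow_le_pow_left₀ hx hx1 7
  have p8 := pow_le_pow_left₀ hx hx1 8
  simp only [← pow_mul] at e1 e2 e3 e4 e5 e6 e7 e8 p2 p3 p4 p5 p6 p7 p8
  norm_num at e1 e2 e3 e4 e5 e6 e7 e8 p1 p2 p3 p4 p5 p6 p7 p8
  have hP : ev_j10290 P_j10290 (z ^ 2) = (10000000000000 - 1455625473900 * z ^ 2 + 68541824620 * z ^ 4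
      - 1578152643 * z ^ 6 + 21456851 * z ^ 8 - 192216 * z ^ 10 + 1218 * z ^ 12 - 6 * z ^ 14
      - z ^ 16) := by
    simp only [P_j10290, ev_j10290]
    push_cast
    ring
  rw [hP]
  linarith

end Diag8

open Diag8 in
theorem diag_eight : 4.5660 < Real.sqrt 8 * (2 * ∫ z in (0 : ℝ)..z0, phi 1 z ^ 8) := by
  have hz0 := z0_bounds.1
  have hcont : Continuous (fun z => phi 1 z ^ 8) := phi_contN.pow 8
  have hsplit : ∫ z in (0 : ℝ)..z0, phi 1 z ^ 8 =
      (∫ z in (0 : ℝ)..(29 / 10), phi 1 z ^ 8) + ∫ z in (29 / 10 : ℝ)..z0, phi 1 z ^ 8 :=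
    (intervalIntegral.integral_add_adjacent_intervals (hcont.intervalIntegrable _ _)
      (hcont.intervalIntegrable _ _)).symm
  have htail : 0 ≤ ∫ z in (29 / 10 : ℝ)..z0, phi 1 z ^ 8 := by
    apply intervalIntegral.integral_nonneg
    · linarith
    · intro u _
      positivity
  have hmain : (807200 / 1000000 : ℝ) < ∫ z in (0 : ℝ)..(29 / 10), phi 1 z ^ 8 := by
    have hc : ((807200 / 1000000 : ℚ) * 10 ^ 104 : ℚ) < ((itg_j10290 P8_j10290 0 : ℚ)) := check_j10290
    have hc' : (807200 / 1000000 : ℝ) * 10 ^ 104 < ((itg_j10290 P8_j10290 0 : ℚ) : ℝ) := by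
      have := (Rat.cast_lt (K := ℝ)).2 hc
      push_cast at this
      exact this
    rw [← itg_eq_j10290 P8_j10290 0] at hc'
    have hle : ∫ z in (0 : ℝ)..(29 / 10), z ^ (2 * 0) * ev_j10290 P8_j10290 (z ^ 2) ≤
        ∫ z in (0 : ℝ)..(29 / 10), 10 ^ 104 * phi 1 z ^ 8 := by
      apply intervalIntegral.integral_mono_on (by norm_num)
      · exact ((continuous_pow _).mul ((ev_continuous_j10290 P8_j10290).comp (continuous_pow 2))).intervalIntegrable _ _
      · exact (continuous_const.mul hcont).intervalIntegrable _ _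
      · intro z hz
        have h1 := P_nonneg_j10290 z hz.1 hz.2
        have h2 := P_le_j10290 z
        have h3 : ev_j10290 P8_j10290 (z ^ 2) = ev_j10290 P_j10290 (z ^ 2) ^ 8 := by
          unfold P8_j10290 P4_j10290 P2_j10290
          rw [ev_mul_j10290, ev_mul_j10290, ev_mul_j10290]
          ring
        have h4 : ev_j10290 P_j10290 (z ^ 2) ≤ 10 ^ 13 * phi 1 z := by
          have := (div_le_iff₀ (by norm_num : (0 : ℝ) < 10 ^ 13)).1 h2
          linarith
        have h5 := pow_le_pow_left₀ h1 h4 8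
        rw [h3]
        calc z ^ (2 * 0) * ev_j10290 P_j10290 (z ^ 2) ^ 8 = ev_j10290 P_j10290 (z ^ 2) ^ 8 := by simp
          _ ≤ (10 ^ 13 * phi 1 z) ^ 8 := h5
          _ = 10 ^ 104 * phi 1 z ^ 8 := by ring
    rw [intervalIntegral.integral_const_mul] at hle
    have h6 : (807200 / 1000000 : ℝ) * 10 ^ 104 < 10 ^ 104 * ∫ z in (0 : ℝ)..(29 / 10), phi 1 z ^ 8 :=
      lt_of_lt_of_le hc' hle
    have h7 : (0 : ℝ) < 10 ^ 104 := by positivity
    by_contra hcon
    push Not at hcon
    have := mul_le_mul_of_nonneg_left hcon h7.le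
    linarith
  have hs : (2.828427 : ℝ) < Real.sqrt 8 := by
    apply Real.lt_sqrt_of_sq_lt
    norm_num
  have hI : (0.8072 : ℝ) < ∫ z in (0 : ℝ)..z0, phi 1 z ^ 8 := by
    rw [hsplit]
    norm_num at hmain ⊢
    linarith
  calc (4.5660 : ℝ) < 2.828427 * (2 * 0.8072) := by norm_num
    _ < Real.sqrt 8 * (2 * ∫ z in (0 : ℝ)..z0, phi 1 z ^ 8) := by
      apply mul_lt_mul'' hs _ (by norm_num) (by norm_num)
      linarith



end Pool.Agent.Helper82.GC
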