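import Pool.Agent.Helper82.GC.Sx

set_option autoImplicit false

open MeasureTheory Set

namespace Pool.Agent.Helper82.GC


/-- alternating remainders of the exponential series -/
noncomputable def aF_j10292 : ℕ → ℝ → ℝ
  | 0, y => Real.exp (-y)
  | (k + 1), y => y ^ k / (Nat.factorial k) - aF_j10292 k y

theorem aF_deriv_j10292 (k : ℕ) : ∀ y, HasDerivAt (aF_j10292 (k + 1)) (aF_j10292 k y) y := by
  induction k with
  | zero =>
    intro y
    have h : HasDerivAt (fun y : ℝ => Real.exp (-y)) (Real.exp (-y) * (-1)) y :=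
      ((hasDerivAt_id y).neg).exp
    have h2 := (hasDerivAt_const y (1 : ℝ)).sub h
    have e : aF_j10292 (0 + 1) = fun y => (1 : ℝ) - Real.exp (-y) := by
      funext y; simp [aF_j10292]
    rw [e]
    have e2 : aF_j10292 0 y = 0 - Real.exp (-y) * (-1) := by simp [aF_j10292]
    rw [e2]
    exact h2
  | succ k ih =>
    intro y
    have h := ih y
    have h1 : HasDerivAt (fun y : ℝ => y ^ (k + 1) / (Nat.factorial (k + 1) : ℝ))
        (((k + 1 : ℕ) : ℝ) * y ^ k / (Nat.factorial (k + 1) : ℝ)) y := by
      have := (hasDerivAt_pow (k + 1) y).div_const (Nat.factorial (k + 1) : ℝ)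
      simpa using this
    have h2 := h1.sub h
    have e : aF_j10292 (k + 1 + 1) = fun y => y ^ (k + 1) / (Nat.factorial (k + 1) : ℝ) - aF_j10292 (k + 1) y := by
      funext y; rfl
    rw [e]
    have e2 : aF_j10292 (k + 1) y = ((k + 1 : ℕ) : ℝ) * y ^ k / (Nat.factorial (k + 1) : ℝ) - aF_j10292 k y := by
      have h3 : ((k + 1 : ℕ) : ℝ) * y ^ k / (Nat.factorial (k + 1) : ℝ) = y ^ k / (Nat.factorial k) := by
        rw [Nat.factorial_succ]
        have h4 : ((k + 1 : ℕ) : ℝ) ≠ 0 := by positivity
        have h5 : ((Nat.factorial k : ℕ) : ℝ) ≠ 0 := by positivity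
        push_cast at *
        field_simp
      rw [h3]; rfl
    rw [e2]
    exact h2

theorem aF_zero_j10292 (k : ℕ) : aF_j10292 (k + 1) 0 = 0 := by
  induction k with
  | zero => simp [aF_j10292]
  | succ k ih =>
    have : aF_j10292 (k + 1 + 1) 0 = (0 : ℝ) ^ (k + 1) / (Nat.factorial (k + 1) : ℝ) - aF_j10292 (k + 1) 0 := rfl
    rw [this, ih]; simp

theorem aF_nonneg_j10292 (k : ℕ) : ∀ y, 0 ≤ y → 0 ≤ aF_j10292 k y := by
  induction k with
  | zero => intro y _; exact (Real.exp_pos _).le
  | succ k ih =>
    intro y hy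
    have hm : MonotoneOn (aF_j10292 (k + 1)) (Set.Ici 0) := by
      apply monotoneOn_of_deriv_nonneg (convex_Ici 0)
      · exact fun y _ => (aF_deriv_j10292 k y).continuousAt.continuousWithinAt
      · exact fun y _ => (aF_deriv_j10292 k y).differentiableAt.differentiableWithinAt
      · intro y hy
        rw [interior_Ici, Set.mem_Ioi] at hy
        rw [(aF_deriv_j10292 k y).deriv]
        exact ih y hy.le
    have := hm (Set.mem_Ici.2 le_rfl) (Set.mem_Ici.2 hy) hy
    rwa [aF_zero_j10292] at this

theorem exp_neg_le_six_j10292 (y : ℝ) (hy : 0 ≤ y) :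
    Real.exp (-y) ≤ 1 - y + y ^ 2 / 2 - y ^ 3 / 6 + y ^ 4 / 24 - y ^ 5 / 120 + y ^ 6 / 720 := by
  have h := aF_nonneg_j10292 7 y hy
  simp only [aF_j10292, Nat.factorial] at h
  norm_num at h
  linarith

theorem phi_minorant_poly_j10292 (x : ℝ) (h0 : 0 ≤ x) (h1 : x ≤ 59 / 5) :
    (1 + (((14556254739 / 50000000000)) * x / 2) ^ 2 / 2 - (((14556254739 / 50000000000)) * x / 2) ^ 3 / 6 + (((14556254739 / 50000000000)) * x / 2) ^ 4 / 24
      - (((14556254739 / 50000000000)) * x / 2) ^ 5 / 120 + (((14556254739 / 50000000000)) * x / 2) ^ 6 / 720 - 1)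
      * (1 - 0.003745 * x ^ 2 - 0.00019 * x ^ 3 - 0.00001 * x ^ 4) ≤
    (1 - ((14556254739 / 50000000000)) * x / 2) * (0.003745 * x ^ 2 + 0.00019 * x ^ 3 + 0.00001 * x ^ 4)
      + x ^ 2 * (((16450037909 / 100000000000) / 24) + ((-11362699023 / 100000000000) / 720) * x ^ 1 + ((8651402637 / 100000000000) / 40320) * x ^ 2 + ((-3487566607 / 50000000000) / 3628800) * x ^ 3 + ((5838974823 / 100000000000) / 479001600) * x ^ 4 + ((-5019182189 / 100000000000) / 87178291200) * x ^ 5 + ((4400242309 / 100000000000) / 20922789888000) * x ^ 6 + ((-3916628741 / 100000000000) / 6402373705728000) * x ^ 7) := by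
  have hw : 0 ≤ 59 / 5 - x := by linarith
  have key : 0 ≤ x ^ 2 * ((297291645020125637 / 22553155216023705600000000000000) * x ^ 0 * (59 / 5 - x) ^ 8 + (1576412457964505662680519339721 / 11276577608011852800000000000000000000000000) * x ^ 1 * (59 / 5 - x) ^ 7 + (415402033700535940371825602237312682681430753 / 157872086512165939200000000000000000000000000000000000000) * x ^ 2 * (59 / 5 - x) ^ 6 + (105579416659857987179441343108709765115383367587329054572069 / 10656365839571200896000000000000000000000000000000000000000000000000000) * x ^ 3 * (59 / 5 - x) ^ 5 + (185467912998296616895584656543811406887574789893938855076314309700395177 / 10656365839571200896000000000000000000000000000000000000000000000000000000000000000) * x ^ 4 * (59 / 5 - x) ^ 4 + (19206061030840045635911881534484284641894500454909501758455218504386080933 / 1142895236294011296096000000000000000000000000000000000000000000000000000000000000000) * x ^ 5 * (59 / 5 - x) ^ 3 + (4376556681371644543124869889301924932705795497302444413802331403391973236420808483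 / 480015999243484744360320000000000000000000000000000000000000000000000000000000000000000000000) * x ^ 6 * (59 / 5 - x) ^ 2 + (235563974056511326784813280221943244023560470092902622709046930538194897149459748983 / 91803059855316457358911200000000000000000000000000000000000000000000000000000000000000000000000) * x ^ 7 * (59 / 5 - x) ^ 1 + (704828804809653515860070550608144269245452500477865281896768705217145364239468005847 / 1836061197106329147178224000000000000000000000000000000000000000000000000000000000000000000000000) * x ^ 8 * (59 / 5 - x) ^ 0) := by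
    positivity
  have e : (1 - ((14556254739 / 50000000000)) * x / 2) * (0.003745 * x ^ 2 + 0.00019 * x ^ 3 + 0.00001 * x ^ 4)
      + x ^ 2 * (((16450037909 / 100000000000) / 24) + ((-11362699023 / 100000000000) / 720) * x ^ 1 + ((8651402637 / 100000000000) / 40320) * x ^ 2 + ((-3487566607 / 50000000000) / 3628800) * x ^ 3 + ((5838974823 / 100000000000) / 479001600) * x ^ 4 + ((-5019182189 / 100000000000) / 87178291200) * x ^ 5 + ((4400242309 / 100000000000) / 20922789888000) * x ^ 6 + ((-3916628741 / 100000000000) / 6402373705728000) * x ^ 7) -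
      (1 + (((14556254739 / 50000000000)) * x / 2) ^ 2 / 2 - (((14556254739 / 50000000000)) * x / 2) ^ 3 / 6 + (((14556254739 / 50000000000)) * x / 2) ^ 4 / 24
      - (((14556254739 / 50000000000)) * x / 2) ^ 5 / 120 + (((14556254739 / 50000000000)) * x / 2) ^ 6 / 720 - 1)
      * (1 - 0.003745 * x ^ 2 - 0.00019 * x ^ 3 - 0.00001 * x ^ 4) =
      x ^ 2 * ((297291645020125637 / 22553155216023705600000000000000) * x ^ 0 * (59 / 5 - x) ^ 8 + (1576412457964505662680519339721 / 11276577608011852800000000000000000000000000) * x ^ 1 * (59 / 5 - x) ^ 7 + (415402033700535940371825602237312682681430753 / 157872086512165939200000000000000000000000000000000000000) * x ^ 2 * (59 / 5 - x) ^ 6 + (105579416659857987179441343108709765115383367587329054572069 / 10656365839571200896000000000000000000000000000000000000000000000000000) * x ^ 3 * (59 / 5 - x) ^ 5 + (185467912998296616895584656543811406887574789893938855076314309700395177 / 10656365839571200896000000000000000000000000000000000000000000000000000000000000000) * x ^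 4 * (59 / 5 - x) ^ 4 + (19206061030840045635911881534484284641894500454909501758455218504386080933 / 1142895236294011296096000000000000000000000000000000000000000000000000000000000000000) * x ^ 5 * (59 / 5 - x) ^ 3 + (4376556681371644543124869889301924932705795497302444413802331403391973236420808483 / 480015999243484744360320000000000000000000000000000000000000000000000000000000000000000000000) * x ^ 6 * (59 / 5 - x) ^ 2 + (235563974056511326784813280221943244023560470092902622709046930538194897149459748983 / 91803059855316457358911200000000000000000000000000000000000000000000000000000000000000000000000) * x ^ 7 * (59 / 5 - x) ^ 1 + (704828804809653515860070550608144269245452500477865281896768705217145364239468005847 / 1836061197106329147178224000000000000000000000000000000000000000000000000000000000000000000000000) * x ^ 8 * (59 / 5 - x) ^ 0) := by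
    ring
  linarith only [key, e]

theorem phi_minorant (z : ℝ) (h0 : 0 ≤ z) (h1 : z ≤ z0) :
    Real.exp (-(vr 1) * z ^ 2 / 2) * (1 - 0.003745 * z ^ 4 - 0.00019 * z ^ 6 - 0.00001 * z ^ 8) ≤
      phi 1 z := by
  obtain ⟨x, hx⟩ : ∃ x, x = z ^ 2 := ⟨_, rfl⟩
  have hx0 : 0 ≤ x := by rw [hx]; positivity
  have hz4 : z ^ 4 = x ^ 2 := by rw [hx]; ring
  have hz6 : z ^ 6 = x ^ 3 := by rw [hx]; ring
  have hz8 : z ^ 8 = x ^ 4 := by rw [hx]; ring
  rw [hz4, hz6, hz8, vr_eq_mom, ← hx]
  have hphi := phi_nonneg z h0 h1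
  rcases le_or_gt (1 - 0.003745 * x ^ 2 - 0.00019 * x ^ 3 - 0.00001 * x ^ 4) 0 with hP | hP
  · exact (mul_nonpos_of_nonneg_of_nonpos (Real.exp_pos _).le hP).trans hphi
  · have hx1 : x ≤ 59 / 5 := by
      by_contra hc
      push Not at hc
      have k2 : (59 / 5 : ℝ) ^ 2 ≤ x ^ 2 := pow_le_pow_left₀ (by norm_num) hc.le 2
      have k3 : (59 / 5 : ℝ) ^ 3 ≤ x ^ 3 := pow_le_pow_left₀ (by norm_num) hc.le 3
      have k4 : (59 / 5 : ℝ) ^ 4 ≤ x ^ 4 := pow_le_pow_left₀ (by norm_num) hc.le 4
      linarith only [hP, k2, k3, k4]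
    have hpoly := phi_minorant_poly_j10292 x hx0 hx1
    have hv := mom_1
    have hvpos : 0 < mom 1 := mom_pos 1
    obtain ⟨y, hy⟩ : ∃ y, y = mom 1 * x / 2 := ⟨_, rfl⟩
    obtain ⟨y1, hy1⟩ : ∃ y1, y1 = (14556254739 / 50000000000) * x / 2 := ⟨_, rfl⟩
    have hy0 : 0 ≤ y := by rw [hy]; positivity
    have hyy : y ≤ y1 := by
      rw [hy, hy1]
      have : mom 1 * x ≤ (14556254739 / 50000000000) * x := mul_le_mul_of_nonneg_right (by linarith only [hv.2]) hx0
      linarith only [this]
    have hexp1 : Real.exp (-y) ≤ Real.exp (-y1) + (y1 - y) := by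
      have a1 : Real.exp (-y1) = Real.exp (-y) * Real.exp (-(y1 - y)) := by
        rw [← Real.exp_add]; congr 1; ring
      have a2 : 1 - (y1 - y) ≤ Real.exp (-(y1 - y)) := by
        have := Real.add_one_le_exp (-(y1 - y)); linarith only [this]
      have a3 : Real.exp (-y) ≤ 1 := Real.exp_le_one_iff.2 (neg_nonpos.2 hy0)
      have a4 := Real.exp_pos (-y)
      have a5 := mul_le_mul_of_nonneg_left a2 a4.le
      have a6 := mul_le_mul_of_nonneg_right a3 (sub_nonneg.2 hyy)
      rw [a1]
      linarith only [a5, a6]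
    have hexp2 := exp_neg_le_six_j10292 y1 (hy0.trans hyy)
    have hE : Real.exp (-mom 1 * x / 2) = Real.exp (-y) := by rw [hy]; congr 1; ring
    rw [hE]
    have hT := (abs_le.1 (phi_taylor 9 z)).1
    have hz : ∀ k : ℕ, z ^ (2 * k) = x ^ k := by intro k; rw [hx, ← pow_mul]
    simp only [hz] at hT
    simp only [Finset.sum_range_succ, Finset.sum_range_zero, Nat.factorial, mom_zero] at hT
    norm_num at hT
    rw [← hy1] at hpoly
    have hxk : ∀ k : ℕ, 0 ≤ x ^ k := fun k => pow_nonneg hx0 k
    have m2 := mul_le_mul_of_nonneg_right mom_2.1.le (hxk 2)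
    have m3 := mul_le_mul_of_nonneg_right mom_3.2.le (hxk 3)
    have m4 := mul_le_mul_of_nonneg_right mom_4.1.le (hxk 4)
    have m5 := mul_le_mul_of_nonneg_right mom_5.2.le (hxk 5)
    have m6 := mul_le_mul_of_nonneg_right mom_6.1.le (hxk 6)
    have m7 := mul_le_mul_of_nonneg_right mom_7.2.le (hxk 7)
    have m8 := mul_le_mul_of_nonneg_right mom_8.1.le (hxk 8)
    have m9 := mul_le_mul_of_nonneg_right mom_9.2.le (hxk 9)
    have hlow : 1 - y + x ^ 2 * (((16450037909 / 100000000000) / 24) + ((-11362699023 / 100000000000) / 720) * x ^ 1 + ((8651402637 / 100000000000) / 40320) * x ^ 2 + ((-3487566607 / 50000000000) / 3628800) * x ^ 3 + ((5838974823 / 100000000000) / 479001600) * x ^ 4 + ((-5019182189 / 100000000000) / 87178291200) * x ^ 5 + ((4400242309 / 100000000000) / 20922789888000) * x ^ 6 + ((-3916628741 / 100000000000) / 6402373705728000) * x ^ 7) ≤ phi 1 z := by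
      rw [hy]
      have e : x ^ 2 * (((16450037909 / 100000000000) / 24) + ((-11362699023 / 100000000000) / 720) * x ^ 1 + ((8651402637 / 100000000000) / 40320) * x ^ 2 + ((-3487566607 / 50000000000) / 3628800) * x ^ 3 + ((5838974823 / 100000000000) / 479001600) * x ^ 4 + ((-5019182189 / 100000000000) / 87178291200) * x ^ 5 + ((4400242309 / 100000000000) / 20922789888000) * x ^ 6 + ((-3916628741 / 100000000000) / 6402373705728000) * x ^ 7) =
        ((16450037909 / 100000000000) * x ^ 2) / 24 - ((11362699023 / 100000000000) * x ^ 3) / 720 + ((8651402637 / 100000000000) * x ^ 4) / 40320 - ((3487566607 / 50000000000) * x ^ 5) / 3628800 + ((5838974823 / 100000000000) * x ^ 6) / 479001600 - ((5019182189 / 100000000000) * x ^ 7) / 87178291200 + ((4400242309 / 100000000000) * x ^ 8) / 20922789888000 - ((3916628741 / 100000000000) * x ^ 9) / 6402373705728000 := by ring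
      rw [e]
      linarith only [hT, m2, m3, m4, m5, m6, m7, m8, m9]
    have hPle : (1 - 0.003745 * x ^ 2 - 0.00019 * x ^ 3 - 0.00001 * x ^ 4) ≤ 1 := by
      linarith only [hxk 2, hxk 3, hxk 4]
    have hup : Real.exp (-y) ≤ 1 - y + (1 + y1 ^ 2 / 2 - y1 ^ 3 / 6 + y1 ^ 4 / 24 - y1 ^ 5 / 120
        + y1 ^ 6 / 720 - 1) := by linarith only [hexp1, hexp2]
    have hmul := mul_le_mul_of_nonneg_right hup hP.le
    have hq : 0 ≤ 0.003745 * x ^ 2 + 0.00019 * x ^ 3 + 0.00001 * x ^ 4 := by
      have := hxk 2; have := hxk 3; have := hxk 4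
      positivity
    have hyq : (1 - y1) * (0.003745 * x ^ 2 + 0.00019 * x ^ 3 + 0.00001 * x ^ 4) ≤
        (1 - y) * (0.003745 * x ^ 2 + 0.00019 * x ^ 3 + 0.00001 * x ^ 4) :=
      mul_le_mul_of_nonneg_right (by linarith only [hyy]) hq
    refine hmul.trans (le_trans ?_ hlow)
    have e3 : (1 - y + (1 + y1 ^ 2 / 2 - y1 ^ 3 / 6 + y1 ^ 4 / 24 - y1 ^ 5 / 120
        + y1 ^ 6 / 720 - 1)) * (1 - 0.003745 * x ^ 2 - 0.00019 * x ^ 3 - 0.00001 * x ^ 4) =
        (1 - y) - (1 - y) * (0.003745 * x ^ 2 + 0.00019 * x ^ 3 + 0.00001 * x ^ 4) +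
        (1 + y1 ^ 2 / 2 - y1 ^ 3 / 6 + y1 ^ 4 / 24 - y1 ^ 5 / 120
        + y1 ^ 6 / 720 - 1) * (1 - 0.003745 * x ^ 2 - 0.00019 * x ^ 3 - 0.00001 * x ^ 4) := by ring
    rw [e3]
    linarith only [hyq, hpoly]



end Pool.Agent.Helper82.GC
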