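import Pool.Agent.Helper82.GC.J10292
import Pool.Agent.Helper82.GC.J9429

set_option autoImplicit false

open MeasureTheory Set

namespace Pool.Agent.Helper82.GC


theorem gmom_10294_j10294 (b : ℝ) (hb : 0 < b) (k : ℕ) :
    ∫ x in Ioi (0 : ℝ), x ^ (2 * k) * Real.exp (-b * x ^ 2) =
      b ^ (-(2 * (k : ℝ) + 1) / 2) * (1 / 2) * Real.Gamma ((2 * (k : ℝ) + 1) / 2) := by
  rw [← integral_rpow_mul_exp_neg_mul_rpow (p := 2) (q := 2 * (k : ℝ)) (by norm_num)
    (by have : (0 : ℝ) ≤ k := Nat.cast_nonneg k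
        linarith) hb]
  apply setIntegral_congr_fun measurableSet_Ioi
  intro x _
  show x ^ (2 * k) * Real.exp (-b * x ^ 2) = x ^ (2 * (k : ℝ)) * Real.exp (-b * x ^ (2 : ℝ))
  rw [Real.rpow_two]
  congr 1
  rw [← Real.rpow_natCast]
  push_cast
  rfl

theorem gmom_succ_10294_j10294 (b : ℝ) (hb : 0 < b) (k : ℕ) :
    ∫ x in Ioi (0 : ℝ), x ^ (2 * (k + 1)) * Real.exp (-b * x ^ 2) =
      (2 * (k : ℝ) + 1) / (2 * b) *
        ∫ x in Ioi (0 : ℝ), x ^ (2 * k) * Real.exp (-b * x ^ 2) := by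
  have hk : (0 : ℝ) ≤ k := Nat.cast_nonneg k
  rw [gmom_10294_j10294 b hb (k + 1), gmom_10294_j10294 b hb k]
  have e1 : (2 * (((k + 1 : ℕ) : ℝ)) + 1) / 2 = (2 * (k : ℝ) + 1) / 2 + 1 := by
    push_cast
    ring
  have e2 : -(2 * (((k + 1 : ℕ) : ℝ)) + 1) / 2 = -(2 * (k : ℝ) + 1) / 2 + (-1) := by
    push_cast
    ring
  rw [e1, e2, Real.Gamma_add_one (by positivity), Real.rpow_add hb, Real.rpow_neg_one]
  field_simp

/-- the minorant -/
noncomputable def gl_10294_j10294 (n : ℕ) (v z : ℝ) : ℝ :=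
  Real.exp (-(n * v / 2) * z ^ 2) *
    (1 - n * (0.003745 * z ^ 4 + 0.00019 * z ^ 6 + 0.00001 * z ^ 8))

theorem int_mom_10294_j10294 (b : ℝ) (hb : 0 < b) (k : ℕ) :
    IntegrableOn (fun x : ℝ => x ^ k * Real.exp (-b * x ^ 2)) (Ioi 0) := by
  have h := integrableOn_rpow_mul_exp_neg_mul_sq hb (s := (k : ℝ))
    (by have : (0 : ℝ) ≤ k := Nat.cast_nonneg k
        linarith)
  simpa [Real.rpow_natCast] using h

theorem gl_eq_10294_j10294 (n : ℕ) (v : ℝ) : gl_10294_j10294 n v = fun z =>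
    z ^ 0 * Real.exp (-(n * v / 2) * z ^ 2) -
      (n * 0.003745 * (z ^ 4 * Real.exp (-(n * v / 2) * z ^ 2)) +
      n * 0.00019 * (z ^ 6 * Real.exp (-(n * v / 2) * z ^ 2)) +
      n * 0.00001 * (z ^ 8 * Real.exp (-(n * v / 2) * z ^ 2))) := by
  funext z
  unfold gl_10294_j10294
  ring

theorem gl_int_10294_j10294 (n : ℕ) (v : ℝ) (hb : 0 < (n : ℝ) * v / 2) :
    IntegrableOn (gl_10294_j10294 n v) (Ioi 0) := by
  rw [gl_eq_10294_j10294]
  exact (int_mom_10294_j10294 _ hb 0).sub (((((int_mom_10294_j10294 _ hb 4).const_mul _)).add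
    ((int_mom_10294_j10294 _ hb 6).const_mul _)).add ((int_mom_10294_j10294 _ hb 8).const_mul _))

theorem gl_val_10294_j10294 (n : ℕ) (v : ℝ) (hb : 0 < (n : ℝ) * v / 2) :
    ∫ z in Ioi (0 : ℝ), gl_10294_j10294 n v z = Real.sqrt (Real.pi / (n * v / 2)) / 2 *
      (1 - n * (0.003745 * (3 / (2 * (n * v / 2)) ^ 2) +
      0.00019 * (15 / (2 * (n * v / 2)) ^ 3) + 0.00001 * (105 / (2 * (n * v / 2)) ^ 4))) := by
  rw [gl_eq_10294_j10294]
  have i0 := int_mom_10294_j10294 _ hb 0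
  have i4 := (int_mom_10294_j10294 _ hb 4).const_mul ((n : ℝ) * 0.003745)
  have i6 := (int_mom_10294_j10294 _ hb 6).const_mul ((n : ℝ) * 0.00019)
  have i8 := (int_mom_10294_j10294 _ hb 8).const_mul ((n : ℝ) * 0.00001)
  have hs := gmom_succ_10294_j10294 _ hb
  have h0 : ∫ x in Ioi (0 : ℝ), x ^ 0 * Real.exp (-(n * v / 2) * x ^ 2) =
      Real.sqrt (Real.pi / (n * v / 2)) / 2 := by
    rw [← integral_gaussian_Ioi]
    simp
  have h2 := hs 0
  have h4 := hs 1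
  have h6 := hs 2
  have h8 := hs 3
  norm_num only [Nat.cast_ofNat, Nat.cast_one, Nat.cast_zero] at h2 h4 h6 h8
  rw [h0] at h2
  rw [h2] at h4
  rw [h4] at h6
  rw [h6] at h8
  have step1 : ∫ z in Ioi (0 : ℝ), (z ^ 0 * Real.exp (-(n * v / 2) * z ^ 2) -
      (n * 0.003745 * (z ^ 4 * Real.exp (-(n * v / 2) * z ^ 2)) +
      n * 0.00019 * (z ^ 6 * Real.exp (-(n * v / 2) * z ^ 2)) +
      n * 0.00001 * (z ^ 8 * Real.exp (-(n * v / 2) * z ^ 2)))) =
      (∫ z in Ioi (0 : ℝ), z ^ 0 * Real.exp (-(n * v / 2) * z ^ 2)) -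
      (n * 0.003745 * (∫ z in Ioi (0 : ℝ), z ^ 4 * Real.exp (-(n * v / 2) * z ^ 2)) +
      n * 0.00019 * (∫ z in Ioi (0 : ℝ), z ^ 6 * Real.exp (-(n * v / 2) * z ^ 2)) +
      n * 0.00001 * (∫ z in Ioi (0 : ℝ), z ^ 8 * Real.exp (-(n * v / 2) * z ^ 2))) := by
    have a1 : Integrable (fun z : ℝ => n * 0.003745 * (z ^ 4 * Real.exp (-(n * v / 2) * z ^ 2)) +
      n * 0.00019 * (z ^ 6 * Real.exp (-(n * v / 2) * z ^ 2)))
        (volume.restrict (Ioi (0 : ℝ))) := i4.add i6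
    have a2 : Integrable (fun z : ℝ => n * 0.003745 * (z ^ 4 * Real.exp (-(n * v / 2) * z ^ 2)) +
      n * 0.00019 * (z ^ 6 * Real.exp (-(n * v / 2) * z ^ 2)) +
      n * 0.00001 * (z ^ 8 * Real.exp (-(n * v / 2) * z ^ 2)))
        (volume.restrict (Ioi (0 : ℝ))) := a1.add i8
    rw [integral_sub i0 a2, integral_add a1 i8, integral_add i4 i6,
      integral_const_mul, integral_const_mul, integral_const_mul]
  rw [step1, h0]
  rw [h4, h6, h8]
  field_simp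
  ring

theorem diag_large (n : ℕ) (hn : 9 ≤ n) :
    P1 * (1 - 0.1326 / n - 0.1156 / (n : ℝ) ^ 2 - 0.1463 / (n : ℝ) ^ 3) ≤
      Real.sqrt n * (2 * ∫ z in (0 : ℝ)..z0, phi 1 z ^ n) := by
  have hv := mom_1
  rw [← vr_eq_mom] at hv
  have hz := z0_bounds
  have hz0 : 0 ≤ z0 := by linarith [hz.1]
  have hn9 : (9 : ℝ) ≤ n := by exact_mod_cast hn
  have hn0 : (0 : ℝ) < n := by linarith
  have hvpos : 0 < vr 1 := by linarith [hv.1]
  have hmin := phi_minorant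
  have hP1 : P1 = Real.sqrt (2 * Real.pi / vr 1) := rfl
  generalize vr 1 = v at *
  have hb : 0 < (n : ℝ) * v / 2 := by positivity
  -- lower bound of the integral
  have hpt : ∀ z ∈ Icc 0 z0, gl_10294_j10294 n v z ≤ phi 1 z ^ n := by
    intro z hz
    have h1 := hmin z hz.1 hz.2
    have h2 := phi_nonneg z hz.1 hz.2
    unfold gl_10294_j10294
    have hy0 : 0 ≤ 0.003745 * z ^ 4 + 0.00019 * z ^ 6 + 0.00001 * z ^ 8 := by positivity
    have h1' : Real.exp (-v * z ^ 2 / 2) *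
        (1 - (0.003745 * z ^ 4 + 0.00019 * z ^ 6 + 0.00001 * z ^ 8)) ≤ phi 1 z := by
      have e : (1 - (0.003745 * z ^ 4 + 0.00019 * z ^ 6 + 0.00001 * z ^ 8)) =
        (1 - 0.003745 * z ^ 4 - 0.00019 * z ^ 6 - 0.00001 * z ^ 8) := by ring
      rw [e]
      exact h1
    generalize 0.003745 * z ^ 4 + 0.00019 * z ^ 6 + 0.00001 * z ^ 8 = y at *
    have hexp : Real.exp (-(n * v / 2) * z ^ 2) = Real.exp (-v * z ^ 2 / 2) ^ n := by
      rw [← Real.exp_nat_mul]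
      congr 1
      ring
    rcases le_or_gt y 1 with hy | hy
    · have h3 : 1 + (n : ℝ) * (-y) ≤ (1 + -y) ^ n := one_add_mul_le_pow (by linarith) n
      calc Real.exp (-(n * v / 2) * z ^ 2) * (1 - n * y)
          ≤ Real.exp (-(n * v / 2) * z ^ 2) * (1 - y) ^ n := by
            apply mul_le_mul_of_nonneg_left _ (Real.exp_pos _).le
            have e1 : 1 - n * y = 1 + (n : ℝ) * (-y) := by ring
            have e2 : 1 - y = 1 + -y := by ring
            rw [e1, e2]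
            exact h3
        _ = (Real.exp (-v * z ^ 2 / 2) * (1 - y)) ^ n := by rw [hexp, mul_pow]
        _ ≤ phi 1 z ^ n := by
            apply pow_le_pow_left₀ _ h1'
            exact mul_nonneg (Real.exp_pos _).le (by linarith)
    · have h3 : 1 - n * y ≤ 0 := by
        have h5 : (1 : ℝ) * 1 ≤ n * y := mul_le_mul (by linarith only [hn9]) hy.le (by norm_num) hn0.le
        linarith only [h5]
      have h4 : Real.exp (-(n * v / 2) * z ^ 2) * (1 - n * y) ≤ 0 :=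
        mul_nonpos_of_nonneg_of_nonpos (Real.exp_pos _).le h3
      exact h4.trans (pow_nonneg h2 n)
  have hcg : Continuous (gl_10294_j10294 n v) := by
    unfold gl_10294_j10294
    fun_prop
  have hint1 : ∫ z in (0 : ℝ)..z0, gl_10294_j10294 n v z ≤ ∫ z in (0 : ℝ)..z0, phi 1 z ^ n :=
    intervalIntegral.integral_mono_on hz0 (hcg.intervalIntegrable _ _)
      ((phi_contN.pow n).intervalIntegrable _ _) hpt
  have hint2 : ∫ z in Ioi (0 : ℝ), gl_10294_j10294 n v z ≤ ∫ z in (0 : ℝ)..z0, gl_10294_j10294 n v z := by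
    have hI := gl_int_10294_j10294 n v hb
    rw [intervalIntegral.integral_of_le hz0, ← Ioc_union_Ioi_eq_Ioi hz0]
    have hI1 : IntegrableOn (gl_10294_j10294 n v) (Ioc 0 z0) := hI.mono_set Ioc_subset_Ioi_self
    have hI2 : IntegrableOn (gl_10294_j10294 n v) (Ioi z0) := hI.mono_set (Ioi_subset_Ioi hz0)
    rw [setIntegral_union (Ioc_disjoint_Ioi le_rfl) measurableSet_Ioi hI1 hI2]
    have h3 : ∫ z in Ioi z0, gl_10294_j10294 n v z ≤ 0 := by
      apply setIntegral_nonpos measurableSet_Ioi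
      intro z hz'
      have hz3 : 3.4 ≤ z := by
        have : z0 < z := hz'
        linarith [hz.1]
      unfold gl_10294_j10294
      apply mul_nonpos_of_nonneg_of_nonpos (Real.exp_pos _).le
      have h4 : (3.4 : ℝ) ^ 4 ≤ z ^ 4 := pow_le_pow_left₀ (by norm_num) hz3 4
      have h6 : (3.4 : ℝ) ^ 6 ≤ z ^ 6 := pow_le_pow_left₀ (by norm_num) hz3 6
      have h8 : (3.4 : ℝ) ^ 8 ≤ z ^ 8 := pow_le_pow_left₀ (by norm_num) hz3 8
      have h9 : (1 / 9 : ℝ) ≤ 0.003745 * z ^ 4 + 0.00019 * z ^ 6 + 0.00001 * z ^ 8 := by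
        norm_num at h4 h6 h8 ⊢
        linarith only [h4, h6, h8]
      have h10 : (9 : ℝ) * (1 / 9) ≤ n * (0.003745 * z ^ 4 + 0.00019 * z ^ 6 + 0.00001 * z ^ 8) :=
        mul_le_mul hn9 h9 (by norm_num) hn0.le
      linarith only [h10]
    linarith only [h3]
  have hval := gl_val_10294_j10294 n v hb
  have hM : 0 < Real.sqrt (Real.pi / (n * v / 2)) / 2 := by positivity
  have hchain : ∫ z in Ioi (0 : ℝ), gl_10294_j10294 n v z ≤ ∫ z in (0 : ℝ)..z0, phi 1 z ^ n :=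
    hint2.trans hint1
  rw [hval] at hchain
  -- constants
  have hsq : Real.sqrt n * (2 * (Real.sqrt (Real.pi / (n * v / 2)) / 2)) = P1 := by
    rw [hP1]
    have e1 : Real.sqrt n * (2 * (Real.sqrt (Real.pi / (n * v / 2)) / 2)) =
        Real.sqrt n * Real.sqrt (Real.pi / (n * v / 2)) := by ring
    rw [e1, ← Real.sqrt_mul hn0.le]
    congr 1
    field_simp
  have hP1pos : 0 < P1 := by rw [← hsq]; positivity
  have hfin : P1 * (1 - n * (0.003745 * (3 / (2 * (n * v / 2)) ^ 2) +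
      0.00019 * (15 / (2 * (n * v / 2)) ^ 3) + 0.00001 * (105 / (2 * (n * v / 2)) ^ 4))) ≤
      Real.sqrt n * (2 * ∫ z in (0 : ℝ)..z0, phi 1 z ^ n) := by
    rw [← hsq]
    have hs : 0 ≤ Real.sqrt (n : ℝ) * 2 := by positivity
    have := mul_le_mul_of_nonneg_left hchain hs
    calc Real.sqrt n * (2 * (Real.sqrt (Real.pi / (n * v / 2)) / 2)) *
          (1 - n * (0.003745 * (3 / (2 * (n * v / 2)) ^ 2) +
      0.00019 * (15 / (2 * (n * v / 2)) ^ 3) + 0.00001 * (105 / (2 * (n * v / 2)) ^ 4)))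
        = Real.sqrt (n : ℝ) * 2 * (Real.sqrt (Real.pi / (n * v / 2)) / 2 *
          (1 - n * (0.003745 * (3 / (2 * (n * v / 2)) ^ 2) +
      0.00019 * (15 / (2 * (n * v / 2)) ^ 3) + 0.00001 * (105 / (2 * (n * v / 2)) ^ 4)))) := by
          ring
      _ ≤ Real.sqrt (n : ℝ) * 2 * ∫ z in (0 : ℝ)..z0, phi 1 z ^ n := this
      _ = Real.sqrt n * (2 * ∫ z in (0 : ℝ)..z0, phi 1 z ^ n) := by ring
  refine le_trans ?_ hfin
  apply mul_le_mul_of_nonneg_left _ hP1pos.le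
  have hv1 : (0.291125 : ℝ) ≤ v := by linarith [hv.1]
  have hv2 : (0.291125 : ℝ) ^ 2 ≤ v ^ 2 := pow_le_pow_left₀ (by norm_num) hv1 2
  have hv3 : (0.291125 : ℝ) ^ 3 ≤ v ^ 3 := pow_le_pow_left₀ (by norm_num) hv1 3
  have hv4 : (0.291125 : ℝ) ^ 4 ≤ v ^ 4 := pow_le_pow_left₀ (by norm_num) hv1 4
  have e : n * (0.003745 * (3 / (2 * (n * v / 2)) ^ 2) +
      0.00019 * (15 / (2 * (n * v / 2)) ^ 3) + 0.00001 * (105 / (2 * (n * v / 2)) ^ 4)) =
      (0.011235 / v ^ 2) / n + (0.00285 / v ^ 3) / (n : ℝ) ^ 2 + (0.00105 / v ^ 4) / (n : ℝ) ^ 3 := by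
    field_simp
    ring
  rw [e]
  have f2 : 0.011235 / v ^ 2 ≤ 0.1326 := by
    rw [div_le_iff₀ (by positivity)]
    norm_num at hv2 ⊢
    linarith
  have f3 : 0.00285 / v ^ 3 ≤ 0.1156 := by
    rw [div_le_iff₀ (by positivity)]
    norm_num at hv3 ⊢
    linarith
  have f4 : 0.00105 / v ^ 4 ≤ 0.1463 := by
    rw [div_le_iff₀ (by positivity)]
    norm_num at hv4 ⊢
    linarith
  have g2 : (0.011235 / v ^ 2) / n ≤ 0.1326 / n := div_le_div_of_nonneg_right f2 hn0.le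
  have g3 : (0.00285 / v ^ 3) / (n : ℝ) ^ 2 ≤ 0.1156 / (n : ℝ) ^ 2 :=
    div_le_div_of_nonneg_right f3 (by positivity)
  have g4 : (0.00105 / v ^ 4) / (n : ℝ) ^ 3 ≤ 0.1463 / (n : ℝ) ^ 3 :=
    div_le_div_of_nonneg_right f4 (by positivity)
  linarith only [g2, g3, g4]



end Pool.Agent.Helper82.GC
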