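import Pool.Agent.Helper82.GC.Sa

set_option autoImplicit false

open MeasureTheory Set

namespace Pool.Agent.Helper82.GC






theorem sb_core (D : ℝ → ℝ) (D' : ℝ → ℝ) (k x1 : ℝ) (hx1 : 0 ≤ x1) (hc : Continuous D)
    (hd : ∀ x, 0 < x → x < x1 → HasDerivAt D (D' x) x)
    (hk : ∀ x, 0 < x → x < x1 → D' x ≤ -(k * x)) :
    D x1 + k * x1 ^ 2 / 2 ≤ D 0 := by
  have hh : ∀ x, 0 < x → x < x1 →
      HasDerivAt (fun x => D x + k * x ^ 2 / 2) (D' x + k * x) x := by
    intro x hx hx2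
    have h1 : HasDerivAt (fun x : ℝ => k * x ^ 2 / 2) (k * x) x := by
      have := ((hasDerivAt_pow 2 x).const_mul k).div_const 2
      refine this.congr_deriv ?_
      push_cast
      ring
    exact (hd x hx hx2).add h1
  have hanti : AntitoneOn (fun x => D x + k * x ^ 2 / 2) (Icc 0 x1) := by
    apply antitoneOn_of_deriv_nonpos (convex_Icc 0 x1)
    · apply Continuous.continuousOn
      fun_prop
    · intro x hx
      rw [interior_Icc] at hx
      exact (hh x hx.1 hx.2).differentiableAt.differentiableWithinAt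
    · intro x hx
      rw [interior_Icc] at hx
      rw [(hh x hx.1 hx.2).deriv]
      linarith [hk x hx.1 hx.2]
  have := hanti (left_mem_Icc.2 hx1) (right_mem_Icc.2 hx1) hx1
  simp only [] at this
  linarith [this, show k * (0:ℝ) ^ 2 / 2 = 0 by ring]

theorem sb_deriv {r : ℝ} (hr : 0 < r) (t m x : ℝ) (h1 : 0 < m + x) (h2 : 0 < m - x) :
    HasDerivAt (fun x => phi r (Real.sqrt (m + x) * t) * phi r (Real.sqrt (m - x) * t))
      (-(t ^ 2 / 2) * (psi r (Real.sqrt (m + x) * t) * phi r (Real.sqrt (m - x) * t) -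
        phi r (Real.sqrt (m + x) * t) * psi r (Real.sqrt (m - x) * t))) x := by
  have s1 := Real.sqrt_pos.2 h1
  have s2 := Real.sqrt_pos.2 h2
  have d1 : HasDerivAt (fun x => Real.sqrt (m + x) * t) (1 / (2 * Real.sqrt (m + x)) * t) x :=
    (((hasDerivAt_id x).const_add m).sqrt h1.ne').mul_const t
  have d2 : HasDerivAt (fun x => Real.sqrt (m - x) * t) (-1 / (2 * Real.sqrt (m - x)) * t) x :=
    (((hasDerivAt_id x).const_sub m).sqrt h2.ne').mul_const t
  have e1 := (phi_hasDerivAt_psi hr (Real.sqrt (m + x) * t)).comp x d1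
  have e2 := (phi_hasDerivAt_psi hr (Real.sqrt (m - x) * t)).comp x d2
  have e3 := e1.mul e2
  refine e3.congr_deriv ?_
  simp only [Function.comp_apply]
  have f1 : Real.sqrt (m + x) * t * psi r (Real.sqrt (m + x) * t) *
      (1 / (2 * Real.sqrt (m + x)) * t) = t ^ 2 / 2 * psi r (Real.sqrt (m + x) * t) := by
    field_simp
  have f2 : Real.sqrt (m - x) * t * psi r (Real.sqrt (m - x) * t) *
      (-1 / (2 * Real.sqrt (m - x)) * t) = -(t ^ 2 / 2 * psi r (Real.sqrt (m - x) * t)) := by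
    field_simp
  linear_combination (-phi r (Real.sqrt (m - x) * t)) * f1 +
    (-phi r (Real.sqrt (m + x) * t)) * f2

theorem sb_cont {r : ℝ} (hr : 0 < r) : Continuous (phi r) :=
  continuous_iff_continuousAt.2 fun z => (phi_hasDerivAt_psi hr z).continuousAt

theorem sb_sq (t m x : ℝ) (h1 : 0 ≤ m + x) (h2 : 0 ≤ m - x) :
    (Real.sqrt (m + x) * t) ^ 2 - (Real.sqrt (m - x) * t) ^ 2 = 2 * x * t ^ 2 := by
  rw [mul_pow, mul_pow, Real.sq_sqrt h1, Real.sq_sqrt h2]
  ring

theorem sb_le (t m x : ℝ) (ht : 0 ≤ t) (hx : 0 ≤ x) :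
    0 ≤ Real.sqrt (m - x) * t ∧ Real.sqrt (m - x) * t ≤ Real.sqrt (m + x) * t :=
  ⟨by positivity, mul_le_mul_of_nonneg_right (Real.sqrt_le_sqrt (by linarith)) ht⟩

/-- local version for `0 ≤ b ≤ a`, `0 ≤ t` -/
theorem sb_local {r : ℝ} (hr : 0 < r) (c w0 : ℝ)
    (hb : ∀ α β : ℝ, 0 ≤ β → β ≤ α → α ^ 2 ≤ w0 →
      c * (α ^ 2 - β ^ 2) ≤ psi r α * phi r β - phi r α * psi r β) (a b t : ℝ)
    (hb0 : 0 ≤ b) (hba : b ≤ a) (ht : 0 ≤ t) (haw : a * t ^ 2 ≤ w0) :
    c / 4 * (a - b) ^ 2 * t ^ 4 / 2 ≤ phi r (Real.sqrt ((a + b) / 2) * t) ^ 2 -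
        phi r (Real.sqrt a * t) * phi r (Real.sqrt b * t) := by
  have hc := sb_cont hr
  have key := sb_core
    (fun x => phi r (Real.sqrt ((a + b) / 2 + x) * t) * phi r (Real.sqrt ((a + b) / 2 - x) * t))
    (fun x => (-(t ^ 2 / 2) * (psi r (Real.sqrt ((a + b) / 2 + x) * t) *
        phi r (Real.sqrt ((a + b) / 2 - x) * t) -
        phi r (Real.sqrt ((a + b) / 2 + x) * t) * psi r (Real.sqrt ((a + b) / 2 - x) * t))))
    (c * t ^ 4) ((a - b) / 2) (by linarith) (by fun_prop) (by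
      intro x hx hx2
      exact sb_deriv hr t _ x (by linarith) (by linarith)) (by
      intro x hx hx2
      have h1 := sb_le t ((a + b) / 2) x ht hx.le
      have h2 := hb (Real.sqrt ((a + b) / 2 + x) * t) (Real.sqrt ((a + b) / 2 - x) * t) h1.1 h1.2
        (by
          rw [mul_pow, Real.sq_sqrt (by linarith)]
          refine le_trans ?_ haw
          apply mul_le_mul_of_nonneg_right (by linarith) (by positivity))
      rw [sb_sq t _ x (by linarith) (by linarith)] at h2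
      have h3 : t ^ 2 / 2 * (c * (2 * x * t ^ 2)) ≤ t ^ 2 / 2 *
        (psi r (Real.sqrt ((a + b) / 2 + x) * t) *
        phi r (Real.sqrt ((a + b) / 2 - x) * t) -
        phi r (Real.sqrt ((a + b) / 2 + x) * t) * psi r (Real.sqrt ((a + b) / 2 - x) * t)) :=
        mul_le_mul_of_nonneg_left h2 (by positivity)
      linarith)
  simp only [add_zero, sub_zero] at key
  rw [show (a + b) / 2 + (a - b) / 2 = a by ring, show (a + b) / 2 - (a - b) / 2 = b by ring]
    at key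
  linarith

theorem sb_global {r : ℝ} (hr : 0 < r) (C : ℝ)
    (hb : ∀ α β : ℝ, 0 ≤ β → β ≤ α →
      |psi r α * phi r β - phi r α * psi r β| ≤ C * (α ^ 2 - β ^ 2)) (a b t : ℝ)
    (hb0 : 0 ≤ b) (hba : b ≤ a) (ht : 0 ≤ t) :
    |phi r (Real.sqrt ((a + b) / 2) * t) ^ 2 -
        phi r (Real.sqrt a * t) * phi r (Real.sqrt b * t)| ≤ C / 4 * (a - b) ^ 2 * t ^ 4 / 2 := by
  have hc := sb_cont hr
  have hbr : ∀ x, 0 < x → x < (a - b) / 2 →
      t ^ 2 / 2 * |psi r (Real.sqrt ((a + b) / 2 + x) * t) *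
        phi r (Real.sqrt ((a + b) / 2 - x) * t) -
        phi r (Real.sqrt ((a + b) / 2 + x) * t) * psi r (Real.sqrt ((a + b) / 2 - x) * t)| ≤
      t ^ 2 / 2 * (C * (2 * x * t ^ 2)) := by
    intro x hx hx2
    have h1 := sb_le t ((a + b) / 2) x ht hx.le
    have h2 := hb (Real.sqrt ((a + b) / 2 + x) * t) (Real.sqrt ((a + b) / 2 - x) * t) h1.1 h1.2
    rw [sb_sq t _ x (by linarith) (by linarith)] at h2
    exact mul_le_mul_of_nonneg_left h2 (by positivity)
  have key1 := sb_core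
    (fun x => phi r (Real.sqrt ((a + b) / 2 + x) * t) * phi r (Real.sqrt ((a + b) / 2 - x) * t))
    (fun x => (-(t ^ 2 / 2) * (psi r (Real.sqrt ((a + b) / 2 + x) * t) *
        phi r (Real.sqrt ((a + b) / 2 - x) * t) -
        phi r (Real.sqrt ((a + b) / 2 + x) * t) * psi r (Real.sqrt ((a + b) / 2 - x) * t))))
    (-(C * t ^ 4)) ((a - b) / 2) (by linarith) (by fun_prop) (by
      intro x hx hx2
      exact sb_deriv hr t _ x (by linarith) (by linarith)) (by
      intro x hx hx2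
      have h2 := hbr x hx hx2
      have h3 := neg_abs_le (psi r (Real.sqrt ((a + b) / 2 + x) * t) *
        phi r (Real.sqrt ((a + b) / 2 - x) * t) -
        phi r (Real.sqrt ((a + b) / 2 + x) * t) * psi r (Real.sqrt ((a + b) / 2 - x) * t))
      have h4 := mul_le_mul_of_nonneg_left h3 (show 0 ≤ t ^ 2 / 2 by positivity)
      linarith)
  have key2 := sb_core
    (fun x => -(phi r (Real.sqrt ((a + b) / 2 + x) * t) *
        phi r (Real.sqrt ((a + b) / 2 - x) * t)))
    (fun x => -(-(t ^ 2 / 2) * (psi r (Real.sqrt ((a + b) / 2 + x) * t) *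
        phi r (Real.sqrt ((a + b) / 2 - x) * t) -
        phi r (Real.sqrt ((a + b) / 2 + x) * t) * psi r (Real.sqrt ((a + b) / 2 - x) * t))))
    (-(C * t ^ 4)) ((a - b) / 2) (by linarith) (by fun_prop) (by
      intro x hx hx2
      exact (sb_deriv hr t _ x (by linarith) (by linarith)).neg) (by
      intro x hx hx2
      have h2 := hbr x hx hx2
      have h3 := le_abs_self (psi r (Real.sqrt ((a + b) / 2 + x) * t) *
        phi r (Real.sqrt ((a + b) / 2 - x) * t) -
        phi r (Real.sqrt ((a + b) / 2 + x) * t) * psi r (Real.sqrt ((a + b) / 2 - x) * t))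
      have h4 := mul_le_mul_of_nonneg_left h3 (show 0 ≤ t ^ 2 / 2 by positivity)
      linarith)
  simp only [add_zero, sub_zero] at key1 key2
  rw [show (a + b) / 2 + (a - b) / 2 = a by ring, show (a + b) / 2 - (a - b) / 2 = b by ring]
    at key1 key2
  rw [abs_le]
  constructor
  · linarith
  · linarith

theorem sb_phi_abs (r s t : ℝ) : phi r (s * |t|) = phi r (s * t) := by
  rcases le_total 0 t with h | h
  · rw [abs_of_nonneg h]
  · rw [abs_of_nonpos h, mul_neg, phi_neg]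

theorem pair_local {r : ℝ} (hr : 0 < r) :
    ∃ c : ℝ, 0 < c ∧ ∃ w0 : ℝ, 0 < w0 ∧ ∀ a b t : ℝ, 0 ≤ a → 0 ≤ b → a * t ^ 2 ≤ w0 →
      b * t ^ 2 ≤ w0 →
      c * (a - b) ^ 2 * t ^ 4 ≤ phi r (Real.sqrt ((a + b) / 2) * t) ^ 2 -
        phi r (Real.sqrt a * t) * phi r (Real.sqrt b * t) := by
  obtain ⟨c, hc, w0, hw0, hb⟩ := bracket_lower hr
  refine ⟨c / 8, by positivity, w0, hw0, ?_⟩
  intro a b t ha hb0 haw hbw
  rw [← sb_phi_abs r _ t, ← sb_phi_abs r _ t, ← sb_phi_abs r _ t]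
  have e4 : t ^ 4 = |t| ^ 4 := by
    rw [show (4:ℕ) = 2 * 2 by norm_num, pow_mul, pow_mul, sq_abs]
  rw [e4]
  rw [← sq_abs t] at haw hbw
  rcases le_total b a with h | h
  · have := sb_local hr c w0 hb a b |t| hb0 h (abs_nonneg t) haw
    linarith
  · have := sb_local hr c w0 hb b a |t| ha h (abs_nonneg t) hbw
    rw [add_comm b a, mul_comm (phi r (Real.sqrt b * |t|))] at this
    have e : (a - b) ^ 2 = (b - a) ^ 2 := by ring
    rw [e]
    linarith

theorem pair_global {r : ℝ} (hr : 0 < r) :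
    ∃ C : ℝ, 0 ≤ C ∧ ∀ a b t : ℝ, 0 ≤ a → 0 ≤ b →
      |phi r (Real.sqrt ((a + b) / 2) * t) ^ 2 -
        phi r (Real.sqrt a * t) * phi r (Real.sqrt b * t)| ≤ C * (a - b) ^ 2 * t ^ 4 := by
  obtain ⟨C, hC, hb⟩ := bracket_upper hr
  refine ⟨C / 8, by positivity, ?_⟩
  intro a b t ha hb0
  rw [← sb_phi_abs r _ t, ← sb_phi_abs r _ t, ← sb_phi_abs r _ t]
  have e4 : t ^ 4 = |t| ^ 4 := by
    rw [show (4:ℕ) = 2 * 2 by norm_num, pow_mul, pow_mul, sq_abs]
  rw [e4]
  rcases le_total b a with h | h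
  · have := sb_global hr C hb a b |t| hb0 h (abs_nonneg t)
    linarith
  · have := sb_global hr C hb b a |t| ha h (abs_nonneg t)
    rw [add_comm b a, mul_comm (phi r (Real.sqrt b * |t|))] at this
    have e : (a - b) ^ 2 = (b - a) ^ 2 := by ring
    rw [e]
    linarith

end Pool.Agent.Helper82.GC
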