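import Pool.Agent.Helper82.GC.A4
import Pool.Agent.Helper82.GC.Sb
import Pool.Agent.Helper82.GC.Sc

set_option autoImplicit false

open MeasureTheory Set

namespace Pool.Agent.Helper82.GC





namespace AvgAux

theorem one_sub_sum_le {ι : Type*} (T : Finset ι) (x : ι → ℝ) (h0 : ∀ i ∈ T, 0 ≤ x i)
    (h1 : ∀ i ∈ T, x i ≤ 1) :
    1 - ∑ i ∈ T, x i ≤ ∏ i ∈ T, (1 - x i) ∧ ∏ i ∈ T, (1 - x i) ≤ 1 := by
  classical
  induction T using Finset.induction_on with
  | empty => simp
  | insert a T ha ih =>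
    obtain ⟨i1, i2⟩ := ih (fun i hi => h0 i (Finset.mem_insert_of_mem hi))
      (fun i hi => h1 i (Finset.mem_insert_of_mem hi))
    have a0 := h0 a (Finset.mem_insert_self _ _)
    have a1 := h1 a (Finset.mem_insert_self _ _)
    have hP : 0 ≤ ∏ i ∈ T, (1 - x i) := Finset.prod_nonneg fun i hi => by
      have := h1 i (Finset.mem_insert_of_mem hi)
      linarith
    rw [Finset.sum_insert ha, Finset.prod_insert ha]
    constructor
    · nlinarith
    · nlinarith

theorem phi_ge {r : ℝ} (hr : 0 < r) {x t : ℝ} (hx : 0 ≤ x) :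
    1 - x * t ^ 2 / 2 ≤ phi r (Real.sqrt x * t) := by
  refine le_trans ?_ (phi_lower hr (Real.sqrt x * t))
  rw [mul_pow, Real.sq_sqrt hx]
  have h1 := (vr_lt_one hr).le
  have h2 : 0 ≤ x * t ^ 2 := by positivity
  nlinarith

theorem cont_phi {r : ℝ} (hr : 0 < r) : Continuous (phi r) := by
  rw [continuous_iff_continuousAt]
  exact fun t => (phi_hasDerivAt hr t).continuousAt

/-- the envelope -/
noncomputable def En (β t : ℝ) : ℝ := 1 / (1 + β * t ^ 2 / 16) ^ 4

theorem En_nonneg {β : ℝ} (hβ : 0 < β) (t : ℝ) : 0 ≤ En β t := by unfold En; positivity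

theorem cont_En {β : ℝ} (hβ : 0 < β) : Continuous (En β) := by
  unfold En
  refine continuous_const.div (by fun_prop) fun t => ?_
  positivity

theorem base {β : ℝ} (hβ : 0 < β) :
    ∃ M : ℝ, 0 < M ∧ ∀ t : ℝ, 1 / (1 + β * t ^ 2 / 16) ≤ M * (1 + t ^ 2)⁻¹ := by
  refine ⟨1 + 16 / β, by positivity, fun t => ?_⟩
  rw [← div_eq_mul_inv, div_le_div_iff₀ (by positivity) (by positivity)]
  have h1 : (1 + 16 / β) * (1 + β * t ^ 2 / 16) = 1 + t ^ 2 + 16 / β + β * t ^ 2 / 16 := by
    field_simp
    ring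
  rw [h1]
  have : 0 ≤ 16 / β + β * t ^ 2 / 16 := by positivity
  linarith

theorem int_base {β : ℝ} (hβ : 0 < β) : Integrable (fun t : ℝ => 1 / (1 + β * t ^ 2 / 16)) := by
  obtain ⟨M, hM, h⟩ := base hβ
  refine (integrable_inv_one_add_sq.const_mul M).mono' ?_ ?_
  · apply Continuous.aestronglyMeasurable
    refine continuous_const.div (by fun_prop) fun t => ?_
    positivity
  · refine Filter.Eventually.of_forall fun t => ?_
    rw [Real.norm_of_nonneg (by positivity)]
    exact h t

theorem int_En {β : ℝ} (hβ : 0 < β) : Integrable (En β) := by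
  refine (int_base hβ).mono' (cont_En hβ).aestronglyMeasurable ?_
  refine Filter.Eventually.of_forall fun t => ?_
  rw [Real.norm_of_nonneg (En_nonneg hβ t)]
  unfold En
  apply one_div_le_one_div_of_le (by positivity)
  have : 1 ≤ 1 + β * t ^ 2 / 16 := by
    have : 0 ≤ β * t ^ 2 / 16 := by positivity
    linarith
  exact le_self_pow₀ this (by norm_num)

theorem int_W {β : ℝ} (hβ : 0 < β) : Integrable (fun t => t ^ 4 * En β t) := by
  refine ((int_base hβ).const_mul ((16 / β) ^ 2)).mono'
    ((continuous_pow 4).mul (cont_En hβ)).aestronglyMeasurable ?_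
  refine Filter.Eventually.of_forall fun t => ?_
  rw [Real.norm_of_nonneg (mul_nonneg (by positivity) (En_nonneg hβ t))]
  unfold En
  set u : ℝ := β * t ^ 2 / 16 with hu
  have hu0 : 0 ≤ u := by positivity
  have e : t ^ 4 = (16 / β) ^ 2 * u ^ 2 := by
    rw [hu]
    field_simp
  rw [e, mul_assoc]
  apply mul_le_mul_of_nonneg_left _ (by positivity)
  rw [mul_one_div, div_le_div_iff₀ (by positivity) (by positivity)]
  have h1 : u ^ 2 ≤ (1 + u) ^ 2 := pow_le_pow_left₀ hu0 (by linarith) 2
  have h2 : (1 + u) ≤ (1 + u) ^ 2 := le_self_pow₀ (by linarith) (by norm_num)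
  have h3 := mul_le_mul h1 h2 (by positivity) (by positivity)
  calc u ^ 2 * (1 + u) ≤ (1 + u) ^ 2 * (1 + u) ^ 2 := h3
    _ = 1 * (1 + u) ^ 4 := by ring

theorem tail {β : ℝ} (hβ : 0 < β) {δ : ℝ} (hδ : 0 < δ) :
    ∃ N : ℕ, ∫ t in {t : ℝ | (N : ℝ) < |t|}, t ^ 4 * En β t < δ := by
  have h := tendsto_setIntegral_of_antitone (μ := volume) (f := fun t => t ^ 4 * En β t)
    (s := fun N : ℕ => {t : ℝ | (N : ℝ) < |t|})
    (fun N => measurableSet_lt measurable_const (by fun_prop))
    (fun N M hNM t ht => by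
      have h1 : (N : ℝ) ≤ M := by exact_mod_cast hNM
      exact lt_of_le_of_lt h1 ht)
    ⟨0, (int_W hβ).integrableOn⟩
  have he : (⋂ N : ℕ, {t : ℝ | (N : ℝ) < |t|}) = ∅ := by
    ext t
    simp only [Set.mem_iInter, Set.mem_empty_iff_false, iff_false, not_forall]
    obtain ⟨N, hN⟩ := exists_nat_ge |t|
    exact ⟨N, not_lt.2 hN⟩
  rw [he, setIntegral_empty] at h
  exact (h.eventually (gt_mem_nhds hδ)).exists

end AvgAux

open AvgAux in
theorem average_lt {r : ℝ} (hr : 0 < r) :
    ∃ ε : ℝ, 0 < ε ∧ ε ≤ 1 / 16 ∧ ∀ (n : ℕ) (s : Fin n → ℝ), (∀ i, 0 ≤ s i) → (∀ i, s i ≤ ε) →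
      ∑ i, s i = 1 → ∀ i j : Fin n, i ≠ j → s i ≠ s j →
      J r s < J r (Function.update (Function.update s i ((s i + s j) / 2)) j ((s i + s j) / 2))
      := by
  obtain ⟨β, hβ, hphi⟩ := phi_envelope hr
  obtain ⟨c, hc, w0, hw0, hloc⟩ := pair_local hr
  obtain ⟨C, hC, hglob⟩ := pair_global hr
  set w1 : ℝ := min w0 1 with hw1
  have hw1pos : 0 < w1 := lt_min hw0 one_pos
  obtain ⟨N, hN⟩ := tail hβ (δ := c / (5 * (C + 1))) (by positivity)
  set R : ℝ := (N : ℝ) + 1 with hR
  have hR1 : 1 ≤ R := by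
    have : (0 : ℝ) ≤ N := Nat.cast_nonneg N
    linarith
  set ε : ℝ := min (1 / 16) (w1 / R ^ 2) with hε
  have hεpos : 0 < ε := lt_min (by norm_num) (by positivity)
  have hε16 : ε ≤ 1 / 16 := min_le_left _ _
  have hεR : ε * R ^ 2 ≤ w1 := by
    have : ε ≤ w1 / R ^ 2 := min_le_right _ _
    rwa [le_div_iff₀ (by positivity)] at this
  refine ⟨ε, hεpos, hε16, ?_⟩
  intro n s hs0 hsε hsum i j hij hne
  set a := s i with ha
  set b := s j with hb
  set m : ℝ := (a + b) / 2 with hm
  set T : Finset (Fin n) := (Finset.univ.erase i).erase j with hT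
  have hji : j ∈ Finset.univ.erase i := Finset.mem_erase.2 ⟨hij.symm, Finset.mem_univ _⟩
  have hsplit : ∀ f : Fin n → ℝ, ∏ k, f k = f i * (f j * ∏ k ∈ T, f k) := by
    intro f
    rw [← Finset.mul_prod_erase Finset.univ f (Finset.mem_univ i),
      ← Finset.mul_prod_erase (Finset.univ.erase i) f hji]
  have hTsum : ∑ k ∈ T, s k = 1 - a - b := by
    have h1 := Finset.add_sum_erase Finset.univ s (Finset.mem_univ i)
    have h2 := Finset.add_sum_erase (Finset.univ.erase i) s hji
    rw [hsum] at h1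
    simp only [hT]
    linarith
  have ha0 : 0 ≤ a := hs0 i
  have hb0 : 0 ≤ b := hs0 j
  have haε : a ≤ ε := hsε i
  have hbε : b ≤ ε := hsε j
  have hTsum' : 1 / 2 ≤ ∑ k ∈ T, s k := by rw [hTsum]; linarith
  have hTsum1 : ∑ k ∈ T, s k ≤ 1 := by rw [hTsum]; linarith
  set s' := Function.update (Function.update s i m) j m with hs'
  have hs'j : s' j = m := Function.update_self _ _ _
  have hs'i : s' i = m := by
    rw [hs', Function.update_of_ne hij, Function.update_self]
  have hs'k : ∀ k ∈ T, s' k = s k := by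
    intro k hk
    rw [hT, Finset.mem_erase, Finset.mem_erase] at hk
    rw [hs', Function.update_of_ne hk.1, Function.update_of_ne hk.2.1]
  set F : ℝ → ℝ := fun t => ∏ k ∈ T, phi r (Real.sqrt (s k) * t) with hF
  set D : ℝ → ℝ := fun t => phi r (Real.sqrt m * t) ^ 2 -
    phi r (Real.sqrt a * t) * phi r (Real.sqrt b * t) with hD
  have hP : ∀ t, ∏ k, phi r (Real.sqrt (s k) * t) =
      phi r (Real.sqrt a * t) * phi r (Real.sqrt b * t) * F t := by
    intro t
    rw [hsplit, mul_assoc]
  have hP' : ∀ t, ∏ k, phi r (Real.sqrt (s' k) * t) = phi r (Real.sqrt m * t) ^ 2 * F t := by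
    intro t
    rw [hsplit, hs'i, hs'j]
    have : ∏ k ∈ T, phi r (Real.sqrt (s' k) * t) = F t := by
      simp only [hF]
      exact Finset.prod_congr rfl fun k hk => by rw [hs'k k hk]
    rw [this]
    ring
  have hcphi : ∀ x : ℝ, Continuous fun t => phi r (Real.sqrt x * t) := fun x =>
    (cont_phi hr).comp (by fun_prop)
  have hcF : Continuous F := continuous_finsetProd _ fun k _ => hcphi (s k)
  have hFle : ∀ t, |F t| ≤ En β t := by
    intro t
    simp only [hF]
    rw [Finset.abs_prod]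
    exact prod_envelope hβ hphi T s hεpos hε16 (fun k _ => hs0 k) (fun k _ => hsε k) hTsum' t
  have habs : ∀ x t, |phi r (Real.sqrt x * t)| ≤ 1 := fun x t => abs_phi_le_one hr _
  have hint1 : Integrable fun t => phi r (Real.sqrt a * t) * phi r (Real.sqrt b * t) * F t := by
    refine (int_En hβ).mono' (((hcphi a).mul (hcphi b)).mul hcF).aestronglyMeasurable ?_
    refine Filter.Eventually.of_forall fun t => ?_
    rw [Real.norm_eq_abs, abs_mul, abs_mul]
    have h1 := mul_le_mul (habs a t) (habs b t) (abs_nonneg _) zero_le_one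
    have h2 := mul_le_mul h1 (hFle t) (abs_nonneg _) (by norm_num)
    linarith
  have hint2 : Integrable fun t => phi r (Real.sqrt m * t) ^ 2 * F t := by
    refine (int_En hβ).mono' (((hcphi m).pow 2).mul hcF).aestronglyMeasurable ?_
    refine Filter.Eventually.of_forall fun t => ?_
    rw [Real.norm_eq_abs, abs_mul, abs_pow]
    have h1 := pow_le_one₀ (abs_nonneg _) (habs m t) (n := 2)
    have h2 := mul_le_mul h1 (hFle t) (abs_nonneg _) (by norm_num)
    linarith
  have hdiff : J r s' - J r s = ∫ t, D t * F t := by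
    unfold J
    simp_rw [hP, hP']
    rw [← integral_sub hint2 hint1]
    congr 1
    funext t
    simp only [hD]
    ring
  have hintD : Integrable fun t => D t * F t := by
    refine (hint2.sub hint1).congr (Filter.Eventually.of_forall fun t => ?_)
    simp only [hD, Pi.sub_apply]
    ring
  -- positivity of the common factor
  have hFk : ∀ t : ℝ, |t| ≤ R → ∀ k, 1 / 2 ≤ phi r (Real.sqrt (s k) * t) := by
    intro t ht k
    have h1 : s k * t ^ 2 ≤ 1 := by
      have h2 : t ^ 2 ≤ R ^ 2 := by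
        rw [← sq_abs t]
        exact pow_le_pow_left₀ (abs_nonneg _) ht 2
      calc s k * t ^ 2 ≤ ε * R ^ 2 := mul_le_mul (hsε k) h2 (by positivity) hεpos.le
        _ ≤ w1 := hεR
        _ ≤ 1 := min_le_right _ _
    have h3 := phi_ge hr (t := t) (hs0 k)
    linarith
  have hF0 : ∀ t : ℝ, |t| ≤ R → 0 ≤ F t := fun t ht =>
    Finset.prod_nonneg fun k _ => by linarith [hFk t ht k]
  have hF1 : ∀ t : ℝ, |t| ≤ 1 → 1 / 2 ≤ F t := by
    intro t ht
    have ht2 : t ^ 2 ≤ 1 := by
      rw [← sq_abs t]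
      exact pow_le_one₀ (abs_nonneg _) ht
    have h1 := (one_sub_sum_le T (fun k => s k / 2) (fun k _ => by
      have := hs0 k
      positivity) (fun k _ => by
      have := hsε k
      linarith)).1
    rw [← Finset.sum_div] at h1
    have h2 : ∏ k ∈ T, (1 - s k / 2) ≤ F t := by
      apply Finset.prod_le_prod
      · intro k _
        have := hsε k
        linarith
      · intro k _
        have h3 := phi_ge hr (t := t) (hs0 k)
        have h4 : s k * t ^ 2 ≤ s k := mul_le_of_le_one_right (hs0 k) ht2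
        linarith
    linarith
  have hDloc : ∀ t : ℝ, |t| ≤ R → c * (a - b) ^ 2 * t ^ 4 ≤ D t := by
    intro t ht
    have h2 : t ^ 2 ≤ R ^ 2 := by
      rw [← sq_abs t]
      exact pow_le_pow_left₀ (abs_nonneg _) ht 2
    have h3 : ∀ x, x ≤ ε → x * t ^ 2 ≤ w0 := by
      intro x hx
      calc x * t ^ 2 ≤ ε * R ^ 2 := mul_le_mul hx h2 (by positivity) hεpos.le
        _ ≤ w1 := hεR
        _ ≤ w0 := min_le_left _ _
    exact hloc a b t ha0 hb0 (h3 a haε) (h3 b hbε)
  set q : ℝ := (a - b) ^ 2 with hq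
  have hqpos : 0 < q := by
    have : a - b ≠ 0 := sub_ne_zero.2 hne
    positivity
  have hmeas : MeasurableSet {t : ℝ | (N : ℝ) < |t|} := measurableSet_lt measurable_const (by fun_prop)
  -- lower bound
  set g : ℝ → ℝ := fun t => (Icc (-1 : ℝ) 1).indicator (fun t => c * q / 2 * t ^ 4) t -
    {t : ℝ | (N : ℝ) < |t|}.indicator (fun t => C * q * (t ^ 4 * En β t)) t with hg
  have hgi1 : Integrable ((Icc (-1 : ℝ) 1).indicator (fun t => c * q / 2 * t ^ 4)) := by
    rw [integrable_indicator_iff measurableSet_Icc]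
    exact (by fun_prop : Continuous fun t : ℝ => c * q / 2 * t ^ 4).continuousOn.integrableOn_compact
      isCompact_Icc
  have hgi2 : Integrable ({t : ℝ | (N : ℝ) < |t|}.indicator
      (fun t => C * q * (t ^ 4 * En β t))) := by
    rw [integrable_indicator_iff hmeas]
    exact ((int_W hβ).const_mul _).integrableOn
  have hgle : ∀ t, g t ≤ D t * F t := by
    intro t
    simp only [hg]
    have hW0 : 0 ≤ C * q * (t ^ 4 * En β t) := by
      have := En_nonneg hβ t
      positivity
    have hind2 : 0 ≤ {t : ℝ | (N : ℝ) < |t|}.indicator (fun t => C * q * (t ^ 4 * En β t)) t := by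
      by_cases h : t ∈ {t : ℝ | (N : ℝ) < |t|}
      · rw [Set.indicator_of_mem h]; exact hW0
      · rw [Set.indicator_of_notMem h]
    by_cases h1 : |t| ≤ 1
    · have hm1 : t ∈ Icc (-1 : ℝ) 1 := abs_le.1 h1
      rw [Set.indicator_of_mem hm1]
      have hd := hDloc t (h1.trans hR1)
      have hf := hF1 t h1
      have h5 : 0 ≤ c * q * t ^ 4 := by positivity
      have h6 := mul_le_mul hd hf (by norm_num) (h5.trans hd)
      linarith
    · have hm1 : t ∉ Icc (-1 : ℝ) 1 := fun h => h1 (abs_le.2 h)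
      rw [Set.indicator_of_notMem hm1]
      by_cases h2 : |t| ≤ R
      · have hd := hDloc t h2
        have h5 : 0 ≤ c * q * t ^ 4 := by positivity
        have h6 := mul_nonneg (h5.trans hd) (hF0 t h2)
        linarith
      · rw [not_le] at h2
        have hm2 : t ∈ {t : ℝ | (N : ℝ) < |t|} := by
          show (N : ℝ) < |t|
          linarith
        rw [Set.indicator_of_mem hm2]
        have h7 : |D t| ≤ C * q * t ^ 4 := hglob a b t ha0 hb0
        have h8 : |D t * F t| ≤ C * q * t ^ 4 * En β t := by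
          rw [abs_mul]
          exact mul_le_mul h7 (hFle t) (abs_nonneg _) (by positivity)
        have h9 := (abs_le.1 h8).1
        linarith
  have h10 : ∫ t, g t ≤ ∫ t, D t * F t := integral_mono (hgi1.sub hgi2) hintD hgle
  have h11 : ∫ t, g t = c * q / 5 - C * q * ∫ t in {t : ℝ | (N : ℝ) < |t|}, t ^ 4 * En β t := by
    simp only [hg]
    rw [integral_sub hgi1 hgi2, integral_indicator measurableSet_Icc, integral_indicator hmeas,
      integral_const_mul, integral_const_mul, integral_Icc_eq_integral_Ioc,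
      ← intervalIntegral.integral_of_le (by norm_num), integral_pow]
    norm_num
    ring
  set I0 := ∫ t in {t : ℝ | (N : ℝ) < |t|}, t ^ 4 * En β t with hI0
  have h12 : C * I0 < c / 5 := by
    rcases hC.eq_or_lt with h | h
    · rw [← h, zero_mul]; positivity
    · calc C * I0 < C * (c / (5 * (C + 1))) := mul_lt_mul_of_pos_left hN h
        _ ≤ c / 5 := by
          rw [mul_div_assoc', div_le_div_iff₀ (by positivity) (by norm_num)]
          nlinarith
  have h13 : 0 < ∫ t, g t := by
    rw [h11]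
    have : c * q / 5 - C * q * I0 = q * (c / 5 - C * I0) := by ring
    rw [this]
    exact mul_pos hqpos (by linarith)
  have h14 : 0 < J r s' - J r s := by
    rw [hdiff]
    linarith
  linarith

end Pool.Agent.Helper82.GC
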