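import Pool.Agent.Helper82.GC.J10082
import Pool.Agent.Helper82.GC.J10266
import Pool.Agent.Helper82.GC.J10267
import Pool.Agent.Helper82.GC.J10277
import Pool.Agent.Helper82.GC.J10290
import Pool.Agent.Helper82.GC.J10294
import Pool.Agent.Helper82.GC.Sd

set_option autoImplicit false

open MeasureTheory Set

namespace Pool.Agent.Helper82.GC


theorem dl_exp_j10295 (x : ℝ) (hx : 0 ≤ x) : Real.exp (-x) ≤ 1 - x + x ^ 2 / 2 := by
  have h1 := Real.quadratic_le_exp_of_nonneg hx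
  have h2 : Real.exp (-x) * Real.exp x = 1 := by rw [← Real.exp_add]; simp
  have h3 := Real.exp_pos (-x)
  have h4 : 0 < 1 - x + x ^ 2 / 2 := by nlinarith [sq_nonneg (x - 1)]
  have h5 : 1 ≤ (1 - x + x ^ 2 / 2) * (1 + x + x ^ 2 / 2) := by nlinarith [sq_nonneg (x ^ 2)]
  have h6 : (1 - x + x ^ 2 / 2) * (1 + x + x ^ 2 / 2) ≤ (1 - x + x ^ 2 / 2) * Real.exp x :=
    mul_le_mul_of_nonneg_left h1 h4.le
  calc Real.exp (-x) = Real.exp (-x) * 1 := (mul_one _).symm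
    _ ≤ Real.exp (-x) * ((1 - x + x ^ 2 / 2) * Real.exp x) :=
        mul_le_mul_of_nonneg_left (h5.trans h6) h3.le
    _ = (1 - x + x ^ 2 / 2) * (Real.exp (-x) * Real.exp x) := by ring
    _ = _ := by rw [h2, mul_one]

theorem dl_J_j10295 (n : ℕ) (hn : 2 ≤ n) : J 1 (fun _ : Fin n => 1 / (n : ℝ)) =
    Real.sqrt n * (2 * (∫ z in (0 : ℝ)..z0, phi 1 z ^ n)) +
      Real.sqrt n * (2 * ∫ t in Set.Ioi z0, phi 1 t ^ n) := by
  rw [J_diag n (by omega), (phi_pow_split n hn).2, mul_add]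

theorem dl_pow_j10295 (n : ℕ) (hn : 9 ≤ n) : (n : ℝ) ^ 3 * 0.1496 ^ (n - 4 : ℕ) ≤ 1 := by
  induction n, hn using Nat.le_induction with
  | base => norm_num
  | succ n hn ih =>
    have e : n + 1 - 4 = (n - 4) + 1 := by omega
    rw [e, pow_succ]
    push_cast
    have hn' : (9 : ℝ) ≤ n := by exact_mod_cast hn
    have h1 : ((n : ℝ) + 1) ^ 3 * 0.1496 ≤ (n : ℝ) ^ 3 := by
      nlinarith [sq_nonneg ((n : ℝ) - 9), mul_nonneg (by linarith : (0:ℝ) ≤ n) (sq_nonneg ((n : ℝ) - 9))]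
    have h2 : (0 : ℝ) < 0.1496 ^ (n - 4 : ℕ) := by positivity
    calc ((n : ℝ) + 1) ^ 3 * (0.1496 ^ (n - 4 : ℕ) * 0.1496)
        = (((n : ℝ) + 1) ^ 3 * 0.1496) * 0.1496 ^ (n - 4 : ℕ) := by ring
      _ ≤ (n : ℝ) ^ 3 * 0.1496 ^ (n - 4 : ℕ) := mul_le_mul_of_nonneg_right h1 h2.le
      _ ≤ 1 := ih

theorem diag_low (n : ℕ) (hn : 6 ≤ n) :
    (n = 6 → P1 * Real.exp (-0.02275) < J 1 (fun _ : Fin n => 1 / (n : ℝ))) ∧
    (n = 7 → P1 * Real.exp (-0.0198) < J 1 (fun _ : Fin n => 1 / (n : ℝ))) ∧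
    (n = 8 → P1 * Real.exp (-0.0174) < J 1 (fun _ : Fin n => 1 / (n : ℝ))) ∧
    (9 ≤ n → P1 * Real.exp (-0.1525 / n) < J 1 (fun _ : Fin n => 1 / (n : ℝ))) := by
  have hP := P1_bounds
  refine ⟨?_, ?_, ?_, ?_⟩
  · rintro rfl
    rw [dl_J_j10295 6 (by norm_num)]
    have hd := diag_six
    have htail : 0 ≤ Real.sqrt (6 : ℕ) * (2 * ∫ t in Set.Ioi z0, phi 1 t ^ 6) := by
      apply mul_nonneg (Real.sqrt_nonneg _)
      apply mul_nonneg (by norm_num)
      apply setIntegral_nonneg measurableSet_Ioi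
      intro t _
      have : phi 1 t ^ 6 = (phi 1 t ^ 3) ^ 2 := by ring
      rw [this]; positivity
    have he := dl_exp_j10295 0.02275 (by norm_num)
    have h1 : P1 * Real.exp (-0.02275) ≤ 4.64570 * (1 - 0.02275 + 0.02275 ^ 2 / 2) :=
      mul_le_mul hP.2.le he (Real.exp_pos _).le (by norm_num)
    have h2 : (4.64570 : ℝ) * (1 - 0.02275 + 0.02275 ^ 2 / 2) < 4.5413 := by norm_num
    have h3 : ((6 : ℕ) : ℝ) = 6 := by norm_num
    rw [h3] at htail ⊢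
    linarith
  · rintro rfl
    rw [dl_J_j10295 7 (by norm_num)]
    have hd := diag_seven
    have ht := phi_pow_tail 7 (by norm_num)
    have he := dl_exp_j10295 0.0198 (by norm_num)
    have h1 : P1 * Real.exp (-0.0198) ≤ 4.64570 * (1 - 0.0198 + 0.0198 ^ 2 / 2) :=
      mul_le_mul hP.2.le he (Real.exp_pos _).le (by norm_num)
    have h2 : (4.64570 : ℝ) * (1 - 0.0198 + 0.0198 ^ 2 / 2) < 4.5548 := by norm_num
    have h3 : ((7 : ℕ) : ℝ) = 7 := by norm_num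
    rw [h3]
    have hs : Real.sqrt 7 ≤ 3 := by
      rw [Real.sqrt_le_left (by norm_num)]; norm_num
    have hs0 : 0 ≤ Real.sqrt 7 := Real.sqrt_nonneg _
    have ht2 : (0.1496 : ℝ) ^ (7 - 4 : ℕ) * 0.0017 ≤ 0.00001 := by norm_num
    have ht3 := neg_le_of_abs_le (ht.trans ht2)
    have ht4 : -0.0001 ≤ Real.sqrt 7 * (2 * ∫ t in Set.Ioi z0, phi 1 t ^ 7) := by
      have := mul_le_mul_of_nonneg_left ht3 hs0
      nlinarith
    linarith
  · rintro rfl
    rw [dl_J_j10295 8 (by norm_num)]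
    have hd := diag_eight
    have htail : 0 ≤ Real.sqrt (8 : ℕ) * (2 * ∫ t in Set.Ioi z0, phi 1 t ^ 8) := by
      apply mul_nonneg (Real.sqrt_nonneg _)
      apply mul_nonneg (by norm_num)
      apply setIntegral_nonneg measurableSet_Ioi
      intro t _
      have : phi 1 t ^ 8 = (phi 1 t ^ 4) ^ 2 := by ring
      rw [this]; positivity
    have he := dl_exp_j10295 0.0174 (by norm_num)
    have h1 : P1 * Real.exp (-0.0174) ≤ 4.64570 * (1 - 0.0174 + 0.0174 ^ 2 / 2) :=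
      mul_le_mul hP.2.le he (Real.exp_pos _).le (by norm_num)
    have h2 : (4.64570 : ℝ) * (1 - 0.0174 + 0.0174 ^ 2 / 2) < 4.5660 := by norm_num
    have h3 : ((8 : ℕ) : ℝ) = 8 := by norm_num
    rw [h3] at htail ⊢
    linarith
  · intro h9
    rw [dl_J_j10295 n (by omega)]
    have hd := diag_large n h9
    have ht := phi_pow_tail n (by omega)
    have hn9 : (9 : ℝ) ≤ n := by exact_mod_cast h9
    have hn0 : (0 : ℝ) < n := by linarith
    have hpow := dl_pow_j10295 n h9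
    have he := dl_exp_j10295 (0.1525 / n) (by positivity)
    have he' : -0.1525 / (n : ℝ) = -(0.1525 / n) := by ring
    rw [he']
    have hP0 : 0 < P1 := by linarith
    have h1 : P1 * Real.exp (-(0.1525 / n)) ≤ P1 * (1 - 0.1525 / n + (0.1525 / n) ^ 2 / 2) :=
      mul_le_mul_of_nonneg_left he hP0.le
    have hsq : Real.sqrt n ≤ n := by
      rw [Real.sqrt_le_left hn0.le]; nlinarith
    have hs0 : 0 ≤ Real.sqrt n := Real.sqrt_nonneg _
    have ht3 := neg_le_of_abs_le ht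
    have hpp : (0 : ℝ) ≤ 0.1496 ^ (n - 4 : ℕ) * 0.0017 := by positivity
    have ht4 : -(0.0017 / (n : ℝ) ^ 2) ≤ Real.sqrt n * (2 * ∫ t in Set.Ioi z0, phi 1 t ^ n) := by
      have h5 := mul_le_mul_of_nonneg_left ht3 hs0
      have h6 : Real.sqrt n * (0.1496 ^ (n - 4 : ℕ) * 0.0017) ≤ n * (0.1496 ^ (n - 4 : ℕ) * 0.0017) :=
        mul_le_mul_of_nonneg_right hsq hpp
      have h7 : (n : ℝ) * (0.1496 ^ (n - 4 : ℕ) * 0.0017) ≤ 0.0017 / (n : ℝ) ^ 2 := by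
        rw [le_div_iff₀ (by positivity)]
        calc (n : ℝ) * (0.1496 ^ (n - 4 : ℕ) * 0.0017) * (n : ℝ) ^ 2
            = ((n : ℝ) ^ 3 * 0.1496 ^ (n - 4 : ℕ)) * 0.0017 := by ring
          _ ≤ 1 * 0.0017 := mul_le_mul_of_nonneg_right hpow (by norm_num)
          _ = 0.0017 := by norm_num
      have h8 : Real.sqrt n * -(0.1496 ^ (n - 4 : ℕ) * 0.0017) =
          -(Real.sqrt n * (0.1496 ^ (n - 4 : ℕ) * 0.0017)) := by ring
      linarith
    have hkey : P1 * (1 - 0.1525 / n + (0.1525 / n) ^ 2 / 2) <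
        P1 * (1 - 0.1326 / n - 0.1156 / (n : ℝ) ^ 2 - 0.1463 / (n : ℝ) ^ 3) - 0.0017 / (n : ℝ) ^ 2 := by
      have h5 : P1 * (1 - 0.1326 / n - 0.1156 / (n : ℝ) ^ 2 - 0.1463 / (n : ℝ) ^ 3) -
          0.0017 / (n : ℝ) ^ 2 - P1 * (1 - 0.1525 / n + (0.1525 / n) ^ 2 / 2) =
          (P1 * (0.0199 * (n : ℝ) ^ 2 - 0.127228125 * n - 0.1463) - 0.0017 * n) / (n : ℝ) ^ 3 := by
        field_simp
        ring
      have h6 : 0 < (P1 * (0.0199 * (n : ℝ) ^ 2 - 0.127228125 * n - 0.1463) - 0.0017 * n) /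
          (n : ℝ) ^ 3 := by
        apply div_pos _ (by positivity)
        have h7 : 0.002 * (n : ℝ) ≤ 0.0199 * (n : ℝ) ^ 2 - 0.127228125 * n - 0.1463 := by
          nlinarith
        nlinarith
      linarith
    linarith



end Pool.Agent.Helper82.GC
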