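import Pool.Agent.Helper82.GC.Def2

set_option autoImplicit false

open MeasureTheory Set

namespace Pool.Agent.Helper82.GC


theorem holder_gen {n : ℕ} (f : ℝ → ℝ) (hf : Measurable f) (h0 : |f 0| = 1) (hb : ∀ t, |f t| ≤ 1)
    (s α : Fin n → ℝ) (hs : ∀ i, 0 ≤ s i) (hα : ∀ i, 0 ≤ α i) (hsum : ∑ i, α i = 1)
    (hz : ∀ i, s i = 0 ↔ α i = 0)
    (hint : ∀ i, 0 < α i → Integrable (fun t => |f t| ^ (1 / α i))) :
    Integrable (fun t => ∏ i, f (Real.sqrt (s i) * t)) ∧
    ∫ t, ∏ i, |f (Real.sqrt (s i) * t)| ≤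
      ∏ i, (if 0 < α i then (Real.sqrt (1 / s i) * ∫ t, |f t| ^ (1 / α i)) ^ α i else 1) := by
  classical
  let S : Finset (Fin n) := Finset.univ.filter (fun i => 0 < α i)
  have hnS : ∀ i, i ∉ S → α i = 0 := by
    intro i hi
    have : ¬ 0 < α i := by simpa [S] using hi
    exact le_antisymm (not_lt.1 this) (hα i)
  have hS : ∀ i ∈ S, 0 < α i := fun i hi => by simpa [S] using hi
  have hsum' : ∑ i ∈ S, α i = 1 := by
    rw [← hsum]
    exact Finset.sum_subset (Finset.subset_univ _) (fun i _ hi => hnS i hi)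
  have hspos : ∀ i ∈ S, 0 < s i := by
    intro i hi
    rcases lt_or_eq_of_le (hs i) with h | h
    · exact h
    · exact absurd ((hz i).1 h.symm) (hS i hi).ne'
  let g : Fin n → ℝ → ENNReal := fun i t => ENNReal.ofReal (|f (Real.sqrt (s i) * t)| ^ (1 / α i))
  have hprod : ∀ t, ∏ i, |f (Real.sqrt (s i) * t)| = ∏ i ∈ S, |f (Real.sqrt (s i) * t)| := by
    intro t
    symm
    refine Finset.prod_subset (Finset.subset_univ _) (fun i _ hi => ?_)
    rw [(hz i).2 (hnS i hi)]
    simp [h0]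
  have hg : ∀ i ∈ S, ∀ t, g i t ^ α i = ENNReal.ofReal |f (Real.sqrt (s i) * t)| := by
    intro i hi t
    simp only [g]
    rw [ENNReal.ofReal_rpow_of_nonneg (by positivity) (hα i), ← Real.rpow_mul (abs_nonneg _),
      one_div_mul_cancel (hS i hi).ne', Real.rpow_one]
  have hmeas : ∀ i, Measurable (fun t => f (Real.sqrt (s i) * t)) := fun i =>
    hf.comp (measurable_const.mul measurable_id)
  have hgm : ∀ i ∈ S, AEMeasurable (g i) volume := by
    intro i _
    exact (ENNReal.measurable_ofReal.comp (((hmeas i).abs).pow_const _)).aemeasurable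
  have hH := ENNReal.lintegral_prod_norm_pow_le (μ := (volume : Measure ℝ)) S hgm hsum'
    (fun i hi => (hS i hi).le)
  have hlhs : ∫⁻ t, ENNReal.ofReal (∏ i, |f (Real.sqrt (s i) * t)|) =
      ∫⁻ t, ∏ i ∈ S, g i t ^ α i := by
    refine lintegral_congr (fun t => ?_)
    rw [hprod t, ENNReal.ofReal_prod_of_nonneg (fun i _ => abs_nonneg _)]
    exact Finset.prod_congr rfl (fun i hi => (hg i hi t).symm)
  have hrhs : ∀ i ∈ S, (∫⁻ t, g i t) = ENNReal.ofReal (Real.sqrt (1 / s i) * ∫ t, |f t| ^ (1 / α i)) := by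
    intro i hi
    have hsq : Real.sqrt (s i) ≠ 0 := (Real.sqrt_pos.2 (hspos i hi)).ne'
    have hi1 : Integrable (fun t => |f (Real.sqrt (s i) * t)| ^ (1 / α i)) :=
      (hint i (hS i hi)).comp_mul_left' hsq
    simp only [g]
    rw [← ofReal_integral_eq_lintegral_ofReal hi1 (Filter.Eventually.of_forall (fun t => by positivity))]
    congr 1
    have := MeasureTheory.Measure.integral_comp_mul_left (fun t => |f t| ^ (1 / α i)) (Real.sqrt (s i))
    simp only [smul_eq_mul] at this
    rw [this, abs_of_nonneg (by positivity), one_div (s i), Real.sqrt_inv]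
  have hfin : ∫⁻ t, ENNReal.ofReal (∏ i, |f (Real.sqrt (s i) * t)|) ≤
      ENNReal.ofReal (∏ i, (if 0 < α i then (Real.sqrt (1 / s i) * ∫ t, |f t| ^ (1 / α i)) ^ α i else 1)) := by
    rw [hlhs]
    refine hH.trans (le_of_eq ?_)
    have hnn : ∀ i, 0 ≤ Real.sqrt (1 / s i) * ∫ t, |f t| ^ (1 / α i) := fun i =>
      mul_nonneg (Real.sqrt_nonneg _) (integral_nonneg (fun t => by positivity))
    rw [ENNReal.ofReal_prod_of_nonneg]
    · rw [← Finset.prod_subset (Finset.subset_univ S)]
      · refine Finset.prod_congr rfl (fun i hi => ?_)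
        rw [hrhs i hi, if_pos (hS i hi), ENNReal.ofReal_rpow_of_nonneg (hnn i) (hα i)]
      · intro i _ hi
        rw [if_neg (by rw [hnS i hi]; exact lt_irrefl _)]
        simp
    · intro i _
      split_ifs
      · exact Real.rpow_nonneg (hnn i) _
      · exact zero_le_one
  have hpm : Measurable (fun t => ∏ i, f (Real.sqrt (s i) * t)) :=
    Finset.measurable_fun_prod _ (fun i _ => hmeas i)
  have hpm' : Measurable (fun t => ∏ i, |f (Real.sqrt (s i) * t)|) :=
    Finset.measurable_fun_prod _ (fun i _ => (hmeas i).abs)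
  have hnn : 0 ≤ ∏ i, (if 0 < α i then (Real.sqrt (1 / s i) * ∫ t, |f t| ^ (1 / α i)) ^ α i else 1) := by
    refine Finset.prod_nonneg (fun i _ => ?_)
    split_ifs
    · exact Real.rpow_nonneg (mul_nonneg (Real.sqrt_nonneg _) (integral_nonneg (fun t => by positivity))) _
    · exact zero_le_one
  constructor
  · refine ⟨hpm.aestronglyMeasurable, ?_⟩
    rw [hasFiniteIntegral_iff_norm]
    have : ∀ t, ‖∏ i, f (Real.sqrt (s i) * t)‖ = ∏ i, |f (Real.sqrt (s i) * t)| := by
      intro t
      rw [Real.norm_eq_abs, Finset.abs_prod]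
    simp only [this]
    exact hfin.trans_lt ENNReal.ofReal_lt_top
  · rw [integral_eq_lintegral_of_nonneg_ae
      (Filter.Eventually.of_forall (fun t => Finset.prod_nonneg (fun i _ => abs_nonneg _)))
      hpm'.aestronglyMeasurable]
    exact ENNReal.toReal_le_of_le_ofReal hnn hfin



end Pool.Agent.Helper82.GC
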