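import Pool.Agent.Helper82.GC.J10126
import Pool.Agent.Helper82.GC.J10297

set_option autoImplicit false

open MeasureTheory Set

namespace Pool.Agent.Helper82.GC


theorem P1_pos_aux_j10298 : 0 < P1 := lt_trans (by norm_num) P1_bounds.1

theorem exp_neg_ee_aux_j10298 (s : ℝ) (h0 : 0 < s) (h1 : s ≤ 1 / 2) :
    (Real.sqrt (1 / s) * Ip (1 / s)) ^ s = P1 ^ s * Real.exp (-ee s) := by
  have hI := (ee_pos_form s h0 h1).1
  have hP := P1_pos_aux_j10298
  have hX : 0 < Real.sqrt (1 / s) * Ip (1 / s) := by positivity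
  have hee : ee s = -s * Real.log (Real.sqrt (1 / s) * Ip (1 / s) / P1) := by
    unfold ee; rw [if_neg h0.ne']
  rw [hee, Real.rpow_def_of_pos hX, Real.rpow_def_of_pos hP, ← Real.exp_add,
    Real.log_div hX.ne' hP.ne']
  congr 1
  ring

theorem phi_abs_int_aux_j10298 (p : ℝ) (hp : 2 ≤ p) : Integrable (fun t => |phi 1 t| ^ p) := by
  obtain ⟨η, _, h⟩ := ball_ineq
  exact (h p hp).1

theorem J_le_abs_aux_j10298 {n : ℕ} (s : Fin n → ℝ) :
    J 1 s ≤ ∫ t, ∏ i, |phi 1 (Real.sqrt (s i) * t)| := by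
  unfold J
  calc ∫ t, ∏ i, phi 1 (Real.sqrt (s i) * t)
      ≤ |∫ t, ∏ i, phi 1 (Real.sqrt (s i) * t)| := le_abs_self _
    _ ≤ ∫ t, |∏ i, phi 1 (Real.sqrt (s i) * t)| := abs_integral_le_integral_abs
    _ = ∫ t, ∏ i, |phi 1 (Real.sqrt (s i) * t)| := by
        congr 1; funext t; rw [Finset.abs_prod]

theorem J_le_exp {n : ℕ} (s : Fin n → ℝ) (hs : ∀ i, 0 ≤ s i) (hs2 : ∀ i, s i ≤ 1 / 2)
    (hsum : ∑ i, s i = 1) : Integrable (fun t => ∏ i, phi 1 (Real.sqrt (s i) * t)) ∧
    J 1 s ≤ P1 * Real.exp (-∑ i, ee (s i)) := by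
  have h := holder_gen (phi 1) phi_contN.measurable (by rw [phi_zero one_pos]; simp)
    (fun t => abs_phi_le_one one_pos t) s s hs hs hsum (fun i => Iff.rfl)
    (fun i hi => phi_abs_int_aux_j10298 _ (by
      rw [le_div_iff₀ hi]; linarith [hs2 i]))
  refine ⟨h.1, (J_le_abs_aux_j10298 s).trans (h.2.trans (le_of_eq ?_))⟩
  have hf : ∀ i, (if 0 < s i then (Real.sqrt (1 / s i) * ∫ t, |phi 1 t| ^ (1 / s i)) ^ s i else 1)
      = P1 ^ s i * Real.exp (-ee (s i)) := by
    intro i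
    split_ifs with hi
    · exact exp_neg_ee_aux_j10298 (s i) hi (hs2 i)
    · have : s i = 0 := le_antisymm (not_lt.1 hi) (hs i)
      rw [this, ee_zero]; simp
  rw [Finset.prod_congr rfl (fun i _ => hf i), Finset.prod_mul_distrib,
    ← Real.rpow_sum_of_pos P1_pos_aux_j10298, hsum, Real.rpow_one, ← Real.exp_sum, Finset.sum_neg_distrib]

theorem J_le_half {n : ℕ} (s : Fin n → ℝ) (hs : ∀ i, 0 ≤ s i) (hsum : ∑ i, s i = 1) (j : Fin n)
    (h1 : 1 / 2 ≤ s j) (h2 : s j < 1) : Integrable (fun t => ∏ i, phi 1 (Real.sqrt (s i) * t)) ∧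
    J 1 s ≤ P1 * Real.exp (-(ee (1 / 2) +
      ∑ i ∈ Finset.univ.erase j, ee (s i / (2 * (1 - s j))))) *
      (4 * s j * (1 - s j)) ^ (-(1 / 4) : ℝ) := by
  have hc : 0 < 2 * (1 - s j) := by linarith
  have hne : (1 - s j) ≠ 0 := by linarith
  have hsj : 0 < s j := by linarith
  have hsum' : ∑ i ∈ Finset.univ.erase j, s i = 1 - s j := by
    have := Finset.add_sum_erase Finset.univ s (Finset.mem_univ j)
    linarith
  have hle : ∀ i, i ≠ j → s i ≤ 1 - s j := by
    intro i hij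
    rw [← hsum']
    exact Finset.single_le_sum (f := s) (fun k _ => hs k)
      (Finset.mem_erase.2 ⟨hij, Finset.mem_univ i⟩)
  set α : Fin n → ℝ := fun i => if i = j then 1 / 2 else s i / (2 * (1 - s j)) with hαdef
  have hαj : α j = 1 / 2 := by simp [hαdef]
  have hαi : ∀ i, i ≠ j → α i = s i / (2 * (1 - s j)) := fun i hij => by simp [hαdef, hij]
  have hα0 : ∀ i, 0 ≤ α i := by
    intro i
    by_cases hij : i = j
    · rw [hij, hαj]; norm_num
    · rw [hαi i hij]; exact div_nonneg (hs i) hc.le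
  have hα2 : ∀ i, α i ≤ 1 / 2 := by
    intro i
    by_cases hij : i = j
    · rw [hij, hαj]
    · rw [hαi i hij, div_le_iff₀ hc]; linarith [hle i hij]
  have hαs : ∑ i ∈ Finset.univ.erase j, α i = 1 / 2 := by
    rw [Finset.sum_congr rfl (fun i hi => hαi i (Finset.ne_of_mem_erase hi)), ← Finset.sum_div,
      hsum']
    field_simp
  have hαsum : ∑ i, α i = 1 := by
    rw [← Finset.add_sum_erase Finset.univ α (Finset.mem_univ j), hαs, hαj]; norm_num
  have h := holder_gen (phi 1) phi_contN.measurable (by rw [phi_zero one_pos]; simp)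
    (fun t => abs_phi_le_one one_pos t) s α hs hα0 hαsum (by
      intro i
      by_cases hij : i = j
      · rw [hij, hαj]
        constructor
        · intro h; exact absurd h hsj.ne'
        · intro h; norm_num at h
      · rw [hαi i hij, div_eq_zero_iff]
        constructor
        · intro h; exact Or.inl h
        · rintro (h | h)
          · exact h
          · exact absurd h hc.ne')
    (fun i hi => phi_abs_int_aux_j10298 _ (by
      rw [le_div_iff₀ hi]; linarith [hα2 i]))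
  refine ⟨h.1, (J_le_abs_aux_j10298 s).trans (h.2.trans (le_of_eq ?_))⟩
  have hP := P1_pos_aux_j10298
  -- factor j
  have hfj : (if 0 < α j then (Real.sqrt (1 / s j) * ∫ t, |phi 1 t| ^ (1 / α j)) ^ α j else 1)
      = P1 ^ (1 / 2 : ℝ) * Real.exp (-ee (1 / 2)) * (2 * s j) ^ (-(1 / 4) : ℝ) := by
    rw [if_pos (by rw [hαj]; norm_num), hαj]
    rw [← exp_neg_ee_aux_j10298 (1 / 2) (by norm_num) le_rfl]
    have hI := (ee_pos_form (1 / 2) (by norm_num) le_rfl).1
    change (Real.sqrt (1 / s j) * Ip (1 / (1 / 2))) ^ (1 / 2 : ℝ) = _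
    have h2s : 0 < 2 * s j := by linarith
    have e1 : Real.sqrt (1 / s j) = Real.sqrt (1 / (1 / 2)) * (2 * s j) ^ (-(1 / 2) : ℝ) := by
      rw [Real.sqrt_eq_rpow, Real.sqrt_eq_rpow, Real.rpow_neg h2s.le,
        ← Real.inv_rpow h2s.le, ← Real.mul_rpow (by norm_num) (by positivity)]
      congr 1
      field_simp
    rw [e1, mul_right_comm, Real.mul_rpow (by positivity) (by positivity),
      ← Real.rpow_mul h2s.le]
    norm_num
  have hfi : ∀ i ∈ Finset.univ.erase j,
      (if 0 < α i then (Real.sqrt (1 / s i) * ∫ t, |phi 1 t| ^ (1 / α i)) ^ α i else 1)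
      = P1 ^ α i * Real.exp (-ee (α i)) * (2 * (1 - s j)) ^ (-(α i / 2)) := by
    intro i hi
    have hij := Finset.ne_of_mem_erase hi
    split_ifs with hpos
    · rw [← exp_neg_ee_aux_j10298 (α i) hpos (hα2 i)]
      have hI := (ee_pos_form (α i) hpos (hα2 i)).1
      change (Real.sqrt (1 / s i) * Ip (1 / α i)) ^ α i = _
      have hsi : 0 < s i := by
        rcases (hs i).lt_or_eq with h | h
        · exact h
        · exfalso; rw [hαi i hij, ← h] at hpos; simp at hpos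
      have e1 : Real.sqrt (1 / s i) = Real.sqrt (1 / α i) * (2 * (1 - s j)) ^ (-(1 / 2) : ℝ) := by
        rw [Real.sqrt_eq_rpow, Real.sqrt_eq_rpow, Real.rpow_neg hc.le,
          ← Real.inv_rpow hc.le, ← Real.mul_rpow (by positivity) (by positivity)]
        congr 1
        rw [hαi i hij]
        field_simp
      rw [e1, mul_right_comm, Real.mul_rpow (by positivity) (by positivity),
        ← Real.rpow_mul hc.le]
      congr 2
      ring
    · have : α i = 0 := le_antisymm (not_lt.1 hpos) (hα0 i)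
      rw [this, ee_zero]; simp
  rw [← Finset.mul_prod_erase Finset.univ _ (Finset.mem_univ j), hfj,
    Finset.prod_congr rfl hfi, Finset.prod_mul_distrib, Finset.prod_mul_distrib,
    ← Real.rpow_sum_of_pos hP, ← Real.rpow_sum_of_pos hc, hαs, ← Real.exp_sum,
    Finset.sum_neg_distrib, Finset.sum_neg_distrib, ← Finset.sum_div, hαs]
  have hee : ∑ i ∈ Finset.univ.erase j, ee (α i)
      = ∑ i ∈ Finset.univ.erase j, ee (s i / (2 * (1 - s j))) :=
    Finset.sum_congr rfl (fun i hi => by rw [hαi i (Finset.ne_of_mem_erase hi)])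
  rw [hee]
  have hPP : P1 ^ (1 / 2 : ℝ) * P1 ^ (1 / 2 : ℝ) = P1 := by
    rw [← Real.rpow_add hP]; norm_num
  have hcc : (2 * s j) ^ (-(1 / 4) : ℝ) * (2 * (1 - s j)) ^ (-(1 / 2 / 2) : ℝ)
      = (4 * s j * (1 - s j)) ^ (-(1 / 4) : ℝ) := by
    rw [show (-(1 / 2 / 2) : ℝ) = -(1 / 4) by norm_num, ← Real.mul_rpow (by linarith) hc.le]
    congr 1; ring
  rw [neg_add, Real.exp_add, ← hcc]
  calc _ = (P1 ^ (1 / 2 : ℝ) * P1 ^ (1 / 2 : ℝ)) * (Real.exp (-ee (1 / 2)) *
        Real.exp (-∑ i ∈ Finset.univ.erase j, ee (s i / (2 * (1 - s j))))) *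
        ((2 * s j) ^ (-(1 / 4) : ℝ) * (2 * (1 - s j)) ^ (-(1 / 2 / 2) : ℝ)) := by ring
    _ = _ := by rw [hPP]



end Pool.Agent.Helper82.GC
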