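import Pool.Agent.Helper82.GC.A3
import Pool.Agent.Helper82.GC.J9412
import Pool.Agent.Helper82.GC.J9429
import Pool.Agent.Helper82.GC.Sx

set_option autoImplicit false

open MeasureTheory Set

namespace Pool.Agent.Helper82.GC


theorem absphi_int_j10326 (p : ℝ) (hp : 2 ≤ p) : Integrable (fun t => |phi 1 t| ^ p) := by
  refine (phi_sq_integrable one_pos).mono'
    (phi_contN.abs.rpow_const (fun x => Or.inr (by linarith))).aestronglyMeasurable
    (ae_of_all _ fun t => ?_)
  rw [Real.norm_of_nonneg (Real.rpow_nonneg (abs_nonneg _) _)]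
  calc |phi 1 t| ^ p ≤ |phi 1 t| ^ (2 : ℝ) :=
        Real.rpow_le_rpow_of_exponent_ge' (abs_nonneg _) (abs_phi_le_one one_pos t) (by norm_num) hp
    _ = phi 1 t ^ 2 := by rw [Real.rpow_two, sq_abs]

theorem gtail_j10326 (b T : ℝ) (hb : 0 < b) (hT : 0 < T) :
    ∫ t in Set.Ioi T, Real.exp (-b * t ^ 2) ≤ Real.exp (-b * T ^ 2) / (2 * b * T) := by
  have h1 : ∫ t in Set.Ioi T, t * Real.exp (-b * t ^ 2) = 0 - (-Real.exp (-b * T ^ 2) / (2 * b)) := by
    refine integral_Ioi_of_hasDerivAt_of_tendsto' (f := fun t => -Real.exp (-b * t ^ 2) / (2 * b))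
      ?_ (integrable_mul_exp_neg_mul_sq hb).integrableOn ?_
    · intro x _
      have h2 : HasDerivAt (fun t : ℝ => -b * t ^ 2) (-b * (2 * x)) x := by
        have := (hasDerivAt_pow 2 x).const_mul (-b)
        simpa using this
      have h3 := (h2.exp.neg).div_const (2 * b)
      refine h3.congr_deriv ?_
      field_simp
    · have h4 : Filter.Tendsto (fun t : ℝ => -b * t ^ 2) Filter.atTop Filter.atBot := by
        have h5 : Filter.Tendsto (fun t : ℝ => b * t ^ 2) Filter.atTop Filter.atTop :=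
          (Filter.tendsto_pow_atTop (by norm_num)).const_mul_atTop hb
        have h6 := Filter.tendsto_neg_atTop_atBot.comp h5
        refine h6.congr (fun t => ?_)
        simp
      have h7 := ((Real.tendsto_exp_atBot.comp h4).neg).div_const (2 * b)
      simpa using h7
  have h2 : ∫ t in Set.Ioi T, Real.exp (-b * t ^ 2) ≤
      ∫ t in Set.Ioi T, T⁻¹ * (t * Real.exp (-b * t ^ 2)) := by
    refine setIntegral_mono_on (integrable_exp_neg_mul_sq hb).integrableOn
      ((integrable_mul_exp_neg_mul_sq hb).const_mul _).integrableOn measurableSet_Ioi ?_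
    intro t ht
    have ht' : T < t := ht
    rw [← mul_assoc]
    refine le_mul_of_one_le_left (Real.exp_pos _).le ?_
    rw [← div_eq_inv_mul, one_le_div hT]
    exact ht'.le
  refine h2.trans (le_of_eq ?_)
  rw [integral_const_mul, h1]
  field_simp
  ring

theorem G_bound (a w s : ℝ) (ha0 : 0.29 ≤ a) (ha1 : a ≤ 0.32) (hw0 : 0.4 ≤ w) (hw1 : w ≤ 1)
    (hs0 : 0 < s) (hs1 : s ≤ a) :
    ∫ t in Set.Ioi (z0 / Real.sqrt a), |phi 1 (Real.sqrt s * t)| ^ (2 * w / s) ≤
      Real.exp (-(vr 1) * w * z0 ^ 2 / a) * Real.sqrt a / (2 * vr 1 * w * z0) +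
        1 / (2 * Real.sqrt a) * Tl (2 * w / a) := by
  have ha : 0 < a := by linarith
  have hw : 0 < w := by linarith
  have hz0 : 0 < z0 := by linarith [z0_bounds.1]
  have hv : 0 < vr 1 := by linarith [vr_one_bounds.1]
  have hsa : 0 < Real.sqrt a := Real.sqrt_pos.mpr ha
  have hss : 0 < Real.sqrt s := Real.sqrt_pos.mpr hs0
  have hsqa : Real.sqrt a ^ 2 = a := Real.sq_sqrt ha.le
  have hsqs : Real.sqrt s ^ 2 = s := Real.sq_sqrt hs0.le
  have hss' : Real.sqrt s ≤ Real.sqrt a := Real.sqrt_le_sqrt hs1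
  have hT : 0 < z0 / Real.sqrt a := by positivity
  have hTT : z0 / Real.sqrt a ≤ z0 / Real.sqrt s := div_le_div_of_nonneg_left hz0.le hss hss'
  have hpa : 2 ≤ 2 * w / a := by
    rw [le_div_iff₀ ha]; linarith
  have hpas : 2 * w / a ≤ 2 * w / s := div_le_div_of_nonneg_left (by positivity) hs0 hs1
  have hps : 2 ≤ 2 * w / s := hpa.trans hpas
  have hI : Integrable (fun t => |phi 1 (Real.sqrt s * t)| ^ (2 * w / s)) :=
    (absphi_int_j10326 _ hps).comp_mul_left' hss.ne'
  rw [← Set.Ioc_union_Ioi_eq_Ioi hTT, setIntegral_union (Set.Ioc_disjoint_Ioi le_rfl)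
    measurableSet_Ioi hI.integrableOn hI.integrableOn]
  refine add_le_add ?_ ?_
  · have h1 : ∫ t in Set.Ioc (z0 / Real.sqrt a) (z0 / Real.sqrt s),
        |phi 1 (Real.sqrt s * t)| ^ (2 * w / s) ≤
        ∫ t in Set.Ioc (z0 / Real.sqrt a) (z0 / Real.sqrt s), Real.exp (-(vr 1 * w) * t ^ 2) := by
      refine setIntegral_mono_on hI.integrableOn (integrable_exp_neg_mul_sq (by positivity)).integrableOn
        measurableSet_Ioc ?_
      intro t ht
      have ht0 : 0 < t := hT.trans ht.1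
      have h2 : Real.sqrt s * t ≤ z0 := by
        have := ht.2
        rw [le_div_iff₀ hss] at this
        linarith
      have h3 : 0 ≤ Real.sqrt s * t := by positivity
      have h4 := phi_nonneg _ h3 h2
      have h5 := phi_le_gauss _ h3 h2
      rw [abs_of_nonneg h4]
      calc phi 1 (Real.sqrt s * t) ^ (2 * w / s) ≤
            Real.exp (-(vr 1) * (Real.sqrt s * t) ^ 2 / 2) ^ (2 * w / s) :=
            Real.rpow_le_rpow h4 h5 (by positivity)
        _ = Real.exp (-(vr 1 * w) * t ^ 2) := by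
            rw [← Real.exp_mul, mul_pow, hsqs]
            congr 1
            field_simp
    have h6 : ∫ t in Set.Ioc (z0 / Real.sqrt a) (z0 / Real.sqrt s), Real.exp (-(vr 1 * w) * t ^ 2) ≤
        ∫ t in Set.Ioi (z0 / Real.sqrt a), Real.exp (-(vr 1 * w) * t ^ 2) := by
      refine setIntegral_mono_set (integrable_exp_neg_mul_sq (by positivity)).integrableOn
        (ae_of_all _ fun t => (Real.exp_pos _).le) ?_
      exact (Set.Ioc_subset_Ioi_self).eventuallyLE
    refine h1.trans (h6.trans ((gtail_j10326 (vr 1 * w) (z0 / Real.sqrt a) (by positivity) hT).trans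
      (le_of_eq ?_)))
    rw [div_pow, hsqa]
    have h7 : -(vr 1 * w) * (z0 ^ 2 / a) = -(vr 1) * w * z0 ^ 2 / a := by ring
    rw [h7]
    field_simp
  · have h1 := integral_comp_mul_left_Ioi (fun z => |phi 1 z| ^ (2 * w / s)) (z0 / Real.sqrt s) hss
    rw [mul_div_cancel₀ _ hss.ne'] at h1
    rw [h1, smul_eq_mul]
    have hx : 0 ≤ 1 / s - 1 / a := by
      rw [sub_nonneg]
      exact one_div_le_one_div_of_le hs0 hs1
    have h2 : ∫ z in Set.Ioi z0, |phi 1 z| ^ (2 * w / s) ≤
        ∫ z in Set.Ioi z0, (0.1496 : ℝ) ^ (2 * w * (1 / s - 1 / a)) * |phi 1 z| ^ (2 * w / a) := by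
      refine setIntegral_mono_on (absphi_int_j10326 _ hps).integrableOn
        ((absphi_int_j10326 _ hpa).const_mul _).integrableOn measurableSet_Ioi ?_
      intro z hz
      have h3 : 2 * w / s = 2 * w * (1 / s - 1 / a) + 2 * w / a := by ring
      rw [h3, Real.rpow_add_of_nonneg (abs_nonneg _) (by positivity) (by positivity)]
      refine mul_le_mul_of_nonneg_right ?_ (Real.rpow_nonneg (abs_nonneg _) _)
      exact Real.rpow_le_rpow (abs_nonneg _) (phi_lobe z (le_of_lt hz)) (by positivity)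
    rw [integral_const_mul] at h2
    have hI0 : 0 ≤ ∫ z in Set.Ioi z0, |phi 1 z| ^ (2 * w / a) :=
      setIntegral_nonneg measurableSet_Ioi (fun z _ => Real.rpow_nonneg (abs_nonneg _) _)
    have h4 : (Real.sqrt s)⁻¹ * (0.1496 : ℝ) ^ (2 * w * (1 / s - 1 / a)) ≤ (Real.sqrt a)⁻¹ := by
      have h5 : (0.1496 : ℝ) ^ (2 * w * (1 / s - 1 / a)) ≤ Real.exp (-(a / 2 * (1 / s - 1 / a))) := by
        rw [Real.rpow_def_of_pos (by norm_num)]
        apply Real.exp_le_exp.mpr
        have h6 : Real.log 0.1496 ≤ 0.1496 - 1 := Real.log_le_sub_one_of_pos (by norm_num)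
        have h7 : Real.log 0.1496 * (2 * w) ≤ -(a / 2) := by nlinarith
        calc Real.log 0.1496 * (2 * w * (1 / s - 1 / a)) =
              (Real.log 0.1496 * (2 * w)) * (1 / s - 1 / a) := by ring
          _ ≤ -(a / 2) * (1 / s - 1 / a) := mul_le_mul_of_nonneg_right h7 hx
          _ = _ := by ring
      have h8 : Real.sqrt a ≤ Real.sqrt s * Real.exp (a / 2 * (1 / s - 1 / a)) := by
        have h9 : a / s ≤ Real.exp (a * (1 / s - 1 / a)) := by
          have h10 := Real.add_one_le_exp (a * (1 / s - 1 / a))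
          have h11 : a * (1 / s - 1 / a) + 1 = a / s := by field_simp; ring
          linarith
        have h12 : Real.exp (a * (1 / s - 1 / a)) = Real.exp (a / 2 * (1 / s - 1 / a)) ^ 2 := by
          rw [← Real.exp_nat_mul]
          congr 1
          push_cast
          ring
        have h13 : a ≤ (Real.sqrt s * Real.exp (a / 2 * (1 / s - 1 / a))) ^ 2 := by
          rw [mul_pow, hsqs, ← h12]
          rw [div_le_iff₀ hs0] at h9
          linarith
        exact Real.sqrt_le_iff.mpr ⟨by positivity, h13⟩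
      calc (Real.sqrt s)⁻¹ * (0.1496 : ℝ) ^ (2 * w * (1 / s - 1 / a)) ≤
            (Real.sqrt s)⁻¹ * Real.exp (-(a / 2 * (1 / s - 1 / a))) :=
            mul_le_mul_of_nonneg_left h5 (by positivity)
        _ = (Real.sqrt s * Real.exp (a / 2 * (1 / s - 1 / a)))⁻¹ := by
            rw [Real.exp_neg, mul_inv]
        _ ≤ (Real.sqrt a)⁻¹ := inv_anti₀ hsa h8
    unfold Tl
    calc (Real.sqrt s)⁻¹ * ∫ z in Set.Ioi z0, |phi 1 z| ^ (2 * w / s) ≤
          (Real.sqrt s)⁻¹ * ((0.1496 : ℝ) ^ (2 * w * (1 / s - 1 / a)) *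
            ∫ z in Set.Ioi z0, |phi 1 z| ^ (2 * w / a)) :=
          mul_le_mul_of_nonneg_left h2 (by positivity)
      _ = ((Real.sqrt s)⁻¹ * (0.1496 : ℝ) ^ (2 * w * (1 / s - 1 / a))) *
            ∫ z in Set.Ioi z0, |phi 1 z| ^ (2 * w / a) := by ring
      _ ≤ (Real.sqrt a)⁻¹ * ∫ z in Set.Ioi z0, |phi 1 z| ^ (2 * w / a) :=
          mul_le_mul_of_nonneg_right h4 hI0
      _ = 1 / (2 * Real.sqrt a) * (2 * ∫ z in Set.Ioi z0, |phi 1 z| ^ (2 * w / a)) := by
          field_simp



end Pool.Agent.Helper82.GC
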