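import Pool.Agent.Helper82.GC.J9608

set_option autoImplicit false

open MeasureTheory Set

namespace Pool.Agent.Helper82.GC


theorem J24_bound_j9609 {n : ℕ} (s : Fin n → ℝ) (hs : ∀ k, 0 ≤ s k ∧ s k ≤ 0.24)
    (hsum : ∑ k, s k = 1) (t : ℝ) :
    ‖∏ i, phi 1 (Real.sqrt (s i) * t)‖ ≤ 60 * (1 + t ^ 2)⁻¹ := by
  obtain ⟨hz1, hz2⟩ := z0_bounds
  have hc0 : 0 < Real.sqrt 0.24 := Real.sqrt_pos.2 (by norm_num)
  have hc2 : Real.sqrt 0.24 ^ 2 = 0.24 := Real.sq_sqrt (by norm_num)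
  obtain ⟨τ, hτ⟩ : ∃ τ, τ = Real.sqrt 0.24 * |t| := ⟨_, rfl⟩
  have hτ2 : τ ^ 2 = 0.24 * t ^ 2 := by rw [hτ, mul_pow, hc2, sq_abs]
  have hτ0 : 0 ≤ τ := by rw [hτ]; positivity
  have habs : ∀ i, |phi 1 (Real.sqrt (s i) * t)| = |phi 1 (Real.sqrt (s i / 0.24) * τ)| := by
    intro i
    have h1 : Real.sqrt (s i / 0.24) * τ = Real.sqrt (s i) * |t| := by
      rw [hτ, Real.sqrt_div (hs i).1]
      field_simp
    rw [h1]
    rcases abs_cases t with ⟨h2, -⟩ | ⟨h2, -⟩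
    · rw [h2]
    · rw [h2, mul_neg, phi_neg]
  rw [norm_prod]
  simp only [Real.norm_eq_abs, habs]
  rw [← div_eq_mul_inv]
  rcases le_or_gt z0 τ with h | h
  · have h1 := decay_prod Finset.univ (fun i => s i / 0.24) (fun i _ => by
      constructor
      · exact div_nonneg (hs i).1 (by norm_num)
      · rw [div_le_one (by norm_num)]; exact (hs i).2) τ h
    refine h1.trans ?_
    have hsum' : ∑ i, s i / 0.24 = 1 / 0.24 := by rw [← Finset.sum_div, hsum]
    rw [hsum']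
    have hτp : 0 < τ := by linarith
    have h2 : (0.73 / τ) ^ ((1 : ℝ) / 0.24) ≤ (0.73 / τ) ^ (2 : ℝ) := by
      apply Real.rpow_le_rpow_of_exponent_ge (by positivity)
      · rw [div_le_one hτp]; linarith
      · norm_num
    refine h2.trans ?_
    rw [Real.rpow_two, div_pow, hτ2]
    have ht : 50 ≤ t ^ 2 := by nlinarith
    rw [div_le_div_iff₀ (by positivity) (by positivity)]
    nlinarith
  · have h1 : ∏ i, |phi 1 (Real.sqrt (s i / 0.24) * τ)| ≤ 1 :=
      Finset.prod_le_one (fun i _ => abs_nonneg _) fun i _ => abs_phi_le_one one_pos _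
    refine h1.trans ?_
    rw [le_div_iff₀ (by positivity)]
    have h2 : τ ^ 2 ≤ z0 ^ 2 := pow_le_pow_left₀ hτ0 h.le 2
    have h3 : z0 ^ 2 ≤ 3.4948 ^ 2 := pow_le_pow_left₀ (by linarith) hz2.le 2
    nlinarith

theorem J_continuousOn24 (n : ℕ) : ContinuousOn (fun s : Fin n → ℝ => J 1 s)
    {s | (∀ k, 0 ≤ s k ∧ s k ≤ 0.24) ∧ ∑ k, s k = 1} := by
  unfold J
  apply continuousOn_of_dominated (bound := fun t => 60 * (1 + t ^ 2)⁻¹)
  · intro s _
    apply Continuous.aestronglyMeasurable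
    exact continuous_finsetProd _ fun i _ =>
      phi_contN.comp (continuous_const.mul continuous_id)
  · intro s hs
    exact Filter.Eventually.of_forall fun t => J24_bound_j9609 s hs.1 hs.2 t
  · exact integrable_inv_one_add_sq.const_mul 60
  · refine Filter.Eventually.of_forall fun t => ?_
    apply Continuous.continuousOn
    exact continuous_finsetProd _ fun i _ =>
      phi_contN.comp ((Real.continuous_sqrt.comp (continuous_apply i)).mul continuous_const)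

theorem small_max24 {n : ℕ} (hn : 6 ≤ n) (s : Fin n → ℝ) (hs : ∀ k, 0 ≤ s k ∧ s k ≤ 0.24)
    (hsum : ∑ k, s k = 1) : J 1 s ≤ J 1 (fun _ : Fin n => 1 / (n : ℝ)) ∧
      (J 1 s = J 1 (fun _ : Fin n => 1 / (n : ℝ)) → ∀ k, s k = 1 / (n : ℝ)) := by
  obtain ⟨S, hS⟩ : ∃ S : Set (Fin n → ℝ), S = {s | (∀ k, 0 ≤ s k ∧ s k ≤ 0.24) ∧ ∑ k, s k = 1} :=
    ⟨_, rfl⟩
  have hcont := J_continuousOn24 n
  rw [← hS] at hcont
  have hclosed : IsClosed S := by
    rw [hS]
    have h1 : {s : Fin n → ℝ | (∀ k, 0 ≤ s k ∧ s k ≤ 0.24) ∧ ∑ k, s k = 1} =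
        Icc (fun _ => 0) (fun _ => 0.24) ∩ {s | ∑ k, s k = 1} := by
      ext x
      constructor
      · rintro ⟨h1, h2⟩
        exact ⟨⟨fun k => (h1 k).1, fun k => (h1 k).2⟩, h2⟩
      · rintro ⟨⟨h1, h1'⟩, h2⟩
        exact ⟨fun k => ⟨h1 k, h1' k⟩, h2⟩
    rw [h1]
    apply IsClosed.inter isClosed_Icc
    exact isClosed_eq (continuous_finsetSum _ fun i _ => continuous_apply i) continuous_const
  have hcomp : IsCompact S := by
    refine IsCompact.of_isClosed_subset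
      (isCompact_Icc (a := fun _ : Fin n => (0 : ℝ)) (b := fun _ => 0.24)) hclosed ?_
    intro x hx
    rw [hS] at hx
    exact ⟨fun k => (hx.1 k).1, fun k => (hx.1 k).2⟩
  have hsS : s ∈ S := by rw [hS]; exact ⟨hs, hsum⟩
  have hne : Nonempty (Fin n) := ⟨⟨0, by omega⟩⟩
  have hnpos : (0 : ℝ) < n := by exact_mod_cast (by omega : 0 < n)
  -- every maximiser is constant
  have hmax : ∀ x ∈ S, (∀ y ∈ S, J 1 y ≤ J 1 x) → ∀ k, x k = 1 / (n : ℝ) := by
    intro x hx hmx k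
    rw [hS] at hx
    obtain ⟨i, hi⟩ := Finite.exists_max x
    obtain ⟨j, hj⟩ := Finite.exists_min x
    have hij : x i ≤ x j := by
      by_contra hcon
      rw [not_le] at hcon
      obtain ⟨s', h1, h2, h3⟩ := J_increase hn x hx.1 hx.2 i j hi hj hcon
      have h4 := hmx s' (by rw [hS]; exact ⟨h1, h2⟩)
      linarith
    have hc : ∀ m, x m = x i := fun m => le_antisymm (hi m) (hij.trans (hj m))
    have h5 := hx.2
    simp only [hc] at h5
    rw [Finset.sum_const, Finset.card_univ, Fintype.card_fin, nsmul_eq_mul] at h5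
    rw [hc k, eq_div_iff hnpos.ne']
    linarith
  obtain ⟨x, hxS, hx⟩ := hcomp.exists_isMaxOn ⟨s, hsS⟩ hcont
  have hx' : ∀ y ∈ S, J 1 y ≤ J 1 x := fun y hy => hx hy
  have hxc := hmax x hxS hx'
  have hxe : x = fun _ : Fin n => 1 / (n : ℝ) := funext hxc
  rw [← hxe]
  refine ⟨hx' s hsS, fun h => ?_⟩
  exact hmax s hsS (fun y hy => by rw [h]; exact hx' y hy)




end Pool.Agent.Helper82.GC
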