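import Pool.Agent.Helper82.GC.J10295
import Pool.Agent.Helper82.GC.J10575
import Pool.Agent.Helper82.GC.J9609

set_option autoImplicit false

open MeasureTheory Set

namespace Pool.Agent.Helper82.GC

theorem low_all {n : ℕ} (hn : 6 ≤ n) :
    P1 * Real.exp (-0.02275) < J 1 (fun _ : Fin n => 1 / (n : ℝ)) := by
  obtain ⟨h6, h7, h8, h9⟩ := diag_low n hn
  have hP : 0 < P1 := by linarith [P1_bounds.1]
  have key : ∀ T : ℝ, T ≤ 0.02275 → P1 * Real.exp (-T) < J 1 (fun _ : Fin n => 1 / (n : ℝ)) →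
      P1 * Real.exp (-0.02275) < J 1 (fun _ : Fin n => 1 / (n : ℝ)) := by
    intro T hT h
    refine lt_of_le_of_lt ?_ h
    apply mul_le_mul_of_nonneg_left _ hP.le
    rw [Real.exp_le_exp]
    linarith
  rcases Nat.lt_or_ge n 7 with h | h
  · exact h6 (by omega)
  rcases Nat.lt_or_ge n 8 with h' | h'
  · exact key 0.0198 (by norm_num) (h7 (by omega))
  rcases Nat.lt_or_ge n 9 with h'' | h''
  · exact key 0.0174 (by norm_num) (h8 (by omega))
  · have h1 := h9 h''
    have hn9 : (9 : ℝ) ≤ n := by exact_mod_cast h''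
    have e : (-0.1525 : ℝ) / n = -(0.1525 / n) := by ring
    rw [e] at h1
    refine key (0.1525 / n) ?_ h1
    rw [div_le_iff₀ (by linarith)]
    linarith

theorem diag_gt {n : ℕ} (hn : 6 ≤ n) :
    Real.sqrt 2 * Ip 2 < J 1 (fun _ : Fin n => 1 / (n : ℝ)) := by
  refine lt_trans ?_ (low_all hn)
  have hP : 0 < P1 := by linarith [P1_bounds.1]
  rw [two_eq]
  apply mul_lt_mul_of_pos_left _ hP
  rw [Real.exp_lt_exp]
  linarith [ee_half.1]

/-- the sum in the middle range, when all other coordinates are at most `0.35` -/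
theorem mid_sum_six {n : ℕ} (hn : 6 ≤ n) (s : Fin n → ℝ) (hs : ∀ k, 0 ≤ s k)
    (hsum : ∑ k, s k = 1) (j : Fin n) (h1 : 0.24 ≤ s j) (h2 : s j ≤ 0.44)
    (h3 : ∀ k, k ≠ j → s k ≤ 0.35) :
    0.02275 - 0.02646 * (1 - s j) ^ 2 - 0.0002 * (1 - s j) ^ 3 +
      (0.1323 * (1 - s j) ^ 2 / ((n : ℝ) - 1) + 0.005 * (1 - s j) ^ 3 / ((n : ℝ) - 1) ^ 2) <
      ∑ k, ee (s k) := by
  have hn6 : (6 : ℝ) ≤ n := by exact_mod_cast hn
  have hm : (0 : ℝ) < (n : ℝ) - 1 := by linarith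
  have hcast : ((n - 1 : ℕ) : ℝ) = (n : ℝ) - 1 := by
    rw [Nat.cast_sub (by omega)]
    norm_num
  have e1 : ∑ k, ee (s k) = ee (s j) + ∑ k ∈ Finset.univ.erase j, ee (s k) :=
    (Finset.add_sum_erase Finset.univ (fun k => ee (s k)) (Finset.mem_univ j)).symm
  have e2 : ∑ k, s k = s j + ∑ k ∈ Finset.univ.erase j, s k :=
    (Finset.add_sum_erase Finset.univ s (Finset.mem_univ j)).symm
  have h4 := support_sum_10575_j10575 (Finset.univ.erase j) s (n - 1)
    (by rw [Finset.card_erase_of_mem (Finset.mem_univ j), Finset.card_univ, Fintype.card_fin])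
    (fun k _ => hs k) (fun k hk => h3 k (Finset.ne_of_mem_erase hk))
    ((1 - s j) / ((n : ℝ) - 1)) (by rw [hcast, mul_div_cancel₀ _ hm.ne']; linarith)
    (div_nonneg (by linarith) hm.le)
    (by rw [div_le_iff₀ hm]; nlinarith)
  rw [hcast] at h4
  have e3 : ((n : ℝ) - 1) * (0.1323 * ((1 - s j) / ((n : ℝ) - 1)) ^ 2 +
      0.005 * ((1 - s j) / ((n : ℝ) - 1)) ^ 3) =
      0.1323 * (1 - s j) ^ 2 / ((n : ℝ) - 1) + 0.005 * (1 - s j) ^ 3 / ((n : ℝ) - 1) ^ 2 := by
    field_simp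
  rw [e3] at h4
  have h5 : 0.02275 < ee (s j) + 0.02646 * (1 - s j) ^ 2 + 0.0002 * (1 - s j) ^ 3 := by
    rcases le_total (s j) 0.3 with h | h
    · exact ee_six1 (s j) h1 h
    · exact ee_six2 (s j) h h2
  rw [e1]
  linarith

/-- from a lower bound of the sum of the deficits to the comparison with the diagonal -/
theorem fin_six {n : ℕ} (s : Fin n → ℝ) (hs : ∀ k, 0 ≤ s k) (hs2 : ∀ k, s k ≤ 1 / 2)
    (hsum : ∑ k, s k = 1) (T : ℝ) (hT : P1 * Real.exp (-T) < J 1 (fun _ : Fin n => 1 / (n : ℝ)))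
    (h : T ≤ ∑ k, ee (s k)) : J 1 s < J 1 (fun _ : Fin n => 1 / (n : ℝ)) := by
  refine lt_of_le_of_lt ((J_le_exp s hs hs2 hsum).2.trans ?_) hT
  apply mul_le_mul_of_nonneg_left _ (by linarith [P1_bounds.1])
  rw [Real.exp_le_exp]
  linarith

theorem mid_six {n : ℕ} (hn : 6 ≤ n) (s : Fin n → ℝ) (hs : ∀ k, 0 ≤ s k)
    (hsum : ∑ k, s k = 1) (j : Fin n) (h1 : 0.24 ≤ s j) (h2 : s j ≤ 0.44)
    (hmax : ∀ k, s k ≤ s j) : J 1 s < J 1 (fun _ : Fin n => 1 / (n : ℝ)) := by
  have hs2 : ∀ k, s k ≤ 1 / 2 := fun k => by linarith [hmax k]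
  by_cases h3 : ∀ k, k ≠ j → s k ≤ 0.35
  · have h4 := mid_sum_six hn s hs hsum j h1 h2 h3
    obtain ⟨h6, h7, h8, h9⟩ := diag_low n hn
    obtain ⟨w, hw⟩ : ∃ w, w = 1 - s j := ⟨_, rfl⟩
    rw [← hw] at h4
    have hw0 : 0 ≤ w := by linarith
    have hw1 : w ≤ 0.76 := by linarith
    have hw2 : w ^ 2 ≤ 0.5776 := by nlinarith
    have hw3 : w ^ 3 ≤ 0.438976 := by
      calc w ^ 3 ≤ 0.76 ^ 3 := pow_le_pow_left₀ hw0 hw1 3
        _ = 0.438976 := by norm_num
    have hw20 : 0 ≤ w ^ 2 := by positivity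
    have hw30 : 0 ≤ w ^ 3 := by positivity
    rcases Nat.lt_or_ge n 7 with h | h
    · have hn6 : n = 6 := by omega
      refine fin_six s hs hs2 hsum 0.02275 (h6 hn6) ?_
      have e : (n : ℝ) - 1 = 5 := by rw [hn6]; norm_num
      rw [e] at h4
      norm_num at h4 ⊢
      linarith
    rcases Nat.lt_or_ge n 8 with h' | h'
    · have hn7 : n = 7 := by omega
      refine fin_six s hs hs2 hsum 0.0198 (h7 hn7) ?_
      have e : (n : ℝ) - 1 = 6 := by rw [hn7]; norm_num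
      rw [e] at h4
      norm_num at h4 ⊢
      linarith
    rcases Nat.lt_or_ge n 9 with h'' | h''
    · have hn8 : n = 8 := by omega
      refine fin_six s hs hs2 hsum 0.0174 (h8 hn8) ?_
      have e : (n : ℝ) - 1 = 7 := by rw [hn8]; norm_num
      rw [e] at h4
      norm_num at h4 ⊢
      linarith
    · have hn9 : (9 : ℝ) ≤ n := by exact_mod_cast h''
      have h10 := h9 h''
      have e : (-0.1525 : ℝ) / n = -(0.1525 / n) := by ring
      rw [e] at h10
      refine fin_six s hs hs2 hsum (0.1525 / n) h10 ?_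
      refine le_trans ?_ h4.le
      obtain ⟨t, ht⟩ : ∃ t : ℝ, (n : ℝ) = 9 + t := ⟨(n : ℝ) - 9, by ring⟩
      have ht0 : 0 ≤ t := by linarith
      have e2 : (n : ℝ) - 1 = 8 + t := by rw [ht]; ring
      rw [e2, ht]
      have hm : (0 : ℝ) < 8 + t := by linarith
      have a1 : 0.5776 * (0.1323 / (8 + t) - 0.02646) ≤
          0.1323 * w ^ 2 / (8 + t) - 0.02646 * w ^ 2 := by
        have b1 : 0.1323 / (8 + t) - 0.02646 ≤ 0 := by
          rw [sub_nonpos, div_le_iff₀ hm]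
          linarith
        have b2 : 0.1323 * w ^ 2 / (8 + t) - 0.02646 * w ^ 2 =
            w ^ 2 * (0.1323 / (8 + t) - 0.02646) := by ring
        rw [b2]
        exact mul_le_mul_of_nonpos_right hw2 b1
      have a2 : 0.438976 * (0.005 / (8 + t) ^ 2 - 0.0002) ≤
          0.005 * w ^ 3 / (8 + t) ^ 2 - 0.0002 * w ^ 3 := by
        have b1 : 0.005 / (8 + t) ^ 2 - 0.0002 ≤ 0 := by
          rw [sub_nonpos, div_le_iff₀ (by positivity)]
          nlinarith
        have b2 : 0.005 * w ^ 3 / (8 + t) ^ 2 - 0.0002 * w ^ 3 =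
            w ^ 3 * (0.005 / (8 + t) ^ 2 - 0.0002) := by ring
        rw [b2]
        exact mul_le_mul_of_nonpos_right hw3 b1
      have a3 : 0.1525 / (9 + t) ≤ 0.02275 + 0.5776 * (0.1323 / (8 + t) - 0.02646) +
          0.438976 * (0.005 / (8 + t) ^ 2 - 0.0002) := by
        have c1 : 0.02275 + 0.5776 * (0.1323 / (8 + t) - 0.02646) +
          0.438976 * (0.005 / (8 + t) ^ 2 - 0.0002) =
          ((0.02275 - 0.5776 * 0.02646 - 0.438976 * 0.0002) * (8 + t) ^ 2 +
            0.5776 * 0.1323 * (8 + t) + 0.438976 * 0.005) / (8 + t) ^ 2 := by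
          field_simp
          ring
        rw [c1, div_le_div_iff₀ (by linarith) (by positivity)]
        have : 0 ≤ t ^ 2 := by positivity
        have : 0 ≤ t ^ 3 := by positivity
        nlinarith
      linarith
  · push Not at h3
    obtain ⟨l, hl, hl2⟩ := h3
    refine fin_six s hs hs2 hsum 0.02275 (low_all hn) ?_
    have e1 := sum_two_10575_j10575 (fun k => ee (s k)) j l hl
    have a1 := ee_forty (s j) (by linarith [hmax l]) h2
    have a2 := ee_forty (s l) hl2.le ((hmax l).trans h2)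
    have a3 : 0 ≤ ∑ k ∈ (Finset.univ.erase j).erase l, ee (s k) :=
      Finset.sum_nonneg fun k _ => ee_nonneg _ (hs k) (hs2 k)
    linarith

theorem low_num {n : ℕ} (hn : 6 ≤ n) : 4.5322 < J 1 (fun _ : Fin n => 1 / (n : ℝ)) := by
  refine lt_trans ?_ (low_all hn)
  have h1 := P1_bounds.1
  have h2 := Real.add_one_le_exp (-0.02275 : ℝ)
  nlinarith

theorem upper_six {n : ℕ} (hn : 6 ≤ n) (s : Fin n → ℝ) (hs : ∀ k, 0 ≤ s k)
    (hsum : ∑ k, s k = 1) (j : Fin n) (h1 : 0.44 ≤ s j) (h2 : s j ≤ 1 / 2)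
    (hmax : ∀ k, s k ≤ s j) : J 1 s < J 1 (fun _ : Fin n => 1 / (n : ℝ)) := by
  have hs2 : ∀ k, s k ≤ 1 / 2 := fun k => (hmax k).trans h2
  by_cases h3 : ∀ k, k ≠ j → s k ≤ 0.3
  · exact (R3_bound s hs hsum j h1 (by linarith) (Or.inl h3)).2.trans (low_num hn)
  · push Not at h3
    obtain ⟨l, hl, hl2⟩ := h3
    refine fin_six s hs hs2 hsum 0.02275 (low_all hn) ?_
    have e1 := sum_two_10575_j10575 (fun k => ee (s k)) j l hl
    have a1 := ee_F1 (s j) h1 h2
    have a0 := ee_half.1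
    have a2 : 0.0107 ≤ ee (s l) := by
      rcases le_total (s l) 0.31 with h | h
      · exact ee_F3 (s l) hl2.le h
      · linarith [ee_F5 (s l) h (hs2 l)]
    have a3 : 0 ≤ ∑ k ∈ (Finset.univ.erase j).erase l, ee (s k) :=
      Finset.sum_nonneg fun k _ => ee_nonneg _ (hs k) (hs2 k)
    linarith

theorem half_six {n : ℕ} (hn : 6 ≤ n) (s : Fin n → ℝ) (hs : ∀ k, 0 ≤ s k)
    (hsum : ∑ k, s k = 1) (j : Fin n) (h1 : 1 / 2 < s j) (h2 : s j ≤ 0.527) :
    Integrable (fun t => ∏ k, phi 1 (Real.sqrt (s k) * t)) ∧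
    J 1 s < J 1 (fun _ : Fin n => 1 / (n : ℝ)) := by
  have hP : 0 < P1 := by linarith [P1_bounds.1]
  by_cases hE : ∀ k, k ≠ j → s k ≤ 0.31
  · have h := R3_bound s hs hsum j (by linarith) h2 (Or.inr ⟨by linarith, hE⟩)
    exact ⟨h.1, h.2.trans (low_num hn)⟩
  · push Not at hE
    obtain ⟨l, hl, hl2⟩ := hE
    obtain ⟨hint, hJ⟩ := J_le_half s hs hsum j h1.le (by linarith)
    refine ⟨hint, lt_of_le_of_lt hJ (lt_of_le_of_lt ?_ (low_all hn))⟩
    obtain ⟨η, hη⟩ : ∃ η, η = s j - 1 / 2 := ⟨_, rfl⟩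
    have hη0 : 0 < η := by linarith
    have hη1 : η ≤ 0.027 := by linarith
    have hsj : s j = 1 / 2 + η := by linarith
    obtain ⟨d, hd⟩ : ∃ d, d = 2 * (1 - s j) := ⟨_, rfl⟩
    rw [← hd]
    have hdη : d = 1 - 2 * η := by rw [hd, hsj]; ring
    have hd0 : 0 < d := by rw [hdη]; linarith
    have hd1 : d < 1 := by rw [hdη]; linarith
    have hother : ∀ k, k ≠ j → s k / d ≤ 1 / 2 := by
      intro k hk
      have h5 := sum_two_10575_j10575 s j k hk
      have h6 : 0 ≤ ∑ i ∈ (Finset.univ.erase j).erase k, s i :=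
        Finset.sum_nonneg fun i _ => hs i
      rw [div_le_iff₀ hd0]
      linarith
    obtain ⟨α, hα⟩ : ∃ α, α = s l / d := ⟨_, rfl⟩
    have hαd : α * d = s l := by rw [hα]; exact div_mul_cancel₀ _ hd0.ne'
    have hαhalf : α ≤ 1 / 2 := by rw [hα]; exact hother l hl
    have hα1 : s l ≤ α := by
      rw [hα, le_div_iff₀ hd0]
      nlinarith [hs l]
    have e4 : ∑ i ∈ Finset.univ.erase j, ee (s i / d) =
        ee α + ∑ k ∈ (Finset.univ.erase j).erase l, ee (s k / d) := by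
      rw [hα]
      exact (Finset.add_sum_erase (Finset.univ.erase j) (fun k => ee (s k / d))
        (Finset.mem_erase.2 ⟨hl, Finset.mem_univ l⟩)).symm
    have e7 : 0 ≤ ∑ k ∈ (Finset.univ.erase j).erase l, ee (s k / d) := by
      apply Finset.sum_nonneg
      intro k hk
      exact ee_nonneg _ (div_nonneg (hs k) hd0.le)
        (hother k (Finset.ne_of_mem_erase (Finset.mem_of_mem_erase hk)))
    have e5 : 4 * s j * (1 - s j) = 1 - 4 * η ^ 2 := by rw [hsj]; ring
    rw [e5, e4, mul_assoc]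
    apply mul_le_mul_of_nonneg_left _ hP.le
    have e6 := rpow_bound_10575_j10575 η hη0.le hη1
    have a0 := ee_half.1
    have hfin : 0.02275 + 1.01 * η ^ 2 ≤ ee (1 / 2) + ee α := by
      rcases le_total η 0.02 with h | h
      · have := ee_F5 α (by linarith) hαhalf
        nlinarith
      · have h7 : 0.32 ≤ α := by
          by_contra hcon
          push Not at hcon
          have : α * d < 0.31 := by
            rw [hdη]
            nlinarith
          linarith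
        have := ee_F6 α h7 hαhalf
        nlinarith
    calc Real.exp (-(ee (1 / 2) + (ee α + ∑ k ∈ (Finset.univ.erase j).erase l, ee (s k / d)))) *
          (1 - 4 * η ^ 2) ^ (-(1 / 4) : ℝ)
        ≤ Real.exp (-(ee (1 / 2) + (ee α + ∑ k ∈ (Finset.univ.erase j).erase l,
            ee (s k / d)))) * Real.exp (1.01 * η ^ 2) :=
          mul_le_mul_of_nonneg_left e6 (Real.exp_pos _).le
      _ = Real.exp (-(ee (1 / 2) + (ee α + ∑ k ∈ (Finset.univ.erase j).erase l,
            ee (s k / d))) + 1.01 * η ^ 2) := (Real.exp_add _ _).symm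
      _ ≤ Real.exp (-0.02275) := by
          rw [Real.exp_le_exp]
          linarith

theorem region_six {n : ℕ} (hn : 6 ≤ n) (s : Fin n → ℝ) (hs : ∀ k, 0 ≤ s k)
    (hs2 : ∀ k, s k ≤ 0.527) (hsum : ∑ k, s k = 1) :
    Integrable (fun t => ∏ k, phi 1 (Real.sqrt (s k) * t)) ∧
    J 1 s ≤ J 1 (fun _ : Fin n => 1 / (n : ℝ)) ∧
      (J 1 s = J 1 (fun _ : Fin n => 1 / (n : ℝ)) → ∀ k, s k = 1 / (n : ℝ)) := by
  have hne : Nonempty (Fin n) := ⟨⟨0, by omega⟩⟩
  obtain ⟨j, -, hj⟩ := Finset.exists_max_image Finset.univ s Finset.univ_nonempty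
  have hmax : ∀ k, s k ≤ s j := fun k => hj k (Finset.mem_univ k)
  rcases le_or_gt (s j) (1 / 2) with h | h
  · have hs3 : ∀ k, s k ≤ 1 / 2 := fun k => (hmax k).trans h
    refine ⟨(J_le_exp s hs hs3 hsum).1, ?_⟩
    rcases le_total (s j) 0.24 with h1 | h1
    · exact small_max24 hn s (fun k => ⟨hs k, (hmax k).trans h1⟩) hsum
    · have hlt : J 1 s < J 1 (fun _ : Fin n => 1 / (n : ℝ)) := by
        rcases le_total (s j) 0.44 with h2 | h2
        · exact mid_six hn s hs hsum j h1 h2 hmax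
        · exact upper_six hn s hs hsum j h2 h hmax
      exact ⟨hlt.le, fun he => absurd he hlt.ne⟩
  · obtain ⟨hint, hlt⟩ := half_six hn s hs hsum j h (hs2 j)
    exact ⟨hint, hlt.le, fun he => absurd he hlt.ne⟩

end Pool.Agent.Helper82.GC
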