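import Pool.Agent.Helper82.GC.Fin
import Pool.Agent.Helper82.GC.J10561
import Pool.Agent.Helper82.GC.J10572

set_option autoImplicit false

open MeasureTheory Set

namespace Pool.Agent.Helper82.GC


theorem main_six_aux_sq_j10577 {n : ℕ} (hn : 6 ≤ n) (x : ℝ) :
    |x| = 1 / Real.sqrt n ↔ x ^ 2 = 1 / (n : ℝ) := by
  have hn0 : (0 : ℝ) < n := by exact_mod_cast (by omega : 0 < n)
  constructor
  · intro h
    rw [← sq_abs, h, div_pow, one_pow, Real.sq_sqrt hn0.le]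
  · intro h
    rw [← Real.sqrt_sq_eq_abs, h, Real.sqrt_div zero_le_one, Real.sqrt_one]

theorem main_six {n : ℕ} (hn : 6 ≤ n) (θ : EuclideanSpace ℝ (Fin n)) (hθ : ‖θ‖ = 1) :
    sec n 1 θ ≤ sec n 1 (diagonal n) ∧
      (sec n 1 θ = sec n 1 (diagonal n) ↔ ∀ i, |θ i| = 1 / Real.sqrt n) := by
  obtain ⟨k, rfl⟩ : ∃ k, n = k + 1 := ⟨n - 1, by omega⟩
  have hn0 : (0 : ℝ) < ((k + 1 : ℕ) : ℝ) := by exact_mod_cast (by omega : 0 < k + 1)
  have hn6 : (6 : ℝ) ≤ ((k + 1 : ℕ) : ℝ) := by exact_mod_cast hn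
  have h1n : 1 / ((k + 1 : ℕ) : ℝ) ≤ 1 / 6 := one_div_le_one_div_of_le (by norm_num) hn6
  have hZ : 0 < Zr 1 := Zr_pos one_pos
  have hpi := Real.pi_pos
  have hc : 0 < (2 * Real.pi) ^ (-(k : ℝ) / 2) := Real.rpow_pos_of_pos (by positivity) _
  have hdn := diagonal_norm (n := k + 1) (by omega)
  have hdi : ∀ i, diagonal (k + 1) i ^ 2 = 1 / ((k + 1 : ℕ) : ℝ) := by
    intro i
    change (1 / Real.sqrt ((k + 1 : ℕ) : ℝ)) ^ 2 = _
    rw [div_pow, one_pow, Real.sq_sqrt hn0.le]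
  have hdf : (fun i => diagonal (k + 1) i ^ 2) = fun _ : Fin (k + 1) => 1 / ((k + 1 : ℕ) : ℝ) :=
    funext hdi
  have hrd := region_six hn (fun _ : Fin (k + 1) => 1 / ((k + 1 : ℕ) : ℝ)) (fun _ => by positivity)
    (fun _ => h1n.trans (by norm_num)) (by
      rw [Finset.sum_const, Finset.card_univ, Fintype.card_fin, nsmul_eq_mul]
      field_simp)
  have hsd : ∫ x : ((ℝ ∙ diagonal (k + 1))ᗮ : Submodule ℝ (EuclideanSpace ℝ (Fin (k + 1)))),
      F 1 (x : EuclideanSpace ℝ (Fin (k + 1))) =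
      Zr 1 ^ (k + 1) / (2 * Real.pi) * J 1 (fun _ : Fin (k + 1) => 1 / ((k + 1 : ℕ) : ℝ)) := by
    have := slice_eq_J one_pos (diagonal (k + 1)) hdn (by
      simp only [hdi]
      exact hrd.1)
    rw [hdf] at this
    exact this
  rw [sec_eq 1 θ hθ, sec_eq 1 (diagonal (k + 1)) hdn, hsd]
  have hfac : 0 < Zr 1 ^ (k + 1) / (2 * Real.pi) := by positivity
  by_cases hall : ∀ i, θ i ^ 2 ≤ 0.527
  · obtain ⟨r1, r2, r3⟩ := region_six hn (fun i => θ i ^ 2) (fun i => sq_nonneg _) hall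
      (sum_sq θ hθ)
    rw [slice_eq_J one_pos θ hθ r1]
    constructor
    · exact mul_le_mul_of_nonneg_left (mul_le_mul_of_nonneg_left r2 hfac.le) hc.le
    · constructor
      · intro h i
        have h1 := mul_left_cancel₀ hc.ne' h
        have h2 := mul_left_cancel₀ hfac.ne' h1
        exact (main_six_aux_sq_j10577 hn _).2 (r3 h2 i)
      · intro h
        have : (fun i => θ i ^ 2) = fun _ : Fin (k + 1) => 1 / ((k + 1 : ℕ) : ℝ) :=
          funext (fun i => (main_six_aux_sq_j10577 hn _).1 (h i))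
        rw [this]
  · push Not at hall
    obtain ⟨j, hj⟩ := hall
    have hj0 : θ j ≠ 0 := by
      intro h
      rw [h] at hj
      norm_num at hj
    have hj1 : θ j ^ 2 ≤ 1 := by
      rw [← sum_sq θ hθ]
      exact Finset.single_le_sum (f := fun i => θ i ^ 2) (fun i _ => sq_nonneg _)
        (Finset.mem_univ j)
    have hle := slice_le_moment one_pos θ hθ j hj0
    have hnum := moment_num (θ j ^ 2) hj.le hj1
    rw [Real.sqrt_sq_eq_abs] at hnum
    have hlt : ∫ x : ((ℝ ∙ θ)ᗮ : Submodule ℝ (EuclideanSpace ℝ (Fin (k + 1)))),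
        F 1 (x : EuclideanSpace ℝ (Fin (k + 1))) <
        Zr 1 ^ (k + 1) / (2 * Real.pi) * J 1 (fun _ : Fin (k + 1) => 1 / ((k + 1 : ℕ) : ℝ)) := by
      refine lt_of_le_of_lt hle ?_
      have h1 : Zr 1 ^ k * ((1 / |θ j|) *
        (1 - vr 1 * ((1 - θ j ^ 2) / θ j ^ 2) / 2 +
          3 * vr 1 ^ 2 * ((1 - θ j ^ 2) / θ j ^ 2) ^ 2 / 8)) <
          Zr 1 ^ k * (Real.sqrt 2 * (∫ x in (-1 : ℝ)..1, Real.exp (-x ^ 2)) / Zr 1) :=
        mul_lt_mul_of_pos_left hnum (by positivity)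
      refine h1.trans ?_
      have h2 : Zr 1 ^ k * (Real.sqrt 2 * (∫ x in (-1 : ℝ)..1, Real.exp (-x ^ 2)) / Zr 1) =
          Zr 1 ^ (k + 1) / (2 * Real.pi) * (Real.sqrt 2 * Ip 2) := by
        rw [Ip_two_eq]
        field_simp
        ring
      rw [h2]
      exact mul_lt_mul_of_pos_left (diag_gt hn) hfac
    have hlt2 := mul_lt_mul_of_pos_left hlt hc
    refine ⟨hlt2.le, ?_, ?_⟩
    · intro h
      exact absurd h hlt2.ne
    · intro h
      have h3 := (main_six_aux_sq_j10577 hn _).1 (h j)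
      rw [h3] at hj
      norm_num at hj h1n
      linarith



end Pool.Agent.Helper82.GC
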