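import Pool.Agent.Helper82.GC.Def2
import Pool.Agent.Helper82.GC.E1

set_option autoImplicit false

open MeasureTheory Set

namespace Pool.Agent.Helper82.GC


theorem j8961_int_j8961 (f f' : ℝ → ℝ) (n : ℕ) (h0 : f 0 = 0)
    (hd : ∀ x, HasDerivAt f (f' x) x)
    (hb : ∀ x, 0 ≤ x → |f' x| ≤ x ^ n / (Nat.factorial n)) (x : ℝ) (hx : 0 ≤ x) :
    |f x| ≤ x ^ (n + 1) / (Nat.factorial (n + 1)) := by
  have key := image_norm_le_of_norm_deriv_right_le_deriv_boundary (f := f) (f' := f')
    (a := 0) (b := x) (B := fun y => y ^ (n + 1) / (Nat.factorial (n + 1)))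
    (B' := fun y => y ^ n / (Nat.factorial n))
    (fun y _ => (hd y).continuousAt.continuousWithinAt)
    (fun y _ => (hd y).hasDerivWithinAt)
    (by simp [h0])
    (fun y => by
      have h1 : HasDerivAt (fun y : ℝ => y ^ (n + 1) / (Nat.factorial (n + 1)))
          (((n + 1 : ℕ) : ℝ) * y ^ n / (Nat.factorial (n + 1))) y := by
        have := (hasDerivAt_pow (n + 1) y).div_const (Nat.factorial (n + 1) : ℝ)
        simpa using this
      refine h1.congr_deriv ?_
      rw [Nat.factorial_succ]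
      have h2 : (Nat.factorial n : ℝ) ≠ 0 := by exact_mod_cast Nat.factorial_ne_zero n
      have h3 : ((n + 1 : ℕ) : ℝ) ≠ 0 := by positivity
      push_cast at h3 ⊢
      field_simp)
    (fun y hy => by simpa using hb y hy.1)
  have := key (x := x) ⟨hx, le_refl x⟩
  simpa using this

theorem j8961_derC_j8961 (N : ℕ) (x : ℝ) :
    HasDerivAt (fun y : ℝ => Real.cos y - ∑ k ∈ Finset.range (N + 1),
      (-1) ^ k * y ^ (2 * k) / (Nat.factorial (2 * k)))
    (-(Real.sin x - ∑ k ∈ Finset.range N, (-1) ^ k * x ^ (2 * k + 1) /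
      (Nat.factorial (2 * k + 1)))) x := by
  have h1 : HasDerivAt (fun y : ℝ => ∑ k ∈ Finset.range (N + 1),
      (-1) ^ k * y ^ (2 * k) / (Nat.factorial (2 * k)))
      (∑ k ∈ Finset.range (N + 1), (-1) ^ k * (((2 * k : ℕ) : ℝ) * x ^ (2 * k - 1)) /
        (Nat.factorial (2 * k))) x := by
    apply HasDerivAt.fun_sum
    intro k _
    exact ((hasDerivAt_pow (2 * k) x).const_mul ((-1) ^ k)).div_const _
  have h2 := (Real.hasDerivAt_cos x).sub h1
  refine h2.congr_deriv ?_
  rw [Finset.sum_range_succ']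
  have h3 : ∀ k ∈ Finset.range N, (-1 : ℝ) ^ (k + 1) * (((2 * (k + 1) : ℕ) : ℝ) *
      x ^ (2 * (k + 1) - 1)) / (Nat.factorial (2 * (k + 1))) =
      -((-1) ^ k * x ^ (2 * k + 1) / (Nat.factorial (2 * k + 1))) := by
    intro k _
    have e1 : 2 * (k + 1) - 1 = 2 * k + 1 := by omega
    have e2 : 2 * (k + 1) = (2 * k + 1) + 1 := by ring
    rw [e1, e2, Nat.factorial_succ]
    have h2 : (Nat.factorial (2 * k + 1) : ℝ) ≠ 0 := by exact_mod_cast Nat.factorial_ne_zero _
    have h3 : ((2 * k + 1 + 1 : ℕ) : ℝ) ≠ 0 := by positivity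
    push_cast at h3 ⊢
    field_simp
    ring
  rw [Finset.sum_congr rfl h3, Finset.sum_neg_distrib]
  simp
  ring

theorem j8961_derS_j8961 (N : ℕ) (x : ℝ) :
    HasDerivAt (fun y : ℝ => Real.sin y - ∑ k ∈ Finset.range N,
      (-1) ^ k * y ^ (2 * k + 1) / (Nat.factorial (2 * k + 1)))
    (Real.cos x - ∑ k ∈ Finset.range N, (-1) ^ k * x ^ (2 * k) /
      (Nat.factorial (2 * k))) x := by
  have h1 : HasDerivAt (fun y : ℝ => ∑ k ∈ Finset.range N,
      (-1) ^ k * y ^ (2 * k + 1) / (Nat.factorial (2 * k + 1)))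
      (∑ k ∈ Finset.range N, (-1) ^ k * x ^ (2 * k) /
        (Nat.factorial (2 * k))) x := by
    apply HasDerivAt.fun_sum
    intro k _
    have h4 := ((hasDerivAt_pow (2 * k + 1) x).const_mul ((-1 : ℝ) ^ k)).div_const
      (Nat.factorial (2 * k + 1) : ℝ)
    refine h4.congr_deriv ?_
    rw [Nat.factorial_succ]
    have h2 : (Nat.factorial (2 * k) : ℝ) ≠ 0 := by exact_mod_cast Nat.factorial_ne_zero _
    have h3 : ((2 * k + 1 : ℕ) : ℝ) ≠ 0 := by positivity
    simp only [Nat.add_sub_cancel]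
    push_cast at h3 ⊢
    field_simp
  exact (Real.hasDerivAt_sin x).sub h1

theorem j8961_joint_j8961 (N : ℕ) :
    (∀ x : ℝ, 0 ≤ x → |Real.cos x - ∑ k ∈ Finset.range N,
      (-1) ^ k * x ^ (2 * k) / (Nat.factorial (2 * k))| ≤ x ^ (2 * N) / (Nat.factorial (2 * N))) ∧
    (∀ x : ℝ, 0 ≤ x → |Real.sin x - ∑ k ∈ Finset.range N,
      (-1) ^ k * x ^ (2 * k + 1) / (Nat.factorial (2 * k + 1))| ≤
        x ^ (2 * N + 1) / (Nat.factorial (2 * N + 1))) := by
  induction N with
  | zero =>
    constructor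
    · intro x _
      simpa using Real.abs_cos_le_one x
    · intro x hx
      have := Real.abs_sin_le_abs (x := x)
      rw [abs_of_nonneg hx] at this
      simpa using this
  | succ N ih =>
    have hC : ∀ x : ℝ, 0 ≤ x → |Real.cos x - ∑ k ∈ Finset.range (N + 1),
      (-1) ^ k * x ^ (2 * k) / (Nat.factorial (2 * k))| ≤
        x ^ (2 * (N + 1)) / (Nat.factorial (2 * (N + 1))) := by
      intro x hx
      exact j8961_int_j8961 (fun y : ℝ => Real.cos y - ∑ k ∈ Finset.range (N + 1),
        (-1) ^ k * y ^ (2 * k) / (Nat.factorial (2 * k)))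
        (fun x => -(Real.sin x - ∑ k ∈ Finset.range N, (-1) ^ k * x ^ (2 * k + 1) /
          (Nat.factorial (2 * k + 1)))) (2 * N + 1)
        (by
          simp only [Real.cos_zero]
          rw [Finset.sum_range_succ']
          simp)
        (j8961_derC_j8961 N)
        (fun y hy => by rw [abs_neg]; exact ih.2 y hy) x hx
    refine ⟨hC, ?_⟩
    intro x hx
    exact j8961_int_j8961 (fun y : ℝ => Real.sin y - ∑ k ∈ Finset.range (N + 1),
      (-1) ^ k * y ^ (2 * k + 1) / (Nat.factorial (2 * k + 1)))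
      (fun x => Real.cos x - ∑ k ∈ Finset.range (N + 1), (-1) ^ k * x ^ (2 * k) /
      (Nat.factorial (2 * k))) (2 * (N + 1))
      (by simp)
      (j8961_derS_j8961 (N + 1))
      hC x hx

theorem j8961_cos_j8961 (N : ℕ) (x : ℝ) :
    |Real.cos x - ∑ k ∈ Finset.range N,
      (-1) ^ k * x ^ (2 * k) / (Nat.factorial (2 * k))| ≤ x ^ (2 * N) / (Nat.factorial (2 * N)) := by
  rcases le_total 0 x with hx | hx
  · exact (j8961_joint_j8961 N).1 x hx
  · have h := (j8961_joint_j8961 N).1 (-x) (by linarith)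
    simp only [Real.cos_neg, pow_mul, neg_sq] at h
    simpa only [pow_mul] using h

theorem phi_taylor (N : ℕ) (z : ℝ) :
    |phi 1 z - ∑ k ∈ Finset.range N, (-1) ^ k * mom k * z ^ (2 * k) / (Nat.factorial (2 * k))| ≤
      mom N * z ^ (2 * N) / (Nat.factorial (2 * N)) := by
  have hZ : 0 < Zr 1 := by linarith [Zr_one_bounds.1]
  set w : ℝ → ℝ := fun x => Real.exp (-x ^ 2 / 2) with hw
  have hwc : Continuous w := by fun_prop
  have hwpos : ∀ x, 0 < w x := fun x => Real.exp_pos _
  -- the sum as an integral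
  have hterm : ∀ k : ℕ, (-1 : ℝ) ^ k * mom k * z ^ (2 * k) / (Nat.factorial (2 * k)) =
      (∫ x in (-1 : ℝ)..1, ((-1) ^ k * (z * x) ^ (2 * k) / (Nat.factorial (2 * k))) * w x) / Zr 1 := by
    intro k
    have : ∀ x : ℝ, ((-1 : ℝ) ^ k * (z * x) ^ (2 * k) / (Nat.factorial (2 * k))) * w x =
        ((-1 : ℝ) ^ k * z ^ (2 * k) / (Nat.factorial (2 * k))) *
          (x ^ (2 * k) * Real.exp (-x ^ 2 / 2)) := by
      intro x; rw [mul_pow, hw]; ring
    simp_rw [this]
    rw [intervalIntegral.integral_const_mul]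
    unfold mom
    ring
  have hii : ∀ k : ℕ, IntervalIntegrable
      (fun x : ℝ => ((-1 : ℝ) ^ k * (z * x) ^ (2 * k) / (Nat.factorial (2 * k))) * w x)
      volume (-1) 1 := by
    intro k
    apply Continuous.intervalIntegrable
    fun_prop
  have hphi : phi 1 z = (∫ x in (-1 : ℝ)..1, Real.cos (z * x) * w x) / Zr 1 := rfl
  have hci : IntervalIntegrable (fun x : ℝ => Real.cos (z * x) * w x) volume (-1) 1 := by
    apply Continuous.intervalIntegrable
    fun_prop
  have hsum : phi 1 z - ∑ k ∈ Finset.range N,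
      (-1) ^ k * mom k * z ^ (2 * k) / (Nat.factorial (2 * k)) =
      (∫ x in (-1 : ℝ)..1, (Real.cos (z * x) - ∑ k ∈ Finset.range N,
        (-1) ^ k * (z * x) ^ (2 * k) / (Nat.factorial (2 * k))) * w x) / Zr 1 := by
    rw [Finset.sum_congr rfl (fun k _ => hterm k), ← Finset.sum_div, hphi, ← sub_div,
      ← intervalIntegral.integral_finsetSum (fun k _ => hii k),
      ← intervalIntegral.integral_sub hci]
    · congr 1
      apply intervalIntegral.integral_congr
      intro x _
      simp only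
      rw [sub_mul, Finset.sum_mul]
    · apply Continuous.intervalIntegrable
      fun_prop
  have hbound : mom N * z ^ (2 * N) / (Nat.factorial (2 * N)) =
      (∫ x in (-1 : ℝ)..1, ((z * x) ^ (2 * N) / (Nat.factorial (2 * N))) * w x) / Zr 1 := by
    have : ∀ x : ℝ, ((z * x) ^ (2 * N) / (Nat.factorial (2 * N))) * w x =
        (z ^ (2 * N) / (Nat.factorial (2 * N))) *
          (x ^ (2 * N) * Real.exp (-x ^ 2 / 2)) := by
      intro x; rw [mul_pow, hw]; ring
    simp_rw [this]
    rw [intervalIntegral.integral_const_mul]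
    unfold mom
    ring
  rw [hsum, hbound, abs_div, abs_of_pos hZ]
  apply div_le_div_of_nonneg_right _ hZ.le
  have h11 : (-1 : ℝ) ≤ 1 := by norm_num
  rw [← Real.norm_eq_abs]
  apply intervalIntegral.norm_integral_le_of_norm_le h11
  · apply Filter.Eventually.of_forall
    intro x _
    rw [norm_mul, Real.norm_eq_abs, Real.norm_eq_abs, abs_of_pos (hwpos x)]
    exact mul_le_mul_of_nonneg_right (j8961_cos_j8961 N (z * x)) (hwpos x).le
  · apply Continuous.intervalIntegrable
    fun_prop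



end Pool.Agent.Helper82.GC
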