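import Pool.Agent.Helper82.GC.A1
import Pool.Agent.Helper82.GC.Def2
import Pool.Agent.Helper82.GC.E1

set_option autoImplicit false

open MeasureTheory Set

namespace Pool.Agent.Helper82.GC


lemma kk_hd_j8962 {f g : ℝ → ℝ} {f' g' x : ℝ} (h : HasDerivAt f f' x) (h1 : g = f) (h2 : g' = f') :
    HasDerivAt g g' x := by
  subst h1
  subst h2
  exact h

lemma kk_mul_sinc_j8962 (y : ℝ) : y * Real.sinc y = Real.sin y := by
  by_cases h : y = 0
  · simp [h]
  · rw [Real.sinc_of_ne_zero h]; field_simp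

/-- the second kernel -/
noncomputable def k3_j8962 (y : ℝ) : ℝ := if y = 0 then 1 / 3 else (Real.sin y - y * Real.cos y) / y ^ 3

lemma kk_cube_mul_j8962 (y : ℝ) : y ^ 3 * k3_j8962 y = Real.sin y - y * Real.cos y := by
  unfold k3_j8962
  split_ifs with h
  · simp [h]
  · field_simp

lemma k3_neg_j8962 (y : ℝ) : k3_j8962 (-y) = k3_j8962 y := by
  unfold k3_j8962
  by_cases h : y = 0
  · simp [h]
  · have h' : -y ≠ 0 := neg_ne_zero.2 h
    rw [if_neg h, if_neg h', Real.sin_neg, Real.cos_neg]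
    field_simp
    ring

lemma kk_abs_le_j8962 {f g f' g' : ℝ → ℝ} (hf : ∀ y, HasDerivAt f (f' y) y)
    (hg : ∀ y, HasDerivAt g (g' y) y)
    (f0 : f 0 = 0) (g0 : g 0 = 0) (h : ∀ y, 0 ≤ y → |f' y| ≤ g' y) (y : ℝ) (hy : 0 ≤ y) :
    |f y| ≤ g y := by
  have key : ∀ (u u' : ℝ → ℝ), (∀ y, HasDerivAt u (u' y) y) → u 0 = 0 →
      (∀ y, 0 ≤ y → 0 ≤ u' y) → 0 ≤ u y := by
    intro u u' hu u0 h
    have hm : MonotoneOn u (Set.Ici 0) := by
      apply monotoneOn_of_deriv_nonneg (convex_Ici 0)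
      · exact fun x _ => (hu x).continuousAt.continuousWithinAt
      · exact fun x _ => (hu x).differentiableAt.differentiableWithinAt
      · intro x hx
        rw [(hu x).deriv]
        apply h
        rw [interior_Ici] at hx
        exact le_of_lt hx
    have := hm (Set.mem_Ici.2 le_rfl) (Set.mem_Ici.2 hy) hy
    rwa [u0] at this
  have h1 := key (fun y => g y + f y) (fun y => g' y + f' y)
    (fun y => (hg y).add (hf y)) (by simp [f0, g0])
    (fun y hy => by have := (abs_le.1 (h y hy)).1; linarith)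
  have h2 := key (fun y => g y - f y) (fun y => g' y - f' y)
    (fun y => (hg y).sub (hf y)) (by simp [f0, g0])
    (fun y hy => by have := (abs_le.1 (h y hy)).2; linarith)
  rw [abs_le]
  constructor
  · linarith
  · linarith

noncomputable def kkC_j8962 (N : ℕ) (y : ℝ) : ℝ :=
  ∑ k ∈ Finset.range N, (-1) ^ k * y ^ (2 * k) / (Nat.factorial (2 * k))

noncomputable def kkS_j8962 (N : ℕ) (y : ℝ) : ℝ :=
  ∑ k ∈ Finset.range N, (-1) ^ k * y ^ (2 * k + 1) / (Nat.factorial (2 * k + 1))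

lemma kk_pow_deriv_j8962 (n : ℕ) (c y : ℝ) :
    HasDerivAt (fun y : ℝ => c * y ^ (n + 1) / (Nat.factorial (n + 1)))
      (c * y ^ n / (Nat.factorial n)) y := by
  have h1 := ((hasDerivAt_pow (n + 1) y).const_mul c).div_const ((Nat.factorial (n + 1) : ℕ) : ℝ)
  refine kk_hd_j8962 h1 rfl ?_
  have h2 : ((Nat.factorial (n + 1) : ℕ) : ℝ) = (n + 1) * (Nat.factorial n : ℝ) := by
    rw [Nat.factorial_succ]; push_cast; ring
  have h3 : (Nat.factorial n : ℝ) ≠ 0 := by exact_mod_cast Nat.factorial_ne_zero n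
  have h4 : (n + 1 : ℝ) ≠ 0 := by positivity
  rw [h2]
  simp only [Nat.add_sub_cancel]
  push_cast
  field_simp

lemma kkS_deriv_j8962 (N : ℕ) (y : ℝ) : HasDerivAt (kkS_j8962 N) (kkC_j8962 N y) y := by
  unfold kkS_j8962 kkC_j8962
  exact HasDerivAt.fun_sum (fun k _ => kk_pow_deriv_j8962 (2 * k) ((-1) ^ k) y)

lemma kkC_deriv_j8962 (N : ℕ) (y : ℝ) : HasDerivAt (kkC_j8962 (N + 1)) (-(kkS_j8962 N y)) y := by
  have h1 : kkC_j8962 (N + 1) = fun y => (∑ k ∈ Finset.range N, (-1) ^ (k + 1) * y ^ (2 * k + 1 + 1) /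
      (Nat.factorial (2 * k + 1 + 1) : ℝ)) + 1 := by
    funext y
    unfold kkC_j8962
    rw [Finset.sum_range_succ']
    congr 1
    simp
  rw [h1]
  have h2 : -(kkS_j8962 N y) = ∑ k ∈ Finset.range N, (-1) ^ (k + 1) * y ^ (2 * k + 1) /
      (Nat.factorial (2 * k + 1) : ℝ) := by
    unfold kkS_j8962
    rw [← Finset.sum_neg_distrib]
    apply Finset.sum_congr rfl
    intro k _
    rw [pow_succ]
    ring
  rw [h2]
  exact (HasDerivAt.fun_sum (fun k _ => kk_pow_deriv_j8962 (2 * k + 1) ((-1) ^ (k + 1)) y)).add_const 1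

lemma kk_bounds_j8962 (N : ℕ) : (∀ y : ℝ, 0 ≤ y → |Real.cos y - kkC_j8962 N y| ≤
      y ^ (2 * N) / (Nat.factorial (2 * N))) ∧
    (∀ y : ℝ, 0 ≤ y → |Real.sin y - kkS_j8962 N y| ≤ y ^ (2 * N + 1) / (Nat.factorial (2 * N + 1))) := by
  have step : ∀ N : ℕ, (∀ y : ℝ, 0 ≤ y → |Real.cos y - kkC_j8962 N y| ≤
      y ^ (2 * N) / (Nat.factorial (2 * N))) →
      (∀ y : ℝ, 0 ≤ y → |Real.sin y - kkS_j8962 N y| ≤
        y ^ (2 * N + 1) / (Nat.factorial (2 * N + 1))) := by
    intro N h y hy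
    refine kk_abs_le_j8962 (f := fun y => Real.sin y - kkS_j8962 N y)
      (g := fun y => y ^ (2 * N + 1) / (Nat.factorial (2 * N + 1)))
      (f' := fun y => Real.cos y - kkC_j8962 N y) (g' := fun y => y ^ (2 * N) / (Nat.factorial (2 * N)))
      (fun y => (Real.hasDerivAt_sin y).sub (kkS_deriv_j8962 N y)) ?_ ?_ ?_ h y hy
    · intro y
      have := kk_pow_deriv_j8962 (2 * N) 1 y
      simpa using this
    · simp [kkS_j8962]
    · simp
  induction N with
  | zero =>
    have h0 : ∀ y : ℝ, 0 ≤ y → |Real.cos y - kkC_j8962 0 y| ≤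
        y ^ (2 * 0) / (Nat.factorial (2 * 0)) := by
      intro y _
      simpa [kkC_j8962] using Real.abs_cos_le_one y
    exact ⟨h0, step 0 h0⟩
  | succ N ih =>
    have h1 : ∀ y : ℝ, 0 ≤ y → |Real.cos y - kkC_j8962 (N + 1) y| ≤
        y ^ (2 * (N + 1)) / (Nat.factorial (2 * (N + 1))) := by
      intro y hy
      refine kk_abs_le_j8962 (f := fun y => Real.cos y - kkC_j8962 (N + 1) y)
        (g := fun y => y ^ (2 * (N + 1)) / (Nat.factorial (2 * (N + 1))))
        (f' := fun y => -(Real.sin y) - -(kkS_j8962 N y))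
        (g' := fun y => y ^ (2 * N + 1) / (Nat.factorial (2 * N + 1)))
        (fun y => (Real.hasDerivAt_cos y).sub (kkC_deriv_j8962 N y)) ?_ ?_ ?_ ?_ y hy
      · intro y
        have := kk_pow_deriv_j8962 (2 * N + 1) 1 y
        simp only [one_mul] at this
        exact this
      · have : kkC_j8962 (N + 1) 0 = 1 := by
          unfold kkC_j8962
          rw [Finset.sum_range_succ']
          simp
        simp [this]
      · simp
      · intro y hy
        have := ih.2 y hy
        rw [show -(Real.sin y) - -(kkS_j8962 N y) = -(Real.sin y - kkS_j8962 N y) by ring, abs_neg]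
        exact this
    exact ⟨h1, step (N + 1) h1⟩

lemma kk_pow_two_abs_j8962 (y : ℝ) (k : ℕ) : |y| ^ (2 * k) = y ^ (2 * k) := by
  rw [pow_mul, pow_mul, sq_abs]

lemma sinc_kernel_j8962 (N : ℕ) (y : ℝ) :
    |Real.sinc y - ∑ k ∈ Finset.range N, (-1) ^ k * (1 / (Nat.factorial (2 * k + 1) : ℝ)) *
      y ^ (2 * k)| ≤ 1 / (Nat.factorial (2 * N + 1) : ℝ) * y ^ (2 * N) := by
  have hpos : ∀ y : ℝ, 0 < y → |Real.sinc y - ∑ k ∈ Finset.range N, (-1) ^ k *
      (1 / (Nat.factorial (2 * k + 1) : ℝ)) * y ^ (2 * k)| ≤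
        1 / (Nat.factorial (2 * N + 1) : ℝ) * y ^ (2 * N) := by
    intro y hy
    have h1 := (kk_bounds_j8962 N).2 y hy.le
    have h2 : Real.sin y - kkS_j8962 N y = y * (Real.sinc y - ∑ k ∈ Finset.range N, (-1) ^ k *
      (1 / (Nat.factorial (2 * k + 1) : ℝ)) * y ^ (2 * k)) := by
      rw [mul_sub, kk_mul_sinc_j8962, Finset.mul_sum]
      congr 1
      unfold kkS_j8962
      apply Finset.sum_congr rfl
      intro k _
      ring
    rw [h2, abs_mul, abs_of_pos hy] at h1
    have h3 : y ^ (2 * N + 1) / (Nat.factorial (2 * N + 1) : ℝ) =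
      y * (1 / (Nat.factorial (2 * N + 1) : ℝ) * y ^ (2 * N)) := by ring
    rw [h3] at h1
    exact le_of_mul_le_mul_left h1 hy
  rcases lt_trichotomy y 0 with h | h | h
  · have := hpos (-y) (by linarith)
    rw [Real.sinc_neg] at this
    simpa only [Even.neg_pow (even_two_mul _)] using this
  · subst h
    cases N with
    | zero => simp
    | succ N =>
      rw [Finset.sum_range_succ']
      simp
  · exact hpos y h

lemma k3_kernel_j8962 (N : ℕ) (y : ℝ) :
    |k3_j8962 y - ∑ k ∈ Finset.range N, (-1) ^ k * ((2 * k + 2) / (Nat.factorial (2 * k + 3) : ℝ)) *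
      y ^ (2 * k)| ≤ (2 * N + 2) / (Nat.factorial (2 * N + 3) : ℝ) * y ^ (2 * N) := by
  have hD : ∀ y : ℝ, 0 ≤ y → |(Real.sin y - y * Real.cos y) - ∑ k ∈ Finset.range N,
      (-1) ^ k * (2 * k + 2) * y ^ (2 * k + 2 + 1) / (Nat.factorial (2 * k + 2 + 1) : ℝ)| ≤
      (2 * N + 2) * y ^ (2 * N + 2 + 1) / (Nat.factorial (2 * N + 2 + 1) : ℝ) := by
    intro y hy
    refine kk_abs_le_j8962 (f := fun y => (Real.sin y - y * Real.cos y) - ∑ k ∈ Finset.range N,
      (-1) ^ k * (2 * k + 2) * y ^ (2 * k + 2 + 1) / (Nat.factorial (2 * k + 2 + 1) : ℝ))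
      (g := fun y => (2 * N + 2) * y ^ (2 * N + 2 + 1) / (Nat.factorial (2 * N + 2 + 1) : ℝ))
      (f' := fun y => (Real.cos y - (1 * Real.cos y + y * (-Real.sin y))) -
        ∑ k ∈ Finset.range N,
          (-1) ^ k * (2 * k + 2) * y ^ (2 * k + 2) / (Nat.factorial (2 * k + 2) : ℝ))
      (g' := fun y => (2 * N + 2) * y ^ (2 * N + 2) / (Nat.factorial (2 * N + 2) : ℝ))
      ?_ ?_ ?_ ?_ ?_ y hy
    · intro y
      exact ((Real.hasDerivAt_sin y).sub ((hasDerivAt_id y).mul (Real.hasDerivAt_cos y))).sub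
        (HasDerivAt.fun_sum (fun k _ => kk_pow_deriv_j8962 (2 * k + 2) ((-1) ^ k * (2 * k + 2)) y))
    · intro y
      exact kk_pow_deriv_j8962 (2 * N + 2) (2 * N + 2) y
    · simp
    · simp
    · intro y hy
      have hfac : ∀ k : ℕ, (2 * k + 2 : ℝ) / (Nat.factorial (2 * k + 2) : ℝ) =
          1 / (Nat.factorial (2 * k + 1) : ℝ) := by
        intro k
        have h2 : ((Nat.factorial (2 * k + 2) : ℕ) : ℝ) =
            (2 * k + 2) * (Nat.factorial (2 * k + 1) : ℝ) := by
          rw [Nat.factorial_succ]; push_cast; ring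
        have h3 : (Nat.factorial (2 * k + 1) : ℝ) ≠ 0 := by
          exact_mod_cast Nat.factorial_ne_zero _
        have h4 : (2 * k + 2 : ℝ) ≠ 0 := by positivity
        rw [h2]
        field_simp
      have e1 : (Real.cos y - (1 * Real.cos y + y * (-Real.sin y))) -
        ∑ k ∈ Finset.range N,
          (-1) ^ k * (2 * k + 2) * y ^ (2 * k + 2) / (Nat.factorial (2 * k + 2) : ℝ) =
          y * (Real.sin y - kkS_j8962 N y) := by
        have e2 : ∑ k ∈ Finset.range N,
          (-1) ^ k * (2 * k + 2) * y ^ (2 * k + 2) / (Nat.factorial (2 * k + 2) : ℝ) =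
            y * kkS_j8962 N y := by
          unfold kkS_j8962
          rw [Finset.mul_sum]
          apply Finset.sum_congr rfl
          intro k _
          calc (-1) ^ k * (2 * k + 2) * y ^ (2 * k + 2) / (Nat.factorial (2 * k + 2) : ℝ)
              = (-1) ^ k * y ^ (2 * k + 2) * ((2 * k + 2) / (Nat.factorial (2 * k + 2) : ℝ)) := by
                ring
            _ = y * ((-1) ^ k * y ^ (2 * k + 1) / (Nat.factorial (2 * k + 1) : ℝ)) := by
                rw [hfac]; ring
        rw [e2]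
        ring
      have e3 : (2 * N + 2) * y ^ (2 * N + 2) / (Nat.factorial (2 * N + 2) : ℝ) =
          y * (y ^ (2 * N + 1) / (Nat.factorial (2 * N + 1) : ℝ)) := by
        calc (2 * N + 2) * y ^ (2 * N + 2) / (Nat.factorial (2 * N + 2) : ℝ)
            = y ^ (2 * N + 2) * ((2 * N + 2) / (Nat.factorial (2 * N + 2) : ℝ)) := by ring
          _ = y * (y ^ (2 * N + 1) / (Nat.factorial (2 * N + 1) : ℝ)) := by
              rw [hfac]; ring
      rw [e1, e3, abs_mul, abs_of_nonneg hy]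
      exact mul_le_mul_of_nonneg_left ((kk_bounds_j8962 N).2 y hy) hy
  have hpos : ∀ y : ℝ, 0 < y → |k3_j8962 y - ∑ k ∈ Finset.range N, (-1) ^ k *
      ((2 * k + 2) / (Nat.factorial (2 * k + 3) : ℝ)) * y ^ (2 * k)| ≤
        (2 * N + 2) / (Nat.factorial (2 * N + 3) : ℝ) * y ^ (2 * N) := by
    intro y hy
    have h1 := hD y hy.le
    have h2 : (Real.sin y - y * Real.cos y) - ∑ k ∈ Finset.range N,
      (-1) ^ k * (2 * k + 2) * y ^ (2 * k + 2 + 1) / (Nat.factorial (2 * k + 2 + 1) : ℝ) =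
      y ^ 3 * (k3_j8962 y - ∑ k ∈ Finset.range N, (-1) ^ k *
      ((2 * k + 2) / (Nat.factorial (2 * k + 3) : ℝ)) * y ^ (2 * k)) := by
      rw [mul_sub, kk_cube_mul_j8962, Finset.mul_sum]
      congr 1
      apply Finset.sum_congr rfl
      intro k _
      ring
    rw [h2, abs_mul, abs_of_pos (pow_pos hy 3)] at h1
    have h3 : (2 * N + 2) * y ^ (2 * N + 2 + 1) / (Nat.factorial (2 * N + 2 + 1) : ℝ) =
      y ^ 3 * ((2 * N + 2) / (Nat.factorial (2 * N + 3) : ℝ) * y ^ (2 * N)) := by ring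
    rw [h3] at h1
    exact le_of_mul_le_mul_left h1 (pow_pos hy 3)
  rcases lt_trichotomy y 0 with h | h | h
  · have := hpos (-y) (by linarith)
    rw [k3_neg_j8962] at this
    simpa only [Even.neg_pow (even_two_mul _)] using this
  · subst h
    cases N with
    | zero =>
      simp [k3_j8962, Nat.factorial]
      norm_num
    | succ N =>
      rw [Finset.sum_range_succ']
      simp [k3_j8962, Nat.factorial]
      norm_num
  · exact hpos y h

lemma k3_continuous_j8962 : Continuous k3_j8962 := by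
  rw [continuous_iff_continuousAt]
  intro y
  by_cases h : y = 0
  · subst h
    have h1 : ∀ y, |k3_j8962 y - 1 / 3| ≤ y ^ 2 := by
      intro y
      have := k3_kernel_j8962 1 y
      simp [Nat.factorial] at this
      have h3 : |k3_j8962 y - 1 / 3| ≤ 4 / 120 * y ^ 2 := by
        convert this using 2
        · norm_num
        · norm_num
      nlinarith [sq_nonneg y]
    have h0 : k3_j8962 0 = 1 / 3 := by simp [k3_j8962]
    rw [ContinuousAt, h0, tendsto_iff_norm_sub_tendsto_zero]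
    refine squeeze_zero (fun _ => norm_nonneg _) (g := fun y : ℝ => y ^ 2) h1 ?_
    have : Filter.Tendsto (fun y : ℝ => y ^ 2) (nhds 0) (nhds (0 ^ 2)) :=
      (continuous_pow 2).tendsto 0
    simpa using this
  · have h1 : k3_j8962 =ᶠ[nhds y] fun y => (Real.sin y - y * Real.cos y) / y ^ 3 := by
      filter_upwards [isOpen_ne.mem_nhds h] with z hz
      simp only [k3_j8962, if_neg hz]
    refine ContinuousAt.congr ?_ h1.symm
    have : y ^ 3 ≠ 0 := pow_ne_zero 3 h
    fun_prop (disch := assumption)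

lemma Zr_one_pos_j8962 : 0 < Zr 1 := lt_trans (by norm_num) Zr_one_bounds.1

lemma taylor_integral_j8962 (h : ℝ → ℝ) (hc : Continuous h) (a : ℕ → ℝ) (p : ℕ) (N : ℕ)
    (hb : ∀ y, |h y - ∑ k ∈ Finset.range N, (-1) ^ k * a k * y ^ (2 * k)| ≤ a N * y ^ (2 * N))
    (z : ℝ) :
    |(∫ x in (-1 : ℝ)..1, x ^ (2 * p) * h (z * x) * Real.exp (-x ^ 2 / 2)) / Zr 1 -
      ∑ k ∈ Finset.range N, (-1) ^ k * a k * mom (k + p) * z ^ (2 * k)| ≤
      a N * mom (N + p) * z ^ (2 * N) := by
  have hZ := Zr_one_pos_j8962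
  have hsum : ∑ k ∈ Finset.range N, (-1) ^ k * a k * mom (k + p) * z ^ (2 * k) =
      (∫ x in (-1 : ℝ)..1, x ^ (2 * p) *
        (∑ k ∈ Finset.range N, (-1) ^ k * a k * (z * x) ^ (2 * k)) * Real.exp (-x ^ 2 / 2)) /
        Zr 1 := by
    have e1 : (fun x : ℝ => x ^ (2 * p) *
        (∑ k ∈ Finset.range N, (-1) ^ k * a k * (z * x) ^ (2 * k)) * Real.exp (-x ^ 2 / 2)) =
        fun x : ℝ => ∑ k ∈ Finset.range N, ((-1) ^ k * a k * z ^ (2 * k)) *
          (x ^ (2 * (k + p)) * Real.exp (-x ^ 2 / 2)) := by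
      funext x
      rw [Finset.mul_sum, Finset.sum_mul]
      apply Finset.sum_congr rfl
      intro k _
      rw [mul_pow]
      ring
    rw [e1, intervalIntegral.integral_finsetSum]
    · rw [Finset.sum_div]
      apply Finset.sum_congr rfl
      intro k _
      rw [intervalIntegral.integral_const_mul]
      unfold mom
      ring
    · intro k _
      apply Continuous.intervalIntegrable
      fun_prop
  rw [hsum, ← sub_div, ← intervalIntegral.integral_sub]
  rotate_left
  · apply Continuous.intervalIntegrable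
    fun_prop
  · apply Continuous.intervalIntegrable
    fun_prop
  rw [abs_div, abs_of_pos hZ, div_le_iff₀ hZ]
  have hR : a N * mom (N + p) * z ^ (2 * N) * Zr 1 =
      ∫ x in (-1 : ℝ)..1, (a N * z ^ (2 * N)) * (x ^ (2 * (N + p)) * Real.exp (-x ^ 2 / 2)) := by
    rw [intervalIntegral.integral_const_mul]
    unfold mom
    field_simp
  rw [hR]
  refine (intervalIntegral.abs_integral_le_integral_abs (by norm_num)).trans ?_
  apply intervalIntegral.integral_mono_on (by norm_num)
  · apply Continuous.intervalIntegrable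
    fun_prop
  · apply Continuous.intervalIntegrable
    fun_prop
  · intro x _
    have e2 : x ^ (2 * p) * h (z * x) * Real.exp (-x ^ 2 / 2) -
        x ^ (2 * p) * (∑ k ∈ Finset.range N, (-1) ^ k * a k * (z * x) ^ (2 * k)) *
          Real.exp (-x ^ 2 / 2) =
        (x ^ (2 * p) * Real.exp (-x ^ 2 / 2)) *
          (h (z * x) - ∑ k ∈ Finset.range N, (-1) ^ k * a k * (z * x) ^ (2 * k)) := by ring
    have hnn : 0 ≤ x ^ (2 * p) * Real.exp (-x ^ 2 / 2) := by
      have : 0 ≤ x ^ (2 * p) := by rw [pow_mul]; positivity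
      positivity
    rw [e2, abs_mul, abs_of_nonneg hnn]
    calc (x ^ (2 * p) * Real.exp (-x ^ 2 / 2)) *
          |h (z * x) - ∑ k ∈ Finset.range N, (-1) ^ k * a k * (z * x) ^ (2 * k)|
        ≤ (x ^ (2 * p) * Real.exp (-x ^ 2 / 2)) * (a N * (z * x) ^ (2 * N)) :=
          mul_le_mul_of_nonneg_left (hb (z * x)) hnn
      _ = (a N * z ^ (2 * N)) * (x ^ (2 * (N + p)) * Real.exp (-x ^ 2 / 2)) := by
          rw [mul_pow]; ring

lemma kk_wderiv_j8962 (x : ℝ) : HasDerivAt (fun x : ℝ => Real.exp (-x ^ 2 / 2))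
    (Real.exp (-x ^ 2 / 2) * (-x)) x := by
  have h1 : HasDerivAt (fun x : ℝ => -x ^ 2 / 2) (-x) x := by
    have := ((hasDerivAt_pow 2 x).neg).div_const 2
    refine kk_hd_j8962 this rfl ?_
    push_cast
    ring
  exact h1.exp

lemma kk_sinc_deriv_j8962 (z x : ℝ) :
    HasDerivAt (fun x : ℝ => x * Real.sinc (z * x)) (Real.cos (z * x)) x := by
  by_cases hz : z = 0
  · subst hz
    refine kk_hd_j8962 (hasDerivAt_id x) ?_ (by simp)
    funext x
    simp
  · have e : (fun x : ℝ => x * Real.sinc (z * x)) = fun x => Real.sin (z * x) / z := by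
      funext x
      have := kk_mul_sinc_j8962 (z * x)
      rw [← this]
      field_simp
    rw [e]
    have h1 : HasDerivAt (fun x : ℝ => z * x) z x := by
      simpa using (hasDerivAt_id x).const_mul z
    have := (h1.sin).div_const z
    refine kk_hd_j8962 this rfl ?_
    field_simp

lemma kk_k3_deriv_j8962 (z x : ℝ) :
    HasDerivAt (fun x : ℝ => x ^ 3 * k3_j8962 (z * x)) (x ^ 2 * Real.sinc (z * x)) x := by
  by_cases hz : z = 0
  · subst hz
    have := (hasDerivAt_pow 3 x).mul_const (1 / 3 : ℝ)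
    have e0 : k3_j8962 0 = 1 / 3 := by simp [k3_j8962]
    simp only [zero_mul, e0, Real.sinc_zero]
    refine kk_hd_j8962 this rfl ?_
    push_cast
    ring
  · have e : (fun x : ℝ => x ^ 3 * k3_j8962 (z * x)) = fun x =>
        (Real.sin (z * x) - (z * x) * Real.cos (z * x)) / z ^ 3 := by
      funext x
      have := kk_cube_mul_j8962 (z * x)
      rw [← this]
      field_simp
    rw [e]
    have h1 : HasDerivAt (fun x : ℝ => z * x) z x := by
      simpa using (hasDerivAt_id x).const_mul z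
    have := ((h1.sin).sub (h1.mul h1.cos)).div_const (z ^ 3)
    refine kk_hd_j8962 this rfl ?_
    have e2 := kk_mul_sinc_j8962 (z * x)
    have e3 : x ^ 2 * Real.sinc (z * x) = x * Real.sin (z * x) / z := by
      rw [← e2]; field_simp
    rw [e3]
    field_simp
    ring

lemma psi_integral_j8962 (z : ℝ) : psi 1 z =
    (∫ x in (-1 : ℝ)..1, x ^ (2 * 1) * Real.sinc (z * x) * Real.exp (-x ^ 2 / 2)) / Zr 1 := by
  have hZ := Zr_one_pos_j8962
  have hc := Real.continuous_sinc
  have h1 : ∀ x ∈ Set.uIcc (-1 : ℝ) 1, HasDerivAt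
      (fun x : ℝ => x * Real.sinc (z * x) * Real.exp (-x ^ 2 / 2))
      (Real.cos (z * x) * Real.exp (-x ^ 2 / 2) -
        x ^ (2 * 1) * Real.sinc (z * x) * Real.exp (-x ^ 2 / 2)) x := by
    intro x _
    have := (kk_sinc_deriv_j8962 z x).mul (kk_wderiv_j8962 x)
    refine kk_hd_j8962 this rfl ?_
    ring
  have h2 := intervalIntegral.integral_eq_sub_of_hasDerivAt h1 (by
    apply Continuous.intervalIntegrable
    fun_prop)
  rw [intervalIntegral.integral_sub (by apply Continuous.intervalIntegrable; fun_prop)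
    (by apply Continuous.intervalIntegrable; fun_prop)] at h2
  have h3 : ∫ x in (-1 : ℝ)..1, x ^ (2 * 1) * Real.sinc (z * x) * Real.exp (-x ^ 2 / 2) =
      G 1 z - 2 * Real.exp (-1 ^ 2 / 2) * Real.sinc (1 * z) := by
    unfold G
    have e1 : Real.sinc (z * -1) = Real.sinc z := by rw [mul_neg_one, Real.sinc_neg]
    have e2 : (-(-1 : ℝ) ^ 2 / 2) = (-1 ^ 2 / 2 : ℝ) := by norm_num
    rw [e1, e2] at h2
    rw [one_mul]
    have e3 : z * 1 = z := mul_one z
    rw [e3] at h2
    linarith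
  rw [h3]
  unfold psi phi Kr
  field_simp

lemma chi_eq_j8962 (z : ℝ) : chi z = psi 1 z - Kr 1 * k3_j8962 z := rfl

lemma chi_integral_j8962 (z : ℝ) : chi z =
    (∫ x in (-1 : ℝ)..1, x ^ (2 * 2) * k3_j8962 (z * x) * Real.exp (-x ^ 2 / 2)) / Zr 1 := by
  have hZ := Zr_one_pos_j8962
  have hc := Real.continuous_sinc
  have hk := k3_continuous_j8962
  have h1 : ∀ x ∈ Set.uIcc (-1 : ℝ) 1, HasDerivAt
      (fun x : ℝ => x ^ 3 * k3_j8962 (z * x) * Real.exp (-x ^ 2 / 2))
      (x ^ (2 * 1) * Real.sinc (z * x) * Real.exp (-x ^ 2 / 2) -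
        x ^ (2 * 2) * k3_j8962 (z * x) * Real.exp (-x ^ 2 / 2)) x := by
    intro x _
    have := (kk_k3_deriv_j8962 z x).mul (kk_wderiv_j8962 x)
    refine kk_hd_j8962 this rfl ?_
    ring
  have h2 := intervalIntegral.integral_eq_sub_of_hasDerivAt h1 (by
    apply Continuous.intervalIntegrable
    fun_prop)
  rw [intervalIntegral.integral_sub (by apply Continuous.intervalIntegrable; fun_prop)
    (by apply Continuous.intervalIntegrable; fun_prop)] at h2
  have e0 := psi_integral_j8962 z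
  rw [eq_div_iff hZ.ne'] at e0
  have h3 : ∫ x in (-1 : ℝ)..1, x ^ (2 * 2) * k3_j8962 (z * x) * Real.exp (-x ^ 2 / 2) =
      psi 1 z * Zr 1 - 2 * Real.exp (-1 ^ 2 / 2) * k3_j8962 z := by
    have e1 : k3_j8962 (z * -1) = k3_j8962 z := by rw [mul_neg_one, k3_neg_j8962]
    have e2 : (-(-1 : ℝ) ^ 2 / 2) = (-1 ^ 2 / 2 : ℝ) := by norm_num
    have e3 : z * 1 = z := mul_one z
    rw [e1, e2, e3, ← e0] at h2
    linarith
  rw [h3, chi_eq_j8962]
  unfold Kr
  field_simp

theorem phi_deriv (z : ℝ) : HasDerivAt (phi 1) (-(z * psi 1 z)) z := by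
  have h := phi_hasDerivAt (r := 1) one_pos z
  refine kk_hd_j8962 h rfl ?_
  unfold psi
  have := kk_mul_sinc_j8962 (1 * z)
  rw [← this]
  ring

lemma sinc_deriv_j8962 (z : ℝ) : HasDerivAt Real.sinc (-(z * k3_j8962 z)) z := by
  by_cases hz : z = 0
  · subst hz
    rw [zero_mul, neg_zero, hasDerivAt_iff_isLittleO]
    have hb : ∀ y : ℝ, |Real.sinc y - 1| ≤ y ^ 2 := by
      intro y
      have := sinc_kernel_j8962 1 y
      simp [Nat.factorial] at this
      nlinarith [sq_nonneg y]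
    have h1 : (fun x' : ℝ => Real.sinc x' - Real.sinc 0 - (x' - 0) • (0 : ℝ)) =O[nhds 0]
        fun x' : ℝ => (x' - 0) ^ 2 := by
      apply Asymptotics.IsBigO.of_bound 1
      filter_upwards with y
      have := hb y
      rw [Real.sinc_zero, smul_zero, sub_zero, sub_zero, Real.norm_eq_abs, Real.norm_eq_abs, one_mul]
      rw [abs_of_nonneg (sq_nonneg y)]
      exact this
    refine h1.trans_isLittleO ?_
    have h2 : (fun x' : ℝ => x' ^ 2) =o[nhds 0] fun x' : ℝ => x' :=
      Asymptotics.isLittleO_pow_id one_lt_two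
    simpa using h2
  · have h1 : Real.sinc =ᶠ[nhds z] fun y => Real.sin y / y := by
      filter_upwards [isOpen_ne.mem_nhds hz] with y hy
      exact Real.sinc_of_ne_zero hy
    refine HasDerivAt.congr_of_eventuallyEq ?_ h1
    have := (Real.hasDerivAt_sin z).div (hasDerivAt_id z) hz
    refine kk_hd_j8962 this rfl ?_
    simp only [k3_j8962, if_neg hz, id]
    field_simp
    ring

theorem psi_deriv (z : ℝ) : HasDerivAt (psi 1) (-(z * chi z)) z := by
  have h1 : psi 1 = fun z => phi 1 z - Kr 1 * Real.sinc z := by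
    funext z
    unfold psi
    rw [one_mul]
  have h2 := (phi_deriv z).sub ((sinc_deriv_j8962 z).const_mul (Kr 1))
  have h3 : HasDerivAt (fun z => phi 1 z - Kr 1 * Real.sinc z)
    (-(z * psi 1 z) - Kr 1 * (-(z * k3_j8962 z))) z := h2
  rw [← h1] at h3
  refine kk_hd_j8962 h3 rfl ?_
  rw [chi_eq_j8962]
  ring

theorem psi_neg (z : ℝ) : psi 1 (-z) = psi 1 z := by
  unfold psi
  rw [phi_neg, mul_neg, Real.sinc_neg]

theorem chi_neg (z : ℝ) : chi (-z) = chi z := by
  rw [chi_eq_j8962, chi_eq_j8962, psi_neg, k3_neg_j8962]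

theorem chi_continuous : Continuous chi := by
  have h1 : Continuous (psi 1) := by
    rw [continuous_iff_continuousAt]
    exact fun z => (psi_deriv z).continuousAt
  have h2 : chi = fun z => psi 1 z - Kr 1 * k3_j8962 z := rfl
  rw [h2]
  exact h1.sub (continuous_const.mul k3_continuous_j8962)

theorem psi_taylor (N : ℕ) (z : ℝ) :
    |psi 1 z - ∑ k ∈ Finset.range N, (-1) ^ k * mom (k + 1) * z ^ (2 * k) / (Nat.factorial (2 * k + 1))| ≤
      mom (N + 1) * z ^ (2 * N) / (Nat.factorial (2 * N + 1)) := by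
  have := taylor_integral_j8962 Real.sinc Real.continuous_sinc
    (fun k => 1 / (Nat.factorial (2 * k + 1) : ℝ)) 1 N (sinc_kernel_j8962 N) z
  rw [← psi_integral_j8962] at this
  convert this using 3
  · apply Finset.sum_congr rfl
    intro k _
    ring
  · ring

theorem chi_taylor (N : ℕ) (z : ℝ) :
    |chi z - ∑ k ∈ Finset.range N,
      (-1) ^ k * mom (k + 2) * (2 * k + 2) * z ^ (2 * k) / (Nat.factorial (2 * k + 3))| ≤
      mom (N + 2) * (2 * N + 2) * z ^ (2 * N) / (Nat.factorial (2 * N + 3)) := by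
  have := taylor_integral_j8962 k3_j8962 k3_continuous_j8962
    (fun k => (2 * k + 2) / (Nat.factorial (2 * k + 3) : ℝ)) 2 N (k3_kernel_j8962 N) z
  rw [← chi_integral_j8962] at this
  convert this using 3
  · apply Finset.sum_congr rfl
    intro k _
    ring
  · ring



end Pool.Agent.Helper82.GC
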