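import Pool.Agent.Helper82.GC.J8960
import Pool.Agent.Helper82.GC.J8961
import Pool.Agent.Helper82.GC.J8962

set_option autoImplicit false

open MeasureTheory Set

namespace Pool.Agent.Helper82.GC


/-! auxiliary: alternating Taylor bounds for sine and cosine -/

/-- Taylor polynomial of the cosine -/
noncomputable def tC_j9261 (n : ℕ) (z : ℝ) : ℝ :=
  ∑ k ∈ Finset.range n, (-1) ^ k * z ^ (2 * k) / (Nat.factorial (2 * k))

/-- Taylor polynomial of the sine -/
noncomputable def tS_j9261 (n : ℕ) (z : ℝ) : ℝ :=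
  ∑ k ∈ Finset.range n, (-1) ^ k * z ^ (2 * k + 1) / (Nat.factorial (2 * k + 1))

theorem tS_deriv_j9261 (n : ℕ) (z : ℝ) : HasDerivAt (tS_j9261 n) (tC_j9261 n z) z := by
  unfold tS_j9261 tC_j9261
  refine HasDerivAt.fun_sum (fun k _ => ?_)
  have h := ((hasDerivAt_pow (2 * k + 1) z).const_mul ((-1 : ℝ) ^ k)).div_const
    (Nat.factorial (2 * k + 1) : ℝ)
  convert! h using 1
  have h1 : (Nat.factorial (2 * k + 1) : ℝ) = (2 * k + 1) * (Nat.factorial (2 * k)) := by
    rw [Nat.factorial_succ]; push_cast; ring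
  have h2 : (Nat.factorial (2 * k) : ℝ) ≠ 0 := by positivity
  rw [h1]
  have h3 : (2 * (k : ℝ) + 1) ≠ 0 := by positivity
  have h4 : 2 * k + 1 - 1 = 2 * k := by omega
  rw [h4]
  push_cast
  field_simp

theorem tC_deriv_j9261 (n : ℕ) (z : ℝ) : HasDerivAt (tC_j9261 (n + 1)) (-(tS_j9261 n z)) z := by
  have h0 : tC_j9261 (n + 1) = fun z => (∑ k ∈ Finset.range n,
      (-1 : ℝ) ^ (k + 1) * z ^ (2 * k + 2) / (Nat.factorial (2 * k + 2))) + 1 := by
    funext w
    unfold tC_j9261
    rw [Finset.sum_range_succ']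
    congr 1
    simp
  rw [h0]
  have h5 : -(tS_j9261 n z) = ∑ k ∈ Finset.range n,
      -((-1 : ℝ) ^ k * z ^ (2 * k + 1) / (Nat.factorial (2 * k + 1))) := by
    unfold tS_j9261
    rw [Finset.sum_neg_distrib]
  rw [h5]
  refine HasDerivAt.add_const _ (HasDerivAt.fun_sum (fun k _ => ?_))
  have h := ((hasDerivAt_pow (2 * k + 2) z).const_mul ((-1 : ℝ) ^ (k + 1))).div_const
    (Nat.factorial (2 * k + 2) : ℝ)
  convert! h using 1
  have h1 : (Nat.factorial (2 * k + 2) : ℝ) = (2 * k + 2) * (Nat.factorial (2 * k + 1)) := by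
    rw [show 2 * k + 2 = (2 * k + 1) + 1 by ring, Nat.factorial_succ]; push_cast; ring
  have h2 : (Nat.factorial (2 * k + 1) : ℝ) ≠ 0 := by positivity
  rw [h1]
  have h3 : (2 * (k : ℝ) + 2) ≠ 0 := by positivity
  have h4 : 2 * k + 2 - 1 = 2 * k + 1 := by omega
  rw [h4]
  push_cast
  field_simp
  ring

theorem tS_zero_j9261 (n : ℕ) : tS_j9261 n 0 = 0 := by
  unfold tS_j9261
  exact Finset.sum_eq_zero (fun k _ => by simp)

theorem tC_zero_j9261 (n : ℕ) : tC_j9261 (n + 1) 0 = 1 := by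
  unfold tC_j9261
  rw [Finset.sum_range_succ']
  simp

theorem mono_aux_j9261 {f f' : ℝ → ℝ} (hf : ∀ z, HasDerivAt f (f' z) z) (h0 : f 0 = 0)
    (hf' : ∀ z, 0 ≤ z → 0 ≤ f' z) (z : ℝ) (hz : 0 ≤ z) : 0 ≤ f z := by
  have hm : MonotoneOn f (Set.Ici 0) := by
    refine monotoneOn_of_deriv_nonneg (convex_Ici 0)
      (fun w _ => (hf w).continuousAt.continuousWithinAt)
      (fun w _ => (hf w).differentiableAt.differentiableWithinAt) (fun w hw => ?_)
    rw [interior_Ici] at hw
    rw [(hf w).deriv]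
    exact hf' w (le_of_lt hw)
  have := hm (Set.mem_Ici.2 le_rfl) (Set.mem_Ici.2 hz) hz
  rwa [h0] at this

theorem sc_bounds_j9261 (n : ℕ) : (∀ z : ℝ, 0 ≤ z → 0 ≤ (-1) ^ (n + 1) * (Real.cos z - tC_j9261 (n + 1) z)) ∧
    (∀ z : ℝ, 0 ≤ z → 0 ≤ (-1) ^ (n + 1) * (Real.sin z - tS_j9261 (n + 1) z)) := by
  induction n with
  | zero =>
    have h1 : ∀ z : ℝ, 0 ≤ z → 0 ≤ (-1) ^ (0 + 1) * (Real.cos z - tC_j9261 (0 + 1) z) := by
      intro z _
      have : tC_j9261 (0 + 1) z = 1 := by simp [tC_j9261]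
      rw [this]
      have := Real.cos_le_one z
      have e : ((-1 : ℝ)) ^ (0 + 1) = -1 := by norm_num
      rw [e]
      linarith
    refine ⟨h1, ?_⟩
    refine mono_aux_j9261 (f' := fun z => (-1) ^ (0 + 1) * (Real.cos z - tC_j9261 (0 + 1) z)) (fun z => ?_) ?_ h1
    · exact ((Real.hasDerivAt_sin z).sub (tS_deriv_j9261 _ z)).const_mul _
    · simp [tS_zero_j9261]
  | succ n ih =>
    have h1 : ∀ z : ℝ, 0 ≤ z → 0 ≤ (-1) ^ (n + 1 + 1) * (Real.cos z - tC_j9261 (n + 1 + 1) z) := by
      refine mono_aux_j9261 (f' := fun z => (-1) ^ (n + 1) * (Real.sin z - tS_j9261 (n + 1) z)) (fun z => ?_) ?_ ih.2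
      · have h := ((Real.hasDerivAt_cos z).sub (tC_deriv_j9261 (n + 1) z)).const_mul ((-1 : ℝ) ^ (n + 1 + 1))
        convert! h using 1
        ring
      · simp [tC_zero_j9261]
    refine ⟨h1, ?_⟩
    refine mono_aux_j9261 (f' := fun z => (-1) ^ (n + 1 + 1) * (Real.cos z - tC_j9261 (n + 1 + 1) z))
      (fun z => ?_) ?_ h1
    · exact ((Real.hasDerivAt_sin z).sub (tS_deriv_j9261 _ z)).const_mul _
    · simp [tS_zero_j9261]


theorem S_low_j9261 (z : ℝ) (hz : 0 ≤ z) :
    z ^ 5 * ((-1/15) * (z ^ 2)^0 + (1/210) * (z ^ 2)^1 + (-1/7560) * (z ^ 2)^2 + (1/498960) * (z ^ 2)^3 + (-1/51891840) * (z ^ 2)^4 + (1/7783776000) * (z ^ 2)^5 + (-1/1587890304000) * (z ^ 2)^6 + (1/422378820864000) * (z ^ 2)^7 + (-1/141919283810304000) * (z ^ 2)^8 + (1/59157933040926720000) * (z ^ 2)^9 + (-1/25852016738884976640000) * (z ^ 2)^10) ≤ z ^ 2 * Real.sin z - 3 * Real.sin z + 3 * z * Real.cos z := by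
  have h1 := (sc_bounds_j9261 11).1 z hz
  have h2 := (sc_bounds_j9261 11).2 z hz
  have h3 := (sc_bounds_j9261 10).2 z hz
  have e1 : ((-1 : ℝ)) ^ (11 + 1) = 1 := by norm_num
  have e2 : ((-1 : ℝ)) ^ (10 + 1) = -1 := by norm_num
  rw [e1, one_mul] at h1 h2
  rw [e2] at h3
  have h4 : tS_j9261 (11 + 1) z = tS_j9261 (10 + 1) z - z ^ 23 / (Nat.factorial 23) := by
    unfold tS_j9261
    rw [Finset.sum_range_succ]
    norm_num
    ring
  have h5 : 0 ≤ z ^ 2 * (Real.sin z - tS_j9261 (11 + 1) z) := mul_nonneg (sq_nonneg z) h2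
  have h6 : 0 ≤ z * (Real.cos z - tC_j9261 (11 + 1) z) := mul_nonneg hz h1
  have h7 : 3 * (Real.sin z - tS_j9261 (11 + 1) z) ≤ 3 * (z ^ 23 / (Nat.factorial 23)) := by
    rw [h4]; linarith
  have h8 : z ^ 5 * ((-1/15) * (z ^ 2)^0 + (1/210) * (z ^ 2)^1 + (-1/7560) * (z ^ 2)^2 + (1/498960) * (z ^ 2)^3 + (-1/51891840) * (z ^ 2)^4 + (1/7783776000) * (z ^ 2)^5 + (-1/1587890304000) * (z ^ 2)^6 + (1/422378820864000) * (z ^ 2)^7 + (-1/141919283810304000) * (z ^ 2)^8 + (1/59157933040926720000) * (z ^ 2)^9 + (-1/25852016738884976640000) * (z ^ 2)^10) =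
      z ^ 2 * tS_j9261 (11 + 1) z - 3 * tS_j9261 (11 + 1) z + 3 * z * tC_j9261 (11 + 1) z - 3 * (z ^ 23 / (Nat.factorial 23)) := by
    unfold tS_j9261 tC_j9261
    simp only [Finset.sum_range_succ, Finset.sum_range_zero, Nat.factorial]
    push_cast
    ring
  rw [h8]
  nlinarith


theorem Q_pos_j9261 (x : ℝ) (h0 : 0 ≤ x) (h1 : x ≤ 35) : 0 < (1893783/250000000) * x^0 + (-1029929/2500000000) * x^1 + (4613183/500000000000) * x^2 + (-117023/1000000000000) * x^3 + (967239/1000000000000000) * x^4 + (-56531/10000000000000000) * x^5 + (4933/200000000000000000) * x^6 + (-4177/50000000000000000000) * x^7 + (113/500000000000000000000) * x^8 + (-59/100000000000000000000000) * x^9 + (-11/400000000000000000000000) * x^10 := by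
  have hs : 0 ≤ 35 - x := by linarith
  have key : (1893783/250000000) * x^0 + (-1029929/2500000000) * x^1 + (4613183/500000000000) * x^2 + (-117023/1000000000000) * x^3 + (967239/1000000000000000) * x^4 + (-56531/10000000000000000) * x^5 + (4933/200000000000000000) * x^6 + (-4177/50000000000000000000) * x^7 + (113/500000000000000000000) * x^8 + (-59/100000000000000000000000) * x^9 + (-11/400000000000000000000000) * x^10 - 1 / 100000 = (1891283/689636838378906250000000) * x ^ 0 * (35 - x) ^ 10 + (30616157/1379273676757812500000000) * x ^ 1 * (35 - x) ^ 9 + (4439243687/55170947070312500000000000) * x ^ 2 * (35 - x) ^ 8 + (18965305987/110341894140625000000000000) * x ^ 3 * (35 - x) ^ 7 + (150920115417/630525109375000000000000000) * x ^ 4 * (35 - x) ^ 6 + (285986056553/1261050218750000000000000000) * x ^ 5 * (35 - x) ^ 5 + (745634629951/5044200875000000000000000000) * x ^ 6 * (35 - x) ^ 4 + (115312984946289/1765470306250000000000000000000) * x ^ 7 * (35 - x) ^ 3 +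 (65927365842047/3530940612500000000000000000000) * x ^ 8 * (35 - x) ^ 2 + (438658863711587/141237624500000000000000000000000) * x ^ 9 * (35 - x) ^ 1 + (128198106552613/564950498000000000000000000000000) * x ^ 10 * (35 - x) ^ 0 := by
    ring
  have h2 : 0 ≤ (1891283/689636838378906250000000) * x ^ 0 * (35 - x) ^ 10 + (30616157/1379273676757812500000000) * x ^ 1 * (35 - x) ^ 9 + (4439243687/55170947070312500000000000) * x ^ 2 * (35 - x) ^ 8 + (18965305987/110341894140625000000000000) * x ^ 3 * (35 - x) ^ 7 + (150920115417/630525109375000000000000000) * x ^ 4 * (35 - x) ^ 6 + (285986056553/1261050218750000000000000000) * x ^ 5 * (35 - x) ^ 5 + (745634629951/5044200875000000000000000000) * x ^ 6 * (35 - x) ^ 4 + (115312984946289/1765470306250000000000000000000) * x ^ 7 * (35 - x) ^ 3 + (65927365842047/3530940612500000000000000000000) * x ^ 8 * (35 - x) ^ 2 + (438658863711587/141237624500000000000000000000000) * x ^ 9 * (35 - x) ^ 1 + (128198106552613/564950498000000000000000000000000)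 * x ^ 10 * (35 - x) ^ 0 := by
    positivity
  linarith

theorem P_neg_j9261 (x : ℝ) (h0 : 22 ≤ x) (h1 : x ≤ 41) : 1 * x^0 + (-145562547/1000000000) * x^1 + (685418247/100000000000) * x^2 + (-4931727/31250000000) * x^3 + (107284259/50000000000000) * x^4 + (-48053993/2500000000000000) * x^5 + (6094943/50000000000000000) * x^6 + (-89959/156250000000000000) * x^7 + (1051543/500000000000000000000) * x^8 + (-30587/5000000000000000000000) * x^9 + (1813/125000000000000000000000) * x^10 + (-571/20000000000000000000000000) * x^11 + (3/62500000000000000000000000) * x^12 < 0 := by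
  have hs : 0 ≤ 41 - x := by linarith
  have hs' : 0 ≤ x - 22 := by linarith
  have key : -(1 * x^0 + (-145562547/1000000000) * x^1 + (685418247/100000000000) * x^2 + (-4931727/31250000000) * x^3 + (107284259/50000000000000) * x^4 + (-48053993/2500000000000000) * x^5 + (6094943/50000000000000000) * x^6 + (-89959/156250000000000000) * x^7 + (1051543/500000000000000000000) * x^8 + (-30587/5000000000000000000000) * x^9 + (1813/125000000000000000000000) * x^10 + (-571/20000000000000000000000000) * x^11 + (3/62500000000000000000000000) * x^12) - 1 / 1000 = (36205293597140612713417/540360087662636962890625000000000000000) * (x - 22) ^ 0 * (41 - x) ^ 12 + (877273190995712552308699/1080720175325273925781250000000000000000) * (x - 22) ^ 1 * (41 - x) ^ 11 + (9391066815602418757286217/2161440350650547851562500000000000000000) * (x - 22) ^ 2 * (41 - x) ^ 10 + (11816313255524622969330593/864576140260219140625000000000000000000) * (x - 22) ^ 3 * (41 - x) ^ 9 + (6098948202763673173817271/216144035065054785156250000000000000000)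 * (x - 22) ^ 4 * (41 - x) ^ 8 + (348371312430755127263110807/8645761402602191406250000000000000000000) * (x - 22) ^ 5 * (41 - x) ^ 7 + (704232806699659311715436449/17291522805204382812500000000000000000000) * (x - 22) ^ 6 * (41 - x) ^ 6 + (1010313121254571243475265477/34583045610408765625000000000000000000000) * (x - 22) ^ 7 * (41 - x) ^ 5 + (404480375321279567927171253/27666436488327012500000000000000000000000) * (x - 22) ^ 8 * (41 - x) ^ 4 + (270366302893800136702003483/55332872976654025000000000000000000000000) * (x - 22) ^ 9 * (41 - x) ^ 3 + (550015139516328510846960997/553328729766540250000000000000000000000000) * (x - 22) ^ 10 * (41 - x) ^ 2 + (108972720256437728958003649/1106657459533080500000000000000000000000000) * (x - 22) ^ 11 * (41 - x) ^ 1 + (1920994325959323053677331/1106657459533080500000000000000000000000000) * (x - 22) ^ 12 * (41 - x) ^ 0 := by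
    ring
  have h2 : 0 ≤ (36205293597140612713417/540360087662636962890625000000000000000) * (x - 22) ^ 0 * (41 - x) ^ 12 + (877273190995712552308699/1080720175325273925781250000000000000000) * (x - 22) ^ 1 * (41 - x) ^ 11 + (9391066815602418757286217/2161440350650547851562500000000000000000) * (x - 22) ^ 2 * (41 - x) ^ 10 + (11816313255524622969330593/864576140260219140625000000000000000000) * (x - 22) ^ 3 * (41 - x) ^ 9 + (6098948202763673173817271/216144035065054785156250000000000000000) * (x - 22) ^ 4 * (41 - x) ^ 8 + (348371312430755127263110807/8645761402602191406250000000000000000000) * (x - 22) ^ 5 * (41 - x) ^ 7 + (704232806699659311715436449/17291522805204382812500000000000000000000) * (x - 22) ^ 6 * (41 - x) ^ 6 + (1010313121254571243475265477/34583045610408765625000000000000000000000) * (x - 22) ^ 7 * (41 - x) ^ 5 + (404480375321279567927171253/27666436488327012500000000000000000000000) * (x - 22) ^ 8 * (41 - x) ^ 4 + (270366302893800136702003483/55332872976654025000000000000000000000000)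 * (x - 22) ^ 9 * (41 - x) ^ 3 + (550015139516328510846960997/553328729766540250000000000000000000000000) * (x - 22) ^ 10 * (41 - x) ^ 2 + (108972720256437728958003649/1106657459533080500000000000000000000000000) * (x - 22) ^ 11 * (41 - x) ^ 1 + (1920994325959323053677331/1106657459533080500000000000000000000000000) * (x - 22) ^ 12 * (41 - x) ^ 0 := by
    positivity
  linarith


theorem om_low_j9261 (z x : ℝ) (hx : x = z ^ 2) :
    (1893783/250000000) * x^0 + (-1029929/2500000000) * x^1 + (4613183/500000000000) * x^2 + (-117023/1000000000000) * x^3 + (967239/1000000000000000) * x^4 + (-56531/10000000000000000) * x^5 + (4933/200000000000000000) * x^6 + (-4177/50000000000000000000) * x^7 + (113/500000000000000000000) * x^8 + (-59/100000000000000000000000) * x^9 + (-11/400000000000000000000000) * x^10 ≤ chi z + Kr 1 * ((-1/15) * x^0 + (1/210) * x^1 + (-1/7560) * x^2 + (1/498960) * x^3 + (-1/51891840) * x^4 + (1/7783776000) * x^5 + (-1/1587890304000) * x^6 + (1/422378820864000)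 * x^7 + (-1/141919283810304000) * x^8 + (1/59157933040926720000) * x^9 + (-1/25852016738884976640000) * x^10) := by
  have hx0 : 0 ≤ x := by rw [hx]; positivity
  have h := (abs_le.1 (chi_taylor 9 z)).1
  simp only [Finset.sum_range_succ, Finset.sum_range_zero, Nat.factorial, pow_mul, ← hx] at h
  rw [Kr_eq_mom]
  have p0 : (0 : ℝ) ≤ x ^ 0 := by positivity
  have p1 : (0 : ℝ) ≤ x ^ 1 := by positivity
  have p2 : (0 : ℝ) ≤ x ^ 2 := by positivity
  have p3 : (0 : ℝ) ≤ x ^ 3 := by positivity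
  have p4 : (0 : ℝ) ≤ x ^ 4 := by positivity
  have p5 : (0 : ℝ) ≤ x ^ 5 := by positivity
  have p6 : (0 : ℝ) ≤ x ^ 6 := by positivity
  have p7 : (0 : ℝ) ≤ x ^ 7 := by positivity
  have p8 : (0 : ℝ) ≤ x ^ 8 := by positivity
  have p9 : (0 : ℝ) ≤ x ^ 9 := by positivity
  have p10 : (0 : ℝ) ≤ x ^ 10 := by positivity
  have p11 : (0 : ℝ) ≤ x ^ 11 := by positivity
  have p12 : (0 : ℝ) ≤ x ^ 12 := by positivity
  have p13 : (0 : ℝ) ≤ x ^ 13 := by positivity
  have a2 := mul_le_mul_of_nonneg_right mom_2.1.le p0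
  have b2 := mul_le_mul_of_nonneg_right mom_2.2.le p0
  have a3 := mul_le_mul_of_nonneg_right mom_3.1.le p1
  have b3 := mul_le_mul_of_nonneg_right mom_3.2.le p1
  have a4 := mul_le_mul_of_nonneg_right mom_4.1.le p2
  have b4 := mul_le_mul_of_nonneg_right mom_4.2.le p2
  have a5 := mul_le_mul_of_nonneg_right mom_5.1.le p3
  have b5 := mul_le_mul_of_nonneg_right mom_5.2.le p3
  have a6 := mul_le_mul_of_nonneg_right mom_6.1.le p4
  have b6 := mul_le_mul_of_nonneg_right mom_6.2.le p4
  have a7 := mul_le_mul_of_nonneg_right mom_7.1.le p5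
  have b7 := mul_le_mul_of_nonneg_right mom_7.2.le p5
  have a8 := mul_le_mul_of_nonneg_right mom_8.1.le p6
  have b8 := mul_le_mul_of_nonneg_right mom_8.2.le p6
  have a9 := mul_le_mul_of_nonneg_right mom_9.1.le p7
  have b9 := mul_le_mul_of_nonneg_right mom_9.2.le p7
  have a10 := mul_le_mul_of_nonneg_right mom_10.1.le p8
  have b10 := mul_le_mul_of_nonneg_right mom_10.2.le p8
  have b11 := mul_le_mul_of_nonneg_right mom_11.2.le p9
  have c0 := mul_le_mul_of_nonneg_right mom_1.1.le p0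
  have d0 := mul_le_mul_of_nonneg_right mom_1.2.le p0
  have c1 := mul_le_mul_of_nonneg_right mom_1.1.le p1
  have d1 := mul_le_mul_of_nonneg_right mom_1.2.le p1
  have c2 := mul_le_mul_of_nonneg_right mom_1.1.le p2
  have d2 := mul_le_mul_of_nonneg_right mom_1.2.le p2
  have c3 := mul_le_mul_of_nonneg_right mom_1.1.le p3
  have d3 := mul_le_mul_of_nonneg_right mom_1.2.le p3
  have c4 := mul_le_mul_of_nonneg_right mom_1.1.le p4
  have d4 := mul_le_mul_of_nonneg_right mom_1.2.le p4
  have c5 := mul_le_mul_of_nonneg_right mom_1.1.le p5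
  have d5 := mul_le_mul_of_nonneg_right mom_1.2.le p5
  have c6 := mul_le_mul_of_nonneg_right mom_1.1.le p6
  have d6 := mul_le_mul_of_nonneg_right mom_1.2.le p6
  have c7 := mul_le_mul_of_nonneg_right mom_1.1.le p7
  have d7 := mul_le_mul_of_nonneg_right mom_1.2.le p7
  have c8 := mul_le_mul_of_nonneg_right mom_1.1.le p8
  have d8 := mul_le_mul_of_nonneg_right mom_1.2.le p8
  have c9 := mul_le_mul_of_nonneg_right mom_1.1.le p9
  have d9 := mul_le_mul_of_nonneg_right mom_1.2.le p9
  have c10 := mul_le_mul_of_nonneg_right mom_1.1.le p10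
  have d10 := mul_le_mul_of_nonneg_right mom_1.2.le p10
  norm_num at h
  linarith


theorem phi_up_j9261 (z x : ℝ) (hx : x = z ^ 2) :
    phi 1 z ≤ 1 * x^0 + (-145562547/1000000000) * x^1 + (685418247/100000000000) * x^2 + (-4931727/31250000000) * x^3 + (107284259/50000000000000) * x^4 + (-48053993/2500000000000000) * x^5 + (6094943/50000000000000000) * x^6 + (-89959/156250000000000000) * x^7 + (1051543/500000000000000000000) * x^8 + (-30587/5000000000000000000000) * x^9 + (1813/125000000000000000000000) * x^10 + (-571/20000000000000000000000000) * x^11 + (3/62500000000000000000000000) * x^12 := by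
  have hx0 : 0 ≤ x := by rw [hx]; positivity
  have h := (abs_le.1 (phi_taylor 12 z)).2
  simp only [Finset.sum_range_succ, Finset.sum_range_zero, Nat.factorial, pow_mul, ← hx, mom_zero] at h
  have p0 : (0 : ℝ) ≤ x ^ 0 := by positivity
  have p1 : (0 : ℝ) ≤ x ^ 1 := by positivity
  have p2 : (0 : ℝ) ≤ x ^ 2 := by positivity
  have p3 : (0 : ℝ) ≤ x ^ 3 := by positivity
  have p4 : (0 : ℝ) ≤ x ^ 4 := by positivity
  have p5 : (0 : ℝ) ≤ x ^ 5 := by positivity
  have p6 : (0 : ℝ) ≤ x ^ 6 := by positivity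
  have p7 : (0 : ℝ) ≤ x ^ 7 := by positivity
  have p8 : (0 : ℝ) ≤ x ^ 8 := by positivity
  have p9 : (0 : ℝ) ≤ x ^ 9 := by positivity
  have p10 : (0 : ℝ) ≤ x ^ 10 := by positivity
  have p11 : (0 : ℝ) ≤ x ^ 11 := by positivity
  have p12 : (0 : ℝ) ≤ x ^ 12 := by positivity
  have a1 := mul_le_mul_of_nonneg_right mom_1.1.le p1
  have b1 := mul_le_mul_of_nonneg_right mom_1.2.le p1
  have a2 := mul_le_mul_of_nonneg_right mom_2.1.le p2
  have b2 := mul_le_mul_of_nonneg_right mom_2.2.le p2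
  have a3 := mul_le_mul_of_nonneg_right mom_3.1.le p3
  have b3 := mul_le_mul_of_nonneg_right mom_3.2.le p3
  have a4 := mul_le_mul_of_nonneg_right mom_4.1.le p4
  have b4 := mul_le_mul_of_nonneg_right mom_4.2.le p4
  have a5 := mul_le_mul_of_nonneg_right mom_5.1.le p5
  have b5 := mul_le_mul_of_nonneg_right mom_5.2.le p5
  have a6 := mul_le_mul_of_nonneg_right mom_6.1.le p6
  have b6 := mul_le_mul_of_nonneg_right mom_6.2.le p6
  have a7 := mul_le_mul_of_nonneg_right mom_7.1.le p7
  have b7 := mul_le_mul_of_nonneg_right mom_7.2.le p7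
  have a8 := mul_le_mul_of_nonneg_right mom_8.1.le p8
  have b8 := mul_le_mul_of_nonneg_right mom_8.2.le p8
  have a9 := mul_le_mul_of_nonneg_right mom_9.1.le p9
  have b9 := mul_le_mul_of_nonneg_right mom_9.2.le p9
  have a10 := mul_le_mul_of_nonneg_right mom_10.1.le p10
  have b10 := mul_le_mul_of_nonneg_right mom_10.2.le p10
  have a11 := mul_le_mul_of_nonneg_right mom_11.1.le p11
  have b11 := mul_le_mul_of_nonneg_right mom_11.2.le p11
  have a12 := mul_le_mul_of_nonneg_right mom_12.1.le p12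
  have b12 := mul_le_mul_of_nonneg_right mom_12.2.le p12
  norm_num at h
  linarith


theorem chi_59_j9261 : 0 < chi 5.9 := by
  have h := (abs_le.1 (chi_taylor 12 5.9)).1
  simp only [Finset.sum_range_succ, Finset.sum_range_zero, Nat.factorial] at h
  norm_num at h ⊢
  linarith [mom_2.1, mom_2.2, mom_3.1, mom_3.2, mom_4.1, mom_4.2, mom_5.1, mom_5.2, mom_6.1, mom_6.2, mom_7.1, mom_7.2, mom_8.1, mom_8.2, mom_9.1, mom_9.2, mom_10.1, mom_10.2, mom_11.1, mom_11.2, mom_12.1, mom_12.2, mom_13.1, mom_13.2, mom_14.1, mom_14.2]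

theorem psi_47_j9261 : 0 < psi 1 4.7 := by
  have h := (abs_le.1 (psi_taylor 12 4.7)).1
  simp only [Finset.sum_range_succ, Finset.sum_range_zero, Nat.factorial] at h
  norm_num at h ⊢
  linarith [mom_1.1, mom_1.2, mom_2.1, mom_2.2, mom_3.1, mom_3.2, mom_4.1, mom_4.2, mom_5.1, mom_5.2, mom_6.1, mom_6.2, mom_7.1, mom_7.2, mom_8.1, mom_8.2, mom_9.1, mom_9.2, mom_10.1, mom_10.2, mom_11.1, mom_11.2, mom_12.1, mom_12.2, mom_13.1, mom_13.2]

theorem phi_a_j9261 : 0 < phi 1 3.4947 := by
  have h := (abs_le.1 (phi_taylor 11 3.4947)).1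
  simp only [Finset.sum_range_succ, Finset.sum_range_zero, Nat.factorial, mom_zero] at h
  norm_num at h ⊢
  linarith [mom_1.1, mom_1.2, mom_2.1, mom_2.2, mom_3.1, mom_3.2, mom_4.1, mom_4.2, mom_5.1, mom_5.2, mom_6.1, mom_6.2, mom_7.1, mom_7.2, mom_8.1, mom_8.2, mom_9.1, mom_9.2, mom_10.1, mom_10.2, mom_11.1, mom_11.2]

theorem phi_b_j9261 : phi 1 3.4948 < 0 := by
  have h := (abs_le.1 (phi_taylor 11 3.4948)).2
  simp only [Finset.sum_range_succ, Finset.sum_range_zero, Nat.factorial, mom_zero] at h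
  norm_num at h ⊢
  linarith [mom_1.1, mom_1.2, mom_2.1, mom_2.2, mom_3.1, mom_3.2, mom_4.1, mom_4.2, mom_5.1, mom_5.2, mom_6.1, mom_6.2, mom_7.1, mom_7.2, mom_8.1, mom_8.2, mom_9.1, mom_9.2, mom_10.1, mom_10.2, mom_11.1, mom_11.2]

theorem Kr_pos1_j9261 : 0 < Kr 1 := by
  rw [Kr_eq_mom]
  linarith [mom_1.2]

theorem chi_hasDeriv_j9261 (z : ℝ) (hz : 0 < z) :
    HasDerivAt chi (-(z * chi z) - Kr 1 * ((z ^ 2 * Real.sin z - 3 * Real.sin z + 3 * z * Real.cos z) / z ^ 4)) z := by
  have h1 : HasDerivAt (fun w : ℝ => (Real.sin w - w * Real.cos w) / w ^ 3)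
      (((Real.cos z - (1 * Real.cos z + z * (-Real.sin z))) * z ^ 3 -
        (Real.sin z - z * Real.cos z) * (((3 : ℕ) : ℝ) * z ^ (3 - 1))) / (z ^ 3) ^ 2) z := by
    refine HasDerivAt.div ?_ (hasDerivAt_pow 3 z) (by positivity)
    exact (Real.hasDerivAt_sin z).sub ((hasDerivAt_id z).mul (Real.hasDerivAt_cos z))
  have hz' : z ≠ 0 := hz.ne'
  have e : ((Real.cos z - (1 * Real.cos z + z * (-Real.sin z))) * z ^ 3 -
        (Real.sin z - z * Real.cos z) * (((3 : ℕ) : ℝ) * z ^ (3 - 1))) / (z ^ 3) ^ 2 =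
      (z ^ 2 * Real.sin z - 3 * Real.sin z + 3 * z * Real.cos z) / z ^ 4 := by
    norm_num
    field_simp
    ring
  rw [e] at h1
  have h2 := (psi_deriv z).sub (h1.const_mul (Kr 1))
  have h3 : chi =ᶠ[nhds z] fun w => psi 1 w - Kr 1 * ((Real.sin w - w * Real.cos w) / w ^ 3) := by
    filter_upwards [lt_mem_nhds hz] with w hw
    unfold chi
    rw [if_neg (ne_of_gt hw)]
  exact HasDerivAt.congr_of_eventuallyEq h2 h3

theorem chi_antitone59_j9261 : AntitoneOn chi (Set.Icc 0 5.9) := by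
  refine antitoneOn_of_deriv_nonpos (convex_Icc _ _) chi_continuous.continuousOn ?_ ?_
  · intro w hw
    rw [interior_Icc] at hw
    exact (chi_hasDeriv_j9261 w hw.1).differentiableAt.differentiableWithinAt
  · intro w hw
    rw [interior_Icc] at hw
    have hw0 : 0 < w := hw.1
    rw [(chi_hasDeriv_j9261 w hw0).deriv]
    have hx1 : w ^ 2 ≤ 35 := by nlinarith [hw.2]
    have h1 := Q_pos_j9261 (w ^ 2) (sq_nonneg w) hx1
    have h2 := om_low_j9261 w (w ^ 2) rfl
    have h3 := S_low_j9261 w hw0.le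
    set T : ℝ := (-1/15) * (w ^ 2)^0 + (1/210) * (w ^ 2)^1 + (-1/7560) * (w ^ 2)^2 + (1/498960) * (w ^ 2)^3 + (-1/51891840) * (w ^ 2)^4 + (1/7783776000) * (w ^ 2)^5 + (-1/1587890304000) * (w ^ 2)^6 + (1/422378820864000) * (w ^ 2)^7 + (-1/141919283810304000) * (w ^ 2)^8 + (1/59157933040926720000) * (w ^ 2)^9 + (-1/25852016738884976640000) * (w ^ 2)^10 with hT
    set S : ℝ := w ^ 2 * Real.sin w - 3 * Real.sin w + 3 * w * Real.cos w with hS
    have h4 : 0 < chi w + Kr 1 * T := lt_of_lt_of_le h1 h2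
    have h5 : w * T ≤ S / w ^ 4 := by
      rw [le_div_iff₀ (by positivity)]
      calc w * T * w ^ 4 = w ^ 5 * T := by ring
        _ ≤ S := h3
    have h6 : Kr 1 * (w * T) ≤ Kr 1 * (S / w ^ 4) := mul_le_mul_of_nonneg_left h5 Kr_pos1_j9261.le
    nlinarith [mul_pos hw0 h4]

theorem chi_pos (z : ℝ) (h0 : 0 ≤ z) (h1 : z ≤ 5.9) : 0 < chi z :=
  lt_of_lt_of_le chi_59_j9261 (chi_antitone59_j9261 ⟨h0, h1⟩ ⟨by norm_num, le_rfl⟩ h1)
theorem psi_antitone : AntitoneOn (psi 1) (Set.Icc 0 5.9) := by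
  refine antitoneOn_of_deriv_nonpos (convex_Icc _ _)
    (fun w _ => (psi_deriv w).continuousAt.continuousWithinAt)
    (fun w _ => (psi_deriv w).differentiableAt.differentiableWithinAt) (fun w hw => ?_)
  rw [interior_Icc] at hw
  rw [(psi_deriv w).deriv]
  have := mul_pos hw.1 (chi_pos w hw.1.le hw.2.le)
  linarith
theorem psi_pos (z : ℝ) (h0 : 0 ≤ z) (h1 : z ≤ 4.7) : 0 < psi 1 z :=
  lt_of_lt_of_le psi_47_j9261 (psi_antitone ⟨h0, h1.trans (by norm_num)⟩ ⟨by norm_num, by norm_num⟩ h1)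
theorem phi_strictAnti_j9261 : StrictAntiOn (phi 1) (Set.Icc 0 4.7) := by
  refine strictAntiOn_of_deriv_neg (convex_Icc _ _)
    (fun w _ => (phi_deriv w).continuousAt.continuousWithinAt) (fun w hw => ?_)
  rw [interior_Icc] at hw
  rw [(phi_deriv w).deriv]
  have := mul_pos hw.1 (psi_pos w hw.1.le hw.2.le)
  linarith
theorem phi_antitone : AntitoneOn (phi 1) (Set.Icc 0 4.7) := phi_strictAnti_j9261.antitoneOn
theorem chi_antitone : AntitoneOn chi (Set.Icc 0 5) :=
  chi_antitone59_j9261.mono (Set.Icc_subset_Icc le_rfl (by norm_num))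

theorem z0_spec_j9261 : ∃ c : ℝ, (3.4947 < c ∧ c < 3.4948) ∧ phi 1 c = 0 ∧ z0 = c := by
  have hcont : ContinuousOn (phi 1) (Set.Icc 3.4947 3.4948) :=
    fun w _ => (phi_deriv w).continuousAt.continuousWithinAt
  obtain ⟨c, hc, hc0⟩ := intermediate_value_Icc' (by norm_num : (3.4947 : ℝ) ≤ 3.4948) hcont
    ⟨phi_b_j9261.le, phi_a_j9261.le⟩
  have h1 : 3.4947 < c := by
    refine lt_of_le_of_ne hc.1 ?_
    rintro rfl
    exact absurd hc0 phi_a_j9261.ne'
  have h2 : c < 3.4948 := by
    refine lt_of_le_of_ne hc.2 ?_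
    rintro rfl
    exact absurd hc0 phi_b_j9261.ne
  refine ⟨c, ⟨h1, h2⟩, hc0, ?_⟩
  have hle : IsLeast {z : ℝ | 0 < z ∧ phi 1 z ≤ 0} c := by
    refine ⟨⟨by linarith, hc0.le⟩, ?_⟩
    rintro z ⟨hz1, hz2⟩
    by_contra hcon
    push Not at hcon
    have := phi_strictAnti_j9261 (a := z) (b := c) ⟨hz1.le, by linarith⟩ ⟨by linarith, by linarith⟩ hcon
    rw [hc0] at this
    linarith
  exact hle.csInf_eq

theorem z0_bounds : 3.4947 < z0 ∧ z0 < 3.4948 := by
  obtain ⟨c, h1, _, h3⟩ := z0_spec_j9261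
  rw [h3]; exact h1
theorem phi_z0 : phi 1 z0 = 0 := by
  obtain ⟨c, _, h2, h3⟩ := z0_spec_j9261
  rw [h3]; exact h2
theorem phi_pos (z : ℝ) (h0 : 0 ≤ z) (h1 : z < z0) : 0 < phi 1 z := by
  have hb := z0_bounds
  have := phi_strictAnti_j9261 (a := z) (b := z0) ⟨h0, by linarith⟩ ⟨by linarith, by linarith⟩ h1
  rwa [phi_z0] at this
theorem phi_nonpos (z : ℝ) (h0 : z0 ≤ z) (h1 : z ≤ 6.4) : phi 1 z ≤ 0 := by
  have hb := z0_bounds
  rcases le_total z 4.7 with h | h
  · have := phi_antitone (a := z0) (b := z) ⟨by linarith, by linarith⟩ ⟨by linarith, h⟩ h0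
    rwa [phi_z0] at this
  · have h2 := phi_up_j9261 z (z ^ 2) rfl
    have h3 := P_neg_j9261 (z ^ 2) (by nlinarith) (by nlinarith)
    linarith



end Pool.Agent.Helper82.GC
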