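import Pool.Agent.Helper82.GC.J8960
import Pool.Agent.Helper82.GC.J8961

set_option autoImplicit false

open MeasureTheory Set

namespace Pool.Agent.Helper82.GC


theorem phi_tab_1 : 0.990928 < phi 1 0.25 ∧ phi 1 0.25 < 0.990930 := by
  have h := phi_taylor 8 0.25
  rw [abs_le] at h
  obtain ⟨h1, h2⟩ := h
  simp only [Finset.sum_range_succ, Finset.sum_range_zero, mom_zero] at h1 h2
  norm_num [Nat.factorial] at h1 h2
  constructor
  · linarith [mom_1.1, mom_1.2, mom_2.1, mom_2.2, mom_3.1, mom_3.2, mom_4.1, mom_4.2, mom_5.1, mom_5.2, mom_6.1, mom_6.2, mom_7.1, mom_7.2, mom_8.1, mom_8.2]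
  · linarith [mom_1.1, mom_1.2, mom_2.1, mom_2.2, mom_3.1, mom_3.2, mom_4.1, mom_4.2, mom_5.1, mom_5.2, mom_6.1, mom_6.2, mom_7.1, mom_7.2, mom_8.1, mom_8.2]

theorem phi_tab_2 : 0.964034 < phi 1 0.5 ∧ phi 1 0.5 < 0.964036 := by
  have h := phi_taylor 8 0.5
  rw [abs_le] at h
  obtain ⟨h1, h2⟩ := h
  simp only [Finset.sum_range_succ, Finset.sum_range_zero, mom_zero] at h1 h2
  norm_num [Nat.factorial] at h1 h2
  constructor
  · linarith [mom_1.1, mom_1.2, mom_2.1, mom_2.2, mom_3.1, mom_3.2, mom_4.1, mom_4.2, mom_5.1, mom_5.2, mom_6.1, mom_6.2, mom_7.1, mom_7.2, mom_8.1, mom_8.2]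
  · linarith [mom_1.1, mom_1.2, mom_2.1, mom_2.2, mom_3.1, mom_3.2, mom_4.1, mom_4.2, mom_5.1, mom_5.2, mom_6.1, mom_6.2, mom_7.1, mom_7.2, mom_8.1, mom_8.2]

theorem phi_tab_3 : 0.920261 < phi 1 0.75 ∧ phi 1 0.75 < 0.920263 := by
  have h := phi_taylor 8 0.75
  rw [abs_le] at h
  obtain ⟨h1, h2⟩ := h
  simp only [Finset.sum_range_succ, Finset.sum_range_zero, mom_zero] at h1 h2
  norm_num [Nat.factorial] at h1 h2
  constructor
  · linarith [mom_1.1, mom_1.2, mom_2.1, mom_2.2, mom_3.1, mom_3.2, mom_4.1, mom_4.2, mom_5.1, mom_5.2, mom_6.1, mom_6.2, mom_7.1, mom_7.2, mom_8.1, mom_8.2]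
  · linarith [mom_1.1, mom_1.2, mom_2.1, mom_2.2, mom_3.1, mom_3.2, mom_4.1, mom_4.2, mom_5.1, mom_5.2, mom_6.1, mom_6.2, mom_7.1, mom_7.2, mom_8.1, mom_8.2]

theorem phi_tab_4 : 0.861135 < phi 1 1 ∧ phi 1 1 < 0.861137 := by
  have h := phi_taylor 8 1
  rw [abs_le] at h
  obtain ⟨h1, h2⟩ := h
  simp only [Finset.sum_range_succ, Finset.sum_range_zero, mom_zero] at h1 h2
  norm_num [Nat.factorial] at h1 h2
  constructor
  · linarith [mom_1.1, mom_1.2, mom_2.1, mom_2.2, mom_3.1, mom_3.2, mom_4.1, mom_4.2, mom_5.1, mom_5.2, mom_6.1, mom_6.2, mom_7.1, mom_7.2, mom_8.1, mom_8.2]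
  · linarith [mom_1.1, mom_1.2, mom_2.1, mom_2.2, mom_3.1, mom_3.2, mom_4.1, mom_4.2, mom_5.1, mom_5.2, mom_6.1, mom_6.2, mom_7.1, mom_7.2, mom_8.1, mom_8.2]

theorem phi_tab_5 : 0.788702 < phi 1 1.25 ∧ phi 1 1.25 < 0.788704 := by
  have h := phi_taylor 10 1.25
  rw [abs_le] at h
  obtain ⟨h1, h2⟩ := h
  simp only [Finset.sum_range_succ, Finset.sum_range_zero, mom_zero] at h1 h2
  norm_num [Nat.factorial] at h1 h2
  constructor
  · linarith [mom_1.1, mom_1.2, mom_2.1, mom_2.2, mom_3.1, mom_3.2, mom_4.1, mom_4.2, mom_5.1, mom_5.2, mom_6.1, mom_6.2, mom_7.1, mom_7.2, mom_8.1, mom_8.2, mom_9.1, mom_9.2, mom_10.1, mom_10.2]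
  · linarith [mom_1.1, mom_1.2, mom_2.1, mom_2.2, mom_3.1, mom_3.2, mom_4.1, mom_4.2, mom_5.1, mom_5.2, mom_6.1, mom_6.2, mom_7.1, mom_7.2, mom_8.1, mom_8.2, mom_9.1, mom_9.2, mom_10.1, mom_10.2]

theorem phi_tab_6 : 0.705439 < phi 1 1.5 ∧ phi 1 1.5 < 0.705441 := by
  have h := phi_taylor 10 1.5
  rw [abs_le] at h
  obtain ⟨h1, h2⟩ := h
  simp only [Finset.sum_range_succ, Finset.sum_range_zero, mom_zero] at h1 h2
  norm_num [Nat.factorial] at h1 h2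
  constructor
  · linarith [mom_1.1, mom_1.2, mom_2.1, mom_2.2, mom_3.1, mom_3.2, mom_4.1, mom_4.2, mom_5.1, mom_5.2, mom_6.1, mom_6.2, mom_7.1, mom_7.2, mom_8.1, mom_8.2, mom_9.1, mom_9.2, mom_10.1, mom_10.2]
  · linarith [mom_1.1, mom_1.2, mom_2.1, mom_2.2, mom_3.1, mom_3.2, mom_4.1, mom_4.2, mom_5.1, mom_5.2, mom_6.1, mom_6.2, mom_7.1, mom_7.2, mom_8.1, mom_8.2, mom_9.1, mom_9.2, mom_10.1, mom_10.2]

theorem phi_tab_7 : 0.614149 < phi 1 1.75 ∧ phi 1 1.75 < 0.614151 := by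
  have h := phi_taylor 10 1.75
  rw [abs_le] at h
  obtain ⟨h1, h2⟩ := h
  simp only [Finset.sum_range_succ, Finset.sum_range_zero, mom_zero] at h1 h2
  norm_num [Nat.factorial] at h1 h2
  constructor
  · linarith [mom_1.1, mom_1.2, mom_2.1, mom_2.2, mom_3.1, mom_3.2, mom_4.1, mom_4.2, mom_5.1, mom_5.2, mom_6.1, mom_6.2, mom_7.1, mom_7.2, mom_8.1, mom_8.2, mom_9.1, mom_9.2, mom_10.1, mom_10.2]
  · linarith [mom_1.1, mom_1.2, mom_2.1, mom_2.2, mom_3.1, mom_3.2, mom_4.1, mom_4.2, mom_5.1, mom_5.2, mom_6.1, mom_6.2, mom_7.1, mom_7.2, mom_8.1, mom_8.2, mom_9.1, mom_9.2, mom_10.1, mom_10.2]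

theorem phi_tab_8 : 0.517846 < phi 1 2 ∧ phi 1 2 < 0.517847 := by
  have h := phi_taylor 10 2
  rw [abs_le] at h
  obtain ⟨h1, h2⟩ := h
  simp only [Finset.sum_range_succ, Finset.sum_range_zero, mom_zero] at h1 h2
  norm_num [Nat.factorial] at h1 h2
  constructor
  · linarith [mom_1.1, mom_1.2, mom_2.1, mom_2.2, mom_3.1, mom_3.2, mom_4.1, mom_4.2, mom_5.1, mom_5.2, mom_6.1, mom_6.2, mom_7.1, mom_7.2, mom_8.1, mom_8.2, mom_9.1, mom_9.2, mom_10.1, mom_10.2]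
  · linarith [mom_1.1, mom_1.2, mom_2.1, mom_2.2, mom_3.1, mom_3.2, mom_4.1, mom_4.2, mom_5.1, mom_5.2, mom_6.1, mom_6.2, mom_7.1, mom_7.2, mom_8.1, mom_8.2, mom_9.1, mom_9.2, mom_10.1, mom_10.2]

theorem phi_tab_9 : 0.419626 < phi 1 2.25 ∧ phi 1 2.25 < 0.419627 := by
  have h := phi_taylor 13 2.25
  rw [abs_le] at h
  obtain ⟨h1, h2⟩ := h
  simp only [Finset.sum_range_succ, Finset.sum_range_zero, mom_zero] at h1 h2
  norm_num [Nat.factorial] at h1 h2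
  constructor
  · linarith [mom_1.1, mom_1.2, mom_2.1, mom_2.2, mom_3.1, mom_3.2, mom_4.1, mom_4.2, mom_5.1, mom_5.2, mom_6.1, mom_6.2, mom_7.1, mom_7.2, mom_8.1, mom_8.2, mom_9.1, mom_9.2, mom_10.1, mom_10.2, mom_11.1, mom_11.2, mom_12.1, mom_12.2, mom_13.1, mom_13.2]
  · linarith [mom_1.1, mom_1.2, mom_2.1, mom_2.2, mom_3.1, mom_3.2, mom_4.1, mom_4.2, mom_5.1, mom_5.2, mom_6.1, mom_6.2, mom_7.1, mom_7.2, mom_8.1, mom_8.2, mom_9.1, mom_9.2, mom_10.1, mom_10.2, mom_11.1, mom_11.2, mom_12.1, mom_12.2, mom_13.1, mom_13.2]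

theorem phi_tab_10 : 0.322543 < phi 1 2.5 ∧ phi 1 2.5 < 0.322545 := by
  have h := phi_taylor 13 2.5
  rw [abs_le] at h
  obtain ⟨h1, h2⟩ := h
  simp only [Finset.sum_range_succ, Finset.sum_range_zero, mom_zero] at h1 h2
  norm_num [Nat.factorial] at h1 h2
  constructor
  · linarith [mom_1.1, mom_1.2, mom_2.1, mom_2.2, mom_3.1, mom_3.2, mom_4.1, mom_4.2, mom_5.1, mom_5.2, mom_6.1, mom_6.2, mom_7.1, mom_7.2, mom_8.1, mom_8.2, mom_9.1, mom_9.2, mom_10.1, mom_10.2, mom_11.1, mom_11.2, mom_12.1, mom_12.2, mom_13.1, mom_13.2]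
  · linarith [mom_1.1, mom_1.2, mom_2.1, mom_2.2, mom_3.1, mom_3.2, mom_4.1, mom_4.2, mom_5.1, mom_5.2, mom_6.1, mom_6.2, mom_7.1, mom_7.2, mom_8.1, mom_8.2, mom_9.1, mom_9.2, mom_10.1, mom_10.2, mom_11.1, mom_11.2, mom_12.1, mom_12.2, mom_13.1, mom_13.2]

theorem phi_tab_11 : 0.229491 < phi 1 2.75 ∧ phi 1 2.75 < 0.229492 := by
  have h := phi_taylor 13 2.75
  rw [abs_le] at h
  obtain ⟨h1, h2⟩ := h
  simp only [Finset.sum_range_succ, Finset.sum_range_zero, mom_zero] at h1 h2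
  norm_num [Nat.factorial] at h1 h2
  constructor
  · linarith [mom_1.1, mom_1.2, mom_2.1, mom_2.2, mom_3.1, mom_3.2, mom_4.1, mom_4.2, mom_5.1, mom_5.2, mom_6.1, mom_6.2, mom_7.1, mom_7.2, mom_8.1, mom_8.2, mom_9.1, mom_9.2, mom_10.1, mom_10.2, mom_11.1, mom_11.2, mom_12.1, mom_12.2, mom_13.1, mom_13.2]
  · linarith [mom_1.1, mom_1.2, mom_2.1, mom_2.2, mom_3.1, mom_3.2, mom_4.1, mom_4.2, mom_5.1, mom_5.2, mom_6.1, mom_6.2, mom_7.1, mom_7.2, mom_8.1, mom_8.2, mom_9.1, mom_9.2, mom_10.1, mom_10.2, mom_11.1, mom_11.2, mom_12.1, mom_12.2, mom_13.1, mom_13.2]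

theorem phi_tab_12 : 0.143083 < phi 1 3 ∧ phi 1 3 < 0.143084 := by
  have h := phi_taylor 13 3
  rw [abs_le] at h
  obtain ⟨h1, h2⟩ := h
  simp only [Finset.sum_range_succ, Finset.sum_range_zero, mom_zero] at h1 h2
  norm_num [Nat.factorial] at h1 h2
  constructor
  · linarith [mom_1.1, mom_1.2, mom_2.1, mom_2.2, mom_3.1, mom_3.2, mom_4.1, mom_4.2, mom_5.1, mom_5.2, mom_6.1, mom_6.2, mom_7.1, mom_7.2, mom_8.1, mom_8.2, mom_9.1, mom_9.2, mom_10.1, mom_10.2, mom_11.1, mom_11.2, mom_12.1, mom_12.2, mom_13.1, mom_13.2]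
  · linarith [mom_1.1, mom_1.2, mom_2.1, mom_2.2, mom_3.1, mom_3.2, mom_4.1, mom_4.2, mom_5.1, mom_5.2, mom_6.1, mom_6.2, mom_7.1, mom_7.2, mom_8.1, mom_8.2, mom_9.1, mom_9.2, mom_10.1, mom_10.2, mom_11.1, mom_11.2, mom_12.1, mom_12.2, mom_13.1, mom_13.2]

theorem phi_tab_13 : 0.065560 < phi 1 3.25 ∧ phi 1 3.25 < 0.065562 := by
  have h := phi_taylor 13 3.25
  rw [abs_le] at h
  obtain ⟨h1, h2⟩ := h
  simp only [Finset.sum_range_succ, Finset.sum_range_zero, mom_zero] at h1 h2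
  norm_num [Nat.factorial] at h1 h2
  constructor
  · linarith [mom_1.1, mom_1.2, mom_2.1, mom_2.2, mom_3.1, mom_3.2, mom_4.1, mom_4.2, mom_5.1, mom_5.2, mom_6.1, mom_6.2, mom_7.1, mom_7.2, mom_8.1, mom_8.2, mom_9.1, mom_9.2, mom_10.1, mom_10.2, mom_11.1, mom_11.2, mom_12.1, mom_12.2, mom_13.1, mom_13.2]
  · linarith [mom_1.1, mom_1.2, mom_2.1, mom_2.2, mom_3.1, mom_3.2, mom_4.1, mom_4.2, mom_5.1, mom_5.2, mom_6.1, mom_6.2, mom_7.1, mom_7.2, mom_8.1, mom_8.2, mom_9.1, mom_9.2, mom_10.1, mom_10.2, mom_11.1, mom_11.2, mom_12.1, mom_12.2, mom_13.1, mom_13.2]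

theorem phi_tab_14 : (-0.001288) < phi 1 3.5 ∧ phi 1 3.5 < -0.001286 := by
  have h := phi_taylor 13 3.5
  rw [abs_le] at h
  obtain ⟨h1, h2⟩ := h
  simp only [Finset.sum_range_succ, Finset.sum_range_zero, mom_zero] at h1 h2
  norm_num [Nat.factorial] at h1 h2
  constructor
  · linarith [mom_1.1, mom_1.2, mom_2.1, mom_2.2, mom_3.1, mom_3.2, mom_4.1, mom_4.2, mom_5.1, mom_5.2, mom_6.1, mom_6.2, mom_7.1, mom_7.2, mom_8.1, mom_8.2, mom_9.1, mom_9.2, mom_10.1, mom_10.2, mom_11.1, mom_11.2, mom_12.1, mom_12.2, mom_13.1, mom_13.2]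
  · linarith [mom_1.1, mom_1.2, mom_2.1, mom_2.2, mom_3.1, mom_3.2, mom_4.1, mom_4.2, mom_5.1, mom_5.2, mom_6.1, mom_6.2, mom_7.1, mom_7.2, mom_8.1, mom_8.2, mom_9.1, mom_9.2, mom_10.1, mom_10.2, mom_11.1, mom_11.2, mom_12.1, mom_12.2, mom_13.1, mom_13.2]

theorem phi_tab_15 : (-0.056181) < phi 1 3.75 ∧ phi 1 3.75 < -0.056179 := by
  have h := phi_taylor 14 3.75
  rw [abs_le] at h
  obtain ⟨h1, h2⟩ := h
  simp only [Finset.sum_range_succ, Finset.sum_range_zero, mom_zero] at h1 h2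
  norm_num [Nat.factorial] at h1 h2
  constructor
  · linarith [mom_1.1, mom_1.2, mom_2.1, mom_2.2, mom_3.1, mom_3.2, mom_4.1, mom_4.2, mom_5.1, mom_5.2, mom_6.1, mom_6.2, mom_7.1, mom_7.2, mom_8.1, mom_8.2, mom_9.1, mom_9.2, mom_10.1, mom_10.2, mom_11.1, mom_11.2, mom_12.1, mom_12.2, mom_13.1, mom_13.2, mom_14.1, mom_14.2]
  · linarith [mom_1.1, mom_1.2, mom_2.1, mom_2.2, mom_3.1, mom_3.2, mom_4.1, mom_4.2, mom_5.1, mom_5.2, mom_6.1, mom_6.2, mom_7.1, mom_7.2, mom_8.1, mom_8.2, mom_9.1, mom_9.2, mom_10.1, mom_10.2, mom_11.1, mom_11.2, mom_12.1, mom_12.2, mom_13.1, mom_13.2, mom_14.1, mom_14.2]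

theorem phi_tab_16 : (-0.098379) < phi 1 4 ∧ phi 1 4 < -0.098377 := by
  have h := phi_taylor 14 4
  rw [abs_le] at h
  obtain ⟨h1, h2⟩ := h
  simp only [Finset.sum_range_succ, Finset.sum_range_zero, mom_zero] at h1 h2
  norm_num [Nat.factorial] at h1 h2
  constructor
  · linarith [mom_1.1, mom_1.2, mom_2.1, mom_2.2, mom_3.1, mom_3.2, mom_4.1, mom_4.2, mom_5.1, mom_5.2, mom_6.1, mom_6.2, mom_7.1, mom_7.2, mom_8.1, mom_8.2, mom_9.1, mom_9.2, mom_10.1, mom_10.2, mom_11.1, mom_11.2, mom_12.1, mom_12.2, mom_13.1, mom_13.2, mom_14.1, mom_14.2]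
  · linarith [mom_1.1, mom_1.2, mom_2.1, mom_2.2, mom_3.1, mom_3.2, mom_4.1, mom_4.2, mom_5.1, mom_5.2, mom_6.1, mom_6.2, mom_7.1, mom_7.2, mom_8.1, mom_8.2, mom_9.1, mom_9.2, mom_10.1, mom_10.2, mom_11.1, mom_11.2, mom_12.1, mom_12.2, mom_13.1, mom_13.2, mom_14.1, mom_14.2]

theorem phi_tab_17 : (-0.127690) < phi 1 4.25 ∧ phi 1 4.25 < -0.127689 := by
  have h := phi_taylor 14 4.25
  rw [abs_le] at h
  obtain ⟨h1, h2⟩ := h
  simp only [Finset.sum_range_succ, Finset.sum_range_zero, mom_zero] at h1 h2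
  norm_num [Nat.factorial] at h1 h2
  constructor
  · linarith [mom_1.1, mom_1.2, mom_2.1, mom_2.2, mom_3.1, mom_3.2, mom_4.1, mom_4.2, mom_5.1, mom_5.2, mom_6.1, mom_6.2, mom_7.1, mom_7.2, mom_8.1, mom_8.2, mom_9.1, mom_9.2, mom_10.1, mom_10.2, mom_11.1, mom_11.2, mom_12.1, mom_12.2, mom_13.1, mom_13.2, mom_14.1, mom_14.2]
  · linarith [mom_1.1, mom_1.2, mom_2.1, mom_2.2, mom_3.1, mom_3.2, mom_4.1, mom_4.2, mom_5.1, mom_5.2, mom_6.1, mom_6.2, mom_7.1, mom_7.2, mom_8.1, mom_8.2, mom_9.1, mom_9.2, mom_10.1, mom_10.2, mom_11.1, mom_11.2, mom_12.1, mom_12.2, mom_13.1, mom_13.2, mom_14.1, mom_14.2]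

theorem phi_tab_18 : (-0.144454) < phi 1 4.5 ∧ phi 1 4.5 < -0.144452 := by
  have h := phi_taylor 14 4.5
  rw [abs_le] at h
  obtain ⟨h1, h2⟩ := h
  simp only [Finset.sum_range_succ, Finset.sum_range_zero, mom_zero] at h1 h2
  norm_num [Nat.factorial] at h1 h2
  constructor
  · linarith [mom_1.1, mom_1.2, mom_2.1, mom_2.2, mom_3.1, mom_3.2, mom_4.1, mom_4.2, mom_5.1, mom_5.2, mom_6.1, mom_6.2, mom_7.1, mom_7.2, mom_8.1, mom_8.2, mom_9.1, mom_9.2, mom_10.1, mom_10.2, mom_11.1, mom_11.2, mom_12.1, mom_12.2, mom_13.1, mom_13.2, mom_14.1, mom_14.2]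
  · linarith [mom_1.1, mom_1.2, mom_2.1, mom_2.2, mom_3.1, mom_3.2, mom_4.1, mom_4.2, mom_5.1, mom_5.2, mom_6.1, mom_6.2, mom_7.1, mom_7.2, mom_8.1, mom_8.2, mom_9.1, mom_9.2, mom_10.1, mom_10.2, mom_11.1, mom_11.2, mom_12.1, mom_12.2, mom_13.1, mom_13.2, mom_14.1, mom_14.2]

theorem phi_tab_19 : (-0.149496) < phi 1 4.75 ∧ phi 1 4.75 < -0.149494 := by
  have h := phi_taylor 14 4.75
  rw [abs_le] at h
  obtain ⟨h1, h2⟩ := h
  simp only [Finset.sum_range_succ, Finset.sum_range_zero, mom_zero] at h1 h2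
  norm_num [Nat.factorial] at h1 h2
  constructor
  · linarith [mom_1.1, mom_1.2, mom_2.1, mom_2.2, mom_3.1, mom_3.2, mom_4.1, mom_4.2, mom_5.1, mom_5.2, mom_6.1, mom_6.2, mom_7.1, mom_7.2, mom_8.1, mom_8.2, mom_9.1, mom_9.2, mom_10.1, mom_10.2, mom_11.1, mom_11.2, mom_12.1, mom_12.2, mom_13.1, mom_13.2, mom_14.1, mom_14.2]
  · linarith [mom_1.1, mom_1.2, mom_2.1, mom_2.2, mom_3.1, mom_3.2, mom_4.1, mom_4.2, mom_5.1, mom_5.2, mom_6.1, mom_6.2, mom_7.1, mom_7.2, mom_8.1, mom_8.2, mom_9.1, mom_9.2, mom_10.1, mom_10.2, mom_11.1, mom_11.2, mom_12.1, mom_12.2, mom_13.1, mom_13.2, mom_14.1, mom_14.2]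

theorem phi_tab_20 : (-0.144071) < phi 1 5 ∧ phi 1 5 < -0.144070 := by
  have h := phi_taylor 14 5
  rw [abs_le] at h
  obtain ⟨h1, h2⟩ := h
  simp only [Finset.sum_range_succ, Finset.sum_range_zero, mom_zero] at h1 h2
  norm_num [Nat.factorial] at h1 h2
  constructor
  · linarith [mom_1.1, mom_1.2, mom_2.1, mom_2.2, mom_3.1, mom_3.2, mom_4.1, mom_4.2, mom_5.1, mom_5.2, mom_6.1, mom_6.2, mom_7.1, mom_7.2, mom_8.1, mom_8.2, mom_9.1, mom_9.2, mom_10.1, mom_10.2, mom_11.1, mom_11.2, mom_12.1, mom_12.2, mom_13.1, mom_13.2, mom_14.1, mom_14.2]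
  · linarith [mom_1.1, mom_1.2, mom_2.1, mom_2.2, mom_3.1, mom_3.2, mom_4.1, mom_4.2, mom_5.1, mom_5.2, mom_6.1, mom_6.2, mom_7.1, mom_7.2, mom_8.1, mom_8.2, mom_9.1, mom_9.2, mom_10.1, mom_10.2, mom_11.1, mom_11.2, mom_12.1, mom_12.2, mom_13.1, mom_13.2, mom_14.1, mom_14.2]




end Pool.Agent.Helper82.GC
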