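import Pool.Agent.Helper82.GC.J8960
import Pool.Agent.Helper82.GC.J8962

set_option autoImplicit false

open MeasureTheory Set

namespace Pool.Agent.Helper82.GC


theorem psi_exp_j9278 (z : ℝ) : |psi 1 z - (mom 1 * z ^ 0 / 1 - mom 2 * z ^ 2 / 6 + mom 3 * z ^ 4 / 120 - mom 4 * z ^ 6 / 5040 + mom 5 * z ^ 8 / 362880 - mom 6 * z ^ 10 / 39916800 + mom 7 * z ^ 12 / 6227020800 - mom 8 * z ^ 14 / 1307674368000 + mom 9 * z ^ 16 / 355687428096000 - mom 10 * z ^ 18 / 121645100408832000 + mom 11 * z ^ 20 / 51090942171709440000 - mom 12 * z ^ 22 / 25852016738884976640000 + mom 13 * z ^ 24 / 15511210043330985984000000)| ≤ mom 14 * z ^ 26 / 10888869450418352160768000000 := by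
  have h := psi_taylor 13 z
  have e : ∑ k ∈ Finset.range 13, (-1 : ℝ) ^ k * mom (k + 1) * z ^ (2 * k) / (Nat.factorial (2 * k + 1)) =
      mom 1 * z ^ 0 / 1 - mom 2 * z ^ 2 / 6 + mom 3 * z ^ 4 / 120 - mom 4 * z ^ 6 / 5040 + mom 5 * z ^ 8 / 362880 - mom 6 * z ^ 10 / 39916800 + mom 7 * z ^ 12 / 6227020800 - mom 8 * z ^ 14 / 1307674368000 + mom 9 * z ^ 16 / 355687428096000 - mom 10 * z ^ 18 / 121645100408832000 + mom 11 * z ^ 20 / 51090942171709440000 - mom 12 * z ^ 22 / 25852016738884976640000 + mom 13 * z ^ 24 / 15511210043330985984000000 := by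
    simp only [Finset.sum_range_succ, Finset.sum_range_zero, Nat.factorial]
    push_cast
    norm_num
    ring
  rw [e] at h
  have e2 : ((Nat.factorial (2 * 13 + 1) : ℕ) : ℝ) = 10888869450418352160768000000 := by
    norm_num [Nat.factorial]
  rw [e2] at h
  norm_num at h ⊢
  exact h

theorem j13123_up_j9278 (m c p f : ℝ) (hp : 0 ≤ p) (hf : 0 < f) (h : m ≤ c * f) : m * p / f ≤ c * p := by
  rw [div_le_iff₀ hf]
  have := mul_le_mul_of_nonneg_right h hp
  linarith only [this]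
theorem j13123_lo_j9278 (m c p f : ℝ) (hp : 0 ≤ p) (hf : 0 < f) (h : c * f ≤ m) : c * p ≤ m * p / f := by
  rw [le_div_iff₀ hf]
  have := mul_le_mul_of_nonneg_right h hp
  linarith only [this]
theorem j13123_hiB_j9278 (z w : ℝ) (hw : z ^ 2 = w) : psi 1 z ≤ (2911250947800 / 10 ^ 13 + w * (-(2741672984833 / 10 ^ 14) + w * (9468915852500 / 10 ^ 16 + w * (-(1716548142261 / 10 ^ 17) + w * (1922159726081 / 10 ^ 19 + w * (-(1462786301256 / 10 ^ 21) + w * (8060326679815 / 10 ^ 24 + w * (-(3364937339660 / 10 ^ 26) + w * (1101143428647 / 10 ^ 28 + w * (-(2900614608513 / 10 ^ 31) + w * (6283063043174 / 10 ^ 34 + w * (-(1138889837391 / 10 ^ 36) + w * (1752930506650 / 10 ^ 39 + w * (2319531270442 / 10 ^ 42)))))))))))))) := by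
  have h := (abs_le.1 (psi_exp_j9278 z)).2
  have hw0 : 0 ≤ w := by rw [← hw]; positivity
  have e1 : z ^ 2 = w ^ 1 := by rw [← hw, ← pow_mul]
  have e2 : z ^ 4 = w ^ 2 := by rw [← hw, ← pow_mul]
  have e3 : z ^ 6 = w ^ 3 := by rw [← hw, ← pow_mul]
  have e4 : z ^ 8 = w ^ 4 := by rw [← hw, ← pow_mul]
  have e5 : z ^ 10 = w ^ 5 := by rw [← hw, ← pow_mul]
  have e6 : z ^ 12 = w ^ 6 := by rw [← hw, ← pow_mul]
  have e7 : z ^ 14 = w ^ 7 := by rw [← hw, ← pow_mul]
  have e8 : z ^ 16 = w ^ 8 := by rw [← hw, ← pow_mul]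
  have e9 : z ^ 18 = w ^ 9 := by rw [← hw, ← pow_mul]
  have e10 : z ^ 20 = w ^ 10 := by rw [← hw, ← pow_mul]
  have e11 : z ^ 22 = w ^ 11 := by rw [← hw, ← pow_mul]
  have e12 : z ^ 24 = w ^ 12 := by rw [← hw, ← pow_mul]
  have e13 : z ^ 26 = w ^ 13 := by rw [← hw, ← pow_mul]
  rw [e1, e2, e3, e4, e5, e6, e7, e8, e9, e10, e11, e12, e13] at h
  have t0 := j13123_up_j9278 (mom 1) (2911250947800 / 10 ^ 13) (z ^ 0) 1 (by norm_num) (by norm_num) (by have := mom_1.2; norm_num at this ⊢; linarith only [this])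
  have t1 := j13123_lo_j9278 (mom 2) (2741672984833 / 10 ^ 14) (w ^ 1) 6 (pow_nonneg hw0 1) (by norm_num) (by have := mom_2.1; norm_num at this ⊢; linarith only [this])
  have t2 := j13123_up_j9278 (mom 3) (9468915852500 / 10 ^ 16) (w ^ 2) 120 (pow_nonneg hw0 2) (by norm_num) (by have := mom_3.2; norm_num at this ⊢; linarith only [this])
  have t3 := j13123_lo_j9278 (mom 4) (1716548142261 / 10 ^ 17) (w ^ 3) 5040 (pow_nonneg hw0 3) (by norm_num) (by have := mom_4.1; norm_num at this ⊢; linarith only [this])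
  have t4 := j13123_up_j9278 (mom 5) (1922159726081 / 10 ^ 19) (w ^ 4) 362880 (pow_nonneg hw0 4) (by norm_num) (by have := mom_5.2; norm_num at this ⊢; linarith only [this])
  have t5 := j13123_lo_j9278 (mom 6) (1462786301256 / 10 ^ 21) (w ^ 5) 39916800 (pow_nonneg hw0 5) (by norm_num) (by have := mom_6.1; norm_num at this ⊢; linarith only [this])
  have t6 := j13123_up_j9278 (mom 7) (8060326679815 / 10 ^ 24) (w ^ 6) 6227020800 (pow_nonneg hw0 6) (by norm_num) (by have := mom_7.2; norm_num at this ⊢; linarith only [this])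
  have t7 := j13123_lo_j9278 (mom 8) (3364937339660 / 10 ^ 26) (w ^ 7) 1307674368000 (pow_nonneg hw0 7) (by norm_num) (by have := mom_8.1; norm_num at this ⊢; linarith only [this])
  have t8 := j13123_up_j9278 (mom 9) (1101143428647 / 10 ^ 28) (w ^ 8) 355687428096000 (pow_nonneg hw0 8) (by norm_num) (by have := mom_9.2; norm_num at this ⊢; linarith only [this])
  have t9 := j13123_lo_j9278 (mom 10) (2900614608513 / 10 ^ 31) (w ^ 9) 121645100408832000 (pow_nonneg hw0 9) (by norm_num) (by have := mom_10.1; norm_num at this ⊢; linarith only [this])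
  have t10 := j13123_up_j9278 (mom 11) (6283063043174 / 10 ^ 34) (w ^ 10) 51090942171709440000 (pow_nonneg hw0 10) (by norm_num) (by have := mom_11.2; norm_num at this ⊢; linarith only [this])
  have t11 := j13123_lo_j9278 (mom 12) (1138889837391 / 10 ^ 36) (w ^ 11) 25852016738884976640000 (pow_nonneg hw0 11) (by norm_num) (by have := mom_12.1; norm_num at this ⊢; linarith only [this])
  have t12 := j13123_up_j9278 (mom 13) (1752930506650 / 10 ^ 39) (w ^ 12) 15511210043330985984000000 (pow_nonneg hw0 12) (by norm_num) (by have := mom_13.2; norm_num at this ⊢; linarith only [this])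
  have t13 := j13123_up_j9278 (mom 14) (2319531270442 / 10 ^ 42) (w ^ 13) 10888869450418352160768000000 (pow_nonneg hw0 13) (by norm_num) (by have := mom_14.2; norm_num at this ⊢; linarith only [this])
  generalize psi 1 z = P at *
  linarith only [h, t0, t1, t2, t3, t4, t5, t6, t7, t8, t9, t10, t11, t12, t13]
theorem j13123_loB_j9278 (z w : ℝ) (hw : z ^ 2 = w) : (2911250947700 / 10 ^ 13 + w * (-(2741672985000 / 10 ^ 14) + w * (9468915851666 / 10 ^ 16 + w * (-(1716548142461 / 10 ^ 17) + w * (1922159725804 / 10 ^ 19 + w * (-(1462786301508 / 10 ^ 21) + w * (8060326678208 / 10 ^ 24 + w * (-(3364937340426 / 10 ^ 26) + w * (1101143428365 / 10 ^ 28 + w * (-(2900614609336 / 10 ^ 31) + w * (6283063041216 / 10 ^ 34 + w * (-(1138889837779 / 10 ^ 36) + w * (1752930506004 / 10 ^ 39 + w * (-(2319531270442 / 10 ^ 42))))))))))))))) ≤ psi 1 z := by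
  have h := (abs_le.1 (psi_exp_j9278 z)).1
  have hw0 : 0 ≤ w := by rw [← hw]; positivity
  have e1 : z ^ 2 = w ^ 1 := by rw [← hw, ← pow_mul]
  have e2 : z ^ 4 = w ^ 2 := by rw [← hw, ← pow_mul]
  have e3 : z ^ 6 = w ^ 3 := by rw [← hw, ← pow_mul]
  have e4 : z ^ 8 = w ^ 4 := by rw [← hw, ← pow_mul]
  have e5 : z ^ 10 = w ^ 5 := by rw [← hw, ← pow_mul]
  have e6 : z ^ 12 = w ^ 6 := by rw [← hw, ← pow_mul]
  have e7 : z ^ 14 = w ^ 7 := by rw [← hw, ← pow_mul]
  have e8 : z ^ 16 = w ^ 8 := by rw [← hw, ← pow_mul]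
  have e9 : z ^ 18 = w ^ 9 := by rw [← hw, ← pow_mul]
  have e10 : z ^ 20 = w ^ 10 := by rw [← hw, ← pow_mul]
  have e11 : z ^ 22 = w ^ 11 := by rw [← hw, ← pow_mul]
  have e12 : z ^ 24 = w ^ 12 := by rw [← hw, ← pow_mul]
  have e13 : z ^ 26 = w ^ 13 := by rw [← hw, ← pow_mul]
  rw [e1, e2, e3, e4, e5, e6, e7, e8, e9, e10, e11, e12, e13] at h
  have t0 := j13123_lo_j9278 (mom 1) (2911250947700 / 10 ^ 13) (z ^ 0) 1 (by norm_num) (by norm_num) (by have := mom_1.1; norm_num at this ⊢; linarith only [this])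
  have t1 := j13123_up_j9278 (mom 2) (2741672985000 / 10 ^ 14) (w ^ 1) 6 (pow_nonneg hw0 1) (by norm_num) (by have := mom_2.2; norm_num at this ⊢; linarith only [this])
  have t2 := j13123_lo_j9278 (mom 3) (9468915851666 / 10 ^ 16) (w ^ 2) 120 (pow_nonneg hw0 2) (by norm_num) (by have := mom_3.1; norm_num at this ⊢; linarith only [this])
  have t3 := j13123_up_j9278 (mom 4) (1716548142461 / 10 ^ 17) (w ^ 3) 5040 (pow_nonneg hw0 3) (by norm_num) (by have := mom_4.2; norm_num at this ⊢; linarith only [this])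
  have t4 := j13123_lo_j9278 (mom 5) (1922159725804 / 10 ^ 19) (w ^ 4) 362880 (pow_nonneg hw0 4) (by norm_num) (by have := mom_5.1; norm_num at this ⊢; linarith only [this])
  have t5 := j13123_up_j9278 (mom 6) (1462786301508 / 10 ^ 21) (w ^ 5) 39916800 (pow_nonneg hw0 5) (by norm_num) (by have := mom_6.2; norm_num at this ⊢; linarith only [this])
  have t6 := j13123_lo_j9278 (mom 7) (8060326678208 / 10 ^ 24) (w ^ 6) 6227020800 (pow_nonneg hw0 6) (by norm_num) (by have := mom_7.1; norm_num at this ⊢; linarith only [this])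
  have t7 := j13123_up_j9278 (mom 8) (3364937340426 / 10 ^ 26) (w ^ 7) 1307674368000 (pow_nonneg hw0 7) (by norm_num) (by have := mom_8.2; norm_num at this ⊢; linarith only [this])
  have t8 := j13123_lo_j9278 (mom 9) (1101143428365 / 10 ^ 28) (w ^ 8) 355687428096000 (pow_nonneg hw0 8) (by norm_num) (by have := mom_9.1; norm_num at this ⊢; linarith only [this])
  have t9 := j13123_up_j9278 (mom 10) (2900614609336 / 10 ^ 31) (w ^ 9) 121645100408832000 (pow_nonneg hw0 9) (by norm_num) (by have := mom_10.2; norm_num at this ⊢; linarith only [this])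
  have t10 := j13123_lo_j9278 (mom 11) (6283063041216 / 10 ^ 34) (w ^ 10) 51090942171709440000 (pow_nonneg hw0 10) (by norm_num) (by have := mom_11.1; norm_num at this ⊢; linarith only [this])
  have t11 := j13123_up_j9278 (mom 12) (1138889837779 / 10 ^ 36) (w ^ 11) 25852016738884976640000 (pow_nonneg hw0 11) (by norm_num) (by have := mom_12.2; norm_num at this ⊢; linarith only [this])
  have t12 := j13123_lo_j9278 (mom 13) (1752930506004 / 10 ^ 39) (w ^ 12) 15511210043330985984000000 (pow_nonneg hw0 12) (by norm_num) (by have := mom_13.1; norm_num at this ⊢; linarith only [this])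
  have t13 := j13123_up_j9278 (mom 14) (2319531270442 / 10 ^ 42) (w ^ 13) 10888869450418352160768000000 (pow_nonneg hw0 13) (by norm_num) (by have := mom_14.2; norm_num at this ⊢; linarith only [this])
  generalize psi 1 z = P at *
  linarith only [h, t0, t1, t2, t3, t4, t5, t6, t7, t8, t9, t10, t11, t12, t13]

theorem psi_tab_1 : 0.289414 < psi 1 0.25 ∧ psi 1 0.25 < 0.289416 := by
  have e : (0.25 : ℝ) ^ 2 = 1 / 16 := by norm_num
  exact ⟨lt_of_lt_of_le (by norm_num) (j13123_loB_j9278 _ _ e), lt_of_le_of_lt (j13123_hiB_j9278 _ _ e) (by norm_num)⟩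
theorem psi_tab_2 : 0.284329 < psi 1 0.5 ∧ psi 1 0.5 < 0.284331 := by
  have e : (0.5 : ℝ) ^ 2 = 1 / 4 := by norm_num
  exact ⟨lt_of_lt_of_le (by norm_num) (j13123_loB_j9278 _ _ e), lt_of_le_of_lt (j13123_hiB_j9278 _ _ e) (by norm_num)⟩
theorem psi_tab_3 : 0.275999 < psi 1 0.75 ∧ psi 1 0.75 < 0.276001 := by
  have e : (0.75 : ℝ) ^ 2 = 9 / 16 := by norm_num
  exact ⟨lt_of_lt_of_le (by norm_num) (j13123_loB_j9278 _ _ e), lt_of_le_of_lt (j13123_hiB_j9278 _ _ e) (by norm_num)⟩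
theorem psi_tab_4 : 0.264637 < psi 1 1 ∧ psi 1 1 < 0.264639 := by
  have e : (1 : ℝ) ^ 2 = 1 := by norm_num
  exact ⟨lt_of_lt_of_le (by norm_num) (j13123_loB_j9278 _ _ e), lt_of_le_of_lt (j13123_hiB_j9278 _ _ e) (by norm_num)⟩
theorem psi_tab_5 : 0.250533 < psi 1 1.25 ∧ psi 1 1.25 < 0.250535 := by
  have e : (1.25 : ℝ) ^ 2 = 25 / 16 := by norm_num
  exact ⟨lt_of_lt_of_le (by norm_num) (j13123_loB_j9278 _ _ e), lt_of_le_of_lt (j13123_hiB_j9278 _ _ e) (by norm_num)⟩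
theorem psi_tab_6 : 0.234040 < psi 1 1.5 ∧ psi 1 1.5 < 0.234041 := by
  have e : (1.5 : ℝ) ^ 2 = 9 / 4 := by norm_num
  exact ⟨lt_of_lt_of_le (by norm_num) (j13123_loB_j9278 _ _ e), lt_of_le_of_lt (j13123_hiB_j9278 _ _ e) (by norm_num)⟩
theorem psi_tab_7 : 0.215565 < psi 1 1.75 ∧ psi 1 1.75 < 0.215566 := by
  have e : (1.75 : ℝ) ^ 2 = 49 / 16 := by norm_num
  exact ⟨lt_of_lt_of_le (by norm_num) (j13123_loB_j9278 _ _ e), lt_of_le_of_lt (j13123_hiB_j9278 _ _ e) (by norm_num)⟩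
theorem psi_tab_8 : 0.195557 < psi 1 2 ∧ psi 1 2 < 0.195558 := by
  have e : (2 : ℝ) ^ 2 = 4 := by norm_num
  exact ⟨lt_of_lt_of_le (by norm_num) (j13123_loB_j9278 _ _ e), lt_of_le_of_lt (j13123_hiB_j9278 _ _ e) (by norm_num)⟩
theorem psi_tab_9 : 0.174489 < psi 1 2.25 ∧ psi 1 2.25 < 0.174491 := by
  have e : (2.25 : ℝ) ^ 2 = 81 / 16 := by norm_num
  exact ⟨lt_of_lt_of_le (by norm_num) (j13123_loB_j9278 _ _ e), lt_of_le_of_lt (j13123_hiB_j9278 _ _ e) (by norm_num)⟩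
theorem psi_tab_10 : 0.152847 < psi 1 2.5 ∧ psi 1 2.5 < 0.152848 := by
  have e : (2.5 : ℝ) ^ 2 = 25 / 4 := by norm_num
  exact ⟨lt_of_lt_of_le (by norm_num) (j13123_loB_j9278 _ _ e), lt_of_le_of_lt (j13123_hiB_j9278 _ _ e) (by norm_num)⟩
theorem psi_tab_11 : 0.131109 < psi 1 2.75 ∧ psi 1 2.75 < 0.131111 := by
  have e : (2.75 : ℝ) ^ 2 = 121 / 16 := by norm_num
  exact ⟨lt_of_lt_of_le (by norm_num) (j13123_loB_j9278 _ _ e), lt_of_le_of_lt (j13123_hiB_j9278 _ _ e) (by norm_num)⟩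
theorem psi_tab_12 : 0.109737 < psi 1 3 ∧ psi 1 3 < 0.109739 := by
  have e : (3 : ℝ) ^ 2 = 9 := by norm_num
  exact ⟨lt_of_lt_of_le (by norm_num) (j13123_loB_j9278 _ _ e), lt_of_le_of_lt (j13123_hiB_j9278 _ _ e) (by norm_num)⟩
theorem psi_tab_13 : 0.089159 < psi 1 3.25 ∧ psi 1 3.25 < 0.089161 := by
  have e : (3.25 : ℝ) ^ 2 = 169 / 16 := by norm_num
  exact ⟨lt_of_lt_of_le (by norm_num) (j13123_loB_j9278 _ _ e), lt_of_le_of_lt (j13123_hiB_j9278 _ _ e) (by norm_num)⟩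
theorem psi_tab_14 : 0.069758 < psi 1 3.5 ∧ psi 1 3.5 < 0.069760 := by
  have e : (3.5 : ℝ) ^ 2 = 49 / 4 := by norm_num
  exact ⟨lt_of_lt_of_le (by norm_num) (j13123_loB_j9278 _ _ e), lt_of_le_of_lt (j13123_hiB_j9278 _ _ e) (by norm_num)⟩
theorem psi_tab_15 : 0.051864 < psi 1 3.75 ∧ psi 1 3.75 < 0.051865 := by
  have e : (3.75 : ℝ) ^ 2 = 225 / 16 := by norm_num
  exact ⟨lt_of_lt_of_le (by norm_num) (j13123_loB_j9278 _ _ e), lt_of_le_of_lt (j13123_hiB_j9278 _ _ e) (by norm_num)⟩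
theorem psi_tab_16 : 0.035741 < psi 1 4 ∧ psi 1 4 < 0.035743 := by
  have e : (4 : ℝ) ^ 2 = 16 := by norm_num
  exact ⟨lt_of_lt_of_le (by norm_num) (j13123_loB_j9278 _ _ e), lt_of_le_of_lt (j13123_hiB_j9278 _ _ e) (by norm_num)⟩
theorem psi_tab_17 : 0.021589 < psi 1 4.25 ∧ psi 1 4.25 < 0.021590 := by
  have e : (4.25 : ℝ) ^ 2 = 289 / 16 := by norm_num
  exact ⟨lt_of_lt_of_le (by norm_num) (j13123_loB_j9278 _ _ e), lt_of_le_of_lt (j13123_hiB_j9278 _ _ e) (by norm_num)⟩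
theorem psi_tab_18 : 0.009534 < psi 1 4.5 ∧ psi 1 4.5 < 0.009536 := by
  have e : (4.5 : ℝ) ^ 2 = 81 / 4 := by norm_num
  exact ⟨lt_of_lt_of_le (by norm_num) (j13123_loB_j9278 _ _ e), lt_of_le_of_lt (j13123_hiB_j9278 _ _ e) (by norm_num)⟩
theorem psi_tab_19 : (-0.000365) < psi 1 4.75 ∧ psi 1 4.75 < -0.000363 := by
  have e : (4.75 : ℝ) ^ 2 = 361 / 16 := by norm_num
  exact ⟨lt_of_lt_of_le (by norm_num) (j13123_loB_j9278 _ _ e), lt_of_le_of_lt (j13123_hiB_j9278 _ _ e) (by norm_num)⟩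
theorem psi_tab_20 : (-0.008120) < psi 1 5 ∧ psi 1 5 < -0.008118 := by
  have e : (5 : ℝ) ^ 2 = 25 := by norm_num
  exact ⟨lt_of_lt_of_le (by norm_num) (j13123_loB_j9278 _ _ e), lt_of_le_of_lt (j13123_hiB_j9278 _ _ e) (by norm_num)⟩



end Pool.Agent.Helper82.GC
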