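import Pool.Agent.Helper82.GC.J8960
import Pool.Agent.Helper82.GC.J8962

set_option autoImplicit false

open MeasureTheory Set

namespace Pool.Agent.Helper82.GC


theorem chi_bd_j9279 (z lo hi : ℝ)
    (h1 : lo < (∑ k ∈ Finset.range 10, (-1) ^ k * (mom (k + 2)) * (2 * k + 2) * z ^ (2 * k) /
      (Nat.factorial (2 * k + 3))) - mom (10 + 2) * (2 * (10 : ℕ) + 2) * z ^ (2 * 10) /
      (Nat.factorial (2 * 10 + 3)))
    (h2 : (∑ k ∈ Finset.range 10, (-1) ^ k * (mom (k + 2)) * (2 * k + 2) * z ^ (2 * k) /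
      (Nat.factorial (2 * k + 3))) + mom (10 + 2) * (2 * (10 : ℕ) + 2) * z ^ (2 * 10) /
      (Nat.factorial (2 * 10 + 3)) < hi) : lo < chi z ∧ chi z < hi := by
  have h := chi_taylor 10 z
  rw [abs_le] at h
  constructor <;> linarith [h.1, h.2]

theorem chi_tab_8 : 0.041236 < chi 2 ∧ chi 2 < 0.041237 := by
  obtain ⟨a2, b2⟩ := mom_2
  obtain ⟨a3, b3⟩ := mom_3
  obtain ⟨a4, b4⟩ := mom_4
  obtain ⟨a5, b5⟩ := mom_5
  obtain ⟨a6, b6⟩ := mom_6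
  obtain ⟨a7, b7⟩ := mom_7
  obtain ⟨a8, b8⟩ := mom_8
  obtain ⟨a9, b9⟩ := mom_9
  obtain ⟨a10, b10⟩ := mom_10
  obtain ⟨a11, b11⟩ := mom_11
  obtain ⟨a12, b12⟩ := mom_12
  apply chi_bd_j9279
  · norm_num [Finset.sum_range_succ, Nat.factorial]
    linarith
  · norm_num [Finset.sum_range_succ, Nat.factorial]
    linarith

theorem chi_tab_9 : 0.038107 < chi 2.25 ∧ chi 2.25 < 0.038109 := by
  obtain ⟨a2, b2⟩ := mom_2
  obtain ⟨a3, b3⟩ := mom_3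
  obtain ⟨a4, b4⟩ := mom_4
  obtain ⟨a5, b5⟩ := mom_5
  obtain ⟨a6, b6⟩ := mom_6
  obtain ⟨a7, b7⟩ := mom_7
  obtain ⟨a8, b8⟩ := mom_8
  obtain ⟨a9, b9⟩ := mom_9
  obtain ⟨a10, b10⟩ := mom_10
  obtain ⟨a11, b11⟩ := mom_11
  obtain ⟨a12, b12⟩ := mom_12
  apply chi_bd_j9279
  · norm_num [Finset.sum_range_succ, Nat.factorial]
    linarith
  · norm_num [Finset.sum_range_succ, Nat.factorial]
    linarith

theorem chi_tab_10 : 0.034830 < chi 2.5 ∧ chi 2.5 < 0.034831 := by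
  obtain ⟨a2, b2⟩ := mom_2
  obtain ⟨a3, b3⟩ := mom_3
  obtain ⟨a4, b4⟩ := mom_4
  obtain ⟨a5, b5⟩ := mom_5
  obtain ⟨a6, b6⟩ := mom_6
  obtain ⟨a7, b7⟩ := mom_7
  obtain ⟨a8, b8⟩ := mom_8
  obtain ⟨a9, b9⟩ := mom_9
  obtain ⟨a10, b10⟩ := mom_10
  obtain ⟨a11, b11⟩ := mom_11
  obtain ⟨a12, b12⟩ := mom_12
  apply chi_bd_j9279
  · norm_num [Finset.sum_range_succ, Nat.factorial]
    linarith
  · norm_num [Finset.sum_range_succ, Nat.factorial]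
    linarith

theorem chi_tab_11 : 0.031460 < chi 2.75 ∧ chi 2.75 < 0.031462 := by
  obtain ⟨a2, b2⟩ := mom_2
  obtain ⟨a3, b3⟩ := mom_3
  obtain ⟨a4, b4⟩ := mom_4
  obtain ⟨a5, b5⟩ := mom_5
  obtain ⟨a6, b6⟩ := mom_6
  obtain ⟨a7, b7⟩ := mom_7
  obtain ⟨a8, b8⟩ := mom_8
  obtain ⟨a9, b9⟩ := mom_9
  obtain ⟨a10, b10⟩ := mom_10
  obtain ⟨a11, b11⟩ := mom_11
  obtain ⟨a12, b12⟩ := mom_12
  apply chi_bd_j9279
  · norm_num [Finset.sum_range_succ, Nat.factorial]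
    linarith
  · norm_num [Finset.sum_range_succ, Nat.factorial]
    linarith

theorem chi_tab_12 : 0.028056 < chi 3 ∧ chi 3 < 0.028058 := by
  obtain ⟨a2, b2⟩ := mom_2
  obtain ⟨a3, b3⟩ := mom_3
  obtain ⟨a4, b4⟩ := mom_4
  obtain ⟨a5, b5⟩ := mom_5
  obtain ⟨a6, b6⟩ := mom_6
  obtain ⟨a7, b7⟩ := mom_7
  obtain ⟨a8, b8⟩ := mom_8
  obtain ⟨a9, b9⟩ := mom_9
  obtain ⟨a10, b10⟩ := mom_10
  obtain ⟨a11, b11⟩ := mom_11
  obtain ⟨a12, b12⟩ := mom_12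
  apply chi_bd_j9279
  · norm_num [Finset.sum_range_succ, Nat.factorial]
    linarith
  · norm_num [Finset.sum_range_succ, Nat.factorial]
    linarith

theorem chi_tab_13 : 0.024675 < chi 3.25 ∧ chi 3.25 < 0.024677 := by
  obtain ⟨a2, b2⟩ := mom_2
  obtain ⟨a3, b3⟩ := mom_3
  obtain ⟨a4, b4⟩ := mom_4
  obtain ⟨a5, b5⟩ := mom_5
  obtain ⟨a6, b6⟩ := mom_6
  obtain ⟨a7, b7⟩ := mom_7
  obtain ⟨a8, b8⟩ := mom_8
  obtain ⟨a9, b9⟩ := mom_9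
  obtain ⟨a10, b10⟩ := mom_10
  obtain ⟨a11, b11⟩ := mom_11
  obtain ⟨a12, b12⟩ := mom_12
  apply chi_bd_j9279
  · norm_num [Finset.sum_range_succ, Nat.factorial]
    linarith
  · norm_num [Finset.sum_range_succ, Nat.factorial]
    linarith

theorem chi_tab_14 : 0.021368 < chi 3.5 ∧ chi 3.5 < 0.021369 := by
  obtain ⟨a2, b2⟩ := mom_2
  obtain ⟨a3, b3⟩ := mom_3
  obtain ⟨a4, b4⟩ := mom_4
  obtain ⟨a5, b5⟩ := mom_5
  obtain ⟨a6, b6⟩ := mom_6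
  obtain ⟨a7, b7⟩ := mom_7
  obtain ⟨a8, b8⟩ := mom_8
  obtain ⟨a9, b9⟩ := mom_9
  obtain ⟨a10, b10⟩ := mom_10
  obtain ⟨a11, b11⟩ := mom_11
  obtain ⟨a12, b12⟩ := mom_12
  apply chi_bd_j9279
  · norm_num [Finset.sum_range_succ, Nat.factorial]
    linarith
  · norm_num [Finset.sum_range_succ, Nat.factorial]
    linarith

theorem chi_tab_15 : 0.018183 < chi 3.75 ∧ chi 3.75 < 0.018185 := by
  obtain ⟨a2, b2⟩ := mom_2
  obtain ⟨a3, b3⟩ := mom_3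
  obtain ⟨a4, b4⟩ := mom_4
  obtain ⟨a5, b5⟩ := mom_5
  obtain ⟨a6, b6⟩ := mom_6
  obtain ⟨a7, b7⟩ := mom_7
  obtain ⟨a8, b8⟩ := mom_8
  obtain ⟨a9, b9⟩ := mom_9
  obtain ⟨a10, b10⟩ := mom_10
  obtain ⟨a11, b11⟩ := mom_11
  obtain ⟨a12, b12⟩ := mom_12
  apply chi_bd_j9279
  · norm_num [Finset.sum_range_succ, Nat.factorial]
    linarith
  · norm_num [Finset.sum_range_succ, Nat.factorial]
    linarith

theorem chi_tab_16 : 0.015164 < chi 4 ∧ chi 4 < 0.015166 := by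
  obtain ⟨a2, b2⟩ := mom_2
  obtain ⟨a3, b3⟩ := mom_3
  obtain ⟨a4, b4⟩ := mom_4
  obtain ⟨a5, b5⟩ := mom_5
  obtain ⟨a6, b6⟩ := mom_6
  obtain ⟨a7, b7⟩ := mom_7
  obtain ⟨a8, b8⟩ := mom_8
  obtain ⟨a9, b9⟩ := mom_9
  obtain ⟨a10, b10⟩ := mom_10
  obtain ⟨a11, b11⟩ := mom_11
  obtain ⟨a12, b12⟩ := mom_12
  apply chi_bd_j9279
  · norm_num [Finset.sum_range_succ, Nat.factorial]
    linarith
  · norm_num [Finset.sum_range_succ, Nat.factorial]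
    linarith

theorem chi_tab_17 : 0.012346 < chi 4.25 ∧ chi 4.25 < 0.012348 := by
  obtain ⟨a2, b2⟩ := mom_2
  obtain ⟨a3, b3⟩ := mom_3
  obtain ⟨a4, b4⟩ := mom_4
  obtain ⟨a5, b5⟩ := mom_5
  obtain ⟨a6, b6⟩ := mom_6
  obtain ⟨a7, b7⟩ := mom_7
  obtain ⟨a8, b8⟩ := mom_8
  obtain ⟨a9, b9⟩ := mom_9
  obtain ⟨a10, b10⟩ := mom_10
  obtain ⟨a11, b11⟩ := mom_11
  obtain ⟨a12, b12⟩ := mom_12
  apply chi_bd_j9279
  · norm_num [Finset.sum_range_succ, Nat.factorial]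
    linarith
  · norm_num [Finset.sum_range_succ, Nat.factorial]
    linarith



end Pool.Agent.Helper82.GC
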