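import Pool.Agent.Helper82.GC.J9263

set_option autoImplicit false

open MeasureTheory Set

namespace Pool.Agent.Helper82.GC


theorem pd_convex1_j9281 : ConvexOn ℝ univ (fun t : ℝ => Real.cos t + t ^ 2 / 2) := by
  have h1 : ∀ t : ℝ, HasDerivAt (fun t : ℝ => Real.cos t + t ^ 2 / 2) (-Real.sin t + t) t := by
    intro t
    have := (Real.hasDerivAt_cos t).add ((hasDerivAt_pow 2 t).div_const 2)
    exact this.congr_deriv (by simp)
  have h2 : ∀ t : ℝ, HasDerivAt (fun t : ℝ => -Real.sin t + t) (-Real.cos t + 1) t := by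
    intro t
    exact (Real.hasDerivAt_sin t).neg.add (hasDerivAt_id t)
  refine convexOn_of_hasDerivWithinAt2_nonneg convex_univ
    (f' := fun t => -Real.sin t + t) (f'' := fun t => -Real.cos t + 1) (by fun_prop)
    (fun x _ => (h1 x).hasDerivWithinAt) (fun x _ => (h2 x).hasDerivWithinAt) ?_
  intro x _
  have := Real.cos_le_one x
  linarith

theorem pd_convex2_j9281 : ConvexOn ℝ univ (fun t : ℝ => t ^ 2 / 2 - Real.cos t) := by
  have h1 : ∀ t : ℝ, HasDerivAt (fun t : ℝ => t ^ 2 / 2 - Real.cos t) (t + Real.sin t) t := by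
    intro t
    have := ((hasDerivAt_pow 2 t).div_const 2).sub (Real.hasDerivAt_cos t)
    exact this.congr_deriv (by simp)
  have h2 : ∀ t : ℝ, HasDerivAt (fun t : ℝ => t + Real.sin t) (1 + Real.cos t) t := by
    intro t
    exact (hasDerivAt_id t).add (Real.hasDerivAt_sin t)
  refine convexOn_of_hasDerivWithinAt2_nonneg convex_univ
    (f' := fun t => t + Real.sin t) (f'' := fun t => 1 + Real.cos t) (by fun_prop)
    (fun x _ => (h1 x).hasDerivWithinAt) (fun x _ => (h2 x).hasDerivWithinAt) ?_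
  intro x _
  have := Real.neg_one_le_cos x
  linarith

theorem pd_cos_interp_j9281 (a b p q : ℝ) (hp : 0 ≤ p) (hq : 0 ≤ q) (hpq : p + q = 1) :
    |Real.cos (p * a + q * b) - (p * Real.cos a + q * Real.cos b)| ≤ p * q * (a - b) ^ 2 / 2 := by
  have h1 := pd_convex1_j9281.2 (mem_univ a) (mem_univ b) hp hq hpq
  have h2 := pd_convex2_j9281.2 (mem_univ a) (mem_univ b) hp hq hpq
  simp only [smul_eq_mul] at h1 h2
  have e : q = 1 - p := by linarith
  rw [abs_le]
  constructor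
  · have : p * (a ^ 2 / 2) + q * (b ^ 2 / 2) - (p * a + q * b) ^ 2 / 2 = p * q * (a - b) ^ 2 / 2 := by
      rw [e]; ring
    nlinarith
  · have : p * (a ^ 2 / 2) + q * (b ^ 2 / 2) - (p * a + q * b) ^ 2 / 2 = p * q * (a - b) ^ 2 / 2 := by
      rw [e]; ring
    nlinarith

theorem pd_Zpos_j9281 : 0 < Zr 1 := by
  have := Zr_one_bounds.1
  linarith

theorem pd_mom_eq_j9281 (k : ℕ) :
    (∫ x in (-1 : ℝ)..1, x ^ (2 * k) * Real.exp (-x ^ 2 / 2)) = mom k * Zr 1 := by
  unfold mom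
  rw [div_mul_cancel₀ _ pd_Zpos_j9281.ne']

theorem pd_phi_eq_j9281 (z : ℝ) :
    (∫ x in (-1 : ℝ)..1, Real.cos (z * x) * Real.exp (-x ^ 2 / 2)) = phi 1 z * Zr 1 := by
  unfold phi G
  rw [div_mul_cancel₀ _ pd_Zpos_j9281.ne']

theorem pd_interp_j9281 (a b p q : ℝ) (hp : 0 ≤ p) (hq : 0 ≤ q) (hpq : p + q = 1) :
    |phi 1 (p * a + q * b) - (p * phi 1 a + q * phi 1 b)| ≤ mom 1 * (p * q * (a - b) ^ 2 / 2) := by
  have hZ := pd_Zpos_j9281
  have key : |(phi 1 (p * a + q * b) - (p * phi 1 a + q * phi 1 b)) * Zr 1| ≤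
      mom 1 * (p * q * (a - b) ^ 2 / 2) * Zr 1 := by
    have e1 : (phi 1 (p * a + q * b) - (p * phi 1 a + q * phi 1 b)) * Zr 1 =
        ∫ x in (-1 : ℝ)..1, (Real.cos ((p * a + q * b) * x) -
          (p * Real.cos (a * x) + q * Real.cos (b * x))) * Real.exp (-x ^ 2 / 2) := by
      have : (fun x : ℝ => (Real.cos ((p * a + q * b) * x) -
          (p * Real.cos (a * x) + q * Real.cos (b * x))) * Real.exp (-x ^ 2 / 2)) =
          fun x => (Real.cos ((p * a + q * b) * x) * Real.exp (-x ^ 2 / 2)) -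
            (p * (Real.cos (a * x) * Real.exp (-x ^ 2 / 2)) +
              q * (Real.cos (b * x) * Real.exp (-x ^ 2 / 2))) := by
        funext x; ring
      rw [this, intervalIntegral.integral_sub, intervalIntegral.integral_add,
        intervalIntegral.integral_const_mul, intervalIntegral.integral_const_mul,
        pd_phi_eq_j9281, pd_phi_eq_j9281, pd_phi_eq_j9281]
      · ring
      all_goals exact Continuous.intervalIntegrable (by fun_prop) _ _
    have e2 : mom 1 * (p * q * (a - b) ^ 2 / 2) * Zr 1 =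
        ∫ x in (-1 : ℝ)..1, (p * q * (a - b) ^ 2 / 2) * (x ^ (2 * 1) * Real.exp (-x ^ 2 / 2)) := by
      rw [intervalIntegral.integral_const_mul, pd_mom_eq_j9281]
      ring
    rw [e1, e2]
    refine (intervalIntegral.abs_integral_le_integral_abs (by norm_num)).trans ?_
    refine intervalIntegral.integral_mono_on (by norm_num) ?_ ?_ ?_
    · exact Continuous.intervalIntegrable (by fun_prop) _ _
    · exact Continuous.intervalIntegrable (by fun_prop) _ _
    · intro x _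
      have h := pd_cos_interp_j9281 (a * x) (b * x) p q hp hq hpq
      rw [abs_mul, abs_of_pos (Real.exp_pos _)]
      have e3 : p * (a * x) + q * (b * x) = (p * a + q * b) * x := by ring
      rw [e3] at h
      have h2 := mul_le_mul_of_nonneg_right h (Real.exp_pos (-x ^ 2 / 2)).le
      refine h2.trans (le_of_eq ?_)
      ring
  rw [abs_mul, abs_of_pos hZ] at key
  exact le_of_mul_le_mul_right key hZ

/-- interpolation on an interval of length `1/4` -/
theorem pd_interp'_j9281 (a z : ℝ) (h1 : a ≤ z) (h2 : z ≤ a + 0.25) :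
    |phi 1 z - ((1 - 4 * (z - a)) * phi 1 a + 4 * (z - a) * phi 1 (a + 0.25))| ≤
      mom 1 * ((z - a) * (a + 0.25 - z) / 2) := by
  have h := pd_interp_j9281 a (a + 0.25) (1 - 4 * (z - a)) (4 * (z - a)) (by linarith) (by linarith)
    (by ring)
  have e : (1 - 4 * (z - a)) * a + 4 * (z - a) * (a + 0.25) = z := by ring
  rw [e] at h
  refine h.trans (le_of_eq ?_)
  ring

theorem pd_H_j9281 (z x : ℝ) (hz : z ≠ 0) :
    HasDerivAt (fun x : ℝ => (Real.sin (z * x) / z + Real.cos (z * x) / z ^ 2 * (-x)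
      - Real.sin (z * x) / z ^ 3 * (x ^ 2 - 1) - Real.cos (z * x) / z ^ 4 * (3 * x - x ^ 3)
      + Real.sin (z * x) / z ^ 5 * (x ^ 4 - 6 * x ^ 2 + 3)
      + Real.cos (z * x) / z ^ 6 * (-(x ^ 5 - 10 * x ^ 3 + 15 * x))) * Real.exp (-x ^ 2 / 2))
    (Real.cos (z * x) * Real.exp (-x ^ 2 / 2) +
      1 / z ^ 6 * (Real.cos (z * x) * ((x ^ 6 - 15 * x ^ 4 + 45 * x ^ 2 - 15) *
        Real.exp (-x ^ 2 / 2)))) x := by
  have hs : HasDerivAt (fun x : ℝ => Real.sin (z * x)) (z * Real.cos (z * x)) x := by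
    have := (Real.hasDerivAt_sin (z * x)).comp x ((hasDerivAt_id x).const_mul z)
    exact this.congr_deriv (by simp; ring)
  have hc : HasDerivAt (fun x : ℝ => Real.cos (z * x)) (-(z * Real.sin (z * x))) x := by
    have := (Real.hasDerivAt_cos (z * x)).comp x ((hasDerivAt_id x).const_mul z)
    exact this.congr_deriv (by simp; ring)
  have he : HasDerivAt (fun x : ℝ => Real.exp (-x ^ 2 / 2)) (-x * Real.exp (-x ^ 2 / 2)) x := by
    have h1 : HasDerivAt (fun x : ℝ => -x ^ 2 / 2) (-x) x := by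
      have := ((hasDerivAt_pow 2 x).neg).div_const 2
      exact this.congr_deriv (by simp; ring)
    have := h1.exp
    exact this.congr_deriv (by ring)
  have p1 : HasDerivAt (fun x : ℝ => -x) (-1) x := (hasDerivAt_id x).neg
  have p2 : HasDerivAt (fun x : ℝ => x ^ 2 - 1) (2 * x) x := by
    have := (hasDerivAt_pow 2 x).sub_const 1
    exact this.congr_deriv (by simp)
  have p3 : HasDerivAt (fun x : ℝ => 3 * x - x ^ 3) (3 - 3 * x ^ 2) x := by
    have := ((hasDerivAt_id x).const_mul 3).sub (hasDerivAt_pow 3 x)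
    exact this.congr_deriv (by simp)
  have p4 : HasDerivAt (fun x : ℝ => x ^ 4 - 6 * x ^ 2 + 3) (4 * x ^ 3 - 12 * x) x := by
    have := ((hasDerivAt_pow 4 x).sub ((hasDerivAt_pow 2 x).const_mul 6)).add_const 3
    exact this.congr_deriv (by simp; ring)
  have p5 : HasDerivAt (fun x : ℝ => -(x ^ 5 - 10 * x ^ 3 + 15 * x)) (-(5 * x ^ 4 - 30 * x ^ 2 + 15)) x := by
    have := (((hasDerivAt_pow 5 x).sub ((hasDerivAt_pow 3 x).const_mul 10)).add
      ((hasDerivAt_id x).const_mul 15)).neg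
    exact this.congr_deriv (by simp; ring)
  have H := ((((((hs.div_const z).add ((hc.div_const (z ^ 2)).mul p1)).sub
    ((hs.div_const (z ^ 3)).mul p2)).sub ((hc.div_const (z ^ 4)).mul p3)).add
    ((hs.div_const (z ^ 5)).mul p4)).add ((hc.div_const (z ^ 6)).mul p5)).mul he
  refine H.congr_deriv ?_
  simp only [Pi.add_apply, Pi.sub_apply, Pi.mul_apply]
  field_simp
  ring

theorem pd_ibp_j9281 (z : ℝ) (hz : z ≠ 0) :
    phi 1 z * Zr 1 + 1 / z ^ 6 * (∫ x in (-1 : ℝ)..1, Real.cos (z * x) *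
      ((x ^ 6 - 15 * x ^ 4 + 45 * x ^ 2 - 15) * Real.exp (-x ^ 2 / 2))) =
    2 * Real.exp (-1 / 2) * (Real.sin z / z - Real.cos z / z ^ 2 - 2 * Real.cos z / z ^ 4
      - 2 * Real.sin z / z ^ 5 - 6 * Real.cos z / z ^ 6) := by
  rw [← pd_phi_eq_j9281, ← intervalIntegral.integral_const_mul, ← intervalIntegral.integral_add]
  · rw [intervalIntegral.integral_eq_sub_of_hasDerivAt (fun x _ => pd_H_j9281 z x hz)
      (Continuous.intervalIntegrable (by fun_prop) _ _)]
    have e1 : z * (-1 : ℝ) = -z := by ring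
    rw [e1, Real.sin_neg, Real.cos_neg, mul_one]
    have e2 : -(1 : ℝ) ^ 2 / 2 = -1 / 2 := by norm_num
    have e3 : -(-1 : ℝ) ^ 2 / 2 = -1 / 2 := by norm_num
    rw [e2, e3]
    ring
  · exact Continuous.intervalIntegrable (by fun_prop) _ _
  · exact Continuous.intervalIntegrable (by fun_prop) _ _

theorem pd_rem_j9281 (z : ℝ) :
    |∫ x in (-1 : ℝ)..1, Real.cos (z * x) *
      ((x ^ 6 - 15 * x ^ 4 + 45 * x ^ 2 - 15) * Real.exp (-x ^ 2 / 2))| ≤
      (15 + mom 1) * Zr 1 := by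
  have e2 : (15 + mom 1) * Zr 1 =
      ∫ x in (-1 : ℝ)..1, (15 * (x ^ (2 * 0) * Real.exp (-x ^ 2 / 2)) +
        x ^ (2 * 1) * Real.exp (-x ^ 2 / 2)) := by
    rw [intervalIntegral.integral_add, intervalIntegral.integral_const_mul, pd_mom_eq_j9281, pd_mom_eq_j9281,
      mom_zero]
    · ring
    all_goals exact Continuous.intervalIntegrable (by fun_prop) _ _
  rw [e2]
  refine (intervalIntegral.abs_integral_le_integral_abs (by norm_num)).trans ?_
  refine intervalIntegral.integral_mono_on (by norm_num) ?_ ?_ ?_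
  · exact Continuous.intervalIntegrable (by fun_prop) _ _
  · exact Continuous.intervalIntegrable (by fun_prop) _ _
  · intro x hx
    obtain ⟨hx1, hx2⟩ := hx
    have hu0 : 0 ≤ x ^ 2 := by positivity
    have hu1 : x ^ 2 ≤ 1 := by nlinarith
    have hq : |x ^ 6 - 15 * x ^ 4 + 45 * x ^ 2 - 15| ≤ 15 + x ^ 2 := by
      have e6 : x ^ 6 = (x ^ 2) ^ 3 := by ring
      have e4 : x ^ 4 = (x ^ 2) ^ 2 := by ring
      rw [e6, e4]
      generalize x ^ 2 = u at hu0 hu1
      rw [abs_le]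
      constructor
      · nlinarith [mul_nonneg hu0 hu0, mul_nonneg (mul_nonneg hu0 hu0) hu0,
          mul_nonneg hu0 (sub_nonneg.2 hu1)]
      · have : 0 ≤ (1 - u) * (30 - 14 * u + u ^ 2) := by
          apply mul_nonneg (by linarith)
          nlinarith
        nlinarith
    rw [abs_mul, abs_mul, abs_of_pos (Real.exp_pos _)]
    have hcos := Real.abs_cos_le_one (z * x)
    have he := Real.exp_pos (-x ^ 2 / 2)
    calc |Real.cos (z * x)| * (|x ^ 6 - 15 * x ^ 4 + 45 * x ^ 2 - 15| * Real.exp (-x ^ 2 / 2))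
        ≤ 1 * ((15 + x ^ 2) * Real.exp (-x ^ 2 / 2)) := by
          apply mul_le_mul hcos _ (by positivity) (by norm_num)
          exact mul_le_mul_of_nonneg_right hq he.le
      _ = _ := by ring

theorem pd_amp_j9281 (z : ℝ) (hz : 5 ≤ z) :
    |Real.sin z - Real.cos z / z - 2 * Real.cos z / z ^ 3
      - 2 * Real.sin z / z ^ 4 - 6 * Real.cos z / z ^ 5| ≤ 1.0204 := by
  have hz0 : 0 < z := by linarith
  set u := 1 / z with hu
  have hu0 : 0 < u := by positivity
  have hu1 : u ≤ 0.2 := by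
    rw [hu, div_le_iff₀ hz0]; linarith
  have e : Real.sin z - Real.cos z / z - 2 * Real.cos z / z ^ 3
      - 2 * Real.sin z / z ^ 4 - 6 * Real.cos z / z ^ 5 =
      (1 - 2 * u ^ 4) * Real.sin z - (u + 2 * u ^ 3 + 6 * u ^ 5) * Real.cos z := by
    rw [hu]; field_simp; ring
  rw [e]
  have hsc := Real.sin_sq_add_cos_sq z
  set s := Real.sin z
  set c := Real.cos z
  set A := 1 - 2 * u ^ 4 with hA
  set C := u + 2 * u ^ 3 + 6 * u ^ 5 with hC
  have hAC : A ^ 2 + C ^ 2 ≤ 1.0412 := by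
    have e1 : A ^ 2 + C ^ 2 = 1 + u ^ 2 + 16 * u ^ 6 + 28 * u ^ 8 + 36 * u ^ 10 := by
      rw [hA, hC]; ring
    rw [e1]
    have h2 : u ^ 2 ≤ 0.2 ^ 2 := pow_le_pow_left₀ hu0.le hu1 2
    have h6 : u ^ 6 ≤ 0.2 ^ 6 := pow_le_pow_left₀ hu0.le hu1 6
    have h8 : u ^ 8 ≤ 0.2 ^ 8 := pow_le_pow_left₀ hu0.le hu1 8
    have h10 : u ^ 10 ≤ 0.2 ^ 10 := pow_le_pow_left₀ hu0.le hu1 10
    norm_num at h2 h6 h8 h10 ⊢
    linarith
  apply abs_le_of_sq_le_sq _ (by norm_num)
  have h1 : (A * s - C * c) ^ 2 + (A * c + C * s) ^ 2 = (A ^ 2 + C ^ 2) * (s ^ 2 + c ^ 2) := by ring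
  rw [hsc] at h1
  have h2 : 0 ≤ (A * c + C * s) ^ 2 := sq_nonneg _
  norm_num at hAC ⊢
  linarith

theorem pd_large_j9281 (z : ℝ) (hz : 5 ≤ z) : |phi 1 z| ≤ 0.73 / z := by
  have hz0 : 0 < z := by linarith
  have hZ := pd_Zpos_j9281
  have hK : Kr 1 * Zr 1 = 2 * Real.exp (-1 / 2) := by
    unfold Kr
    rw [div_mul_cancel₀ _ hZ.ne']
    norm_num
  have hib := pd_ibp_j9281 z hz0.ne'
  have hrem := pd_rem_j9281 z
  have hamp := pd_amp_j9281 z hz
  have hKr := Kr_eq_mom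
  have hm := mom_1
  set I := ∫ x in (-1 : ℝ)..1, Real.cos (z * x) *
      ((x ^ 6 - 15 * x ^ 4 + 45 * x ^ 2 - 15) * Real.exp (-x ^ 2 / 2)) with hI
  set B := Real.sin z - Real.cos z / z - 2 * Real.cos z / z ^ 3
      - 2 * Real.sin z / z ^ 4 - 6 * Real.cos z / z ^ 5 with hB
  have e1 : Real.sin z / z - Real.cos z / z ^ 2 - 2 * Real.cos z / z ^ 4
      - 2 * Real.sin z / z ^ 5 - 6 * Real.cos z / z ^ 6 = B / z := by
    rw [hB]; field_simp
  rw [e1, ← hK] at hib
  have e2 : z * phi 1 z = Kr 1 * B - 1 / z ^ 5 * (I / Zr 1) := by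
    have : phi 1 z = (Kr 1 * Zr 1 * (B / z) - 1 / z ^ 6 * I) / Zr 1 := by
      rw [eq_div_iff hZ.ne']; linarith
    rw [this]
    field_simp
  have hI2 : |I / Zr 1| ≤ 15 + mom 1 := by
    rw [abs_div, abs_of_pos hZ, div_le_iff₀ hZ]
    exact hrem
  have hz5 : 1 / z ^ 5 ≤ 1 / 3125 := by
    apply one_div_le_one_div_of_le (by norm_num)
    calc (3125 : ℝ) = 5 ^ 5 := by norm_num
      _ ≤ z ^ 5 := pow_le_pow_left₀ (by norm_num) hz 5
  have hz5' : 0 ≤ 1 / z ^ 5 := by positivity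
  have hKpos : 0 ≤ Kr 1 := by rw [hKr]; linarith
  have hKle : Kr 1 ≤ 0.70888 := by rw [hKr]; linarith
  have hmain : |z * phi 1 z| ≤ 0.73 := by
    rw [e2]
    calc |Kr 1 * B - 1 / z ^ 5 * (I / Zr 1)| ≤ |Kr 1 * B| + |1 / z ^ 5 * (I / Zr 1)| := abs_sub _ _
      _ = Kr 1 * |B| + 1 / z ^ 5 * |I / Zr 1| := by
          rw [abs_mul, abs_mul, abs_of_nonneg hKpos, abs_of_nonneg hz5']
      _ ≤ 0.70888 * 1.0204 + 1 / 3125 * 15.2912 := by
          apply add_le_add
          · exact mul_le_mul hKle hamp (abs_nonneg _) (by norm_num)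
          · exact mul_le_mul hz5 (hI2.trans (by linarith)) (abs_nonneg _) (by norm_num)
      _ ≤ 0.73 := by norm_num
  rw [abs_mul, abs_of_pos hz0] at hmain
  rw [le_div_iff₀ hz0]
  linarith

theorem pd_piece_j9281 (a z la ua lb ub : ℝ) (h1 : a ≤ z) (h2 : z ≤ a + 0.25)
    (ha : la < phi 1 a ∧ phi 1 a < ua) (hb : lb < phi 1 (a + 0.25) ∧ phi 1 (a + 0.25) < ub)
    (m : ℝ) (hm1 : -m ≤ la) (hm2 : ua ≤ m) (hm3 : -m ≤ lb) (hm4 : ub ≤ m) (ha0 : 0 < a)
    (hfin : (m + 0.0023) * (a + 0.25) ≤ 0.73) : |phi 1 z| ≤ 0.73 / z := by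
  have hz0 : 0 < z := by linarith
  have h := pd_interp'_j9281 a z h1 h2
  have hm := mom_1
  set t := 4 * (z - a) with ht
  have ht0 : 0 ≤ t := by rw [ht]; linarith
  have ht1 : t ≤ 1 := by rw [ht]; norm_num at h2 ⊢; linarith
  have herr : mom 1 * ((z - a) * (a + 0.25 - z) / 2) ≤ 0.0023 := by
    have hs : (z - a) * (a + 0.25 - z) ≤ 0.015625 := by nlinarith [sq_nonneg (z - a - 0.125)]
    have hs0 : 0 ≤ (z - a) * (a + 0.25 - z) := mul_nonneg (by linarith) (by linarith)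
    nlinarith
  have h3 := h.trans herr
  have hlin1 : -m ≤ (1 - t) * phi 1 a + t * phi 1 (a + 0.25) := by
    nlinarith [mul_nonneg (sub_nonneg.2 ht1) (by linarith : (0:ℝ) ≤ phi 1 a + m),
      mul_nonneg ht0 (by linarith : (0:ℝ) ≤ phi 1 (a + 0.25) + m)]
  have hlin2 : (1 - t) * phi 1 a + t * phi 1 (a + 0.25) ≤ m := by
    nlinarith [mul_nonneg (sub_nonneg.2 ht1) (by linarith : (0:ℝ) ≤ m - phi 1 a),
      mul_nonneg ht0 (by linarith : (0:ℝ) ≤ m - phi 1 (a + 0.25))]
  have h4 : |phi 1 z| ≤ m + 0.0023 := by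
    rw [abs_le] at h3 ⊢
    constructor <;> linarith [h3.1, h3.2]
  rw [le_div_iff₀ hz0]
  have hm0 : 0 ≤ m + 0.0023 := (abs_nonneg _).trans h4
  calc |phi 1 z| * z ≤ (m + 0.0023) * (a + 0.25) := mul_le_mul h4 h2 hz0.le hm0
    _ ≤ 0.73 := hfin

theorem pd_last_j9281 (z : ℝ) (h1 : 4.75 ≤ z) (h2 : z ≤ 5) : |phi 1 z| ≤ 0.73 / z := by
  have hz0 : 0 < z := by linarith
  have h := pd_interp'_j9281 4.75 z h1 (by norm_num at h2 ⊢; linarith)
  have e5 : (4.75 : ℝ) + 0.25 = 5 := by norm_num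
  rw [e5] at h
  have hm := mom_1
  have t19 := phi_tab_19
  have t20 := phi_tab_20
  obtain ⟨s, hs⟩ : ∃ s, z = 4.75 + s := ⟨z - 4.75, by ring⟩
  have hs0 : 0 ≤ s := by linarith
  have hs1 : s ≤ 0.25 := by norm_num at h2 hs ⊢; linarith
  have e6 : z - 4.75 = s := by rw [hs]; ring
  have e7 : 5 - z = 0.25 - s := by rw [hs]; norm_num; ring
  rw [e6, e7] at h
  have herr : mom 1 * (s * (0.25 - s) / 2) ≤ 0.14557 * (s * (0.25 - s)) := by
    have : 0 ≤ s * (0.25 - s) := mul_nonneg hs0 (by linarith)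
    nlinarith
  have h3 := h.trans herr
  rw [abs_le] at h3
  have hup : phi 1 z ≤ 0 := by
    have a1 : (1 - 4 * s) * phi 1 4.75 + 4 * s * phi 1 5 ≤ -0.14407 := by
      nlinarith [mul_nonneg (by linarith : (0:ℝ) ≤ 1 - 4 * s) (by linarith : (0:ℝ) ≤ -0.14407 - phi 1 4.75),
        mul_nonneg (by linarith : (0:ℝ) ≤ 4 * s) (by linarith : (0:ℝ) ≤ -0.14407 - phi 1 5)]
    have a2 : s * (0.25 - s) ≤ 0.015625 := by nlinarith [sq_nonneg (s - 0.125)]
    linarith [h3.2]
  have hlo : -(0.149496 * (1 - 4 * s) + 0.144071 * (4 * s) + 0.14557 * (s * (0.25 - s))) ≤ phi 1 z := by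
    nlinarith [mul_nonneg (by linarith : (0:ℝ) ≤ 1 - 4 * s) (by linarith : (0:ℝ) ≤ phi 1 4.75 + 0.149496),
        mul_nonneg (by linarith : (0:ℝ) ≤ 4 * s) (by linarith : (0:ℝ) ≤ phi 1 5 + 0.144071), h3.1]
  rw [abs_of_nonpos hup, le_div_iff₀ hz0]
  have hpoly : (0.149496 * (1 - 4 * s) + 0.144071 * (4 * s) + 0.14557 * (s * (0.25 - s))) * (4.75 + s) ≤ 0.73 := by
    nlinarith [mul_nonneg hs0 hs0, mul_nonneg (mul_nonneg hs0 hs0) hs0, sq_nonneg (s - 0.15),
      mul_nonneg hs0 (sq_nonneg (s - 0.15))]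
  calc -phi 1 z * z ≤ (0.149496 * (1 - 4 * s) + 0.144071 * (4 * s) + 0.14557 * (s * (0.25 - s))) * z := by
        apply mul_le_mul_of_nonneg_right _ hz0.le
        linarith
    _ ≤ 0.73 := by rw [hs]; exact hpoly

theorem phi_decN (z : ℝ) (hz : 2.75 ≤ z) : |phi 1 z| ≤ 0.73 / z := by
  rcases le_total 5 z with h5 | h5
  · exact pd_large_j9281 z h5
  rcases le_total 4.75 z with h475 | h475
  · exact pd_last_j9281 z h475 h5
  have t11 := phi_tab_11
  have t12 := phi_tab_12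
  have t13 := phi_tab_13
  have t14 := phi_tab_14
  have t15 := phi_tab_15
  have t16 := phi_tab_16
  have t17 := phi_tab_17
  have t18 := phi_tab_18
  have t19 := phi_tab_19
  rcases le_total 4.5 z with h | h
  · exact pd_piece_j9281 4.5 z _ _ _ _ h (by norm_num at h475 ⊢; linarith) t18
      (by rw [show (4.5 : ℝ) + 0.25 = 4.75 by norm_num]; exact t19) 0.1495 (by norm_num) (by norm_num)
      (by norm_num) (by norm_num) (by norm_num) (by norm_num)
  rcases le_total 4.25 z with h' | h'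
  · exact pd_piece_j9281 4.25 z _ _ _ _ h' (by norm_num at h ⊢; linarith) t17
      (by rw [show (4.25 : ℝ) + 0.25 = 4.5 by norm_num]; exact t18) 0.1495 (by norm_num) (by norm_num)
      (by norm_num) (by norm_num) (by norm_num) (by norm_num)
  clear h
  rcases le_total 4 z with h | h
  · exact pd_piece_j9281 4 z _ _ _ _ h (by norm_num at h' ⊢; linarith) t16
      (by rw [show (4 : ℝ) + 0.25 = 4.25 by norm_num]; exact t17) 0.1495 (by norm_num) (by norm_num)
      (by norm_num) (by norm_num) (by norm_num) (by norm_num)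
  clear h'
  rcases le_total 3.75 z with h' | h'
  · exact pd_piece_j9281 3.75 z _ _ _ _ h' (by norm_num at h ⊢; linarith) t15
      (by rw [show (3.75 : ℝ) + 0.25 = 4 by norm_num]; exact t16) 0.1495 (by norm_num) (by norm_num)
      (by norm_num) (by norm_num) (by norm_num) (by norm_num)
  clear h
  rcases le_total 3.5 z with h | h
  · exact pd_piece_j9281 3.5 z _ _ _ _ h (by norm_num at h' ⊢; linarith) t14
      (by rw [show (3.5 : ℝ) + 0.25 = 3.75 by norm_num]; exact t15) 0.1495 (by norm_num) (by norm_num)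
      (by norm_num) (by norm_num) (by norm_num) (by norm_num)
  clear h'
  rcases le_total 3.25 z with h' | h'
  · exact pd_piece_j9281 3.25 z _ _ _ _ h' (by norm_num at h ⊢; linarith) t13
      (by rw [show (3.25 : ℝ) + 0.25 = 3.5 by norm_num]; exact t14) 0.1495 (by norm_num) (by norm_num)
      (by norm_num) (by norm_num) (by norm_num) (by norm_num)
  clear h
  rcases le_total 3 z with h | h
  · exact pd_piece_j9281 3 z _ _ _ _ h (by norm_num at h' ⊢; linarith) t12
      (by rw [show (3 : ℝ) + 0.25 = 3.25 by norm_num]; exact t13) 0.1495 (by norm_num) (by norm_num)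
      (by norm_num) (by norm_num) (by norm_num) (by norm_num)
  clear h'
  · exact pd_piece_j9281 2.75 z _ _ _ _ hz (by norm_num at h ⊢; linarith) t11
      (by rw [show (2.75 : ℝ) + 0.25 = 3 by norm_num]; exact t12) 0.2296 (by norm_num) (by norm_num)
      (by norm_num) (by norm_num) (by norm_num) (by norm_num)



end Pool.Agent.Helper82.GC
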