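import Pool.Agent.Helper82.GC.J8960
import Pool.Agent.Helper82.GC.J8962

set_option autoImplicit false

open MeasureTheory Set

namespace Pool.Agent.Helper82.GC


/-! reflection -/

/-- evaluation of a list of integer coefficients -/
noncomputable def ev9283_j9283 : List ℤ → ℝ → ℝ
  | [], _ => 0
  | c :: l, x => c + x * ev9283_j9283 l x

/-- multiplication by `a + b u` -/
def ml9283_j9283 (a b : ℤ) : ℤ → List ℤ → List ℤ
  | prev, [] => [b * prev]
  | prev, c :: l => (a * c + b * prev) :: ml9283_j9283 a b c l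

def hd9283_j9283 (c : ℤ) : List ℤ → List ℤ
  | [] => [c]
  | d :: r => (c + d) :: r

def comp9283_j9283 (a b : ℤ) : List ℤ → List ℤ
  | [] => []
  | c :: l => hd9283_j9283 c (ml9283_j9283 a b 0 (comp9283_j9283 a b l))

def lb9283_j9283 : List ℤ → ℤ
  | [] => 0
  | c :: l => c + min 0 (lb9283_j9283 l)

def scl9283_j9283 (S : ℤ) : List ℤ → List ℤ
  | [] => []
  | c :: l => (c * S ^ (l.length + 1)) :: scl9283_j9283 S l

def neg9283_j9283 : List ℤ → List ℤ
  | [] => []
  | c :: l => (-c) :: neg9283_j9283 l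

def sp9283_j9283 : List ℤ → List ℤ
  | [] => []
  | c :: l => c :: 0 :: sp9283_j9283 l

def chk9283_j9283 (P : List ℤ) : ℤ → List ℤ → Bool
  | _, [] => true
  | a, b :: l => decide (a < b) && decide (0 ≤ lb9283_j9283 (comp9283_j9283 a (b - a) P)) && chk9283_j9283 P b l

def lst9283_j9283 : ℤ → List ℤ → ℤ
  | a, [] => a
  | _, b :: l => lst9283_j9283 b l

theorem ml_ev9283_j9283 (a b : ℤ) (u : ℝ) (l : List ℤ) (prev : ℤ) :
    ev9283_j9283 (ml9283_j9283 a b prev l) u = b * prev + (a + b * u) * ev9283_j9283 l u := by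
  induction l generalizing prev with
  | nil => simp [ml9283_j9283, ev9283_j9283]
  | cons c l ih =>
    simp only [ml9283_j9283, ev9283_j9283, ih]
    push_cast
    ring

theorem hd_ev9283_j9283 (c : ℤ) (l : List ℤ) (u : ℝ) : ev9283_j9283 (hd9283_j9283 c l) u = c + ev9283_j9283 l u := by
  cases l with
  | nil => simp [hd9283_j9283, ev9283_j9283]
  | cons d r =>
    simp only [hd9283_j9283, ev9283_j9283]
    push_cast
    ring

theorem comp_ev9283_j9283 (a b : ℤ) (u : ℝ) (l : List ℤ) :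
    ev9283_j9283 (comp9283_j9283 a b l) u = ev9283_j9283 l (a + b * u) := by
  induction l with
  | nil => simp [comp9283_j9283, ev9283_j9283]
  | cons c l ih =>
    simp only [comp9283_j9283, ev9283_j9283, hd_ev9283_j9283, ml_ev9283_j9283, ih]
    push_cast
    ring

theorem lb_le9283_j9283 (l : List ℤ) (u : ℝ) (h0 : 0 ≤ u) (h1 : u ≤ 1) :
    (lb9283_j9283 l : ℝ) ≤ ev9283_j9283 l u := by
  induction l with
  | nil => simp [lb9283_j9283, ev9283_j9283]
  | cons c l ih =>
    simp only [lb9283_j9283, ev9283_j9283]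
    push_cast
    have : min (0 : ℝ) (lb9283_j9283 l) ≤ u * ev9283_j9283 l u := by
      rcases le_total 0 (ev9283_j9283 l u) with h | h
      · exact (min_le_left _ _).trans (mul_nonneg h0 h)
      · refine (min_le_right _ _).trans (ih.trans ?_)
        nlinarith
    linarith

theorem scl_ev9283_j9283 (S : ℤ) (l : List ℤ) (w : ℝ) :
    ev9283_j9283 (scl9283_j9283 S l) (S * w) = (S : ℝ) ^ l.length * ev9283_j9283 l w := by
  induction l with
  | nil => simp [scl9283_j9283, ev9283_j9283]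
  | cons c l ih =>
    simp only [scl9283_j9283, ev9283_j9283, ih, List.length_cons]
    push_cast
    ring

theorem neg_ev9283_j9283 (l : List ℤ) (w : ℝ) : ev9283_j9283 (neg9283_j9283 l) w = - ev9283_j9283 l w := by
  induction l with
  | nil => simp [neg9283_j9283, ev9283_j9283]
  | cons c l ih =>
    simp only [neg9283_j9283, ev9283_j9283, ih]
    push_cast
    ring

theorem sp_ev9283_j9283 (l : List ℤ) (z : ℝ) : ev9283_j9283 (sp9283_j9283 l) z = ev9283_j9283 l (z ^ 2) := by
  induction l with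
  | nil => simp [sp9283_j9283, ev9283_j9283]
  | cons c l ih =>
    simp only [sp9283_j9283, ev9283_j9283, ih]
    push_cast
    ring

theorem chk_sound9283_j9283 (P : List ℤ) (l : List ℤ) (a : ℤ) (h : chk9283_j9283 P a l = true) (x : ℝ)
    (hx : (a : ℝ) ≤ x) (hx2 : x < lst9283_j9283 a l) : 0 ≤ ev9283_j9283 P x := by
  induction l generalizing a with
  | nil => exact absurd hx2 (not_lt.2 hx)
  | cons b l ih =>
    simp only [chk9283_j9283, Bool.and_eq_true, decide_eq_true_eq] at h
    obtain ⟨⟨hab, hlb⟩, hrec⟩ := h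
    rcases le_or_gt x b with hxb | hxb
    · have hab' : (0 : ℝ) < (b : ℝ) - a := by
        have : (a : ℝ) < b := by exact_mod_cast hab
        linarith
      have h1 := lb_le9283_j9283 (comp9283_j9283 a (b - a) P) ((x - a) / (b - a))
        (div_nonneg (by linarith) hab'.le) ((div_le_one hab').2 (by linarith))
      rw [comp_ev9283_j9283] at h1
      have e : (a : ℝ) + ((b - a : ℤ) : ℝ) * ((x - a) / (b - a)) = x := by
        push_cast
        field_simp
        ring
      rw [e] at h1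
      refine le_trans ?_ h1
      exact_mod_cast hlb
    · exact ih b hrec hxb.le hx2

def D9283_j9283 : ℤ := 868331761881188649551819440128000000000000000000
def PU9283_j9283 : List ℤ := [252793166478145436699833639028710535331840000000, -23806817334223857398513242750047926353920000000, 822216038530604242528429011684569382912000000, -14905332727241610244894999151728656384000000, 166907234156432376303149856453033984000000, -1270183806225822621564465073540300800000, 6999037667221299797134859363942400000, -29218819687671049670436683120640000, 95615781348030107803994234880000, -251869579354920126669189120000, 545578320228973368809472000, -988934219091042352128000, 1522125235294077173760, -2014122674003489280, 2315765964885120, -2335008811872, 2211182588]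
def PL9283_j9283 : List ℤ := [-252793166469462119081021752533192340930560000000, 23806817335671077001648557165967625420800000000, -822216038458243262371663290888584429568000000, 14905332728964490724817992504014012416000000, -166907234132503480748663837671292928000000, 1270183806443358035696156153374310400000, -6999037665826842014239403723980800000, 29218819694311324827081709977600000, -95615781323617331492799283200000, 251869579426302513544028160000, -545578320059015304821760000, 988934219426927854080000, -1522125234734268003840, 2014122674800938240, -2315765963903040, 2335008812928, 2211182588]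
def CU9283_j9283 : List ℤ := [47613634671342154003297114331935250841600000000, -3288864153832973049486653163554337718272000000, 89431996373786944348907955024084074496000000, -1335257873060027845989310701370343424000000, 12701838064433580356961561533743104000000, -83988451989922104170872844687769600000, 409063475720358547579143939686400000, -1529852501177877303884788531200000, 4533652429673445243792506880000, -10911566401180306096435200000, 21756552827392412789760000, -36531005633622432092160, 52367189544824394240, -64841446989285120, 70050264387840, 70757842816]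
def CL9283_j9283 : List ℤ := [-47613634668447714797026485500095852707840000000, 3288864154122416970113716046738277531648000000, -89431996363449661469369994910371938304000000, 1335257873251459010425198851624271872000000, -12701838062258226215644650735403008000000, 83988452006655597565618312367308800000, -409063475627394695386113563688960000, 1529852501568481724863907758080000, -4533652428388562280045404160000, 10911566404579467376189440000, -21756552820002931746816000, 36531005647057852170240, -52367189524090721280, 64841447016783360, -70050264356160, 70757842816]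

theorem psi_bds9283_j9283 (z : ℝ) : (D9283_j9283 : ℝ) * psi 1 z ≤ ev9283_j9283 PU9283_j9283 (z ^ 2) ∧
    -((D9283_j9283 : ℝ) * psi 1 z) ≤ ev9283_j9283 PL9283_j9283 (z ^ 2) := by
  have h := psi_taylor 16 z
  have hm := mom_succ_le 16
  have hpow : ∀ k : ℕ, z ^ (2 * k) = (z ^ 2) ^ k := fun k => pow_mul z 2 k
  have hw : 0 ≤ z ^ 2 := sq_nonneg z
  simp only [Finset.sum_range_succ, Finset.sum_range_zero, hpow] at h
  generalize z ^ 2 = w at *
  rw [abs_le] at h
  obtain ⟨h1, h2⟩ := h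
  norm_num [Nat.factorial] at h1 h2
  have h17 := mul_nonneg (sub_nonneg.2 (hm.trans mom_16.2.le)) (pow_nonneg hw 16)
  have a0 := mul_nonneg (sub_nonneg.2 mom_1.1.le) (pow_nonneg hw 0)
  have b0 := mul_nonneg (sub_nonneg.2 mom_1.2.le) (pow_nonneg hw 0)
  have a1 := mul_nonneg (sub_nonneg.2 mom_2.1.le) (pow_nonneg hw 1)
  have b1 := mul_nonneg (sub_nonneg.2 mom_2.2.le) (pow_nonneg hw 1)
  have a2 := mul_nonneg (sub_nonneg.2 mom_3.1.le) (pow_nonneg hw 2)
  have b2 := mul_nonneg (sub_nonneg.2 mom_3.2.le) (pow_nonneg hw 2)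
  have a3 := mul_nonneg (sub_nonneg.2 mom_4.1.le) (pow_nonneg hw 3)
  have b3 := mul_nonneg (sub_nonneg.2 mom_4.2.le) (pow_nonneg hw 3)
  have a4 := mul_nonneg (sub_nonneg.2 mom_5.1.le) (pow_nonneg hw 4)
  have b4 := mul_nonneg (sub_nonneg.2 mom_5.2.le) (pow_nonneg hw 4)
  have a5 := mul_nonneg (sub_nonneg.2 mom_6.1.le) (pow_nonneg hw 5)
  have b5 := mul_nonneg (sub_nonneg.2 mom_6.2.le) (pow_nonneg hw 5)
  have a6 := mul_nonneg (sub_nonneg.2 mom_7.1.le) (pow_nonneg hw 6)
  have b6 := mul_nonneg (sub_nonneg.2 mom_7.2.le) (pow_nonneg hw 6)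
  have a7 := mul_nonneg (sub_nonneg.2 mom_8.1.le) (pow_nonneg hw 7)
  have b7 := mul_nonneg (sub_nonneg.2 mom_8.2.le) (pow_nonneg hw 7)
  have a8 := mul_nonneg (sub_nonneg.2 mom_9.1.le) (pow_nonneg hw 8)
  have b8 := mul_nonneg (sub_nonneg.2 mom_9.2.le) (pow_nonneg hw 8)
  have a9 := mul_nonneg (sub_nonneg.2 mom_10.1.le) (pow_nonneg hw 9)
  have b9 := mul_nonneg (sub_nonneg.2 mom_10.2.le) (pow_nonneg hw 9)
  have a10 := mul_nonneg (sub_nonneg.2 mom_11.1.le) (pow_nonneg hw 10)
  have b10 := mul_nonneg (sub_nonneg.2 mom_11.2.le) (pow_nonneg hw 10)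
  have a11 := mul_nonneg (sub_nonneg.2 mom_12.1.le) (pow_nonneg hw 11)
  have b11 := mul_nonneg (sub_nonneg.2 mom_12.2.le) (pow_nonneg hw 11)
  have a12 := mul_nonneg (sub_nonneg.2 mom_13.1.le) (pow_nonneg hw 12)
  have b12 := mul_nonneg (sub_nonneg.2 mom_13.2.le) (pow_nonneg hw 12)
  have a13 := mul_nonneg (sub_nonneg.2 mom_14.1.le) (pow_nonneg hw 13)
  have b13 := mul_nonneg (sub_nonneg.2 mom_14.2.le) (pow_nonneg hw 13)
  have a14 := mul_nonneg (sub_nonneg.2 mom_15.1.le) (pow_nonneg hw 14)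
  have b14 := mul_nonneg (sub_nonneg.2 mom_15.2.le) (pow_nonneg hw 14)
  have a15 := mul_nonneg (sub_nonneg.2 mom_16.1.le) (pow_nonneg hw 15)
  have b15 := mul_nonneg (sub_nonneg.2 mom_16.2.le) (pow_nonneg hw 15)
  constructor
  · simp only [PU9283_j9283, ev9283_j9283, D9283_j9283]
    push_cast
    linarith
  · simp only [PL9283_j9283, ev9283_j9283, D9283_j9283]
    push_cast
    linarith

theorem chi_bds9283_j9283 (z : ℝ) : (D9283_j9283 : ℝ) * chi z ≤ ev9283_j9283 CU9283_j9283 (z ^ 2) ∧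
    -((D9283_j9283 : ℝ) * chi z) ≤ ev9283_j9283 CL9283_j9283 (z ^ 2) := by
  have h := chi_taylor 15 z
  have hm := mom_succ_le 16
  have hpow : ∀ k : ℕ, z ^ (2 * k) = (z ^ 2) ^ k := fun k => pow_mul z 2 k
  have hw : 0 ≤ z ^ 2 := sq_nonneg z
  simp only [Finset.sum_range_succ, Finset.sum_range_zero, hpow] at h
  generalize z ^ 2 = w at *
  rw [abs_le] at h
  obtain ⟨h1, h2⟩ := h
  norm_num [Nat.factorial] at h1 h2
  have h17 := mul_nonneg (sub_nonneg.2 (hm.trans mom_16.2.le)) (pow_nonneg hw 15)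
  have a0 := mul_nonneg (sub_nonneg.2 mom_2.1.le) (pow_nonneg hw 0)
  have b0 := mul_nonneg (sub_nonneg.2 mom_2.2.le) (pow_nonneg hw 0)
  have a1 := mul_nonneg (sub_nonneg.2 mom_3.1.le) (pow_nonneg hw 1)
  have b1 := mul_nonneg (sub_nonneg.2 mom_3.2.le) (pow_nonneg hw 1)
  have a2 := mul_nonneg (sub_nonneg.2 mom_4.1.le) (pow_nonneg hw 2)
  have b2 := mul_nonneg (sub_nonneg.2 mom_4.2.le) (pow_nonneg hw 2)
  have a3 := mul_nonneg (sub_nonneg.2 mom_5.1.le) (pow_nonneg hw 3)
  have b3 := mul_nonneg (sub_nonneg.2 mom_5.2.le) (pow_nonneg hw 3)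
  have a4 := mul_nonneg (sub_nonneg.2 mom_6.1.le) (pow_nonneg hw 4)
  have b4 := mul_nonneg (sub_nonneg.2 mom_6.2.le) (pow_nonneg hw 4)
  have a5 := mul_nonneg (sub_nonneg.2 mom_7.1.le) (pow_nonneg hw 5)
  have b5 := mul_nonneg (sub_nonneg.2 mom_7.2.le) (pow_nonneg hw 5)
  have a6 := mul_nonneg (sub_nonneg.2 mom_8.1.le) (pow_nonneg hw 6)
  have b6 := mul_nonneg (sub_nonneg.2 mom_8.2.le) (pow_nonneg hw 6)
  have a7 := mul_nonneg (sub_nonneg.2 mom_9.1.le) (pow_nonneg hw 7)
  have b7 := mul_nonneg (sub_nonneg.2 mom_9.2.le) (pow_nonneg hw 7)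
  have a8 := mul_nonneg (sub_nonneg.2 mom_10.1.le) (pow_nonneg hw 8)
  have b8 := mul_nonneg (sub_nonneg.2 mom_10.2.le) (pow_nonneg hw 8)
  have a9 := mul_nonneg (sub_nonneg.2 mom_11.1.le) (pow_nonneg hw 9)
  have b9 := mul_nonneg (sub_nonneg.2 mom_11.2.le) (pow_nonneg hw 9)
  have a10 := mul_nonneg (sub_nonneg.2 mom_12.1.le) (pow_nonneg hw 10)
  have b10 := mul_nonneg (sub_nonneg.2 mom_12.2.le) (pow_nonneg hw 10)
  have a11 := mul_nonneg (sub_nonneg.2 mom_13.1.le) (pow_nonneg hw 11)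
  have b11 := mul_nonneg (sub_nonneg.2 mom_13.2.le) (pow_nonneg hw 11)
  have a12 := mul_nonneg (sub_nonneg.2 mom_14.1.le) (pow_nonneg hw 12)
  have b12 := mul_nonneg (sub_nonneg.2 mom_14.2.le) (pow_nonneg hw 12)
  have a13 := mul_nonneg (sub_nonneg.2 mom_15.1.le) (pow_nonneg hw 13)
  have b13 := mul_nonneg (sub_nonneg.2 mom_15.2.le) (pow_nonneg hw 13)
  have a14 := mul_nonneg (sub_nonneg.2 mom_16.1.le) (pow_nonneg hw 14)
  have b14 := mul_nonneg (sub_nonneg.2 mom_16.2.le) (pow_nonneg hw 14)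
  constructor
  · simp only [CU9283_j9283, ev9283_j9283, D9283_j9283]
    push_cast
    linarith
  · simp only [CL9283_j9283, ev9283_j9283, D9283_j9283]
    push_cast
    linarith

theorem pu_chk9283_j9283 : chk9283_j9283 (scl9283_j9283 4 (651248821410891487163864580096000000000000000000 :: neg9283_j9283 PU9283_j9283)) 56 [147, 252, 312, 337, 356, 484] = true := by
  decide +kernel

theorem pl_chk9283_j9283 : chk9283_j9283 (scl9283_j9283 4 (651248821410891487163864580096000000000000000000 :: neg9283_j9283 PL9283_j9283)) 56 [106, 131, 144, 151, 155, 159, 320, 484] = true := by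
  decide +kernel

theorem cu_chk9283_j9283 : chk9283_j9283 (scl9283_j9283 16 (846623467834158933313023954124800000000000000000 :: 0 :: 0 :: neg9283_j9283 (sp9283_j9283 CU9283_j9283))) 32 [52, 58, 61, 63, 68, 126, 157, 172, 192] = true := by
  decide +kernel

theorem cl_chk9283_j9283 : chk9283_j9283 (scl9283_j9283 16 (846623467834158933313023954124800000000000000000 :: 0 :: 0 :: neg9283_j9283 (sp9283_j9283 CL9283_j9283))) 32 [85, 110, 123, 180, 192] = true := by
  decide +kernel

theorem psi_mid9283_j9283 (z : ℝ) (hz : 3.75 ≤ z) (hz2 : z < 11) : |psi 1 z| ≤ 0.75 / z ^ 2 := by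
  obtain ⟨h1, h2⟩ := psi_bds9283_j9283 z
  have hw1 : (14 : ℝ) ≤ z ^ 2 := by nlinarith
  have hw2 : z ^ 2 < 121 := by nlinarith
  have hw0 : 0 < z ^ 2 := by linarith
  generalize z ^ 2 = w at *
  have c1 := chk_sound9283_j9283 _ _ _ pu_chk9283_j9283 (((4 : ℤ) : ℝ) * w) (by push_cast; linarith)
    (by simp only [lst9283_j9283]; push_cast; linarith)
  have c2 := chk_sound9283_j9283 _ _ _ pl_chk9283_j9283 (((4 : ℤ) : ℝ) * w) (by push_cast; linarith)
    (by simp only [lst9283_j9283]; push_cast; linarith)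
  rw [scl_ev9283_j9283] at c1 c2
  have p1 : ∀ n : ℕ, (0 : ℝ) < ((4 : ℤ) : ℝ) ^ n := fun n => by positivity
  have c1' := nonneg_of_mul_nonneg_right c1 (p1 _)
  have c2' := nonneg_of_mul_nonneg_right c2 (p1 _)
  simp only [ev9283_j9283, neg_ev9283_j9283] at c1' c2'
  have hD : (D9283_j9283 : ℝ) = 868331761881188649551819440128000000000000000000 := by
    simp [D9283_j9283]
  rw [hD] at h1 h2
  have m1 := mul_le_mul_of_nonneg_left h1 hw0.le
  have m2 := mul_le_mul_of_nonneg_left h2 hw0.le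
  rw [le_div_iff₀ hw0]
  push_cast at c1' c2'
  have e : |psi 1 z| * w = |psi 1 z * w| := by rw [abs_mul, abs_of_pos hw0]
  rw [e, abs_le]
  constructor <;> linarith

theorem chi_mid9283_j9283 (z : ℝ) (hz : 2 ≤ z) (hz2 : z < 12) : |chi z| ≤ 0.975 / z ^ 3 := by
  obtain ⟨h1, h2⟩ := chi_bds9283_j9283 z
  have hz0 : 0 < z ^ 3 := by positivity
  have c1 := chk_sound9283_j9283 _ _ _ cu_chk9283_j9283 (((16 : ℤ) : ℝ) * z) (by push_cast; linarith)
    (by simp only [lst9283_j9283]; push_cast; linarith)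
  have c2 := chk_sound9283_j9283 _ _ _ cl_chk9283_j9283 (((16 : ℤ) : ℝ) * z) (by push_cast; linarith)
    (by simp only [lst9283_j9283]; push_cast; linarith)
  rw [scl_ev9283_j9283] at c1 c2
  have p1 : ∀ n : ℕ, (0 : ℝ) < ((16 : ℤ) : ℝ) ^ n := fun n => by positivity
  have c1' := nonneg_of_mul_nonneg_right c1 (p1 _)
  have c2' := nonneg_of_mul_nonneg_right c2 (p1 _)
  simp only [ev9283_j9283, neg_ev9283_j9283, sp_ev9283_j9283] at c1' c2'
  have hD : (D9283_j9283 : ℝ) = 868331761881188649551819440128000000000000000000 := by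
    simp [D9283_j9283]
  rw [hD] at h1 h2
  have m1 := mul_le_mul_of_nonneg_left h1 hz0.le
  have m2 := mul_le_mul_of_nonneg_left h2 hz0.le
  rw [le_div_iff₀ hz0]
  push_cast at c1' c2'
  have e : |chi z| * z ^ 3 = |chi z * z ^ 3| := by rw [abs_mul, abs_of_pos hz0]
  rw [e, abs_le]
  constructor <;> linarith

theorem w_deriv9283_j9283 (x : ℝ) :
    HasDerivAt (fun x : ℝ => Real.exp (-x ^ 2 / 2)) (-x * Real.exp (-x ^ 2 / 2)) x := by
  have h1 : HasDerivAt (fun x : ℝ => -x ^ 2 / 2) (-x) x := by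
    refine HasDerivAt.congr_deriv (((hasDerivAt_pow 2 x).neg).div_const 2) ?_
    norm_num
    ring
  have := h1.exp
  convert this using 1
  ring

theorem F_deriv9283_j9283 (z : ℝ) (hz : z ≠ 0) (x : ℝ) :
    HasDerivAt (fun x : ℝ => (Real.sin (z * x) / z + Real.cos (z * x) * (-x) / z ^ 2 -
      Real.sin (z * x) * (x ^ 2 - 1) / z ^ 3 - Real.cos (z * x) * (3 * x - x ^ 3) / z ^ 4) *
        Real.exp (-x ^ 2 / 2))
      (Real.cos (z * x) * Real.exp (-x ^ 2 / 2) -
        Real.cos (z * x) * ((x ^ 4 - 6 * x ^ 2 + 3) * Real.exp (-x ^ 2 / 2)) / z ^ 4) x := by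
  have hm : HasDerivAt (fun x : ℝ => z * x) z x := by
    simpa using (hasDerivAt_id x).const_mul z
  have hs : HasDerivAt (fun x : ℝ => Real.sin (z * x)) (Real.cos (z * x) * z) x := hm.sin
  have hc : HasDerivAt (fun x : ℝ => Real.cos (z * x)) (-Real.sin (z * x) * z) x := hm.cos
  have h1 : HasDerivAt (fun x : ℝ => -x) (-1) x := (hasDerivAt_id x).neg
  have h2 : HasDerivAt (fun x : ℝ => x ^ 2 - 1) (2 * x) x := by
    simpa using (hasDerivAt_pow 2 x).sub_const 1
  have h3 : HasDerivAt (fun x : ℝ => 3 * x - x ^ 3) (3 - 3 * x ^ 2) x := by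
    refine HasDerivAt.congr_deriv (((hasDerivAt_id x).const_mul 3).sub (hasDerivAt_pow 3 x)) ?_
    norm_num
  refine HasDerivAt.congr_deriv (((((hs.div_const z).add ((hc.mul h1).div_const (z ^ 2))).sub
    ((hs.mul h2).div_const (z ^ 3))).sub ((hc.mul h3).div_const (z ^ 4))).mul
    (w_deriv9283_j9283 x)) ?_
  simp only [Pi.add_apply, Pi.sub_apply, Pi.mul_apply]
  field_simp
  ring

theorem G_formula9283_j9283 (z : ℝ) (hz : z ≠ 0) :
    G 1 z = 2 * Real.exp (-1 / 2) * (Real.sin z / z - Real.cos z / z ^ 2 - 2 * Real.cos z / z ^ 4) +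
      (∫ x in (-1 : ℝ)..1, Real.cos (z * x) * ((x ^ 4 - 6 * x ^ 2 + 3) * Real.exp (-x ^ 2 / 2))) /
        z ^ 4 := by
  have hc1 : Continuous fun x : ℝ => Real.cos (z * x) * Real.exp (-x ^ 2 / 2) := by fun_prop
  have hc2 : Continuous fun x : ℝ =>
    Real.cos (z * x) * ((x ^ 4 - 6 * x ^ 2 + 3) * Real.exp (-x ^ 2 / 2)) := by fun_prop
  have h := intervalIntegral.integral_eq_sub_of_hasDerivAt (a := (-1 : ℝ)) (b := 1)
    (fun x _ => F_deriv9283_j9283 z hz x) ((hc1.sub (hc2.div_const _)).intervalIntegrable _ _)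
  rw [intervalIntegral.integral_sub (hc1.intervalIntegrable _ _)
    ((hc2.div_const _).intervalIntegrable _ _), intervalIntegral.integral_div] at h
  unfold G
  have h' := sub_eq_iff_eq_add.1 h
  rw [h']
  congr 1
  simp only [mul_one, mul_neg, Real.sin_neg, Real.cos_neg]
  norm_num
  ring

theorem R_bound9283_j9283 (z : ℝ) :
    |∫ x in (-1 : ℝ)..1, Real.cos (z * x) * ((x ^ 4 - 6 * x ^ 2 + 3) * Real.exp (-x ^ 2 / 2))| ≤
      3 * Zr 1 := by
  have hc3 : Continuous fun x : ℝ => 3 * Real.exp (-x ^ 2 / 2) := by fun_prop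
  have h := intervalIntegral.norm_integral_le_of_norm_le (a := (-1 : ℝ)) (b := 1)
    (f := fun x => Real.cos (z * x) * ((x ^ 4 - 6 * x ^ 2 + 3) * Real.exp (-x ^ 2 / 2)))
    (g := fun x => 3 * Real.exp (-x ^ 2 / 2)) (μ := volume) (by norm_num)
    (Filter.Eventually.of_forall fun x hx => by
      rw [Real.norm_eq_abs, abs_mul, abs_mul, abs_of_pos (Real.exp_pos _)]
      have hc := Real.abs_cos_le_one (z * x)
      have hx2 : x ^ 2 ≤ 1 := by nlinarith [hx.1, hx.2]
      have hx0 := sq_nonneg x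
      have hp : |x ^ 4 - 6 * x ^ 2 + 3| ≤ 3 := by
        rw [abs_le]
        have : x ^ 4 = x ^ 2 * x ^ 2 := by ring
        rw [this]
        constructor <;> nlinarith
      have he := Real.exp_pos (-x ^ 2 / 2)
      calc |Real.cos (z * x)| * (|x ^ 4 - 6 * x ^ 2 + 3| * Real.exp (-x ^ 2 / 2))
          ≤ 1 * (3 * Real.exp (-x ^ 2 / 2)) := by gcongr
        _ = _ := one_mul _)
    (hc3.intervalIntegrable _ _)
  rw [Real.norm_eq_abs, intervalIntegral.integral_const_mul] at h
  exact h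

theorem Zr_pos9283_j9283 : 0 < Zr 1 := by linarith [Zr_one_bounds.1]

theorem exp_eq9283_j9283 : 2 * Real.exp (-1 / 2) = Kr 1 * Zr 1 := by
  have h := Zr_pos9283_j9283
  unfold Kr
  norm_num
  field_simp

theorem psi_asy9283_j9283 (z : ℝ) (hz : 0 < z) :
    |psi 1 z + Kr 1 * (Real.cos z / z ^ 2 + 2 * Real.cos z / z ^ 4)| ≤ 3 / z ^ 4 := by
  have hZ := Zr_pos9283_j9283
  have h := G_formula9283_j9283 z hz.ne'
  have hR := R_bound9283_j9283 z
  generalize (∫ x in (-1 : ℝ)..1,
    Real.cos (z * x) * ((x ^ 4 - 6 * x ^ 2 + 3) * Real.exp (-x ^ 2 / 2))) = R at *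
  rw [exp_eq9283_j9283] at h
  have hsinc : Real.sinc (1 * z) = Real.sin z / z := by
    rw [one_mul, Real.sinc_of_ne_zero hz.ne']
  have e : psi 1 z + Kr 1 * (Real.cos z / z ^ 2 + 2 * Real.cos z / z ^ 4) = R / (z ^ 4 * Zr 1) := by
    unfold psi phi
    rw [h, hsinc]
    field_simp
    ring
  rw [e, abs_div, abs_of_pos (by positivity : 0 < z ^ 4 * Zr 1), div_le_div_iff₀ (by positivity)
    (by positivity)]
  have := mul_le_mul_of_nonneg_right hR (by positivity : 0 ≤ z ^ 4)
  linarith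

theorem chi_asy9283_j9283 (z : ℝ) (hz : 0 < z) :
    |chi z + Kr 1 * (Real.sin z / z ^ 3 + 2 * Real.cos z / z ^ 4)| ≤ 3 / z ^ 4 := by
  have h := psi_asy9283_j9283 z hz
  have e : chi z + Kr 1 * (Real.sin z / z ^ 3 + 2 * Real.cos z / z ^ 4) =
      psi 1 z + Kr 1 * (Real.cos z / z ^ 2 + 2 * Real.cos z / z ^ 4) := by
    unfold chi
    rw [if_neg hz.ne']
    field_simp
    ring
  rwa [e]

theorem Kr_bd9283_j9283 : 0 < Kr 1 ∧ Kr 1 < 0.7089 := by
  rw [Kr_eq_mom]
  have := mom_1
  constructor <;> linarith [this.1, this.2]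

theorem psi_large9283_j9283 (z : ℝ) (hz : 11 ≤ z) : |psi 1 z| ≤ 0.75 / z ^ 2 := by
  have hz0 : 0 < z := by linarith
  have h := psi_asy9283_j9283 z hz0
  obtain ⟨hK0, hK⟩ := Kr_bd9283_j9283
  have hc := Real.abs_cos_le_one z
  have h1 : |Kr 1 * (Real.cos z / z ^ 2 + 2 * Real.cos z / z ^ 4)| ≤
      0.7089 * (1 / z ^ 2 + 2 / z ^ 4) := by
    have e : Real.cos z / z ^ 2 + 2 * Real.cos z / z ^ 4 =
      Real.cos z * (1 / z ^ 2 + 2 / z ^ 4) := by ring
    rw [e, abs_mul, abs_mul, abs_of_pos hK0, abs_of_pos (by positivity :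
      0 < 1 / z ^ 2 + 2 / z ^ 4)]
    have hp : 0 < 1 / z ^ 2 + 2 / z ^ 4 := by positivity
    calc Kr 1 * (|Real.cos z| * (1 / z ^ 2 + 2 / z ^ 4)) ≤
        0.7089 * (1 * (1 / z ^ 2 + 2 / z ^ 4)) := by gcongr
      _ = _ := by ring
  have h2 : |psi 1 z| ≤ 3 / z ^ 4 + 0.7089 * (1 / z ^ 2 + 2 / z ^ 4) := by
    have e : psi 1 z = (psi 1 z + Kr 1 * (Real.cos z / z ^ 2 + 2 * Real.cos z / z ^ 4)) -
      Kr 1 * (Real.cos z / z ^ 2 + 2 * Real.cos z / z ^ 4) := by ring
    rw [e]
    exact (abs_sub _ _).trans (add_le_add h h1)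
  refine h2.trans ?_
  have h4 : z ^ 4 = z ^ 2 * z ^ 2 := by ring
  have hw : 121 ≤ z ^ 2 := by nlinarith
  rw [h4]
  have hw0 : 0 < z ^ 2 := by positivity
  generalize z ^ 2 = w at *
  rw [← sub_nonneg]
  have e : 0.75 / w - (3 / (w * w) + 0.7089 * (1 / w + 2 / (w * w))) =
      (0.75 * w - 3 - 0.7089 * w - 0.7089 * 2) / (w * w) := by
    field_simp
    ring
  rw [e]
  apply div_nonneg _ (by positivity)
  norm_num
  linarith

theorem chi_large9283_j9283 (z : ℝ) (hz : 12 ≤ z) : |chi z| ≤ 0.975 / z ^ 3 := by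
  have hz0 : 0 < z := by linarith
  have h := chi_asy9283_j9283 z hz0
  obtain ⟨hK0, hK⟩ := Kr_bd9283_j9283
  have hsc := Real.sin_sq_add_cos_sq z
  have h0 : |Real.sin z + 2 * Real.cos z / z| ≤ 1 + 2 / z ^ 2 := by
    apply abs_le_of_sq_le_sq _ (by positivity)
    have e1 : (Real.sin z + 2 * Real.cos z / z) ^ 2 ≤ (1 + (2 / z) ^ 2) *
        (Real.sin z ^ 2 + Real.cos z ^ 2) := by
      have e2 : 2 * Real.cos z / z = (2 / z) * Real.cos z := by ring
      rw [e2]
      nlinarith [sq_nonneg ((2 / z) * Real.sin z - Real.cos z)]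
    rw [hsc, mul_one] at e1
    refine e1.trans ?_
    have e3 : (2 / z) ^ 2 = 2 * (2 / z ^ 2) := by ring
    rw [e3]
    nlinarith [sq_nonneg (2 / z ^ 2)]
  have h1 : |Kr 1 * (Real.sin z / z ^ 3 + 2 * Real.cos z / z ^ 4)| ≤
      0.7089 * ((1 + 2 / z ^ 2) / z ^ 3) := by
    have e : Real.sin z / z ^ 3 + 2 * Real.cos z / z ^ 4 =
      (Real.sin z + 2 * Real.cos z / z) / z ^ 3 := by
      field_simp
    rw [e, abs_mul, abs_div, abs_of_pos hK0, abs_of_pos (by positivity : 0 < z ^ 3)]
    gcongr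
  have h2 : |chi z| ≤ 3 / z ^ 4 + 0.7089 * ((1 + 2 / z ^ 2) / z ^ 3) := by
    have e : chi z = (chi z + Kr 1 * (Real.sin z / z ^ 3 + 2 * Real.cos z / z ^ 4)) -
      Kr 1 * (Real.sin z / z ^ 3 + 2 * Real.cos z / z ^ 4) := by ring
    rw [e]
    exact (abs_sub _ _).trans (add_le_add h h1)
  refine h2.trans ?_
  rw [← sub_nonneg]
  have e : 0.975 / z ^ 3 - (3 / z ^ 4 + 0.7089 * ((1 + 2 / z ^ 2) / z ^ 3)) =
      (0.975 * z ^ 2 - 3 * z - 0.7089 * (z ^ 2 + 2)) / z ^ 5 := by
    field_simp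
    ring
  rw [e]
  apply div_nonneg _ (by positivity)
  norm_num
  nlinarith

theorem psi_decay (z : ℝ) (hz : 3.75 ≤ z) : |psi 1 z| ≤ 0.75 / z ^ 2 := by
  rcases lt_or_ge z 11 with h | h
  · exact psi_mid9283_j9283 z hz h
  · exact psi_large9283_j9283 z h

theorem chi_decay (z : ℝ) (hz : 2 ≤ z) : |chi z| ≤ 0.975 / z ^ 3 := by
  rcases lt_or_ge z 12 with h | h
  · exact chi_mid9283_j9283 z hz h
  · exact chi_large9283_j9283 z h



end Pool.Agent.Helper82.GC
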