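import Pool.Agent.Helper82.GC.J9261
import Pool.Agent.Helper82.GC.J9278
import Pool.Agent.Helper82.GC.J9281
import Pool.Agent.Helper82.GC.J9283

set_option autoImplicit false

open MeasureTheory Set

namespace Pool.Agent.Helper82.GC


theorem aux_phi_4_735_j9285 : (-0.1495024) < phi 1 4.735 ∧ phi 1 4.735 < (-0.1495020) := by
  have h := phi_taylor 16 4.735
  have e0 := mom_zero
  simp only [Finset.sum_range_succ, Finset.sum_range_zero, e0] at h
  norm_num [Nat.factorial] at h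
  rw [abs_le] at h
  obtain ⟨h1, h2⟩ := h
  constructor <;> linarith [mom_1.1, mom_1.2, mom_2.1, mom_2.2, mom_3.1, mom_3.2, mom_4.1, mom_4.2, mom_5.1, mom_5.2, mom_6.1, mom_6.2, mom_7.1, mom_7.2, mom_8.1, mom_8.2, mom_9.1, mom_9.2, mom_10.1, mom_10.2, mom_11.1, mom_11.2, mom_12.1, mom_12.2, mom_13.1, mom_13.2, mom_14.1, mom_14.2, mom_15.1, mom_15.2, mom_16.1, mom_16.2]

theorem aux_phi_5_25_j9285 : (-0.1297813) < phi 1 5.25 ∧ phi 1 5.25 < (-0.1297809) := by
  have h := phi_taylor 16 5.25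
  have e0 := mom_zero
  simp only [Finset.sum_range_succ, Finset.sum_range_zero, e0] at h
  norm_num [Nat.factorial] at h
  rw [abs_le] at h
  obtain ⟨h1, h2⟩ := h
  constructor <;> linarith [mom_1.1, mom_1.2, mom_2.1, mom_2.2, mom_3.1, mom_3.2, mom_4.1, mom_4.2, mom_5.1, mom_5.2, mom_6.1, mom_6.2, mom_7.1, mom_7.2, mom_8.1, mom_8.2, mom_9.1, mom_9.2, mom_10.1, mom_10.2, mom_11.1, mom_11.2, mom_12.1, mom_12.2, mom_13.1, mom_13.2, mom_14.1, mom_14.2, mom_15.1, mom_15.2, mom_16.1, mom_16.2]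

theorem aux_phi_5_5_j9285 : (-0.1084864) < phi 1 5.5 ∧ phi 1 5.5 < (-0.1084860) := by
  have h := phi_taylor 16 5.5
  have e0 := mom_zero
  simp only [Finset.sum_range_succ, Finset.sum_range_zero, e0] at h
  norm_num [Nat.factorial] at h
  rw [abs_le] at h
  obtain ⟨h1, h2⟩ := h
  constructor <;> linarith [mom_1.1, mom_1.2, mom_2.1, mom_2.2, mom_3.1, mom_3.2, mom_4.1, mom_4.2, mom_5.1, mom_5.2, mom_6.1, mom_6.2, mom_7.1, mom_7.2, mom_8.1, mom_8.2, mom_9.1, mom_9.2, mom_10.1, mom_10.2, mom_11.1, mom_11.2, mom_12.1, mom_12.2, mom_13.1, mom_13.2, mom_14.1, mom_14.2, mom_15.1, mom_15.2, mom_16.1, mom_16.2]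

theorem aux_phi_5_75_j9285 : (-0.0822020) < phi 1 5.75 ∧ phi 1 5.75 < (-0.0822016) := by
  have h := phi_taylor 16 5.75
  have e0 := mom_zero
  simp only [Finset.sum_range_succ, Finset.sum_range_zero, e0] at h
  norm_num [Nat.factorial] at h
  rw [abs_le] at h
  obtain ⟨h1, h2⟩ := h
  constructor <;> linarith [mom_1.1, mom_1.2, mom_2.1, mom_2.2, mom_3.1, mom_3.2, mom_4.1, mom_4.2, mom_5.1, mom_5.2, mom_6.1, mom_6.2, mom_7.1, mom_7.2, mom_8.1, mom_8.2, mom_9.1, mom_9.2, mom_10.1, mom_10.2, mom_11.1, mom_11.2, mom_12.1, mom_12.2, mom_13.1, mom_13.2, mom_14.1, mom_14.2, mom_15.1, mom_15.2, mom_16.1, mom_16.2]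

theorem aux_phi_7_84_j9285 : 0.0901868 < phi 1 7.84 ∧ phi 1 7.84 < 0.0901872 := by
  have h := phi_taylor 16 7.84
  have e0 := mom_zero
  simp only [Finset.sum_range_succ, Finset.sum_range_zero, e0] at h
  norm_num [Nat.factorial] at h
  rw [abs_le] at h
  obtain ⟨h1, h2⟩ := h
  constructor <;> linarith [mom_1.1, mom_1.2, mom_2.1, mom_2.2, mom_3.1, mom_3.2, mom_4.1, mom_4.2, mom_5.1, mom_5.2, mom_6.1, mom_6.2, mom_7.1, mom_7.2, mom_8.1, mom_8.2, mom_9.1, mom_9.2, mom_10.1, mom_10.2, mom_11.1, mom_11.2, mom_12.1, mom_12.2, mom_13.1, mom_13.2, mom_14.1, mom_14.2, mom_15.1, mom_15.2, mom_16.1, mom_16.2]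

theorem aux_phi_7_86_j9285 : 0.0902029 < phi 1 7.86 ∧ phi 1 7.86 < 0.0902033 := by
  have h := phi_taylor 16 7.86
  have e0 := mom_zero
  simp only [Finset.sum_range_succ, Finset.sum_range_zero, e0] at h
  norm_num [Nat.factorial] at h
  rw [abs_le] at h
  obtain ⟨h1, h2⟩ := h
  constructor <;> linarith [mom_1.1, mom_1.2, mom_2.1, mom_2.2, mom_3.1, mom_3.2, mom_4.1, mom_4.2, mom_5.1, mom_5.2, mom_6.1, mom_6.2, mom_7.1, mom_7.2, mom_8.1, mom_8.2, mom_9.1, mom_9.2, mom_10.1, mom_10.2, mom_11.1, mom_11.2, mom_12.1, mom_12.2, mom_13.1, mom_13.2, mom_14.1, mom_14.2, mom_15.1, mom_15.2, mom_16.1, mom_16.2]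

theorem aux_phi_7_9_j9285 : 0.0901231 < phi 1 7.9 ∧ phi 1 7.9 < 0.0901235 := by
  have h := phi_taylor 16 7.9
  have e0 := mom_zero
  simp only [Finset.sum_range_succ, Finset.sum_range_zero, e0] at h
  norm_num [Nat.factorial] at h
  rw [abs_le] at h
  obtain ⟨h1, h2⟩ := h
  constructor <;> linarith [mom_1.1, mom_1.2, mom_2.1, mom_2.2, mom_3.1, mom_3.2, mom_4.1, mom_4.2, mom_5.1, mom_5.2, mom_6.1, mom_6.2, mom_7.1, mom_7.2, mom_8.1, mom_8.2, mom_9.1, mom_9.2, mom_10.1, mom_10.2, mom_11.1, mom_11.2, mom_12.1, mom_12.2, mom_13.1, mom_13.2, mom_14.1, mom_14.2, mom_15.1, mom_15.2, mom_16.1, mom_16.2]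

theorem aux_phi_7_95_j9285 : 0.0898158 < phi 1 7.95 ∧ phi 1 7.95 < 0.0898162 := by
  have h := phi_taylor 16 7.95
  have e0 := mom_zero
  simp only [Finset.sum_range_succ, Finset.sum_range_zero, e0] at h
  norm_num [Nat.factorial] at h
  rw [abs_le] at h
  obtain ⟨h1, h2⟩ := h
  constructor <;> linarith [mom_1.1, mom_1.2, mom_2.1, mom_2.2, mom_3.1, mom_3.2, mom_4.1, mom_4.2, mom_5.1, mom_5.2, mom_6.1, mom_6.2, mom_7.1, mom_7.2, mom_8.1, mom_8.2, mom_9.1, mom_9.2, mom_10.1, mom_10.2, mom_11.1, mom_11.2, mom_12.1, mom_12.2, mom_13.1, mom_13.2, mom_14.1, mom_14.2, mom_15.1, mom_15.2, mom_16.1, mom_16.2]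

theorem aux_phi_8_02_j9285 : 0.0890054 < phi 1 8.02 ∧ phi 1 8.02 < 0.0890058 := by
  have h := phi_taylor 16 8.02
  have e0 := mom_zero
  simp only [Finset.sum_range_succ, Finset.sum_range_zero, e0] at h
  norm_num [Nat.factorial] at h
  rw [abs_le] at h
  obtain ⟨h1, h2⟩ := h
  constructor <;> linarith [mom_1.1, mom_1.2, mom_2.1, mom_2.2, mom_3.1, mom_3.2, mom_4.1, mom_4.2, mom_5.1, mom_5.2, mom_6.1, mom_6.2, mom_7.1, mom_7.2, mom_8.1, mom_8.2, mom_9.1, mom_9.2, mom_10.1, mom_10.2, mom_11.1, mom_11.2, mom_12.1, mom_12.2, mom_13.1, mom_13.2, mom_14.1, mom_14.2, mom_15.1, mom_15.2, mom_16.1, mom_16.2]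

theorem aux_phi_8_08_j9285 : 0.0879661 < phi 1 8.08 ∧ phi 1 8.08 < 0.0879665 := by
  have h := phi_taylor 16 8.08
  have e0 := mom_zero
  simp only [Finset.sum_range_succ, Finset.sum_range_zero, e0] at h
  norm_num [Nat.factorial] at h
  rw [abs_le] at h
  obtain ⟨h1, h2⟩ := h
  constructor <;> linarith [mom_1.1, mom_1.2, mom_2.1, mom_2.2, mom_3.1, mom_3.2, mom_4.1, mom_4.2, mom_5.1, mom_5.2, mom_6.1, mom_6.2, mom_7.1, mom_7.2, mom_8.1, mom_8.2, mom_9.1, mom_9.2, mom_10.1, mom_10.2, mom_11.1, mom_11.2, mom_12.1, mom_12.2, mom_13.1, mom_13.2, mom_14.1, mom_14.2, mom_15.1, mom_15.2, mom_16.1, mom_16.2]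

theorem aux_psi_4_735_j9285 : 0.0001689 < psi 1 4.735 ∧ psi 1 4.735 < 0.0001693 := by
  have h := psi_taylor 15 4.735
  simp only [Finset.sum_range_succ, Finset.sum_range_zero] at h
  norm_num [Nat.factorial] at h
  rw [abs_le] at h
  obtain ⟨h1, h2⟩ := h
  constructor <;> linarith [mom_1.1, mom_1.2, mom_2.1, mom_2.2, mom_3.1, mom_3.2, mom_4.1, mom_4.2, mom_5.1, mom_5.2, mom_6.1, mom_6.2, mom_7.1, mom_7.2, mom_8.1, mom_8.2, mom_9.1, mom_9.2, mom_10.1, mom_10.2, mom_11.1, mom_11.2, mom_12.1, mom_12.2, mom_13.1, mom_13.2, mom_14.1, mom_14.2, mom_15.1, mom_15.2, mom_16.1, mom_16.2]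

theorem aux_psi_5_9_j9285 : (-0.0199778) < psi 1 5.9 ∧ psi 1 5.9 < (-0.0199774) := by
  have h := psi_taylor 15 5.9
  simp only [Finset.sum_range_succ, Finset.sum_range_zero] at h
  norm_num [Nat.factorial] at h
  rw [abs_le] at h
  obtain ⟨h1, h2⟩ := h
  constructor <;> linarith [mom_1.1, mom_1.2, mom_2.1, mom_2.2, mom_3.1, mom_3.2, mom_4.1, mom_4.2, mom_5.1, mom_5.2, mom_6.1, mom_6.2, mom_7.1, mom_7.2, mom_8.1, mom_8.2, mom_9.1, mom_9.2, mom_10.1, mom_10.2, mom_11.1, mom_11.2, mom_12.1, mom_12.2, mom_13.1, mom_13.2, mom_14.1, mom_14.2, mom_15.1, mom_15.2, mom_16.1, mom_16.2]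

theorem aux_psi_6_3_j9285 : (-0.0188344) < psi 1 6.3 ∧ psi 1 6.3 < (-0.0188340) := by
  have h := psi_taylor 15 6.3
  simp only [Finset.sum_range_succ, Finset.sum_range_zero] at h
  norm_num [Nat.factorial] at h
  rw [abs_le] at h
  obtain ⟨h1, h2⟩ := h
  constructor <;> linarith [mom_1.1, mom_1.2, mom_2.1, mom_2.2, mom_3.1, mom_3.2, mom_4.1, mom_4.2, mom_5.1, mom_5.2, mom_6.1, mom_6.2, mom_7.1, mom_7.2, mom_8.1, mom_8.2, mom_9.1, mom_9.2, mom_10.1, mom_10.2, mom_11.1, mom_11.2, mom_12.1, mom_12.2, mom_13.1, mom_13.2, mom_14.1, mom_14.2, mom_15.1, mom_15.2, mom_16.1, mom_16.2]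

theorem aux_psi_7_1_j9285 : (-0.0101008) < psi 1 7.1 ∧ psi 1 7.1 < (-0.0101004) := by
  have h := psi_taylor 15 7.1
  simp only [Finset.sum_range_succ, Finset.sum_range_zero] at h
  norm_num [Nat.factorial] at h
  rw [abs_le] at h
  obtain ⟨h1, h2⟩ := h
  constructor <;> linarith [mom_1.1, mom_1.2, mom_2.1, mom_2.2, mom_3.1, mom_3.2, mom_4.1, mom_4.2, mom_5.1, mom_5.2, mom_6.1, mom_6.2, mom_7.1, mom_7.2, mom_8.1, mom_8.2, mom_9.1, mom_9.2, mom_10.1, mom_10.2, mom_11.1, mom_11.2, mom_12.1, mom_12.2, mom_13.1, mom_13.2, mom_14.1, mom_14.2, mom_15.1, mom_15.2, mom_16.1, mom_16.2]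

theorem aux_psi_7_6_j9285 : (-0.0032594) < psi 1 7.6 ∧ psi 1 7.6 < (-0.0032590) := by
  have h := psi_taylor 15 7.6
  simp only [Finset.sum_range_succ, Finset.sum_range_zero] at h
  norm_num [Nat.factorial] at h
  rw [abs_le] at h
  obtain ⟨h1, h2⟩ := h
  constructor <;> linarith [mom_1.1, mom_1.2, mom_2.1, mom_2.2, mom_3.1, mom_3.2, mom_4.1, mom_4.2, mom_5.1, mom_5.2, mom_6.1, mom_6.2, mom_7.1, mom_7.2, mom_8.1, mom_8.2, mom_9.1, mom_9.2, mom_10.1, mom_10.2, mom_11.1, mom_11.2, mom_12.1, mom_12.2, mom_13.1, mom_13.2, mom_14.1, mom_14.2, mom_15.1, mom_15.2, mom_16.1, mom_16.2]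

theorem aux_psi_7_78_j9285 : (-0.0009532) < psi 1 7.78 ∧ psi 1 7.78 < (-0.0009528) := by
  have h := psi_taylor 15 7.78
  simp only [Finset.sum_range_succ, Finset.sum_range_zero] at h
  norm_num [Nat.factorial] at h
  rw [abs_le] at h
  obtain ⟨h1, h2⟩ := h
  constructor <;> linarith [mom_1.1, mom_1.2, mom_2.1, mom_2.2, mom_3.1, mom_3.2, mom_4.1, mom_4.2, mom_5.1, mom_5.2, mom_6.1, mom_6.2, mom_7.1, mom_7.2, mom_8.1, mom_8.2, mom_9.1, mom_9.2, mom_10.1, mom_10.2, mom_11.1, mom_11.2, mom_12.1, mom_12.2, mom_13.1, mom_13.2, mom_14.1, mom_14.2, mom_15.1, mom_15.2, mom_16.1, mom_16.2]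

theorem aux_psi_7_83_j9285 : (-0.0003424) < psi 1 7.83 ∧ psi 1 7.83 < (-0.0003420) := by
  have h := psi_taylor 15 7.83
  simp only [Finset.sum_range_succ, Finset.sum_range_zero] at h
  norm_num [Nat.factorial] at h
  rw [abs_le] at h
  obtain ⟨h1, h2⟩ := h
  constructor <;> linarith [mom_1.1, mom_1.2, mom_2.1, mom_2.2, mom_3.1, mom_3.2, mom_4.1, mom_4.2, mom_5.1, mom_5.2, mom_6.1, mom_6.2, mom_7.1, mom_7.2, mom_8.1, mom_8.2, mom_9.1, mom_9.2, mom_10.1, mom_10.2, mom_11.1, mom_11.2, mom_12.1, mom_12.2, mom_13.1, mom_13.2, mom_14.1, mom_14.2, mom_15.1, mom_15.2, mom_16.1, mom_16.2]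

theorem aux_psi_7_86_j9285 : 0.0000169 < psi 1 7.86 ∧ psi 1 7.86 < 0.0000173 := by
  have h := psi_taylor 15 7.86
  simp only [Finset.sum_range_succ, Finset.sum_range_zero] at h
  norm_num [Nat.factorial] at h
  rw [abs_le] at h
  obtain ⟨h1, h2⟩ := h
  constructor <;> linarith [mom_1.1, mom_1.2, mom_2.1, mom_2.2, mom_3.1, mom_3.2, mom_4.1, mom_4.2, mom_5.1, mom_5.2, mom_6.1, mom_6.2, mom_7.1, mom_7.2, mom_8.1, mom_8.2, mom_9.1, mom_9.2, mom_10.1, mom_10.2, mom_11.1, mom_11.2, mom_12.1, mom_12.2, mom_13.1, mom_13.2, mom_14.1, mom_14.2, mom_15.1, mom_15.2, mom_16.1, mom_16.2]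

theorem aux_psi_7_9_j9285 : 0.0004871 < psi 1 7.9 ∧ psi 1 7.9 < 0.0004875 := by
  have h := psi_taylor 15 7.9
  simp only [Finset.sum_range_succ, Finset.sum_range_zero] at h
  norm_num [Nat.factorial] at h
  rw [abs_le] at h
  obtain ⟨h1, h2⟩ := h
  constructor <;> linarith [mom_1.1, mom_1.2, mom_2.1, mom_2.2, mom_3.1, mom_3.2, mom_4.1, mom_4.2, mom_5.1, mom_5.2, mom_6.1, mom_6.2, mom_7.1, mom_7.2, mom_8.1, mom_8.2, mom_9.1, mom_9.2, mom_10.1, mom_10.2, mom_11.1, mom_11.2, mom_12.1, mom_12.2, mom_13.1, mom_13.2, mom_14.1, mom_14.2, mom_15.1, mom_15.2, mom_16.1, mom_16.2]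

theorem aux_psi_7_95_j9285 : 0.0010599 < psi 1 7.95 ∧ psi 1 7.95 < 0.0010603 := by
  have h := psi_taylor 15 7.95
  simp only [Finset.sum_range_succ, Finset.sum_range_zero] at h
  norm_num [Nat.factorial] at h
  rw [abs_le] at h
  obtain ⟨h1, h2⟩ := h
  constructor <;> linarith [mom_1.1, mom_1.2, mom_2.1, mom_2.2, mom_3.1, mom_3.2, mom_4.1, mom_4.2, mom_5.1, mom_5.2, mom_6.1, mom_6.2, mom_7.1, mom_7.2, mom_8.1, mom_8.2, mom_9.1, mom_9.2, mom_10.1, mom_10.2, mom_11.1, mom_11.2, mom_12.1, mom_12.2, mom_13.1, mom_13.2, mom_14.1, mom_14.2, mom_15.1, mom_15.2, mom_16.1, mom_16.2]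

theorem aux_psi_8_02_j9285 : 0.0018323 < psi 1 8.02 ∧ psi 1 8.02 < 0.0018327 := by
  have h := psi_taylor 15 8.02
  simp only [Finset.sum_range_succ, Finset.sum_range_zero] at h
  norm_num [Nat.factorial] at h
  rw [abs_le] at h
  obtain ⟨h1, h2⟩ := h
  constructor <;> linarith [mom_1.1, mom_1.2, mom_2.1, mom_2.2, mom_3.1, mom_3.2, mom_4.1, mom_4.2, mom_5.1, mom_5.2, mom_6.1, mom_6.2, mom_7.1, mom_7.2, mom_8.1, mom_8.2, mom_9.1, mom_9.2, mom_10.1, mom_10.2, mom_11.1, mom_11.2, mom_12.1, mom_12.2, mom_13.1, mom_13.2, mom_14.1, mom_14.2, mom_15.1, mom_15.2, mom_16.1, mom_16.2]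

theorem aux_psi_8_08_j9285 : 0.0024654 < psi 1 8.08 ∧ psi 1 8.08 < 0.0024658 := by
  have h := psi_taylor 15 8.08
  simp only [Finset.sum_range_succ, Finset.sum_range_zero] at h
  norm_num [Nat.factorial] at h
  rw [abs_le] at h
  obtain ⟨h1, h2⟩ := h
  constructor <;> linarith [mom_1.1, mom_1.2, mom_2.1, mom_2.2, mom_3.1, mom_3.2, mom_4.1, mom_4.2, mom_5.1, mom_5.2, mom_6.1, mom_6.2, mom_7.1, mom_7.2, mom_8.1, mom_8.2, mom_9.1, mom_9.2, mom_10.1, mom_10.2, mom_11.1, mom_11.2, mom_12.1, mom_12.2, mom_13.1, mom_13.2, mom_14.1, mom_14.2, mom_15.1, mom_15.2, mom_16.1, mom_16.2]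

theorem aux_psi_lip_j9285 {l : ℝ} (hl : 2 ≤ l) {x y : ℝ} (hx : l ≤ x) (hy : l ≤ y) :
    |psi 1 y - psi 1 x| ≤ 0.975 / l ^ 2 * |y - x| := by
  have hb : ∀ z ∈ Ici l, ‖-(z * chi z)‖ ≤ 0.975 / l ^ 2 := by
    intro z hz
    have hz' : l ≤ z := hz
    have hz0 : 0 < z := by linarith
    have hl0 : 0 < l := by linarith
    have h := chi_decay z (by linarith)
    rw [norm_neg, norm_mul, Real.norm_eq_abs, Real.norm_eq_abs, abs_of_pos hz0]
    calc z * |chi z| ≤ z * (0.975 / z ^ 3) := mul_le_mul_of_nonneg_left h hz0.le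
      _ = 0.975 / z ^ 2 := by field_simp
      _ ≤ 0.975 / l ^ 2 := by
          apply div_le_div_of_nonneg_left (by norm_num) (by positivity)
          exact pow_le_pow_left₀ hl0.le hz' 2
  have := (convex_Ici l).norm_image_sub_le_of_norm_hasDerivWithin_le (f := psi 1)
    (f' := fun z => -(z * chi z)) (C := 0.975 / l ^ 2)
    (fun z _ => (psi_deriv z).hasDerivWithinAt) hb (mem_Ici.mpr hx) (mem_Ici.mpr hy)
  simpa [Real.norm_eq_abs] using this

theorem aux_phi_lip_j9285 {a b C : ℝ} (h : ∀ z ∈ Icc a b, |z * psi 1 z| ≤ C) {x y : ℝ}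
    (hx : x ∈ Icc a b) (hy : y ∈ Icc a b) : |phi 1 y - phi 1 x| ≤ C * |y - x| := by
  have := (convex_Icc a b).norm_image_sub_le_of_norm_hasDerivWithin_le (f := phi 1)
    (f' := fun z => -(z * psi 1 z)) (C := C)
    (fun z _ => (phi_deriv z).hasDerivWithinAt)
    (fun z hz => by rw [norm_neg, Real.norm_eq_abs]; exact h z hz) hx hy
  simpa [Real.norm_eq_abs] using this

theorem aux_cell_j9285 (c h P B : ℝ) (h0 : 0 ≤ h) (hl : 7.8 ≤ c - h) (hB : |psi 1 c| ≤ B)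
    (hP : |phi 1 c| ≤ P) (z : ℝ) (hz1 : c - h ≤ z) (hz2 : z ≤ c + h) :
    |phi 1 z| ≤ P + (c + h) * (B + 0.0161 * h) * h := by
  have hpsi : ∀ w ∈ Icc (c - h) (c + h), |w * psi 1 w| ≤ (c + h) * (B + 0.0161 * h) := by
    intro w hw
    have hw1 := hw.1
    have hw2 := hw.2
    have h1 := aux_psi_lip_j9285 (l := 7.8) (by norm_num) (x := c) (y := w) (by linarith) (by linarith)
    have h2 : |w - c| ≤ h := abs_le.mpr ⟨by linarith, by linarith⟩
    have h3 : |psi 1 w| ≤ B + 0.0161 * h := by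
      have h4 : |psi 1 w| ≤ |psi 1 c| + |psi 1 w - psi 1 c| := by
        have := abs_add_le (psi 1 c) (psi 1 w - psi 1 c)
        simpa using this
      have h5 : (0.975 : ℝ) / 7.8 ^ 2 * |w - c| ≤ 0.0161 * h := by
        apply mul_le_mul _ h2 (abs_nonneg _) (by norm_num)
        norm_num
      linarith
    have hw0 : 0 ≤ w := by linarith
    rw [abs_mul, abs_of_nonneg hw0]
    exact mul_le_mul hw2 h3 (abs_nonneg _) (by linarith)
  have hB0 : 0 ≤ B := le_trans (abs_nonneg _) hB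
  have h6 := aux_phi_lip_j9285 hpsi (x := c) (y := z) ⟨by linarith, by linarith⟩ ⟨hz1, hz2⟩
  have h7 : |z - c| ≤ h := abs_le.mpr ⟨by linarith, by linarith⟩
  have h8 : (c + h) * (B + 0.0161 * h) * |z - c| ≤ (c + h) * (B + 0.0161 * h) * h := by
    apply mul_le_mul_of_nonneg_left h7
    have : 0 ≤ c + h := by linarith
    positivity
  have h9 : |phi 1 z| ≤ |phi 1 c| + |phi 1 z - phi 1 c| := by
    have := abs_add_le (phi 1 c) (phi 1 z - phi 1 c)
    simpa using this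
  linarith

theorem aux_neg_j9285 (c l d B : ℝ) (hl : 2 ≤ l) (hlc : l ≤ c) (hB : psi 1 c < -B)
    (hd : 0.975 / l ^ 2 * d ≤ B) (z : ℝ) (hz0 : l ≤ z) (hz1 : c - d ≤ z) (hz2 : z ≤ c + d) :
    psi 1 z < 0 := by
  have h1 := aux_psi_lip_j9285 hl hlc hz0
  have h2 : |z - c| ≤ d := abs_le.mpr ⟨by linarith, by linarith⟩
  have h3 : 0.975 / l ^ 2 * |z - c| ≤ 0.975 / l ^ 2 * d := by
    apply mul_le_mul_of_nonneg_left h2
    positivity
  have h4 := (abs_le.mp h1).2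
  linarith

theorem aux_psi_neg_j9285 (z : ℝ) (h1 : 4.75 ≤ z) (h2 : z ≤ 7.84) : psi 1 z < 0 := by
  rcases le_total z 5.9 with h | h
  · have := psi_antitone (a := 4.75) (b := z) ⟨by norm_num, by norm_num⟩ ⟨by linarith, h⟩ h1
    linarith [psi_tab_19.2]
  rcases le_total z 6.9 with h' | h'
  · exact aux_neg_j9285 6.3 5.9 0.6 0.018 (by norm_num) (by norm_num) (by linarith [aux_psi_6_3_j9285.2])
      (by norm_num) z h (by linarith) (by linarith)
  rcases le_total z 7.5 with h'' | h''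
  · exact aux_neg_j9285 7.1 6.9 0.4 0.01 (by norm_num) (by norm_num) (by linarith [aux_psi_7_1_j9285.2])
      (by norm_num) z h' (by linarith) (by linarith)
  rcases le_total z 7.75 with h3 | h3
  · exact aux_neg_j9285 7.6 7.5 0.15 0.003 (by norm_num) (by norm_num) (by linarith [aux_psi_7_6_j9285.2])
      (by norm_num) z h'' (by linarith) (by linarith)
  rcases le_total z 7.82 with h4 | h4
  · exact aux_neg_j9285 7.78 7.75 0.04 0.0009 (by norm_num) (by norm_num) (by linarith [aux_psi_7_78_j9285.2])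
      (by norm_num) z h3 (by linarith) (by linarith)
  · exact aux_neg_j9285 7.83 7.8 0.01 0.0003 (by norm_num) (by norm_num) (by linarith [aux_psi_7_83_j9285.2])
      (by norm_num) z (by linarith) (by linarith) (by linarith)

theorem aux_phi_mono_j9285 : MonotoneOn (phi 1) (Icc 4.75 7.84) := by
  apply monotoneOn_of_hasDerivWithinAt_nonneg (convex_Icc _ _)
    (f' := fun z => -(z * psi 1 z))
  · exact fun z _ => (phi_deriv z).continuousAt.continuousWithinAt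
  · exact fun z _ => (phi_deriv z).hasDerivWithinAt
  · intro z hz
    rw [interior_Icc] at hz
    have := aux_psi_neg_j9285 z hz.1.le hz.2.le
    have hz0 : 0 < z := by linarith [hz.1]
    nlinarith

/-- all of `[7.84, ∞)` -/
theorem aux_far_j9285 (z : ℝ) (hz : 7.84 ≤ z) : |phi 1 z| ≤ 0.0903 := by
  rcases le_total z 7.88 with h | h
  · refine (aux_cell_j9285 7.86 0.02 0.0902035 0.00002 (by norm_num) (by norm_num) ?_ ?_ z (by linarith)
      (by linarith)).trans (by norm_num)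
    · exact abs_le.mpr ⟨by linarith [aux_psi_7_86_j9285.1], by linarith [aux_psi_7_86_j9285.2]⟩
    · exact abs_le.mpr ⟨by linarith [aux_phi_7_86_j9285.1], by linarith [aux_phi_7_86_j9285.2]⟩
  rcases le_total z 7.92 with h' | h'
  · refine (aux_cell_j9285 7.9 0.02 0.090124 0.000488 (by norm_num) (by norm_num) ?_ ?_ z (by linarith)
      (by linarith)).trans (by norm_num)
    · exact abs_le.mpr ⟨by linarith [aux_psi_7_9_j9285.1], by linarith [aux_psi_7_9_j9285.2]⟩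
    · exact abs_le.mpr ⟨by linarith [aux_phi_7_9_j9285.1], by linarith [aux_phi_7_9_j9285.2]⟩
  rcases le_total z 7.98 with h1 | h1
  · refine (aux_cell_j9285 7.95 0.03 0.08982 0.00107 (by norm_num) (by norm_num) ?_ ?_ z (by linarith)
      (by linarith)).trans (by norm_num)
    · exact abs_le.mpr ⟨by linarith [aux_psi_7_95_j9285.1], by linarith [aux_psi_7_95_j9285.2]⟩
    · exact abs_le.mpr ⟨by linarith [aux_phi_7_95_j9285.1], by linarith [aux_phi_7_95_j9285.2]⟩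
  rcases le_total z 8.06 with h2 | h2
  · refine (aux_cell_j9285 8.02 0.04 0.08901 0.00184 (by norm_num) (by norm_num) ?_ ?_ z (by linarith)
      (by linarith)).trans (by norm_num)
    · exact abs_le.mpr ⟨by linarith [aux_psi_8_02_j9285.1], by linarith [aux_psi_8_02_j9285.2]⟩
    · exact abs_le.mpr ⟨by linarith [aux_phi_8_02_j9285.1], by linarith [aux_phi_8_02_j9285.2]⟩
  rcases le_total z 8.1 with h3 | h3
  · refine (aux_cell_j9285 8.08 0.03 0.08798 0.00247 (by norm_num) (by norm_num) ?_ ?_ z (by linarith)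
      (by linarith)).trans (by norm_num)
    · exact abs_le.mpr ⟨by linarith [aux_psi_8_08_j9285.1], by linarith [aux_psi_8_08_j9285.2]⟩
    · exact abs_le.mpr ⟨by linarith [aux_phi_8_08_j9285.1], by linarith [aux_phi_8_08_j9285.2]⟩
  · refine (phi_decN z (by linarith)).trans ?_
    rw [div_le_iff₀ (by linarith)]
    linarith

/-- on `[a, ∞)` with `a ∈ [4.75, 7.84]` -/
theorem aux_from_j9285 (a P : ℝ) (ha1 : 4.75 ≤ a) (ha2 : a ≤ 7.84) (hP : -P ≤ phi 1 a)
    (hP2 : 0.0903 ≤ P) (z : ℝ) (hz : a ≤ z) : |phi 1 z| ≤ P := by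
  rcases le_total z 7.84 with h | h
  · have h1 := aux_phi_mono_j9285 ⟨ha1, ha2⟩ ⟨ha1.trans hz, h⟩ hz
    have h2 := aux_phi_mono_j9285 ⟨ha1.trans hz, h⟩ (b := 7.84) ⟨by norm_num, le_refl _⟩ h
    exact abs_le.mpr ⟨by linarith, by linarith [aux_phi_7_84_j9285.2]⟩
  · exact (aux_far_j9285 z h).trans hP2

theorem aux_pow_j9285 (x m w W : ℝ) (k : ℕ) (hx0 : m ≤ x) (hx1 : x ≤ m + 0.00000000001) (hw0 : 0 ≤ w)
    (hw1 : w ≤ W) : m * w ^ k ≤ x * w ^ k ∧ x * w ^ k ≤ m * w ^ k + 0.00000000001 * W ^ k := by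
  have h1 : 0 ≤ w ^ k := pow_nonneg hw0 k
  have h2 : w ^ k ≤ W ^ k := pow_le_pow_left₀ hw0 hw1 k
  constructor
  · exact mul_le_mul_of_nonneg_right hx0 h1
  · have : (x - m) * w ^ k ≤ 0.00000000001 * W ^ k :=
      mul_le_mul (by linarith) h2 h1 (by norm_num)
    linarith

theorem aux_poly_j9285 (s : ℝ) (h1 : -1.4 ≤ s) (h2 : s ≤ 1.4) :
    -0.02003 ≤ (-(5006900203934101561201 / 250514701937500000000000)) * s ^ 0 + (53206871277888001 / 653800875000000000000) * s ^ 1 + (78189184105656061 / 1093155063000000000000) * s ^ 2 + (-(337886089693363357 / 131178607560000000000000)) * s ^ 3 + (13755630748072291 / 330239851200000000000000) * s ^ 4 + (-(1294058551419661 / 3212537328000000000000000)) * s ^ 5 + (66523857027869 / 25298731458000000000000000) * s ^ 6 + (-(17113762133309 / 1360059803182080000000000000)) * s ^ 7 + (239423871667 / 5440239212728320000000000000) * s ^ 8 + (-(94693625633 / 652828705527398400000000000000))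 * s ^ 9 + (20835071963 / 117509166994931712000000000000000) * s ^ 10 + (-(1472129957 / 1292600836944248832000000000000000)) * s ^ 11 := by
  have hs : |s| ≤ 1.4 := abs_le.mpr ⟨h1, h2⟩
  have hp : ∀ k : ℕ, |s ^ k| ≤ 1.4 ^ k := fun k => by
    rw [abs_pow]; exact pow_le_pow_left₀ (abs_nonneg _) hs k
  have p3 := abs_le.mp (hp 3)
  have p4 := abs_le.mp (hp 4)
  have p5 := abs_le.mp (hp 5)
  have p6 := abs_le.mp (hp 6)
  have p7 := abs_le.mp (hp 7)
  have p8 := abs_le.mp (hp 8)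
  have p9 := abs_le.mp (hp 9)
  have p10 := abs_le.mp (hp 10)
  have p11 := abs_le.mp (hp 11)
  norm_num at p3
  norm_num at p4
  norm_num at p5
  norm_num at p6
  norm_num at p7
  norm_num at p8
  norm_num at p9
  norm_num at p10
  norm_num at p11
  have hq : -0.02002 ≤ (-(5006900203934101561201 / 250514701937500000000000)) + (53206871277888001 / 653800875000000000000) * s + (78189184105656061 / 1093155063000000000000) * s ^ 2 := by
    nlinarith [sq_nonneg (s + 0.57)]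
  have e0 : s ^ 0 = 1 := pow_zero s
  have e1 : s ^ 1 = s := pow_one s
  rw [e0, e1]
  linarith [p3.1, p3.2, p4.1, p4.2, p5.1, p5.2, p6.1, p6.2, p7.1, p7.2, p8.1, p8.2, p9.1, p9.2,
    p10.1, p10.2, p11.1, p11.2]

theorem aux_psi_mid_j9285 (z : ℝ) (h1 : 5.9 ≤ z) (h2 : z ≤ 6.11) : -0.0201 ≤ psi 1 z := by
  have hw0 : 0 ≤ z ^ 2 := sq_nonneg z
  have hw2 : z ^ 2 ≤ 37.34 := by nlinarith
  have hw1 : 34.8 ≤ z ^ 2 := by nlinarith
  have h := psi_taylor 12 z
  simp only [Finset.sum_range_succ, Finset.sum_range_zero, pow_mul] at h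
  norm_num [Nat.factorial] at h
  rw [abs_le] at h
  have h3 := h.1
  have t0 := aux_pow_j9285 (mom 1) 0.29112509477 (z ^ 2) 37.34 0 mom_1.1.le (by linarith [mom_1.2]) hw0 hw2
  have t1 := aux_pow_j9285 (mom 2) 0.16450037909 (z ^ 2) 37.34 1 mom_2.1.le (by linarith [mom_2.2]) hw0 hw2
  have t2 := aux_pow_j9285 (mom 3) 0.11362699022 (z ^ 2) 37.34 2 mom_3.1.le (by linarith [mom_3.2]) hw0 hw2
  have t3 := aux_pow_j9285 (mom 4) 0.08651402637 (z ^ 2) 37.34 3 mom_4.1.le (by linarith [mom_4.2]) hw0 hw2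
  have t4 := aux_pow_j9285 (mom 5) 0.06975133213 (z ^ 2) 37.34 4 mom_5.1.le (by linarith [mom_5.2]) hw0 hw2
  have t5 := aux_pow_j9285 (mom 6) 0.05838974823 (z ^ 2) 37.34 5 mom_6.1.le (by linarith [mom_6.2]) hw0 hw2
  have t6 := aux_pow_j9285 (mom 7) 0.05019182188 (z ^ 2) 37.34 6 mom_7.1.le (by linarith [mom_7.2]) hw0 hw2
  have t7 := aux_pow_j9285 (mom 8) 0.04400242309 (z ^ 2) 37.34 7 mom_8.1.le (by linarith [mom_8.2]) hw0 hw2
  have t8 := aux_pow_j9285 (mom 9) 0.03916628740 (z ^ 2) 37.34 8 mom_9.1.le (by linarith [mom_9.2]) hw0 hw2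
  have t9 := aux_pow_j9285 (mom 10) 0.03528455553 (z ^ 2) 37.34 9 mom_10.1.le (by linarith [mom_10.2]) hw0 hw2
  have t10 := aux_pow_j9285 (mom 11) 0.03210076105 (z ^ 2) 37.34 10 mom_11.1.le (by linarith [mom_11.2]) hw0 hw2
  have t11 := aux_pow_j9285 (mom 12) 0.02944259914 (z ^ 2) 37.34 11 mom_12.1.le (by linarith [mom_12.2]) hw0 hw2
  have t12 := aux_pow_j9285 (mom 13) 0.02719007327 (z ^ 2) 37.34 12 mom_13.1.le (by linarith [mom_13.2]) hw0 hw2
  have u12 : (z ^ 2) ^ 12 ≤ 37.34 ^ 12 := pow_le_pow_left₀ hw0 hw2 12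
  have hP := aux_poly_j9285 (z ^ 2 - 36) (by linarith) (by linarith)
  have hR : (-(5006900203934101561201 / 250514701937500000000000)) * (z ^ 2 - 36) ^ 0 + (53206871277888001 / 653800875000000000000) * (z ^ 2 - 36) ^ 1 + (78189184105656061 / 1093155063000000000000) * (z ^ 2 - 36) ^ 2 + (-(337886089693363357 / 131178607560000000000000)) * (z ^ 2 - 36) ^ 3 + (13755630748072291 / 330239851200000000000000) * (z ^ 2 - 36) ^ 4 + (-(1294058551419661 / 3212537328000000000000000)) * (z ^ 2 - 36) ^ 5 + (66523857027869 / 25298731458000000000000000) * (z ^ 2 - 36) ^ 6 + (-(17113762133309 / 1360059803182080000000000000)) * (z ^ 2 - 36) ^ 7 + (239423871667 / 5440239212728320000000000000) * (z ^ 2 - 36) ^ 8 + (-(94693625633 / 652828705527398400000000000000)) * (z ^ 2 - 36) ^ 9 + (20835071963 / 117509166994931712000000000000000) * (z ^ 2 - 36) ^ 10 + (-(1472129957 / 1292600836944248832000000000000000)) * (z ^ 2 - 36) ^ 11 = (29112509477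 / 100000000000) * (z ^ 2) ^ 0 + (-(16450037909 / 600000000000)) * (z ^ 2) ^ 1 + (5681349511 / 6000000000000) * (z ^ 2) ^ 2 + (-(2883800879 / 168000000000000)) * (z ^ 2) ^ 3 + (6975133213 / 36288000000000000) * (z ^ 2) ^ 4 + (-(176938631 / 120960000000000000)) * (z ^ 2) ^ 5 + (1254795547 / 155675520000000000000) * (z ^ 2) ^ 6 + (-(4400242309 / 130767436800000000000000)) * (z ^ 2) ^ 7 + (195831437 / 1778437140480000000000000) * (z ^ 2) ^ 8 + (-(8257 / 28466380800000000000000)) * (z ^ 2) ^ 9 + (642015221 / 1021818843434188800000000000000) * (z ^ 2) ^ 10 + (-(1472129957 / 1292600836944248832000000000000000)) * (z ^ 2) ^ 11 := by ring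
  rw [hR] at hP
  norm_num at t0 t1 t2 t3 t4 t5 t6 t7 t8 t9 t10 t11 t12 u12 hP h3
  ring_nf at t0 t1 t2 t3 t4 t5 t6 t7 t8 t9 t10 t11 t12 u12 hP h3 ⊢
  linarith [t0.1, t0.2, t1.1, t1.2, t2.1, t2.2, t3.1, t3.2, t4.1, t4.2, t5.1, t5.2, t6.1, t6.2,
    t7.1, t7.2, t8.1, t8.2, t9.1, t9.2, t10.1, t10.2, t11.1, t11.2, t12.1, t12.2]

theorem aux_phi_anti_j9285 : AntitoneOn (phi 1) (Icc 0 4.735) := by
  apply antitoneOn_of_hasDerivWithinAt_nonpos (convex_Icc _ _)
    (f' := fun z => -(z * psi 1 z))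
  · exact fun z _ => (phi_deriv z).continuousAt.continuousWithinAt
  · exact fun z _ => (phi_deriv z).hasDerivWithinAt
  · intro z hz
    rw [interior_Icc] at hz
    have := psi_antitone (a := z) (b := 4.735) ⟨hz.1.le, by linarith [hz.2]⟩
      ⟨by norm_num, by norm_num⟩ hz.2.le
    have hz0 : 0 < z := hz.1
    have h2 := aux_psi_4_735_j9285.1
    have h3 : 0 < psi 1 z := by linarith
    nlinarith

theorem phi_lobe (z : ℝ) (hz : z0 ≤ z) : |phi 1 z| ≤ 0.1496 := by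
  have hz0 := z0_bounds
  rcases le_total z 4.735 with h | h
  · have h1 := phi_nonpos z hz (by linarith)
    have h2 := aux_phi_anti_j9285 (a := z) (b := 4.735) ⟨by linarith [hz0.1], h⟩
      ⟨by norm_num, le_refl _⟩ h
    exact abs_le.mpr ⟨by linarith [aux_phi_4_735_j9285.1], by linarith⟩
  rcases le_total z 4.75 with h' | h'
  · have hb : ∀ w ∈ Icc (4.735 : ℝ) 4.75, |w * psi 1 w| ≤ 0.002 := by
      intro w hw
      have a1 := psi_antitone (a := w) (b := 4.75) ⟨by linarith [hw.1], by linarith [hw.2]⟩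
        ⟨by norm_num, by norm_num⟩ hw.2
      have a2 := psi_antitone (a := 4.735) (b := w) ⟨by norm_num, by norm_num⟩
        ⟨by linarith [hw.1], by linarith [hw.2]⟩ hw.1
      have a3 : |psi 1 w| ≤ 0.0004 :=
        abs_le.mpr ⟨by linarith [psi_tab_19.1], by linarith [aux_psi_4_735_j9285.2]⟩
      have hw0 : 0 ≤ w := by linarith [hw.1]
      rw [abs_mul, abs_of_nonneg hw0]
      have := mul_le_mul hw.2 a3 (abs_nonneg _) (by norm_num : (0 : ℝ) ≤ 4.75)
      refine this.trans (by norm_num)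
    have h6 := aux_phi_lip_j9285 hb (x := 4.75) (y := z) ⟨by norm_num, le_refl _⟩ ⟨h, h'⟩
    have h7 : |z - 4.75| ≤ 0.015 := abs_le.mpr ⟨by linarith, by linarith⟩
    have h8 := abs_le.mp (h6.trans (mul_le_mul_of_nonneg_left h7 (by norm_num)))
    exact abs_le.mpr ⟨by linarith [phi_tab_19.1, h8.1], by linarith [phi_tab_19.2, h8.2]⟩
  · exact aux_from_j9285 4.75 0.1496 (by norm_num) (by norm_num) (by linarith [phi_tab_19.1])
      (by norm_num) z h'
theorem phi_lobe5 (z : ℝ) (hz : 5 ≤ z) : |phi 1 z| ≤ 0.1441 :=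
  aux_from_j9285 5 0.1441 (by norm_num) (by norm_num) (by linarith [phi_tab_20.1]) (by norm_num) z hz
theorem phi_lobe525 (z : ℝ) (hz : 5.25 ≤ z) : |phi 1 z| ≤ 0.1299 :=
  aux_from_j9285 5.25 0.1299 (by norm_num) (by norm_num) (by linarith [aux_phi_5_25_j9285.1]) (by norm_num) z hz
theorem phi_lobe55 (z : ℝ) (hz : 5.5 ≤ z) : |phi 1 z| ≤ 0.1086 :=
  aux_from_j9285 5.5 0.1086 (by norm_num) (by norm_num) (by linarith [aux_phi_5_5_j9285.1]) (by norm_num) z hz
theorem phi_lobe575 (z : ℝ) (hz : 5.75 ≤ z) : |phi 1 z| ≤ 0.0903 :=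
  aux_from_j9285 5.75 0.0903 (by norm_num) (by norm_num) (by linarith [aux_phi_5_75_j9285.1]) (by norm_num) z hz
theorem psi_late (z : ℝ) (hz : 4.5 ≤ z) : |psi 1 z| ≤ 0.0201 := by
  rcases le_total z 5.9 with h | h
  · have h1 := psi_antitone (a := 4.5) (b := z) ⟨by norm_num, by norm_num⟩ ⟨by linarith, h⟩ hz
    have h2 := psi_antitone (a := z) (b := 5.9) ⟨by linarith, h⟩ ⟨by norm_num, le_refl _⟩ h
    exact abs_le.mpr ⟨by linarith [aux_psi_5_9_j9285.1], by linarith [psi_tab_18.2]⟩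
  rcases le_total z 6.11 with h' | h'
  · exact abs_le.mpr ⟨by linarith [aux_psi_mid_j9285 z h h'],
      by linarith [aux_psi_neg_j9285 z (by linarith) (by linarith)]⟩
  · refine (psi_decay z (by linarith)).trans ?_
    have : (6.11 : ℝ) ^ 2 ≤ z ^ 2 := pow_le_pow_left₀ (by norm_num) h' 2
    rw [div_le_iff₀ (by positivity)]
    norm_num at this ⊢
    linarith



end Pool.Agent.Helper82.GC
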