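import Pool.Agent.Helper82.GC.J9261

set_option autoImplicit false

open MeasureTheory Set

namespace Pool.Agent.Helper82.GC


private noncomputable def Pp_j9286 (x : ℝ) : ℝ := (1 : ℝ) * x ^ 0 + ((-29112509477 / 200000000000) : ℝ) * x ^ 1 + ((6854182462083 / 1000000000000000) : ℝ) * x ^ 2 + ((-78907632097 / 500000000000000) : ℝ) * x ^ 3 + ((1072842589 / 500000000000000) : ℝ) * x ^ 4 + ((-19221597 / 1000000000000000) : ℝ) * x ^ 5 + ((121899 / 1000000000000000) : ℝ) * x ^ 6 + ((-9 / 15625000000000) : ℝ) * x ^ 7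

private noncomputable def Qp_j9286 (x : ℝ) : ℝ := ((29112509477 / 100000000000) : ℝ) * x ^ 0 + ((-27416729848333 / 1000000000000000) : ℝ) * x ^ 1 + ((946891585167 / 1000000000000000) : ℝ) * x ^ 2 + ((-17165481423 / 1000000000000000) : ℝ) * x ^ 3 + ((192215973 / 1000000000000000) : ℝ) * x ^ 4 + ((-731393 / 500000000000000) : ℝ) * x ^ 5 + ((403 / 50000000000000) : ℝ) * x ^ 6 + ((-17 / 500000000000000) : ℝ) * x ^ 7

private noncomputable def Rp_j9286 (x : ℝ) : ℝ := ((54833459696667 / 1000000000000000) : ℝ) * x ^ 0 + ((-3787566340667 / 1000000000000000) : ℝ) * x ^ 1 + ((12874111067 / 125000000000000) : ℝ) * x ^ 2 + ((-1537727781 / 1000000000000000) : ℝ) * x ^ 3 + ((14627863 / 1000000000000000) : ℝ) * x ^ 4 + ((-24181 / 250000000000000) : ℝ) * x ^ 5 + ((471 / 1000000000000000) : ℝ) * x ^ 6 + ((-1 / 500000000000000) : ℝ) * x ^ 7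

private theorem seg0_j9286 (x : ℝ) (h0 : 0 ≤ x) (h1 : x ≤ (3 / 4)) :
    0 ≤ Qp_j9286 x ^ 2 - Rp_j9286 x * Pp_j9286 x - (0.0296 + 0.004 * x + 0.0009 * x ^ 2) * Pp_j9286 x ^ 2 - 1 / 100000 := by
  obtain ⟨t, rfl⟩ : ∃ t, x = 0 + t := ⟨x - 0, by ring⟩
  have t0 : 0 ≤ t := by linarith
  have t1 : t ≤ (3 / 4) := by linarith
  have key : Qp_j9286 (0 + t) ^ 2 - Rp_j9286 (0 + t) * Pp_j9286 (0 + t) - (0.0296 + 0.004 * (0 + t) + 0.0009 * (0 + t) ^ 2) * Pp_j9286 (0 + t) ^ 2 - 1 / 100000 = ((3103611081744813529 / 10000000000000000000000) : ℝ) * t ^ 0 + ((16926842819188528441159 / 40000000000000000000000000) : ℝ) * t ^ 1 + ((-15487495230585978834067921 / 31250000000000000000000000000) : ℝ) * t ^ 2 + ((180060450518846702855292473 / 1000000000000000000000000000000) : ℝ) * t ^ 3 + ((-30938136764115984671041250143 / 1250000000000000000000000000000000) : ℝ) * t ^ 4 + ((2211318078991220847683665853 / 1250000000000000000000000000000000)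 : ℝ) * t ^ 5 + ((-155765560443199012600330461 / 2000000000000000000000000000000000) : ℝ) * t ^ 6 + ((5827807505179505423179403 / 2500000000000000000000000000000000) : ℝ) * t ^ 7 + ((-63242745420700417607 / 1250000000000000000000000000000) : ℝ) * t ^ 8 + ((4166690390018270711747 / 5000000000000000000000000000000000) : ℝ) * t ^ 9 + ((-53872344785341104561 / 5000000000000000000000000000000000) : ℝ) * t ^ 10 + ((139854363119216469 / 1250000000000000000000000000000000) : ℝ) * t ^ 11 + ((-9393984085442709 / 10000000000000000000000000000000000) : ℝ) * t ^ 12 + ((31491638480083 / 5000000000000000000000000000000000) : ℝ) * t ^ 13 + ((-327504873281 / 10000000000000000000000000000000000) : ℝ) * t ^ 14 + ((9770139 / 78125000000000000000000000000000) : ℝ) * t ^ 15 + ((-729 / 2441406250000000000000000000000) : ℝ) * t ^ 16 := by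
    unfold Pp_j9286 Qp_j9286 Rp_j9286
    ring
  rw [key]
  have p1 : 0 ≤ t ^ 1 := by positivity
  have r1 : t ^ 1 ≤ ((3 / 4) : ℝ) ^ 1 := pow_le_pow_left₀ t0 t1 1
  norm_num at r1
  have p2 : 0 ≤ t ^ 2 := by positivity
  have r2 : t ^ 2 ≤ ((3 / 4) : ℝ) ^ 2 := pow_le_pow_left₀ t0 t1 2
  norm_num at r2
  have p3 : 0 ≤ t ^ 3 := by positivity
  have r3 : t ^ 3 ≤ ((3 / 4) : ℝ) ^ 3 := pow_le_pow_left₀ t0 t1 3
  norm_num at r3
  have p4 : 0 ≤ t ^ 4 := by positivity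
  have r4 : t ^ 4 ≤ ((3 / 4) : ℝ) ^ 4 := pow_le_pow_left₀ t0 t1 4
  norm_num at r4
  have p5 : 0 ≤ t ^ 5 := by positivity
  have r5 : t ^ 5 ≤ ((3 / 4) : ℝ) ^ 5 := pow_le_pow_left₀ t0 t1 5
  norm_num at r5
  have p6 : 0 ≤ t ^ 6 := by positivity
  have r6 : t ^ 6 ≤ ((3 / 4) : ℝ) ^ 6 := pow_le_pow_left₀ t0 t1 6
  norm_num at r6
  have p7 : 0 ≤ t ^ 7 := by positivity
  have r7 : t ^ 7 ≤ ((3 / 4) : ℝ) ^ 7 := pow_le_pow_left₀ t0 t1 7
  norm_num at r7
  have p8 : 0 ≤ t ^ 8 := by positivity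
  have r8 : t ^ 8 ≤ ((3 / 4) : ℝ) ^ 8 := pow_le_pow_left₀ t0 t1 8
  norm_num at r8
  have p9 : 0 ≤ t ^ 9 := by positivity
  have r9 : t ^ 9 ≤ ((3 / 4) : ℝ) ^ 9 := pow_le_pow_left₀ t0 t1 9
  norm_num at r9
  have p10 : 0 ≤ t ^ 10 := by positivity
  have r10 : t ^ 10 ≤ ((3 / 4) : ℝ) ^ 10 := pow_le_pow_left₀ t0 t1 10
  norm_num at r10
  have p11 : 0 ≤ t ^ 11 := by positivity
  have r11 : t ^ 11 ≤ ((3 / 4) : ℝ) ^ 11 := pow_le_pow_left₀ t0 t1 11
  norm_num at r11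
  have p12 : 0 ≤ t ^ 12 := by positivity
  have r12 : t ^ 12 ≤ ((3 / 4) : ℝ) ^ 12 := pow_le_pow_left₀ t0 t1 12
  norm_num at r12
  have p13 : 0 ≤ t ^ 13 := by positivity
  have r13 : t ^ 13 ≤ ((3 / 4) : ℝ) ^ 13 := pow_le_pow_left₀ t0 t1 13
  norm_num at r13
  have p14 : 0 ≤ t ^ 14 := by positivity
  have r14 : t ^ 14 ≤ ((3 / 4) : ℝ) ^ 14 := pow_le_pow_left₀ t0 t1 14
  norm_num at r14
  have p15 : 0 ≤ t ^ 15 := by positivity
  have r15 : t ^ 15 ≤ ((3 / 4) : ℝ) ^ 15 := pow_le_pow_left₀ t0 t1 15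
  norm_num at r15
  have p16 : 0 ≤ t ^ 16 := by positivity
  have r16 : t ^ 16 ≤ ((3 / 4) : ℝ) ^ 16 := pow_le_pow_left₀ t0 t1 16
  norm_num at r16
  linarith [p1, r1, p2, r2, p3, r3, p4, r4, p5, r5, p6, r6, p7, r7, p8, r8, p9, r9, p10, r10, p11, r11, p12, r12, p13, r13, p14, r14, p15, r15, p16, r16]

private theorem seg1_j9286 (x : ℝ) (h0 : (3 / 4) ≤ x) (h1 : x ≤ (3 / 2)) :
    0 ≤ Qp_j9286 x ^ 2 - Rp_j9286 x * Pp_j9286 x - (0.0296 + 0.004 * x + 0.0009 * x ^ 2) * Pp_j9286 x ^ 2 - 1 / 100000 := by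
  obtain ⟨t, rfl⟩ : ∃ t, x = (3 / 4) + t := ⟨x - (3 / 4), by ring⟩
  have t0 : 0 ≤ t := by linarith
  have t1 : t ≤ (3 / 4) := by linarith
  have key : Qp_j9286 ((3 / 4) + t) ^ 2 - Rp_j9286 ((3 / 4) + t) * Pp_j9286 ((3 / 4) + t) - (0.0296 + 0.004 * ((3 / 4) + t) + 0.0009 * ((3 / 4) + t) ^ 2) * Pp_j9286 ((3 / 4) + t) ^ 2 - 1 / 100000 = ((1120724828799125748276477914805155282527 / 2684354560000000000000000000000000000000000) : ℝ) * t ^ 0 + ((-18606776865848981915436417587242669753 / 335544320000000000000000000000000000000000) : ℝ) * t ^ 1 + ((-27999810303888746744443117413439646843 / 167772160000000000000000000000000000000000) : ℝ) * t ^ 2 + ((1207203245449476019055340107578127219 / 10485760000000000000000000000000000000000) : ℝ) * t ^ 3 + ((-39301397521244555933326621468451509 / 2097152000000000000000000000000000000000) : ℝ) * t ^ 4 + ((1893932259599031490347590427300617 / 1310720000000000000000000000000000000000)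 : ℝ) * t ^ 5 + ((-43524040579202372764076016674523 / 655360000000000000000000000000000000000) : ℝ) * t ^ 6 + ((8371810181955422572652570381 / 4096000000000000000000000000000000000) : ℝ) * t ^ 7 + ((-1852794885697092540711627931 / 40960000000000000000000000000000000000) : ℝ) * t ^ 8 + ((774046902091149701137813 / 1024000000000000000000000000000000000) : ℝ) * t ^ 9 + ((-25307022535488055635273 / 2560000000000000000000000000000000000) : ℝ) * t ^ 10 + ((16592042944269893187 / 160000000000000000000000000000000000) : ℝ) * t ^ 11 + ((-140742767327580987 / 160000000000000000000000000000000000) : ℝ) * t ^ 12 + ((119235265205671 / 20000000000000000000000000000000000) : ℝ) * t ^ 13 + ((-313637427041 / 10000000000000000000000000000000000) : ℝ) * t ^ 14 + ((9490203 / 78125000000000000000000000000000) : ℝ) * t ^ 15 + ((-729 / 2441406250000000000000000000000) : ℝ) * t ^ 16 := by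
    unfold Pp_j9286 Qp_j9286 Rp_j9286
    ring
  rw [key]
  have p1 : 0 ≤ t ^ 1 := by positivity
  have r1 : t ^ 1 ≤ ((3 / 4) : ℝ) ^ 1 := pow_le_pow_left₀ t0 t1 1
  norm_num at r1
  have p2 : 0 ≤ t ^ 2 := by positivity
  have r2 : t ^ 2 ≤ ((3 / 4) : ℝ) ^ 2 := pow_le_pow_left₀ t0 t1 2
  norm_num at r2
  have p3 : 0 ≤ t ^ 3 := by positivity
  have r3 : t ^ 3 ≤ ((3 / 4) : ℝ) ^ 3 := pow_le_pow_left₀ t0 t1 3
  norm_num at r3
  have p4 : 0 ≤ t ^ 4 := by positivity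
  have r4 : t ^ 4 ≤ ((3 / 4) : ℝ) ^ 4 := pow_le_pow_left₀ t0 t1 4
  norm_num at r4
  have p5 : 0 ≤ t ^ 5 := by positivity
  have r5 : t ^ 5 ≤ ((3 / 4) : ℝ) ^ 5 := pow_le_pow_left₀ t0 t1 5
  norm_num at r5
  have p6 : 0 ≤ t ^ 6 := by positivity
  have r6 : t ^ 6 ≤ ((3 / 4) : ℝ) ^ 6 := pow_le_pow_left₀ t0 t1 6
  norm_num at r6
  have p7 : 0 ≤ t ^ 7 := by positivity
  have r7 : t ^ 7 ≤ ((3 / 4) : ℝ) ^ 7 := pow_le_pow_left₀ t0 t1 7
  norm_num at r7
  have p8 : 0 ≤ t ^ 8 := by positivity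
  have r8 : t ^ 8 ≤ ((3 / 4) : ℝ) ^ 8 := pow_le_pow_left₀ t0 t1 8
  norm_num at r8
  have p9 : 0 ≤ t ^ 9 := by positivity
  have r9 : t ^ 9 ≤ ((3 / 4) : ℝ) ^ 9 := pow_le_pow_left₀ t0 t1 9
  norm_num at r9
  have p10 : 0 ≤ t ^ 10 := by positivity
  have r10 : t ^ 10 ≤ ((3 / 4) : ℝ) ^ 10 := pow_le_pow_left₀ t0 t1 10
  norm_num at r10
  have p11 : 0 ≤ t ^ 11 := by positivity
  have r11 : t ^ 11 ≤ ((3 / 4) : ℝ) ^ 11 := pow_le_pow_left₀ t0 t1 11
  norm_num at r11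
  have p12 : 0 ≤ t ^ 12 := by positivity
  have r12 : t ^ 12 ≤ ((3 / 4) : ℝ) ^ 12 := pow_le_pow_left₀ t0 t1 12
  norm_num at r12
  have p13 : 0 ≤ t ^ 13 := by positivity
  have r13 : t ^ 13 ≤ ((3 / 4) : ℝ) ^ 13 := pow_le_pow_left₀ t0 t1 13
  norm_num at r13
  have p14 : 0 ≤ t ^ 14 := by positivity
  have r14 : t ^ 14 ≤ ((3 / 4) : ℝ) ^ 14 := pow_le_pow_left₀ t0 t1 14
  norm_num at r14
  have p15 : 0 ≤ t ^ 15 := by positivity
  have r15 : t ^ 15 ≤ ((3 / 4) : ℝ) ^ 15 := pow_le_pow_left₀ t0 t1 15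
  norm_num at r15
  have p16 : 0 ≤ t ^ 16 := by positivity
  have r16 : t ^ 16 ≤ ((3 / 4) : ℝ) ^ 16 := pow_le_pow_left₀ t0 t1 16
  norm_num at r16
  linarith [p1, r1, p2, r2, p3, r3, p4, r4, p5, r5, p6, r6, p7, r7, p8, r8, p9, r9, p10, r10, p11, r11, p12, r12, p13, r13, p14, r14, p15, r15, p16, r16]

private theorem seg2_j9286 (x : ℝ) (h0 : (3 / 2) ≤ x) (h1 : x ≤ 3) :
    0 ≤ Qp_j9286 x ^ 2 - Rp_j9286 x * Pp_j9286 x - (0.0296 + 0.004 * x + 0.0009 * x ^ 2) * Pp_j9286 x ^ 2 - 1 / 100000 := by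
  obtain ⟨t, rfl⟩ : ∃ t, x = (3 / 2) + t := ⟨x - (3 / 2), by ring⟩
  have t0 : 0 ≤ t := by linarith
  have t1 : t ≤ (3 / 2) := by linarith
  have key : Qp_j9286 ((3 / 2) + t) ^ 2 - Rp_j9286 ((3 / 2) + t) * Pp_j9286 ((3 / 2) + t) - (0.0296 + 0.004 * ((3 / 2) + t) + 0.0009 * ((3 / 2) + t) ^ 2) * Pp_j9286 ((3 / 2) + t) ^ 2 - 1 / 100000 = ((10649855978939158252378079143208651 / 32768000000000000000000000000000000000) : ℝ) * t ^ 0 + ((-5773005111042770402259647436403103 / 40960000000000000000000000000000000000) : ℝ) * t ^ 1 + ((1420811169214691789909612586276037 / 40960000000000000000000000000000000000) : ℝ) * t ^ 2 + ((340461251611956136553519708987149 / 5120000000000000000000000000000000000) : ℝ) * t ^ 3 + ((-141854085007514569556799810447281 / 10240000000000000000000000000000000000) : ℝ) * t ^ 4 + ((2993162812029016065152474008063 / 2560000000000000000000000000000000000) : ℝ) * t ^ 5 + ((-144302703395684274996582589371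 / 2560000000000000000000000000000000000) : ℝ) * t ^ 6 + ((285969721153970050445332787 / 160000000000000000000000000000000000) : ℝ) * t ^ 7 + ((-25840022894346634283304019 / 640000000000000000000000000000000000) : ℝ) * t ^ 8 + ((109582628709101724347791 / 160000000000000000000000000000000000) : ℝ) * t ^ 9 + ((-1449916113169877180553 / 160000000000000000000000000000000000) : ℝ) * t ^ 10 + ((1920805919250396813 / 20000000000000000000000000000000000) : ℝ) * t ^ 11 + ((-32923895604447987 / 40000000000000000000000000000000000) : ℝ) * t ^ 12 + ((11279096022973 / 2000000000000000000000000000000000) : ℝ) * t ^ 13 + ((-300173088641 / 10000000000000000000000000000000000) : ℝ) * t ^ 14 + ((9210267 / 78125000000000000000000000000000) : ℝ) * t ^ 15 + ((-729 / 2441406250000000000000000000000) : ℝ) * t ^ 16 := by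
    unfold Pp_j9286 Qp_j9286 Rp_j9286
    ring
  rw [key]
  have p1 : 0 ≤ t ^ 1 := by positivity
  have r1 : t ^ 1 ≤ ((3 / 2) : ℝ) ^ 1 := pow_le_pow_left₀ t0 t1 1
  norm_num at r1
  have p2 : 0 ≤ t ^ 2 := by positivity
  have r2 : t ^ 2 ≤ ((3 / 2) : ℝ) ^ 2 := pow_le_pow_left₀ t0 t1 2
  norm_num at r2
  have p3 : 0 ≤ t ^ 3 := by positivity
  have r3 : t ^ 3 ≤ ((3 / 2) : ℝ) ^ 3 := pow_le_pow_left₀ t0 t1 3
  norm_num at r3
  have p4 : 0 ≤ t ^ 4 := by positivity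
  have r4 : t ^ 4 ≤ ((3 / 2) : ℝ) ^ 4 := pow_le_pow_left₀ t0 t1 4
  norm_num at r4
  have p5 : 0 ≤ t ^ 5 := by positivity
  have r5 : t ^ 5 ≤ ((3 / 2) : ℝ) ^ 5 := pow_le_pow_left₀ t0 t1 5
  norm_num at r5
  have p6 : 0 ≤ t ^ 6 := by positivity
  have r6 : t ^ 6 ≤ ((3 / 2) : ℝ) ^ 6 := pow_le_pow_left₀ t0 t1 6
  norm_num at r6
  have p7 : 0 ≤ t ^ 7 := by positivity
  have r7 : t ^ 7 ≤ ((3 / 2) : ℝ) ^ 7 := pow_le_pow_left₀ t0 t1 7
  norm_num at r7
  have p8 : 0 ≤ t ^ 8 := by positivity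
  have r8 : t ^ 8 ≤ ((3 / 2) : ℝ) ^ 8 := pow_le_pow_left₀ t0 t1 8
  norm_num at r8
  have p9 : 0 ≤ t ^ 9 := by positivity
  have r9 : t ^ 9 ≤ ((3 / 2) : ℝ) ^ 9 := pow_le_pow_left₀ t0 t1 9
  norm_num at r9
  have p10 : 0 ≤ t ^ 10 := by positivity
  have r10 : t ^ 10 ≤ ((3 / 2) : ℝ) ^ 10 := pow_le_pow_left₀ t0 t1 10
  norm_num at r10
  have p11 : 0 ≤ t ^ 11 := by positivity
  have r11 : t ^ 11 ≤ ((3 / 2) : ℝ) ^ 11 := pow_le_pow_left₀ t0 t1 11
  norm_num at r11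
  have p12 : 0 ≤ t ^ 12 := by positivity
  have r12 : t ^ 12 ≤ ((3 / 2) : ℝ) ^ 12 := pow_le_pow_left₀ t0 t1 12
  norm_num at r12
  have p13 : 0 ≤ t ^ 13 := by positivity
  have r13 : t ^ 13 ≤ ((3 / 2) : ℝ) ^ 13 := pow_le_pow_left₀ t0 t1 13
  norm_num at r13
  have p14 : 0 ≤ t ^ 14 := by positivity
  have r14 : t ^ 14 ≤ ((3 / 2) : ℝ) ^ 14 := pow_le_pow_left₀ t0 t1 14
  norm_num at r14
  have p15 : 0 ≤ t ^ 15 := by positivity
  have r15 : t ^ 15 ≤ ((3 / 2) : ℝ) ^ 15 := pow_le_pow_left₀ t0 t1 15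
  norm_num at r15
  have p16 : 0 ≤ t ^ 16 := by positivity
  have r16 : t ^ 16 ≤ ((3 / 2) : ℝ) ^ 16 := pow_le_pow_left₀ t0 t1 16
  norm_num at r16
  linarith [p1, r1, p2, r2, p3, r3, p4, r4, p5, r5, p6, r6, p7, r7, p8, r8, p9, r9, p10, r10, p11, r11, p12, r12, p13, r13, p14, r14, p15, r15, p16, r16]

private theorem seg3_j9286 (x : ℝ) (h0 : 3 ≤ x) (h1 : x ≤ (9 / 2)) :
    0 ≤ Qp_j9286 x ^ 2 - Rp_j9286 x * Pp_j9286 x - (0.0296 + 0.004 * x + 0.0009 * x ^ 2) * Pp_j9286 x ^ 2 - 1 / 100000 := by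
  obtain ⟨t, rfl⟩ : ∃ t, x = 3 + t := ⟨x - 3, by ring⟩
  have t0 : 0 ≤ t := by linarith
  have t1 : t ≤ (3 / 2) := by linarith
  have key : Qp_j9286 (3 + t) ^ 2 - Rp_j9286 (3 + t) * Pp_j9286 (3 + t) - (0.0296 + 0.004 * (3 + t) + 0.0009 * (3 + t) ^ 2) * Pp_j9286 (3 + t) ^ 2 - 1 / 100000 = ((141680914343586748302467626927 / 400000000000000000000000000000000) : ℝ) * t ^ 0 + ((126060390103481195092500530051 / 500000000000000000000000000000000) : ℝ) * t ^ 1 + ((911796824644493859759844959281 / 5000000000000000000000000000000000) : ℝ) * t ^ 2 + ((15452764086676391673956882153 / 2500000000000000000000000000000000) : ℝ) * t ^ 3 + ((-67888821844777536258564061961 / 10000000000000000000000000000000000) : ℝ) * t ^ 4 + ((739129611692540970465624361 / 1000000000000000000000000000000000) : ℝ) * t ^ 5 + ((-3121894271106947641501029 / 78125000000000000000000000000000) : ℝ) * t ^ 6 + ((3386930097658237721654951 / 2500000000000000000000000000000000)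 : ℝ) * t ^ 7 + ((-9998453938743599173139 / 312500000000000000000000000000000) : ℝ) * t ^ 8 + ((2801277971778622914629 / 5000000000000000000000000000000000) : ℝ) * t ^ 9 + ((-75942466660697493681 / 10000000000000000000000000000000000) : ℝ) * t ^ 10 + ((205445530286929089 / 2500000000000000000000000000000000) : ℝ) * t ^ 11 + ((-3595469810399967 / 5000000000000000000000000000000000) : ℝ) * t ^ 12 + ((12591180054431 / 2500000000000000000000000000000000) : ℝ) * t ^ 13 + ((-274453735361 / 10000000000000000000000000000000000) : ℝ) * t ^ 14 + ((1730079 / 15625000000000000000000000000000) : ℝ) * t ^ 15 + ((-729 / 2441406250000000000000000000000) : ℝ) * t ^ 16 := by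
    unfold Pp_j9286 Qp_j9286 Rp_j9286
    ring
  rw [key]
  have p1 : 0 ≤ t ^ 1 := by positivity
  have r1 : t ^ 1 ≤ ((3 / 2) : ℝ) ^ 1 := pow_le_pow_left₀ t0 t1 1
  norm_num at r1
  have p2 : 0 ≤ t ^ 2 := by positivity
  have r2 : t ^ 2 ≤ ((3 / 2) : ℝ) ^ 2 := pow_le_pow_left₀ t0 t1 2
  norm_num at r2
  have p3 : 0 ≤ t ^ 3 := by positivity
  have r3 : t ^ 3 ≤ ((3 / 2) : ℝ) ^ 3 := pow_le_pow_left₀ t0 t1 3
  norm_num at r3
  have p4 : 0 ≤ t ^ 4 := by positivity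
  have r4 : t ^ 4 ≤ ((3 / 2) : ℝ) ^ 4 := pow_le_pow_left₀ t0 t1 4
  norm_num at r4
  have p5 : 0 ≤ t ^ 5 := by positivity
  have r5 : t ^ 5 ≤ ((3 / 2) : ℝ) ^ 5 := pow_le_pow_left₀ t0 t1 5
  norm_num at r5
  have p6 : 0 ≤ t ^ 6 := by positivity
  have r6 : t ^ 6 ≤ ((3 / 2) : ℝ) ^ 6 := pow_le_pow_left₀ t0 t1 6
  norm_num at r6
  have p7 : 0 ≤ t ^ 7 := by positivity
  have r7 : t ^ 7 ≤ ((3 / 2) : ℝ) ^ 7 := pow_le_pow_left₀ t0 t1 7
  norm_num at r7
  have p8 : 0 ≤ t ^ 8 := by positivity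
  have r8 : t ^ 8 ≤ ((3 / 2) : ℝ) ^ 8 := pow_le_pow_left₀ t0 t1 8
  norm_num at r8
  have p9 : 0 ≤ t ^ 9 := by positivity
  have r9 : t ^ 9 ≤ ((3 / 2) : ℝ) ^ 9 := pow_le_pow_left₀ t0 t1 9
  norm_num at r9
  have p10 : 0 ≤ t ^ 10 := by positivity
  have r10 : t ^ 10 ≤ ((3 / 2) : ℝ) ^ 10 := pow_le_pow_left₀ t0 t1 10
  norm_num at r10
  have p11 : 0 ≤ t ^ 11 := by positivity
  have r11 : t ^ 11 ≤ ((3 / 2) : ℝ) ^ 11 := pow_le_pow_left₀ t0 t1 11
  norm_num at r11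
  have p12 : 0 ≤ t ^ 12 := by positivity
  have r12 : t ^ 12 ≤ ((3 / 2) : ℝ) ^ 12 := pow_le_pow_left₀ t0 t1 12
  norm_num at r12
  have p13 : 0 ≤ t ^ 13 := by positivity
  have r13 : t ^ 13 ≤ ((3 / 2) : ℝ) ^ 13 := pow_le_pow_left₀ t0 t1 13
  norm_num at r13
  have p14 : 0 ≤ t ^ 14 := by positivity
  have r14 : t ^ 14 ≤ ((3 / 2) : ℝ) ^ 14 := pow_le_pow_left₀ t0 t1 14
  norm_num at r14
  have p15 : 0 ≤ t ^ 15 := by positivity
  have r15 : t ^ 15 ≤ ((3 / 2) : ℝ) ^ 15 := pow_le_pow_left₀ t0 t1 15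
  norm_num at r15
  have p16 : 0 ≤ t ^ 16 := by positivity
  have r16 : t ^ 16 ≤ ((3 / 2) : ℝ) ^ 16 := pow_le_pow_left₀ t0 t1 16
  norm_num at r16
  linarith [p1, r1, p2, r2, p3, r3, p4, r4, p5, r5, p6, r6, p7, r7, p8, r8, p9, r9, p10, r10, p11, r11, p12, r12, p13, r13, p14, r14, p15, r15, p16, r16]

private theorem seg4_j9286 (x : ℝ) (h0 : (9 / 2) ≤ x) (h1 : x ≤ 6) :
    0 ≤ Qp_j9286 x ^ 2 - Rp_j9286 x * Pp_j9286 x - (0.0296 + 0.004 * x + 0.0009 * x ^ 2) * Pp_j9286 x ^ 2 - 1 / 100000 := by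
  obtain ⟨t, rfl⟩ : ∃ t, x = (9 / 2) + t := ⟨x - (9 / 2), by ring⟩
  have t0 : 0 ≤ t := by linarith
  have t1 : t ≤ (3 / 2) := by linarith
  have key : Qp_j9286 ((9 / 2) + t) ^ 2 - Rp_j9286 ((9 / 2) + t) * Pp_j9286 ((9 / 2) + t) - (0.0296 + 0.004 * ((9 / 2) + t) + 0.0009 * ((9 / 2) + t) ^ 2) * Pp_j9286 ((9 / 2) + t) ^ 2 - 1 / 100000 = ((185854277170130629092194583090481543 / 163840000000000000000000000000000000000) : ℝ) * t ^ 0 + ((31386162505027209977588873411585431 / 40960000000000000000000000000000000000) : ℝ) * t ^ 1 + ((5760686053843169372332192036190437 / 40960000000000000000000000000000000000) : ℝ) * t ^ 2 + ((-104407676182058724352639601418197 / 5120000000000000000000000000000000000) : ℝ) * t ^ 3 + ((-5007064828536916199411752207501 / 2048000000000000000000000000000000000) : ℝ) * t ^ 4 + ((1120759216524961277252623788361 / 2560000000000000000000000000000000000) : ℝ) * t ^ 5 + ((-70655459488094003987850409083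 / 2560000000000000000000000000000000000) : ℝ) * t ^ 6 + ((32424624066450153385878721 / 32000000000000000000000000000000000) : ℝ) * t ^ 7 + ((-16100166574249722691281379 / 640000000000000000000000000000000000) : ℝ) * t ^ 8 + ((14591850890000005534949 / 32000000000000000000000000000000000) : ℝ) * t ^ 9 + ((-1014458679732953987433 / 160000000000000000000000000000000000) : ℝ) * t ^ 10 + ((1401709204722852459 / 20000000000000000000000000000000000) : ℝ) * t ^ 11 + ((-25053396677353443 / 40000000000000000000000000000000000) : ℝ) * t ^ 12 + ((44857136210183 / 10000000000000000000000000000000000) : ℝ) * t ^ 13 + ((-250346813441 / 10000000000000000000000000000000000) : ℝ) * t ^ 14 + ((8090523 / 78125000000000000000000000000000) : ℝ) * t ^ 15 + ((-729 / 2441406250000000000000000000000) : ℝ) * t ^ 16 := by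
    unfold Pp_j9286 Qp_j9286 Rp_j9286
    ring
  rw [key]
  have p1 : 0 ≤ t ^ 1 := by positivity
  have r1 : t ^ 1 ≤ ((3 / 2) : ℝ) ^ 1 := pow_le_pow_left₀ t0 t1 1
  norm_num at r1
  have p2 : 0 ≤ t ^ 2 := by positivity
  have r2 : t ^ 2 ≤ ((3 / 2) : ℝ) ^ 2 := pow_le_pow_left₀ t0 t1 2
  norm_num at r2
  have p3 : 0 ≤ t ^ 3 := by positivity
  have r3 : t ^ 3 ≤ ((3 / 2) : ℝ) ^ 3 := pow_le_pow_left₀ t0 t1 3
  norm_num at r3
  have p4 : 0 ≤ t ^ 4 := by positivity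
  have r4 : t ^ 4 ≤ ((3 / 2) : ℝ) ^ 4 := pow_le_pow_left₀ t0 t1 4
  norm_num at r4
  have p5 : 0 ≤ t ^ 5 := by positivity
  have r5 : t ^ 5 ≤ ((3 / 2) : ℝ) ^ 5 := pow_le_pow_left₀ t0 t1 5
  norm_num at r5
  have p6 : 0 ≤ t ^ 6 := by positivity
  have r6 : t ^ 6 ≤ ((3 / 2) : ℝ) ^ 6 := pow_le_pow_left₀ t0 t1 6
  norm_num at r6
  have p7 : 0 ≤ t ^ 7 := by positivity
  have r7 : t ^ 7 ≤ ((3 / 2) : ℝ) ^ 7 := pow_le_pow_left₀ t0 t1 7
  norm_num at r7
  have p8 : 0 ≤ t ^ 8 := by positivity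
  have r8 : t ^ 8 ≤ ((3 / 2) : ℝ) ^ 8 := pow_le_pow_left₀ t0 t1 8
  norm_num at r8
  have p9 : 0 ≤ t ^ 9 := by positivity
  have r9 : t ^ 9 ≤ ((3 / 2) : ℝ) ^ 9 := pow_le_pow_left₀ t0 t1 9
  norm_num at r9
  have p10 : 0 ≤ t ^ 10 := by positivity
  have r10 : t ^ 10 ≤ ((3 / 2) : ℝ) ^ 10 := pow_le_pow_left₀ t0 t1 10
  norm_num at r10
  have p11 : 0 ≤ t ^ 11 := by positivity
  have r11 : t ^ 11 ≤ ((3 / 2) : ℝ) ^ 11 := pow_le_pow_left₀ t0 t1 11
  norm_num at r11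
  have p12 : 0 ≤ t ^ 12 := by positivity
  have r12 : t ^ 12 ≤ ((3 / 2) : ℝ) ^ 12 := pow_le_pow_left₀ t0 t1 12
  norm_num at r12
  have p13 : 0 ≤ t ^ 13 := by positivity
  have r13 : t ^ 13 ≤ ((3 / 2) : ℝ) ^ 13 := pow_le_pow_left₀ t0 t1 13
  norm_num at r13
  have p14 : 0 ≤ t ^ 14 := by positivity
  have r14 : t ^ 14 ≤ ((3 / 2) : ℝ) ^ 14 := pow_le_pow_left₀ t0 t1 14
  norm_num at r14
  have p15 : 0 ≤ t ^ 15 := by positivity
  have r15 : t ^ 15 ≤ ((3 / 2) : ℝ) ^ 15 := pow_le_pow_left₀ t0 t1 15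
  norm_num at r15
  have p16 : 0 ≤ t ^ 16 := by positivity
  have r16 : t ^ 16 ≤ ((3 / 2) : ℝ) ^ 16 := pow_le_pow_left₀ t0 t1 16
  norm_num at r16
  linarith [p1, r1, p2, r2, p3, r3, p4, r4, p5, r5, p6, r6, p7, r7, p8, r8, p9, r9, p10, r10, p11, r11, p12, r12, p13, r13, p14, r14, p15, r15, p16, r16]

private theorem seg5_j9286 (x : ℝ) (h0 : 6 ≤ x) (h1 : x ≤ 9) :
    0 ≤ Qp_j9286 x ^ 2 - Rp_j9286 x * Pp_j9286 x - (0.0296 + 0.004 * x + 0.0009 * x ^ 2) * Pp_j9286 x ^ 2 - 1 / 100000 := by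
  obtain ⟨t, rfl⟩ : ∃ t, x = 6 + t := ⟨x - 6, by ring⟩
  have t0 : 0 ≤ t := by linarith
  have t1 : t ≤ 3 := by linarith
  have key : Qp_j9286 (6 + t) ^ 2 - Rp_j9286 (6 + t) * Pp_j9286 (6 + t) - (0.0296 + 0.004 * (6 + t) + 0.0009 * (6 + t) ^ 2) * Pp_j9286 (6 + t) ^ 2 - 1 / 100000 = ((78813448188216909778431499403 / 31250000000000000000000000000000) : ℝ) * t ^ 0 + ((80268613671777862031385891941 / 78125000000000000000000000000000) : ℝ) * t ^ 1 + ((717631148565311760429585079 / 25000000000000000000000000000000) : ℝ) * t ^ 2 + ((-16815348727205895878116564273 / 625000000000000000000000000000000) : ℝ) * t ^ 3 + ((45811660943828822060381071 / 2500000000000000000000000000000000) : ℝ) * t ^ 4 + ((581999920400664961784825389 / 2500000000000000000000000000000000) : ℝ) * t ^ 5 + ((-184225457421340677111420441 / 10000000000000000000000000000000000) : ℝ) * t ^ 6 + ((1864681396642392994496003 / 2500000000000000000000000000000000)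 : ℝ) * t ^ 7 + ((-9802516516135821312737 / 500000000000000000000000000000000) : ℝ) * t ^ 8 + ((1845568616242723690391 / 5000000000000000000000000000000000) : ℝ) * t ^ 9 + ((-5272762085020260369 / 1000000000000000000000000000000000) : ℝ) * t ^ 10 + ((37230390677732391 / 625000000000000000000000000000000) : ℝ) * t ^ 11 + ((-5438330762201037 / 10000000000000000000000000000000000) : ℝ) * t ^ 12 + ((19919433516841 / 5000000000000000000000000000000000) : ℝ) * t ^ 13 + ((-227852322881 / 10000000000000000000000000000000000) : ℝ) * t ^ 14 + ((7530651 / 78125000000000000000000000000000) : ℝ) * t ^ 15 + ((-729 / 2441406250000000000000000000000) : ℝ) * t ^ 16 := by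
    unfold Pp_j9286 Qp_j9286 Rp_j9286
    ring
  rw [key]
  have p1 : 0 ≤ t ^ 1 := by positivity
  have r1 : t ^ 1 ≤ (3 : ℝ) ^ 1 := pow_le_pow_left₀ t0 t1 1
  norm_num at r1
  have p2 : 0 ≤ t ^ 2 := by positivity
  have r2 : t ^ 2 ≤ (3 : ℝ) ^ 2 := pow_le_pow_left₀ t0 t1 2
  norm_num at r2
  have p3 : 0 ≤ t ^ 3 := by positivity
  have r3 : t ^ 3 ≤ (3 : ℝ) ^ 3 := pow_le_pow_left₀ t0 t1 3
  norm_num at r3
  have p4 : 0 ≤ t ^ 4 := by positivity
  have r4 : t ^ 4 ≤ (3 : ℝ) ^ 4 := pow_le_pow_left₀ t0 t1 4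
  norm_num at r4
  have p5 : 0 ≤ t ^ 5 := by positivity
  have r5 : t ^ 5 ≤ (3 : ℝ) ^ 5 := pow_le_pow_left₀ t0 t1 5
  norm_num at r5
  have p6 : 0 ≤ t ^ 6 := by positivity
  have r6 : t ^ 6 ≤ (3 : ℝ) ^ 6 := pow_le_pow_left₀ t0 t1 6
  norm_num at r6
  have p7 : 0 ≤ t ^ 7 := by positivity
  have r7 : t ^ 7 ≤ (3 : ℝ) ^ 7 := pow_le_pow_left₀ t0 t1 7
  norm_num at r7
  have p8 : 0 ≤ t ^ 8 := by positivity
  have r8 : t ^ 8 ≤ (3 : ℝ) ^ 8 := pow_le_pow_left₀ t0 t1 8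
  norm_num at r8
  have p9 : 0 ≤ t ^ 9 := by positivity
  have r9 : t ^ 9 ≤ (3 : ℝ) ^ 9 := pow_le_pow_left₀ t0 t1 9
  norm_num at r9
  have p10 : 0 ≤ t ^ 10 := by positivity
  have r10 : t ^ 10 ≤ (3 : ℝ) ^ 10 := pow_le_pow_left₀ t0 t1 10
  norm_num at r10
  have p11 : 0 ≤ t ^ 11 := by positivity
  have r11 : t ^ 11 ≤ (3 : ℝ) ^ 11 := pow_le_pow_left₀ t0 t1 11
  norm_num at r11
  have p12 : 0 ≤ t ^ 12 := by positivity
  have r12 : t ^ 12 ≤ (3 : ℝ) ^ 12 := pow_le_pow_left₀ t0 t1 12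
  norm_num at r12
  have p13 : 0 ≤ t ^ 13 := by positivity
  have r13 : t ^ 13 ≤ (3 : ℝ) ^ 13 := pow_le_pow_left₀ t0 t1 13
  norm_num at r13
  have p14 : 0 ≤ t ^ 14 := by positivity
  have r14 : t ^ 14 ≤ (3 : ℝ) ^ 14 := pow_le_pow_left₀ t0 t1 14
  norm_num at r14
  have p15 : 0 ≤ t ^ 15 := by positivity
  have r15 : t ^ 15 ≤ (3 : ℝ) ^ 15 := pow_le_pow_left₀ t0 t1 15
  norm_num at r15
  have p16 : 0 ≤ t ^ 16 := by positivity
  have r16 : t ^ 16 ≤ (3 : ℝ) ^ 16 := pow_le_pow_left₀ t0 t1 16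
  norm_num at r16
  linarith [p1, r1, p2, r2, p3, r3, p4, r4, p5, r5, p6, r6, p7, r7, p8, r8, p9, r9, p10, r10, p11, r11, p12, r12, p13, r13, p14, r14, p15, r15, p16, r16]

private theorem seg6_j9286 (x : ℝ) (h0 : 9 ≤ x) (h1 : x ≤ (49 / 4)) :
    0 ≤ Qp_j9286 x ^ 2 - Rp_j9286 x * Pp_j9286 x - (0.0296 + 0.004 * x + 0.0009 * x ^ 2) * Pp_j9286 x ^ 2 - 1 / 100000 := by
  obtain ⟨t, rfl⟩ : ∃ t, x = 9 + t := ⟨x - 9, by ring⟩
  have t0 : 0 ≤ t := by linarith
  have t1 : t ≤ (13 / 4) := by linarith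
  have key : Qp_j9286 (9 + t) ^ 2 - Rp_j9286 (9 + t) * Pp_j9286 (9 + t) - (0.0296 + 0.004 * (9 + t) + 0.0009 * (9 + t) ^ 2) * Pp_j9286 (9 + t) ^ 2 - 1 / 100000 = ((10364806937133427797512902722347 / 2000000000000000000000000000000000) : ℝ) * t ^ 0 + ((1365334045838173552595278341553 / 2500000000000000000000000000000000) : ℝ) * t ^ 1 + ((-842700345335864718029350008679 / 5000000000000000000000000000000000) : ℝ) * t ^ 2 + ((-34529486702397972395668349017 / 2500000000000000000000000000000000) : ℝ) * t ^ 3 + ((16275051388733826461279861731 / 10000000000000000000000000000000000) : ℝ) * t ^ 4 + ((79923468104861223630648389 / 5000000000000000000000000000000000) : ℝ) * t ^ 5 + ((-8682367967761165844176617 / 1250000000000000000000000000000000) : ℝ) * t ^ 6 + ((948383212874385321738143 / 2500000000000000000000000000000000) : ℝ) * t ^ 7 + ((-14412075670635303356027 / 1250000000000000000000000000000000) : ℝ) * t ^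 8 + ((1187034739872751786463 / 5000000000000000000000000000000000) : ℝ) * t ^ 9 + ((-36010495836931467753 / 10000000000000000000000000000000000) : ℝ) * t ^ 10 + ((106434325555132581 / 2500000000000000000000000000000000) : ℝ) * t ^ 11 + ((-2029912198001889 / 5000000000000000000000000000000000) : ℝ) * t ^ 12 + ((778370723489 / 250000000000000000000000000000000) : ℝ) * t ^ 13 + ((-187700635841 / 10000000000000000000000000000000000) : ℝ) * t ^ 14 + ((6410907 / 78125000000000000000000000000000) : ℝ) * t ^ 15 + ((-729 / 2441406250000000000000000000000) : ℝ) * t ^ 16 := by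
    unfold Pp_j9286 Qp_j9286 Rp_j9286
    ring
  rw [key]
  have p1 : 0 ≤ t ^ 1 := by positivity
  have r1 : t ^ 1 ≤ ((13 / 4) : ℝ) ^ 1 := pow_le_pow_left₀ t0 t1 1
  norm_num at r1
  have p2 : 0 ≤ t ^ 2 := by positivity
  have r2 : t ^ 2 ≤ ((13 / 4) : ℝ) ^ 2 := pow_le_pow_left₀ t0 t1 2
  norm_num at r2
  have p3 : 0 ≤ t ^ 3 := by positivity
  have r3 : t ^ 3 ≤ ((13 / 4) : ℝ) ^ 3 := pow_le_pow_left₀ t0 t1 3
  norm_num at r3
  have p4 : 0 ≤ t ^ 4 := by positivity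
  have r4 : t ^ 4 ≤ ((13 / 4) : ℝ) ^ 4 := pow_le_pow_left₀ t0 t1 4
  norm_num at r4
  have p5 : 0 ≤ t ^ 5 := by positivity
  have r5 : t ^ 5 ≤ ((13 / 4) : ℝ) ^ 5 := pow_le_pow_left₀ t0 t1 5
  norm_num at r5
  have p6 : 0 ≤ t ^ 6 := by positivity
  have r6 : t ^ 6 ≤ ((13 / 4) : ℝ) ^ 6 := pow_le_pow_left₀ t0 t1 6
  norm_num at r6
  have p7 : 0 ≤ t ^ 7 := by positivity
  have r7 : t ^ 7 ≤ ((13 / 4) : ℝ) ^ 7 := pow_le_pow_left₀ t0 t1 7
  norm_num at r7
  have p8 : 0 ≤ t ^ 8 := by positivity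
  have r8 : t ^ 8 ≤ ((13 / 4) : ℝ) ^ 8 := pow_le_pow_left₀ t0 t1 8
  norm_num at r8
  have p9 : 0 ≤ t ^ 9 := by positivity
  have r9 : t ^ 9 ≤ ((13 / 4) : ℝ) ^ 9 := pow_le_pow_left₀ t0 t1 9
  norm_num at r9
  have p10 : 0 ≤ t ^ 10 := by positivity
  have r10 : t ^ 10 ≤ ((13 / 4) : ℝ) ^ 10 := pow_le_pow_left₀ t0 t1 10
  norm_num at r10
  have p11 : 0 ≤ t ^ 11 := by positivity
  have r11 : t ^ 11 ≤ ((13 / 4) : ℝ) ^ 11 := pow_le_pow_left₀ t0 t1 11
  norm_num at r11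
  have p12 : 0 ≤ t ^ 12 := by positivity
  have r12 : t ^ 12 ≤ ((13 / 4) : ℝ) ^ 12 := pow_le_pow_left₀ t0 t1 12
  norm_num at r12
  have p13 : 0 ≤ t ^ 13 := by positivity
  have r13 : t ^ 13 ≤ ((13 / 4) : ℝ) ^ 13 := pow_le_pow_left₀ t0 t1 13
  norm_num at r13
  have p14 : 0 ≤ t ^ 14 := by positivity
  have r14 : t ^ 14 ≤ ((13 / 4) : ℝ) ^ 14 := pow_le_pow_left₀ t0 t1 14
  norm_num at r14
  have p15 : 0 ≤ t ^ 15 := by positivity
  have r15 : t ^ 15 ≤ ((13 / 4) : ℝ) ^ 15 := pow_le_pow_left₀ t0 t1 15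
  norm_num at r15
  have p16 : 0 ≤ t ^ 16 := by positivity
  have r16 : t ^ 16 ≤ ((13 / 4) : ℝ) ^ 16 := pow_le_pow_left₀ t0 t1 16
  norm_num at r16
  linarith [p1, r1, p2, r2, p3, r3, p4, r4, p5, r5, p6, r6, p7, r7, p8, r8, p9, r9, p10, r10, p11, r11, p12, r12, p13, r13, p14, r14, p15, r15, p16, r16]

private theorem poly_ineq_j9286 (x : ℝ) (h0 : 0 ≤ x) (h1 : x ≤ 49 / 4) :
    (0.0296 + 0.004 * x + 0.0009 * x ^ 2) * Pp_j9286 x ^ 2 + 1 / 100000 ≤ Qp_j9286 x ^ 2 - Rp_j9286 x * Pp_j9286 x := by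
  rcases le_total x (3 / 4) with h2 | h2
  · linarith [seg0_j9286 x (by linarith) h2]
  rcases le_total x (3 / 2) with h3 | h3
  · linarith [seg1_j9286 x (by linarith) h3]
  rcases le_total x 3 with h4 | h4
  · linarith [seg2_j9286 x (by linarith) h4]
  rcases le_total x (9 / 2) with h5 | h5
  · linarith [seg3_j9286 x (by linarith) h5]
  rcases le_total x 6 with h6 | h6
  · linarith [seg4_j9286 x (by linarith) h6]
  rcases le_total x 9 with h7 | h7
  · linarith [seg5_j9286 x (by linarith) h7]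
  linarith [seg6_j9286 x h7 h1]

private theorem tb_j9286 (d x δ X : ℝ) (k : ℕ) (hd : |d| ≤ δ) (h0 : 0 ≤ x) (h1 : x ≤ X) :
    |d * x ^ k| ≤ δ * X ^ k := by
  rw [abs_mul, abs_of_nonneg (pow_nonneg h0 k)]
  exact mul_le_mul hd (pow_le_pow_left₀ h0 h1 k) (pow_nonneg h0 k) ((abs_nonneg _).trans hd)

private theorem phi_p_j9286 (z x : ℝ) (hx : x = z ^ 2) (h0 : 0 ≤ x) (h1 : x ≤ 49 / 4) :
    |phi 1 z - Pp_j9286 x| ≤ 1 / 400000 := by
  have hT := phi_taylor 8 z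
  have hz : ∀ k : ℕ, z ^ (2 * k) = x ^ k := by intro k; rw [hx, pow_mul]
  simp only [hz] at hT
  simp only [Finset.sum_range_succ, Finset.sum_range_zero, Nat.factorial] at hT
  norm_num at hT
  have d1 : |((-1 / 2) : ℝ) * mom 1 - (-29112509477 / 200000000000)| ≤ (5001 / 1000000000000000) := by
    have := mom_1
    rw [abs_le]; constructor <;> linarith [this.1, this.2]
  have e1 := abs_le.1 (tb_j9286 _ x _ (49 / 4) 1 d1 h0 h1)
  norm_num at e1
  have d2 : |((1 / 24) : ℝ) * mom 2 - (6854182462083 / 1000000000000000)| ≤ (1253 / 3000000000000000) := by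
    have := mom_2
    rw [abs_le]; constructor <;> linarith [this.1, this.2]
  have e2 := abs_le.1 (tb_j9286 _ x _ (49 / 4) 2 d2 h0 h1)
  norm_num at e2
  have d3 : |((-1 / 720) : ℝ) * mom 3 - (-78907632097 / 500000000000000)| ≤ (67 / 4500000000000000) := by
    have := mom_3
    rw [abs_le]; constructor <;> linarith [this.1, this.2]
  have e3 := abs_le.1 (tb_j9286 _ x _ (49 / 4) 3 d3 h0 h1)
  norm_num at e3
  have d4 : |((1 / 40320) : ℝ) * mom 4 - (1072842589 / 500000000000000)| ≤ (629 / 504000000000000000) := by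
    have := mom_4
    rw [abs_le]; constructor <;> linarith [this.1, this.2]
  have e4 := abs_le.1 (tb_j9286 _ x _ (49 / 4) 4 d4 h0 h1)
  norm_num at e4
  have d5 : |((-1 / 3628800) : ℝ) * mom 5 - (-19221597 / 1000000000000000)| ≤ (9097 / 9072000000000000000) := by
    have := mom_5
    rw [abs_le]; constructor <;> linarith [this.1, this.2]
  have e5 := abs_le.1 (tb_j9286 _ x _ (49 / 4) 5 d5 h0 h1)
  norm_num at e5
  have d6 : |((1 / 479001600) : ℝ) * mom 6 - (121899 / 1000000000000000)| ≤ (1197529 / 1197504000000000000000) := by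
    have := mom_6
    rw [abs_le]; constructor <;> linarith [this.1, this.2]
  have e6 := abs_le.1 (tb_j9286 _ x _ (49 / 4) 6 d6 h0 h1)
  norm_num at e6
  have d7 : |((-1 / 87178291200) : ℝ) * mom 7 - (-9 / 15625000000000)| ≤ (217945753 / 217945728000000000000000) := by
    have := mom_7
    rw [abs_le]; constructor <;> linarith [this.1, this.2]
  have e7 := abs_le.1 (tb_j9286 _ x _ (49 / 4) 7 d7 h0 h1)
  norm_num at e7
  rw [mom_zero] at hT
  have hr : mom 8 * x ^ 8 ≤ 0.04400242310 * (49 / 4) ^ 8 :=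
    mul_le_mul mom_8.2.le (pow_le_pow_left₀ h0 h1 8) (pow_nonneg h0 8) (by norm_num)
  norm_num at hr
  have hr2 : mom 8 * x ^ 8 / 20922789888000 ≤ 11 / 10000000 := by linarith
  have hT2 := abs_le.1 (hT.trans hr2)
  unfold Pp_j9286
  rw [abs_le]
  constructor
  · linarith [hT2.1, hT2.2, e1.1, e1.2, e2.1, e2.2, e3.1, e3.2, e4.1, e4.2, e5.1, e5.2, e6.1, e6.2, e7.1, e7.2]
  · linarith [hT2.1, hT2.2, e1.1, e1.2, e2.1, e2.2, e3.1, e3.2, e4.1, e4.2, e5.1, e5.2, e6.1, e6.2, e7.1, e7.2]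

private theorem psi_p_j9286 (z x : ℝ) (hx : x = z ^ 2) (h0 : 0 ≤ x) (h1 : x ≤ 49 / 4) :
    |psi 1 z - Qp_j9286 x| ≤ 1 / 400000 := by
  have hT := psi_taylor 8 z
  have hz : ∀ k : ℕ, z ^ (2 * k) = x ^ k := by intro k; rw [hx, pow_mul]
  simp only [hz] at hT
  simp only [Finset.sum_range_succ, Finset.sum_range_zero, Nat.factorial] at hT
  norm_num at hT
  have d0 : |(1 : ℝ) * mom 1 - (29112509477 / 100000000000)| ≤ (10001 / 1000000000000000) := by
    have := mom_1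
    rw [abs_le]; constructor <;> linarith [this.1, this.2]
  have e0 := abs_le.1 (tb_j9286 _ x _ (49 / 4) 0 d0 h0 h1)
  norm_num at e0
  have d1 : |((-1 / 6) : ℝ) * mom 2 - (-27416729848333 / 1000000000000000)| ≤ (5003 / 3000000000000000) := by
    have := mom_2
    rw [abs_le]; constructor <;> linarith [this.1, this.2]
  have e1 := abs_le.1 (tb_j9286 _ x _ (49 / 4) 1 d1 h0 h1)
  norm_num at e1
  have d2 : |((1 / 120) : ℝ) * mom 3 - (946891585167 / 1000000000000000)| ≤ (253 / 3000000000000000) := by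
    have := mom_3
    rw [abs_le]; constructor <;> linarith [this.1, this.2]
  have e2 := abs_le.1 (tb_j9286 _ x _ (49 / 4) 2 d2 h0 h1)
  norm_num at e2
  have d3 : |((-1 / 5040) : ℝ) * mom 4 - (-17165481423 / 1000000000000000)| ≤ (47 / 15750000000000000) := by
    have := mom_4
    rw [abs_le]; constructor <;> linarith [this.1, this.2]
  have e3 := abs_le.1 (tb_j9286 _ x _ (49 / 4) 3 d3 h0 h1)
  norm_num at e3
  have d4 : |((1 / 362880) : ℝ) * mom 5 - (192215973 / 1000000000000000)| ≤ (4661 / 4536000000000000000) := by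
    have := mom_5
    rw [abs_le]; constructor <;> linarith [this.1, this.2]
  have e4 := abs_le.1 (tb_j9286 _ x _ (49 / 4) 4 d4 h0 h1)
  norm_num at e4
  have d5 : |((-1 / 39916800) : ℝ) * mom 6 - (-731393 / 500000000000000)| ≤ (99817 / 99792000000000000000) := by
    have := mom_6
    rw [abs_le]; constructor <;> linarith [this.1, this.2]
  have e5 := abs_le.1 (tb_j9286 _ x _ (49 / 4) 5 d5 h0 h1)
  norm_num at e5
  have d6 : |((1 / 6227020800) : ℝ) * mom 7 - (403 / 50000000000000)| ≤ (15567577 / 15567552000000000000000) := by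
    have := mom_7
    rw [abs_le]; constructor <;> linarith [this.1, this.2]
  have e6 := abs_le.1 (tb_j9286 _ x _ (49 / 4) 6 d6 h0 h1)
  norm_num at e6
  have d7 : |((-1 / 1307674368000) : ℝ) * mom 8 - (-17 / 500000000000000)| ≤ (653837189 / 653837184000000000000000) := by
    have := mom_8
    rw [abs_le]; constructor <;> linarith [this.1, this.2]
  have e7 := abs_le.1 (tb_j9286 _ x _ (49 / 4) 7 d7 h0 h1)
  norm_num at e7
  have hr : mom 9 * x ^ 8 ≤ 0.03916628741 * (49 / 4) ^ 8 :=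
    mul_le_mul mom_9.2.le (pow_le_pow_left₀ h0 h1 8) (pow_nonneg h0 8) (by norm_num)
  norm_num at hr
  have hr2 : mom 9 * x ^ 8 / 355687428096000 ≤ 11 / 10000000 := by linarith
  have hT2 := abs_le.1 (hT.trans hr2)
  unfold Qp_j9286
  rw [abs_le]
  constructor
  · linarith [hT2.1, hT2.2, e0.1, e0.2, e1.1, e1.2, e2.1, e2.2, e3.1, e3.2, e4.1, e4.2, e5.1, e5.2, e6.1, e6.2, e7.1, e7.2]
  · linarith [hT2.1, hT2.2, e0.1, e0.2, e1.1, e1.2, e2.1, e2.2, e3.1, e3.2, e4.1, e4.2, e5.1, e5.2, e6.1, e6.2, e7.1, e7.2]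

private theorem chi_p_j9286 (z x : ℝ) (hx : x = z ^ 2) (h0 : 0 ≤ x) (h1 : x ≤ 49 / 4) :
    |chi z - Rp_j9286 x| ≤ 1 / 400000 := by
  have hT := chi_taylor 8 z
  have hz : ∀ k : ℕ, z ^ (2 * k) = x ^ k := by intro k; rw [hx, pow_mul]
  simp only [hz] at hT
  simp only [Finset.sum_range_succ, Finset.sum_range_zero, Nat.factorial] at hT
  norm_num at hT
  have d0 : |((1 / 3) : ℝ) * mom 2 - (54833459696667 / 1000000000000000)| ≤ (10003 / 3000000000000000) := by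
    have := mom_2
    rw [abs_le]; constructor <;> linarith [this.1, this.2]
  have e0 := abs_le.1 (tb_j9286 _ x _ (49 / 4) 0 d0 h0 h1)
  norm_num at e0
  have d1 : |((-1 / 30) : ℝ) * mom 3 - (-3787566340667 / 1000000000000000)| ≤ (1003 / 3000000000000000) := by
    have := mom_3
    rw [abs_le]; constructor <;> linarith [this.1, this.2]
  have e1 := abs_le.1 (tb_j9286 _ x _ (49 / 4) 1 d1 h0 h1)
  norm_num at e1
  have d2 : |((1 / 840) : ℝ) * mom 4 - (12874111067 / 125000000000000)| ≤ (271 / 21000000000000000) := by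
    have := mom_4
    rw [abs_le]; constructor <;> linarith [this.1, this.2]
  have e2 := abs_le.1 (tb_j9286 _ x _ (49 / 4) 2 d2 h0 h1)
  norm_num at e2
  have d3 : |((-1 / 45360) : ℝ) * mom 5 - (-1537727781 / 1000000000000000)| ≤ (173 / 141750000000000000) := by
    have := mom_5
    rw [abs_le]; constructor <;> linarith [this.1, this.2]
  have e3 := abs_le.1 (tb_j9286 _ x _ (49 / 4) 3 d3 h0 h1)
  norm_num at e3
  have d4 : |((1 / 3991680) : ℝ) * mom 6 - (14627863 / 1000000000000000)| ≤ (50021 / 49896000000000000000) := by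
    have := mom_6
    rw [abs_le]; constructor <;> linarith [this.1, this.2]
  have e4 := abs_le.1 (tb_j9286 _ x _ (49 / 4) 4 d4 h0 h1)
  norm_num at e4
  have d5 : |((-1 / 518918400) : ℝ) * mom 7 - (-24181 / 250000000000000)| ≤ (1297321 / 1297296000000000000000) := by
    have := mom_7
    rw [abs_le]; constructor <;> linarith [this.1, this.2]
  have e5 := abs_le.1 (tb_j9286 _ x _ (49 / 4) 5 d5 h0 h1)
  norm_num at e5
  have d6 : |((1 / 93405312000) : ℝ) * mom 8 - (471 / 1000000000000000)| ≤ (46702661 / 46702656000000000000000) := by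
    have := mom_8
    rw [abs_le]; constructor <;> linarith [this.1, this.2]
  have e6 := abs_le.1 (tb_j9286 _ x _ (49 / 4) 6 d6 h0 h1)
  norm_num at e6
  have d7 : |((-1 / 22230464256000) : ℝ) * mom 9 - (-1 / 500000000000000)| ≤ (11115232133 / 11115232128000000000000000) := by
    have := mom_9
    rw [abs_le]; constructor <;> linarith [this.1, this.2]
  have e7 := abs_le.1 (tb_j9286 _ x _ (49 / 4) 7 d7 h0 h1)
  norm_num at e7
  have hr : mom 10 * x ^ 8 ≤ 0.03528455554 * (49 / 4) ^ 8 :=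
    mul_le_mul mom_10.2.le (pow_le_pow_left₀ h0 h1 8) (pow_nonneg h0 8) (by norm_num)
  norm_num at hr
  have hr2 : mom 10 * 18 * x ^ 8 / 121645100408832000 ≤ 11 / 10000000 := by linarith
  have hT2 := abs_le.1 (hT.trans hr2)
  unfold Rp_j9286
  rw [abs_le]
  constructor
  · linarith [hT2.1, hT2.2, e0.1, e0.2, e1.1, e1.2, e2.1, e2.2, e3.1, e3.2, e4.1, e4.2, e5.1, e5.2, e6.1, e6.2, e7.1, e7.2]
  · linarith [hT2.1, hT2.2, e0.1, e0.2, e1.1, e1.2, e2.1, e2.2, e3.1, e3.2, e4.1, e4.2, e5.1, e5.2, e6.1, e6.2, e7.1, e7.2]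

private theorem phi_le1_j9286 (z : ℝ) : |phi 1 z| ≤ 1 := by
  have h := phi_taylor 0 z
  simp only [Finset.sum_range_zero, Nat.factorial, mul_zero, pow_zero] at h
  rw [mom_zero] at h
  norm_num at h
  exact h

private theorem psi_le1_j9286 (z : ℝ) : |psi 1 z| ≤ 3 / 10 := by
  have h := psi_taylor 0 z
  simp only [Finset.sum_range_zero, Nat.factorial, mul_zero, pow_zero] at h
  norm_num at h
  linarith [mom_1.2]

private theorem chi_le1_j9286 (z : ℝ) : |chi z| ≤ 6 / 100 := by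
  have h := chi_taylor 0 z
  simp only [Finset.sum_range_zero, Nat.factorial, mul_zero, pow_zero] at h
  norm_num at h
  have := mom_2.2
  norm_num at this ⊢
  linarith

theorem bracket_one (z : ℝ) (h0 : 0 ≤ z) (h1 : z ≤ z0) :
    (0.0296 + 0.004 * z ^ 2 + 0.0009 * z ^ 4) * phi 1 z ^ 2 ≤ psi 1 z ^ 2 - chi z * phi 1 z := by
  have hz : z ≤ 3.4948 := h1.trans z0_bounds.2.le
  obtain ⟨x, hx⟩ : ∃ x, x = z ^ 2 := ⟨_, rfl⟩
  have hx0 : 0 ≤ x := by rw [hx]; positivity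
  have hx1 : x ≤ 49 / 4 := by
    rw [hx]
    have : z ^ 2 ≤ 3.4948 ^ 2 := pow_le_pow_left₀ h0 hz 2
    norm_num at this ⊢
    linarith
  have hD := poly_ineq_j9286 x hx0 hx1
  have a1 := phi_p_j9286 z x hx hx0 hx1
  have a2 := psi_p_j9286 z x hx hx0 hx1
  have a3 := chi_p_j9286 z x hx hx0 hx1
  have b1 := phi_le1_j9286 z
  have b2 := psi_le1_j9286 z
  have b3 := chi_le1_j9286 z
  have hz4 : z ^ 4 = x ^ 2 := by rw [hx]; ring
  rw [hz4, ← hx]
  set w : ℝ := 0.0296 + 0.004 * x + 0.0009 * x ^ 2 with hw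
  have hw0 : 0 ≤ w := by rw [hw]; positivity
  have hw1 : w ≤ 22 / 100 := by
    have : x ^ 2 ≤ (49 / 4) ^ 2 := pow_le_pow_left₀ hx0 hx1 2
    rw [hw]; norm_num at this ⊢; linarith
  obtain ⟨u, hu⟩ : ∃ u, u = phi 1 z - Pp_j9286 x := ⟨_, rfl⟩
  obtain ⟨v, hv⟩ : ∃ v, v = psi 1 z - Qp_j9286 x := ⟨_, rfl⟩
  obtain ⟨y, hy⟩ : ∃ y, y = chi z - Rp_j9286 x := ⟨_, rfl⟩
  rw [← hu] at a1
  rw [← hv] at a2
  rw [← hy] at a3
  have eP : Pp_j9286 x = phi 1 z - u := by rw [hu]; ring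
  have eQ : Qp_j9286 x = psi 1 z - v := by rw [hv]; ring
  have eR : Rp_j9286 x = chi z - y := by rw [hy]; ring
  rw [eP, eQ, eR] at hD
  -- error terms
  have c1 : |w * (u * (2 * phi 1 z - u))| ≤ 22 / 100 * (1 / 400000 * (2 + 1 / 400000)) := by
    rw [abs_mul, abs_mul, abs_of_nonneg hw0]
    have : |2 * phi 1 z - u| ≤ 2 + 1 / 400000 := by
      rw [abs_le] at *; constructor <;> linarith
    gcongr
  have c2 : |v * (2 * psi 1 z - v)| ≤ 1 / 400000 * (6 / 10 + 1 / 400000) := by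
    rw [abs_mul]
    have : |2 * psi 1 z - v| ≤ 6 / 10 + 1 / 400000 := by
      rw [abs_le] at *; constructor <;> linarith
    gcongr
  have c3 : |chi z * u| ≤ 6 / 100 * (1 / 400000) := by
    rw [abs_mul]; gcongr
  have c4 : |y * (phi 1 z - u)| ≤ 1 / 400000 * (1 + 1 / 400000) := by
    rw [abs_mul]
    have : |phi 1 z - u| ≤ 1 + 1 / 400000 := by
      rw [abs_le] at *; constructor <;> linarith
    gcongr
  have d1 := abs_le.1 c1
  have d2 := abs_le.1 c2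
  have d3 := abs_le.1 c3
  have d4 := abs_le.1 c4
  nlinarith [d1.1, d1.2, d2.1, d2.2, d3.1, d3.2, d4.1, d4.2]



end Pool.Agent.Helper82.GC
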