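import Pool.Agent.Helper82.GC.J9261
import Pool.Agent.Helper82.GC.J9263

set_option autoImplicit false

open MeasureTheory Set

namespace Pool.Agent.Helper82.GC


theorem int_gen_j9415 (a : ℕ → ℝ) (n j : ℕ) (b : ℝ) :
    ∫ z in (0 : ℝ)..b, z ^ j * ∑ i ∈ Finset.range n, a i * z ^ (2 * i) =
      ∑ i ∈ Finset.range n, a i * (b ^ (2 * i + j + 1) / (2 * i + j + 1)) := by
  have h : ∀ z : ℝ, z ^ j * ∑ i ∈ Finset.range n, a i * z ^ (2 * i) =
      ∑ i ∈ Finset.range n, a i * z ^ (2 * i + j) := by
    intro z
    rw [Finset.mul_sum]
    refine Finset.sum_congr rfl fun i _ => ?_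
    rw [pow_add]; ring
  simp_rw [h]
  rw [intervalIntegral.integral_finset_sum]
  · refine Finset.sum_congr rfl fun i _ => ?_
    rw [intervalIntegral.integral_const_mul, integral_pow]
    push_cast
    simp
  · intro i _
    exact Continuous.intervalIntegrable (by fun_prop) _ _

theorem phi1_cont_j9415 : Continuous (phi 1) :=
  continuous_iff_continuousAt.2 fun z => (phi_deriv z).continuousAt

theorem term_bound_j9415 {m lo hi c ε X x : ℝ} (h : lo < m ∧ m < hi) (hx0 : 0 ≤ x) (hxX : x ≤ X)
    (h1 : (c - lo) * X ≤ ε) (h2 : (hi - c) * X ≤ ε) (hε : 0 ≤ ε) :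
    -ε ≤ (m - c) * x ∧ (m - c) * x ≤ ε := by
  constructor
  · have h3 : (lo - c) * x ≤ (m - c) * x := mul_le_mul_of_nonneg_right (by linarith [h.1]) hx0
    rcases le_total lo c with h4 | h4
    · nlinarith
    · nlinarith [mul_nonneg (sub_nonneg.2 h4) hx0]
  · have h3 : (m - c) * x ≤ (hi - c) * x := mul_le_mul_of_nonneg_right (by linarith [h.2]) hx0
    rcases le_total hi c with h4 | h4
    · nlinarith [mul_nonneg (sub_nonneg.2 h4) hx0]
    · nlinarith

/-- the approximating polynomial -/
noncomputable def pz_j9415 (z : ℝ) : ℝ := 1 - (145562547 / 1000000000) * z ^ 2 + (2741673 / 400000000) * z ^ 4 - (7890763 / 50000000000) * z ^ 6 + (5364213 / 2500000000000) * z ^ 8 - (19221597 / 1000000000000000) * z ^ 10 + (6094943 / 50000000000000000) * z ^ 12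

theorem phi_near_j9415 {z : ℝ} (h0 : 0 ≤ z) (h1 : z ≤ 2.9) : |phi 1 z - pz_j9415 z| ≤ (19 / 10000000) := by
  have hT := phi_taylor 7 z
  have hx : ∀ k : ℕ, 0 ≤ z ^ (2 * k) ∧ z ^ (2 * k) ≤ (2.9 : ℝ) ^ (2 * k) := fun k =>
    ⟨by positivity, pow_le_pow_left₀ h0 h1 _⟩
  have t1 := term_bound_j9415 (c := (145562547 / 500000000)) (ε := (33 / 5000000000)) (X := (2.9 : ℝ) ^ (2 * 1)) mom_1
    (hx 1).1 (hx 1).2 (by norm_num) (by norm_num) (by norm_num)
  have t2 := term_bound_j9415 (c := (8225019 / 50000000)) (ε := (81 / 1250000000)) (X := (2.9 : ℝ) ^ (2 * 2)) mom_2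
    (hx 2).1 (hx 2).2 (by norm_num) (by norm_num) (by norm_num)
  have t3 := term_bound_j9415 (c := (71016867 / 625000000)) (ε := (117 / 62500000)) (X := (2.9 : ℝ) ^ (2 * 3)) mom_3
    (hx 3).1 (hx 3).2 (by norm_num) (by norm_num) (by norm_num)
  have t4 := term_bound_j9415 (c := (337945419 / 3906250000)) (ε := (63 / 7812500)) (X := (2.9 : ℝ) ^ (2 * 4)) mom_4
    (hx 4).1 (hx 4).2 (by norm_num) (by norm_num) (by norm_num)
  have t5 := term_bound_j9415 (c := (10898645499 / 156250000000)) (ε := (567 / 1562500)) (X := (2.9 : ℝ) ^ (2 * 5)) mom_5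
    (hx 5).1 (hx 5).2 (by norm_num) (by norm_num) (by norm_num)
  have t6 := term_bound_j9415 (c := (114042478473 / 1953125000000)) (ε := (18711 / 390625)) (X := (2.9 : ℝ) ^ (2 * 6)) mom_6
    (hx 6).1 (hx 6).2 (by norm_num) (by norm_num) (by norm_num)
  have h7 : mom 7 * z ^ (2 * 7) / (Nat.factorial (2 * 7)) ≤ (857 / 500000000) := by
    have h := (hx 7).2
    have h' := (hx 7).1
    have hm := mom_7
    have h8 : mom 7 * z ^ (2 * 7) ≤ 0.05019182189 * (2.9 : ℝ) ^ (2 * 7) := by
      have := hm.1
      exact mul_le_mul hm.2.le h h' (by norm_num)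
    have h9 : ((Nat.factorial (2 * 7) : ℕ) : ℝ) = 87178291200 := by norm_num [Nat.factorial]
    rw [h9, div_le_iff₀ (by norm_num)]
    refine h8.trans ?_
    norm_num
  have hS : ∑ k ∈ Finset.range 7, (-1) ^ k * mom k * z ^ (2 * k) / (Nat.factorial (2 * k)) =
      1 - mom 1 * z ^ 2 / 2 + mom 2 * z ^ 4 / 24 - mom 3 * z ^ 6 / 720 + mom 4 * z ^ 8 / 40320
        - mom 5 * z ^ 10 / 3628800 + mom 6 * z ^ 12 / 479001600 := by
    simp only [Finset.sum_range_succ, Finset.sum_range_zero, mom_zero]
    norm_num [Nat.factorial]
    ring
  rw [hS] at hT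
  have hT' := hT.trans h7
  rw [abs_le] at hT' ⊢
  unfold pz_j9415
  norm_num at t1 t2 t3 t4 t5 t6 hT' ⊢
  constructor <;> linarith [t1.1, t1.2, t2.1, t2.2, t3.1, t3.2, t4.1, t4.2, t5.1, t5.2, t6.1, t6.2, hT'.1, hT'.2]

noncomputable def am_j9415 (i : ℕ) : ℝ := ([(9999924000216599725640130321 / 10000000000000000000000000000), (-145561717295058541385596490127 / 250000000000000000000000000000), (7727341058169104341735697213847 / 50000000000000000000000000000000), (-62351794031562625987016645749713 / 2500000000000000000000000000000000), (2757825148808156455553211212878881 / 1000000000000000000000000000000000000), (-111776594875303214478956696583327 / 500000000000000000000000000000000000), (138920097313367588986197106742973 / 10000000000000000000000000000000000000), (-1708975943835036382851990018444621 / 2500000000000000000000000000000000000000), (3413371582350003377695929352227369 / 125000000000000000000000000000000000000000), (-5644881895774433525280564530963157 / 6250000000000000000000000000000000000000000), (251316785755537997828676073471419 / 10000000000000000000000000000000000000000000),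 (-1489761936040829885873647744140159 / 2500000000000000000000000000000000000000000000), (6080766761741701660403013428640827 / 500000000000000000000000000000000000000000000000), (-13450434438102555735130214671491 / 62500000000000000000000000000000000000000000000), (2073762854743897428221128128203349 / 625000000000000000000000000000000000000000000000000), (-111691481867167276566323433666821 / 2500000000000000000000000000000000000000000000000000), (131317552748820172746622410413343 / 250000000000000000000000000000000000000000000000000000), (-33602309654469764338666507652343 / 6250000000000000000000000000000000000000000000000000000), (14875499139032525601979735047741 / 312500000000000000000000000000000000000000000000000000000), (-176085153670016329641288887811 / 488281250000000000000000000000000000000000000000000000000), (459437892590710130155785645837 / 200000000000000000000000000000000000000000000000000000000000), (-149505503840668737491637698203 / 12500000000000000000000000000000000000000000000000000000000000), (60608337751714327438210936779 / 1250000000000000000000000000000000000000000000000000000000000000),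 (-4352095462037828986939891779 / 31250000000000000000000000000000000000000000000000000000000000000), (1379998434660722078355216001 / 6250000000000000000000000000000000000000000000000000000000000000000)] : List ℝ).getD i 0

theorem am_eq_j9415 (z : ℝ) : (pz_j9415 z - (19 / 10000000)) ^ 4 = ∑ i ∈ Finset.range 25, am_j9415 i * z ^ (2 * i) := by
  simp only [Finset.sum_range_succ, Finset.sum_range_zero, am_j9415, List.getD_cons_zero,
    List.getD_cons_succ, pz_j9415]
  ring

noncomputable def ap_j9415 (i : ℕ) : ℝ := ([(10000076000216600274360130321 / 10000000000000000000000000000), (-145563376708094343382423509873 / 250000000000000000000000000000), (7727404995382807570577352320847 / 50000000000000000000000000000000), (-62352156702226682255140606686787 / 2500000000000000000000000000000000), (2757836106443624379049936046071281 / 1000000000000000000000000000000000000), (-111776891039028328278471063679071 / 500000000000000000000000000000000000), (138920337965341343302293619601933 / 10000000000000000000000000000000000000), (-1708977848150310800616111340815543 / 2500000000000000000000000000000000000000),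 (3413373995576972412331998582384387 / 125000000000000000000000000000000000000000), (-5644884395973140344169970233164507 / 6250000000000000000000000000000000000000000), (251316854523445336471182957431091 / 10000000000000000000000000000000000000000000), (-1489762183308063688964115109455333 / 2500000000000000000000000000000000000000000000), (6080767358223492596717236151654771 / 500000000000000000000000000000000000000000000000), (-672521759474066540956247532290421 / 3125000000000000000000000000000000000000000000000), (2073762917312326450741257999976449 / 625000000000000000000000000000000000000000000000000), (-111691483550647019949635929780691 / 2500000000000000000000000000000000000000000000000000), (131317553625724078692455148337467 / 250000000000000000000000000000000000000000000000000000), (-6720461947174298153072721587757 / 1250000000000000000000000000000000000000000000000000000), (14875499147636369890122780680407 / 312500000000000000000000000000000000000000000000000000000), (-176085153670016329641288887811 / 488281250000000000000000000000000000000000000000000000000), (459437892590710130155785645837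 / 200000000000000000000000000000000000000000000000000000000000), (-149505503840668737491637698203 / 12500000000000000000000000000000000000000000000000000000000000), (60608337751714327438210936779 / 1250000000000000000000000000000000000000000000000000000000000000), (-4352095462037828986939891779 / 31250000000000000000000000000000000000000000000000000000000000000), (1379998434660722078355216001 / 6250000000000000000000000000000000000000000000000000000000000000000)] : List ℝ).getD i 0

theorem ap_eq_j9415 (z : ℝ) : (pz_j9415 z + (19 / 10000000)) ^ 4 = ∑ i ∈ Finset.range 25, ap_j9415 i * z ^ (2 * i) := by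
  simp only [Finset.sum_range_succ, Finset.sum_range_zero, ap_j9415, List.getD_cons_zero,
    List.getD_cons_succ, pz_j9415]
  ring

theorem phi_lo_j9415 {z : ℝ} (h0 : 0 ≤ z) (h1 : z ≤ 2.9) : 0 ≤ pz_j9415 z - (19 / 10000000) ∧
    pz_j9415 z - (19 / 10000000) ≤ phi 1 z ∧ 0 ≤ phi 1 z ∧ phi 1 z ≤ pz_j9415 z + (19 / 10000000) := by
  have h2 := phi_near_j9415 h0 h1
  rw [abs_le] at h2
  have h3 : phi 1 3 ≤ phi 1 z := phi_antitone ⟨h0, by norm_num at h1 ⊢; linarith⟩
    ⟨by norm_num, by norm_num⟩ (by norm_num at h1 ⊢; linarith)
  have h4 := phi_tab_12.1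
  norm_num at h4 h2 ⊢
  refine ⟨by linarith [h2.1, h2.2], by linarith [h2.1, h2.2], by linarith, by linarith [h2.1, h2.2]⟩

theorem int_lo_j9415 (j : ℕ) : ∑ i ∈ Finset.range 25, am_j9415 i * ((2.9 : ℝ) ^ (2 * i + j + 1) / (2 * i + j + 1)) ≤
    ∫ z in (0 : ℝ)..2.9, z ^ j * phi 1 z ^ 4 := by
  rw [← int_gen_j9415 am_j9415 25 j 2.9]
  have hp := phi1_cont_j9415
  refine intervalIntegral.integral_mono_on (by norm_num)
    (Continuous.intervalIntegrable (by fun_prop) _ _)
    (Continuous.intervalIntegrable (by fun_prop) _ _) fun z hz => ?_
  rw [← am_eq_j9415]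
  have h := phi_lo_j9415 hz.1 hz.2
  exact mul_le_mul_of_nonneg_left (pow_le_pow_left₀ h.1 h.2.1 4) (pow_nonneg hz.1 j)

theorem int_hi_j9415 (j : ℕ) : ∫ z in (0 : ℝ)..2.9, z ^ j * phi 1 z ^ 4 ≤
    ∑ i ∈ Finset.range 25, ap_j9415 i * ((2.9 : ℝ) ^ (2 * i + j + 1) / (2 * i + j + 1)) := by
  rw [← int_gen_j9415 ap_j9415 25 j 2.9]
  have hp := phi1_cont_j9415
  refine intervalIntegral.integral_mono_on (by norm_num)
    (Continuous.intervalIntegrable (by fun_prop) _ _)
    (Continuous.intervalIntegrable (by fun_prop) _ _) fun z hz => ?_
  rw [← ap_eq_j9415]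
  have h := phi_lo_j9415 hz.1 hz.2
  exact mul_le_mul_of_nonneg_left (pow_le_pow_left₀ h.2.2.1 h.2.2.2 4) (pow_nonneg hz.1 j)

theorem poly_moment_4_4 : (1.7236 : ℝ) < (∫ z in (0 : ℝ)..2.9, z ^ 4 * phi 1 z ^ 4) ∧ (∫ z in (0 : ℝ)..2.9, z ^ 4 * phi 1 z ^ 4) < 1.7246 := by
  refine ⟨lt_of_lt_of_le ?_ (int_lo_j9415 4), lt_of_le_of_lt (int_hi_j9415 4) ?_⟩
  · simp only [Finset.sum_range_succ, Finset.sum_range_zero, am_j9415, List.getD_cons_zero,
      List.getD_cons_succ]
    norm_num
  · simp only [Finset.sum_range_succ, Finset.sum_range_zero, ap_j9415, List.getD_cons_zero,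
      List.getD_cons_succ]
    norm_num

theorem poly_moment_6_4 : (5.3901 : ℝ) < (∫ z in (0 : ℝ)..2.9, z ^ 6 * phi 1 z ^ 4) ∧ (∫ z in (0 : ℝ)..2.9, z ^ 6 * phi 1 z ^ 4) < 5.3933 := by
  refine ⟨lt_of_lt_of_le ?_ (int_lo_j9415 6), lt_of_le_of_lt (int_hi_j9415 6) ?_⟩
  · simp only [Finset.sum_range_succ, Finset.sum_range_zero, am_j9415, List.getD_cons_zero,
      List.getD_cons_succ]
    norm_num
  · simp only [Finset.sum_range_succ, Finset.sum_range_zero, ap_j9415, List.getD_cons_zero,
      List.getD_cons_succ]
    norm_num

theorem poly_moment_8_4 : (21.594 : ℝ) < (∫ z in (0 : ℝ)..2.9, z ^ 8 * phi 1 z ^ 4) ∧ (∫ z in (0 : ℝ)..2.9, z ^ 8 * phi 1 z ^ 4) < 21.607 := by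
  refine ⟨lt_of_lt_of_le ?_ (int_lo_j9415 8), lt_of_le_of_lt (int_hi_j9415 8) ?_⟩
  · simp only [Finset.sum_range_succ, Finset.sum_range_zero, am_j9415, List.getD_cons_zero,
      List.getD_cons_succ]
    norm_num
  · simp only [Finset.sum_range_succ, Finset.sum_range_zero, ap_j9415, List.getD_cons_zero,
      List.getD_cons_succ]
    norm_num



end Pool.Agent.Helper82.GC
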