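import Pool.Agent.Helper82.GC.J8960
import Pool.Agent.Helper82.GC.J8961
import Pool.Agent.Helper82.GC.J8962

set_option autoImplicit false

open MeasureTheory Set

namespace Pool.Agent.Helper82.GC


/-- evaluation of an integer polynomial -/
def evL_j9416 : List ℤ → ℝ → ℝ
  | [], _ => 0
  | a :: l, u => a + u * evL_j9416 l u

def addL_j9416 : List ℤ → List ℤ → List ℤ
  | [], m => m
  | a :: l, [] => a :: l
  | a :: l, b :: m => (a + b) :: addL_j9416 l m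

def mulL_j9416 : List ℤ → List ℤ → List ℤ
  | [], _ => []
  | a :: l, m => addL_j9416 (m.map (fun b => a * b)) (0 :: mulL_j9416 l m)

theorem evL_add_j9416 (l m : List ℤ) (u : ℝ) : evL_j9416 (addL_j9416 l m) u = evL_j9416 l u + evL_j9416 m u := by
  induction l generalizing m with
  | nil => simp [addL_j9416, evL_j9416]
  | cons a l ih =>
    cases m with
    | nil => simp [addL_j9416, evL_j9416]
    | cons b m =>
      simp only [addL_j9416, evL_j9416, ih]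
      push_cast
      ring

theorem evL_map_j9416 (a : ℤ) (l : List ℤ) (u : ℝ) : evL_j9416 (l.map (fun b => a * b)) u = a * evL_j9416 l u := by
  induction l with
  | nil => simp [evL_j9416]
  | cons b l ih =>
    simp only [List.map_cons, evL_j9416, ih]
    push_cast
    ring

theorem evL_mul_j9416 (l m : List ℤ) (u : ℝ) : evL_j9416 (mulL_j9416 l m) u = evL_j9416 l u * evL_j9416 m u := by
  induction l with
  | nil => simp [mulL_j9416, evL_j9416]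
  | cons a l ih =>
    simp only [mulL_j9416, evL_add_j9416, evL_map_j9416, evL_j9416, ih]
    push_cast
    ring

/-- exact integral of `z ^ p * evL_j9416 l (z ^ 2 / 10)` over `[0, b]` -/
def intL_j9416 : List ℤ → ℕ → ℚ → ℚ
  | [], _, _ => 0
  | a :: l, p, b => a * b ^ (p + 1) / (p + 1) + (1 / 10) * intL_j9416 l (p + 2) b

theorem evL_cont_j9416 (l : List ℤ) : Continuous (fun z : ℝ => evL_j9416 l (z ^ 2 / 10)) := by
  induction l with
  | nil => simpa [evL_j9416] using continuous_const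
  | cons a l ih =>
    simp only [evL_j9416]
    exact continuous_const.add (((continuous_pow 2).div_const 10).mul ih)

theorem intL_eq_j9416 (l : List ℤ) (p : ℕ) (b : ℚ) :
    (∫ z in (0 : ℝ)..(b : ℝ), z ^ p * evL_j9416 l (z ^ 2 / 10)) = ((intL_j9416 l p b : ℚ) : ℝ) := by
  induction l generalizing p with
  | nil => simp [evL_j9416, intL_j9416]
  | cons a l ih =>
    have h1 : (fun z : ℝ => z ^ p * evL_j9416 (a :: l) (z ^ 2 / 10)) =
        fun z : ℝ => (a : ℝ) * z ^ p + (1 / 10) * (z ^ (p + 2) * evL_j9416 l (z ^ 2 / 10)) := by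
      funext z
      simp only [evL_j9416]
      ring
    rw [h1, intervalIntegral.integral_add, intervalIntegral.integral_const_mul,
      intervalIntegral.integral_const_mul, ih, integral_pow]
    · simp only [intL_j9416]
      push_cast
      ring
    · exact (continuous_const.mul (continuous_pow p)).intervalIntegrable _ _
    · exact (continuous_const.mul ((continuous_pow (p + 2)).mul (evL_cont_j9416 l))).intervalIntegrable _ _

/-- scaled approximation of `phi 1` on `[0, 2.9]` -/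
def QQ_j9416 : List ℤ := [100000000, -145562547, 68541825, -15781526, 2145685, -192216, 12190, -576]

/-- fifth power -/
def QQ5_j9416 : List ℤ := mulL_j9416 (mulL_j9416 (mulL_j9416 QQ_j9416 QQ_j9416) (mulL_j9416 QQ_j9416 QQ_j9416)) QQ_j9416

noncomputable def qq_j9416 (z : ℝ) : ℝ := evL_j9416 QQ_j9416 (z ^ 2 / 10) / 10 ^ 8

theorem qq_pow5_j9416 (z : ℝ) : qq_j9416 z ^ 5 = evL_j9416 QQ5_j9416 (z ^ 2 / 10) / 10 ^ 40 := by
  unfold qq_j9416 QQ5_j9416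
  rw [evL_mul_j9416, evL_mul_j9416, evL_mul_j9416, div_pow]
  congr 1
  · ring
  · norm_num

theorem qq_cont_j9416 : Continuous qq_j9416 := (evL_cont_j9416 QQ_j9416).div_const _

theorem qq_int_j9416 (j : ℕ) : (∫ z in (0 : ℝ)..2.9, z ^ j * qq_j9416 z ^ 5) =
    ((intL_j9416 QQ5_j9416 j (29 / 10) / 10 ^ 40 : ℚ) : ℝ) := by
  have h1 : (fun z : ℝ => z ^ j * qq_j9416 z ^ 5) =
      fun z : ℝ => (1 / 10 ^ 40) * (z ^ j * evL_j9416 QQ5_j9416 (z ^ 2 / 10)) := by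
    funext z
    rw [qq_pow5_j9416]
    ring
  have h2 := intL_eq_j9416 QQ5_j9416 j (29 / 10)
  have h3 : (((29 / 10 : ℚ)) : ℝ) = 2.9 := by norm_num
  rw [h3] at h2
  rw [h1, intervalIntegral.integral_const_mul, h2]
  push_cast
  ring

theorem term_bd_j9416 {c t e T : ℝ} (h1 : -e ≤ c) (h2 : c ≤ e) (ht : 0 ≤ t) (hT : t ≤ T) :
    -(e * T) ≤ c * t ∧ c * t ≤ e * T := by
  have he : 0 ≤ e := by linarith
  constructor
  · nlinarith [mul_le_mul_of_nonneg_left hT he, mul_nonneg (by linarith : 0 ≤ c + e) ht]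
  · nlinarith [mul_le_mul_of_nonneg_left hT he, mul_nonneg (by linarith : 0 ≤ e - c) ht]

theorem qq_approx_j9416 {z : ℝ} (h0 : 0 ≤ z) (h1 : z ≤ 2.9) : |phi 1 z - qq_j9416 z| ≤ 1 / 10 ^ 7 := by
  have hT := phi_taylor 8 z
  have p2 : ∀ n : ℕ, 0 ≤ z ^ n ∧ z ^ n ≤ 2.9 ^ n := fun n =>
    ⟨pow_nonneg h0 n, pow_le_pow_left₀ h0 h1 n⟩
  have hrem : mom 8 * z ^ (2 * 8) / (Nat.factorial (2 * 8)) ≤ 6 / 10 ^ 8 := by
    have hf : ((Nat.factorial (2 * 8) : ℕ) : ℝ) = 20922789888000 := by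
      norm_num [Nat.factorial]
    rw [hf, div_le_iff₀ (by norm_num)]
    have h2 := mul_le_mul mom_8.2.le (p2 (2 * 8)).2 (p2 (2 * 8)).1 (by norm_num)
    refine h2.trans ?_
    norm_num
  have hS : ∑ k ∈ Finset.range 8, (-1 : ℝ) ^ k * mom k * z ^ (2 * k) / (Nat.factorial (2 * k)) =
      1 - mom 1 / 2 * z ^ 2 + mom 2 / 24 * z ^ 4 - mom 3 / 720 * z ^ 6 + mom 4 / 40320 * z ^ 8
        - mom 5 / 3628800 * z ^ 10 + mom 6 / 479001600 * z ^ 12
        - mom 7 / 87178291200 * z ^ 14 := by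
    simp only [Finset.sum_range_succ, Finset.sum_range_zero, mom_zero]
    norm_num [Nat.factorial]
    ring
  have hq : qq_j9416 z = 1 - 0.145562547 * z ^ 2 + 0.0068541825 * z ^ 4 - 0.00015781526 * z ^ 6
      + 0.000002145685 * z ^ 8 - 0.0000000192216 * z ^ 10 + 0.00000000012190 * z ^ 12
      - 0.000000000000576 * z ^ 14 := by
    unfold qq_j9416 QQ_j9416
    simp only [evL_j9416]
    push_cast
    ring
  rw [hS] at hT
  have t1 := term_bd_j9416 (c := mom 1 / 2 - 0.145562547) (e := 4 / 10 ^ 10) (t := z ^ 2) (T := 2.9 ^ 2)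
    (by linarith [mom_1.1]) (by linarith [mom_1.2]) (p2 2).1 (p2 2).2
  have t2 := term_bd_j9416 (c := mom 2 / 24 - 0.0068541825) (e := 4 / 10 ^ 11) (t := z ^ 4) (T := 2.9 ^ 4)
    (by linarith [mom_2.1]) (by linarith [mom_2.2]) (p2 4).1 (p2 4).2
  have t3 := term_bd_j9416 (c := mom 3 / 720 - 0.00015781526) (e := 5 / 10 ^ 12) (t := z ^ 6) (T := 2.9 ^ 6)
    (by linarith [mom_3.1]) (by linarith [mom_3.2]) (p2 6).1 (p2 6).2
  have t4 := term_bd_j9416 (c := mom 4 / 40320 - 0.000002145685) (e := 3 / 10 ^ 13) (t := z ^ 8)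
    (T := 2.9 ^ 8) (by linarith [mom_4.1]) (by linarith [mom_4.2]) (p2 8).1 (p2 8).2
  have t5 := term_bd_j9416 (c := mom 5 / 3628800 - 0.0000000192216) (e := 1 / 10 ^ 14) (t := z ^ 10)
    (T := 2.9 ^ 10) (by linarith [mom_5.1]) (by linarith [mom_5.2]) (p2 10).1 (p2 10).2
  have t6 := term_bd_j9416 (c := mom 6 / 479001600 - 0.00000000012190) (e := 2 / 10 ^ 15) (t := z ^ 12)
    (T := 2.9 ^ 12) (by linarith [mom_6.1]) (by linarith [mom_6.2]) (p2 12).1 (p2 12).2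
  have t7 := term_bd_j9416 (c := mom 7 / 87178291200 - 0.000000000000576) (e := 3 / 10 ^ 16) (t := z ^ 14)
    (T := 2.9 ^ 14) (by linarith [mom_7.1]) (by linarith [mom_7.2]) (p2 14).1 (p2 14).2
  have hT' := abs_le.1 (hT.trans hrem)
  rw [hq, abs_le]
  norm_num at t1 t2 t3 t4 t5 t6 t7 hT' ⊢
  constructor
  · linarith [t1.1, t1.2, t2.1, t2.2, t3.1, t3.2, t4.1, t4.2, t5.1, t5.2, t6.1, t6.2, t7.1, t7.2,
      hT'.1, hT'.2]
  · linarith [t1.1, t1.2, t2.1, t2.2, t3.1, t3.2, t4.1, t4.2, t5.1, t5.2, t6.1, t6.2, t7.1, t7.2,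
      hT'.1, hT'.2]

theorem pow5_diff_j9416 {a b : ℝ} (ha : |a| ≤ 1) (hb : |b| ≤ 1 + 1 / 10 ^ 7) :
    |a ^ 5 - b ^ 5| ≤ 5.1 * |a - b| := by
  have h1 : a ^ 5 - b ^ 5 = (a - b) * (a ^ 4 + a ^ 3 * b + a ^ 2 * b ^ 2 + a * b ^ 3 + b ^ 4) := by
    ring
  rw [h1, abs_mul, mul_comm]
  apply mul_le_mul_of_nonneg_right _ (abs_nonneg _)
  have hb' : |b| ≤ 1.001 := hb.trans (by norm_num)
  have k : ∀ i j : ℕ, i ≤ 4 → j ≤ 4 → |a ^ i * b ^ j| ≤ 1.001 ^ 4 := by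
    intro i j hi hj
    rw [abs_mul, abs_pow, abs_pow]
    have e1 : |a| ^ i ≤ 1 := pow_le_one₀ (abs_nonneg _) ha
    have e2 : |b| ^ j ≤ 1.001 ^ j := pow_le_pow_left₀ (abs_nonneg _) hb' j
    have e3 : (1.001 : ℝ) ^ j ≤ 1.001 ^ 4 := pow_le_pow_right₀ (by norm_num) hj
    calc |a| ^ i * |b| ^ j ≤ 1 * 1.001 ^ 4 :=
          mul_le_mul e1 (e2.trans e3) (by positivity) zero_le_one
      _ = 1.001 ^ 4 := one_mul _
  have k1 := k 4 0 le_rfl (by norm_num)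
  have k2 := k 3 1 (by norm_num) (by norm_num)
  have k3 := k 2 2 (by norm_num) (by norm_num)
  have k4 := k 1 3 (by norm_num) (by norm_num)
  have k5 := k 0 4 (by norm_num) le_rfl
  rw [pow_zero, mul_one] at k1
  rw [pow_one] at k2 k4
  rw [pow_zero, one_mul] at k5
  rw [abs_le] at k1 k2 k3 k4 k5 ⊢
  norm_num at k1 k2 k3 k4 k5 ⊢
  constructor
  · linarith [k1.1, k2.1, k3.1, k4.1, k5.1]
  · linarith [k1.2, k2.2, k3.2, k4.2, k5.2]

theorem phi_cont'_j9416 : Continuous (phi 1) :=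
  continuous_iff_continuousAt.2 fun z => (phi_deriv z).continuousAt

theorem moment_diff_j9416 (j : ℕ) :
    |(∫ z in (0 : ℝ)..2.9, z ^ j * phi 1 z ^ 5) - ∫ z in (0 : ℝ)..2.9, z ^ j * qq_j9416 z ^ 5| ≤
      5.1 / 10 ^ 7 * (2.9 ^ (j + 1) / (j + 1)) := by
  have c1 : Continuous (fun z : ℝ => z ^ j * phi 1 z ^ 5) :=
    (continuous_pow j).mul (phi_cont'_j9416.pow 5)
  have c2 : Continuous (fun z : ℝ => z ^ j * qq_j9416 z ^ 5) := (continuous_pow j).mul (qq_cont_j9416.pow 5)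
  rw [← intervalIntegral.integral_sub (c1.intervalIntegrable _ _) (c2.intervalIntegrable _ _)]
  have hb : ∀ z ∈ Set.Icc (0 : ℝ) 2.9,
      |z ^ j * phi 1 z ^ 5 - z ^ j * qq_j9416 z ^ 5| ≤ 5.1 / 10 ^ 7 * z ^ j := by
    intro z hz
    have h1 := qq_approx_j9416 hz.1 hz.2
    have h2 := abs_phi_le_one one_pos z
    have h3 : |qq_j9416 z| ≤ 1 + 1 / 10 ^ 7 := by
      have : |qq_j9416 z| ≤ |phi 1 z| + |phi 1 z - qq_j9416 z| := by
        have := abs_sub_abs_le_abs_sub (qq_j9416 z) (phi 1 z)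
        rw [abs_sub_comm (qq_j9416 z) (phi 1 z)] at this
        linarith
      linarith
    have h4 := pow5_diff_j9416 h2 h3
    rw [← mul_sub, abs_mul, abs_of_nonneg (pow_nonneg hz.1 j), mul_comm]
    apply mul_le_mul_of_nonneg_right _ (pow_nonneg hz.1 j)
    refine h4.trans ?_
    have := mul_le_mul_of_nonneg_left h1 (by norm_num : (0:ℝ) ≤ 5.1)
    refine this.trans ?_
    norm_num
  have h5 : (∫ z in (0 : ℝ)..2.9, (5.1 / 10 ^ 7 : ℝ) * z ^ j) =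
      (5.1 / 10 ^ 7 : ℝ) * ((2.9 : ℝ) ^ (j + 1) / ((j : ℝ) + 1)) := by
    rw [intervalIntegral.integral_const_mul, integral_pow]
    simp
  rw [← h5]
  calc |∫ z in (0 : ℝ)..2.9, (z ^ j * phi 1 z ^ 5 - z ^ j * qq_j9416 z ^ 5)|
      ≤ ∫ z in (0 : ℝ)..2.9, |z ^ j * phi 1 z ^ 5 - z ^ j * qq_j9416 z ^ 5| :=
        intervalIntegral.abs_integral_le_integral_abs (by norm_num)
    _ ≤ ∫ z in (0 : ℝ)..2.9, (5.1 / 10 ^ 7 : ℝ) * z ^ j := by
        apply intervalIntegral.integral_mono_on (by norm_num)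
        · exact (c1.sub c2).abs.intervalIntegrable _ _
        · exact (continuous_const.mul (continuous_pow j)).intervalIntegrable _ _
        · exact hb

theorem intL_4_j9416 : (1.0722 : ℚ) < intL_j9416 QQ5_j9416 4 (29 / 10) / 10 ^ 40 ∧
    intL_j9416 QQ5_j9416 4 (29 / 10) / 10 ^ 40 < (1.0724 : ℚ) := by
  decide +kernel

theorem intL_6_j9416 : (2.8673 : ℚ) < intL_j9416 QQ5_j9416 6 (29 / 10) / 10 ^ 40 ∧
    intL_j9416 QQ5_j9416 6 (29 / 10) / 10 ^ 40 < (2.8674 : ℚ) := by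
  decide +kernel

theorem intL_8_j9416 : (10.0095 : ℚ) < intL_j9416 QQ5_j9416 8 (29 / 10) / 10 ^ 40 ∧
    intL_j9416 QQ5_j9416 8 (29 / 10) / 10 ^ 40 < (10.0096 : ℚ) := by
  decide +kernel

theorem poly_moment_4_5 : (1.0720 : ℝ) < (∫ z in (0 : ℝ)..2.9, z ^ 4 * phi 1 z ^ 5) ∧ (∫ z in (0 : ℝ)..2.9, z ^ 4 * phi 1 z ^ 5) < 1.0727 := by
  have h1 := abs_le.1 (moment_diff_j9416 4)
  rw [qq_int_j9416 4] at h1
  have h2 : ((1.0722 : ℚ) : ℝ) < ((intL_j9416 QQ5_j9416 4 (29 / 10) / 10 ^ 40 : ℚ) : ℝ) :=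
    Rat.cast_lt.2 intL_4_j9416.1
  have h3 : ((intL_j9416 QQ5_j9416 4 (29 / 10) / 10 ^ 40 : ℚ) : ℝ) < ((1.0724 : ℚ) : ℝ) :=
    Rat.cast_lt.2 intL_4_j9416.2
  have e1 : ((1.0722 : ℚ) : ℝ) = 1.0722 := by norm_num
  have e2 : ((1.0724 : ℚ) : ℝ) = 1.0724 := by norm_num
  rw [e1] at h2
  rw [e2] at h3
  norm_num at h1 h2 h3 ⊢
  constructor <;> linarith [h1.1, h1.2]

theorem poly_moment_6_5 : (2.8665 : ℝ) < (∫ z in (0 : ℝ)..2.9, z ^ 6 * phi 1 z ^ 5) ∧ (∫ z in (0 : ℝ)..2.9, z ^ 6 * phi 1 z ^ 5) < 2.8682 := by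
  have h1 := abs_le.1 (moment_diff_j9416 6)
  rw [qq_int_j9416 6] at h1
  have h2 : ((2.8673 : ℚ) : ℝ) < ((intL_j9416 QQ5_j9416 6 (29 / 10) / 10 ^ 40 : ℚ) : ℝ) :=
    Rat.cast_lt.2 intL_6_j9416.1
  have h3 : ((intL_j9416 QQ5_j9416 6 (29 / 10) / 10 ^ 40 : ℚ) : ℝ) < ((2.8674 : ℚ) : ℝ) :=
    Rat.cast_lt.2 intL_6_j9416.2
  have e1 : ((2.8673 : ℚ) : ℝ) = 2.8673 := by norm_num
  have e2 : ((2.8674 : ℚ) : ℝ) = 2.8674 := by norm_num
  rw [e1] at h2
  rw [e2] at h3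
  norm_num at h1 h2 h3 ⊢
  constructor <;> linarith [h1.1, h1.2]

theorem poly_moment_8_5 : (10.006 : ℝ) < (∫ z in (0 : ℝ)..2.9, z ^ 8 * phi 1 z ^ 5) ∧ (∫ z in (0 : ℝ)..2.9, z ^ 8 * phi 1 z ^ 5) < 10.013 := by
  have h1 := abs_le.1 (moment_diff_j9416 8)
  rw [qq_int_j9416 8] at h1
  have h2 : ((10.0095 : ℚ) : ℝ) < ((intL_j9416 QQ5_j9416 8 (29 / 10) / 10 ^ 40 : ℚ) : ℝ) :=
    Rat.cast_lt.2 intL_8_j9416.1
  have h3 : ((intL_j9416 QQ5_j9416 8 (29 / 10) / 10 ^ 40 : ℚ) : ℝ) < ((10.0096 : ℚ) : ℝ) :=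
    Rat.cast_lt.2 intL_8_j9416.2
  have e1 : ((10.0095 : ℚ) : ℝ) = 10.0095 := by norm_num
  have e2 : ((10.0096 : ℚ) : ℝ) = 10.0096 := by norm_num
  rw [e1] at h2
  rw [e2] at h3
  norm_num at h1 h2 h3 ⊢
  constructor <;> linarith [h1.1, h1.2]



end Pool.Agent.Helper82.GC
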