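import Pool.Agent.Helper82.GC.J9261
import Pool.Agent.Helper82.GC.J9263

set_option autoImplicit false

open MeasureTheory Set

namespace Pool.Agent.Helper82.GC


/-! auxiliary: polynomials with rational coefficients -/

def evL_j9419 : List ℚ → ℝ → ℝ
  | [], _ => 0
  | a :: t, x => (a : ℝ) + x * evL_j9419 t x

def addL_j9419 : List ℚ → List ℚ → List ℚ
  | [], l => l
  | a :: t, [] => a :: t
  | a :: t, b :: s => (a + b) :: addL_j9419 t s

def smulL_j9419 (c : ℚ) : List ℚ → List ℚ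
  | [] => []
  | a :: t => (c * a) :: smulL_j9419 c t

def mulL_j9419 : List ℚ → List ℚ → List ℚ
  | [], _ => []
  | a :: t, l => addL_j9419 (smulL_j9419 a l) (0 :: mulL_j9419 t l)

def powL_j9419 (l : List ℚ) : ℕ → List ℚ
  | 0 => [1]
  | n + 1 => mulL_j9419 l (powL_j9419 l n)

theorem evL_add_j9419 : ∀ (l l' : List ℚ) (x : ℝ), evL_j9419 (addL_j9419 l l') x = evL_j9419 l x + evL_j9419 l' x := by
  intro l
  induction l with
  | nil => intro l' x; simp [addL_j9419, evL_j9419]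
  | cons a t ih =>
    intro l' x
    cases l' with
    | nil => simp [addL_j9419, evL_j9419]
    | cons b s => simp only [addL_j9419, evL_j9419, ih]; push_cast; ring

theorem evL_smul_j9419 (c : ℚ) : ∀ (l : List ℚ) (x : ℝ), evL_j9419 (smulL_j9419 c l) x = c * evL_j9419 l x := by
  intro l
  induction l with
  | nil => intro x; simp [smulL_j9419, evL_j9419]
  | cons a t ih => intro x; simp only [smulL_j9419, evL_j9419, ih]; push_cast; ring

theorem evL_mul_j9419 : ∀ (l l' : List ℚ) (x : ℝ), evL_j9419 (mulL_j9419 l l') x = evL_j9419 l x * evL_j9419 l' x := by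
  intro l
  induction l with
  | nil => intro l' x; simp [mulL_j9419, evL_j9419]
  | cons a t ih =>
    intro l' x
    simp only [mulL_j9419, evL_add_j9419, evL_smul_j9419, evL_j9419, ih]
    push_cast
    ring

theorem evL_pow_j9419 (l : List ℚ) (x : ℝ) : ∀ n : ℕ, evL_j9419 (powL_j9419 l n) x = evL_j9419 l x ^ n := by
  intro n
  induction n with
  | zero => simp [powL_j9419, evL_j9419]
  | succ n ih => simp only [powL_j9419, evL_mul_j9419, ih]; ring

theorem evL_continuous_j9419 : ∀ l : List ℚ, Continuous (evL_j9419 l) := by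
  intro l
  induction l with
  | nil => exact continuous_const
  | cons a t ih =>
    show Continuous fun x => (a : ℝ) + x * evL_j9419 t x
    exact continuous_const.add (continuous_id.mul ih)

/-- integral of `z ^ j * l (z ^ 2)` over `[0, B]` -/
def itgL_j9419 (B : ℚ) : List ℚ → ℕ → ℚ
  | [], _ => 0
  | a :: t, j => a * B ^ (j + 1) / (j + 1) + itgL_j9419 B t (j + 2)

theorem itgL_eq_j9419 (B : ℚ) : ∀ (l : List ℚ) (j : ℕ),
    ∫ z in (0 : ℝ)..(B : ℝ), z ^ j * evL_j9419 l (z ^ 2) = (itgL_j9419 B l j : ℝ) := by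
  intro l
  induction l with
  | nil => intro j; simp [evL_j9419, itgL_j9419]
  | cons a t ih =>
    intro j
    have h1 : ∀ z : ℝ, z ^ j * evL_j9419 (a :: t) (z ^ 2) =
        (a : ℝ) * z ^ j + z ^ (j + 2) * evL_j9419 t (z ^ 2) := by
      intro z
      simp only [evL_j9419]
      ring
    simp only [h1]
    rw [intervalIntegral.integral_add, ih, intervalIntegral.integral_const_mul, integral_pow]
    · simp only [itgL_j9419]
      push_cast
      rw [zero_pow (by omega)]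
      ring
    · exact (continuous_const.mul (continuous_pow j)).intervalIntegrable _ _
    · exact ((continuous_pow (j + 2)).mul ((evL_continuous_j9419 t).comp (continuous_pow 2))).intervalIntegrable _ _

def loL_j9419 : List ℚ := [(1), (-29113/200000), (329/48000), (-11363/72000000), (8651/4032000000), (-109/5670000000)]

def hiL_j9419 : List ℚ := [(1), (-3639/25000), (16451/2400000), (-5681/36000000), (103/48000000), (-31/1612800000), (5839/47900160000000)]

theorem phi_continuous'_j9419 : Continuous (phi 1) :=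
  continuous_iff_continuousAt.2 fun t => (phi_hasDerivAt one_pos t).continuousAt

theorem phi_lower_j9419 (z : ℝ) : evL_j9419 loL_j9419 (z ^ 2) ≤ phi 1 z := by
  have h := (abs_le.1 (phi_taylor 5 z)).1
  simp only [Finset.sum_range_succ, Finset.sum_range_zero, mom_zero] at h
  norm_num [Nat.factorial] at h
  have b1 := mul_le_mul_of_nonneg_right mom_1.2.le (show 0 ≤ z ^ 2 by positivity)
  have b2 := mul_le_mul_of_nonneg_right mom_2.1.le (show 0 ≤ z ^ 4 by positivity)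
  have b3 := mul_le_mul_of_nonneg_right mom_3.2.le (show 0 ≤ z ^ 6 by positivity)
  have b4 := mul_le_mul_of_nonneg_right mom_4.1.le (show 0 ≤ z ^ 8 by positivity)
  have b5 := mul_le_mul_of_nonneg_right mom_5.2.le (show 0 ≤ z ^ 10 by positivity)
  have p1 : 0 ≤ z ^ 2 := by positivity
  have p2 : 0 ≤ z ^ 4 := by positivity
  have p3 : 0 ≤ z ^ 6 := by positivity
  have p4 : 0 ≤ z ^ 8 := by positivity
  have p5 : 0 ≤ z ^ 10 := by positivity
  have e : evL_j9419 loL_j9419 (z ^ 2) = (1) + (-29113/200000) * z ^ 2 + (329/48000) * z ^ 4 + (-11363/72000000) * z ^ 6 + (8651/4032000000) * z ^ 8 + (-109/5670000000) * z ^ 10 := by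
    simp only [loL_j9419, evL_j9419]
    push_cast
    ring
  rw [e]
  linarith

theorem phi_upper_j9419 (z : ℝ) : phi 1 z ≤ evL_j9419 hiL_j9419 (z ^ 2) := by
  have h := (abs_le.1 (phi_taylor 6 z)).2
  simp only [Finset.sum_range_succ, Finset.sum_range_zero, mom_zero] at h
  norm_num [Nat.factorial] at h
  have b1 := mul_le_mul_of_nonneg_right mom_1.1.le (show 0 ≤ z ^ 2 by positivity)
  have b2 := mul_le_mul_of_nonneg_right mom_2.2.le (show 0 ≤ z ^ 4 by positivity)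
  have b3 := mul_le_mul_of_nonneg_right mom_3.1.le (show 0 ≤ z ^ 6 by positivity)
  have b4 := mul_le_mul_of_nonneg_right mom_4.2.le (show 0 ≤ z ^ 8 by positivity)
  have b5 := mul_le_mul_of_nonneg_right mom_5.1.le (show 0 ≤ z ^ 10 by positivity)
  have b6 := mul_le_mul_of_nonneg_right mom_6.2.le (show 0 ≤ z ^ 12 by positivity)
  have p1 : 0 ≤ z ^ 2 := by positivity
  have p2 : 0 ≤ z ^ 4 := by positivity
  have p3 : 0 ≤ z ^ 6 := by positivity
  have p4 : 0 ≤ z ^ 8 := by positivity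
  have p5 : 0 ≤ z ^ 10 := by positivity
  have p6 : 0 ≤ z ^ 12 := by positivity
  have e : evL_j9419 hiL_j9419 (z ^ 2) = (1) + (-3639/25000) * z ^ 2 + (16451/2400000) * z ^ 4 + (-5681/36000000) * z ^ 6 + (103/48000000) * z ^ 8 + (-31/1612800000) * z ^ 10 + (5839/47900160000000) * z ^ 12 := by
    simp only [hiL_j9419, evL_j9419]
    push_cast
    ring
  rw [e]
  linarith

theorem lo_nonneg_j9419 {z : ℝ} (hz0 : 0 ≤ z) (hz : z ≤ 2.9) : 0 ≤ evL_j9419 loL_j9419 (z ^ 2) := by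
  have h0 : 0.143 < phi 1 z := by
    have h1 := phi_antitone (show z ∈ Set.Icc (0 : ℝ) 4.7 from ⟨hz0, by linarith⟩)
      (show (3 : ℝ) ∈ Set.Icc (0 : ℝ) 4.7 from ⟨by norm_num, by norm_num⟩) (by linarith)
    have h2 := phi_tab_12.1
    linarith
  have h := (abs_le.1 (phi_taylor 5 z)).2
  simp only [Finset.sum_range_succ, Finset.sum_range_zero, mom_zero] at h
  norm_num [Nat.factorial] at h
  have b1 := mul_le_mul_of_nonneg_right mom_1.1.le (show 0 ≤ z ^ 2 by positivity)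
  have b2 := mul_le_mul_of_nonneg_right mom_2.2.le (show 0 ≤ z ^ 4 by positivity)
  have b3 := mul_le_mul_of_nonneg_right mom_3.1.le (show 0 ≤ z ^ 6 by positivity)
  have b4 := mul_le_mul_of_nonneg_right mom_4.2.le (show 0 ≤ z ^ 8 by positivity)
  have b5 := mul_le_mul_of_nonneg_right mom_5.2.le (show 0 ≤ z ^ 10 by positivity)
  have p1 : z ^ 2 ≤ 2.9 ^ 2 := by gcongr
  have p2 : z ^ 4 ≤ 2.9 ^ 4 := by gcongr
  have p3 : z ^ 6 ≤ 2.9 ^ 6 := by gcongr
  have p4 : z ^ 8 ≤ 2.9 ^ 8 := by gcongr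
  have p5 : z ^ 10 ≤ 2.9 ^ 10 := by gcongr
  norm_num at p1 p2 p3 p4 p5
  have e : evL_j9419 loL_j9419 (z ^ 2) = (1) + (-29113/200000) * z ^ 2 + (329/48000) * z ^ 4 + (-11363/72000000) * z ^ 6 + (8651/4032000000) * z ^ 8 + (-109/5670000000) * z ^ 10 := by
    simp only [loL_j9419, evL_j9419]
    push_cast
    ring
  rw [e]
  linarith

theorem moment_bounds_j9419 (j m : ℕ) :
    (itgL_j9419 (29 / 10) (powL_j9419 loL_j9419 m) j : ℝ) ≤ (∫ z in (0 : ℝ)..2.9, z ^ j * phi 1 z ^ m) ∧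
    (∫ z in (0 : ℝ)..2.9, z ^ j * phi 1 z ^ m) ≤ (itgL_j9419 (29 / 10) (powL_j9419 hiL_j9419 m) j : ℝ) := by
  have e29 : (((29 / 10 : ℚ)) : ℝ) = 2.9 := by norm_num
  have h1 := itgL_eq_j9419 (29 / 10) (powL_j9419 loL_j9419 m) j
  have h2 := itgL_eq_j9419 (29 / 10) (powL_j9419 hiL_j9419 m) j
  rw [e29] at h1 h2
  rw [← h1, ← h2]
  have hc : Continuous fun z : ℝ => z ^ j * phi 1 z ^ m :=
    (continuous_pow j).mul (phi_continuous'_j9419.pow m)
  have hcl : ∀ l : List ℚ, Continuous fun z : ℝ => z ^ j * evL_j9419 l (z ^ 2) := fun l =>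
    (continuous_pow j).mul ((evL_continuous_j9419 l).comp (continuous_pow 2))
  constructor
  · refine intervalIntegral.integral_mono_on (by norm_num) ((hcl _).intervalIntegrable _ _)
      (hc.intervalIntegrable _ _) ?_
    intro z hz
    rw [evL_pow_j9419]
    have h3 := lo_nonneg_j9419 hz.1 hz.2
    exact mul_le_mul_of_nonneg_left (pow_le_pow_left₀ h3 (phi_lower_j9419 z) m)
      (pow_nonneg hz.1 j)
  · refine intervalIntegral.integral_mono_on (by norm_num) (hc.intervalIntegrable _ _)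
      ((hcl _).intervalIntegrable _ _) ?_
    intro z hz
    rw [evL_pow_j9419]
    have h3 := (lo_nonneg_j9419 hz.1 hz.2).trans (phi_lower_j9419 z)
    exact mul_le_mul_of_nonneg_left (pow_le_pow_left₀ h3 (phi_upper_j9419 z) m)
      (pow_nonneg hz.1 j)

theorem poly_moment_4_6 : (0.7171 : ℝ) < (∫ z in (0 : ℝ)..2.9, z ^ 4 * phi 1 z ^ 6) ∧ (∫ z in (0 : ℝ)..2.9, z ^ 4 * phi 1 z ^ 6) < 0.7177 := by
  obtain ⟨h1, h2⟩ := moment_bounds_j9419 4 6
  have h3 : (0.7171 : ℚ) < itgL_j9419 (29 / 10) (powL_j9419 loL_j9419 6) 4 := by decide +kernel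
  have h4 : itgL_j9419 (29 / 10) (powL_j9419 hiL_j9419 6) 4 < (0.7177 : ℚ) := by decide +kernel
  have h5 : (((0.7171 : ℚ)) : ℝ) < ((itgL_j9419 (29 / 10) (powL_j9419 loL_j9419 6) 4 : ℚ) : ℝ) := by exact_mod_cast h3
  have h6 : ((itgL_j9419 (29 / 10) (powL_j9419 hiL_j9419 6) 4 : ℚ) : ℝ) < (((0.7177 : ℚ)) : ℝ) := by exact_mod_cast h4
  have e5 : (((0.7171 : ℚ)) : ℝ) = 0.7171 := by norm_num
  have e6 : (((0.7177 : ℚ)) : ℝ) = 0.7177 := by norm_num
  rw [e5] at h5
  rw [e6] at h6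
  exact ⟨lt_of_lt_of_le h5 h1, lt_of_le_of_lt h2 h6⟩

theorem poly_moment_6_6 : (1.6676 : ℝ) < (∫ z in (0 : ℝ)..2.9, z ^ 6 * phi 1 z ^ 6) ∧ (∫ z in (0 : ℝ)..2.9, z ^ 6 * phi 1 z ^ 6) < 1.6687 := by
  obtain ⟨h1, h2⟩ := moment_bounds_j9419 6 6
  have h3 : (1.6676 : ℚ) < itgL_j9419 (29 / 10) (powL_j9419 loL_j9419 6) 6 := by decide +kernel
  have h4 : itgL_j9419 (29 / 10) (powL_j9419 hiL_j9419 6) 6 < (1.6687 : ℚ) := by decide +kernel
  have h5 : (((1.6676 : ℚ)) : ℝ) < ((itgL_j9419 (29 / 10) (powL_j9419 loL_j9419 6) 6 : ℚ) : ℝ) := by exact_mod_cast h3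
  have h6 : ((itgL_j9419 (29 / 10) (powL_j9419 hiL_j9419 6) 6 : ℚ) : ℝ) < (((1.6687 : ℚ)) : ℝ) := by exact_mod_cast h4
  have e5 : (((1.6676 : ℚ)) : ℝ) = 1.6676 := by norm_num
  have e6 : (((1.6687 : ℚ)) : ℝ) = 1.6687 := by norm_num
  rw [e5] at h5
  rw [e6] at h6
  exact ⟨lt_of_lt_of_le h5 h1, lt_of_le_of_lt h2 h6⟩

theorem poly_moment_8_6 : (5.1247 : ℝ) < (∫ z in (0 : ℝ)..2.9, z ^ 8 * phi 1 z ^ 6) ∧ (∫ z in (0 : ℝ)..2.9, z ^ 8 * phi 1 z ^ 6) < 5.1279 := by
  obtain ⟨h1, h2⟩ := moment_bounds_j9419 8 6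
  have h3 : (5.1247 : ℚ) < itgL_j9419 (29 / 10) (powL_j9419 loL_j9419 6) 8 := by decide +kernel
  have h4 : itgL_j9419 (29 / 10) (powL_j9419 hiL_j9419 6) 8 < (5.1279 : ℚ) := by decide +kernel
  have h5 : (((5.1247 : ℚ)) : ℝ) < ((itgL_j9419 (29 / 10) (powL_j9419 loL_j9419 6) 8 : ℚ) : ℝ) := by exact_mod_cast h3
  have h6 : ((itgL_j9419 (29 / 10) (powL_j9419 hiL_j9419 6) 8 : ℚ) : ℝ) < (((5.1279 : ℚ)) : ℝ) := by exact_mod_cast h4
  have e5 : (((5.1247 : ℚ)) : ℝ) = 5.1247 := by norm_num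
  have e6 : (((5.1279 : ℚ)) : ℝ) = 5.1279 := by norm_num
  rw [e5] at h5
  rw [e6] at h6
  exact ⟨lt_of_lt_of_le h5 h1, lt_of_le_of_lt h2 h6⟩




end Pool.Agent.Helper82.GC
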