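import Pool.Agent.Helper82.GC.J9415
import Pool.Agent.Helper82.GC.J9416
import Pool.Agent.Helper82.GC.J9419
import Pool.Agent.Helper82.GC.J9429

set_option autoImplicit false

open MeasureTheory Set

namespace Pool.Agent.Helper82.GC


theorem j9420_pw_j9420 (a b va vb y c : ℝ) (hva0 : 0 ≤ va) (hvb0 : 0 ≤ vb) (hva : va ^ 6 ≤ a)
    (hvb : vb ^ 6 ≤ b) (hab : a < b) (h0 : 0 ≤ a) (hay : a ≤ y) (hyb : y ≤ b)
    (hc : c * (b - a) ≤ va * (b - y) + vb * (y - a)) : c ≤ y ^ (1 / 6 : ℝ) := by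
  have hba : 0 < b - a := by linarith
  have hy0 : 0 ≤ y := h0.trans hay
  set l : ℝ := (b - y) / (b - a) with hl
  set m : ℝ := (y - a) / (b - a) with hm
  have hl0 : 0 ≤ l := div_nonneg (by linarith) hba.le
  have hm0 : 0 ≤ m := div_nonneg (by linarith) hba.le
  have hlm : l + m = 1 := by
    rw [hl, hm, ← add_div, div_eq_one_iff_eq hba.ne']
    ring
  have hy : l * a + m * b = y := by
    rw [hl, hm]
    field_simp
    ring
  have hcg : c ≤ l * va + m * vb := by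
    have e : l * va + m * vb = (va * (b - y) + vb * (y - a)) / (b - a) := by
      rw [hl, hm]
      field_simp
    rw [e, le_div_iff₀ hba]
    exact hc
  have hg0 : 0 ≤ l * va + m * vb := by positivity
  have hconv : (l * va + m * vb) ^ 6 ≤ l * va ^ 6 + m * vb ^ 6 := by
    have := (convexOn_pow 6 (𝕜 := ℝ)).2 (Set.mem_Ici.2 hva0) (Set.mem_Ici.2 hvb0) hl0 hm0 hlm
    simpa [smul_eq_mul] using this
  have h6 : (l * va + m * vb) ^ 6 ≤ y := by
    rw [← hy]
    refine hconv.trans ?_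
    exact add_le_add (mul_le_mul_of_nonneg_left hva hl0) (mul_le_mul_of_nonneg_left hvb hm0)
  refine hcg.trans ?_
  have h7 := Real.rpow_le_rpow (by positivity) h6 (show (0 : ℝ) ≤ 1 / 6 by norm_num)
  have h8 : ((l * va + m * vb) ^ 6) ^ (1 / 6 : ℝ) = l * va + m * vb := by
    have := Real.pow_rpow_inv_natCast hg0 (n := 6) (by norm_num)
    rw [one_div]
    exact_mod_cast this
  rwa [h8] at h7

theorem j9420_q_j9420 (y : ℝ) (h0 : 0.17 ≤ y) (h1 : y ≤ 1) :
    0.6317 + 0.6686 * y - 0.3425 * y ^ 2 ≤ y ^ (1 / 6 : ℝ) := by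
  rcases le_or_gt y 0.25 with h | h
  · refine j9420_pw_j9420 0.17 0.25 0.7442 0.7937 y _ (by norm_num) (by norm_num) (by norm_num) (by norm_num)
      (by norm_num) (by norm_num) h0 h ?_
    nlinarith [mul_nonneg (sub_nonneg.2 h0) (sub_nonneg.2 h), sq_nonneg (y - 0.17)]
  rcases le_or_gt y 0.4 with h' | h'
  · refine j9420_pw_j9420 0.25 0.4 0.7937 0.8583 y _ (by norm_num) (by norm_num) (by norm_num) (by norm_num)
      (by norm_num) (by norm_num) h.le h' ?_
    nlinarith [mul_nonneg (sub_nonneg.2 h.le) (sub_nonneg.2 h'), sq_nonneg (y - 0.3475)]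
  rcases le_or_gt y 0.65 with h'' | h''
  · refine j9420_pw_j9420 0.4 0.65 0.8583 0.9307 y _ (by norm_num) (by norm_num) (by norm_num) (by norm_num)
      (by norm_num) (by norm_num) h'.le h'' ?_
    nlinarith [mul_nonneg (sub_nonneg.2 h'.le) (sub_nonneg.2 h''), sq_nonneg (y - 0.55375)]
  · refine j9420_pw_j9420 0.65 1 0.9307 1 y _ (by norm_num) (by norm_num) (by norm_num) (by norm_num)
      (by norm_num) (by norm_num) h''.le h1 ?_
    nlinarith [mul_nonneg (sub_nonneg.2 h''.le) (sub_nonneg.2 h1), sq_nonneg (y - 0.68675)]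

theorem j9420_low_j9420 (j : ℕ) :
    0.6317 * (∫ z in (0 : ℝ)..2.9, z ^ j * phi 1 z ^ 4) + 0.6686 * (∫ z in (0 : ℝ)..2.9, z ^ j * phi 1 z ^ 5)
      - 0.3425 * (∫ z in (0 : ℝ)..2.9, z ^ j * phi 1 z ^ 6) ≤
      ∫ z in (0 : ℝ)..2.9, z ^ j * phi 1 z ^ (25 / 6 : ℝ) := by
  have hc := phi_contN
  have i4 : IntervalIntegrable (fun z : ℝ => 0.6317 * (z ^ j * phi 1 z ^ 4)) volume 0 2.9 :=
    (continuous_const.mul ((continuous_pow j).mul (hc.pow 4))).intervalIntegrable _ _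
  have i5 : IntervalIntegrable (fun z : ℝ => 0.6686 * (z ^ j * phi 1 z ^ 5)) volume 0 2.9 :=
    (continuous_const.mul ((continuous_pow j).mul (hc.pow 5))).intervalIntegrable _ _
  have i6 : IntervalIntegrable (fun z : ℝ => 0.3425 * (z ^ j * phi 1 z ^ 6)) volume 0 2.9 :=
    (continuous_const.mul ((continuous_pow j).mul (hc.pow 6))).intervalIntegrable _ _
  have iq : IntervalIntegrable (fun z : ℝ => z ^ j * phi 1 z ^ (25 / 6 : ℝ)) volume 0 2.9 :=
    ((continuous_pow j).mul (hc.rpow_const (fun _ => Or.inr (by norm_num)))).intervalIntegrable _ _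
  rw [← intervalIntegral.integral_const_mul, ← intervalIntegral.integral_const_mul,
    ← intervalIntegral.integral_const_mul, ← intervalIntegral.integral_add i4 i5,
    ← intervalIntegral.integral_sub (i4.add i5) i6]
  refine intervalIntegral.integral_mono_on (by norm_num) ((i4.add i5).sub i6) iq ?_
  intro z hz
  obtain ⟨hp1, hp2⟩ := phi_bounds z hz.1 hz.2
  set y := phi 1 z with hy
  have hy0 : 0 < y := by linarith
  have e1 : y ^ (25 / 6 : ℝ) = y ^ 4 * y ^ (1 / 6 : ℝ) := by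
    rw [show (25 / 6 : ℝ) = ((4 : ℕ) : ℝ) + 1 / 6 by norm_num, Real.rpow_add hy0, Real.rpow_natCast]
  rw [e1]
  have h1 := j9420_q_j9420 y hp1.le hp2
  have h2 : 0 ≤ z ^ j * y ^ 4 := mul_nonneg (pow_nonneg hz.1 _) (by positivity)
  have h3 := mul_le_mul_of_nonneg_left h1 h2
  have e2 : 0.6317 * (z ^ j * y ^ 4) + 0.6686 * (z ^ j * y ^ 5) - 0.3425 * (z ^ j * y ^ 6) =
      z ^ j * y ^ 4 * (0.6317 + 0.6686 * y - 0.3425 * y ^ 2) := by ring
  have e3 : z ^ j * (y ^ 4 * y ^ (1 / 6 : ℝ)) = z ^ j * y ^ 4 * y ^ (1 / 6 : ℝ) := by ring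
  rw [e3]
  refine le_trans (le_of_eq e2) h3

theorem low_q1_4 : (1.5595 : ℝ) < ∫ z in (0 : ℝ)..2.9, z ^ 4 * phi 1 z ^ (25 / 6 : ℝ) := by
  have h := j9420_low_j9420 4
  have h4 := poly_moment_4_4.1
  have h5 := poly_moment_4_5.1
  have h6 := poly_moment_4_6.2
  norm_num at h h4 h5 h6 ⊢
  linarith
theorem low_q1_6 : (4.7459 : ℝ) < ∫ z in (0 : ℝ)..2.9, z ^ 6 * phi 1 z ^ (25 / 6 : ℝ) := by
  have h := j9420_low_j9420 6
  have h4 := poly_moment_6_4.1
  have h5 := poly_moment_6_5.1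
  have h6 := poly_moment_6_6.2
  norm_num at h h4 h5 h6 ⊢
  linarith
theorem low_q1_8 : (18.572 : ℝ) < ∫ z in (0 : ℝ)..2.9, z ^ 8 * phi 1 z ^ (25 / 6 : ℝ) := by
  have h := j9420_low_j9420 8
  have h4 := poly_moment_8_4.1
  have h5 := poly_moment_8_5.1
  have h6 := poly_moment_8_6.2
  norm_num at h h4 h5 h6 ⊢
  linarith



end Pool.Agent.Helper82.GC
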