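import Pool.Agent.Helper82.GC.J9415
import Pool.Agent.Helper82.GC.J9416
import Pool.Agent.Helper82.GC.J9419
import Pool.Agent.Helper82.GC.J9429

set_option autoImplicit false

open MeasureTheory Set

namespace Pool.Agent.Helper82.GC


theorem lq_base_j9422 {a α : ℝ} (ha : 0 < a) (hα : 0 ≤ α) (h : α ^ 10 ≤ a ^ 3) :
    α ≤ a ^ (0.3 : ℝ) := by
  have h1 : (a ^ (0.3 : ℝ)) ^ 10 = a ^ 3 := by
    rw [← Real.rpow_natCast, ← Real.rpow_mul ha.le, ← Real.rpow_natCast]
    norm_num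
  have h2 : α ^ 10 ≤ (a ^ (0.3 : ℝ)) ^ 10 := by rw [h1]; exact h
  exact le_of_pow_le_pow_left₀ (by norm_num) (Real.rpow_nonneg ha.le _) h2

theorem lq_chord_j9422 {a b α β y : ℝ} (ha : 0 < a) (hab : a < b) (hα : 0 ≤ α) (hβ : 0 ≤ β)
    (h1 : α ^ 10 ≤ a ^ 3) (h2 : β ^ 10 ≤ b ^ 3) (hy1 : a ≤ y) (hy2 : y ≤ b) :
    (b - y) * α + (y - a) * β ≤ (b - a) * y ^ (0.3 : ℝ) := by
  have hα' := lq_base_j9422 ha hα h1
  have hβ' := lq_base_j9422 (ha.trans hab) hβ h2
  have hc := Real.concaveOn_rpow (p := 0.3) (by norm_num) (by norm_num)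
  have hba : 0 < b - a := by linarith
  have hs1 : 0 ≤ (b - y) / (b - a) := div_nonneg (by linarith) hba.le
  have hs2 : 0 ≤ (y - a) / (b - a) := div_nonneg (by linarith) hba.le
  have hs3 : (b - y) / (b - a) + (y - a) / (b - a) = 1 := by field_simp; ring
  have := hc.2 (Set.mem_Ici.2 ha.le) (Set.mem_Ici.2 (ha.trans hab).le) hs1 hs2 hs3
  simp only [smul_eq_mul] at this
  have he : (b - y) / (b - a) * a + (y - a) / (b - a) * b = y := by
    field_simp; ring
  rw [he] at this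
  have h3 : (b - y) * a ^ (0.3 : ℝ) + (y - a) * b ^ (0.3 : ℝ) ≤ (b - a) * y ^ (0.3 : ℝ) := by
    have h4 := mul_le_mul_of_nonneg_left this hba.le
    have h5 : (b - a) * ((b - y) / (b - a) * a ^ (0.3 : ℝ) + (y - a) / (b - a) * b ^ (0.3 : ℝ))
      = (b - y) * a ^ (0.3 : ℝ) + (y - a) * b ^ (0.3 : ℝ) := by
      field_simp
    rw [h5] at h4
    exact h4
  have h6 := mul_le_mul_of_nonneg_left hα' (by linarith : (0 : ℝ) ≤ b - y)
  have h7 := mul_le_mul_of_nonneg_left hβ' (by linarith : (0 : ℝ) ≤ y - a)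
  linarith

theorem lq_quad_j9422 {y : ℝ} (h0 : 0.17 ≤ y) (h1 : y ≤ 1) :
    0.430 + 0.9857 * y - 0.464 * y ^ 2 ≤ y ^ (0.3 : ℝ) := by
  rcases le_total y 0.22 with h | h
  · have := lq_chord_j9422 (a := 0.17) (b := 0.22) (α := 0.5876) (β := 0.6349) (by norm_num) (by norm_num)
      (by norm_num) (by norm_num) (by norm_num) (by norm_num) h0 h
    nlinarith [mul_nonneg (sub_nonneg.2 h0) (sub_nonneg.2 h), sq_nonneg (y - 0.0428)]
  rcases le_total y 0.3 with h' | h'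
  · have := lq_chord_j9422 (a := 0.22) (b := 0.3) (α := 0.6349) (β := 0.6968) (by norm_num) (by norm_num)
      (by norm_num) (by norm_num) (by norm_num) (by norm_num) h h'
    nlinarith [mul_nonneg (sub_nonneg.2 h) (sub_nonneg.2 h'), sq_nonneg (y - 0.2284)]
  rcases le_total y 0.4 with h2 | h2
  · have := lq_chord_j9422 (a := 0.3) (b := 0.4) (α := 0.6968) (β := 0.7596) (by norm_num) (by norm_num)
      (by norm_num) (by norm_num) (by norm_num) (by norm_num) h' h2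
    nlinarith [mul_nonneg (sub_nonneg.2 h') (sub_nonneg.2 h2), sq_nonneg (y - 0.3855)]
  rcases le_total y 0.5 with h3 | h3
  · have := lq_chord_j9422 (a := 0.4) (b := 0.5) (α := 0.7596) (β := 0.8122) (by norm_num) (by norm_num)
      (by norm_num) (by norm_num) (by norm_num) (by norm_num) h2 h3
    nlinarith [mul_nonneg (sub_nonneg.2 h2) (sub_nonneg.2 h3), sq_nonneg (y - 0.4954)]
  rcases le_total y 0.6 with h4 | h4
  · have := lq_chord_j9422 (a := 0.5) (b := 0.6) (α := 0.8122) (β := 0.8579) (by norm_num) (by norm_num)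
      (by norm_num) (by norm_num) (by norm_num) (by norm_num) h3 h4
    nlinarith [mul_nonneg (sub_nonneg.2 h3) (sub_nonneg.2 h4), sq_nonneg (y - 0.5697)]
  rcases le_total y 0.7 with h5 | h5
  · have := lq_chord_j9422 (a := 0.6) (b := 0.7) (α := 0.8579) (β := 0.8985) (by norm_num) (by norm_num)
      (by norm_num) (by norm_num) (by norm_num) (by norm_num) h4 h5
    nlinarith [mul_nonneg (sub_nonneg.2 h4) (sub_nonneg.2 h5), sq_nonneg (y - 0.6247)]
  rcases le_total y 0.82 with h6 | h6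
  · have := lq_chord_j9422 (a := 0.7) (b := 0.82) (α := 0.8985) (β := 0.9422) (by norm_num) (by norm_num)
      (by norm_num) (by norm_num) (by norm_num) (by norm_num) h5 h6
    nlinarith [mul_nonneg (sub_nonneg.2 h5) (sub_nonneg.2 h6), sq_nonneg (y - 0.6698)]
  · have := lq_chord_j9422 (a := 0.82) (b := 1) (α := 0.9422) (β := 1) (by norm_num) (by norm_num)
      (by norm_num) (by norm_num) (by norm_num) (by norm_num) h6 h1
    nlinarith [mul_nonneg (sub_nonneg.2 h6) (sub_nonneg.2 h1), sq_nonneg (y - 0.7161)]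

theorem lq_int_j9422 (k : ℕ) :
    0.430 * (∫ z in (0 : ℝ)..2.9, z ^ k * phi 1 z ^ 4)
      + 0.9857 * (∫ z in (0 : ℝ)..2.9, z ^ k * phi 1 z ^ 5)
      - 0.464 * (∫ z in (0 : ℝ)..2.9, z ^ k * phi 1 z ^ 6)
      ≤ ∫ z in (0 : ℝ)..2.9, z ^ k * phi 1 z ^ (4.3 : ℝ) := by
  have hc := phi_contN
  have hi : ∀ m : ℕ, IntervalIntegrable (fun z : ℝ => z ^ k * phi 1 z ^ m) volume 0 2.9 :=
    fun m => ((continuous_pow k).mul (hc.pow m)).intervalIntegrable _ _
  have hr : Continuous (fun z : ℝ => z ^ k * phi 1 z ^ (4.3 : ℝ)) :=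
    (continuous_pow k).mul (hc.rpow_const (fun z => Or.inr (by norm_num)))
  have h1 : 0.430 * (∫ z in (0 : ℝ)..2.9, z ^ k * phi 1 z ^ 4)
      + 0.9857 * (∫ z in (0 : ℝ)..2.9, z ^ k * phi 1 z ^ 5)
      - 0.464 * (∫ z in (0 : ℝ)..2.9, z ^ k * phi 1 z ^ 6)
      = ∫ z in (0 : ℝ)..2.9, (0.430 * (z ^ k * phi 1 z ^ 4) + 0.9857 * (z ^ k * phi 1 z ^ 5)
        - 0.464 * (z ^ k * phi 1 z ^ 6)) := by
    rw [intervalIntegral.integral_sub (((hi 4).const_mul _).add ((hi 5).const_mul _))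
        ((hi 6).const_mul _),
      intervalIntegral.integral_add ((hi 4).const_mul _) ((hi 5).const_mul _),
      intervalIntegral.integral_const_mul, intervalIntegral.integral_const_mul,
      intervalIntegral.integral_const_mul]
  rw [h1]
  apply intervalIntegral.integral_mono_on (by norm_num)
    ((((hi 4).const_mul _).add ((hi 5).const_mul _)).sub ((hi 6).const_mul _))
    (hr.intervalIntegrable _ _)
  intro z hz
  obtain ⟨hz0, hz1⟩ := hz
  obtain ⟨hp, hp1⟩ := phi_bounds z hz0 hz1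
  have hpos : 0 < phi 1 z := by linarith
  have hq := lq_quad_j9422 hp.le hp1
  have e1 : phi 1 z ^ (4.3 : ℝ) = phi 1 z ^ 4 * phi 1 z ^ (0.3 : ℝ) := by
    rw [← Real.rpow_natCast, ← Real.rpow_add hpos]
    norm_num
  rw [e1]
  have h2 : 0 ≤ z ^ k * phi 1 z ^ 4 := mul_nonneg (pow_nonneg hz0 _) (pow_nonneg hpos.le _)
  have h3 := mul_le_mul_of_nonneg_left hq h2
  calc _ = z ^ k * phi 1 z ^ 4 * (0.430 + 0.9857 * phi 1 z - 0.464 * phi 1 z ^ 2) := by ring
    _ ≤ _ := by rw [← mul_assoc]; exact h3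


theorem low_q2_4 : (1.4595 : ℝ) < ∫ z in (0 : ℝ)..2.9, z ^ 4 * phi 1 z ^ (4.3 : ℝ) := by 
  have h := lq_int_j9422 4
  have h1 := poly_moment_4_4.1
  have h2 := poly_moment_4_5.1
  have h3 := poly_moment_4_6.2
  linarith
theorem low_q2_6 : (4.3471 : ℝ) < ∫ z in (0 : ℝ)..2.9, z ^ 6 * phi 1 z ^ (4.3 : ℝ) := by 
  have h := lq_int_j9422 6
  have h1 := poly_moment_6_4.1
  have h2 := poly_moment_6_5.1
  have h3 := poly_moment_6_6.2
  linarith
theorem low_q2_8 : (16.696 : ℝ) < ∫ z in (0 : ℝ)..2.9, z ^ 8 * phi 1 z ^ (4.3 : ℝ) := by 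
  have h := lq_int_j9422 8
  have h1 := poly_moment_8_4.1
  have h2 := poly_moment_8_5.1
  have h3 := poly_moment_8_6.2
  linarith



end Pool.Agent.Helper82.GC
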