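import Pool.Agent.Helper82.GC.J9415
import Pool.Agent.Helper82.GC.J9416
import Pool.Agent.Helper82.GC.J9419
import Pool.Agent.Helper82.GC.J9429

set_option autoImplicit false

open MeasureTheory Set

namespace Pool.Agent.Helper82.GC


theorem q3_poly1_j9427 (u v : ℝ) (hu : 0 ≤ u) (hv : 0 ≤ v) (huv : v = 1 - u) (t : ℝ)
    (ht : t = 7 / 10 + 3 / 20 * u) :
    147 / 1000 + 2437 / 2000 * t ^ 5 - 81 / 200 * t ^ 10 ≤ t ^ 3 := by
  have key : t ^ 3 - (147 / 1000 + 2437 / 2000 * t ^ 5 - 81 / 200 * t ^ 10) =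
      (5293905169:ℝ)/2000000000000 * u^0 * v^10 + (20825181839:ℝ)/400000000000 * u^1 * v^9 + (522088439481:ℝ)/1600000000000 * u^2 * v^8 + (420216944937:ℝ)/400000000000 * u^3 * v^7 + (6520267266429:ℝ)/3200000000000 * u^4 * v^6 + (40728267397197:ℝ)/16000000000000 * u^5 * v^5 + (26825587760469:ℝ)/12800000000000 * u^6 * v^4 + (7219115345877:ℝ)/6400000000000 * u^7 * v^3 + (39001914749961:ℝ)/102400000000000 * u^8 * v^2 + (7501647013799:ℝ)/102400000000000 * u^9 * v^1 + (12706223056369:ℝ)/2048000000000000 * u^10 * v^0 := by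
    rw [ht, huv]
    ring
  have h2 : 0 ≤ t ^ 3 - (147 / 1000 + 2437 / 2000 * t ^ 5 - 81 / 200 * t ^ 10) := by
    rw [key]
    positivity
  linarith

theorem q3_poly2_j9427 (u v : ℝ) (hu : 0 ≤ u) (hv : 0 ≤ v) (huv : v = 1 - u) (t : ℝ)
    (ht : t = 17 / 20 + 3 / 20 * u) :
    147 / 1000 + 2437 / 2000 * t ^ 5 - 81 / 200 * t ^ 10 ≤ t ^ 3 := by
  have key : t ^ 3 - (147 / 1000 + 2437 / 2000 * t ^ 5 - 81 / 200 * t ^ 10) =
      (12706223056369:ℝ)/2048000000000000 * u^0 * v^10 + (520457604257:ℝ)/10240000000000 * u^1 * v^9 + (183282760089:ℝ)/1024000000000 * u^2 * v^8 + (2386645449:ℝ)/6400000000 * u^3 * v^7 + (18523749:ℝ)/32000000 * u^4 * v^6 + (5299440831:ℝ)/6400000000 * u^5 * v^5 + (69231543:ℝ)/64000000 * u^6 * v^4 + (1712679:ℝ)/1600000 * u^7 * v^3 + (27531:ℝ)/40000 * u^8 * v^2 + (2011:ℝ)/8000 * u^9 * v^1 + (79:ℝ)/2000 * u^10 * v^0 := by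
    rw [ht, huv]
    ring
  have h2 : 0 ≤ t ^ 3 - (147 / 1000 + 2437 / 2000 * t ^ 5 - 81 / 200 * t ^ 10) := by
    rw [key]
    positivity
  linarith

theorem q3_poly_j9427 (t : ℝ) (h1 : 7 / 10 ≤ t) (h2 : t ≤ 1) :
    147 / 1000 + 2437 / 2000 * t ^ 5 - 81 / 200 * t ^ 10 ≤ t ^ 3 := by
  rcases le_total t (17 / 20) with h | h
  · exact q3_poly1_j9427 ((t - 7 / 10) * (20 / 3)) (1 - (t - 7 / 10) * (20 / 3)) (by linarith)
      (by linarith) rfl t (by ring)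
  · exact q3_poly2_j9427 ((t - 17 / 20) * (20 / 3)) (1 - (t - 17 / 20) * (20 / 3)) (by linarith)
      (by linarith) rfl t (by ring)

theorem q3_rpow_j9427 (y : ℝ) (h1 : 0.17 < y) (h2 : y ≤ 1) :
    147 / 1000 + 2437 / 2000 * y - 81 / 200 * y ^ 2 ≤ y ^ (0.6 : ℝ) := by
  have hy : 0 < y := by linarith
  obtain ⟨t, ht⟩ : ∃ t, t = y ^ (1 / 5 : ℝ) := ⟨_, rfl⟩
  have ht5 : t ^ 5 = y := by
    rw [ht, ← Real.rpow_natCast, ← Real.rpow_mul hy.le]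
    norm_num
  have ht3 : t ^ 3 = y ^ (0.6 : ℝ) := by
    rw [ht, ← Real.rpow_natCast, ← Real.rpow_mul hy.le]
    norm_num
  have ht0 : 0 ≤ t := by rw [ht]; exact Real.rpow_nonneg hy.le _
  have ht1 : t ≤ 1 := by
    rw [ht]
    exact Real.rpow_le_one hy.le h2 (by norm_num)
  have ht7 : 7 / 10 ≤ t := by
    by_contra hlt
    have hlt' : t < 7 / 10 := not_le.1 hlt
    have h3 : t ^ 5 < (7 / 10) ^ 5 := pow_lt_pow_left₀ hlt' ht0 (by norm_num)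
    rw [ht5] at h3
    norm_num at h3 h1
    linarith
  have h4 := q3_poly_j9427 t ht7 ht1
  have h5 : t ^ 10 = y ^ 2 := by
    rw [← ht5]
    ring
  rw [ht5, ht3, h5] at h4
  exact h4

theorem q3_gen_j9427 (k : ℕ) : 147 / 1000 * (∫ z in (0 : ℝ)..2.9, z ^ k * phi 1 z ^ 4) +
    2437 / 2000 * (∫ z in (0 : ℝ)..2.9, z ^ k * phi 1 z ^ 5) -
    81 / 200 * (∫ z in (0 : ℝ)..2.9, z ^ k * phi 1 z ^ 6) ≤
    ∫ z in (0 : ℝ)..2.9, z ^ k * phi 1 z ^ (4.6 : ℝ) := by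
  have hc := phi_contN
  have hi : ∀ m : ℕ, IntervalIntegrable (fun z : ℝ => z ^ k * phi 1 z ^ m) volume 0 2.9 :=
    fun m => ((continuous_pow k).mul (hc.pow m)).intervalIntegrable _ _
  have hi' : IntervalIntegrable (fun z : ℝ => z ^ k * phi 1 z ^ (4.6 : ℝ)) volume 0 2.9 :=
    ((continuous_pow k).mul (hc.rpow_const (fun x => Or.inr (by norm_num)))).intervalIntegrable _ _
  have hi1 : IntervalIntegrable (fun z : ℝ => 147 / 1000 * (z ^ k * phi 1 z ^ 4) +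
      2437 / 2000 * (z ^ k * phi 1 z ^ 5)) volume 0 2.9 :=
    ((hi 4).const_mul _).add ((hi 5).const_mul _)
  have h1 : ∫ z in (0 : ℝ)..2.9, ((147 / 1000 * (z ^ k * phi 1 z ^ 4) +
      2437 / 2000 * (z ^ k * phi 1 z ^ 5)) - 81 / 200 * (z ^ k * phi 1 z ^ 6)) ≤
      ∫ z in (0 : ℝ)..2.9, z ^ k * phi 1 z ^ (4.6 : ℝ) := by
    apply intervalIntegral.integral_mono_on (by norm_num) (hi1.sub ((hi 6).const_mul _)) hi'
    intro z hz
    obtain ⟨hb1, hb2⟩ := phi_bounds z hz.1 hz.2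
    have hpos : 0 < phi 1 z := by linarith
    have h2 : phi 1 z ^ (4.6 : ℝ) = phi 1 z ^ 4 * phi 1 z ^ (0.6 : ℝ) := by
      rw [← Real.rpow_natCast (phi 1 z) 4, ← Real.rpow_add hpos]
      norm_num
    rw [h2]
    have h3 := q3_rpow_j9427 (phi 1 z) hb1 hb2
    have h4 : 0 ≤ z ^ k * phi 1 z ^ 4 := mul_nonneg (pow_nonneg hz.1 _) (pow_nonneg hpos.le _)
    have h5 := mul_le_mul_of_nonneg_left h3 h4
    calc 147 / 1000 * (z ^ k * phi 1 z ^ 4) + 2437 / 2000 * (z ^ k * phi 1 z ^ 5) -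
          81 / 200 * (z ^ k * phi 1 z ^ 6) =
        z ^ k * phi 1 z ^ 4 * (147 / 1000 + 2437 / 2000 * phi 1 z - 81 / 200 * phi 1 z ^ 2) := by
          ring
      _ ≤ z ^ k * phi 1 z ^ 4 * phi 1 z ^ (0.6 : ℝ) := h5
      _ = z ^ k * (phi 1 z ^ 4 * phi 1 z ^ (0.6 : ℝ)) := by ring
  rw [intervalIntegral.integral_sub hi1 ((hi 6).const_mul _),
    intervalIntegral.integral_add ((hi 4).const_mul _) ((hi 5).const_mul _),
    intervalIntegral.integral_const_mul, intervalIntegral.integral_const_mul,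
    intervalIntegral.integral_const_mul] at h1
  exact h1

theorem low_q3_4 : (1.2645 : ℝ) < ∫ z in (0 : ℝ)..2.9, z ^ 4 * phi 1 z ^ (4.6 : ℝ) := by
  have h1 := q3_gen_j9427 4
  have h2 := poly_moment_4_4.1
  have h3 := poly_moment_4_5.1
  have h4 := poly_moment_4_6.2
  refine lt_of_lt_of_le ?_ h1
  norm_num at h2 h3 h4 ⊢
  linarith

theorem low_q3_6 : (3.5923 : ℝ) < ∫ z in (0 : ℝ)..2.9, z ^ 6 * phi 1 z ^ (4.6 : ℝ) := by
  have h1 := q3_gen_j9427 6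
  have h2 := poly_moment_6_4.1
  have h3 := poly_moment_6_5.1
  have h4 := poly_moment_6_6.2
  refine lt_of_lt_of_le ?_ h1
  norm_num at h2 h3 h4 ⊢
  linarith

theorem low_q3_8 : (13.237 : ℝ) < ∫ z in (0 : ℝ)..2.9, z ^ 8 * phi 1 z ^ (4.6 : ℝ) := by
  have h1 := q3_gen_j9427 8
  have h2 := poly_moment_8_4.1
  have h3 := poly_moment_8_5.1
  have h4 := poly_moment_8_6.2
  refine lt_of_lt_of_le ?_ h1
  norm_num at h2 h3 h4 ⊢
  linarith




end Pool.Agent.Helper82.GC
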