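import Pool.Agent.Helper82.GC.J9415
import Pool.Agent.Helper82.GC.J9416
import Pool.Agent.Helper82.GC.J9419
import Pool.Agent.Helper82.GC.J9429

set_option autoImplicit false

open MeasureTheory Set

namespace Pool.Agent.Helper82.GC


/-- the polynomial inequality behind the quadratic lower bound of `y ^ 1.2` -/
theorem lowq4_poly_j9428 (t : ℝ) (h0 : 0.7 ≤ t) (h1 : t ≤ 1) :
    -0.046 + 0.86978 * t ^ 5 + 0.1731 * t ^ 10 ≤ t ^ 6 := by
  obtain ⟨s, hs⟩ : ∃ s : ℝ, s = (t - 0.7) / 0.3 := ⟨_, rfl⟩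
  obtain ⟨u, hu⟩ : ∃ u : ℝ, u = (1 - t) / 0.3 := ⟨_, rfl⟩
  have hs0 : 0 ≤ s := by rw [hs]; apply div_nonneg <;> linarith
  have hu0 : 0 ≤ u := by rw [hu]; apply div_nonneg <;> linarith
  have hsu : s + u = 1 := by rw [hs, hu]; field_simp; ring
  have ht : t = 0.7 * u + s := by rw [hs, hu]; field_simp; ring
  have key : 0 ≤ (0.7 * u + s) ^ 6 * (s + u) ^ 4 + 0.046 * (s + u) ^ 10
      - 0.86978 * (0.7 * u + s) ^ 5 * (s + u) ^ 5 - 0.1731 * (0.7 * u + s) ^ 10 := by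
    have e : (0.7 * u + s) ^ 6 * (s + u) ^ 4 + 0.046 * (s + u) ^ 10
      - 0.86978 * (0.7 * u + s) ^ 5 * (s + u) ^ 5 - 0.1731 * (0.7 * u + s) ^ 10 = (1257542883981/100000000000000) * s ^ 0 * u ^ 10 + (94073393283/1000000000000) * s ^ 1 * u ^ 9 + (59197146021/200000000000) * s ^ 2 * u ^ 8 + (20088099/39062500) * s ^ 3 * u ^ 7 + (286873839/500000000) * s ^ 4 * u ^ 6 + (2621812707/5000000000) * s ^ 5 * u ^ 5 + (50230701/100000000) * s ^ 6 * u ^ 4 + (2110743/5000000) * s ^ 7 * u ^ 3 + (222273/1000000) * s ^ 8 * u ^ 2 + (5517/100000) * s ^ 9 * u ^ 1 + (39/12500) * s ^ 10 * u ^ 0 := by ring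
    rw [e]; positivity
  rw [hsu, ← ht] at key
  linarith

theorem lowq4_rpow_j9428 (y : ℝ) (h0 : 0.17 < y) (h1 : y ≤ 1) :
    -0.046 * y ^ 4 + 0.86978 * y ^ 5 + 0.1731 * y ^ 6 ≤ y ^ (5.2 : ℝ) := by
  have hy : 0 < y := by linarith
  obtain ⟨t, ht⟩ : ∃ t : ℝ, t = y ^ ((1 : ℝ) / 5) := ⟨_, rfl⟩
  have ht0 : 0 < t := by rw [ht]; positivity
  have ht5 : t ^ 5 = y := by
    rw [ht, ← Real.rpow_natCast, ← Real.rpow_mul hy.le]; norm_num
  have ht1 : t ≤ 1 := by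
    by_contra hc
    push Not at hc
    have : 1 < t ^ 5 := one_lt_pow₀ hc (by norm_num)
    linarith
  have ht2 : 0.7 ≤ t := by
    by_contra hc
    push Not at hc
    have : t ^ 5 < 0.7 ^ 5 := pow_lt_pow_left₀ hc ht0.le (by norm_num)
    norm_num at this
    linarith
  have h52 : y ^ (5.2 : ℝ) = y ^ 4 * t ^ 6 := by
    rw [ht, ← Real.rpow_natCast (y ^ ((1 : ℝ) / 5)), ← Real.rpow_mul hy.le, ← Real.rpow_natCast y,
      ← Real.rpow_add hy]
    norm_num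
  have hp := lowq4_poly_j9428 t ht2 ht1
  rw [h52]
  have : y ^ 4 * (-0.046 + 0.86978 * t ^ 5 + 0.1731 * t ^ 10) ≤ y ^ 4 * t ^ 6 :=
    mul_le_mul_of_nonneg_left hp (by positivity)
  have e10 : t ^ 10 = y ^ 2 := by rw [← ht5]; ring
  rw [e10, ht5] at this
  linarith

theorem lowq4_main_j9428 (k : ℕ) (M4 M5 M6 : ℝ)
    (h4 : (∫ z in (0 : ℝ)..2.9, z ^ k * phi 1 z ^ 4) < M4)
    (h5 : M5 < ∫ z in (0 : ℝ)..2.9, z ^ k * phi 1 z ^ 5)
    (h6 : M6 < ∫ z in (0 : ℝ)..2.9, z ^ k * phi 1 z ^ 6) :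
    -0.046 * M4 + 0.86978 * M5 + 0.1731 * M6
      < ∫ z in (0 : ℝ)..2.9, z ^ k * phi 1 z ^ (5.2 : ℝ) := by
  have hc := phi_contN
  have hI : ∀ n : ℕ, IntervalIntegrable (fun z : ℝ => z ^ k * phi 1 z ^ n) volume 0 2.9 := by
    intro n
    apply Continuous.intervalIntegrable
    fun_prop
  have hR : IntervalIntegrable (fun z : ℝ => z ^ k * phi 1 z ^ (5.2 : ℝ)) volume 0 2.9 := by
    apply Continuous.intervalIntegrable
    apply Continuous.mul (by fun_prop)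
    apply hc.rpow_const
    intro x; right; norm_num
  have hmono : (∫ z in (0 : ℝ)..2.9, (-0.046 * (z ^ k * phi 1 z ^ 4)
      + 0.86978 * (z ^ k * phi 1 z ^ 5) + 0.1731 * (z ^ k * phi 1 z ^ 6)))
      ≤ ∫ z in (0 : ℝ)..2.9, z ^ k * phi 1 z ^ (5.2 : ℝ) := by
    apply intervalIntegral.integral_mono_on (by norm_num) _ hR
    · intro z hz
      obtain ⟨hb1, hb2⟩ := phi_bounds z hz.1 hz.2
      have h1 := lowq4_rpow_j9428 (phi 1 z) hb1 hb2
      have h2 : (0 : ℝ) ≤ z ^ k := pow_nonneg hz.1 k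
      have h3 := mul_le_mul_of_nonneg_left h1 h2
      linarith
    · exact (((hI 4).const_mul _).add ((hI 5).const_mul _)).add ((hI 6).const_mul _)
  have hsplit : (∫ z in (0 : ℝ)..2.9, (-0.046 * (z ^ k * phi 1 z ^ 4)
      + 0.86978 * (z ^ k * phi 1 z ^ 5) + 0.1731 * (z ^ k * phi 1 z ^ 6)))
      = -0.046 * (∫ z in (0 : ℝ)..2.9, z ^ k * phi 1 z ^ 4)
      + 0.86978 * (∫ z in (0 : ℝ)..2.9, z ^ k * phi 1 z ^ 5)
      + 0.1731 * (∫ z in (0 : ℝ)..2.9, z ^ k * phi 1 z ^ 6) := by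
    rw [intervalIntegral.integral_add, intervalIntegral.integral_add,
      intervalIntegral.integral_const_mul, intervalIntegral.integral_const_mul,
      intervalIntegral.integral_const_mul]
    · exact (hI 4).const_mul _
    · exact (hI 5).const_mul _
    · exact ((hI 4).const_mul _).add ((hI 5).const_mul _)
    · exact (hI 6).const_mul _
  linarith

theorem low_q4_4 : (0.9696 : ℝ) < ∫ z in (0 : ℝ)..2.9, z ^ 4 * phi 1 z ^ (5.2 : ℝ) := by
  have := lowq4_main_j9428 4 _ _ _ poly_moment_4_4.2 poly_moment_4_5.1 poly_moment_4_6.1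
  norm_num at this ⊢
  linarith

theorem low_q4_6 : (2.5179 : ℝ) < ∫ z in (0 : ℝ)..2.9, z ^ 6 * phi 1 z ^ (5.2 : ℝ) := by
  have := lowq4_main_j9428 6 _ _ _ poly_moment_6_4.2 poly_moment_6_5.1 poly_moment_6_6.1
  norm_num at this ⊢
  linarith

theorem low_q4_8 : (8.5609 : ℝ) < ∫ z in (0 : ℝ)..2.9, z ^ 8 * phi 1 z ^ (5.2 : ℝ) := by
  have := lowq4_main_j9428 8 _ _ _ poly_moment_8_4.2 poly_moment_8_5.1 poly_moment_8_6.1
  norm_num at this ⊢
  linarith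



end Pool.Agent.Helper82.GC
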