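import Pool.Agent.Helper82.GC.J9285
import Pool.Agent.Helper82.GC.J9412

set_option autoImplicit false

open MeasureTheory Set

namespace Pool.Agent.Helper82.GC


theorem r1a_exp_j9434 : (5.9 : ℝ) ≤ Real.exp 1.7777 := by
  have h1 := Real.exp_one_gt_d9
  have h2 : (1 + 0.7777 + 0.7777 ^ 2 / 2 + 0.7777 ^ 3 / 6 + 0.7777 ^ 4 / 24 : ℝ) ≤ Real.exp 0.7777 := by
    have h := Real.sum_le_exp_of_nonneg (show (0:ℝ) ≤ 0.7777 by norm_num) 5
    simp only [Finset.sum_range_succ, Finset.sum_range_zero, Nat.factorial] at h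
    norm_num at h
    norm_num
    linarith
  have h3 : Real.exp 1.7777 = Real.exp 1 * Real.exp 0.7777 := by
    rw [← Real.exp_add]
    norm_num
  rw [h3]
  have h4 : (2.1737 : ℝ) ≤ Real.exp 0.7777 := by
    refine le_trans ?_ h2
    norm_num
  calc (5.9 : ℝ) ≤ 2.7182818283 * 2.1737 := by norm_num
    _ ≤ Real.exp 1 * Real.exp 0.7777 := mul_le_mul h1.le h4 (by norm_num) (Real.exp_pos 1).le

theorem r1a_w_j9434 (τ : ℝ) (hτ : z0 ≤ τ) :
    1.7777 ≤ vr 1 * τ ^ 2 / 2 ∧ 0.14556 * τ ^ 2 ≤ vr 1 * τ ^ 2 / 2 ∧ 3.4947 < τ := by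
  have h1 := z0_bounds.1
  have h2 := vr_one_bounds.1
  have h3 : 3.4947 < τ := lt_of_lt_of_le h1 hτ
  have h4 : (3.4947:ℝ) ^ 2 ≤ τ ^ 2 := pow_le_pow_left₀ (by norm_num) h3.le 2
  have h5 : 0.14556 * τ ^ 2 ≤ vr 1 * τ ^ 2 / 2 := by nlinarith
  refine ⟨?_, h5, h3⟩
  refine le_trans ?_ h5
  nlinarith

theorem r1a_exp_ge_j9434 (τ : ℝ) (hτ : z0 ≤ τ) :
    5.9 * (0.14556 * τ ^ 2 - 0.7777) ≤ Real.exp (vr 1 * τ ^ 2 / 2) := by
  obtain ⟨h1, h2, h3⟩ := r1a_w_j9434 τ hτ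
  have h4 : Real.exp (vr 1 * τ ^ 2 / 2) = Real.exp 1.7777 * Real.exp (vr 1 * τ ^ 2 / 2 - 1.7777) := by
    rw [← Real.exp_add]
    congr 1
    ring
  have h5 := Real.add_one_le_exp (vr 1 * τ ^ 2 / 2 - 1.7777)
  rw [h4]
  have h6 : 0.14556 * τ ^ 2 - 0.7777 ≤ Real.exp (vr 1 * τ ^ 2 / 2 - 1.7777) := by
    refine le_trans ?_ h5
    linarith
  have h7 : (0:ℝ) ≤ 0.14556 * τ ^ 2 - 0.7777 := by nlinarith
  exact mul_le_mul r1a_exp_j9434 h6 h7 (Real.exp_pos _).le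

theorem r1a_gauss_j9434 (τ : ℝ) (hτ : z0 ≤ τ) :
    Real.exp (-(vr 1) * τ ^ 2 / 2) ≤ 0.73 / τ ∧ Real.exp (-(vr 1) * τ ^ 2 / 2) ≤ 0.17 := by
  obtain ⟨h1, h2, h3⟩ := r1a_w_j9434 τ hτ
  have h4 := r1a_exp_ge_j9434 τ hτ
  have h5 : -(vr 1) * τ ^ 2 / 2 = -(vr 1 * τ ^ 2 / 2) := by ring
  rw [h5, Real.exp_neg]
  constructor
  · have h6 : τ / 0.73 ≤ Real.exp (vr 1 * τ ^ 2 / 2) := by
      refine le_trans ?_ h4
      rw [div_le_iff₀ (by norm_num)]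
      nlinarith
    have h7 : (0.73 / τ : ℝ) = (τ / 0.73)⁻¹ := by rw [inv_div]
    rw [h7]
    apply inv_anti₀ _ h6
    apply div_pos
    · linarith
    · norm_num
  · have h6 : (0.17 : ℝ)⁻¹ ≤ Real.exp (vr 1 * τ ^ 2 / 2) := by
      refine le_trans ?_ (r1a_exp_j9434.trans (Real.exp_le_exp.mpr h1))
      norm_num
    have h7 : (0.17 : ℝ) = ((0.17 : ℝ)⁻¹)⁻¹ := by rw [inv_inv]
    rw [h7]
    exact inv_anti₀ (by norm_num) h6

theorem env_le (τ : ℝ) (hτ : z0 ≤ τ) : 0 < env τ ∧ env τ ≤ 0.17 := by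
  obtain ⟨h1, h2, h3⟩ := r1a_w_j9434 τ hτ
  unfold env
  split_ifs with h
  · constructor
    · exact lt_of_lt_of_le (by norm_num) (le_max_left _ _)
    · exact max_le (by norm_num) (r1a_gauss_j9434 τ hτ).2
  · rw [not_le] at h
    constructor
    · apply div_pos
      · norm_num
      · linarith
    · rw [div_le_iff₀ (by linarith)]
      linarith

theorem r1a_first_j9434 (u τ : ℝ) (hu0 : 0 ≤ u) (hτ : z0 ≤ τ) (h : Real.sqrt u * τ < z0) :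
    |phi 1 (Real.sqrt u * τ)| ≤ Real.exp (-(vr 1) * τ ^ 2 / 2) ^ u := by
  obtain ⟨h1, h2, h3⟩ := r1a_w_j9434 τ hτ
  have h4 : 0 ≤ Real.sqrt u * τ := mul_nonneg (Real.sqrt_nonneg _) (by linarith)
  rw [abs_of_pos (phi_pos _ h4 h)]
  refine (phi_le_gauss _ h4 h.le).trans (le_of_eq ?_)
  rw [← Real.exp_mul]
  congr 1
  rw [mul_pow, Real.sq_sqrt hu0]
  ring

theorem r1a_second_j9434 (u τ : ℝ) (hu0 : 0 ≤ u) (hu1 : u ≤ 1) (hτ : z0 ≤ τ)
    (h : z0 ≤ Real.sqrt u * τ) : |phi 1 (Real.sqrt u * τ)| ≤ (0.73 / τ) ^ u := by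
  obtain ⟨h1, h2, h3⟩ := r1a_w_j9434 τ hτ
  have hz := z0_bounds.1
  have h4 : |phi 1 (Real.sqrt u * τ)| ≤ 0.73 / (Real.sqrt u * τ) :=
    phi_decN _ (by linarith)
  refine h4.trans ?_
  have hs : 0 < Real.sqrt u := by
    rcases (Real.sqrt_nonneg u).eq_or_lt with h5 | h5
    · rw [← h5, zero_mul] at h
      linarith
    · exact h5
  have hu : 0 < u := Real.sqrt_pos.mp hs
  have hτ0 : 0 < τ := by linarith
  have hy : (0:ℝ) < τ / 0.73 := by positivity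
  have e1 : 0.73 / (Real.sqrt u * τ) = Real.exp (-(Real.log u / 2 + Real.log (τ / 0.73))) := by
    rw [neg_add, Real.exp_add, Real.exp_neg (Real.log (τ / 0.73)), Real.exp_log hy]
    have e2 : Real.log u / 2 = Real.log (Real.sqrt u) := by rw [Real.log_sqrt hu0]
    rw [e2, Real.exp_neg, Real.exp_log hs]
    field_simp
  have e3 : (0.73 / τ) ^ u = Real.exp (-(u * Real.log (τ / 0.73))) := by
    rw [Real.rpow_def_of_pos (by positivity)]
    congr 1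
    have : (0.73 / τ : ℝ) = (τ / 0.73)⁻¹ := by rw [inv_div]
    rw [this, Real.log_inv]
    ring
  rw [e1, e3]
  apply Real.exp_le_exp.mpr
  have hL : -Real.log u ≤ (1 - u) / u := by
    have h5 := Real.log_le_sub_one_of_pos (inv_pos.mpr hu)
    rw [Real.log_inv] at h5
    have h6 : (1 - u) / u = u⁻¹ - 1 := by field_simp
    rw [h6]
    exact h5
  have hL0 : 0 ≤ -Real.log u := by
    have := Real.log_nonpos hu0 hu1
    linarith
  have h7 : 1 ≤ Real.log u / 2 + Real.log (τ / 0.73) := by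
    have e2 : Real.log u / 2 = Real.log (Real.sqrt u) := by rw [Real.log_sqrt hu0]
    rw [e2, ← Real.log_mul hs.ne' hy.ne', Real.le_log_iff_exp_le (by positivity)]
    have h8 := Real.exp_one_lt_d9
    have h9 : Real.sqrt u * (τ / 0.73) = (Real.sqrt u * τ) / 0.73 := by ring
    rw [h9, le_div_iff₀ (by norm_num)]
    linarith
  -- (1-u) log y ≥ L/2
  have h10 : u * (-Real.log u) ≤ 1 - u := by
    rw [le_div_iff₀ hu] at hL
    linarith
  set L := -Real.log u with hLdef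
  have hlog : Real.log u = -L := by rw [hLdef]; ring
  rw [hlog] at h7 ⊢
  set Y := Real.log (τ / 0.73) with hY
  have h11 : 1 + L / 2 ≤ Y := by linarith
  have h12 : (1 - u) * (1 + L / 2) ≤ (1 - u) * Y := mul_le_mul_of_nonneg_left h11 (by linarith)
  nlinarith

theorem decay_bound (u τ : ℝ) (hu0 : 0 ≤ u) (hu1 : u ≤ 1) (hτ : z0 ≤ τ) :
    |phi 1 (Real.sqrt u * τ)| ≤ (0.73 / τ) ^ u := by
  rcases lt_or_ge (Real.sqrt u * τ) z0 with h | h
  · exact (r1a_first_j9434 u τ hu0 hτ h).trans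
      (Real.rpow_le_rpow (Real.exp_pos _).le (r1a_gauss_j9434 τ hτ).1 hu0)
  · exact r1a_second_j9434 u τ hu0 hu1 hτ h

theorem env_bound (u τ : ℝ) (hu0 : 0 ≤ u) (hu1 : u ≤ 1) (hτ : z0 ≤ τ) :
    |phi 1 (Real.sqrt u * τ)| ≤ env τ ^ u := by
  by_cases h5 : τ ≤ 5
  · have he : env τ = max 0.1496 (Real.exp (-(vr 1) * τ ^ 2 / 2)) := if_pos h5
    rcases lt_or_ge (Real.sqrt u * τ) z0 with h | h
    · refine (r1a_first_j9434 u τ hu0 hτ h).trans ?_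
      rw [he]
      exact Real.rpow_le_rpow (Real.exp_pos _).le (le_max_right _ _) hu0
    · refine (phi_lobe _ h).trans ?_
      rw [he]
      have h6 : (0.1496 : ℝ) ≤ 0.1496 ^ u := by
        have h7 := Real.rpow_le_rpow_of_exponent_ge (show (0:ℝ) < 0.1496 by norm_num)
          (by norm_num) hu1
        rwa [Real.rpow_one] at h7
      exact h6.trans (Real.rpow_le_rpow (by norm_num) (le_max_left _ _) hu0)
  · have he : env τ = 0.73 / τ := if_neg h5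
    rw [he]
    exact decay_bound u τ hu0 hu1 hτ

theorem env_prod {ι : Type*} (S : Finset ι) (u : ι → ℝ) (hu : ∀ i ∈ S, 0 ≤ u i ∧ u i ≤ 1)
    (τ : ℝ) (hτ : z0 ≤ τ) (N : ℝ) (hN : N ≤ ∑ i ∈ S, u i) :
    ∏ i ∈ S, |phi 1 (Real.sqrt (u i) * τ)| ≤ env τ ^ N * 0.17 ^ ((∑ i ∈ S, u i) - N) := by
  obtain ⟨h1, h2⟩ := env_le τ hτ
  calc ∏ i ∈ S, |phi 1 (Real.sqrt (u i) * τ)| ≤ ∏ i ∈ S, env τ ^ u i :=
        Finset.prod_le_prod (fun i _ => abs_nonneg _)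
          (fun i hi => env_bound (u i) τ (hu i hi).1 (hu i hi).2 hτ)
    _ = env τ ^ (∑ i ∈ S, u i) := (Real.rpow_sum_of_pos h1 u S).symm
    _ = env τ ^ N * env τ ^ ((∑ i ∈ S, u i) - N) := by
        rw [← Real.rpow_add h1]
        congr 1
        ring
    _ ≤ env τ ^ N * 0.17 ^ ((∑ i ∈ S, u i) - N) := by
        apply mul_le_mul_of_nonneg_left _ (Real.rpow_nonneg h1.le _)
        exact Real.rpow_le_rpow h1.le h2 (by linarith)

theorem decay_prod {ι : Type*} (S : Finset ι) (u : ι → ℝ) (hu : ∀ i ∈ S, 0 ≤ u i ∧ u i ≤ 1)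
    (τ : ℝ) (hτ : z0 ≤ τ) :
    ∏ i ∈ S, |phi 1 (Real.sqrt (u i) * τ)| ≤ (0.73 / τ) ^ (∑ i ∈ S, u i) := by
  obtain ⟨-, -, h3⟩ := r1a_w_j9434 τ hτ
  have hpos : (0:ℝ) < 0.73 / τ := by
    apply div_pos
    · norm_num
    · linarith
  calc ∏ i ∈ S, |phi 1 (Real.sqrt (u i) * τ)| ≤ ∏ i ∈ S, (0.73 / τ) ^ u i :=
        Finset.prod_le_prod (fun i _ => abs_nonneg _)
          (fun i hi => decay_bound (u i) τ (hu i hi).1 (hu i hi).2 hτ)
    _ = (0.73 / τ) ^ (∑ i ∈ S, u i) := (Real.rpow_sum_of_pos hpos u S).symm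



end Pool.Agent.Helper82.GC
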