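import Pool.Agent.Helper82.GC.J9434

set_option autoImplicit false

open MeasureTheory Set

namespace Pool.Agent.Helper82.GC


/-! auxiliary lemmas -/
theorem aux_rpow_le_j9435 {x c : ℝ} (hx : 0 ≤ x) (hc : 0 ≤ c) (p q : ℕ) (hq : 0 < q)
    (h : x ^ p ≤ c ^ q) : x ^ ((p : ℝ) / (q : ℝ)) ≤ c := by
  have hq' : (q : ℝ) ≠ 0 := by positivity
  have h1 : x ^ ((p : ℝ) / (q : ℝ)) = (x ^ p) ^ ((1 : ℝ) / q) := by
    rw [← Real.rpow_natCast x p, ← Real.rpow_mul hx]
    congr 1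
    field_simp
  have h2 : c = (c ^ q) ^ ((1 : ℝ) / q) := by
    rw [← Real.rpow_natCast c q, ← Real.rpow_mul hc, mul_one_div_cancel hq', Real.rpow_one]
  rw [h1, h2]
  exact Real.rpow_le_rpow (by positivity) h (by positivity)

theorem aux_cell_j9435 (f : ℝ → ℝ) {a c B M : ℝ} (hac : a ≤ c)
    (hB : ∀ τ, a < τ → τ ≤ c → f τ ≤ B)
    (h : ∃ g : ℝ → ℝ, IntegrableOn g (Ioi c) ∧ (∀ τ, c < τ → f τ ≤ g τ) ∧
      ∫ τ in Ioi c, g τ ≤ M) :
    ∃ g : ℝ → ℝ, IntegrableOn g (Ioi a) ∧ (∀ τ, a < τ → f τ ≤ g τ) ∧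
      ∫ τ in Ioi a, g τ ≤ M + B * (c - a) := by
  obtain ⟨g, hg, hfg, hM⟩ := h
  refine ⟨fun τ => if τ ≤ c then B else g τ, ?_, ?_, ?_⟩
  · rw [← Ioc_union_Ioi_eq_Ioi hac]
    apply IntegrableOn.union
    · refine IntegrableOn.congr_fun (f := fun _ => B) ?_ ?_ measurableSet_Ioc
      · exact integrableOn_const (by simp)
      · intro τ hτ
        simp [hτ.2]
    · refine IntegrableOn.congr_fun (f := g) hg ?_ measurableSet_Ioi
      intro τ hτ
      simp [not_le.mpr (mem_Ioi.mp hτ)]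
  · intro τ hτ
    by_cases hc : τ ≤ c
    · simp only [hc, if_true]; exact hB τ hτ hc
    · simp only [hc, if_false]; exact hfg τ (not_le.mp hc)
  · rw [← Ioc_union_Ioi_eq_Ioi hac, setIntegral_union]
    · have e1 : ∫ τ in Ioc a c, (if τ ≤ c then B else g τ) = B * (c - a) := by
        rw [setIntegral_congr_fun (g := fun _ => B) measurableSet_Ioc]
        · simp [hac, mul_comm]
        · intro τ hτ
          simp [hτ.2]
      have e2 : ∫ τ in Ioi c, (if τ ≤ c then B else g τ) = ∫ τ in Ioi c, g τ := by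
        apply setIntegral_congr_fun measurableSet_Ioi
        intro τ hτ
        simp [not_le.mpr (mem_Ioi.mp hτ)]
      rw [e1, e2]; linarith
    · exact Set.disjoint_left.mpr (fun x hx hx' => not_lt.mpr hx.2 hx')
    · exact measurableSet_Ioi
    · refine IntegrableOn.congr_fun (f := fun _ => B) ?_ ?_ measurableSet_Ioc
      · exact integrableOn_const (by simp)
      · intro τ hτ
        simp [hτ.2]
    · refine IntegrableOn.congr_fun (f := g) hg ?_ measurableSet_Ioi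
      intro τ hτ
      simp [not_le.mpr (mem_Ioi.mp hτ)]

theorem aux_psi_zero_j9435 : psi 1 0 = vr 1 := by
  unfold psi vr
  rw [phi_zero one_pos]
  simp

theorem aux_psi_le_j9435 (z : ℝ) (hz : 0 ≤ z) : |psi 1 z| ≤ 0.2912 := by
  by_cases h : z ≤ 4.7
  · have h1 := psi_pos z hz h
    have h2 := psi_antitone (a := 0) (b := z) ⟨le_refl _, by norm_num⟩ ⟨hz, by linarith⟩ hz
    rw [aux_psi_zero_j9435] at h2
    rw [abs_of_pos h1]
    have := vr_one_bounds.2
    linarith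
  · have := psi_late z (by linarith [not_le.mp h])
    linarith

/-- bound of the integrand in a cell -/
theorem aux_bound_j9435 {β τ c A1 A2 A3 : ℝ} (hτ : 0 ≤ τ) (hc : τ ≤ c)
    (h1 : |psi 1 τ| ≤ A1) (h2 : |phi 1 τ| ≤ A2) (h3 : env τ ^ (187 / 60 : ℝ) ≤ A3)
    (h3' : 0 ≤ env τ) :
    τ ^ 2 * (|psi 1 τ * phi 1 (Real.sqrt β * τ)| +
      |psi 1 (Real.sqrt β * τ) * phi 1 τ|) * env τ ^ (187 / 60 : ℝ) ≤
    c ^ 2 * (A1 + 0.2912 * A2) * A3 := by
  have hA1 : 0 ≤ A1 := (abs_nonneg _).trans h1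
  have hA2 : 0 ≤ A2 := (abs_nonneg _).trans h2
  have hE : 0 ≤ env τ ^ (187 / 60 : ℝ) := Real.rpow_nonneg h3' _
  have hs : 0 ≤ Real.sqrt β * τ := mul_nonneg (Real.sqrt_nonneg _) hτ
  have k1 : |psi 1 τ * phi 1 (Real.sqrt β * τ)| ≤ A1 := by
    rw [abs_mul]
    calc |psi 1 τ| * |phi 1 (Real.sqrt β * τ)| ≤ A1 * 1 :=
          mul_le_mul h1 (abs_phi_le_one one_pos _) (abs_nonneg _) hA1
      _ = A1 := mul_one _
  have k2 : |psi 1 (Real.sqrt β * τ) * phi 1 τ| ≤ 0.2912 * A2 := by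
    rw [abs_mul]
    exact mul_le_mul (aux_psi_le_j9435 _ hs) h2 (abs_nonneg _) (by norm_num)
  apply mul_le_mul _ h3 hE (by positivity)
  apply mul_le_mul _ (add_le_add k1 k2) (by positivity) (by positivity)
  gcongr

theorem aux_exp1_j9435 (τ : ℝ) (h : 3.4947 ≤ τ) : Real.exp (-(vr 1) * τ ^ 2 / 2) ≤ 0.16905 := by
  have h1 : -(vr 1) * τ ^ 2 / 2 ≤ -1.7777 := by
    have := vr_one_bounds.1
    nlinarith [mul_nonneg (sub_nonneg.mpr h) (sub_nonneg.mpr h), sq_nonneg τ]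
  refine (Real.exp_le_exp.mpr h1).trans ?_
  rw [Real.exp_neg, inv_le_comm₀ (Real.exp_pos _) (by norm_num)]
  refine le_trans ?_ (Real.sum_le_exp_of_nonneg (by norm_num) 14)
  simp only [Finset.sum_range_succ, Finset.sum_range_zero, Nat.factorial]
  norm_num

theorem aux_exp2_j9435 (τ : ℝ) (h : 3.75 ≤ τ) : Real.exp (-(vr 1) * τ ^ 2 / 2) ≤ 0.1496 := by
  have h1 : -(vr 1) * τ ^ 2 / 2 ≤ -2.04 := by
    have := vr_one_bounds.1
    nlinarith [mul_nonneg (sub_nonneg.mpr h) (sub_nonneg.mpr h), sq_nonneg τ]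
  refine (Real.exp_le_exp.mpr h1).trans ?_
  rw [Real.exp_neg, inv_le_comm₀ (Real.exp_pos _) (by norm_num)]
  refine le_trans ?_ (Real.sum_le_exp_of_nonneg (by norm_num) 14)
  simp only [Finset.sum_range_succ, Finset.sum_range_zero, Nat.factorial]
  norm_num

theorem aux_env1_j9435 (τ : ℝ) (h : z0 < τ) (h' : τ ≤ 3.75) : env τ ^ (187 / 60 : ℝ) ≤ 0.003927 := by
  have hz := z0_bounds.1
  have h0 := (env_le τ h.le).1
  have h1 : env τ ≤ 0.16905 := by
    unfold env
    rw [if_pos (by linarith)]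
    exact max_le (by norm_num) (aux_exp1_j9435 τ (by linarith))
  refine (Real.rpow_le_rpow h0.le h1 (by norm_num)).trans ?_
  have := aux_rpow_le_j9435 (x := 0.16905) (c := 0.003927) (by norm_num) (by norm_num) 187 60 (by norm_num) (by norm_num)
  simpa using this

theorem aux_env2_j9435 (τ : ℝ) (h : 3.75 < τ) (h' : τ ≤ 5) : env τ ^ (187 / 60 : ℝ) ≤ 0.002683 := by
  have hz := z0_bounds.2
  have h0 := (env_le τ (by linarith)).1
  have h1 : env τ ≤ 0.1496 := by
    unfold env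
    rw [if_pos (by linarith)]
    exact max_le (by norm_num) (aux_exp2_j9435 τ (by linarith))
  refine (Real.rpow_le_rpow h0.le h1 (by norm_num)).trans ?_
  have := aux_rpow_le_j9435 (x := 0.1496) (c := 0.002683) (by norm_num) (by norm_num) 187 60 (by norm_num) (by norm_num)
  simpa using this

theorem aux_env3_j9435 (τ a E C : ℝ) (ha : 5 ≤ a) (h : a < τ) (hE : 0.73 / a ≤ E) (hC : 0 ≤ C)
    (hEC : E ^ 187 ≤ C ^ 60) : env τ ^ (187 / 60 : ℝ) ≤ C := by
  have h1 : env τ = 0.73 / τ := by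
    unfold env
    rw [if_neg (by linarith)]
  have h2 : env τ ≤ E := by
    rw [h1]
    refine le_trans ?_ hE
    gcongr
  have h0 : 0 ≤ env τ := by
    rw [h1]
    have : 0 < τ := by linarith
    positivity
  refine (Real.rpow_le_rpow h0 h2 (by norm_num)).trans ?_
  have := aux_rpow_le_j9435 (x := E) (c := C) (h0.trans h2) hC 187 60 (by norm_num) hEC
  simpa using this

theorem aux_psi1_j9435 (τ : ℝ) (h : z0 < τ) (h' : τ ≤ 3.75) : |psi 1 τ| ≤ 0.0703 := by
  have hz := z0_bounds.1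
  have hpos := psi_pos τ (by linarith) (by linarith)
  rw [abs_of_pos hpos]
  -- psi 1 τ ≤ psi 1 3.4947
  have h1 : psi 1 τ ≤ psi 1 3.4947 :=
    psi_antitone (a := 3.4947) (b := τ) ⟨by norm_num, by norm_num⟩ ⟨by linarith, by linarith⟩
      (by linarith)
  have h2 : |psi 1 3.5 - psi 1 3.4947| ≤ 0.08 * |(3.5 : ℝ) - 3.4947| := by
    have := Convex.norm_image_sub_le_of_norm_hasDerivWithin_le (f := psi 1)
      (f' := fun z => -(z * chi z)) (s := Icc 3.4947 3.5) (C := 0.08) (x := 3.4947) (y := 3.5)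
      (fun x hx => (psi_deriv x).hasDerivWithinAt) ?_ (convex_Icc _ _)
      ⟨le_refl _, by norm_num⟩ ⟨by norm_num, le_refl _⟩
    · simpa [Real.norm_eq_abs] using this
    · intro x hx
      have hx1 : (3.4947 : ℝ) ≤ x := hx.1
      have hx0 : 0 < x := by linarith
      have hd := chi_decay x (by linarith)
      rw [Real.norm_eq_abs, abs_neg, abs_mul, abs_of_pos hx0]
      calc x * |chi x| ≤ x * (0.975 / x ^ 3) := by gcongr
        _ = 0.975 / x ^ 2 := by field_simp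
        _ ≤ 0.08 := by
          rw [div_le_iff₀ (by positivity)]
          nlinarith
  have h3 := psi_tab_14.2
  have h4 : |(3.5 : ℝ) - 3.4947| = 0.0053 := by rw [abs_of_pos] <;> norm_num
  rw [h4, abs_le] at h2
  linarith [h2.1]

theorem aux_psi2_j9435 (τ : ℝ) (h : 3.75 < τ) (h' : τ ≤ 4) : |psi 1 τ| ≤ 0.05187 := by
  have hpos := psi_pos τ (by linarith) (by linarith)
  rw [abs_of_pos hpos]
  have h1 : psi 1 τ ≤ psi 1 3.75 :=
    psi_antitone (a := 3.75) (b := τ) ⟨by norm_num, by norm_num⟩ ⟨by linarith, by linarith⟩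
      (by linarith)
  linarith [psi_tab_15.2]

theorem aux_psi3_j9435 (τ : ℝ) (h : 4 < τ) (h' : τ ≤ 4.5) : |psi 1 τ| ≤ 0.03575 := by
  have hpos := psi_pos τ (by linarith) (by linarith)
  rw [abs_of_pos hpos]
  have h1 : psi 1 τ ≤ psi 1 4 :=
    psi_antitone (a := 4) (b := τ) ⟨by norm_num, by norm_num⟩ ⟨by linarith, by linarith⟩
      (by linarith)
  linarith [psi_tab_16.2]

theorem aux_psi_decay_j9435 (τ a A : ℝ) (ha : 3.75 ≤ a) (h : a < τ) (hA : 0.75 / a ^ 2 ≤ A) :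
    |psi 1 τ| ≤ A := by
  refine (psi_decay τ (by linarith)).trans (le_trans ?_ hA)
  gcongr

/-- the tail beyond 8 -/
theorem aux_tail_j9435 (β : ℝ) : ∃ g : ℝ → ℝ, IntegrableOn g (Ioi 8) ∧
    (∀ τ, 8 < τ → τ ^ 2 * (|psi 1 τ * phi 1 (Real.sqrt β * τ)| +
      |psi 1 (Real.sqrt β * τ) * phi 1 τ|) * env τ ^ (187 / 60 : ℝ) ≤ g τ) ∧
      ∫ τ in Ioi 8, g τ ≤ 0.008635 := by
  have hN : (-(187 / 60 : ℝ)) < -1 := by norm_num
  have hN2 : (-(127 / 60 : ℝ)) < -1 := by norm_num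
  have i1 := (integrableOn_Ioi_rpow_of_lt hN (by norm_num : (0 : ℝ) < 8)).const_mul
    (0.75 * 0.73 ^ (187 / 60 : ℝ))
  have i2 := (integrableOn_Ioi_rpow_of_lt hN2 (by norm_num : (0 : ℝ) < 8)).const_mul
    (0.2912 * 0.73 * 0.73 ^ (187 / 60 : ℝ))
  refine ⟨fun τ => 0.75 * 0.73 ^ (187 / 60 : ℝ) * τ ^ (-(187 / 60 : ℝ)) +
    0.2912 * 0.73 * 0.73 ^ (187 / 60 : ℝ) * τ ^ (-(127 / 60 : ℝ)), i1.add i2, ?_, ?_⟩
  · intro τ hτ
    have hτ0 : 0 < τ := by linarith
    have h1 : env τ = 0.73 / τ := by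
      unfold env
      rw [if_neg (by linarith)]
    have hs : 0 ≤ Real.sqrt β * τ := mul_nonneg (Real.sqrt_nonneg _) hτ0.le
    have k1 : |psi 1 τ * phi 1 (Real.sqrt β * τ)| ≤ 0.75 / τ ^ 2 := by
      rw [abs_mul]
      calc |psi 1 τ| * |phi 1 (Real.sqrt β * τ)| ≤ 0.75 / τ ^ 2 * 1 :=
            mul_le_mul (psi_decay τ (by linarith)) (abs_phi_le_one one_pos _) (abs_nonneg _)
              (by positivity)
        _ = _ := mul_one _
    have k2 : |psi 1 (Real.sqrt β * τ) * phi 1 τ| ≤ 0.2912 * (0.73 / τ) := by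
      rw [abs_mul]
      exact mul_le_mul (aux_psi_le_j9435 _ hs) (phi_decN τ (by linarith)) (abs_nonneg _) (by norm_num)
    rw [h1, Real.div_rpow (by norm_num) hτ0.le]
    have e1 : τ ^ (-(187 / 60 : ℝ)) = 1 / τ ^ (187 / 60 : ℝ) := by
      rw [Real.rpow_neg hτ0.le, one_div]
    have e2 : τ ^ (-(127 / 60 : ℝ)) = τ / τ ^ (187 / 60 : ℝ) := by
      rw [show (-(127 / 60 : ℝ)) = 1 - 187 / 60 by norm_num, Real.rpow_sub hτ0, Real.rpow_one]
    beta_reduce
    rw [e1, e2]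
    have hP : 0 < τ ^ (187 / 60 : ℝ) := Real.rpow_pos_of_pos hτ0 _
    have hQ : (0 : ℝ) < 0.73 ^ (187 / 60 : ℝ) := Real.rpow_pos_of_pos (by norm_num) _
    calc τ ^ 2 * (|psi 1 τ * phi 1 (Real.sqrt β * τ)| +
          |psi 1 (Real.sqrt β * τ) * phi 1 τ|) * (0.73 ^ (187 / 60 : ℝ) / τ ^ (187 / 60 : ℝ))
        ≤ τ ^ 2 * (0.75 / τ ^ 2 + 0.2912 * (0.73 / τ)) *
          (0.73 ^ (187 / 60 : ℝ) / τ ^ (187 / 60 : ℝ)) := by
          apply mul_le_mul_of_nonneg_right _ (by positivity)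
          apply mul_le_mul_of_nonneg_left (add_le_add k1 k2) (by positivity)
      _ = _ := by
          generalize (0.73 : ℝ) ^ (187 / 60 : ℝ) = Q at *
          generalize τ ^ (187 / 60 : ℝ) = P at *
          field_simp
  · have := integral_add i1 i2
    rw [this, integral_const_mul, integral_const_mul, integral_Ioi_rpow_of_lt hN (by norm_num),
      integral_Ioi_rpow_of_lt hN2 (by norm_num)]
    have q1 : (0.73 : ℝ) ^ (187 / 60 : ℝ) ≤ 0.37501 := by
      have := aux_rpow_le_j9435 (x := 0.73) (c := 0.37501) (by norm_num) (by norm_num) 187 60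
        (by norm_num) (by norm_num)
      simpa using this
    have q0 : (0 : ℝ) ≤ 0.73 ^ (187 / 60 : ℝ) := Real.rpow_nonneg (by norm_num) _
    have q2 : (8 : ℝ) ^ (-(187 / 60 : ℝ) + 1) ≤ 0.01226 := by
      have := aux_rpow_le_j9435 (x := 8⁻¹) (c := 0.01226) (by norm_num) (by norm_num) 127 60
        (by norm_num) (by norm_num)
      rw [Real.inv_rpow (by norm_num), ← Real.rpow_neg (by norm_num)] at this
      rw [show (-(187 / 60 : ℝ) + 1) = -(127 / 60) by norm_num]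
      simpa using this
    have q2' : (0 : ℝ) ≤ 8 ^ (-(187 / 60 : ℝ) + 1) := Real.rpow_nonneg (by norm_num) _
    have q3 : (8 : ℝ) ^ (-(127 / 60 : ℝ) + 1) ≤ 0.09808 := by
      have := aux_rpow_le_j9435 (x := 8⁻¹) (c := 0.09808) (by norm_num) (by norm_num) 67 60
        (by norm_num) (by norm_num)
      rw [Real.inv_rpow (by norm_num), ← Real.rpow_neg (by norm_num)] at this
      rw [show (-(127 / 60 : ℝ) + 1) = -(67 / 60) by norm_num]
      simpa using this
    have q3' : (0 : ℝ) ≤ 8 ^ (-(127 / 60 : ℝ) + 1) := Real.rpow_nonneg (by norm_num) _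
    have r2 : -(8 : ℝ) ^ (-(187 / 60 : ℝ) + 1) / (-(187 / 60 : ℝ) + 1) =
        (8 : ℝ) ^ (-(187 / 60 : ℝ) + 1) * (60 / 127) := by
      rw [show (-(187 / 60 : ℝ) + 1) = -(127 / 60) by norm_num, neg_div_neg_eq]
      field_simp
    have r3 : -(8 : ℝ) ^ (-(127 / 60 : ℝ) + 1) / (-(127 / 60 : ℝ) + 1) =
        (8 : ℝ) ^ (-(127 / 60 : ℝ) + 1) * (60 / 67) := by
      rw [show (-(127 / 60 : ℝ) + 1) = -(67 / 60) by norm_num, neg_div_neg_eq]
      field_simp
    rw [r2, r3]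
    have m1 := mul_le_mul q1 q2 q2' (by norm_num)
    have m2 := mul_le_mul q1 q3 q3' (by norm_num)
    nlinarith [m1, m2]

theorem tail_0 (β : ℝ) (h0 : 0 ≤ β) (h1 : β ≤ 0.05) :
    ∫ τ in Set.Ioi z0, τ ^ 2 * (|psi 1 τ * phi 1 (Real.sqrt β * τ)| +
      |psi 1 (Real.sqrt β * τ) * phi 1 τ|) * env τ ^ (187 / 60 : ℝ) ≤ 0.025224 := by
  have hz1 := z0_bounds.1
  have hz2 := z0_bounds.2
  have c9 := aux_tail_j9435 β
  have c8 := aux_cell_j9435 _ (a := 7) (c := 8) (B := 8 ^ 2 * (0.015307 + 0.2912 * 0.0903) * 0.0008716)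
    (by norm_num) (fun τ ha hc => aux_bound_j9435 (by linarith) hc
      (aux_psi_decay_j9435 τ 7 _ (by norm_num) ha (by norm_num)) (phi_lobe575 τ (by linarith))
      (aux_env3_j9435 τ 7 0.10429 _ (by norm_num) ha (by norm_num) (by norm_num) (by norm_num))
      (env_le τ (by linarith)).1.le) c9
  have c7 := aux_cell_j9435 _ (a := 6) (c := 7) (B := 7 ^ 2 * (0.0201 + 0.2912 * 0.0903) * 0.00141)
    (by norm_num) (fun τ ha hc => aux_bound_j9435 (by linarith) hc
      (psi_late τ (by linarith)) (phi_lobe575 τ (by linarith))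
      (aux_env3_j9435 τ 6 0.12167 _ (by norm_num) ha (by norm_num) (by norm_num) (by norm_num))
      (env_le τ (by linarith)).1.le) c8
  have c6 := aux_cell_j9435 _ (a := 5.5) (c := 6) (B := 6 ^ 2 * (0.0201 + 0.2912 * 0.1086) * 0.001848)
    (by norm_num) (fun τ ha hc => aux_bound_j9435 (by linarith) hc
      (psi_late τ (by linarith)) (phi_lobe55 τ (by linarith))
      (aux_env3_j9435 τ 5.5 0.13273 _ (by norm_num) ha (by norm_num) (by norm_num) (by norm_num))
      (env_le τ (by linarith)).1.le) c7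
  have c5 := aux_cell_j9435 _ (a := 5) (c := 5.5) (B := 5.5 ^ 2 * (0.0201 + 0.2912 * 0.1441) * 0.002487)
    (by norm_num) (fun τ ha hc => aux_bound_j9435 (by linarith) hc
      (psi_late τ (by linarith)) (phi_lobe5 τ (by linarith))
      (aux_env3_j9435 τ 5 0.146 _ (by norm_num) ha (by norm_num) (by norm_num) (by norm_num))
      (env_le τ (by linarith)).1.le) c6
  have c4 := aux_cell_j9435 _ (a := 4.5) (c := 5) (B := 5 ^ 2 * (0.0201 + 0.2912 * 0.1496) * 0.002683)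
    (by norm_num) (fun τ ha hc => aux_bound_j9435 (by linarith) hc
      (psi_late τ (by linarith)) (phi_lobe τ (by linarith))
      (aux_env2_j9435 τ (by linarith) (by linarith))
      (env_le τ (by linarith)).1.le) c5
  have c3 := aux_cell_j9435 _ (a := 4) (c := 4.5) (B := 4.5 ^ 2 * (0.03575 + 0.2912 * 0.1496) * 0.002683)
    (by norm_num) (fun τ ha hc => aux_bound_j9435 (by linarith) hc
      (aux_psi3_j9435 τ (by linarith) (by linarith)) (phi_lobe τ (by linarith))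
      (aux_env2_j9435 τ (by linarith) (by linarith))
      (env_le τ (by linarith)).1.le) c4
  have c2 := aux_cell_j9435 _ (a := 3.75) (c := 4) (B := 4 ^ 2 * (0.05187 + 0.2912 * 0.1496) * 0.002683)
    (by norm_num) (fun τ ha hc => aux_bound_j9435 (by linarith) hc
      (aux_psi2_j9435 τ (by linarith) (by linarith)) (phi_lobe τ (by linarith))
      (aux_env2_j9435 τ (by linarith) (by linarith))
      (env_le τ (by linarith)).1.le) c3
  have c1 := aux_cell_j9435 _ (a := z0) (c := 3.75)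
    (B := 3.75 ^ 2 * (0.0703 + 0.2912 * 0.1496) * 0.003927)
    (by linarith) (fun τ ha hc => aux_bound_j9435 (by linarith) hc
      (aux_psi1_j9435 τ (by linarith) (by linarith)) (phi_lobe τ (by linarith))
      (aux_env1_j9435 τ (by linarith) (by linarith))
      (env_le τ (by linarith)).1.le) c2
  obtain ⟨g, hg, hfg, hM⟩ := c1
  refine le_trans (integral_mono_of_nonneg ?_ hg ?_) (hM.trans ?_)
  · filter_upwards [ae_restrict_mem measurableSet_Ioi] with τ hτ
    have := (env_le τ (le_of_lt hτ)).1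
    simp only [Pi.zero_apply]
    positivity
  · filter_upwards [ae_restrict_mem measurableSet_Ioi] with τ hτ
    exact hfg τ hτ
  · norm_num
    linarith



end Pool.Agent.Helper82.GC
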