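import Pool.Agent.Helper82.GC.J9429
import Pool.Agent.Helper82.GC.J9434

set_option autoImplicit false

open MeasureTheory Set

namespace Pool.Agent.Helper82.GC


lemma rpow_bound_9436_j9436 (E c : ℝ) (p q : ℕ) (hq : q ≠ 0) (hE : 0 ≤ E) (hc : 0 ≤ c)
    (h : E ^ p ≤ c ^ q) : E ^ ((p : ℝ) / (q : ℝ)) ≤ c := by
  have h1 : (E ^ ((p : ℝ) / (q : ℝ))) ^ q ≤ c ^ q := by
    rw [← Real.rpow_natCast (E ^ ((p : ℝ) / (q : ℝ))) q, ← Real.rpow_mul hE,
      div_mul_cancel₀ _ (by exact_mod_cast hq), Real.rpow_natCast]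
    exact h
  exact le_of_pow_le_pow_left₀ hq hc h1

lemma psi_abs_le_9436_j9436 (a B x : ℝ) (ha0 : 0 ≤ a) (ha : a ≤ 4.7) (hB : psi 1 a ≤ B)
    (hB' : 0.0201 ≤ B) (hx : a ≤ x) : |psi 1 x| ≤ B := by
  by_cases h : x ≤ 4.7
  · rw [abs_of_pos (psi_pos x (ha0.trans hx) h)]
    refine le_trans ?_ hB
    exact psi_antitone ⟨ha0, by linarith⟩ ⟨ha0.trans hx, by linarith⟩ hx
  · exact (psi_late x (by linarith)).trans hB'

lemma phi_abs_le_9436_j9436 (a B x : ℝ) (ha0 : 0 ≤ a) (ha : a ≤ 4.7) (hB : phi 1 a ≤ B)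
    (hB' : 0.1496 ≤ B) (hx : a ≤ x) : |phi 1 x| ≤ B := by
  have hz := z0_bounds
  by_cases h : x < z0
  · rw [abs_of_pos (phi_pos x (ha0.trans hx) h)]
    refine le_trans ?_ hB
    exact phi_antitone ⟨ha0, by linarith⟩ ⟨ha0.trans hx, by linarith [hz.2]⟩ hx
  · exact (phi_lobe x (not_lt.1 h)).trans hB'

lemma psi_near_9436_j9436 (x : ℝ) (hx : 3.4947 ≤ x) : |psi 1 x| ≤ 0.0702 := by
  refine psi_abs_le_9436_j9436 3.4947 0.0702 x (by norm_num) (by norm_num) ?_ (by norm_num) hx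
  obtain ⟨c, ⟨hc1, hc2⟩, hc3⟩ := exists_hasDerivAt_eq_slope (psi 1) (fun z => -(z * chi z))
    (show (3.4947 : ℝ) < 3.5 by norm_num) psi_continuous.continuousOn (fun x _ => psi_deriv x)
  have hc0 : 0 < c := by linarith
  have h1 := (abs_le.1 (chi_decay c (by linarith))).2
  have h2 : c * chi c ≤ 0.08 := by
    have e1 : c * chi c ≤ c * (0.975 / c ^ 3) := mul_le_mul_of_nonneg_left h1 hc0.le
    have e2 : c * (0.975 / c ^ 3) = 0.975 / c ^ 2 := by field_simp
    have e3 : 0.975 / c ^ 2 ≤ 0.08 := by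
      rw [div_le_iff₀ (by positivity)]
      nlinarith
    linarith
  have h3 := psi_tab_14.2
  rw [eq_div_iff (by norm_num)] at hc3
  norm_num at hc3 h3 ⊢
  nlinarith

lemma cell_9436_j9436 (β τ c p1 q1 p2 q2 e E : ℝ) (hτ0 : 0 ≤ τ) (hτc : τ ≤ c)
    (h1 : |psi 1 τ| ≤ p1) (h2 : |phi 1 (Real.sqrt β * τ)| ≤ q1)
    (h3 : |psi 1 (Real.sqrt β * τ)| ≤ p2) (h4 : |phi 1 τ| ≤ q2)
    (hE : 0 ≤ env τ) (hE' : env τ ≤ E) (he : 0 ≤ e) (hpow : E ^ 46 ≤ e ^ 15) :
    τ ^ 2 * (|psi 1 τ * phi 1 (Real.sqrt β * τ)| +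
      |psi 1 (Real.sqrt β * τ) * phi 1 τ|) * env τ ^ (46 / 15 : ℝ) ≤
    c ^ 2 * (p1 * q1 + p2 * q2) * e := by
  have hp1 : 0 ≤ p1 := (abs_nonneg _).trans h1
  have hq1 : 0 ≤ q1 := (abs_nonneg _).trans h2
  have hp2 : 0 ≤ p2 := (abs_nonneg _).trans h3
  have hq2 : 0 ≤ q2 := (abs_nonneg _).trans h4
  have hen : env τ ^ (46 / 15 : ℝ) ≤ e := by
    have := rpow_bound_9436_j9436 (env τ) e 46 15 (by norm_num) hE he
      ((pow_le_pow_left₀ hE hE' 46).trans hpow)
    exact_mod_cast this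
  have hsum : |psi 1 τ * phi 1 (Real.sqrt β * τ)| + |psi 1 (Real.sqrt β * τ) * phi 1 τ| ≤
      p1 * q1 + p2 * q2 := by
    rw [abs_mul, abs_mul]
    exact add_le_add (mul_le_mul h1 h2 (abs_nonneg _) hp1) (mul_le_mul h3 h4 (abs_nonneg _) hp2)
  have hsq : τ ^ 2 ≤ c ^ 2 := pow_le_pow_left₀ hτ0 hτc 2
  refine mul_le_mul (mul_le_mul hsq hsum (by positivity) (by positivity)) hen
    (Real.rpow_nonneg hE _) (by positivity)

/-- `f` has a good dominating function on `(a, ∞)` with integral at most `I` -/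
def Dom_9436_j9436 (f : ℝ → ℝ) (a I : ℝ) : Prop :=
  ∃ D : ℝ → ℝ, IntegrableOn D (Set.Ioi a) ∧ (∀ τ ∈ Set.Ioi a, f τ ≤ D τ) ∧
    ∫ τ in Set.Ioi a, D τ ≤ I

lemma dom_step_9436_j9436 (f : ℝ → ℝ) (a b c I : ℝ) (hab : a ≤ b) (h : Dom_9436_j9436 f b I)
    (hf : ∀ τ ∈ Set.Ioc a b, f τ ≤ c) : Dom_9436_j9436 f a (c * (b - a) + I) := by
  obtain ⟨D, hD1, hD2, hD3⟩ := h
  have hU : Set.Ioi a = Set.Ioc a b ∪ Set.Ioi b := (Set.Ioc_union_Ioi_eq_Ioi hab).symm
  have e1 : Set.EqOn (fun τ => if τ ≤ b then c else D τ) (fun _ => c) (Set.Ioc a b) := by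
    intro τ hτ
    exact if_pos hτ.2
  have e2 : Set.EqOn (fun τ => if τ ≤ b then c else D τ) D (Set.Ioi b) := by
    intro τ hτ
    exact if_neg (not_le.2 hτ)
  have i1 : IntegrableOn (fun τ => if τ ≤ b then c else D τ) (Set.Ioc a b) := by
    refine (integrableOn_congr_fun e1 measurableSet_Ioc).2 ?_
    exact integrableOn_const (by simp)
  have i2 : IntegrableOn (fun τ => if τ ≤ b then c else D τ) (Set.Ioi b) :=
    (integrableOn_congr_fun e2 measurableSet_Ioi).2 hD1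
  refine ⟨fun τ => if τ ≤ b then c else D τ, ?_, ?_, ?_⟩
  · rw [hU]
    exact i1.union i2
  · intro τ hτ
    show f τ ≤ if τ ≤ b then c else D τ
    by_cases h : τ ≤ b
    · rw [if_pos h]
      exact hf τ ⟨hτ, h⟩
    · rw [if_neg h]
      exact hD2 τ (not_le.1 h)
  · rw [hU, setIntegral_union (Set.Ioc_disjoint_Ioi le_rfl) measurableSet_Ioi i1 i2,
      setIntegral_congr_fun measurableSet_Ioc e1, setIntegral_congr_fun measurableSet_Ioi e2]
    have e3 : ∫ τ in Set.Ioc a b, c = c * (b - a) := by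
      rw [setIntegral_const, smul_eq_mul, Measure.real, Real.volume_Ioc,
        ENNReal.toReal_ofReal (by linarith)]
      ring
    rw [e3]
    linarith

lemma dom_mono_9436_j9436 (f : ℝ → ℝ) (a I I' : ℝ) (h : Dom_9436_j9436 f a I) (hI : I ≤ I') :
    Dom_9436_j9436 f a I' := by
  obtain ⟨D, hD1, hD2, hD3⟩ := h
  exact ⟨D, hD1, hD2, hD3.trans hI⟩

lemma dom_end_9436_j9436 (f : ℝ → ℝ) (a I : ℝ) (h : Dom_9436_j9436 f a I)
    (hf : ∀ τ ∈ Set.Ioi a, 0 ≤ f τ) : ∫ τ in Set.Ioi a, f τ ≤ I := by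
  obtain ⟨D, hD1, hD2, hD3⟩ := h
  refine le_trans (integral_mono_of_nonneg ?_ hD1 ?_) hD3
  · exact (ae_restrict_iff' measurableSet_Ioi).2 (Filter.Eventually.of_forall hf)
  · exact (ae_restrict_iff' measurableSet_Ioi).2 (Filter.Eventually.of_forall hD2)

/-- the tail `(8, ∞)` -/
lemma dom_tail_9436_j9436 (f : ℝ → ℝ) (A B : ℝ)
    (hf : ∀ τ ∈ Set.Ioi (8 : ℝ), f τ ≤ A * τ ^ (-(46 / 15) : ℝ) + B * τ ^ (-(31 / 15) : ℝ))
    (hA : 0 ≤ A) (hB : 0 ≤ B) :
    Dom_9436_j9436 f 8 (A * (0.013603 * (15 / 31)) + B * (0.10882 * (15 / 16))) := by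
  have j1 : IntegrableOn (fun τ : ℝ => τ ^ (-(46 / 15) : ℝ)) (Set.Ioi 8) :=
    integrableOn_Ioi_rpow_of_lt (by norm_num) (by norm_num)
  have j2 : IntegrableOn (fun τ : ℝ => τ ^ (-(31 / 15) : ℝ)) (Set.Ioi 8) :=
    integrableOn_Ioi_rpow_of_lt (by norm_num) (by norm_num)
  refine ⟨fun τ => A * τ ^ (-(46 / 15) : ℝ) + B * τ ^ (-(31 / 15) : ℝ),
    (j1.const_mul A).add (j2.const_mul B), hf, ?_⟩
  rw [integral_add (j1.const_mul A) (j2.const_mul B), integral_const_mul, integral_const_mul,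
    integral_Ioi_rpow_of_lt (by norm_num) (by norm_num),
    integral_Ioi_rpow_of_lt (by norm_num) (by norm_num)]
  have k1 : (8 : ℝ) ^ (-(46 / 15) + 1 : ℝ) ≤ 0.013603 := by
    have e : (8 : ℝ) ^ (-(46 / 15) + 1 : ℝ) = (8⁻¹ : ℝ) ^ (((31 : ℕ) : ℝ) / ((15 : ℕ) : ℝ)) := by
      rw [Real.inv_rpow (by norm_num), ← Real.rpow_neg (by norm_num)]
      norm_num
    rw [e]
    exact rpow_bound_9436_j9436 _ _ 31 15 (by norm_num) (by norm_num) (by norm_num) (by norm_num)
  have k2 : (8 : ℝ) ^ (-(31 / 15) + 1 : ℝ) ≤ 0.10882 := by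
    have e : (8 : ℝ) ^ (-(31 / 15) + 1 : ℝ) = (8⁻¹ : ℝ) ^ (((16 : ℕ) : ℝ) / ((15 : ℕ) : ℝ)) := by
      rw [Real.inv_rpow (by norm_num), ← Real.rpow_neg (by norm_num)]
      norm_num
    rw [e]
    exact rpow_bound_9436_j9436 _ _ 16 15 (by norm_num) (by norm_num) (by norm_num) (by norm_num)
  refine add_le_add (mul_le_mul_of_nonneg_left ?_ hA) (mul_le_mul_of_nonneg_left ?_ hB)
  · have e : -(8 : ℝ) ^ (-(46 / 15) + 1 : ℝ) / (-(46 / 15) + 1) =
        (8 : ℝ) ^ (-(46 / 15) + 1 : ℝ) * (15 / 31) := by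
      rw [div_eq_iff (by norm_num)]; ring
    rw [e]
    exact mul_le_mul_of_nonneg_right k1 (by norm_num)
  · have e : -(8 : ℝ) ^ (-(31 / 15) + 1 : ℝ) / (-(31 / 15) + 1) =
        (8 : ℝ) ^ (-(31 / 15) + 1 : ℝ) * (15 / 16) := by
      rw [div_eq_iff (by norm_num)]; ring
    rw [e]
    exact mul_le_mul_of_nonneg_right k2 (by norm_num)

lemma env_big_9436_j9436 (τ a E : ℝ) (h5 : 5 < τ) (ha0 : 0 < a) (ha : a ≤ τ) (hE : 0.73 / a ≤ E) :
    env τ ≤ E := by
  unfold env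
  rw [if_neg (not_le.2 h5)]
  exact (div_le_div_of_nonneg_left (by norm_num) ha0 ha).trans hE

lemma env_small_9436_j9436 (τ a : ℝ) (h5 : τ ≤ 5) (ha0 : 0 ≤ a) (ha : a ≤ τ) (E : ℝ)
    (hE : 0.1496 ≤ E) (h : Real.exp (-(0.29112 * a ^ 2 / 2)) ≤ E) : env τ ≤ E := by
  unfold env
  rw [if_pos h5]
  refine max_le hE (le_trans ?_ h)
  apply Real.exp_le_exp.2
  have hv := vr_one_bounds.1
  have h2 : a ^ 2 ≤ τ ^ 2 := pow_le_pow_left₀ ha0 ha 2
  have h3 : 0 ≤ a ^ 2 := sq_nonneg a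
  nlinarith

lemma exp_neg_le_9436_j9436 (x E : ℝ) (n : ℕ) (hx : 0 ≤ x)
    (h : 1 ≤ E * ∑ i ∈ Finset.range n, x ^ i / (i.factorial : ℝ)) (hE : 0 ≤ E) :
    Real.exp (-x) ≤ E := by
  rw [Real.exp_neg, inv_le_iff_one_le_mul₀ (Real.exp_pos _)]
  exact h.trans (mul_le_mul_of_nonneg_left (Real.sum_le_exp_of_nonneg hx n) hE)

theorem tail_1 (β : ℝ) (h0 : 0.05 ≤ β) (h1 : β ≤ 0.1) :
    ∫ τ in Set.Ioi z0, τ ^ 2 * (|psi 1 τ * phi 1 (Real.sqrt β * τ)| +
      |psi 1 (Real.sqrt β * τ) * phi 1 τ|) * env τ ^ (46 / 15 : ℝ) ≤ 0.023294 := by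
  have hz := z0_bounds
  have hb : 0.2236 ≤ Real.sqrt β := by
    apply Real.le_sqrt_of_sq_le
    norm_num at h0 ⊢
    linarith
  have hmul : ∀ a τ : ℝ, 0 ≤ a → a ≤ τ → 0.2236 * a ≤ Real.sqrt β * τ := by
    intro a τ ha hτ
    exact mul_le_mul hb hτ ha (Real.sqrt_nonneg β)
  -- bounds at the scaled argument
  have hphs : ∀ (a B τ : ℝ), 0 ≤ a → a ≤ 4.7 → phi 1 a ≤ B → 0.1496 ≤ B →
      a ≤ Real.sqrt β * τ → |phi 1 (Real.sqrt β * τ)| ≤ B :=
    fun a B τ ha ha' hB hB' h => phi_abs_le_9436_j9436 a B _ ha ha' hB hB' h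
  have hpss : ∀ (a B τ : ℝ), 0 ≤ a → a ≤ 4.7 → psi 1 a ≤ B → 0.0201 ≤ B →
      a ≤ Real.sqrt β * τ → |psi 1 (Real.sqrt β * τ)| ≤ B :=
    fun a B τ ha ha' hB hB' h => psi_abs_le_9436_j9436 a B _ ha ha' hB hB' h
  set f : ℝ → ℝ := fun τ => τ ^ 2 * (|psi 1 τ * phi 1 (Real.sqrt β * τ)| +
      |psi 1 (Real.sqrt β * τ) * phi 1 τ|) * env τ ^ (46 / 15 : ℝ) with hf
  -- the tail
  have T8 : Dom_9436_j9436 f 8 (0.1755 * (0.013603 * (15 / 31)) + 0.05996 * (0.10882 * (15 / 16))) := by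
    refine dom_tail_9436_j9436 f _ _ ?_ (by norm_num) (by norm_num)
    intro τ hτ
    have hτ8 : (8 : ℝ) < τ := hτ
    have hτ0 : 0 < τ := by linarith
    have hs := hmul 8 τ (by norm_num) hτ8.le
    have h1 := psi_decay τ (by linarith)
    have h2 := hphs 1.75 0.614151 τ (by norm_num) (by norm_num) phi_tab_7.2.le (by norm_num)
      (le_trans (by norm_num) hs)
    have h3 := hpss 1.75 0.215566 τ (by norm_num) (by norm_num) psi_tab_7.2.le (by norm_num)
      (le_trans (by norm_num) hs)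
    have h4 := phi_decN τ (by linarith)
    have hen : env τ = 0.73 / τ := by
      unfold env
      rw [if_neg (by linarith)]
    have hp : env τ ^ (46 / 15 : ℝ) ≤ 0.38095 * τ ^ (-(46 / 15) : ℝ) := by
      rw [hen, Real.div_rpow (by norm_num) hτ0.le, Real.rpow_neg hτ0.le, div_eq_mul_inv]
      refine mul_le_mul_of_nonneg_right ?_ (by positivity)
      have := rpow_bound_9436_j9436 0.73 0.38095 46 15 (by norm_num) (by norm_num) (by norm_num)
        (by norm_num)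
      exact_mod_cast this
    have hsum : τ ^ 2 * (|psi 1 τ * phi 1 (Real.sqrt β * τ)| +
        |psi 1 (Real.sqrt β * τ) * phi 1 τ|) ≤ 0.75 * 0.614151 + 0.215566 * 0.73 * τ := by
      rw [abs_mul, abs_mul]
      have e1 : |psi 1 τ| * |phi 1 (Real.sqrt β * τ)| ≤ 0.75 / τ ^ 2 * 0.614151 :=
        mul_le_mul h1 h2 (abs_nonneg _) (by positivity)
      have e2 : |psi 1 (Real.sqrt β * τ)| * |phi 1 τ| ≤ 0.215566 * (0.73 / τ) :=
        mul_le_mul h3 h4 (abs_nonneg _) (by norm_num)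
      calc τ ^ 2 * (|psi 1 τ| * |phi 1 (Real.sqrt β * τ)| + |psi 1 (Real.sqrt β * τ)| * |phi 1 τ|)
          ≤ τ ^ 2 * (0.75 / τ ^ 2 * 0.614151 + 0.215566 * (0.73 / τ)) :=
            mul_le_mul_of_nonneg_left (add_le_add e1 e2) (by positivity)
        _ = 0.75 * 0.614151 + 0.215566 * 0.73 * τ := by
            field_simp
    have hpw : τ * τ ^ (-(46 / 15) : ℝ) = τ ^ (-(31 / 15) : ℝ) := by
      rw [← Real.rpow_one_add' hτ0.le (by norm_num)]
      norm_num
    calc f τ ≤ (0.75 * 0.614151 + 0.215566 * 0.73 * τ) * (0.38095 * τ ^ (-(46 / 15) : ℝ)) :=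
          mul_le_mul hsum hp (Real.rpow_nonneg (by rw [hen]; positivity) _) (by positivity)
      _ = 0.75 * 0.614151 * 0.38095 * τ ^ (-(46 / 15) : ℝ) +
          0.215566 * 0.73 * 0.38095 * (τ * τ ^ (-(46 / 15) : ℝ)) := by ring
      _ ≤ 0.1755 * τ ^ (-(46 / 15) : ℝ) + 0.05996 * τ ^ (-(31 / 15) : ℝ) := by
          rw [hpw]
          refine add_le_add (mul_le_mul_of_nonneg_right (by norm_num) (by positivity))
            (mul_le_mul_of_nonneg_right (by norm_num) (by positivity))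
  have hen0 : ∀ τ, z0 ≤ τ → 0 ≤ env τ := fun τ h => (env_le τ h).1.le
  have T7 := dom_step_9436_j9436 f 7 8 (8 ^ 2 * (0.0153062 * 0.705441 + 0.234041 * 0.0903) * 0.0009756) _
    (by norm_num) T8 (by
      rintro τ ⟨ha, hc⟩
      have hs := hmul 7 τ (by norm_num) ha.le
      refine cell_9436_j9436 β τ 8 _ _ _ _ _ 0.104286 (by linarith) hc ?_ ?_ ?_ ?_
        (hen0 τ (by linarith)) ?_ (by norm_num) (by norm_num)
      · refine (psi_decay τ (by linarith)).trans ?_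
        rw [div_le_iff₀ (by positivity)]
        nlinarith
      · exact hphs 1.5 _ τ (by norm_num) (by norm_num) phi_tab_6.2.le (by norm_num)
          (le_trans (by norm_num) hs)
      · exact hpss 1.5 _ τ (by norm_num) (by norm_num) psi_tab_6.2.le (by norm_num)
          (le_trans (by norm_num) hs)
      · exact phi_lobe575 τ (by linarith)
      · exact env_big_9436_j9436 τ 7 _ (by linarith) (by norm_num) ha.le (by norm_num))
  have T6 := dom_step_9436_j9436 f 6 7 (7 ^ 2 * (0.0201 * 0.788704 + 0.250535 * 0.0903) * 0.0015652) _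
    (by norm_num) T7 (by
      rintro τ ⟨ha, hc⟩
      have hs := hmul 6 τ (by norm_num) ha.le
      refine cell_9436_j9436 β τ 7 _ _ _ _ _ 0.12167 (by linarith) hc ?_ ?_ ?_ ?_
        (hen0 τ (by linarith)) ?_ (by norm_num) (by norm_num)
      · exact psi_late τ (by linarith)
      · exact hphs 1.25 _ τ (by norm_num) (by norm_num) phi_tab_5.2.le (by norm_num)
          (le_trans (by norm_num) hs)
      · exact hpss 1.25 _ τ (by norm_num) (by norm_num) psi_tab_5.2.le (by norm_num)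
          (le_trans (by norm_num) hs)
      · exact phi_lobe575 τ (by linarith)
      · exact env_big_9436_j9436 τ 6 _ (by linarith) (by norm_num) ha.le (by norm_num))
  have T55 := dom_step_9436_j9436 f 5.5 6 (6 ^ 2 * (0.0201 * 0.861137 + 0.264639 * 0.1086) * 0.002044) _
    (by norm_num) T6 (by
      rintro τ ⟨ha, hc⟩
      have hs := hmul 5.5 τ (by norm_num) ha.le
      refine cell_9436_j9436 β τ 6 _ _ _ _ _ 0.13273 (by linarith) hc ?_ ?_ ?_ ?_
        (hen0 τ (by linarith)) ?_ (by norm_num) (by norm_num)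
      · exact psi_late τ (by linarith)
      · exact hphs 1 _ τ (by norm_num) (by norm_num) phi_tab_4.2.le (by norm_num)
          (le_trans (by norm_num) hs)
      · exact hpss 1 _ τ (by norm_num) (by norm_num) psi_tab_4.2.le (by norm_num)
          (le_trans (by norm_num) hs)
      · exact phi_lobe55 τ (by linarith)
      · exact env_big_9436_j9436 τ 5.5 _ (by linarith) (by norm_num) ha.le (by norm_num))
  have T5 := dom_step_9436_j9436 f 5 5.5 (5.5 ^ 2 * (0.0201 * 0.861137 + 0.264639 * 0.1441) * 0.002738) _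
    (by norm_num) T55 (by
      rintro τ ⟨ha, hc⟩
      have hs := hmul 5 τ (by norm_num) ha.le
      refine cell_9436_j9436 β τ 5.5 _ _ _ _ _ 0.146 (by linarith) hc ?_ ?_ ?_ ?_
        (hen0 τ (by linarith)) ?_ (by norm_num) (by norm_num)
      · exact psi_late τ (by linarith)
      · exact hphs 1 _ τ (by norm_num) (by norm_num) phi_tab_4.2.le (by norm_num)
          (le_trans (by norm_num) hs)
      · exact hpss 1 _ τ (by norm_num) (by norm_num) psi_tab_4.2.le (by norm_num)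
          (le_trans (by norm_num) hs)
      · exact phi_lobe5 τ (by linarith)
      · exact env_big_9436_j9436 τ 5 _ (by linarith) (by norm_num) ha.le (by norm_num))
  have T45 := dom_step_9436_j9436 f 4.5 5 (5 ^ 2 * (0.0201 * 0.861137 + 0.264639 * 0.1496) * 0.00295) _
    (by norm_num) T5 (by
      rintro τ ⟨ha, hc⟩
      have hs := hmul 4.5 τ (by norm_num) ha.le
      refine cell_9436_j9436 β τ 5 _ _ _ _ _ 0.1496 (by linarith) hc ?_ ?_ ?_ ?_
        (hen0 τ (by linarith)) ?_ (by norm_num) (by norm_num)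
      · exact psi_late τ (by linarith)
      · exact hphs 1 _ τ (by norm_num) (by norm_num) phi_tab_4.2.le (by norm_num)
          (le_trans (by norm_num) hs)
      · exact hpss 1 _ τ (by norm_num) (by norm_num) psi_tab_4.2.le (by norm_num)
          (le_trans (by norm_num) hs)
      · exact phi_lobe τ (by linarith)
      · refine env_small_9436_j9436 τ 4 hc (by norm_num) (by linarith) _ (by norm_num) ?_
        refine exp_neg_le_9436_j9436 _ _ 4 (by norm_num) ?_ (by norm_num)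
        norm_num [Finset.sum_range_succ, Nat.factorial])
  have T4 := dom_step_9436_j9436 f 4 4.5 (4.5 ^ 2 * (0.035743 * 0.920263 + 0.276001 * 0.1496) * 0.00295) _
    (by norm_num) T45 (by
      rintro τ ⟨ha, hc⟩
      have hs := hmul 4 τ (by norm_num) ha.le
      refine cell_9436_j9436 β τ 4.5 _ _ _ _ _ 0.1496 (by linarith) hc ?_ ?_ ?_ ?_
        (hen0 τ (by linarith)) ?_ (by norm_num) (by norm_num)
      · exact psi_abs_le_9436_j9436 4 _ τ (by norm_num) (by norm_num) psi_tab_16.2.le (by norm_num) ha.le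
      · exact hphs 0.75 _ τ (by norm_num) (by norm_num) phi_tab_3.2.le (by norm_num)
          (le_trans (by norm_num) hs)
      · exact hpss 0.75 _ τ (by norm_num) (by norm_num) psi_tab_3.2.le (by norm_num)
          (le_trans (by norm_num) hs)
      · exact phi_lobe τ (by linarith)
      · refine env_small_9436_j9436 τ 4 (by linarith) (by norm_num) (by linarith) _ (by norm_num) ?_
        refine exp_neg_le_9436_j9436 _ _ 4 (by norm_num) ?_ (by norm_num)
        norm_num [Finset.sum_range_succ, Nat.factorial])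
  have T375 := dom_step_9436_j9436 f 3.75 4
    (4 ^ 2 * (0.051865 * 0.920263 + 0.276001 * 0.1496) * 0.00295) _
    (by norm_num) T4 (by
      rintro τ ⟨ha, hc⟩
      have hs := hmul 3.75 τ (by norm_num) ha.le
      refine cell_9436_j9436 β τ 4 _ _ _ _ _ 0.1496 (by linarith) hc ?_ ?_ ?_ ?_
        (hen0 τ (by linarith)) ?_ (by norm_num) (by norm_num)
      · exact psi_abs_le_9436_j9436 3.75 _ τ (by norm_num) (by norm_num) psi_tab_15.2.le (by norm_num)
          ha.le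
      · exact hphs 0.75 _ τ (by norm_num) (by norm_num) phi_tab_3.2.le (by norm_num)
          (le_trans (by norm_num) hs)
      · exact hpss 0.75 _ τ (by norm_num) (by norm_num) psi_tab_3.2.le (by norm_num)
          (le_trans (by norm_num) hs)
      · exact phi_lobe τ (by linarith)
      · refine env_small_9436_j9436 τ 3.75 (by linarith) (by norm_num) (by linarith) _ (by norm_num) ?_
        refine exp_neg_le_9436_j9436 _ _ 5 (by norm_num) ?_ (by norm_num)
        norm_num [Finset.sum_range_succ, Nat.factorial])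
  have T0 := dom_step_9436_j9436 f z0 3.75
    (3.75 ^ 2 * (0.0702 * 0.920263 + 0.276001 * 0.1496) * 0.0043) _
    (by linarith [hz.2]) T375 (by
      rintro τ ⟨ha, hc⟩
      have ha' : 3.4947 ≤ τ := by linarith [hz.1]
      have hs := hmul 3.4947 τ (by norm_num) ha'
      refine cell_9436_j9436 β τ 3.75 _ _ _ _ _ 0.1691 (by linarith) hc ?_ ?_ ?_ ?_
        (hen0 τ ha.le) ?_ (by norm_num) (by norm_num)
      · exact psi_near_9436_j9436 τ ha'
      · exact hphs 0.75 _ τ (by norm_num) (by norm_num) phi_tab_3.2.le (by norm_num)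
          (le_trans (by norm_num) hs)
      · exact hpss 0.75 _ τ (by norm_num) (by norm_num) psi_tab_3.2.le (by norm_num)
          (le_trans (by norm_num) hs)
      · exact phi_lobe τ ha.le
      · refine env_small_9436_j9436 τ 3.4947 (by linarith) (by norm_num) ha' _ (by norm_num) ?_
        refine exp_neg_le_9436_j9436 _ _ 9 (by norm_num) ?_ (by norm_num)
        norm_num [Finset.sum_range_succ, Nat.factorial])
  refine (dom_end_9436_j9436 f z0 _ T0 ?_).trans ?_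
  · intro τ hτ
    have := hen0 τ (le_of_lt hτ)
    have h5 := Real.rpow_nonneg this (46 / 15 : ℝ)
    simp only [hf]
    positivity
  · have hw : 3.75 - z0 ≤ 0.2553 := by
      norm_num at hz ⊢
      linarith [hz.1]
    have hcc : (3.75 ^ 2 * (0.0702 * 0.920263 + 0.276001 * 0.1496) * 0.0043 : ℝ) * (3.75 - z0) ≤
        (3.75 ^ 2 * (0.0702 * 0.920263 + 0.276001 * 0.1496) * 0.0043 : ℝ) * 0.2553 :=
      mul_le_mul_of_nonneg_left hw (by norm_num)
    refine (add_le_add_left hcc _).trans ?_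
    norm_num



end Pool.Agent.Helper82.GC
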