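import Pool.Agent.Helper82.GC.J9434

set_option autoImplicit false

open MeasureTheory Set

namespace Pool.Agent.Helper82.GC


theorem tail_2_step_j9437 (f : ℝ → ℝ) (a c C : ℝ) (hac : a ≤ c) (hint : IntegrableOn f (Set.Ioi a))
    (hC : ∀ τ ∈ Set.Ioc a c, ‖f τ‖ ≤ C) :
    ∫ τ in Set.Ioi a, f τ ≤ C * (c - a) + ∫ τ in Set.Ioi c, f τ := by
  have h1 : ∫ τ in Set.Ioi a, f τ = (∫ τ in Set.Ioc a c, f τ) + ∫ τ in Set.Ioi c, f τ := by
    rw [← setIntegral_union (Set.Ioc_disjoint_Ioi le_rfl) measurableSet_Ioi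
      (hint.mono_set Set.Ioc_subset_Ioi_self) (hint.mono_set (Set.Ioi_subset_Ioi hac)),
      Set.Ioc_union_Ioi_eq_Ioi hac]
  have h2 := norm_setIntegral_le_of_norm_le_const (μ := volume) (s := Set.Ioc a c) (f := f)
    (C := C) (by simp) hC
  rw [Real.volume_real_Ioc_of_le hac] at h2
  have h3 := (le_abs_self _).trans (h2 : |∫ τ in Set.Ioc a c, f τ| ≤ C * (c - a))
  rw [h1]
  linarith

theorem tail_2_pow_j9437 (x e E : ℝ) (hx : 0 ≤ x) (hxe : x ≤ e) (hE0 : 0 ≤ E) (hE : e ^ 181 ≤ E ^ 60) :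
    x ^ (181 / 60 : ℝ) ≤ E := by
  have he : 0 ≤ e := hx.trans hxe
  refine (Real.rpow_le_rpow hx hxe (by norm_num)).trans ?_
  rw [show (181 / 60 : ℝ) = ((181 : ℕ) : ℝ) * ((60 : ℕ) : ℝ)⁻¹ by norm_num, Real.rpow_mul he,
    Real.rpow_natCast]
  refine (Real.rpow_le_rpow (pow_nonneg he _) hE (by norm_num)).trans ?_
  rw [Real.pow_rpow_inv_natCast hE0 (by norm_num)]

theorem tail_2_cell_j9437 (s τ c p1 p2 p3 p4 e E : ℝ) (hτ0 : 0 ≤ τ) (hτc : τ ≤ c)
    (h1 : |psi 1 τ| ≤ p1) (h2 : |phi 1 (s * τ)| ≤ p2) (h3 : |psi 1 (s * τ)| ≤ p3)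
    (h4 : |phi 1 τ| ≤ p4) (he0 : 0 < env τ) (he : env τ ≤ e) (hE0 : 0 ≤ E)
    (hE : e ^ 181 ≤ E ^ 60) :
    ‖τ ^ 2 * (|psi 1 τ * phi 1 (s * τ)| + |psi 1 (s * τ) * phi 1 τ|) * env τ ^ (181 / 60 : ℝ)‖ ≤
      c ^ 2 * (p1 * p2 + p3 * p4) * E := by
  have hp := tail_2_pow_j9437 (env τ) e E he0.le he hE0 hE
  have hpos : 0 ≤ env τ ^ (181 / 60 : ℝ) := Real.rpow_nonneg he0.le _
  rw [Real.norm_of_nonneg (by positivity), abs_mul, abs_mul]
  have a1 : |psi 1 τ| * |phi 1 (s * τ)| ≤ p1 * p2 :=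
    mul_le_mul h1 h2 (abs_nonneg _) ((abs_nonneg _).trans h1)
  have a2 : |psi 1 (s * τ)| * |phi 1 τ| ≤ p3 * p4 :=
    mul_le_mul h3 h4 (abs_nonneg _) ((abs_nonneg _).trans h3)
  have a3 : τ ^ 2 ≤ c ^ 2 := pow_le_pow_left₀ hτ0 hτc 2
  have a4 : 0 ≤ |psi 1 τ| * |phi 1 (s * τ)| + |psi 1 (s * τ)| * |phi 1 τ| := by positivity
  exact mul_le_mul (mul_le_mul a3 (add_le_add a1 a2) a4 (sq_nonneg c)) hp hpos
    (mul_nonneg (sq_nonneg c) (a4.trans (add_le_add a1 a2)))

theorem tail_2_phi_j9437 (m p z : ℝ) (hm0 : 0 ≤ m) (hm : m ≤ 3.4) (hp : phi 1 m < p) (hp2 : 0.1496 ≤ p)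
    (hz : m ≤ z) : |phi 1 z| ≤ p := by
  have hz0 := z0_bounds
  rcases lt_or_ge z z0 with h | h
  · have h1 := phi_pos z (hm0.trans hz) h
    rw [abs_of_pos h1]
    refine (phi_antitone ⟨hm0, ?_⟩ ⟨hm0.trans hz, ?_⟩ hz).trans hp.le
    · linarith
    · linarith [hz0.2]
  · exact (phi_lobe z h).trans hp2

theorem tail_2_psi_j9437 (m p z : ℝ) (hm0 : 0 ≤ m) (hm : m ≤ 4.5) (hp : psi 1 m < p) (hp2 : 0.0201 ≤ p)
    (hz : m ≤ z) : |psi 1 z| ≤ p := by
  rcases le_or_gt z 4.6 with h | h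
  · have h1 := psi_pos z (hm0.trans hz) (by linarith)
    rw [abs_of_pos h1]
    refine (psi_antitone ⟨hm0, ?_⟩ ⟨hm0.trans hz, ?_⟩ hz).trans hp.le
    · linarith
    · linarith
  · exact (psi_late z (by linarith)).trans hp2

theorem tail_2_env1_j9437 (τ : ℝ) (h0 : z0 < τ) (h1 : τ ≤ 5) : env τ ≤ 0.1695 := by
  have hz0 := z0_bounds
  have hv := vr_one_bounds
  unfold env
  rw [if_pos h1]
  refine max_le (by norm_num) ?_
  have h2 : -(vr 1) * τ ^ 2 / 2 ≤ -(71 / 40) := by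
    have h3 : (3.4947 : ℝ) ^ 2 ≤ τ ^ 2 := pow_le_pow_left₀ (by norm_num) (by linarith [hz0.1]) 2
    have h4 : 0.29112 * (3.4947 : ℝ) ^ 2 ≤ vr 1 * τ ^ 2 :=
      mul_le_mul hv.1.le h3 (by norm_num) (by linarith [hv.1])
    norm_num at h4 ⊢
    linarith
  refine (Real.exp_le_exp.mpr h2).trans ?_
  rw [Real.exp_neg]
  have h5 : (1 / 0.1695 : ℝ) ≤ Real.exp (71 / 40) := by
    by_contra hneg
    push Not at hneg
    have h6 : Real.exp (71 / 40) ^ 40 < (1 / 0.1695 : ℝ) ^ 40 :=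
      pow_lt_pow_left₀ hneg (Real.exp_pos _).le (by norm_num)
    rw [← Real.exp_nat_mul] at h6
    have h7 : ((40 : ℕ) : ℝ) * (71 / 40) = ((71 : ℕ) : ℝ) * 1 := by norm_num
    rw [h7, Real.exp_nat_mul] at h6
    have h8 : (2.7182818283 : ℝ) ^ 71 ≤ Real.exp 1 ^ 71 :=
      pow_le_pow_left₀ (by norm_num) Real.exp_one_gt_d9.le _
    have h9 : (1 / 0.1695 : ℝ) ^ 40 ≤ (2.7182818283 : ℝ) ^ 71 := by norm_num
    linarith
  rw [inv_le_comm₀ (Real.exp_pos _) (by norm_num)]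
  refine le_trans ?_ h5
  norm_num

theorem tail_2_env2_j9437 (τ : ℝ) (h0 : 3.75 ≤ τ) (h1 : τ ≤ 5) : env τ ≤ 0.1496 := by
  have hv := vr_one_bounds
  unfold env
  rw [if_pos h1]
  refine max_le le_rfl ?_
  have h2 : -(vr 1) * τ ^ 2 / 2 ≤ -2 := by
    have h3 : (3.75 : ℝ) ^ 2 ≤ τ ^ 2 := pow_le_pow_left₀ (by norm_num) h0 2
    have h4 : 0.29112 * (3.75 : ℝ) ^ 2 ≤ vr 1 * τ ^ 2 :=
      mul_le_mul hv.1.le h3 (by norm_num) (by linarith [hv.1])
    norm_num at h4 ⊢
    linarith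
  refine (Real.exp_le_exp.mpr h2).trans ?_
  rw [Real.exp_neg]
  have h5 : (1 / 0.1496 : ℝ) ≤ Real.exp 2 := by
    have h7 : (2 : ℝ) = ((2 : ℕ) : ℝ) * 1 := by norm_num
    rw [h7, Real.exp_nat_mul]
    have h8 : (2.7182818283 : ℝ) ^ 2 ≤ Real.exp 1 ^ 2 :=
      pow_le_pow_left₀ (by norm_num) Real.exp_one_gt_d9.le _
    have h9 : (1 / 0.1496 : ℝ) ≤ (2.7182818283 : ℝ) ^ 2 := by norm_num
    linarith
  rw [inv_le_comm₀ (Real.exp_pos _) (by norm_num)]
  refine le_trans ?_ h5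
  norm_num

theorem tail_2_env3_j9437 (a τ : ℝ) (h0 : 5 ≤ a) (h1 : a < τ) : env τ ≤ 0.73 / a := by
  unfold env
  rw [if_neg (by linarith)]
  exact div_le_div_of_nonneg_left (by norm_num) (by linarith) h1.le

theorem tail_2_far_j9437 (s : ℝ) (hs : 0.3162 ≤ s)
    (hint : IntegrableOn (fun τ => τ ^ 2 * (|psi 1 τ * phi 1 (s * τ)| +
      |psi 1 (s * τ) * phi 1 τ|) * env τ ^ (181 / 60 : ℝ)) (Set.Ioi 8)) :
    ∫ τ in Set.Ioi 8, τ ^ 2 * (|psi 1 τ * phi 1 (s * τ)| +
      |psi 1 (s * τ) * phi 1 τ|) * env τ ^ (181 / 60 : ℝ) ≤ 0.005829 := by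
  have hz0 := z0_bounds
  set A : ℝ := 0.75 * 0.322545 with hA
  set B : ℝ := 0.152848 * 0.73 with hB
  set K : ℝ := (0.73 : ℝ) ^ (181 / 60 : ℝ) with hK
  have hK0 : 0 ≤ K := Real.rpow_nonneg (by norm_num) _
  have hK1 : K ≤ 0.386983 := tail_2_pow_j9437 0.73 0.73 0.386983 (by norm_num) le_rfl (by norm_num)
    (by norm_num)
  have i1 : IntegrableOn (fun τ : ℝ => τ ^ (-(181 / 60) : ℝ)) (Set.Ioi 8) :=
    integrableOn_Ioi_rpow_of_lt (by norm_num) (by norm_num)
  have i2 : IntegrableOn (fun τ : ℝ => τ ^ (-(121 / 60) : ℝ)) (Set.Ioi 8) :=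
    integrableOn_Ioi_rpow_of_lt (by norm_num) (by norm_num)
  have hmono : ∫ τ in Set.Ioi 8, τ ^ 2 * (|psi 1 τ * phi 1 (s * τ)| +
      |psi 1 (s * τ) * phi 1 τ|) * env τ ^ (181 / 60 : ℝ) ≤
      ∫ τ in Set.Ioi 8, (A * K * τ ^ (-(181 / 60) : ℝ) + B * K * τ ^ (-(121 / 60) : ℝ)) := by
    refine setIntegral_mono_on hint ((i1.const_mul _).add (i2.const_mul _)) measurableSet_Ioi ?_
    intro τ hτ
    have hτ8 : 8 < τ := hτ
    have hτ0 : 0 < τ := by linarith
    have hsτ : 2.5 ≤ s * τ := by nlinarith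
    have b1 := psi_decay τ (by linarith)
    have b2 := tail_2_phi_j9437 2.5 0.322545 (s * τ) (by norm_num) (by norm_num) phi_tab_10.2
      (by norm_num) hsτ
    have b3 := tail_2_psi_j9437 2.5 0.152848 (s * τ) (by norm_num) (by norm_num) psi_tab_10.2
      (by norm_num) hsτ
    have b4 := phi_decN τ (by linarith)
    have henv : env τ = 0.73 / τ := by
      unfold env
      rw [if_neg (by linarith)]
    have hpow : env τ ^ (181 / 60 : ℝ) = K * τ ^ (-(181 / 60) : ℝ) := by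
      rw [henv, Real.div_rpow (by norm_num) hτ0.le, Real.rpow_neg hτ0.le]
      rfl
    have hpow2 : τ ^ (-(121 / 60) : ℝ) = τ * τ ^ (-(181 / 60) : ℝ) := by
      rw [show (-(121 / 60) : ℝ) = 1 + -(181 / 60) by norm_num, Real.rpow_add hτ0, Real.rpow_one]
    rw [hpow, hpow2, abs_mul, abs_mul]
    have hτN : 0 ≤ τ ^ (-(181 / 60) : ℝ) := Real.rpow_nonneg hτ0.le _
    have c1 : |psi 1 τ| * |phi 1 (s * τ)| ≤ 0.75 / τ ^ 2 * 0.322545 :=
      mul_le_mul b1 b2 (abs_nonneg _) (by positivity)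
    have c2 : |psi 1 (s * τ)| * |phi 1 τ| ≤ 0.152848 * (0.73 / τ) :=
      mul_le_mul b3 b4 (abs_nonneg _) (by norm_num)
    have c3 : τ ^ 2 * (|psi 1 τ| * |phi 1 (s * τ)| + |psi 1 (s * τ)| * |phi 1 τ|) ≤ A + B * τ := by
      have c4 := mul_le_mul_of_nonneg_left (add_le_add c1 c2) (sq_nonneg τ)
      have c5 : τ ^ 2 * (0.75 / τ ^ 2 * 0.322545 + 0.152848 * (0.73 / τ)) = A + B * τ := by
        rw [hA, hB]
        field_simp
      rw [c5] at c4
      exact c4
    have c6 := mul_le_mul_of_nonneg_right c3 (mul_nonneg hK0 hτN)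
    calc _ ≤ (A + B * τ) * (K * τ ^ (-(181 / 60) : ℝ)) := c6
      _ = _ := by ring
  refine hmono.trans ?_
  rw [integral_add (i1.const_mul _) (i2.const_mul _), integral_const_mul, integral_const_mul,
    integral_Ioi_rpow_of_lt (by norm_num) (by norm_num),
    integral_Ioi_rpow_of_lt (by norm_num) (by norm_num)]
  have e1 : (8 : ℝ) ^ (-(181 / 60) + 1 : ℝ) ≤ 0.0150928 := by
    rw [show (-(181 / 60) + 1 : ℝ) = -(((121 : ℕ) : ℝ) * ((60 : ℕ) : ℝ)⁻¹) by norm_num,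
      Real.rpow_neg (by norm_num), Real.rpow_mul (by norm_num), Real.rpow_natCast,
      inv_le_comm₀ (Real.rpow_pos_of_pos (by norm_num) _) (by norm_num)]
    have e2 : ((0.0150928 : ℝ)⁻¹) ^ 60 ≤ (8 : ℝ) ^ 121 := by norm_num
    have e3 := Real.rpow_le_rpow (by positivity) e2
      (by norm_num : (0 : ℝ) ≤ ((60 : ℕ) : ℝ)⁻¹)
    rwa [Real.pow_rpow_inv_natCast (by norm_num) (by norm_num)] at e3
  have e4 : (8 : ℝ) ^ (-(121 / 60) + 1 : ℝ) ≤ 0.1207421 := by
    rw [show (-(121 / 60) + 1 : ℝ) = -(((61 : ℕ) : ℝ) * ((60 : ℕ) : ℝ)⁻¹) by norm_num,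
      Real.rpow_neg (by norm_num), Real.rpow_mul (by norm_num), Real.rpow_natCast,
      inv_le_comm₀ (Real.rpow_pos_of_pos (by norm_num) _) (by norm_num)]
    have e2 : ((0.1207421 : ℝ)⁻¹) ^ 60 ≤ (8 : ℝ) ^ 61 := by norm_num
    have e3 := Real.rpow_le_rpow (by positivity) e2
      (by norm_num : (0 : ℝ) ≤ ((60 : ℕ) : ℝ)⁻¹)
    rwa [Real.pow_rpow_inv_natCast (by norm_num) (by norm_num)] at e3
  have e5 : 0 ≤ (8 : ℝ) ^ (-(181 / 60) + 1 : ℝ) := Real.rpow_nonneg (by norm_num) _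
  have e6 : 0 ≤ (8 : ℝ) ^ (-(121 / 60) + 1 : ℝ) := Real.rpow_nonneg (by norm_num) _
  generalize (8 : ℝ) ^ (-(181 / 60) + 1 : ℝ) = u at *
  generalize (8 : ℝ) ^ (-(121 / 60) + 1 : ℝ) = w at *
  have d1 : K * u ≤ 0.386983 * 0.0150928 := mul_le_mul hK1 e1 e5 (by norm_num)
  have d2 : K * w ≤ 0.386983 * 0.1207421 := mul_le_mul hK1 e4 e6 (by norm_num)
  have f1 : A * K * (-u / (-(181 / 60) + 1)) = (A * 60 / 121) * (K * u) := by
    have : (-(181 / 60) + 1 : ℝ) = -(121 / 60) := by norm_num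
    rw [this]; field_simp
  have f2 : B * K * (-w / (-(121 / 60) + 1)) = (B * 60 / 61) * (K * w) := by
    have : (-(121 / 60) + 1 : ℝ) = -(61 / 60) := by norm_num
    rw [this]; field_simp
  rw [f1, f2]
  have g1 := mul_le_mul_of_nonneg_left d1 (by rw [hA]; norm_num : (0 : ℝ) ≤ A * 60 / 121)
  have g2 := mul_le_mul_of_nonneg_left d2 (by rw [hB]; norm_num : (0 : ℝ) ≤ B * 60 / 61)
  refine (add_le_add g1 g2).trans ?_
  rw [hA, hB]
  norm_num

theorem tail_2 (β : ℝ) (h0 : 0.1 ≤ β) (h1 : β ≤ 0.15) :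
    ∫ τ in Set.Ioi z0, τ ^ 2 * (|psi 1 τ * phi 1 (Real.sqrt β * τ)| +
      |psi 1 (Real.sqrt β * τ) * phi 1 τ|) * env τ ^ (181 / 60 : ℝ) ≤ 0.021306 := by
  have hs : 0.3162 ≤ Real.sqrt β := by
    apply Real.le_sqrt_of_sq_le
    refine le_trans ?_ h0
    norm_num
  generalize Real.sqrt β = s at hs ⊢
  have hz0 := z0_bounds
  set f : ℝ → ℝ := fun τ => τ ^ 2 * (|psi 1 τ * phi 1 (s * τ)| +
      |psi 1 (s * τ) * phi 1 τ|) * env τ ^ (181 / 60 : ℝ) with hf
  by_cases hint : IntegrableOn f (Set.Ioi z0)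
  swap
  · have : ∫ τ in Set.Ioi z0, f τ = 0 := integral_undef hint
    rw [this]; norm_num
  have hint' : ∀ a, z0 ≤ a → IntegrableOn f (Set.Ioi a) :=
    fun a ha => hint.mono_set (Set.Ioi_subset_Ioi ha)
  have hsm : ∀ a τ m : ℝ, 0 ≤ a → a ≤ τ → m ≤ 0.3162 * a → m ≤ s * τ := by
    intro a τ m ha haτ hm
    refine hm.trans (mul_le_mul hs haτ ha (by linarith))
  have t1 := tail_2_step_j9437 f z0 3.5 (3.5 ^ 2 * (0.089161 * 0.861137 + 0.264639 * 0.1496) * 0.0047279)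
    (by linarith only [hz0.2]) hint (by
      rintro τ ⟨ha, hb⟩
      exact tail_2_cell_j9437 s τ 3.5 0.089161 0.861137 0.264639 0.1496 0.1695 0.0047279
        (by linarith only [hz0.1, ha]) hb
        (tail_2_psi_j9437 3.25 _ τ (by norm_num) (by norm_num) psi_tab_13.2 (by norm_num)
          (by linarith only [hz0.1, ha]))
        (tail_2_phi_j9437 1 _ _ (by norm_num) (by norm_num) phi_tab_4.2 (by norm_num)
          (hsm 3.4947 τ 1 (by norm_num) (by linarith only [hz0.1, ha]) (by norm_num)))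
        (tail_2_psi_j9437 1 _ _ (by norm_num) (by norm_num) psi_tab_4.2 (by norm_num)
          (hsm 3.4947 τ 1 (by norm_num) (by linarith only [hz0.1, ha]) (by norm_num)))
        (phi_lobe τ ha.le) (env_le τ ha.le).1 (tail_2_env1_j9437 τ ha (by linarith only [ha, hb]))
        (by norm_num) (by norm_num))
  have t2 := tail_2_step_j9437 f 3.5 3.75 (3.75 ^ 2 * (0.069760 * 0.861137 + 0.264639 * 0.1496) * 0.0047279)
    (by norm_num) (hint' _ (by linarith only [hz0.2])) (by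
      rintro τ ⟨ha, hb⟩
      have hzτ : z0 < τ := by linarith only [hz0.2, ha]
      exact tail_2_cell_j9437 s τ 3.75 0.069760 0.861137 0.264639 0.1496 0.1695 0.0047279
        (by linarith only [hz0.1, ha]) hb
        (tail_2_psi_j9437 3.5 _ τ (by norm_num) (by norm_num) psi_tab_14.2 (by norm_num)
          (by linarith only [ha, hb]))
        (tail_2_phi_j9437 1 _ _ (by norm_num) (by norm_num) phi_tab_4.2 (by norm_num)
          (hsm 3.5 τ 1 (by norm_num) (by linarith only [ha, hb]) (by norm_num)))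
        (tail_2_psi_j9437 1 _ _ (by norm_num) (by norm_num) psi_tab_4.2 (by norm_num)
          (hsm 3.5 τ 1 (by norm_num) (by linarith only [ha, hb]) (by norm_num)))
        (phi_lobe τ hzτ.le) (env_le τ hzτ.le).1 (tail_2_env1_j9437 τ hzτ (by linarith only [ha, hb]))
        (by norm_num) (by norm_num))
  have t3 := tail_2_step_j9437 f 3.75 4 (4 ^ 2 * (0.051865 * 0.861137 + 0.264639 * 0.1496) * 0.0032438)
    (by norm_num) (hint' _ (by linarith only [hz0.2])) (by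
      rintro τ ⟨ha, hb⟩
      have hzτ : z0 < τ := by linarith only [hz0.2, ha]
      exact tail_2_cell_j9437 s τ 4 0.051865 0.861137 0.264639 0.1496 0.1496 0.0032438
        (by linarith only [hz0.1, ha]) hb
        (tail_2_psi_j9437 3.75 _ τ (by norm_num) (by norm_num) psi_tab_15.2 (by norm_num)
          (by linarith only [ha, hb]))
        (tail_2_phi_j9437 1 _ _ (by norm_num) (by norm_num) phi_tab_4.2 (by norm_num)
          (hsm 3.75 τ 1 (by norm_num) (by linarith only [ha, hb]) (by norm_num)))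
        (tail_2_psi_j9437 1 _ _ (by norm_num) (by norm_num) psi_tab_4.2 (by norm_num)
          (hsm 3.75 τ 1 (by norm_num) (by linarith only [ha, hb]) (by norm_num)))
        (phi_lobe τ hzτ.le) (env_le τ hzτ.le).1 (tail_2_env2_j9437 τ ha.le (by linarith only [ha, hb]))
        (by norm_num) (by norm_num))
  have t4 := tail_2_step_j9437 f 4 4.5 (4.5 ^ 2 * (0.035743 * 0.788704 + 0.250535 * 0.1496) * 0.0032438)
    (by norm_num) (hint' _ (by linarith only [hz0.2])) (by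
      rintro τ ⟨ha, hb⟩
      have hzτ : z0 < τ := by linarith only [hz0.2, ha]
      exact tail_2_cell_j9437 s τ 4.5 0.035743 0.788704 0.250535 0.1496 0.1496 0.0032438
        (by linarith only [hz0.1, ha]) hb
        (tail_2_psi_j9437 4 _ τ (by norm_num) (by norm_num) psi_tab_16.2 (by norm_num)
          (by linarith only [ha, hb]))
        (tail_2_phi_j9437 1.25 _ _ (by norm_num) (by norm_num) phi_tab_5.2 (by norm_num)
          (hsm 4 τ 1.25 (by norm_num) (by linarith only [ha, hb]) (by norm_num)))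
        (tail_2_psi_j9437 1.25 _ _ (by norm_num) (by norm_num) psi_tab_5.2 (by norm_num)
          (hsm 4 τ 1.25 (by norm_num) (by linarith only [ha, hb]) (by norm_num)))
        (phi_lobe τ hzτ.le) (env_le τ hzτ.le).1 (tail_2_env2_j9437 τ (by linarith only [ha, hb]) (by linarith only [ha, hb]))
        (by norm_num) (by norm_num))
  have t5 := tail_2_step_j9437 f 4.5 5 (5 ^ 2 * (0.0201 * 0.788704 + 0.250535 * 0.1496) * 0.0032438)
    (by norm_num) (hint' _ (by linarith only [hz0.2])) (by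
      rintro τ ⟨ha, hb⟩
      have hzτ : z0 < τ := by linarith only [hz0.2, ha]
      exact tail_2_cell_j9437 s τ 5 0.0201 0.788704 0.250535 0.1496 0.1496 0.0032438
        (by linarith only [hz0.1, ha]) hb
        (psi_late τ ha.le)
        (tail_2_phi_j9437 1.25 _ _ (by norm_num) (by norm_num) phi_tab_5.2 (by norm_num)
          (hsm 4.5 τ 1.25 (by norm_num) (by linarith only [ha, hb]) (by norm_num)))
        (tail_2_psi_j9437 1.25 _ _ (by norm_num) (by norm_num) psi_tab_5.2 (by norm_num)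
          (hsm 4.5 τ 1.25 (by norm_num) (by linarith only [ha, hb]) (by norm_num)))
        (phi_lobe τ hzτ.le) (env_le τ hzτ.le).1 (tail_2_env2_j9437 τ (by linarith only [ha, hb]) hb)
        (by norm_num) (by norm_num))
  have t6 := tail_2_step_j9437 f 5 5.5 (5.5 ^ 2 * (0.0201 * 0.705441 + 0.234041 * 0.1441) * 0.003014)
    (by norm_num) (hint' _ (by linarith only [hz0.2])) (by
      rintro τ ⟨ha, hb⟩
      have hzτ : z0 < τ := by linarith only [hz0.2, ha]
      exact tail_2_cell_j9437 s τ 5.5 0.0201 0.705441 0.234041 0.1441 (0.73 / 5) 0.003014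
        (by linarith only [hz0.1, ha]) hb
        (psi_late τ (by linarith only [ha, hb]))
        (tail_2_phi_j9437 1.5 _ _ (by norm_num) (by norm_num) phi_tab_6.2 (by norm_num)
          (hsm 5 τ 1.5 (by norm_num) (by linarith only [ha, hb]) (by norm_num)))
        (tail_2_psi_j9437 1.5 _ _ (by norm_num) (by norm_num) psi_tab_6.2 (by norm_num)
          (hsm 5 τ 1.5 (by norm_num) (by linarith only [ha, hb]) (by norm_num)))
        (phi_lobe5 τ ha.le) (env_le τ hzτ.le).1 (tail_2_env3_j9437 5 τ le_rfl ha)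
        (by norm_num) (by norm_num))
  have t7 := tail_2_step_j9437 f 5.5 6 (6 ^ 2 * (0.0201 * 0.705441 + 0.234041 * 0.1086) * 0.0022609)
    (by norm_num) (hint' _ (by linarith only [hz0.2])) (by
      rintro τ ⟨ha, hb⟩
      have hzτ : z0 < τ := by linarith only [hz0.2, ha]
      exact tail_2_cell_j9437 s τ 6 0.0201 0.705441 0.234041 0.1086 (0.73 / 5.5) 0.0022609
        (by linarith only [hz0.1, ha]) hb
        (psi_late τ (by linarith only [ha, hb]))
        (tail_2_phi_j9437 1.5 _ _ (by norm_num) (by norm_num) phi_tab_6.2 (by norm_num)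
          (hsm 5.5 τ 1.5 (by norm_num) (by linarith only [ha, hb]) (by norm_num)))
        (tail_2_psi_j9437 1.5 _ _ (by norm_num) (by norm_num) psi_tab_6.2 (by norm_num)
          (hsm 5.5 τ 1.5 (by norm_num) (by linarith only [ha, hb]) (by norm_num)))
        (phi_lobe55 τ ha.le) (env_le τ hzτ.le).1 (tail_2_env3_j9437 5.5 τ (by norm_num) ha)
        (by norm_num) (by norm_num))
  have t8 := tail_2_step_j9437 f 6 7 (7 ^ 2 * (0.0201 * 0.614151 + 0.215566 * 0.0903) * 0.0017389)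
    (by norm_num) (hint' _ (by linarith only [hz0.2])) (by
      rintro τ ⟨ha, hb⟩
      have hzτ : z0 < τ := by linarith only [hz0.2, ha]
      exact tail_2_cell_j9437 s τ 7 0.0201 0.614151 0.215566 0.0903 (0.73 / 6) 0.0017389
        (by linarith only [hz0.1, ha]) hb
        (psi_late τ (by linarith only [ha, hb]))
        (tail_2_phi_j9437 1.75 _ _ (by norm_num) (by norm_num) phi_tab_7.2 (by norm_num)
          (hsm 6 τ 1.75 (by norm_num) (by linarith only [ha, hb]) (by norm_num)))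
        (tail_2_psi_j9437 1.75 _ _ (by norm_num) (by norm_num) psi_tab_7.2 (by norm_num)
          (hsm 6 τ 1.75 (by norm_num) (by linarith only [ha, hb]) (by norm_num)))
        (phi_lobe575 τ (by linarith only [ha, hb])) (env_le τ hzτ.le).1 (tail_2_env3_j9437 6 τ (by norm_num) ha)
        (by norm_num) (by norm_num))
  have t9 := tail_2_step_j9437 f 7 8 (8 ^ 2 * (0.75 / 49 * 0.517847 + 0.195558 * 0.0903) * 0.0010923)
    (by norm_num) (hint' _ (by linarith only [hz0.2])) (by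
      rintro τ ⟨ha, hb⟩
      have hzτ : z0 < τ := by linarith only [hz0.2, ha]
      have hpsi : |psi 1 τ| ≤ 0.75 / 49 := by
        refine (psi_decay τ (by linarith only [ha, hb])).trans ?_
        have : (49 : ℝ) ≤ τ ^ 2 := by
          have := pow_le_pow_left₀ (by norm_num : (0 : ℝ) ≤ 7) ha.le 2
          norm_num at this
          linarith
        exact div_le_div_of_nonneg_left (by norm_num) (by norm_num) this
      exact tail_2_cell_j9437 s τ 8 (0.75 / 49) 0.517847 0.195558 0.0903 (0.73 / 7) 0.0010923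
        (by linarith only [hz0.1, ha]) hb
        hpsi
        (tail_2_phi_j9437 2 _ _ (by norm_num) (by norm_num) phi_tab_8.2 (by norm_num)
          (hsm 7 τ 2 (by norm_num) (by linarith only [ha, hb]) (by norm_num)))
        (tail_2_psi_j9437 2 _ _ (by norm_num) (by norm_num) psi_tab_8.2 (by norm_num)
          (hsm 7 τ 2 (by norm_num) (by linarith only [ha, hb]) (by norm_num)))
        (phi_lobe575 τ (by linarith only [ha, hb])) (env_le τ hzτ.le).1 (tail_2_env3_j9437 7 τ (by norm_num) ha)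
        (by norm_num) (by norm_num))
  have t10 := tail_2_far_j9437 s hs (hint' 8 (by linarith only [hz0.2]))
  have t1' : (3.5 ^ 2 * (0.089161 * 0.861137 + 0.264639 * 0.1496) * 0.0047279 : ℝ) * (3.5 - z0) ≤
      (3.5 ^ 2 * (0.089161 * 0.861137 + 0.264639 * 0.1496) * 0.0047279) * 0.0053 := by
    apply mul_le_mul_of_nonneg_left
    · linarith [hz0.1]
    · norm_num
  change ∫ τ in Set.Ioi z0, f τ ≤ 0.021306
  change ∫ τ in Set.Ioi 8, f τ ≤ 0.005829 at t10
  norm_num at t1 t1' t2 t3 t4 t5 t6 t7 t8 t9 t10 ⊢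
  linarith



end Pool.Agent.Helper82.GC
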