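import Pool.Agent.Helper82.GC.J9434

set_option autoImplicit false

open MeasureTheory Set

namespace Pool.Agent.Helper82.GC


theorem rp_le_j9438 {E c : ℝ} (hE : 0 ≤ E) (hc : 0 ≤ c) (h : E ^ 89 ≤ c ^ 30) :
    E ^ (89 / 30 : ℝ) ≤ c := by
  have h1 : E ^ (89 / 30 : ℝ) = (E ^ 89) ^ (1 / 30 : ℝ) := by
    rw [← Real.rpow_natCast E 89, ← Real.rpow_mul hE]
    norm_num
  have h2 : c = (c ^ 30) ^ (1 / 30 : ℝ) := by
    rw [← Real.rpow_natCast c 30, ← Real.rpow_mul hc]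
    norm_num
  rw [h1, h2]
  exact Real.rpow_le_rpow (by positivity) h (by norm_num)

theorem phi_gen_j9438 {a0 T z : ℝ} (h0 : 0 ≤ a0) (h1 : a0 ≤ 3.4) (h2 : phi 1 a0 ≤ T) (h3 : 0.1496 ≤ T)
    (hz : a0 ≤ z) : |phi 1 z| ≤ T := by
  have hz0 := z0_bounds
  rcases lt_or_ge z z0 with h | h
  · rw [abs_of_pos (phi_pos z (by linarith) h)]
    exact (phi_antitone ⟨h0, by linarith⟩ ⟨by linarith, by linarith⟩ hz).trans h2
  · exact (phi_lobe z h).trans h3

theorem psi_gen_j9438 {a0 T z : ℝ} (h0 : 0 ≤ a0) (h1 : a0 ≤ 4.5) (h2 : psi 1 a0 ≤ T) (h3 : 0.0201 ≤ T)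
    (hz : a0 ≤ z) : |psi 1 z| ≤ T := by
  rcases le_or_gt z 4.5 with h | h
  · rw [abs_of_pos (psi_pos z (by linarith) (by linarith))]
    exact (psi_antitone ⟨h0, by linarith⟩ ⟨by linarith, by linarith⟩ hz).trans h2
  · exact (psi_late z h.le).trans h3

theorem env_early_j9438 {τ : ℝ} (h1 : 3.75 ≤ τ) (h2 : τ ≤ 5) : env τ ≤ 0.1496 := by
  unfold env
  rw [if_pos h2]
  apply max_le le_rfl
  have hv := vr_one_bounds.1
  have h3 : -(vr 1) * τ ^ 2 / 2 ≤ -2 := by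
    have k1 : (3.75 : ℝ) ^ 2 ≤ τ ^ 2 := pow_le_pow_left₀ (by norm_num) h1 2
    have k2 : 0.29112 * (3.75 : ℝ) ^ 2 ≤ vr 1 * τ ^ 2 :=
      mul_le_mul hv.le k1 (by norm_num) (le_trans (by norm_num) hv.le)
    norm_num1 at k2
    linarith only [k2]
  calc Real.exp (-(vr 1) * τ ^ 2 / 2) ≤ Real.exp (-2) := Real.exp_le_exp.2 h3
    _ = (Real.exp 1 ^ 2)⁻¹ := by rw [Real.exp_neg, ← Real.exp_nat_mul]; norm_num
    _ ≤ (2.7 ^ 2)⁻¹ := by
      have := Real.exp_one_gt_d9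
      gcongr
      linarith
    _ ≤ 0.1496 := by norm_num

theorem env_late_j9438 {τ : ℝ} (h2 : 5 < τ) : env τ = 0.73 / τ := by
  unfold env
  rw [if_neg (not_le.2 h2)]

/-- the integrand -/
noncomputable def ig_j9438 (β τ : ℝ) : ℝ := τ ^ 2 * (|psi 1 τ * phi 1 (Real.sqrt β * τ)| +
      |psi 1 (Real.sqrt β * τ) * phi 1 τ|) * env τ ^ (89 / 30 : ℝ)

theorem ig_le_j9438 {β τ c p P Q F e : ℝ} (hτ : 0 ≤ τ) (hc : τ ≤ c) (h1 : |psi 1 τ| ≤ p)
    (h2 : |phi 1 (Real.sqrt β * τ)| ≤ P) (h3 : |psi 1 (Real.sqrt β * τ)| ≤ Q) (h4 : |phi 1 τ| ≤ F)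
    (h5 : env τ ^ (89 / 30 : ℝ) ≤ e) (h6 : 0 ≤ env τ) {K : ℝ} (hK : c ^ 2 * (p * P + Q * F) * e ≤ K) :
    ig_j9438 β τ ≤ K := by
  refine le_trans ?_ hK
  unfold ig_j9438
  rw [abs_mul, abs_mul]
  have a1 := abs_nonneg (psi 1 τ)
  have a2 := abs_nonneg (phi 1 (Real.sqrt β * τ))
  have a3 := abs_nonneg (psi 1 (Real.sqrt β * τ))
  have a4 := abs_nonneg (phi 1 τ)
  have a5 : 0 ≤ env τ ^ (89 / 30 : ℝ) := Real.rpow_nonneg h6 _
  have b1 : |psi 1 τ| * |phi 1 (Real.sqrt β * τ)| ≤ p * P := by gcongr; linarith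
  have b2 : |psi 1 (Real.sqrt β * τ)| * |phi 1 τ| ≤ Q * F := by gcongr; linarith
  have b3 : τ ^ 2 ≤ c ^ 2 := by gcongr
  have c1 : 0 ≤ p := a1.trans h1
  have c2 : 0 ≤ P := a2.trans h2
  have c3 : 0 ≤ Q := a3.trans h3
  have c4 : 0 ≤ F := a4.trans h4
  have b4 : 0 ≤ p * P + Q * F := by positivity
  gcongr

theorem env_pow_j9438 {τ E e : ℝ} (h0 : 0 ≤ env τ) (h1 : env τ ≤ E) (he : 0 ≤ e) (h : E ^ 89 ≤ e ^ 30) :
    env τ ^ (89 / 30 : ℝ) ≤ e :=
  (Real.rpow_le_rpow h0 h1 (by norm_num)).trans (rp_le_j9438 (h0.trans h1) he h)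

/-- end points of the cells -/
noncomputable def ea_j9438 : Fin 10 → ℝ := ![3.4947, 3.5, 3.75, 4, 4.5, 5, 5.5, 6, 7, 8]

/-- bounds on the cells -/
noncomputable def KK_j9438 : Fin 9 → ℝ :=
  ![0.0068828, 0.0067796, 0.0044737, 0.0043503, 0.0043867, 0.0043572, 0.0028496, 0.0022904, 0.0014669]

/-- bound on the last half line -/
noncomputable def hl_j9438 (τ : ℝ) : ℝ :=
  0.1122 * (0.73 ^ (89 / 30 : ℝ) * τ ^ (-(89 / 30) : ℝ)) +
    0.08010947 * (0.73 ^ (89 / 30 : ℝ) * τ ^ (-(59 / 30) : ℝ))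

theorem aux_sz_j9438 {s τ b c : ℝ} (hs : 0.3872 ≤ s) (hc : c ≤ τ) (h0 : 0 ≤ c) (h : b ≤ 0.3872 * c) :
    b ≤ s * τ :=
  h.trans (mul_le_mul hs hc h0 (le_trans (by norm_num) hs))

theorem ig_last_j9438 {β τ : ℝ} (h0 : 0.15 ≤ β) (h8 : 8 < τ) : ig_j9438 β τ ≤ hl_j9438 τ := by
  have hτ : 0 < τ := by linarith
  have hs : 0.3872 ≤ Real.sqrt β := Real.le_sqrt_of_sq_le (by norm_num; linarith)
  have hz : 3 ≤ Real.sqrt β * τ := aux_sz_j9438 hs h8.le (by norm_num) (by norm_num)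
  have h1 : |psi 1 τ| ≤ 0.75 / τ ^ 2 := psi_decay τ (by linarith)
  have h2 : |phi 1 (Real.sqrt β * τ)| ≤ 0.1496 :=
    phi_gen_j9438 (a0 := 3) (by norm_num) (by norm_num) (by have := phi_tab_12.2; linarith) le_rfl hz
  have h3 : |psi 1 (Real.sqrt β * τ)| ≤ 0.109739 :=
    psi_gen_j9438 (a0 := 3) (by norm_num) (by norm_num) psi_tab_12.2.le (by norm_num) hz
  have h4 : |phi 1 τ| ≤ 0.73 / τ := phi_decN τ (by linarith)
  have h5 : env τ = 0.73 / τ := env_late_j9438 (by linarith)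
  unfold ig_j9438 hl_j9438
  rw [h5, abs_mul, abs_mul]
  have e1 : (0.73 / τ) ^ (89 / 30 : ℝ) = 0.73 ^ (89 / 30 : ℝ) * τ ^ (-(89 / 30) : ℝ) := by
    rw [Real.div_rpow (by norm_num) hτ.le, Real.rpow_neg hτ.le]
    rfl
  have e2 : τ ^ (-(59 / 30) : ℝ) = τ * τ ^ (-(89 / 30) : ℝ) := by
    rw [show (-(59 / 30) : ℝ) = 1 + (-(89 / 30)) by norm_num, Real.rpow_add hτ, Real.rpow_one]
  rw [e1, e2]
  have hpos : 0 ≤ (0.73 : ℝ) ^ (89 / 30 : ℝ) * τ ^ (-(89 / 30) : ℝ) := by positivity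
  have b1 : |psi 1 τ| * |phi 1 (Real.sqrt β * τ)| ≤ 0.75 / τ ^ 2 * 0.1496 :=
    mul_le_mul h1 h2 (abs_nonneg _) (by positivity)
  have b2 : |psi 1 (Real.sqrt β * τ)| * |phi 1 τ| ≤ 0.109739 * (0.73 / τ) :=
    mul_le_mul h3 h4 (abs_nonneg _) (by norm_num)
  have b3 : τ ^ 2 * (|psi 1 τ| * |phi 1 (Real.sqrt β * τ)| + |psi 1 (Real.sqrt β * τ)| * |phi 1 τ|)
      ≤ 0.1122 + 0.08010947 * τ := by
    calc _ ≤ τ ^ 2 * (0.75 / τ ^ 2 * 0.1496 + 0.109739 * (0.73 / τ)) := by gcongr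
      _ = 0.75 * 0.1496 + 0.109739 * 0.73 * τ := by field_simp
      _ ≤ 0.1122 + 0.08010947 * τ := by norm_num1; linarith only [hτ]
  calc _ ≤ (0.1122 + 0.08010947 * τ) * (0.73 ^ (89 / 30 : ℝ) * τ ^ (-(89 / 30) : ℝ)) := by gcongr
    _ = _ := by ring

theorem hl_int_j9438 : IntegrableOn hl_j9438 (Set.Ioi 8) ∧ ∫ τ in Set.Ioi (8 : ℝ), hl_j9438 τ ≤ 0.004741 := by
  have i1 : IntegrableOn (fun τ : ℝ => τ ^ (-(89 / 30) : ℝ)) (Set.Ioi 8) :=
    integrableOn_Ioi_rpow_of_lt (by norm_num) (by norm_num)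
  have i2 : IntegrableOn (fun τ : ℝ => τ ^ (-(59 / 30) : ℝ)) (Set.Ioi 8) :=
    integrableOn_Ioi_rpow_of_lt (by norm_num) (by norm_num)
  have j1 : IntegrableOn (fun τ : ℝ => 0.1122 * ((0.73 : ℝ) ^ (89 / 30 : ℝ) * τ ^ (-(89 / 30) : ℝ)))
      (Set.Ioi 8) := (i1.const_mul _).const_mul _
  have j2 : IntegrableOn (fun τ : ℝ => 0.08010947 * ((0.73 : ℝ) ^ (89 / 30 : ℝ) * τ ^ (-(59 / 30) : ℝ)))
      (Set.Ioi 8) := (i2.const_mul _).const_mul _
  refine ⟨j1.add j2, ?_⟩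
  have e0 : ∫ τ in Set.Ioi (8 : ℝ), hl_j9438 τ =
      (∫ τ in Set.Ioi (8 : ℝ), 0.1122 * ((0.73 : ℝ) ^ (89 / 30 : ℝ) * τ ^ (-(89 / 30) : ℝ))) +
      ∫ τ in Set.Ioi (8 : ℝ), 0.08010947 * ((0.73 : ℝ) ^ (89 / 30 : ℝ) * τ ^ (-(59 / 30) : ℝ)) :=
    integral_add j1 j2
  rw [e0, integral_const_mul, integral_const_mul, integral_const_mul, integral_const_mul,
    integral_Ioi_rpow_of_lt (by norm_num) (by norm_num),
    integral_Ioi_rpow_of_lt (by norm_num) (by norm_num)]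
  have k1 : (0.73 : ℝ) ^ (89 / 30 : ℝ) * (8 : ℝ) ^ (-(89 / 30) : ℝ) ≤ 0.00082293 := by
    have : (0.73 : ℝ) ^ (89 / 30 : ℝ) * (8 : ℝ) ^ (-(89 / 30) : ℝ) = (0.09125 : ℝ) ^ (89 / 30 : ℝ) := by
      rw [Real.rpow_neg (by norm_num), ← div_eq_mul_inv, ← Real.div_rpow (by norm_num) (by norm_num)]
      norm_num
    rw [this]
    exact rp_le_j9438 (by norm_num) (by norm_num) (by norm_num)
  have k2 : (8 : ℝ) ^ (-(89 / 30) + 1 : ℝ) = 8 * (8 : ℝ) ^ (-(89 / 30) : ℝ) := by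
    rw [Real.rpow_add (by norm_num), Real.rpow_one]; ring
  have k3 : (8 : ℝ) ^ (-(59 / 30) + 1 : ℝ) = 64 * (8 : ℝ) ^ (-(89 / 30) : ℝ) := by
    rw [show (-(59 / 30) + 1 : ℝ) = -(89 / 30) + 2 by norm_num, Real.rpow_add (by norm_num)]
    norm_num
    ring
  rw [k2, k3]
  have k4 : 0 ≤ (0.73 : ℝ) ^ (89 / 30 : ℝ) * (8 : ℝ) ^ (-(89 / 30) : ℝ) := by positivity
  generalize (0.73 : ℝ) ^ (89 / 30 : ℝ) = A at k1 k4 ⊢
  generalize (8 : ℝ) ^ (-(89 / 30) : ℝ) = B at k1 k4 ⊢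
  have k5 : 0.1122 * (A * (-(8 * B) / (-(89 / 30) + 1))) + 0.08010947 * (A * (-(64 * B) / (-(59 / 30) + 1)))
      = (0.1122 * 8 / (59 / 30) + 0.08010947 * 64 / (29 / 30)) * (A * B) := by ring
  rw [k5]
  calc _ ≤ (0.1122 * 8 / (59 / 30) + 0.08010947 * 64 / (29 / 30)) * 0.00082293 := by gcongr
    _ ≤ (0.004741 : ℝ) := by norm_num

theorem ig_cells_j9438 {β τ : ℝ} (h0 : 0.15 ≤ β) (hz : z0 < τ) (h8 : τ ≤ 8) :
    ∃ i : Fin 9, τ ∈ Set.Ioc (ea_j9438 i.castSucc) (ea_j9438 i.succ) ∧ ig_j9438 β τ ≤ KK_j9438 i := by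
  have hz0 := z0_bounds
  have hτ : 3.4947 < τ := by linarith
  have hτ0 : 0 < τ := by linarith
  obtain ⟨e0, e1⟩ := env_le τ hz.le
  have hs : 0.3872 ≤ Real.sqrt β := Real.le_sqrt_of_sq_le (by norm_num; linarith)
  have hlobe : |phi 1 τ| ≤ 0.1496 := phi_lobe τ hz.le
  rcases le_or_gt τ 3.5 with c1 | c1
  · refine ⟨0, ⟨by simpa [ea_j9438] using hτ, by simpa [ea_j9438] using c1⟩, ?_⟩
    have hz : 1.25 ≤ Real.sqrt β * τ := aux_sz_j9438 hs hτ.le (by norm_num) (by norm_num)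
    exact ig_le_j9438 hτ0.le c1
      (psi_gen_j9438 (a0 := 3.25) (by norm_num) (by norm_num) psi_tab_13.2.le (by norm_num) (by linarith))
      (phi_gen_j9438 (a0 := 1.25) (by norm_num) (by norm_num) phi_tab_5.2.le (by norm_num) hz)
      (psi_gen_j9438 (a0 := 1.25) (by norm_num) (by norm_num) psi_tab_5.2.le (by norm_num) hz) hlobe
      (env_pow_j9438 (e := 0.00521194) e0.le e1 (by norm_num) (by norm_num)) e0.le
      (by simp only [KK_j9438, Matrix.cons_val_zero]; norm_num)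
  rcases le_or_gt τ 3.75 with c2 | c2
  · refine ⟨1, ⟨by simpa [ea_j9438] using c1, by simpa [ea_j9438] using c2⟩, ?_⟩
    have hz : 1.25 ≤ Real.sqrt β * τ := aux_sz_j9438 hs c1.le (by norm_num) (by norm_num)
    exact ig_le_j9438 hτ0.le c2
      (psi_gen_j9438 (a0 := 3.5) (by norm_num) (by norm_num) psi_tab_14.2.le (by norm_num) c1.le)
      (phi_gen_j9438 (a0 := 1.25) (by norm_num) (by norm_num) phi_tab_5.2.le (by norm_num) hz)
      (psi_gen_j9438 (a0 := 1.25) (by norm_num) (by norm_num) psi_tab_5.2.le (by norm_num) hz) hlobe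
      (env_pow_j9438 (e := 0.00521194) e0.le e1 (by norm_num) (by norm_num)) e0.le
      (by simp only [KK_j9438, Matrix.cons_val_one, Matrix.cons_val_zero]; norm_num)
  rcases le_or_gt τ 4 with c3 | c3
  · refine ⟨2, ⟨by simpa [ea_j9438] using c2, by simpa [ea_j9438] using c3⟩, ?_⟩
    have hz : 1.25 ≤ Real.sqrt β * τ := aux_sz_j9438 hs c2.le (by norm_num) (by norm_num)
    exact ig_le_j9438 hτ0.le c3
      (psi_gen_j9438 (a0 := 3.75) (by norm_num) (by norm_num) psi_tab_15.2.le (by norm_num) c2.le)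
      (phi_gen_j9438 (a0 := 1.25) (by norm_num) (by norm_num) phi_tab_5.2.le (by norm_num) hz)
      (psi_gen_j9438 (a0 := 1.25) (by norm_num) (by norm_num) psi_tab_5.2.le (by norm_num) hz) hlobe
      (env_pow_j9438 (e := 0.00356697) e0.le (env_early_j9438 c2.le (by linarith)) (by norm_num) (by norm_num)) e0.le
      (by simp only [KK_j9438, Matrix.cons_val]; norm_num)
  rcases le_or_gt τ 4.5 with c4 | c4
  · refine ⟨3, ⟨by simpa [ea_j9438] using c3, by simpa [ea_j9438] using c4⟩, ?_⟩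
    have hz : 1.5 ≤ Real.sqrt β * τ := aux_sz_j9438 hs c3.le (by norm_num) (by norm_num)
    exact ig_le_j9438 hτ0.le c4
      (psi_gen_j9438 (a0 := 4) (by norm_num) (by norm_num) psi_tab_16.2.le (by norm_num) c3.le)
      (phi_gen_j9438 (a0 := 1.5) (by norm_num) (by norm_num) phi_tab_6.2.le (by norm_num) hz)
      (psi_gen_j9438 (a0 := 1.5) (by norm_num) (by norm_num) psi_tab_6.2.le (by norm_num) hz) hlobe
      (env_pow_j9438 (e := 0.00356697) e0.le (env_early_j9438 (by linarith) (by linarith)) (by norm_num) (by norm_num)) e0.le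
      (by simp only [KK_j9438, Matrix.cons_val]; norm_num)
  rcases le_or_gt τ 5 with c5 | c5
  · refine ⟨4, ⟨by simpa [ea_j9438] using c4, by simpa [ea_j9438] using c5⟩, ?_⟩
    have hz : 1.5 ≤ Real.sqrt β * τ := aux_sz_j9438 hs c4.le (by norm_num) (by norm_num)
    exact ig_le_j9438 hτ0.le c5 (psi_late τ c4.le)
      (phi_gen_j9438 (a0 := 1.5) (by norm_num) (by norm_num) phi_tab_6.2.le (by norm_num) hz)
      (psi_gen_j9438 (a0 := 1.5) (by norm_num) (by norm_num) psi_tab_6.2.le (by norm_num) hz) hlobe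
      (env_pow_j9438 (e := 0.00356697) e0.le (env_early_j9438 (by linarith) (by linarith)) (by norm_num) (by norm_num)) e0.le
      (by simp only [KK_j9438, Matrix.cons_val]; norm_num)
  have hel : env τ = 0.73 / τ := env_late_j9438 c5
  rcases le_or_gt τ 5.5 with c6 | c6
  · refine ⟨5, ⟨by simpa [ea_j9438] using c5, by simpa [ea_j9438] using c6⟩, ?_⟩
    have hz : 1.75 ≤ Real.sqrt β * τ := aux_sz_j9438 hs c5.le (by norm_num) (by norm_num)
    have he : env τ ≤ 0.146 := by rw [hel, div_le_iff₀ hτ0]; linarith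
    exact ig_le_j9438 hτ0.le c6 (psi_late τ (by linarith))
      (phi_gen_j9438 (a0 := 1.75) (by norm_num) (by norm_num) phi_tab_7.2.le (by norm_num) hz)
      (psi_gen_j9438 (a0 := 1.75) (by norm_num) (by norm_num) psi_tab_7.2.le (by norm_num) hz)
      (phi_lobe5 τ c5.le)
      (env_pow_j9438 (e := 0.0033183) e0.le he (by norm_num) (by norm_num)) e0.le
      (by simp only [KK_j9438, Matrix.cons_val]; norm_num)
  rcases le_or_gt τ 6 with c7 | c7
  · refine ⟨6, ⟨by simpa [ea_j9438] using c6, by simpa [ea_j9438] using c7⟩, ?_⟩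
    have hz : 2 ≤ Real.sqrt β * τ := aux_sz_j9438 hs c6.le (by norm_num) (by norm_num)
    have he : env τ ≤ 0.13273 := by rw [hel, div_le_iff₀ hτ0]; linarith
    exact ig_le_j9438 hτ0.le c7 (psi_late τ (by linarith))
      (phi_gen_j9438 (a0 := 2) (by norm_num) (by norm_num) phi_tab_8.2.le (by norm_num) hz)
      (psi_gen_j9438 (a0 := 2) (by norm_num) (by norm_num) psi_tab_8.2.le (by norm_num) hz)
      (phi_lobe55 τ c6.le)
      (env_pow_j9438 (e := 0.0025012) e0.le he (by norm_num) (by norm_num)) e0.le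
      (by simp only [KK_j9438, Matrix.cons_val]; norm_num)
  rcases le_or_gt τ 7 with c8 | c8
  · refine ⟨7, ⟨by simpa [ea_j9438] using c7, by simpa [ea_j9438] using c8⟩, ?_⟩
    have hz : 2.25 ≤ Real.sqrt β * τ := aux_sz_j9438 hs c7.le (by norm_num) (by norm_num)
    have he : env τ ≤ 0.12167 := by rw [hel, div_le_iff₀ hτ0]; linarith
    exact ig_le_j9438 hτ0.le c8 (psi_late τ (by linarith))
      (phi_gen_j9438 (a0 := 2.25) (by norm_num) (by norm_num) phi_tab_9.2.le (by norm_num) hz)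
      (psi_gen_j9438 (a0 := 2.25) (by norm_num) (by norm_num) psi_tab_9.2.le (by norm_num) hz)
      (phi_lobe575 τ (by linarith))
      (env_pow_j9438 (e := 0.0019322) e0.le he (by norm_num) (by norm_num)) e0.le
      (by simp only [KK_j9438, Matrix.cons_val]; norm_num)
  · refine ⟨8, ⟨by simpa [ea_j9438] using c8, by simpa [ea_j9438] using h8⟩, ?_⟩
    have hz : 2.5 ≤ Real.sqrt β * τ := aux_sz_j9438 hs c8.le (by norm_num) (by norm_num)
    have he : env τ ≤ 0.10429 := by rw [hel, div_le_iff₀ hτ0]; linarith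
    have hp : |psi 1 τ| ≤ 0.75 / 49 := by
      refine (psi_decay τ (by linarith)).trans ?_
      rw [show (49 : ℝ) = 7 ^ 2 by norm_num]
      exact div_le_div_of_nonneg_left (by norm_num) (by norm_num)
        (pow_le_pow_left₀ (by norm_num) c8.le 2)
    exact ig_le_j9438 hτ0.le h8 hp
      (phi_gen_j9438 (a0 := 2.5) (by norm_num) (by norm_num) phi_tab_10.2.le (by norm_num) hz)
      (psi_gen_j9438 (a0 := 2.5) (by norm_num) (by norm_num) psi_tab_10.2.le (by norm_num) hz)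
      (phi_lobe575 τ (by linarith))
      (env_pow_j9438 (e := 0.0012231) e0.le he (by norm_num) (by norm_num)) e0.le
      (by simp only [KK_j9438, Matrix.cons_val]; norm_num)

/-- the dominating function -/
noncomputable def gd_j9438 (τ : ℝ) : ℝ :=
  ∑ i : Fin 9, (Set.Ioc (ea_j9438 i.castSucc) (ea_j9438 i.succ)).indicator (fun _ => KK_j9438 i) τ +
    (Set.Ioi 8).indicator hl_j9438 τ

theorem KK_nonneg_j9438 (i : Fin 9) : 0 ≤ KK_j9438 i := by
  fin_cases i <;> norm_num [KK_j9438]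

theorem hl_nonneg_j9438 (τ : ℝ) (h : 8 < τ) : 0 ≤ hl_j9438 τ := by
  unfold hl_j9438
  have : 0 < τ := by linarith
  positivity

theorem gd_nonneg_j9438 (τ : ℝ) : 0 ≤ gd_j9438 τ := by
  unfold gd_j9438
  apply add_nonneg
  · apply Finset.sum_nonneg
    intro i _
    exact Set.indicator_nonneg (fun _ _ => KK_nonneg_j9438 i) τ
  · exact Set.indicator_nonneg (fun x hx => hl_nonneg_j9438 x hx) τ

theorem gd_int_j9438 : Integrable gd_j9438 ∧ ∫ τ, gd_j9438 τ ≤ 0.019375 := by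
  have i1 : ∀ i : Fin 9, Integrable
      ((Set.Ioc (ea_j9438 i.castSucc) (ea_j9438 i.succ)).indicator (fun _ => KK_j9438 i)) := by
    intro i
    rw [integrable_indicator_iff measurableSet_Ioc]
    exact integrableOn_const (by simp)
  have i2 : Integrable ((Set.Ioi (8 : ℝ)).indicator hl_j9438) := by
    rw [integrable_indicator_iff measurableSet_Ioi]
    exact hl_int_j9438.1
  have i3 : Integrable (fun τ => ∑ i : Fin 9,
      (Set.Ioc (ea_j9438 i.castSucc) (ea_j9438 i.succ)).indicator (fun _ => KK_j9438 i) τ) :=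
    integrable_finsetSum _ (fun i _ => i1 i)
  refine ⟨i3.add i2, ?_⟩
  have e0 : ∫ τ, gd_j9438 τ = (∫ τ, ∑ i : Fin 9,
      (Set.Ioc (ea_j9438 i.castSucc) (ea_j9438 i.succ)).indicator (fun _ => KK_j9438 i) τ) +
      ∫ τ, (Set.Ioi (8 : ℝ)).indicator hl_j9438 τ := integral_add i3 i2
  rw [e0, integral_finsetSum _ (fun i _ => i1 i), integral_indicator measurableSet_Ioi]
  have e1 : ∀ i : Fin 9, ∫ τ, (Set.Ioc (ea_j9438 i.castSucc) (ea_j9438 i.succ)).indicator (fun _ => KK_j9438 i) τ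
      = (ea_j9438 i.succ - ea_j9438 i.castSucc) * KK_j9438 i := by
    intro i
    rw [integral_indicator measurableSet_Ioc, setIntegral_const, smul_eq_mul]
    congr 1
    rw [Real.volume_real_Ioc_of_le]
    fin_cases i <;> simp [ea_j9438] <;> norm_num
  simp only [e1]
  have h := hl_int_j9438.2
  have e2 : ∑ i : Fin 9, (ea_j9438 i.succ - ea_j9438 i.castSucc) * KK_j9438 i ≤ 0.014634 := by
    simp [Fin.sum_univ_succ, ea_j9438, KK_j9438]
    norm_num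
  linarith

theorem tail_3 (β : ℝ) (h0 : 0.15 ≤ β) (h1 : β ≤ 0.2) :
    ∫ τ in Set.Ioi z0, τ ^ 2 * (|psi 1 τ * phi 1 (Real.sqrt β * τ)| +
      |psi 1 (Real.sqrt β * τ) * phi 1 τ|) * env τ ^ (89 / 30 : ℝ) ≤ 0.019375 := by
  have hle : ∀ τ, z0 < τ → ig_j9438 β τ ≤ gd_j9438 τ := by
    intro τ hτ
    rcases le_or_gt τ 8 with h8 | h8
    · obtain ⟨i, hi, hK⟩ := ig_cells_j9438 h0 hτ h8
      refine hK.trans ?_
      unfold gd_j9438
      have a1 : KK_j9438 i = (Set.Ioc (ea_j9438 i.castSucc) (ea_j9438 i.succ)).indicator (fun _ => KK_j9438 i) τ := by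
        rw [Set.indicator_of_mem hi]
      have a2 : (Set.Ioc (ea_j9438 i.castSucc) (ea_j9438 i.succ)).indicator (fun _ => KK_j9438 i) τ ≤
          ∑ i : Fin 9, (Set.Ioc (ea_j9438 i.castSucc) (ea_j9438 i.succ)).indicator (fun _ => KK_j9438 i) τ :=
        Finset.single_le_sum (f := fun i : Fin 9 =>
        (Set.Ioc (ea_j9438 i.castSucc) (ea_j9438 i.succ)).indicator (fun _ => KK_j9438 i) τ)
        (fun i _ => Set.indicator_nonneg (fun _ _ => KK_nonneg_j9438 i) τ) (Finset.mem_univ i)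
      have a3 : 0 ≤ (Set.Ioi (8 : ℝ)).indicator hl_j9438 τ :=
        Set.indicator_nonneg (fun x hx => hl_nonneg_j9438 x hx) τ
      rw [← a1] at a2
      linarith
    · refine (ig_last_j9438 h0 h8).trans ?_
      unfold gd_j9438
      rw [Set.indicator_of_mem (s := Set.Ioi (8 : ℝ)) h8]
      have a1 : 0 ≤ ∑ i : Fin 9,
          (Set.Ioc (ea_j9438 i.castSucc) (ea_j9438 i.succ)).indicator (fun _ => KK_j9438 i) τ :=
        Finset.sum_nonneg (fun i _ => Set.indicator_nonneg (fun _ _ => KK_nonneg_j9438 i) τ)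
      linarith
  calc ∫ τ in Set.Ioi z0, ig_j9438 β τ ≤ ∫ τ in Set.Ioi z0, gd_j9438 τ := by
        apply integral_mono_of_nonneg
        · refine (ae_restrict_mem measurableSet_Ioi).mono (fun τ hτ => ?_)
          have hτ' : z0 < τ := hτ
          have := (env_le τ hτ'.le).1
          simp only [Pi.zero_apply, ig_j9438]
          positivity
        · exact gd_int_j9438.1.integrableOn
        · exact (ae_restrict_mem measurableSet_Ioi).mono (fun τ hτ => hle τ hτ)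
    _ ≤ ∫ τ, gd_j9438 τ := setIntegral_le_integral gd_int_j9438.1 (Filter.Eventually.of_forall gd_nonneg_j9438)
    _ ≤ 0.019375 := gd_int_j9438.2



end Pool.Agent.Helper82.GC
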