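import Pool.Agent.Helper82.GC.J9429
import Pool.Agent.Helper82.GC.J9434

set_option autoImplicit false

open MeasureTheory Set

namespace Pool.Agent.Helper82.GC


theorem t4_step_j9439 {n : ℕ} (f h : ℝ → ℝ) (z : ℝ) (a b C : Fin n → ℝ) (d : ℝ)
    (hC : ∀ k, 0 ≤ C k) (hab : ∀ k, a k ≤ b k) (hf0 : ∀ τ, z < τ → 0 ≤ f τ)
    (hh0 : ∀ τ, d < τ → 0 ≤ h τ) (hint : IntegrableOn h (Ioi d))
    (hcov : ∀ τ, z < τ → (∃ k, τ ∈ Ioc (a k) (b k) ∧ f τ ≤ C k) ∨ (d < τ ∧ f τ ≤ h τ)) :
    ∫ τ in Ioi z, f τ ≤ ∑ k, C k * (b k - a k) + ∫ τ in Ioi d, h τ := by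
  have i1 : ∀ k, Integrable ((Ioc (a k) (b k)).indicator (fun _ : ℝ => C k)) := by
    intro k
    rw [integrable_indicator_iff measurableSet_Ioc]
    exact integrableOn_const (by simp)
  have i2 : Integrable ((Ioi d).indicator h) := by
    rw [integrable_indicator_iff measurableSet_Ioi]
    exact hint
  have i3 : Integrable (fun τ => ∑ k, (Ioc (a k) (b k)).indicator (fun _ : ℝ => C k) τ) :=
    integrable_finsetSum _ fun k _ => i1 k
  have n1 : ∀ k τ, 0 ≤ (Ioc (a k) (b k)).indicator (fun _ : ℝ => C k) τ :=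
    fun k τ => indicator_nonneg (fun _ _ => hC k) τ
  have n2 : ∀ τ, 0 ≤ (Ioi d).indicator h τ := fun τ => indicator_nonneg (fun x hx => hh0 x hx) τ
  have n3 : ∀ τ, 0 ≤ ∑ k, (Ioc (a k) (b k)).indicator (fun _ : ℝ => C k) τ :=
    fun τ => Finset.sum_nonneg fun k _ => n1 k τ
  have hle : ∀ τ, z < τ → f τ ≤ ∑ k, (Ioc (a k) (b k)).indicator (fun _ : ℝ => C k) τ
      + (Ioi d).indicator h τ := by
    intro τ hτ
    rcases hcov τ hτ with ⟨k, hk, hfk⟩ | ⟨hd, hfh⟩
    · have h1 := Finset.single_le_sum (f := fun k => (Ioc (a k) (b k)).indicator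
        (fun _ : ℝ => C k) τ) (fun k _ => n1 k τ) (Finset.mem_univ k)
      rw [indicator_of_mem hk] at h1
      have h2 := n2 τ
      linarith
    · have h1 : (Ioi d).indicator h τ = h τ := indicator_of_mem hd h
      rw [h1]
      have h2 := n3 τ
      linarith
  calc ∫ τ in Ioi z, f τ
      ≤ ∫ τ in Ioi z, (∑ k, (Ioc (a k) (b k)).indicator (fun _ : ℝ => C k) τ
        + (Ioi d).indicator h τ) := by
        apply integral_mono_of_nonneg
        · exact ae_restrict_of_forall_mem measurableSet_Ioi (fun τ hτ => hf0 τ hτ)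
        · exact (i3.add i2).integrableOn
        · exact ae_restrict_of_forall_mem measurableSet_Ioi (fun τ hτ => hle τ hτ)
    _ ≤ ∫ τ, (∑ k, (Ioc (a k) (b k)).indicator (fun _ : ℝ => C k) τ
        + (Ioi d).indicator h τ) := by
        apply setIntegral_le_integral (i3.add i2)
        exact Filter.Eventually.of_forall fun τ => add_nonneg (n3 τ) (n2 τ)
    _ = _ := by
        rw [integral_add i3 i2, integral_finsetSum _ (fun k _ => i1 k),
          integral_indicator measurableSet_Ioi]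
        congr 1
        apply Finset.sum_congr rfl
        intro k _
        rw [integral_indicator measurableSet_Ioc, setIntegral_const, smul_eq_mul, mul_comm]
        congr 1
        rw [Real.volume_real_Ioc_of_le (hab k)]

theorem t4_pow_j9439 {e E : ℝ} (he : 0 ≤ e) (hE : 0 ≤ E) (h : e ^ 43 ≤ E ^ 15) :
    e ^ (43 / 15 : ℝ) ≤ E := by
  have h1 : e ^ (43 / 15 : ℝ) = (e ^ 43) ^ ((15 : ℕ) : ℝ)⁻¹ := by
    rw [← Real.rpow_natCast e 43, ← Real.rpow_mul he]
    congr 1
  have h2 : E = (E ^ 15) ^ ((15 : ℕ) : ℝ)⁻¹ := (Real.pow_rpow_inv_natCast hE (by norm_num)).symm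
  rw [h1, h2]
  exact Real.rpow_le_rpow (by positivity) h (by norm_num)

theorem t4_cell_j9439 (x τ c P A B Q e E : ℝ) (hτ0 : 0 < τ) (hc : τ ≤ c) (hP : |psi 1 τ| ≤ P)
    (hA : |phi 1 x| ≤ A) (hB : |psi 1 x| ≤ B) (hQ : |phi 1 τ| ≤ Q) (he0 : 0 < env τ)
    (he : env τ ≤ e) (hE : 0 ≤ E) (heE : e ^ 43 ≤ E ^ 15) :
    τ ^ 2 * (|psi 1 τ * phi 1 x| + |psi 1 x * phi 1 τ|) * env τ ^ (43 / 15 : ℝ)
      ≤ c ^ 2 * (P * A + B * Q) * E := by
  have hP0 := (abs_nonneg _).trans hP
  have hA0 := (abs_nonneg _).trans hA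
  have hB0 := (abs_nonneg _).trans hB
  have hQ0 := (abs_nonneg _).trans hQ
  have h1 : |psi 1 τ * phi 1 x| ≤ P * A := by
    rw [abs_mul]
    exact mul_le_mul hP hA (abs_nonneg _) hP0
  have h2 : |psi 1 x * phi 1 τ| ≤ B * Q := by
    rw [abs_mul]
    exact mul_le_mul hB hQ (abs_nonneg _) hB0
  have h3 : env τ ^ (43 / 15 : ℝ) ≤ E :=
    (Real.rpow_le_rpow he0.le he (by norm_num)).trans (t4_pow_j9439 (he0.le.trans he) hE heE)
  have h4 : τ ^ 2 ≤ c ^ 2 := pow_le_pow_left₀ hτ0.le hc 2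
  apply mul_le_mul _ h3 (Real.rpow_nonneg he0.le _) (by positivity)
  exact mul_le_mul h4 (add_le_add h1 h2) (by positivity) (by positivity)

theorem t4_phi_j9439 (x0 A x : ℝ) (h0 : 0 ≤ x0) (hA : phi 1 x0 ≤ A) (hA' : 0.1496 ≤ A)
    (hx : x0 ≤ x) : |phi 1 x| ≤ A := by
  rcases lt_or_ge x z0 with h | h
  · have h1 := phi_pos x (h0.trans hx) h
    rw [abs_of_pos h1]
    have hz := z0_bounds.2
    norm_num at hz
    have h2 := phi_antitone (a := x0) (b := x) ⟨h0, by norm_num; linarith⟩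
      ⟨h0.trans hx, by norm_num; linarith⟩ hx
    exact h2.trans hA
  · exact (phi_lobe x h).trans hA'

theorem t4_psi_j9439 (x0 B x : ℝ) (h0 : 0 ≤ x0) (hB : psi 1 x0 ≤ B) (hB' : 0.0201 ≤ B)
    (hx : x0 ≤ x) : |psi 1 x| ≤ B := by
  rcases lt_or_ge x 4.5 with h | h
  · have h' : x < 9 / 2 := by norm_num at h; exact h
    have h1 := psi_pos x (h0.trans hx) (by norm_num; linarith)
    rw [abs_of_pos h1]
    have h2 := psi_antitone (a := x0) (b := x) ⟨h0, by norm_num; linarith⟩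
      ⟨h0.trans hx, by norm_num; linarith⟩ hx
    exact h2.trans hB
  · exact (psi_late x h).trans hB'

theorem t4_exp_j9439 (w e : ℝ) (n : ℕ) (hw : 0 ≤ w) (he : 0 < e)
    (h : 1 / e ≤ ∑ i ∈ Finset.range n, w ^ i / (Nat.factorial i : ℝ)) :
    Real.exp (-w) ≤ e := by
  have h1 := h.trans (Real.sum_le_exp_of_nonneg hw n)
  rw [Real.exp_neg]
  rw [one_div] at h1
  exact inv_le_of_inv_le₀ he h1

theorem t4_env1_j9439 (τ a w e : ℝ) (ha : 0 ≤ a) (haτ : a ≤ τ) (hτ : τ ≤ 5) (hw : w ≤ 0.29112 * a ^ 2 / 2)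
    (he : Real.exp (-w) ≤ e) (he' : 0.1496 ≤ e) : env τ ≤ e := by
  unfold env
  rw [if_pos hτ]
  apply max_le he'
  refine le_trans ?_ he
  apply Real.exp_le_exp.2
  have hv := vr_one_bounds.1
  have h1 : a ^ 2 ≤ τ ^ 2 := pow_le_pow_left₀ ha haτ 2
  have h2 : 0.29112 * a ^ 2 ≤ vr 1 * τ ^ 2 := mul_le_mul hv.le h1 (by positivity)
    (by norm_num at hv; linarith)
  linarith

theorem t4_env2_j9439 (τ a e : ℝ) (ha : 5 ≤ a) (haτ : a < τ) (he : 0.73 / a ≤ e) : env τ ≤ e := by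
  unfold env
  rw [if_neg (by linarith)]
  refine le_trans ?_ he
  exact div_le_div_of_nonneg_left (by norm_num) (by linarith) haτ.le

theorem t4_psi0_j9439 : psi 1 3.4947 ≤ 0.0703 := by
  obtain ⟨c, hc, he⟩ := exists_hasDerivAt_eq_slope (psi 1) (fun z => -(z * chi z))
    (a := 3.4947) (b := 3.5) (by norm_num) psi_continuous.continuousOn
    (fun x _ => psi_deriv x)
  obtain ⟨hc1, hc2⟩ := hc
  have hc0 : 0 < c := by norm_num at hc1; linarith
  have h1 := chi_decay c (by norm_num at hc1; linarith)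
  have h2 : |c * chi c| ≤ 0.08 := by
    rw [abs_mul, abs_of_pos hc0]
    have h3 : c * |chi c| ≤ c * (0.975 / c ^ 3) := mul_le_mul_of_nonneg_left h1 hc0.le
    have h4 : c * (0.975 / c ^ 3) = 0.975 / c ^ 2 := by
      field_simp
    rw [h4] at h3
    refine h3.trans ?_
    rw [div_le_iff₀ (by positivity)]
    have h5 : (3.4947 : ℝ) ^ 2 ≤ c ^ 2 := pow_le_pow_left₀ (by norm_num) hc1.le 2
    norm_num at h5 ⊢
    linarith
  have h3 := psi_tab_14.2
  rw [eq_div_iff (by norm_num)] at he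
  have h4 := (abs_le.1 h2).2
  norm_num at he h3 h4 ⊢
  linarith

/-- tail function -/
noncomputable def t4h_j9439 (τ : ℝ) : ℝ :=
  0.75 * 0.1496 * 0.40569 * τ ^ (-(43 / 15) : ℝ) + 0.06976 * 0.73 * 0.40569 * τ ^ (-(28 / 15) : ℝ)

theorem t4h_int_j9439 : IntegrableOn t4h_j9439 (Ioi 8) ∧ ∫ τ in Ioi (8 : ℝ), t4h_j9439 τ ≤ 0.0044350 := by
  have i1 : IntegrableOn (fun τ : ℝ => τ ^ (-(43 / 15) : ℝ)) (Ioi 8) :=
    integrableOn_Ioi_rpow_of_lt (by norm_num) (by norm_num)
  have i2 : IntegrableOn (fun τ : ℝ => τ ^ (-(28 / 15) : ℝ)) (Ioi 8) :=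
    integrableOn_Ioi_rpow_of_lt (by norm_num) (by norm_num)
  constructor
  · exact (i1.const_mul _).add (i2.const_mul _)
  · have h1 : ∫ τ in Ioi (8 : ℝ), t4h_j9439 τ
        = 0.75 * 0.1496 * 0.40569 * (∫ τ in Ioi (8 : ℝ), τ ^ (-(43 / 15) : ℝ))
          + 0.06976 * 0.73 * 0.40569 * (∫ τ in Ioi (8 : ℝ), τ ^ (-(28 / 15) : ℝ)) := by
      unfold t4h_j9439
      rw [integral_add (i1.const_mul _) (i2.const_mul _), integral_const_mul, integral_const_mul]
    rw [h1, integral_Ioi_rpow_of_lt (by norm_num) (by norm_num),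
      integral_Ioi_rpow_of_lt (by norm_num) (by norm_num)]
    have e1 : (-(43 / 15) + 1 : ℝ) = -(28 / 15) := by norm_num
    have e2 : (-(28 / 15) + 1 : ℝ) = -(13 / 15) := by norm_num
    rw [e1, e2]
    have hroot : ∀ (k : ℕ) (E : ℝ), 0 ≤ E → ((8 : ℝ) ^ k)⁻¹ ≤ E ^ 15 →
        (8 : ℝ) ^ (-((k : ℝ) / 15)) ≤ E := by
      intro k E hE h
      have h1 : (8 : ℝ) ^ (-((k : ℝ) / 15)) = (((8 : ℝ) ^ k)⁻¹) ^ ((15 : ℕ) : ℝ)⁻¹ := by
        rw [← Real.rpow_natCast, ← Real.rpow_neg (by norm_num), ← Real.rpow_mul (by norm_num)]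
        congr 1
        push_cast
        ring
      have h2 : E = (E ^ 15) ^ ((15 : ℕ) : ℝ)⁻¹ :=
        (Real.pow_rpow_inv_natCast hE (by norm_num)).symm
      rw [h1, h2]
      exact Real.rpow_le_rpow (by positivity) h (by norm_num)
    have b1 := hroot 28 0.020620 (by norm_num) (by norm_num)
    have b2 := hroot 13 0.16495 (by norm_num) (by norm_num)
    push_cast at b1 b2
    norm_num at b1 b2 ⊢
    linarith

theorem t4_tail_j9439 (x τ : ℝ) (hτ : 8 < τ) (hA : |phi 1 x| ≤ 0.1496) (hB : |psi 1 x| ≤ 0.06976) :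
    τ ^ 2 * (|psi 1 τ * phi 1 x| + |psi 1 x * phi 1 τ|) * env τ ^ (43 / 15 : ℝ) ≤ t4h_j9439 τ := by
  have hτ0 : 0 < τ := by linarith
  have h1 : |psi 1 τ * phi 1 x| ≤ 0.75 / τ ^ 2 * 0.1496 := by
    rw [abs_mul]
    exact mul_le_mul (psi_decay τ (by norm_num; linarith)) hA (abs_nonneg _) (by positivity)
  have h2 : |psi 1 x * phi 1 τ| ≤ 0.06976 * (0.73 / τ) := by
    rw [abs_mul]
    exact mul_le_mul hB (phi_decN τ (by norm_num; linarith)) (abs_nonneg _) (by norm_num)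
  have h3 : env τ = 0.73 / τ := by
    unfold env
    rw [if_neg (by linarith)]
  have h4 : (0.73 / τ) ^ (43 / 15 : ℝ) ≤ 0.40569 * τ ^ (-(43 / 15) : ℝ) := by
    rw [Real.div_rpow (by norm_num) hτ0.le, div_eq_mul_inv, ← Real.rpow_neg hτ0.le]
    apply mul_le_mul_of_nonneg_right _ (Real.rpow_nonneg hτ0.le _)
    exact t4_pow_j9439 (by norm_num) (by norm_num) (by norm_num)
  have h5 : τ ^ (-(28 / 15) : ℝ) = τ * τ ^ (-(43 / 15) : ℝ) := by
    rw [← Real.rpow_one_add' hτ0.le (by norm_num)]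
    congr 1
    norm_num
  rw [h3]
  have h6 : τ ^ 2 * (|psi 1 τ * phi 1 x| + |psi 1 x * phi 1 τ|)
      ≤ 0.75 * 0.1496 + 0.06976 * 0.73 * τ := by
    calc τ ^ 2 * (|psi 1 τ * phi 1 x| + |psi 1 x * phi 1 τ|)
        ≤ τ ^ 2 * (0.75 / τ ^ 2 * 0.1496 + 0.06976 * (0.73 / τ)) :=
          mul_le_mul_of_nonneg_left (add_le_add h1 h2) (by positivity)
      _ = _ := by field_simp
  calc τ ^ 2 * (|psi 1 τ * phi 1 x| + |psi 1 x * phi 1 τ|) * (0.73 / τ) ^ (43 / 15 : ℝ)
      ≤ (0.75 * 0.1496 + 0.06976 * 0.73 * τ) * (0.40569 * τ ^ (-(43 / 15) : ℝ)) :=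
        mul_le_mul h6 h4 (by positivity) (by positivity)
    _ = t4h_j9439 τ := by
        unfold t4h_j9439
        rw [h5]
        ring

theorem tail_4 (β : ℝ) (h0 : 0.2 ≤ β) (h1 : β ≤ 0.3) :
    ∫ τ in Set.Ioi z0, τ ^ 2 * (|psi 1 τ * phi 1 (Real.sqrt β * τ)| +
      |psi 1 (Real.sqrt β * τ) * phi 1 τ|) * env τ ^ (43 / 15 : ℝ) ≤ 0.019537 := by
  have hz1 := z0_bounds.1
  have hz2 := z0_bounds.2
  have hsq : 0.4472 ≤ Real.sqrt β := by
    apply Real.le_sqrt_of_sq_le
    norm_num at h0 ⊢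
    linarith
  have hx : ∀ a c τ : ℝ, a ≤ 0.4472 * c → 0 ≤ c → c ≤ τ → a ≤ Real.sqrt β * τ := by
    intro a c τ h1 h2 h3
    exact h1.trans (mul_le_mul hsq h3 h2 (Real.sqrt_nonneg β))
  have hstep := t4_step_j9439 (fun τ => τ ^ 2 * (|psi 1 τ * phi 1 (Real.sqrt β * τ)| +
      |psi 1 (Real.sqrt β * τ) * phi 1 τ|) * env τ ^ (43 / 15 : ℝ)) t4h_j9439 z0
    ![3.4947, 3.75, 4, 4.5, 5, 5.5, 6, 7] ![3.75, 4, 4.5, 5, 5.5, 6, 7, 8]
    ![3.75 ^ 2 * (0.0703 * 0.705441 + 0.234041 * 0.1496) * 0.0061232,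
      4 ^ 2 * (0.051865 * 0.705441 + 0.234041 * 0.1496) * 0.0043133,
      4.5 ^ 2 * (0.035743 * 0.614151 + 0.215566 * 0.1496) * 0.0043133,
      5 ^ 2 * (0.0201 * 0.517847 + 0.195558 * 0.1496) * 0.0043133,
      5.5 ^ 2 * (0.0201 * 0.517847 + 0.195558 * 0.1441) * 0.0040224,
      6 ^ 2 * (0.0201 * 0.419627 + 0.174491 * 0.1086) * 0.0030608,
      7 ^ 2 * (0.0201 * 0.322545 + 0.152848 * 0.0903) * 0.0023851,
      8 ^ 2 * (0.015307 * 0.1496 + 0.109739 * 0.0903) * 0.0015332] 8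
    (by intro k; fin_cases k <;> norm_num) (by intro k; fin_cases k <;> norm_num)
    (by
      intro τ hτ
      have h2 := (env_le τ hτ.le).1
      positivity)
    (by
      intro τ hτ
      have : (0 : ℝ) < τ := by linarith
      unfold t4h_j9439
      positivity)
    t4h_int_j9439.1
    (by
      intro τ hτ
      have henv := (env_le τ hτ.le).1
      have hQ := phi_lobe τ hτ.le
      have hτ1 : 3.4947 < τ := hz1.trans hτ
      have hτ0 : 0 < τ := by norm_num at hτ1; linarith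
      have hexp1 : Real.exp (-1.7777) ≤ 0.16905 := t4_exp_j9439 1.7777 0.16905 14 (by norm_num)
        (by norm_num) (by norm_num [Finset.sum_range_succ, Nat.factorial])
      have hexp2 : Real.exp (-2.0469) ≤ 0.1496 := t4_exp_j9439 2.0469 0.1496 12 (by norm_num)
        (by norm_num) (by norm_num [Finset.sum_range_succ, Nat.factorial])
      rcases le_or_gt τ 3.75 with c1 | c1
      · left
        refine ⟨0, ⟨hτ1, c1⟩, ?_⟩
        exact t4_cell_j9439 _ τ 3.75 0.0703 0.705441 0.234041 0.1496 0.16905 0.0061232 hτ0 c1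
          (t4_psi_j9439 3.4947 _ _ (by norm_num) t4_psi0_j9439 (by norm_num) hτ1.le)
          (t4_phi_j9439 1.5 _ _ (by norm_num) phi_tab_6.2.le (by norm_num)
            (hx 1.5 3.4947 τ (by norm_num) (by norm_num) hτ1.le))
          (t4_psi_j9439 1.5 _ _ (by norm_num) psi_tab_6.2.le (by norm_num)
            (hx 1.5 3.4947 τ (by norm_num) (by norm_num) hτ1.le))
          hQ henv (t4_env1_j9439 τ 3.4947 1.7777 _ (by norm_num) hτ1.le
            (by norm_num at c1 ⊢; linarith) (by norm_num) hexp1 (by norm_num))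
          (by norm_num) (by norm_num)
      rcases le_or_gt τ 4 with c2 | c2
      · left
        refine ⟨1, ⟨c1, c2⟩, ?_⟩
        exact t4_cell_j9439 _ τ 4 0.051865 0.705441 0.234041 0.1496 0.1496 0.0043133 hτ0 c2
          (t4_psi_j9439 3.75 _ _ (by norm_num) psi_tab_15.2.le (by norm_num) c1.le)
          (t4_phi_j9439 1.5 _ _ (by norm_num) phi_tab_6.2.le (by norm_num)
            (hx 1.5 3.75 τ (by norm_num) (by norm_num) c1.le))
          (t4_psi_j9439 1.5 _ _ (by norm_num) psi_tab_6.2.le (by norm_num)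
            (hx 1.5 3.75 τ (by norm_num) (by norm_num) c1.le))
          hQ henv (t4_env1_j9439 τ 3.75 2.0469 _ (by norm_num) c1.le
            (by linarith) (by norm_num) hexp2 (by norm_num))
          (by norm_num) (by norm_num)
      rcases le_or_gt τ 4.5 with c3 | c3
      · left
        refine ⟨2, ⟨c2, c3⟩, ?_⟩
        exact t4_cell_j9439 _ τ 4.5 0.035743 0.614151 0.215566 0.1496 0.1496 0.0043133 hτ0 c3
          (t4_psi_j9439 4 _ _ (by norm_num) psi_tab_16.2.le (by norm_num) c2.le)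
          (t4_phi_j9439 1.75 _ _ (by norm_num) phi_tab_7.2.le (by norm_num)
            (hx 1.75 4 τ (by norm_num) (by norm_num) c2.le))
          (t4_psi_j9439 1.75 _ _ (by norm_num) psi_tab_7.2.le (by norm_num)
            (hx 1.75 4 τ (by norm_num) (by norm_num) c2.le))
          hQ henv (t4_env1_j9439 τ 3.75 2.0469 _ (by norm_num) c1.le
            (by norm_num at c3 ⊢; linarith) (by norm_num) hexp2 (by norm_num))
          (by norm_num) (by norm_num)
      rcases le_or_gt τ 5 with c4 | c4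
      · left
        refine ⟨3, ⟨c3, c4⟩, ?_⟩
        exact t4_cell_j9439 _ τ 5 0.0201 0.517847 0.195558 0.1496 0.1496 0.0043133 hτ0 c4
          (psi_late τ c3.le)
          (t4_phi_j9439 2 _ _ (by norm_num) phi_tab_8.2.le (by norm_num)
            (hx 2 4.5 τ (by norm_num) (by norm_num) c3.le))
          (t4_psi_j9439 2 _ _ (by norm_num) psi_tab_8.2.le (by norm_num)
            (hx 2 4.5 τ (by norm_num) (by norm_num) c3.le))
          hQ henv (t4_env1_j9439 τ 3.75 2.0469 _ (by norm_num) c1.le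
            c4 (by norm_num) hexp2 (by norm_num))
          (by norm_num) (by norm_num)
      rcases le_or_gt τ 5.5 with c5 | c5
      · left
        refine ⟨4, ⟨c4, c5⟩, ?_⟩
        exact t4_cell_j9439 _ τ 5.5 0.0201 0.517847 0.195558 0.1441 0.146 0.0040224 hτ0 c5
          (psi_late τ c3.le)
          (t4_phi_j9439 2 _ _ (by norm_num) phi_tab_8.2.le (by norm_num)
            (hx 2 5 τ (by norm_num) (by norm_num) c4.le))
          (t4_psi_j9439 2 _ _ (by norm_num) psi_tab_8.2.le (by norm_num)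
            (hx 2 5 τ (by norm_num) (by norm_num) c4.le))
          (phi_lobe5 τ c4.le) henv (t4_env2_j9439 τ 5 _ (by norm_num) c4 (by norm_num))
          (by norm_num) (by norm_num)
      rcases le_or_gt τ 6 with c6 | c6
      · left
        refine ⟨5, ⟨c5, c6⟩, ?_⟩
        exact t4_cell_j9439 _ τ 6 0.0201 0.419627 0.174491 0.1086 0.132728 0.0030608 hτ0 c6
          (psi_late τ c3.le)
          (t4_phi_j9439 2.25 _ _ (by norm_num) phi_tab_9.2.le (by norm_num)
            (hx 2.25 5.5 τ (by norm_num) (by norm_num) c5.le))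
          (t4_psi_j9439 2.25 _ _ (by norm_num) psi_tab_9.2.le (by norm_num)
            (hx 2.25 5.5 τ (by norm_num) (by norm_num) c5.le))
          (phi_lobe55 τ c5.le) henv (t4_env2_j9439 τ 5.5 _ (by norm_num) c5 (by norm_num))
          (by norm_num) (by norm_num)
      rcases le_or_gt τ 7 with c7 | c7
      · left
        refine ⟨6, ⟨c6, c7⟩, ?_⟩
        exact t4_cell_j9439 _ τ 7 0.0201 0.322545 0.152848 0.0903 0.121667 0.0023851 hτ0 c7
          (psi_late τ c3.le)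
          (t4_phi_j9439 2.5 _ _ (by norm_num) phi_tab_10.2.le (by norm_num)
            (hx 2.5 6 τ (by norm_num) (by norm_num) c6.le))
          (t4_psi_j9439 2.5 _ _ (by norm_num) psi_tab_10.2.le (by norm_num)
            (hx 2.5 6 τ (by norm_num) (by norm_num) c6.le))
          (phi_lobe575 τ (by norm_num; linarith)) henv
          (t4_env2_j9439 τ 6 _ (by norm_num) c6 (by norm_num))
          (by norm_num) (by norm_num)
      rcases le_or_gt τ 8 with c8 | c8
      · left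
        refine ⟨7, ⟨c7, c8⟩, ?_⟩
        have hp : |psi 1 τ| ≤ 0.015307 := by
          refine (psi_decay τ (by norm_num; linarith)).trans ?_
          rw [div_le_iff₀ (by positivity)]
          have h5 : (7 : ℝ) ^ 2 ≤ τ ^ 2 := pow_le_pow_left₀ (by norm_num) c7.le 2
          norm_num at h5 ⊢
          linarith
        exact t4_cell_j9439 _ τ 8 0.015307 0.1496 0.109739 0.0903 0.104286 0.0015332 hτ0 c8
          hp
          (t4_phi_j9439 3 _ _ (by norm_num) (phi_tab_12.2.le.trans (by norm_num)) le_rfl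
            (hx 3 7 τ (by norm_num) (by norm_num) c7.le))
          (t4_psi_j9439 3 _ _ (by norm_num) psi_tab_12.2.le (by norm_num)
            (hx 3 7 τ (by norm_num) (by norm_num) c7.le))
          (phi_lobe575 τ (by norm_num; linarith)) henv
          (t4_env2_j9439 τ 7 _ (by norm_num) c7 (by norm_num))
          (by norm_num) (by norm_num)
      right
      refine ⟨c8, ?_⟩
      exact t4_tail_j9439 _ τ c8
        (phi_lobe _ (by
          have := hx 3.4948 8 τ (by norm_num) (by norm_num) c8.le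
          linarith))
        (t4_psi_j9439 3.5 _ _ (by norm_num) (psi_tab_14.2.le.trans (by norm_num)) (by norm_num)
          (hx 3.5 8 τ (by norm_num) (by norm_num) c8.le)))
  refine hstep.trans ?_
  have htail := t4h_int_j9439.2
  rw [Fin.sum_univ_eight]
  simp only [Matrix.cons_val]
  norm_num at htail ⊢
  linarith



end Pool.Agent.Helper82.GC
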