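import Pool.Agent.Helper82.GC.J9434

set_option autoImplicit false

open MeasureTheory Set

namespace Pool.Agent.Helper82.GC


/-! auxiliary lemmas for tail 5 -/

theorem t5_rpow_le_j9440 {e E : ℝ} (he : 0 ≤ e) (hE : 0 ≤ E) (h : e ^ 83 ≤ E ^ 30) :
    e ^ (83 / 30 : ℝ) ≤ E := by
  have h1 : e ^ (83 / 30 : ℝ) = (e ^ 83) ^ (1 / 30 : ℝ) := by
    rw [← Real.rpow_natCast e 83, ← Real.rpow_mul he]
    norm_num
  have h2 : E = (E ^ 30) ^ (1 / 30 : ℝ) := by
    rw [← Real.rpow_natCast E 30, ← Real.rpow_mul hE]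
    norm_num
  rw [h1, h2]
  exact Real.rpow_le_rpow (pow_nonneg he 83) h (by norm_num)

theorem t5_phiB_j9440 {w y B : ℝ} (hw : 0 ≤ w) (hy : w ≤ y) (h1 : phi 1 w ≤ B) (hB : 0.1496 ≤ B) :
    |phi 1 y| ≤ B := by
  have hz := z0_bounds
  by_cases h : y < z0
  · have hy0 : 0 ≤ y := hw.trans hy
    rw [abs_of_pos (phi_pos y hy0 h)]
    refine (phi_antitone ⟨hw, ?_⟩ ⟨hy0, ?_⟩ hy).trans h1
    · norm_num at hz ⊢; linarith
    · norm_num at hz ⊢; linarith
  · exact (phi_lobe y (not_lt.1 h)).trans hB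

theorem t5_psiB_j9440 {w y B : ℝ} (hw : 0 ≤ w) (hy : w ≤ y) (h1 : psi 1 w ≤ B) (hB : 0.0201 ≤ B) :
    |psi 1 y| ≤ B := by
  by_cases h : y ≤ 4.5
  · have hy0 : 0 ≤ y := hw.trans hy
    rw [abs_of_pos (psi_pos y hy0 (by norm_num at h ⊢; linarith))]
    refine (psi_antitone ⟨hw, ?_⟩ ⟨hy0, ?_⟩ hy).trans h1
    · norm_num at h ⊢; linarith
    · norm_num at h ⊢; linarith
  · exact (psi_late y (not_le.1 h).le).trans hB

theorem t5_cell_j9440 {β τ p1 q1 p2 q2 e E K : ℝ} (h1 : |psi 1 τ| ≤ p1)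
    (h2 : |phi 1 (Real.sqrt β * τ)| ≤ q1) (h3 : |psi 1 (Real.sqrt β * τ)| ≤ p2)
    (h4 : |phi 1 τ| ≤ q2) (he0 : 0 < env τ) (he : env τ ≤ e) (hE : e ^ (83 / 30 : ℝ) ≤ E)
    (hK : (p1 * q1 + p2 * q2) * E ≤ K) :
    τ ^ 2 * (|psi 1 τ * phi 1 (Real.sqrt β * τ)| +
      |psi 1 (Real.sqrt β * τ) * phi 1 τ|) * env τ ^ (83 / 30 : ℝ) ≤ K * τ ^ 2 := by
  have a1 : env τ ^ (83 / 30 : ℝ) ≤ E :=
    (Real.rpow_le_rpow he0.le he (by norm_num)).trans hE
  have a0 : 0 ≤ env τ ^ (83 / 30 : ℝ) := Real.rpow_nonneg he0.le _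
  have a2 : |psi 1 τ * phi 1 (Real.sqrt β * τ)| + |psi 1 (Real.sqrt β * τ) * phi 1 τ| ≤
      p1 * q1 + p2 * q2 := by
    rw [abs_mul, abs_mul]
    exact add_le_add (mul_le_mul h1 h2 (abs_nonneg _) ((abs_nonneg _).trans h1))
      (mul_le_mul h3 h4 (abs_nonneg _) ((abs_nonneg _).trans h3))
  have a3 : 0 ≤ |psi 1 τ * phi 1 (Real.sqrt β * τ)| + |psi 1 (Real.sqrt β * τ) * phi 1 τ| := by
    positivity
  have a4 : (|psi 1 τ * phi 1 (Real.sqrt β * τ)| + |psi 1 (Real.sqrt β * τ) * phi 1 τ|) *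
      env τ ^ (83 / 30 : ℝ) ≤ (p1 * q1 + p2 * q2) * E :=
    mul_le_mul a2 a1 a0 (a3.trans a2)
  have a5 : 0 ≤ τ ^ 2 := sq_nonneg τ
  calc τ ^ 2 * (|psi 1 τ * phi 1 (Real.sqrt β * τ)| +
      |psi 1 (Real.sqrt β * τ) * phi 1 τ|) * env τ ^ (83 / 30 : ℝ)
      = τ ^ 2 * ((|psi 1 τ * phi 1 (Real.sqrt β * τ)| +
      |psi 1 (Real.sqrt β * τ) * phi 1 τ|) * env τ ^ (83 / 30 : ℝ)) := by ring
    _ ≤ τ ^ 2 * K := mul_le_mul_of_nonneg_left (a4.trans hK) a5
    _ = K * τ ^ 2 := by ring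

/-- sum of step functions times squares -/
noncomputable def t5_D_j9440 (L : List (ℝ × ℝ × ℝ)) (τ : ℝ) : ℝ :=
  (L.map fun q => (Set.Ioc q.1 q.2.1).indicator (fun t => q.2.2 * t ^ 2) τ).sum

theorem t5_D_int_j9440 (L : List (ℝ × ℝ × ℝ)) (hL : ∀ q ∈ L, q.1 ≤ q.2.1) :
    Integrable (t5_D_j9440 L) ∧
      ∫ τ, t5_D_j9440 L τ = (L.map fun q => q.2.2 * ((q.2.1 ^ 3 - q.1 ^ 3) / 3)).sum := by
  induction L with
  | nil =>
    have h : t5_D_j9440 [] = fun _ => 0 := by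
      funext τ
      simp [t5_D_j9440]
    rw [h]
    exact ⟨integrable_zero _ _ _, by simp⟩
  | cons q L ih =>
    obtain ⟨i1, i2⟩ := ih (fun q' hq' => hL q' (List.mem_cons_of_mem _ hq'))
    have hq := hL q List.mem_cons_self
    have h : t5_D_j9440 (q :: L) = fun τ =>
        (Set.Ioc q.1 q.2.1).indicator (fun t => q.2.2 * t ^ 2) τ + t5_D_j9440 L τ := by
      funext τ
      simp [t5_D_j9440]
    have j1 : Integrable ((Set.Ioc q.1 q.2.1).indicator (fun t : ℝ => q.2.2 * t ^ 2)) := by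
      rw [integrable_indicator_iff measurableSet_Ioc]
      exact ((continuous_const.mul (continuous_id.pow 2)).integrableOn_Icc).mono_set Set.Ioc_subset_Icc_self
    have j2 : ∫ τ, (Set.Ioc q.1 q.2.1).indicator (fun t : ℝ => q.2.2 * t ^ 2) τ =
        q.2.2 * ((q.2.1 ^ 3 - q.1 ^ 3) / 3) := by
      rw [integral_indicator measurableSet_Ioc, ← intervalIntegral.integral_of_le hq,
        intervalIntegral.integral_const_mul, integral_pow]
      norm_num
    rw [h]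
    refine ⟨j1.add i1, ?_⟩
    rw [integral_add j1 i1, i2, j2]
    simp

theorem t5_D_nonneg_j9440 (L : List (ℝ × ℝ × ℝ)) (hK : ∀ q ∈ L, 0 ≤ q.2.2) (τ : ℝ) :
    0 ≤ t5_D_j9440 L τ := by
  unfold t5_D_j9440
  apply List.sum_nonneg
  intro x hx
  obtain ⟨q, hq, rfl⟩ := List.mem_map.1 hx
  refine Set.indicator_nonneg (fun t _ => ?_) τ
  exact mul_nonneg (hK q hq) (sq_nonneg t)

theorem t5_D_ge_j9440 (L : List (ℝ × ℝ × ℝ)) (hK : ∀ q ∈ L, 0 ≤ q.2.2) (q : ℝ × ℝ × ℝ) (hq : q ∈ L)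
    (τ : ℝ) (hτ : τ ∈ Set.Ioc q.1 q.2.1) : q.2.2 * τ ^ 2 ≤ t5_D_j9440 L τ := by
  unfold t5_D_j9440
  have h : q.2.2 * τ ^ 2 = (Set.Ioc q.1 q.2.1).indicator (fun t => q.2.2 * t ^ 2) τ := by
    rw [Set.indicator_of_mem hτ]
  rw [h]
  apply List.single_le_sum
  · intro x hx
    obtain ⟨q', hq', rfl⟩ := List.mem_map.1 hx
    refine Set.indicator_nonneg (fun t _ => ?_) τ
    exact mul_nonneg (hK q' hq') (sq_nonneg t)
  · exact List.mem_map.2 ⟨q, hq, rfl⟩

/-- the cells -/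
noncomputable def t5_L_j9440 : List (ℝ × ℝ × ℝ) :=
  [(3.4947, 3.5, 0.00064), (3.5, 3.75, 0.00055), (3.75, 4, 0.000293), (4, 4.5, 0.00025),
   (4.5, 5, 0.000181), (5, 5.5, 0.00014), (5.5, 6, 0.0000563), (6, 7, 0.0000328),
   (7, 8, 0.0000136)]

/-- the tail function -/
noncomputable def t5_g_j9440 (τ : ℝ) : ℝ :=
  (0.1122 * 0.73 ^ (83 / 30 : ℝ)) * τ ^ (-(83 / 30) : ℝ) +
    (1.825 * 0.73 ^ (83 / 30 : ℝ)) * τ ^ (-(83 / 30) - 1 : ℝ)

theorem t5_g_int_j9440 : Integrable ((Set.Ioi (8 : ℝ)).indicator t5_g_j9440) ∧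
    ∫ τ, (Set.Ioi (8 : ℝ)).indicator t5_g_j9440 τ ≤ 0.001554 := by
  have i1 : IntegrableOn (fun τ : ℝ => τ ^ (-(83 / 30) : ℝ)) (Set.Ioi 8) :=
    integrableOn_Ioi_rpow_of_lt (by norm_num) (by norm_num)
  have i2 : IntegrableOn (fun τ : ℝ => τ ^ (-(83 / 30) - 1 : ℝ)) (Set.Ioi 8) :=
    integrableOn_Ioi_rpow_of_lt (by norm_num) (by norm_num)
  constructor
  · rw [integrable_indicator_iff measurableSet_Ioi]
    exact (i1.const_mul _).add (i2.const_mul _)
  · rw [integral_indicator measurableSet_Ioi]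
    have h : ∫ τ in Set.Ioi (8 : ℝ), t5_g_j9440 τ =
        (0.1122 * 0.73 ^ (83 / 30 : ℝ)) * (-(8 : ℝ) ^ (-(83 / 30) + 1 : ℝ) / (-(83 / 30) + 1 : ℝ)) +
        (1.825 * 0.73 ^ (83 / 30 : ℝ)) *
          (-(8 : ℝ) ^ ((-(83 / 30) - 1) + 1 : ℝ) / ((-(83 / 30) - 1) + 1 : ℝ)) := by
      unfold t5_g_j9440
      rw [integral_add (i1.const_mul _) (i2.const_mul _), integral_const_mul, integral_const_mul,
        integral_Ioi_rpow_of_lt (by norm_num) (by norm_num),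
        integral_Ioi_rpow_of_lt (by norm_num) (by norm_num)]
    rw [h]
    have e1 : (8 : ℝ) ^ (-(83 / 30) + 1 : ℝ) = 8 * (8 : ℝ) ^ (-(83 / 30) : ℝ) := by
      rw [Real.rpow_add (by norm_num), Real.rpow_one]
      ring
    have e2 : (8 : ℝ) ^ ((-(83 / 30) - 1) + 1 : ℝ) = (8 : ℝ) ^ (-(83 / 30) : ℝ) := by
      congr 1
      ring
    have e3 : (0.73 : ℝ) ^ (83 / 30 : ℝ) * (8 : ℝ) ^ (-(83 / 30) : ℝ) = (0.09125 : ℝ) ^ (83 / 30 : ℝ) := by
      rw [Real.rpow_neg (by norm_num), ← Real.inv_rpow (by norm_num),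
        ← Real.mul_rpow (by norm_num) (by norm_num)]
      norm_num
    have e4 : (0.09125 : ℝ) ^ (83 / 30 : ℝ) ≤ 0.00133 :=
      t5_rpow_le_j9440 (by norm_num) (by norm_num) (by norm_num)
    rw [e1, e2]
    have e5 : (0.1122 * 0.73 ^ (83 / 30 : ℝ)) * (-(8 * (8 : ℝ) ^ (-(83 / 30) : ℝ)) / (-(83 / 30) + 1 : ℝ)) +
        (1.825 * 0.73 ^ (83 / 30 : ℝ)) *
          (-(8 : ℝ) ^ (-(83 / 30) : ℝ) / ((-(83 / 30) - 1) + 1 : ℝ)) =
        (0.1122 * 8 * 30 / 53 + 1.825 * 30 / 83) *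
          ((0.73 : ℝ) ^ (83 / 30 : ℝ) * (8 : ℝ) ^ (-(83 / 30) : ℝ)) := by
      generalize (0.73 : ℝ) ^ (83 / 30 : ℝ) = A
      generalize (8 : ℝ) ^ (-(83 / 30) : ℝ) = B
      norm_num
      ring
    rw [e5, e3]
    refine (mul_le_mul_of_nonneg_left e4 (by norm_num)).trans ?_
    norm_num

theorem t5_g_nonneg_j9440 (τ : ℝ) (h : 8 < τ) : 0 ≤ t5_g_j9440 τ := by
  have hτ : 0 ≤ τ := by linarith
  unfold t5_g_j9440
  have h1 : 0 ≤ (0.73 : ℝ) ^ (83 / 30 : ℝ) := Real.rpow_nonneg (by norm_num) _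
  have h2 : 0 ≤ τ ^ (-(83 / 30) : ℝ) := Real.rpow_nonneg hτ _
  have h3 : 0 ≤ τ ^ (-(83 / 30) - 1 : ℝ) := Real.rpow_nonneg hτ _
  positivity

theorem t5_env_le_early_j9440 (τ : ℝ) (h0 : 3.4947 < τ) (h1 : τ ≤ 5) : env τ ≤ 0.16905 := by
  unfold env
  rw [if_pos h1]
  refine max_le (by norm_num) ?_
  have hv := vr_one_bounds.1
  have h2 : (1.7777 : ℝ) ≤ vr 1 * τ ^ 2 / 2 := by
    norm_num at h0 hv ⊢
    nlinarith
  have h3 : -(vr 1) * τ ^ 2 / 2 ≤ -1.7777 := by linarith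
  refine (Real.exp_le_exp.2 h3).trans ?_
  have h4 : (5.9155 : ℝ) ≤ Real.exp 1.7777 := by
    refine le_trans ?_ (Real.sum_le_exp_of_nonneg (by norm_num) 12)
    norm_num [Finset.sum_range_succ, Nat.factorial]
  rw [Real.exp_neg]
  rw [inv_le_comm₀ (Real.exp_pos _) (by norm_num)]
  refine le_trans ?_ h4
  norm_num

theorem t5_env_le_mid_j9440 (τ : ℝ) (h0 : 3.75 < τ) (h1 : τ ≤ 5) : env τ ≤ 0.1496 := by
  unfold env
  rw [if_pos h1]
  refine max_le le_rfl ?_
  have hv := vr_one_bounds.1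
  have h2 : (2 : ℝ) ≤ vr 1 * τ ^ 2 / 2 := by
    norm_num at h0 hv ⊢
    nlinarith
  have h3 : -(vr 1) * τ ^ 2 / 2 ≤ -2 := by linarith
  refine (Real.exp_le_exp.2 h3).trans ?_
  have h4 : (7 : ℝ) ≤ Real.exp 2 := by
    refine le_trans ?_ (Real.sum_le_exp_of_nonneg (by norm_num) 7)
    norm_num [Finset.sum_range_succ, Nat.factorial]
  rw [Real.exp_neg]
  rw [inv_le_comm₀ (Real.exp_pos _) (by norm_num)]
  refine le_trans ?_ h4
  norm_num

theorem t5_env_late_j9440 (τ a e : ℝ) (ha : 5 ≤ a) (h0 : a < τ) (h : 0.73 / a ≤ e) : env τ ≤ e := by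
  unfold env
  rw [if_neg (by linarith)]
  refine le_trans ?_ h
  exact div_le_div_of_nonneg_left (by norm_num) (by linarith) h0.le

theorem tail_5 (β : ℝ) (h0 : 0.3 ≤ β) (h1 : β ≤ 0.4) :
    ∫ τ in Set.Ioi z0, τ ^ 2 * (|psi 1 τ * phi 1 (Real.sqrt β * τ)| +
      |psi 1 (Real.sqrt β * τ) * phi 1 τ|) * env τ ^ (83 / 30 : ℝ) ≤ 0.015098 := by
  obtain ⟨hz1, hz2⟩ := z0_bounds
  have hsq : (0.5477 : ℝ) ≤ Real.sqrt β := by
    apply Real.le_sqrt_of_sq_le
    refine le_trans ?_ h0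
    norm_num
  have hKpos : ∀ q ∈ t5_L_j9440, 0 ≤ q.2.2 := by
    intro q hq
    simp only [t5_L_j9440, List.mem_cons, List.not_mem_nil, or_false] at hq
    rcases hq with rfl | rfl | rfl | rfl | rfl | rfl | rfl | rfl | rfl <;> norm_num
  have hLle : ∀ q ∈ t5_L_j9440, q.1 ≤ q.2.1 := by
    intro q hq
    simp only [t5_L_j9440, List.mem_cons, List.not_mem_nil, or_false] at hq
    rcases hq with rfl | rfl | rfl | rfl | rfl | rfl | rfl | rfl | rfl <;> norm_num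
  obtain ⟨D1, D2⟩ := t5_D_int_j9440 t5_L_j9440 hLle
  obtain ⟨G1, G2⟩ := t5_g_int_j9440
  rw [← integral_indicator measurableSet_Ioi]
  have key : ∀ τ : ℝ, (Set.Ioi z0).indicator (fun τ => τ ^ 2 * (|psi 1 τ * phi 1 (Real.sqrt β * τ)| +
      |psi 1 (Real.sqrt β * τ) * phi 1 τ|) * env τ ^ (83 / 30 : ℝ)) τ ≤
      t5_D_j9440 t5_L_j9440 τ + (Set.Ioi (8 : ℝ)).indicator t5_g_j9440 τ := by
    intro τ
    have n1 := t5_D_nonneg_j9440 t5_L_j9440 hKpos τ
    have n2 : 0 ≤ (Set.Ioi (8 : ℝ)).indicator t5_g_j9440 τ :=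
      Set.indicator_nonneg (fun t ht => t5_g_nonneg_j9440 t ht) τ
    by_cases hτ : τ ∈ Set.Ioi z0
    swap
    · rw [Set.indicator_of_notMem hτ]
      exact add_nonneg n1 n2
    rw [Set.indicator_of_mem hτ]
    have hτz : z0 ≤ τ := (Set.mem_Ioi.1 hτ).le
    have hτ1 : 3.4947 < τ := hz1.trans (Set.mem_Ioi.1 hτ)
    have hτ0 : 0 < τ := by norm_num at hτ1; linarith
    obtain ⟨env0, _⟩ := env_le τ hτz
    have lob := phi_lobe τ hτz
    have hs : ∀ a : ℝ, a ≤ τ → 0 ≤ a → 0.5477 * a ≤ Real.sqrt β * τ := by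
      intro a ha ha0
      exact mul_le_mul hsq ha ha0 (Real.sqrt_nonneg β)
    -- generic step for the cells
    have step : ∀ a c K p1 q1 p2 q2 e E : ℝ, (a, c, K) ∈ t5_L_j9440 → a < τ → τ ≤ c →
        |psi 1 τ| ≤ p1 → |phi 1 (Real.sqrt β * τ)| ≤ q1 → |psi 1 (Real.sqrt β * τ)| ≤ p2 →
        |phi 1 τ| ≤ q2 → env τ ≤ e → e ^ (83 / 30 : ℝ) ≤ E → (p1 * q1 + p2 * q2) * E ≤ K →
        τ ^ 2 * (|psi 1 τ * phi 1 (Real.sqrt β * τ)| +
          |psi 1 (Real.sqrt β * τ) * phi 1 τ|) * env τ ^ (83 / 30 : ℝ) ≤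
          t5_D_j9440 t5_L_j9440 τ + (Set.Ioi (8 : ℝ)).indicator t5_g_j9440 τ := by
      intro a c K p1 q1 p2 q2 e E hm h2 h3 b1 b2 b3 b4 b5 b6 b7
      refine (t5_cell_j9440 b1 b2 b3 b4 env0 b5 b6 b7).trans ?_
      have := t5_D_ge_j9440 t5_L_j9440 hKpos (a, c, K) hm τ ⟨h2, h3⟩
      linarith
    by_cases c1 : τ ≤ 3.5
    · refine step 3.4947 3.5 0.00064 0.089161 0.614151 0.215566 0.1496 0.16905 0.00732
        (by simp [t5_L_j9440]) hτ1 c1 ?_ ?_ ?_ lob ?_ ?_ (by norm_num)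
      · exact t5_psiB_j9440 (w := 3.25) (by norm_num) (by norm_num at hτ1 ⊢; linarith) psi_tab_13.2.le (by norm_num)
      · exact t5_phiB_j9440 (w := 1.75) (by norm_num)
          (le_trans (by norm_num) (hs 3.4947 hτ1.le (by norm_num))) phi_tab_7.2.le (by norm_num)
      · exact t5_psiB_j9440 (w := 1.75) (by norm_num)
          (le_trans (by norm_num) (hs 3.4947 hτ1.le (by norm_num))) psi_tab_7.2.le (by norm_num)
      · exact t5_env_le_early_j9440 τ hτ1 (by norm_num at c1 ⊢; linarith)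
      · exact t5_rpow_le_j9440 (by norm_num) (by norm_num) (by norm_num)
    by_cases c2 : τ ≤ 3.75
    · have c1' := (not_le.1 c1)
      refine step 3.5 3.75 0.00055 0.069760 0.614151 0.215566 0.1496 0.16905 0.00732
        (by simp [t5_L_j9440]) c1' c2 ?_ ?_ ?_ lob ?_ ?_ (by norm_num)
      · exact t5_psiB_j9440 (w := 3.5) (by norm_num) c1'.le psi_tab_14.2.le (by norm_num)
      · exact t5_phiB_j9440 (w := 1.75) (by norm_num)
          (le_trans (by norm_num) (hs 3.4947 hτ1.le (by norm_num))) phi_tab_7.2.le (by norm_num)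
      · exact t5_psiB_j9440 (w := 1.75) (by norm_num)
          (le_trans (by norm_num) (hs 3.4947 hτ1.le (by norm_num))) psi_tab_7.2.le (by norm_num)
      · exact t5_env_le_early_j9440 τ hτ1 (by norm_num at c2 ⊢; linarith)
      · exact t5_rpow_le_j9440 (by norm_num) (by norm_num) (by norm_num)
    by_cases c3 : τ ≤ 4
    · have c2' := (not_le.1 c2)
      refine step 3.75 4 0.000293 0.051865 0.517847 0.195558 0.1496 0.1496 0.005217
        (by simp [t5_L_j9440]) c2' c3 ?_ ?_ ?_ lob ?_ ?_ (by norm_num)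
      · exact t5_psiB_j9440 (w := 3.75) (by norm_num) c2'.le psi_tab_15.2.le (by norm_num)
      · exact t5_phiB_j9440 (w := 2) (by norm_num)
          (le_trans (by norm_num) (hs 3.75 c2'.le (by norm_num))) phi_tab_8.2.le (by norm_num)
      · exact t5_psiB_j9440 (w := 2) (by norm_num)
          (le_trans (by norm_num) (hs 3.75 c2'.le (by norm_num))) psi_tab_8.2.le (by norm_num)
      · exact t5_env_le_mid_j9440 τ c2' (by linarith)
      · exact t5_rpow_le_j9440 (by norm_num) (by norm_num) (by norm_num)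
    by_cases c4 : τ ≤ 4.5
    · have c3' := (not_le.1 c3)
      have c2' := (not_le.1 c2)
      refine step 4 4.5 0.00025 0.035743 0.517847 0.195558 0.1496 0.1496 0.005217
        (by simp [t5_L_j9440]) c3' c4 ?_ ?_ ?_ lob ?_ ?_ (by norm_num)
      · exact t5_psiB_j9440 (w := 4) (by norm_num) c3'.le psi_tab_16.2.le (by norm_num)
      · exact t5_phiB_j9440 (w := 2) (by norm_num)
          (le_trans (by norm_num) (hs 4 c3'.le (by norm_num))) phi_tab_8.2.le (by norm_num)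
      · exact t5_psiB_j9440 (w := 2) (by norm_num)
          (le_trans (by norm_num) (hs 4 c3'.le (by norm_num))) psi_tab_8.2.le (by norm_num)
      · exact t5_env_le_mid_j9440 τ c2' (by norm_num at c4 ⊢; linarith)
      · exact t5_rpow_le_j9440 (by norm_num) (by norm_num) (by norm_num)
    by_cases c5 : τ ≤ 5
    · have c4' := (not_le.1 c4)
      have c2' := (not_le.1 c2)
      refine step 4.5 5 0.000181 0.0201 0.419627 0.174491 0.1496 0.1496 0.005217
        (by simp [t5_L_j9440]) c4' c5 ?_ ?_ ?_ lob ?_ ?_ (by norm_num)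
      · exact psi_late τ c4'.le
      · exact t5_phiB_j9440 (w := 2.25) (by norm_num)
          (le_trans (by norm_num) (hs 4.5 c4'.le (by norm_num))) phi_tab_9.2.le (by norm_num)
      · exact t5_psiB_j9440 (w := 2.25) (by norm_num)
          (le_trans (by norm_num) (hs 4.5 c4'.le (by norm_num))) psi_tab_9.2.le (by norm_num)
      · exact t5_env_le_mid_j9440 τ c2' c5
      · exact t5_rpow_le_j9440 (by norm_num) (by norm_num) (by norm_num)
    by_cases c6 : τ ≤ 5.5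
    · have c5' := (not_le.1 c5)
      refine step 5 5.5 0.00014 0.0201 0.322545 0.152848 0.1441 0.146 0.00488
        (by simp [t5_L_j9440]) c5' c6 ?_ ?_ ?_ ?_ ?_ ?_ (by norm_num)
      · exact psi_late τ (by norm_num; linarith)
      · exact t5_phiB_j9440 (w := 2.5) (by norm_num)
          (le_trans (by norm_num) (hs 5 c5'.le (by norm_num))) phi_tab_10.2.le (by norm_num)
      · exact t5_psiB_j9440 (w := 2.5) (by norm_num)
          (le_trans (by norm_num) (hs 5 c5'.le (by norm_num))) psi_tab_10.2.le (by norm_num)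
      · exact phi_lobe5 τ c5'.le
      · exact t5_env_late_j9440 τ 5 0.146 le_rfl c5' (by norm_num)
      · exact t5_rpow_le_j9440 (by norm_num) (by norm_num) (by norm_num)
    by_cases c7 : τ ≤ 6
    · have c6' := (not_le.1 c6)
      refine step 5.5 6 0.0000563 0.0201 0.1496 0.109739 0.1086 0.13273 0.00375
        (by simp [t5_L_j9440]) c6' c7 ?_ ?_ ?_ ?_ ?_ ?_ (by norm_num)
      · exact psi_late τ (by norm_num at c6' ⊢; linarith)
      · exact t5_phiB_j9440 (w := 3) (by norm_num)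
          (le_trans (by norm_num) (hs 5.5 c6'.le (by norm_num)))
          (phi_tab_12.2.le.trans (by norm_num)) (by norm_num)
      · exact t5_psiB_j9440 (w := 3) (by norm_num)
          (le_trans (by norm_num) (hs 5.5 c6'.le (by norm_num))) psi_tab_12.2.le (by norm_num)
      · exact phi_lobe55 τ c6'.le
      · exact t5_env_late_j9440 τ 5.5 0.13273 (by norm_num) c6' (by norm_num)
      · exact t5_rpow_le_j9440 (by norm_num) (by norm_num) (by norm_num)
    by_cases c8 : τ ≤ 7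
    · have c7' := (not_le.1 c7)
      refine step 6 7 0.0000328 0.0201 0.1496 0.089161 0.0903 0.12167 0.00295
        (by simp [t5_L_j9440]) c7' c8 ?_ ?_ ?_ ?_ ?_ ?_ (by norm_num)
      · exact psi_late τ (by norm_num; linarith)
      · exact t5_phiB_j9440 (w := 3.25) (by norm_num)
          (le_trans (by norm_num) (hs 6 c7'.le (by norm_num)))
          (phi_tab_13.2.le.trans (by norm_num)) (by norm_num)
      · exact t5_psiB_j9440 (w := 3.25) (by norm_num)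
          (le_trans (by norm_num) (hs 6 c7'.le (by norm_num))) psi_tab_13.2.le (by norm_num)
      · exact phi_lobe575 τ (by norm_num; linarith)
      · exact t5_env_late_j9440 τ 6 0.12167 (by norm_num) c7' (by norm_num)
      · exact t5_rpow_le_j9440 (by norm_num) (by norm_num) (by norm_num)
    by_cases c9 : τ ≤ 8
    · have c8' := (not_le.1 c8)
      refine step 7 8 0.0000136 0.015307 0.1496 0.051865 0.0903 0.10429 0.001925
        (by simp [t5_L_j9440]) c8' c9 ?_ ?_ ?_ ?_ ?_ ?_ (by norm_num)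
      · refine (psi_decay τ (by norm_num; linarith)).trans ?_
        rw [div_le_iff₀ (by positivity)]
        norm_num
        nlinarith
      · exact t5_phiB_j9440 (w := 3.75) (by norm_num)
          (le_trans (by norm_num) (hs 7 c8'.le (by norm_num)))
          (phi_tab_15.2.le.trans (by norm_num)) (by norm_num)
      · exact t5_psiB_j9440 (w := 3.75) (by norm_num)
          (le_trans (by norm_num) (hs 7 c8'.le (by norm_num))) psi_tab_15.2.le (by norm_num)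
      · exact phi_lobe575 τ (by norm_num; linarith)
      · exact t5_env_late_j9440 τ 7 0.10429 (by norm_num) c8' (by norm_num)
      · exact t5_rpow_le_j9440 (by norm_num) (by norm_num) (by norm_num)
    have c9' := not_le.1 c9
    rw [Set.indicator_of_mem (Set.mem_Ioi.2 c9')]
    refine le_trans ?_ (le_add_of_nonneg_left n1)
    have hβ0 : 0 ≤ β := by norm_num at h0; linarith
    have hβ : 0 < β := by norm_num at h0; linarith
    have hs8 := hs 8 c9'.le (by norm_num)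
    have b1 : |psi 1 τ| ≤ 0.75 / τ ^ 2 := psi_decay τ (by norm_num; linarith)
    have b2 : |phi 1 (Real.sqrt β * τ)| ≤ 0.1496 :=
      phi_lobe _ (le_trans (by norm_num at hz2 ⊢; linarith) hs8)
    have b3 : |psi 1 (Real.sqrt β * τ)| ≤ 2.5 / τ ^ 2 := by
      refine (psi_decay _ (le_trans (by norm_num) hs8)).trans ?_
      rw [mul_pow, Real.sq_sqrt hβ0, div_le_div_iff₀ (by positivity) (by positivity)]
      have : 0 < τ ^ 2 := by positivity
      norm_num at h0 ⊢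
      nlinarith
    have b4 : |phi 1 τ| ≤ 0.73 / τ := phi_decN τ (by norm_num; linarith)
    have b5 : env τ = 0.73 / τ := by
      unfold env
      rw [if_neg (by linarith)]
    have b6 : (0.73 / τ) ^ (83 / 30 : ℝ) = 0.73 ^ (83 / 30 : ℝ) * τ ^ (-(83 / 30) : ℝ) := by
      rw [Real.div_rpow (by norm_num) hτ0.le, Real.rpow_neg hτ0.le]
      rfl
    have b7 : τ ^ (-(83 / 30) - 1 : ℝ) = τ ^ (-(83 / 30) : ℝ) / τ := Real.rpow_sub_one hτ0.ne' _
    rw [b5, b6]
    unfold t5_g_j9440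
    rw [b7]
    set A := (0.73 : ℝ) ^ (83 / 30 : ℝ) with hA
    set B := τ ^ (-(83 / 30) : ℝ) with hB
    have hA0 : 0 ≤ A := Real.rpow_nonneg (by norm_num) _
    have hB0 : 0 ≤ B := Real.rpow_nonneg hτ0.le _
    have b8 : |psi 1 τ * phi 1 (Real.sqrt β * τ)| + |psi 1 (Real.sqrt β * τ) * phi 1 τ| ≤
        0.75 / τ ^ 2 * 0.1496 + 2.5 / τ ^ 2 * (0.73 / τ) := by
      rw [abs_mul, abs_mul]
      exact add_le_add (mul_le_mul b1 b2 (abs_nonneg _) ((abs_nonneg _).trans b1))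
        (mul_le_mul b3 b4 (abs_nonneg _) ((abs_nonneg _).trans b3))
    calc τ ^ 2 * (|psi 1 τ * phi 1 (Real.sqrt β * τ)| + |psi 1 (Real.sqrt β * τ) * phi 1 τ|) *
        (A * B) ≤ τ ^ 2 * (0.75 / τ ^ 2 * 0.1496 + 2.5 / τ ^ 2 * (0.73 / τ)) * (A * B) := by
          apply mul_le_mul_of_nonneg_right _ (mul_nonneg hA0 hB0)
          exact mul_le_mul_of_nonneg_left b8 (sq_nonneg τ)
      _ = 0.1122 * A * B + 1.825 * A * (B / τ) := by
          field_simp
          ring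
  have hint : Integrable (fun τ => t5_D_j9440 t5_L_j9440 τ + (Set.Ioi (8 : ℝ)).indicator t5_g_j9440 τ) := D1.add G1
  refine (integral_mono_of_nonneg ?_ hint (Filter.Eventually.of_forall key)).trans ?_
  · refine Filter.Eventually.of_forall fun τ => ?_
    refine Set.indicator_nonneg (fun t ht => ?_) τ
    have hpos := (env_le t (Set.mem_Ioi.1 ht).le).1
    have hp2 : 0 ≤ env t ^ (83 / 30 : ℝ) := Real.rpow_nonneg hpos.le _
    positivity
  · rw [integral_add D1 G1, D2]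
    have hsum : (t5_L_j9440.map fun q => q.2.2 * ((q.2.1 ^ 3 - q.1 ^ 3) / 3)).sum ≤ 0.0135 := by
      simp only [t5_L_j9440, List.map_cons, List.map_nil, List.sum_cons, List.sum_nil]
      norm_num
    refine (add_le_add hsum G2).trans ?_
    norm_num



end Pool.Agent.Helper82.GC
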