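import Pool.Agent.Helper82.GC.J9434

set_option autoImplicit false

open MeasureTheory Set

namespace Pool.Agent.Helper82.GC


/-- `f` is dominated on `(a, ∞)` by an integrable function with integral at most `s` -/
def t6_Dm_j9441 (f : ℝ → ℝ) (a s : ℝ) : Prop :=
  ∃ g : ℝ → ℝ, IntegrableOn g (Set.Ioi a) ∧ (∀ τ, a < τ → f τ ≤ g τ) ∧
    ∫ τ in Set.Ioi a, g τ ≤ s

theorem t6_step_j9441 (f : ℝ → ℝ) (a b C s t : ℝ) (hab : a ≤ b) (hC : ∀ τ, a < τ → τ ≤ b → f τ ≤ C)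
    (hs : t6_Dm_j9441 f b s) (ht : s + C * (b - a) ≤ t) : t6_Dm_j9441 f a t := by
  obtain ⟨g, hg1, hg2, hg3⟩ := hs
  have e1 : ∀ τ ∈ Set.Ioc a b, (if τ ≤ b then C else g τ) = C := fun τ hτ => if_pos hτ.2
  have e2 : ∀ τ ∈ Set.Ioi b, (if τ ≤ b then C else g τ) = g τ := fun τ hτ =>
    if_neg (not_le.2 hτ)
  have i1 : IntegrableOn (fun τ => if τ ≤ b then C else g τ) (Set.Ioc a b) := by
    rw [integrableOn_congr_fun e1 measurableSet_Ioc]
    exact integrableOn_const (by simp)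
  have i2 : IntegrableOn (fun τ => if τ ≤ b then C else g τ) (Set.Ioi b) := by
    rw [integrableOn_congr_fun e2 measurableSet_Ioi]
    exact hg1
  have hU : Set.Ioi a = Set.Ioc a b ∪ Set.Ioi b := (Set.Ioc_union_Ioi_eq_Ioi hab).symm
  refine ⟨fun τ => if τ ≤ b then C else g τ, ?_, ?_, ?_⟩
  · rw [hU]; exact i1.union i2
  · intro τ hτ
    by_cases h : τ ≤ b
    · simp only [h, if_true]; exact hC τ hτ h
    · simp only [h, if_false]; exact hg2 τ (not_le.1 h)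
  · have hd : Disjoint (Set.Ioc a b) (Set.Ioi b) := by
      rw [Set.disjoint_left]
      intro τ h1 h2
      exact absurd h1.2 (not_le.2 h2)
    rw [hU, setIntegral_union hd measurableSet_Ioi i1 i2,
      setIntegral_congr_fun measurableSet_Ioc e1, setIntegral_congr_fun measurableSet_Ioi e2]
    have e3 : ∫ τ in Set.Ioc a b, C = C * (b - a) := by
      rw [setIntegral_const, smul_eq_mul, Real.volume_real_Ioc_of_le hab, mul_comm]
    rw [e3]
    linarith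

theorem t6_rpow_j9441 {x c : ℝ} (hx : 0 ≤ x) (hc : 0 ≤ c) (h : x ^ 8 ≤ c ^ 3) :
    x ^ (8 / 3 : ℝ) ≤ c := by
  have h1 : (x ^ (8 / 3 : ℝ)) ^ 3 = x ^ 8 := by
    rw [← Real.rpow_natCast, ← Real.rpow_mul hx]
    have : (8 / 3 : ℝ) * ((3 : ℕ) : ℝ) = ((8 : ℕ) : ℝ) := by norm_num
    rw [this, Real.rpow_natCast]
  rw [← h1] at h
  exact (pow_le_pow_iff_left₀ (Real.rpow_nonneg hx _) hc (by norm_num)).1 h

theorem t6_phi_j9441 {y y0 F : ℝ} (h0 : 0 ≤ y0) (hy : y0 ≤ y) (h : phi 1 y0 ≤ F) (h' : 0.1496 ≤ F) :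
    |phi 1 y| ≤ F := by
  have hz := z0_bounds
  rcases lt_or_ge y z0 with h1 | h1
  · have h2 := phi_pos y (h0.trans hy) h1
    rw [abs_of_pos h2]
    have h3 : y ≤ 4.7 := by linarith
    exact (phi_antitone ⟨h0, hy.trans h3⟩ ⟨h0.trans hy, h3⟩ hy).trans h
  · exact (phi_lobe y h1).trans h'

theorem t6_psi_j9441 {y y0 P : ℝ} (h0 : 0 ≤ y0) (hy : y0 ≤ y) (h : psi 1 y0 ≤ P) (h' : 0.0201 ≤ P) :
    |psi 1 y| ≤ P := by
  rcases le_or_gt y 4.7 with h1 | h1
  · have h2 := psi_pos y (h0.trans hy) h1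
    rw [abs_of_pos h2]
    have h3 : y ≤ 5.9 := by linarith
    exact (psi_antitone ⟨h0, hy.trans h3⟩ ⟨h0.trans hy, h3⟩ hy).trans h
  · exact (psi_late y (by linarith)).trans h'

theorem t6_exp_j9441 {a E : ℝ} (ha : 0 ≤ a) (hE : 0 < E)
    (h : 1 / E ≤ ∑ i ∈ Finset.range 12, (0.14556 * a ^ 2) ^ i / (i.factorial : ℝ)) (τ : ℝ)
    (hτ : a ≤ τ) : Real.exp (-(vr 1) * τ ^ 2 / 2) ≤ E := by
  have hv := vr_one_bounds
  have h1 : a ^ 2 ≤ τ ^ 2 := by gcongr
  have h2 : -(vr 1) * τ ^ 2 / 2 ≤ -(0.14556 * a ^ 2) := by nlinarith [sq_nonneg a]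
  refine (Real.exp_le_exp.2 h2).trans ?_
  have h3 := h.trans (Real.sum_le_exp_of_nonneg (x := 0.14556 * a ^ 2) (by positivity) 12)
  rw [Real.exp_neg]
  rw [one_div] at h3
  exact inv_le_of_inv_le₀ hE h3

theorem t6_env1_j9441 {a E : ℝ} (ha : 0 ≤ a) (hE : 0.1496 ≤ E)
    (h : 1 / E ≤ ∑ i ∈ Finset.range 12, (0.14556 * a ^ 2) ^ i / (i.factorial : ℝ)) (τ : ℝ)
    (hτ : a ≤ τ) (hτ5 : τ ≤ 5) : env τ ≤ E := by
  unfold env
  rw [if_pos hτ5]
  exact max_le hE (t6_exp_j9441 ha (by linarith) h τ hτ)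

theorem t6_env2_j9441 {a E : ℝ} (ha : 5 ≤ a) (hE : 0.73 / a ≤ E) (τ : ℝ) (hτ : a < τ) : env τ ≤ E := by
  unfold env
  rw [if_neg (by linarith)]
  have : 0.73 / τ ≤ 0.73 / a := by
    apply div_le_div_of_nonneg_left (by norm_num) (by linarith) hτ.le
  linarith

theorem t6_cell_j9441 {β τ c P1 F1 P2 F2 E e : ℝ} (hτ : z0 ≤ τ) (hc : τ ≤ c)
    (h1 : |psi 1 τ| ≤ P1) (h2 : |phi 1 (Real.sqrt β * τ)| ≤ F1)
    (h3 : |psi 1 (Real.sqrt β * τ)| ≤ P2) (h4 : |phi 1 τ| ≤ F2) (h5 : env τ ≤ E)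
    (he0 : 0 ≤ e) (he : E ^ 8 ≤ e ^ 3) :
    τ ^ 2 * (|psi 1 τ * phi 1 (Real.sqrt β * τ)| + |psi 1 (Real.sqrt β * τ) * phi 1 τ|) *
      env τ ^ (8 / 3 : ℝ) ≤ c ^ 2 * (P1 * F1 + P2 * F2) * e := by
  have hz := z0_bounds
  have hτ0 : 0 ≤ τ := by linarith
  have he1 := env_le τ hτ
  have h6 : env τ ^ (8 / 3 : ℝ) ≤ e := by
    apply t6_rpow_j9441 he1.1.le he0
    refine le_trans ?_ he
    have := he1.1.le
    gcongr
  have h7 : |psi 1 τ * phi 1 (Real.sqrt β * τ)| ≤ P1 * F1 := by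
    rw [abs_mul]
    exact mul_le_mul h1 h2 (abs_nonneg _) ((abs_nonneg _).trans h1)
  have h8 : |psi 1 (Real.sqrt β * τ) * phi 1 τ| ≤ P2 * F2 := by
    rw [abs_mul]
    exact mul_le_mul h3 h4 (abs_nonneg _) ((abs_nonneg _).trans h3)
  have h9 : 0 ≤ env τ ^ (8 / 3 : ℝ) := Real.rpow_nonneg he1.1.le _
  have h10 : 0 ≤ |psi 1 τ * phi 1 (Real.sqrt β * τ)| + |psi 1 (Real.sqrt β * τ) * phi 1 τ| := by
    positivity
  have h11 : 0 ≤ P1 * F1 + P2 * F2 := by linarith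
  gcongr

theorem t6_psi0_j9441 : psi 1 3.4947 ≤ 0.0703 := by
  have h1 : ‖psi 1 3.4947 - psi 1 3.5‖ ≤ 0.08 * ‖(3.4947 : ℝ) - 3.5‖ := by
    refine (convex_Icc (3.4947 : ℝ) 3.5).norm_image_sub_le_of_norm_hasDerivWithin_le
      (f' := fun z => -(z * chi z)) (fun z _ => (psi_deriv z).hasDerivWithinAt) (fun z hz => ?_)
      ⟨by norm_num, le_rfl⟩ ⟨le_rfl, by norm_num⟩
    have hz0 : 0 < z := by have := hz.1; linarith
    rw [norm_neg, Real.norm_eq_abs, abs_mul, abs_of_pos hz0]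
    have h2 := chi_decay z (by have := hz.1; linarith)
    calc z * |chi z| ≤ z * (0.975 / z ^ 3) := by gcongr
      _ = 0.975 / z ^ 2 := by field_simp
      _ ≤ 0.08 := by
        rw [div_le_iff₀ (by positivity)]
        have : (3.4947 : ℝ) ^ 2 ≤ z ^ 2 := by have := hz.1; gcongr
        nlinarith
  have h2 := (le_abs_self _).trans h1
  have h3 := psi_tab_14.2
  rw [Real.norm_eq_abs] at h2
  have h4 : |(3.4947 : ℝ) - 3.5| = 0.0053 := by rw [abs_of_neg] <;> norm_num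
  rw [h4] at h2
  linarith

theorem t6_tail_j9441 (β : ℝ) (h0 : 0.4 ≤ β) :
    t6_Dm_j9441 (fun τ => τ ^ 2 * (|psi 1 τ * phi 1 (Real.sqrt β * τ)| +
      |psi 1 (Real.sqrt β * τ) * phi 1 τ|) * env τ ^ (8 / 3 : ℝ)) 8
      (0.75 * 0.1441 * 0.4321 * (3 / 160) + 0.75 * 0.73 / 0.4 * 0.4321 * (3 / 2048)) := by
  have hsb : (0.6324 : ℝ) ≤ Real.sqrt β := Real.le_sqrt_of_sq_le (by norm_num; linarith)
  have i1 : IntegrableOn (fun τ : ℝ => τ ^ (-(8 / 3) : ℝ)) (Set.Ioi 8) :=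
    integrableOn_Ioi_rpow_of_lt (by norm_num) (by norm_num)
  have i2 : IntegrableOn (fun τ : ℝ => τ ^ (-(11 / 3) : ℝ)) (Set.Ioi 8) :=
    integrableOn_Ioi_rpow_of_lt (by norm_num) (by norm_num)
  refine ⟨fun τ => (0.75 * 0.1441 * 0.4321) * τ ^ (-(8 / 3) : ℝ) +
    (0.75 * 0.73 / 0.4 * 0.4321) * τ ^ (-(11 / 3) : ℝ), (i1.const_mul _).add (i2.const_mul _),
    ?_, ?_⟩
  · intro τ hτ
    have hτ0 : 0 < τ := by linarith
    have hy : 5.05 ≤ Real.sqrt β * τ := by nlinarith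
    have hy0 : 0 < Real.sqrt β * τ := by linarith
    have a1 := psi_decay τ (by linarith)
    have a2 := phi_lobe5 (Real.sqrt β * τ) (by linarith)
    have a3 : |psi 1 (Real.sqrt β * τ)| ≤ 0.75 / (0.4 * τ ^ 2) := by
      refine (psi_decay (Real.sqrt β * τ) (by linarith)).trans ?_
      have : (Real.sqrt β * τ) ^ 2 = β * τ ^ 2 := by
        rw [mul_pow, Real.sq_sqrt (by linarith)]
      rw [this]
      gcongr
    have a4 := phi_decN τ (by linarith)
    have henv : env τ = 0.73 / τ := by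
      unfold env; rw [if_neg (by linarith)]
    have a5 : env τ ^ (8 / 3 : ℝ) ≤ 0.4321 * τ ^ (-(8 / 3) : ℝ) := by
      rw [henv, Real.div_rpow (by norm_num) hτ0.le, Real.rpow_neg hτ0.le, div_eq_mul_inv]
      have := Real.rpow_nonneg hτ0.le (8 / 3 : ℝ)
      have h6 : (0.73 : ℝ) ^ (8 / 3 : ℝ) ≤ 0.4321 :=
        t6_rpow_j9441 (by norm_num) (by norm_num) (by norm_num)
      gcongr
    have a6 : 0 ≤ env τ ^ (8 / 3 : ℝ) := by
      rw [henv]; positivity
    have a7 : τ ^ 2 * (|psi 1 τ * phi 1 (Real.sqrt β * τ)| +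
        |psi 1 (Real.sqrt β * τ) * phi 1 τ|) ≤ 0.75 * 0.1441 + 0.75 * 0.73 / 0.4 * τ⁻¹ := by
      rw [abs_mul, abs_mul]
      calc τ ^ 2 * (|psi 1 τ| * |phi 1 (Real.sqrt β * τ)| + |psi 1 (Real.sqrt β * τ)| * |phi 1 τ|)
          ≤ τ ^ 2 * (0.75 / τ ^ 2 * 0.1441 + 0.75 / (0.4 * τ ^ 2) * (0.73 / τ)) := by gcongr
        _ = 0.75 * 0.1441 + 0.75 * 0.73 / 0.4 * τ⁻¹ := by field_simp
    have a8 : τ ^ (-(11 / 3) : ℝ) = τ⁻¹ * τ ^ (-(8 / 3) : ℝ) := by
      rw [← Real.rpow_neg_one τ, ← Real.rpow_add hτ0]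
      norm_num
    beta_reduce
    rw [a8]
    have a9 : 0 ≤ τ ^ (-(8 / 3) : ℝ) := Real.rpow_nonneg hτ0.le _
    have a10 : 0 ≤ τ⁻¹ := by positivity
    calc _ ≤ (0.75 * 0.1441 + 0.75 * 0.73 / 0.4 * τ⁻¹) * (0.4321 * τ ^ (-(8 / 3) : ℝ)) := by
          gcongr
      _ = _ := by ring
  · rw [integral_add (i1.const_mul _) (i2.const_mul _), integral_const_mul, integral_const_mul,
      integral_Ioi_rpow_of_lt (by norm_num) (by norm_num),
      integral_Ioi_rpow_of_lt (by norm_num) (by norm_num)]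
    have e1 : (8 : ℝ) ^ (-(8 / 3) + 1 : ℝ) = 1 / 32 := by
      have : (8 : ℝ) = 2 ^ (3 : ℝ) := by norm_num
      rw [this, ← Real.rpow_mul (by norm_num)]
      have : (3 : ℝ) * (-(2 ^ (3 : ℝ) / 3) + 1) = -(5 : ℕ) := by norm_num
      rw [this, Real.rpow_neg (by norm_num), Real.rpow_natCast]
      norm_num
    have e2 : (8 : ℝ) ^ (-(11 / 3) + 1 : ℝ) = 1 / 256 := by
      have : (8 : ℝ) = 2 ^ (3 : ℝ) := by norm_num
      rw [this, ← Real.rpow_mul (by norm_num)]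
      have : (3 : ℝ) * (-(11 / 3) + 1) = -(8 : ℕ) := by norm_num
      rw [this, Real.rpow_neg (by norm_num), Real.rpow_natCast]
      norm_num
    rw [e1, e2]
    norm_num

theorem t6_hy_j9441 {s a c τ : ℝ} (hs : (0.6324 : ℝ) ≤ s) (ha : 0 ≤ a) (hτ : a ≤ τ)
    (h : c ≤ 0.6324 * a) : c ≤ s * τ :=
  h.trans (mul_le_mul hs hτ ha (le_trans (by norm_num) hs))

theorem t6_env_a_j9441 (τ : ℝ) (h : 3.75 ≤ τ) (h5 : τ ≤ 5) : env τ ≤ 0.1496 :=
  t6_env1_j9441 (a := 3.75) (E := 0.1496) (by norm_num) le_rfl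
    (by norm_num [Finset.sum_range_succ, Nat.factorial]) τ h h5

theorem t6_env_b_j9441 (τ : ℝ) (h : 3.4947 ≤ τ) (h5 : τ ≤ 5) : env τ ≤ 0.1691 :=
  t6_env1_j9441 (a := 3.4947) (E := 0.1691) (by norm_num) (by norm_num)
    (by norm_num [Finset.sum_range_succ, Nat.factorial]) τ h h5

theorem tail_6 (β : ℝ) (h0 : 0.4 ≤ β) (h1 : β ≤ 0.5) :
    ∫ τ in Set.Ioi z0, τ ^ 2 * (|psi 1 τ * phi 1 (Real.sqrt β * τ)| +
      |psi 1 (Real.sqrt β * τ) * phi 1 τ|) * env τ ^ (8 / 3 : ℝ) ≤ 0.013924 := by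
  have hz := z0_bounds
  have hsb : (0.6324 : ℝ) ≤ Real.sqrt β := Real.le_sqrt_of_sq_le (by norm_num; linarith)
  have key : t6_Dm_j9441 (fun τ => τ ^ 2 * (|psi 1 τ * phi 1 (Real.sqrt β * τ)| +
      |psi 1 (Real.sqrt β * τ) * phi 1 τ|) * env τ ^ (8 / 3 : ℝ)) z0 0.013924 := by
    refine t6_step_j9441 _ z0 3.75 (3.75 ^ 2 * (0.0703 * 0.517847 + 0.195558 * 0.1496) * 0.008745)
      (0.011823) _ (by linarith) (fun τ ha hc => ?_) ?_ (by nlinarith)
    · have hy : 2 ≤ Real.sqrt β * τ := t6_hy_j9441 (a := 3.4947) hsb (by norm_num) (hz.1.le.trans ha.le) (by norm_num)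
      exact t6_cell_j9441 ha.le hc (t6_psi_j9441 (y0 := 3.4947) (by norm_num) (by linarith) t6_psi0_j9441 (by norm_num))
        (t6_phi_j9441 (y0 := 2) (by norm_num) hy phi_tab_8.2.le (by norm_num))
        (t6_psi_j9441 (y0 := 2) (by norm_num) hy psi_tab_8.2.le (by norm_num))
        (phi_lobe τ ha.le)
        (t6_env_b_j9441 τ (hz.1.le.trans ha.le) (hc.trans (by norm_num)))
        (by norm_num) (by norm_num)
    refine t6_step_j9441 _ 3.75 4 (4 ^ 2 * (0.051865 * 0.419627 + 0.174491 * 0.1496) * 0.006308)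
      (0.010614) _ (by norm_num) (fun τ ha hc => ?_) ?_ (by norm_num)
    · have hy : 2.25 ≤ Real.sqrt β * τ := t6_hy_j9441 hsb (by norm_num) ha.le (by norm_num)
      have hz' : z0 ≤ τ := hz.2.le.trans (le_trans (by norm_num) ha.le)
      exact t6_cell_j9441 hz' hc (t6_psi_j9441 (y0 := 3.75) (by norm_num) ha.le psi_tab_15.2.le (by norm_num))
        (t6_phi_j9441 (y0 := 2.25) (by norm_num) hy phi_tab_9.2.le (by norm_num))
        (t6_psi_j9441 (y0 := 2.25) (by norm_num) hy psi_tab_9.2.le (by norm_num))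
        (phi_lobe τ hz')
        (t6_env_a_j9441 τ (le_trans (by norm_num) ha.le) (hc.trans (by norm_num)))
        (by norm_num) (by norm_num)
    refine t6_step_j9441 _ 4 4.5 (4.5 ^ 2 * (0.035743 * 0.322545 + 0.152848 * 0.1496) * 0.006308)
      (0.008416) _ (by norm_num) (fun τ ha hc => ?_) ?_ (by norm_num)
    · have hy : 2.5 ≤ Real.sqrt β * τ := t6_hy_j9441 hsb (by norm_num) ha.le (by norm_num)
      have hz' : z0 ≤ τ := hz.2.le.trans (le_trans (by norm_num) ha.le)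
      exact t6_cell_j9441 hz' hc (t6_psi_j9441 (y0 := 4) (by norm_num) ha.le psi_tab_16.2.le (by norm_num))
        (t6_phi_j9441 (y0 := 2.5) (by norm_num) hy phi_tab_10.2.le (by norm_num))
        (t6_psi_j9441 (y0 := 2.5) (by norm_num) hy psi_tab_10.2.le (by norm_num))
        (phi_lobe τ hz')
        (t6_env_a_j9441 τ (le_trans (by norm_num) ha.le) (hc.trans (by norm_num)))
        (by norm_num) (by norm_num)
    refine t6_step_j9441 _ 4.5 5 (5 ^ 2 * (0.0201 * 0.229492 + 0.131111 * 0.1496) * 0.006308)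
      (0.006504) _ (by norm_num) (fun τ ha hc => ?_) ?_ (by norm_num)
    · have hy : 2.75 ≤ Real.sqrt β * τ := t6_hy_j9441 hsb (by norm_num) ha.le (by norm_num)
      have hz' : z0 ≤ τ := hz.2.le.trans (le_trans (by norm_num) ha.le)
      exact t6_cell_j9441 hz' hc (psi_late τ ha.le)
        (t6_phi_j9441 (y0 := 2.75) (by norm_num) hy phi_tab_11.2.le (by norm_num))
        (t6_psi_j9441 (y0 := 2.75) (by norm_num) hy psi_tab_11.2.le (by norm_num))
        (phi_lobe τ hz')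
        (t6_env_a_j9441 τ (le_trans (by norm_num) ha.le) (hc.trans (by norm_num)))
        (by norm_num) (by norm_num)
    refine t6_step_j9441 _ 5 5.5 (5.5 ^ 2 * (0.0201 * 0.1496 + 0.109739 * 0.1441) * 0.005911)
      (0.00482) _ (by norm_num) (fun τ ha hc => ?_) ?_ (by norm_num)
    · have hy : 3 ≤ Real.sqrt β * τ := t6_hy_j9441 hsb (by norm_num) ha.le (by norm_num)
      have hz' : z0 ≤ τ := hz.2.le.trans (le_trans (by norm_num) ha.le)
      exact t6_cell_j9441 hz' hc (psi_late τ (by linarith))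
        (t6_phi_j9441 (y0 := 3) (by norm_num) hy (phi_tab_12.2.le.trans (by norm_num)) (by norm_num))
        (t6_psi_j9441 (y0 := 3) (by norm_num) hy psi_tab_12.2.le (by norm_num))
        (phi_lobe5 τ ha.le)
        (t6_env2_j9441 (a := 5) (E := 0.146) (by norm_num) (by norm_num) τ ha)
        (by norm_num) (by norm_num)
    refine t6_step_j9441 _ 5.5 6 (6 ^ 2 * (0.0201 * 0.1496 + 0.089161 * 0.1086) * 0.004585)
      (0.003772) _ (by norm_num) (fun τ ha hc => ?_) ?_ (by norm_num)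
    · have hy : 3.25 ≤ Real.sqrt β * τ := t6_hy_j9441 hsb (by norm_num) ha.le (by norm_num)
      have hz' : z0 ≤ τ := hz.2.le.trans (le_trans (by norm_num) ha.le)
      exact t6_cell_j9441 hz' hc (psi_late τ (by linarith))
        (t6_phi_j9441 (y0 := 3) (by norm_num) (by linarith) (phi_tab_12.2.le.trans (by norm_num))
          (by norm_num))
        (t6_psi_j9441 (y0 := 3.25) (by norm_num) hy psi_tab_13.2.le (by norm_num))
        (phi_lobe55 τ ha.le)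
        (t6_env2_j9441 (a := 5.5) (E := 0.73 / 5.5) (by norm_num) (by norm_num) τ ha)
        (by norm_num) (by norm_num)
    refine t6_step_j9441 _ 6 7 (7 ^ 2 * (0.0201 * 0.1496 + 0.051865 * 0.0903) * 0.003636)
      (0.0024) _ (by norm_num) (fun τ ha hc => ?_) ?_ (by norm_num)
    · have hy : 3.75 ≤ Real.sqrt β * τ := t6_hy_j9441 hsb (by norm_num) ha.le (by norm_num)
      have hz' : z0 ≤ τ := hz.2.le.trans (le_trans (by norm_num) ha.le)
      exact t6_cell_j9441 hz' hc (psi_late τ (by linarith))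
        (t6_phi_j9441 (y0 := 3) (by norm_num) (by linarith) (phi_tab_12.2.le.trans (by norm_num))
          (by norm_num))
        (t6_psi_j9441 (y0 := 3.75) (by norm_num) hy psi_tab_15.2.le (by norm_num))
        (phi_lobe575 τ (by linarith))
        (t6_env2_j9441 (a := 6) (E := 0.73 / 6) (by norm_num) (by norm_num) τ ha)
        (by norm_num) (by norm_num)
    refine t6_step_j9441 _ 7 8 (8 ^ 2 * (0.75 / 49 * 0.1496 + 0.02159 * 0.0903) * 0.002411)
      _ _ (by norm_num) (fun τ ha hc => ?_) (t6_tail_j9441 β h0) (by norm_num)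
    have hy : 4.25 ≤ Real.sqrt β * τ := t6_hy_j9441 hsb (by norm_num) ha.le (by norm_num)
    have hz' : z0 ≤ τ := hz.2.le.trans (le_trans (by norm_num) ha.le)
    have hpsi : |psi 1 τ| ≤ 0.75 / 49 := by
      refine (psi_decay τ (by linarith)).trans ?_
      have : (49 : ℝ) ≤ τ ^ 2 := by nlinarith
      gcongr
    exact t6_cell_j9441 hz' hc hpsi
        (t6_phi_j9441 (y0 := 3) (by norm_num) (by linarith) (phi_tab_12.2.le.trans (by norm_num))
          (by norm_num))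
        (t6_psi_j9441 (y0 := 4.25) (by norm_num) hy (psi_tab_17.2.le.trans (by norm_num)) (by norm_num))
        (phi_lobe575 τ (by linarith))
        (t6_env2_j9441 (a := 7) (E := 0.73 / 7) (by norm_num) (by norm_num) τ ha)
        (by norm_num) (by norm_num)
  obtain ⟨g, hg1, hg2, hg3⟩ := key
  refine le_trans (integral_mono_of_nonneg ?_ hg1 ?_) hg3
  · rw [Filter.EventuallyLE, ae_restrict_iff' measurableSet_Ioi]
    refine Filter.Eventually.of_forall fun τ hτ => ?_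
    have := (env_le τ (le_of_lt hτ)).1
    show (0 : ℝ) ≤ _
    positivity
  · rw [Filter.EventuallyLE, ae_restrict_iff' measurableSet_Ioi]
    exact Filter.Eventually.of_forall fun τ hτ => hg2 τ hτ



end Pool.Agent.Helper82.GC
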