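import Pool.Agent.Helper82.GC.J9429
import Pool.Agent.Helper82.GC.J9434

set_option autoImplicit false

open MeasureTheory Set

namespace Pool.Agent.Helper82.GC


theorem t7_rp_j9446 {E EN : ℝ} (hE : 0 ≤ E) (hEN : 0 ≤ EN) (h : E ^ 157 ≤ EN ^ 60) :
    E ^ (157 / 60 : ℝ) ≤ EN := by
  have h1 : (E ^ (157 / 60 : ℝ)) ^ 60 = E ^ 157 := by
    rw [← Real.rpow_natCast, ← Real.rpow_mul hE, ← Real.rpow_natCast]
    norm_num
  rw [← h1] at h
  exact (pow_le_pow_iff_left₀ (by positivity) hEN (by norm_num)).1 h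

theorem t7_cell_j9446 {s τ c P Φb Ψb Φ E EN : ℝ} (hτ0 : 0 ≤ τ) (hτc : τ ≤ c) (h1 : |psi 1 τ| ≤ P)
    (h2 : |phi 1 (s * τ)| ≤ Φb) (h3 : |psi 1 (s * τ)| ≤ Ψb) (h4 : |phi 1 τ| ≤ Φ)
    (he0 : 0 < env τ) (he : env τ ≤ E) (hEN : E ^ (157 / 60 : ℝ) ≤ EN) :
    τ ^ 2 * (|psi 1 τ * phi 1 (s * τ)| + |psi 1 (s * τ) * phi 1 τ|) * env τ ^ (157 / 60 : ℝ) ≤
      c ^ 2 * (P * Φb + Ψb * Φ) * EN := by
  have hP : 0 ≤ P := (abs_nonneg _).trans h1
  have hΦb : 0 ≤ Φb := (abs_nonneg _).trans h2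
  have hΨb : 0 ≤ Ψb := (abs_nonneg _).trans h3
  have hΦ : 0 ≤ Φ := (abs_nonneg _).trans h4
  have h5 : env τ ^ (157 / 60 : ℝ) ≤ EN :=
    (Real.rpow_le_rpow he0.le he (by norm_num)).trans hEN
  have h6 : |psi 1 τ * phi 1 (s * τ)| ≤ P * Φb := by
    rw [abs_mul]
    exact mul_le_mul h1 h2 (abs_nonneg _) hP
  have h7 : |psi 1 (s * τ) * phi 1 τ| ≤ Ψb * Φ := by
    rw [abs_mul]
    exact mul_le_mul h3 h4 (abs_nonneg _) hΨb
  have h8 : τ ^ 2 ≤ c ^ 2 := pow_le_pow_left₀ hτ0 hτc 2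
  have h9 : 0 ≤ env τ ^ (157 / 60 : ℝ) := Real.rpow_nonneg he0.le _
  have h10 : |psi 1 τ * phi 1 (s * τ)| + |psi 1 (s * τ) * phi 1 τ| ≤ P * Φb + Ψb * Φ :=
    add_le_add h6 h7
  have h11 : 0 ≤ |psi 1 τ * phi 1 (s * τ)| + |psi 1 (s * τ) * phi 1 τ| := by positivity
  apply mul_le_mul _ h5 h9 (by positivity)
  exact mul_le_mul h8 h10 h11 (by positivity)

theorem t7_psi_j9446 {x z : ℝ} (h0 : 0 ≤ x) (hxz : x ≤ z) (hz : z ≤ 4.7) : |psi 1 z| ≤ psi 1 x := by
  rw [abs_of_pos (psi_pos z (h0.trans hxz) hz)]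
  exact psi_antitone ⟨h0, by linarith⟩ ⟨h0.trans hxz, by linarith⟩ hxz

theorem t7_phi_j9446 {x z : ℝ} (h0 : 0 ≤ x) (hxz : x ≤ z) (hz : z < z0) : |phi 1 z| ≤ phi 1 x := by
  have hz0 := z0_bounds.2
  rw [abs_of_pos (phi_pos z (h0.trans hxz) hz)]
  exact phi_antitone ⟨h0, by linarith⟩ ⟨h0.trans hxz, by linarith⟩ hxz

theorem t7_env_le5_j9446 {τ a E : ℝ} (ha : 0 ≤ a) (haτ : a ≤ τ) (h5 : τ ≤ 5) (hE : 0.1496 ≤ E)
    (n : ℕ) (q : ℝ) (hq0 : 0 ≤ q) (hq : q ≤ 0.29112 * a ^ 2 / 2)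
    (h : 1 ≤ E * ∑ i ∈ Finset.range n, q ^ i / (Nat.factorial i)) : env τ ≤ E := by
  have hE0 : 0 < E := by linarith
  unfold env
  rw [if_pos h5]
  apply max_le hE
  have h1 := vr_one_bounds.1
  have h2 : a ^ 2 ≤ τ ^ 2 := pow_le_pow_left₀ ha haτ 2
  have h3 : q ≤ vr 1 * τ ^ 2 / 2 := by nlinarith [sq_nonneg a]
  have h4 : Real.exp (-(vr 1) * τ ^ 2 / 2) ≤ Real.exp (-q) := by
    apply Real.exp_le_exp.2
    linarith
  refine h4.trans ?_
  have h5' := Real.sum_le_exp_of_nonneg hq0 n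
  have h6 : Real.exp (-q) * Real.exp q = 1 := by
    rw [← Real.exp_add]
    simp
  have h7 : 1 ≤ E * Real.exp q := h.trans (mul_le_mul_of_nonneg_left h5' hE0.le)
  have h8 := Real.exp_pos q
  have h9 : Real.exp (-q) * Real.exp q ≤ E * Real.exp q := by rw [h6]; exact h7
  exact le_of_mul_le_mul_right h9 h8

theorem t7_env_gt5_j9446 {τ a E : ℝ} (h5 : 5 < τ) (ha : 0 < a) (haτ : a ≤ τ) (hE : 0.73 / a ≤ E) :
    env τ ≤ E := by
  unfold env
  rw [if_neg (not_le.2 h5)]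
  refine le_trans ?_ hE
  exact div_le_div_of_nonneg_left (by norm_num) ha haτ

theorem t7_psi35_j9446 : psi 1 3.4947 ≤ 0.0703 := by
  obtain ⟨c, hc, hc2⟩ := exists_hasDerivAt_eq_slope (psi 1) (fun z => -(z * chi z))
    (by norm_num : (3.4947 : ℝ) < 3.5) psi_continuous.continuousOn (fun x _ => psi_deriv x)
  have h1 := chi_decay c (by linarith [hc.1])
  have hc0 : 0 < c := by linarith [hc.1]
  have h2 : c * chi c ≤ 0.975 / c ^ 2 := by
    have h3 : chi c ≤ 0.975 / c ^ 3 := (le_abs_self _).trans h1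
    calc c * chi c ≤ c * (0.975 / c ^ 3) := mul_le_mul_of_nonneg_left h3 hc0.le
      _ = 0.975 / c ^ 2 := by field_simp
  have h4 : 0.975 / c ^ 2 ≤ 0.08 := by
    rw [div_le_iff₀ (by positivity)]
    nlinarith [hc.1]
  have h5 := psi_tab_14.2
  rw [eq_div_iff (by norm_num)] at hc2
  have h6 : psi 1 3.4947 = psi 1 3.5 + c * chi c * (3.5 - 3.4947) := by linarith
  rw [h6]
  nlinarith

theorem t7_lo_j9446 {s τ a x : ℝ} (hs : 0.7071 ≤ s) (hτ : a ≤ τ) (ha : 0 ≤ a) (h : x ≤ 0.7071 * a) :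
    x ≤ s * τ :=
  h.trans (mul_le_mul hs hτ ha (le_trans (by norm_num) hs))

theorem t7_hi_j9446 {s τ b y : ℝ} (hs : s ≤ 0.7417) (hτ0 : 0 ≤ τ) (hτ : τ ≤ b) (h : 0.7417 * b ≤ y) :
    s * τ ≤ y :=
  (mul_le_mul hs hτ hτ0 (by norm_num)).trans h

/-- step function -/
noncomputable def t7_st_j9446 (a c v : ℝ) : ℝ → ℝ := (Set.Ioc a c).indicator (fun _ => v)

theorem t7_st_nonneg_j9446 {a c v : ℝ} (hv : 0 ≤ v) (x : ℝ) : 0 ≤ t7_st_j9446 a c v x :=
  Set.indicator_nonneg (fun _ _ => hv) x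

theorem t7_st_eq_j9446 {a c v x : ℝ} (h1 : a < x) (h2 : x ≤ c) : t7_st_j9446 a c v x = v :=
  Set.indicator_of_mem (show x ∈ Set.Ioc a c from ⟨h1, h2⟩) _

theorem t7_st_int_j9446 (a c v : ℝ) : Integrable (t7_st_j9446 a c v) := by
  unfold t7_st_j9446
  rw [integrable_indicator_iff measurableSet_Ioc]
  exact integrableOn_const (by simp)

theorem t7_st_val_j9446 {a c v : ℝ} (h : a ≤ c) : ∫ x, t7_st_j9446 a c v x = v * (c - a) := by
  unfold t7_st_j9446
  rw [integral_indicator measurableSet_Ioc, setIntegral_const, smul_eq_mul, measureReal_def,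
    Real.volume_Ioc, ENNReal.toReal_ofReal (by linarith)]
  ring

/-- the dominating function beyond `8` -/
noncomputable def t7_pw_j9446 : ℝ → ℝ := (Set.Ioi (8 : ℝ)).indicator (fun τ =>
  0.08145 * (0.73 ^ (157 / 60 : ℝ) * τ ^ (-(157 / 60) : ℝ)) +
    1.095 * (0.73 ^ (157 / 60 : ℝ) * τ ^ (-(157 / 60) - 1 : ℝ)))

theorem t7_pw_nonneg_j9446 (x : ℝ) : 0 ≤ t7_pw_j9446 x := by
  unfold t7_pw_j9446
  apply Set.indicator_nonneg
  intro τ hτ
  have : (0 : ℝ) < τ := lt_trans (by norm_num) hτ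
  positivity

theorem t7_pw_int_j9446 : Integrable t7_pw_j9446 := by
  unfold t7_pw_j9446
  rw [integrable_indicator_iff measurableSet_Ioi]
  have h1 : IntegrableOn (fun τ : ℝ => τ ^ (-(157 / 60) : ℝ)) (Set.Ioi 8) :=
    integrableOn_Ioi_rpow_of_lt (by norm_num) (by norm_num)
  have h2 : IntegrableOn (fun τ : ℝ => τ ^ (-(157 / 60) - 1 : ℝ)) (Set.Ioi 8) :=
    integrableOn_Ioi_rpow_of_lt (by norm_num) (by norm_num)
  exact ((h1.const_mul _).const_mul _).add ((h2.const_mul _).const_mul _)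

theorem t7_pw_val_j9446 : ∫ x, t7_pw_j9446 x ≤ 0.001564 := by
  unfold t7_pw_j9446
  rw [integral_indicator measurableSet_Ioi]
  have h1 : IntegrableOn (fun τ : ℝ => τ ^ (-(157 / 60) : ℝ)) (Set.Ioi 8) :=
    integrableOn_Ioi_rpow_of_lt (by norm_num) (by norm_num)
  have h2 : IntegrableOn (fun τ : ℝ => τ ^ (-(157 / 60) - 1 : ℝ)) (Set.Ioi 8) :=
    integrableOn_Ioi_rpow_of_lt (by norm_num) (by norm_num)
  rw [integral_add ((h1.const_mul _).const_mul _) ((h2.const_mul _).const_mul _),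
    integral_const_mul, integral_const_mul, integral_const_mul, integral_const_mul,
    integral_Ioi_rpow_of_lt (by norm_num) (by norm_num),
    integral_Ioi_rpow_of_lt (by norm_num) (by norm_num)]
  have e1 : (8 : ℝ) ^ (-(157 / 60) + 1 : ℝ) = 8 ^ (-(157 / 60) : ℝ) * 8 :=
    Real.rpow_add_one (by norm_num) _
  have e2 : (-(157 / 60) - 1 + 1 : ℝ) = -(157 / 60) := by ring
  rw [e1, e2]
  have e3 : (0.73 : ℝ) ^ (157 / 60 : ℝ) * 8 ^ (-(157 / 60) : ℝ) = (0.09125 : ℝ) ^ (157 / 60 : ℝ) := by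
    rw [Real.rpow_neg (by norm_num), ← Real.inv_rpow (by norm_num),
      ← Real.mul_rpow (by norm_num) (by norm_num)]
    norm_num
  have h3 : (0.09125 : ℝ) ^ (157 / 60 : ℝ) ≤ 0.001903 :=
    t7_rp_j9446 (by norm_num) (by norm_num) (by norm_num)
  rw [← e3] at h3
  set A := (0.73 : ℝ) ^ (157 / 60 : ℝ) with hA
  set B := (8 : ℝ) ^ (-(157 / 60) : ℝ) with hB
  have e4 : 0.08145 * (A * (-(B * 8) / (-(157 / 60) + 1))) + 1.095 * (A * (-B / -(157 / 60))) =
      (0.08145 * 8 / (97 / 60) + 1.095 / (157 / 60)) * (A * B) := by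
    norm_num
    ring
  rw [e4]
  nlinarith

set_option maxHeartbeats 4000000 in
theorem tail_7 (β : ℝ) (h0 : 0.5 ≤ β) (h1 : β ≤ 0.55) :
    ∫ τ in Set.Ioi z0, τ ^ 2 * (|psi 1 τ * phi 1 (Real.sqrt β * τ)| +
      |psi 1 (Real.sqrt β * τ) * phi 1 τ|) * env τ ^ (157 / 60 : ℝ) ≤ 0.012270 := by
  obtain ⟨s, hs⟩ : ∃ s, s = Real.sqrt β := ⟨_, rfl⟩
  rw [← hs]
  have hs2 : s ^ 2 = β := by
    rw [hs]
    exact Real.sq_sqrt (by linarith)
  have hs0 : 0 ≤ s := by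
    rw [hs]
    exact Real.sqrt_nonneg _
  have hsl : 0.7071 ≤ s := by
    rw [hs]
    exact Real.le_sqrt_of_sq_le (le_trans (by norm_num) h0)
  have hsu : s ≤ 0.7417 := by
    rw [hs]
    exact Real.sqrt_le_iff.2 ⟨by norm_num, h1.trans (by norm_num)⟩
  have hz := z0_bounds
  obtain ⟨v1, hv1⟩ : ∃ v : ℝ, v = 3.75 ^ 2 * (0.0703 * 0.419627 + 0.174491 * 0.1496) * 0.00955 :=
    ⟨_, rfl⟩
  obtain ⟨v2, hv2⟩ : ∃ v : ℝ, v = 4 ^ 2 * (0.051865 * 0.322545 + 0.152848 * 0.1496) * 0.006936 :=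
    ⟨_, rfl⟩
  obtain ⟨v3, hv3⟩ : ∃ v : ℝ, v = 4.5 ^ 2 * (0.035743 * 0.229492 + 0.131111 * 0.1496) * 0.006936 :=
    ⟨_, rfl⟩
  obtain ⟨v4, hv4⟩ : ∃ v : ℝ, v = 5 ^ 2 * (0.0201 * 0.1496 + 0.109739 * 0.1496) * 0.006936 :=
    ⟨_, rfl⟩
  obtain ⟨v5, hv5⟩ : ∃ v : ℝ, v = 5.5 ^ 2 * (0.0201 * 0.1496 + 0.069760 * 0.1441) * 0.006508 :=
    ⟨_, rfl⟩
  obtain ⟨v6, hv6⟩ : ∃ v : ℝ, v = 6 ^ 2 * (0.0201 * 0.1496 + 0.051865 * 0.1086) * 0.005072 :=
    ⟨_, rfl⟩
  obtain ⟨v7, hv7⟩ : ∃ v : ℝ, v = 7 ^ 2 * (0.0201 * 0.1496 + 0.035743 * 0.0903) * 0.00404 :=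
    ⟨_, rfl⟩
  obtain ⟨v8, hv8⟩ : ∃ v : ℝ, v = 8 ^ 2 * (0.015307 * 0.1496 + 0.0201 * 0.0903) * 0.0027 :=
    ⟨_, rfl⟩
  have p1 : 0 ≤ v1 := by rw [hv1]; norm_num
  have p2 : 0 ≤ v2 := by rw [hv2]; norm_num
  have p3 : 0 ≤ v3 := by rw [hv3]; norm_num
  have p4 : 0 ≤ v4 := by rw [hv4]; norm_num
  have p5 : 0 ≤ v5 := by rw [hv5]; norm_num
  have p6 : 0 ≤ v6 := by rw [hv6]; norm_num
  have p7 : 0 ≤ v7 := by rw [hv7]; norm_num
  have p8 : 0 ≤ v8 := by rw [hv8]; norm_num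
  let g : ℝ → ℝ := t7_st_j9446 3.4947 3.75 v1 + t7_st_j9446 3.75 4 v2 + t7_st_j9446 4 4.5 v3 +
    t7_st_j9446 4.5 5 v4 + t7_st_j9446 5 5.5 v5 + t7_st_j9446 5.5 6 v6 + t7_st_j9446 6 7 v7 + t7_st_j9446 7 8 v8 + t7_pw_j9446
  have hgd : ∀ τ, g τ = t7_st_j9446 3.4947 3.75 v1 τ + t7_st_j9446 3.75 4 v2 τ + t7_st_j9446 4 4.5 v3 τ +
    t7_st_j9446 4.5 5 v4 τ + t7_st_j9446 5 5.5 v5 τ + t7_st_j9446 5.5 6 v6 τ + t7_st_j9446 6 7 v7 τ + t7_st_j9446 7 8 v8 τ +
    t7_pw_j9446 τ := fun τ => rfl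
  have i1 := t7_st_int_j9446 3.4947 3.75 v1
  have i2 := t7_st_int_j9446 3.75 4 v2
  have i3 := t7_st_int_j9446 4 4.5 v3
  have i4 := t7_st_int_j9446 4.5 5 v4
  have i5 := t7_st_int_j9446 5 5.5 v5
  have i6 := t7_st_int_j9446 5.5 6 v6
  have i7 := t7_st_int_j9446 6 7 v7
  have i8 := t7_st_int_j9446 7 8 v8
  have i9 := t7_pw_int_j9446
  have hgint : Integrable g :=
    (((((((i1.add i2).add i3).add i4).add i5).add i6).add i7).add i8).add i9
  have hg0 : ∀ τ, 0 ≤ g τ := by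
    intro τ
    have q1 := t7_st_nonneg_j9446 (a := 3.4947) (c := 3.75) p1 τ
    have q2 := t7_st_nonneg_j9446 (a := 3.75) (c := 4) p2 τ
    have q3 := t7_st_nonneg_j9446 (a := 4) (c := 4.5) p3 τ
    have q4 := t7_st_nonneg_j9446 (a := 4.5) (c := 5) p4 τ
    have q5 := t7_st_nonneg_j9446 (a := 5) (c := 5.5) p5 τ
    have q6 := t7_st_nonneg_j9446 (a := 5.5) (c := 6) p6 τ
    have q7 := t7_st_nonneg_j9446 (a := 6) (c := 7) p7 τ
    have q8 := t7_st_nonneg_j9446 (a := 7) (c := 8) p8 τ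
    have q9 := t7_pw_nonneg_j9446 τ
    rw [hgd]
    linarith only [q1, q2, q3, q4, q5, q6, q7, q8, q9]
  have hgval : ∫ τ, g τ ≤ 0.012270 := by
    have e : ∫ τ, g τ = v1 * (3.75 - 3.4947) + v2 * (4 - 3.75) + v3 * (4.5 - 4) + v4 * (5 - 4.5) +
        v5 * (5.5 - 5) + v6 * (6 - 5.5) + v7 * (7 - 6) + v8 * (8 - 7) + ∫ τ, t7_pw_j9446 τ := by
      simp only [g]
      rw [integral_add' (((((((i1.add i2).add i3).add i4).add i5).add i6).add i7).add i8) i9,
        integral_add' ((((((i1.add i2).add i3).add i4).add i5).add i6).add i7) i8,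
        integral_add' (((((i1.add i2).add i3).add i4).add i5).add i6) i7,
        integral_add' ((((i1.add i2).add i3).add i4).add i5) i6,
        integral_add' (((i1.add i2).add i3).add i4) i5,
        integral_add' ((i1.add i2).add i3) i4,
        integral_add' (i1.add i2) i3,
        integral_add' i1 i2,
        t7_st_val_j9446 (by norm_num), t7_st_val_j9446 (by norm_num), t7_st_val_j9446 (by norm_num),
        t7_st_val_j9446 (by norm_num), t7_st_val_j9446 (by norm_num), t7_st_val_j9446 (by norm_num),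
        t7_st_val_j9446 (by norm_num), t7_st_val_j9446 (by norm_num)]
    rw [e, hv1, hv2, hv3, hv4, hv5, hv6, hv7, hv8]
    have := t7_pw_val_j9446
    norm_num only at this ⊢
    linarith only [this]
  have hdom : ∀ τ ∈ Set.Ioi z0, τ ^ 2 * (|psi 1 τ * phi 1 (s * τ)| +
      |psi 1 (s * τ) * phi 1 τ|) * env τ ^ (157 / 60 : ℝ) ≤ g τ := by
    intro τ hτ
    have hτz : z0 < τ := hτ
    have hτ1 : 3.4947 < τ := lt_trans hz.1 hτz
    have hτ0 : 0 ≤ τ := by linarith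
    have he0 := (env_le τ hτz.le).1
    have q1 := t7_st_nonneg_j9446 (a := 3.4947) (c := 3.75) p1 τ
    have q2 := t7_st_nonneg_j9446 (a := 3.75) (c := 4) p2 τ
    have q3 := t7_st_nonneg_j9446 (a := 4) (c := 4.5) p3 τ
    have q4 := t7_st_nonneg_j9446 (a := 4.5) (c := 5) p4 τ
    have q5 := t7_st_nonneg_j9446 (a := 5) (c := 5.5) p5 τ
    have q6 := t7_st_nonneg_j9446 (a := 5.5) (c := 6) p6 τ
    have q7 := t7_st_nonneg_j9446 (a := 6) (c := 7) p7 τ
    have q8 := t7_st_nonneg_j9446 (a := 7) (c := 8) p8 τ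
    have q9 := t7_pw_nonneg_j9446 τ
    have hlow : |phi 1 τ| ≤ 0.1496 := phi_lobe τ hτz.le
    rw [hgd]
    by_cases c1 : τ ≤ 3.75
    · have hst := t7_st_eq_j9446 (v := v1) hτ1 c1
      have ha : |psi 1 τ| ≤ 0.0703 := (t7_psi_j9446 (by norm_num) hτ1.le (by linarith)).trans t7_psi35_j9446
      have hb : |phi 1 (s * τ)| ≤ 0.419627 :=
        (t7_phi_j9446 (x := 2.25) (by norm_num) (t7_lo_j9446 hsl hτ1.le (by norm_num) (by norm_num))
          ((t7_hi_j9446 hsu hτ0 c1 (by norm_num : (0.7417 * 3.75 : ℝ) ≤ 3.4947)).trans_lt hz.1)).trans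
          phi_tab_9.2.le
      have hc : |psi 1 (s * τ)| ≤ 0.174491 :=
        (t7_psi_j9446 (x := 2.25) (by norm_num) (t7_lo_j9446 hsl hτ1.le (by norm_num) (by norm_num))
          (t7_hi_j9446 hsu hτ0 c1 (by norm_num))).trans psi_tab_9.2.le
      have he : env τ ≤ 0.16905 := t7_env_le5_j9446 (a := 3.4947) (by norm_num) hτ1.le (by linarith)
        (by norm_num) 12 1.7777 (by norm_num) (by norm_num)
        (by norm_num [Finset.sum_range_succ, Nat.factorial])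
      have := t7_cell_j9446 hτ0 c1 ha hb hc hlow he0 he
        (t7_rp_j9446 (EN := 0.00955) (by norm_num) (by norm_num) (by norm_num))
      rw [← hv1] at this
      linarith only [this, hst, q1, q2, q3, q4, q5, q6, q7, q8, q9]
    push Not at c1
    by_cases c2 : τ ≤ 4
    · have hst := t7_st_eq_j9446 (v := v2) c1 c2
      have ha : |psi 1 τ| ≤ 0.051865 :=
        (t7_psi_j9446 (x := 3.75) (by norm_num) c1.le (by linarith)).trans psi_tab_15.2.le
      have hb : |phi 1 (s * τ)| ≤ 0.322545 :=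
        (t7_phi_j9446 (x := 2.5) (by norm_num) (t7_lo_j9446 hsl c1.le (by norm_num) (by norm_num))
          ((t7_hi_j9446 hsu hτ0 c2 (by norm_num : (0.7417 * 4 : ℝ) ≤ 3.4947)).trans_lt hz.1)).trans
          phi_tab_10.2.le
      have hc : |psi 1 (s * τ)| ≤ 0.152848 :=
        (t7_psi_j9446 (x := 2.5) (by norm_num) (t7_lo_j9446 hsl c1.le (by norm_num) (by norm_num))
          (t7_hi_j9446 hsu hτ0 c2 (by norm_num))).trans psi_tab_10.2.le
      have he : env τ ≤ 0.1496 := t7_env_le5_j9446 (a := 3.75) (by norm_num) c1.le (by linarith)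
        (by norm_num) 12 2.04 (by norm_num) (by norm_num)
        (by norm_num [Finset.sum_range_succ, Nat.factorial])
      have := t7_cell_j9446 hτ0 c2 ha hb hc hlow he0 he
        (t7_rp_j9446 (EN := 0.006936) (by norm_num) (by norm_num) (by norm_num))
      rw [← hv2] at this
      linarith only [this, hst, q1, q2, q3, q4, q5, q6, q7, q8, q9]
    push Not at c2
    by_cases c3 : τ ≤ 4.5
    · have hst := t7_st_eq_j9446 (v := v3) c2 c3
      have ha : |psi 1 τ| ≤ 0.035743 :=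
        (t7_psi_j9446 (x := 4) (by norm_num) c2.le (by linarith)).trans psi_tab_16.2.le
      have hb : |phi 1 (s * τ)| ≤ 0.229492 :=
        (t7_phi_j9446 (x := 2.75) (by norm_num) (t7_lo_j9446 hsl c2.le (by norm_num) (by norm_num))
          ((t7_hi_j9446 hsu hτ0 c3 (by norm_num : (0.7417 * 4.5 : ℝ) ≤ 3.4947)).trans_lt hz.1)).trans
          phi_tab_11.2.le
      have hc : |psi 1 (s * τ)| ≤ 0.131111 :=
        (t7_psi_j9446 (x := 2.75) (by norm_num) (t7_lo_j9446 hsl c2.le (by norm_num) (by norm_num))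
          (t7_hi_j9446 hsu hτ0 c3 (by norm_num))).trans psi_tab_11.2.le
      have he : env τ ≤ 0.1496 := t7_env_le5_j9446 (a := 3.75) (by norm_num) c1.le (by linarith)
        (by norm_num) 12 2.04 (by norm_num) (by norm_num)
        (by norm_num [Finset.sum_range_succ, Nat.factorial])
      have := t7_cell_j9446 hτ0 c3 ha hb hc hlow he0 he
        (t7_rp_j9446 (EN := 0.006936) (by norm_num) (by norm_num) (by norm_num))
      rw [← hv3] at this
      linarith only [this, hst, q1, q2, q3, q4, q5, q6, q7, q8, q9]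
    push Not at c3
    have ha' : |psi 1 τ| ≤ 0.0201 := psi_late τ c3.le
    have hb' : |phi 1 (s * τ)| ≤ 0.1496 := by
      by_cases hh : s * τ < z0
      · exact (t7_phi_j9446 (x := 3) (by norm_num) (t7_lo_j9446 hsl c3.le (by norm_num) (by norm_num)) hh).trans
          (phi_tab_12.2.le.trans (by norm_num))
      · exact phi_lobe _ (not_lt.1 hh)
    by_cases c4 : τ ≤ 5
    · have hst := t7_st_eq_j9446 (v := v4) c3 c4
      have hc : |psi 1 (s * τ)| ≤ 0.109739 :=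
        (t7_psi_j9446 (x := 3) (by norm_num) (t7_lo_j9446 hsl c3.le (by norm_num) (by norm_num))
          (t7_hi_j9446 hsu hτ0 c4 (by norm_num))).trans psi_tab_12.2.le
      have he : env τ ≤ 0.1496 := t7_env_le5_j9446 (a := 3.75) (by norm_num) c1.le (by linarith)
        (by norm_num) 12 2.04 (by norm_num) (by norm_num)
        (by norm_num [Finset.sum_range_succ, Nat.factorial])
      have := t7_cell_j9446 hτ0 c4 ha' hb' hc hlow he0 he
        (t7_rp_j9446 (EN := 0.006936) (by norm_num) (by norm_num) (by norm_num))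
      rw [← hv4] at this
      linarith only [this, hst, q1, q2, q3, q4, q5, q6, q7, q8, q9]
    push Not at c4
    by_cases c5 : τ ≤ 5.5
    · have hst := t7_st_eq_j9446 (v := v5) c4 c5
      have hc : |psi 1 (s * τ)| ≤ 0.069760 :=
        (t7_psi_j9446 (x := 3.5) (by norm_num) (t7_lo_j9446 hsl c4.le (by norm_num) (by norm_num))
          (t7_hi_j9446 hsu hτ0 c5 (by norm_num))).trans psi_tab_14.2.le
      have hd : |phi 1 τ| ≤ 0.1441 := phi_lobe5 τ c4.le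
      have he : env τ ≤ 0.146 := t7_env_gt5_j9446 (a := 5) c4 (by norm_num) c4.le (by norm_num)
      have := t7_cell_j9446 hτ0 c5 ha' hb' hc hd he0 he
        (t7_rp_j9446 (EN := 0.006508) (by norm_num) (by norm_num) (by norm_num))
      rw [← hv5] at this
      linarith only [this, hst, q1, q2, q3, q4, q5, q6, q7, q8, q9]
    push Not at c5
    by_cases c6 : τ ≤ 6
    · have hst := t7_st_eq_j9446 (v := v6) c5 c6
      have hc : |psi 1 (s * τ)| ≤ 0.051865 :=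
        (t7_psi_j9446 (x := 3.75) (by norm_num) (t7_lo_j9446 hsl c5.le (by norm_num) (by norm_num))
          (t7_hi_j9446 hsu hτ0 c6 (by norm_num))).trans psi_tab_15.2.le
      have hd : |phi 1 τ| ≤ 0.1086 := phi_lobe55 τ c5.le
      have he : env τ ≤ 0.13273 := t7_env_gt5_j9446 (a := 5.5) c4 (by norm_num) c5.le (by norm_num)
      have := t7_cell_j9446 hτ0 c6 ha' hb' hc hd he0 he
        (t7_rp_j9446 (EN := 0.005072) (by norm_num) (by norm_num) (by norm_num))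
      rw [← hv6] at this
      linarith only [this, hst, q1, q2, q3, q4, q5, q6, q7, q8, q9]
    push Not at c6
    have hd : |phi 1 τ| ≤ 0.0903 := phi_lobe575 τ (by linarith)
    by_cases c7 : τ ≤ 7
    · have hst := t7_st_eq_j9446 (v := v7) c6 c7
      have hc : |psi 1 (s * τ)| ≤ 0.035743 := by
        by_cases hh : s * τ ≤ 4.7
        · exact (t7_psi_j9446 (x := 4) (by norm_num) (t7_lo_j9446 hsl c6.le (by norm_num) (by norm_num)) hh).trans psi_tab_16.2.le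
        · exact (psi_late _ (by linarith)).trans (by norm_num)
      have he : env τ ≤ 0.12167 := t7_env_gt5_j9446 (a := 6) c4 (by norm_num) c6.le (by norm_num)
      have := t7_cell_j9446 hτ0 c7 ha' hb' hc hd he0 he
        (t7_rp_j9446 (EN := 0.00404) (by norm_num) (by norm_num) (by norm_num))
      rw [← hv7] at this
      linarith only [this, hst, q1, q2, q3, q4, q5, q6, q7, q8, q9]
    push Not at c7
    have hc8 : |psi 1 (s * τ)| ≤ 0.0201 := psi_late _ (t7_lo_j9446 hsl c7.le (by norm_num) (by norm_num))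
    by_cases c8 : τ ≤ 8
    · have hst := t7_st_eq_j9446 (v := v8) c7 c8
      have ha8 : |psi 1 τ| ≤ 0.015307 := by
        refine (psi_decay τ (by linarith)).trans ?_
        rw [div_le_iff₀ (by positivity)]
        nlinarith only [c7]
      have he : env τ ≤ 0.10429 := t7_env_gt5_j9446 (a := 7) c4 (by norm_num) c7.le (by norm_num)
      have := t7_cell_j9446 hτ0 c8 ha8 hb' hc8 hd he0 he
        (t7_rp_j9446 (EN := 0.0027) (by norm_num) (by norm_num) (by norm_num))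
      rw [← hv8] at this
      linarith only [this, hst, q1, q2, q3, q4, q5, q6, q7, q8, q9]
    push Not at c8
    -- the power part
    have hτp : 0 < τ := by linarith
    have hpw : t7_pw_j9446 τ = 0.08145 * (0.73 ^ (157 / 60 : ℝ) * τ ^ (-(157 / 60) : ℝ)) +
        1.095 * (0.73 ^ (157 / 60 : ℝ) * τ ^ (-(157 / 60) - 1 : ℝ)) :=
      Set.indicator_of_mem (show τ ∈ Set.Ioi (8 : ℝ) from c8) _
    have k1 : |psi 1 τ| ≤ 0.75 / τ ^ 2 := psi_decay τ (by linarith)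
    have k2 : |phi 1 (s * τ)| ≤ 0.1086 := phi_lobe55 _ (t7_lo_j9446 hsl c8.le (by norm_num) (by norm_num))
    have k3 : |psi 1 (s * τ)| ≤ 1.5 / τ ^ 2 := by
      refine (psi_decay _ (t7_lo_j9446 hsl c8.le (by norm_num) (by norm_num))).trans ?_
      rw [mul_pow, hs2, div_le_div_iff₀ (by positivity) (by positivity)]
      nlinarith only [sq_nonneg τ, h0, mul_nonneg (sub_nonneg.2 h0) (sq_nonneg τ)]
    have k4 : |phi 1 τ| ≤ 0.73 / τ := phi_decN τ (by linarith)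
    have k5 : env τ = 0.73 / τ := by
      unfold env
      rw [if_neg (not_le.2 c4)]
    have k6 : τ ^ 2 * (|psi 1 τ * phi 1 (s * τ)| + |psi 1 (s * τ) * phi 1 τ|) ≤
        0.08145 + 1.095 / τ := by
      have m1 : |psi 1 τ * phi 1 (s * τ)| ≤ 0.75 / τ ^ 2 * 0.1086 := by
        rw [abs_mul]
        exact mul_le_mul k1 k2 (abs_nonneg _) (by positivity)
      have m2 : |psi 1 (s * τ) * phi 1 τ| ≤ 1.5 / τ ^ 2 * (0.73 / τ) := by
        rw [abs_mul]
        exact mul_le_mul k3 k4 (abs_nonneg _) (by positivity)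
      calc τ ^ 2 * (|psi 1 τ * phi 1 (s * τ)| + |psi 1 (s * τ) * phi 1 τ|) ≤
          τ ^ 2 * (0.75 / τ ^ 2 * 0.1086 + 1.5 / τ ^ 2 * (0.73 / τ)) :=
            mul_le_mul_of_nonneg_left (add_le_add m1 m2) (by positivity)
        _ = (τ ^ 2 / τ ^ 2) * (0.08145 + 1.095 / τ) := by ring
        _ = 0.08145 + 1.095 / τ := by
            rw [div_self (by positivity), one_mul]
    have k7 : env τ ^ (157 / 60 : ℝ) = 0.73 ^ (157 / 60 : ℝ) * τ ^ (-(157 / 60) : ℝ) := by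
      rw [k5, Real.div_rpow (by norm_num) hτ0, Real.rpow_neg hτ0, div_eq_mul_inv]
    have k8 : τ ^ (-(157 / 60) - 1 : ℝ) = τ ^ (-(157 / 60) : ℝ) / τ :=
      Real.rpow_sub_one hτp.ne' _
    have k9 : τ ^ 2 * (|psi 1 τ * phi 1 (s * τ)| + |psi 1 (s * τ) * phi 1 τ|) *
        env τ ^ (157 / 60 : ℝ) ≤ t7_pw_j9446 τ := by
      rw [hpw, k8, ← k7]
      have m3 : 0 ≤ env τ ^ (157 / 60 : ℝ) := Real.rpow_nonneg he0.le _
      have e9 : (0.73 : ℝ) ^ (157 / 60 : ℝ) * (τ ^ (-(157 / 60) : ℝ) / τ) =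
          env τ ^ (157 / 60 : ℝ) / τ := by
        rw [k7]
        ring
      rw [e9]
      calc _ ≤ (0.08145 + 1.095 / τ) * env τ ^ (157 / 60 : ℝ) :=
            mul_le_mul_of_nonneg_right k6 m3
        _ = _ := by ring
    linarith only [k9, q1, q2, q3, q4, q5, q6, q7, q8]
  have hnn : ∀ τ ∈ Set.Ioi z0, 0 ≤ τ ^ 2 * (|psi 1 τ * phi 1 (s * τ)| +
      |psi 1 (s * τ) * phi 1 τ|) * env τ ^ (157 / 60 : ℝ) := by
    intro τ hτ
    have he0 := (env_le τ (le_of_lt hτ)).1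
    have : 0 ≤ env τ ^ (157 / 60 : ℝ) := Real.rpow_nonneg he0.le _
    positivity
  calc ∫ τ in Set.Ioi z0, τ ^ 2 * (|psi 1 τ * phi 1 (s * τ)| +
      |psi 1 (s * τ) * phi 1 τ|) * env τ ^ (157 / 60 : ℝ) ≤ ∫ τ in Set.Ioi z0, g τ := by
        apply integral_mono_of_nonneg
        · exact (ae_restrict_iff' measurableSet_Ioi).2 (Filter.Eventually.of_forall hnn)
        · exact hgint.integrableOn
        · exact (ae_restrict_iff' measurableSet_Ioi).2 (Filter.Eventually.of_forall hdom)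
    _ ≤ ∫ τ, g τ := setIntegral_le_integral hgint (Filter.Eventually.of_forall hg0)
    _ ≤ 0.012270 := hgval



end Pool.Agent.Helper82.GC
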