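import Pool.Agent.Helper82.GC.J9429
import Pool.Agent.Helper82.GC.J9434

set_option autoImplicit false

open MeasureTheory Set

namespace Pool.Agent.Helper82.GC


/-- the integrand -/
noncomputable def t8f_j9447 (β τ : ℝ) : ℝ :=
  τ ^ 2 * (|psi 1 τ * phi 1 (Real.sqrt β * τ)| +
      |psi 1 (Real.sqrt β * τ) * phi 1 τ|) * env τ ^ (77 / 30 : ℝ)

lemma t8_pow_j9447 {x c : ℝ} (hx : 0 ≤ x) (hc : 0 ≤ c) (h : x ^ 77 ≤ c ^ 30) :
    x ^ (77 / 30 : ℝ) ≤ c := by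
  by_contra hlt
  push Not at hlt
  have h1 : c ^ 30 < (x ^ (77 / 30 : ℝ)) ^ 30 := pow_lt_pow_left₀ hlt hc (by norm_num)
  have h2 : (x ^ (77 / 30 : ℝ)) ^ 30 = x ^ 77 := by
    rw [← Real.rpow_natCast, ← Real.rpow_mul hx, ← Real.rpow_natCast]
    norm_num
  linarith

lemma t8_env_meas_j9447 : Measurable env := by
  unfold env
  refine Measurable.ite measurableSet_Iic ?_ ?_
  · fun_prop
  · fun_prop

lemma t8f_meas_j9447 (β : ℝ) : Measurable (t8f_j9447 β) := by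
  have h1 := phi_contN.measurable
  have h2 := psi_continuous.measurable
  have h3 := t8_env_meas_j9447
  unfold t8f_j9447
  have m1 : Measurable fun τ : ℝ => Real.sqrt β * τ := by fun_prop
  have m2 : Measurable fun τ : ℝ => |psi 1 τ * phi 1 (Real.sqrt β * τ)| :=
    (h2.mul (h1.comp m1)).abs
  have m3 : Measurable fun τ : ℝ => |psi 1 (Real.sqrt β * τ) * phi 1 τ| :=
    ((h2.comp m1).mul h1).abs
  have m4 : Measurable fun τ : ℝ => τ ^ 2 := by fun_prop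
  exact (m4.mul (m2.add m3)).mul (h3.pow_const _)

lemma t8f_nonneg_j9447 (β : ℝ) {τ : ℝ} (hτ : z0 ≤ τ) : 0 ≤ t8f_j9447 β τ := by
  have h := (env_le τ hτ).1
  unfold t8f_j9447
  positivity

lemma t8_bound_j9447 {β τ c P1 F1 P2 F2 e E : ℝ} (hτ : z0 ≤ τ) (hc : τ ≤ c)
    (h1 : |psi 1 τ| ≤ P1) (h2 : |phi 1 (Real.sqrt β * τ)| ≤ F1)
    (h3 : |psi 1 (Real.sqrt β * τ)| ≤ P2) (h4 : |phi 1 τ| ≤ F2) (h5 : env τ ≤ e)
    (hE0 : 0 ≤ E) (hE : e ^ 77 ≤ E ^ 30) :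
    t8f_j9447 β τ ≤ c ^ 2 * (P1 * F1 + P2 * F2) * E := by
  have hz := z0_bounds
  have hτ0 : 0 ≤ τ := by linarith [hz.1]
  have he := (env_le τ hτ).1
  have h6 : env τ ^ (77 / 30 : ℝ) ≤ E :=
    t8_pow_j9447 he.le hE0 ((pow_le_pow_left₀ he.le h5 77).trans hE)
  have e1 : |psi 1 τ * phi 1 (Real.sqrt β * τ)| ≤ P1 * F1 := by
    rw [abs_mul]
    exact mul_le_mul h1 h2 (abs_nonneg _) ((abs_nonneg _).trans h1)
  have e2 : |psi 1 (Real.sqrt β * τ) * phi 1 τ| ≤ P2 * F2 := by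
    rw [abs_mul]
    exact mul_le_mul h3 h4 (abs_nonneg _) ((abs_nonneg _).trans h3)
  have e3 : τ ^ 2 ≤ c ^ 2 := pow_le_pow_left₀ hτ0 hc 2
  unfold t8f_j9447
  apply mul_le_mul _ h6 (Real.rpow_nonneg he.le _)
  · have := (abs_nonneg (psi 1 τ * phi 1 (Real.sqrt β * τ))).trans e1
    have := (abs_nonneg (psi 1 (Real.sqrt β * τ) * phi 1 τ)).trans e2
    positivity
  · exact mul_le_mul e3 (add_le_add e1 e2) (by positivity) (by positivity)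

lemma t8_step_j9447 {β a c P1 F1 P2 F2 e E R : ℝ} (ha : z0 ≤ a) (hac : a ≤ c)
    (hb : ∀ τ ∈ Ioc a c, |psi 1 τ| ≤ P1 ∧ |phi 1 (Real.sqrt β * τ)| ≤ F1 ∧
      |psi 1 (Real.sqrt β * τ)| ≤ P2 ∧ |phi 1 τ| ≤ F2 ∧ env τ ≤ e)
    (hE0 : 0 ≤ E) (hE : e ^ 77 ≤ E ^ 30)
    (hI : IntegrableOn (t8f_j9447 β) (Ioi c) ∧ ∫ τ in Ioi c, t8f_j9447 β τ ≤ R) :
    IntegrableOn (t8f_j9447 β) (Ioi a) ∧
      ∫ τ in Ioi a, t8f_j9447 β τ ≤ c ^ 2 * (P1 * F1 + P2 * F2) * E * (c - a) + R := by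
  have hbd : ∀ τ ∈ Ioc a c, ‖t8f_j9447 β τ‖ ≤ c ^ 2 * (P1 * F1 + P2 * F2) * E := by
    intro τ hτ
    obtain ⟨h1, h2, h3, h4, h5⟩ := hb τ hτ
    have hz : z0 ≤ τ := ha.trans hτ.1.le
    rw [Real.norm_eq_abs, abs_of_nonneg (t8f_nonneg_j9447 β hz)]
    exact t8_bound_j9447 hz hτ.2 h1 h2 h3 h4 h5 hE0 hE
  have hI1 : IntegrableOn (t8f_j9447 β) (Ioc a c) :=
    Measure.integrableOn_of_bounded (by simp) (t8f_meas_j9447 β).aestronglyMeasurable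
      ((ae_restrict_iff' measurableSet_Ioc).2 (Filter.Eventually.of_forall hbd))
  have hU : Ioc a c ∪ Ioi c = Ioi a := Ioc_union_Ioi_eq_Ioi hac
  have hD : Disjoint (Ioc a c) (Ioi c) := by
    rw [Set.disjoint_left]
    intro x hx hx'
    exact absurd hx.2 (not_le.2 hx')
  refine ⟨hU ▸ hI1.union hI.1, ?_⟩
  rw [← hU, setIntegral_union hD measurableSet_Ioi hI1 hI.1]
  refine add_le_add ?_ hI.2
  have h7 := norm_setIntegral_le_of_norm_le_const (μ := volume) (s := Ioc a c) (by simp) hbd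
  have h8 : volume.real (Ioc a c) = c - a := by
    rw [Measure.real, Real.volume_Ioc, ENNReal.toReal_ofReal (by linarith)]
  rw [h8] at h7
  exact (le_abs_self _).trans h7

lemma t8_tail_j9447 {β : ℝ} (h0 : 0.55 ≤ β) (hs1 : 0.7416 ≤ Real.sqrt β) :
    IntegrableOn (t8f_j9447 β) (Ioi 8) ∧ ∫ τ in Ioi 8, t8f_j9447 β τ ≤ 0.0015733 := by
  have hz := z0_bounds
  set q : ℝ := (0.73 : ℝ) ^ (77 / 30 : ℝ) with hq
  have hq0 : 0 < q := by positivity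
  set h : ℝ → ℝ := fun τ => (0.067725 * q) * τ ^ (-(77 / 30) : ℝ) +
    (0.75 * 0.73 / 0.55 * q) * τ ^ (-(107 / 30) : ℝ) with hh
  have i1 : IntegrableOn (fun τ : ℝ => τ ^ (-(77 / 30) : ℝ)) (Ioi 8) :=
    integrableOn_Ioi_rpow_of_lt (by norm_num) (by norm_num)
  have i2 : IntegrableOn (fun τ : ℝ => τ ^ (-(107 / 30) : ℝ)) (Ioi 8) :=
    integrableOn_Ioi_rpow_of_lt (by norm_num) (by norm_num)
  have hhi : IntegrableOn h (Ioi 8) := (i1.const_mul _).add (i2.const_mul _)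
  have hbd : ∀ τ ∈ Ioi (8 : ℝ), t8f_j9447 β τ ≤ h τ := by
    intro τ hτ
    have hτ8 : (8 : ℝ) < τ := hτ
    have hτ0 : 0 < τ := by linarith
    have hsτ : 5.9 ≤ Real.sqrt β * τ := by nlinarith
    have hβ0 : 0 < β := by linarith
    have hsq : (Real.sqrt β * τ) ^ 2 = β * τ ^ 2 := by
      rw [mul_pow, Real.sq_sqrt hβ0.le]
    have a1 : |psi 1 τ| ≤ 0.75 / τ ^ 2 := psi_decay τ (by linarith)
    have a2 : |phi 1 (Real.sqrt β * τ)| ≤ 0.0903 := phi_lobe575 _ (by linarith)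
    have a3 : |psi 1 (Real.sqrt β * τ)| ≤ 0.75 / (0.55 * τ ^ 2) := by
      refine (psi_decay _ (by linarith)).trans ?_
      rw [hsq]
      apply div_le_div_of_nonneg_left (by norm_num) (by positivity)
      exact mul_le_mul_of_nonneg_right h0 (by positivity)
    have a4 : |phi 1 τ| ≤ 0.73 / τ := phi_decN τ (by linarith)
    have a5 : env τ = 0.73 / τ := by
      unfold env
      rw [if_neg (by linarith)]
    have e1 : |psi 1 τ * phi 1 (Real.sqrt β * τ)| ≤ 0.75 / τ ^ 2 * 0.0903 := by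
      rw [abs_mul]
      exact mul_le_mul a1 a2 (abs_nonneg _) (by positivity)
    have e2 : |psi 1 (Real.sqrt β * τ) * phi 1 τ| ≤ 0.75 / (0.55 * τ ^ 2) * (0.73 / τ) := by
      rw [abs_mul]
      exact mul_le_mul a3 a4 (abs_nonneg _) (by positivity)
    have e3 : (0.73 / τ) ^ (77 / 30 : ℝ) = q * τ ^ (-(77 / 30) : ℝ) := by
      rw [Real.div_rpow (by norm_num) hτ0.le, Real.rpow_neg hτ0.le, div_eq_mul_inv]
    have e4 : τ ^ (-(107 / 30) : ℝ) = τ ^ (-(77 / 30) : ℝ) / τ := by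
      rw [← Real.rpow_sub_one hτ0.ne']
      norm_num
    unfold t8f_j9447
    rw [a5, e3, hh]
    simp only
    rw [e4]
    have hp : 0 ≤ q * τ ^ (-(77 / 30) : ℝ) := by positivity
    calc τ ^ 2 * (|psi 1 τ * phi 1 (Real.sqrt β * τ)| + |psi 1 (Real.sqrt β * τ) * phi 1 τ|) *
          (q * τ ^ (-(77 / 30) : ℝ))
        ≤ τ ^ 2 * (0.75 / τ ^ 2 * 0.0903 + 0.75 / (0.55 * τ ^ 2) * (0.73 / τ)) *
          (q * τ ^ (-(77 / 30) : ℝ)) := by
          apply mul_le_mul_of_nonneg_right _ hp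
          apply mul_le_mul_of_nonneg_left (add_le_add e1 e2) (by positivity)
      _ = 0.067725 * q * τ ^ (-(77 / 30) : ℝ) +
          0.75 * 0.73 / 0.55 * q * (τ ^ (-(77 / 30) : ℝ) / τ) := by
          field_simp
          ring
  have hnn : ∀ τ ∈ Ioi (8 : ℝ), 0 ≤ t8f_j9447 β τ := fun τ hτ =>
    t8f_nonneg_j9447 β (by have : (8 : ℝ) < τ := hτ; linarith)
  have hI : IntegrableOn (t8f_j9447 β) (Ioi 8) := by
    refine Integrable.mono' hhi (t8f_meas_j9447 β).aestronglyMeasurable ?_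
    refine (ae_restrict_iff' measurableSet_Ioi).2 (Filter.Eventually.of_forall fun τ hτ => ?_)
    rw [Real.norm_eq_abs, abs_of_nonneg (hnn τ hτ)]
    exact hbd τ hτ
  refine ⟨hI, ?_⟩
  refine (setIntegral_mono_on hI hhi measurableSet_Ioi hbd).trans ?_
  have v1 : ∫ τ in Ioi (8 : ℝ), τ ^ (-(77 / 30) : ℝ) = (8 : ℝ) ^ (-(77 / 30) : ℝ) * 8 * (30 / 47) := by
    rw [integral_Ioi_rpow_of_lt (by norm_num) (by norm_num), Real.rpow_add_one (by norm_num)]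
    norm_num
    ring
  have v2 : ∫ τ in Ioi (8 : ℝ), τ ^ (-(107 / 30) : ℝ) = (8 : ℝ) ^ (-(77 / 30) : ℝ) * (30 / 77) := by
    rw [integral_Ioi_rpow_of_lt (by norm_num) (by norm_num)]
    norm_num
    ring
  have v3 : ∫ τ in Ioi (8 : ℝ), h τ = (0.067725 * q) * ((8 : ℝ) ^ (-(77 / 30) : ℝ) * 8 * (30 / 47)) +
      (0.75 * 0.73 / 0.55 * q) * ((8 : ℝ) ^ (-(77 / 30) : ℝ) * (30 / 77)) := by
    rw [hh]
    have j1 : Integrable (fun τ : ℝ => (0.067725 * q) * τ ^ (-(77 / 30) : ℝ))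
        (volume.restrict (Ioi 8)) := i1.const_mul _
    have j2 : Integrable (fun τ : ℝ => (0.75 * 0.73 / 0.55 * q) * τ ^ (-(107 / 30) : ℝ))
        (volume.restrict (Ioi 8)) := i2.const_mul _
    rw [integral_add j1 j2, integral_const_mul, integral_const_mul, v1, v2]
  rw [v3]
  set w : ℝ := q * (8 : ℝ) ^ (-(77 / 30) : ℝ) with hw
  have hw1 : w = (0.09125 : ℝ) ^ (77 / 30 : ℝ) := by
    rw [hw, hq, Real.rpow_neg (by norm_num), ← div_eq_mul_inv, ← Real.div_rpow (by norm_num)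
      (by norm_num)]
    norm_num
  have hw2 : w ≤ 0.0021443 := by
    rw [hw1]
    exact t8_pow_j9447 (by norm_num) (by norm_num) (by norm_num)
  have hid : (0.067725 * q) * ((8 : ℝ) ^ (-(77 / 30) : ℝ) * 8 * (30 / 47)) +
      (0.75 * 0.73 / 0.55 * q) * ((8 : ℝ) ^ (-(77 / 30) : ℝ) * (30 / 77)) =
      w * (0.067725 * 8 * (30 / 47) + 0.75 * 0.73 / 0.55 * (30 / 77)) := by
    rw [hw]; ring
  rw [hid]
  nlinarith

lemma t8_exp_j9447 {x : ℝ} (hx : 1.7777 ≤ x) : Real.exp (-x) ≤ 0.16903 := by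
  have h1 : (1 / 0.16903 : ℝ) ≤ Real.exp 1.7777 := by
    refine le_trans ?_ (Real.sum_le_exp_of_nonneg (by norm_num) 13)
    simp only [Finset.sum_range_succ, Finset.sum_range_zero, Nat.factorial]
    norm_num
  have h2 : Real.exp 1.7777 ≤ Real.exp x := Real.exp_le_exp.2 hx
  rw [Real.exp_neg]
  have h3 : (0 : ℝ) < 1 / 0.16903 := by norm_num
  have h4 := inv_anti₀ h3 (h1.trans h2)
  simpa using h4

lemma t8_exp2_j9447 {x : ℝ} (hx : 2.04 ≤ x) : Real.exp (-x) ≤ 0.1496 := by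
  have h1 : (1 / 0.1496 : ℝ) ≤ Real.exp 2.04 := by
    refine le_trans ?_ (Real.sum_le_exp_of_nonneg (by norm_num) 9)
    simp only [Finset.sum_range_succ, Finset.sum_range_zero, Nat.factorial]
    norm_num
  have h2 : Real.exp 2.04 ≤ Real.exp x := Real.exp_le_exp.2 hx
  rw [Real.exp_neg]
  have h3 : (0 : ℝ) < 1 / 0.1496 := by norm_num
  have h4 := inv_anti₀ h3 (h1.trans h2)
  simpa using h4

lemma t8_psi_z0_j9447 : psi 1 3.4947 ≤ 0.0703 := by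
  have h1 : ∀ z ∈ Ico (3.4947 : ℝ) 3.5, -(z * chi z) ≥ -0.08 := by
    intro z hz
    have hc := chi_decay z (by linarith [hz.1])
    have hc' := (le_abs_self _).trans hc
    have h2 : z * chi z ≤ z * (0.975 / z ^ 3) := mul_le_mul_of_nonneg_left hc' (by linarith [hz.1])
    have h3 : z * (0.975 / z ^ 3) = 0.975 / z ^ 2 := by
      have : z ≠ 0 := by linarith [hz.1]
      field_simp
    have h4 : 0.975 / z ^ 2 ≤ 0.08 := by
      rw [div_le_iff₀ (by have := hz.1; positivity)]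
      nlinarith [hz.1]
    linarith
  have h2 : -0.08 * (3.5 - 3.4947) ≤ psi 1 3.5 - psi 1 3.4947 := by
    apply Convex.mul_sub_le_image_sub_of_le_deriv (convex_Icc (3.4947 : ℝ) 3.5)
      psi_continuous.continuousOn
    · intro x _
      exact (psi_deriv x).differentiableAt.differentiableWithinAt
    · intro x hx
      rw [interior_Icc] at hx
      rw [(psi_deriv x).deriv]
      exact h1 x ⟨hx.1.le, hx.2⟩
    · norm_num
    · norm_num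
    · norm_num
  have h3 := psi_tab_14.2
  linarith

lemma t8_lo_j9447 {s τ a b c : ℝ} (h1 : a ≤ s) (h2 : b < τ) (ha : 0 ≤ a) (hb : 0 ≤ b)
    (h : c ≤ a * b) : c ≤ s * τ :=
  h.trans (mul_le_mul h1 h2.le hb (ha.trans h1))

lemma t8_hi_j9447 {s τ a b c : ℝ} (h1 : s ≤ a) (h2 : τ ≤ b) (ht : 0 ≤ τ) (ha : 0 ≤ a)
    (h : a * b ≤ c) : s * τ ≤ c :=
  (mul_le_mul h1 h2 ht ha).trans h

lemma t8_envle_j9447 {τ : ℝ} (hτ : 5 < τ) : env τ = 0.73 / τ := by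
  unfold env
  rw [if_neg (not_le.2 hτ)]

lemma t8_envle'_j9447 {τ a : ℝ} (h5 : 5 ≤ a) (hτ : a < τ) : env τ ≤ 0.73 / a := by
  rw [t8_envle_j9447 (h5.trans_lt hτ)]
  exact div_le_div_of_nonneg_left (by norm_num) (by linarith only [h5]) hτ.le

lemma t8_ex_j9447 {τ a b : ℝ} (hτ : a ≤ τ) (ha : 0 ≤ a) (hb : b ≤ 0.29112 * (a * a) / 2) :
    b ≤ vr 1 * τ ^ 2 / 2 := by
  have hv := vr_one_bounds.1
  have h1 : a * a ≤ τ ^ 2 := by rw [sq]; exact mul_self_le_mul_self ha hτ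
  have h2 : 0.29112 * (a * a) ≤ vr 1 * τ ^ 2 :=
    mul_le_mul hv.le h1 (mul_nonneg ha ha) (by linarith only [hv])
  linarith only [h2, hb]

lemma t8_env4_j9447 {τ : ℝ} (h3 : 3.75 ≤ τ) (h5 : τ ≤ 5) : env τ ≤ 0.1496 := by
  unfold env
  rw [if_pos h5]
  apply max_le le_rfl
  rw [show -(vr 1) * τ ^ 2 / 2 = -(vr 1 * τ ^ 2 / 2) by ring]
  exact t8_exp2_j9447 (t8_ex_j9447 h3 (by norm_num) (by norm_num))

lemma t8_phipos_j9447 {x y : ℝ} (hx : 0 ≤ x) (hxy : x ≤ y) (hy : y < z0) : |phi 1 y| ≤ phi 1 x := by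
  have hz2 := z0_bounds.2
  rw [abs_of_pos (phi_pos y (hx.trans hxy) hy)]
  exact phi_antitone ⟨hx, by linarith only [hz2, hxy, hy]⟩
    ⟨hx.trans hxy, by linarith only [hz2, hy]⟩ hxy

lemma t8_psipos_j9447 {x y : ℝ} (hx : 0 ≤ x) (hxy : x ≤ y) (hy : y ≤ 4.7) : |psi 1 y| ≤ psi 1 x := by
  rw [abs_of_pos (psi_pos y (hx.trans hxy) hy)]
  exact psi_antitone ⟨hx, by linarith only [hxy, hy]⟩ ⟨hx.trans hxy, by linarith only [hy]⟩ hxy

lemma t8_z0le_j9447 {x : ℝ} (h : 3.4948 ≤ x) : z0 ≤ x := z0_bounds.2.le.trans h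
lemma t8_ltz0_j9447 {x : ℝ} (h : x ≤ 3.4947) : x < z0 := h.trans_lt z0_bounds.1

lemma t8_b7_j9447 {s τ : ℝ} (hs1 : 0.7416 ≤ s) (ha : 7 < τ) :
    |psi 1 τ| ≤ 0.75 / 49 ∧ |phi 1 (s * τ)| ≤ 0.1441 ∧ |psi 1 (s * τ)| ≤ 0.0201 ∧
      |phi 1 τ| ≤ 0.0903 ∧ env τ ≤ 0.73 / 7 := by
  refine ⟨?_, ?_, ?_, ?_, ?_⟩
  · refine (psi_decay τ (by linarith only [ha])).trans ?_
    apply div_le_div_of_nonneg_left (by norm_num) (by norm_num)
    have h1 := mul_self_le_mul_self (by norm_num : (0:ℝ) ≤ 7) ha.le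
    rw [sq]
    linarith only [h1]
  · exact phi_lobe5 _ (t8_lo_j9447 hs1 ha (by norm_num) (by norm_num) (by norm_num))
  · exact psi_late _ (t8_lo_j9447 hs1 ha (by norm_num) (by norm_num) (by norm_num))
  · exact phi_lobe575 _ (by linarith only [ha])
  · exact t8_envle'_j9447 (by norm_num) ha

lemma t8_b6_j9447 {s τ : ℝ} (hs1 : 0.7416 ≤ s) (ha : 6 < τ) :
    |psi 1 τ| ≤ 0.0201 ∧ |phi 1 (s * τ)| ≤ 0.1496 ∧ |psi 1 (s * τ)| ≤ 0.021590 ∧
      |phi 1 τ| ≤ 0.0903 ∧ env τ ≤ 0.73 / 6 := by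
  have h1 : 4.25 ≤ s * τ := t8_lo_j9447 hs1 ha (by norm_num) (by norm_num) (by norm_num)
  refine ⟨psi_late _ (by linarith only [ha]), phi_lobe _ (t8_z0le_j9447 (by linarith only [h1])), ?_,
    phi_lobe575 _ (by linarith only [ha]), t8_envle'_j9447 (by norm_num) ha⟩
  by_cases hy : s * τ ≤ 4.7
  · exact (t8_psipos_j9447 (by norm_num) h1 hy).trans psi_tab_17.2.le
  · exact (psi_late _ (by linarith only [hy])).trans (by norm_num)

lemma t8_b5_j9447 {s τ : ℝ} (hs1 : 0.7416 ≤ s) (hs2 : s ≤ 0.7746) (ha : 5.5 < τ) (hc : τ ≤ 6) :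
    |psi 1 τ| ≤ 0.0201 ∧ |phi 1 (s * τ)| ≤ 0.1496 ∧ |psi 1 (s * τ)| ≤ 0.035743 ∧
      |phi 1 τ| ≤ 0.1086 ∧ env τ ≤ 0.73 / 5.5 := by
  have h1 : 4 ≤ s * τ := t8_lo_j9447 hs1 ha (by norm_num) (by norm_num) (by norm_num)
  have h2 : s * τ ≤ 4.7 := t8_hi_j9447 hs2 hc (by linarith only [ha]) (by norm_num) (by norm_num)
  exact ⟨psi_late _ (by linarith only [ha]), phi_lobe _ (t8_z0le_j9447 (by linarith only [h1])),
    (t8_psipos_j9447 (by norm_num) h1 h2).trans psi_tab_16.2.le, phi_lobe55 _ ha.le,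
    t8_envle'_j9447 (by norm_num) ha⟩

lemma t8_b4_j9447 {s τ : ℝ} (hs1 : 0.7416 ≤ s) (hs2 : s ≤ 0.7746) (ha : 5 < τ) (hc : τ ≤ 5.5) :
    |psi 1 τ| ≤ 0.0201 ∧ |phi 1 (s * τ)| ≤ 0.1496 ∧ |psi 1 (s * τ)| ≤ 0.069760 ∧
      |phi 1 τ| ≤ 0.1441 ∧ env τ ≤ 0.73 / 5 := by
  have h1 : 3.7 ≤ s * τ := t8_lo_j9447 hs1 ha (by norm_num) (by norm_num) (by norm_num)
  have h2 : s * τ ≤ 4.7 := t8_hi_j9447 hs2 hc (by linarith only [ha]) (by norm_num) (by norm_num)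
  exact ⟨psi_late _ (by linarith only [ha]), phi_lobe _ (t8_z0le_j9447 (by linarith only [h1])),
    (t8_psipos_j9447 (x := 3.5) (by norm_num) (by linarith only [h1]) h2).trans psi_tab_14.2.le,
    phi_lobe5 _ ha.le, t8_envle'_j9447 le_rfl ha⟩

lemma t8_b3_j9447 {s τ : ℝ} (hs1 : 0.7416 ≤ s) (hs2 : s ≤ 0.7746) (ha : 4.5 < τ) (hc : τ ≤ 5) :
    |psi 1 τ| ≤ 0.0201 ∧ |phi 1 (s * τ)| ≤ 0.1496 ∧ |psi 1 (s * τ)| ≤ 0.089161 ∧
      |phi 1 τ| ≤ 0.1496 ∧ env τ ≤ 0.1496 := by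
  have h1 : 3.25 ≤ s * τ := t8_lo_j9447 hs1 ha (by norm_num) (by norm_num) (by norm_num)
  have h2 : s * τ ≤ 4.7 := t8_hi_j9447 hs2 hc (by linarith only [ha]) (by norm_num) (by norm_num)
  refine ⟨psi_late _ ha.le, ?_,
    (t8_psipos_j9447 (by norm_num) h1 h2).trans psi_tab_13.2.le,
    phi_lobe _ (t8_z0le_j9447 (by linarith only [ha])), t8_env4_j9447 (by linarith only [ha]) hc⟩
  by_cases hy : s * τ < z0
  · exact ((t8_phipos_j9447 (by norm_num) h1 hy).trans phi_tab_13.2.le).trans (by norm_num)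
  · exact phi_lobe _ (not_lt.1 hy)

lemma t8_b2_j9447 {s τ : ℝ} (hs1 : 0.7416 ≤ s) (hs2 : s ≤ 0.7746) (ha : 4 < τ) (hc : τ ≤ 4.5) :
    |psi 1 τ| ≤ 0.035743 ∧ |phi 1 (s * τ)| ≤ 0.229492 ∧ |psi 1 (s * τ)| ≤ 0.131111 ∧
      |phi 1 τ| ≤ 0.1496 ∧ env τ ≤ 0.1496 := by
  have h1 : 2.75 ≤ s * τ := t8_lo_j9447 hs1 ha (by norm_num) (by norm_num) (by norm_num)
  have h2 : s * τ ≤ 3.4947 := t8_hi_j9447 hs2 hc (by linarith only [ha]) (by norm_num) (by norm_num)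
  exact ⟨(t8_psipos_j9447 (by norm_num) ha.le (by linarith only [hc])).trans psi_tab_16.2.le,
    (t8_phipos_j9447 (by norm_num) h1 (t8_ltz0_j9447 h2)).trans phi_tab_11.2.le,
    (t8_psipos_j9447 (by norm_num) h1 (by linarith only [h2])).trans psi_tab_11.2.le,
    phi_lobe _ (t8_z0le_j9447 (by linarith only [ha])),
    t8_env4_j9447 (by linarith only [ha]) (by linarith only [hc])⟩

lemma t8_b1_j9447 {s τ : ℝ} (hs1 : 0.7416 ≤ s) (hs2 : s ≤ 0.7746) (ha : 3.75 < τ) (hc : τ ≤ 4) :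
    |psi 1 τ| ≤ 0.051865 ∧ |phi 1 (s * τ)| ≤ 0.229492 ∧ |psi 1 (s * τ)| ≤ 0.131111 ∧
      |phi 1 τ| ≤ 0.1496 ∧ env τ ≤ 0.1496 := by
  have h1 : 2.75 ≤ s * τ := t8_lo_j9447 hs1 ha (by norm_num) (by norm_num) (by norm_num)
  have h2 : s * τ ≤ 3.4947 := t8_hi_j9447 hs2 hc (by linarith only [ha]) (by norm_num) (by norm_num)
  exact ⟨(t8_psipos_j9447 (by norm_num) ha.le (by linarith only [hc])).trans psi_tab_15.2.le,
    (t8_phipos_j9447 (by norm_num) h1 (t8_ltz0_j9447 h2)).trans phi_tab_11.2.le,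
    (t8_psipos_j9447 (by norm_num) h1 (by linarith only [h2])).trans psi_tab_11.2.le,
    phi_lobe _ (t8_z0le_j9447 (by linarith only [ha])),
    t8_env4_j9447 ha.le (by linarith only [hc])⟩

lemma t8_b0_j9447 {s τ : ℝ} (hs1 : 0.7416 ≤ s) (hs2 : s ≤ 0.7746) (hz : z0 < τ) (hc : τ ≤ 3.75) :
    |psi 1 τ| ≤ 0.0703 ∧ |phi 1 (s * τ)| ≤ 0.322545 ∧ |psi 1 (s * τ)| ≤ 0.152848 ∧
      |phi 1 τ| ≤ 0.1496 ∧ env τ ≤ 0.16903 := by
  have ha : 3.4947 < τ := z0_bounds.1.trans hz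
  have h1 : 2.5 ≤ s * τ := t8_lo_j9447 hs1 ha (by norm_num) (by norm_num) (by norm_num)
  have h2 : s * τ ≤ 3.4947 := t8_hi_j9447 hs2 hc (by linarith only [ha]) (by norm_num) (by norm_num)
  refine ⟨(t8_psipos_j9447 (by norm_num) ha.le (by linarith only [hc])).trans t8_psi_z0_j9447,
    (t8_phipos_j9447 (by norm_num) h1 (t8_ltz0_j9447 h2)).trans phi_tab_10.2.le,
    (t8_psipos_j9447 (by norm_num) h1 (by linarith only [h2])).trans psi_tab_10.2.le,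
    phi_lobe _ hz.le, ?_⟩
  unfold env
  rw [if_pos (by linarith only [hc])]
  apply max_le (by norm_num)
  rw [show -(vr 1) * τ ^ 2 / 2 = -(vr 1 * τ ^ 2 / 2) by ring]
  exact t8_exp_j9447 (t8_ex_j9447 ha.le (by norm_num) (by norm_num))

theorem tail_8 (β : ℝ) (h0 : 0.55 ≤ β) (h1 : β ≤ 0.6) :
    ∫ τ in Set.Ioi z0, τ ^ 2 * (|psi 1 τ * phi 1 (Real.sqrt β * τ)| +
      |psi 1 (Real.sqrt β * τ) * phi 1 τ|) * env τ ^ (77 / 30 : ℝ) ≤ 0.011973 := by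
  have hs1 : 0.7416 ≤ Real.sqrt β := by
    apply Real.le_sqrt_of_sq_le
    norm_num at h0 ⊢
    linarith only [h0]
  have hs2 : Real.sqrt β ≤ 0.7746 := by
    rw [Real.sqrt_le_left (by norm_num)]
    norm_num at h1 ⊢
    linarith only [h1]
  have hfin := t8_step_j9447 (le_refl z0) (t8_z0le_j9447 (by norm_num))
    (fun τ hτ => t8_b0_j9447 hs1 hs2 hτ.1 hτ.2) (E := 0.010434) (by norm_num) (by norm_num)
    (t8_step_j9447 (t8_z0le_j9447 (by norm_num)) (by norm_num)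
    (fun τ hτ => t8_b1_j9447 hs1 hs2 hτ.1 hτ.2) (E := 0.007627) (by norm_num) (by norm_num)
    (t8_step_j9447 (t8_z0le_j9447 (by norm_num)) (by norm_num)
    (fun τ hτ => t8_b2_j9447 hs1 hs2 hτ.1 hτ.2) (E := 0.007627) (by norm_num) (by norm_num)
    (t8_step_j9447 (t8_z0le_j9447 (by norm_num)) (by norm_num)
    (fun τ hτ => t8_b3_j9447 hs1 hs2 hτ.1 hτ.2) (E := 0.007627) (by norm_num) (by norm_num)
    (t8_step_j9447 (t8_z0le_j9447 (by norm_num)) (by norm_num)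
    (fun τ hτ => t8_b4_j9447 hs1 hs2 hτ.1 hτ.2) (E := 0.007165) (by norm_num) (by norm_num)
    (t8_step_j9447 (t8_z0le_j9447 (by norm_num)) (by norm_num)
    (fun τ hτ => t8_b5_j9447 hs1 hs2 hτ.1 hτ.2) (E := 0.00561) (by norm_num) (by norm_num)
    (t8_step_j9447 (t8_z0le_j9447 (by norm_num)) (by norm_num)
    (fun τ hτ => t8_b6_j9447 hs1 hτ.1) (E := 0.004487) (by norm_num) (by norm_num)
    (t8_step_j9447 (t8_z0le_j9447 (by norm_num)) (by norm_num)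
    (fun τ hτ => t8_b7_j9447 hs1 hτ.1) (E := 0.003021) (by norm_num) (by norm_num)
    (t8_tail_j9447 h0 hs1))))))))
  have hw : (3.75 : ℝ) - z0 ≤ 0.2553 := by
    have := z0_bounds.1
    linarith only [this]
  have hgoal : ∫ τ in Set.Ioi z0, t8f_j9447 β τ ≤ 0.011973 := by
    refine hfin.2.trans ?_
    norm_num at hw ⊢
    linarith only [hw]
  exact hgoal



end Pool.Agent.Helper82.GC
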