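import Pool.Agent.Helper82.GC.J9429
import Pool.Agent.Helper82.GC.J9434

set_option autoImplicit false

open MeasureTheory Set

namespace Pool.Agent.Helper82.GC


theorem rp833_j9448 {x c : ℝ} (hx : 0 ≤ x) (hc : 0 ≤ c) (p q : ℕ) (hq : q ≠ 0) (h : x ^ p ≤ c ^ q) :
    x ^ ((p : ℝ) / (q : ℝ)) ≤ c := by
  have h1 : x ^ ((p : ℝ) / (q : ℝ)) = (x ^ p) ^ ((q : ℝ)⁻¹) := by
    rw [← Real.rpow_natCast x p, ← Real.rpow_mul hx, div_eq_mul_inv]
  rw [h1]
  calc (x ^ p) ^ ((q : ℝ)⁻¹) ≤ (c ^ q) ^ ((q : ℝ)⁻¹) :=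
        Real.rpow_le_rpow (pow_nonneg hx _) h (by positivity)
    _ = c := Real.pow_rpow_inv_natCast hc hq

theorem rN833_j9448 {x c : ℝ} (hx : 0 ≤ x) (hc : 0 ≤ c) (h : x ^ 151 ≤ c ^ 60) :
    x ^ (151 / 60 : ℝ) ≤ c := by
  have := rp833_j9448 hx hc 151 60 (by norm_num) h
  norm_num at this
  exact this

def Dom833_j9448 (f : ℝ → ℝ) (a B : ℝ) : Prop :=
  ∃ g : ℝ → ℝ, IntegrableOn g (Ioi a) ∧ (∀ τ, a < τ → f τ ≤ g τ) ∧ ∫ τ in Ioi a, g τ ≤ B

theorem Dom833_j9448.step {f : ℝ → ℝ} {a c K B : ℝ} (h : Dom833_j9448 f c B) (hac : a ≤ c)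
    (hf : ∀ τ, a < τ → τ ≤ c → f τ ≤ K) : Dom833_j9448 f a (K * (c - a) + B) := by
  obtain ⟨g, hg, hfg, hB⟩ := h
  have i1 : IntegrableOn (fun τ => if τ ≤ c then K else g τ) (Ioc a c) := by
    have h0 : IntegrableOn (fun _ : ℝ => K) (Ioc a c) := integrableOn_const measure_Ioc_lt_top.ne
    apply h0.congr_fun _ measurableSet_Ioc
    intro τ hτ
    simp [hτ.2]
  have i2 : IntegrableOn (fun τ => if τ ≤ c then K else g τ) (Ioi c) := by
    apply hg.congr_fun _ measurableSet_Ioi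
    intro τ hτ
    have : ¬ τ ≤ c := not_le.mpr hτ
    simp [this]
  refine ⟨fun τ => if τ ≤ c then K else g τ, ?_, ?_, ?_⟩
  · rw [← Ioc_union_Ioi_eq_Ioi hac]
    exact i1.union i2
  · intro τ hτ
    show f τ ≤ if τ ≤ c then K else g τ
    split_ifs with h1
    · exact hf τ hτ h1
    · exact hfg τ (not_le.mp h1)
  · rw [← Ioc_union_Ioi_eq_Ioi hac, setIntegral_union _ measurableSet_Ioi i1 i2]
    · have e1 : ∫ τ in Ioc a c, (if τ ≤ c then K else g τ) = K * (c - a) := by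
        have : ∫ τ in Ioc a c, (if τ ≤ c then K else g τ) = ∫ τ in Ioc a c, K := by
          apply setIntegral_congr_fun measurableSet_Ioc
          intro τ hτ
          simp [hτ.2]
        rw [this, setIntegral_const, smul_eq_mul, Measure.real, Real.volume_Ioc,
          ENNReal.toReal_ofReal (by linarith)]
        ring
      have e2 : ∫ τ in Ioi c, (if τ ≤ c then K else g τ) = ∫ τ in Ioi c, g τ := by
        apply setIntegral_congr_fun measurableSet_Ioi
        intro τ hτ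
        have : ¬ τ ≤ c := not_le.mpr hτ
        simp [this]
      rw [e1, e2]
      linarith
    · rw [Set.disjoint_left]
      intro x hx hx2
      exact absurd hx.2 (not_le.mpr hx2)

theorem Dom833_j9448.le {f : ℝ → ℝ} {a B : ℝ} (h : Dom833_j9448 f a B) (h0 : ∀ τ, a < τ → 0 ≤ f τ) :
    ∫ τ in Ioi a, f τ ≤ B := by
  obtain ⟨g, hg, hfg, hB⟩ := h
  refine le_trans ?_ hB
  apply integral_mono_of_nonneg
  · filter_upwards [ae_restrict_mem measurableSet_Ioi] with τ hτ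
    exact h0 τ hτ
  · exact hg
  · filter_upwards [ae_restrict_mem measurableSet_Ioi] with τ hτ
    exact hfg τ hτ

theorem cell833_j9448 {β τ c P Q R S E EN : ℝ} (hτ0 : 0 < τ) (hτc : τ ≤ c) (hP : |psi 1 τ| ≤ P)
    (hQ : |phi 1 (Real.sqrt β * τ)| ≤ Q) (hR : |psi 1 (Real.sqrt β * τ)| ≤ R) (hS : |phi 1 τ| ≤ S)
    (he0 : 0 < env τ) (hE : env τ ≤ E) (hEN : E ^ (151 / 60 : ℝ) ≤ EN) :
    τ ^ 2 * (|psi 1 τ * phi 1 (Real.sqrt β * τ)| + |psi 1 (Real.sqrt β * τ) * phi 1 τ|) *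
      env τ ^ (151 / 60 : ℝ) ≤ c ^ 2 * (P * Q + R * S) * EN := by
  rw [abs_mul, abs_mul]
  have hP0 := (abs_nonneg _).trans hP
  have hQ0 := (abs_nonneg _).trans hQ
  have hR0 := (abs_nonneg _).trans hR
  have hS0 := (abs_nonneg _).trans hS
  have h1 : env τ ^ (151 / 60 : ℝ) ≤ EN := (Real.rpow_le_rpow he0.le hE (by norm_num)).trans hEN
  have h2 : |psi 1 τ| * |phi 1 (Real.sqrt β * τ)| ≤ P * Q := mul_le_mul hP hQ (abs_nonneg _) hP0
  have h3 : |psi 1 (Real.sqrt β * τ)| * |phi 1 τ| ≤ R * S := mul_le_mul hR hS (abs_nonneg _) hR0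
  have h4 : τ ^ 2 ≤ c ^ 2 := pow_le_pow_left₀ hτ0.le hτc 2
  apply mul_le_mul _ h1 (Real.rpow_nonneg he0.le _) (by positivity)
  exact mul_le_mul h4 (add_le_add h2 h3) (by positivity) (by positivity)

theorem phi_ge833_j9448 {m x M : ℝ} (hm : 0 ≤ m) (hx : m ≤ x) (h1 : phi 1 m ≤ M) (h2 : 0.1496 ≤ M) :
    |phi 1 x| ≤ M := by
  rcases le_or_gt z0 x with h | h
  · exact (phi_lobe x h).trans h2
  · have hz := z0_bounds
    rw [abs_of_pos (phi_pos x (hm.trans hx) h)]
    refine (phi_antitone ⟨hm, ?_⟩ ⟨hm.trans hx, ?_⟩ hx).trans h1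
    · linarith [hz.2]
    · linarith [hz.2]

theorem psi_ge833_j9448 {m x M : ℝ} (hm : 0 ≤ m) (hx : m ≤ x) (h1 : psi 1 m ≤ M) (h2 : 0.0201 ≤ M) :
    |psi 1 x| ≤ M := by
  rcases le_or_gt 4.5 x with h | h
  · exact (psi_late x h).trans h2
  · rw [abs_of_pos (psi_pos x (hm.trans hx) (by linarith))]
    refine (psi_antitone ⟨hm, ?_⟩ ⟨hm.trans hx, ?_⟩ hx).trans h1
    · linarith
    · linarith

theorem psi_first833_j9448 : psi 1 3.4947 ≤ 0.0702 := by
  have hd : ∀ x ∈ Ioo (3.4947 : ℝ) 3.5, HasDerivAt (psi 1) (-(x * chi x)) x := fun x _ => psi_deriv x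
  obtain ⟨c, hc, hc2⟩ := exists_hasDerivAt_eq_slope (psi 1) (fun x => -(x * chi x))
    (by norm_num : (3.4947 : ℝ) < 3.5) psi_continuous.continuousOn hd
  have h1 := psi_tab_14.2
  have h2 := chi_decay c (by linarith [hc.1])
  have h3 : chi c ≤ 0.975 / c ^ 3 := (le_abs_self _).trans h2
  have hc0 : 0 < c := by linarith [hc.1]
  have h4 : c * chi c ≤ 0.975 / c ^ 2 := by
    calc c * chi c ≤ c * (0.975 / c ^ 3) := mul_le_mul_of_nonneg_left h3 hc0.le
      _ = 0.975 / c ^ 2 := by field_simp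
  have h5 : 0.975 / c ^ 2 ≤ 0.08 := by
    rw [div_le_iff₀ (by positivity)]
    nlinarith [hc.1]
  have h6 : psi 1 3.5 - psi 1 3.4947 = -(c * chi c) * (3.5 - 3.4947) := by
    rw [hc2]
    field_simp
  have h7 : c * chi c * (3.5 - 3.4947) ≤ 0.08 * (3.5 - 3.4947) :=
    mul_le_mul_of_nonneg_right (h4.trans h5) (by norm_num)
  have h8 : psi 1 3.4947 = psi 1 3.5 + c * chi c * (3.5 - 3.4947) := by linarith
  rw [h8]
  norm_num at h7 h1 ⊢
  linarith

theorem env_mid833_j9448 {τ : ℝ} (h1 : 3.75 ≤ τ) (h2 : τ ≤ 5) : env τ ≤ 0.1496 := by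
  unfold env
  rw [if_pos h2]
  apply max_le le_rfl
  have hv := vr_one_bounds.1
  have h3 : -(vr 1) * τ ^ 2 / 2 ≤ -2 := by nlinarith
  have h4 : Real.exp (-(vr 1) * τ ^ 2 / 2) ≤ Real.exp (-2) := Real.exp_le_exp.mpr h3
  refine h4.trans ?_
  have h5 : (2.7182818283 : ℝ) < Real.exp 1 := Real.exp_one_gt_d9
  have h6 : Real.exp (-2) = (Real.exp 1)⁻¹ ^ 2 := by
    rw [← Real.exp_neg, ← Real.exp_nat_mul]; norm_num
  rw [h6, inv_pow]
  rw [inv_le_comm₀ (by positivity) (by norm_num)]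
  nlinarith

theorem env_first833_j9448 {τ : ℝ} (h1 : 3.4947 ≤ τ) (h2 : τ ≤ 5) : env τ ≤ 0.16906 := by
  unfold env
  rw [if_pos h2]
  apply max_le (by norm_num)
  have hv := vr_one_bounds.1
  have h3 : -(vr 1) * τ ^ 2 / 2 ≤ -1.7777 := by nlinarith
  have h4 : Real.exp (-(vr 1) * τ ^ 2 / 2) ≤ Real.exp (-1.7777) := Real.exp_le_exp.mpr h3
  refine h4.trans ?_
  rw [Real.exp_neg, inv_le_comm₀ (by positivity) (by norm_num)]
  have h5 := Real.sum_le_exp_of_nonneg (show (0:ℝ) ≤ 1.7777 by norm_num) 14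
  refine le_trans ?_ h5
  norm_num [Finset.sum_range_succ, Nat.factorial]

theorem env_late833_j9448 {τ a E : ℝ} (h1 : 5 < τ) (ha : 0 < a) (h2 : a ≤ τ) (hE : 0.73 / a ≤ E) : env τ ≤ E := by
  unfold env
  rw [if_neg (not_le.mpr h1)]
  exact (div_le_div_of_nonneg_left (by norm_num) ha h2).trans hE

theorem last833_j9448 (β : ℝ) (h0 : 0.6 ≤ β) (hs : 0.7745966 ≤ Real.sqrt β) :
    Dom833_j9448 (fun τ => τ ^ 2 * (|psi 1 τ * phi 1 (Real.sqrt β * τ)| +
      |psi 1 (Real.sqrt β * τ) * phi 1 τ|) * env τ ^ (151 / 60 : ℝ)) 8 0.001740 := by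
  have hC : (0.73 : ℝ) ^ (151 / 60 : ℝ) ≤ 0.45293 := rN833_j9448 (by norm_num) (by norm_num) (by norm_num)
  have hC0 : 0 ≤ (0.73 : ℝ) ^ (151 / 60 : ℝ) := by positivity
  have i1 : IntegrableOn (fun τ : ℝ => τ ^ (-(151 / 60) : ℝ)) (Ioi 8) :=
    integrableOn_Ioi_rpow_of_lt (by norm_num) (by norm_num)
  have i2 : IntegrableOn (fun τ : ℝ => τ ^ (-(211 / 60) : ℝ)) (Ioi 8) :=
    integrableOn_Ioi_rpow_of_lt (by norm_num) (by norm_num)
  have v1 : ∫ τ in Ioi (8:ℝ), τ ^ (-(151 / 60) : ℝ) ≤ 0.04269 * (60 / 91) := by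
    rw [integral_Ioi_rpow_of_lt (by norm_num) (by norm_num)]
    have e1 : (-(151 / 60) + 1 : ℝ) = -(91 / 60) := by norm_num
    rw [e1, neg_div_neg_eq, Real.rpow_neg (by norm_num), ← Real.inv_rpow (by norm_num)]
    have h := rp833_j9448 (x := (8:ℝ)⁻¹) (c := 0.04269) (by norm_num) (by norm_num) 91 60 (by norm_num) (by norm_num)
    have e2 : (((91 : ℕ) : ℝ) / ((60 : ℕ) : ℝ)) = 91 / 60 := by norm_num
    rw [e2] at h
    rw [div_le_iff₀ (by norm_num)]
    linarith
  have v2 : ∫ τ in Ioi (8:ℝ), τ ^ (-(211 / 60) : ℝ) ≤ 0.0053362 * (60 / 151) := by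
    rw [integral_Ioi_rpow_of_lt (by norm_num) (by norm_num)]
    have e1 : (-(211 / 60) + 1 : ℝ) = -(151 / 60) := by norm_num
    rw [e1, neg_div_neg_eq, Real.rpow_neg (by norm_num), ← Real.inv_rpow (by norm_num)]
    have h := rN833_j9448 (x := (8:ℝ)⁻¹) (c := 0.0053362) (by norm_num) (by norm_num) (by norm_num)
    rw [div_le_iff₀ (by norm_num)]
    linarith
  refine ⟨fun τ => (0.75 * 0.0903 * 0.73 ^ (151 / 60 : ℝ)) * τ ^ (-(151 / 60) : ℝ) +
    (0.9125 * 0.73 ^ (151 / 60 : ℝ)) * τ ^ (-(211 / 60) : ℝ), (i1.const_mul _).add (i2.const_mul _), ?_, ?_⟩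
  · intro τ hτ
    have hτ0 : 0 < τ := by linarith
    have hβ : 0 < β := by linarith
    show τ ^ 2 * (|psi 1 τ * phi 1 (Real.sqrt β * τ)| +
      |psi 1 (Real.sqrt β * τ) * phi 1 τ|) * env τ ^ (151 / 60 : ℝ) ≤ _
    have hsτ : 6 ≤ Real.sqrt β * τ := by nlinarith
    have b1 := psi_decay τ (by linarith)
    have b2 := phi_lobe575 (Real.sqrt β * τ) (by linarith)
    have b3 := psi_decay (Real.sqrt β * τ) (by linarith)
    have b4 := phi_decN τ (by linarith)
    have e1 : (Real.sqrt β * τ) ^ 2 = β * τ ^ 2 := by rw [mul_pow, Real.sq_sqrt hβ.le]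
    rw [e1] at b3
    have b5 : |psi 1 (Real.sqrt β * τ)| ≤ 0.75 / (0.6 * τ ^ 2) := by
      refine b3.trans ?_
      apply div_le_div_of_nonneg_left (by norm_num) (by positivity)
      exact mul_le_mul_of_nonneg_right h0 (by positivity)
    have c1 : |psi 1 τ| * |phi 1 (Real.sqrt β * τ)| ≤ 0.75 / τ ^ 2 * 0.0903 :=
      mul_le_mul b1 b2 (abs_nonneg _) (by positivity)
    have c2 : |psi 1 (Real.sqrt β * τ)| * |phi 1 τ| ≤ 0.75 / (0.6 * τ ^ 2) * (0.73 / τ) :=
      mul_le_mul b5 b4 (abs_nonneg _) (by positivity)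
    have c3 : τ ^ 2 * (|psi 1 τ * phi 1 (Real.sqrt β * τ)| + |psi 1 (Real.sqrt β * τ) * phi 1 τ|) ≤
        0.75 * 0.0903 + 0.9125 / τ := by
      rw [abs_mul, abs_mul]
      calc τ ^ 2 * (|psi 1 τ| * |phi 1 (Real.sqrt β * τ)| + |psi 1 (Real.sqrt β * τ)| * |phi 1 τ|)
          ≤ τ ^ 2 * (0.75 / τ ^ 2 * 0.0903 + 0.75 / (0.6 * τ ^ 2) * (0.73 / τ)) :=
            mul_le_mul_of_nonneg_left (add_le_add c1 c2) (by positivity)
        _ = 0.75 * 0.0903 + 0.9125 / τ := by
            field_simp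
            norm_num
            ring
    have henv : env τ = 0.73 / τ := by
      unfold env
      rw [if_neg (by linarith)]
    have c4 : env τ ^ (151 / 60 : ℝ) = 0.73 ^ (151 / 60 : ℝ) * τ ^ (-(151 / 60) : ℝ) := by
      rw [henv, Real.div_rpow (by norm_num) hτ0.le, Real.rpow_neg hτ0.le, div_eq_mul_inv]
    have c5 : τ ^ (-(211 / 60) : ℝ) = τ ^ (-(151 / 60) : ℝ) / τ := by
      have : (-(211 / 60) : ℝ) = -(151 / 60) - 1 := by norm_num
      rw [this, Real.rpow_sub_one hτ0.ne']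
    beta_reduce
    rw [c4, c5]
    have c6 : 0 ≤ (0.73 : ℝ) ^ (151 / 60 : ℝ) * τ ^ (-(151 / 60) : ℝ) := by positivity
    calc τ ^ 2 * (|psi 1 τ * phi 1 (Real.sqrt β * τ)| + |psi 1 (Real.sqrt β * τ) * phi 1 τ|) *
          (0.73 ^ (151 / 60 : ℝ) * τ ^ (-(151 / 60) : ℝ))
        ≤ (0.75 * 0.0903 + 0.9125 / τ) * (0.73 ^ (151 / 60 : ℝ) * τ ^ (-(151 / 60) : ℝ)) :=
          mul_le_mul_of_nonneg_right c3 c6
      _ = _ := by ring
  · have s1 : ∫ τ in Ioi (8:ℝ), ((0.75 * 0.0903 * 0.73 ^ (151 / 60 : ℝ)) * τ ^ (-(151 / 60) : ℝ) +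
        (0.9125 * 0.73 ^ (151 / 60 : ℝ)) * τ ^ (-(211 / 60) : ℝ)) =
        (0.75 * 0.0903 * 0.73 ^ (151 / 60 : ℝ)) * (∫ τ in Ioi (8:ℝ), τ ^ (-(151 / 60) : ℝ)) +
        (0.9125 * 0.73 ^ (151 / 60 : ℝ)) * ∫ τ in Ioi (8:ℝ), τ ^ (-(211 / 60) : ℝ) := by
      rw [integral_add (i1.const_mul _) (i2.const_mul _), integral_const_mul, integral_const_mul]
    rw [s1]
    have t1 : (0.75 * 0.0903 * 0.73 ^ (151 / 60 : ℝ)) * (∫ τ in Ioi (8:ℝ), τ ^ (-(151 / 60) : ℝ)) ≤
        (0.75 * 0.0903 * 0.45293) * (0.04269 * (60 / 91)) := by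
      apply mul_le_mul _ v1 _ (by norm_num)
      · exact mul_le_mul_of_nonneg_left hC (by norm_num)
      · apply setIntegral_nonneg measurableSet_Ioi
        intro τ hτ
        exact Real.rpow_nonneg (by linarith [mem_Ioi.mp hτ]) _
    have t2 : (0.9125 * 0.73 ^ (151 / 60 : ℝ)) * (∫ τ in Ioi (8:ℝ), τ ^ (-(211 / 60) : ℝ)) ≤
        (0.9125 * 0.45293) * (0.0053362 * (60 / 151)) := by
      apply mul_le_mul _ v2 _ (by norm_num)
      · exact mul_le_mul_of_nonneg_left hC (by norm_num)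
      · apply setIntegral_nonneg measurableSet_Ioi
        intro τ hτ
        exact Real.rpow_nonneg (by linarith [mem_Ioi.mp hτ]) _
    refine (add_le_add t1 t2).trans ?_
    norm_num

theorem mulb833_j9448 {s τ m a : ℝ} (hs : 0.7745966 ≤ s) (h1 : a ≤ τ) (ha : 0 ≤ a)
    (hm : m ≤ 0.7745966 * a) : m ≤ s * τ :=
  hm.trans (mul_le_mul hs h1 ha ((by norm_num : (0:ℝ) ≤ 0.7745966).trans hs))

theorem tail_9 (β : ℝ) (h0 : 0.6 ≤ β) (h1 : β ≤ 0.65) :
    ∫ τ in Set.Ioi z0, τ ^ 2 * (|psi 1 τ * phi 1 (Real.sqrt β * τ)| +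
      |psi 1 (Real.sqrt β * τ) * phi 1 τ|) * env τ ^ (151 / 60 : ℝ) ≤ 0.012121 := by
  have hs : 0.7745966 ≤ Real.sqrt β := by
    apply Real.le_sqrt_of_sq_le
    norm_num at h0 ⊢
    linarith
  obtain ⟨hz1, hz2⟩ := z0_bounds
  have hpos : ∀ τ, z0 < τ → 0 < env τ := fun τ hτ => (env_le τ hτ.le).1
  have d9 := last833_j9448 β h0 hs
  have d8 := d9.step (a := 7) (K := 8 ^ 2 * ((0.75 / 49) * 0.1299 + 0.0201 * 0.0903) * 0.003383) (by norm_num) (by
    intro τ h1 h2
    apply cell833_j9448 (E := 0.73 / 7) (by linarith) h2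
    · refine (psi_decay τ (by linarith)).trans ?_
      apply div_le_div_of_nonneg_left (by norm_num) (by norm_num)
      exact (by norm_num : (49:ℝ) = 7 ^ 2).le.trans (pow_le_pow_left₀ (by norm_num) h1.le 2)
    · exact phi_lobe525 _ (mulb833_j9448 hs h1.le (by norm_num) (by norm_num))
    · exact psi_late _ (mulb833_j9448 hs h1.le (by norm_num) (by norm_num))
    · exact phi_lobe575 _ (by linarith)
    · exact hpos τ (by linarith)
    · exact env_late833_j9448 (by linarith) (by norm_num) h1.le le_rfl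
    · exact rN833_j9448 (by norm_num) (by norm_num) (by norm_num))
  have d7 := d8.step (a := 6) (K := 7 ^ 2 * (0.0201 * 0.1496 + 0.0201 * 0.0903) * 0.004986) (by norm_num) (by
    intro τ h1 h2
    apply cell833_j9448 (E := 0.73 / 6) (by linarith) h2
    · exact psi_late _ (by linarith)
    · exact phi_lobe _ (mulb833_j9448 hs h1.le (by norm_num) (hz2.le.trans (by norm_num)))
    · exact psi_late _ (mulb833_j9448 hs h1.le (by norm_num) (by norm_num))
    · exact phi_lobe575 _ (by linarith)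
    · exact hpos τ (by linarith)
    · exact env_late833_j9448 (by linarith) (by norm_num) h1.le le_rfl
    · exact rN833_j9448 (by norm_num) (by norm_num) (by norm_num))
  have d6 := d7.step (a := 5.5) (K := 6 ^ 2 * (0.0201 * 0.1496 + 0.02159 * 0.1086) * 0.006206) (by norm_num) (by
    intro τ h1 h2
    apply cell833_j9448 (E := 0.73 / 5.5) (by linarith) h2
    · exact psi_late _ (by linarith)
    · exact phi_lobe _ (mulb833_j9448 hs h1.le (by norm_num) (hz2.le.trans (by norm_num)))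
    · exact psi_ge833_j9448 (m := 4.25) (by norm_num) (mulb833_j9448 hs h1.le (by norm_num) (by norm_num)) (by linarith [psi_tab_17.2]) (by norm_num)
    · exact phi_lobe55 _ (by linarith)
    · exact hpos τ (by linarith)
    · exact env_late833_j9448 (by linarith) (by norm_num) h1.le le_rfl
    · exact rN833_j9448 (by norm_num) (by norm_num) (by norm_num))
  have d5 := d6.step (a := 5) (K := 5.5 ^ 2 * (0.0201 * 0.1496 + 0.051865 * 0.1441) * 0.007888) (by norm_num) (by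
    intro τ h1 h2
    apply cell833_j9448 (E := 0.146) (by linarith) h2
    · exact psi_late _ (by linarith)
    · exact phi_lobe _ (mulb833_j9448 hs h1.le (by norm_num) (hz2.le.trans (by norm_num)))
    · exact psi_ge833_j9448 (m := 3.75) (by norm_num) (mulb833_j9448 hs h1.le (by norm_num) (by norm_num)) psi_tab_15.2.le (by norm_num)
    · exact phi_lobe5 _ (by linarith)
    · exact hpos τ (by linarith)
    · exact env_late833_j9448 h1 (by norm_num) h1.le (by norm_num)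
    · exact rN833_j9448 (by norm_num) (by norm_num) (by norm_num))
  have d4 := d5.step (a := 4.5) (K := 5 ^ 2 * (0.0201 * 0.1496 + 0.089161 * 0.1496) * 0.008387) (by norm_num) (by
    intro τ h1 h2
    apply cell833_j9448 (E := 0.1496) (by linarith) h2
    · exact psi_late _ (by linarith)
    · exact phi_ge833_j9448 (m := 3.25) (by norm_num) (mulb833_j9448 hs h1.le (by norm_num) (by norm_num)) (by linarith [phi_tab_13.2]) le_rfl
    · exact psi_ge833_j9448 (m := 3.25) (by norm_num) (mulb833_j9448 hs h1.le (by norm_num) (by norm_num)) psi_tab_13.2.le (by norm_num)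
    · exact phi_lobe _ (by linarith)
    · exact hpos τ (by linarith)
    · exact env_mid833_j9448 (by linarith) h2
    · exact rN833_j9448 (by norm_num) (by norm_num) (by norm_num))
  have d3 := d4.step (a := 4) (K := 4.5 ^ 2 * (0.035743 * 0.1496 + 0.109739 * 0.1496) * 0.008387) (by norm_num) (by
    intro τ h1 h2
    apply cell833_j9448 (E := 0.1496) (by linarith) h2
    · exact psi_ge833_j9448 (m := 4) (by norm_num) h1.le psi_tab_16.2.le (by norm_num)
    · exact phi_ge833_j9448 (m := 3) (by norm_num) (mulb833_j9448 hs h1.le (by norm_num) (by norm_num)) (by linarith [phi_tab_12.2]) le_rfl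
    · exact psi_ge833_j9448 (m := 3) (by norm_num) (mulb833_j9448 hs h1.le (by norm_num) (by norm_num)) psi_tab_12.2.le (by norm_num)
    · exact phi_lobe _ (by linarith)
    · exact hpos τ (by linarith)
    · exact env_mid833_j9448 (by linarith) (by linarith)
    · exact rN833_j9448 (by norm_num) (by norm_num) (by norm_num))
  have d2 := d3.step (a := 3.75) (K := 4 ^ 2 * (0.051865 * 0.229492 + 0.131111 * 0.1496) * 0.008387) (by norm_num) (by
    intro τ h1 h2
    apply cell833_j9448 (E := 0.1496) (by linarith) h2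
    · exact psi_ge833_j9448 (m := 3.75) (by norm_num) h1.le psi_tab_15.2.le (by norm_num)
    · exact phi_ge833_j9448 (m := 2.75) (by norm_num) (mulb833_j9448 hs h1.le (by norm_num) (by norm_num)) phi_tab_11.2.le (by norm_num)
    · exact psi_ge833_j9448 (m := 2.75) (by norm_num) (mulb833_j9448 hs h1.le (by norm_num) (by norm_num)) psi_tab_11.2.le (by norm_num)
    · exact phi_lobe _ (by linarith)
    · exact hpos τ (by linarith)
    · exact env_mid833_j9448 h1.le (by linarith)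
    · exact rN833_j9448 (by norm_num) (by norm_num) (by norm_num))
  have d1 := d2.step (a := z0) (K := 3.75 ^ 2 * (0.0702 * 0.322545 + 0.152848 * 0.1496) * 0.01141) (by linarith) (by
    intro τ h1 h2
    apply cell833_j9448 (E := 0.16906) (by linarith) h2
    · exact psi_ge833_j9448 (m := 3.4947) (by norm_num) (by linarith) psi_first833_j9448 (by norm_num)
    · exact phi_ge833_j9448 (m := 2.5) (by norm_num) (mulb833_j9448 hs (hz1.le.trans h1.le) (by norm_num) (by norm_num)) phi_tab_10.2.le (by norm_num)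
    · exact psi_ge833_j9448 (m := 2.5) (by norm_num) (mulb833_j9448 hs (hz1.le.trans h1.le) (by norm_num) (by norm_num)) psi_tab_10.2.le (by norm_num)
    · exact phi_lobe _ h1.le
    · exact hpos τ h1
    · exact env_first833_j9448 (by linarith) (by linarith)
    · exact rN833_j9448 (by norm_num) (by norm_num) (by norm_num))
  refine (d1.le ?_).trans ?_
  · intro τ hτ
    have := Real.rpow_nonneg (hpos τ hτ).le (151 / 60 : ℝ)
    positivity
  · norm_num at hz1 ⊢
    linarith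



end Pool.Agent.Helper82.GC
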