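import Pool.Agent.Helper82.GC.J9429
import Pool.Agent.Helper82.GC.J9434

set_option autoImplicit false

open MeasureTheory Set

namespace Pool.Agent.Helper82.GC


theorem j9453_sq_j9453 (β : ℝ) (h0 : 0.65 ≤ β) (h1 : β ≤ 0.7) :
    0.806 ≤ Real.sqrt β ∧ Real.sqrt β ≤ 0.8367 := by
  constructor
  · apply Real.le_sqrt_of_sq_le
    refine le_trans ?_ h0
    norm_num
  · rw [Real.sqrt_le_left (by norm_num)]
    refine h1.trans ?_
    norm_num

theorem j9453_psi_j9453 (a x v : ℝ) (ha : 0 ≤ a) (ha2 : a ≤ 4.5) (hx : a ≤ x) (hv : psi 1 a ≤ v)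
    (hv2 : 0.0201 ≤ v) : |psi 1 x| ≤ v := by
  rcases le_total x 4.5 with h | h
  · have hp := psi_pos x (ha.trans hx) (by linarith)
    rw [abs_of_pos hp]
    exact (psi_antitone ⟨ha, by linarith⟩ ⟨ha.trans hx, by linarith⟩ hx).trans hv
  · exact (psi_late x h).trans hv2

theorem j9453_phi_j9453 (a x v : ℝ) (ha : 0 ≤ a) (ha2 : a ≤ 4.7) (hx : a ≤ x) (hv : phi 1 a ≤ v)
    (hv2 : 0.1496 ≤ v) : |phi 1 x| ≤ v := by
  rcases lt_or_ge x z0 with h | h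
  · have hp := phi_pos x (ha.trans hx) h
    rw [abs_of_pos hp]
    exact (phi_antitone ⟨ha, ha2⟩ ⟨ha.trans hx, by linarith [z0_bounds.2]⟩ hx).trans hv
  · exact (phi_lobe x h).trans hv2

theorem j9453_psi0_j9453 : psi 1 3.4947 ≤ 0.0703 := by
  obtain ⟨c, hc, hc2⟩ := exists_hasDerivAt_eq_slope (psi 1) (fun z => -(z * chi z))
    (a := 3.4947) (b := 3.5) (by norm_num) psi_continuous.continuousOn (fun x _ => psi_deriv x)
  have h1 := psi_tab_14.2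
  have h2 : c * chi c ≤ 0.08 := by
    have h3 := chi_decay c (by linarith [hc.1])
    have hc0 : 0 < c := by linarith [hc.1]
    have h4 : chi c ≤ 0.975 / c ^ 3 := (le_abs_self _).trans h3
    calc c * chi c ≤ c * (0.975 / c ^ 3) := mul_le_mul_of_nonneg_left h4 hc0.le
      _ = 0.975 / c ^ 2 := by field_simp
      _ ≤ 0.08 := by
        rw [div_le_iff₀ (by positivity)]
        nlinarith [hc.1]
  have h5 : psi 1 3.5 - psi 1 3.4947 = -(c * chi c) * (3.5 - 3.4947) := by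
    rw [hc2]; norm_num
  nlinarith

theorem j9453_rpow_j9453 (x E W : ℝ) (hx : 0 < x) (hE : x ≤ E) (hW0 : 0 ≤ W) (hW : E ^ 13 ≤ W ^ 5) :
    x ^ (13 / 5 : ℝ) ≤ W := by
  have h1 : (x ^ (13 / 5 : ℝ)) ^ 5 = x ^ 13 := by
    rw [← Real.rpow_natCast, ← Real.rpow_mul hx.le, ← Real.rpow_natCast]
    norm_num
  have h2 : (x ^ (13 / 5 : ℝ)) ^ 5 ≤ W ^ 5 := by
    rw [h1]
    exact (pow_le_pow_left₀ hx.le hE 13).trans hW
  exact (pow_le_pow_iff_left₀ (Real.rpow_nonneg hx.le _) hW0 (by norm_num)).1 h2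

theorem j9453_pt_j9453 (β τ P Q R S E W : ℝ) (hτ : z0 ≤ τ) (hP : |psi 1 τ| ≤ P)
    (hQ : |phi 1 (Real.sqrt β * τ)| ≤ Q)
    (hR : |psi 1 (Real.sqrt β * τ)| ≤ R) (hS : |phi 1 τ| ≤ S)
    (hE : env τ ≤ E) (hW0 : 0 ≤ W) (hW : E ^ 13 ≤ W ^ 5) :
    τ ^ 2 * (|psi 1 τ * phi 1 (Real.sqrt β * τ)| +
      |psi 1 (Real.sqrt β * τ) * phi 1 τ|) * env τ ^ (13 / 5 : ℝ) ≤
      ((P * Q + R * S) * W) * τ ^ 2 := by
  have h1 := j9453_rpow_j9453 (env τ) E W (env_le τ hτ).1 hE hW0 hW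
  have hP0 : 0 ≤ P := (abs_nonneg _).trans hP
  have hQ0 : 0 ≤ Q := (abs_nonneg _).trans hQ
  have hR0 : 0 ≤ R := (abs_nonneg _).trans hR
  have hS0 : 0 ≤ S := (abs_nonneg _).trans hS
  have h2 : |psi 1 τ * phi 1 (Real.sqrt β * τ)| + |psi 1 (Real.sqrt β * τ) * phi 1 τ| ≤
      P * Q + R * S := by
    rw [abs_mul, abs_mul]
    exact add_le_add (mul_le_mul hP hQ (abs_nonneg _) hP0) (mul_le_mul hR hS (abs_nonneg _) hR0)
  have h3 : 0 ≤ P * Q + R * S := by positivity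
  calc τ ^ 2 * (|psi 1 τ * phi 1 (Real.sqrt β * τ)| +
      |psi 1 (Real.sqrt β * τ) * phi 1 τ|) * env τ ^ (13 / 5 : ℝ) ≤
      τ ^ 2 * (P * Q + R * S) * W := by
        apply mul_le_mul (mul_le_mul_of_nonneg_left h2 (sq_nonneg _)) h1
          (Real.rpow_nonneg (env_le τ hτ).1.le _) (by positivity)
    _ = _ := by ring

/-- step function -/
noncomputable def j9453_ind_j9453 (a c C : ℝ) : ℝ → ℝ := Set.indicator (Set.Ioc a c) (fun τ : ℝ => C * τ ^ 2)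

theorem j9453_ind_int_j9453 (a c C : ℝ) (ha : z0 ≤ a) (hac : a ≤ c) :
    IntegrableOn (j9453_ind_j9453 a c C) (Set.Ioi z0) ∧
    ∫ τ in Set.Ioi z0, j9453_ind_j9453 a c C τ = C * (c ^ 3 - a ^ 3) / 3 := by
  have hsub : Set.Ioc a c ⊆ Set.Ioi z0 := fun x hx => lt_of_le_of_lt ha hx.1
  have hcont : Continuous (fun τ : ℝ => C * τ ^ 2) := by fun_prop
  constructor
  · unfold j9453_ind_j9453
    rw [integrableOn_indicator_iff measurableSet_Ioc]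
    exact (hcont.integrableOn_Icc.mono_set Set.Ioc_subset_Icc_self).mono_set
      Set.inter_subset_left
  · unfold j9453_ind_j9453
    rw [setIntegral_indicator measurableSet_Ioc, Set.inter_eq_right.2 hsub,
      ← intervalIntegral.integral_of_le hac, intervalIntegral.integral_const_mul, integral_pow]
    norm_num
    ring

theorem j9453_ind_nonneg_j9453 (a c C τ : ℝ) (hC : 0 ≤ C) : 0 ≤ j9453_ind_j9453 a c C τ :=
  Set.indicator_nonneg (fun x _ => mul_nonneg hC (sq_nonneg _)) τ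

theorem j9453_ind_mem_j9453 (a c C τ : ℝ) (h1 : a < τ) (h2 : τ ≤ c) :
    j9453_ind_j9453 a c C τ = C * τ ^ 2 := by
  unfold j9453_ind_j9453
  rw [Set.indicator_of_mem (Set.mem_Ioc.2 ⟨h1, h2⟩)]

/-- tail function -/
noncomputable def j9453_h_j9453 (A B w : ℝ) : ℝ → ℝ := Set.indicator (Set.Ioi 8)
  (fun τ : ℝ => A * w * τ ^ (-(13 / 5) : ℝ) + B * w * τ ^ (-(18 / 5) : ℝ))

theorem j9453_h_nonneg_j9453 (A B w τ : ℝ) (hA : 0 ≤ A) (hB : 0 ≤ B) (hw : 0 ≤ w) :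
    0 ≤ j9453_h_j9453 A B w τ := by
  apply Set.indicator_nonneg
  intro x hx
  have hx0 : (0:ℝ) < x := lt_trans (by norm_num) hx
  positivity

theorem j9453_h_mem_j9453 (A B w τ : ℝ) (h1 : 8 < τ) :
    j9453_h_j9453 A B w τ = A * w * τ ^ (-(13 / 5) : ℝ) + B * w * τ ^ (-(18 / 5) : ℝ) :=
  Set.indicator_of_mem (h1 : τ ∈ Set.Ioi (8:ℝ)) _

theorem j9453_h_int_j9453 (A B w : ℝ) :
    IntegrableOn (j9453_h_j9453 A B w) (Set.Ioi z0) ∧
    ∫ τ in Set.Ioi z0, j9453_h_j9453 A B w τ =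
      A * w * ((8:ℝ) ^ (-(8 / 5) : ℝ) / (8 / 5)) + B * w * ((8:ℝ) ^ (-(13 / 5) : ℝ) / (13 / 5)) := by
  have hsub : Set.Ioi (8:ℝ) ⊆ Set.Ioi z0 := Set.Ioi_subset_Ioi (by linarith [z0_bounds.2])
  have i1 : IntegrableOn (fun τ : ℝ => τ ^ (-(13 / 5) : ℝ)) (Set.Ioi 8) :=
    integrableOn_Ioi_rpow_of_lt (by norm_num) (by norm_num)
  have i2 : IntegrableOn (fun τ : ℝ => τ ^ (-(18 / 5) : ℝ)) (Set.Ioi 8) :=
    integrableOn_Ioi_rpow_of_lt (by norm_num) (by norm_num)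
  have i3 : IntegrableOn (fun τ : ℝ => A * w * τ ^ (-(13 / 5) : ℝ) + B * w * τ ^ (-(18 / 5) : ℝ))
      (Set.Ioi 8) := (i1.const_mul _).add (i2.const_mul _)
  constructor
  · unfold j9453_h_j9453
    rw [integrableOn_indicator_iff measurableSet_Ioi]
    exact i3.mono_set Set.inter_subset_left
  · unfold j9453_h_j9453
    rw [setIntegral_indicator measurableSet_Ioi, Set.inter_eq_right.2 hsub,
      integral_add (i1.const_mul _) (i2.const_mul _), integral_const_mul, integral_const_mul,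
      integral_Ioi_rpow_of_lt (by norm_num) (by norm_num),
      integral_Ioi_rpow_of_lt (by norm_num) (by norm_num)]
    norm_num

theorem j9453_exp1_j9453 (τ : ℝ) (hτ : 3.4947 ≤ τ) : Real.exp (-(vr 1) * τ ^ 2 / 2) ≤ 0.16904 := by
  have hv := vr_one_bounds.1
  have h1 : -(vr 1) * τ ^ 2 / 2 ≤ -(1.7777 : ℝ) := by nlinarith
  refine (Real.exp_le_exp.2 h1).trans ?_
  rw [Real.exp_neg]
  have h2 : (5.916 : ℝ) ≤ Real.exp 1.7777 := by
    refine le_trans ?_ (Real.sum_le_exp_of_nonneg (by norm_num : (0:ℝ) ≤ 1.7777) 16)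
    norm_num [Finset.sum_range_succ, Nat.factorial]
  calc (Real.exp 1.7777)⁻¹ ≤ (5.916 : ℝ)⁻¹ := inv_anti₀ (by norm_num) h2
    _ ≤ 0.16904 := by norm_num

theorem j9453_exp2_j9453 (τ : ℝ) (hτ : 3.75 ≤ τ) : Real.exp (-(vr 1) * τ ^ 2 / 2) ≤ 0.1496 := by
  have hv := vr_one_bounds.1
  have h1 : -(vr 1) * τ ^ 2 / 2 ≤ -(2 : ℝ) := by nlinarith
  refine (Real.exp_le_exp.2 h1).trans ?_
  rw [Real.exp_neg]
  have h2 : (7 : ℝ) ≤ Real.exp 2 := by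
    refine le_trans ?_ (Real.sum_le_exp_of_nonneg (by norm_num : (0:ℝ) ≤ 2) 10)
    norm_num [Finset.sum_range_succ, Nat.factorial]
  calc (Real.exp 2)⁻¹ ≤ (7 : ℝ)⁻¹ := inv_anti₀ (by norm_num) h2
    _ ≤ 0.1496 := by norm_num

theorem j9453_env1_j9453 (τ : ℝ) (hτ : 3.4947 ≤ τ) (h5 : τ ≤ 5) : env τ ≤ 0.16904 := by
  unfold env
  rw [if_pos h5]
  exact max_le (by norm_num) (j9453_exp1_j9453 τ hτ)

theorem j9453_env2_j9453 (τ : ℝ) (hτ : 3.75 ≤ τ) (h5 : τ ≤ 5) : env τ ≤ 0.1496 := by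
  unfold env
  rw [if_pos h5]
  exact max_le (by norm_num) (j9453_exp2_j9453 τ hτ)

theorem j9453_env3_j9453 (τ a : ℝ) (ha : 5 ≤ a) (h5 : a < τ) : env τ ≤ 0.73 / a := by
  unfold env
  rw [if_neg (by linarith)]
  exact div_le_div_of_nonneg_left (by norm_num) (by linarith) h5.le

theorem j9453_tail_j9453 (β τ w : ℝ) (h0 : 0.65 ≤ β) (h1 : β ≤ 0.7) (hτ : 8 < τ)
    (hw : (0.73 : ℝ) ^ (13 / 5 : ℝ) ≤ w) :
    τ ^ 2 * (|psi 1 τ * phi 1 (Real.sqrt β * τ)| +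
      |psi 1 (Real.sqrt β * τ) * phi 1 τ|) * env τ ^ (13 / 5 : ℝ) ≤
      0.067725 * w * τ ^ (-(13 / 5) : ℝ) + 0.84231 * w * τ ^ (-(18 / 5) : ℝ) := by
  obtain ⟨hs1, hs2⟩ := j9453_sq_j9453 β h0 h1
  have hτ0 : 0 < τ := by linarith
  have hβ0 : 0 < β := by linarith
  have hx : 6.448 ≤ Real.sqrt β * τ := by nlinarith
  have hP := psi_decay τ (by linarith)
  have hQ := phi_lobe575 (Real.sqrt β * τ) (by linarith)
  have hR := psi_decay (Real.sqrt β * τ) (by linarith)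
  have hS := phi_decN τ (by linarith)
  rw [mul_pow, Real.sq_sqrt hβ0.le] at hR
  have hsum : τ ^ 2 * (|psi 1 τ * phi 1 (Real.sqrt β * τ)| +
      |psi 1 (Real.sqrt β * τ) * phi 1 τ|) ≤ 0.067725 + 0.84231 / τ := by
    rw [abs_mul, abs_mul]
    have e1 : |psi 1 τ| * |phi 1 (Real.sqrt β * τ)| ≤ 0.75 / τ ^ 2 * 0.0903 :=
      mul_le_mul hP hQ (abs_nonneg _) (by positivity)
    have e2 : |psi 1 (Real.sqrt β * τ)| * |phi 1 τ| ≤ 0.75 / (β * τ ^ 2) * (0.73 / τ) :=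
      mul_le_mul hR hS (abs_nonneg _) (by positivity)
    calc τ ^ 2 * (|psi 1 τ| * |phi 1 (Real.sqrt β * τ)| + |psi 1 (Real.sqrt β * τ)| * |phi 1 τ|)
        ≤ τ ^ 2 * (0.75 / τ ^ 2 * 0.0903 + 0.75 / (β * τ ^ 2) * (0.73 / τ)) :=
          mul_le_mul_of_nonneg_left (add_le_add e1 e2) (sq_nonneg _)
      _ = 0.067725 + (0.5475 / β) / τ := by
          field_simp
          ring
      _ ≤ 0.067725 + 0.84231 / τ := by
          have : 0.5475 / β ≤ 0.84231 := by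
            rw [div_le_iff₀ hβ0]; linarith
          have h2 := div_le_div_of_nonneg_right this hτ0.le
          linarith
  have henv : env τ ^ (13 / 5 : ℝ) ≤ w * τ ^ (-(13 / 5) : ℝ) := by
    unfold env
    rw [if_neg (by linarith), Real.div_rpow (by norm_num) hτ0.le, Real.rpow_neg hτ0.le,
      div_eq_mul_inv]
    exact mul_le_mul_of_nonneg_right hw (by positivity)
  have hz : z0 ≤ τ := by linarith [z0_bounds.2]
  calc τ ^ 2 * (|psi 1 τ * phi 1 (Real.sqrt β * τ)| +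
      |psi 1 (Real.sqrt β * τ) * phi 1 τ|) * env τ ^ (13 / 5 : ℝ)
      ≤ (0.067725 + 0.84231 / τ) * (w * τ ^ (-(13 / 5) : ℝ)) :=
        mul_le_mul hsum henv (Real.rpow_nonneg (env_le τ hz).1.le _) (by positivity)
    _ = _ := by
        have : τ ^ (-(18 / 5) : ℝ) = τ ^ (-(13 / 5) : ℝ) / τ := by
          rw [← Real.rpow_sub_one hτ0.ne']
          norm_num
        rw [this]
        ring

theorem j9453_sum9_j9453 (x1 x2 x3 x4 x5 x6 x7 x8 x9 : ℝ) (h1 : 0 ≤ x1) (h2 : 0 ≤ x2) (h3 : 0 ≤ x3)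
    (h4 : 0 ≤ x4) (h5 : 0 ≤ x5) (h6 : 0 ≤ x6) (h7 : 0 ≤ x7) (h8 : 0 ≤ x8) (h9 : 0 ≤ x9) :
    x1 ≤ x1 + x2 + x3 + x4 + x5 + x6 + x7 + x8 + x9 ∧
    x2 ≤ x1 + x2 + x3 + x4 + x5 + x6 + x7 + x8 + x9 ∧
    x3 ≤ x1 + x2 + x3 + x4 + x5 + x6 + x7 + x8 + x9 ∧
    x4 ≤ x1 + x2 + x3 + x4 + x5 + x6 + x7 + x8 + x9 ∧
    x5 ≤ x1 + x2 + x3 + x4 + x5 + x6 + x7 + x8 + x9 ∧
    x6 ≤ x1 + x2 + x3 + x4 + x5 + x6 + x7 + x8 + x9 ∧
    x7 ≤ x1 + x2 + x3 + x4 + x5 + x6 + x7 + x8 + x9 ∧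
    x8 ≤ x1 + x2 + x3 + x4 + x5 + x6 + x7 + x8 + x9 ∧
    x9 ≤ x1 + x2 + x3 + x4 + x5 + x6 + x7 + x8 + x9 := by
  refine ⟨?_, ?_, ?_, ?_, ?_, ?_, ?_, ?_, ?_⟩ <;> linarith

theorem j9453_add_j9453 (f g : ℝ → ℝ) (A B : ℝ)
    (hf : IntegrableOn f (Set.Ioi z0) ∧ ∫ τ in Set.Ioi z0, f τ = A)
    (hg : IntegrableOn g (Set.Ioi z0) ∧ ∫ τ in Set.Ioi z0, g τ = B) :
    IntegrableOn (fun τ => f τ + g τ) (Set.Ioi z0) ∧
      ∫ τ in Set.Ioi z0, (f τ + g τ) = A + B := by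
  refine ⟨hf.1.add hg.1, ?_⟩
  rw [integral_add hf.1 hg.1, hf.2, hg.2]

theorem j9453_mul_j9453 (s τ b c : ℝ) (hs : 0.806 ≤ s) (hb : 0 ≤ b) (hτ : b ≤ τ) (h : c ≤ 0.806 * b) :
    c ≤ s * τ :=
  h.trans (mul_le_mul hs hτ hb (le_trans (by norm_num) hs))

theorem j9453_psq_j9453 (τ : ℝ) (hτ : 7 ≤ τ) : (0.75 : ℝ) / τ ^ 2 ≤ 0.01531 := by
  have h : (7 : ℝ) ^ 2 ≤ τ ^ 2 := pow_le_pow_left₀ (by norm_num) hτ 2
  exact (div_le_div_of_nonneg_left (by norm_num) (by norm_num) h).trans (by norm_num)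

theorem j9453_bd_j9453 (β : ℝ) (h0 : 0.65 ≤ β) (h1 : β ≤ 0.7) (C1 C2 C3 C4 C5 C6 C7 C8 : ℝ)
    (hC1 : ((0.0703 * 0.229492 + 0.131111 * 0.1496) * 0.009836) ≤ C1)
    (hC2 : ((0.051865 * 0.1496 + 0.109739 * 0.1496) * 0.007159) ≤ C2)
    (hC3 : ((0.035743 * 0.1496 + 0.109739 * 0.1496) * 0.007159) ≤ C3)
    (hC4 : ((0.0201 * 0.1496 + 0.069760 * 0.1496) * 0.007159) ≤ C4)
    (hC5 : ((0.0201 * 0.1496 + 0.035743 * 0.1441) * 0.00672) ≤ C5)
    (hC6 : ((0.0201 * 0.1496 + 0.021590 * 0.1086) * 0.005245) ≤ C6)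
    (hC7 : ((0.0201 * 0.1496 + 0.0201 * 0.0903) * 0.004183) ≤ C7)
    (hC8 : ((0.01531 * 0.1086 + 0.0201 * 0.0903) * 0.002802) ≤ C8) (τ : ℝ) (hτ : z0 < τ) :
    τ ^ 2 * (|psi 1 τ * phi 1 (Real.sqrt β * τ)| +
      |psi 1 (Real.sqrt β * τ) * phi 1 τ|) * env τ ^ (13 / 5 : ℝ) ≤
      j9453_ind_j9453 z0 3.75 C1 τ + j9453_ind_j9453 3.75 4 C2 τ + j9453_ind_j9453 4 4.5 C3 τ +
      j9453_ind_j9453 4.5 5 C4 τ + j9453_ind_j9453 5 5.5 C5 τ + j9453_ind_j9453 5.5 6 C6 τ +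
      j9453_ind_j9453 6 7 C7 τ + j9453_ind_j9453 7 8 C8 τ + j9453_h_j9453 0.067725 0.84231 0.4413 τ := by
  obtain ⟨hs1, hs2⟩ := j9453_sq_j9453 β h0 h1
  have hz1 := z0_bounds.1
  have hw : (0.73 : ℝ) ^ (13 / 5 : ℝ) ≤ 0.4413 :=
    j9453_rpow_j9453 0.73 0.73 0.4413 (by norm_num) le_rfl (by norm_num) (by norm_num)
  have n1 := j9453_ind_nonneg_j9453 z0 3.75 C1 τ (le_trans (by norm_num) hC1)
  have n2 := j9453_ind_nonneg_j9453 3.75 4 C2 τ (le_trans (by norm_num) hC2)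
  have n3 := j9453_ind_nonneg_j9453 4 4.5 C3 τ (le_trans (by norm_num) hC3)
  have n4 := j9453_ind_nonneg_j9453 4.5 5 C4 τ (le_trans (by norm_num) hC4)
  have n5 := j9453_ind_nonneg_j9453 5 5.5 C5 τ (le_trans (by norm_num) hC5)
  have n6 := j9453_ind_nonneg_j9453 5.5 6 C6 τ (le_trans (by norm_num) hC6)
  have n7 := j9453_ind_nonneg_j9453 6 7 C7 τ (le_trans (by norm_num) hC7)
  have n8 := j9453_ind_nonneg_j9453 7 8 C8 τ (le_trans (by norm_num) hC8)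
  have n9 := j9453_h_nonneg_j9453 0.067725 0.84231 0.4413 τ (by norm_num) (by norm_num) (by norm_num)
  obtain ⟨s1, s2, s3, s4, s5, s6, s7, s8, s9⟩ := j9453_sum9_j9453 _ _ _ _ _ _ _ _ _ n1 n2 n3 n4 n5 n6
    n7 n8 n9
  have hsq := sq_nonneg τ
  rcases le_or_gt τ 3.75 with c1 | c1
  · refine le_trans ?_ s1
    rw [j9453_ind_mem_j9453 z0 3.75 C1 τ hτ c1]
    refine le_trans ?_ (mul_le_mul_of_nonneg_right hC1 hsq)
    exact j9453_pt_j9453 β τ 0.0703 0.229492 0.131111 0.1496 0.16904 0.009836 hτ.le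
      (j9453_psi_j9453 3.4947 τ _ (by norm_num) (by norm_num) (hz1.le.trans hτ.le) j9453_psi0_j9453 (by norm_num))
      (j9453_phi_j9453 2.75 _ _ (by norm_num) (by norm_num) (j9453_mul_j9453 _ τ 3.4947 _ hs1 (by norm_num) (hz1.le.trans hτ.le) (by norm_num)) phi_tab_11.2.le (by norm_num))
      (j9453_psi_j9453 2.75 _ _ (by norm_num) (by norm_num) (j9453_mul_j9453 _ τ 3.4947 _ hs1 (by norm_num) (hz1.le.trans hτ.le) (by norm_num)) psi_tab_11.2.le (by norm_num))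
      (phi_lobe τ hτ.le) (j9453_env1_j9453 τ (hz1.le.trans hτ.le) (c1.trans (by norm_num))) (by norm_num) (by norm_num)
  rcases le_or_gt τ 4 with c2 | c2
  · refine le_trans ?_ s2
    rw [j9453_ind_mem_j9453 3.75 4 C2 τ c1 c2]
    refine le_trans ?_ (mul_le_mul_of_nonneg_right hC2 hsq)
    exact j9453_pt_j9453 β τ 0.051865 0.1496 0.109739 0.1496 0.1496 0.007159 hτ.le
      (j9453_psi_j9453 3.75 τ _ (by norm_num) (by norm_num) c1.le psi_tab_15.2.le (by norm_num))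
      (j9453_phi_j9453 3 _ _ (by norm_num) (by norm_num) (j9453_mul_j9453 _ τ 3.75 _ hs1 (by norm_num) c1.le (by norm_num))
        (phi_tab_12.2.le.trans (by norm_num)) (by norm_num))
      (j9453_psi_j9453 3 _ _ (by norm_num) (by norm_num) (j9453_mul_j9453 _ τ 3.75 _ hs1 (by norm_num) c1.le (by norm_num)) psi_tab_12.2.le (by norm_num))
      (phi_lobe τ hτ.le) (j9453_env2_j9453 τ c1.le (c2.trans (by norm_num))) (by norm_num) (by norm_num)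
  rcases le_or_gt τ 4.5 with c3 | c3
  · refine le_trans ?_ s3
    rw [j9453_ind_mem_j9453 4 4.5 C3 τ c2 c3]
    refine le_trans ?_ (mul_le_mul_of_nonneg_right hC3 hsq)
    exact j9453_pt_j9453 β τ 0.035743 0.1496 0.109739 0.1496 0.1496 0.007159 hτ.le
      (j9453_psi_j9453 4 τ _ (by norm_num) (by norm_num) c2.le psi_tab_16.2.le (by norm_num))
      (j9453_phi_j9453 3 _ _ (by norm_num) (by norm_num) (j9453_mul_j9453 _ τ 4 _ hs1 (by norm_num) c2.le (by norm_num))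
        (phi_tab_12.2.le.trans (by norm_num)) (by norm_num))
      (j9453_psi_j9453 3 _ _ (by norm_num) (by norm_num) (j9453_mul_j9453 _ τ 4 _ hs1 (by norm_num) c2.le (by norm_num)) psi_tab_12.2.le (by norm_num))
      (phi_lobe τ hτ.le) (j9453_env2_j9453 τ c1.le (c3.trans (by norm_num))) (by norm_num) (by norm_num)
  rcases le_or_gt τ 5 with c4 | c4
  · refine le_trans ?_ s4
    rw [j9453_ind_mem_j9453 4.5 5 C4 τ c3 c4]
    refine le_trans ?_ (mul_le_mul_of_nonneg_right hC4 hsq)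
    exact j9453_pt_j9453 β τ 0.0201 0.1496 0.069760 0.1496 0.1496 0.007159 hτ.le
      (psi_late τ c3.le)
      (j9453_phi_j9453 3 _ _ (by norm_num) (by norm_num) (j9453_mul_j9453 _ τ 4.5 _ hs1 (by norm_num) c3.le (by norm_num))
        (phi_tab_12.2.le.trans (by norm_num)) (by norm_num))
      (j9453_psi_j9453 3.5 _ _ (by norm_num) (by norm_num) (j9453_mul_j9453 _ τ 4.5 _ hs1 (by norm_num) c3.le (by norm_num)) psi_tab_14.2.le (by norm_num))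
      (phi_lobe τ hτ.le) (j9453_env2_j9453 τ c1.le c4) (by norm_num) (by norm_num)
  rcases le_or_gt τ 5.5 with c5 | c5
  · refine le_trans ?_ s5
    rw [j9453_ind_mem_j9453 5 5.5 C5 τ c4 c5]
    refine le_trans ?_ (mul_le_mul_of_nonneg_right hC5 hsq)
    exact j9453_pt_j9453 β τ 0.0201 0.1496 0.035743 0.1441 (0.73 / 5) 0.00672 hτ.le
      (psi_late τ c3.le)
      (j9453_phi_j9453 3 _ _ (by norm_num) (by norm_num) (j9453_mul_j9453 _ τ 5 _ hs1 (by norm_num) c4.le (by norm_num))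
        (phi_tab_12.2.le.trans (by norm_num)) (by norm_num))
      (j9453_psi_j9453 4 _ _ (by norm_num) (by norm_num) (j9453_mul_j9453 _ τ 5 _ hs1 (by norm_num) c4.le (by norm_num)) psi_tab_16.2.le (by norm_num))
      (phi_lobe5 τ c4.le) (j9453_env3_j9453 τ 5 (by norm_num) c4) (by norm_num) (by norm_num)
  rcases le_or_gt τ 6 with c6 | c6
  · refine le_trans ?_ s6
    rw [j9453_ind_mem_j9453 5.5 6 C6 τ c5 c6]
    refine le_trans ?_ (mul_le_mul_of_nonneg_right hC6 hsq)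
    exact j9453_pt_j9453 β τ 0.0201 0.1496 0.021590 0.1086 (0.73 / 5.5) 0.005245 hτ.le
      (psi_late τ c3.le)
      (j9453_phi_j9453 3 _ _ (by norm_num) (by norm_num) (j9453_mul_j9453 _ τ 5.5 _ hs1 (by norm_num) c5.le (by norm_num))
        (phi_tab_12.2.le.trans (by norm_num)) (by norm_num))
      (j9453_psi_j9453 4.25 _ _ (by norm_num) (by norm_num) (j9453_mul_j9453 _ τ 5.5 _ hs1 (by norm_num) c5.le (by norm_num)) psi_tab_17.2.le (by norm_num))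
      (phi_lobe55 τ c5.le) (j9453_env3_j9453 τ 5.5 (by norm_num) c5) (by norm_num)
      (by norm_num)
  rcases le_or_gt τ 7 with c7 | c7
  · refine le_trans ?_ s7
    rw [j9453_ind_mem_j9453 6 7 C7 τ c6 c7]
    refine le_trans ?_ (mul_le_mul_of_nonneg_right hC7 hsq)
    exact j9453_pt_j9453 β τ 0.0201 0.1496 0.0201 0.0903 (0.73 / 6) 0.004183 hτ.le
      (psi_late τ c3.le)
      (j9453_phi_j9453 3 _ _ (by norm_num) (by norm_num) (j9453_mul_j9453 _ τ 6 _ hs1 (by norm_num) c6.le (by norm_num))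
        (phi_tab_12.2.le.trans (by norm_num)) (by norm_num))
      (psi_late _ (j9453_mul_j9453 _ τ 6 _ hs1 (by norm_num) c6.le (by norm_num)))
      (phi_lobe575 τ (le_trans (by norm_num) c6.le)) (j9453_env3_j9453 τ 6 (by norm_num) c6) (by norm_num)
      (by norm_num)
  rcases le_or_gt τ 8 with c8 | c8
  · refine le_trans ?_ s8
    rw [j9453_ind_mem_j9453 7 8 C8 τ c7 c8]
    refine le_trans ?_ (mul_le_mul_of_nonneg_right hC8 hsq)
    have hps : |psi 1 τ| ≤ 0.01531 :=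
      (psi_decay τ (le_trans (by norm_num) c7.le)).trans (j9453_psq_j9453 τ c7.le)
    exact j9453_pt_j9453 β τ 0.01531 0.1086 0.0201 0.0903 (0.73 / 7) 0.002802 hτ.le
      hps (phi_lobe55 _ (j9453_mul_j9453 _ τ 7 _ hs1 (by norm_num) c7.le (by norm_num))) (psi_late _ (j9453_mul_j9453 _ τ 7 _ hs1 (by norm_num) c7.le (by norm_num)))
      (phi_lobe575 τ (le_trans (by norm_num) c7.le)) (j9453_env3_j9453 τ 7 (by norm_num) c7) (by norm_num)
      (by norm_num)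
  · refine le_trans ?_ s9
    rw [j9453_h_mem_j9453 0.067725 0.84231 0.4413 τ c8]
    exact j9453_tail_j9453 β τ 0.4413 h0 h1 c8 hw

theorem j9453_8_j9453 : (8:ℝ) ^ (-(8 / 5) : ℝ) ≤ 0.0359 ∧ (8:ℝ) ^ (-(13 / 5) : ℝ) ≤ 0.0359 / 8 := by
  have h8 : (8:ℝ) ^ (-(8 / 5) : ℝ) ≤ 0.0359 := by
    have h9 : ((8:ℝ) ^ (-(8 / 5) : ℝ)) ^ 5 ≤ 0.0359 ^ 5 := by
      rw [← Real.rpow_natCast, ← Real.rpow_mul (by norm_num)]
      have : (-(8 / 5) : ℝ) * ((5 : ℕ) : ℝ) = ((-8 : ℤ) : ℝ) := by norm_num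
      rw [this, Real.rpow_intCast]
      norm_num
    exact (pow_le_pow_iff_left₀ (by positivity) (by norm_num) (by norm_num)).1 h9
  refine ⟨h8, ?_⟩
  have : (8:ℝ) ^ (-(13 / 5) : ℝ) = (8:ℝ) ^ (-(8 / 5) : ℝ) / 8 := by
    rw [← Real.rpow_sub_one (by norm_num)]
    norm_num
  rw [this]
  exact div_le_div_of_nonneg_right h8 (by norm_num)

theorem tail_10 (β : ℝ) (h0 : 0.65 ≤ β) (h1 : β ≤ 0.7) :
    ∫ τ in Set.Ioi z0, τ ^ 2 * (|psi 1 τ * phi 1 (Real.sqrt β * τ)| +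
      |psi 1 (Real.sqrt β * τ) * phi 1 τ|) * env τ ^ (13 / 5 : ℝ) ≤ 0.009029 := by
  obtain ⟨hz1, hz2⟩ := z0_bounds
  have hbd := j9453_bd_j9453 β h0 h1 _ _ _ _ _ _ _ _ le_rfl le_rfl le_rfl le_rfl le_rfl le_rfl le_rfl
    le_rfl
  obtain ⟨hint, hval⟩ := j9453_add_j9453 _ _ _ _ (j9453_add_j9453 _ _ _ _ (j9453_add_j9453 _ _ _ _ (j9453_add_j9453 _ _ _ _
    (j9453_add_j9453 _ _ _ _ (j9453_add_j9453 _ _ _ _ (j9453_add_j9453 _ _ _ _ (j9453_add_j9453 _ _ _ _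
    (j9453_ind_int_j9453 z0 3.75 ((0.0703 * 0.229492 + 0.131111 * 0.1496) * 0.009836) le_rfl (by linarith))
    (j9453_ind_int_j9453 3.75 4 ((0.051865 * 0.1496 + 0.109739 * 0.1496) * 0.007159) (by linarith)
      (by norm_num)))
    (j9453_ind_int_j9453 4 4.5 ((0.035743 * 0.1496 + 0.109739 * 0.1496) * 0.007159) (by linarith)
      (by norm_num)))
    (j9453_ind_int_j9453 4.5 5 ((0.0201 * 0.1496 + 0.069760 * 0.1496) * 0.007159) (by linarith)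
      (by norm_num)))
    (j9453_ind_int_j9453 5 5.5 ((0.0201 * 0.1496 + 0.035743 * 0.1441) * 0.00672) (by linarith)
      (by norm_num)))
    (j9453_ind_int_j9453 5.5 6 ((0.0201 * 0.1496 + 0.021590 * 0.1086) * 0.005245) (by linarith)
      (by norm_num)))
    (j9453_ind_int_j9453 6 7 ((0.0201 * 0.1496 + 0.0201 * 0.0903) * 0.004183) (by linarith)
      (by norm_num)))
    (j9453_ind_int_j9453 7 8 ((0.01531 * 0.1086 + 0.0201 * 0.0903) * 0.002802) (by linarith)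
      (by norm_num)))
    (j9453_h_int_j9453 0.067725 0.84231 0.4413)
  have hmono := integral_mono_of_nonneg (μ := volume.restrict (Set.Ioi z0))
    (f := fun τ => τ ^ 2 * (|psi 1 τ * phi 1 (Real.sqrt β * τ)| +
      |psi 1 (Real.sqrt β * τ) * phi 1 τ|) * env τ ^ (13 / 5 : ℝ))
    (by
      refine (ae_restrict_iff' measurableSet_Ioi).2 (Filter.Eventually.of_forall fun τ hτ => ?_)
      have := (env_le τ (le_of_lt hτ)).1
      have h2 : 0 ≤ env τ ^ (13 / 5 : ℝ) := Real.rpow_nonneg this.le _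
      show 0 ≤ τ ^ 2 * (|psi 1 τ * phi 1 (Real.sqrt β * τ)| +
        |psi 1 (Real.sqrt β * τ) * phi 1 τ|) * env τ ^ (13 / 5 : ℝ)
      positivity)
    hint
    ((ae_restrict_iff' measurableSet_Ioi).2 (Filter.Eventually.of_forall fun τ hτ => hbd τ hτ))
  refine hmono.trans ?_
  rw [hval]
  have hz3 : (3.4947 : ℝ) ^ 3 ≤ z0 ^ 3 := pow_le_pow_left₀ (by norm_num) hz1.le 3
  obtain ⟨h8, h13⟩ := j9453_8_j9453
  generalize (8:ℝ) ^ (-(8 / 5) : ℝ) = X at h8 ⊢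
  generalize (8:ℝ) ^ (-(13 / 5) : ℝ) = Y at h13 ⊢
  generalize z0 ^ 3 = Z at hz3 ⊢
  clear hbd hint hval hmono
  norm_num at hz3 h8 h13 ⊢
  linarith



end Pool.Agent.Helper82.GC
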