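import Pool.Agent.Helper82.GC.J9429
import Pool.Agent.Helper82.GC.J9434

set_option autoImplicit false

open MeasureTheory Set

namespace Pool.Agent.Helper82.GC


/-- tail bound -/
def HB11_j9454 (f : ℝ → ℝ) (a T : ℝ) : Prop :=
  ∃ g : ℝ → ℝ, IntegrableOn g (Ioi a) ∧ (∀ τ, a < τ → f τ ≤ g τ) ∧ ∫ τ in Ioi a, g τ ≤ T

theorem HB11_step_j9454 {f : ℝ → ℝ} {a c C T : ℝ} (hac : a ≤ c) (hC : ∀ τ, a < τ → τ ≤ c → f τ ≤ C)
    (h : HB11_j9454 f c T) : HB11_j9454 f a (C * (c - a) + T) := by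
  obtain ⟨g, hg1, hg2, hg3⟩ := h
  set g' : ℝ → ℝ := fun τ => if τ ≤ c then C else g τ with hg'
  have e1 : EqOn g' (fun _ => C) (Ioc a c) := fun τ hτ => if_pos hτ.2
  have e2 : EqOn g' g (Ioi c) := fun τ hτ => if_neg (not_le.2 hτ)
  have i1 : IntegrableOn g' (Ioc a c) := by
    refine IntegrableOn.congr_fun ?_ e1.symm measurableSet_Ioc
    exact integrableOn_const (by simp)
  have i2 : IntegrableOn g' (Ioi c) := hg1.congr_fun e2.symm measurableSet_Ioi
  have hU : Ioc a c ∪ Ioi c = Ioi a := Ioc_union_Ioi_eq_Ioi hac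
  refine ⟨g', ?_, ?_, ?_⟩
  · rw [← hU]; exact i1.union i2
  · intro τ hτ
    by_cases h : τ ≤ c
    · rw [e1 ⟨hτ, h⟩]; exact hC τ hτ h
    · rw [e2 (not_le.1 h)]; exact hg2 τ (not_le.1 h)
  · rw [← hU, setIntegral_union (Ioc_disjoint_Ioi le_rfl) measurableSet_Ioi i1 i2,
      setIntegral_congr_fun measurableSet_Ioc e1, setIntegral_congr_fun measurableSet_Ioi e2,
      setIntegral_const]
    have : (volume : Measure ℝ).real (Ioc a c) = c - a := by
      rw [Measure.real, Real.volume_Ioc, ENNReal.toReal_ofReal (by linarith)]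
    rw [this, smul_eq_mul]
    linarith [mul_comm C (c - a)]

theorem HB11_fin_j9454 {f : ℝ → ℝ} {a T : ℝ} (h : HB11_j9454 f a T) (h0 : ∀ τ, a < τ → 0 ≤ f τ) :
    ∫ τ in Ioi a, f τ ≤ T := by
  obtain ⟨g, hg1, hg2, hg3⟩ := h
  refine le_trans ?_ hg3
  apply integral_mono_of_nonneg
  · filter_upwards [ae_restrict_mem measurableSet_Ioi] with τ hτ
    exact h0 τ hτ
  · exact hg1
  · filter_upwards [ae_restrict_mem measurableSet_Ioi] with τ hτ
    exact hg2 τ hτ

theorem rpow11_j9454 {e E : ℝ} (he : 0 ≤ e) (hE : 0 ≤ E) (h : e ^ 14 ≤ E ^ 5) :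
    e ^ (14 / 5 : ℝ) ≤ E := by
  have h1 : e ^ (14 / 5 : ℝ) = (e ^ 14) ^ (1 / 5 : ℝ) := by
    rw [← Real.rpow_natCast e 14, ← Real.rpow_mul he]; norm_num
  have h2 : (E ^ 5) ^ (1 / 5 : ℝ) = E := by
    rw [← Real.rpow_natCast E 5, ← Real.rpow_mul hE]; norm_num
  rw [h1, ← h2]
  exact Real.rpow_le_rpow (by positivity) h (by norm_num)

theorem psi_cell11_j9454 (t v : ℝ) (h0 : 0 ≤ t) (h1 : t ≤ 4.5) (hv : psi 1 t ≤ v) (hv2 : 0.0201 ≤ v)
    (s : ℝ) (hs : t ≤ s) : |psi 1 s| ≤ v := by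
  rcases le_total s 4.5 with h | h
  · have hp := psi_pos s (h0.trans hs) (by linarith)
    rw [abs_of_pos hp]
    refine le_trans ?_ hv
    exact psi_antitone ⟨h0, by linarith⟩ ⟨h0.trans hs, by linarith⟩ hs
  · exact (psi_late s h).trans hv2

theorem phi_cell11_j9454 (t v : ℝ) (h0 : 0 ≤ t) (h1 : t ≤ 3.4947) (hv : phi 1 t ≤ v) (hv2 : 0.1496 ≤ v)
    (s : ℝ) (hs : t ≤ s) : |phi 1 s| ≤ v := by
  have hz := z0_bounds
  rcases lt_or_ge s z0 with h | h
  · have hp := phi_pos s (h0.trans hs) h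
    rw [abs_of_pos hp]
    refine le_trans ?_ hv
    exact phi_antitone ⟨h0, by linarith⟩ ⟨h0.trans hs, by linarith⟩ hs
  · exact (phi_lobe s h).trans hv2

theorem psi_start11_j9454 : psi 1 3.4947 ≤ 0.0702 := by
  obtain ⟨c, hc, hc'⟩ := exists_hasDerivAt_eq_slope (psi 1) (fun z => -(z * chi z))
    (show (3.4947 : ℝ) < 3.5 by norm_num) psi_continuous.continuousOn
    (fun z _ => psi_deriv z)
  have h1 : |chi c| ≤ 0.975 / c ^ 3 := chi_decay c (by linarith [hc.1])
  have hc0 : 0 < c := by linarith [hc.1]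
  have h2 : c * chi c ≤ 0.08 := by
    have h3 : chi c ≤ 0.975 / c ^ 3 := (le_abs_self _).trans h1
    have h4 : c * chi c ≤ c * (0.975 / c ^ 3) := mul_le_mul_of_nonneg_left h3 hc0.le
    have h5 : c * (0.975 / c ^ 3) = 0.975 / c ^ 2 := by field_simp
    have h6 : 0.975 / c ^ 2 ≤ 0.08 := by
      rw [div_le_iff₀ (by positivity)]
      nlinarith [hc.1]
    linarith
  have h7 := psi_tab_14.2
  rw [eq_div_iff (by norm_num)] at hc'
  norm_num at hc' h7 h2 ⊢
  linarith

theorem env11a_j9454 (τ : ℝ) (h : z0 ≤ τ) (h5 : τ ≤ 5) : env τ ≤ 0.16903 := by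
  have hz := z0_bounds
  unfold env
  rw [if_pos h5]
  apply max_le (by norm_num)
  have hv := vr_one_bounds.1
  have h1 : (3.4947 : ℝ) ^ 2 ≤ τ ^ 2 := by
    apply pow_le_pow_left₀ (by norm_num)
    linarith
  have h2 : 1.7777 ≤ vr 1 * τ ^ 2 / 2 := by
    have : 0.29112 * (3.4947 : ℝ) ^ 2 ≤ vr 1 * τ ^ 2 :=
      mul_le_mul hv.le h1 (by positivity) (by linarith)
    norm_num at this ⊢
    linarith
  have h3 : Real.exp (-(vr 1) * τ ^ 2 / 2) ≤ Real.exp (-1.7777) := by
    apply Real.exp_le_exp.2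
    have : -(vr 1) * τ ^ 2 / 2 = -(vr 1 * τ ^ 2 / 2) := by ring
    rw [this]
    linarith
  refine h3.trans ?_
  rw [Real.exp_neg]
  have h4 := Real.sum_le_exp_of_nonneg (show (0 : ℝ) ≤ 1.7777 by norm_num) 14
  norm_num [Finset.sum_range_succ, Nat.factorial] at h4
  rw [inv_le_comm₀ (Real.exp_pos _) (by norm_num)]
  norm_num at h4 ⊢
  linarith

theorem env11b_j9454 (τ : ℝ) (h : 3.75 ≤ τ) (h5 : τ ≤ 5) : env τ ≤ 0.1496 := by
  unfold env
  rw [if_pos h5]
  apply max_le (by norm_num)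
  have hv := vr_one_bounds.1
  have h1 : (3.75 : ℝ) ^ 2 ≤ τ ^ 2 := by
    apply pow_le_pow_left₀ (by norm_num) h
  have h2 : 2 ≤ vr 1 * τ ^ 2 / 2 := by
    have : 0.29112 * (3.75 : ℝ) ^ 2 ≤ vr 1 * τ ^ 2 :=
      mul_le_mul hv.le h1 (by positivity) (by linarith)
    norm_num at this ⊢
    linarith
  have h3 : Real.exp (-(vr 1) * τ ^ 2 / 2) ≤ Real.exp (-2) := by
    apply Real.exp_le_exp.2
    have : -(vr 1) * τ ^ 2 / 2 = -(vr 1 * τ ^ 2 / 2) := by ring
    rw [this]
    linarith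
  refine h3.trans ?_
  rw [Real.exp_neg]
  have h4 := Real.sum_le_exp_of_nonneg (show (0 : ℝ) ≤ 2 by norm_num) 8
  norm_num [Finset.sum_range_succ, Nat.factorial] at h4
  rw [inv_le_comm₀ (Real.exp_pos _) (by norm_num)]
  norm_num at h4 ⊢
  linarith

theorem env11c_j9454 (τ : ℝ) (h5 : 5 < τ) : env τ = 0.73 / τ := by
  unfold env
  rw [if_neg (not_le.2 h5)]

/-- bound on a cell -/
theorem cell11_j9454 (β τ c A B A' B' e E : ℝ) (hτ0 : z0 < τ) (hτ : τ ≤ c)
    (hA : |psi 1 τ| ≤ A) (hB : |phi 1 (Real.sqrt β * τ)| ≤ B)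
    (hA' : |psi 1 (Real.sqrt β * τ)| ≤ A') (hB' : |phi 1 τ| ≤ B') (he : env τ ≤ e)
    (hE : 0 ≤ E) (heE : e ^ 14 ≤ E ^ 5) :
    τ ^ 2 * (|psi 1 τ * phi 1 (Real.sqrt β * τ)| +
      |psi 1 (Real.sqrt β * τ) * phi 1 τ|) * env τ ^ (14 / 5 : ℝ) ≤
      c ^ 2 * (A * B + A' * B') * E := by
  have hz := z0_bounds
  have hτ1 : 0 ≤ τ := by linarith
  have henv := (env_le τ hτ0.le).1
  have hA0 : 0 ≤ A := (abs_nonneg _).trans hA
  have hA0' : 0 ≤ A' := (abs_nonneg _).trans hA'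
  have hB0 : 0 ≤ B := (abs_nonneg _).trans hB
  have hB0' : 0 ≤ B' := (abs_nonneg _).trans hB'
  have h1 : env τ ^ (14 / 5 : ℝ) ≤ E :=
    (Real.rpow_le_rpow henv.le he (by norm_num)).trans (rpow11_j9454 (henv.le.trans he) hE heE)
  have h0 : 0 ≤ env τ ^ (14 / 5 : ℝ) := Real.rpow_nonneg henv.le _
  rw [abs_mul, abs_mul]
  gcongr

theorem tail_11 (β : ℝ) (h0 : 0.7 ≤ β) (h1 : β ≤ 0.8) :
    ∫ τ in Set.Ioi z0, τ ^ 2 * (|psi 1 τ * phi 1 (Real.sqrt β * τ)| +
      |psi 1 (Real.sqrt β * τ) * phi 1 τ|) * env τ ^ (14 / 5 : ℝ) ≤ 0.005567 := by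
  have hz := z0_bounds
  have hβ : 0.8366 ≤ Real.sqrt β := by
    apply Real.le_sqrt_of_sq_le
    norm_num at h0 ⊢
    linarith
  set f : ℝ → ℝ := fun τ => τ ^ 2 * (|psi 1 τ * phi 1 (Real.sqrt β * τ)| +
      |psi 1 (Real.sqrt β * τ) * phi 1 τ|) * env τ ^ (14 / 5 : ℝ) with hf
  have hs : ∀ τ a : ℝ, 0 ≤ τ → a ≤ 0.8366 * τ → a ≤ Real.sqrt β * τ := by
    intro τ a hτ ha
    exact ha.trans (mul_le_mul_of_nonneg_right hβ hτ)
  have hfnn : ∀ τ, z0 < τ → 0 ≤ f τ := by
    intro τ hτ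
    have henv := (env_le τ hτ.le).1
    rw [hf]
    have : 0 ≤ env τ ^ (14 / 5 : ℝ) := Real.rpow_nonneg henv.le _
    positivity
  -- the tail
  have hT8 : HB11_j9454 f 8 (0.067725 * 0.41429 * (0.0236831 / 1.8) +
      0.5475 / 0.7 * 0.41429 * (0.00296039 / 2.8)) := by
    refine ⟨fun τ => 0.067725 * 0.41429 * τ ^ (-(14 / 5) : ℝ) +
      0.5475 / 0.7 * 0.41429 * τ ^ (-(19 / 5) : ℝ), ?_, ?_, ?_⟩
    · exact ((integrableOn_Ioi_rpow_of_lt (by norm_num) (by norm_num)).const_mul _).add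
        ((integrableOn_Ioi_rpow_of_lt (by norm_num) (by norm_num)).const_mul _)
    · intro τ hτ
      have hτ0 : 0 < τ := by linarith
      have k1 : |psi 1 τ| ≤ 0.75 / τ ^ 2 := psi_decay τ (by linarith)
      have hst : 6 ≤ Real.sqrt β * τ := hs τ 6 hτ0.le (by linarith)
      have k2 : |phi 1 (Real.sqrt β * τ)| ≤ 0.0903 := phi_lobe575 _ (by linarith)
      have k3 : |psi 1 (Real.sqrt β * τ)| ≤ 0.75 / (Real.sqrt β * τ) ^ 2 :=
        psi_decay _ (by linarith)
      have k4 : |phi 1 τ| ≤ 0.73 / τ := phi_decN τ (by linarith)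
      have hβ0 : 0 < β := by linarith
      rw [mul_pow, Real.sq_sqrt hβ0.le] at k3
      have k3' : |psi 1 (Real.sqrt β * τ)| ≤ 0.75 / (0.7 * τ ^ 2) := by
        refine k3.trans ?_
        gcongr
      have henv : env τ = 0.73 / τ := env11c_j9454 τ (by linarith)
      have hr : (0.73 / τ) ^ (14 / 5 : ℝ) ≤ 0.41429 * τ ^ (-(14 / 5) : ℝ) := by
        rw [Real.div_rpow (by norm_num) hτ0.le, Real.rpow_neg hτ0.le, div_eq_mul_inv]
        have : (0.73 : ℝ) ^ (14 / 5 : ℝ) ≤ 0.41429 := rpow11_j9454 (by norm_num) (by norm_num)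
          (by norm_num)
        gcongr
      have hr2 : τ ^ (-(19 / 5) : ℝ) = τ ^ (-(14 / 5) : ℝ) / τ := by
        rw [show (-(19 / 5) : ℝ) = -(14 / 5) - 1 by norm_num, Real.rpow_sub_one hτ0.ne']
      have hx0 : 0 ≤ τ ^ (-(14 / 5) : ℝ) := Real.rpow_nonneg hτ0.le _
      rw [hf]
      beta_reduce
      rw [henv, abs_mul, abs_mul, hr2]
      calc τ ^ 2 * (|psi 1 τ| * |phi 1 (Real.sqrt β * τ)| +
            |psi 1 (Real.sqrt β * τ)| * |phi 1 τ|) * (0.73 / τ) ^ (14 / 5 : ℝ)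
          ≤ τ ^ 2 * (0.75 / τ ^ 2 * 0.0903 + 0.75 / (0.7 * τ ^ 2) * (0.73 / τ)) *
            (0.41429 * τ ^ (-(14 / 5) : ℝ)) := by
            gcongr
        _ = _ := by
            field_simp
            ring
    · rw [integral_add, integral_const_mul, integral_const_mul,
        integral_Ioi_rpow_of_lt (by norm_num) (by norm_num),
        integral_Ioi_rpow_of_lt (by norm_num) (by norm_num)]
      · have p1 : (8 : ℝ) ^ (-(14 / 5) + 1 : ℝ) ≤ 0.0236831 := by
          have e1 : (8 : ℝ) ^ (-(14 / 5) + 1 : ℝ) = ((1 / 8 : ℝ) ^ 9) ^ (1 / 5 : ℝ) := by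
            rw [← Real.rpow_natCast (1 / 8) 9, ← Real.rpow_mul (by norm_num), one_div,
              Real.inv_rpow (by norm_num), ← Real.rpow_neg (by norm_num)]
            norm_num
          have e2 : (((0.0236831 : ℝ)) ^ 5) ^ (1 / 5 : ℝ) = 0.0236831 := by
            rw [← Real.rpow_natCast (0.0236831) 5, ← Real.rpow_mul (by norm_num)]; norm_num
          rw [e1, ← e2]
          exact Real.rpow_le_rpow (by positivity) (by norm_num) (by norm_num)
        have p2 : (8 : ℝ) ^ (-(19 / 5) + 1 : ℝ) ≤ 0.00296039 := by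
          have e1 : (8 : ℝ) ^ (-(19 / 5) + 1 : ℝ) = ((1 / 8 : ℝ) ^ 14) ^ (1 / 5 : ℝ) := by
            rw [← Real.rpow_natCast (1 / 8) 14, ← Real.rpow_mul (by norm_num), one_div,
              Real.inv_rpow (by norm_num), ← Real.rpow_neg (by norm_num)]
            norm_num
          have e2 : (((0.00296039 : ℝ)) ^ 5) ^ (1 / 5 : ℝ) = 0.00296039 := by
            rw [← Real.rpow_natCast (0.00296039) 5, ← Real.rpow_mul (by norm_num)]; norm_num
          rw [e1, ← e2]
          exact Real.rpow_le_rpow (by positivity) (by norm_num) (by norm_num)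
        have q1 : -(8 : ℝ) ^ (-(14 / 5) + 1 : ℝ) / (-(14 / 5) + 1) =
            (8 : ℝ) ^ (-(14 / 5) + 1 : ℝ) / 1.8 := by
          rw [show (-(14 / 5) + 1 : ℝ) = -1.8 by norm_num]
          rw [neg_div_neg_eq]
        have q2 : -(8 : ℝ) ^ (-(19 / 5) + 1 : ℝ) / (-(19 / 5) + 1) =
            (8 : ℝ) ^ (-(19 / 5) + 1 : ℝ) / 2.8 := by
          rw [show (-(19 / 5) + 1 : ℝ) = -2.8 by norm_num]
          rw [neg_div_neg_eq]
        rw [q1, q2]
        gcongr
      · exact ((integrableOn_Ioi_rpow_of_lt (by norm_num) (by norm_num)).const_mul _)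
      · exact ((integrableOn_Ioi_rpow_of_lt (by norm_num) (by norm_num)).const_mul _)
  have hT7 := HB11_step_j9454 (a := 7) (C := 8 ^ 2 * (0.015307 * 0.0903 + 0.0201 * 0.0903) * 0.00178252)
    (by norm_num1) (fun τ ha hc => by
      have hτ0 : 0 < τ := by linarith only [ha, hz.1]
      refine cell11_j9454 β τ 8 _ _ _ _ 0.104286 _ (by linarith only [ha, hc, hz.1, hz.2]) hc ?_ ?_ ?_ ?_ ?_ (by norm_num1)
        (by norm_num1)
      · refine (psi_decay τ (by linarith only [ha, hc, hz.1, hz.2])).trans ?_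
        rw [div_le_iff₀ (by positivity)]
        nlinarith only [ha, hc]
      · exact phi_lobe575 _ (hs τ _ hτ0.le (by linarith only [ha, hc, hz.1, hz.2]))
      · exact psi_late _ (hs τ _ hτ0.le (by linarith only [ha, hc, hz.1, hz.2]))
      · exact phi_lobe575 _ (by linarith only [ha, hc, hz.1, hz.2])
      · rw [env11c_j9454 τ (by linarith only [ha, hc, hz.1, hz.2]), div_le_iff₀ hτ0]
        linarith only [ha, hc]) hT8
  have hT6 := HB11_step_j9454 (a := 6) (C := 7 ^ 2 * (0.0201 * 0.1441 + 0.0201 * 0.0903) * 0.00274464)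
    (by norm_num1) (fun τ ha hc => by
      have hτ0 : 0 < τ := by linarith only [ha, hz.1]
      refine cell11_j9454 β τ 7 _ _ _ _ 0.121667 _ (by linarith only [ha, hc, hz.1, hz.2]) hc ?_ ?_ ?_ ?_ ?_ (by norm_num1)
        (by norm_num1)
      · exact psi_late _ (by linarith only [ha, hc, hz.1, hz.2])
      · exact phi_lobe5 _ (hs τ _ hτ0.le (by linarith only [ha, hc, hz.1, hz.2]))
      · exact psi_late _ (hs τ _ hτ0.le (by linarith only [ha, hc, hz.1, hz.2]))
      · exact phi_lobe575 _ (by linarith only [ha, hc, hz.1, hz.2])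
      · rw [env11c_j9454 τ (by linarith only [ha, hc, hz.1, hz.2]), div_le_iff₀ hτ0]
        linarith only [ha, hc]) hT7
  have hT55 := HB11_step_j9454 (a := 5.5) (C := 6 ^ 2 * (0.0201 * 0.1496 + 0.0201 * 0.1086) * 0.00350184)
    (by norm_num1) (fun τ ha hc => by
      have hτ0 : 0 < τ := by linarith only [ha, hz.1]
      refine cell11_j9454 β τ 6 _ _ _ _ 0.132728 _ (by linarith only [ha, hc, hz.1, hz.2]) hc ?_ ?_ ?_ ?_ ?_ (by norm_num1)
        (by norm_num1)
      · exact psi_late _ (by linarith only [ha, hc, hz.1, hz.2])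
      · exact phi_lobe _ (hs τ _ hτ0.le (by linarith only [ha, hc, hz.1, hz.2]))
      · exact psi_late _ (hs τ _ hτ0.le (by linarith only [ha, hc, hz.1, hz.2]))
      · exact phi_lobe55 _ (by linarith only [ha, hc, hz.1, hz.2])
      · rw [env11c_j9454 τ (by linarith only [ha, hc, hz.1, hz.2]), div_le_iff₀ hτ0]
        linarith only [ha, hc]) hT6
  have hT5 := HB11_step_j9454 (a := 5) (C := 5.5 ^ 2 * (0.0201 * 0.1496 + 0.03575 * 0.1441) * 0.00457287)
    (by norm_num1) (fun τ ha hc => by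
      have hτ0 : 0 < τ := by linarith only [ha, hz.1]
      refine cell11_j9454 β τ 5.5 _ _ _ _ 0.146 _ (by linarith only [ha, hc, hz.1, hz.2]) hc ?_ ?_ ?_ ?_ ?_ (by norm_num1)
        (by norm_num1)
      · exact psi_late _ (by linarith only [ha, hc, hz.1, hz.2])
      · exact phi_lobe _ (hs τ _ hτ0.le (by linarith only [ha, hc, hz.1, hz.2]))
      · exact psi_cell11_j9454 4 _ (by norm_num1) (by norm_num1) (psi_tab_16.2.le.trans (by norm_num1))
          (by norm_num1) _ (hs τ _ hτ0.le (by linarith only [ha, hc, hz.1, hz.2]))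
      · exact phi_lobe5 _ (by linarith only [ha, hc, hz.1, hz.2])
      · rw [env11c_j9454 τ (by linarith only [ha, hc, hz.1, hz.2]), div_le_iff₀ hτ0]
        linarith only [ha, hc]) hT55
  have hT45 := HB11_step_j9454 (a := 4.5) (C := 5 ^ 2 * (0.0201 * 0.1496 + 0.05187 * 0.1496) * 0.00489563)
    (by norm_num1) (fun τ ha hc => by
      have hτ0 : 0 < τ := by linarith only [ha, hz.1]
      refine cell11_j9454 β τ 5 _ _ _ _ 0.1496 _ (by linarith only [ha, hc, hz.1, hz.2]) hc ?_ ?_ ?_ ?_ ?_ (by norm_num1)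
        (by norm_num1)
      · exact psi_late _ (by linarith only [ha, hc, hz.1, hz.2])
      · exact phi_lobe _ (hs τ _ hτ0.le (by linarith only [ha, hc, hz.1, hz.2]))
      · exact psi_cell11_j9454 3.75 _ (by norm_num1) (by norm_num1) (psi_tab_15.2.le.trans (by norm_num1))
          (by norm_num1) _ (hs τ _ hτ0.le (by linarith only [ha, hc, hz.1, hz.2]))
      · exact phi_lobe _ (by linarith only [ha, hc, hz.1, hz.2])
      · exact env11b_j9454 τ (by linarith only [ha, hc, hz.1, hz.2]) hc) hT5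
  have hT4 := HB11_step_j9454 (a := 4) (C := 4.5 ^ 2 * (0.03575 * 0.1496 + 0.089162 * 0.1496) * 0.00489563)
    (by norm_num1) (fun τ ha hc => by
      have hτ0 : 0 < τ := by linarith only [ha, hz.1]
      refine cell11_j9454 β τ 4.5 _ _ _ _ 0.1496 _ (by linarith only [ha, hc, hz.1, hz.2]) hc ?_ ?_ ?_ ?_ ?_ (by norm_num1)
        (by norm_num1)
      · exact psi_cell11_j9454 4 _ (by norm_num1) (by norm_num1) (psi_tab_16.2.le.trans (by norm_num1))
          (by norm_num1) _ (by linarith only [ha, hc, hz.1, hz.2])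
      · exact phi_cell11_j9454 3.25 _ (by norm_num1) (by norm_num1) (phi_tab_13.2.le.trans (by norm_num1))
          (by norm_num1) _ (hs τ _ hτ0.le (by linarith only [ha, hc, hz.1, hz.2]))
      · exact psi_cell11_j9454 3.25 _ (by norm_num1) (by norm_num1) (psi_tab_13.2.le.trans (by norm_num1))
          (by norm_num1) _ (hs τ _ hτ0.le (by linarith only [ha, hc, hz.1, hz.2]))
      · exact phi_lobe _ (by linarith only [ha, hc, hz.1, hz.2])
      · exact env11b_j9454 τ (by linarith only [ha, hc, hz.1, hz.2]) (by linarith only [ha, hc, hz.1, hz.2])) hT45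
  have hT375 := HB11_step_j9454 (a := 3.75) (C := 4 ^ 2 * (0.05187 * 0.1496 + 0.10974 * 0.1496) * 0.00489563)
    (by norm_num1) (fun τ ha hc => by
      have hτ0 : 0 < τ := by linarith only [ha, hz.1]
      refine cell11_j9454 β τ 4 _ _ _ _ 0.1496 _ (by linarith only [ha, hc, hz.1, hz.2]) hc ?_ ?_ ?_ ?_ ?_ (by norm_num1)
        (by norm_num1)
      · exact psi_cell11_j9454 3.75 _ (by norm_num1) (by norm_num1) (psi_tab_15.2.le.trans (by norm_num1))
          (by norm_num1) _ (by linarith only [ha, hc, hz.1, hz.2])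
      · exact phi_cell11_j9454 3 _ (by norm_num1) (by norm_num1) (phi_tab_12.2.le.trans (by norm_num1))
          (by norm_num1) _ (hs τ _ hτ0.le (by linarith only [ha, hc, hz.1, hz.2]))
      · exact psi_cell11_j9454 3 _ (by norm_num1) (by norm_num1) (psi_tab_12.2.le.trans (by norm_num1))
          (by norm_num1) _ (hs τ _ hτ0.le (by linarith only [ha, hc, hz.1, hz.2]))
      · exact phi_lobe _ (by linarith only [ha, hc, hz.1, hz.2])
      · exact env11b_j9454 τ (by linarith only [ha, hc, hz.1, hz.2]) (by linarith only [ha, hc, hz.1, hz.2])) hT4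
  have hTz := HB11_step_j9454 (a := z0) (C := 3.75 ^ 2 * (0.0703 * 0.2295 + 0.131112 * 0.1496) * 0.00689126)
    (by linarith only [hz.2]) (fun τ ha hc => by
      have hτ0 : 0 < τ := by linarith only [ha, hz.1]
      refine cell11_j9454 β τ 3.75 _ _ _ _ 0.16903 _ ha hc ?_ ?_ ?_ ?_ ?_ (by norm_num1)
        (by norm_num1)
      · exact psi_cell11_j9454 3.4947 _ (by norm_num1) (by norm_num1) (psi_start11_j9454.trans (by norm_num1))
          (by norm_num1) _ (by linarith only [ha, hc, hz.1, hz.2])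
      · exact phi_cell11_j9454 2.75 _ (by norm_num1) (by norm_num1) (phi_tab_11.2.le.trans (by norm_num1))
          (by norm_num1) _ (hs τ _ hτ0.le (by linarith only [ha, hc, hz.1, hz.2]))
      · exact psi_cell11_j9454 2.75 _ (by norm_num1) (by norm_num1) (psi_tab_11.2.le.trans (by norm_num1))
          (by norm_num1) _ (hs τ _ hτ0.le (by linarith only [ha, hc, hz.1, hz.2]))
      · exact phi_lobe _ ha.le
      · exact env11a_j9454 τ ha.le (by linarith only [ha, hc, hz.1, hz.2])) hT375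
  refine (HB11_fin_j9454 hTz hfnn).trans ?_
  have hz' : 3.75 - z0 ≤ 0.2553 := by linarith
  have : (3.75 : ℝ) ^ 2 * (0.0703 * 0.2295 + 0.131112 * 0.1496) * 0.00689126 * (3.75 - z0) ≤
      3.75 ^ 2 * (0.0703 * 0.2295 + 0.131112 * 0.1496) * 0.00689126 * 0.2553 :=
    mul_le_mul_of_nonneg_left hz' (by norm_num)
  norm_num at this ⊢
  linarith



end Pool.Agent.Helper82.GC
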