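import Pool.Agent.Helper82.GC.J9279
import Pool.Agent.Helper82.GC.J9434

set_option autoImplicit false

open MeasureTheory Set

namespace Pool.Agent.Helper82.GC


theorem j9469_rp_j9469 (x c : ℝ) (hx : 0 ≤ x) (hc : 0 ≤ c) (h : x ^ 16 ≤ c ^ 5) :
    x ^ (16 / 5 : ℝ) ≤ c := by
  have h1 : (x ^ (16 / 5 : ℝ)) ^ 5 = x ^ 16 := by
    rw [← Real.rpow_natCast, ← Real.rpow_mul hx, ← Real.rpow_natCast]
    norm_num
  rw [← h1] at h
  exact le_of_pow_le_pow_left₀ (by norm_num) hc h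

theorem j9469_sqrt_j9469 (β : ℝ) (h0 : 0.8 ≤ β) : 0.894 ≤ Real.sqrt β := by
  refine Real.le_sqrt_of_sq_le ?_
  norm_num at h0 ⊢
  linarith

theorem j9469_mvt_j9469 (h h' : ℝ → ℝ) (β τ C : ℝ) (hβ0 : 0.8 ≤ β) (hβ1 : β ≤ 1) (hτ : 0 < τ)
    (hd : ∀ z, HasDerivAt h (-(z * h' z)) z) (hC : ∀ w, 0.894 * τ ≤ w → |h' w| ≤ C) :
    |h τ - h (Real.sqrt β * τ)| ≤ (1 - β) * (τ ^ 2 / 2) * C := by
  have h1 : ∀ x ∈ Set.Icc β 1, HasDerivWithinAt (fun x : ℝ => h (Real.sqrt x * τ))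
      (-(τ ^ 2 / 2) * h' (Real.sqrt x * τ)) (Set.Icc β 1) x := by
    intro x hx
    have hx0 : 0 < x := by
      have := hx.1
      norm_num at hβ0
      linarith
    have hs : 0 < Real.sqrt x := Real.sqrt_pos.2 hx0
    have h2 : HasDerivAt (fun x : ℝ => Real.sqrt x * τ) (1 / (2 * Real.sqrt x) * τ) x :=
      (Real.hasDerivAt_sqrt hx0.ne').mul_const τ
    have h3 := (hd (Real.sqrt x * τ)).comp x h2
    have h4 : -(Real.sqrt x * τ * h' (Real.sqrt x * τ)) * (1 / (2 * Real.sqrt x) * τ) =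
        -(τ ^ 2 / 2) * h' (Real.sqrt x * τ) := by
      field_simp
    rw [h4] at h3
    exact h3.hasDerivWithinAt
  have h2 : ∀ x ∈ Set.Icc β 1, ‖-(τ ^ 2 / 2) * h' (Real.sqrt x * τ)‖ ≤ τ ^ 2 / 2 * C := by
    intro x hx
    rw [norm_mul, Real.norm_eq_abs, Real.norm_eq_abs, abs_neg, abs_of_nonneg (by positivity)]
    refine mul_le_mul_of_nonneg_left (hC _ ?_) (by positivity)
    exact mul_le_mul_of_nonneg_right (j9469_sqrt_j9469 x (hβ0.trans hx.1)) hτ.le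
  have h3 := (convex_Icc β 1).norm_image_sub_le_of_norm_hasDerivWithin_le h1 h2
    (Set.left_mem_Icc.2 hβ1) (Set.right_mem_Icc.2 hβ1)
  rw [Real.norm_eq_abs, Real.norm_eq_abs, abs_of_nonneg (sub_nonneg.2 hβ1), Real.sqrt_one,
    one_mul] at h3
  calc |h τ - h (Real.sqrt β * τ)| ≤ τ ^ 2 / 2 * C * (1 - β) := h3
    _ = (1 - β) * (τ ^ 2 / 2) * C := by ring

theorem j9469_diff_j9469 (β τ X F P : ℝ) (hβ0 : 0.8 ≤ β) (hβ1 : β ≤ 1) (hτ : 0 < τ)
    (hX : ∀ w, 0.894 * τ ≤ w → |chi w| ≤ X) (hF : ∀ w, 0.894 * τ ≤ w → |phi 1 w| ≤ F)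
    (hP : ∀ w, 0.894 * τ ≤ w → |psi 1 w| ≤ P) :
    |psi 1 τ * phi 1 (Real.sqrt β * τ) - psi 1 (Real.sqrt β * τ) * phi 1 τ| ≤
      (1 - β) * (τ ^ 2 / 2) * (X * F + P ^ 2) := by
  have h1 := j9469_mvt_j9469 (psi 1) chi β τ X hβ0 hβ1 hτ psi_deriv hX
  have h2 := j9469_mvt_j9469 (phi 1) (psi 1) β τ P hβ0 hβ1 hτ phi_deriv hP
  have hs : 0.894 * τ ≤ Real.sqrt β * τ := mul_le_mul_of_nonneg_right (j9469_sqrt_j9469 β hβ0) hτ.le
  have h3 := hF _ hs
  have h4 := hP _ hs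
  have hX0 : 0 ≤ X := (abs_nonneg _).trans (hX _ hs)
  have hP0 : 0 ≤ P := (abs_nonneg _).trans h4
  have hb : 0 ≤ (1 - β) * (τ ^ 2 / 2) := mul_nonneg (by linarith) (by positivity)
  have h5 : psi 1 τ * phi 1 (Real.sqrt β * τ) - psi 1 (Real.sqrt β * τ) * phi 1 τ =
      (psi 1 τ - psi 1 (Real.sqrt β * τ)) * phi 1 (Real.sqrt β * τ) -
      psi 1 (Real.sqrt β * τ) * (phi 1 τ - phi 1 (Real.sqrt β * τ)) := by ring
  rw [h5]
  refine (abs_sub _ _).trans ?_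
  rw [abs_mul, abs_mul]
  have h6 := mul_le_mul h1 h3 (abs_nonneg _) (mul_nonneg hb hX0)
  have h7 := mul_le_mul h4 h2 (abs_nonneg _) hP0
  calc _ ≤ (1 - β) * (τ ^ 2 / 2) * X * F + P * ((1 - β) * (τ ^ 2 / 2) * P) := add_le_add h6 h7
    _ = (1 - β) * (τ ^ 2 / 2) * (X * F + P ^ 2) := by ring

theorem j9469_psi_j9469 (a c : ℝ) (ha : 0 ≤ a) (h : psi 1 a ≤ c) (hc : 0.0201 ≤ c) (w : ℝ) (hw : a ≤ w) :
    |psi 1 w| ≤ c := by
  rcases le_or_gt w 4.5 with h1 | h1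
  · have h2 := psi_pos w (ha.trans hw) (by norm_num at h1 ⊢; linarith)
    rw [abs_of_pos h2]
    refine (psi_antitone ⟨ha, ?_⟩ ⟨ha.trans hw, ?_⟩ hw).trans h
    · norm_num at h1 ⊢; linarith
    · norm_num at h1 ⊢; linarith
  · exact (psi_late w h1.le).trans hc

theorem j9469_chi_j9469 (a c : ℝ) (ha : 0 ≤ a) (h : chi a ≤ c) (hc : 0.0078 ≤ c) (w : ℝ) (hw : a ≤ w) :
    |chi w| ≤ c := by
  rcases le_or_gt w 5 with h1 | h1
  · have h2 := chi_pos w (ha.trans hw) (by norm_num; linarith)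
    rw [abs_of_pos h2]
    exact (chi_antitone ⟨ha, hw.trans h1⟩ ⟨ha.trans hw, h1⟩ hw).trans h
  · refine (chi_decay w (by linarith)).trans (le_trans ?_ hc)
    have h3 : (5 : ℝ) ^ 3 ≤ w ^ 3 := pow_le_pow_left₀ (by norm_num) h1.le 3
    rw [div_le_iff₀ (by positivity)]
    norm_num at h3 ⊢
    linarith

theorem j9469_phi_j9469 (w : ℝ) (hw : 3 ≤ w) : |phi 1 w| ≤ 0.1496 := by
  rcases lt_or_ge w z0 with h1 | h1
  · have h2 := phi_pos w (by linarith) h1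
    rw [abs_of_pos h2]
    have h3 := z0_bounds.2
    have h4 := phi_antitone ⟨by norm_num, by norm_num⟩ ⟨by linarith, by norm_num at h3 ⊢; linarith⟩ hw
    have h5 := phi_tab_12.2
    norm_num at h5 ⊢
    linarith
  · exact phi_lobe w h1

theorem j9469_env2_j9469 (τ : ℝ) (h1 : 3.75 ≤ τ) (h2 : τ ≤ 5) : env τ = 0.1496 := by
  unfold env
  rw [if_pos h2]
  refine max_eq_left ?_
  have h3 := vr_one_bounds.1
  have h4 : (3.75 : ℝ) ^ 2 ≤ τ ^ 2 := pow_le_pow_left₀ (by norm_num) h1 2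
  have h5 : -(vr 1) * τ ^ 2 / 2 ≤ -2 := by
    norm_num at h3 h4 ⊢
    nlinarith
  refine (Real.exp_le_exp.2 h5).trans ?_
  have h6 := Real.exp_one_gt_d9
  have h7 : Real.exp (-2) = (Real.exp 1 ^ 2)⁻¹ := by
    rw [← Real.exp_nat_mul, ← Real.exp_neg]
    norm_num
  rw [h7]
  rw [inv_le_comm₀ (by positivity) (by norm_num)]
  have h8 : (2.7182818283 : ℝ) ^ 2 ≤ Real.exp 1 ^ 2 := pow_le_pow_left₀ (by norm_num) h6.le 2
  refine le_trans ?_ h8
  norm_num

theorem j9469_cell_j9469 (β τ Q E e r c D : ℝ) (hβ1 : β ≤ 1) (hτ : 0 < τ) (hr : τ ≤ r)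
    (hQ : 0 ≤ Q) (hE : 0 ≤ E) (hEe : E ≤ e)
    (hD : D ≤ (1 - β) * (τ ^ 2 / 2) * Q) (hc : r ^ 4 / 2 * Q * e ≤ c) :
    τ ^ 2 * D * E ≤ (1 - β) * c := by
  have hb : 0 ≤ 1 - β := by linarith
  have h1 : τ ^ 4 ≤ r ^ 4 := pow_le_pow_left₀ hτ.le hr 4
  calc τ ^ 2 * D * E ≤ τ ^ 2 * ((1 - β) * (τ ^ 2 / 2) * Q) * E := by gcongr
    _ = (1 - β) * (τ ^ 4 / 2 * Q * E) := by ring
    _ ≤ (1 - β) * (r ^ 4 / 2 * Q * e) := by
        refine mul_le_mul_of_nonneg_left ?_ hb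
        exact mul_le_mul (by gcongr) hEe hE (by positivity)
    _ ≤ (1 - β) * c := mul_le_mul_of_nonneg_left hc hb

theorem j9469_split_j9469 (g : ℝ → ℝ) (a b c : ℝ) (hab : a ≤ b) (hc : ∀ τ ∈ Set.Ioc a b, g τ = c)
    (hint : IntegrableOn g (Set.Ioi b)) :
    IntegrableOn g (Set.Ioi a) ∧ ∫ τ in Set.Ioi a, g τ = c * (b - a) + ∫ τ in Set.Ioi b, g τ := by
  have h1 : IntegrableOn g (Set.Ioc a b) := by
    have h2 : IntegrableOn (fun _ : ℝ => c) (Set.Ioc a b) := integrableOn_const (by simp)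
    exact h2.congr_fun (fun τ hτ => (hc τ hτ).symm) measurableSet_Ioc
  have h3 : Set.Ioc a b ∪ Set.Ioi b = Set.Ioi a := Set.Ioc_union_Ioi_eq_Ioi hab
  refine ⟨by rw [← h3]; exact h1.union hint, ?_⟩
  rw [← h3, setIntegral_union (Set.Ioc_disjoint_Ioi le_rfl) measurableSet_Ioi h1 hint]
  congr 1
  rw [setIntegral_congr_fun measurableSet_Ioc (g := fun _ => c) (fun τ hτ => hc τ hτ)]
  rw [setIntegral_const, smul_eq_mul, measureReal_def, Real.volume_Ioc,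
    ENNReal.toReal_ofReal (by linarith), mul_comm]

/-- the majorant -/
noncomputable def j9469_g_j9469 (β τ : ℝ) : ℝ :=
  if τ ≤ 3.75 then (1 - β) * 0.0057 else if τ ≤ 4.25 then (1 - β) * 0.0044 else
    if τ ≤ 5 then (1 - β) * 0.0039 else (1 - β) * 0.268 * τ ^ (-3 : ℝ)

theorem j9469_le_j9469 (β τ : ℝ) (h0 : 0.8 ≤ β) (h1 : β ≤ 1) (hτ : z0 < τ) :
    τ ^ 2 * |psi 1 τ * phi 1 (Real.sqrt β * τ) - psi 1 (Real.sqrt β * τ) * phi 1 τ| *
      env τ ^ (16 / 5 : ℝ) ≤ j9469_g_j9469 β τ := by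
  have hz := z0_bounds.1
  have hz2 := z0_bounds.2
  have hτ0 : 0 < τ := by norm_num at hz; linarith
  obtain ⟨he0, he1⟩ := env_le τ hτ.le
  have hE0 : 0 ≤ env τ ^ (16 / 5 : ℝ) := Real.rpow_nonneg he0.le _
  unfold j9469_g_j9469
  split_ifs with c1 c2 c3
  · -- first cell
    have hw : ∀ w, 0.894 * τ ≤ w → 3 ≤ w := by
      intro w hw
      norm_num at hw hz ⊢
      linarith
    have hE : env τ ^ (16 / 5 : ℝ) ≤ 0.0035 := by
      refine j9469_rp_j9469 _ _ he0.le (by norm_num) ?_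
      refine (pow_le_pow_left₀ he0.le he1 16).trans ?_
      norm_num
    have hD := j9469_diff_j9469 β τ 0.028058 0.1496 0.109739 h0 h1 hτ0
      (fun w h => j9469_chi_j9469 3 _ (by norm_num) chi_tab_12.2.le (by norm_num) w (hw w h))
      (fun w h => j9469_phi_j9469 w (hw w h))
      (fun w h => j9469_psi_j9469 3 _ (by norm_num) psi_tab_12.2.le (by norm_num) w (hw w h))
    exact j9469_cell_j9469 β τ _ _ _ _ _ _ h1 hτ0 c1 (by norm_num) hE0 hE hD (by norm_num)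
  · -- second cell
    have c1' : 3.75 ≤ τ := (not_le.1 c1).le
    have hw : ∀ w, 0.894 * τ ≤ w → 3.25 ≤ w := by
      intro w hw
      norm_num at hw c1' ⊢
      linarith
    have hE : env τ ^ (16 / 5 : ℝ) ≤ 0.0023 := by
      refine j9469_rp_j9469 _ _ he0.le (by norm_num) ?_
      rw [j9469_env2_j9469 τ c1' (by norm_num at c2 ⊢; linarith)]
      norm_num
    have hD := j9469_diff_j9469 β τ 0.024677 0.1496 0.089161 h0 h1 hτ0
      (fun w h => j9469_chi_j9469 3.25 _ (by norm_num) chi_tab_13.2.le (by norm_num) w (hw w h))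
      (fun w h => j9469_phi_j9469 w (by have := hw w h; norm_num at this; linarith))
      (fun w h => j9469_psi_j9469 3.25 _ (by norm_num) psi_tab_13.2.le (by norm_num) w (hw w h))
    exact j9469_cell_j9469 β τ _ _ _ _ _ _ h1 hτ0 c2 (by norm_num) hE0 hE hD (by norm_num)
  · -- third cell
    have c2' : 4.25 ≤ τ := (not_le.1 c2).le
    have hw : ∀ w, 0.894 * τ ≤ w → 3.75 ≤ w := by
      intro w hw
      norm_num at hw c2' ⊢
      linarith
    have hE : env τ ^ (16 / 5 : ℝ) ≤ 0.0023 := by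
      refine j9469_rp_j9469 _ _ he0.le (by norm_num) ?_
      rw [j9469_env2_j9469 τ (by norm_num at c2' ⊢; linarith) c3]
      norm_num
    have hD := j9469_diff_j9469 β τ 0.018185 0.1496 0.051865 h0 h1 hτ0
      (fun w h => j9469_chi_j9469 3.75 _ (by norm_num) chi_tab_15.2.le (by norm_num) w (hw w h))
      (fun w h => j9469_phi_j9469 w (by have := hw w h; norm_num at this; linarith))
      (fun w h => j9469_psi_j9469 3.75 _ (by norm_num) psi_tab_15.2.le (by norm_num) w (hw w h))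
    exact j9469_cell_j9469 β τ _ _ _ _ _ _ h1 hτ0 c3 (by norm_num) hE0 hE hD (by norm_num)
  · -- the tail
    have c3' : 5 < τ := not_le.1 c3
    have hw : ∀ w, 0.894 * τ ≤ w → 3.75 ≤ w := by
      intro w hw
      norm_num at hw ⊢
      linarith
    have hs0 : 0 < 0.894 * τ := by positivity
    have hE : env τ ^ (16 / 5 : ℝ) ≤ 0.69 * (0.73 / τ) ^ 3 := by
      refine j9469_rp_j9469 _ _ he0.le (by positivity) ?_
      have h2 : env τ = 0.73 / τ := by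
        unfold env
        rw [if_neg c3]
      rw [h2]
      have h3 : 0.73 / τ ≤ 0.146 := by
        rw [div_le_iff₀ hτ0]
        norm_num
        linarith
      have h4 : 0 < 0.73 / τ := by positivity
      have h5 : (0.73 / τ) ^ 16 = (0.73 / τ) ^ 15 * (0.73 / τ) := by ring
      have h6 : (0.69 * (0.73 / τ) ^ 3) ^ 5 = (0.73 / τ) ^ 15 * 0.69 ^ 5 := by ring
      rw [h5, h6]
      refine mul_le_mul_of_nonneg_left ?_ (by positivity)
      refine h3.trans ?_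
      norm_num
    have hD := j9469_diff_j9469 β τ (0.975 / (0.894 * τ) ^ 3) (0.73 / (0.894 * τ)) (0.75 / (0.894 * τ) ^ 2)
      h0 h1 hτ0
      (fun w h => (chi_decay w (by have := hw w h; norm_num at this; linarith)).trans (by gcongr))
      (fun w h => (phi_decN w (by have := hw w h; norm_num at this ⊢; linarith)).trans (by gcongr))
      (fun w h => (psi_decay w (hw w h)).trans (by gcongr))
    have hb : 0 ≤ 1 - β := by linarith
    have h7 : τ ^ (-3 : ℝ) = (τ ^ 3)⁻¹ := by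
      rw [Real.rpow_neg hτ0.le]
      norm_num
    rw [h7]
    calc _ ≤ τ ^ 2 * ((1 - β) * (τ ^ 2 / 2) * (0.975 / (0.894 * τ) ^ 3 * (0.73 / (0.894 * τ)) +
          (0.75 / (0.894 * τ) ^ 2) ^ 2)) * (0.69 * (0.73 / τ) ^ 3) := by gcongr
      _ = (1 - β) * ((0.975 * 0.73 + 0.75 ^ 2) / 0.894 ^ 4 / 2 * (0.69 * 0.73 ^ 3)) * (τ ^ 3)⁻¹ := by
          field_simp
      _ ≤ (1 - β) * 0.268 * (τ ^ 3)⁻¹ := by
          gcongr
          norm_num

theorem tail_12 (β : ℝ) (h0 : 0.8 ≤ β) (h1 : β ≤ 1) :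
    ∫ τ in Set.Ioi z0, τ ^ 2 * |psi 1 τ * phi 1 (Real.sqrt β * τ) -
      psi 1 (Real.sqrt β * τ) * phi 1 τ| * env τ ^ (16 / 5 : ℝ) ≤ (1 - β) * 0.015 := by
  have hz := z0_bounds.1
  have hz2 := z0_bounds.2
  have hb : 0 ≤ 1 - β := by linarith
  have hi4 : IntegrableOn (j9469_g_j9469 β) (Set.Ioi 5) := by
    have h2 : IntegrableOn (fun τ : ℝ => (1 - β) * 0.268 * τ ^ (-3 : ℝ)) (Set.Ioi 5) :=
      (integrableOn_Ioi_rpow_of_lt (by norm_num) (by norm_num)).const_mul _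
    refine h2.congr_fun (fun τ hτ => ?_) measurableSet_Ioi
    have h3 : (5 : ℝ) < τ := hτ
    unfold j9469_g_j9469
    rw [if_neg (by norm_num; linarith), if_neg (by norm_num; linarith), if_neg (by linarith)]
  have hv4 : ∫ τ in Set.Ioi 5, j9469_g_j9469 β τ = (1 - β) * 0.268 * (1 / 50) := by
    rw [setIntegral_congr_fun measurableSet_Ioi (g := fun τ : ℝ => (1 - β) * 0.268 * τ ^ (-3 : ℝ))
      (fun τ hτ => ?_)]
    · rw [integral_const_mul, integral_Ioi_rpow_of_lt (by norm_num) (by norm_num)]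
      congr 1
      have : (5 : ℝ) ^ (-3 + 1 : ℝ) = 1 / 25 := by
        rw [show (-3 + 1 : ℝ) = -(2 : ℕ) by norm_num, Real.rpow_neg (by norm_num), Real.rpow_natCast]
        norm_num
      rw [this]
      norm_num
    · have h3 : (5 : ℝ) < τ := hτ
      show j9469_g_j9469 β τ = _
      unfold j9469_g_j9469
      rw [if_neg (by norm_num; linarith), if_neg (by norm_num; linarith), if_neg (by linarith)]
  obtain ⟨hi3, hv3⟩ := j9469_split_j9469 (j9469_g_j9469 β) 4.25 5 ((1 - β) * 0.0039) (by norm_num) (by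
    intro τ hτ
    have h3 := hτ.1
    have h4 := hτ.2
    unfold j9469_g_j9469
    rw [if_neg (by norm_num at h3 ⊢; linarith), if_neg (by linarith), if_pos h4]) hi4
  obtain ⟨hi2, hv2⟩ := j9469_split_j9469 (j9469_g_j9469 β) 3.75 4.25 ((1 - β) * 0.0044) (by norm_num) (by
    intro τ hτ
    have h3 := hτ.1
    have h4 := hτ.2
    unfold j9469_g_j9469
    rw [if_neg (by linarith), if_pos h4]) hi3
  obtain ⟨hi1, hv1⟩ := j9469_split_j9469 (j9469_g_j9469 β) z0 3.75 ((1 - β) * 0.0057)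
    (by norm_num at hz2 ⊢; linarith) (by
    intro τ hτ
    have h4 := hτ.2
    unfold j9469_g_j9469
    rw [if_pos h4]) hi2
  have hmono : ∫ τ in Set.Ioi z0, τ ^ 2 * |psi 1 τ * phi 1 (Real.sqrt β * τ) -
      psi 1 (Real.sqrt β * τ) * phi 1 τ| * env τ ^ (16 / 5 : ℝ) ≤ ∫ τ in Set.Ioi z0, j9469_g_j9469 β τ := by
    refine integral_mono_of_nonneg ?_ hi1 ?_
    · refine (ae_restrict_iff' measurableSet_Ioi).2 (Filter.Eventually.of_forall fun τ hτ => ?_)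
      have h3 : z0 < τ := hτ
      have := (env_le τ h3.le).1
      exact mul_nonneg (mul_nonneg (sq_nonneg _) (abs_nonneg _)) (Real.rpow_nonneg this.le _)
    · refine (ae_restrict_iff' measurableSet_Ioi).2 (Filter.Eventually.of_forall fun τ hτ => ?_)
      exact j9469_le_j9469 β τ h0 h1 hτ
  refine hmono.trans ?_
  rw [hv1, hv2, hv3, hv4]
  have h9 : (1 - β) * 0.0057 * (3.75 - z0) ≤ (1 - β) * 0.0057 * 0.2553 := by
    refine mul_le_mul_of_nonneg_left ?_ (by positivity)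
    norm_num at hz ⊢
    linarith
  norm_num at h9 ⊢
  nlinarith



end Pool.Agent.Helper82.GC
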