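import Pool.Agent.Helper82.GC.J9420
import Pool.Agent.Helper82.GC.J9422
import Pool.Agent.Helper82.GC.J9427
import Pool.Agent.Helper82.GC.J9428
import Pool.Agent.Helper82.GC.J9435
import Pool.Agent.Helper82.GC.J9436
import Pool.Agent.Helper82.GC.J9437
import Pool.Agent.Helper82.GC.J9438
import Pool.Agent.Helper82.GC.J9439
import Pool.Agent.Helper82.GC.J9440
import Pool.Agent.Helper82.GC.J9441
import Pool.Agent.Helper82.GC.J9446
import Pool.Agent.Helper82.GC.J9447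
import Pool.Agent.Helper82.GC.J9448
import Pool.Agent.Helper82.GC.J9453
import Pool.Agent.Helper82.GC.J9454
import Pool.Agent.Helper82.GC.J9469
import Pool.Agent.Helper82.GC.Sx

set_option autoImplicit false

open MeasureTheory Set

namespace Pool.Agent.Helper82.GC


theorem h612_int_bound_j9606 {f : ℝ → ℝ} {a C N : ℝ} (hm : Measurable f) (ha : a ≤ 5)
    (hN : 2 < N) (h1 : ∀ τ, a < τ → τ ≤ 5 → |f τ| ≤ C) (h2 : ∀ τ, 5 < τ → |f τ| ≤ τ ^ (1 - N)) :
    IntegrableOn f (Set.Ioi a) := by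
  have e : Set.Ioi a = Set.Ioc a 5 ∪ Set.Ioi 5 := (Set.Ioc_union_Ioi_eq_Ioi ha).symm
  rw [e]
  refine IntegrableOn.union ?_ ?_
  · refine Measure.integrableOn_of_bounded (M := C) (by simp) hm.aestronglyMeasurable ?_
    filter_upwards [ae_restrict_mem measurableSet_Ioc] with τ hτ
    exact h1 τ hτ.1 hτ.2
  · have h := integrableOn_Ioi_rpow_of_lt (show 1 - N < -1 by linarith)
      (show (0:ℝ) < 5 by norm_num)
    refine Integrable.mono' h hm.aestronglyMeasurable ?_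
    filter_upwards [ae_restrict_mem measurableSet_Ioi] with τ hτ
    exact h2 τ hτ

theorem h612_env_meas_j9606 : Measurable env := by
  unfold env
  refine Measurable.ite measurableSet_Iic ?_ ?_
  · fun_prop
  · fun_prop

theorem h612_phi_meas_j9606 (c : ℝ) : Measurable fun τ => phi 1 (c * τ) :=
  (phi_contN.comp (continuous_const.mul continuous_id)).measurable

theorem h612_psi_meas_j9606 (c : ℝ) : Measurable fun τ => psi 1 (c * τ) :=
  (psi_continuous.comp (continuous_const.mul continuous_id)).measurable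

theorem h612_phi_le_j9606 (t : ℝ) : |phi 1 t| ≤ 1 := abs_phi_le_one one_pos t

/-- the sum bound, small -/
theorem h612_br1_j9606 (β τ : ℝ) : |psi 1 τ * phi 1 (Real.sqrt β * τ)| +
      |psi 1 (Real.sqrt β * τ) * phi 1 τ| ≤ 0.6 := by
  rw [abs_mul, abs_mul]
  have h1 := psi_bound τ
  have h2 := psi_bound (Real.sqrt β * τ)
  have h3 := h612_phi_le_j9606 (Real.sqrt β * τ)
  have h4 := h612_phi_le_j9606 τ
  nlinarith [abs_nonneg (psi 1 τ), abs_nonneg (psi 1 (Real.sqrt β * τ)),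
    abs_nonneg (phi 1 (Real.sqrt β * τ)), abs_nonneg (phi 1 τ)]

theorem h612_br2_j9606 (β τ : ℝ) (hτ : 5 < τ) : τ ^ 2 * (|psi 1 τ * phi 1 (Real.sqrt β * τ)| +
      |psi 1 (Real.sqrt β * τ) * phi 1 τ|) ≤ τ := by
  rw [abs_mul, abs_mul]
  have h0 : 0 < τ := by linarith
  have h1 : τ ^ 2 * |psi 1 τ| ≤ 0.75 := by
    have := psi_decay τ (by linarith)
    rw [le_div_iff₀ (by positivity)] at this
    linarith
  have h2 := psi_bound (Real.sqrt β * τ)
  have h3 := h612_phi_le_j9606 (Real.sqrt β * τ)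
  have h4 : τ * |phi 1 τ| ≤ 0.73 := by
    have := phi_decN τ (by linarith)
    rw [le_div_iff₀ (by positivity)] at this
    linarith
  have h5 : τ ^ 2 * |psi 1 τ| * |phi 1 (Real.sqrt β * τ)| ≤ 0.75 * 1 :=
    mul_le_mul h1 h3 (abs_nonneg _) (by norm_num)
  have h6 : |psi 1 (Real.sqrt β * τ)| * (τ * |phi 1 τ|) ≤ 0.3 * 0.73 :=
    mul_le_mul h2 h4 (by positivity) (by norm_num)
  have h7 : τ * (|psi 1 (Real.sqrt β * τ)| * (τ * |phi 1 τ|)) ≤ τ * (0.3 * 0.73) :=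
    mul_le_mul_of_nonneg_left h6 h0.le
  nlinarith

theorem h612_dec_j9606 (τ N : ℝ) (hτ : 5 < τ) (hN : 0 ≤ N) :
    τ * (0.73 / τ) ^ N ≤ τ ^ (1 - N) := by
  have h0 : 0 < τ := by linarith
  have h1 : (0.73 / τ) ^ N ≤ (τ⁻¹) ^ N := by
    apply Real.rpow_le_rpow (by positivity) _ hN
    rw [div_eq_mul_inv]
    have : 0 < τ⁻¹ := by positivity
    nlinarith
  have e : τ ^ (1 - N) = τ * (τ⁻¹) ^ N := by
    rw [Real.rpow_sub h0, Real.rpow_one, Real.inv_rpow h0.le, div_eq_mul_inv]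
  rw [e]
  exact mul_le_mul_of_nonneg_left h1 h0.le

theorem h612_brabs_j9606 (β τ : ℝ) : |psi 1 τ * phi 1 (Real.sqrt β * τ) -
      psi 1 (Real.sqrt β * τ) * phi 1 τ| ≤ |psi 1 τ * phi 1 (Real.sqrt β * τ)| +
      |psi 1 (Real.sqrt β * τ) * phi 1 τ| := abs_sub _ _

theorem h612_env_rpow_le_one_j9606 (τ N : ℝ) (hτ : z0 ≤ τ) (hN : 0 ≤ N) :
    0 ≤ env τ ^ N ∧ env τ ^ N ≤ 1 := by
  obtain ⟨h1, h2⟩ := env_le τ hτ
  exact ⟨Real.rpow_nonneg h1.le _, Real.rpow_le_one h1.le (by linarith) hN⟩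

/-- integrability of the tail majorant -/
theorem h612_tail_int_j9606 (β N : ℝ) (hN : 2 < N) :
    IntegrableOn (fun τ => τ ^ 2 * (|psi 1 τ * phi 1 (Real.sqrt β * τ)| +
      |psi 1 (Real.sqrt β * τ) * phi 1 τ|) * env τ ^ N) (Set.Ioi z0) := by
  obtain ⟨hz1, hz2⟩ := z0_bounds
  refine h612_int_bound_j9606 (C := 15) (N := N) ?_ (by linarith) hN ?_ ?_
  · have a1 := psi_continuous.measurable
    have a2 := phi_contN.measurable
    have a3 := h612_phi_meas_j9606 (Real.sqrt β)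
    have a4 := h612_psi_meas_j9606 (Real.sqrt β)
    have a5 := h612_env_meas_j9606.pow_const N
    have a6 : Measurable fun τ : ℝ => τ ^ 2 := by fun_prop
    have b1 : Measurable fun τ => |psi 1 τ * phi 1 (Real.sqrt β * τ)| :=
      continuous_abs.measurable.comp (a1.mul a3)
    have b2 : Measurable fun τ => |psi 1 (Real.sqrt β * τ) * phi 1 τ| :=
      continuous_abs.measurable.comp (a4.mul a2)
    exact (a6.mul (b1.add b2)).mul a5
  · intro τ h1 h2
    have e0 := h612_env_rpow_le_one_j9606 τ N h1.le (by linarith)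
    have e1 := h612_br1_j9606 β τ
    have e3 : 0 ≤ |psi 1 τ * phi 1 (Real.sqrt β * τ)| +
      |psi 1 (Real.sqrt β * τ) * phi 1 τ| := by positivity
    rw [abs_mul, abs_of_nonneg e0.1, abs_of_nonneg (mul_nonneg (sq_nonneg τ) e3)]
    have e2 : τ ^ 2 ≤ 25 := by nlinarith
    calc τ ^ 2 * _ * env τ ^ N ≤ (25 * 0.6) * 1 := by
          apply mul_le_mul _ e0.2 e0.1 (by norm_num)
          exact mul_le_mul e2 e1 e3 (by norm_num)
      _ = 15 := by norm_num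
  · intro τ hτ
    have h0 : 0 < τ := by linarith
    have e0 := h612_env_rpow_le_one_j9606 τ N (by linarith) (by linarith)
    have e3 : 0 ≤ |psi 1 τ * phi 1 (Real.sqrt β * τ)| +
      |psi 1 (Real.sqrt β * τ) * phi 1 τ| := by positivity
    rw [abs_mul, abs_of_nonneg e0.1, abs_of_nonneg (mul_nonneg (sq_nonneg τ) e3)]
    have e4 : env τ = 0.73 / τ := by
      unfold env; rw [if_neg (by linarith)]
    rw [e4] at e0 ⊢
    calc _ ≤ τ * (0.73 / τ) ^ N := mul_le_mul_of_nonneg_right (h612_br2_j9606 β τ hτ) e0.1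
      _ ≤ _ := h612_dec_j9606 τ N hτ (by linarith)

theorem h612_tailabs_int_j9606 (β N : ℝ) (hN : 2 < N) :
    IntegrableOn (fun τ => τ ^ 2 * |psi 1 τ * phi 1 (Real.sqrt β * τ) -
      psi 1 (Real.sqrt β * τ) * phi 1 τ| * env τ ^ N) (Set.Ioi z0) := by
  obtain ⟨hz1, hz2⟩ := z0_bounds
  refine Integrable.mono' (h612_tail_int_j9606 β N hN) ?_ ?_
  · have a1 := psi_continuous.measurable
    have a2 := phi_contN.measurable
    have a3 := h612_phi_meas_j9606 (Real.sqrt β)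
    have a4 := h612_psi_meas_j9606 (Real.sqrt β)
    have a5 := h612_env_meas_j9606.pow_const N
    have a6 : Measurable fun τ : ℝ => τ ^ 2 := by fun_prop
    have b1 : Measurable fun τ => |psi 1 τ * phi 1 (Real.sqrt β * τ) -
        psi 1 (Real.sqrt β * τ) * phi 1 τ| :=
      continuous_abs.measurable.comp ((a1.mul a3).sub (a4.mul a2))
    exact ((a6.mul b1).mul a5).aestronglyMeasurable
  · filter_upwards [ae_restrict_mem measurableSet_Ioi] with τ hτ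
    have e0 := h612_env_rpow_le_one_j9606 τ N (le_of_lt hτ) (by linarith)
    rw [Real.norm_eq_abs, abs_mul, abs_of_nonneg e0.1, abs_mul, abs_of_nonneg (sq_nonneg τ),
      abs_abs]
    exact mul_le_mul_of_nonneg_right (mul_le_mul_of_nonneg_left (h612_brabs_j9606 β τ) (sq_nonneg τ))
      e0.1

theorem h612_tail_conv_j9606 (β N : ℝ) (hN : 2 < N) :
    ∫ τ in Set.Ioi z0, τ ^ 2 * |psi 1 τ * phi 1 (Real.sqrt β * τ) -
      psi 1 (Real.sqrt β * τ) * phi 1 τ| * env τ ^ N ≤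
    ∫ τ in Set.Ioi z0, τ ^ 2 * (|psi 1 τ * phi 1 (Real.sqrt β * τ)| +
      |psi 1 (Real.sqrt β * τ) * phi 1 τ|) * env τ ^ N := by
  refine setIntegral_mono_on (h612_tailabs_int_j9606 β N hN) (h612_tail_int_j9606 β N hN)
    measurableSet_Ioi fun τ hτ => ?_
  have e0 := h612_env_rpow_le_one_j9606 τ N (le_of_lt hτ) (by linarith)
  exact mul_le_mul_of_nonneg_right (mul_le_mul_of_nonneg_left (h612_brabs_j9606 β τ) (sq_nonneg τ))
    e0.1

theorem h612_prod_le_one_j9606 {ι : Type*} (S : Finset ι) (u : ι → ℝ) (τ : ℝ) :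
    |∏ i ∈ S, phi 1 (Real.sqrt (u i) * τ)| ≤ 1 := by
  rw [Finset.abs_prod]
  exact Finset.prod_le_one (fun i _ => abs_nonneg _) (fun i _ => h612_phi_le_j9606 _)

theorem h612_I_meas_j9606 {ι : Type*} (S : Finset ι) (u : ι → ℝ) (β : ℝ) :
    Measurable (fun τ => τ ^ 2 * (psi 1 τ * phi 1 (Real.sqrt β * τ) -
      psi 1 (Real.sqrt β * τ) * phi 1 τ) * ∏ i ∈ S, phi 1 (Real.sqrt (u i) * τ)) := by
  have a1 := psi_continuous.measurable
  have a2 := phi_contN.measurable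
  have a3 := h612_phi_meas_j9606 (Real.sqrt β)
  have a4 := h612_psi_meas_j9606 (Real.sqrt β)
  have a6 : Measurable fun τ : ℝ => τ ^ 2 := by fun_prop
  have a7 : Measurable fun τ : ℝ => ∏ i ∈ S, phi 1 (Real.sqrt (u i) * τ) :=
    Finset.measurable_fun_prod S fun i _ => h612_phi_meas_j9606 _
  exact (a6.mul ((a1.mul a3).sub (a4.mul a2))).mul a7

theorem h612_I_int_j9606 {ι : Type*} (S : Finset ι) (u : ι → ℝ) (hu : ∀ i ∈ S, 0 ≤ u i ∧ u i ≤ 1)
    (β : ℝ) (hS : 2 < ∑ i ∈ S, u i) :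
    IntegrableOn (fun τ => τ ^ 2 * (psi 1 τ * phi 1 (Real.sqrt β * τ) -
      psi 1 (Real.sqrt β * τ) * phi 1 τ) * ∏ i ∈ S, phi 1 (Real.sqrt (u i) * τ)) (Set.Ioi 0) := by
  obtain ⟨hz1, hz2⟩ := z0_bounds
  refine h612_int_bound_j9606 (C := 15) (N := ∑ i ∈ S, u i) (h612_I_meas_j9606 S u β) (by norm_num) hS ?_ ?_
  · intro τ h1 h2
    rw [abs_mul, abs_mul, abs_of_nonneg (sq_nonneg τ)]
    have e2 : τ ^ 2 ≤ 25 := by nlinarith
    have e1 := (h612_brabs_j9606 β τ).trans (h612_br1_j9606 β τ)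
    have e3 : τ ^ 2 * |psi 1 τ * phi 1 (Real.sqrt β * τ) -
      psi 1 (Real.sqrt β * τ) * phi 1 τ| ≤ 25 * 0.6 :=
      mul_le_mul e2 e1 (abs_nonneg _) (by norm_num)
    have e4 := mul_le_mul e3 (h612_prod_le_one_j9606 S u τ) (abs_nonneg _) (by norm_num)
    refine e4.trans (by norm_num)
  · intro τ hτ
    have h0 : 0 < τ := by linarith
    rw [abs_mul, abs_mul, abs_of_nonneg (sq_nonneg τ), Finset.abs_prod]
    have e1 := decay_prod S u hu τ (by linarith)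
    have e2 : τ ^ 2 * |psi 1 τ * phi 1 (Real.sqrt β * τ) -
      psi 1 (Real.sqrt β * τ) * phi 1 τ| ≤ τ :=
      (mul_le_mul_of_nonneg_left (h612_brabs_j9606 β τ) (sq_nonneg τ)).trans (h612_br2_j9606 β τ hτ)
    calc _ ≤ τ * (0.73 / τ) ^ (∑ i ∈ S, u i) :=
          mul_le_mul e2 e1 (Finset.prod_nonneg fun i _ => abs_nonneg _) h0.le
      _ ≤ _ := h612_dec_j9606 τ _ hτ (by linarith)

theorem h612_sqrt_mul_j9606 {β τ : ℝ} (hb1 : β ≤ 1) (h0 : 0 ≤ τ) (h1 : τ ≤ z0) :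
    0 ≤ Real.sqrt β * τ ∧ Real.sqrt β * τ ≤ z0 := by
  have h2 : Real.sqrt β ≤ 1 := by
    exact Real.sqrt_le_one.2 hb1
  have h3 := Real.sqrt_nonneg β
  constructor
  · positivity
  · nlinarith

theorem h612_B_nonneg_j9606 {β τ : ℝ} (hb0 : 0 ≤ β) (hb1 : β ≤ 1) (h0 : 0 ≤ τ) (h1 : τ ≤ z0) :
    0 ≤ psi 1 τ * phi 1 (Real.sqrt β * τ) - psi 1 (Real.sqrt β * τ) * phi 1 τ := by
  refine le_trans ?_ (pair_main β τ hb0 hb1 h0 h1)
  have h2 := phi_nonneg τ h0 h1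
  obtain ⟨h3, h4⟩ := h612_sqrt_mul_j9606 hb1 h0 h1
  have h5 := phi_nonneg _ h3 h4
  have h6 : 0 ≤ 1 - β := by linarith
  positivity

theorem h612_I_nonneg_j9606 {ι : Type*} (S : Finset ι) (u : ι → ℝ) (hu : ∀ i ∈ S, 0 ≤ u i ∧ u i ≤ 1)
    {β τ : ℝ} (hb0 : 0 ≤ β) (hb1 : β ≤ 1) (h0 : 0 ≤ τ) (h1 : τ ≤ z0) :
    0 ≤ τ ^ 2 * (psi 1 τ * phi 1 (Real.sqrt β * τ) -
      psi 1 (Real.sqrt β * τ) * phi 1 τ) * ∏ i ∈ S, phi 1 (Real.sqrt (u i) * τ) := by
  refine mul_nonneg (mul_nonneg (sq_nonneg _) (h612_B_nonneg_j9606 hb0 hb1 h0 h1)) ?_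
  refine Finset.prod_nonneg fun i hi => ?_
  obtain ⟨h3, h4⟩ := h612_sqrt_mul_j9606 (hu i hi).2 h0 h1
  exact phi_nonneg _ h3 h4

theorem h612_low_j9606 {ι : Type*} (S : Finset ι) (u : ι → ℝ) (hu : ∀ i ∈ S, 0 ≤ u i ∧ u i ≤ 1)
    {β b N q τ : ℝ} (hb : 0 ≤ b) (hbb : b ≤ β) (hb1 : β ≤ 1) (hN : N ≤ ∑ i ∈ S, u i)
    (hq : 1 + β + N ≤ q) (h0 : 0 ≤ τ) (h1 : τ ≤ 2.9) :
    (1 - β) * 0.17 ^ ((∑ i ∈ S, u i) - N) * (0.0148 * (τ ^ 4 * phi 1 τ ^ q) +
      0.001 * (1 + b) * (τ ^ 6 * phi 1 τ ^ q) +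
      0.00015 * (1 + b + b ^ 2) * (τ ^ 8 * phi 1 τ ^ q)) ≤
    τ ^ 2 * (psi 1 τ * phi 1 (Real.sqrt β * τ) -
      psi 1 (Real.sqrt β * τ) * phi 1 τ) * ∏ i ∈ S, phi 1 (Real.sqrt (u i) * τ) := by
  obtain ⟨hz1, hz2⟩ := z0_bounds
  have hz : τ ≤ z0 := by linarith
  obtain ⟨hx1, hx2⟩ := phi_bounds τ h0 h1
  have hb0 : 0 ≤ β := by linarith
  have hB := pair_main β τ hb0 hb1 h0 hz
  have hy := phi_rpow_le β τ hb0 hb1 h0 hz
  have hx0 : 0 < phi 1 τ := by linarith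
  have hp : phi 1 τ ^ (∑ i ∈ S, u i) ≤ ∏ i ∈ S, phi 1 (Real.sqrt (u i) * τ) := by
    rw [Real.rpow_sum_of_nonneg hx0.le (fun i hi => (hu i hi).1)]
    exact Finset.prod_le_prod (fun i _ => Real.rpow_nonneg hx0.le _)
      (fun i hi => phi_rpow_le _ _ (hu i hi).1 (hu i hi).2 h0 hz)
  set Sg := ∑ i ∈ S, u i with hSg
  set x := phi 1 τ with hx
  set y := phi 1 (Real.sqrt β * τ) with hyd
  set P := ∏ i ∈ S, phi 1 (Real.sqrt (u i) * τ) with hP
  set B := psi 1 τ * y - psi 1 (Real.sqrt β * τ) * x with hBd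
  -- power inequality
  have hpow : x ^ q * 0.17 ^ (Sg - N) ≤ x * (x ^ β * x ^ Sg) := by
    have e1 : x * (x ^ β * x ^ Sg) = x ^ (1 + β + N) * x ^ (Sg - N) := by
      rw [← Real.rpow_add hx0, ← Real.rpow_add hx0]
      nth_rewrite 1 [← Real.rpow_one x]
      rw [← Real.rpow_add hx0]
      congr 1; ring
    rw [e1]
    apply mul_le_mul
    · exact Real.rpow_le_rpow_of_exponent_ge hx0 hx2 hq
    · exact Real.rpow_le_rpow (by norm_num) hx1.le (by linarith)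
    · positivity
    · positivity
  have hβ1 : 0 ≤ 1 - β := by linarith
  have hK : 0.0148 + 0.001 * (1 + b) * τ ^ 2 + 0.00015 * (1 + b + b ^ 2) * τ ^ 4 ≤
      0.0148 + 0.001 * (1 + β) * τ ^ 2 + 0.00015 * (1 + β + β ^ 2) * τ ^ 4 := by
    have e2 : 0 ≤ τ ^ 2 := by positivity
    have e4 : 0 ≤ τ ^ 4 := by positivity
    have e5 : b ^ 2 ≤ β ^ 2 := by nlinarith
    nlinarith
  have hK0 : 0 ≤ 0.0148 + 0.001 * (1 + b) * τ ^ 2 + 0.00015 * (1 + b + b ^ 2) * τ ^ 4 := by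
    positivity
  set K := 0.0148 + 0.001 * (1 + b) * τ ^ 2 + 0.00015 * (1 + b + b ^ 2) * τ ^ 4 with hKd
  have s1 : (1 - β) * τ ^ 2 * (x * x ^ β) * K ≤ B := by
    refine le_trans ?_ hB
    have hxy : x * x ^ β ≤ x * y := mul_le_mul_of_nonneg_left hy hx0.le
    have hxy0 : 0 ≤ x * x ^ β := by positivity
    apply mul_le_mul _ hK hK0
    · have : 0 ≤ x * y := hxy0.trans hxy
      positivity
    · exact mul_le_mul_of_nonneg_left hxy (by positivity)
  have s2 : 0 ≤ (1 - β) * τ ^ 2 * (x * x ^ β) * K := by positivity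
  have s3 : ((1 - β) * τ ^ 2 * (x * x ^ β) * K) * x ^ Sg ≤ B * P :=
    mul_le_mul s1 hp (by positivity) (s2.trans s1)
  have s4 : τ ^ 2 * (((1 - β) * τ ^ 2 * (x * x ^ β) * K) * x ^ Sg) ≤ τ ^ 2 * (B * P) :=
    mul_le_mul_of_nonneg_left s3 (sq_nonneg _)
  have s5 : ((1 - β) * τ ^ 4 * K) * (x ^ q * 0.17 ^ (Sg - N)) ≤
      ((1 - β) * τ ^ 4 * K) * (x * (x ^ β * x ^ Sg)) :=
    mul_le_mul_of_nonneg_left hpow (by positivity)
  calc _ = ((1 - β) * τ ^ 4 * K) * (x ^ q * 0.17 ^ (Sg - N)) := by rw [hKd]; ring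
    _ ≤ ((1 - β) * τ ^ 4 * K) * (x * (x ^ β * x ^ Sg)) := s5
    _ = τ ^ 2 * (((1 - β) * τ ^ 2 * (x * x ^ β) * K) * x ^ Sg) := by ring
    _ ≤ τ ^ 2 * (B * P) := s4
    _ = _ := by ring

theorem h612_core_j9606 {ι : Type*} (S : Finset ι) (u : ι → ℝ) (hu : ∀ i ∈ S, 0 ≤ u i ∧ u i ≤ 1)
    {β b N q T L4 L6 L8 : ℝ} (hb : 0 ≤ b) (hbb : b ≤ β) (hb1 : β < 1)
    (hN : N ≤ ∑ i ∈ S, u i) (hN2 : 2 < N) (hq : 1 + β + N ≤ q)
    (h4 : L4 < ∫ z in (0 : ℝ)..2.9, z ^ 4 * phi 1 z ^ q)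
    (h6 : L6 < ∫ z in (0 : ℝ)..2.9, z ^ 6 * phi 1 z ^ q)
    (h8 : L8 < ∫ z in (0 : ℝ)..2.9, z ^ 8 * phi 1 z ^ q)
    (hT : ∫ τ in Set.Ioi z0, τ ^ 2 * |psi 1 τ * phi 1 (Real.sqrt β * τ) -
      psi 1 (Real.sqrt β * τ) * phi 1 τ| * env τ ^ N ≤ T)
    (hpos : T < (1 - β) * (0.0148 * L4 + 0.001 * (1 + b) * L6 +
      0.00015 * (1 + b + b ^ 2) * L8)) :
    0 < ∫ τ in Set.Ioi (0 : ℝ), τ ^ 2 * (psi 1 τ * phi 1 (Real.sqrt β * τ) -
      psi 1 (Real.sqrt β * τ) * phi 1 τ) * ∏ i ∈ S, phi 1 (Real.sqrt (u i) * τ) := by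
  obtain ⟨hz1, hz2⟩ := z0_bounds
  have hInt := h612_I_int_j9606 S u hu β (by linarith)
  set I := fun τ => τ ^ 2 * (psi 1 τ * phi 1 (Real.sqrt β * τ) -
      psi 1 (Real.sqrt β * τ) * phi 1 τ) * ∏ i ∈ S, phi 1 (Real.sqrt (u i) * τ) with hI
  set Sg := ∑ i ∈ S, u i with hSg
  have hc0 : (0 : ℝ) < 0.17 ^ (Sg - N) := by positivity
  set c : ℝ := 0.17 ^ (Sg - N) with hc
  have hq0 : 0 ≤ q := by linarith
  -- split
  have e1 : ∫ τ in Set.Ioi (0:ℝ), I τ = (∫ τ in Set.Ioc 0 z0, I τ) + ∫ τ in Set.Ioi z0, I τ := by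
    rw [← setIntegral_union (Set.Ioc_disjoint_Ioi le_rfl) measurableSet_Ioi
      (hInt.mono_set Set.Ioc_subset_Ioi_self) (hInt.mono_set (Set.Ioi_subset_Ioi (by linarith))),
      Set.Ioc_union_Ioi_eq_Ioi (by linarith)]
  have e2 : ∫ τ in Set.Ioc 0 (2.9:ℝ), I τ ≤ ∫ τ in Set.Ioc 0 z0, I τ := by
    apply setIntegral_mono_set (hInt.mono_set Set.Ioc_subset_Ioi_self)
    · filter_upwards [ae_restrict_mem measurableSet_Ioc] with τ hτ
      exact h612_I_nonneg_j9606 S u hu (by linarith) hb1.le hτ.1.le hτ.2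
    · exact (Set.Ioc_subset_Ioc_right (by linarith)).eventuallyLE
  have hcont : ∀ n : ℕ, Continuous fun z : ℝ => z ^ n * phi 1 z ^ q := fun n =>
    (continuous_pow n).mul (phi_contN.rpow_const fun z => Or.inr hq0)
  have e3 : (1 - β) * c * (0.0148 * (∫ z in (0 : ℝ)..2.9, z ^ 4 * phi 1 z ^ q) +
      0.001 * (1 + b) * (∫ z in (0 : ℝ)..2.9, z ^ 6 * phi 1 z ^ q) +
      0.00015 * (1 + b + b ^ 2) * (∫ z in (0 : ℝ)..2.9, z ^ 8 * phi 1 z ^ q)) ≤
      ∫ τ in Set.Ioc 0 (2.9:ℝ), I τ := by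
    have i4 := (hcont 4).intervalIntegrable (μ := volume) 0 2.9
    have i6 := (hcont 6).intervalIntegrable (μ := volume) 0 2.9
    have i8 := (hcont 8).intervalIntegrable (μ := volume) 0 2.9
    have e4 : (1 - β) * c * (0.0148 * (∫ z in (0 : ℝ)..2.9, z ^ 4 * phi 1 z ^ q) +
        0.001 * (1 + b) * (∫ z in (0 : ℝ)..2.9, z ^ 6 * phi 1 z ^ q) +
        0.00015 * (1 + b + b ^ 2) * (∫ z in (0 : ℝ)..2.9, z ^ 8 * phi 1 z ^ q)) =
        ∫ z in (0:ℝ)..2.9, (1 - β) * c * (0.0148 * (z ^ 4 * phi 1 z ^ q) +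
        0.001 * (1 + b) * (z ^ 6 * phi 1 z ^ q) +
        0.00015 * (1 + b + b ^ 2) * (z ^ 8 * phi 1 z ^ q)) := by
      rw [intervalIntegral.integral_const_mul, intervalIntegral.integral_add,
        intervalIntegral.integral_add, intervalIntegral.integral_const_mul,
        intervalIntegral.integral_const_mul, intervalIntegral.integral_const_mul]
      · exact i4.const_mul _
      · exact i6.const_mul _
      · exact (i4.const_mul _).add (i6.const_mul _)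
      · exact i8.const_mul _
    rw [e4, intervalIntegral.integral_of_le (by norm_num)]
    apply setIntegral_mono_on _ (hInt.mono_set Set.Ioc_subset_Ioi_self) measurableSet_Ioc
    · intro τ hτ
      exact h612_low_j9606 S u hu hb hbb hb1.le hN hq hτ.1.le hτ.2
    · have i9 := (((i4.const_mul 0.0148).add (i6.const_mul (0.001 * (1 + b)))).add
        (i8.const_mul (0.00015 * (1 + b + b ^ 2)))).const_mul ((1 - β) * c)
      exact (intervalIntegrable_iff_integrableOn_Ioc_of_le (by norm_num)).1 i9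
  have e5 : -(c * T) ≤ ∫ τ in Set.Ioi z0, I τ := by
    have e6 : |∫ τ in Set.Ioi z0, I τ| ≤ ∫ τ in Set.Ioi z0, c * (τ ^ 2 *
        |psi 1 τ * phi 1 (Real.sqrt β * τ) -
        psi 1 (Real.sqrt β * τ) * phi 1 τ| * env τ ^ N) := by
      rw [← Real.norm_eq_abs]
      refine norm_integral_le_of_norm_le ((h612_tailabs_int_j9606 β N hN2).const_mul c) ?_
      filter_upwards [ae_restrict_mem measurableSet_Ioi] with τ hτ
      have hτ' : z0 ≤ τ := le_of_lt hτ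
      have e7 := env_prod S u hu τ hτ' N hN
      rw [Real.norm_eq_abs, hI]
      simp only []
      rw [abs_mul, abs_mul, abs_of_nonneg (sq_nonneg τ), Finset.abs_prod]
      calc _ ≤ τ ^ 2 * |psi 1 τ * phi 1 (Real.sqrt β * τ) -
          psi 1 (Real.sqrt β * τ) * phi 1 τ| * (env τ ^ N * c) :=
            mul_le_mul_of_nonneg_left e7 (by positivity)
        _ = _ := by ring
    rw [integral_const_mul] at e6
    have e8 : c * (∫ τ in Set.Ioi z0, τ ^ 2 * |psi 1 τ * phi 1 (Real.sqrt β * τ) -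
      psi 1 (Real.sqrt β * τ) * phi 1 τ| * env τ ^ N) ≤ c * T :=
      mul_le_mul_of_nonneg_left hT hc0.le
    have e9 := neg_abs_le (∫ τ in Set.Ioi z0, I τ)
    linarith
  rw [e1]
  have f1 : (1 - β) * (0.0148 * L4 + 0.001 * (1 + b) * L6 +
      0.00015 * (1 + b + b ^ 2) * L8) ≤ (1 - β) *
      (0.0148 * (∫ z in (0 : ℝ)..2.9, z ^ 4 * phi 1 z ^ q) +
      0.001 * (1 + b) * (∫ z in (0 : ℝ)..2.9, z ^ 6 * phi 1 z ^ q) +
      0.00015 * (1 + b + b ^ 2) * (∫ z in (0 : ℝ)..2.9, z ^ 8 * phi 1 z ^ q)) := by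
    apply mul_le_mul_of_nonneg_left _ (by linarith)
    have g6 : 0.001 * (1 + b) * L6 ≤ 0.001 * (1 + b) *
        (∫ z in (0 : ℝ)..2.9, z ^ 6 * phi 1 z ^ q) :=
      mul_le_mul_of_nonneg_left h6.le (by positivity)
    have g8 : 0.00015 * (1 + b + b ^ 2) * L8 ≤ 0.00015 * (1 + b + b ^ 2) *
        (∫ z in (0 : ℝ)..2.9, z ^ 8 * phi 1 z ^ q) :=
      mul_le_mul_of_nonneg_left h8.le (by positivity)
    linarith
  have f2 : c * T < c * ((1 - β) *
      (0.0148 * (∫ z in (0 : ℝ)..2.9, z ^ 4 * phi 1 z ^ q) +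
      0.001 * (1 + b) * (∫ z in (0 : ℝ)..2.9, z ^ 6 * phi 1 z ^ q) +
      0.00015 * (1 + b + b ^ 2) * (∫ z in (0 : ℝ)..2.9, z ^ 8 * phi 1 z ^ q))) :=
    mul_lt_mul_of_pos_left (lt_of_lt_of_le hpos f1) hc0
  have f3 : c * ((1 - β) *
      (0.0148 * (∫ z in (0 : ℝ)..2.9, z ^ 4 * phi 1 z ^ q) +
      0.001 * (1 + b) * (∫ z in (0 : ℝ)..2.9, z ^ 6 * phi 1 z ^ q) +
      0.00015 * (1 + b + b ^ 2) * (∫ z in (0 : ℝ)..2.9, z ^ 8 * phi 1 z ^ q))) =
      (1 - β) * c * (0.0148 * (∫ z in (0 : ℝ)..2.9, z ^ 4 * phi 1 z ^ q) +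
      0.001 * (1 + b) * (∫ z in (0 : ℝ)..2.9, z ^ 6 * phi 1 z ^ q) +
      0.00015 * (1 + b + b ^ 2) * (∫ z in (0 : ℝ)..2.9, z ^ 8 * phi 1 z ^ q)) := by ring
  linarith

theorem pair_pos {ι : Type*} (S : Finset ι) (u : ι → ℝ) (hu : ∀ i ∈ S, 0 ≤ u i ∧ u i ≤ 1)
    (β : ℝ) (hb0 : 0 ≤ β) (hb1 : β < 1) (hN1 : 19 / 6 - β ≤ ∑ i ∈ S, u i)
    (hN2 : 4 * β ≤ ∑ i ∈ S, u i) :
    IntegrableOn (fun τ => τ ^ 2 * (psi 1 τ * phi 1 (Real.sqrt β * τ) -
      psi 1 (Real.sqrt β * τ) * phi 1 τ) * ∏ i ∈ S, phi 1 (Real.sqrt (u i) * τ)) (Set.Ioi 0) ∧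
    0 < ∫ τ in Set.Ioi (0 : ℝ), τ ^ 2 * (psi 1 τ * phi 1 (Real.sqrt β * τ) -
      psi 1 (Real.sqrt β * τ) * phi 1 τ) * ∏ i ∈ S, phi 1 (Real.sqrt (u i) * τ) := by
  refine ⟨h612_I_int_j9606 S u hu β (by linarith), ?_⟩
  by_cases hc0 : β ≤ 0.05
  · refine h612_core_j9606 S u hu (b := 0) (N := 187/60) (q := 25/6) (T := 0.025224) (by norm_num) (by linarith) hb1
      (by linarith) (by norm_num) (by linarith) low_q1_4 low_q1_6 low_q1_8
      ((h612_tail_conv_j9606 β _ (by norm_num)).trans (tail_0 β (by linarith) hc0)) ?_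
    norm_num
    linarith
  by_cases hc1 : β ≤ 0.1
  · refine h612_core_j9606 S u hu (b := 0.05) (N := 46/15) (q := 25/6) (T := 0.023294) (by norm_num) (by linarith) hb1
      (by linarith) (by norm_num) (by linarith) low_q1_4 low_q1_6 low_q1_8
      ((h612_tail_conv_j9606 β _ (by norm_num)).trans (tail_1 β (by linarith) hc1)) ?_
    norm_num
    linarith
  by_cases hc2 : β ≤ 0.15
  · refine h612_core_j9606 S u hu (b := 0.1) (N := 181/60) (q := 25/6) (T := 0.021306) (by norm_num) (by linarith) hb1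
      (by linarith) (by norm_num) (by linarith) low_q1_4 low_q1_6 low_q1_8
      ((h612_tail_conv_j9606 β _ (by norm_num)).trans (tail_2 β (by linarith) hc2)) ?_
    norm_num
    linarith
  by_cases hc3 : β ≤ 0.2
  · refine h612_core_j9606 S u hu (b := 0.15) (N := 89/30) (q := 25/6) (T := 0.019375) (by norm_num) (by linarith) hb1
      (by linarith) (by norm_num) (by linarith) low_q1_4 low_q1_6 low_q1_8
      ((h612_tail_conv_j9606 β _ (by norm_num)).trans (tail_3 β (by linarith) hc3)) ?_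
    norm_num
    linarith
  by_cases hc4 : β ≤ 0.3
  · refine h612_core_j9606 S u hu (b := 0.2) (N := 43/15) (q := 25/6) (T := 0.019537) (by norm_num) (by linarith) hb1
      (by linarith) (by norm_num) (by linarith) low_q1_4 low_q1_6 low_q1_8
      ((h612_tail_conv_j9606 β _ (by norm_num)).trans (tail_4 β (by linarith) hc4)) ?_
    norm_num
    linarith
  by_cases hc5 : β ≤ 0.4
  · refine h612_core_j9606 S u hu (b := 0.3) (N := 83/30) (q := 25/6) (T := 0.015098) (by norm_num) (by linarith) hb1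
      (by linarith) (by norm_num) (by linarith) low_q1_4 low_q1_6 low_q1_8
      ((h612_tail_conv_j9606 β _ (by norm_num)).trans (tail_5 β (by linarith) hc5)) ?_
    norm_num
    linarith
  by_cases hc6 : β ≤ 0.5
  · refine h612_core_j9606 S u hu (b := 0.4) (N := 8/3) (q := 25/6) (T := 0.013924) (by norm_num) (by linarith) hb1
      (by linarith) (by norm_num) (by linarith) low_q1_4 low_q1_6 low_q1_8
      ((h612_tail_conv_j9606 β _ (by norm_num)).trans (tail_6 β (by linarith) hc6)) ?_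
    norm_num
    linarith
  by_cases hc7 : β ≤ 0.55
  · refine h612_core_j9606 S u hu (b := 0.5) (N := 157/60) (q := 25/6) (T := 0.012270) (by norm_num) (by linarith) hb1
      (by linarith) (by norm_num) (by linarith) low_q1_4 low_q1_6 low_q1_8
      ((h612_tail_conv_j9606 β _ (by norm_num)).trans (tail_7 β (by linarith) hc7)) ?_
    norm_num
    linarith
  by_cases hc8 : β ≤ 0.6
  · refine h612_core_j9606 S u hu (b := 0.55) (N := 77/30) (q := 25/6) (T := 0.011973) (by norm_num) (by linarith) hb1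
      (by linarith) (by norm_num) (by linarith) low_q1_4 low_q1_6 low_q1_8
      ((h612_tail_conv_j9606 β _ (by norm_num)).trans (tail_8 β (by linarith) hc8)) ?_
    norm_num
    linarith
  by_cases hc9 : β ≤ 0.65
  · refine h612_core_j9606 S u hu (b := 0.6) (N := 151/60) (q := 25/6) (T := 0.012121) (by norm_num) (by linarith) hb1
      (by linarith) (by norm_num) (by linarith) low_q1_4 low_q1_6 low_q1_8
      ((h612_tail_conv_j9606 β _ (by norm_num)).trans (tail_9 β (by linarith) hc9)) ?_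
    norm_num
    linarith
  by_cases hc10 : β ≤ 0.7
  · refine h612_core_j9606 S u hu (b := 0.65) (N := 13/5) (q := 4.3) (T := 0.009029) (by norm_num) (by linarith) hb1
      (by linarith) (by norm_num) (by linarith) low_q2_4 low_q2_6 low_q2_8
      ((h612_tail_conv_j9606 β _ (by norm_num)).trans (tail_10 β (by linarith) hc10)) ?_
    norm_num
    linarith
  by_cases hc11 : β ≤ 0.8
  · refine h612_core_j9606 S u hu (b := 0.7) (N := 14/5) (q := 4.6) (T := 0.005567) (by norm_num) (by linarith) hb1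
      (by linarith) (by norm_num) (by linarith) low_q3_4 low_q3_6 low_q3_8
      ((h612_tail_conv_j9606 β _ (by norm_num)).trans (tail_11 β (by linarith) hc11)) ?_
    norm_num
    linarith
  · refine h612_core_j9606 S u hu (b := 0.8) (N := 16 / 5) (q := 5.2) (T := (1 - β) * 0.015) (by norm_num)
      (by linarith) hb1
      (by linarith) (by norm_num) (by linarith) low_q4_4 low_q4_6 low_q4_8
      (tail_12 β (by linarith) hb1.le) ?_
    norm_num
    linarith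



end Pool.Agent.Helper82.GC
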