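import Pool.Agent.Helper82.GC.J9606

set_option autoImplicit false

open MeasureTheory Set

namespace Pool.Agent.Helper82.GC


noncomputable def hh_j9608 (a b t y : ℝ) : ℝ :=
  phi 1 (Real.sqrt (a - y) * t) * phi 1 (Real.sqrt (b + y) * t)

noncomputable def hp_j9608 (a b t y : ℝ) : ℝ :=
  (t ^ 2 / 2) * (psi 1 (Real.sqrt (a - y) * t) * phi 1 (Real.sqrt (b + y) * t) -
    psi 1 (Real.sqrt (b + y) * t) * phi 1 (Real.sqrt (a - y) * t))

theorem phi_sqrt_deriv_j9608 (t x : ℝ) (hx : 0 < x) :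
    HasDerivAt (fun x => phi 1 (Real.sqrt x * t)) (-(t ^ 2 / 2) * psi 1 (Real.sqrt x * t)) x := by
  have h1 := (Real.hasDerivAt_sqrt hx.ne').mul_const t
  have h2 := (phi_deriv (Real.sqrt x * t)).comp x h1
  refine h2.congr_deriv ?_
  have h3 : Real.sqrt x ≠ 0 := (Real.sqrt_pos.mpr hx).ne'
  field_simp

theorem hh_deriv_j9608 (a b t y : ℝ) (h1 : 0 < a - y) (h2 : 0 < b + y) :
    HasDerivAt (hh_j9608 a b t) (hp_j9608 a b t y) y := by
  have e1 : HasDerivAt (fun y : ℝ => a - y) (-1) y := (hasDerivAt_id y).const_sub a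
  have e2 : HasDerivAt (fun y : ℝ => b + y) 1 y := (hasDerivAt_id y).const_add b
  have e3 := (phi_sqrt_deriv_j9608 t (a - y) h1).comp y e1
  have e4 := (phi_sqrt_deriv_j9608 t (b + y) h2).comp y e2
  have e5 := e3.mul e4
  refine e5.congr_deriv ?_
  simp only [Function.comp_apply, hp_j9608]
  ring

theorem hh_cont_y_j9608 (a b t : ℝ) : Continuous (hh_j9608 a b t) := by
  unfold hh_j9608
  have := phi_contN
  fun_prop

theorem hp_cont_y_j9608 (a b t : ℝ) : Continuous (hp_j9608 a b t) := by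
  unfold hp_j9608
  have := phi_contN
  have := psi_continuous
  fun_prop

theorem hh_cont_t_j9608 (a b y : ℝ) : Continuous (fun t => hh_j9608 a b t y) := by
  unfold hh_j9608
  have := phi_contN
  fun_prop

theorem hh_slope_j9608 (a b t y : ℝ) (hb : 0 ≤ b) (hy : 0 < y) (hya : y ≤ a / 2) :
    ∃ ξ ∈ Ioo 0 y, (hh_j9608 a b t y - hh_j9608 a b t 0) / y = hp_j9608 a b t ξ := by
  obtain ⟨ξ, hξ, he⟩ := exists_hasDerivAt_eq_slope (hh_j9608 a b t) (hp_j9608 a b t) hy
    (hh_cont_y_j9608 a b t).continuousOn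
    (fun x hx => hh_deriv_j9608 a b t x (by linarith [hx.2]) (by linarith [hx.1]))
  refine ⟨ξ, hξ, ?_⟩
  rw [he, sub_zero]

theorem slope_tendsto_j9608 (a b t : ℝ) (ha : 0 < a) (hb : 0 ≤ b) :
    Filter.Tendsto (fun y => (hh_j9608 a b t y - hh_j9608 a b t 0) / y) (nhdsWithin 0 (Ioi 0))
      (nhds (hp_j9608 a b t 0)) := by
  rw [Metric.tendsto_nhdsWithin_nhds]
  intro ε hε
  obtain ⟨δ, hδ, H⟩ := Metric.continuousAt_iff.mp ((hp_cont_y_j9608 a b t).continuousAt (x := 0)) ε hε
  refine ⟨min δ (a / 2), by positivity, ?_⟩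
  intro y hy hyd
  rw [Real.dist_eq, sub_zero, abs_of_pos hy] at hyd
  obtain ⟨ξ, hξ, he⟩ := hh_slope_j9608 a b t y hb hy (hyd.le.trans (min_le_right _ _))
  rw [he]
  apply H
  rw [Real.dist_eq, sub_zero, abs_of_pos hξ.1]
  exact hξ.2.trans (hyd.trans_le (min_le_left _ _))

theorem decay_gen_j9608 (f : ℝ → ℝ) (hf : ∀ z, f (-z) = f z) (M c z1 : ℝ) (hz1 : 0 < z1) (hM0 : 0 ≤ M)
    (hc0 : 0 ≤ c) (hM : ∀ z, |f z| ≤ M) (hc : ∀ z, z1 ≤ z → |f z| ≤ c / z) (α : ℝ) (hα : 0 < α) :
    ∃ K > 0, ∀ x, α ≤ x → ∀ t, |f (Real.sqrt x * t)| ≤ K / (1 + |t|) := by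
  set r := Real.sqrt α with hr
  have hrpos : 0 < r := Real.sqrt_pos.mpr hα
  refine ⟨M * (1 + z1 / r) + c * (1 / z1 + 1 / r) + 1, by positivity, ?_⟩
  intro x hx t
  have hxr : r ≤ Real.sqrt x := Real.sqrt_le_sqrt hx
  have hxpos : 0 < Real.sqrt x := lt_of_lt_of_le hrpos hxr
  have ht1 : (0:ℝ) < 1 + |t| := by positivity
  have h1 : |f (Real.sqrt x * t)| = |f (Real.sqrt x * |t|)| := by
    rcases abs_choice t with h | h
    · rw [h]
    · rw [h, mul_neg, hf]
  rw [h1, le_div_iff₀ ht1]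
  set z := Real.sqrt x * |t| with hz
  have hz0 : 0 ≤ z := by positivity
  have htz : r * |t| ≤ z := mul_le_mul_of_nonneg_right hxr (abs_nonneg t)
  rcases le_or_gt z1 z with h | h
  · have hzpos : 0 < z := lt_of_lt_of_le hz1 h
    have h2 : 1 + |t| ≤ z * (1 / z1 + 1 / r) := by
      have e1 : 1 ≤ z * (1 / z1) := by
        rw [mul_one_div, le_div_iff₀ hz1]; linarith
      have e2 : |t| ≤ z * (1 / r) := by
        rw [mul_one_div, le_div_iff₀ hrpos]; linarith
      rw [mul_add]; linarith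
    calc |f z| * (1 + |t|) ≤ c / z * (z * (1 / z1 + 1 / r)) := by
          apply mul_le_mul (hc z h) h2 (by positivity) (by positivity)
      _ = c * (1 / z1 + 1 / r) := by field_simp
      _ ≤ _ := by
          have : 0 ≤ M * (1 + z1 / r) := by positivity
          linarith
  · have h2 : 1 + |t| ≤ 1 + z1 / r := by
      have : |t| ≤ z1 / r := by
        rw [le_div_iff₀ hrpos]; linarith
      linarith
    calc |f z| * (1 + |t|) ≤ M * (1 + z1 / r) := by
          apply mul_le_mul (hM z) h2 (by positivity) hM0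
      _ ≤ _ := by
          have : 0 ≤ c * (1 / z1 + 1 / r) := by positivity
          linarith

theorem Pi_decay_j9608 {ι : Type*} (S : Finset ι) (s : ι → ℝ) (a : ℝ) (ha : 0 < a)
    (hs : ∀ k ∈ S, 0 ≤ s k ∧ s k ≤ a) (hN : 13 / 6 ≤ ∑ k ∈ S, s k / a) :
    ∃ Q > 0, ∀ t, |∏ k ∈ S, phi 1 (Real.sqrt (s k) * t)| ≤ (Q / (1 + |t|)) ^ (13 / 6 : ℝ) := by
  set r := Real.sqrt a with hr
  have hrpos : 0 < r := Real.sqrt_pos.mpr ha
  have hz0 : 0 < z0 := by linarith [z0_bounds.1]
  refine ⟨1 / z0 + 1 / r + 1 + z0 / r, by positivity, ?_⟩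
  intro t
  have ht1 : (0:ℝ) < 1 + |t| := by positivity
  have h1 : |∏ k ∈ S, phi 1 (Real.sqrt (s k) * t)| =
      ∏ k ∈ S, |phi 1 (Real.sqrt (s k / a) * (r * |t|))| := by
    rw [Finset.abs_prod]
    refine Finset.prod_congr rfl fun k hk => ?_
    have e1 : Real.sqrt (s k / a) * (r * |t|) = Real.sqrt (s k) * |t| := by
      rw [Real.sqrt_div (hs k hk).1, ← hr]
      field_simp
    rw [e1]
    rcases abs_choice t with h | h
    · rw [h]
    · rw [h, mul_neg, phi_neg]
  rw [h1]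
  rcases le_or_gt z0 (r * |t|) with h | h
  · have hτ : 0 < r * |t| := lt_of_lt_of_le hz0 h
    have h2 := decay_prod S (fun k => s k / a)
      (fun k hk => ⟨div_nonneg (hs k hk).1 ha.le, (div_le_one ha).mpr (hs k hk).2⟩) (r * |t|) h
    refine h2.trans ?_
    have h3 : 0 < 0.73 / (r * |t|) := by positivity
    have h4 : 0.73 / (r * |t|) ≤ 1 := by
      rw [div_le_one hτ]
      linarith [z0_bounds.1]
    refine (Real.rpow_le_rpow_of_exponent_ge h3 h4 hN).trans ?_
    apply Real.rpow_le_rpow h3.le _ (by norm_num)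
    rw [div_le_div_iff₀ hτ ht1]
    have e1 : 1 ≤ (r * |t|) * (1 / z0) := by
      rw [mul_one_div, le_div_iff₀ hz0]; linarith
    have e2 : |t| = (r * |t|) * (1 / r) := by field_simp
    have e3 : 1 + |t| ≤ (1 / z0 + 1 / r) * (r * |t|) := by
      rw [add_mul]; linarith
    have e4 : 0 ≤ (1 + z0 / r) * (r * |t|) := by positivity
    nlinarith
  · have h2 : ∏ k ∈ S, |phi 1 (Real.sqrt (s k / a) * (r * |t|))| ≤ 1 :=
      Finset.prod_le_one (fun k _ => abs_nonneg _) (fun k _ => abs_phi_le_one one_pos _)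
    refine h2.trans ?_
    apply Real.one_le_rpow _ (by norm_num)
    rw [le_div_iff₀ ht1]
    have e1 : |t| ≤ z0 / r := by
      rw [le_div_iff₀ hrpos]; linarith
    have e2 : 0 ≤ 1 / z0 + 1 / r := by positivity
    linarith

theorem int_pow_bound_j9608 (C Q p : ℝ) (hQ : 0 < Q) (hp1 : 1 < p) :
    Integrable (fun t : ℝ => C * (Q / (1 + |t|)) ^ p) := by
  have h1 : Integrable (fun t : ℝ => (1 + ‖t‖) ^ (-p)) :=
    integrable_one_add_norm (by simpa using hp1)
  have h2 : (fun t : ℝ => C * (Q / (1 + |t|)) ^ p) =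
      fun t : ℝ => (C * Q ^ p) * (1 + ‖t‖) ^ (-p) := by
    ext t
    have ht1 : (0:ℝ) < 1 + |t| := by positivity
    rw [Real.div_rpow hQ.le ht1.le, Real.norm_eq_abs, Real.rpow_neg ht1.le]
    ring
  rw [h2]
  exact h1.const_mul _

theorem J_increase {n : ℕ} (hn : 6 ≤ n) (s : Fin n → ℝ) (hs : ∀ k, 0 ≤ s k ∧ s k ≤ 0.24)
    (hsum : ∑ k, s k = 1) (i j : Fin n) (hi : ∀ k, s k ≤ s i) (hj : ∀ k, s j ≤ s k)
    (hij : s j < s i) :
    ∃ s' : Fin n → ℝ, (∀ k, 0 ≤ s' k ∧ s' k ≤ 0.24) ∧ ∑ k, s' k = 1 ∧ J 1 s < J 1 s' := by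
  classical
  set a := s i with ha
  set b := s j with hb
  have hne : j ≠ i := by
    rintro rfl
    exact lt_irrefl _ hij
  set S : Finset (Fin n) := (Finset.univ.erase i).erase j with hS
  have hb0 : 0 ≤ b := (hs j).1
  have hapos : 0 < a := lt_of_le_of_lt hb0 hij
  have ha24 : a ≤ 0.24 := (hs i).2
  have hprod : ∀ f : Fin n → ℝ, ∏ k, f k = f i * (f j * ∏ k ∈ S, f k) := by
    intro f
    rw [hS, Finset.mul_prod_erase _ _ (Finset.mem_erase.mpr ⟨hne, Finset.mem_univ _⟩),
      Finset.mul_prod_erase _ _ (Finset.mem_univ _)]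
  have hsumS : ∀ f : Fin n → ℝ, ∑ k, f k = f i + (f j + ∑ k ∈ S, f k) := by
    intro f
    rw [hS, Finset.add_sum_erase _ _ (Finset.mem_erase.mpr ⟨hne, Finset.mem_univ _⟩),
      Finset.add_sum_erase _ _ (Finset.mem_univ _)]
  have hcard : (S.card : ℝ) = n - 2 := by
    rw [hS, Finset.card_erase_of_mem (Finset.mem_erase.mpr ⟨hne, Finset.mem_univ _⟩),
      Finset.card_erase_of_mem (Finset.mem_univ _), Finset.card_univ, Fintype.card_fin]
    have : n - 1 - 1 = n - 2 := by omega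
    rw [this]
    push_cast [Nat.cast_sub (by omega : 2 ≤ n)]
    ring
  have hSs : ∑ k ∈ S, s k = 1 - a - b := by
    have := hsumS s
    rw [hsum] at this
    linarith
  have hNval : ∑ k ∈ S, s k / a = (1 - a - b) / a := by
    rw [← Finset.sum_div, hSs]
  have hN1 : 19 / 6 - b / a ≤ ∑ k ∈ S, s k / a := by
    rw [hNval, le_div_iff₀ hapos, sub_mul, div_mul_cancel₀ _ hapos.ne']
    linarith
  have hba1 : b / a < 1 := (div_lt_one hapos).mpr hij
  have hN0 : 13 / 6 ≤ ∑ k ∈ S, s k / a := by linarith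
  have hN2 : 4 * (b / a) ≤ ∑ k ∈ S, s k / a := by
    have h1 : ∑ k ∈ S, b / a ≤ ∑ k ∈ S, s k / a :=
      Finset.sum_le_sum fun k _ => div_le_div_of_nonneg_right (hj k) hapos.le
    rw [Finset.sum_const, nsmul_eq_mul, hcard] at h1
    have h2 : (6 : ℝ) ≤ n := by exact_mod_cast hn
    have h3 : 0 ≤ b / a := div_nonneg hb0 hapos.le
    nlinarith
  set P : ℝ → ℝ := fun t => ∏ k ∈ S, phi 1 (Real.sqrt (s k) * t) with hP
  have hPc : Continuous P := by
    refine continuous_finsetProd _ fun k _ => ?_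
    exact phi_contN.comp (continuous_const.mul continuous_id)
  obtain ⟨Q, hQ, hPb⟩ := Pi_decay_j9608 S s a hapos (fun k _ => ⟨(hs k).1, hi k⟩) hN0
  have ha2 : 0 < a / 2 := by linarith
  obtain ⟨K1, hK1, hphi⟩ := decay_gen_j9608 (phi 1) (phi_neg 1) 1 0.73 2.75 (by norm_num) (by norm_num)
    (by norm_num) (abs_phi_le_one one_pos) phi_decN (a / 2) ha2
  obtain ⟨K2, hK2, hpsi⟩ := decay_gen_j9608 (psi 1) psi_neg 0.3 0.75 3.75 (by norm_num) (by norm_num)
    (by norm_num) psi_bound (by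
      intro z hz
      refine (psi_decay z hz).trans ?_
      have hz0 : 0 < z := by linarith
      apply div_le_div_of_nonneg_left (by norm_num) hz0
      nlinarith) (a / 2) ha2
  -- bound of hp_j9608
  have hhp : ∀ t ξ : ℝ, 0 ≤ ξ → ξ ≤ a / 2 → |hp_j9608 a b t ξ| ≤ (K1 + K2) * (1 + |t|) := by
    intro t ξ h0 h1
    have ht1 : (0:ℝ) < 1 + |t| := by positivity
    have e1 := hphi (a - ξ) (by linarith) t
    have e2 := hpsi (a - ξ) (by linarith) t
    have e3 := abs_phi_le_one one_pos (Real.sqrt (b + ξ) * t)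
    have e4 := psi_bound (Real.sqrt (b + ξ) * t)
    unfold hp_j9608
    rw [abs_mul, abs_of_nonneg (by positivity : 0 ≤ t ^ 2 / 2)]
    have e5 : |psi 1 (Real.sqrt (a - ξ) * t) * phi 1 (Real.sqrt (b + ξ) * t) -
        psi 1 (Real.sqrt (b + ξ) * t) * phi 1 (Real.sqrt (a - ξ) * t)| ≤
        K2 / (1 + |t|) * 1 + 0.3 * (K1 / (1 + |t|)) := by
      refine (abs_sub _ _).trans ?_
      rw [abs_mul, abs_mul]
      exact add_le_add (mul_le_mul e2 e3 (abs_nonneg _) (by positivity))
        (mul_le_mul e4 e1 (abs_nonneg _) (by norm_num))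
    have e6 : K2 / (1 + |t|) * 1 + 0.3 * (K1 / (1 + |t|)) ≤ (K1 + K2) / (1 + |t|) := by
      have : 0 < K1 / (1 + |t|) := by positivity
      rw [add_div]
      linarith
    calc t ^ 2 / 2 * _ ≤ (1 + |t|) ^ 2 * ((K1 + K2) / (1 + |t|)) := by
          apply mul_le_mul _ (e5.trans e6) (abs_nonneg _) (by positivity)
          rw [← sq_abs t]
          nlinarith [abs_nonneg t]
      _ = (K1 + K2) * (1 + |t|) := by field_simp
  -- the dominating function
  set bd : ℝ → ℝ := fun t => ((K1 + K2) * Q) * (Q / (1 + |t|)) ^ (7 / 6 : ℝ) with hbd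
  have hbdi : Integrable bd := int_pow_bound_j9608 _ Q _ hQ (by norm_num)
  have hpP : ∀ t ξ : ℝ, 0 ≤ ξ → ξ ≤ a / 2 → |hp_j9608 a b t ξ * P t| ≤ bd t := by
    intro t ξ h0 h1
    have ht1 : (0:ℝ) < 1 + |t| := by positivity
    rw [abs_mul]
    calc |hp_j9608 a b t ξ| * |P t| ≤ ((K1 + K2) * (1 + |t|)) * (Q / (1 + |t|)) ^ (13 / 6 : ℝ) :=
          mul_le_mul (hhp t ξ h0 h1) (hPb t) (abs_nonneg _) (by positivity)
      _ = bd t := by
          have e : (13 / 6 : ℝ) = 7 / 6 + 1 := by norm_num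
          rw [hbd, e, Real.rpow_add_one (by positivity)]
          field_simp
  -- slopes
  set Fy : ℝ → ℝ → ℝ := fun y t => (hh_j9608 a b t y - hh_j9608 a b t 0) / y * P t with hFy
  have hFyc : ∀ y, Continuous (Fy y) := by
    intro y
    exact (((hh_cont_t_j9608 a b y).sub (hh_cont_t_j9608 a b 0)).div_const y).mul hPc
  have hFyb : ∀ y, 0 < y → y ≤ a / 2 → ∀ t, ‖Fy y t‖ ≤ bd t := by
    intro y hy hya t
    obtain ⟨ξ, hξ, he⟩ := hh_slope_j9608 a b t y hb0 hy hya
    simp only [hFy]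
    rw [he, Real.norm_eq_abs]
    exact hpP t ξ hξ.1.le (hξ.2.le.trans hya)
  have hlim : Filter.Tendsto (fun y => ∫ t, Fy y t) (nhdsWithin 0 (Ioi 0))
      (nhds (∫ t, hp_j9608 a b t 0 * P t)) := by
    apply tendsto_integral_filter_of_dominated_convergence bd
    · exact Filter.Eventually.of_forall fun y => (hFyc y).aestronglyMeasurable
    · filter_upwards [Ioo_mem_nhdsGT ha2] with y hy
      exact Filter.Eventually.of_forall fun t => hFyb y hy.1 hy.2.le t
    · exact hbdi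
    · exact Filter.Eventually.of_forall fun t => (slope_tendsto_j9608 a b t hapos hb0).mul_const (P t)
  -- positivity of the limit
  have hpos : 0 < ∫ t, hp_j9608 a b t 0 * P t := by
    obtain ⟨-, hpp⟩ := pair_pos S (fun k => s k / a)
      (fun k _ => ⟨div_nonneg (hs k).1 hapos.le, (div_le_one hapos).mpr (hi k)⟩) (b / a)
      (div_nonneg hb0 hapos.le) hba1 hN1 hN2
    set r := Real.sqrt a with hr
    have hrpos : 0 < r := Real.sqrt_pos.mpr hapos
    have hr2 : r ^ 2 = a := Real.sq_sqrt hapos.le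
    have heven : ∀ t, hp_j9608 a b t 0 * P t = (fun t => hp_j9608 a b t 0 * P t) |t| := by
      intro t
      rcases abs_choice t with h | h
      · rw [h]
      · rw [h]
        simp only [hp_j9608, hP, mul_neg, phi_neg, psi_neg, even_two.neg_pow]
    have h1 : ∫ t, hp_j9608 a b t 0 * P t = 2 * ∫ t in Ioi (0:ℝ), hp_j9608 a b t 0 * P t := by
      rw [← integral_comp_abs (f := fun t => hp_j9608 a b t 0 * P t)]
      exact integral_congr_ae (Filter.Eventually.of_forall heven)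
    let g : ℝ → ℝ := fun τ => 1 / (2 * a) * (τ ^ 2 * (psi 1 τ * phi 1 (Real.sqrt (b / a) * τ) -
          psi 1 (Real.sqrt (b / a) * τ) * phi 1 τ) *
          ∏ k ∈ S, phi 1 (Real.sqrt (s k / a) * τ))
    have h2 : ∀ t ∈ Ioi (0:ℝ), hp_j9608 a b t 0 * P t = g (r * t) := by
      intro t _
      show hp_j9608 a b t 0 * P t = 1 / (2 * a) * ((r * t) ^ 2 *
        (psi 1 (r * t) * phi 1 (Real.sqrt (b / a) * (r * t)) -
          psi 1 (Real.sqrt (b / a) * (r * t)) * phi 1 (r * t)) *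
          ∏ k ∈ S, phi 1 (Real.sqrt (s k / a) * (r * t)))
      have e1 : ∀ x, 0 ≤ x → Real.sqrt (x / a) * (r * t) = Real.sqrt x * t := by
        intro x hx
        rw [Real.sqrt_div hx, ← hr]
        field_simp
      simp only [hp_j9608, hP, sub_zero, add_zero]
      rw [e1 b hb0, ← hr]
      have e2 : ∏ k ∈ S, phi 1 (Real.sqrt (s k / a) * (r * t)) =
          ∏ k ∈ S, phi 1 (Real.sqrt (s k) * t) :=
        Finset.prod_congr rfl fun k _ => by rw [e1 _ (hs k).1]
      rw [e2]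
      have e3 : 1 / (2 * a) * (r * t) ^ 2 = t ^ 2 / 2 := by
        rw [mul_pow, hr2]
        field_simp
      rw [← e3]
      ring
    rw [h1, setIntegral_congr_fun measurableSet_Ioi h2, integral_comp_mul_left_Ioi g 0 hrpos,
      mul_zero]
    simp only [g]
    rw [integral_const_mul, smul_eq_mul]
    positivity
  -- choose y
  have hab2 : 0 < min (a / 2) (a - b) := lt_min ha2 (by linarith)
  have hev := hlim.eventually (lt_mem_nhds hpos)
  obtain ⟨y, hyI, hyp⟩ := ((Ioo_mem_nhdsGT hab2 : Ioo 0 (min (a / 2) (a - b)) ∈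
    nhdsWithin (0:ℝ) (Ioi 0)) |> fun h => (Filter.Eventually.and (Filter.eventually_of_mem h
      (fun _ hx => hx)) hev).exists)
  have hy0 : 0 < y := hyI.1
  have hya : y ≤ a / 2 := (hyI.2.trans_le (min_le_left _ _)).le
  have hyab : y ≤ a - b := (hyI.2.trans_le (min_le_right _ _)).le
  let s' : Fin n → ℝ := fun k => if k = i then a - y else if k = j then b + y else s k
  have hs'i : s' i = a - y := by simp [s']
  have hs'j : s' j = b + y := by simp [s', hne]
  have hs'S : ∀ k ∈ S, s' k = s k := by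
    intro k hk
    rw [hS, Finset.mem_erase, Finset.mem_erase] at hk
    simp [s', hk.1, hk.2.1]
  refine ⟨s', ?_, ?_, ?_⟩
  · intro k
    by_cases h1 : k = i
    · rw [h1, hs'i]
      constructor <;> linarith
    · by_cases h2 : k = j
      · rw [h2, hs'j]
        constructor <;> linarith
      · have : s' k = s k := by simp [s', h1, h2]
        rw [this]
        exact hs k
  · rw [hsumS, hs'i, hs'j, Finset.sum_congr rfl hs'S, hSs]
    ring
  · have hJs : J 1 s = ∫ t, hh_j9608 a b t 0 * P t := by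
      unfold J
      congr 1
      ext t
      rw [hprod (fun k => phi 1 (Real.sqrt (s k) * t))]
      simp only [hh_j9608, hP, sub_zero, add_zero, mul_assoc]
      rfl
    have hJs' : J 1 s' = ∫ t, hh_j9608 a b t y * P t := by
      unfold J
      congr 1
      ext t
      rw [hprod (fun k => phi 1 (Real.sqrt (s' k) * t))]
      simp only [hh_j9608, hP, mul_assoc]
      rw [hs'i, hs'j]
      congr 2
      refine Finset.prod_congr rfl fun k hk => ?_
      rw [hs'S k hk]
    have hint0 : Integrable (fun t => hh_j9608 a b t 0 * P t) := by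
      refine Integrable.mono' (int_pow_bound_j9608 1 Q (13 / 6) hQ (by norm_num))
        ((hh_cont_t_j9608 a b 0).mul hPc).aestronglyMeasurable ?_
      refine Filter.Eventually.of_forall fun t => ?_
      rw [Real.norm_eq_abs, abs_mul]
      have e1 : |hh_j9608 a b t 0| ≤ 1 := by
        unfold hh_j9608
        rw [abs_mul]
        exact mul_le_one₀ (abs_phi_le_one one_pos _) (abs_nonneg _) (abs_phi_le_one one_pos _)
      exact mul_le_mul e1 (hPb t) (abs_nonneg _) zero_le_one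
    have hint1 : Integrable (fun t => y * Fy y t) := by
      apply Integrable.const_mul
      exact hbdi.mono' (hFyc y).aestronglyMeasurable
        (Filter.Eventually.of_forall fun t => hFyb y hy0 hya t)
    have hsplit : (fun t => hh_j9608 a b t y * P t) =
        fun t => hh_j9608 a b t 0 * P t + y * Fy y t := by
      ext t
      simp only [hFy]
      field_simp
      ring
    rw [hJs, hJs', hsplit, integral_add hint0 hint1, integral_const_mul]
    have : 0 < y * ∫ t, Fy y t := mul_pos hy0 hyp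
    linarith




end Pool.Agent.Helper82.GC
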