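import Pool.Agent.Helper82.GC.A2

set_option autoImplicit false

open MeasureTheory Set

namespace Pool.Agent.Helper82.GC






theorem phi_hasDerivAt_psi {r : ℝ} (hr : 0 < r) (z : ℝ) :
    HasDerivAt (phi r) (-(z * psi r z)) z := by
  refine (phi_hasDerivAt hr z).congr_deriv ?_
  unfold psi
  by_cases hz : z = 0
  · subst hz; simp
  · rw [Real.sinc_of_ne_zero (mul_ne_zero hr.ne' hz)]
    field_simp
    ring

/-- monotonicity on an interval -/
theorem mono_aux {f f' : ℝ → ℝ} {a b : ℝ} (hab : a ≤ b) (hc : ContinuousOn f (Icc a b))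
    (hd : ∀ x ∈ Ioo a b, HasDerivAt f (f' x) x) (h : ∀ x ∈ Ioo a b, 0 ≤ f' x) : f a ≤ f b := by
  have hm : MonotoneOn f (Icc a b) := by
    apply monotoneOn_of_deriv_nonneg (convex_Icc a b) hc
    · rw [interior_Icc]
      exact fun x hx => (hd x hx).differentiableAt.differentiableWithinAt
    · rw [interior_Icc]
      intro x hx
      rw [(hd x hx).deriv]
      exact h x hx
  exact hm (left_mem_Icc.2 hab) (right_mem_Icc.2 hab) hab

theorem sin_lower {u : ℝ} (hu : 0 ≤ u) : 0 ≤ Real.sin u - u + u ^ 3 / 6 := by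
  have := mono_aux (f := fun x => Real.sin x - x + x ^ 3 / 6)
    (f' := fun x => Real.cos x - 1 + x ^ 2 / 2) hu (by fun_prop)
    (fun x _ => by
      have := ((Real.hasDerivAt_sin x).sub (hasDerivAt_id x)).add (((hasDerivAt_id x).pow 3).div_const 6)
      refine this.congr_deriv ?_
      simp only [id]
      ring)
    (fun x _ => by
      have := Real.one_sub_sq_div_two_le_cos (x := x)
      linarith)
  simpa using this

theorem hasDeriv_sc (x : ℝ) :
    HasDerivAt (fun x => Real.sin x - x * Real.cos x) (x * Real.sin x) x := by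
  have := (Real.hasDerivAt_sin x).sub ((hasDerivAt_id x).mul (Real.hasDerivAt_cos x))
  refine this.congr_deriv ?_
  simp only [id]
  ring

theorem sc_upper {u : ℝ} (hu : 0 ≤ u) : 0 ≤ u ^ 3 / 3 - (Real.sin u - u * Real.cos u) := by
  have := mono_aux (f := fun x => x ^ 3 / 3 - (Real.sin x - x * Real.cos x))
    (f' := fun x => x ^ 2 - x * Real.sin x) hu (by fun_prop)
    (fun x _ => by
      have := (((hasDerivAt_id x).pow 3).div_const 3).sub (hasDeriv_sc x)
      refine this.congr_deriv ?_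
      simp only [id]
      ring)
    (fun x hx => by
      have h1 := Real.sin_le hx.1.le
      have h2 := mul_le_mul_of_nonneg_left h1 hx.1.le
      linarith)
  simpa using this

theorem sc_lower' {u : ℝ} (hu : 0 ≤ u) : 0 ≤ u ^ 3 / 3 + (Real.sin u - u * Real.cos u) := by
  have := mono_aux (f := fun x => x ^ 3 / 3 + (Real.sin x - x * Real.cos x))
    (f' := fun x => x ^ 2 + x * Real.sin x) hu (by fun_prop)
    (fun x _ => by
      have := (((hasDerivAt_id x).pow 3).div_const 3).add (hasDeriv_sc x)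
      refine this.congr_deriv ?_
      simp only [id]
      ring)
    (fun x hx => by
      have h1 := (abs_le.1 (Real.abs_sin_le_abs (x := x))).1
      rw [abs_of_pos hx.1] at h1
      have h2 := mul_le_mul_of_nonneg_left h1 hx.1.le
      linarith)
  simpa using this

theorem sc_lower {u : ℝ} (hu : 0 ≤ u) :
    0 ≤ (Real.sin u - u * Real.cos u) - u ^ 3 / 3 + u ^ 5 / 30 := by
  have := mono_aux (f := fun x => (Real.sin x - x * Real.cos x) - x ^ 3 / 3 + x ^ 5 / 30)
    (f' := fun x => x * Real.sin x - x ^ 2 + x ^ 4 / 6) hu (by fun_prop)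
    (fun x _ => by
      have := ((hasDeriv_sc x).sub (((hasDerivAt_id x).pow 3).div_const 3)).add
        (((hasDerivAt_id x).pow 5).div_const 30)
      refine this.congr_deriv ?_
      simp only [id]
      ring)
    (fun x hx => by
      have h1 := sin_lower hx.1.le
      have h2 := mul_nonneg hx.1.le h1
      linarith)
  simpa using this

theorem sinc_hasDeriv {x : ℝ} (hx : 0 < x) :
    HasDerivAt Real.sinc ((x * Real.cos x - Real.sin x) / x ^ 2) x := by
  have h1 : HasDerivAt (fun x => Real.sin x / x) ((x * Real.cos x - Real.sin x) / x ^ 2) x := by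
    refine ((Real.hasDerivAt_sin x).div (hasDerivAt_id x) hx.ne').congr_deriv ?_
    simp only [id]
    ring
  refine h1.congr_of_eventuallyEq ?_
  filter_upwards [isOpen_ne.mem_nhds hx.ne'] with y hy
  exact Real.sinc_of_ne_zero hy

theorem sinc_S1 {v u : ℝ} (hv : 0 ≤ v) (hvu : v ≤ u) :
    Real.sinc v + v ^ 2 / 6 ≤ Real.sinc u + u ^ 2 / 6 := by
  have hcs := Real.continuous_sinc
  exact mono_aux (f := fun x => Real.sinc x + x ^ 2 / 6)
    (f' := fun x => (x ^ 3 / 3 - (Real.sin x - x * Real.cos x)) / x ^ 2) hvu (by fun_prop)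
    (fun x hx => by
      have hx0 : 0 < x := hv.trans_lt hx.1
      have := (sinc_hasDeriv hx0).add (((hasDerivAt_id x).pow 2).div_const 6)
      refine this.congr_deriv ?_
      simp only [id]
      field_simp
      ring)
    (fun x hx => by
      have hx0 : 0 < x := hv.trans_lt hx.1
      exact div_nonneg (sc_upper hx0.le) (by positivity))

theorem sinc_S2 {v u : ℝ} (hv : 0 ≤ v) (hvu : v ≤ u) :
    v ^ 2 / 6 - Real.sinc v ≤ u ^ 2 / 6 - Real.sinc u := by
  have hcs := Real.continuous_sinc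
  exact mono_aux (f := fun x => x ^ 2 / 6 - Real.sinc x)
    (f' := fun x => (x ^ 3 / 3 + (Real.sin x - x * Real.cos x)) / x ^ 2) hvu (by fun_prop)
    (fun x hx => by
      have hx0 : 0 < x := hv.trans_lt hx.1
      have := (((hasDerivAt_id x).pow 2).div_const 6).sub (sinc_hasDeriv hx0)
      refine this.congr_deriv ?_
      simp only [id]
      field_simp
      ring)
    (fun x hx => by
      have hx0 : 0 < x := hv.trans_lt hx.1
      exact div_nonneg (sc_lower' hx0.le) (by positivity))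

theorem sinc_S3 {v u : ℝ} (hv : 0 ≤ v) (hvu : v ≤ u) :
    -Real.sinc v - v ^ 2 / 6 + v ^ 4 / 120 ≤ -Real.sinc u - u ^ 2 / 6 + u ^ 4 / 120 := by
  have hcs := Real.continuous_sinc
  exact mono_aux (f := fun x => -Real.sinc x - x ^ 2 / 6 + x ^ 4 / 120)
    (f' := fun x => ((Real.sin x - x * Real.cos x) - x ^ 3 / 3 + x ^ 5 / 30) / x ^ 2) hvu
    (by fun_prop)
    (fun x hx => by
      have hx0 : 0 < x := hv.trans_lt hx.1
      have := ((sinc_hasDeriv hx0).neg.sub (((hasDerivAt_id x).pow 2).div_const 6)).add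
        (((hasDerivAt_id x).pow 4).div_const 120)
      refine this.congr_deriv ?_
      simp only [id]
      field_simp
      ring)
    (fun x hx => by
      have hx0 : 0 < x := hv.trans_lt hx.1
      exact div_nonneg (sc_lower hx0.le) (by positivity))

theorem Kr_pos {r : ℝ} (hr : 0 < r) : 0 < Kr r := by
  have h := Zr_pos hr
  unfold Kr
  positivity

theorem abs_psi_le {r : ℝ} (hr : 0 < r) (z : ℝ) : |psi r z| ≤ 1 + Kr r := by
  unfold psi
  have h1 := abs_phi_le_one hr z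
  have h2 : |Kr r * Real.sinc (r * z)| ≤ Kr r := by
    rw [abs_mul, abs_of_pos (Kr_pos hr)]
    exact mul_le_of_le_one_right (Kr_pos hr).le (Real.abs_sinc_le_one _)
  have h3 := abs_sub (phi r z) (Kr r * Real.sinc (r * z))
  linarith

theorem phi_continuous {r : ℝ} (hr : 0 < r) : Continuous (phi r) :=
  continuous_iff_continuousAt.2 fun z => (phi_hasDerivAt_psi hr z).continuousAt

theorem phi_diff {r : ℝ} (hr : 0 < r) {α β : ℝ} (hβ : 0 ≤ β) (hαβ : β ≤ α) :
    |phi r α - phi r β| ≤ (1 + Kr r) / 2 * (α ^ 2 - β ^ 2) := by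
  have hcp := phi_continuous hr
  have h1 := mono_aux (f := fun x => phi r x + (1 + Kr r) / 2 * x ^ 2)
    (f' := fun x => x * ((1 + Kr r) - psi r x)) hαβ (by fun_prop)
    (fun x _ => by
      have := (phi_hasDerivAt_psi hr x).add (((hasDerivAt_id x).pow 2).const_mul ((1 + Kr r) / 2))
      refine this.congr_deriv ?_
      simp only [id]
      ring)
    (fun x hx => by
      have hx0 : 0 < x := hβ.trans_lt hx.1
      have := (abs_le.1 (abs_psi_le hr x)).2
      exact mul_nonneg hx0.le (by linarith))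
  have h2 := mono_aux (f := fun x => (1 + Kr r) / 2 * x ^ 2 - phi r x)
    (f' := fun x => x * ((1 + Kr r) + psi r x)) hαβ (by fun_prop)
    (fun x _ => by
      have := (((hasDerivAt_id x).pow 2).const_mul ((1 + Kr r) / 2)).sub (phi_hasDerivAt_psi hr x)
      refine this.congr_deriv ?_
      simp only [id]
      ring)
    (fun x hx => by
      have hx0 : 0 < x := hβ.trans_lt hx.1
      have := (abs_le.1 (abs_psi_le hr x)).1
      exact mul_nonneg hx0.le (by linarith))
  rw [abs_le]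
  constructor <;> linarith

theorem bracket_eq (r α β : ℝ) : psi r α * phi r β - phi r α * psi r β =
    Kr r * ((phi r α - phi r β) * Real.sinc (r * β) +
      (Real.sinc (r * β) - Real.sinc (r * α)) * phi r β) := by
  unfold psi
  ring

theorem bracket_upper {r : ℝ} (hr : 0 < r) :
    ∃ C : ℝ, 0 ≤ C ∧ ∀ α β : ℝ, 0 ≤ β → β ≤ α →
      |psi r α * phi r β - phi r α * psi r β| ≤ C * (α ^ 2 - β ^ 2) := by
  have hK := Kr_pos hr
  refine ⟨Kr r * ((1 + Kr r) / 2 + r ^ 2 / 6), by positivity, fun α β hβ hαβ => ?_⟩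
  have hsq : 0 ≤ α ^ 2 - β ^ 2 := by
    have := pow_le_pow_left₀ hβ hαβ 2
    linarith
  rw [bracket_eq, abs_mul, abs_of_pos hK, mul_assoc]
  apply mul_le_mul_of_nonneg_left _ hK.le
  have h1 := phi_diff hr hβ hαβ
  have hrβ : 0 ≤ r * β := by positivity
  have hrα : r * β ≤ r * α := mul_le_mul_of_nonneg_left hαβ hr.le
  have h2 := sinc_S1 hrβ hrα
  have h3 := sinc_S2 hrβ hrα
  have h4 : |Real.sinc (r * β) - Real.sinc (r * α)| ≤ r ^ 2 / 6 * (α ^ 2 - β ^ 2) := by
    rw [abs_le]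
    constructor
    · have e : (r * α) ^ 2 / 6 - (r * β) ^ 2 / 6 = r ^ 2 / 6 * (α ^ 2 - β ^ 2) := by ring
      linarith
    · have e : (r * α) ^ 2 / 6 - (r * β) ^ 2 / 6 = r ^ 2 / 6 * (α ^ 2 - β ^ 2) := by ring
      linarith
  have h5 : |(phi r α - phi r β) * Real.sinc (r * β)| ≤ (1 + Kr r) / 2 * (α ^ 2 - β ^ 2) := by
    rw [abs_mul]
    exact (mul_le_of_le_one_right (abs_nonneg _) (Real.abs_sinc_le_one _)).trans h1
  have h6 : |(Real.sinc (r * β) - Real.sinc (r * α)) * phi r β| ≤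
      r ^ 2 / 6 * (α ^ 2 - β ^ 2) := by
    rw [abs_mul]
    exact (mul_le_of_le_one_right (abs_nonneg _) (abs_phi_le_one hr _)).trans h4
  have h7 := abs_add_le ((phi r α - phi r β) * Real.sinc (r * β))
    ((Real.sinc (r * β) - Real.sinc (r * α)) * phi r β)
  linarith
theorem bracket_lower {r : ℝ} (hr : 0 < r) :
    ∃ c : ℝ, 0 < c ∧ ∃ w0 : ℝ, 0 < w0 ∧ ∀ α β : ℝ, 0 ≤ β → β ≤ α → α ^ 2 ≤ w0 →
      c * (α ^ 2 - β ^ 2) ≤ psi r α * phi r β - phi r α * psi r β := by
  have hK := Kr_pos hr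
  have hv0 := vr_pos hr
  have hv1 := vr_lt hr
  obtain ⟨η, hη⟩ : ∃ η, η = r ^ 2 / 3 - vr r := ⟨_, rfl⟩
  have hη0 : 0 < η := by rw [hη]; linarith
  -- continuity of psi at 0
  have hpsi0 : psi r 0 = vr r := by
    unfold psi vr
    rw [phi_zero hr, mul_zero, Real.sinc_zero, mul_one]
  have hpc : ContinuousAt (psi r) 0 := by
    have h1 := phi_continuous hr
    have h2 := Real.continuous_sinc
    have h3 : Continuous (psi r) := by unfold psi; fun_prop
    exact h3.continuousAt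
  obtain ⟨δ, hδ, hball⟩ := Metric.continuousAt_iff.1 hpc (η / 4) (by positivity)
  have hpsi : ∀ x, 0 ≤ x → x < δ → psi r x ≤ vr r + η / 4 := by
    intro x hx0 hx1
    have h1 := @hball x (by rw [Real.dist_eq, sub_zero, abs_of_nonneg hx0]; exact hx1)
    rw [Real.dist_eq, hpsi0] at h1
    have := (abs_lt.1 h1).2
    linarith
  obtain ⟨A, hA⟩ : ∃ A, A = r ^ 2 / 6 * (r ^ 2 / 10 + vr r / 2) := ⟨_, rfl⟩
  have hA0 : 0 < A := by rw [hA]; positivity
  have hB0 : 0 < r ^ 2 + vr r := by positivity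
  refine ⟨Kr r * (η / 4), by positivity,
    min (δ ^ 2 / 4) (min (η / 8 / A) (1 / (r ^ 2 + vr r))), by positivity,
    fun α β hβ hαβ hα => ?_⟩
  have w1 : α ^ 2 ≤ δ ^ 2 / 4 := hα.trans (min_le_left _ _)
  have w2 : α ^ 2 ≤ η / 8 / A := hα.trans ((min_le_right _ _).trans (min_le_left _ _))
  have w3 : α ^ 2 ≤ 1 / (r ^ 2 + vr r) :=
    hα.trans ((min_le_right _ _).trans (min_le_right _ _))
  have hα0 : 0 ≤ α := hβ.trans hαβ
  have hsq : β ^ 2 ≤ α ^ 2 := pow_le_pow_left₀ hβ hαβ 2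
  have hαδ : α < δ := by
    have h1 : α ≤ δ / 2 := by
      apply le_of_sq_le_sq _ (by positivity)
      rw [div_pow]; linarith
    linarith
  rw [le_div_iff₀ hA0] at w2
  rw [le_div_iff₀ hB0] at w3
  have w4 : r ^ 2 * α ^ 2 ≤ 1 := by
    have : 0 ≤ vr r * α ^ 2 := by positivity
    linarith
  have w5 : vr r * α ^ 2 ≤ 1 := by
    have : 0 ≤ r ^ 2 * α ^ 2 := by positivity
    linarith
  have w6 : r ^ 2 * β ^ 2 ≤ r ^ 2 * α ^ 2 := mul_le_mul_of_nonneg_left hsq (by positivity)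
  have w7 : vr r * β ^ 2 ≤ vr r * α ^ 2 := mul_le_mul_of_nonneg_left hsq hv0.le
  -- first term
  have hcp := phi_continuous hr
  have h1 := mono_aux (f := fun x => phi r x + (vr r + η / 4) / 2 * x ^ 2)
    (f' := fun x => x * ((vr r + η / 4) - psi r x)) hαβ (by fun_prop)
    (fun x _ => by
      have := (phi_hasDerivAt_psi hr x).add
        (((hasDerivAt_id x).pow 2).const_mul ((vr r + η / 4) / 2))
      refine this.congr_deriv ?_
      simp only [id]
      ring)
    (fun x hx => by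
      have hx0 : 0 < x := hβ.trans_lt hx.1
      have := hpsi x hx0.le (hx.2.trans hαδ)
      exact mul_nonneg hx0.le (by linarith))
  have hrβ : 0 ≤ r * β := by positivity
  have hrα : r * β ≤ r * α := mul_le_mul_of_nonneg_left hαβ hr.le
  have hsinc0 : 0 ≤ Real.sinc (r * β) := by
    have h2 := sinc_S1 le_rfl hrβ
    rw [Real.sinc_zero] at h2
    have e : (r * β) ^ 2 = r ^ 2 * β ^ 2 := by ring
    rw [e] at h2
    linarith
  have hsinc1 := Real.sinc_le_one (r * β)
  have hD : 0 ≤ α ^ 2 - β ^ 2 := by linarith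
  have t1 : -((vr r + η / 4) / 2 * (α ^ 2 - β ^ 2)) ≤
      (phi r α - phi r β) * Real.sinc (r * β) := by
    have h2 : -((vr r + η / 4) / 2 * (α ^ 2 - β ^ 2)) ≤ phi r α - phi r β := by linarith
    have h3 : -((vr r + η / 4) / 2 * (α ^ 2 - β ^ 2)) * Real.sinc (r * β) ≤
        (phi r α - phi r β) * Real.sinc (r * β) := mul_le_mul_of_nonneg_right h2 hsinc0
    have h4 : 0 ≤ (vr r + η / 4) / 2 * (α ^ 2 - β ^ 2) := by positivity
    have h5 : (vr r + η / 4) / 2 * (α ^ 2 - β ^ 2) * Real.sinc (r * β) ≤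
        (vr r + η / 4) / 2 * (α ^ 2 - β ^ 2) := mul_le_of_le_one_right h4 hsinc1
    linarith
  -- second term
  have h6 := sinc_S3 hrβ hrα
  have h7 : r ^ 2 / 6 * (α ^ 2 - β ^ 2) * (1 - r ^ 2 * α ^ 2 / 10) ≤
      Real.sinc (r * β) - Real.sinc (r * α) := by
    have e1 : (r * α) ^ 2 / 6 - (r * β) ^ 2 / 6 - ((r * α) ^ 4 / 120 - (r * β) ^ 4 / 120) =
        r ^ 2 / 6 * (α ^ 2 - β ^ 2) * (1 - r ^ 2 * (α ^ 2 + β ^ 2) / 20) := by ring
    have e2 : r ^ 2 / 6 * (α ^ 2 - β ^ 2) * (1 - r ^ 2 * α ^ 2 / 10) ≤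
        r ^ 2 / 6 * (α ^ 2 - β ^ 2) * (1 - r ^ 2 * (α ^ 2 + β ^ 2) / 20) := by
      apply mul_le_mul_of_nonneg_left _ (by positivity)
      have e3 : r ^ 2 * (α ^ 2 + β ^ 2) = r ^ 2 * α ^ 2 + r ^ 2 * β ^ 2 := by ring
      rw [e3]
      linarith
    linarith
  have h8 := phi_lower hr β
  have t2 : (α ^ 2 - β ^ 2) * (r ^ 2 / 6 - η / 8) ≤
      (Real.sinc (r * β) - Real.sinc (r * α)) * phi r β := by
    have p1 : 0 ≤ 1 - r ^ 2 * α ^ 2 / 10 := by linarith
    have p2 : 0 ≤ 1 - vr r * α ^ 2 / 2 := by linarith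
    have p3 : 1 - vr r * α ^ 2 / 2 ≤ phi r β := by linarith
    have p4 : 0 ≤ r ^ 2 / 6 * (α ^ 2 - β ^ 2) * (1 - r ^ 2 * α ^ 2 / 10) := by positivity
    have p5 : r ^ 2 / 6 * (α ^ 2 - β ^ 2) * (1 - r ^ 2 * α ^ 2 / 10) * (1 - vr r * α ^ 2 / 2) ≤
        (Real.sinc (r * β) - Real.sinc (r * α)) * phi r β :=
      mul_le_mul h7 p3 p2 (p4.trans h7)
    have p6 : 1 - (r ^ 2 / 10 + vr r / 2) * α ^ 2 ≤
        (1 - r ^ 2 * α ^ 2 / 10) * (1 - vr r * α ^ 2 / 2) := by
      have : 0 ≤ r ^ 2 * α ^ 2 / 10 * (vr r * α ^ 2 / 2) := by positivity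
      linarith
    have p7 : r ^ 2 / 6 - η / 8 ≤
        r ^ 2 / 6 * ((1 - r ^ 2 * α ^ 2 / 10) * (1 - vr r * α ^ 2 / 2)) := by
      have p8 := mul_le_mul_of_nonneg_left p6 (show 0 ≤ r ^ 2 / 6 by positivity)
      rw [hA] at w2
      linarith
    have p9 := mul_le_mul_of_nonneg_left p7 hD
    linarith
  rw [bracket_eq, mul_assoc]
  apply mul_le_mul_of_nonneg_left _ hK.le
  have e5 : r ^ 2 / 6 - η / 8 - (vr r + η / 4) / 2 = η / 4 := by rw [hη]; ring
  have e6 : (α ^ 2 - β ^ 2) * (r ^ 2 / 6 - η / 8) - (vr r + η / 4) / 2 * (α ^ 2 - β ^ 2) =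
      η / 4 * (α ^ 2 - β ^ 2) := by
    linear_combination (α ^ 2 - β ^ 2) * e5
  linarith

end Pool.Agent.Helper82.GC
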